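import Pool.Agent.P.MP_2f6447_an.K.Defs

/-! Definitions, second part. -/

open Set MeasureTheory Filter Topology Complex
open scoped ContDiff

namespace Pool.Agent.L2K

/-- the stress tensor as a bilinear form -/
noncomputable def tx (lam : ℝ) (u : ℂ → ℝ) (z a b : ℂ) : ℝ :=
  dot (grad u z) a * dot (grad u z) b - (‖grad u z‖ ^ 2 - lam * u z ^ 2 + 1) / 2 * dot a b

/-- reflection in the vertical line through `m` -/
noncomputable def fx (m : ℝ) (z : ℂ) : ℂ := ⟨2 * m - z.re, z.im⟩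

/-- reflection in the midline of the strip -/
noncomputable def fy (z : ℂ) : ℂ := ⟨z.re, Real.pi - z.im⟩

/-- odd extension through the top wall -/
noncomputable def oe (u : ℂ → ℝ) (z : ℂ) : ℝ :=
  if z.im ≤ Real.pi then u z else -u ⟨z.re, 2 * Real.pi - z.im⟩

/-- points of the two open arcs -/
def Arc (l r : ℝ → ℝ) (z : ℂ) : Prop := z.im ∈ Ioo 0 Real.pi ∧ (z.re = l z.im ∨ z.re = r z.im)

/-- the set where the horizontal derivative has the sign of `σ` -/
def ux (Ω : Set ℂ) (u : ℂ → ℝ) (σ : ℝ) : Set ℂ := {z | z ∈ Ω ∧ 0 < σ * (Gr Ω u z).re}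

/-- a component of that set -/
def cx (Ω : Set ℂ) (u : ℂ → ℝ) (σ : ℝ) (z : ℂ) : Set ℂ := connectedComponentIn (ux Ω u σ) z

/-- the component has zero boundary data -/
def ZD (Ω : Set ℂ) (u : ℂ → ℝ) (σ : ℝ) (z : ℂ) : Prop :=
  ∀ p ∈ frontier (cx Ω u σ z), (Gr Ω u p).re = 0

/-- main term of the Killing identity -/
noncomputable def k1 (u u' : ℂ → ℝ) (V : ℂ → ℂ) (z : ℂ) : ℝ :=
  dot (grad u z + grad u' z) (V z) / 2 * ‖grad u z - grad u' z‖ ^ 2

/-- lens term of the Killing identity -/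
noncomputable def k2 (lam : ℝ) (u : ℂ → ℝ) (V : ℂ → ℂ) (z : ℂ) : ℝ :=
  (‖grad u z‖ ^ 2 + lam * u z ^ 2 - 1) / 2 * dot (grad u z) (V z)

/-- the set on which the Killing identity is applied -/
structure KE (Ω Ω' : Set ℂ) (u u' : ℂ → ℝ) (E : Set ℂ) : Prop where
  isOpen : IsOpen E
  pos : ∀ z ∈ E, u' z < u z
  fr : ∀ z ∈ frontier E, u z = u' z
  ext : ∀ p ∈ frontier Ω, p ∈ E → Ext Ω p
  ext' : ∀ p ∈ frontier Ω', p ∈ E → Ext Ω' p

/-- unit normal of the rotating line -/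
noncomputable def nphi (φ : ℝ) : ℂ := ⟨Real.cos φ, -Real.sin φ⟩

/-- `u` dominates its mirror image on the positive side of the line -/
def Good (u : ℂ → ℝ) (M n : ℂ) : Prop := ∀ z, 0 < dot (z - M) n → u (rf M n z) ≤ u z

/-- the set where this fails -/
def Bad (u : ℂ → ℝ) (M n : ℂ) : Set ℂ := {z | 0 < dot (z - M) n ∧ u z < u (rf M n z)}

/-- the last angle -/
noncomputable def phis (nT nB : ℝ) : ℝ := Real.pi / 2 - Real.arctan ((nB - nT) / Real.pi)

/-- a good angle before the last one -/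
structure UDs (Ω : Set ℂ) (lam : ℝ) (u : ℂ → ℝ) (l r : ℝ → ℝ) (nT nB φ : ℝ) : Prop
    extends Pat Ω lam u l r nT nB where
  loc : Loc Ω u nT nB
  le : nT ≤ nB
  lo : 0 < φ
  hi : φ < phis nT nB
  good : Good u (mid nT nB) (nphi φ)

/-- the situation after the up-down symmetry is proved -/
structure Sy (Ω : Set ℂ) (lam : ℝ) (u : ℂ → ℝ) (l r : ℝ → ℝ) (n : ℝ) : Prop
    extends Pat Ω lam u l r n n where
  loc : Loc Ω u n n
  symΩ : ∀ z ∈ Ω, fy z ∈ Ω
  symu : ∀ z, u (fy z) = u z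
  rot : ∀ z ∈ Ω, Real.pi / 2 < z.im → 0 < dot (grad u z) (kill (I * mid n n) (-1) z)

/-- even part with respect to the vertical line through `n` -/
noncomputable def ev (u : ℂ → ℝ) (n : ℝ) (z : ℂ) : ℝ := u z + u (fx n z)

/-- the statement of the quantitative part -/
def HLoc : Prop := ∀ (Ω : Set ℂ) (lam : ℝ) (u : ℂ → ℝ) (l r : ℝ → ℝ) (nT nB : ℝ),
  Pat Ω lam u l r nT nB → nT ≤ nB → Loc Ω u nT nB

/-- the boundary has segments on two different parallel lines, and all its segments are parallel -/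
def TwoSeg (Ω : Set ℂ) : Prop := ∃ a b c d : ℂ, a ≠ b ∧ c ≠ d ∧ segment ℝ a b ⊆ frontier Ω ∧
  segment ℝ c d ⊆ frontier Ω ∧ (∀ t : ℝ, c - a ≠ t * (b - a)) ∧
  ∀ p q : ℂ, segment ℝ p q ⊆ frontier Ω → ∃ t : ℝ, q - p = t * (b - a)

end Pool.Agent.L2K
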