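import Pool.Agent.P.MP_2f6447_an.K.ExtG
import Pool.Agent.P.MP_2f6447_an.K.Defs2

/-! Geometry of the strip position. -/

open Set MeasureTheory Filter Topology Complex Metric
open scoped ContDiff ComplexConjugate

namespace Pool.Agent.L2K

variable {Ω U : Set ℂ} {lam : ℝ} {u w f g : ℂ → ℝ}
variable {l r : ℝ → ℝ} {nT nB n φ : ℝ}

theorem GeoS_zero : (0 : ℝ) ∈ Icc 0 Real.pi := ⟨le_rfl, Real.pi_pos.le⟩

theorem GeoS_pi : Real.pi ∈ Icc 0 Real.pi := ⟨Real.pi_pos.le, le_rfl⟩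

theorem GeoS_cvx (h : Geo Ω l r) {x y a b : ℝ} (hx : x ∈ Icc 0 Real.pi) (hy : y ∈ Icc 0 Real.pi)
    (ha : 0 ≤ a) (hb : 0 ≤ b) (hab : a + b = 1) :
    l (a * x + b * y) ≤ a * l x + b * l y ∧ a * r x + b * r y ≤ r (a * x + b * y) :=
  ⟨h.convl.convexOn.2 hx hy ha hb hab, h.concr.concaveOn.2 hx hy ha hb hab⟩

theorem Geo.lt (h : Geo Ω l r) {y : ℝ} (hy : y ∈ Icc 0 Real.pi) : l y < r y := by
  have hp := Real.pi_pos
  have hb : 0 ≤ y / Real.pi := div_nonneg hy.1 hp.le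
  have hb1 : y / Real.pi ≤ 1 := (div_le_one hp).2 hy.2
  have H := GeoS_cvx h GeoS_zero GeoS_pi (a := 1 - y / Real.pi) (b := y / Real.pi)
    (by linarith) hb (by ring)
  rw [mul_zero, zero_add, div_mul_cancel₀ _ hp.ne'] at H
  have h0 := h.hbot
  have h1 := h.htop
  generalize y / Real.pi = t at H hb hb1
  rcases hb.eq_or_lt with e | e
  · subst e
    nlinarith [H.1, H.2]
  · nlinarith [H.1, H.2, mul_pos e (sub_pos.2 h1), mul_nonneg (sub_nonneg.2 hb1) (sub_pos.2 h0).le]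

theorem GeoS_comb (h : Geo Ω l r) {z q : ℂ} (hz : z.im ∈ Icc 0 Real.pi)
    (hz' : z.re ∈ Icc (l z.im) (r z.im)) (hq : q ∈ Ω) {a b : ℝ} (ha : 0 ≤ a) (hb : 0 < b)
    (hab : a + b = 1) : a • z + b • q ∈ Ω := by
  obtain ⟨⟨q1, q2⟩, q3, q4⟩ := (h.mem q).1 hq
  have H := GeoS_cvx h hz ⟨q1.le, q2.le⟩ ha hb.le hab
  have e1 : (a • z + b • q).im = a * z.im + b * q.im := by simp
  have e2 : (a • z + b • q).re = a * z.re + b * q.re := by simp
  rw [h.mem, e1, e2]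
  have hpi : Real.pi = a * Real.pi + b * Real.pi := by rw [← add_mul, hab, one_mul]
  refine ⟨⟨?_, ?_⟩, ?_, ?_⟩
  · have := mul_nonneg ha hz.1
    have := mul_pos hb q1
    linarith
  · have := mul_le_mul_of_nonneg_left hz.2 ha
    have := mul_lt_mul_of_pos_left q2 hb
    linarith
  · have := mul_le_mul_of_nonneg_left hz'.1 ha
    have := mul_lt_mul_of_pos_left q3 hb
    linarith [H.1]
  · have := mul_le_mul_of_nonneg_left hz'.2 ha
    have := mul_lt_mul_of_pos_left q4 hb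
    linarith [H.2]

theorem GeoS_evl (h : Geo Ω l r) {p : ℂ} (hp : p.im ∈ Icc 0 Real.pi) (h1 : l p.im < p.re)
    (h2 : p.re < r p.im) :
    ∀ᶠ z in 𝓝 p, z.im ∈ Icc 0 Real.pi → l z.im < z.re ∧ z.re < r z.im := by
  have hl : ContinuousWithinAt (fun z : ℂ => l z.im) {z : ℂ | z.im ∈ Icc 0 Real.pi} p :=
    ContinuousWithinAt.comp (f := fun z : ℂ => z.im) (h.contl _ hp)
      continuous_im.continuousWithinAt fun _ hz => hz
  have hr : ContinuousWithinAt (fun z : ℂ => r z.im) {z : ℂ | z.im ∈ Icc 0 Real.pi} p :=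
    ContinuousWithinAt.comp (f := fun z : ℂ => z.im) (h.contr _ hp)
      continuous_im.continuousWithinAt fun _ hz => hz
  have hre : ContinuousWithinAt (fun z : ℂ => z.re) {z : ℂ | z.im ∈ Icc 0 Real.pi} p :=
    continuous_re.continuousWithinAt
  exact eventually_nhdsWithin_iff.1
    ((Tendsto.eventually_lt hl hre h1).and (Tendsto.eventually_lt hre hr h2))

theorem GeoS_mid (h : Geo Ω l r) {y : ℝ} (hy : y ∈ Ioo 0 Real.pi) :
    (⟨(l y + r y) / 2, y⟩ : ℂ) ∈ Ω := by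
  have := h.lt (Ioo_subset_Icc_self hy)
  rw [h.mem]
  refine ⟨hy, ?_, ?_⟩
  · show l y < (l y + r y) / 2
    linarith
  · show (l y + r y) / 2 < r y
    linarith

theorem GeoS_half : Real.pi / 2 ∈ Ioo 0 Real.pi := by
  have := Real.pi_pos
  constructor <;> linarith

theorem Geo.dom (h : Geo Ω l r) : Dom Ω := by
  refine ⟨?_, ?_, ?_, ⟨_, GeoS_mid h GeoS_half⟩⟩
  · rw [isOpen_iff_mem_nhds]
    intro p hp
    obtain ⟨⟨q1, q2⟩, q3, q4⟩ := (h.mem p).1 hp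
    have e1 : ∀ᶠ z in 𝓝 p, z.im ∈ Ioo 0 Real.pi :=
      continuous_im.continuousAt.eventually (Ioo_mem_nhds q1 q2)
    filter_upwards [e1, GeoS_evl h ⟨q1.le, q2.le⟩ q3 q4] with z h1 h2
    exact (h.mem z).2 ⟨h1, h2 (Ioo_subset_Icc_self h1)⟩
  · intro z hz q hq a b ha hb hab
    rcases hb.eq_or_lt with e | e
    · subst e
      rw [add_zero] at hab
      rw [hab, one_smul, zero_smul, add_zero]
      exact hz
    · obtain ⟨⟨q1, q2⟩, q3, q4⟩ := (h.mem z).1 hz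
      exact GeoS_comb h ⟨q1.le, q2.le⟩ ⟨q3.le, q4.le⟩ hq ha e hab
  · obtain ⟨A, hA⟩ := isCompact_Icc.exists_bound_of_continuousOn h.contl
    obtain ⟨B, hB⟩ := isCompact_Icc.exists_bound_of_continuousOn h.contr
    rw [isBounded_iff_forall_norm_le]
    refine ⟨max A B + Real.pi, fun z hz => ?_⟩
    obtain ⟨⟨q1, q2⟩, q3, q4⟩ := (h.mem z).1 hz
    have a1 := abs_le.1 (hA _ ⟨q1.le, q2.le⟩)
    have b1 := abs_le.1 (hB _ ⟨q1.le, q2.le⟩)
    have c1 : |z.re| ≤ max A B := by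
      have := le_max_left A B
      have := le_max_right A B
      rw [abs_le]
      constructor <;> linarith [a1.1, b1.2]
    have c2 : |z.im| ≤ Real.pi := by
      rw [abs_of_pos q1]
      exact q2.le
    linarith [Complex.norm_le_abs_re_add_abs_im z]

theorem Geo.mem_closure (h : Geo Ω l r) (z : ℂ) :
    z ∈ closure Ω ↔ z.im ∈ Icc 0 Real.pi ∧ z.re ∈ Icc (l z.im) (r z.im) := by
  constructor
  · intro hz
    have hs : IsClosed {z : ℂ | z.im ∈ Icc 0 Real.pi} := isClosed_Icc.preimage continuous_im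
    have hl : ContinuousOn (fun z : ℂ => l z.im) {z : ℂ | z.im ∈ Icc 0 Real.pi} :=
      h.contl.comp continuous_im.continuousOn fun _ hz => hz
    have hr : ContinuousOn (fun z : ℂ => r z.im) {z : ℂ | z.im ∈ Icc 0 Real.pi} :=
      h.contr.comp continuous_im.continuousOn fun _ hz => hz
    have c1 := hs.isClosed_le hl continuous_re.continuousOn
    have c2 := hs.isClosed_le continuous_re.continuousOn hr
    have := closure_minimal (s := Ω) (fun q hq => by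
      obtain ⟨⟨q1, q2⟩, q3, q4⟩ := (h.mem q).1 hq
      exact ⟨⟨⟨q1.le, q2.le⟩, q3.le⟩, ⟨q1.le, q2.le⟩, q4.le⟩) (c1.inter c2) hz
    exact ⟨this.1.1, this.1.2, this.2.2⟩
  · rintro ⟨h1, h2⟩
    obtain ⟨q, hq⟩ := h.dom.ne
    have ht : Tendsto (fun t : ℝ => (1 - t) • z + t • q) (𝓝[>] 0) (𝓝 z) := by
      have hc : Continuous fun t : ℝ => (1 - t) • z + t • q := by fun_prop
      have := hc.tendsto 0
      rw [sub_zero, one_smul, zero_smul, add_zero] at this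
      exact this.mono_left nhdsWithin_le_nhds
    refine mem_closure_of_tendsto ht ?_
    filter_upwards [Ioo_mem_nhdsGT one_pos] with t h3
    exact GeoS_comb h h1 h2 hq (by linarith [h3.2]) h3.1 (by ring)

theorem Geo.mem_frontier (h : Geo Ω l r) (z : ℂ) : z ∈ frontier Ω ↔
    z.im ∈ Icc 0 Real.pi ∧ z.re ∈ Icc (l z.im) (r z.im) ∧
      (z.im = 0 ∨ z.im = Real.pi ∨ z.re = l z.im ∨ z.re = r z.im) := by
  rw [h.dom.isOpen.frontier_eq, Set.mem_sdiff, h.mem_closure, h.mem]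
  constructor
  · rintro ⟨⟨h1, h2⟩, h3⟩
    refine ⟨h1, h2, ?_⟩
    by_contra hc
    rw [not_or, not_or, not_or] at hc
    exact h3 ⟨⟨lt_of_le_of_ne h1.1 (Ne.symm hc.1), lt_of_le_of_ne h1.2 hc.2.1⟩,
      lt_of_le_of_ne h2.1 (Ne.symm hc.2.2.1), lt_of_le_of_ne h2.2 hc.2.2.2⟩
  · rintro ⟨h1, h2, h3⟩
    refine ⟨⟨h1, h2⟩, ?_⟩
    rintro ⟨⟨q1, q2⟩, q3, q4⟩
    rcases h3 with e | e | e | e
    exacts [q1.ne' e, q2.ne e, q3.ne' e, q4.ne e]

theorem Geo.ext_iff (h : Geo Ω l r) (z : ℂ) :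
    Ext Ω z ↔ z.im ∈ Icc 0 Real.pi ∧ (z.re = l z.im ∨ z.re = r z.im) := by
  constructor
  · rintro ⟨hf, he⟩
    obtain ⟨h1, h2, h3⟩ := (h.mem_frontier z).1 hf
    refine ⟨h1, ?_⟩
    by_contra hc
    rw [not_or] at hc
    have q3 : l z.im < z.re := lt_of_le_of_ne h2.1 (Ne.symm hc.1)
    have q4 : z.re < r z.im := lt_of_le_of_ne h2.2 hc.2
    have h4 : z.im = 0 ∨ z.im = Real.pi := by
      rcases h3 with e | e | e | e
      exacts [Or.inl e, Or.inr e, absurd e hc.1, absurd e hc.2]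
    have hd : 0 < r z.im - l z.im := by linarith
    refine he ⟨l z.im, z.im⟩ ⟨r z.im, z.im⟩ (fun e => ?_) ?_ ?_
    · have : l z.im = r z.im := congrArg Complex.re e
      linarith
    · rintro _ ⟨s, t, hs, ht, hst, rfl⟩
      have e1 : (s • (⟨l z.im, z.im⟩ : ℂ) + t • (⟨r z.im, z.im⟩ : ℂ)).im = z.im := by
        simp only [add_im, smul_im, smul_eq_mul]
        rw [← add_mul, hst, one_mul]
      have e2 : (s • (⟨l z.im, z.im⟩ : ℂ) + t • (⟨r z.im, z.im⟩ : ℂ)).re =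
          s * l z.im + t * r z.im := by
        simp only [add_re, smul_re, smul_eq_mul]
      rw [h.mem_frontier, e1, e2]
      have e3 : s = 1 - t := by linarith
      refine ⟨h1, ⟨?_, ?_⟩, ?_⟩
      · rw [e3]
        nlinarith [mul_nonneg ht hd.le]
      · have e4 : t = 1 - s := by linarith
        rw [e4]
        nlinarith [mul_nonneg hs hd.le]
      · rcases h4 with e | e
        exacts [Or.inl e, Or.inr (Or.inl e)]
    · refine ⟨(r z.im - z.re) / (r z.im - l z.im), (z.re - l z.im) / (r z.im - l z.im),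
        div_pos (by linarith) hd, div_pos (by linarith) hd, ?_, ?_⟩
      · field_simp
        ring
      · apply Complex.ext
        · simp only [add_re, smul_re, smul_eq_mul]
          field_simp
          ring
        · simp only [add_im, smul_im, smul_eq_mul]
          field_simp
          ring
  · rintro ⟨h1, h2⟩
    have hlt := h.lt h1
    refine ⟨(h.mem_frontier z).2 ⟨h1, ?_, Or.inr (Or.inr h2)⟩, ?_⟩
    · rcases h2 with e | e <;> rw [e]
      exacts [⟨le_rfl, hlt.le⟩, ⟨hlt.le, le_rfl⟩]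
    rintro a b hab hs ⟨s, t, hs0, ht0, hst, e⟩
    obtain ⟨a1, a2, -⟩ := (h.mem_frontier a).1 (hs (left_mem_segment ℝ a b))
    obtain ⟨b1, b2, -⟩ := (h.mem_frontier b).1 (hs (right_mem_segment ℝ a b))
    have e1 : z.im = s * a.im + t * b.im := by rw [← e]; simp
    have e2 : z.re = s * a.re + t * b.re := by rw [← e]; simp
    by_cases hi : a.im = b.im
    · have e3 : z.im = b.im := by rw [e1, hi, ← add_mul, hst, one_mul]
      rw [hi] at a2
      rw [e3] at h2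
      have e4 : s = 1 - t := by linarith
      have hre : a.re ≠ b.re := fun e' => hab (Complex.ext e' hi)
      rcases h2 with e5 | e5
      · have k1 := mul_nonneg hs0.le (sub_nonneg.2 a2.1)
        have k2 := mul_nonneg ht0.le (sub_nonneg.2 b2.1)
        have k3 : s * (a.re - l b.im) + t * (b.re - l b.im) = 0 := by
          rw [← e5, e2, e4]; ring
        have k4 : a.re - l b.im = 0 := (mul_eq_zero.1 (by linarith)).resolve_left hs0.ne'
        have k5 : b.re - l b.im = 0 := (mul_eq_zero.1 (by linarith)).resolve_left ht0.ne'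
        exact hre (by linarith)
      · have k1 := mul_nonneg hs0.le (sub_nonneg.2 a2.2)
        have k2 := mul_nonneg ht0.le (sub_nonneg.2 b2.2)
        have k3 : s * (r b.im - a.re) + t * (r b.im - b.re) = 0 := by
          rw [← e5, e2, e4]; ring
        have k4 : r b.im - a.re = 0 := (mul_eq_zero.1 (by linarith)).resolve_left hs0.ne'
        have k5 : r b.im - b.re = 0 := (mul_eq_zero.1 (by linarith)).resolve_left ht0.ne'
        exact hre (by linarith)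
    · rcases h2 with e5 | e5
      · have k : l (s * a.im + t * b.im) < s * l a.im + t * l b.im :=
          h.convl.2 a1 b1 hi hs0 ht0 hst
        rw [← e1, ← e5, e2] at k
        have := mul_le_mul_of_nonneg_left a2.1 hs0.le
        have := mul_le_mul_of_nonneg_left b2.1 ht0.le
        linarith
      · have k : s * r a.im + t * r b.im < r (s * a.im + t * b.im) :=
          h.concr.2 a1 b1 hi hs0 ht0 hst
        rw [← e1, ← e5, e2] at k
        have := mul_le_mul_of_nonneg_left a2.2 hs0.le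
        have := mul_le_mul_of_nonneg_left b2.2 ht0.le
        linarith

theorem Geo.top_mem (h : Geo Ω l r) {x : ℝ} (hx : x ∈ Icc (l Real.pi) (r Real.pi)) :
    (⟨x, Real.pi⟩ : ℂ) ∈ frontier Ω :=
  (h.mem_frontier _).2 ⟨GeoS_pi, hx, Or.inr (Or.inl rfl)⟩

theorem Geo.bot_mem (h : Geo Ω l r) {x : ℝ} (hx : x ∈ Icc (l 0) (r 0)) :
    (⟨x, 0⟩ : ℂ) ∈ frontier Ω :=
  (h.mem_frontier _).2 ⟨GeoS_zero, hx, Or.inl rfl⟩

theorem Geo.left_mem (h : Geo Ω l r) {y : ℝ} (hy : y ∈ Icc 0 Real.pi) :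
    (⟨l y, y⟩ : ℂ) ∈ frontier Ω :=
  (h.mem_frontier _).2 ⟨hy, ⟨le_rfl, (h.lt hy).le⟩, Or.inr (Or.inr (Or.inl rfl))⟩

theorem Geo.right_mem (h : Geo Ω l r) {y : ℝ} (hy : y ∈ Icc 0 Real.pi) :
    (⟨r y, y⟩ : ℂ) ∈ frontier Ω :=
  (h.mem_frontier _).2 ⟨hy, ⟨(h.lt hy).le, le_rfl⟩, Or.inr (Or.inr (Or.inr rfl))⟩

theorem GeoS_isN_top (h : Geo Ω l r) (x : ℝ) : IsN Ω ⟨x, Real.pi⟩ I := by
  refine ⟨norm_I, fun z hz => ?_⟩
  have := ((h.mem z).1 hz).1.2
  simp only [dot, sub_re, sub_im, I_re, I_im]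
  linarith

theorem Geo.nu_top (h : Geo Ω l r) (hc : NoCorner Ω) {x : ℝ}
    (hx : x ∈ Icc (l Real.pi) (r Real.pi)) : nu Ω ⟨x, Real.pi⟩ = I :=
  hc _ (h.top_mem hx) _ _ (h.dom.isN_nu (h.top_mem hx)) (GeoS_isN_top h x)

theorem Geo.nu_bot (h : Geo Ω l r) (hc : NoCorner Ω) {x : ℝ} (hx : x ∈ Icc (l 0) (r 0)) :
    nu Ω ⟨x, 0⟩ = -I := by
  refine hc _ (h.bot_mem hx) _ _ (h.dom.isN_nu (h.bot_mem hx)) ⟨?_, fun z hz => ?_⟩
  · rw [norm_neg, norm_I]
  · have := ((h.mem z).1 hz).1.1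
    simp only [dot, sub_re, sub_im, neg_re, neg_im, I_re, I_im]
    linarith

theorem Geo.nu_left (h : Geo Ω l r) {y : ℝ} (hy : y ∈ Ioo 0 Real.pi) :
    (nu Ω ⟨l y, y⟩).re < 0 := by
  have hy' := Ioo_subset_Icc_self hy
  have h1 := (h.dom.isN_nu (h.left_mem hy')).2 _ (GeoS_mid h hy)
  have h2 := h.lt hy'
  simp only [dot, sub_re, sub_im, sub_self, zero_mul, add_zero] at h1
  by_contra hc
  exact absurd h1 (not_lt.2 (mul_nonneg (by linarith) (not_lt.1 hc)))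

theorem Geo.nu_right (h : Geo Ω l r) {y : ℝ} (hy : y ∈ Ioo 0 Real.pi) :
    0 < (nu Ω ⟨r y, y⟩).re := by
  have hy' := Ioo_subset_Icc_self hy
  have h1 := (h.dom.isN_nu (h.right_mem hy')).2 _ (GeoS_mid h hy)
  have h2 := h.lt hy'
  simp only [dot, sub_re, sub_im, sub_self, zero_mul, add_zero] at h1
  by_contra hc
  exact absurd h1 (not_lt.2 (mul_nonneg_of_nonpos_of_nonpos (by linarith) (not_lt.1 hc)))

theorem Geo.ball_top (h : Geo Ω l r) {x : ℝ} (hx : x ∈ Ioo (l Real.pi) (r Real.pi)) :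
    ∃ ρ : ℝ, 0 < ρ ∧ ρ ≤ 1 ∧ (∀ z ∈ ball (⟨x, Real.pi⟩ : ℂ) ρ, z.im < Real.pi → z ∈ Ω) ∧
      ∀ z ∈ ball (⟨x, Real.pi⟩ : ℂ) ρ, z.re ∈ Ioo (l Real.pi) (r Real.pi) := by
  have e1 := GeoS_evl h (p := ⟨x, Real.pi⟩) GeoS_pi hx.1 hx.2
  have e2 : ∀ᶠ z in 𝓝 (⟨x, Real.pi⟩ : ℂ), z.im ∈ Ioi 0 :=
    continuous_im.continuousAt.eventually (Ioi_mem_nhds Real.pi_pos)
  have e3 : ∀ᶠ z in 𝓝 (⟨x, Real.pi⟩ : ℂ), z.re ∈ Ioo (l Real.pi) (r Real.pi) :=
    continuous_re.continuousAt.eventually (Ioo_mem_nhds hx.1 hx.2)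
  obtain ⟨ρ, hρ, hb⟩ := Metric.eventually_nhds_iff_ball.1 (e1.and (e2.and e3))
  refine ⟨min ρ 1, lt_min hρ one_pos, min_le_right _ _, fun z hz h1 => ?_, fun z hz => ?_⟩
  · obtain ⟨k1, k2, -⟩ := hb z (ball_subset_ball (min_le_left _ _) hz)
    exact (h.mem z).2 ⟨⟨k2, h1⟩, k1 ⟨le_of_lt k2, h1.le⟩⟩
  · exact (hb z (ball_subset_ball (min_le_left _ _) hz)).2.2

theorem Geo.ball_bot (h : Geo Ω l r) {x : ℝ} (hx : x ∈ Ioo (l 0) (r 0)) :
    ∃ ρ : ℝ, 0 < ρ ∧ ρ ≤ 1 ∧ (∀ z ∈ ball (⟨x, 0⟩ : ℂ) ρ, 0 < z.im → z ∈ Ω) ∧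
      ∀ z ∈ ball (⟨x, 0⟩ : ℂ) ρ, z.re ∈ Ioo (l 0) (r 0) := by
  have e1 := GeoS_evl h (p := ⟨x, 0⟩) GeoS_zero hx.1 hx.2
  have e2 : ∀ᶠ z in 𝓝 (⟨x, 0⟩ : ℂ), z.im ∈ Iio Real.pi :=
    continuous_im.continuousAt.eventually (Iio_mem_nhds Real.pi_pos)
  have e3 : ∀ᶠ z in 𝓝 (⟨x, 0⟩ : ℂ), z.re ∈ Ioo (l 0) (r 0) :=
    continuous_re.continuousAt.eventually (Ioo_mem_nhds hx.1 hx.2)
  obtain ⟨ρ, hρ, hb⟩ := Metric.eventually_nhds_iff_ball.1 (e1.and (e2.and e3))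
  refine ⟨min ρ 1, lt_min hρ one_pos, min_le_right _ _, fun z hz h1 => ?_, fun z hz => ?_⟩
  · obtain ⟨k1, k2, -⟩ := hb z (ball_subset_ball (min_le_left _ _) hz)
    exact (h.mem z).2 ⟨⟨h1, k2⟩, k1 ⟨h1.le, le_of_lt k2⟩⟩
  · exact (hb z (ball_subset_ball (min_le_left _ _) hz)).2.2

theorem Geo.ext_near (h : Geo Ω l r) {p : ℂ} (hp : Arc l r p) :
    ∀ᶠ z in 𝓝 p, z ∈ frontier Ω → Ext Ω z := by
  have e1 : ∀ᶠ z in 𝓝 p, z.im ∈ Ioo 0 Real.pi :=
    continuous_im.continuousAt.eventually (Ioo_mem_nhds hp.1.1 hp.1.2)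
  filter_upwards [e1] with z h1 hz
  obtain ⟨k1, -, k3⟩ := (h.mem_frontier z).1 hz
  refine (h.ext_iff z).2 ⟨k1, ?_⟩
  rcases k3 with e | e | e
  exacts [absurd e h1.1.ne', absurd e h1.2.ne, e]

theorem GeoS_near (h : Geo Ω l r) {y₀ y : ℝ} (h0 : y₀ ∈ Icc 0 Real.pi) (h1 : y₀ ≤ y)
    (h2 : y < Real.pi) :
    (l y₀ < l Real.pi → l y < l Real.pi) ∧ (r Real.pi < r y₀ → r Real.pi < r y) := by
  have hd : 0 < Real.pi - y₀ := by linarith
  have hs : 0 < (Real.pi - y) / (Real.pi - y₀) := div_pos (by linarith) hd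
  have ht : 0 ≤ (y - y₀) / (Real.pi - y₀) := div_nonneg (by linarith) hd.le
  have hst : (Real.pi - y) / (Real.pi - y₀) + (y - y₀) / (Real.pi - y₀) = 1 := by
    field_simp
    ring
  have H := GeoS_cvx h h0 GeoS_pi hs.le ht hst
  have e : (Real.pi - y) / (Real.pi - y₀) * y₀ + (y - y₀) / (Real.pi - y₀) * Real.pi = y := by
    field_simp
    ring
  rw [e] at H
  generalize (Real.pi - y) / (Real.pi - y₀) = s at H hs hst
  generalize (y - y₀) / (Real.pi - y₀) = t at H ht hst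
  have e4 : t = 1 - s := by linarith
  rw [e4] at H
  constructor
  · intro k
    nlinarith [H.1, mul_pos hs (sub_pos.2 k)]
  · intro k
    nlinarith [H.2, mul_pos hs (sub_pos.2 k)]

theorem Geo.over_top (h : Geo Ω l r) (hc : NoCorner Ω) : ∃ a b δ : ℝ, 0 < a ∧ a < b ∧
    b < Real.pi ∧ 0 < δ ∧ ∀ y ∈ Icc a b, l y < l Real.pi - δ ∧ r Real.pi + δ < r y := by
  obtain ⟨y₀, h0, k0⟩ : ∃ y ∈ Icc 0 Real.pi, l y < l Real.pi := by
    by_contra hcon
    have hN : IsN Ω ⟨l Real.pi, Real.pi⟩ (-1) := by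
      refine ⟨by rw [norm_neg, norm_one], fun z hz => ?_⟩
      obtain ⟨⟨q1, q2⟩, q3, -⟩ := (h.mem z).1 hz
      have : l Real.pi ≤ l z.im := not_lt.1 fun k => hcon ⟨_, ⟨q1.le, q2.le⟩, k⟩
      simp only [dot, sub_re, sub_im, neg_re, neg_im, one_re, one_im]
      linarith
    have e := congrArg Complex.im (hc _ (h.left_mem GeoS_pi) _ _ hN (GeoS_isN_top h _))
    simp at e
  obtain ⟨y₁, h1, k1⟩ : ∃ y ∈ Icc 0 Real.pi, r Real.pi < r y := by
    by_contra hcon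
    have hN : IsN Ω ⟨r Real.pi, Real.pi⟩ 1 := by
      refine ⟨norm_one, fun z hz => ?_⟩
      obtain ⟨⟨q1, q2⟩, -, q4⟩ := (h.mem z).1 hz
      have : r z.im ≤ r Real.pi := not_lt.1 fun k => hcon ⟨_, ⟨q1.le, q2.le⟩, k⟩
      simp only [dot, sub_re, sub_im, one_re, one_im]
      linarith
    have e := congrArg Complex.im (hc _ (h.right_mem GeoS_pi) _ _ hN (GeoS_isN_top h _))
    simp at e
  have l0 : y₀ < Real.pi := lt_of_le_of_ne h0.2 fun e => by rw [e] at k0; exact k0.false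
  have l1 : y₁ < Real.pi := lt_of_le_of_ne h1.2 fun e => by rw [e] at k1; exact k1.false
  obtain ⟨m, m0, m1, m2⟩ : ∃ m, y₀ ≤ m ∧ y₁ ≤ m ∧ m < Real.pi :=
    ⟨max y₀ y₁, le_max_left _ _, le_max_right _ _, max_lt l0 l1⟩
  have hp := Real.pi_pos
  have y0 := h0.1
  have hsub : Icc ((m + Real.pi) / 2) ((m + 3 * Real.pi) / 4) ⊆ Icc 0 Real.pi :=
    Icc_subset_Icc (by linarith) (by linarith)
  obtain ⟨d₀, d0, e0⟩ := isCompact_Icc.exists_forall_le'
    ((continuousOn_const (c := l Real.pi)).sub (h.contl.mono hsub)) (a := 0) fun y hy =>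
      sub_pos.2 ((GeoS_near h h0 (by linarith [hy.1]) (by linarith [hy.2])).1 k0)
  obtain ⟨d₁, d1, e1⟩ := isCompact_Icc.exists_forall_le'
    ((h.contr.mono hsub).sub (continuousOn_const (c := r Real.pi))) (a := 0) fun y hy =>
      sub_pos.2 ((GeoS_near h h1 (by linarith [hy.1]) (by linarith [hy.2])).2 k1)
  refine ⟨(m + Real.pi) / 2, (m + 3 * Real.pi) / 4, min d₀ d₁ / 2, by linarith, by linarith,
    by linarith, half_pos (lt_min d0 d1), fun y hy => ?_⟩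
  have f0 : d₀ ≤ l Real.pi - l y := e0 y hy
  have f1 : d₁ ≤ r y - r Real.pi := e1 y hy
  have := min_le_left d₀ d₁
  have := min_le_right d₀ d₁
  constructor <;> linarith

end Pool.Agent.L2K
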