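import Pool.Agent.P.MP_2f6447_an.K.Reg
import Pool.Agent.P.MP_2f6447_an.K.GeoS

/-! Invariance under the two reflections. -/

open Set MeasureTheory Filter Topology Complex Metric
open scoped ContDiff ComplexConjugate

namespace Pool.Agent.L2K

variable {Ω U : Set ℂ} {lam : ℝ} {u w f g : ℂ → ℝ}
variable {l r : ℝ → ℝ} {nT nB n φ : ℝ}

theorem fx_eq (m c : ℝ) : fx m = rf ⟨m, c⟩ 1 := by
  funext z
  apply Complex.ext
  · simp [fx, rf, dot]
    ring
  · simp [fx, rf, dot]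

theorem fy_eq (m : ℝ) : fy = rf ⟨m, Real.pi / 2⟩ I := by
  funext z
  apply Complex.ext
  · simp [fy, rf, dot]
  · simp [fy, rf, dot]
    ring

theorem fx_fx (m : ℝ) (z : ℂ) : fx m (fx m z) = z := by
  apply Complex.ext <;> simp [fx]

theorem fy_fy (z : ℂ) : fy (fy z) = z := by
  apply Complex.ext <;> simp [fy]

theorem fx_fy (m : ℝ) (z : ℂ) : fx m (fy z) = fy (fx m z) := by
  rfl

theorem continuous_fx (m : ℝ) : Continuous (fx m) := by
  rw [fx_eq m 0]
  exact (isometry_rf _ norm_one).continuous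

theorem continuous_fy : Continuous fy := by
  rw [fy_eq 0]
  exact (isometry_rf _ norm_I).continuous

theorem Flip_rf1 (a : ℂ) : rf 0 1 a = -conj a := by
  apply Complex.ext
  · simp [rf, dot]
    ring
  · simp [rf, dot]

theorem Flip_rfI (a : ℂ) : rf 0 I a = conj a := by
  apply Complex.ext
  · simp [rf, dot]
  · simp [rf, dot]
    ring

theorem grad_fx (u : ℂ → ℝ) (m : ℝ) (z : ℂ) :
    grad (fun x => u (fx m x)) z = -conj (grad u (fx m z)) := by
  rw [fx_eq m 0, grad_rf u _ norm_one, Flip_rf1]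

theorem grad_fy (u : ℂ → ℝ) (z : ℂ) : grad (fun x => u (fy x)) z = conj (grad u (fy z)) := by
  rw [fy_eq 0, grad_rf u _ norm_I, Flip_rfI]

theorem Flip_maps : MapsTo (fun y : ℝ => Real.pi - y) (Icc 0 Real.pi) (Icc 0 Real.pi) :=
  fun y hy => ⟨by linarith [hy.2], by linarith [hy.1]⟩

theorem Flip_conv (h : StrictConvexOn ℝ (Icc 0 Real.pi) l) :
    StrictConvexOn ℝ (Icc 0 Real.pi) fun y => l (Real.pi - y) := by
  refine ⟨h.1, fun x hx y hy hxy a b ha hb hab => ?_⟩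
  have h1 := h.2 (Flip_maps hx) (Flip_maps hy) (fun e => hxy (by linarith)) ha hb hab
  have e : Real.pi - (a • x + b • y) = a • (Real.pi - x) + b • (Real.pi - y) := by
    simp only [smul_eq_mul]
    linear_combination (-Real.pi) * hab
  show l (Real.pi - (a • x + b • y)) < _
  rw [e]
  exact h1

theorem Geo.flipY (h : Geo Ω l r) :
    Geo (fy ⁻¹' Ω) (fun y => l (Real.pi - y)) fun y => r (Real.pi - y) := by
  have hc : ContinuousOn (fun y : ℝ => Real.pi - y) (Icc 0 Real.pi) := by fun_prop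
  refine ⟨fun z => ?_, h.contl.comp hc Flip_maps, h.contr.comp hc Flip_maps,
    Flip_conv h.convl, ?_, by simpa using h.htop, by simpa using h.hbot⟩
  · rw [mem_preimage, h.mem]
    simp only [fy]
    refine and_congr_left fun _ => ⟨fun h1 => ?_, fun h1 => ?_⟩ <;> constructor <;>
      linarith [h1.1, h1.2]
  · have h1 := (Flip_conv h.concr.neg).neg
    refine h1.congr fun y _ => ?_
    simp

theorem Geo.flipX (h : Geo Ω l r) (m : ℝ) :
    Geo (fx m ⁻¹' Ω) (fun y => 2 * m - r y) fun y => 2 * m - l y := by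
  refine ⟨fun z => ?_, continuousOn_const.sub h.contr, continuousOn_const.sub h.contl, ?_, ?_,
    by linarith [h.hbot], by linarith [h.htop]⟩
  · rw [mem_preimage, h.mem]
    simp only [fx]
    refine and_congr_right fun _ => ⟨fun h1 => ?_, fun h1 => ?_⟩ <;> constructor <;>
      linarith [h1.1, h1.2]
  · refine (h.concr.neg.add_const (2 * m)).congr fun y _ => ?_
    simp only [Pi.add_apply, Pi.neg_apply]
    ring
  · refine (h.convl.neg.add_const (2 * m)).congr fun y _ => ?_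
    simp only [Pi.add_apply, Pi.neg_apply]
    ring

theorem Str.flipY (h : Str Ω lam u l r) : Str (fy ⁻¹' Ω) lam (fun z => u (fy z))
    (fun y => l (Real.pi - y)) fun y => r (Real.pi - y) := by
  refine ⟨?_, h.toGeo.flipY⟩
  rw [fy_eq 0]
  exact h.toMn.of_rf _ norm_I

theorem Str.flipX (h : Str Ω lam u l r) (m : ℝ) : Str (fx m ⁻¹' Ω) lam (fun z => -u (fx m z))
    (fun y => 2 * m - r y) fun y => 2 * m - l y := by
  refine ⟨?_, h.toGeo.flipX m⟩
  rw [fx_eq m 0]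
  exact h.toMn.neg.of_rf _ norm_one

theorem Str.neg' (h : Str Ω lam u l r) : Str Ω lam (fun z => -u z) l r := by
  exact ⟨h.toMn.neg, h.toGeo⟩

theorem Flip_GrY (h : Mn Ω lam u) {z : ℂ} (hz : fy z ∈ closure Ω) :
    Gr (fy ⁻¹' Ω) (fun z => u (fy z)) z = conj (Gr Ω u (fy z)) := by
  rw [fy_eq 0] at hz ⊢
  rw [h.Gr_rf _ norm_I hz, Flip_rfI]

theorem Flip_GrX (h : Mn Ω lam u) (m : ℝ) {z : ℂ} (hz : fx m z ∈ closure Ω) :
    Gr (fx m ⁻¹' Ω) (fun z => -u (fx m z)) z = conj (Gr Ω u (fx m z)) := by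
  rw [fx_eq m 0] at hz ⊢
  have h1 := h.neg.Gr_rf _ norm_one hz
  rw [h.Gr_neg hz, Flip_rf1, map_neg, neg_neg] at h1
  exact h1

theorem Flip_nuY (h : Mn Ω lam u) {z : ℂ} (hz : fy z ∈ frontier Ω) :
    nu (fy ⁻¹' Ω) z = conj (nu Ω (fy z)) := by
  rw [fy_eq 0] at hz ⊢
  rw [nu_rf h.toIsMin.toDom h.noCorner _ norm_I hz, Flip_rfI]

theorem Flip_nuX (h : Mn Ω lam u) (m : ℝ) {z : ℂ} (hz : fx m z ∈ frontier Ω) :
    nu (fx m ⁻¹' Ω) z = -conj (nu Ω (fx m z)) := by
  rw [fx_eq m 0] at hz ⊢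
  rw [nu_rf h.toIsMin.toDom h.noCorner _ norm_one hz, Flip_rf1]

theorem Str.gT_flipY (h : Str Ω lam u l r) {x : ℝ} (hx : x ∈ Icc (l 0) (r 0)) :
    gT (fy ⁻¹' Ω) (fun z => u (fy z)) x = gB Ω u x := by
  have e : fy ⟨x, Real.pi⟩ = ⟨x, 0⟩ := by simp [fy]
  unfold gT gB
  rw [Flip_GrY h.toMn (e ▸ frontier_subset_closure (h.toGeo.bot_mem hx)), e]
  simp

theorem Str.gB_flipY (h : Str Ω lam u l r) {x : ℝ} (hx : x ∈ Icc (l Real.pi) (r Real.pi)) :
    gB (fy ⁻¹' Ω) (fun z => u (fy z)) x = gT Ω u x := by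
  have e : fy ⟨x, 0⟩ = ⟨x, Real.pi⟩ := by simp [fy]
  unfold gT gB
  rw [Flip_GrY h.toMn (e ▸ frontier_subset_closure (h.toGeo.top_mem hx)), e]
  simp

theorem Str.gT_flipX (h : Str Ω lam u l r) (m : ℝ) {x : ℝ}
    (hx : 2 * m - x ∈ Icc (l Real.pi) (r Real.pi)) :
    gT (fx m ⁻¹' Ω) (fun z => -u (fx m z)) x = -gT Ω u (2 * m - x) := by
  have e : fx m ⟨x, Real.pi⟩ = ⟨2 * m - x, Real.pi⟩ := rfl
  unfold gT
  rw [Flip_GrX h.toMn m (e ▸ frontier_subset_closure (h.toGeo.top_mem hx)), e]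
  simp

theorem Str.gB_flipX (h : Str Ω lam u l r) (m : ℝ) {x : ℝ} (hx : 2 * m - x ∈ Icc (l 0) (r 0)) :
    gB (fx m ⁻¹' Ω) (fun z => -u (fx m z)) x = -gB Ω u (2 * m - x) := by
  have e : fx m ⟨x, 0⟩ = ⟨2 * m - x, 0⟩ := rfl
  unfold gB
  rw [Flip_GrX h.toMn m (e ▸ frontier_subset_closure (h.toGeo.bot_mem hx)), e]
  simp

theorem Str.gT_neg' (h : Str Ω lam u l r) {x : ℝ} (hx : x ∈ Icc (l Real.pi) (r Real.pi)) :
    gT Ω (fun z => -u z) x = -gT Ω u x := by
  unfold gT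
  rw [h.toMn.Gr_neg (frontier_subset_closure (h.toGeo.top_mem hx))]
  simp

theorem Str.gB_neg' (h : Str Ω lam u l r) {x : ℝ} (hx : x ∈ Icc (l 0) (r 0)) :
    gB Ω (fun z => -u z) x = -gB Ω u x := by
  unfold gB
  rw [h.toMn.Gr_neg (frontier_subset_closure (h.toGeo.bot_mem hx))]
  simp

theorem Pat.flipY (h : Pat Ω lam u l r nT nB) : Pat (fy ⁻¹' Ω) lam (fun z => u (fy z))
    (fun y => l (Real.pi - y)) (fun y => r (Real.pi - y)) nB nT := by
  have hs := h.toStr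
  refine ⟨hs.flipY, fun y hy => ?_, fun y hy => ?_, by simpa using h.memB, by simpa using h.memT,
    ?_, ?_⟩
  · have e : fy ⟨l (Real.pi - y), y⟩ = ⟨l (Real.pi - y), Real.pi - y⟩ := rfl
    have h1 := hs.toGeo.left_mem (Flip_maps hy)
    rw [Flip_GrY hs.toMn (e ▸ frontier_subset_closure h1), Flip_nuY hs.toMn (e ▸ h1), e,
      h.sgL _ (Flip_maps hy)]
  · have e : fy ⟨r (Real.pi - y), y⟩ = ⟨r (Real.pi - y), Real.pi - y⟩ := rfl
    have h1 := hs.toGeo.right_mem (Flip_maps hy)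
    rw [Flip_GrY hs.toMn (e ▸ frontier_subset_closure h1), Flip_nuY hs.toMn (e ▸ h1), e,
      h.sgR _ (Flip_maps hy), map_neg]
  · rw [hs.gT_flipY (Ioo_subset_Icc_self h.memB), h.zB]
  · rw [hs.gB_flipY (Ioo_subset_Icc_self h.memT), h.zT]

theorem Pat.flipX (h : Pat Ω lam u l r nT nB) (m : ℝ) :
    Pat (fx m ⁻¹' Ω) lam (fun z => -u (fx m z)) (fun y => 2 * m - r y) (fun y => 2 * m - l y)
      (2 * m - nT) (2 * m - nB) := by
  have hs := h.toStr
  have hT := h.memT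
  have hB := h.memB
  refine ⟨hs.flipX m, fun y hy => ?_, fun y hy => ?_, ⟨by linarith [hT.2], by linarith [hT.1]⟩,
    ⟨by linarith [hB.2], by linarith [hB.1]⟩, ?_, ?_⟩
  · have e : fx m ⟨2 * m - r y, y⟩ = ⟨r y, y⟩ := by simp [fx]
    have h1 := hs.toGeo.right_mem hy
    rw [Flip_GrX hs.toMn m (e ▸ frontier_subset_closure h1), Flip_nuX hs.toMn m (e ▸ h1), e,
      h.sgR _ hy, map_neg]
  · have e : fx m ⟨2 * m - l y, y⟩ = ⟨l y, y⟩ := by simp [fx]
    have h1 := hs.toGeo.left_mem hy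
    rw [Flip_GrX hs.toMn m (e ▸ frontier_subset_closure h1), Flip_nuX hs.toMn m (e ▸ h1), e,
      h.sgL _ hy, neg_neg]
  · rw [hs.gT_flipX m (by simpa using Ioo_subset_Icc_self hT), sub_sub_cancel, h.zT, neg_zero]
  · rw [hs.gB_flipX m (by simpa using Ioo_subset_Icc_self hB), sub_sub_cancel, h.zB, neg_zero]

theorem Flip_dot (a b : ℂ) : dot (conj a) b = dot a (conj b) := by
  simp [dot]

theorem Flip_grad (u : ℂ → ℝ) (m : ℝ) (z : ℂ) :
    grad (fun x => -u (fx m x)) z = conj (grad u (fx m z)) := by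
  rw [grad_neg (fun x => u (fx m x)), grad_fx, neg_neg]

theorem Flip_deriv {G H : ℝ → ℝ} {m t a b : ℝ} (ht : t ∈ Ioo a b)
    (h : ∀ x, 2 * m - x ∈ Icc a b → H x = -G (2 * m - x)) : deriv H (2 * m - t) = deriv G t := by
  have e : H =ᶠ[𝓝 (2 * m - t)] fun x => -G (2 * m - x) := by
    have h1 : 2 * m - t ∈ Ioo (2 * m - b) (2 * m - a) := ⟨by linarith [ht.2], by linarith [ht.1]⟩
    filter_upwards [isOpen_Ioo.mem_nhds h1] with x hx
    exact h x ⟨by linarith [hx.2], by linarith [hx.1]⟩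
  rw [e.deriv_eq, deriv.fun_neg, deriv_comp_const_sub, neg_neg, sub_sub_cancel]

theorem Loc.flipY (h : Pat Ω lam u l r nT nB) (hL : Loc Ω u nT nB) :
    Loc (fy ⁻¹' Ω) (fun z => u (fy z)) nB nT := by
  have hs := h.toStr
  have e : ∀ z, fy z - mid nT nB = conj (z - mid nB nT) := fun z => by
    apply Complex.ext
    · simp [fy, mid]
      ring
    · simp [fy, mid]
      ring
  refine ⟨?_, fun z hz h0 h1 => ?_, fun z h0 h1 h2 => ?_, ?_, ?_⟩
  · obtain ⟨a, b, h1, h2, h3, h4, h5⟩ := hL.win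
    refine ⟨a, b, h1, h2, h3, fun z hz h0 => ?_, fun z h6 h7 h8 => ?_⟩
    · rw [add_comm]
      exact h4 (fy z) hz h0
    · rw [add_comm] at h8
      exact h5 (fy z) (by simp only [fy]; linarith) (by simp only [fy]; linarith) h8
  · rw [grad_fy] at h1 ⊢
    have h2 := hL.slope (fy z) hz h0 fun h3 => h1 (by rw [h3, map_zero])
    rw [e, Flip_dot] at h2
    rw [norm_conj]
    exact h2
  · refine hL.disc (fy z) (by simp only [fy]; linarith) (by simp only [fy]; linarith) ?_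
    have e2 : (⟨nT, Real.pi⟩ : ℂ) - mid nT nB = -conj (⟨nB, Real.pi⟩ - mid nB nT) := by
      apply Complex.ext
      · simp [mid]
        ring
      · simp [mid]
        ring
    rw [e, e2, norm_neg, norm_conj, norm_conj]
    exact h2
  · have e2 : gT (fy ⁻¹' Ω) (fun z => u (fy z)) =ᶠ[𝓝 nB] gB Ω u := by
      filter_upwards [isOpen_Ioo.mem_nhds h.memB] with x hx
      exact hs.gT_flipY (Ioo_subset_Icc_self hx)
    rw [e2.deriv_eq]
    exact hL.dB
  · have e2 : gB (fy ⁻¹' Ω) (fun z => u (fy z)) =ᶠ[𝓝 nT] gT Ω u := by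
      filter_upwards [isOpen_Ioo.mem_nhds h.memT] with x hx
      exact hs.gB_flipY (Ioo_subset_Icc_self hx)
    rw [e2.deriv_eq]
    exact hL.dT

theorem Loc.flipX (h : Pat Ω lam u l r nT nB) (hL : Loc Ω u nT nB) (m : ℝ) :
    Loc (fx m ⁻¹' Ω) (fun z => -u (fx m z)) (2 * m - nT) (2 * m - nB) := by
  have hs := h.toStr
  have e : ∀ z, fx m z - mid nT nB = -conj (z - mid (2 * m - nT) (2 * m - nB)) := fun z => by
    apply Complex.ext
    · simp [fx, mid]
      ring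
    · simp [fx, mid]
      ring
  have e1 : ∀ z : ℂ, |(fx m z).re - (nT + nB) / 2| = |z.re - (2 * m - nT + (2 * m - nB)) / 2| :=
    fun z => by
      rw [← abs_neg]
      exact congrArg _ (by simp only [fx]; ring)
  refine ⟨?_, fun z hz h0 h1 => ?_, fun z h0 h1 h2 => ?_, ?_, ?_⟩
  · obtain ⟨a, b, h1, h2, h3, h4, h5⟩ := hL.win
    refine ⟨a, b, h1, h2, h3, fun z hz h0 => ?_, fun z h6 h7 h8 => ?_⟩
    · rw [← e1]
      exact h4 (fx m z) hz (neg_eq_zero.1 h0)
    · rw [← e1] at h8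
      exact h5 (fx m z) h6 h7 h8
  · rw [Flip_grad] at h1 ⊢
    have h2 := hL.slope (fx m z) hz (neg_eq_zero.1 h0) fun h3 => h1 (by rw [h3, map_zero])
    have e2 : ∀ a b : ℂ, dot (-conj a) b = -dot a (conj b) := fun a b => by
      simp [dot]
      ring
    rw [e, e2, abs_neg] at h2
    rw [norm_conj]
    exact h2
  · refine hL.disc (fx m z) h0 h1 ?_
    have e2 : (⟨nT, Real.pi⟩ : ℂ) = fx m ⟨2 * m - nT, Real.pi⟩ := by simp [fx]
    rw [e2, e, e, norm_neg, norm_neg, norm_conj, norm_conj]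
    exact h2
  · rw [Flip_deriv h.memT fun x hx => hs.gT_flipX m hx]
    exact hL.dT
  · rw [Flip_deriv h.memB fun x hx => hs.gB_flipX m hx]
    exact hL.dB

theorem Sy.flipX (h : Sy Ω lam u l r n) : Sy (fx n ⁻¹' Ω) lam (fun z => -u (fx n z))
    (fun y => 2 * n - r y) (fun y => 2 * n - l y) n := by
  have e : 2 * n - n = n := by ring
  have h1 := h.toPat.flipX n
  have h2 := Loc.flipX h.toPat h.loc n
  rw [e] at h1 h2
  refine ⟨h1, h2, fun z hz => h.symΩ (fx n z) hz, fun z => ?_, fun z hz h3 => ?_⟩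
  · show -u (fx n (fy z)) = -u (fx n z)
    rw [fx_fy, h.symu]
  · have h4 := h.rot (fx n z) hz h3
    have e2 : kill (I * mid n n) (-1) (fx n z) = conj (kill (I * mid n n) (-1) z) := by
      apply Complex.ext
      · simp [kill, fx, mid]
      · simp [kill, fx, mid]
        ring
    rw [Flip_grad, Flip_dot, ← e2]
    exact h4

end Pool.Agent.L2K
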