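import Pool.Agent.P.MP_2f6447_an.K.Wall0
import Pool.Agent.P.MP_2f6447_an.K.Flip

/-! The arcs are `C¹` graphs over the vertical axis. -/

open Set MeasureTheory Filter Topology Complex Metric
open scoped ContDiff ComplexConjugate

namespace Pool.Agent.L2K

variable {Ω U : Set ℂ} {lam : ℝ} {u w f g : ℂ → ℝ}
variable {l r : ℝ → ℝ} {nT nB n φ : ℝ}

theorem ArcD_core {F : ℝ → ℝ} {a b y : ℝ} (hF : ConvexOn ℝ (Icc a b) F) (hy : y ∈ Ioo a b)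
    (hu : ∀ s s' : ℝ, (∀ t ∈ Icc a b, F y + s * (t - y) ≤ F t) →
      (∀ t ∈ Icc a b, F y + s' * (t - y) ≤ F t) → s = s') :
    ∃ s, HasDerivAt F s y ∧ ∀ t ∈ Icc a b, F y + s * (t - y) ≤ F t := by
  have hi : y ∈ interior (Icc a b) := by rwa [interior_Icc]
  have h1 := hF.hasDerivWithinAt_leftDeriv_of_mem_interior hi
  have h2 := hF.hasDerivWithinAt_rightDeriv_of_mem_interior hi
  have h3 := hF.leftDeriv_le_rightDeriv_of_mem_interior hi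
  have key : ∀ s, derivWithin F (Iio y) y ≤ s → s ≤ derivWithin F (Ioi y) y →
      ∀ t ∈ Icc a b, F y + s * (t - y) ≤ F t := by
    intro s s1 s2 t ht
    rcases lt_trichotomy t y with h | h | h
    · have h4 := (hF.slope_le_leftDeriv_of_mem_interior ht hi h).trans s1
      rw [slope_def_field, div_le_iff₀ (sub_pos.2 h)] at h4
      linarith
    · rw [h]
      simp
    · have h4 := s2.trans (hF.rightDeriv_le_slope_of_mem_interior hi ht h)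
      rw [slope_def_field, le_div_iff₀ (sub_pos.2 h)] at h4
      linarith
  have e := hu _ _ (key _ le_rfl h3) (key _ h3 le_rfl)
  refine ⟨derivWithin F (Iio y) y, ?_, key _ le_rfl h3⟩
  rw [← e] at h2
  have h5 := h1.Iic_of_Iio.union h2.Ici_of_Ioi
  rwa [Iic_union_Ici, hasDerivWithinAt_univ] at h5

theorem ArcD_sqrt_pos (s : ℝ) : 0 < √(1 + s ^ 2) := Real.sqrt_pos.2 (by positivity)

theorem ArcD_norm {σ : ℝ} (hσ : σ ^ 2 = 1) (s : ℝ) :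
    ‖(⟨σ / √(1 + s ^ 2), s / √(1 + s ^ 2)⟩ : ℂ)‖ = 1 := by
  have hp := ArcD_sqrt_pos s
  have h2 : √(1 + s ^ 2) ^ 2 = 1 + s ^ 2 := Real.sq_sqrt (by positivity)
  rw [← pow_eq_one_iff_of_nonneg (norm_nonneg _) two_ne_zero, ← dot_self]
  simp only [dot]
  rw [← sq, ← sq, div_pow, div_pow, hσ, h2, ← add_div, div_self (by positivity)]

theorem ArcD_nu_l (h : Str Ω lam u l r) {y s : ℝ} (hy : y ∈ Ioo 0 Real.pi)
    (hs : ∀ t ∈ Icc 0 Real.pi, l y + s * (t - y) ≤ l t) :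
    nu Ω ⟨l y, y⟩ = ⟨-1 / √(1 + s ^ 2), s / √(1 + s ^ 2)⟩ := by
  have hf := h.toGeo.left_mem (Ioo_subset_Icc_self hy)
  refine h.toMn.noCorner _ hf _ _ (h.toMn.toIsMin.toDom.isN_nu hf)
    ⟨ArcD_norm (by norm_num) s, fun z hz => ?_⟩
  obtain ⟨⟨z1, z2⟩, z3, -⟩ := (h.toGeo.mem z).1 hz
  have h1 := hs z.im ⟨z1.le, z2.le⟩
  simp only [dot, sub_re, sub_im]
  rw [← mul_div_assoc, ← mul_div_assoc, ← add_div]
  exact div_neg_of_neg_of_pos (by linarith) (ArcD_sqrt_pos s)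

theorem ArcD_nu_r (h : Str Ω lam u l r) {y s : ℝ} (hy : y ∈ Ioo 0 Real.pi)
    (hs : ∀ t ∈ Icc 0 Real.pi, -r y + s * (t - y) ≤ -r t) :
    nu Ω ⟨r y, y⟩ = ⟨1 / √(1 + s ^ 2), s / √(1 + s ^ 2)⟩ := by
  have hf := h.toGeo.right_mem (Ioo_subset_Icc_self hy)
  refine h.toMn.noCorner _ hf _ _ (h.toMn.toIsMin.toDom.isN_nu hf)
    ⟨ArcD_norm (by norm_num) s, fun z hz => ?_⟩
  obtain ⟨⟨z1, z2⟩, -, z3⟩ := (h.toGeo.mem z).1 hz
  have h1 := hs z.im ⟨z1.le, z2.le⟩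
  simp only [dot, sub_re, sub_im]
  rw [← mul_div_assoc, ← mul_div_assoc, ← add_div]
  exact div_neg_of_neg_of_pos (by linarith) (ArcD_sqrt_pos s)

theorem ArcD_quot_l {ν : ℂ} {s : ℝ} (e : ν = ⟨-1 / √(1 + s ^ 2), s / √(1 + s ^ 2)⟩) :
    -ν.im / ν.re = s := by
  have hp := (ArcD_sqrt_pos s).ne'
  rw [e]
  field_simp

theorem ArcD_quot_r {ν : ℂ} {s : ℝ} (e : ν = ⟨1 / √(1 + s ^ 2), s / √(1 + s ^ 2)⟩) :
    -ν.im / ν.re = -s := by
  have hp := (ArcD_sqrt_pos s).ne'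
  rw [e]
  field_simp

theorem ArcD_l (h : Str Ω lam u l r) {y : ℝ} (hy : y ∈ Ioo 0 Real.pi) : ∃ s, HasDerivAt l s y ∧
    nu Ω ⟨l y, y⟩ = ⟨-1 / √(1 + s ^ 2), s / √(1 + s ^ 2)⟩ := by
  obtain ⟨s, h1, h2⟩ := ArcD_core h.convl.convexOn hy fun s s' a b =>
    (ArcD_quot_l (ArcD_nu_l h hy a)).symm.trans (ArcD_quot_l (ArcD_nu_l h hy b))
  exact ⟨s, h1, ArcD_nu_l h hy h2⟩

theorem ArcD_r (h : Str Ω lam u l r) {y : ℝ} (hy : y ∈ Ioo 0 Real.pi) : ∃ s, HasDerivAt r (-s) y ∧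
    nu Ω ⟨r y, y⟩ = ⟨1 / √(1 + s ^ 2), s / √(1 + s ^ 2)⟩ := by
  obtain ⟨s, h1, h2⟩ := ArcD_core (F := fun t => -r t) h.concr.concaveOn.neg hy fun s s' a b =>
    neg_injective ((ArcD_quot_r (ArcD_nu_r h hy a)).symm.trans (ArcD_quot_r (ArcD_nu_r h hy b)))
  refine ⟨s, ?_, ArcD_nu_r h hy h2⟩
  simpa using h1.fun_neg

theorem Str.hasDerivAt_r (h : Str Ω lam u l r) {y : ℝ} (hy : y ∈ Ioo 0 Real.pi) :
    HasDerivAt r (-(nu Ω ⟨r y, y⟩).im / (nu Ω ⟨r y, y⟩).re) y := by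
  obtain ⟨s, h1, h2⟩ := ArcD_r h hy
  rw [ArcD_quot_r h2]
  exact h1

theorem Str.hasDerivAt_l (h : Str Ω lam u l r) {y : ℝ} (hy : y ∈ Ioo 0 Real.pi) :
    HasDerivAt l (-(nu Ω ⟨l y, y⟩).im / (nu Ω ⟨l y, y⟩).re) y := by
  obtain ⟨s, h1, h2⟩ := ArcD_l h hy
  rw [ArcD_quot_l h2]
  exact h1

theorem ArcD_graph {F : ℝ → ℝ} {S : Set ℝ} (hF : ContinuousOn F S) :
    ContinuousOn (fun y : ℝ => (⟨F y, y⟩ : ℂ)) S := by
  have h1 : ContinuousOn (fun y : ℝ => (F y : ℂ) + (y : ℂ) * I) S :=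
    (Complex.continuous_ofReal.comp_continuousOn hF).add
      (Complex.continuous_ofReal.continuousOn.mul continuousOn_const)
  exact h1.congr fun y _ => Complex.mk_eq_add_mul_I _ _

theorem Str.continuousOn_deriv_r (h : Str Ω lam u l r) :
    ContinuousOn (deriv r) (Ioo 0 Real.pi) := by
  have h1 : ContinuousOn (fun y : ℝ => nu Ω ⟨r y, y⟩) (Ioo 0 Real.pi) :=
    (h.toMn.toIsMin.toDom.continuousOn_nu h.toMn.noCorner).comp
      (ArcD_graph (h.contr.mono Ioo_subset_Icc_self))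
      fun y hy => h.toGeo.right_mem (Ioo_subset_Icc_self hy)
  exact ((Complex.continuous_im.comp_continuousOn h1).neg.div
    (Complex.continuous_re.comp_continuousOn h1)
    fun y hy => (h.toGeo.nu_right hy).ne').congr fun y hy => (h.hasDerivAt_r hy).deriv

theorem Str.continuousOn_deriv_l (h : Str Ω lam u l r) :
    ContinuousOn (deriv l) (Ioo 0 Real.pi) := by
  have h1 : ContinuousOn (fun y : ℝ => nu Ω ⟨l y, y⟩) (Ioo 0 Real.pi) :=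
    (h.toMn.toIsMin.toDom.continuousOn_nu h.toMn.noCorner).comp
      (ArcD_graph (h.contl.mono Ioo_subset_Icc_self))
      fun y hy => h.toGeo.left_mem (Ioo_subset_Icc_self hy)
  exact ((Complex.continuous_im.comp_continuousOn h1).neg.div
    (Complex.continuous_re.comp_continuousOn h1)
    fun y hy => (h.toGeo.nu_left hy).ne).congr fun y hy => (h.hasDerivAt_l hy).deriv

theorem Str.antitoneOn_deriv_r (h : Str Ω lam u l r) : AntitoneOn (deriv r) (Ioo 0 Real.pi) :=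
  (h.concr.concaveOn.subset Ioo_subset_Icc_self (convex_Ioo _ _)).antitoneOn_deriv
    fun _ hy => (h.hasDerivAt_r hy).differentiableAt

theorem Str.monotoneOn_deriv_l (h : Str Ω lam u l r) : MonotoneOn (deriv l) (Ioo 0 Real.pi) :=
  (h.convl.convexOn.subset Ioo_subset_Icc_self (convex_Ioo _ _)).monotoneOn_deriv
    fun _ hy => (h.hasDerivAt_l hy).differentiableAt

theorem ArcD_ends (h : Str Ω lam u l r) :
    (∃ y ∈ Icc 0 Real.pi, l y < l Real.pi ∧ r Real.pi < r y) ∧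
      ∃ y ∈ Icc 0 Real.pi, l y < l 0 ∧ r 0 < r y := by
  obtain ⟨a, b, δ, a1, a2, a3, a4, a5⟩ := h.toGeo.over_top h.toMn.noCorner
  obtain ⟨c, d, ε, c1, c2, c3, c4, c5⟩ := h.flipY.toGeo.over_top h.flipY.toMn.noCorner
  have k1 := a5 a ⟨le_rfl, a2.le⟩
  have k2 := c5 c ⟨le_rfl, c2.le⟩
  simp only [sub_self] at k2
  exact ⟨⟨a, ⟨a1.le, by linarith⟩, by linarith [k1.1], by linarith [k1.2]⟩,
    ⟨Real.pi - c, ⟨by linarith, by linarith⟩, by linarith [k2.1], by linarith [k2.2]⟩⟩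

theorem Str.tip_r (h : Str Ω lam u l r) : ∃ t ∈ Ioo 0 Real.pi, deriv r t = 0 := by
  obtain ⟨⟨y, hy, -, y2⟩, ⟨z, hz, -, z2⟩⟩ := ArcD_ends h
  obtain ⟨t, ht, hm⟩ := isCompact_Icc.exists_isMaxOn ⟨y, hy⟩ h.contr
  have t1 : 0 < t := lt_of_le_of_ne ht.1 fun e => by
    have := hm hz
    rw [← e] at this
    exact absurd z2 (not_lt.2 this)
  have t2 : t < Real.pi := lt_of_le_of_ne ht.2 fun e => by
    have := hm hy
    rw [e] at this
    exact absurd y2 (not_lt.2 this)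
  exact ⟨t, ⟨t1, t2⟩, (hm.isLocalMax (Icc_mem_nhds t1 t2)).deriv_eq_zero⟩

theorem Str.tip_l (h : Str Ω lam u l r) : ∃ t ∈ Ioo 0 Real.pi, deriv l t = 0 := by
  obtain ⟨⟨y, hy, y2, -⟩, ⟨z, hz, z2, -⟩⟩ := ArcD_ends h
  obtain ⟨t, ht, hm⟩ := isCompact_Icc.exists_isMinOn ⟨y, hy⟩ h.contl
  have t1 : 0 < t := lt_of_le_of_ne ht.1 fun e => by
    have := hm hz
    rw [← e] at this
    exact absurd z2 (not_lt.2 this)
  have t2 : t < Real.pi := lt_of_le_of_ne ht.2 fun e => by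
    have := hm hy
    rw [e] at this
    exact absurd y2 (not_lt.2 this)
  exact ⟨t, ⟨t1, t2⟩, (hm.isLocalMin (Icc_mem_nhds t1 t2)).deriv_eq_zero⟩

theorem Str.nu_r_eq (h : Str Ω lam u l r) {y : ℝ} (hy : y ∈ Ioo 0 Real.pi) :
    nu Ω ⟨r y, y⟩ = ⟨1 / √(1 + deriv r y ^ 2), -deriv r y / √(1 + deriv r y ^ 2)⟩ := by
  obtain ⟨s, h1, h2⟩ := ArcD_r h hy
  rw [h1.deriv, neg_neg, neg_sq]
  exact h2

theorem Str.nu_l_eq (h : Str Ω lam u l r) {y : ℝ} (hy : y ∈ Ioo 0 Real.pi) :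
    nu Ω ⟨l y, y⟩ = ⟨-1 / √(1 + deriv l y ^ 2), deriv l y / √(1 + deriv l y ^ 2)⟩ := by
  obtain ⟨s, h1, h2⟩ := ArcD_l h hy
  rw [h1.deriv]
  exact h2

end Pool.Agent.L2K
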