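import Pool.Agent.P.MP_2f6447_an.K.GeoS

/-! Horizontal slices: Fubini, continuity of the slice integral, averages over thin bands. -/

open Set MeasureTheory Filter Topology Complex Metric
open scoped ContDiff ComplexConjugate

namespace Pool.Agent.L2K

variable {Ω U : Set ℂ} {lam : ℝ} {u w f g : ℂ → ℝ}
variable {l r : ℝ → ℝ} {nT nB n φ : ℝ}

theorem Avg_band (h : Geo Ω l r) {Φ : ℂ → ℝ} (hΦ : IntegrableOn Φ Ω) {a b : ℝ}
    (ha : 0 ≤ a) (hab : a ≤ b) (hb : b ≤ Real.pi) :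
    ∫ z in Ω ∩ {z | a < z.im ∧ z.im < b}, Φ z = ∫ y in a..b, ∫ x in l y..r y, Φ ⟨x, y⟩ := by
  have hSo : IsOpen (Ω ∩ {z : ℂ | a < z.im ∧ z.im < b}) :=
    h.dom.isOpen.inter ((isOpen_lt continuous_const continuous_im).inter
      (isOpen_lt continuous_im continuous_const))
  have hS := hSo.measurableSet
  have hI : Integrable ((Ω ∩ {z : ℂ | a < z.im ∧ z.im < b}).indicator Φ) :=
    (integrable_indicator_iff hS).mpr (hΦ.mono_set inter_subset_left)
  rw [← integral_indicator hS, integral_eq_im_re hI, intervalIntegral.integral_of_le hab,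
    integral_Ioc_eq_integral_Ioo, ← integral_indicator measurableSet_Ioo]
  refine integral_congr_ae (Eventually.of_forall fun y => ?_)
  by_cases hy : y ∈ Ioo a b
  · have hy' : y ∈ Icc 0 Real.pi := ⟨by linarith [hy.1], by linarith [hy.2]⟩
    simp only [indicator_of_mem hy]
    rw [intervalIntegral.integral_of_le (h.lt hy').le, integral_Ioc_eq_integral_Ioo,
      ← integral_indicator measurableSet_Ioo]
    refine integral_congr_ae (Eventually.of_forall fun x => ?_)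
    by_cases hx : x ∈ Ioo (l y) (r y)
    · have hm : (⟨x, y⟩ : ℂ) ∈ Ω ∩ {z : ℂ | a < z.im ∧ z.im < b} :=
        ⟨(h.mem _).mpr ⟨⟨by simp only; linarith [hy.1], by simp only; linarith [hy.2]⟩, hx⟩, hy⟩
      simp only [indicator_of_mem hm, indicator_of_mem hx]
    · have hm : (⟨x, y⟩ : ℂ) ∉ Ω ∩ {z : ℂ | a < z.im ∧ z.im < b} :=
        fun hm => hx ((h.mem _).mp hm.1).2
      simp only [indicator_of_notMem hm, indicator_of_notMem hx]
  · have e : ∀ x : ℝ, (Ω ∩ {z : ℂ | a < z.im ∧ z.im < b}).indicator Φ ⟨x, y⟩ = 0 :=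
      fun x => indicator_of_notMem (fun hm => hy hm.2) _
    simp only [indicator_of_notMem hy, e, integral_zero]

theorem Avg_lim {S : ℝ → ℝ} (hS : Continuous S) (p a : ℝ) :
    Tendsto (fun ε : ℝ => ε⁻¹ * ∫ y in p + ε * a..p + ε * (a + 1), S y) (𝓝[>] 0) (𝓝 (S p)) := by
  have hc : Continuous fun ε : ℝ => ∫ t in a..a + 1, S (p + ε * t) :=
    intervalIntegral.continuous_parametric_intervalIntegral_of_continuous'
      (f := fun ε t : ℝ => S (p + ε * t)) (by fun_prop) a (a + 1)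
  have h0 := (hc.tendsto 0).mono_left (nhdsWithin_le_nhds (s := Ioi (0 : ℝ)))
  simp only [zero_mul, add_zero, intervalIntegral.integral_const, add_sub_cancel_left, smul_eq_mul,
    one_mul] at h0
  refine h0.congr' ?_
  filter_upwards [self_mem_nhdsWithin] with ε hε
  have hε' : ε ≠ 0 := ne_of_gt hε
  rw [← intervalIntegral.smul_integral_comp_add_mul, smul_eq_mul, inv_mul_cancel_left₀ hε']

theorem Geo.integral_slices (h : Geo Ω l r) {Φ : ℂ → ℝ} (hΦ : IntegrableOn Φ Ω) :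
    ∫ z in Ω, Φ z = ∫ y in (0 : ℝ)..Real.pi, ∫ x in l y..r y, Φ ⟨x, y⟩ := by
  have e : Ω ∩ {z : ℂ | 0 < z.im ∧ z.im < Real.pi} = Ω :=
    inter_eq_left.mpr fun z hz => ((h.mem z).mp hz).1
  rw [← Avg_band h hΦ le_rfl Real.pi_pos.le le_rfl, e]

theorem Geo.continuousOn_slice (h : Geo Ω l r) {Φ : ℂ → ℝ} (hΦ : ContinuousOn Φ (closure Ω)) :
    ContinuousOn (fun y => ∫ x in l y..r y, Φ ⟨x, y⟩) (Icc 0 Real.pi) := by
  set P : ℝ → ℝ := fun y => max 0 (min Real.pi y) with hP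
  have hPc : Continuous P := by rw [hP]; fun_prop
  have hPm : ∀ y, P y ∈ Icc 0 Real.pi := fun y =>
    ⟨le_max_left _ _, max_le Real.pi_pos.le (min_le_left _ _)⟩
  have hPe : ∀ y ∈ Icc 0 Real.pi, P y = y := fun y hy => by
    simp only [hP, min_eq_right hy.2, max_eq_right hy.1]
  have hL : Continuous fun y => l (P y) := h.contl.comp_continuous hPc hPm
  have hR : Continuous fun y => r (P y) := h.contr.comp_continuous hPc hPm
  set Z : ℝ × ℝ → ℂ := fun q =>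
    ((l (P q.1) + (r (P q.1) - l (P q.1)) * max 0 (min 1 q.2) : ℝ) : ℂ) + ((P q.1 : ℝ) : ℂ) * I
    with hZ
  have hZc : Continuous Z := by
    have e1 : Continuous fun q : ℝ × ℝ => l (P q.1) := hL.comp continuous_fst
    have e2 : Continuous fun q : ℝ × ℝ => r (P q.1) := hR.comp continuous_fst
    have e3 : Continuous fun q : ℝ × ℝ => P q.1 := hPc.comp continuous_fst
    have e4 : Continuous fun q : ℝ × ℝ => max (0 : ℝ) (min 1 q.2) := by fun_prop
    exact (continuous_ofReal.comp (e1.add ((e2.sub e1).mul e4))).add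
      ((continuous_ofReal.comp e3).mul continuous_const)
  have hZe : ∀ q : ℝ × ℝ,
      Z q = ⟨l (P q.1) + (r (P q.1) - l (P q.1)) * max 0 (min 1 q.2), P q.1⟩ := fun q => by
    apply Complex.ext <;> simp [hZ]
  have hZm : ∀ q, Z q ∈ closure Ω := fun q => by
    rw [hZe, h.mem_closure]
    have e1 := h.lt (hPm q.1)
    have e2 : (0 : ℝ) ≤ max 0 (min 1 q.2) := le_max_left _ _
    have e3 : max 0 (min 1 q.2) ≤ (1 : ℝ) := max_le zero_le_one (min_le_left _ _)
    refine ⟨hPm q.1, ?_, ?_⟩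
    · simp only
      nlinarith
    · simp only
      nlinarith
  have hΨ : Continuous fun q => Φ (Z q) := hΦ.comp_continuous hZc hZm
  have hc : Continuous fun y : ℝ => ∫ t in (0 : ℝ)..1, Φ (Z (y, t)) :=
    intervalIntegral.continuous_parametric_intervalIntegral_of_continuous'
      (f := fun y t : ℝ => Φ (Z (y, t))) hΨ 0 1
  refine (((hR.sub hL).mul hc).continuousOn).congr fun y hy => ?_
  have e : ∫ t in (0 : ℝ)..1, Φ (Z (y, t)) =
      ∫ t in (0 : ℝ)..1, (fun x : ℝ => Φ ⟨x, y⟩) (l y + (r y - l y) * t) := by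
    refine intervalIntegral.integral_congr fun t ht => ?_
    rw [uIcc_of_le zero_le_one] at ht
    simp only [hZe, hPe y hy, min_eq_right ht.2, max_eq_right ht.1]
  have e2 := intervalIntegral.smul_integral_comp_add_mul (fun x : ℝ => Φ ⟨x, y⟩) (a := 0) (b := 1)
    (r y - l y) (l y)
  simp only [mul_zero, add_zero, mul_one, add_sub_cancel, smul_eq_mul] at e2
  simp only [Pi.mul_apply, Pi.sub_apply, hPe y hy, e]
  exact e2.symm

theorem Geo.integral_band (h : Geo Ω l r) {Φ : ℂ → ℝ} (hΦ : IntegrableOn Φ Ω) {a b : ℝ}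
    (ha : 0 ≤ a) (hab : a ≤ b) (hb : b ≤ Real.pi) :
    ∫ z in Ω ∩ {z | a < z.im ∧ z.im < b}, Φ z = ∫ y in a..b, ∫ x in l y..r y, Φ ⟨x, y⟩ :=
  Avg_band h hΦ ha hab hb

theorem Avg_int (h : Geo Ω l r) {Φ : ℂ → ℝ} (hΦ : ContinuousOn Φ (closure Ω)) :
    IntegrableOn Φ Ω :=
  (hΦ.integrableOn_compact h.dom.bdd.isCompact_closure).mono_set subset_closure

theorem Avg_main {S : ℝ → ℝ} (hS : ContinuousOn S (Icc 0 Real.pi)) {p a : ℝ}
    (hp : p ∈ Icc 0 Real.pi)
    (ha : ∀ ε : ℝ, 0 < ε → ε < 1 → 0 ≤ p + ε * a ∧ p + ε * (a + 1) ≤ Real.pi) :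
    Tendsto (fun ε : ℝ => ε⁻¹ * ∫ y in p + ε * a..p + ε * (a + 1), S y) (𝓝[>] 0) (𝓝 (S p)) := by
  set P : ℝ → ℝ := fun y => max 0 (min Real.pi y) with hP
  have hPc : Continuous P := by rw [hP]; fun_prop
  have hPm : ∀ y, P y ∈ Icc 0 Real.pi := fun y =>
    ⟨le_max_left _ _, max_le Real.pi_pos.le (min_le_left _ _)⟩
  have hPe : ∀ y ∈ Icc 0 Real.pi, P y = y := fun y hy => by
    simp only [hP, min_eq_right hy.2, max_eq_right hy.1]
  have h0 := Avg_lim (hS.comp_continuous hPc hPm) p a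
  simp only [Function.comp_apply, hPe p hp] at h0
  refine h0.congr' ?_
  filter_upwards [Ioo_mem_nhdsGT (zero_lt_one' ℝ)] with ε hε
  obtain ⟨e1, e2⟩ := ha ε hε.1 hε.2
  have e3 : p + ε * a ≤ p + ε * (a + 1) := by nlinarith [hε.1]
  congr 1
  refine intervalIntegral.integral_congr fun y hy => ?_
  rw [uIcc_of_le e3] at hy
  simp only [hPe y ⟨e1.trans hy.1, hy.2.trans e2⟩]

theorem Geo.avg_top (h : Geo Ω l r) {Φ : ℂ → ℝ} (hΦ : ContinuousOn Φ (closure Ω)) :
    Tendsto (fun ε : ℝ => ε⁻¹ * ∫ z in Ω ∩ {z | Real.pi - 2 * ε < z.im ∧ z.im < Real.pi - ε}, Φ z)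
      (𝓝[>] 0) (𝓝 (∫ x in l Real.pi..r Real.pi, Φ ⟨x, Real.pi⟩)) := by
  have hπ := Real.pi_gt_three
  have h0 := Avg_main (h.continuousOn_slice hΦ) (p := Real.pi) (a := -2)
    ⟨Real.pi_pos.le, le_rfl⟩ fun ε h1 h2 => ⟨by linarith, by linarith⟩
  refine h0.congr' ?_
  filter_upwards [Ioo_mem_nhdsGT (zero_lt_one' ℝ)] with ε hε
  rw [Avg_band h (Avg_int h hΦ) (by linarith [hε.2]) (by linarith [hε.1]) (by linarith [hε.1]),
    show Real.pi + ε * -2 = Real.pi - 2 * ε by ring,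
    show Real.pi + ε * (-2 + 1) = Real.pi - ε by ring]

theorem Geo.avg_bot (h : Geo Ω l r) {Φ : ℂ → ℝ} (hΦ : ContinuousOn Φ (closure Ω)) :
    Tendsto (fun ε : ℝ => ε⁻¹ * ∫ z in Ω ∩ {z | ε < z.im ∧ z.im < 2 * ε}, Φ z)
      (𝓝[>] 0) (𝓝 (∫ x in l 0..r 0, Φ ⟨x, 0⟩)) := by
  have hπ := Real.pi_gt_three
  have h0 := Avg_main (h.continuousOn_slice hΦ) (p := 0) (a := 1)
    ⟨le_rfl, Real.pi_pos.le⟩ fun ε h1 h2 => ⟨by linarith, by linarith⟩
  refine h0.congr' ?_
  filter_upwards [Ioo_mem_nhdsGT (zero_lt_one' ℝ)] with ε hε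
  rw [Avg_band h (Avg_int h hΦ) (by linarith [hε.1]) (by linarith [hε.1]) (by linarith [hε.2]),
    show 0 + ε * 1 = ε by ring, show 0 + ε * (1 + 1) = 2 * ε by ring]

end Pool.Agent.L2K
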