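import Pool.Agent.P.MP_2f6447_an.K.Top

/-! Extreme points. -/

open Set MeasureTheory Filter Topology Complex Metric
open scoped ContDiff ComplexConjugate

namespace Pool.Agent.L2K

variable {Ω U : Set ℂ} {lam : ℝ} {u w f g : ℂ → ℝ}

theorem ExtG_notMem (h : Dom Ω) {p : ℂ} (hp : p ∈ frontier Ω) : p ∉ Ω := by
  rw [h.isOpen.frontier_eq] at hp
  exact hp.2

theorem ExtG_perp {v ν : ℂ} (hν : ‖ν‖ = 1) (h : dot v ν = 0) :
    v = dot v (I * ν) • (I * ν) := by
  have h1 : ν.re * ν.re + ν.im * ν.im = 1 := by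
    rw [← Complex.normSq_apply, Complex.normSq_eq_norm_sq, hν, one_pow]
  unfold dot at h ⊢
  refine Complex.ext ?_ ?_
  · simp only [smul_re, mul_re, mul_im, I_re, I_im, smul_eq_mul]
    linear_combination (-v.re) * h1 + ν.re * h
  · simp only [smul_im, mul_re, mul_im, I_re, I_im, smul_eq_mul]
    linear_combination (-v.im) * h1 + ν.im * h

theorem ExtG_cont (p ν : ℂ) : Continuous fun z : ℂ => dot (z - p) ν := by
  unfold dot
  fun_prop

theorem ExtG_line {a b p ν : ℂ} (hν : ‖ν‖ = 1) (hab : a ≠ b) (hp : p ∈ openSegment ℝ a b)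
    (h0 : dot (b - a) ν = 0) : ∀ᶠ m in 𝓝 p, dot (m - p) ν = 0 → m ∈ segment ℝ a b := by
  obtain ⟨s, t, hs, ht, hst, rfl⟩ := hp
  have e1 := ExtG_perp hν h0
  have hd : dot (b - a) (I * ν) ≠ 0 := fun e => by
    rw [e, zero_smul] at e1
    exact hab (sub_eq_zero.1 e1).symm
  have hc : Tendsto (fun m : ℂ => dot (m - (s • a + t • b)) (I * ν) / dot (b - a) (I * ν))
      (𝓝 (s • a + t • b)) (𝓝 0) := by
    have := ((ExtG_cont (s • a + t • b) (I * ν)).div_const (dot (b - a) (I * ν))).tendsto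
      (s • a + t • b)
    simpa [dot] using this
  filter_upwards [hc.eventually (Ioo_mem_nhds (neg_neg_of_pos ht) hs)] with m hm hm0
  have e2 := ExtG_perp hν hm0
  generalize dot (m - (s • a + t • b)) (I * ν) = η at hm e2
  generalize dot (b - a) (I * ν) = δ at hm e1 hd
  refine ⟨s - η / δ, t + η / δ, by linarith [hm.2], by linarith [hm.1], by linarith, ?_⟩
  have e3 : m = s • a + t • b + (η / δ) • (b - a) := by
    rw [e1, smul_smul, div_mul_cancel₀ _ hd, ← e2, add_sub_cancel]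
  rw [e3]
  module

theorem Dom.flat (h : Dom Ω) {p : ℂ} (hp : p ∈ frontier Ω) (he : ¬ Ext Ω p) : ∃ ρ, 0 < ρ ∧
    ∀ z ∈ ball p ρ, (z ∈ Ω ↔ dot (z - p) (nu Ω p) < 0) ∧
      (z ∈ frontier Ω ↔ dot (z - p) (nu Ω p) = 0) := by
  have hN := h.isN_nu hp
  generalize nu Ω p = ν at hN
  obtain ⟨a, b, hab, hs, hps⟩ : ∃ a b, a ≠ b ∧ segment ℝ a b ⊆ frontier Ω ∧
      p ∈ openSegment ℝ a b := by
    by_contra hc
    exact he ⟨hp, fun a b h1 h2 h3 => hc ⟨a, b, h1, h2, h3⟩⟩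
  have h0 : dot (b - a) ν = 0 := by
    have ha := hN.le_of_closure (frontier_subset_closure (hs (left_mem_segment ℝ a b)))
    have hb := hN.le_of_closure (frontier_subset_closure (hs (right_mem_segment ℝ a b)))
    obtain ⟨s, t, hs0, ht0, hst, rfl⟩ := hps
    obtain rfl : s = 1 - t := by linarith
    have e1 : dot (a - ((1 - t) • a + t • b)) ν = -t * dot (b - a) ν := by
      simp [dot]
      ring
    have e2 : dot (b - ((1 - t) • a + t • b)) ν = (1 - t) * dot (b - a) ν := by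
      simp [dot]
      ring
    rw [e1] at ha
    rw [e2] at hb
    nlinarith
  have hl := ExtG_line hN.1 hab hps h0
  obtain ⟨q, hq⟩ := h.ne
  have hc := hN.2 q hq
  have hτ : Continuous fun z : ℂ => dot (z - p) ν / dot (q - p) ν := (ExtG_cont p ν).div_const _
  have hτ0 : dot (p - p) ν / dot (q - p) ν = 0 := by simp [dot]
  have h1 : ∀ᶠ z in 𝓝 p, dot (z - p) ν / dot (q - p) ν < 1 :=
    hτ.continuousAt.eventually_lt continuousAt_const (by rw [hτ0]; exact one_pos)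
  have h2 : Tendsto (fun z : ℂ => (1 - dot (z - p) ν / dot (q - p) ν)⁻¹ •
      (z - (dot (z - p) ν / dot (q - p) ν) • q)) (𝓝 p) (𝓝 p) := by
    have h3 : ContinuousAt (fun z : ℂ => (1 - dot (z - p) ν / dot (q - p) ν)⁻¹ •
        (z - (dot (z - p) ν / dot (q - p) ν) • q)) p :=
      ((continuous_const.sub hτ).continuousAt.inv₀ (by simp [dot])).smul
        (continuous_id.sub (hτ.smul continuous_const)).continuousAt
    have h4 := h3.tendsto
    rwa [hτ0, sub_zero, inv_one, zero_smul, sub_zero, one_smul] at h4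
  have h5 : ∀ᶠ z in 𝓝 p, dot (z - p) ν < 0 → z ∈ Ω := by
    filter_upwards [h1, h2.eventually hl] with z hz1 hz2 hz
    have hτp : 0 < dot (z - p) ν / dot (q - p) ν := div_pos_of_neg_of_neg hz hc
    have e : dot (z - p) ν = dot (z - p) ν / dot (q - p) ν * dot (q - p) ν :=
      (div_mul_cancel₀ _ hc.ne).symm
    generalize dot (z - p) ν / dot (q - p) ν = τ at hz1 hz2 hτp e
    have h6 : 1 - τ ≠ 0 := by linarith
    have h7 : dot ((1 - τ)⁻¹ • (z - τ • q) - p) ν = 0 := by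
      have e1 : dot ((1 - τ)⁻¹ • (z - τ • q) - p) ν =
          (1 - τ)⁻¹ * (dot (z - p) ν - τ * dot (q - p) ν) := by
        simp only [dot, sub_re, sub_im, smul_re, smul_im, smul_eq_mul]
        field_simp
        ring
      rw [e1, e, sub_self, mul_zero]
    have h8 := h.convex.combo_interior_closure_mem_interior (h.isOpen.interior_eq.symm ▸ hq)
      (frontier_subset_closure (hs (hz2 h7))) hτp (sub_pos.2 hz1).le (by ring)
    rwa [smul_smul, mul_inv_cancel₀ h6, one_smul, add_sub_cancel, h.isOpen.interior_eq] at h8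
  obtain ⟨ρ, hρ, hb⟩ := Metric.eventually_nhds_iff_ball.1 (h5.and hl)
  refine ⟨ρ, hρ, fun z hz => ⟨⟨hN.2 z, (hb z hz).1⟩, fun hf => ?_, fun h9 => hs ((hb z hz).2 h9)⟩⟩
  exact (hN.le_of_closure (frontier_subset_closure hf)).eq_or_lt.resolve_right fun h9 =>
    ExtG_notMem h hf ((hb z hz).1 h9)

theorem Dom.isClosed_ext (h : Dom Ω) : IsClosed {p | Ext Ω p} := by
  refine isClosed_of_closure_subset fun p hp => ?_
  have hpf : p ∈ frontier Ω := closure_minimal (fun z hz => hz.1) isClosed_frontier hp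
  by_contra he
  obtain ⟨ρ, hρ, hb⟩ := h.flat hpf he
  have hν := (h.isN_nu hpf).1
  generalize nu Ω p = ν at hb hν
  obtain ⟨z, hz, hzp⟩ := Metric.mem_closure_iff.1 hp ρ hρ
  have hzb : z ∈ ball p ρ := mem_ball'.2 hzp
  have hz0 := (hb z hzb).2.1 hz.1
  obtain ⟨ε, hε, hεb⟩ := Metric.isOpen_iff.1 isOpen_ball z hzb
  have hn : ‖(ε / 2) • (I * ν)‖ = ε / 2 := by
    rw [norm_smul, norm_mul, norm_I, hν, Real.norm_of_nonneg (half_pos hε).le]
    ring
  have hd : dot ((ε / 2) • (I * ν)) ν = 0 := by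
    simp [dot]
    ring
  generalize (ε / 2) • (I * ν) = v at hn hd
  have ha : z - v ∈ ball p ρ := hεb (by
    rw [mem_ball_iff_norm, sub_sub_cancel_left, norm_neg, hn]
    exact half_lt_self hε)
  have hb' : z + v ∈ ball p ρ := hεb (by
    rw [mem_ball_iff_norm, add_sub_cancel_left, hn]
    exact half_lt_self hε)
  refine hz.2 (z - v) (z + v) (fun e => ?_) (fun m hm => ?_) ?_
  · have e1 : v = 0 := by linear_combination (-1 / 2 : ℂ) * e
    rw [e1, norm_zero] at hn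
    linarith
  · refine (hb m ((convex_ball p ρ).segment_subset ha hb' hm)).2.2 ?_
    obtain ⟨s, t, -, -, hst, rfl⟩ := hm
    obtain rfl : s = 1 - t := by linarith
    simp only [dot, sub_re, sub_im, add_re, add_im, smul_re, smul_im, smul_eq_mul] at hz0 hd ⊢
    linear_combination hz0 + (2 * t - 1) * hd
  · exact ⟨1 / 2, 1 / 2, by norm_num, by norm_num, by norm_num, by module⟩

theorem Dom.exists_ext (h : Dom Ω) : ∃ p, Ext Ω p := by
  obtain ⟨p, hp, hm⟩ := h.bdd.isCompact_closure.exists_isMaxOn h.ne.closure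
    continuous_norm.continuousOn
  have key : ∀ a b, a ≠ b → a ∈ closure Ω → b ∈ closure Ω → p ∉ openSegment ℝ a b := by
    rintro a b hab ha hb ⟨s, t, hs, ht, hst, e⟩
    have := norm_combo_lt_of_ne (hm ha) (hm hb) hab hs ht hst
    rw [e] at this
    exact lt_irrefl _ this
  refine ⟨p, ?_, fun a b hab hs => key a b hab
    (frontier_subset_closure (hs (left_mem_segment ℝ a b)))
    (frontier_subset_closure (hs (right_mem_segment ℝ a b)))⟩
  rw [h.isOpen.frontier_eq]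
  refine ⟨hp, fun hpΩ => ?_⟩
  obtain ⟨ε, hε, hb⟩ := Metric.isOpen_iff.1 h.isOpen p hpΩ
  have hn : ‖((ε / 2 : ℝ) : ℂ)‖ = ε / 2 := by
    rw [Complex.norm_real, Real.norm_of_nonneg (half_pos hε).le]
  generalize ((ε / 2 : ℝ) : ℂ) = v at hn
  refine key (p - v) (p + v) (fun e => ?_) (subset_closure (hb ?_)) (subset_closure (hb ?_))
    ⟨1 / 2, 1 / 2, by norm_num, by norm_num, by norm_num, by module⟩
  · have e1 : v = 0 := by linear_combination (-1 / 2 : ℂ) * e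
    rw [e1, norm_zero] at hn
    linarith
  · rw [mem_ball_iff_norm, sub_sub_cancel_left, norm_neg, hn]
    exact half_lt_self hε
  · rw [mem_ball_iff_norm, add_sub_cancel_left, hn]
    exact half_lt_self hε

theorem ExtG_ray (h : Dom Ω) (hc : NoCorner Ω) {p v : ℂ} (hp : p ∈ frontier Ω)
    (hv : ∀ t : ℝ, 0 < t → t ≤ 1 → p + t • v ∈ frontier Ω) : dot v (nu Ω p) = 0 := by
  have h1 := (h.isN_nu hp).le_of_closure (frontier_subset_closure (hv 1 one_pos le_rfl))
  rw [one_smul, add_sub_cancel_left] at h1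
  refine h1.eq_or_lt.resolve_right fun h2 => ?_
  have hv0 : v ≠ 0 := fun e => by simp [e, dot] at h2
  have hn : 0 < ‖v‖ := norm_pos_iff.2 hv0
  obtain ⟨ρ, hρ, hb⟩ := h.inner_cone hc (div_pos (neg_pos.2 h2) hn)
  have ht : 0 < min 1 (ρ / ‖v‖) := lt_min one_pos (div_pos hρ hn)
  have ht2 : min 1 (ρ / ‖v‖) * ‖v‖ ≤ ρ := (le_div_iff₀ hn).1 (min_le_right _ _)
  refine ExtG_notMem h (hv _ ht (min_le_left _ _)) (hb p hp _ (smul_ne_zero ht.ne' hv0) ?_ ?_)
  · rwa [norm_smul, Real.norm_of_nonneg ht.le]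
  · rw [norm_smul, Real.norm_of_nonneg ht.le]
    generalize min 1 (ρ / ‖v‖) = t
    have e : dot (t • v) (nu Ω p) = t * dot v (nu Ω p) := by
      simp only [dot, smul_re, smul_im, smul_eq_mul]
      ring
    rw [e]
    refine le_of_eq ?_
    field_simp

theorem ExtG_frame (h : Dom Ω) (hc : NoCorner Ω) (he : Ext Ω 0) (hN : IsN Ω 0 I) {ρ : ℝ}
    (hρ : 0 < ρ) : ∃ q, Ext Ω q ∧ q ≠ 0 ∧ ‖q‖ < ρ := by
  by_contra hcon
  have hν : nu Ω 0 = I := hc 0 he.1 _ _ (h.isN_nu he.1) hN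
  obtain ⟨σ, hσ, hb⟩ := h.inner_cone hc one_pos
  have hy : (⟨0, -σ⟩ : ℂ) ∈ Ω := by
    have hn : ‖(⟨0, -σ⟩ : ℂ)‖ = σ := by
      have e : (⟨0, -σ⟩ : ℂ) = ((-σ : ℝ) : ℂ) * I := Complex.ext (by simp) (by simp)
      rw [e, norm_mul, norm_I, mul_one, Complex.norm_real, Real.norm_of_nonpos (by linarith),
        neg_neg]
    have := hb 0 he.1 ⟨0, -σ⟩ (fun e => by rw [e, norm_zero] at hn; linarith) hn.le (by
      rw [hν, hn]
      simp [dot])
    rwa [zero_add] at this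
  have h0 : (0 : ℝ) ∈ proj Ω := ⟨_, hy, rfl⟩
  have ht0 : top Ω 0 = 0 := h.top_eq hy (by linarith) he.1
  have hct : ContinuousAt (top Ω) 0 :=
    h.continuousOn_top.continuousAt (h.isOpen_proj.mem_nhds h0)
  have h1 : ∀ᶠ x in 𝓝 (0 : ℝ), |x| + |top Ω x| < ρ :=
    (continuous_abs.continuousAt.add hct.abs).eventually_lt continuousAt_const (by
      simpa [ht0] using hρ)
  have h2 : ∀ᶠ x in 𝓝 (0 : ℝ), x ∈ proj Ω := h.isOpen_proj.mem_nhds h0
  obtain ⟨r', hr', hball⟩ := Metric.eventually_nhds_iff_ball.1 (h1.and h2)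
  obtain ⟨r, hr, hrr⟩ := exists_between hr'
  have hI : ∀ x ∈ Icc (-r) r, |x| + |top Ω x| < ρ ∧ x ∈ proj Ω := fun x hx => hball x (by
    rw [mem_ball_zero_iff, Real.norm_eq_abs]
    exact (abs_le.2 hx).trans_lt hrr)
  have hne : ∀ x ∈ Icc (-r) r, x ≠ 0 → ¬ Ext Ω ⟨x, top Ω x⟩ := fun x hx hx0 hE =>
    hcon ⟨_, hE, fun e => hx0 (congrArg re e),
      (Complex.norm_le_abs_re_add_abs_im _).trans_lt (hI x hx).1⟩
  have key : ∀ (s β : ℝ), s ∈ Icc (-r) r → s ≠ 0 →
      (∀ t : ℝ, 0 < t → t ≤ 1 → top Ω (t * s) = β * (t * s)) → β = 0 := fun s β hs hs0 hβ => by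
    have h3 := ExtG_ray h hc (v := ⟨s, β * s⟩) he.1 fun t ht ht1 => by
      have h4 := h.top_frontier (hI (t * s) ⟨by nlinarith [hs.1], by nlinarith [hs.2]⟩).2
      have e : (0 : ℂ) + t • (⟨s, β * s⟩ : ℂ) = ⟨t * s, top Ω (t * s)⟩ :=
        Complex.ext (by simp) (by simp [hβ t ht ht1]; ring)
      rwa [e]
    rw [hν] at h3
    simpa [dot, hs0] using h3
  obtain ⟨α, β, hA⟩ := h.top_affine (a := 0) (b := r)
    (fun x hx => (hI x ⟨by linarith [hx.1], hx.2⟩).2)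
    fun x hx => hne x ⟨by linarith [hx.1], hx.2.le⟩ hx.1.ne'
  obtain ⟨α', β', hA'⟩ := h.top_affine (a := -r) (b := 0)
    (fun x hx => (hI x ⟨hx.1, by linarith [hx.2]⟩).2)
    fun x hx => hne x ⟨hx.1.le, by linarith [hx.2]⟩ hx.2.ne
  have hα : α = 0 := by simpa [ht0] using (hA 0 ⟨le_rfl, hr.le⟩).symm
  have hα' : α' = 0 := by simpa [ht0] using (hA' 0 ⟨by linarith, le_rfl⟩).symm
  have hβ : β = 0 := key r β ⟨by linarith, le_rfl⟩ hr.ne' fun t ht ht1 => by
    rw [hA _ ⟨by positivity, by nlinarith⟩, hα, zero_add]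
  have hβ' : β' = 0 := key (-r) β' ⟨le_rfl, by linarith⟩ (by linarith) fun t ht ht1 => by
    rw [hA' _ ⟨by nlinarith, by nlinarith⟩, hα', zero_add]
  refine h.not_affOn (x := 0) (a := -r) (b := r) (fun x hx => (hI x hx).2) ⟨by linarith, hr⟩
    (by rw [ht0]; exact he) ⟨0, 0, fun x hx => ?_⟩
  rcases le_total 0 x with hx0 | hx0
  · rw [hA x ⟨hx0, hx.2⟩, hα, hβ]
  · rw [hA' x ⟨hx.1, hx0⟩, hα', hβ']

theorem Dom.ext_accum (h : Dom Ω) (hc : NoCorner Ω) {p : ℂ} (he : Ext Ω p) {ρ : ℝ} (hρ : 0 < ρ) :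
    ∃ q, Ext Ω q ∧ q ≠ p ∧ ‖q - p‖ < ρ := by
  have hN := h.isN_nu he.1
  generalize nu Ω p = ν at hN
  have hn : ‖-I * ν‖ = 1 := by rw [norm_mul, norm_neg, norm_I, hN.1, one_mul]
  have ha : -I * ν ≠ 0 := fun e => by
    rw [e, norm_zero] at hn
    exact zero_ne_one hn
  have e0 : sim p (-I * ν) 0 = p := by simp [sim]
  obtain ⟨q, hq, hq0, hqρ⟩ := ExtG_frame (h.of_sim p ha) (hc.of_sim p ha)
    ((ext_sim p ha 0).2 (by rwa [e0])) ((isN_sim p ha 0 I).2 (by
      have e1 : -I * ν / (‖-I * ν‖ : ℝ) * I = ν := by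
        rw [hn, ofReal_one, div_one]
        linear_combination (-ν) * I_mul_I
      rwa [e0, e1])) hρ
  have e2 : sim p (-I * ν) q - p = -I * ν * q := by simp [sim]
  refine ⟨_, (ext_sim p ha q).1 hq, fun e => ?_, ?_⟩
  · rw [e, sub_self] at e2
    exact mul_ne_zero ha hq0 e2.symm
  · rwa [e2, norm_mul, hn, one_mul]

end Pool.Agent.L2K
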