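import Pool.Agent.P.MP_2f6447_an.K.Weyl

/-! Limits of solutions. -/

open Set MeasureTheory Filter Topology Complex Metric
open scoped ContDiff ComplexConjugate

namespace Pool.Agent.L2K

variable {Ω U : Set ℂ} {lam : ℝ} {u w f g : ℂ → ℝ}

theorem Limit_abs_le {K : NNReal} (h : LipschitzWith K f) (x y : ℂ) :
    |f x - f y| ≤ K * ‖x - y‖ := by
  have := h.dist_le_mul x y
  rwa [Real.dist_eq, dist_eq_norm] at this

theorem Limit_lip {K : NNReal} {F : ℕ → ℂ → ℝ} {W : ℂ → ℝ} (hF : ∀ k, LipschitzWith K (F k))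
    (hW : ∀ z, Tendsto (fun k => F k z) atTop (𝓝 (W z))) : LipschitzWith K W := by
  refine LipschitzWith.of_dist_le_mul fun x y => ?_
  exact le_of_tendsto' ((hW x).dist (hW y)) fun k => (hF k).dist_le_mul x y

theorem lip_subseq {K : NNReal} {F : ℕ → ℂ → ℝ} (hF : ∀ k, LipschitzWith K (F k))
    (h0 : ∀ k, F k 0 = 0) : ∃ (φ : ℕ → ℕ) (W : ℂ → ℝ), StrictMono φ ∧ LipschitzWith K W ∧
      ∀ z, Tendsto (fun k => F (φ k) z) atTop (𝓝 (W z)) := by
  let d : ℕ → ℂ := TopologicalSpace.denseSeq ℂ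
  have hd : DenseRange d := TopologicalSpace.denseRange_denseSeq ℂ
  have hc : IsCompact (Set.pi univ fun n : ℕ => Icc (-(K * ‖d n‖)) ((K : ℝ) * ‖d n‖)) :=
    isCompact_univ_pi fun n => isCompact_Icc
  have hmem : ∀ k, (fun n => F k (d n)) ∈
      Set.pi univ fun n : ℕ => Icc (-(K * ‖d n‖)) ((K : ℝ) * ‖d n‖) := by
    intro k n _
    have := Limit_abs_le (hF k) (d n) 0
    rw [h0 k, sub_zero, sub_zero] at this
    exact abs_le.1 this
  obtain ⟨a, -, φ, hφ, ha⟩ := hc.tendsto_subseq hmem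
  have ha' : ∀ n, Tendsto (fun k => F (φ k) (d n)) atTop (𝓝 (a n)) := fun n =>
    tendsto_pi_nhds.1 ha n
  have hcau : ∀ z, CauchySeq fun k => F (φ k) z := by
    intro z
    rw [Metric.cauchySeq_iff]
    intro ε hε
    have hK : (0 : ℝ) < K + 1 := by positivity
    obtain ⟨n, hn⟩ := hd.exists_dist_lt z (show 0 < ε / 3 / (K + 1) by positivity)
    obtain ⟨N, hN⟩ := Metric.cauchySeq_iff.1 (ha' n).cauchySeq (ε / 3) (by positivity)
    refine ⟨N, fun k hk l hl => ?_⟩
    have h1 := (hF (φ k)).dist_le_mul z (d n)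
    have h2 := (hF (φ l)).dist_le_mul z (d n)
    have h3 := hN k hk l hl
    have h4 : (K : ℝ) * dist z (d n) ≤ ε / 3 := by
      rw [lt_div_iff₀ hK] at hn
      nlinarith [dist_nonneg (x := z) (y := d n)]
    have h5 := dist_triangle4 (F (φ k) z) (F (φ k) (d n)) (F (φ l) (d n)) (F (φ l) z)
    rw [dist_comm (F (φ l) (d n))] at h5
    linarith
  choose W hW using fun z => cauchySeq_tendsto_of_complete (hcau z)
  exact ⟨φ, W, hφ, Limit_lip (fun k => hF (φ k)) hW, hW⟩

theorem lip_tendsto_unif {K : NNReal} {F : ℕ → ℂ → ℝ} {W : ℂ → ℝ} (hF : ∀ k, LipschitzWith K (F k))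
    (hW : ∀ z, Tendsto (fun k => F k z) atTop (𝓝 (W z))) (R : ℝ) {ε : ℝ} (hε : 0 < ε) :
    ∀ᶠ k in atTop, ∀ z : ℂ, ‖z‖ ≤ R → |F k z - W z| ≤ ε := by
  have hWl := Limit_lip hF hW
  have hK : (0 : ℝ) < K + 1 := by positivity
  obtain ⟨t, ht, hcov⟩ := Metric.totallyBounded_iff.1
    (isCompact_closedBall (0 : ℂ) R).totallyBounded (ε / 3 / (K + 1)) (by positivity)
  have hev : ∀ᶠ k in atTop, ∀ y ∈ t, dist (F k y) (W y) < ε / 3 :=
    (eventually_all_finite ht).2 fun y _ =>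
      (Metric.tendsto_nhds.1 (hW y)) (ε / 3) (by positivity)
  filter_upwards [hev] with k hk z hz
  have hz' : z ∈ closedBall (0 : ℂ) R := by simpa using hz
  obtain ⟨y, hy, hzy⟩ := mem_iUnion₂.1 (hcov hz')
  rw [mem_ball, lt_div_iff₀ hK] at hzy
  have h1 := (hF k).dist_le_mul z y
  have h2 := hWl.dist_le_mul z y
  have h3 := hk y hy
  have h4 : (K : ℝ) * dist z y ≤ ε / 3 := by nlinarith [dist_nonneg (x := z) (y := y)]
  have h5 := dist_triangle4 (F k z) (F k y) (W y) (W z)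
  rw [dist_comm (W y)] at h5
  rw [← Real.dist_eq]
  linarith

theorem Limit_moving {K : NNReal} {F : ℕ → ℂ → ℝ} {W : ℂ → ℝ} (hF : ∀ k, LipschitzWith K (F k))
    (hW : ∀ z, Tendsto (fun k => F k z) atTop (𝓝 (W z))) {z : ℕ → ℂ} {p : ℂ}
    (hz : Tendsto z atTop (𝓝 p)) : Tendsto (fun k => F k (z k)) atTop (𝓝 (W p)) := by
  have h1 : Tendsto (fun k => F k (z k) - F k p) atTop (𝓝 0) := by
    have h2 : Tendsto (fun k => (K : ℝ) * ‖z k - p‖) atTop (𝓝 0) := by
      have := (tendsto_iff_norm_sub_tendsto_zero.1 hz).const_mul (K : ℝ)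
      rwa [mul_zero] at this
    refine squeeze_zero_norm (fun k => ?_) h2
    exact Limit_abs_le (hF k) (z k) p
  have := h1.add (hW p)
  simpa using this

theorem Limit_contDiff_D {φ : ℂ → ℝ} (h : ContDiff ℝ ∞ φ) (v : ℂ) : ContDiff ℝ ∞ (D v φ) := by
  have h1 : ContDiff ℝ ∞ (fderiv ℝ φ) := h.fderiv_right (by simp)
  exact h1.clm_apply contDiff_const

theorem Limit_cpt_D {φ : ℂ → ℝ} (h : HasCompactSupport φ) (v : ℂ) : HasCompactSupport (D v φ) :=
  h.fderiv_apply ℝ v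

theorem Limit_vweak {K : NNReal} {F : ℕ → ℂ → ℝ} {V : ℕ → Set ℂ} {μ : ℕ → ℝ} {W : ℂ → ℝ}
    {B : Set ℂ} (hF : ∀ k, LipschitzWith K (F k)) (hH : ∀ k, Helm (μ k) (V k) (F k))
    (hμ : Tendsto μ atTop (𝓝 lam)) (hB : ∀ᶠ k in atTop, B ⊆ V k)
    (hW : ∀ z, Tendsto (fun k => F k z) atTop (𝓝 (W z))) : VWeak lam B W := by
  intro φ hφ hc hs
  have hl : Continuous (lap φ) :=
    ((Limit_contDiff_D (Limit_contDiff_D hφ 1) 1).continuous).add
      (Limit_contDiff_D (Limit_contDiff_D hφ I) I).continuous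
  have hlc : HasCompactSupport (lap φ) :=
    (Limit_cpt_D (Limit_cpt_D hc 1) 1).add (Limit_cpt_D (Limit_cpt_D hc I) I)
  have hφc : Continuous φ := hφ.continuous
  have hb1 : ∀ᶠ k in atTop, |F k 0| ≤ |W 0| + 1 :=
    ((hW 0).abs.eventually (ge_mem_nhds (lt_add_one _)))
  have hb2 : ∀ᶠ k in atTop, |μ k| ≤ |lam| + 1 :=
    (hμ.abs.eventually (ge_mem_nhds (lt_add_one _)))
  have hint : Integrable (fun z : ℂ => (|W 0| + 1 + K * ‖z‖) * (|lap φ z| + (|lam| + 1) * |φ z|)) := by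
    refine Continuous.integrable_of_hasCompactSupport (by fun_prop) ?_
    refine HasCompactSupport.mul_left ?_
    exact (hlc.comp_left (g := fun x : ℝ => |x|) abs_zero).add
      (hc.comp_left (g := fun x : ℝ => (|lam| + 1) * |x|) (by simp))
  have hlim : Tendsto (fun k => ∫ z, F k z * (lap φ z + μ k * φ z)) atTop
      (𝓝 (∫ z, W z * (lap φ z + lam * φ z))) := by
    refine tendsto_integral_filter_of_dominated_convergence _ ?_ ?_ hint ?_
    · refine Eventually.of_forall fun k => Continuous.aestronglyMeasurable ?_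
      have := (hF k).continuous
      fun_prop
    · filter_upwards [hb1, hb2] with k h1 h2
      refine Eventually.of_forall fun z => ?_
      rw [Real.norm_eq_abs, abs_mul]
      have h3 := Limit_abs_le (hF k) z 0
      rw [sub_zero] at h3
      have h4 : |F k z| ≤ |W 0| + 1 + K * ‖z‖ := by
        have := abs_sub_abs_le_abs_sub (F k z) (F k 0)
        linarith
      have h5 : |lap φ z + μ k * φ z| ≤ |lap φ z| + (|lam| + 1) * |φ z| := by
        refine (abs_add_le _ _).trans ?_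
        rw [abs_mul]
        have := mul_le_mul_of_nonneg_right h2 (abs_nonneg (φ z))
        linarith
      exact mul_le_mul h4 h5 (abs_nonneg _) (by positivity)
    · refine Eventually.of_forall fun z => ?_
      exact (hW z).mul (tendsto_const_nhds.add (hμ.mul_const _))
  have hz : ∀ᶠ k in atTop, ∫ z, F k z * (lap φ z + μ k * φ z) = 0 := by
    filter_upwards [hB] with k hk
    exact (hH k).vweak φ hφ hc (hs.trans hk)
  exact tendsto_nhds_unique hlim (tendsto_const_nhds.congr' (hz.mono fun k hk => hk.symm))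

theorem Limit_D_lip {K : NNReal} (hf : LipschitzWith K f) (h : Helm lam U f) (hl : 0 ≤ lam)
    {p v : ℂ} {R : ℝ} (hR0 : 0 < R) (hR : closedBall p (2 * R) ⊆ U) (hlR : lam * R ^ 2 ≤ 1)
    (hv : ‖v‖ = 1) {x y : ℂ} (hx : x ∈ closedBall p R) (hy : y ∈ closedBall p R) :
    |D v f y - D v f x| ≤ 4 * K / R * ‖y - x‖ := by
  have hD := h.of_D v
  have hsub : ∀ q ∈ closedBall p R, closedBall q R ⊆ U := by
    intro q hq
    refine subset_trans (closedBall_subset_closedBall' ?_) hR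
    rw [mem_closedBall] at hq
    linarith
  have hb : ∀ z, |D v f z| ≤ K := by
    intro z
    rw [D_eq_dot]
    have h1 := abs_dot_le (grad f z) v
    rw [hv, mul_one] at h1
    exact h1.trans (norm_grad_le hf z)
  have := Convex.norm_image_sub_le_of_norm_fderiv_le (𝕜 := ℝ) (f := D v f) (C := 4 * K / R)
    (s := closedBall p R)
    (fun q hq => hD.differentiableAt (hsub q hq (mem_closedBall_self hR0.le)))
    (fun q hq => by
      rw [← norm_grad]
      exact grad_est hD hl hR0 (hsub q hq) hlR fun z _ => hb z)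
    (convex_closedBall p R) hx hy
  rwa [Real.norm_eq_abs] at this

theorem Limit_quot {K : NNReal} (hf : LipschitzWith K f) (h : Helm lam U f) (hl : 0 ≤ lam)
    {p v : ℂ} {R : ℝ} (hR0 : 0 < R) (hR : closedBall p (2 * R) ⊆ U) (hlR : lam * R ^ 2 ≤ 1)
    (hv : ‖v‖ = 1) {x : ℂ} (hx : x ∈ closedBall p (R / 2)) {t : ℝ} (ht0 : 0 < t) (ht : t ≤ R / 2) :
    |(f (x + t * v) - f x) / t - D v f x| ≤ 4 * K / R * t := by
  have hmem : ∀ s : ℝ, 0 ≤ s → s ≤ t → x + s * v ∈ closedBall p R := by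
    intro s hs0 hs
    rw [mem_closedBall, dist_eq_norm] at hx ⊢
    have e : x + s * v - p = (x - p) + s * v := by ring
    rw [e]
    refine (norm_add_le _ _).trans ?_
    rw [norm_mul, hv, mul_one, Complex.norm_real, Real.norm_eq_abs, abs_of_nonneg hs0]
    linarith
  have hU' : closedBall p R ⊆ U :=
    subset_trans (closedBall_subset_closedBall (by linarith)) hR
  have hcont : Continuous fun s : ℝ => f (x + s * v) := by
    have := hf.continuous
    fun_prop
  obtain ⟨s, hs, hs'⟩ := exists_hasDerivAt_eq_slope (fun s : ℝ => f (x + s * v))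
    (fun s : ℝ => dot (grad f (x + s * v)) v) ht0 hcont.continuousOn
    (fun s hs => hasDerivAt_line (h.differentiableAt (hU' (hmem s hs.1.le hs.2.le))))
  simp only [ofReal_zero, zero_mul, add_zero, sub_zero] at hs'
  rw [← hs', ← D_eq_dot]
  have h0 : x ∈ closedBall p R := by simpa using hmem 0 le_rfl ht0.le
  refine (Limit_D_lip hf h hl hR0 hR hlR hv h0 (hmem s hs.1.le hs.2.le)).trans ?_
  refine mul_le_mul_of_nonneg_left ?_ (by positivity)
  rw [add_sub_cancel_left, norm_mul, hv, mul_one, Complex.norm_real, Real.norm_eq_abs,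
    abs_of_nonneg hs.1.le]
  exact hs.2.le

theorem Limit_grad_eq (u : ℂ → ℝ) (z : ℂ) : grad u z = (D 1 u z : ℂ) + (D I u z : ℂ) * I := by
  apply Complex.ext <;> simp [grad]

theorem helm_limit {K : NNReal} {F : ℕ → ℂ → ℝ} {V : ℕ → Set ℂ} {μ : ℕ → ℝ} {W : ℂ → ℝ}
    (hU : IsOpen U) (hF : ∀ k, LipschitzWith K (F k)) (hH : ∀ k, Helm (μ k) (V k) (F k))
    (hμ0 : ∀ k, 0 ≤ μ k) (hμ : Tendsto μ atTop (𝓝 lam))
    (hV : ∀ p ∈ U, ∃ ρ, 0 < ρ ∧ ∀ᶠ k in atTop, closedBall p ρ ⊆ V k)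
    (hW : ∀ z, Tendsto (fun k => F k z) atTop (𝓝 (W z))) :
    Helm lam U W ∧ ∀ (z : ℕ → ℂ) (p : ℂ), p ∈ U → Tendsto z atTop (𝓝 p) →
      Tendsto (fun k => grad (F k) (z k)) atTop (𝓝 (grad W p)) := by
  have hl : 0 ≤ lam := ge_of_tendsto' hμ hμ0
  have hWl := Limit_lip hF hW
  have hHW : Helm lam U W := by
    refine helm_of_locally hU fun p hp => ?_
    obtain ⟨ρ, hρ, hk⟩ := hV p hp
    refine ⟨ball p ρ, mem_ball_self hρ, ?_⟩
    refine weyl_cont isOpen_ball hl hWl.continuous.continuousOn ?_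
    exact Limit_vweak hF hH hμ (hk.mono fun k hk => ball_subset_closedBall.trans hk) hW
  refine ⟨hHW, fun z p hp hz => ?_⟩
  obtain ⟨ρ, hρ, hk⟩ := hV p hp
  obtain ⟨σ, hσ, hσU⟩ := Metric.isOpen_iff.1 hU p hp
  obtain ⟨R, hR0, hRρ, hRσ, hRl⟩ :
      ∃ R : ℝ, 0 < R ∧ 2 * R ≤ ρ ∧ 2 * R < σ ∧ (lam + 1) * R ^ 2 ≤ 1 := by
    refine ⟨min (min (ρ / 2) (σ / 4)) (1 / (lam + 1)), by positivity, ?_, ?_, ?_⟩
    · have := (min_le_left (min (ρ / 2) (σ / 4)) (1 / (lam + 1))).trans (min_le_left _ _)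
      linarith
    · have := (min_le_left (min (ρ / 2) (σ / 4)) (1 / (lam + 1))).trans (min_le_right _ _)
      linarith
    · have h1 := min_le_right (min (ρ / 2) (σ / 4)) (1 / (lam + 1))
      have h2 : 0 < min (min (ρ / 2) (σ / 4)) (1 / (lam + 1)) := by positivity
      generalize min (min (ρ / 2) (σ / 4)) (1 / (lam + 1)) = r at h1 h2
      rw [le_div_iff₀ (by linarith)] at h1
      have h3 : r ≤ 1 := by nlinarith
      nlinarith
  have hWU : closedBall p (2 * R) ⊆ U := (closedBall_subset_ball hRσ).trans hσU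
  have hlR : lam * R ^ 2 ≤ 1 := by nlinarith [sq_nonneg R]
  have hDv : ∀ v : ℂ, ‖v‖ = 1 → Tendsto (fun k => D v (F k) (z k)) atTop (𝓝 (D v W p)) := by
    intro v hv
    rw [Metric.tendsto_nhds]
    intro ε hε
    obtain ⟨t, ht0, ht, htε⟩ : ∃ t : ℝ, 0 < t ∧ t ≤ R / 2 ∧ 4 * K / R * t ≤ ε / 4 := by
      have hL : (0 : ℝ) ≤ 4 * K / R := by positivity
      generalize 4 * (K : ℝ) / R = L at hL
      refine ⟨min (R / 2) (ε / 4 / (L + 1)), by positivity, min_le_left _ _, ?_⟩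
      have h1 := min_le_right (R / 2) (ε / 4 / (L + 1))
      have h2 : 0 < min (R / 2) (ε / 4 / (L + 1)) := by positivity
      generalize min (R / 2) (ε / 4 / (L + 1)) = r at h1 h2
      rw [le_div_iff₀ (by linarith)] at h1
      nlinarith
    have hq : Tendsto (fun k => (F k (z k + t * v) - F k (z k)) / t) atTop
        (𝓝 ((W (p + t * v) - W p) / t)) :=
      ((Limit_moving hF hW (hz.add_const _)).sub (Limit_moving hF hW hz)).div_const t
    have e1 := (Metric.tendsto_nhds.1 hq) (ε / 4) (by positivity)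
    have e2 : ∀ᶠ k in atTop, μ k ≤ lam + 1 := hμ.eventually (ge_mem_nhds (lt_add_one _))
    have e3 : ∀ᶠ k in atTop, z k ∈ closedBall p (R / 2) :=
      hz.eventually (closedBall_mem_nhds p (by positivity))
    have h2 := Limit_quot hWl hHW hl hR0 hWU hlR hv (mem_closedBall_self (by positivity)) ht0 ht
    filter_upwards [e1, e2, e3, hk] with k a1 a2 a3 a4
    have h1 := Limit_quot (hF k) (hH k) (hμ0 k) hR0
      ((closedBall_subset_closedBall hRρ).trans a4) (by nlinarith [sq_nonneg R]) hv a3 ht0 ht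
    rw [Real.dist_eq] at a1 ⊢
    rw [abs_lt] at a1 ⊢
    rw [abs_le] at h1 h2
    constructor <;> linarith [a1.1, a1.2, h1.1, h1.2, h2.1, h2.2]
  simp only [Limit_grad_eq]
  exact ((continuous_ofReal.tendsto _).comp (hDv 1 (by simp))).add
    (((continuous_ofReal.tendsto _).comp (hDv I (by simp))).mul_const I)

end Pool.Agent.L2K
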