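import Pool.Agent.P.MP_2f6447_an.K.Refl
import Pool.Agent.P.MP_2f6447_an.K.Limit
import Pool.Agent.P.MP_2f6447_an.K.ExtG

/-! Gradient convergence up to a flat piece of the boundary. -/

open Set MeasureTheory Filter Topology Complex Metric
open scoped ContDiff ComplexConjugate

namespace Pool.Agent.L2K

variable {Ω U : Set ℂ} {lam : ℝ} {u w f g : ℂ → ℝ}

/-- slope of the chord of the upper boundary over the unit interval about `x0` -/
noncomputable def BUflat_sl (Ω : Set ℂ) (x0 : ℝ) : ℝ := top Ω (x0 + 1 / 2) - top Ω (x0 - 1 / 2)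

/-- the similarity that sends the real axis to the line of the flat piece -/
noncomputable def BUflat_s (Ω : Set ℂ) (x0 : ℝ) : ℂ → ℂ :=
  sim ⟨x0, top Ω x0⟩ ⟨1, BUflat_sl Ω x0⟩

/-- the domain is a half plane near `x0` -/
structure BUflat_good (Ω : Set ℂ) (x0 δ : ℝ) : Prop where
  sl : |BUflat_sl Ω x0| ≤ δ
  ht : |top Ω x0| ≤ δ
  sup : ∀ y ∈ Ω, y.im < top Ω x0 + BUflat_sl Ω x0 * (y.re - x0)
  mem : ∀ y : ℂ, |y.re - x0| ≤ 1 / 2 → -1 ≤ y.im →
    y.im < top Ω x0 + BUflat_sl Ω x0 * (y.re - x0) → y ∈ Ω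

theorem BUflat_norm_le (y : ℂ) : ‖y‖ ≤ |y.re| + |y.im| := Complex.norm_le_abs_re_add_abs_im y

theorem BUflat_geo (h : Dom Ω) (hb : ∀ y ∈ Ω, y.im < 0) {x0 δ : ℝ} (hδ0 : 0 < δ) (hδ : δ ≤ 1 / 8)
    (hf : ∀ y : ℂ, ‖y‖ ≤ |x0| + 2 → y.im ≤ -δ → y ∈ Ω) {q : ℂ} (hq : ‖q - (x0 : ℂ)‖ ≤ 1 / 8)
    (he : ∀ p ∈ ball q 1, ¬ Ext Ω p) : BUflat_good Ω x0 δ := by
  have habs : ∀ x : ℝ, |x - x0| ≤ 1 / 2 → |x| ≤ |x0| + 1 / 2 := by
    intro x hx
    have := abs_add_le (x - x0) x0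
    rw [sub_add_cancel] at this
    linarith
  have hin : ∀ x : ℝ, |x - x0| ≤ 1 / 2 → (⟨x, -δ⟩ : ℂ) ∈ Ω := by
    intro x hx
    refine hf _ ?_ le_rfl
    have h1 := BUflat_norm_le ⟨x, -δ⟩
    have h2 := habs x hx
    have h3 : |(-δ)| = δ := by rw [abs_neg, abs_of_pos hδ0]
    simp only [h3] at h1
    linarith
  have hpr : ∀ x : ℝ, |x - x0| ≤ 1 / 2 → x ∈ proj Ω := fun x hx => ⟨_, hin x hx, rfl⟩
  have hlo : ∀ x : ℝ, |x - x0| ≤ 1 / 2 → -δ < top Ω x := fun x hx => h.lt_top (hin x hx)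
  have hhi : ∀ x : ℝ, |x - x0| ≤ 1 / 2 → top Ω x ≤ 0 := by
    intro x hx
    refine csSup_le ⟨-δ, hin x hx⟩ ?_
    intro y hy
    exact (hb _ hy).le
  have hI : ∀ x ∈ Icc (x0 - 1 / 2) (x0 + 1 / 2), |x - x0| ≤ 1 / 2 := by
    intro x hx
    rw [abs_le]
    constructor <;> linarith [hx.1, hx.2]
  obtain ⟨α, β, haff⟩ : AffOn (top Ω) (x0 - 1 / 2) (x0 + 1 / 2) := by
    refine h.top_affine (fun x hx => hpr x (hI x hx)) ?_
    intro x hx
    refine he _ ?_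
    have hx' := hI x (Ioo_subset_Icc_self hx)
    have h1 := BUflat_norm_le ((⟨x, top Ω x⟩ : ℂ) - (x0 : ℂ))
    have h2 : |top Ω x| ≤ δ := by
      rw [abs_le]
      constructor <;> linarith [hlo x hx', hhi x hx']
    simp only [sub_re, ofReal_re, sub_im, ofReal_im, sub_zero] at h1
    have h3 : ‖(⟨x, top Ω x⟩ : ℂ) - q‖ ≤ ‖(⟨x, top Ω x⟩ : ℂ) - (x0 : ℂ)‖ + ‖(x0 : ℂ) - q‖ :=
      norm_sub_le_norm_sub_add_norm_sub _ _ _
    rw [norm_sub_rev (x0 : ℂ) q] at h3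
    rw [mem_ball, dist_eq_norm]
    linarith
  have e0 : top Ω x0 = α + β * x0 := haff x0 ⟨by linarith, by linarith⟩
  have e1 : top Ω (x0 + 1 / 2) = α + β * (x0 + 1 / 2) := haff _ ⟨by linarith, le_rfl⟩
  have e2 : top Ω (x0 - 1 / 2) = α + β * (x0 - 1 / 2) := haff _ ⟨le_rfl, by linarith⟩
  have eb : BUflat_sl Ω x0 = β := by
    unfold BUflat_sl
    rw [e1, e2]
    ring
  have hline : ∀ x : ℝ, |x - x0| ≤ 1 / 2 → top Ω x = top Ω x0 + β * (x - x0) := by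
    intro x hx
    rw [abs_le] at hx
    rw [haff x ⟨by linarith [hx.1], by linarith [hx.2]⟩, e0]
    ring
  have p1 : |x0 + 1 / 2 - x0| ≤ 1 / 2 := by
    rw [abs_le]
    constructor <;> linarith
  have p2 : |x0 - 1 / 2 - x0| ≤ 1 / 2 := by
    rw [abs_le]
    constructor <;> linarith
  have p0 : |x0 - x0| ≤ 1 / 2 := by simp
  refine ⟨?_, ?_, ?_, ?_⟩
  · unfold BUflat_sl
    rw [abs_le]
    constructor <;> linarith [hlo _ p1, hhi _ p1, hlo _ p2, hhi _ p2]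
  · rw [abs_le]
    constructor <;> linarith [hlo _ p0, hhi _ p0]
  · intro y hy
    rw [eb]
    have hyp : y.re ∈ proj Ω := ⟨y, hy, rfl⟩
    have hd : 0 < 2 * (|y.re - x0| + 1) := by positivity
    set t : ℝ := 1 / (2 * (|y.re - x0| + 1)) with ht
    have ht0 : 0 < t := by positivity
    have ht1 : t * (2 * (|y.re - x0| + 1)) = 1 := by
      rw [ht]
      field_simp
    have ha0 : 0 ≤ |y.re - x0| := abs_nonneg _
    have ht2 : t * |y.re - x0| ≤ 1 / 2 := by nlinarith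
    have ht3 : t ≤ 1 := by nlinarith
    have ht4 : 0 ≤ 1 - t := by linarith
    have hc := h.concaveOn_top.2 (hpr x0 p0) hyp ht4 ht0.le (by ring)
    simp only [smul_eq_mul] at hc
    have hm : |(1 - t) * x0 + t * y.re - x0| ≤ 1 / 2 := by
      have : (1 - t) * x0 + t * y.re - x0 = t * (y.re - x0) := by ring
      rw [this, abs_mul, abs_of_pos ht0]
      exact ht2
    rw [hline _ hm] at hc
    have h5 : t * top Ω y.re ≤ t * (top Ω x0 + β * (y.re - x0)) := by nlinarith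
    have h6 := le_of_mul_le_mul_left h5 ht0
    exact (h.lt_top hy).trans_le h6
  · intro y hy1 hy2 hy3
    rw [eb, ← hline _ hy1] at hy3
    rcases le_total y.im (-δ) with h1 | h1
    · refine hf y ?_ h1
      have h2 := BUflat_norm_le y
      have h3 := habs _ hy1
      have h4 : |y.im| ≤ 1 := by
        rw [abs_le]
        constructor <;> linarith
      linarith
    · exact h.mem_of_le (hin _ hy1) h1 hy3

theorem BUflat_s_re (Ω : Set ℂ) (x0 : ℝ) (y : ℂ) :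
    (BUflat_s Ω x0 y).re = x0 + (y.re - BUflat_sl Ω x0 * y.im) := by
  simp [BUflat_s, sim]

theorem BUflat_s_im (Ω : Set ℂ) (x0 : ℝ) (y : ℂ) :
    (BUflat_s Ω x0 y).im = top Ω x0 + (y.im + BUflat_sl Ω x0 * y.re) := by
  simp [BUflat_s, sim]

theorem BUflat_a_ne (β : ℝ) : (⟨1, β⟩ : ℂ) ≠ 0 := by
  intro h
  have := congrArg Complex.re h
  simp at this

theorem BUflat_good.im_neg {x0 δ : ℝ} (h : BUflat_good Ω x0 δ) {y : ℂ}
    (hy : BUflat_s Ω x0 y ∈ Ω) : y.im < 0 := by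
  have h1 := h.sup _ hy
  rw [BUflat_s_re, BUflat_s_im] at h1
  by_contra h2
  have h3 : 0 ≤ y.im := not_lt.1 h2
  nlinarith [mul_nonneg (mul_self_nonneg (BUflat_sl Ω x0)) h3]

theorem BUflat_good.mem_s {x0 : ℝ} (h : BUflat_good Ω x0 (1 / 8)) {y : ℂ} (hy : ‖y‖ < 1 / 4)
    (hi : y.im < 0) : BUflat_s Ω x0 y ∈ Ω := by
  have h1 := abs_le.1 ((Complex.abs_re_le_norm y).trans hy.le)
  have h2 := abs_le.1 ((Complex.abs_im_le_norm y).trans hy.le)
  have h3 := abs_le.1 h.sl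
  have h4 := abs_le.1 h.ht
  refine h.mem _ ?_ ?_ ?_
  · rw [BUflat_s_re, abs_le]
    constructor <;> nlinarith
  · rw [BUflat_s_im]
    nlinarith
  · rw [BUflat_s_re, BUflat_s_im]
    nlinarith [mul_nonneg (mul_self_nonneg (BUflat_sl Ω x0)) (neg_nonneg.2 hi.le)]

theorem BUflat_good.lip {x0 : ℝ} (h : BUflat_good Ω x0 (1 / 8)) {K : NNReal}
    (hu : LipschitzWith K u) : LipschitzWith (K * 2) fun y => u (BUflat_s Ω x0 y) := by
  refine hu.comp (LipschitzWith.of_dist_le_mul ?_)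
  intro y y'
  have h1 : BUflat_s Ω x0 y - BUflat_s Ω x0 y' = ⟨1, BUflat_sl Ω x0⟩ * (y - y') := by
    unfold BUflat_s sim
    ring
  have h2 := BUflat_norm_le ⟨1, BUflat_sl Ω x0⟩
  simp only [abs_one] at h2
  rw [dist_eq_norm, dist_eq_norm, h1, norm_mul]
  have h3 := h.sl
  refine mul_le_mul_of_nonneg_right ?_ (norm_nonneg _)
  push_cast
  linarith

theorem BUflat_good.zero {x0 δ : ℝ} (h : BUflat_good Ω x0 δ) (hu : Lip0 Ω u) {y : ℂ}
    (hy : y.im = 0) : u (BUflat_s Ω x0 y) = 0 :=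
  hu.zero _ fun hm => (h.im_neg hm).ne hy

theorem BUflat_good.helm {x0 : ℝ} (h : BUflat_good Ω x0 (1 / 8)) (hu : Mn Ω lam u) {K : NNReal}
    (hK : LipschitzWith K u) :
    Helm (lam * ‖(⟨1, BUflat_sl Ω x0⟩ : ℂ)‖ ^ 2) (ball 0 (1 / 4))
      (oddE fun y => u (BUflat_s Ω x0 y)) := by
  refine helm_oddE isOpen_ball ?_ (mul_nonneg hu.lam_pos.le (sq_nonneg _)) (h.lip hK) ?_
    fun y _ hy => h.zero hu.lip hy
  · intro y hy
    rw [mem_ball_zero_iff] at hy ⊢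
    rwa [Complex.norm_conj]
  · refine (hu.helm.of_sim ⟨x0, top Ω x0⟩ (BUflat_a_ne _)).mono
      (isOpen_ball.inter (isOpen_lt Complex.continuous_im continuous_const)) ?_
    intro y hy
    exact h.mem_s (mem_ball_zero_iff.1 hy.1) hy.2

theorem BUflat_grad_im (a : ℝ) (p : ℂ) : grad (fun y : ℂ => a * y.im) p = a * I := by
  refine grad_eq_of_hasFDerivAt (L := a • Complex.imCLM)
    (Complex.imCLM.hasFDerivAt.const_mul a) ?_
  intro v
  simp [dot]

theorem BUflat_mk_tendsto {f g : ℕ → ℝ} {x y : ℝ} (hf : Tendsto f atTop (𝓝 x))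
    (hg : Tendsto g atTop (𝓝 y)) :
    Tendsto (fun k => (⟨f k, g k⟩ : ℂ)) atTop (𝓝 ⟨x, y⟩) := by
  have h1 : Tendsto (fun k => (f k : ℂ) + (g k : ℂ) * I) atTop (𝓝 ((x : ℂ) + (y : ℂ) * I)) :=
    ((Complex.continuous_ofReal.tendsto x).comp hf).add
      (((Complex.continuous_ofReal.tendsto y).comp hg).mul_const I)
  simpa only [Complex.mk_eq_add_mul_I] using h1

theorem BUflat_zero_of {f : ℕ → ℝ} (h : ∀ δ : ℝ, 0 < δ → δ ≤ 1 / 8 → ∀ᶠ k in atTop, |f k| ≤ δ) :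
    Tendsto f atTop (𝓝 0) := by
  rw [Metric.tendsto_nhds]
  intro ε hε
  filter_upwards [h (min (ε / 2) (1 / 8)) (lt_min (by linarith) (by norm_num)) (min_le_right _ _)]
    with k hk
  rw [Real.dist_eq, sub_zero]
  have := min_le_left (ε / 2) (1 / 8)
  linarith

theorem BU.convG_flat {Ωs : ℕ → Set ℂ} {ls : ℕ → ℝ} {us : ℕ → ℂ → ℝ} {a : ℝ} (h : BU Ωs ls us a)
    {z : ℕ → ℂ} {w : ℂ} (hz : ∀ k, z k ∈ Ωs k) (hw : Tendsto z atTop (𝓝 w))
    (he : ∀ k, ∀ q ∈ ball (z k) 1, ¬ Ext (Ωs k) q) :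
    Tendsto (fun k => grad (us k) (z k)) atTop (𝓝 (a * I)) := by
  classical
  have hw0 : w.im ≤ 0 :=
    le_of_tendsto' ((Complex.continuous_im.tendsto w).comp hw) fun k => (h.below k _ (hz k)).le
  rcases hw0.lt_or_eq with hw1 | hw1
  · exact h.convG z w hw1 hw
  obtain ⟨x0, rfl⟩ : ∃ x0 : ℝ, w = x0 := ⟨w.re, Complex.ext (by simp) (by simpa using hw1)⟩
  obtain ⟨K, hK⟩ := h.lip
  have hgood : ∀ δ : ℝ, 0 < δ → δ ≤ 1 / 8 → ∀ᶠ k in atTop, BUflat_good (Ωs k) x0 δ := by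
    intro δ h0 h1
    filter_upwards [h.fill (|x0| + 2) δ h0,
      Metric.tendsto_nhds.1 hw (1 / 8) (by norm_num)] with k hk1 hk2
    rw [dist_eq_norm] at hk2
    exact BUflat_geo (h.mn k).toDom (h.below k) h0 h1 hk1 hk2.le (he k)
  have hg8 := hgood (1 / 8) (by norm_num) le_rfl
  have hsl : Tendsto (fun k => BUflat_sl (Ωs k) x0) atTop (𝓝 0) :=
    BUflat_zero_of fun δ h0 h1 => (hgood δ h0 h1).mono fun k hk => hk.sl
  have hht : Tendsto (fun k => top (Ωs k) x0) atTop (𝓝 0) :=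
    BUflat_zero_of fun δ h0 h1 => (hgood δ h0 h1).mono fun k hk => hk.ht
  have hA : Tendsto (fun k => (⟨1, BUflat_sl (Ωs k) x0⟩ : ℂ)) atTop (𝓝 1) :=
    BUflat_mk_tendsto tendsto_const_nhds hsl
  have hP : Tendsto (fun k => (⟨x0, top (Ωs k) x0⟩ : ℂ)) atTop (𝓝 (x0 : ℂ)) :=
    BUflat_mk_tendsto tendsto_const_nhds hht
  have hS : ∀ y : ℂ, Tendsto (fun k => BUflat_s (Ωs k) x0 y) atTop (𝓝 ((x0 : ℂ) + y)) := by
    intro y
    have := hP.add (hA.mul_const y)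
    rw [one_mul] at this
    exact this
  have hU : ∀ y : ℂ, Tendsto (fun k => us k (BUflat_s (Ωs k) x0 y)) atTop
      (𝓝 (a * min y.im 0)) := by
    intro y
    have h1 := h.conv ((x0 : ℂ) + y)
    simp only [add_im, ofReal_im, zero_add] at h1
    refine h1.congr_dist ?_
    have h2 : Tendsto (fun k => (K : ℝ) * dist ((x0 : ℂ) + y) (BUflat_s (Ωs k) x0 y)) atTop
        (𝓝 ((K : ℝ) * dist ((x0 : ℂ) + y) ((x0 : ℂ) + y))) :=
      (tendsto_const_nhds.dist (hS y)).const_mul _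
    rw [dist_self, mul_zero] at h2
    exact squeeze_zero (fun k => dist_nonneg) (fun k => (hK k).dist_le_mul _ _) h2
  let F : ℕ → ℂ → ℝ := fun k =>
    if BUflat_good (Ωs k) x0 (1 / 8) then oddE fun y => us k (BUflat_s (Ωs k) x0 y)
    else fun _ => 0
  have hFe : ∀ k, BUflat_good (Ωs k) x0 (1 / 8) →
      F k = oddE fun y => us k (BUflat_s (Ωs k) x0 y) := fun k hk => if_pos hk
  have hFn : ∀ k, ¬ BUflat_good (Ωs k) x0 (1 / 8) → F k = fun _ => 0 := fun k hk => if_neg hk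
  have hF : ∀ k, LipschitzWith (K * 2) (F k) := by
    intro k
    by_cases hk : BUflat_good (Ωs k) x0 (1 / 8)
    · rw [hFe k hk]
      exact lipschitz_oddE (hk.lip (hK k)) fun x => hk.zero (h.mn k).lip (ofReal_im x)
    · rw [hFn k hk]
      exact (LipschitzWith.const (0 : ℝ)).weaken zero_le
  have hH : ∀ k, Helm (ls k * ‖(⟨1, BUflat_sl (Ωs k) x0⟩ : ℂ)‖ ^ 2) (ball 0 (1 / 4)) (F k) := by
    intro k
    by_cases hk : BUflat_good (Ωs k) x0 (1 / 8)
    · rw [hFe k hk]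
      exact hk.helm (h.mn k) (hK k)
    · rw [hFn k hk]
      exact helm_zero _ isOpen_ball
  have hμ : Tendsto (fun k => ls k * ‖(⟨1, BUflat_sl (Ωs k) x0⟩ : ℂ)‖ ^ 2) atTop (𝓝 0) := by
    have := h.lam0.mul (hA.norm.pow 2)
    rwa [zero_mul] at this
  have hW : ∀ y : ℂ, Tendsto (fun k => F k y) atTop (𝓝 (a * y.im)) := by
    intro y
    have h1 : Tendsto (fun k => oddE (fun y => us k (BUflat_s (Ωs k) x0 y)) y) atTop
        (𝓝 (a * y.im)) := by
      unfold oddE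
      by_cases hy : y.im ≤ 0
      · simp only [if_pos hy]
        have := hU y
        rwa [min_eq_left hy] at this
      · simp only [if_neg hy]
        have := (hU (conj y)).neg
        rw [conj_im, min_eq_left (by linarith [not_le.1 hy]), mul_neg, neg_neg] at this
        exact this
    refine h1.congr' ?_
    filter_upwards [hg8] with k hk
    rw [hFe k hk]
  have hlim := (helm_limit (U := ball 0 (1 / 4)) (V := fun _ => ball 0 (1 / 4)) isOpen_ball hF hH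
    (fun k => mul_nonneg (h.mn k).lam_pos.le (sq_nonneg _)) hμ ?_ hW).2
  swap
  · intro p hp
    obtain ⟨ρ, hρ, hsub⟩ := Metric.nhds_basis_closedBall.mem_iff.1 (isOpen_ball.mem_nhds hp)
    exact ⟨ρ, hρ, Eventually.of_forall fun _ => hsub⟩
  let y : ℕ → ℂ := fun k => (z k - ⟨x0, top (Ωs k) x0⟩) / ⟨1, BUflat_sl (Ωs k) x0⟩
  have hy : Tendsto y atTop (𝓝 0) := by
    have := (hw.sub hP).div hA one_ne_zero
    rw [sub_self, zero_div] at this
    exact this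
  have hsy : ∀ k, BUflat_s (Ωs k) x0 (y k) = z k := by
    intro k
    have := BUflat_a_ne (BUflat_sl (Ωs k) x0)
    simp only [BUflat_s, sim, y]
    field_simp
    ring
  have h1 := hlim y 0 (mem_ball_self (by norm_num)) hy
  rw [BUflat_grad_im] at h1
  have hC : Tendsto (fun k => conj (⟨1, BUflat_sl (Ωs k) x0⟩ : ℂ)) atTop (𝓝 1) := by
    have := (Complex.continuous_conj.tendsto 1).comp hA
    rw [map_one] at this
    exact this
  have h2 := h1.div hC one_ne_zero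
  rw [div_one] at h2
  refine h2.congr' ?_
  filter_upwards [hg8] with k hk
  have hne := BUflat_a_ne (BUflat_sl (Ωs k) x0)
  have hi : (y k).im < 0 := hk.im_neg (by rw [hsy]; exact hz k)
  have hev : F k =ᶠ[𝓝 (y k)] fun x => us k (BUflat_s (Ωs k) x0 x) := by
    filter_upwards [(isOpen_lt Complex.continuous_im continuous_const).mem_nhds hi] with x hx
    rw [hFe k hk]
    exact if_pos (le_of_lt hx)
  have hg := grad_sim (us k) ⟨x0, top (Ωs k) x0⟩ hne (y k)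
  have hs : sim ⟨x0, top (Ωs k) x0⟩ ⟨1, BUflat_sl (Ωs k) x0⟩ (y k) = z k := hsy k
  rw [hs] at hg
  have hcne : conj (⟨1, BUflat_sl (Ωs k) x0⟩ : ℂ) ≠ 0 := (map_ne_zero _).2 hne
  change grad (F k) (y k) / conj (⟨1, BUflat_sl (Ωs k) x0⟩ : ℂ) = _
  rw [grad_congr hev]
  unfold BUflat_s
  rw [hg, mul_div_cancel_left₀ _ hcne]

end Pool.Agent.L2K
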