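import Pool.Agent.P.MP_2f6447_an.K.Defs

/-! One-dimensional constructions. -/

open Set MeasureTheory Filter Topology Complex Metric
open scoped ContDiff ComplexConjugate

namespace Pool.Agent.L2K

variable {Ω U : Set ℂ} {lam : ℝ} {u w f g : ℂ → ℝ}

theorem Kink_support {S : Set ℝ} (hS : IsOpen S) {c : ℝ → ℝ} (hc : ConcaveOn ℝ S c) {p : ℝ}
    (hp : p ∈ S) : ∃ s : ℝ, ∀ x ∈ S, c x ≤ c p + s * (x - p) := by
  obtain ⟨δ, hδ, hb⟩ := Metric.isOpen_iff.1 hS p hp
  have hl : p - δ / 2 ∈ S := hb (by rw [mem_ball, Real.dist_eq, abs_lt]; constructor <;> linarith)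
  have hr : p + δ / 2 ∈ S := hb (by rw [mem_ball, Real.dist_eq, abs_lt]; constructor <;> linarith)
  set A : Set ℝ := {s | ∃ y ∈ S, p < y ∧ s = (c y - c p) / (y - p)} with hA
  have key : ∀ x ∈ S, x < p → ∀ s ∈ A, s ≤ (c p - c x) / (p - x) := by
    rintro x hx hxp s ⟨y, hy, hpy, rfl⟩
    exact hc.slope_anti_adjacent hx hy hxp hpy
  have hbdd : BddAbove A := ⟨_, fun s hs => key _ hl (by linarith) s hs⟩
  have hne : A.Nonempty := ⟨_, _, hr, by linarith, rfl⟩
  refine ⟨sSup A, fun x hx => ?_⟩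
  rcases lt_trichotomy x p with h | h | h
  · have h1 : sSup A ≤ (c p - c x) / (p - x) := csSup_le hne (key x hx h)
    rw [le_div_iff₀ (by linarith)] at h1
    linarith
  · subst h; simp
  · have h1 : (c x - c p) / (x - p) ≤ sSup A := le_csSup hbdd ⟨x, hx, h, rfl⟩
    rw [div_le_iff₀ (by linarith)] at h1
    linarith

theorem Kink_left {S : Set ℝ} {h : ℝ → ℝ} (hc : ConcaveOn ℝ S h) {a : ℝ} (ha : a ∈ S)
    (hle : ∀ x ∈ S, h x ≤ h a) {x y : ℝ} (hx : x ∈ S) (hxy : x ≤ y) (hya : y ≤ a) : h x ≤ h y := by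
  have := hc.min_le_of_mem_Icc hx ha ⟨hxy, hya⟩
  rwa [min_eq_left (hle x hx)] at this

theorem Kink_right {S : Set ℝ} {h : ℝ → ℝ} (hc : ConcaveOn ℝ S h) {a : ℝ} (ha : a ∈ S)
    (hle : ∀ x ∈ S, h x ≤ h a) {x y : ℝ} (hy : y ∈ S) (hxy : x ≤ y) (hax : a ≤ x) : h y ≤ h x := by
  have := hc.min_le_of_mem_Icc ha hy ⟨hax, hxy⟩
  rwa [min_eq_right (hle y hy)] at this

theorem Kink_min {S : Set ℝ} {h : ℝ → ℝ} (hc : ConcaveOn ℝ S h) {a : ℝ} (ha : a ∈ S)
    (hle : ∀ x ∈ S, h x ≤ h a) : ConcaveOn ℝ S fun x => h (min x a) := by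
  refine ⟨hc.1, fun x hx y hy p q hp hq hpq => ?_⟩
  have hm : ∀ t ∈ S, min t a ∈ S := fun t ht => by
    rcases le_total t a with h1 | h1
    · rwa [min_eq_left h1]
    · rwa [min_eq_right h1]
  have h1 := hc.2 (hm x hx) (hm y hy) hp hq hpq
  refine h1.trans (Kink_left hc ha hle (hc.1 (hm x hx) (hm y hy) hp hq hpq) ?_ (min_le_right _ _))
  simp only [smul_eq_mul]
  have e1 := mul_le_mul_of_nonneg_left (min_le_left x a) hp
  have e2 := mul_le_mul_of_nonneg_left (min_le_left y a) hq
  have e3 := mul_le_mul_of_nonneg_left (min_le_right x a) hp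
  have e4 := mul_le_mul_of_nonneg_left (min_le_right y a) hq
  have e5 : p * a + q * a = a := by rw [← add_mul, hpq, one_mul]
  exact le_min (by linarith) (by linarith)

theorem Kink_max {S : Set ℝ} {h : ℝ → ℝ} (hc : ConcaveOn ℝ S h) {a : ℝ} (ha : a ∈ S)
    (hle : ∀ x ∈ S, h x ≤ h a) : ConcaveOn ℝ S fun x => h (max x a) := by
  refine ⟨hc.1, fun x hx y hy p q hp hq hpq => ?_⟩
  have hm : ∀ t ∈ S, max t a ∈ S := fun t ht => by
    rcases le_total t a with h1 | h1
    · rwa [max_eq_right h1]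
    · rwa [max_eq_left h1]
  have h1 := hc.2 (hm x hx) (hm y hy) hp hq hpq
  refine h1.trans (Kink_right hc ha hle (hc.1 (hm x hx) (hm y hy) hp hq hpq) ?_ (le_max_right _ _))
  simp only [smul_eq_mul]
  have e1 := mul_le_mul_of_nonneg_left (le_max_left x a) hp
  have e2 := mul_le_mul_of_nonneg_left (le_max_left y a) hq
  have e3 := mul_le_mul_of_nonneg_left (le_max_right x a) hp
  have e4 := mul_le_mul_of_nonneg_left (le_max_right y a) hq
  have e5 : p * a + q * a = a := by rw [← add_mul, hpq, one_mul]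
  exact max_le (by linarith) (by linarith)

theorem Kink_aff {S : Set ℝ} (hS : Convex ℝ S) (α β : ℝ) : ConcaveOn ℝ S fun x => α + β * x := by
  refine ⟨hS, fun x _ y _ p q _ _ hpq => le_of_eq ?_⟩
  simp only [smul_eq_mul]
  have : q = 1 - p := by linarith
  subst this
  ring

theorem Kink_chord {S : Set ℝ} {c : ℝ → ℝ} (hc : ConcaveOn ℝ S c) {a b : ℝ}
    (hs : Icc a b ⊆ S) (hab : a < b) {α s : ℝ} (hle : ∀ x ∈ S, c x ≤ α + s * x)
    (ha : α + s * a ≤ c a) (hb : α + s * b ≤ c b) : AffOn c a b := by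
  refine ⟨α, s, fun x hx => le_antisymm (hle x (hs hx)) ?_⟩
  have h1 : ConcaveOn ℝ S fun x => c x + (-α + -s * x) := hc.add (Kink_aff hc.1 _ _)
  have h2 := h1.min_le_of_mem_Icc (hs (left_mem_Icc.2 hab.le)) (hs (right_mem_Icc.2 hab.le)) hx
  have h3 : (0 : ℝ) ≤ min (c a + (-α + -s * a)) (c b + (-α + -s * b)) :=
    le_min (by linarith) (by linarith)
  linarith

theorem exists_kink {S : Set ℝ} (hS : IsOpen S) {c : ℝ → ℝ} (hc : ConcaveOn ℝ S c) {a b : ℝ}
    (hab : a < b) (hs : Icc a b ⊆ S) (hn : ¬ AffOn c a b) : ∃ (κ : ℝ → ℝ) (β : ℝ), β ∈ Icc a b ∧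
      LipschitzWith 1 κ ∧ (∀ x, x ∉ Ioo a b → κ x = |x - β|) ∧
      (∀ x, |x - β| ≤ κ x ∧ κ x ≤ |x - β| + (b - a)) ∧
      ∀ᶠ ε in 𝓝[>] (0 : ℝ), ConcaveOn ℝ S fun x => c x + ε * κ x := by
  have ha : a ∈ S := hs (left_mem_Icc.2 hab.le)
  have hb : b ∈ S := hs (right_mem_Icc.2 hab.le)
  obtain ⟨s, hsa⟩ := Kink_support hS hc ha
  obtain ⟨t, hsb⟩ := Kink_support hS hc hb
  have h1 : c b < c a + s * (b - a) := by
    by_contra h
    exact hn (Kink_chord hc hs hab (α := c a - s * a) (s := s)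
      (fun x hx => by have := hsa x hx; linarith) (by linarith) (by linarith))
  have h2 : c a < c b + t * (a - b) := by
    by_contra h
    exact hn (Kink_chord hc hs hab (α := c b - t * b) (s := t)
      (fun x hx => by have := hsb x hx; linarith) (by linarith) (by linarith))
  have hd : 0 < s - t := by
    by_contra h
    have : (s - t) * (b - a) ≤ 0 := mul_nonpos_of_nonpos_of_nonneg (by linarith) (by linarith)
    nlinarith
  obtain ⟨d, hdd⟩ : ∃ d, d = s - t := ⟨_, rfl⟩
  rw [← hdd] at hd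
  obtain ⟨β, hβ⟩ : ∃ β, d * (β - a) = c b + t * (a - b) - c a :=
    ⟨a + (c b + t * (a - b) - c a) / d, by field_simp; ring⟩
  have hβ' : d * (b - β) = c a + s * (b - a) - c b := by
    have : d * (b - β) = d * (b - a) - d * (β - a) := by ring
    rw [this, hβ, hdd]; ring
  have haβ : a < β := by
    have : 0 < d * (β - a) := by linarith
    have := (mul_pos_iff_of_pos_left hd).1 this
    linarith
  have hβb : β < b := by
    have : 0 < d * (b - β) := by linarith
    have := (mul_pos_iff_of_pos_left hd).1 this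
    linarith
  -- the two gaps
  set ga : ℝ → ℝ := fun x => c x + (-(c a) + s * a + -s * x) with hga
  set gb : ℝ → ℝ := fun x => c x + (-(c b) + t * b + -t * x) with hgb
  have cga : ConcaveOn ℝ S ga := hc.add (Kink_aff hc.1 _ _)
  have cgb : ConcaveOn ℝ S gb := hc.add (Kink_aff hc.1 _ _)
  have ga0 : ga a = 0 := by simp only [hga]; ring
  have gb0 : gb b = 0 := by simp only [hgb]; ring
  have lga : ∀ x ∈ S, ga x ≤ ga a := fun x hx => by
    rw [ga0]; have := hsa x hx; simp only [hga]; linarith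
  have lgb : ∀ x ∈ S, gb x ≤ gb b := fun x hx => by
    rw [gb0]; have := hsb x hx; simp only [hgb]; linarith
  have diff : ∀ x, gb x - ga x = d * (x - β) := fun x => by
    have : d * (x - β) = d * (x - a) - d * (β - a) := by ring
    rw [this, hβ, hdd]; simp only [hga, hgb]; ring
  set k : ℝ → ℝ := fun x => -(ga x + gb x) / d with hk
  have dk : ∀ x, d * k x = -(ga x + gb x) := fun x => by simp only [hk]; field_simp
  have ka : k a = β - a := by
    have h3 := dk a
    have h4 := diff a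
    exact mul_left_cancel₀ hd.ne' (by rw [h3]; linarith)
  have kb : k b = b - β := by
    have h3 := dk b
    have h4 := diff b
    exact mul_left_cancel₀ hd.ne' (by rw [h3]; linarith)
  have klip : ∀ x y, a ≤ x → x ≤ y → y ≤ b → |k y - k x| ≤ y - x := fun x y hx hxy hy => by
    have m1 : ga y ≤ ga x := Kink_right cga ha lga (hs ⟨hx.trans hxy, hy⟩) hxy hx
    have m2 : gb x ≤ gb y := Kink_left cgb hb lgb (hs ⟨hx, hxy.trans hy⟩) hxy hy
    have e1 := dk x
    have e2 := dk y
    have e3 := diff x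
    have e4 := diff y
    rw [abs_le]
    constructor
    · refine le_of_mul_le_mul_left ?_ hd
      nlinarith
    · refine le_of_mul_le_mul_left ?_ hd
      nlinarith
  set κ : ℝ → ℝ := fun x => k (max a (min x b)) + (a - min x a) + (max x b - b) with hκ
  have κl : ∀ x, x ≤ a → κ x = β - x := fun x hx => by
    simp only [hκ]
    rw [min_eq_left (hx.trans hab.le), max_eq_left hx, min_eq_left hx,
      max_eq_right (hx.trans hab.le), ka]
    ring
  have κr : ∀ x, b ≤ x → κ x = x - β := fun x hx => by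
    simp only [hκ]
    rw [min_eq_right hx, max_eq_right hab.le, min_eq_right (hab.le.trans hx), max_eq_left hx, kb]
    ring
  have κm : ∀ x, a ≤ x → x ≤ b → κ x = k x := fun x hx hy => by
    simp only [hκ]
    rw [min_eq_left hy, max_eq_right hx, min_eq_right hx, max_eq_right hy]
    ring
  have κout : ∀ x, x ∉ Ioo a b → κ x = |x - β| := fun x hx => by
    rcases le_or_gt x a with h | h
    · rw [κl x h, abs_of_nonpos (by linarith)]; ring
    · have h' : b ≤ x := by
        by_contra h'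
        exact hx ⟨h, not_le.1 h'⟩
      rw [κr x h', abs_of_nonneg (by linarith)]
  have sum3 : ∀ x, max a (min x b) + min x a + max x b = x + a + b := fun x => by
    rcases le_total x a with h | h
    · rw [min_eq_left (h.trans hab.le), max_eq_left h, min_eq_left h,
        max_eq_right (h.trans hab.le)]
      ring
    · rcases le_total x b with h' | h'
      · rw [min_eq_left h', max_eq_right h, min_eq_right h, max_eq_right h']
      · rw [min_eq_right h', max_eq_right hab.le, min_eq_right h, max_eq_left h']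
        ring
  have κlip : ∀ x y, x ≤ y → |κ y - κ x| ≤ y - x := fun x y hxy => by
    have e1 := klip (max a (min x b)) (max a (min y b)) (le_max_left _ _)
      (max_le_max le_rfl (min_le_min hxy le_rfl)) (max_le hab.le (min_le_right _ _))
    have e2 : min x a ≤ min y a := min_le_min hxy le_rfl
    have e3 : max x b ≤ max y b := max_le_max hxy le_rfl
    have e4 := sum3 x
    have e5 := sum3 y
    rw [abs_le] at e1 ⊢
    simp only [hκ]
    constructor <;> linarith [e1.1, e1.2]
  refine ⟨κ, β, ⟨haβ.le, hβb.le⟩, ?_, κout, fun x => ?_, ?_⟩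
  · refine LipschitzWith.of_dist_le_mul fun x y => ?_
    rw [NNReal.coe_one, one_mul, Real.dist_eq, Real.dist_eq]
    rcases le_total x y with h | h
    · rw [abs_sub_comm, abs_sub_comm x y, abs_of_nonneg (sub_nonneg.2 h)]
      exact κlip x y h
    · rw [abs_of_nonneg (sub_nonneg.2 h)]
      exact κlip y x h
  · by_cases hx : x ∈ Ioo a b
    · have hxS : x ∈ S := hs ⟨hx.1.le, hx.2.le⟩
      have e1 := lga x hxS
      have e2 := lgb x hxS
      have e3 := dk x
      have e4 := diff x
      have e5 := abs_le.1 (klip a x le_rfl hx.1.le hx.2.le)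
      have e6 := abs_le.1 (klip x b hx.1.le hx.2.le le_rfl)
      rw [κm x hx.1.le hx.2.le]
      rw [ga0] at e1
      rw [gb0] at e2
      constructor
      · rw [abs_le]
        constructor
        · refine le_of_mul_le_mul_left ?_ hd
          nlinarith
        · refine le_of_mul_le_mul_left ?_ hd
          nlinarith
      · have := abs_nonneg (x - β)
        linarith [e5.2, e6.1]
    · rw [κout x hx]
      constructor <;> linarith
  · have hev : ∀ᶠ ε in 𝓝[>] (0 : ℝ), ε ∈ Ioo 0 (d / 2) := Ioo_mem_nhdsGT (by linarith)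
    filter_upwards [hev] with ε hε
    obtain ⟨e, he⟩ : ∃ e, ε = e * d := ⟨ε / d, by field_simp⟩
    have he0 : 0 ≤ e := by
      have : 0 < e * d := he ▸ hε.1
      exact ((mul_pos_iff_of_pos_right hd).1 this).le
    have he1 : 0 ≤ 1 - 2 * e := by
      have h3 : e * d < d / 2 := he ▸ hε.2
      by_contra h4
      nlinarith
    have c1 := hc.smul he1
    have c2 := ((Kink_min cga ha lga).add (Kink_max cgb hb lgb)).smul
      (mul_nonneg zero_le_two he0)
    have c3 := Kink_aff hc.1 (e * (c a - s * a + (c b - t * b))) (e * (s + t))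
    refine ((c1.add c2).add c3).congr fun x _ => ?_
    have e3 := dk x
    have e4 := diff x
    have e5 : e * (c a - s * a + (c b - t * b)) + e * (s + t) * x =
        e * (2 * c x - (ga x + gb x)) := by simp only [hga, hgb]; ring
    simp only [Pi.add_apply, smul_eq_mul]
    rw [e5, he]
    rcases le_total x a with h | h
    · rw [κl x h, min_eq_left h, max_eq_right (h.trans hab.le), gb0]
      linear_combination (-e) * e4
    · rcases le_total x b with h' | h'
      · rw [κm x h h', min_eq_right h, max_eq_right h', ga0, gb0]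
        linear_combination (-e) * e3
      · rw [κr x h', min_eq_right h, max_eq_left h', ga0]
        linear_combination e * e4

theorem Kink_tend {t : ℝ} (ht : 0 < t) :
    Tendsto (fun ε : ℝ => ε * t) (𝓝[>] (0 : ℝ)) (𝓝[>] (0 : ℝ)) := by
  refine tendsto_nhdsWithin_iff.2 ⟨?_, ?_⟩
  · have : Tendsto (fun ε : ℝ => ε * t) (𝓝 0) (𝓝 (0 * t)) := tendsto_id.mul_const t
    rw [zero_mul] at this
    exact this.mono_left nhdsWithin_le_nhds
  · filter_upwards [self_mem_nhdsWithin] with ε hε using mul_pos hε ht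

theorem Adm.add {v w : ℝ → ℝ} (hv : Adm Ω v) (hw : Adm Ω w) : Adm Ω fun x => v x + w x := by
  have h2 := Kink_tend (t := 2) two_pos
  filter_upwards [h2.eventually hv, h2.eventually hw] with ε h3 h4
  refine ((h3.add h4).smul (c := (1 / 2 : ℝ)) (by norm_num)).congr fun x _ => ?_
  simp only [Pi.add_apply, smul_eq_mul]
  ring

theorem Adm.const_mul {v : ℝ → ℝ} (hv : Adm Ω v) {t : ℝ} (ht : 0 < t) :
    Adm Ω fun x => t * v x := by
  filter_upwards [(Kink_tend ht).eventually hv] with ε h3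
  refine h3.congr fun x _ => ?_
  ring

theorem adm_of_concave (hc : ConcaveOn ℝ (proj Ω) (top Ω)) {v : ℝ → ℝ}
    (hv : ConcaveOn ℝ univ v) : Adm Ω v := by
  filter_upwards [self_mem_nhdsWithin] with ε hε
  exact hc.add ((hv.subset (subset_univ _) hc.1).smul (le_of_lt hε))

theorem exists_signed {a b : ℝ} (hS : IsOpen (proj Ω)) (hc : ConcaveOn ℝ (proj Ω) (top Ω))
    (hab : a < b) (hs : Icc a b ⊆ proj Ω) (hn : ¬ AffOn (top Ω) a b) : ∃ β ∈ Icc a b, ∀ t : ℝ,
      ∃ v : ℝ → ℝ, LipschitzWith ‖t‖₊ v ∧ Adm Ω v ∧ ∀ x, x ∉ Ioo a b → v x = t * |x - β| := by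
  obtain ⟨κ, β, hβ, hlip, hout, -, hadm⟩ := exists_kink hS hc hab hs hn
  have hl : ∀ (t : ℝ) (v : ℝ → ℝ), LipschitzWith 1 v → LipschitzWith ‖t‖₊ fun x => t * v x := by
    intro t v hv
    refine LipschitzWith.of_dist_le_mul fun x y => ?_
    have h1 := hv.dist_le_mul x y
    rw [NNReal.coe_one, one_mul, Real.dist_eq] at h1
    rw [Real.dist_eq, ← mul_sub, abs_mul, coe_nnnorm, Real.norm_eq_abs]
    exact mul_le_mul_of_nonneg_left h1 (abs_nonneg t)
  refine ⟨β, hβ, fun t => ?_⟩
  rcases lt_or_ge 0 t with ht | ht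
  · exact ⟨fun x => t * κ x, hl t κ hlip, Adm.const_mul hadm ht,
      fun x hx => congrArg (t * ·) (hout x hx)⟩
  · refine ⟨fun x => t * |x - β|, hl t _ ?_, adm_of_concave hc ?_, fun x _ => rfl⟩
    · refine LipschitzWith.of_dist_le_mul fun x y => ?_
      rw [NNReal.coe_one, one_mul, Real.dist_eq, Real.dist_eq]
      have := abs_abs_sub_abs_le_abs_sub (x - β) (y - β)
      rwa [sub_sub_sub_cancel_right] at this
    · refine ⟨convex_univ, fun x _ y _ p q hp hq hpq => ?_⟩
      simp only [smul_eq_mul]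
      have h1 : |p * x + q * y - β| ≤ p * |x - β| + q * |y - β| := by
        have h2 : p * x + q * y - β = p * (x - β) + q * (y - β) := by
          linear_combination β * hpq
        rw [h2]
        refine (abs_add_le _ _).trans ?_
        rw [abs_mul, abs_mul, abs_of_nonneg hp, abs_of_nonneg hq]
      nlinarith [mul_le_mul_of_nonpos_left h1 ht]

end Pool.Agent.L2K
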