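import Pool.Agent.P.MP_2f6447_an.K.Shear
import Pool.Agent.P.MP_2f6447_an.K.Kink
import Pool.Agent.P.MP_2f6447_an.K.Limit

/-! Variations of a blow-up sequence. -/

open Set MeasureTheory Filter Topology Complex Metric
open scoped ContDiff ComplexConjugate

namespace Pool.Agent.L2K

variable {Ω U : Set ℂ} {lam : ℝ} {u w f g : ℂ → ℝ}

variable {Ωs : ℕ → Set ℂ} {ls : ℕ → ℝ} {us : ℕ → ℂ → ℝ} {a : ℝ}

theorem BUvar_integrable {v : ℝ → ℝ} {K : NNReal} (hv : LipschitzWith K v)
    (h0 : ∀ x, x ∉ Icc (-4 : ℝ) 4 → v x = 0) : Integrable v :=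
  hv.continuous.integrable_of_hasCompactSupport (HasCompactSupport.intro isCompact_Icc h0)

theorem BUvar_bound {v : ℝ → ℝ} {K : NNReal} (hv : LipschitzWith K v)
    (h0 : ∀ x, x ∉ Icc (-4 : ℝ) 4 → v x = 0) (x : ℝ) : |v x| ≤ 9 * K := by
  by_cases hx : x ∈ Icc (-4 : ℝ) 4
  · have h5 : v 5 = 0 := h0 5 (by norm_num)
    have h1 := hv.dist_le_mul x 5
    rw [h5, Real.dist_eq, Real.dist_eq, sub_zero] at h1
    have h2 : |x - 5| ≤ 9 := abs_le.2 ⟨by linarith [hx.1], by linarith [hx.2]⟩
    have h3 : (0 : ℝ) ≤ K := K.2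
    nlinarith
  · rw [h0 x hx, abs_zero]; positivity

theorem BUvar_deriv_zero {v : ℝ → ℝ} (h0 : ∀ x, x ∉ Icc (-4 : ℝ) 4 → v x = 0) {x : ℝ}
    (hx : x ∉ Icc (-4 : ℝ) 4) : deriv v x = 0 := by
  have h1 : v =ᶠ[𝓝 x] fun _ => (0 : ℝ) := by
    filter_upwards [isClosed_Icc.isOpen_compl.mem_nhds hx] with y hy using h0 y hy
  rw [h1.deriv_eq, deriv_const]

theorem BUvar_ramp_abs (s t y : ℝ) : |ramp s t y| ≤ 1 := by
  unfold ramp
  rw [abs_of_nonneg (le_max_left _ _)]
  exact max_le zero_le_one (min_le_left _ _)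

theorem BUvar_ramp_zero {y : ℝ} (hy : y ≤ -2) : ramp (-2) (-1) y = 0 := by
  unfold ramp
  apply max_eq_left
  refine (min_le_right _ _).trans ?_
  apply div_nonpos_of_nonpos_of_nonneg <;> linarith

/-- the weight of the second term -/
noncomputable def BUvar_d (v : ℝ → ℝ) (z : ℂ) : ℝ :=
  (Ioo (-2 : ℝ) (-1)).indicator (fun _ => ((-1 : ℝ) - (-2))⁻¹) z.im * v z.re / 2

theorem BUvar_d_eq (v : ℝ → ℝ) (z : ℂ) :
    BUvar_d v z = (v z.re / 2) * (Ioo (-2 : ℝ) (-1)).indicator (fun _ => (1 : ℝ)) z.im := by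
  unfold BUvar_d
  have h1 : ((-1 : ℝ) - (-2))⁻¹ = 1 := by norm_num
  rw [h1]; ring

theorem BUvar_d_abs {v : ℝ → ℝ} {K : NNReal} (hv : LipschitzWith K v)
    (h0 : ∀ x, x ∉ Icc (-4 : ℝ) 4 → v x = 0) (z : ℂ) : |BUvar_d v z| ≤ 9 * K := by
  rw [BUvar_d_eq]
  have h1 := BUvar_bound hv h0 z.re
  have h3 : (0 : ℝ) ≤ K := K.2
  by_cases hz : z.im ∈ Ioo (-2 : ℝ) (-1)
  · rw [indicator_of_mem hz, mul_one, abs_div, abs_two]; linarith [abs_nonneg (v z.re)]
  · rw [indicator_of_notMem hz, mul_zero, abs_zero]; positivity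

theorem BUvar_d_zero {v : ℝ → ℝ} (h0 : ∀ x, x ∉ Icc (-4 : ℝ) 4 → v x = 0) {z : ℂ}
    (hz : ¬ (z.re ∈ Icc (-4 : ℝ) 4 ∧ z.im ∈ Ioo (-2 : ℝ) (-1))) : BUvar_d v z = 0 := by
  rw [BUvar_d_eq]
  by_cases h1 : z.im ∈ Ioo (-2 : ℝ) (-1)
  · rw [h0 z.re fun h2 => hz ⟨h2, h1⟩]; simp
  · rw [indicator_of_notMem h1, mul_zero]

theorem BUvar_d_int {v : ℝ → ℝ} {K : NNReal} (hv : LipschitzWith K v)
    (h0 : ∀ x, x ∉ Icc (-4 : ℝ) 4 → v x = 0) :
    Integrable (BUvar_d v) ∧ ∫ z, BUvar_d v z = (∫ x, v x) / 2 := by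
  have hi : Integrable ((Ioo (-2 : ℝ) (-1)).indicator fun _ => (1 : ℝ)) :=
    (integrable_indicator_iff measurableSet_Ioo).2 (integrableOn_const (by simp))
  have hv2 : Integrable fun x => v x / 2 := (BUvar_integrable hv h0).div_const 2
  have e : BUvar_d v = (fun p : ℝ × ℝ => (v p.1 / 2) *
      (Ioo (-2 : ℝ) (-1)).indicator (fun _ => (1 : ℝ)) p.2) ∘ measurableEquivRealProd := by
    funext z
    rw [BUvar_d_eq]; rfl
  have hp := volume_preserving_equiv_real_prod
  constructor
  · rw [e]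
    exact (hp.integrable_comp_emb measurableEquivRealProd.measurableEmbedding).2 (hv2.mul_prod hi)
  · rw [e]
    have h1 := hp.integral_comp' fun p : ℝ × ℝ => (v p.1 / 2) *
      (Ioo (-2 : ℝ) (-1)).indicator (fun _ => (1 : ℝ)) p.2
    refine h1.trans ?_
    rw [Measure.volume_eq_prod, integral_prod_mul (fun x => v x / 2)
      ((Ioo (-2 : ℝ) (-1)).indicator fun _ => (1 : ℝ)), integral_div,
      integral_indicator measurableSet_Ioo]
    simp only [integral_const, MeasurableSet.univ, measureReal_restrict_apply, univ_inter,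
      Real.volume_real_Ioo, smul_eq_mul]
    norm_num

theorem BUvar_norm_le {x y : ℝ} (hx : |x| ≤ 4) (hy : |y| ≤ 2) : ‖(⟨x, y⟩ : ℂ)‖ ≤ 5 := by
  have h1 : ‖(⟨x, y⟩ : ℂ)‖ ^ 2 = x ^ 2 + y ^ 2 := by
    rw [Complex.sq_norm, Complex.normSq_mk]; ring
  have h2 : x ^ 2 ≤ 16 := by nlinarith [abs_nonneg x, sq_abs x]
  have h3 : y ^ 2 ≤ 4 := by nlinarith [abs_nonneg y, sq_abs y]
  nlinarith [norm_nonneg (⟨x, y⟩ : ℂ)]

theorem BU.var (h : BU Ωs ls us a) {v : ℕ → ℝ → ℝ} {K : NNReal} (hv : ∀ k, LipschitzWith K (v k))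
    (h0 : ∀ k x, x ∉ Icc (-4 : ℝ) 4 → v k x = 0) (ha : ∀ᶠ k in atTop, Adm (Ωs k) (v k)) {η : ℝ}
    (hη : 0 < η) : ∀ᶠ k in atTop, (a ^ 2 - 1) * ∫ x, v k x ≤ η := by
  obtain ⟨L, hL⟩ := h.lip
  have hK0 : (0 : ℝ) ≤ K := K.2
  have hL0 : (0 : ℝ) ≤ L := L.2
  have hab : (-2 : ℝ) < -1 := by norm_num
  set S : ℕ → ℂ → ℝ := fun k => st (ls k) (us k) (shear (v k) (-2) (-1)) with hS
  set F : ℕ → ℂ → ℝ := fun k z => (Ωs k).indicator (S k) z - BUvar_d (v k) z * (a ^ 2 - 1) with hF
  set c : ℕ → ℂ → ℝ := fun k z => deriv (v k) z.re * ramp (-2) (-1) z.im with hc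
  set p : ℕ → ℂ → ℝ := fun k z => (grad (us k) z).re * (grad (us k) z).im with hp
  set r : ℕ → ℂ → ℝ := fun k z =>
    (grad (us k) z).im ^ 2 - (grad (us k) z).re ^ 2 + ls k * us k z ^ 2 - a ^ 2 with hr
  have hmeas : ∀ k, MeasurableSet (Ωs k) := fun k => (h.mn k).isOpen.measurableSet
  have hSi : ∀ k, Integrable ((Ωs k).indicator (S k)) := fun k => by
    obtain ⟨K', hK'⟩ := lipschitz_shear (hv k) hab (h0 k)
    exact (integrable_indicator_iff (hmeas k)).2 ((h.mn k).integrableOn_st hK')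
  have hdi := fun k => BUvar_d_int (hv k) (h0 k)
  have hFi : ∀ k, Integrable (F k) := fun k => (hSi k).sub ((hdi k).1.mul_const _)
  have hform : ∀ᵐ z : ℂ, ∀ k, z ∈ Ωs k → F k z = c k z * p k z + BUvar_d (v k) z * r k z := by
    rw [ae_all_iff]
    intro k
    filter_upwards [st_shear (lam := ls k) (u := us k) (hv k) hab] with z hz hzΩ
    simp only [hF, hS, hc, hp, hr, indicator_of_mem hzΩ, hz, BUvar_d]
    ring
  have hcb : ∀ k z, |c k z| ≤ K := fun k z => by
    simp only [hc, abs_mul]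
    have h1 : |deriv (v k) z.re| ≤ K := by
      simpa using norm_deriv_le_of_lipschitz (𝕜 := ℝ) (x₀ := z.re) (hv k)
    have h2 := BUvar_ramp_abs (-2) (-1) z.im
    nlinarith [abs_nonneg (deriv (v k) z.re), abs_nonneg (ramp (-2) (-1) z.im)]
  have hfill : ∀ᶠ k in atTop, ∀ x ∈ Icc (-4 : ℝ) 4, ∀ y ∈ Icc (-2 : ℝ) (-1), (⟨x, y⟩ : ℂ) ∈ Ωs k := by
    filter_upwards [h.fill 5 1 one_pos] with k hk x hx y hy
    exact hk _ (BUvar_norm_le (abs_le.2 hx) (abs_le.2 ⟨hy.1, by linarith [hy.2]⟩)) hy.2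
  have hls : ∀ᶠ k in atTop, |ls k| ≤ 1 := by
    have h1 := h.lam0.abs
    rw [abs_zero] at h1
    exact h1.eventually_le_const one_pos
  set C : ℝ := K * L ^ 2 + 9 * K * (27 * L ^ 2 + a ^ 2) with hC
  have hC0 : 0 ≤ C := by positivity
  have hlim : Tendsto (fun k => ∫ z, F k z) atTop (𝓝 (∫ _z : ℂ, (0 : ℝ))) := by
    refine tendsto_integral_filter_of_dominated_convergence
      ((closedBall (0 : ℂ) 5).indicator fun _ => C)
      (Eventually.of_forall fun k => (hFi k).aestronglyMeasurable) ?_ ?_ ?_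
    · filter_upwards [hfill, hls] with k hk hlk
      filter_upwards [hform] with z hz
      have hnn : 0 ≤ (closedBall (0 : ℂ) 5).indicator (fun _ => C) z :=
        indicator_nonneg (fun _ _ => hC0) z
      by_cases hzΩ : z ∈ Ωs k
      · rw [hz k hzΩ]
        by_cases hb : z ∈ closedBall (0 : ℂ) 5
        · rw [indicator_of_mem hb, Real.norm_eq_abs]
          have hg := norm_grad_le (hL k) z
          have hre : |(grad (us k) z).re| ≤ L := (abs_re_le_norm _).trans hg
          have him : |(grad (us k) z).im| ≤ L := (abs_im_le_norm _).trans hg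
          have hu0 : us k 0 = 0 :=
            (h.mn k).lip.zero 0 ((h.mn k).toDom.notMem_of_frontier (h.zero k))
          have hu : |us k z| ≤ 5 * L := by
            have h1 := (hL k).dist_le_mul z 0
            rw [hu0, Real.dist_eq, sub_zero] at h1
            have h2 : dist z 0 ≤ 5 := hb
            nlinarith
          have hp1 : |p k z| ≤ L ^ 2 := by
            simp only [hp, abs_mul]
            nlinarith [abs_nonneg (grad (us k) z).re, abs_nonneg (grad (us k) z).im]
          have hr1 : |r k z| ≤ 27 * L ^ 2 + a ^ 2 := by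
            have e1 : (grad (us k) z).re ^ 2 ≤ L ^ 2 := by
              nlinarith [abs_nonneg (grad (us k) z).re, sq_abs (grad (us k) z).re]
            have e2 : (grad (us k) z).im ^ 2 ≤ L ^ 2 := by
              nlinarith [abs_nonneg (grad (us k) z).im, sq_abs (grad (us k) z).im]
            have e3 : us k z ^ 2 ≤ 25 * L ^ 2 := by
              nlinarith [abs_nonneg (us k z), sq_abs (us k z)]
            have e4 := abs_le.1 hlk
            have e5 : |ls k * us k z ^ 2| ≤ 25 * L ^ 2 := by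
              rw [abs_mul, abs_of_nonneg (sq_nonneg (us k z))]
              nlinarith [abs_nonneg (ls k), sq_nonneg (us k z)]
            have e6 := abs_le.1 e5
            simp only [hr]
            refine abs_le.2 ⟨?_, ?_⟩ <;>
              nlinarith [sq_nonneg (grad (us k) z).re, sq_nonneg (grad (us k) z).im, sq_nonneg a]
          refine (abs_add_le _ _).trans ?_
          rw [abs_mul (c k z), abs_mul (BUvar_d (v k) z)]
          exact add_le_add (mul_le_mul (hcb k z) hp1 (abs_nonneg _) hK0)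
            (mul_le_mul (BUvar_d_abs (hv k) (h0 k) z) hr1 (abs_nonneg _) (by positivity))
        · have hneg := h.below k z hzΩ
          have hout : z.re ∉ Icc (-4 : ℝ) 4 ∨ z.im ≤ -2 := by
            by_contra hcon
            push Not at hcon
            apply hb
            rw [mem_closedBall, dist_zero_right]
            exact BUvar_norm_le (x := z.re) (y := z.im) (abs_le.2 hcon.1)
              (abs_le.2 ⟨hcon.2.le, by linarith⟩)
          have e1 : c k z = 0 := by
            rcases hout with h1 | h1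
            · simp only [hc, BUvar_deriv_zero (h0 k) h1, zero_mul]
            · simp only [hc, BUvar_ramp_zero h1, mul_zero]
          have e2 : BUvar_d (v k) z = 0 := by
            refine BUvar_d_zero (h0 k) fun h2 => ?_
            rcases hout with h1 | h1
            · exact h1 h2.1
            · linarith [h2.2.1]
          rw [e1, e2, zero_mul, zero_mul, add_zero, norm_zero]
          exact hnn
      · have e2 : BUvar_d (v k) z = 0 :=
          BUvar_d_zero (h0 k) fun h2 => hzΩ (hk z.re h2.1 z.im (Ioo_subset_Icc_self h2.2))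
        simp only [hF, indicator_of_notMem hzΩ, e2, zero_mul, sub_zero, norm_zero]
        exact hnn
    · exact (integrable_indicator_iff measurableSet_closedBall).2
        (integrableOn_const measure_closedBall_lt_top.ne)
    · filter_upwards [hform] with z hz
      by_cases hneg : z.im < 0
      · have hG := h.convG (fun _ => z) z hneg tendsto_const_nhds
        have hre : Tendsto (fun k => (grad (us k) z).re) atTop (𝓝 0) := by
          simpa [Function.comp_def] using (continuous_re.tendsto _).comp hG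
        have him : Tendsto (fun k => (grad (us k) z).im) atTop (𝓝 a) := by
          simpa [Function.comp_def] using (continuous_im.tendsto _).comp hG
        have hp0 : Tendsto (fun k => p k z) atTop (𝓝 0) := by
          simpa using hre.mul him
        have hr0 : Tendsto (fun k => r k z) atTop (𝓝 0) := by
          have h1 := ((((him.pow 2).sub (hre.pow 2)).add
            (h.lam0.mul ((h.conv z).pow 2))).sub_const (a ^ 2))
          simpa using h1
        have t1 : Tendsto (fun k => c k z * p k z) atTop (𝓝 0) :=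
          bdd_le_mul_tendsto_zero' K (Eventually.of_forall fun k => hcb k z) hp0
        have t2 : Tendsto (fun k => BUvar_d (v k) z * r k z) atTop (𝓝 0) :=
          bdd_le_mul_tendsto_zero' (9 * K)
            (Eventually.of_forall fun k => BUvar_d_abs (hv k) (h0 k) z) hr0
        have t3 := t1.add t2
        rw [add_zero] at t3
        refine t3.congr' ?_
        filter_upwards [h.fill ‖z‖ (-z.im) (by linarith)] with k hk
        exact (hz k (hk z le_rfl (by linarith))).symm
      · have e : ∀ k, F k z = 0 := fun k => by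
          have e1 : z ∉ Ωs k := fun h1 => hneg (h.below k z h1)
          have e2 : BUvar_d (v k) z = 0 :=
            BUvar_d_zero (h0 k) fun h2 => hneg (by linarith [h2.2.2])
          simp only [hF, indicator_of_notMem e1, e2, zero_mul, sub_zero]
        simp only [e]
        exact tendsto_const_nhds
  rw [integral_zero] at hlim
  filter_upwards [hfill, ha, hlim.eventually_const_le (show -(η / 2) < 0 by linarith)]
    with k hk hak hik
  have h1 := (h.mn k).shear_le (hv k) hab (h0 k) hk hak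
  have h2 : ∫ z, F k z = LL (ls k) (Ωs k) (us k) (shear (v k) (-2) (-1)) -
      (∫ x, v k x) / 2 * (a ^ 2 - 1) := by
    simp only [hF]
    rw [integral_sub (hSi k) ((hdi k).1.mul_const _), integral_indicator (hmeas k),
      integral_mul_const, (hdi k).2]
    rfl
  rw [h2] at hik
  linarith

theorem BUvar_le_integral {v : ℝ → ℝ} (hv : Integrable v) {s l c : ℝ} (hl : 0 ≤ l)
    (h1 : ∀ x, 0 ≤ v x) (h2 : ∀ x ∈ Icc s (s + l), c ≤ v x) : l * c ≤ ∫ x, v x := by
  have hi : Integrable ((Icc s (s + l)).indicator fun _ => c) :=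
    (integrable_indicator_iff measurableSet_Icc).2 (integrableOn_const (by simp))
  have h3 : ∫ x, (Icc s (s + l)).indicator (fun _ => c) x ≤ ∫ x, v x := by
    refine integral_mono hi hv fun x => ?_
    by_cases hx : x ∈ Icc s (s + l)
    · rw [indicator_of_mem hx]; exact h2 x hx
    · rw [indicator_of_notMem hx]; exact h1 x
  rw [integral_indicator measurableSet_Icc] at h3
  simpa [hl] using h3

theorem BUvar_concave (m : ℝ) : ConcaveOn ℝ univ fun x : ℝ => -|x - m| := by
  refine ⟨convex_univ, fun x _ y _ s t hs ht hst => ?_⟩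
  simp only [smul_eq_mul]
  have e : s * x + t * y - m = s * (x - m) + t * (y - m) := by
    have : m = (s + t) * m := by rw [hst, one_mul]
    linear_combination -this
  have h1 := abs_add_le (s * (x - m)) (t * (y - m))
  rw [abs_mul, abs_mul, abs_of_nonneg hs, abs_of_nonneg ht] at h1
  rw [e]; linarith

theorem BUvar_lip (m : ℝ) : LipschitzWith 1 fun x : ℝ => -|x - m| := by
  refine LipschitzWith.of_dist_le_mul fun x y => ?_
  rw [Real.dist_eq, Real.dist_eq, NNReal.coe_one, one_mul]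
  have h1 := abs_abs_sub_abs_le_abs_sub (y - m) (x - m)
  have e1 : -|x - m| - -|y - m| = |y - m| - |x - m| := by ring
  have e2 : y - m - (x - m) = -(x - y) := by ring
  rw [e1]; rwa [e2, abs_neg] at h1

theorem BUvar_lip4 {f₁ f₂ f₃ f₄ : ℝ → ℝ} (h₁ : LipschitzWith 1 f₁) (h₂ : LipschitzWith 1 f₂)
    (h₃ : LipschitzWith 1 f₃) (h₄ : LipschitzWith 1 f₄) :
    LipschitzWith 4 fun x => (f₁ x + f₂ x) + (f₃ x + f₄ x) := by
  have h := (h₁.add h₂).add (h₃.add h₄)
  have e : ((1 : NNReal) + 1) + (1 + 1) = 4 := by norm_num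
  rwa [e] at h

/-- a kink at an extreme point of the upper boundary -/
theorem BUvar_kink (h : Dom Ω) (hg : ∀ z : ℂ, ‖z‖ ≤ 5 → z.im ≤ -(1 / 10) → z ∈ Ω) {q : ℂ}
    (hq : Ext Ω q) (h1 : |q.re| ≤ 1) (h2 : -1 ≤ q.im) : ∃ (κ : ℝ → ℝ) (β : ℝ),
      β ∈ Icc (q.re - 1 / 4) (q.re + 1 / 4) ∧ LipschitzWith 1 κ ∧
      (∀ x, x ∉ Ioo (q.re - 1 / 4) (q.re + 1 / 4) → κ x = |x - β|) ∧
      (∀ x, |x - β| ≤ κ x ∧ κ x ≤ |x - β| + 1 / 2) ∧ Adm Ω κ := by
  have h3 := abs_le.1 h1
  have hm : ∀ x : ℝ, |x| ≤ 4 → (⟨x, -1⟩ : ℂ) ∈ Ω := fun x hx =>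
    hg _ (BUvar_norm_le hx (by norm_num)) (by norm_num)
  have hs : Icc (q.re - 1 / 4) (q.re + 1 / 4) ⊆ proj Ω := fun x hx =>
    ⟨⟨x, -1⟩, hm x (abs_le.2 ⟨by linarith [hx.1], by linarith [hx.2]⟩), rfl⟩
  have ht : top Ω q.re = q.im := h.top_eq (hm q.re (by linarith)) h2 hq.1
  have he : Ext Ω ⟨q.re, top Ω q.re⟩ := by rw [ht]; exact hq
  have hn := h.not_affOn hs ⟨by linarith, by linarith⟩ he
  obtain ⟨κ, β, k1, k2, k3, k4, k5⟩ :=
    exists_kink h.isOpen_proj h.concaveOn_top (by linarith) hs hn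
  refine ⟨κ, β, k1, k2, k3, fun x => ⟨(k4 x).1, ?_⟩, k5⟩
  linarith [(k4 x).2]

theorem BU.one_le (h : BU Ωs ls us a) (he : ∀ k, Ext (Ωs k) 0) : 1 ≤ a ^ 2 := by
  by_contra hcon
  push Not at hcon
  have hex : ∀ k, ∃ v : ℝ → ℝ, LipschitzWith 4 v ∧ (∀ x, x ∉ Icc (-4 : ℝ) 4 → v x = 0) ∧
      ((∀ z : ℂ, ‖z‖ ≤ 5 → z.im ≤ -(1 / 10) → z ∈ Ωs k) →
        Adm (Ωs k) v ∧ ∫ x, v x ≤ -(1 / 8)) := fun k => by
    by_cases hg : ∀ z : ℂ, ‖z‖ ≤ 5 → z.im ≤ -(1 / 10) → z ∈ Ωs k
    · have hD : Dom (Ωs k) := (h.mn k).toDom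
      obtain ⟨κ, β, k1, k2, k3, k4, k5⟩ := BUvar_kink hD hg (he k) (by simp) (by simp)
      simp only [zero_re, zero_sub, zero_add] at k1 k3
      have hlip := BUvar_lip4 k2 k2 (BUvar_lip (β + 1)) (BUvar_lip (β - 1))
      have hz : ∀ x, x ∉ Icc (-4 : ℝ) 4 →
          (κ x + κ x) + (-|x - (β + 1)| + -|x - (β - 1)|) = 0 := fun x hx => by
        rw [mem_Icc, not_and_or, not_le, not_le] at hx
        rcases hx with hx | hx
        · rw [k3 x fun h1 => by linarith [h1.1], abs_of_neg (by linarith [k1.1]),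
            abs_of_neg (by linarith [k1.1]), abs_of_neg (by linarith [k1.1])]
          ring
        · rw [k3 x fun h1 => by linarith [h1.2], abs_of_pos (by linarith [k1.2]),
            abs_of_pos (by linarith [k1.2]), abs_of_pos (by linarith [k1.2])]
          ring
      refine ⟨_, hlip, hz, fun _ => ⟨(k5.add k5).add (adm_of_concave hD.concaveOn_top
        ((BUvar_concave (β + 1)).add (BUvar_concave (β - 1)))), ?_⟩⟩
      have hi := (BUvar_integrable hlip hz).neg
      have h5 := BUvar_le_integral (s := 1 / 4) (l := 1 / 4) (c := 1 / 2) hi (by norm_num)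
        (fun x => ?_) (fun x hx => ?_)
      · simp only [Pi.neg_apply, integral_neg] at h5
        linarith
      · simp only [Pi.neg_apply]
        have a1 := le_abs_self (x - (β - 1))
        have a2 := neg_le_abs (x - (β + 1))
        have a3 := le_abs_self (x - (β + 1))
        have a4 := neg_le_abs (x - (β - 1))
        by_cases hx : x ∈ Ioo (-(1 / 4) : ℝ) (1 / 4)
        · have a5 : |x - β| ≤ 1 / 2 :=
            abs_le.2 ⟨by linarith [hx.1, k1.2], by linarith [hx.2, k1.1]⟩
          linarith [(k4 x).2]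
        · rw [k3 x hx]
          rcases abs_cases (x - β) with a5 | a5 <;> linarith [a5.1]
      · simp only [Pi.neg_apply]
        have a1 := le_abs_self (x - (β - 1))
        have a2 := neg_le_abs (x - (β + 1))
        rw [k3 x fun h1 => by linarith [h1.2, hx.1],
          abs_of_nonneg (show 0 ≤ x - β by linarith [hx.1, k1.2])]
        linarith [hx.2, k1.1]
    · exact ⟨fun _ => 0, (LipschitzWith.const 0).weaken (by norm_num), fun _ _ => rfl,
        fun h1 => absurd h1 hg⟩
  choose v v1 v2 v3 using hex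
  have hg := h.fill 5 (1 / 10) (by norm_num)
  have h1 := h.var v1 v2 (hg.mono fun k hk => (v3 k hk).1)
    (show 0 < (1 - a ^ 2) / 16 by linarith)
  obtain ⟨k, hk1, hk2⟩ := (hg.and h1).exists
  nlinarith [(v3 k hk1).2]

theorem BU.le_one (h : BU Ωs ls us a) (he : ∀ k, Ext (Ωs k) 0) {q : ℕ → ℂ}
    (hq : ∀ k, Ext (Ωs k) (q k)) (hq1 : ∀ k, ‖q k‖ = 1) : a ^ 2 ≤ 1 := by
  by_contra hcon
  push Not at hcon
  have hex : ∀ k, ∃ v : ℝ → ℝ, LipschitzWith 4 v ∧ (∀ x, x ∉ Icc (-4 : ℝ) 4 → v x = 0) ∧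
      ((∀ z : ℂ, ‖z‖ ≤ 5 → z.im ≤ -(1 / 10) → z ∈ Ωs k) →
        Adm (Ωs k) v ∧ 1 / 25 ≤ ∫ x, v x) := fun k => by
    by_cases hg : ∀ z : ℂ, ‖z‖ ≤ 5 → z.im ≤ -(1 / 10) → z ∈ Ωs k
    · have hD : Dom (Ωs k) := (h.mn k).toDom
      have q1 : |(q k).re| ≤ 1 := (abs_re_le_norm _).trans (hq1 k).le
      have q2 : -(1 / 10) < (q k).im := by
        by_contra h1
        exact hD.notMem_of_frontier (hq k).1 (hg _ (by rw [hq1 k]; norm_num) (not_lt.1 h1))
      have q3 : (q k).im ≤ 0 := by
        have h1 : closure (Ωs k) ⊆ {z : ℂ | z.im ≤ 0} :=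
          closure_minimal (fun z hz => (h.below k z hz).le)
            (isClosed_le continuous_im continuous_const)
        exact h1 (frontier_subset_closure (hq k).1)
      have q4 : 9 / 10 ≤ |(q k).re| := by
        have h1 : ‖q k‖ ^ 2 = (q k).re ^ 2 + (q k).im ^ 2 := by
          rw [Complex.sq_norm, Complex.normSq_apply]; ring
        rw [hq1 k] at h1
        by_contra h2
        push Not at h2
        nlinarith [abs_nonneg (q k).re, sq_abs (q k).re]
      have q5 := abs_le.1 q1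
      obtain ⟨κ, β, k1, k2, k3, k4, k5⟩ := BUvar_kink hD hg (he k) (by simp) (by simp)
      simp only [zero_re, zero_sub, zero_add] at k1 k3
      obtain ⟨κ', β', l1, l2, l3, l4, l5⟩ := BUvar_kink hD hg (hq k) q1 (by linarith)
      have hlip := BUvar_lip4 k2 l2 (BUvar_lip ((β + β') / 2)) (BUvar_lip ((β + β') / 2))
      have hz : ∀ x, x ∉ Icc (-4 : ℝ) 4 →
          (κ x + κ' x) + (-|x - (β + β') / 2| + -|x - (β + β') / 2|) = 0 := fun x hx => by
        rw [mem_Icc, not_and_or, not_le, not_le] at hx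
        rcases hx with hx | hx
        · rw [k3 x fun h1 => by linarith [h1.1], l3 x fun h1 => by linarith [h1.1],
            abs_of_neg (by linarith [k1.1]), abs_of_neg (by linarith [l1.1]),
            abs_of_neg (by linarith [k1.1, l1.1])]
          ring
        · rw [k3 x fun h1 => by linarith [h1.2], l3 x fun h1 => by linarith [h1.2],
            abs_of_pos (by linarith [k1.2]), abs_of_pos (by linarith [l1.2]),
            abs_of_pos (by linarith [k1.2, l1.2])]
          ring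
      refine ⟨_, hlip, hz, fun _ => ⟨(k5.add l5).add (adm_of_concave hD.concaveOn_top
        ((BUvar_concave ((β + β') / 2)).add (BUvar_concave ((β + β') / 2)))), ?_⟩⟩
      have hi := BUvar_integrable hlip hz
      have h5 := BUvar_le_integral (s := (β + β') / 2 - 1 / 10) (l := 1 / 5) (c := 1 / 5) hi
        (by norm_num) (fun x => ?_) (fun x hx => ?_)
      · linarith
      · have a1 := le_abs_self (x - β)
        have a2 := neg_le_abs (x - β)
        have a3 := le_abs_self (x - β')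
        have a4 := neg_le_abs (x - β')
        rcases abs_cases (x - (β + β') / 2) with a5 | a5 <;> linarith [a5.1, (k4 x).1, (l4 x).1]
      · have a1 := le_abs_self (x - β)
        have a2 := neg_le_abs (x - β)
        have a3 := le_abs_self (x - β')
        have a4 := neg_le_abs (x - β')
        have a5 : |x - (β + β') / 2| ≤ 1 / 10 :=
          abs_le.2 ⟨by linarith [hx.1], by linarith [hx.2]⟩
        rcases abs_cases (q k).re with a6 | a6 <;>
          linarith [a6.1, (k4 x).1, (l4 x).1, k1.1, k1.2, l1.1, l1.2]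
    · exact ⟨fun _ => 0, (LipschitzWith.const 0).weaken (by norm_num), fun _ _ => rfl,
        fun h1 => absurd h1 hg⟩
  choose v v1 v2 v3 using hex
  have hg := h.fill 5 (1 / 10) (by norm_num)
  have h1 := h.var v1 v2 (hg.mono fun k hk => (v3 k hk).1)
    (show 0 < (a ^ 2 - 1) / 50 by linarith)
  obtain ⟨k, hk1, hk2⟩ := (hg.and h1).exists
  nlinarith [(v3 k hk1).2]

end Pool.Agent.L2K
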