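import Pool.Agent.P.MP_2f6447_an.K.Defs

/-! Elementary API for `dot`, `D`, `grad`, `Helm`, `Lip0`. -/

open Set MeasureTheory Filter Topology Complex Metric
open scoped ContDiff ComplexConjugate

namespace Pool.Agent.L2K

variable {Ω U : Set ℂ} {lam : ℝ} {u w f g : ℂ → ℝ}

theorem dot_comm (a b : ℂ) : dot a b = dot b a := by unfold dot; ring
theorem dot_self (a : ℂ) : dot a a = ‖a‖ ^ 2 := by
  rw [Complex.sq_norm, Complex.normSq_apply]; rfl
theorem dot_eq_re (a b : ℂ) : dot a b = (conj a * b).re := by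
  simp [dot]
theorem abs_dot_le (a b : ℂ) : |dot a b| ≤ ‖a‖ * ‖b‖ := by
  rw [dot_eq_re]
  refine (Complex.abs_re_le_norm _).trans ?_
  rw [norm_mul, Complex.norm_conj]
theorem dot_eq_inner (a b : ℂ) : dot a b = inner ℝ a b := by
  rw [Complex.inner]
  simp [dot]
  ring
theorem Basic_lin (L : ℂ →L[ℝ] ℝ) (v : ℂ) : L v = L 1 * v.re + L I * v.im := by
  have hv : v = v.re • (1 : ℂ) + v.im • I := by
    apply Complex.ext <;> simp
  conv_lhs => rw [hv]
  rw [map_add, map_smul, map_smul]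
  simp only [smul_eq_mul]
  ring
theorem fderiv_eq_dot (u : ℂ → ℝ) (z v : ℂ) : fderiv ℝ u z v = dot (grad u z) v := by
  rw [Basic_lin]; rfl
theorem D_eq_dot (v : ℂ) (u : ℂ → ℝ) (z : ℂ) : D v u z = dot (grad u z) v :=
  fderiv_eq_dot u z v
theorem norm_grad (u : ℂ → ℝ) (z : ℂ) : ‖grad u z‖ = ‖fderiv ℝ u z‖ := by
  apply le_antisymm
  · have h1 := (fderiv ℝ u z).le_opNorm (grad u z)
    rw [fderiv_eq_dot, dot_self, Real.norm_eq_abs, abs_of_nonneg (sq_nonneg _)] at h1
    rcases (norm_nonneg (grad u z)).eq_or_lt with h | h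
    · rw [← h]; exact norm_nonneg _
    · nlinarith
  · refine ContinuousLinearMap.opNorm_le_bound _ (norm_nonneg _) fun v => ?_
    rw [fderiv_eq_dot, Real.norm_eq_abs]
    exact abs_dot_le _ _
theorem grad_eq_of_hasFDerivAt {z G : ℂ} {L : ℂ →L[ℝ] ℝ} (h : HasFDerivAt u L z)
    (hG : ∀ v, L v = dot G v) : grad u z = G := by
  apply Complex.ext
  · show fderiv ℝ u z 1 = G.re
    rw [h.fderiv, hG]; simp [dot]
  · show fderiv ℝ u z I = G.im
    rw [h.fderiv, hG]; simp [dot]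
theorem grad_congr {z : ℂ} (h : f =ᶠ[𝓝 z] g) : grad f z = grad g z := by
  simp only [grad, D, h.fderiv_eq]
theorem Basic_D_congr (v : ℂ) {z : ℂ} (h : f =ᶠ[𝓝 z] g) : D v f =ᶠ[𝓝 z] D v g := by
  filter_upwards [h.eventually_nhds] with y hy
  have hy' : f =ᶠ[𝓝 y] g := hy
  simp only [D, hy'.fderiv_eq]
theorem lap_congr {z : ℂ} (h : f =ᶠ[𝓝 z] g) : lap f z = lap g z := by
  unfold lap
  rw [(Basic_D_congr 1 (Basic_D_congr 1 h)).eq_of_nhds,
    (Basic_D_congr I (Basic_D_congr I h)).eq_of_nhds]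
theorem grad_const (c : ℝ) (z : ℂ) : grad (fun _ => c) z = 0 := by
  apply Complex.ext <;> simp [grad, D]
theorem grad_add {z : ℂ} (hf : DifferentiableAt ℝ f z) (hg : DifferentiableAt ℝ g z) :
    grad (fun x => f x + g x) z = grad f z + grad g z := by
  apply Complex.ext <;> simp [grad, D, fderiv_fun_add hf hg]
theorem grad_sub {z : ℂ} (hf : DifferentiableAt ℝ f z) (hg : DifferentiableAt ℝ g z) :
    grad (fun x => f x - g x) z = grad f z - grad g z := by
  apply Complex.ext <;> simp [grad, D, fderiv_fun_sub hf hg]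
theorem Basic_D_const_mul (c : ℝ) (v : ℂ) (f : ℂ → ℝ) :
    D v (fun x => c * f x) = fun z => c * D v f z := by
  funext z
  have : (fun x => c * f x) = c • f := by funext x; simp
  simp only [D]
  rw [this, fderiv_const_smul_field]
  simp
theorem grad_const_mul (c : ℝ) (f : ℂ → ℝ) (z : ℂ) :
    grad (fun x => c * f x) z = c * grad f z := by
  apply Complex.ext <;> simp [grad, Basic_D_const_mul]
theorem grad_neg (f : ℂ → ℝ) (z : ℂ) : grad (fun x => -f x) z = -grad f z := by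
  apply Complex.ext <;> simp [grad, D, fderiv_fun_neg]
theorem grad_mul {z : ℂ} (hf : DifferentiableAt ℝ f z) (hg : DifferentiableAt ℝ g z) :
    grad (fun x => f x * g x) z = f z * grad g z + g z * grad f z := by
  apply Complex.ext <;> simp [grad, D, fderiv_fun_mul hf hg]
theorem grad_comp {z : ℂ} {β : ℝ → ℝ} {β' : ℝ} (hβ : HasDerivAt β β' (f z))
    (hf : DifferentiableAt ℝ f z) : grad (fun x => β (f x)) z = β' * grad f z := by
  have h := hβ.comp_hasFDerivAt z hf.hasFDerivAt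
  refine grad_eq_of_hasFDerivAt h fun v => ?_
  rw [_root_.smul_apply, fderiv_eq_dot]
  simp [dot]
  ring
theorem grad_eq_zero_of_isLocalMin {z : ℂ} (h : IsLocalMin f z) : grad f z = 0 := by
  apply Complex.ext <;> simp [grad, D, h.fderiv_eq_zero]
theorem grad_eq_zero_of_isLocalMax {z : ℂ} (h : IsLocalMax f z) : grad f z = 0 := by
  apply Complex.ext <;> simp [grad, D, h.fderiv_eq_zero]
theorem Basic_grad_eq (u : ℂ → ℝ) :
    grad u = fun z => ((fderiv ℝ u z 1 : ℝ) : ℂ) + ((fderiv ℝ u z I : ℝ) : ℂ) * I := by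
  funext z
  apply Complex.ext <;> simp [grad, D]
theorem measurable_grad (u : ℂ → ℝ) : Measurable (grad u) := by
  rw [Basic_grad_eq]
  exact (Complex.measurable_ofReal.comp (measurable_fderiv_apply_const ℝ u 1)).add
    ((Complex.measurable_ofReal.comp (measurable_fderiv_apply_const ℝ u I)).mul_const I)
theorem norm_grad_le {K : NNReal} (h : LipschitzWith K u) (z : ℂ) : ‖grad u z‖ ≤ K := by
  rw [norm_grad]
  exact norm_fderiv_le_of_lipschitz ℝ h
theorem continuous_grad (h : ContDiff ℝ 1 u) : Continuous (grad u) := by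
  rw [Basic_grad_eq]
  have h1 : Continuous (fderiv ℝ u) := h.continuous_fderiv one_ne_zero
  fun_prop
theorem hasDerivAt_line {p v : ℂ} {t : ℝ} (h : DifferentiableAt ℝ u (p + t * v)) :
    HasDerivAt (fun s : ℝ => u (p + s * v)) (dot (grad u (p + t * v)) v) t := by
  have h1 : HasDerivAt (fun s : ℝ => p + (s : ℂ) * v) v t := by
    simpa using ((Complex.ofRealCLM.hasDerivAt (x := t)).mul_const v).const_add p
  rw [← fderiv_eq_dot]
  exact h.hasFDerivAt.comp_hasDerivAt t h1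
theorem hasDerivAt_re {x y : ℝ} (h : DifferentiableAt ℝ u ⟨x, y⟩) :
    HasDerivAt (fun s : ℝ => u ⟨s, y⟩) (grad u ⟨x, y⟩).re x := by
  have e : ∀ s : ℝ, (⟨s, y⟩ : ℂ) = (y : ℂ) * I + (s : ℂ) * 1 := fun s => by
    apply Complex.ext <;> simp
  have h' : DifferentiableAt ℝ u ((y : ℂ) * I + (x : ℂ) * 1) := by rw [← e]; exact h
  have h2 := hasDerivAt_line h'
  simp only [← e] at h2
  have h3 : dot (grad u ⟨x, y⟩) 1 = (grad u ⟨x, y⟩).re := by simp [dot]
  rwa [h3] at h2
theorem hasDerivAt_im {x y : ℝ} (h : DifferentiableAt ℝ u ⟨x, y⟩) :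
    HasDerivAt (fun s : ℝ => u ⟨x, s⟩) (grad u ⟨x, y⟩).im y := by
  have e : ∀ s : ℝ, (⟨x, s⟩ : ℂ) = (x : ℂ) + (s : ℂ) * I := fun s => by
    apply Complex.ext <;> simp
  have h' : DifferentiableAt ℝ u ((x : ℂ) + (y : ℂ) * I) := by rw [← e]; exact h
  have h2 := hasDerivAt_line h'
  simp only [← e] at h2
  have h3 : dot (grad u ⟨x, y⟩) I = (grad u ⟨x, y⟩).im := by simp [dot]
  rwa [h3] at h2
theorem Basic_DD {z : ℂ} (h : ContDiffAt ℝ 2 u z) (v : ℂ) :
    D v (D v u) z = fderiv ℝ (fderiv ℝ u) z v v := by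
  have h1 : DifferentiableAt ℝ (fderiv ℝ u) z :=
    (h.fderiv_right (m := 1) (by norm_num)).differentiableAt one_ne_zero
  show fderiv ℝ (fun y => fderiv ℝ u y v) z v = _
  rw [fderiv_clm_apply h1 (differentiableAt_const v)]
  simp
theorem lap_eq_laplacian {z : ℂ} (h : ContDiffAt ℝ 2 u z) :
    lap u z = Laplacian.laplacian u z := by
  rw [InnerProductSpace.laplacian_eq_iteratedFDeriv_complexPlane]
  simp only [iteratedFDeriv_two_apply]
  unfold lap
  rw [Basic_DD h, Basic_DD h]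
  simp
theorem Basic_D_diff {z : ℂ} (h : ContDiffAt ℝ 2 u z) (v : ℂ) : DifferentiableAt ℝ (D v u) z := by
  have h1 : DifferentiableAt ℝ (fderiv ℝ u) z :=
    (h.fderiv_right (m := 1) (by norm_num)).differentiableAt one_ne_zero
  exact h1.clm_apply (differentiableAt_const v)
theorem Basic_DD_add {z : ℂ} (hf : ContDiffAt ℝ 2 f z) (hg : ContDiffAt ℝ 2 g z) (v : ℂ) :
    D v (D v (fun x => f x + g x)) z = D v (D v f) z + D v (D v g) z := by
  have e : D v (fun x => f x + g x) =ᶠ[𝓝 z] fun y => D v f y + D v g y := by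
    filter_upwards [hf.eventually (by simp), hg.eventually (by simp)] with y h1 h2
    simp [D, fderiv_fun_add (h1.differentiableAt (by norm_num)) (h2.differentiableAt (by norm_num))]
  rw [(Basic_D_congr v e).eq_of_nhds]
  show fderiv ℝ (fun y => D v f y + D v g y) z v = _
  rw [fderiv_fun_add (Basic_D_diff hf v) (Basic_D_diff hg v)]
  rfl
theorem lap_add {z : ℂ} (hf : ContDiffAt ℝ 2 f z) (hg : ContDiffAt ℝ 2 g z) :
    lap (fun x => f x + g x) z = lap f z + lap g z := by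
  unfold lap
  rw [Basic_DD_add hf hg, Basic_DD_add hf hg]
  ring
theorem lap_const_mul (c : ℝ) (f : ℂ → ℝ) (z : ℂ) : lap (fun x => c * f x) z = c * lap f z := by
  unfold lap
  simp only [Basic_D_const_mul]
  ring
theorem Basic_second {φ φ' : ℝ → ℝ} {c : ℝ} (h1 : ∀ᶠ s in 𝓝 (0 : ℝ), HasDerivAt φ (φ' s) s)
    (h2 : HasDerivAt φ' c 0) (hm : IsLocalMax φ 0) : c ≤ 0 := by
  by_contra hc
  push Not at hc
  have h0 : φ' 0 = 0 := hm.hasDerivAt_eq_zero h1.self_of_nhds
  have h3 : ∀ᶠ s in 𝓝[>] (0 : ℝ), 0 < φ' s := by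
    have h4 := (hasDerivAt_iff_tendsto_slope_zero.1 h2).mono_left
      (nhdsWithin_mono (0 : ℝ) (fun x (hx : x ∈ Ioi (0 : ℝ)) => (ne_of_gt hx : x ≠ 0)))
    filter_upwards [h4.eventually (lt_mem_nhds hc), self_mem_nhdsWithin] with s hs hs0
    have hs0' : (0 : ℝ) < s := hs0
    simp only [zero_add, h0, sub_zero, smul_eq_mul] at hs
    have := mul_pos hs0' hs
    rwa [← mul_assoc, mul_inv_cancel₀ hs0'.ne', one_mul] at this
  rw [eventually_nhdsWithin_iff] at h3
  obtain ⟨ε, hε, hb⟩ := Metric.eventually_nhds_iff.1 (h1.and (h3.and hm))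
  have hin : ∀ s ∈ Icc (0 : ℝ) (ε / 2), dist s 0 < ε := fun s hs => by
    rw [Real.dist_eq, sub_zero, abs_of_nonneg hs.1]; linarith [hs.2]
  obtain ⟨ξ, hξ, hξe⟩ := exists_hasDerivAt_eq_slope φ φ' (a := 0) (b := ε / 2) (by linarith)
    (fun s hs => (hb (hin s hs)).1.continuousAt.continuousWithinAt)
    (fun s hs => (hb (hin s (Ioo_subset_Icc_self hs))).1)
  have h5 : 0 < φ' ξ := (hb (hin ξ (Ioo_subset_Icc_self hξ))).2.1 hξ.1
  have h6 : φ (ε / 2) ≤ φ 0 := (hb (hin _ ⟨by linarith, le_rfl⟩)).2.2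
  rw [hξe] at h5
  have h7 : (φ (ε / 2) - φ 0) / (ε / 2 - 0) ≤ 0 :=
    div_nonpos_of_nonpos_of_nonneg (by linarith) (by linarith)
  linarith
theorem Basic_DD_nonpos {z : ℂ} (hf : ContDiffAt ℝ 2 f z) (h : IsLocalMax f z) (v : ℂ) :
    D v (D v f) z ≤ 0 := by
  have hc : Continuous fun s : ℝ => z + (s : ℂ) * v := by fun_prop
  have ht : Tendsto (fun s : ℝ => z + (s : ℂ) * v) (𝓝 0) (𝓝 z) := by
    simpa using hc.tendsto 0
  refine Basic_second (φ := fun s : ℝ => f (z + s * v)) (φ' := fun s : ℝ => D v f (z + s * v))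
    ?_ ?_ ?_
  · filter_upwards [ht.eventually (hf.eventually (by simp))] with s hs
    rw [D_eq_dot]
    exact hasDerivAt_line (hs.differentiableAt (by norm_num))
  · have h1 : DifferentiableAt ℝ (D v f) (z + ((0 : ℝ) : ℂ) * v) := by
      simpa using Basic_D_diff hf v
    have h2 := hasDerivAt_line h1
    rw [← D_eq_dot] at h2
    simpa using h2
  · have h1 : ∀ᶠ y in 𝓝 z, f y ≤ f z := h
    have h2 := ht.eventually h1
    show ∀ᶠ s : ℝ in 𝓝 0, f (z + s * v) ≤ f (z + ((0 : ℝ) : ℂ) * v)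
    simpa using h2
theorem lap_nonpos_of_isLocalMax {z : ℂ} (hf : ContDiffAt ℝ 2 f z) (h : IsLocalMax f z) :
    lap f z ≤ 0 :=
  add_nonpos (Basic_DD_nonpos hf h 1) (Basic_DD_nonpos hf h I)
theorem Helm.contDiffAt (h : Helm lam U w) {z : ℂ} (hz : z ∈ U) : ContDiffAt ℝ ∞ w z :=
  h.smooth.contDiffAt (h.isOpen.mem_nhds hz)
theorem Basic_two (h : Helm lam U w) {z : ℂ} (hz : z ∈ U) : ContDiffAt ℝ 2 w z :=
  (h.contDiffAt hz).of_le (WithTop.coe_le_coe.2 (le_top : (2 : ℕ∞) ≤ ⊤))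
theorem Helm.differentiableAt (h : Helm lam U w) {z : ℂ} (hz : z ∈ U) :
    DifferentiableAt ℝ w z := (Basic_two h hz).differentiableAt (by norm_num)
theorem Helm.continuousOn (h : Helm lam U w) : ContinuousOn w U := h.smooth.continuousOn
theorem Helm.continuousOn_grad (h : Helm lam U w) : ContinuousOn (grad w) U := by
  rw [Basic_grad_eq]
  have h1 : ContinuousOn (fderiv ℝ w) U :=
    h.smooth.continuousOn_fderiv_of_isOpen h.isOpen (by exact_mod_cast le_top)
  fun_prop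
theorem Helm.mono {V : Set ℂ} (h : Helm lam U w) (hV : IsOpen V) (hVU : V ⊆ U) : Helm lam V w :=
  ⟨hV, h.smooth.mono hVU, fun z hz => h.eq z (hVU hz)⟩
theorem Helm.congr (h : Helm lam U f) (e : EqOn g f U) : Helm lam U g := by
  refine ⟨h.isOpen, h.smooth.congr e, fun z hz => ?_⟩
  rw [lap_congr (e.eventuallyEq_of_mem (h.isOpen.mem_nhds hz)), e hz]
  exact h.eq z hz
theorem Helm.add (hf : Helm lam U f) (hg : Helm lam U g) : Helm lam U fun z => f z + g z := by
  refine ⟨hf.isOpen, hf.smooth.add hg.smooth, fun z hz => ?_⟩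
  rw [lap_add (Basic_two hf hz) (Basic_two hg hz)]
  linarith [hf.eq z hz, hg.eq z hz]
theorem Helm.const_mul (h : Helm lam U f) (c : ℝ) : Helm lam U fun z => c * f z := by
  refine ⟨h.isOpen, contDiffOn_const.mul h.smooth, fun z hz => ?_⟩
  rw [lap_const_mul]
  linear_combination c * h.eq z hz
theorem Helm.neg (h : Helm lam U f) : Helm lam U fun z => -f z :=
  (h.const_mul (-1)).congr fun z _ => by simp
theorem Helm.sub (hf : Helm lam U f) (hg : Helm lam U g) : Helm lam U fun z => f z - g z :=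
  (hf.add hg.neg).congr fun z _ => by simp [sub_eq_add_neg]
theorem helm_zero (lam : ℝ) (hU : IsOpen U) : Helm lam U fun _ => 0 := by
  refine ⟨hU, contDiffOn_const, fun z _ => ?_⟩
  have := lap_const_mul 0 (fun _ => (0 : ℝ)) z
  simpa using this
theorem helm_of_locally (hU : IsOpen U) (h : ∀ z ∈ U, ∃ V, z ∈ V ∧ Helm lam V w) : Helm lam U w := by
  refine ⟨hU, fun z hz => ?_, fun z hz => ?_⟩
  · obtain ⟨V, hV, hw⟩ := h z hz
    exact (hw.contDiffAt hV).contDiffWithinAt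
  · obtain ⟨V, hV, hw⟩ := h z hz
    exact hw.eq z hV
theorem Helm.harmonicOnNhd (h : Helm 0 U w) : InnerProductSpace.HarmonicOnNhd w U := by
  intro z hz
  refine ⟨Basic_two h hz, ?_⟩
  filter_upwards [h.isOpen.mem_nhds hz] with y hy
  have := h.eq y hy
  rw [lap_eq_laplacian (Basic_two h hy)] at this
  simpa using this
theorem helm_re_of_analytic {F : ℂ → ℂ} (hU : IsOpen U) (hF : AnalyticOnNhd ℂ F U) :
    Helm 0 U fun z => (F z).re := by
  have hs : ∀ z ∈ U, ContDiffAt ℝ ∞ (fun z => (F z).re) z := fun z hz =>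
    Complex.reCLM.contDiff.contDiffAt.comp z (((hF z hz).contDiffAt (n := ∞)).restrict_scalars ℝ)
  refine ⟨hU, fun z hz => (hs z hz).contDiffWithinAt, fun z hz => ?_⟩
  have h1 := (hF z hz).harmonicAt_re
  rw [lap_eq_laplacian h1.1, h1.2.eq_of_nhds]
  simp
theorem Lip0.continuous (h : Lip0 Ω f) : Continuous f := by
  obtain ⟨K, hK⟩ := h.lip
  exact hK.continuous
theorem Lip0.neg (h : Lip0 Ω f) : Lip0 Ω fun z => -f z := by
  obtain ⟨K, hK⟩ := h.lip
  exact ⟨⟨K, hK.neg⟩, fun z hz => by simp [h.zero z hz]⟩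
theorem Lip0.hasCompactSupport (h : Lip0 Ω f) (hb : Bornology.IsBounded Ω) :
    HasCompactSupport f :=
  HasCompactSupport.intro hb.isCompact_closure fun z hz => h.zero z fun hΩ => hz (subset_closure hΩ)
theorem Lip0.exists_bound (h : Lip0 Ω f) (hb : Bornology.IsBounded Ω) : ∃ M, ∀ z, |f z| ≤ M := by
  obtain ⟨M, hM⟩ := (h.hasCompactSupport hb).exists_bound_of_continuous h.continuous
  exact ⟨M, hM⟩
theorem Lip0.grad_zero (h : Lip0 Ω f) {z : ℂ} (hz : z ∉ closure Ω) : grad f z = 0 := by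
  have e : f =ᶠ[𝓝 z] fun _ => 0 := by
    filter_upwards [isClosed_closure.isOpen_compl.mem_nhds hz] with y hy
    exact h.zero y fun hΩ => hy (subset_closure hΩ)
  rw [grad_congr e, grad_const]
theorem Lip0.memLp (h : Lip0 Ω f) (hb : Bornology.IsBounded Ω) : MemLp f 2 volume :=
  h.continuous.memLp_of_hasCompactSupport (h.hasCompactSupport hb)
theorem Lip0.memLp_grad (h : Lip0 Ω f) (hb : Bornology.IsBounded Ω) : MemLp (grad f) 2 volume := by
  obtain ⟨K, hK⟩ := h.lip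
  have hc : HasCompactSupport (grad f) :=
    HasCompactSupport.intro hb.isCompact_closure fun z hz => h.grad_zero hz
  exact hc.memLp_of_bound (measurable_grad f).aestronglyMeasurable K
    (Eventually.of_forall (norm_grad_le hK))
theorem Dom.frontier_null (h : Dom Ω) : volume (frontier Ω) = 0 :=
  h.convex.addHaar_frontier volume
theorem Dom.volume_ne_top (h : Dom Ω) : volume Ω ≠ ⊤ := h.bdd.measure_lt_top.ne
theorem Dom.area_pos (h : Dom Ω) : 0 < area Ω :=
  ENNReal.toReal_pos (h.isOpen.measure_pos volume h.ne).ne' h.volume_ne_top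
theorem Dom.notMem_of_frontier (h : Dom Ω) {p : ℂ} (hp : p ∈ frontier Ω) : p ∉ Ω := by
  rw [h.isOpen.frontier_eq] at hp
  exact hp.2
theorem Dom.interior_closure (h : Dom Ω) : interior (closure Ω) = Ω := by
  rw [h.convex.interior_closure_eq_interior_of_nonempty_interior
    (by rw [h.isOpen.interior_eq]; exact h.ne), h.isOpen.interior_eq]
theorem Dom.combo_mem (h : Dom Ω) {p q : ℂ} (hp : p ∈ Ω) (hq : q ∈ closure Ω) {t : ℝ} (h0 : 0 ≤ t)
    (h1 : t < 1) : p + t * (q - p) ∈ Ω := by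
  have h2 := h.convex.combo_interior_closure_mem_interior (x := p) (y := q) (a := 1 - t) (b := t)
    (by rw [h.isOpen.interior_eq]; exact hp) hq (by linarith) h0 (by ring)
  rw [h.isOpen.interior_eq] at h2
  have e : p + t * (q - p) = (1 - t) • p + t • q := by
    simp only [Complex.real_smul]
    push_cast
    ring
  rw [e]
  exact h2
theorem Mn.neg (h : Mn Ω lam u) : Mn Ω lam fun z => -u z :=
  { toIsMin := h.toIsMin
    lam_eq := h.lam_eq
    lip := h.lip.neg
    helm := h.helm.neg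
    nrm := by simpa using h.nrm }
theorem Mn.exists_ne (h : Mn Ω lam u) : ∃ z ∈ Ω, u z ≠ 0 := by
  by_contra hc
  push Not at hc
  have h0 : ∀ z, u z = 0 := fun z => by
    by_cases hz : z ∈ Ω
    · exact hc z hz
    · exact h.lip.zero z hz
  have h1 := h.nrm
  have h2 := h.toDom.area_pos
  simp [h0] at h1
  linarith
theorem lam2c_nonneg (Ω : Set ℂ) : 0 ≤ lam2c Ω := by
  refine Real.sInf_nonneg ?_
  rintro r ⟨f, g, hf, hg, hl, hr⟩
  have h1 := hr 1 0
  have hf0 : f ≠ 0 := by simpa using hl.ne_zero 0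
  have hc : Continuous f := hf.smooth.continuous
  have h2 : 0 < ∫ x, (1 * f x + 0 * g x) ^ 2 := by
    simp only [one_mul, zero_mul, add_zero]
    obtain ⟨z, hz⟩ := Function.ne_iff.1 hf0
    have hcs : HasCompactSupport fun x => f x ^ 2 :=
      hf.cpt.comp_left (g := fun t : ℝ => t ^ 2) (by simp)
    exact (hc.pow 2).integral_pos_of_hasCompactSupport_nonneg_nonzero hcs
      (fun x => sq_nonneg _) (x := z) (pow_ne_zero 2 hz)
  have h3 : 0 ≤ ∫ x, ‖fderiv ℝ (fun y => 1 * f y + 0 * g y) x‖ ^ 2 :=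
    integral_nonneg fun x => sq_nonneg _
  by_contra hr0
  push Not at hr0
  nlinarith
theorem Mn.lam_pos (h : Mn Ω lam u) : 0 < lam := by
  have h1 : 0 ≤ lam := h.lam_eq ▸ lam2c_nonneg Ω
  refine h1.lt_of_ne fun h0 => ?_
  have h2 := h.nrm
  have h3 := h.toDom.area_pos
  rw [← h0] at h2
  simp at h2
  linarith
theorem Basic_prod {F : ℂ → ℝ} (hF : Integrable F) :
    (∫ z, F z = ∫ p : ℝ × ℝ, F ⟨p.1, p.2⟩) ∧
      Integrable (fun p : ℝ × ℝ => F ⟨p.1, p.2⟩) (volume.prod volume) := by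
  have hp := Complex.volume_preserving_equiv_real_prod.symm
  have e : (fun p : ℝ × ℝ => F ⟨p.1, p.2⟩) = F ∘ Complex.measurableEquivRealProd.symm := by
    funext p; rfl
  refine ⟨?_, ?_⟩
  · rw [← hp.integral_comp' F]
    rfl
  · rw [e]
    exact (hp.integrable_comp_emb (MeasurableEquiv.measurableEmbedding _)).2 hF
theorem integral_eq_re_im {F : ℂ → ℝ} (hF : Integrable F) :
    ∫ z, F z = ∫ x : ℝ, ∫ y : ℝ, F ⟨x, y⟩ := by
  obtain ⟨h1, h2⟩ := Basic_prod hF
  rw [h1]
  exact integral_prod _ h2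
theorem integral_eq_im_re {F : ℂ → ℝ} (hF : Integrable F) :
    ∫ z, F z = ∫ y : ℝ, ∫ x : ℝ, F ⟨x, y⟩ := by
  obtain ⟨h1, h2⟩ := Basic_prod hF
  rw [h1]
  exact integral_prod_symm _ h2

end Pool.Agent.L2K
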