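import Pool.Agent.P.MP_2f6447_an.K.Defs

/-! The radial solution `J`: bound, continuity, uniqueness. -/

open Set MeasureTheory Filter Topology Complex Metric
open scoped ContDiff ComplexConjugate

namespace Pool.Agent.L2K

variable {Ω U : Set ℂ} {lam : ℝ} {u w f g : ℂ → ℝ}

/-- the coefficient of the series -/
noncomputable def Bessel_a (k m : ℕ) : ℝ :=
  (k.factorial : ℝ) / ((m.factorial : ℝ) * ((m + k).factorial : ℝ))

/-- the entire series -/
noncomputable def Bessel_B (k : ℕ) (x : ℝ) : ℝ := ∑' m : ℕ, x ^ m * Bessel_a k m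

theorem Bessel_J_eq (k : ℕ) (lam r : ℝ) : J k lam r = r ^ k * Bessel_B k (-(lam * r ^ 2) / 4) := by
  unfold J Bessel_B Bessel_a
  congr 1
  refine tsum_congr fun m => ?_
  rw [mul_div_assoc]

theorem Bessel_a_nonneg (k m : ℕ) : 0 ≤ Bessel_a k m := by
  unfold Bessel_a; positivity

theorem Bessel_a_le (k m : ℕ) : Bessel_a k m ≤ 1 / (m.factorial : ℝ) := by
  unfold Bessel_a
  have h1 : (0 : ℝ) < m.factorial := by exact_mod_cast m.factorial_pos
  have h2 : (0 : ℝ) < (m + k).factorial := by exact_mod_cast (m + k).factorial_pos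
  have h3 : (k.factorial : ℝ) ≤ (m + k).factorial := by
    exact_mod_cast Nat.factorial_le (Nat.le_add_left k m)
  rw [div_le_div_iff₀ (by positivity) h1]
  nlinarith

theorem Bessel_a_le_one (k m : ℕ) : Bessel_a k m ≤ 1 := by
  refine (Bessel_a_le k m).trans ?_
  have h1 : (1 : ℝ) ≤ m.factorial := by exact_mod_cast m.factorial_pos
  rw [div_le_one (by linarith)]
  exact h1

theorem Bessel_a_zero (k : ℕ) : Bessel_a k 0 = 1 := by
  unfold Bessel_a
  have h : (k.factorial : ℝ) ≠ 0 := by exact_mod_cast k.factorial_ne_zero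
  simp [h]

theorem Bessel_a_succ (k m : ℕ) :
    ((m : ℝ) + 1) * Bessel_a k (m + 1) = Bessel_a (k + 1) m / ((k : ℝ) + 1) := by
  unfold Bessel_a
  have h1 : (m.factorial : ℝ) ≠ 0 := by exact_mod_cast m.factorial_ne_zero
  have h2 : ((m + (k + 1)).factorial : ℝ) ≠ 0 := by exact_mod_cast (m + (k + 1)).factorial_ne_zero
  have e : m + 1 + k = m + (k + 1) := by ring
  rw [e, Nat.factorial_succ m, Nat.factorial_succ k]
  push_cast
  field_simp

theorem Bessel_a_rec (k m : ℕ) :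
    Bessel_a k (m + 1) =
      Bessel_a (k + 1) (m + 1) + Bessel_a (k + 2) m / (((k : ℝ) + 1) * ((k : ℝ) + 2)) := by
  unfold Bessel_a
  have h1 : (m.factorial : ℝ) ≠ 0 := by exact_mod_cast m.factorial_ne_zero
  have h2 : ((m + 1 + k).factorial : ℝ) ≠ 0 := by exact_mod_cast (m + 1 + k).factorial_ne_zero
  have e1 : m + 1 + (k + 1) = (m + 1 + k) + 1 := by ring
  have e2 : m + (k + 2) = (m + 1 + k) + 1 := by ring
  rw [e1, e2, Nat.factorial_succ (m + 1 + k), Nat.factorial_succ m, Nat.factorial_succ (k + 1),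
    Nat.factorial_succ k]
  push_cast
  field_simp
  ring

theorem Bessel_term_le (k m : ℕ) {x R : ℝ} (hx : |x| ≤ R) :
    ‖x ^ m * Bessel_a k m‖ ≤ R ^ m / (m.factorial : ℝ) := by
  rw [Real.norm_eq_abs, abs_mul, abs_pow, abs_of_nonneg (Bessel_a_nonneg k m), div_eq_mul_one_div]
  have hR : 0 ≤ R := (abs_nonneg x).trans hx
  exact mul_le_mul (pow_le_pow_left₀ (abs_nonneg x) hx m) (Bessel_a_le k m) (Bessel_a_nonneg k m)
    (pow_nonneg hR m)

theorem Bessel_summable (k : ℕ) (x : ℝ) : Summable fun m : ℕ => x ^ m * Bessel_a k m :=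
  Summable.of_norm_bounded (Real.summable_pow_div_factorial |x|) fun m => Bessel_term_le k m le_rfl

theorem Bessel_B_shift (k : ℕ) (x : ℝ) :
    Bessel_B k x = 1 + ∑' m : ℕ, x ^ (m + 1) * Bessel_a k (m + 1) := by
  unfold Bessel_B
  rw [(Bessel_summable k x).tsum_eq_zero_add, Bessel_a_zero]
  simp

theorem Bessel_summable_shift (k : ℕ) (x : ℝ) :
    Summable fun m : ℕ => x ^ (m + 1) * Bessel_a k (m + 1) :=
  (summable_nat_add_iff (f := fun m : ℕ => x ^ m * Bessel_a k m) 1).2 (Bessel_summable k x)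

theorem Bessel_hasDerivAt (k : ℕ) (x : ℝ) :
    HasDerivAt (Bessel_B k) (Bessel_B (k + 1) x / ((k : ℝ) + 1)) x := by
  have hk : (1 : ℝ) ≤ (k : ℝ) + 1 := by
    have : (0 : ℝ) ≤ k := Nat.cast_nonneg k
    linarith
  have hx : x ∈ Ioo (-(|x| + 1)) (|x| + 1) :=
    ⟨by have := neg_abs_le x; linarith, by have := le_abs_self x; linarith⟩
  have h := hasDerivAt_tsum_of_isPreconnected
    (u := fun m : ℕ => (|x| + 1) ^ m / (m.factorial : ℝ))
    (g := fun (m : ℕ) (y : ℝ) => y ^ (m + 1) * Bessel_a k (m + 1))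
    (g' := fun (m : ℕ) (y : ℝ) => y ^ m * Bessel_a (k + 1) m / ((k : ℝ) + 1))
    (t := Ioo (-(|x| + 1)) (|x| + 1)) (y₀ := x) (y := x)
    (Real.summable_pow_div_factorial _) isOpen_Ioo isPreconnected_Ioo
    (fun m y _ => by
      have h1 := (hasDerivAt_pow (m + 1) y).mul_const (Bessel_a k (m + 1))
      have e : ((m + 1 : ℕ) : ℝ) * y ^ (m + 1 - 1) * Bessel_a k (m + 1) =
          y ^ m * Bessel_a (k + 1) m / ((k : ℝ) + 1) := by
        rw [mul_div_assoc, ← Bessel_a_succ, Nat.add_sub_cancel]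
        push_cast
        ring
      rw [e] at h1
      exact h1)
    (fun m y hy => by
      have h1 : |y| ≤ |x| + 1 := abs_le.2 ⟨hy.1.le, hy.2.le⟩
      have h2 := Bessel_term_le (k + 1) m h1
      refine le_trans ?_ h2
      rw [norm_div, Real.norm_of_nonneg (by linarith : (0 : ℝ) ≤ (k : ℝ) + 1)]
      exact div_le_self (norm_nonneg _) hk)
    hx (Bessel_summable_shift k x) hx
  have e1 : Bessel_B k = fun y => 1 + ∑' m : ℕ, y ^ (m + 1) * Bessel_a k (m + 1) :=
    funext (Bessel_B_shift k)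
  have e2 : Bessel_B (k + 1) x / ((k : ℝ) + 1) =
      ∑' m : ℕ, x ^ m * Bessel_a (k + 1) m / ((k : ℝ) + 1) := by
    unfold Bessel_B
    rw [tsum_div_const]
  rw [e1, e2]
  exact h.const_add 1

theorem Bessel_continuous (k : ℕ) : Continuous (Bessel_B k) :=
  continuous_iff_continuousAt.2 fun x => (Bessel_hasDerivAt k x).continuousAt

theorem Bessel_B_rec (k : ℕ) (x : ℝ) :
    Bessel_B k x =
      Bessel_B (k + 1) x + x * Bessel_B (k + 2) x / (((k : ℝ) + 1) * ((k : ℝ) + 2)) := by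
  rw [Bessel_B_shift k, Bessel_B_shift (k + 1), add_assoc]
  congr 1
  unfold Bessel_B
  rw [← tsum_mul_left, ← tsum_div_const,
    ← (Bessel_summable_shift (k + 1) x).tsum_add
      (((Bessel_summable (k + 2) x).mul_left x).div_const _)]
  refine tsum_congr fun m => ?_
  rw [Bessel_a_rec]
  ring

theorem Bessel_B_bound (k : ℕ) {x : ℝ} (hx : |x| ≤ 1 / 4) : |Bessel_B k x - 1| ≤ 2 * |x| := by
  rw [Bessel_B_shift, add_sub_cancel_left]
  have hs : HasSum (fun m : ℕ => |x| * (1 / 2 : ℝ) ^ m) (|x| * 2) :=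
    hasSum_geometric_two.mul_left |x|
  have h := tsum_of_norm_bounded (f := fun m : ℕ => x ^ (m + 1) * Bessel_a k (m + 1)) hs
    (fun m => by
      rw [Real.norm_eq_abs, abs_mul, abs_pow, abs_of_nonneg (Bessel_a_nonneg k _), pow_succ]
      have h1 : |x| ^ m ≤ (1 / 2 : ℝ) ^ m := pow_le_pow_left₀ (abs_nonneg x) (by linarith) m
      have h2 := Bessel_a_le_one k (m + 1)
      have h3 := Bessel_a_nonneg k (m + 1)
      have h4 := abs_nonneg x
      calc |x| ^ m * |x| * Bessel_a k (m + 1) ≤ |x| ^ m * |x| * 1 :=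
            mul_le_mul_of_nonneg_left h2 (by positivity)
        _ = |x| * |x| ^ m := by ring
        _ ≤ |x| * (1 / 2 : ℝ) ^ m := mul_le_mul_of_nonneg_left h1 h4)
  rw [Real.norm_eq_abs] at h
  linarith

theorem J_bound (k : ℕ) {r : ℝ} (hl : 0 ≤ lam) (hr : 0 ≤ r) (h : lam * r ^ 2 ≤ 1) :
    |J k lam r - r ^ k| ≤ lam * r ^ 2 / 2 * r ^ k := by
  have h0 : 0 ≤ lam * r ^ 2 := by positivity
  have ha : |-(lam * r ^ 2) / 4| = lam * r ^ 2 / 4 := by
    rw [neg_div, abs_neg, abs_of_nonneg (by positivity)]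
  have hb := Bessel_B_bound k (x := -(lam * r ^ 2) / 4) (by rw [ha]; linarith)
  rw [ha] at hb
  have hp : 0 ≤ r ^ k := pow_nonneg hr k
  rw [Bessel_J_eq, ← mul_sub_one, abs_mul, abs_of_nonneg hp, mul_comm]
  exact mul_le_mul_of_nonneg_right (by linarith) hp

theorem continuous_J (k : ℕ) (lam : ℝ) : Continuous (J k lam) := by
  have e : J k lam = fun r => r ^ k * Bessel_B k (-(lam * r ^ 2) / 4) := funext (Bessel_J_eq k lam)
  rw [e]
  exact (continuous_pow k).mul ((Bessel_continuous k).comp (by fun_prop))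

/-- `r` times the derivative of `J` -/
noncomputable def Bessel_P (k : ℕ) (lam r : ℝ) : ℝ :=
  k * J k lam r - lam / (2 * ((k : ℝ) + 1)) * (r * J (k + 1) lam r)

theorem Bessel_J_deriv (k : ℕ) (lam : ℝ) {r : ℝ} (hr : r ≠ 0) :
    HasDerivAt (J k lam) (Bessel_P k lam r / r) r := by
  have e : J k lam = fun r => r ^ k * Bessel_B k (-(lam * r ^ 2) / 4) := funext (Bessel_J_eq k lam)
  have h1 : HasDerivAt (fun r : ℝ => -(lam * r ^ 2) / 4) (-(lam * (2 * r)) / 4) r := by
    have h := (((hasDerivAt_pow 2 r).const_mul lam).neg).div_const 4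
    have e' : -(lam * (((2 : ℕ) : ℝ) * r ^ (2 - 1))) / 4 = -(lam * (2 * r)) / 4 := by norm_num
    rw [e'] at h
    exact h
  have h2 := (Bessel_hasDerivAt k (-(lam * r ^ 2) / 4)).comp r h1
  have h3 := (hasDerivAt_pow k r).mul h2
  have e2 : Bessel_P k lam r / r =
      (k : ℝ) * r ^ (k - 1) * (Bessel_B k ∘ fun r : ℝ => -(lam * r ^ 2) / 4) r +
        r ^ k * (Bessel_B (k + 1) (-(lam * r ^ 2) / 4) / ((k : ℝ) + 1) * (-(lam * (2 * r)) / 4)) := by
    unfold Bessel_P
    rw [Bessel_J_eq, Bessel_J_eq, Function.comp_apply]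
    have hk : (k : ℝ) + 1 ≠ 0 := by positivity
    have hp : (k : ℝ) * r ^ k = k * r ^ (k - 1) * r := by
      cases k with
      | zero => simp
      | succ n => rw [Nat.add_sub_cancel, pow_succ]; ring
    rw [← mul_assoc (k : ℝ), hp]
    field_simp
    ring
  rw [e2, e]
  exact h3

theorem Bessel_P_deriv (k : ℕ) (lam : ℝ) {r : ℝ} (hr : r ≠ 0) :
    HasDerivAt (Bessel_P k lam) (-((lam * r ^ 2 - k ^ 2) * J k lam r) / r) r := by
  have h1 := (Bessel_J_deriv k lam hr).const_mul (k : ℝ)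
  have h2 := ((hasDerivAt_id' r).mul (Bessel_J_deriv (k + 1) lam hr)).const_mul
    (lam / (2 * ((k : ℝ) + 1)))
  have h3 := h1.sub h2
  have e : -((lam * r ^ 2 - k ^ 2) * J k lam r) / r =
      (k : ℝ) * (Bessel_P k lam r / r) - lam / (2 * ((k : ℝ) + 1)) *
        (1 * J (k + 1) lam r + r * (Bessel_P (k + 1) lam r / r)) := by
    unfold Bessel_P
    rw [Bessel_J_eq k, Bessel_J_eq (k + 1), Bessel_J_eq (k + 1 + 1), Bessel_B_rec k]
    have hk : (k : ℝ) + 1 ≠ 0 := by positivity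
    have hk2 : (k : ℝ) + 2 ≠ 0 := by positivity
    have hk3 : (k : ℝ) + 1 + 1 ≠ 0 := by positivity
    have e3 : k + 1 + 1 = k + 2 := rfl
    rw [e3]
    push_cast
    field_simp
    ring
  rw [e]
  exact h3

theorem Bessel_P_continuous (k : ℕ) (lam : ℝ) : Continuous (Bessel_P k lam) := by
  unfold Bessel_P
  exact (continuous_const.mul (continuous_J k lam)).sub
    (continuous_const.mul (continuous_id.mul (continuous_J (k + 1) lam)))

theorem Bessel_P_zero (k : ℕ) (lam : ℝ) : Bessel_P k lam 0 = 0 := by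
  unfold Bessel_P
  rw [Bessel_J_eq k]
  cases k with
  | zero => simp
  | succ n => simp

theorem Bessel_const {R : ℝ} {F : ℝ → ℝ} (hF : ∀ r ∈ Ioc 0 R, HasDerivAt F 0 r) {a b : ℝ}
    (ha : 0 < a) (hab : a ≤ b) (hb : b ≤ R) : F b = F a :=
  constant_of_has_deriv_right_zero (f := F) (a := a) (b := b)
    (fun x hx => (hF x ⟨ha.trans_le hx.1, hx.2.trans hb⟩).continuousAt.continuousWithinAt)
    (fun x hx => (hF x ⟨ha.trans_le hx.1, hx.2.le.trans hb⟩).hasDerivWithinAt) b ⟨hab, le_rfl⟩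

theorem J_unique (k : ℕ) {R : ℝ} (hl : 0 ≤ lam) (h : lam * R ^ 2 ≤ 1) {f f1 f2 : ℝ → ℝ}
    (hf : ∀ r ∈ Ioc 0 R, HasDerivAt f (f1 r) r ∧ HasDerivAt f1 (f2 r) r ∧
      r ^ 2 * f2 r + r * f1 r + (lam * r ^ 2 - k ^ 2) * f r = 0)
    (hb : ∃ C, ∀ r ∈ Ioc 0 R, |f r| ≤ C ∧ |f1 r| ≤ C) : ∃ c, ∀ r ∈ Ioc 0 R, f r = c * J k lam r := by
  obtain ⟨C, hC⟩ := hb
  have hW : ∀ r ∈ Ioc 0 R,
      HasDerivAt (fun r => f r * Bessel_P k lam r - f1 r * (r * J k lam r)) 0 r := by
    intro r hr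
    obtain ⟨h1, h2, h3⟩ := hf r hr
    have hr0 : r ≠ 0 := hr.1.ne'
    have h4 := (h1.mul (Bessel_P_deriv k lam hr0)).sub
      (h2.mul ((hasDerivAt_id' r).mul (Bessel_J_deriv k lam hr0)))
    have e : f1 r * Bessel_P k lam r + f r * (-((lam * r ^ 2 - k ^ 2) * J k lam r) / r) -
        (f2 r * (r * J k lam r) + f1 r * (1 * J k lam r + r * (Bessel_P k lam r / r))) = 0 := by
      have e1 : f1 r * Bessel_P k lam r + f r * (-((lam * r ^ 2 - k ^ 2) * J k lam r) / r) -
          (f2 r * (r * J k lam r) + f1 r * (1 * J k lam r + r * (Bessel_P k lam r / r))) =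
          -(J k lam r / r) * (r ^ 2 * f2 r + r * f1 r + (lam * r ^ 2 - k ^ 2) * f r) := by
        field_simp
        ring
      rw [e1, h3, mul_zero]
    rw [← e]
    exact h4
  have hW0 : ∀ r ∈ Ioc 0 R, f r * Bessel_P k lam r - f1 r * (r * J k lam r) = 0 := by
    intro r hr
    have hc : Continuous fun s : ℝ => C * |Bessel_P k lam s| + C * |s * J k lam s| :=
      (continuous_const.mul (Bessel_P_continuous k lam).abs).add
        (continuous_const.mul (continuous_id.mul (continuous_J k lam)).abs)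
    have ht : Tendsto (fun s : ℝ => C * |Bessel_P k lam s| + C * |s * J k lam s|) (𝓝[>] 0) (𝓝 0) := by
      have h0 := (hc.tendsto 0).mono_left (nhdsWithin_le_nhds (s := Ioi (0 : ℝ)))
      simpa [Bessel_P_zero] using h0
    have hle : |f r * Bessel_P k lam r - f1 r * (r * J k lam r)| ≤ 0 := by
      refine ge_of_tendsto ht ?_
      filter_upwards [Ioc_mem_nhdsGT hr.1] with s hs
      have e := Bessel_const hW hs.1 hs.2 hr.2
      obtain ⟨c1, c2⟩ := hC s ⟨hs.1, hs.2.trans hr.2⟩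
      rw [e]
      refine (abs_sub _ _).trans (add_le_add ?_ ?_)
      · rw [abs_mul]; exact mul_le_mul_of_nonneg_right c1 (abs_nonneg _)
      · rw [abs_mul]; exact mul_le_mul_of_nonneg_right c2 (abs_nonneg _)
    exact abs_nonpos_iff.1 hle
  have hJ : ∀ r ∈ Ioc 0 R, J k lam r ≠ 0 := by
    intro r hr
    have h1 : lam * r ^ 2 ≤ 1 :=
      (mul_le_mul_of_nonneg_left (pow_le_pow_left₀ hr.1.le hr.2 2) hl).trans h
    have h2 := (abs_le.1 (J_bound k hl hr.1.le h1)).1
    have h3 : 0 < r ^ k := pow_pos hr.1 k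
    have h4 : lam * r ^ 2 / 2 * r ^ k ≤ 1 / 2 * r ^ k :=
      mul_le_mul_of_nonneg_right (by linarith) h3.le
    have : 0 < J k lam r := by linarith
    exact this.ne'
  have hQ : ∀ r ∈ Ioc 0 R, HasDerivAt (fun r => f r / J k lam r) 0 r := by
    intro r hr
    have hr0 : r ≠ 0 := hr.1.ne'
    have h4 := (hf r hr).1.div (Bessel_J_deriv k lam hr0) (hJ r hr)
    have e : (f1 r * J k lam r - f r * (Bessel_P k lam r / r)) / J k lam r ^ 2 = 0 := by
      have e1 : f1 r * J k lam r - f r * (Bessel_P k lam r / r) =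
          -(f r * Bessel_P k lam r - f1 r * (r * J k lam r)) / r := by
        field_simp
        ring
      rw [e1, hW0 r hr]
      simp
    rw [← e]
    exact h4
  refine ⟨f R / J k lam R, fun r hr => ?_⟩
  have e := Bessel_const hQ hr.1 hr.2 le_rfl
  rw [e, div_mul_cancel₀ _ (hJ r hr)]

end Pool.Agent.L2K
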