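import Pool.Agent.P.MP_2f6447_an.K.Mean

/-! Leading term and unique continuation. -/

open Set MeasureTheory Filter Topology Complex Metric
open scoped ContDiff ComplexConjugate

namespace Pool.Agent.L2K

variable {Ω U : Set ℂ} {lam : ℝ} {u w f g : ℂ → ℝ}

theorem Lead_int {g : ℝ → ℝ} (hg : Continuous g) (k : ℕ) (s : ℝ) (hs : s = 1 ∨ s = -1) :
    ∫ θ in (0 : ℝ)..2 * Real.pi, exp (-(s * k * θ) * I) * (g θ : ℂ) =
      ((∫ θ in (0 : ℝ)..2 * Real.pi, g θ * Real.cos (k * θ + 0) : ℝ) : ℂ) +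
        s * I * ((∫ θ in (0 : ℝ)..2 * Real.pi, g θ * Real.cos (k * θ + Real.pi / 2) : ℝ) : ℂ) := by
  rw [← intervalIntegral.integral_ofReal, ← intervalIntegral.integral_ofReal,
    ← intervalIntegral.integral_const_mul, ← intervalIntegral.integral_add]
  · refine intervalIntegral.integral_congr fun θ _ => ?_
    simp only [add_zero, Real.cos_add_pi_div_two]
    rcases hs with rfl | rfl
    · have e : -(((1 : ℝ) : ℂ) * k * θ) * I = ((-(k * θ) : ℝ) : ℂ) * I := by push_cast; ring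
      rw [e, exp_mul_I, ← ofReal_cos, ← ofReal_sin, Real.cos_neg, Real.sin_neg]
      push_cast
      ring
    · have e : -(((-1 : ℝ) : ℂ) * k * θ) * I = ((k * θ : ℝ) : ℂ) * I := by push_cast; ring
      rw [e, exp_mul_I, ← ofReal_cos, ← ofReal_sin]
      push_cast
      ring
  · exact Continuous.intervalIntegrable (by fun_prop) _ _
  · exact Continuous.intervalIntegrable (by fun_prop) _ _

theorem Lead_fourier {G : ℂ → ℝ} (hG : ContinuousOn G (sphere 0 1)) (a b : ℕ → ℝ)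
    (ha : ∀ k : ℕ, ∫ θ in (0 : ℝ)..2 * Real.pi, G (exp (θ * I)) * Real.cos (k * θ + 0) = a k)
    (hb : ∀ k : ℕ,
      ∫ θ in (0 : ℝ)..2 * Real.pi, G (exp (θ * I)) * Real.cos (k * θ + Real.pi / 2) = b k)
    (sa : Summable a) (sb : Summable b) (θ : ℝ) :
    HasSum (fun k : ℕ => ((a k + I * b k) * exp (θ * I) ^ k).re / Real.pi)
      (G (exp (θ * I)) + a 0 / (2 * Real.pi)) := by
  have : Fact (0 < 2 * Real.pi) := ⟨Real.two_pi_pos⟩
  have hpi : (Real.pi : ℂ) ≠ 0 := ofReal_ne_zero.2 Real.pi_ne_zero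
  have hf : ∀ (n : ℤ) (x : ℝ), fourier n (x : AddCircle (2 * Real.pi)) = exp (n * x * I) := by
    intro n x
    rw [fourier_coe_apply]
    congr 1
    push_cast
    field_simp
  have hsph : ∀ x : AddCircle (2 * Real.pi), fourier 1 x ∈ sphere (0 : ℂ) 1 := by
    intro x
    rw [mem_sphere_zero_iff_norm]
    exact Circle.norm_coe _
  have hc : Continuous fun x : AddCircle (2 * Real.pi) => ((G (fourier 1 x) : ℝ) : ℂ) :=
    continuous_ofReal.comp (hG.comp_continuous (fourier 1).continuous hsph)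
  let F : C(AddCircle (2 * Real.pi), ℂ) := ⟨_, hc⟩
  have hF : ∀ x : ℝ, F (x : AddCircle (2 * Real.pi)) = (G (exp (x * I)) : ℂ) := by
    intro x
    change ((G (fourier 1 (x : AddCircle (2 * Real.pi))) : ℝ) : ℂ) = _
    rw [hf]
    simp
  have hg : Continuous fun x : ℝ => G (exp (x * I)) := by
    refine hG.comp_continuous (by fun_prop) fun x => ?_
    rw [mem_sphere_zero_iff_norm, norm_exp_ofReal_mul_I]
  have hco : ∀ (k : ℕ) (s : ℝ) (n : ℤ), s = 1 ∨ s = -1 → (n : ℂ) = s * k →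
      fourierCoeff F n = (a k + s * I * b k) / (2 * Real.pi) := by
    intro k s n hs hn
    rw [fourierCoeff_eq_intervalIntegral F n 0, zero_add, ← ha k, ← hb k, ← Lead_int hg k s hs]
    simp only [hf, hF, smul_eq_mul, real_smul]
    push_cast
    rw [hn]
    rw [one_div, mul_comm, div_eq_mul_inv]
    simp only [neg_mul]
  have hp : ∀ k : ℕ, fourierCoeff F k = (a k + I * b k) / (2 * Real.pi) := by
    intro k
    rw [hco k 1 k (Or.inl rfl) (by simp)]
    simp
  have hm : ∀ k : ℕ, fourierCoeff F (-k) = (a k - I * b k) / (2 * Real.pi) := by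
    intro k
    rw [hco k (-1) (-k) (Or.inr rfl) (by simp)]
    push_cast
    ring
  have sa' : Summable fun k => (a k : ℂ) := summable_ofReal.2 sa
  have sb' : Summable fun k => I * (b k : ℂ) := (summable_ofReal.2 sb).mul_left I
  have hs : Summable (fourierCoeff F) := by
    refine Summable.of_nat_of_neg ?_ ?_
    · simp only [hp]
      exact (sa'.add sb').div_const _
    · simp only [hm]
      exact (sa'.sub sb').div_const _
  have h1 := (has_pointwise_sum_fourier_series_of_summable hs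
    (θ : AddCircle (2 * Real.pi))).nat_add_neg
  have h2 := Complex.hasSum_re h1
  have e0 : (F (θ : AddCircle (2 * Real.pi)) +
      fourierCoeff F 0 • fourier 0 (θ : AddCircle (2 * Real.pi))).re =
      G (exp (θ * I)) + a 0 / (2 * Real.pi) := by
    have := hp 0
    rw [Nat.cast_zero] at this
    rw [this, hF, hf]
    have e : ((a 0 : ℂ) + I * b 0) / (2 * Real.pi) =
        ((a 0 / (2 * Real.pi) : ℝ) : ℂ) + ((b 0 / (2 * Real.pi) : ℝ) : ℂ) * I := by
      push_cast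
      ring
    rw [e]
    simp only [Int.cast_zero, zero_mul, Complex.exp_zero, smul_eq_mul, mul_one, add_re, ofReal_re,
      mul_re, I_re, mul_zero, ofReal_im, I_im, sub_zero, add_zero]
  rw [e0] at h2
  refine h2.congr_fun fun k => ?_
  rw [hp, hm, hf, hf]
  have e1 : exp (((k : ℤ) : ℂ) * θ * I) = exp (θ * I) ^ k := by
    rw [← exp_nat_mul]
    congr 1
    push_cast
    ring
  have e2 : exp (((-(k : ℤ) : ℤ) : ℂ) * θ * I) = conj (exp (θ * I) ^ k) := by
    rw [← exp_nat_mul, ← exp_conj]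
    congr 1
    simp only [map_mul, conj_ofReal, conj_I, conj_natCast]
    push_cast
    ring
  rw [e1, e2]
  have e3 : ((a k : ℂ) + I * b k) / (2 * Real.pi) * exp (θ * I) ^ k +
      ((a k : ℂ) - I * b k) / (2 * Real.pi) * conj (exp (θ * I) ^ k) =
      ((((a k + I * b k) * exp (θ * I) ^ k).re / Real.pi : ℝ) : ℂ) := by
    have e4 : ((a k : ℂ) - I * b k) = conj ((a k : ℂ) + I * b k) := by
      simp only [map_add, map_mul, conj_ofReal, conj_I]
      ring
    rw [ofReal_div, re_eq_add_conj, map_mul, ← e4]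
    field_simp
  simp only [smul_eq_mul]
  rw [e3, ofReal_re]

theorem Lead_J_le (k : ℕ) {r : ℝ} (hl : 0 ≤ lam) (hr : 0 ≤ r) (h : lam * r ^ 2 ≤ 1) :
    r ^ k / 2 ≤ J k lam r ∧ J k lam r ≤ 2 * r ^ k := by
  have h1 := abs_le.1 (J_bound k hl hr h)
  have h2 : 0 ≤ r ^ k := pow_nonneg hr k
  have h3 : lam * r ^ 2 / 2 * r ^ k ≤ 1 / 2 * r ^ k :=
    mul_le_mul_of_nonneg_right (by linarith) h2
  constructor <;> linarith [h1.1, h1.2]

theorem Lead_circ {p : ℂ} {R r : ℝ} (hr0 : 0 ≤ r) (hr : r ≤ R) {e : ℂ} (he : ‖e‖ = 1) :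
    p + r * e ∈ closedBall p R := by
  rw [mem_closedBall, dist_eq_norm, add_sub_cancel_left, norm_mul, he, mul_one, norm_real,
    Real.norm_eq_abs, abs_of_nonneg hr0]
  exact hr

theorem Lead_coef (h : Helm lam U w) (hl : 0 ≤ lam) {p : ℂ} {R : ℝ} (hR0 : 0 < R)
    (hR : closedBall p R ⊆ U) (hlR : lam * R ^ 2 ≤ 1) (α : ℝ) :
    ∃ (A : ℕ → ℝ) (M : ℝ), (∀ k, |A k| * R ^ k ≤ M) ∧
      ∀ k, ∀ r ∈ Ioc 0 R, cf w p k α r = A k * J k lam r := by
  choose A hA using fun k => cf_eq h hl hR hlR k α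
  obtain ⟨M, hM⟩ := (isCompact_closedBall p R).exists_bound_of_continuousOn
    (h.continuousOn.mono hR)
  refine ⟨A, 2 * (M * |2 * Real.pi - 0|), fun k => ?_, hA⟩
  have h1 : ‖cf w p k α R‖ ≤ M * |2 * Real.pi - 0| := by
    refine intervalIntegral.norm_integral_le_of_norm_le_const fun θ _ => ?_
    have h2 := hM _ (Lead_circ (p := p) hR0.le le_rfl (norm_exp_ofReal_mul_I θ))
    rw [norm_mul]
    have h3 : ‖Real.cos (k * θ + α)‖ ≤ 1 := Real.abs_cos_le_one _
    calc _ ≤ ‖w (p + R * exp (θ * I))‖ * 1 := mul_le_mul_of_nonneg_left h3 (norm_nonneg _)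
      _ ≤ M := by rw [mul_one]; exact h2
  obtain ⟨h4, -⟩ := Lead_J_le k hl hR0.le hlR
  have h5 : 0 < R ^ k := pow_pos hR0 k
  rw [hA k R ⟨hR0, le_rfl⟩, Real.norm_eq_abs, abs_mul, abs_of_nonneg (a := J k lam R)
    (by linarith)] at h1
  have h6 := mul_le_mul_of_nonneg_left h4 (abs_nonneg (A k))
  linarith

theorem Lead_summable (hl : 0 ≤ lam) {R r M : ℝ} (hr0 : 0 < r) (hr : r < R)
    (hlR : lam * R ^ 2 ≤ 1) {A : ℕ → ℝ} (hA : ∀ k, |A k| * R ^ k ≤ M) (k : ℕ) :
    |A k * J k lam r| ≤ 2 * M * (r / R) ^ k := by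
  have hR0 : 0 < R := hr0.trans hr
  have h0 : lam * r ^ 2 ≤ 1 :=
    (mul_le_mul_of_nonneg_left (pow_le_pow_left₀ hr0.le hr.le 2) hl).trans hlR
  obtain ⟨h1, h2⟩ := Lead_J_le k hl hr0.le h0
  have h3 : 0 < r ^ k := pow_pos hr0 k
  have h4 : 0 < R ^ k := pow_pos hR0 k
  rw [abs_mul, abs_of_nonneg (a := J k lam r) (by linarith), div_pow, ← mul_div_assoc,
    le_div_iff₀ h4]
  calc |A k| * J k lam r * R ^ k = (|A k| * R ^ k) * J k lam r := by ring
    _ ≤ M * (2 * r ^ k) :=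
      mul_le_mul (hA k) h2 (by linarith) ((mul_nonneg (abs_nonneg _) h4.le).trans (hA k))
    _ = 2 * M * r ^ k := by ring

theorem Lead_series (h : Helm lam U w) (hl : 0 ≤ lam) {p : ℂ} {R : ℝ} (hR0 : 0 < R)
    (hR : closedBall p R ⊆ U) (hlR : lam * R ^ 2 ≤ 1) :
    ∃ (b : ℕ → ℂ) (M : ℝ), b 0 = w p ∧ (∀ k, ‖b k‖ * R ^ k ≤ M) ∧ ∀ r ∈ Ioo 0 R, ∀ θ : ℝ,
      HasSum (fun k : ℕ => (b k * exp (θ * I) ^ k).re * J k lam r) (w (p + r * exp (θ * I))) := by
  obtain ⟨A, M, hAM, hA⟩ := Lead_coef h hl hR0 hR hlR 0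
  obtain ⟨B, N, hBN, hB⟩ := Lead_coef h hl hR0 hR hlR (Real.pi / 2)
  have hpi := Real.pi_pos
  have hM : 0 ≤ M := (mul_nonneg (abs_nonneg _) (pow_pos hR0 0).le).trans (hAM 0)
  have hN : 0 ≤ N := (mul_nonneg (abs_nonneg _) (pow_pos hR0 0).le).trans (hBN 0)
  refine ⟨fun k => if k = 0 then (w p : ℂ) else ((A k + I * B k) / Real.pi),
    ‖w p‖ + (M + N) / Real.pi, if_pos rfl, fun k => ?_, fun r hr θ => ?_⟩
  · have h0 : 0 ≤ (M + N) / Real.pi := div_nonneg (add_nonneg hM hN) hpi.le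
    by_cases hk : k = 0
    · subst hk
      simp only [if_true, norm_real, pow_zero, mul_one]
      linarith
    · simp only [if_neg hk]
      have h1 : ‖(A k : ℂ) + I * B k‖ ≤ |A k| + |B k| := by
        refine (norm_add_le _ _).trans ?_
        rw [norm_mul, norm_I, one_mul, norm_real, norm_real, Real.norm_eq_abs, Real.norm_eq_abs]
      have h2 := mul_le_mul_of_nonneg_right h1 (pow_pos hR0 k).le
      rw [norm_div, norm_real, Real.norm_eq_abs, abs_of_pos hpi, div_mul_eq_mul_div]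
      have h3 : ‖(A k : ℂ) + I * B k‖ * R ^ k / Real.pi ≤ (M + N) / Real.pi := by
        refine div_le_div_of_nonneg_right ?_ hpi.le
        nlinarith [hAM k, hBN k]
      linarith [norm_nonneg (w p)]
  · have hq0 : 0 ≤ r / R := div_nonneg hr.1.le hR0.le
    have hq1 : r / R < 1 := (div_lt_one hR0).2 hr.2
    have hgeo := summable_geometric_of_lt_one hq0 hq1
    have hG : ContinuousOn (fun z : ℂ => w (p + r * z)) (sphere 0 1) := by
      refine h.continuousOn.comp (by fun_prop) fun z hz => hR ?_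
      exact Lead_circ hr.1.le hr.2.le (mem_sphere_zero_iff_norm.1 hz)
    have h1 := Lead_fourier hG (fun k => A k * J k lam r) (fun k => B k * J k lam r)
      (fun k => hA k r ⟨hr.1, hr.2.le⟩) (fun k => hB k r ⟨hr.1, hr.2.le⟩)
      (Summable.of_norm_bounded (hgeo.mul_left (2 * M)) (Lead_summable hl hr.1 hr.2 hlR hAM))
      (Summable.of_norm_bounded (hgeo.mul_left (2 * N)) (Lead_summable hl hr.1 hr.2 hlR hBN)) θ
    have h2 := h1.sub (hasSum_ite_eq 0 (A 0 * J 0 lam r / (2 * Real.pi)))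
    rw [add_sub_cancel_right] at h2
    have h3 : A 0 * J 0 lam r = 2 * Real.pi * J 0 lam r * w p := by
      rw [← hA 0 r ⟨hr.1, hr.2.le⟩, ← circle_mean h hl hR hlR ⟨hr.1.le, hr.2.le⟩]
      simp [cf]
    refine h2.congr_fun fun k => ?_
    by_cases hk : k = 0
    · subst hk
      simp only [if_true, pow_zero, mul_one, ofReal_re, add_re, mul_re, I_re, zero_mul, I_im,
        ofReal_im, mul_zero, sub_zero, add_zero]
      rw [h3]
      field_simp
      ring
    · simp only [if_neg hk, sub_zero]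
      have e : (((A k * J k lam r : ℝ) : ℂ) + I * ((B k * J k lam r : ℝ) : ℂ)) * exp (θ * I) ^ k =
          ((Real.pi * J k lam r : ℝ) : ℂ) *
            (((A k : ℂ) + I * B k) / Real.pi * exp (θ * I) ^ k) := by
        have hpi' : (Real.pi : ℂ) ≠ 0 := ofReal_ne_zero.2 Real.pi_ne_zero
        push_cast
        field_simp
      rw [e, re_ofReal_mul]
      field_simp

theorem Lead_polar {p z : ℂ} : z = p + (‖z - p‖ : ℝ) * exp (arg (z - p) * I) := by
  rw [norm_mul_exp_arg_mul_I]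
  ring

theorem leading (h : Helm lam U w) (hl : 0 ≤ lam) {p : ℂ} {R : ℝ} (hR0 : 0 < R)
    (hR : closedBall p R ⊆ U) (hlR : lam * R ^ 2 ≤ 1) :
    (∀ z ∈ ball p R, w z = 0) ∨ ∃ (k : ℕ) (c : ℂ) (C ρ : ℝ), c ≠ 0 ∧ (k = 0 → c.im = 0) ∧ 0 < ρ ∧
      ∀ z ∈ ball p ρ, |w z - (c * (z - p) ^ k).re| ≤ C * ‖z - p‖ ^ (k + 1) := by
  classical
  obtain ⟨b, M, hb0, hM, hs⟩ := Lead_series h hl hR0 hR hlR
  by_cases hb : ∃ k, b k ≠ 0
  · right
    obtain ⟨k, hk, hlt⟩ : ∃ k, b k ≠ 0 ∧ ∀ j < k, b j = 0 :=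
      ⟨Nat.find hb, Nat.find_spec hb, fun j hj => not_not.1 (Nat.find_min hb hj)⟩
    have hM0 : 0 ≤ M := (mul_nonneg (norm_nonneg _) (pow_pos hR0 0).le).trans (hM 0)
    refine ⟨k, b k, ‖b k‖ * (lam * R) + 4 * M / R ^ (k + 1), R / 2, hk, fun h0 => ?_,
      half_pos hR0, fun z hz => ?_⟩
    · rw [h0, hb0, ofReal_im]
    by_cases hzp : z = p
    · subst hzp
      rw [sub_self, norm_zero, zero_pow (Nat.succ_ne_zero k), mul_zero]
      rcases Nat.eq_zero_or_pos k with h0 | h0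
      · subst h0
        rw [hb0]
        simp
      · have h1 := hlt 0 h0
        rw [hb0, ofReal_eq_zero] at h1
        rw [h1, zero_pow h0.ne']
        simp
    have hr0 : 0 < ‖z - p‖ := norm_pos_iff.2 (sub_ne_zero.2 hzp)
    have hr1 : ‖z - p‖ < R / 2 := by rwa [mem_ball, dist_eq_norm] at hz
    have hs1 := hs ‖z - p‖ ⟨hr0, by linarith⟩ (arg (z - p))
    rw [← Lead_polar] at hs1
    have ez : (b k * (z - p) ^ k).re = (b k * exp (arg (z - p) * I) ^ k).re * ‖z - p‖ ^ k := by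
      conv_lhs => rw [← norm_mul_exp_arg_mul_I (z - p)]
      rw [mul_pow, ← ofReal_pow, mul_left_comm, re_ofReal_mul, mul_comm]
    rw [ez]
    generalize ‖z - p‖ = r at hr0 hr1 hs1 ⊢
    have hre : ∀ j : ℕ, |(b j * exp (arg (z - p) * I) ^ j).re| ≤ ‖b j‖ := by
      intro j
      refine (abs_re_le_norm _).trans ?_
      rw [norm_mul, norm_pow, norm_exp_ofReal_mul_I, one_pow, mul_one]
    generalize exp (arg (z - p) * I) = e at hs1 hre ⊢
    have hrR : r < R := by linarith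
    have hlr : lam * r ^ 2 ≤ 1 :=
      (mul_le_mul_of_nonneg_left (pow_le_pow_left₀ hr0.le hrR.le 2) hl).trans hlR
    have h2 := (hasSum_nat_add_iff' (k + 1)).2 hs1
    have h3 : ∑ i ∈ Finset.range (k + 1), (b i * e ^ i).re * J i lam r =
        (b k * e ^ k).re * J k lam r := by
      rw [Finset.sum_range_succ, Finset.sum_eq_zero, zero_add]
      intro j hj
      rw [hlt j (Finset.mem_range.1 hj)]
      simp
    rw [h3] at h2
    have hq0 : 0 ≤ r / R := div_nonneg hr0.le hR0.le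
    have hq1 : r / R ≤ 1 / 2 := by rw [div_le_iff₀ hR0]; linarith
    have h4 : ∀ j : ℕ, ‖(b (j + (k + 1)) * e ^ (j + (k + 1))).re * J (j + (k + 1)) lam r‖ ≤
        2 * M * (r / R) ^ (k + 1) * (1 / 2) ^ j := by
      intro j
      have h5 := Lead_summable hl hr0 hrR hlR (A := fun j => (b j * e ^ j).re) (M := M)
        (fun i => (mul_le_mul_of_nonneg_right (hre i) (pow_pos hR0 i).le).trans (hM i))
        (j + (k + 1))
      refine h5.trans ?_
      rw [pow_add, mul_comm ((r / R) ^ j), ← mul_assoc]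
      exact mul_le_mul_of_nonneg_left (pow_le_pow_left₀ hq0 hq1 j)
        (mul_nonneg (by linarith) (pow_nonneg hq0 _))
    have h6 := h2.norm_le_of_bounded (hasSum_geometric_two.mul_left (2 * M * (r / R) ^ (k + 1))) h4
    have h7 : |(b k * e ^ k).re * J k lam r - (b k * e ^ k).re * r ^ k| ≤
        ‖b k‖ * (lam * R) * r ^ (k + 1) := by
      rw [← mul_sub, abs_mul, mul_assoc]
      refine mul_le_mul (hre k) ((J_bound k hl hr0.le hlr).trans ?_) (abs_nonneg _) (norm_nonneg _)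
      have h8 : 0 ≤ lam * r * r ^ k := mul_nonneg (mul_nonneg hl hr0.le) (pow_nonneg hr0.le k)
      calc lam * r ^ 2 / 2 * r ^ k = (lam * r * r ^ k) * (r / 2) := by ring
        _ ≤ (lam * r * r ^ k) * R := mul_le_mul_of_nonneg_left (by linarith) h8
        _ = lam * R * r ^ (k + 1) := by ring
    rw [Real.norm_eq_abs] at h6
    calc |w z - (b k * e ^ k).re * r ^ k|
        ≤ |w z - (b k * e ^ k).re * J k lam r| +
          |(b k * e ^ k).re * J k lam r - (b k * e ^ k).re * r ^ k| := abs_sub_le _ _ _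
      _ ≤ 2 * M * (r / R) ^ (k + 1) * 2 + ‖b k‖ * (lam * R) * r ^ (k + 1) := add_le_add h6 h7
      _ = (‖b k‖ * (lam * R) + 4 * M / R ^ (k + 1)) * r ^ (k + 1) := by
        rw [div_pow]
        ring
  · left
    have hb' : ∀ k, b k = 0 := fun k => not_not.1 fun hk => hb ⟨k, hk⟩
    intro z hz
    by_cases hzp : z = p
    · have h1 := hb' 0
      rwa [hb0, ofReal_eq_zero, ← hzp] at h1
    have hr0 : 0 < ‖z - p‖ := norm_pos_iff.2 (sub_ne_zero.2 hzp)
    have hr1 : ‖z - p‖ < R := by rwa [mem_ball, dist_eq_norm] at hz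
    have hs1 := hs ‖z - p‖ ⟨hr0, hr1⟩ (arg (z - p))
    rw [← Lead_polar] at hs1
    simp only [hb', zero_mul, zero_re] at hs1
    exact hs1.unique hasSum_zero

theorem Lead_dir {p c e : ℂ} {k : ℕ} {C ρ : ℝ} (hρ : 0 < ρ)
    (hw : ∀ z ∈ ball p ρ, |w z - (c * (z - p) ^ k).re| ≤ C * ‖z - p‖ ^ (k + 1))
    (he : 0 < (c * e ^ k).re) : ∃ᶠ z in 𝓝 p, 0 < w z := by
  have h1 : Tendsto (fun t : ℝ => p + t * e) (𝓝[>] 0) (𝓝 p) := by
    have h2 : Continuous fun t : ℝ => p + t * e := by fun_prop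
    have h3 := h2.tendsto 0
    simp only [ofReal_zero, zero_mul, add_zero] at h3
    exact h3.mono_left nhdsWithin_le_nhds
  have h4 : Tendsto (fun t : ℝ => C * ‖e‖ ^ (k + 1) * t) (𝓝[>] 0) (𝓝 0) := by
    have h2 : Continuous fun t : ℝ => C * ‖e‖ ^ (k + 1) * t := by fun_prop
    have h3 := h2.tendsto 0
    simp only [mul_zero] at h3
    exact h3.mono_left nhdsWithin_le_nhds
  refine h1.frequently (Eventually.frequently ?_)
  filter_upwards [h1.eventually (ball_mem_nhds p hρ), h4.eventually (gt_mem_nhds he),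
    self_mem_nhdsWithin] with t ht1 ht2 ht3
  have ht : 0 < t := ht3
  have h5 := (abs_le.1 (hw _ ht1)).1
  rw [add_sub_cancel_left, mul_pow, ← ofReal_pow, mul_left_comm, re_ofReal_mul, norm_mul, norm_real,
    Real.norm_eq_abs, abs_of_pos ht] at h5
  have h6 := mul_lt_mul_of_pos_left ht2 (pow_pos ht k)
  have h7 : C * (t * ‖e‖) ^ (k + 1) = t ^ k * (C * ‖e‖ ^ (k + 1) * t) := by ring
  linarith

theorem Lead_pos {p c : ℂ} {k : ℕ} {C ρ : ℝ} (hc : c ≠ 0) (hk : k = 0 → c.im = 0) (hρ : 0 < ρ)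
    (hw : ∀ z ∈ ball p ρ, |w z - (c * (z - p) ^ k).re| ≤ C * ‖z - p‖ ^ (k + 1)) (h0 : w p = 0) :
    ∃ᶠ z in 𝓝 p, 0 < w z := by
  rcases Nat.eq_zero_or_pos k with h1 | h1
  · exfalso
    have h2 := hw p (mem_ball_self hρ)
    rw [h0, h1, sub_self, norm_zero, pow_zero, mul_one, zero_sub, abs_neg, zero_add, pow_one,
      mul_zero, abs_nonpos_iff] at h2
    exact hc (Complex.ext h2 (hk h1))
  · obtain ⟨e, he⟩ := IsAlgClosed.exists_pow_nat_eq (conj c) h1
    refine Lead_dir (e := e) hρ hw ?_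
    rw [he, mul_conj, ofReal_re]
    exact normSq_pos.2 hc

theorem Lead_rad (h : Helm lam U w) (hl : 0 ≤ lam) {p : ℂ} (hp : p ∈ U) :
    ∃ R, 0 < R ∧ lam * R ^ 2 ≤ 1 ∧ ∀ q ∈ ball p R, closedBall q R ⊆ U := by
  obtain ⟨ε, hε, hU⟩ := Metric.isOpen_iff.1 h.isOpen p hp
  have h1 : 0 < 1 / (lam + 1) := by positivity
  refine ⟨min (ε / 2) (1 / (lam + 1)), lt_min (half_pos hε) h1, ?_, fun q hq z hz => hU ?_⟩
  · have h2 : min (ε / 2) (1 / (lam + 1)) ^ 2 ≤ (1 / (lam + 1)) ^ 2 :=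
      pow_le_pow_left₀ (lt_min (half_pos hε) h1).le (min_le_right _ _) 2
    refine (mul_le_mul_of_nonneg_left h2 hl).trans ?_
    rw [div_pow, one_pow, mul_one_div, div_le_one (by positivity)]
    nlinarith
  · rw [mem_ball] at hq ⊢
    rw [mem_closedBall] at hz
    have h2 := dist_triangle z q p
    have h3 := min_le_left (ε / 2) (1 / (lam + 1))
    linarith

theorem uc (h : Helm lam U w) (hl : 0 ≤ lam) (hc : IsPreconnected U) {p : ℂ} (hp : p ∈ U)
    (h0 : ∀ᶠ z in 𝓝 p, w z = 0) : ∀ z ∈ U, w z = 0 := by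
  have key : U ⊆ {x | ∀ᶠ z in 𝓝 x, w z = 0} := by
    refine hc.subset_of_closure_inter_subset isOpen_setOfPred_eventually_nhds ⟨p, hp, h0⟩ ?_
    rintro x ⟨hx, hxU⟩
    obtain ⟨R, hR0, hlR, hR⟩ := Lead_rad h hl hxU
    obtain ⟨y, hy, hxy⟩ := Metric.mem_closure_iff.1 hx R hR0
    have hy' : ∀ᶠ z in 𝓝 y, w z = 0 := hy
    rcases leading h hl hR0 (hR y (mem_ball'.2 hxy)) hlR with h1 | ⟨k, c, C, ρ, h1, h2, h3, h4⟩
    · exact Filter.eventually_of_mem (isOpen_ball.mem_nhds (mem_ball.2 hxy)) h1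
    · exfalso
      obtain ⟨z, hz1, hz2⟩ := ((Lead_pos h1 h2 h3 h4 hy'.self_of_nhds).and_eventually hy').exists
      exact hz1.ne' hz2
  intro z hz
  exact Eventually.self_of_nhds (p := fun z => w z = 0) (key hz)

theorem both_signs (h : Helm lam U w) (hl : 0 ≤ lam) (hc : IsPreconnected U) {p q : ℂ} (hp : p ∈ U)
    (hq : q ∈ U) (hq0 : w q ≠ 0) (h0 : w p = 0) :
    (∃ᶠ z in 𝓝 p, 0 < w z) ∧ ∃ᶠ z in 𝓝 p, w z < 0 := by
  obtain ⟨R, hR0, hlR, hR⟩ := Lead_rad h hl hp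
  rcases leading h hl hR0 (hR p (mem_ball_self hR0)) hlR with h1 | ⟨k, c, C, ρ, h1, h2, h3, h4⟩
  · exact absurd (uc h hl hc hp (Filter.eventually_of_mem (ball_mem_nhds p hR0) h1) q hq) hq0
  · refine ⟨Lead_pos h1 h2 h3 h4 h0, ?_⟩
    have h5 := Lead_pos (w := fun z => -w z) (p := p) (c := -c) (k := k) (C := C) (ρ := ρ)
      (neg_ne_zero.2 h1) (fun hk => by rw [neg_im, h2 hk, neg_zero]) h3 (fun z hz => by
        rw [neg_mul, neg_re, ← neg_sub', abs_neg]
        exact h4 z hz) (by rw [h0, neg_zero])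
    exact h5.mono fun z hz => neg_pos.1 hz

end Pool.Agent.L2K
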