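import Pool.Agent.P.MP_2f6447_an.K.Weyl
import Pool.Agent.P.MP_2f6447_an.K.Lead

/-! Odd reflection, zero Cauchy data, Liouville in a half plane. -/

open Set MeasureTheory Filter Topology Complex Metric
open scoped ContDiff ComplexConjugate

namespace Pool.Agent.L2K

variable {Ω U : Set ℂ} {lam : ℝ} {u w f g : ℂ → ℝ}

theorem Refl_cut : ∃ (χ : ℝ → ℝ) (M : ℝ), ContDiff ℝ ∞ χ ∧ (∀ t, -1 ≤ t → χ t = 0) ∧
    (∀ t, t ≤ -2 → χ t = 1) ∧
    ∀ t, |χ t| ≤ 1 ∧ |t * deriv χ t| ≤ M ∧ |t ^ 2 * deriv (deriv χ) t| ≤ M := by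
  set χ : ℝ → ℝ := fun t => Real.smoothTransition (-t - 1) with hχ
  have hs : ContDiff ℝ ∞ χ := Real.smoothTransition.contDiff.comp (by fun_prop)
  have h0 : ∀ t, -1 ≤ t → χ t = 0 := fun t ht => Real.smoothTransition.zero_of_nonpos (by linarith)
  have h1 : ∀ t, t ≤ -2 → χ t = 1 := fun t ht => Real.smoothTransition.one_of_one_le (by linarith)
  have hs1 : ContDiff ℝ ∞ (deriv χ) := (contDiff_infty_iff_deriv.1 hs).2
  have hs2 : ContDiff ℝ ∞ (deriv (deriv χ)) := (contDiff_infty_iff_deriv.1 hs1).2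
  have hz : ∀ t, t ∉ Icc (-2 : ℝ) (-1) → deriv χ t = 0 ∧ deriv (deriv χ) t = 0 := by
    intro t ht
    obtain ⟨c, hc⟩ : ∃ c : ℝ, χ =ᶠ[𝓝 t] fun _ => c := by
      rw [mem_Icc, not_and_or, not_le, not_le] at ht
      rcases ht with ht | ht
      · exact ⟨1, (eventually_lt_nhds ht).mono fun s hs => h1 s hs.le⟩
      · exact ⟨0, (eventually_gt_nhds ht).mono fun s hs => h0 s hs.le⟩
    have e1 := hc.deriv
    have e2 := e1.deriv
    exact ⟨by simpa using e1.eq_of_nhds, by simpa using e2.eq_of_nhds⟩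
  obtain ⟨A, hA⟩ := (isCompact_Icc (a := (-2 : ℝ)) (b := -1)).exists_bound_of_continuousOn
    (f := fun t => t * deriv χ t) (continuous_id.mul hs1.continuous).continuousOn
  obtain ⟨B, hB⟩ := (isCompact_Icc (a := (-2 : ℝ)) (b := -1)).exists_bound_of_continuousOn
    (f := fun t => t ^ 2 * deriv (deriv χ) t)
    ((continuous_id.pow 2).mul hs2.continuous).continuousOn
  refine ⟨χ, max (max A B) 0, hs, h0, h1, fun t => ⟨?_, ?_, ?_⟩⟩
  · rw [abs_of_nonneg (Real.smoothTransition.nonneg _)]
    exact Real.smoothTransition.le_one _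
  · by_cases ht : t ∈ Icc (-2 : ℝ) (-1)
    · exact (hA t ht).trans ((le_max_left _ _).trans (le_max_left _ _))
    · simp [(hz t ht).1]
  · by_cases ht : t ∈ Icc (-2 : ℝ) (-1)
    · exact (hB t ht).trans ((le_max_right _ _).trans (le_max_left _ _))
    · simp [(hz t ht).2]

theorem Refl_contDiff_D {ψ : ℂ → ℝ} (h : ContDiff ℝ ∞ ψ) (v : ℂ) : ContDiff ℝ ∞ (D v ψ) :=
  (h.fderiv_right (m := ∞) (by simp)).clm_apply contDiff_const

theorem Refl_continuous_lap {ψ : ℂ → ℝ} (h : ContDiff ℝ ∞ ψ) : Continuous (lap ψ) :=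
  (Refl_contDiff_D (Refl_contDiff_D h 1) 1).continuous.add
    (Refl_contDiff_D (Refl_contDiff_D h I) I).continuous

theorem Refl_off {ψ : ℂ → ℝ} {z : ℂ} (hz : z ∉ tsupport ψ) :
    ψ z = 0 ∧ D I ψ z = 0 ∧ lap ψ z = 0 := by
  have h : ψ =ᶠ[𝓝 z] fun _ => 0 := notMem_tsupport_iff_eventuallyEq.1 hz
  refine ⟨h.eq_of_nhds, ?_, ?_⟩
  · unfold D
    rw [h.fderiv_eq]
    simp
  · rw [lap_congr h]
    have e : ∀ v, D v (fun _ : ℂ => (0 : ℝ)) = fun _ => 0 := fun v => by
      funext x
      simp [D]
    simp [lap, e]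

theorem Refl_D_mul {β : ℝ → ℝ} {ψ : ℂ → ℝ} (hβ : Differentiable ℝ β) (hψ : Differentiable ℝ ψ)
    (v : ℂ) : D v (fun z => β z.im * ψ z) =
      fun z => v.im * (deriv β z.im * ψ z) + β z.im * D v ψ z := by
  funext z
  have h1 : HasFDerivAt (fun z : ℂ => β z.im) (deriv β z.im • imCLM) z :=
    (hβ z.im).hasDerivAt.comp_hasFDerivAt z imCLM.hasFDerivAt
  have h2 := h1.mul (hψ z).hasFDerivAt
  unfold D
  rw [show (fun z : ℂ => β z.im * ψ z) = (fun z : ℂ => β z.im) * ψ from rfl, h2.fderiv]
  simp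
  ring

theorem Refl_D_add (v : ℂ) {z : ℂ} (hf : DifferentiableAt ℝ f z) (hg : DifferentiableAt ℝ g z) :
    D v (fun x => f x + g x) z = D v f z + D v g z := by
  unfold D
  rw [fderiv_fun_add hf hg]
  simp

theorem Refl_lap_mul {β : ℝ → ℝ} {ψ : ℂ → ℝ} (hβ : ContDiff ℝ ∞ β) (hψ : ContDiff ℝ ∞ ψ) (z : ℂ) :
    lap (fun z => β z.im * ψ z) z =
      β z.im * lap ψ z + 2 * (deriv β z.im * D I ψ z) + deriv (deriv β) z.im * ψ z := by
  have b0 : Differentiable ℝ β := hβ.differentiable (by simp)
  have b1 : Differentiable ℝ (deriv β) := (contDiff_infty_iff_deriv.1 hβ).2.differentiable (by simp)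
  have p0 : Differentiable ℝ ψ := hψ.differentiable (by simp)
  have p1 : ∀ v, Differentiable ℝ (D v ψ) := fun v => (Refl_contDiff_D hψ v).differentiable (by simp)
  have him : Differentiable ℝ (fun z : ℂ => z.im) := imCLM.differentiable
  unfold lap
  rw [Refl_D_mul b0 p0 1, Refl_D_mul b0 p0 I]
  simp only [one_im, zero_mul, zero_add, I_im, one_mul]
  rw [Refl_D_mul b0 (p1 1) 1, Refl_D_add (f := fun z => deriv β z.im * ψ z)
      (g := fun z => β z.im * D I ψ z) I (((b1.comp him).mul p0) z) (((b0.comp him).mul (p1 I)) z),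
    Refl_D_mul b1 p0 I, Refl_D_mul b0 (p1 I) I]
  simp only [one_im, zero_mul, zero_add, I_im, one_mul]
  ring

/-- Green's formula below the axis when the boundary terms vanish. -/
theorem Refl_low (h : Helm lam (U ∩ {z | z.im < 0}) w) {ψ : ℂ → ℝ} (hψ : ContDiff ℝ ∞ ψ)
    (hc : HasCompactSupport ψ) (hs : tsupport ψ ⊆ U) {C : ℝ}
    (hb : ∀ z ∈ tsupport ψ, z.im < 0 →
      |w z| ≤ C ∧ |w z * ψ z| ≤ C * z.im ^ 2 ∧ |w z * D I ψ z| ≤ C * |z.im|) :
    ∫ z in U ∩ {z | z.im < 0}, w z * (lap ψ z + lam * ψ z) = 0 := by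
  obtain ⟨χ, M, hχ, h0, h1, hM⟩ := Refl_cut
  set V := U ∩ {z : ℂ | z.im < 0} with hV
  have hVm : MeasurableSet V := h.isOpen.measurableSet
  let c : ℕ → ℝ := fun n => n + 1
  have c0 : ∀ n, 0 < c n := fun n => by positivity
  let β : ℕ → ℝ → ℝ := fun n t => χ (c n * t)
  have hβ : ∀ n, ContDiff ℝ ∞ (β n) := fun n => hχ.comp (by fun_prop)
  have d1 : ∀ n, deriv (β n) = fun t => c n * deriv χ (c n * t) := fun n => by
    funext t
    exact deriv_comp_mul_left (c n) χ t
  have d2 : ∀ n t, deriv (deriv (β n)) t = c n * (c n * deriv (deriv χ) (c n * t)) := fun n t => by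
    rw [d1, deriv_const_mul_field]
    congr 1
    exact deriv_comp_mul_left (c n) (deriv χ) t
  let φ : ℕ → ℂ → ℝ := fun n z => β n z.im * ψ z
  have hφ : ∀ n, ContDiff ℝ ∞ (φ n) := fun n => ((hβ n).comp imCLM.contDiff).mul hψ
  have hφs : ∀ n, tsupport (φ n) ⊆ V := by
    intro n
    have k1 : tsupport (φ n) ⊆ tsupport ψ ∩ {z : ℂ | c n * z.im ≤ -1} := by
      refine closure_minimal (fun z hz => ?_) ((isClosed_tsupport ψ).inter
        (isClosed_le (by fun_prop) continuous_const))
      have hz' : β n z.im * ψ z ≠ 0 := hz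
      refine ⟨subset_tsupport ψ (right_ne_zero_of_mul hz'), ?_⟩
      by_contra k
      exact left_ne_zero_of_mul hz' (h0 _ (not_le.1 k).le)
    intro z hz
    refine ⟨hs (k1 hz).1, ?_⟩
    have k2 : c n * z.im ≤ -1 := (k1 hz).2
    by_contra k
    have : 0 ≤ c n * z.im := mul_nonneg (c0 n).le (not_lt.1 k)
    linarith
  have hzero : ∀ n, ∫ z in V, w z * (lap (φ n) z + lam * φ n z) = 0 := by
    intro n
    rw [setIntegral_eq_integral_of_forall_compl_eq_zero fun z hz => by
      obtain ⟨e1, -, e2⟩ := Refl_off fun k => hz (hφs n k)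
      simp [e1, e2]]
    exact h.vweak _ (hφ n) hc.mul_left (hφs n)
  have hL : Continuous fun z => lap ψ z + lam * ψ z :=
    (Refl_continuous_lap hψ).add (continuous_const.mul hψ.continuous)
  obtain ⟨B, hB⟩ := hc.isCompact.exists_bound_of_continuousOn hL.continuousOn
  have form : ∀ n z, w z * (lap (φ n) z + lam * φ n z) =
      β n z.im * (w z * (lap ψ z + lam * ψ z)) + 2 * (deriv (β n) z.im * (w z * D I ψ z)) +
        deriv (deriv (β n)) z.im * (w z * ψ z) := fun n z => by
    rw [show lap (φ n) z = _ from Refl_lap_mul (hβ n) hψ z]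
    simp only [φ]
    ring
  have key := tendsto_integral_of_dominated_convergence (μ := volume.restrict V)
    (F := fun n z => w z * (lap (φ n) z + lam * φ n z))
    (f := fun z => w z * (lap ψ z + lam * ψ z))
    ((tsupport ψ).indicator fun _ => C * B + 2 * (C * M) + C * M)
    (fun n => (h.continuousOn.mul ((Refl_continuous_lap (hφ n)).add
      (continuous_const.mul (hφ n).continuous)).continuousOn).aestronglyMeasurable hVm)
    (((integrable_indicator_iff (isClosed_tsupport ψ).measurableSet).2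
      (integrableOn_const hc.isCompact.measure_lt_top.ne)).integrableOn)
    (fun n => (ae_restrict_iff' hVm).2 (Eventually.of_forall fun z hz => by
      rw [form]
      by_cases k : z ∈ tsupport ψ
      · rw [indicator_of_mem k]
        obtain ⟨k1, k2, k3⟩ := hb z k hz.2
        obtain ⟨m1, m2, m3⟩ := hM (c n * z.im)
        have C0 : 0 ≤ C := (abs_nonneg _).trans k1
        have a1 : |β n z.im * (w z * (lap ψ z + lam * ψ z))| ≤ C * B := by
          rw [abs_mul, abs_mul]
          calc _ ≤ 1 * (C * B) := mul_le_mul m1 (mul_le_mul k1 (hB z k) (abs_nonneg _) C0)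
                (by positivity) zero_le_one
            _ = _ := one_mul _
        have a2 : |deriv (β n) z.im * (w z * D I ψ z)| ≤ C * M := by
          rw [abs_mul, d1]
          calc _ ≤ |c n * deriv χ (c n * z.im)| * (C * |z.im|) :=
                mul_le_mul_of_nonneg_left k3 (abs_nonneg _)
            _ = C * |c n * z.im * deriv χ (c n * z.im)| := by simp only [abs_mul]; ring
            _ ≤ _ := mul_le_mul_of_nonneg_left m2 C0
        have a3 : |deriv (deriv (β n)) z.im * (w z * ψ z)| ≤ C * M := by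
          rw [abs_mul, d2]
          calc _ ≤ |c n * (c n * deriv (deriv χ) (c n * z.im))| * (C * z.im ^ 2) :=
                mul_le_mul_of_nonneg_left k2 (abs_nonneg _)
            _ = C * |(c n * z.im) ^ 2 * deriv (deriv χ) (c n * z.im)| := by
                simp only [abs_mul, abs_pow, mul_pow, sq_abs, abs_of_pos (c0 n)]
                ring
            _ ≤ _ := mul_le_mul_of_nonneg_left m3 C0
        rw [Real.norm_eq_abs, abs_le]
        rw [abs_le] at a1 a2 a3
        constructor <;> linarith [a1.1, a1.2, a2.1, a2.2, a3.1, a3.2]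
      · obtain ⟨e1, e2, e3⟩ := Refl_off k
        simp [indicator_of_notMem k, e1, e2, e3]))
    ((ae_restrict_iff' hVm).2 (Eventually.of_forall fun z hz => by
      have hz2 : z.im < 0 := hz.2
      refine tendsto_const_nhds.congr' ?_
      have k1 : Tendsto (fun n => c n * z.im) atTop atBot :=
        (tendsto_atTop_add_const_right atTop 1 tendsto_natCast_atTop_atTop).atTop_mul_const_of_neg hz2
      filter_upwards [k1.eventually (eventually_lt_atBot (-2))] with n hn
      have k2 : β n =ᶠ[𝓝 z.im] fun _ => 1 := by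
        have : ∀ᶠ t in 𝓝 z.im, c n * t < -2 :=
          (by fun_prop : Continuous fun t : ℝ => c n * t).continuousAt.eventually_lt
            continuousAt_const hn
        exact this.mono fun t ht => h1 _ ht.le
      have e0 : β n z.im = 1 := k2.eq_of_nhds
      have e1 : deriv (β n) z.im = 0 := by simpa using k2.deriv.eq_of_nhds
      have e2 : deriv (deriv (β n)) z.im = 0 := by simpa using k2.deriv.deriv.eq_of_nhds
      rw [form, e0, e1, e2]
      ring))
  simp only [hzero] at key
  exact (tendsto_nhds_unique tendsto_const_nhds key).symm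

theorem Refl_lap_conj (φ : ℂ → ℝ) (z : ℂ) : lap (fun x => φ (conj x)) z = lap φ (conj z) := by
  have e : ∀ (f : ℂ → ℝ) (v x : ℂ), D v (fun x => f (conj x)) x = D (conj v) f (conj x) := by
    intro f v x
    rw [D_eq_dot, D_eq_dot, grad_conj]
    simp [dot]
  have e1 : D 1 (fun x => φ (conj x)) = fun x => D 1 φ (conj x) := by
    funext x
    simp [e]
  have e2 : D I (fun x => φ (conj x)) = fun x => D (-I) φ (conj x) := by
    funext x
    simp [e]
  have e3 : D (-I) φ = fun x => -D I φ x := by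
    funext x
    simp [D]
  unfold lap
  rw [e1, e2, e, e, e3]
  simp [D]
  rfl

theorem Refl_dist_re (z : ℂ) : dist z (z.re : ℂ) = |z.im| := by
  rw [dist_eq_norm]
  have : z - (z.re : ℂ) = z.im * I := by
    apply Complex.ext <;> simp
  rw [this]
  simp

theorem lipschitz_oddE {K : NNReal} (hw : LipschitzWith K w) (h0 : ∀ x : ℝ, w x = 0) :
    LipschitzWith K (oddE w) := by
  have hb : ∀ z : ℂ, ∀ x : ℝ, |w z| ≤ K * dist z x := fun z x => by
    have := hw.dist_le_mul z x
    rwa [h0, Real.dist_eq, sub_zero] at this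
  have hcj : ∀ a b : ℂ, dist (conj a) (conj b) = dist a b := fun a b => Complex.dist_conj_conj a b
  have key : ∀ a b : ℂ, a.im ≤ 0 → 0 < b.im → dist (w a) (-w (conj b)) ≤ K * dist a b := by
    intro a b ha hb'
    have hd : 0 < b.im - a.im := by linarith
    set t : ℝ := -a.im / (b.im - a.im) with ht
    have t0 : 0 ≤ t := div_nonneg (by linarith) hd.le
    have t1 : t ≤ 1 := (div_le_one hd).2 (by linarith)
    set x : ℝ := a.re + t * (b.re - a.re) with hx
    have ex : (x : ℂ) = a + t * (b - a) := by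
      apply Complex.ext
      · simp [hx]
      · simp only [ofReal_im, add_im, mul_im, ofReal_re, sub_im, sub_re, zero_mul, add_zero, ht]
        field_simp
        ring
    have e1 : dist a x = t * dist a b := by
      rw [ex, dist_eq_norm, dist_eq_norm, show a - (a + t * (b - a)) = t * (a - b) by ring, norm_mul,
        Complex.norm_real, Real.norm_of_nonneg t0]
    have e2 : dist b x = (1 - t) * dist a b := by
      rw [ex, dist_eq_norm, dist_eq_norm,
        show b - (a + t * (b - a)) = ((1 - t : ℝ) : ℂ) * (b - a) by push_cast; ring, norm_mul,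
        Complex.norm_real, Real.norm_of_nonneg (by linarith), norm_sub_rev]
    have k1 := hb a x
    have k2 := hb (conj b) x
    rw [← conj_ofReal x, hcj, e2] at k2
    rw [e1] at k1
    rw [Real.dist_eq, sub_neg_eq_add]
    have := abs_add_le (w a) (w (conj b))
    linarith
  refine LipschitzWith.of_dist_le_mul fun a b => ?_
  unfold oddE
  split_ifs with ha hb' hb'
  · exact hw.dist_le_mul a b
  · exact key a b ha (not_le.1 hb')
  · rw [dist_comm, dist_comm a]
    exact key b a hb' (not_le.1 ha)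
  · rw [dist_neg_neg, ← hcj a b]
    exact hw.dist_le_mul _ _

theorem helm_oddE (hU : IsOpen U) (hs : ∀ z ∈ U, conj z ∈ U) (hl : 0 ≤ lam) {K : NNReal}
    (hw : LipschitzWith K w) (h : Helm lam (U ∩ {z | z.im < 0}) w)
    (h0 : ∀ z ∈ U, z.im = 0 → w z = 0) : Helm lam U (oddE w) := by
  have hwc := hw.continuous
  refine weyl_cont hU hl ?_ fun φ hφ hc hφs => ?_
  · refine ContinuousOn.if (p := fun z : ℂ => z.im ≤ 0) (fun a ha => ?_) hwc.continuousOn
      (hwc.comp continuous_conj).neg.continuousOn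
    have k : a.im = 0 := frontier_le_subset_eq continuous_im continuous_const ha.2
    rw [h0 a ha.1 k, h0 _ (hs a ha.1) (by simp [k]), neg_zero]
  set V := U ∩ {z : ℂ | z.im < 0} with hV
  have hVm : MeasurableSet V := h.isOpen.measurableSet
  let φ' : ℂ → ℝ := fun z => φ (conj z)
  have hφ' : ContDiff ℝ ∞ φ' := hφ.comp conjCLE.contDiff
  have hc' : HasCompactSupport φ' := hc.comp_homeomorph conjCLE.toHomeomorph
  have hφs' : tsupport φ' ⊆ U := by
    intro z hz
    have k : tsupport φ' ⊆ (fun z => conj z) ⁻¹' tsupport φ :=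
      closure_minimal (fun x hx => subset_tsupport φ hx)
        ((isClosed_tsupport φ).preimage continuous_conj)
    simpa using hs _ (hφs (k hz))
  let ψ : ℂ → ℝ := fun z => φ z + -1 * φ' z
  have hψ : ContDiff ℝ ∞ ψ := hφ.add (contDiff_const.mul hφ')
  have hcψ : HasCompactSupport ψ := hc.add hc'.mul_left
  have hψs : tsupport ψ ⊆ U := by
    have k : tsupport ψ ⊆ tsupport φ ∪ tsupport φ' :=
      closure_minimal (fun x hx => by
        by_contra k
        rw [mem_union, not_or] at k
        exact hx (by simp [ψ, (Refl_off k.1).1, (Refl_off k.2).1]))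
        ((isClosed_tsupport φ).union (isClosed_tsupport φ'))
    exact k.trans (union_subset hφs hφs')
  obtain ⟨L, hL⟩ := hψ.lipschitzWith_of_hasCompactSupport hcψ (by simp)
  obtain ⟨B, hB⟩ := hcψ.isCompact.exists_bound_of_continuousOn hwc.continuousOn
  obtain ⟨δ, hδ, hδU⟩ := hcψ.isCompact.exists_cthickening_subset_open hU hψs
  set A : ℝ := max K (max B 0 / δ) with hA
  have A0 : 0 ≤ A := K.2.trans (le_max_left _ _)
  have hlow := Refl_low h hψ hcψ hψs (C := max B (A * L)) fun z hz _ => by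
    have k1 : |w z| ≤ A * |z.im| := by
      by_cases k : |z.im| ≤ δ
      · have k2 : (z.re : ℂ) ∈ U := hδU (mem_cthickening_of_dist_le _ z δ _ hz
          (by rw [dist_comm, Refl_dist_re]; exact k))
        have := hw.dist_le_mul z z.re
        rw [h0 _ k2 (by simp), Real.dist_eq, sub_zero, Refl_dist_re] at this
        exact this.trans (mul_le_mul_of_nonneg_right (le_max_left _ _) (abs_nonneg _))
      · calc |w z| ≤ max B 0 := (hB z hz).trans (le_max_left _ _)
          _ = max B 0 / δ * δ := by field_simp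
          _ ≤ A * |z.im| := mul_le_mul (le_max_right _ _) (not_le.1 k).le hδ.le A0
    have k2 : |ψ z| ≤ L * |z.im| := by
      have := hL.dist_le_mul z z.re
      rwa [show ψ (z.re : ℂ) = 0 by simp [ψ, φ'], Real.dist_eq, sub_zero, Refl_dist_re] at this
    have k3 : |D I ψ z| ≤ L := by
      rw [D_eq_dot]
      refine (abs_dot_le _ _).trans ?_
      simpa using norm_grad_le hL z
    refine ⟨(hB z hz).trans (le_max_left _ _), ?_, ?_⟩
    · rw [abs_mul]
      calc _ ≤ A * |z.im| * (L * |z.im|) := mul_le_mul k1 k2 (abs_nonneg _) (by positivity)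
        _ = A * L * z.im ^ 2 := by rw [← sq_abs z.im]; ring
        _ ≤ _ := mul_le_mul_of_nonneg_right (le_max_right _ _) (sq_nonneg _)
    · rw [abs_mul]
      calc _ ≤ A * |z.im| * L := mul_le_mul k1 k3 (abs_nonneg _) (by positivity)
        _ = A * L * |z.im| := by ring
        _ ≤ _ := mul_le_mul_of_nonneg_right (le_max_right _ _) (abs_nonneg _)
  have hint : ∀ {ρ : ℂ → ℝ}, ContDiff ℝ ∞ ρ → HasCompactSupport ρ →
      Integrable fun z => w z * (lap ρ z + lam * ρ z) := by
    intro ρ h1 h2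
    refine (hwc.mul ((Refl_continuous_lap h1).add
      (continuous_const.mul h1.continuous))).integrable_of_hasCompactSupport ?_
    refine HasCompactSupport.intro h2.isCompact fun z hz => ?_
    obtain ⟨e1, -, e2⟩ := Refl_off hz
    simp [e1, e2]
  let P : ℂ → ℝ := V.indicator fun z => w z * (lap φ z + lam * φ z)
  let Q : ℂ → ℝ := V.indicator fun z => w z * (lap φ' z + lam * φ' z)
  have hP : Integrable P := (hint hφ hc).indicator hVm
  have hQ : Integrable Q := (hint hφ' hc').indicator hVm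
  have mp : MeasurePreserving conjLIE volume volume := conjLIE.measurePreserving
  have me : MeasurableEmbedding conjLIE := conjLIE.toHomeomorph.measurableEmbedding
  have hQ' : Integrable fun z => Q (conj z) := (mp.integrable_comp_emb me).2 hQ
  have eQ : ∫ z, Q (conj z) = ∫ z, Q z := mp.integral_comp me Q
  have split : ∀ z, oddE w z * (lap φ z + lam * φ z) = P z - Q (conj z) := by
    intro z
    have e1 : lap φ' (conj z) = lap φ z := by rw [Refl_lap_conj]; simp
    have e2 : φ' (conj z) = φ z := by simp [φ']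
    by_cases hz : z ∈ U
    · rcases lt_trichotomy z.im 0 with k | k | k
      · have k1 : z ∈ V := ⟨hz, k⟩
        have k2 : conj z ∉ V := fun k' => by
          have : (conj z).im < 0 := k'.2
          simp at this
          linarith
        simp [P, Q, indicator_of_mem k1, indicator_of_notMem k2, oddE, k.le]
      · have k1 : z ∉ V := fun k' => absurd k (ne_of_lt k'.2)
        have k2 : conj z ∉ V := fun k' => by
          have : (conj z).im < 0 := k'.2
          simp [k] at this
        simp [P, Q, indicator_of_notMem k1, indicator_of_notMem k2, oddE, k.le, h0 z hz k]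
      · have k1 : z ∉ V := fun k' => absurd k (not_lt.2 (le_of_lt k'.2))
        have k2 : conj z ∈ V := ⟨hs z hz, by simpa using k⟩
        simp only [P, Q, indicator_of_notMem k1, indicator_of_mem k2, oddE, not_le.2 k, if_false,
          e1, e2]
        ring
    · obtain ⟨a1, -, a2⟩ := Refl_off fun k => hz (hφs k)
      have k1 : z ∉ V := fun k' => hz k'.1
      have k2 : conj z ∉ V := fun k' => hz (by simpa using hs _ k'.1)
      simp [P, Q, indicator_of_notMem k1, indicator_of_notMem k2, a1, a2]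
  simp only [split]
  rw [integral_sub hP hQ', eQ, integral_indicator hVm, integral_indicator hVm,
    ← integral_sub (hint hφ hc).integrableOn (hint hφ' hc').integrableOn, ← hlow]
  refine integral_congr_ae (Eventually.of_forall fun z => ?_)
  have e : lap ψ z = lap φ z + -1 * lap φ' z := by
    rw [← lap_const_mul]
    exact lap_add (hφ.contDiffAt.of_le (by norm_cast))
      ((contDiff_const.mul hφ').contDiffAt.of_le (by norm_cast))
  simp only [e, ψ]
  ring

theorem Refl_vert {ρ x y A : ℝ} (h : Helm lam (ball 0 ρ) f) (hy : y ≤ 0)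
    (hm : ∀ s ∈ Icc y 0, (⟨x, s⟩ : ℂ) ∈ ball (0 : ℂ) ρ) (h0 : f ⟨x, 0⟩ = 0)
    (hA : ∀ s ∈ Icc y 0, |D I f ⟨x, s⟩| ≤ A) : |f ⟨x, y⟩| ≤ A * |y| := by
  have := norm_image_sub_le_of_norm_deriv_le_segment' (f := fun s : ℝ => f ⟨x, s⟩)
    (f' := fun s => D I f ⟨x, s⟩) (a := y) (b := 0) (C := A)
    (fun s hs => (hasDerivAt_im (h.differentiableAt (hm s hs))).hasDerivWithinAt)
    (fun s hs => hA s (Ico_subset_Icc_self hs)) 0 ⟨hy, le_rfl⟩
  rw [abs_of_nonpos hy]
  simpa [h0] using this

theorem Refl_cauchy {ρ : ℝ} (h : Helm lam (ball 0 ρ) w) (hl : 0 ≤ lam)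
    (h0 : ∀ z ∈ ball (0 : ℂ) ρ, z.im = 0 → w z = 0 ∧ D I w z = 0) :
    ∀ z ∈ ball (0 : ℂ) ρ, w z = 0 := by
  intro z0 hz0
  have hρ : 0 < ρ := pos_of_mem_ball hz0
  set V := ball (0 : ℂ) ρ ∩ {z : ℂ | z.im < 0} with hV
  have hVo : IsOpen V := isOpen_ball.inter (isOpen_lt continuous_im continuous_const)
  have hV' : Helm lam V w := h.mono hVo inter_subset_left
  let W : ℂ → ℝ := fun z => if z.im ≤ 0 then w z else 0
  have hW : Helm lam (ball 0 ρ) W := by
    refine weyl_cont isOpen_ball hl ?_ fun φ hφ hc hφs => ?_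
    · refine ContinuousOn.if (p := fun z : ℂ => z.im ≤ 0) (fun a ha => ?_)
        (h.continuousOn.mono inter_subset_left) continuousOn_const
      exact (h0 a ha.1 (frontier_le_subset_eq continuous_im continuous_const ha.2)).1
    obtain ⟨r, hr, hrs⟩ := exists_lt_subset_ball (isClosed_tsupport φ) hφs
    have hsub : closedBall (0 : ℂ) r ⊆ ball 0 ρ := closedBall_subset_ball hr
    obtain ⟨A, hA⟩ := (isCompact_closedBall (0 : ℂ) r).exists_bound_of_continuousOn
      (((h.of_D I).of_D I).continuousOn.mono hsub)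
    obtain ⟨B, hB⟩ := (isCompact_closedBall (0 : ℂ) r).exists_bound_of_continuousOn
      (h.continuousOn.mono hsub)
    obtain ⟨B1, hB1⟩ := hc.isCompact.exists_bound_of_continuousOn hφ.continuous.continuousOn
    obtain ⟨B2, hB2⟩ := hc.isCompact.exists_bound_of_continuousOn
      (Refl_contDiff_D hφ I).continuous.continuousOn
    have hlow := Refl_low hV' hφ hc hφs (C := max B (max (A * B1) (A * ρ * B2))) fun z hz hz' => by
      have hzr : z ∈ closedBall (0 : ℂ) r := ball_subset_closedBall (hrs hz)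
      have hm : ∀ s ∈ Icc z.im 0, (⟨z.re, s⟩ : ℂ) ∈ closedBall (0 : ℂ) r := by
        intro s hs
        rw [mem_closedBall_zero_iff] at hzr ⊢
        refine le_trans ?_ hzr
        rw [← sq_le_sq₀ (norm_nonneg _) (norm_nonneg _), Complex.sq_norm, Complex.sq_norm,
          normSq_apply, normSq_apply]
        nlinarith [hs.1, hs.2]
      have A0 : 0 ≤ A := (norm_nonneg _).trans (hA z hzr)
      have z0 := h0 _ (hsub (hm 0 ⟨hz'.le, le_rfl⟩)) rfl
      have k1 : |w z| ≤ A * |z.im| * |z.im| :=
        Refl_vert h hz'.le (fun s hs => hsub (hm s hs)) z0.1 fun s hs =>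
          (Refl_vert (h.of_D I) hs.2 (fun t ht => hsub (hm t ⟨hs.1.trans ht.1, ht.2⟩)) z0.2
            fun t ht => hA _ (hm t ⟨hs.1.trans ht.1, ht.2⟩)).trans
            (mul_le_mul_of_nonneg_left (by
              rw [abs_of_nonpos hs.2, abs_of_nonpos hz'.le]; linarith [hs.1]) A0)
      have k2 : |z.im| ≤ ρ := (abs_im_le_norm z).trans (mem_ball_zero_iff.1 (hsub hzr)).le
      refine ⟨(hB z hzr).trans (le_max_left _ _), ?_, ?_⟩
      · rw [abs_mul]
        calc _ ≤ A * |z.im| * |z.im| * B1 := mul_le_mul k1 (hB1 z hz) (abs_nonneg _) (by positivity)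
          _ = A * B1 * z.im ^ 2 := by rw [← sq_abs z.im]; ring
          _ ≤ _ := mul_le_mul_of_nonneg_right ((le_max_left _ _).trans (le_max_right _ _))
              (sq_nonneg _)
      · rw [abs_mul]
        calc _ ≤ A * ρ * |z.im| * B2 := mul_le_mul (k1.trans (by gcongr)) (hB2 z hz)
              (abs_nonneg _) (by positivity)
          _ = A * ρ * B2 * |z.im| := by ring
          _ ≤ _ := mul_le_mul_of_nonneg_right ((le_max_right _ _).trans (le_max_right _ _))
              (abs_nonneg _)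
    rw [← hlow, ← integral_indicator hVo.measurableSet]
    refine integral_congr_ae (Eventually.of_forall fun z => ?_)
    by_cases hz : z ∈ ball (0 : ℂ) ρ
    · rcases lt_trichotomy z.im 0 with k | k | k
      · have k1 : z ∈ V := ⟨hz, k⟩
        simp [W, indicator_of_mem k1, k.le]
      · have k1 : z ∉ V := fun k' => absurd k (ne_of_lt k'.2)
        simp [W, indicator_of_notMem k1, k.le, (h0 z hz k).1]
      · have k1 : z ∉ V := fun k' => absurd k (not_lt.2 (le_of_lt k'.2))
        simp [W, indicator_of_notMem k1, not_le.2 k]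
    · obtain ⟨a1, -, a2⟩ := Refl_off fun k => hz (hφs k)
      have k1 : z ∉ V := fun k' => hz k'.1
      simp [indicator_of_notMem k1, a1, a2]
  have hpc : IsPreconnected (ball (0 : ℂ) ρ) := (convex_ball _ _).isPreconnected
  have hq : ∀ s : ℝ, |s| < ρ → (⟨0, s⟩ : ℂ) ∈ ball (0 : ℂ) ρ := fun s hs => by
    rw [mem_ball_zero_iff, show (⟨0, s⟩ : ℂ) = s * I by apply Complex.ext <;> simp]
    simpa using hs
  have W0 := uc hW hl hpc (hq (ρ / 2) (by rw [abs_of_pos (by positivity)]; linarith)) (by
    have : ∀ᶠ z : ℂ in 𝓝 ⟨0, ρ / 2⟩, 0 < z.im :=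
      continuousAt_const.eventually_lt continuous_im.continuousAt (by positivity)
    exact this.mono fun z hz => by simp [W, not_le.2 hz])
  have hp := hq (-(ρ / 2)) (by rw [abs_neg, abs_of_pos (by positivity)]; linarith)
  refine uc h hl hpc hp ?_ z0 hz0
  have : V ∈ 𝓝 (⟨0, -(ρ / 2)⟩ : ℂ) := hVo.mem_nhds ⟨hp, by
    change -(ρ / 2) < 0
    linarith⟩
  filter_upwards [this] with z hz
  have k : z.im ≤ 0 := le_of_lt hz.2
  simpa [W, k] using W0 z hz.1

theorem cauchy_zero {p : ℂ} {ρ : ℝ} (h : Helm lam (ball p ρ) w) (hl : 0 ≤ lam)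
    (h0 : ∀ z ∈ ball p ρ, z.im = p.im → w z = 0 ∧ D I w z = 0) : ∀ z ∈ ball p ρ, w z = 0 := by
  have e : sim p 1 ⁻¹' ball p ρ = ball 0 ρ := by
    ext z
    simp [sim]
  have h1 := h.of_sim p one_ne_zero
  rw [e, norm_one, one_pow, mul_one] at h1
  have h2 := Refl_cauchy h1 hl fun z hz k => by
    have k1 := h0 (sim p 1 z) (by rw [← e] at hz; exact hz) (by simp [sim, k])
    refine ⟨k1.1, ?_⟩
    rw [D_eq_dot, grad_sim w p one_ne_zero, map_one, one_mul, ← D_eq_dot]
    exact k1.2
  intro z hz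
  have := h2 (z - p) (by simpa [dist_eq_norm] using hz)
  simpa [sim] using this

theorem liouville_half {K : NNReal} (hw : LipschitzWith K w) (h : Helm 0 {z | z.im < 0} w)
    (h0 : ∀ z : ℂ, 0 ≤ z.im → w z = 0) : ∃ a : ℝ, ∀ z : ℂ, w z = a * min z.im 0 := by
  have hW : Helm 0 univ (oddE w) := helm_oddE isOpen_univ (fun _ _ => mem_univ _) le_rfl hw
    (by rwa [univ_inter]) fun z _ k => h0 z k.ge
  have hL := lipschitz_oddE hw fun x => h0 x (by simp)
  have hc := InnerProductSpace.bounded_harmonic_on_complex_plane_is_constant _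
    (hW.of_D I).harmonicOnNhd (by
      refine (isBounded_iff_forall_norm_le).2 ⟨K, ?_⟩
      rintro _ ⟨z, rfl⟩
      rw [D_eq_dot]
      refine (abs_dot_le _ _).trans ?_
      simpa using norm_grad_le hL z)
  refine ⟨D I (oddE w) 0, fun z => ?_⟩
  rcases le_total 0 z.im with k | k
  · rw [h0 z k, min_eq_right k, mul_zero]
  · have hd : ∀ s : ℝ, HasDerivAt (fun s : ℝ => oddE w ⟨z.re, s⟩ - D I (oddE w) 0 * s) 0 s := by
      intro s
      have k1 := (hasDerivAt_im (hW.differentiableAt (mem_univ (⟨z.re, s⟩ : ℂ)))).sub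
        ((hasDerivAt_id s).const_mul (D I (oddE w) 0))
      have k2 : (grad (oddE w) ⟨z.re, s⟩).im - D I (oddE w) 0 * 1 = 0 := by
        rw [mul_one, ← hc ⟨z.re, s⟩ 0]
        exact sub_self _
      rw [k2] at k1
      exact k1
    have k3 := is_const_of_deriv_eq_zero (fun s => (hd s).differentiableAt)
      (fun s => (hd s).deriv) z.im 0
    have k4 : oddE w ⟨z.re, 0⟩ = 0 := by simpa [oddE] using h0 ⟨z.re, 0⟩ le_rfl
    have k5 : oddE w ⟨z.re, z.im⟩ = w z := by simp [oddE, k]
    simp only [k4, k5, mul_zero, sub_zero] at k3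
    rw [min_eq_left k]
    linarith

end Pool.Agent.L2K
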