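import Pool.Agent.P.MP_2f6447_an.K.Corner
import Pool.Agent.P.MP_2f6447_an.K.Refl

/-! Blow-up at boundary points, in the frame where the outer normal is `I`. -/

open Set MeasureTheory Filter Topology Complex Metric
open scoped ContDiff ComplexConjugate

namespace Pool.Agent.L2K

variable {Ω U : Set ℂ} {lam : ℝ} {u w f g : ℂ → ℝ}

/-- the similarity that sends `0` to `p` and `I` to `r` times the outer normal -/
noncomputable def blS (Ω : Set ℂ) (p : ℂ) (r : ℝ) : ℂ → ℂ := sim p (-I * nu Ω p * r)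

theorem Blow_norm {ν : ℂ} (hν : ‖ν‖ = 1) {r : ℝ} (hr : 0 < r) : ‖-I * ν * r‖ = r := by
  rw [norm_mul, norm_mul, norm_neg, Complex.norm_I, hν, Complex.norm_real, Real.norm_eq_abs,
    abs_of_pos hr]
  ring

theorem Blow_ne {ν : ℂ} (hν : ‖ν‖ = 1) {r : ℝ} (hr : 0 < r) : -I * ν * r ≠ 0 := by
  intro h0
  have := Blow_norm hν hr
  rw [h0, norm_zero] at this
  exact hr.ne this

theorem Blow_dot {ν : ℂ} (hν : ‖ν‖ = 1) (r : ℝ) (z : ℂ) : dot (-I * ν * r * z) ν = r * z.im := by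
  have h1 : ν.re ^ 2 + ν.im ^ 2 = 1 := by
    have := Complex.sq_norm ν
    rw [hν, Complex.normSq_apply] at this
    nlinarith
  simp only [dot, mul_re, mul_im, neg_re, neg_im, I_re, I_im, ofReal_re, ofReal_im]
  linear_combination (r * z.im) * h1

theorem Blow_mn (h : Mn Ω lam u) {p : ℂ} (hp : p ∈ frontier Ω) {r : ℝ} (hr : 0 < r) :
    Mn (blS Ω p r ⁻¹' Ω) (lam * r ^ 2) fun z => r⁻¹ * u (blS Ω p r z) := by
  have hν := (h.toIsMin.toDom.isN_nu hp).1
  have := h.of_sim p (Blow_ne hν hr)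
  rw [Blow_norm hν hr] at this
  exact this

theorem Blow_lip (hd : Dom Ω) {K : NNReal} (hK : LipschitzWith K u) {p : ℂ} (hp : p ∈ frontier Ω)
    {r : ℝ} (hr : 0 < r) : LipschitzWith K fun z => r⁻¹ * u (blS Ω p r z) := by
  have hν := (hd.isN_nu hp).1
  refine LipschitzWith.of_dist_le_mul fun x y => ?_
  have h1 := hK.dist_le_mul (blS Ω p r x) (blS Ω p r y)
  have h2 : dist (blS Ω p r x) (blS Ω p r y) = r * dist x y := by
    rw [dist_eq_norm, dist_eq_norm]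
    have : blS Ω p r x - blS Ω p r y = (-I * nu Ω p * r) * (x - y) := by
      simp only [blS, sim]; ring
    rw [this, norm_mul, Blow_norm hν hr]
  rw [h2, Real.dist_eq] at h1
  rw [Real.dist_eq, ← mul_sub, abs_mul, abs_of_pos (inv_pos.2 hr), inv_mul_le_iff₀ hr]
  linarith

theorem Blow_zero (hd : Dom Ω) {p : ℂ} (hp : p ∈ frontier Ω) {r : ℝ} (hr : 0 < r) :
    (0 : ℂ) ∈ frontier (blS Ω p r ⁻¹' Ω) := by
  have hν := (hd.isN_nu hp).1
  unfold blS
  rw [frontier_sim p (Blow_ne hν hr)]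
  simpa [sim] using hp

theorem Blow_below (hd : Dom Ω) {p : ℂ} (hp : p ∈ frontier Ω) {r : ℝ} (hr : 0 < r) {z : ℂ}
    (hz : z ∈ blS Ω p r ⁻¹' Ω) : z.im < 0 := by
  obtain ⟨hν, hN⟩ := hd.isN_nu hp
  have h1 := hN _ hz
  have h2 : blS Ω p r z - p = -I * nu Ω p * r * z := by simp only [blS, sim]; ring
  rw [h2, Blow_dot hν] at h1
  by_contra hc
  have := mul_nonneg hr.le (not_lt.1 hc)
  linarith

theorem Blow_fill (hd : Dom Ω) (hc : NoCorner Ω) {p : ℕ → ℂ} {r : ℕ → ℝ}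
    (hp : ∀ k, p k ∈ frontier Ω) (hr : ∀ k, 0 < r k) (hr0 : Tendsto r atTop (𝓝 0)) (R δ : ℝ)
    (hδ : 0 < δ) :
    ∀ᶠ k in atTop, ∀ z : ℂ, ‖z‖ ≤ R → z.im ≤ -δ → z ∈ blS Ω (p k) (r k) ⁻¹' Ω := by
  have hR : 0 < |R| + 1 := by positivity
  obtain ⟨ρ, hρ, hcone⟩ := hd.inner_cone hc (δ := δ / (|R| + 1)) (div_pos hδ hR)
  have hev : ∀ᶠ k in atTop, r k < ρ / (|R| + 1) := hr0.eventually (gt_mem_nhds (div_pos hρ hR))
  filter_upwards [hev] with k hk z hzR hzδ
  have hν := (hd.isN_nu (hp k)).1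
  have hz0 : z ≠ 0 := by
    rintro rfl
    simp at hzδ
    linarith
  have hzR' : ‖z‖ ≤ |R| + 1 := by linarith [le_abs_self R]
  have hn : ‖-I * nu Ω (p k) * r k * z‖ = r k * ‖z‖ := by rw [norm_mul, Blow_norm hν (hr k)]
  have hk' : r k * (|R| + 1) < ρ := (lt_div_iff₀ hR).1 hk
  refine hcone (p k) (hp k) _ (mul_ne_zero (Blow_ne hν (hr k)) hz0) ?_ ?_
  · rw [hn]
    have := mul_le_mul_of_nonneg_left hzR' (hr k).le
    linarith
  · rw [hn, Blow_dot hν]
    have h1 : δ / (|R| + 1) * ‖z‖ ≤ δ := by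
      rw [div_mul_eq_mul_div, div_le_iff₀ hR]
      exact mul_le_mul_of_nonneg_left hzR' hδ.le
    have h2 : r k * z.im ≤ r k * -δ := mul_le_mul_of_nonneg_left hzδ (hr k).le
    have h3 : r k * (δ / (|R| + 1) * ‖z‖) ≤ r k * δ := mul_le_mul_of_nonneg_left h1 (hr k).le
    linarith

theorem Blow_grad {W : ℂ → ℝ} {a : ℝ} (hW : ∀ z : ℂ, W z = a * min z.im 0) {q : ℂ}
    (hq : q.im < 0) : grad W q = a * I := by
  have h1 : W =ᶠ[𝓝 q] fun z => a * z.im := by
    have ho : IsOpen {z : ℂ | z.im < 0} := isOpen_lt continuous_im continuous_const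
    filter_upwards [ho.mem_nhds hq] with z hz
    rw [hW z, min_eq_left (le_of_lt hz)]
  rw [grad_congr h1]
  have h2 : HasFDerivAt (fun z : ℂ => a * z.im) (a • imCLM) q :=
    (imCLM.hasFDerivAt (x := q)).const_mul a
  refine grad_eq_of_hasFDerivAt h2 fun v => ?_
  simp [dot]

theorem Mn.blowup (h : Mn Ω lam u) {p : ℕ → ℂ} {r : ℕ → ℝ} (hp : ∀ k, p k ∈ frontier Ω)
    (hr : ∀ k, 0 < r k) (hr0 : Tendsto r atTop (𝓝 0)) : ∃ (φ : ℕ → ℕ) (a : ℝ), StrictMono φ ∧
      BU (fun k => blS Ω (p (φ k)) (r (φ k)) ⁻¹' Ω) (fun k => lam * r (φ k) ^ 2)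
        (fun k z => (r (φ k))⁻¹ * u (blS Ω (p (φ k)) (r (φ k)) z)) a := by
  have hd : Dom Ω := h.toIsMin.toDom
  obtain ⟨K, hK⟩ := h.lip.lip
  have hF : ∀ k, LipschitzWith K fun z => (r k)⁻¹ * u (blS Ω (p k) (r k) z) := fun k =>
    Blow_lip hd hK (hp k) (hr k)
  have hF0 : ∀ k, (fun z => (r k)⁻¹ * u (blS Ω (p k) (r k) z)) 0 = 0 := fun k => by
    have : blS Ω (p k) (r k) 0 = p k := by simp [blS, sim]
    simp only [this, h.lip.zero _ (hd.notMem_of_frontier (hp k)), mul_zero]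
  obtain ⟨φ, W, hφ, hWK, hW⟩ :=
    lip_subseq (F := fun k z => (r k)⁻¹ * u (blS Ω (p k) (r k) z)) hF hF0
  have hrφ : Tendsto (fun k => r (φ k)) atTop (𝓝 0) := hr0.comp hφ.tendsto_atTop
  have hlam : Tendsto (fun k => lam * r (φ k) ^ 2) atTop (𝓝 0) := by
    have := (hrφ.pow 2).const_mul lam
    simpa using this
  have hfill := Blow_fill hd h.noCorner (p := fun k => p (φ k)) (r := fun k => r (φ k))
    (fun k => hp _) (fun k => hr _) hrφ
  have ho : IsOpen {z : ℂ | z.im < 0} := isOpen_lt continuous_im continuous_const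
  obtain ⟨hH, hG⟩ := helm_limit (lam := 0) (U := {z : ℂ | z.im < 0}) (K := K)
    (F := fun k z => (r (φ k))⁻¹ * u (blS Ω (p (φ k)) (r (φ k)) z))
    (V := fun k => blS Ω (p (φ k)) (r (φ k)) ⁻¹' Ω) (μ := fun k => lam * r (φ k) ^ 2) (W := W) ho
    (fun k => hF _) (fun k => (Blow_mn h (hp _) (hr _)).helm)
    (fun k => mul_nonneg h.lam_pos.le (sq_nonneg _)) hlam
    (fun q hq => by
      have hq' : q.im < 0 := hq
      refine ⟨-q.im / 2, by linarith, ?_⟩
      filter_upwards [hfill (‖q‖ + -q.im / 2) (-q.im / 2) (by linarith)] with k hk z hz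
      rw [mem_closedBall, dist_eq_norm] at hz
      refine hk z ?_ ?_
      · have := norm_add_le (z - q) q
        rw [sub_add_cancel] at this
        linarith
      · have h1 := (abs_le.1 ((abs_im_le_norm (z - q)).trans hz)).2
        rw [sub_im] at h1
        linarith) hW
  have hW0 : ∀ z : ℂ, 0 ≤ z.im → W z = 0 := fun z hz => by
    refine tendsto_nhds_unique (hW z) ?_
    have : (fun k => (r (φ k))⁻¹ * u (blS Ω (p (φ k)) (r (φ k)) z)) = fun _ => 0 := by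
      funext k
      have hn : blS Ω (p (φ k)) (r (φ k)) z ∉ Ω := fun hm =>
        absurd (Blow_below hd (hp _) (hr _) hm) (not_lt.2 hz)
      rw [h.lip.zero _ hn, mul_zero]
    rw [this]
    exact tendsto_const_nhds
  obtain ⟨a, ha⟩ := liouville_half hWK hH hW0
  refine ⟨φ, a, hφ, ⟨fun k => Blow_mn h (hp _) (hr _), ⟨K, fun k => hF _⟩, hlam,
    fun k => Blow_zero hd (hp _) (hr _), fun k z hz => Blow_below hd (hp _) (hr _) hz, hfill,
    fun z => ha z ▸ hW z, fun z q hq hz => ?_⟩⟩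
  rw [← Blow_grad ha hq]
  exact hG z q hq hz

theorem BU.subseq {Ω : ℕ → Set ℂ} {lam : ℕ → ℝ} {u : ℕ → ℂ → ℝ} {a : ℝ} (h : BU Ω lam u a)
    {φ : ℕ → ℕ} (hφ : StrictMono φ) :
    BU (fun k => Ω (φ k)) (fun k => lam (φ k)) (fun k => u (φ k)) a := by
  obtain ⟨K, hK⟩ := h.lip
  have hT := hφ.tendsto_atTop
  refine ⟨fun k => h.mn _, ⟨K, fun k => hK _⟩, h.lam0.comp hT, fun k => h.zero _,
    fun k => h.below _, fun R δ hδ => hT.eventually (h.fill R δ hδ), fun z => (h.conv z).comp hT,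
    fun z q hq hz => ?_⟩
  classical
  have hinj := hφ.injective
  have key : Tendsto (fun n => if n ∈ range φ then z (Function.invFun φ n) else q) atTop (𝓝 q) := by
    rw [Metric.tendsto_atTop] at hz ⊢
    intro ε hε
    obtain ⟨N, hN⟩ := hz ε hε
    refine ⟨φ N, fun n hn => ?_⟩
    by_cases hm : n ∈ range φ
    · obtain ⟨k, rfl⟩ := hm
      rw [if_pos ⟨k, rfl⟩, Function.leftInverse_invFun hinj k]
      exact hN k (hφ.le_iff_le.1 hn)
    · rw [if_neg hm, dist_self]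
      exact hε
  have := (h.convG _ q hq key).comp hT
  refine this.congr fun k => ?_
  simp only [Function.comp, mem_range, exists_apply_eq_apply, if_true,
    Function.leftInverse_invFun hinj k]

end Pool.Agent.L2K
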