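import Pool.Agent.P.MP_ca04ec_pr.Det.Cross
import Pool.Agent.P.MP_2f6447_an.K.Defs2

/-! Crossing lemmas. All follow from `Pool.Agent.LGD.cross_meet` after adding segments outside the
strip. -/

open Set MeasureTheory Filter Topology Complex Metric
open scoped ContDiff ComplexConjugate

namespace Pool.Agent.L2K

variable {Ω U : Set ℂ} {lam : ℝ} {u w f g : ℂ → ℝ}

theorem CL_add {S : Set ℂ} (hS : IsPathConnected S) {A B : Set ℝ} (hA : Convex ℝ A)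
    (hB : Convex ℝ B) {p : ℂ} (hp : p ∈ S) (h1 : p.re ∈ A) (h2 : p.im ∈ B) :
    IsPathConnected (S ∪ {z | z.re ∈ A ∧ z.im ∈ B}) := by
  have hc : Convex ℝ {z : ℂ | z.re ∈ A ∧ z.im ∈ B} :=
    (hA.linear_preimage reLm).inter (hB.linear_preimage imLm)
  exact hS.union (hc.isPathConnected ⟨p, h1, h2⟩) ⟨p, hp, h1, h2⟩

theorem CL_up {S : Set ℂ} (hS : IsPathConnected S) {a d : ℝ} (ha : (⟨a, d⟩ : ℂ) ∈ S) :
    IsPathConnected (S ∪ {z | z.re ∈ Icc a a ∧ z.im ∈ Icc d (d + 1)}) :=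
  CL_add hS (convex_Icc _ _) (convex_Icc _ _) ha ⟨le_rfl, le_rfl⟩ ⟨le_rfl, by simp⟩

theorem CL_left {S : Set ℂ} (hS : IsPathConnected S) {a d : ℝ} (ha : (⟨a, d⟩ : ℂ) ∈ S) :
    IsPathConnected ((S ∪ {z | z.re ∈ Icc a a ∧ z.im ∈ Icc d (d + 1)}) ∪
      {z | z.re ∈ Iic a ∧ z.im ∈ Icc (d + 1) (d + 1)}) :=
  CL_add (CL_up hS ha) (convex_Iic _) (convex_Icc _ _) (p := ⟨a, d + 1⟩)
    (Or.inr ⟨⟨le_rfl, le_rfl⟩, by simp, le_rfl⟩) (by simp) ⟨le_rfl, le_rfl⟩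

theorem CL_right {S : Set ℂ} (hS : IsPathConnected S) {a d : ℝ} (ha : (⟨a, d⟩ : ℂ) ∈ S) :
    IsPathConnected ((S ∪ {z | z.re ∈ Icc a a ∧ z.im ∈ Icc d (d + 1)}) ∪
      {z | z.re ∈ Ici a ∧ z.im ∈ Icc (d + 1) (d + 1)}) :=
  CL_add (CL_up hS ha) (convex_Ici _) (convex_Icc _ _) (p := ⟨a, d + 1⟩)
    (Or.inr ⟨⟨le_rfl, le_rfl⟩, by simp, le_rfl⟩) (by simp) ⟨le_rfl, le_rfl⟩

theorem CL_base {S : Set ℂ} {a d : ℝ} (ha : (⟨a, d⟩ : ℂ) ∈ S) {z : ℂ}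
    (hz : z.re ∈ Icc a a ∧ z.im ∈ Icc d (d + 1)) (h : z.im ≤ d) : z ∈ S := by
  have : z = ⟨a, d⟩ := Complex.ext (le_antisymm hz.1.2 hz.1.1) (le_antisymm h hz.2.1)
  rwa [this]

theorem cross_RB {S T : Set ℂ} (hS : IsPathConnected S) (hT : IsPathConnected T) {L R c d a b : ℝ}
    (sS : ∀ z ∈ S, c ≤ z.im ∧ z.im ≤ d) (sT : ∀ z ∈ T, z.im ≤ d ∧ L ≤ z.re ∧ z.re ≤ R)
    (hab : a < b) (ha : (⟨a, d⟩ : ℂ) ∈ S) (hb : (⟨b, d⟩ : ℂ) ∈ T) (h1 : ∃ z ∈ S, R ≤ z.re)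
    (h2 : ∃ z ∈ T, z.im ≤ c) : (S ∩ T).Nonempty := by
  have cd : c ≤ d := (sS _ ha).1
  have Lb : L ≤ b := (sT _ hb).2.1
  have bR : b ≤ R := (sT _ hb).2.2
  obtain ⟨p, hp, hp'⟩ := h1
  obtain ⟨q, hq, hq'⟩ := h2
  obtain ⟨z, hz1, hz2⟩ := Pool.Agent.LGD.cross_meet (CL_left hS ha) (CL_up hT hb)
    (a := L) (b := R) (c := c) (d := d + 1)
    (by
      rintro x ((hx | hx) | hx)
      · exact ⟨(sS x hx).1, by linarith [(sS x hx).2]⟩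
      · exact ⟨by linarith [hx.2.1], hx.2.2⟩
      · exact ⟨by linarith [hx.2.1], hx.2.2⟩)
    (by
      rintro x (hx | hx)
      · exact (sT x hx).2
      · exact ⟨by linarith [hx.1.1], by linarith [hx.1.2]⟩)
    ⟨⟨min a L, d + 1⟩, Or.inr ⟨mem_Iic.2 (min_le_left a L), le_rfl, le_rfl⟩, min_le_right _ _⟩
    ⟨p, Or.inl (Or.inl hp), hp'⟩ ⟨q, Or.inl hq, hq'⟩
    ⟨⟨b, d + 1⟩, Or.inr ⟨⟨le_rfl, le_rfl⟩, by simp, le_rfl⟩, le_rfl⟩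
  rcases hz1 with (hz1 | hz1) | hz1 <;> rcases hz2 with hz2 | hz2
  · exact ⟨z, hz1, hz2⟩
  · exact ⟨z, hz1, CL_base hb hz2 (sS z hz1).2⟩
  · exact ⟨z, CL_base ha hz1 (sT z hz2).1, hz2⟩
  · linarith [hz1.1.2, hz2.1.1]
  · linarith [hz1.2.1, (sT z hz2).1]
  · linarith [mem_Iic.1 hz1.1, hz2.1.1]

theorem cross_BL {S T : Set ℂ} (hS : IsPathConnected S) (hT : IsPathConnected T) {L R c d a b : ℝ}
    (sS : ∀ z ∈ S, z.im ≤ d ∧ L ≤ z.re ∧ z.re ≤ R) (sT : ∀ z ∈ T, c ≤ z.im ∧ z.im ≤ d)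
    (hab : a < b) (ha : (⟨a, d⟩ : ℂ) ∈ S) (hb : (⟨b, d⟩ : ℂ) ∈ T) (h1 : ∃ z ∈ S, z.im ≤ c)
    (h2 : ∃ z ∈ T, z.re ≤ L) : (S ∩ T).Nonempty := by
  have cd : c ≤ d := (sT _ hb).1
  have La : L ≤ a := (sS _ ha).2.1
  have aR : a ≤ R := (sS _ ha).2.2
  obtain ⟨p, hp, hp'⟩ := h1
  obtain ⟨q, hq, hq'⟩ := h2
  obtain ⟨z, hz1, hz2⟩ := Pool.Agent.LGD.cross_meet (CL_right hT hb) (CL_up hS ha)
    (a := L) (b := R) (c := c) (d := d + 1)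
    (by
      rintro x ((hx | hx) | hx)
      · exact ⟨(sT x hx).1, by linarith [(sT x hx).2]⟩
      · exact ⟨by linarith [hx.2.1], hx.2.2⟩
      · exact ⟨by linarith [hx.2.1], hx.2.2⟩)
    (by
      rintro x (hx | hx)
      · exact (sS x hx).2
      · exact ⟨by linarith [hx.1.1], by linarith [hx.1.2]⟩)
    ⟨q, Or.inl (Or.inl hq), hq'⟩
    ⟨⟨max b R, d + 1⟩, Or.inr ⟨mem_Ici.2 (le_max_left b R), le_rfl, le_rfl⟩, le_max_right _ _⟩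
    ⟨p, Or.inl hp, hp'⟩
    ⟨⟨a, d + 1⟩, Or.inr ⟨⟨le_rfl, le_rfl⟩, by simp, le_rfl⟩, le_rfl⟩
  rcases hz1 with (hz1 | hz1) | hz1 <;> rcases hz2 with hz2 | hz2
  · exact ⟨z, hz2, hz1⟩
  · exact ⟨z, CL_base ha hz2 (sT z hz1).2, hz1⟩
  · exact ⟨z, hz2, CL_base hb hz1 (sS z hz2).1⟩
  · linarith [hz1.1.1, hz2.1.2]
  · linarith [hz1.2.1, (sS z hz2).1]
  · linarith [mem_Ici.1 hz1.1, hz2.1.2]

theorem cross_RL {S T : Set ℂ} (hS : IsPathConnected S) (hT : IsPathConnected T) {L R c d a b : ℝ}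
    (sS : ∀ z ∈ S, c ≤ z.im ∧ z.im ≤ d ∧ L < z.re) (sT : ∀ z ∈ T, z.im ≤ d ∧ L ≤ z.re ∧ z.re ≤ R)
    (hab : a < b) (ha : (⟨a, d⟩ : ℂ) ∈ S) (hb : (⟨b, d⟩ : ℂ) ∈ T) (h1 : ∃ z ∈ S, R ≤ z.re)
    (h2 : ∃ z ∈ T, z.re = L) : (S ∩ T).Nonempty := by
  obtain ⟨p, hp, hp'⟩ := h2
  have h := sT p hp
  obtain ⟨z, hz1, hz2⟩ := cross_RB hS
    (CL_add hT (convex_Icc L L) (convex_Iic p.im) hp ⟨hp'.ge, hp'.le⟩ (by simp))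
    (L := L) (R := R) (c := c) (d := d) (fun z hz => ⟨(sS z hz).1, (sS z hz).2.1⟩)
    (by
      rintro x (hx | hx)
      · exact sT x hx
      · exact ⟨(mem_Iic.1 hx.2).trans h.1, hx.1.1, hx.1.2.trans (h.2.1.trans h.2.2)⟩)
    hab ha (Or.inl hb) h1
    ⟨⟨L, min p.im c⟩, Or.inr ⟨⟨le_rfl, le_rfl⟩, mem_Iic.2 (min_le_left p.im c)⟩, min_le_right _ _⟩
  rcases hz2 with hz2 | hz2
  · exact ⟨z, hz1, hz2⟩
  · linarith [hz2.1.2, (sS z hz1).2.2]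

theorem cross_TT {S T : Set ℂ} (hS : IsPathConnected S) (hT : IsPathConnected T)
    {L R c d a b e : ℝ} (sS : ∀ z ∈ S, c ≤ z.im ∧ z.im ≤ d ∧ L < z.re ∧ z.re < R)
    (sT : ∀ z ∈ T, z.im ≤ d ∧ L ≤ z.re ∧ z.re ≤ R) (hab : a < b) (hbe : b < e)
    (ha : (⟨a, d⟩ : ℂ) ∈ S) (he : (⟨e, d⟩ : ℂ) ∈ S) (hb : (⟨b, d⟩ : ℂ) ∈ T)
    (h2 : ∃ z ∈ T, z.re = L ∨ z.re = R) : (S ∩ T).Nonempty := by
  obtain ⟨p, hp, hp'⟩ := h2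
  have h := sT p hp
  have cd : c ≤ d := (sS _ ha).1
  have La : L < a := (sS _ ha).2.2.1
  have eR : e < R := (sS _ he).2.2.2
  obtain ⟨z, hz1, hz2⟩ := Pool.Agent.LGD.cross_meet
    (CL_right (CL_left hS ha) (Or.inl (Or.inl he)))
    (CL_add (CL_up hT hb) (convex_Icc p.re p.re) (convex_Iic p.im) (Or.inl hp) ⟨le_rfl, le_rfl⟩
      (by simp))
    (a := L) (b := R) (c := c) (d := d + 1)
    (by
      rintro x ((((hx | hx) | hx) | hx) | hx)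
      · exact ⟨(sS x hx).1, by linarith [(sS x hx).2.1]⟩
      · exact ⟨by linarith [hx.2.1], hx.2.2⟩
      · exact ⟨by linarith [hx.2.1], hx.2.2⟩
      · exact ⟨by linarith [hx.2.1], hx.2.2⟩
      · exact ⟨by linarith [hx.2.1], hx.2.2⟩)
    (by
      rintro x ((hx | hx) | hx)
      · exact (sT x hx).2
      · exact ⟨by linarith [hx.1.1], by linarith [hx.1.2]⟩
      · exact ⟨h.2.1.trans hx.1.1, hx.1.2.trans h.2.2⟩)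
    ⟨⟨L, d + 1⟩, Or.inl (Or.inl (Or.inr ⟨La.le, le_rfl, le_rfl⟩)), le_rfl⟩
    ⟨⟨R, d + 1⟩, Or.inr ⟨eR.le, le_rfl, le_rfl⟩, le_rfl⟩
    ⟨⟨p.re, min p.im c⟩, Or.inr ⟨⟨le_rfl, le_rfl⟩, mem_Iic.2 (min_le_left p.im c)⟩, min_le_right _ _⟩
    ⟨⟨b, d + 1⟩, Or.inl (Or.inr ⟨⟨le_rfl, le_rfl⟩, by simp, le_rfl⟩), le_rfl⟩
  have side : ∀ x : ℂ, L < x.re → x.re < R → x.re ∈ Icc p.re p.re → False := by
    intro x a1 a2 a3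
    rcases hp' with e1 | e1 <;> linarith [a3.1, a3.2]
  rcases hz1 with (((hz1 | hz1) | hz1) | hz1) | hz1 <;> rcases hz2 with (hz2 | hz2) | hz2
  · exact ⟨z, hz1, hz2⟩
  · exact ⟨z, hz1, CL_base hb hz2 (sS z hz1).2.1⟩
  · exact (side z (sS z hz1).2.2.1 (sS z hz1).2.2.2 hz2.1).elim
  · exact ⟨z, CL_base ha hz1 (sT z hz2).1, hz2⟩
  · linarith [hz1.1.2, hz2.1.1]
  · exact (side z (by linarith [hz1.1.1]) (by linarith [hz1.1.2]) hz2.1).elim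
  · linarith [hz1.2.1, (sT z hz2).1]
  · linarith [mem_Iic.1 hz1.1, hz2.1.1]
  · linarith [hz1.2.1, mem_Iic.1 hz2.2, h.1]
  · exact ⟨z, CL_base he hz1 (sT z hz2).1, hz2⟩
  · linarith [hz1.1.1, hz2.1.2]
  · exact (side z (by linarith [hz1.1.1]) (by linarith [hz1.1.2]) hz2.1).elim
  · linarith [hz1.2.1, (sT z hz2).1]
  · linarith [mem_Ici.1 hz1.1, hz2.1.2]
  · linarith [hz1.2.1, mem_Iic.1 hz2.2, h.1]

end Pool.Agent.L2K
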