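import Pool.Agent.P.MP_2f6447_an.K.CL
import Pool.Agent.P.MP_2f6447_an.K.GeoS
import Pool.Agent.P.MP_2f6447_an.K.Flip

/-! Crossing lemmas inside the closed domain, components. -/

open Set MeasureTheory Filter Topology Complex Metric
open scoped ContDiff ComplexConjugate

namespace Pool.Agent.L2K

variable {Ω U : Set ℂ} {lam : ℝ} {u w f g : ℂ → ℝ}
variable {l r : ℝ → ℝ} {nT nB n φ : ℝ}

theorem attach (hΩ : Dom Ω) {E : Set ℂ} (hE : IsPathConnected E) {p : ℂ} (hp : p ∈ closure Ω)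
    {ρ : ℝ} (hρ : 0 < ρ) (h : Ω ∩ ball p ρ ⊆ E) : IsPathConnected (insert p E) := by
  obtain ⟨q, hqb, hq⟩ := mem_closure_iff.1 hp (ball p ρ) isOpen_ball (mem_ball_self hρ)
  have hseg : segment ℝ q p ⊆ insert p E := by
    intro z hz
    have hzb : z ∈ ball p ρ := (convex_ball p ρ).segment_subset hqb (mem_ball_self hρ) hz
    rw [segment_eq_image'] at hz
    obtain ⟨t, ⟨h0, h1⟩, rfl⟩ := hz
    rcases h1.eq_or_lt with h1 | h1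
    · left
      simp [h1]
    · right
      refine h ⟨?_, hzb⟩
      have := hΩ.combo_mem hq hp h0 h1
      simpa only [real_smul] using this
  have e : insert p E = E ∪ segment ℝ q p := by
    apply Subset.antisymm
    · rintro z (rfl | hz)
      · exact Or.inr (right_mem_segment _ _ _)
      · exact Or.inl hz
    · exact union_subset (subset_insert _ _) hseg
  rw [e]
  exact hE.union ((convex_segment q p).isPathConnected ⟨q, left_mem_segment _ _ _⟩)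
    ⟨q, h ⟨hq, hqb⟩, left_mem_segment _ _ _⟩

theorem cmp_path {S : Set ℂ} (hS : IsOpen S) {z : ℂ} (hz : z ∈ S) :
    IsOpen (connectedComponentIn S z) ∧ IsPathConnected (connectedComponentIn S z) :=
  ⟨hS.connectedComponentIn, hS.connectedComponentIn.isConnected_iff_isPathConnected.1
    (isConnected_connectedComponentIn_iff.2 hz)⟩

theorem cmp_frontier {S : Set ℂ} (hS : IsOpen S) {z p : ℂ}
    (hp : p ∈ frontier (connectedComponentIn S z)) : p ∉ S ∧ p ∈ closure S := by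
  have ho : IsOpen (connectedComponentIn S z) := hS.connectedComponentIn
  rw [ho.frontier_eq] at hp
  refine ⟨fun hpS => hp.2 ?_, closure_mono (connectedComponentIn_subset S z) hp.1⟩
  obtain ⟨q, hq1, hq2⟩ := mem_closure_iff.1 hp.1 (connectedComponentIn S p)
    hS.connectedComponentIn (mem_connectedComponentIn hpS)
  rw [connectedComponentIn_eq hq2, ← connectedComponentIn_eq hq1]
  exact mem_connectedComponentIn hpS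

theorem cmp_alt (hΩ : Dom Ω) {W : ℂ → ℝ} (hW : ContinuousOn W (closure Ω)) (z : ℂ) :
    (∀ p ∈ frontier (connectedComponentIn {x | x ∈ Ω ∧ 0 < W x} z), W p = 0) ∨
      ∃ p ∈ frontier Ω, 0 < W p ∧ ∃ ρ : ℝ, 0 < ρ ∧
        Ω ∩ ball p ρ ⊆ connectedComponentIn {x | x ∈ Ω ∧ 0 < W x} z := by
  set S : Set ℂ := {x | x ∈ Ω ∧ 0 < W x} with hSdef
  have hS : IsOpen S :=
    (hW.mono subset_closure).isOpen_inter_preimage hΩ.isOpen (isOpen_Ioi (a := (0 : ℝ)))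
  have hSΩ : S ⊆ Ω := fun x hx => hx.1
  by_cases hall : ∀ p ∈ frontier (connectedComponentIn S z), W p = 0
  · exact Or.inl hall
  right
  push Not at hall
  obtain ⟨p, hp, hp0⟩ := hall
  obtain ⟨hpS, hpc⟩ := cmp_frontier hS hp
  have hpΩ : p ∈ closure Ω := closure_mono hSΩ hpc
  have h0 : 0 ≤ W p :=
    ContinuousWithinAt.closure_le (f := fun _ => (0 : ℝ)) hpc continuousWithinAt_const
      ((hW p hpΩ).mono (hSΩ.trans subset_closure)) fun y hy => hy.2.le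
  have hpos : 0 < W p := lt_of_le_of_ne h0 (Ne.symm hp0)
  have hev : ∀ᶠ y in 𝓝[closure Ω] p, 0 < W y := (hW p hpΩ).eventually (lt_mem_nhds hpos)
  obtain ⟨ρ, hρ, hb⟩ := Metric.mem_nhdsWithin_iff.1 hev
  refine ⟨p, ?_, hpos, ρ, hρ, ?_⟩
  · rw [hΩ.isOpen.frontier_eq]
    exact ⟨hpΩ, fun hh => hpS ⟨hh, hpos⟩⟩
  · obtain ⟨q, hqb, hq⟩ := mem_closure_iff.1 (frontier_subset_closure hp) (ball p ρ) isOpen_ball
      (mem_ball_self hρ)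
    rw [connectedComponentIn_eq hq]
    refine (hΩ.convex.inter (convex_ball p ρ)).isPreconnected.subset_connectedComponentIn
      ⟨hSΩ (connectedComponentIn_subset S z hq), hqb⟩ fun y hy => ⟨hy.1, ?_⟩
    exact hb ⟨hy.2, subset_closure hy.1⟩

/-- horizontal segment -/
def CLG_hs (a b y : ℝ) : Set ℂ := {z | z.im = y ∧ a ≤ z.re ∧ z.re ≤ b}

theorem CLG_hs_convex (a b y : ℝ) : Convex ℝ (CLG_hs a b y) := by
  intro z hz w hw s t hs ht hst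
  obtain ⟨z1, z2, z3⟩ := hz
  obtain ⟨w1, w2, w3⟩ := hw
  have e : t = 1 - s := by linarith
  subst e
  refine ⟨?_, ?_, ?_⟩
  · simp only [add_im, smul_im, smul_eq_mul, z1, w1]; ring
  · simp only [add_re, smul_re, smul_eq_mul]; nlinarith
  · simp only [add_re, smul_re, smul_eq_mul]; nlinarith

theorem CLG_bound (h : Geo Ω l r) : ∃ M : ℝ, ∀ z ∈ closure Ω, -M < z.re ∧ z.re < M := by
  obtain ⟨C, hC⟩ := h.dom.bdd.closure.exists_norm_le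
  refine ⟨C + 1, fun z hz => ?_⟩
  have := abs_le.1 ((abs_re_le_norm z).trans (hC z hz))
  constructor <;> linarith [this.1, this.2]

theorem CLG_extR {S : Set ℂ} (hS : IsPathConnected S) {x y M : ℝ} (h1 : (⟨x, y⟩ : ℂ) ∈ S)
    (hx : x ≤ M) : IsPathConnected (S ∪ CLG_hs x M y) :=
  hS.union ((CLG_hs_convex x M y).isPathConnected ⟨⟨x, y⟩, rfl, le_rfl, hx⟩)
    ⟨⟨x, y⟩, h1, rfl, le_rfl, hx⟩

theorem CLG_extL {S : Set ℂ} (hS : IsPathConnected S) {x y M : ℝ} (h1 : (⟨x, y⟩ : ℂ) ∈ S)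
    (hx : M ≤ x) : IsPathConnected (S ∪ CLG_hs M x y) :=
  hS.union ((CLG_hs_convex M x y).isPathConnected ⟨⟨x, y⟩, rfl, hx, le_rfl⟩)
    ⟨⟨x, y⟩, h1, rfl, hx, le_rfl⟩

theorem CLG_backR (h : Geo Ω l r) {S : Set ℂ} {y M : ℝ} (h1 : (⟨r y, y⟩ : ℂ) ∈ S) {z : ℂ}
    (hz : z ∈ S ∪ CLG_hs (r y) M y) (hc : z ∈ closure Ω) : z ∈ S := by
  rcases hz with hz | ⟨e, hz, -⟩
  · exact hz
  · have h2 := ((h.mem_closure z).1 hc).2.2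
    rw [e] at h2
    have : z = ⟨r y, y⟩ := Complex.ext (le_antisymm h2 hz) e
    rw [this]
    exact h1

theorem CLG_backL (h : Geo Ω l r) {S : Set ℂ} {y M : ℝ} (h1 : (⟨l y, y⟩ : ℂ) ∈ S) {z : ℂ}
    (hz : z ∈ S ∪ CLG_hs M (l y) y) (hc : z ∈ closure Ω) : z ∈ S := by
  rcases hz with hz | ⟨e, -, hz⟩
  · exact hz
  · have h2 := ((h.mem_closure z).1 hc).2.1
    rw [e] at h2
    have : z = ⟨l y, y⟩ := Complex.ext (le_antisymm hz h2) e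
    rw [this]
    exact h1

theorem CLG_inR (h : Geo Ω l r) {S : Set ℂ} (sS : S ⊆ closure Ω) {y M : ℝ}
    (hM : ∀ z ∈ closure Ω, -M < z.re ∧ z.re < M) (h1 : (⟨r y, y⟩ : ℂ) ∈ S) :
    ∀ z ∈ S ∪ CLG_hs (r y) M y, 0 ≤ z.im ∧ z.im ≤ Real.pi ∧ -M < z.re ∧ z.re ≤ M := by
  rintro z (hz | ⟨e, h2, h3⟩)
  · have h4 := ((h.mem_closure z).1 (sS hz)).1
    exact ⟨h4.1, h4.2, (hM z (sS hz)).1, (hM z (sS hz)).2.le⟩
  · have h4 := ((h.mem_closure _).1 (sS h1)).1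
    rw [e]
    exact ⟨h4.1, h4.2, lt_of_lt_of_le (hM _ (sS h1)).1 h2, h3⟩

theorem CLG_inL (h : Geo Ω l r) {S : Set ℂ} (sS : S ⊆ closure Ω) {y M : ℝ}
    (hM : ∀ z ∈ closure Ω, -M < z.re ∧ z.re < M) (h1 : (⟨l y, y⟩ : ℂ) ∈ S) :
    ∀ z ∈ S ∪ CLG_hs (-M) (l y) y, 0 ≤ z.im ∧ z.im ≤ Real.pi ∧ -M ≤ z.re ∧ z.re < M := by
  rintro z (hz | ⟨e, h2, h3⟩)
  · have h4 := ((h.mem_closure z).1 (sS hz)).1
    exact ⟨h4.1, h4.2, (hM z (sS hz)).1.le, (hM z (sS hz)).2⟩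
  · have h4 := ((h.mem_closure _).1 (sS h1)).1
    rw [e]
    exact ⟨h4.1, h4.2, h2, lt_of_le_of_lt h3 (hM _ (sS h1)).2⟩

theorem Geo.cl_RL (h : Geo Ω l r) {S T : Set ℂ} (hS : IsPathConnected S) (hT : IsPathConnected T)
    (sS : S ⊆ closure Ω) (sT : T ⊆ closure Ω) {a b y y' : ℝ} (hab : a < b)
    (ha : (⟨a, Real.pi⟩ : ℂ) ∈ S) (hb : (⟨b, Real.pi⟩ : ℂ) ∈ T) (hy : y ∈ Ioo 0 Real.pi)
    (hy' : y' ∈ Ioo 0 Real.pi) (h1 : (⟨r y, y⟩ : ℂ) ∈ S) (h2 : (⟨l y', y'⟩ : ℂ) ∈ T) :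
    (S ∩ T).Nonempty := by
  obtain ⟨M, hM⟩ := CLG_bound h
  have k1 : r y ≤ M := (hM _ (sS h1)).2.le
  have k2 : -M ≤ l y' := (hM _ (sT h2)).1.le
  have i1 := CLG_inR h sS hM h1
  have i2 := CLG_inL h sT hM h2
  obtain ⟨z, hz1, hz2⟩ := cross_RL (L := -M) (R := M) (c := 0) (CLG_extR hS h1 k1)
    (CLG_extL hT h2 k2) (fun z hz => ⟨(i1 z hz).1, (i1 z hz).2.1, (i1 z hz).2.2.1⟩)
    (fun z hz => ⟨(i2 z hz).2.1, (i2 z hz).2.2.1, (i2 z hz).2.2.2.le⟩) hab (Or.inl ha)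
    (Or.inl hb) ⟨⟨M, y⟩, Or.inr ⟨rfl, k1, le_rfl⟩, le_rfl⟩
    ⟨⟨-M, y'⟩, Or.inr ⟨rfl, le_rfl, k2⟩, rfl⟩
  have hc : z ∈ closure Ω := by
    rcases hz1 with hz1 | ⟨e1, a1, -⟩
    · exact sS hz1
    rcases hz2 with hz2 | ⟨e2, -, a2⟩
    · exact sT hz2
    have := h.lt (Ioo_subset_Icc_self hy)
    rw [← e2, e1] at a2
    linarith
  exact ⟨z, CLG_backR h h1 hz1 hc, CLG_backL h h2 hz2 hc⟩

theorem Geo.cl_RL' (h : Geo Ω l r) {S T : Set ℂ} (hS : IsPathConnected S) (hT : IsPathConnected T)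
    (sS : S ⊆ closure Ω) (sT : T ⊆ closure Ω) {a b y y' : ℝ} (hab : a < b)
    (ha : (⟨a, 0⟩ : ℂ) ∈ S) (hb : (⟨b, 0⟩ : ℂ) ∈ T) (hy : y ∈ Ioo 0 Real.pi)
    (hy' : y' ∈ Ioo 0 Real.pi) (h1 : (⟨r y, y⟩ : ℂ) ∈ S) (h2 : (⟨l y', y'⟩ : ℂ) ∈ T) :
    (S ∩ T).Nonempty := by
  have hsub : ∀ {X : Set ℂ}, X ⊆ closure Ω → fy '' X ⊆ closure (fy ⁻¹' Ω) := by
    rintro X sX _ ⟨z, hz, rfl⟩
    have k := (h.mem_closure z).1 (sX hz)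
    rw [h.flipY.mem_closure]
    simp only [fy, sub_sub_cancel]
    exact ⟨⟨by linarith [k.1.2], by linarith [k.1.1]⟩, k.2⟩
  have hm : ∀ {t : ℝ}, t ∈ Ioo 0 Real.pi → Real.pi - t ∈ Ioo 0 Real.pi := fun ht =>
    ⟨by linarith [ht.2], by linarith [ht.1]⟩
  obtain ⟨z, ⟨z1, hz1, e1⟩, ⟨z2, hz2, e2⟩⟩ := h.flipY.cl_RL (hS.image continuous_fy)
    (hT.image continuous_fy) (hsub sS) (hsub sT) hab ⟨_, ha, by simp [fy]⟩ ⟨_, hb, by simp [fy]⟩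
    (hm hy) (hm hy') ⟨_, h1, by simp [fy]⟩ ⟨_, h2, by simp [fy]⟩
  have e : z1 = z2 := by rw [← fy_fy z1, e1, ← e2, fy_fy]
  exact ⟨z1, hz1, e ▸ hz2⟩

theorem Geo.cl_RB (h : Geo Ω l r) {S T : Set ℂ} (hS : IsPathConnected S) (hT : IsPathConnected T)
    (sS : S ⊆ closure Ω) (sT : T ⊆ closure Ω) {a b c y : ℝ} (hab : a < b)
    (ha : (⟨a, Real.pi⟩ : ℂ) ∈ S) (hb : (⟨b, Real.pi⟩ : ℂ) ∈ T) (hy : y ∈ Ioo 0 Real.pi)
    (h1 : (⟨r y, y⟩ : ℂ) ∈ S) (h2 : (⟨c, 0⟩ : ℂ) ∈ T) : (S ∩ T).Nonempty := by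
  obtain ⟨M, hM⟩ := CLG_bound h
  have k1 : r y ≤ M := (hM _ (sS h1)).2.le
  have i1 := CLG_inR h sS hM h1
  obtain ⟨z, hz1, hz2⟩ := cross_RB (L := -M) (R := M) (c := 0) (CLG_extR hS h1 k1) hT
    (fun z hz => ⟨(i1 z hz).1, (i1 z hz).2.1⟩)
    (fun z hz => ⟨((h.mem_closure z).1 (sT hz)).1.2, (hM z (sT hz)).1.le, (hM z (sT hz)).2.le⟩)
    hab (Or.inl ha) hb ⟨⟨M, y⟩, Or.inr ⟨rfl, k1, le_rfl⟩, le_rfl⟩ ⟨_, h2, le_rfl⟩
  exact ⟨z, CLG_backR h h1 hz1 (sT hz2), hz2⟩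

theorem Geo.cl_BL (h : Geo Ω l r) {S T : Set ℂ} (hS : IsPathConnected S) (hT : IsPathConnected T)
    (sS : S ⊆ closure Ω) (sT : T ⊆ closure Ω) {a b c y : ℝ} (hab : a < b)
    (ha : (⟨a, Real.pi⟩ : ℂ) ∈ S) (hb : (⟨b, Real.pi⟩ : ℂ) ∈ T) (hy : y ∈ Ioo 0 Real.pi)
    (h1 : (⟨c, 0⟩ : ℂ) ∈ S) (h2 : (⟨l y, y⟩ : ℂ) ∈ T) : (S ∩ T).Nonempty := by
  obtain ⟨M, hM⟩ := CLG_bound h
  have k2 : -M ≤ l y := (hM _ (sT h2)).1.le
  have i2 := CLG_inL h sT hM h2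
  obtain ⟨z, hz1, hz2⟩ := cross_BL (L := -M) (R := M) (c := 0) hS (CLG_extL hT h2 k2)
    (fun z hz => ⟨((h.mem_closure z).1 (sS hz)).1.2, (hM z (sS hz)).1.le, (hM z (sS hz)).2.le⟩)
    (fun z hz => ⟨(i2 z hz).1, (i2 z hz).2.1⟩)
    hab ha (Or.inl hb) ⟨_, h1, le_rfl⟩ ⟨⟨-M, y⟩, Or.inr ⟨rfl, le_rfl, k2⟩, le_rfl⟩
  exact ⟨z, hz1, CLG_backL h h2 hz2 (sS hz1)⟩

theorem Geo.cl_TT (h : Geo Ω l r) {S T : Set ℂ} (hS : IsPathConnected S) (hT : IsPathConnected T)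
    (sS : S ⊆ closure Ω) (sT : T ⊆ closure Ω) {a b e : ℝ} (hab : a < b) (hbe : b < e)
    (ha : (⟨a, Real.pi⟩ : ℂ) ∈ S) (he : (⟨e, Real.pi⟩ : ℂ) ∈ S) (hb : (⟨b, Real.pi⟩ : ℂ) ∈ T)
    {p : ℂ} (hp : Arc l r p) (hpT : p ∈ T) : (S ∩ T).Nonempty := by
  obtain ⟨M, hM⟩ := CLG_bound h
  have iS : ∀ z ∈ S, 0 ≤ z.im ∧ z.im ≤ Real.pi ∧ -M < z.re ∧ z.re < M := fun z hz =>
    ⟨((h.mem_closure z).1 (sS hz)).1.1, ((h.mem_closure z).1 (sS hz)).1.2, hM z (sS hz)⟩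
  rcases hp.2 with e1 | e1
  · have h2 : (⟨l p.im, p.im⟩ : ℂ) ∈ T := by rw [← e1]; exact hpT
    have k2 : -M ≤ l p.im := (hM _ (sT h2)).1.le
    have i2 := CLG_inL h sT hM h2
    obtain ⟨z, hz1, hz2⟩ := cross_TT (L := -M) (R := M) (c := 0) hS (CLG_extL hT h2 k2) iS
      (fun z hz => ⟨(i2 z hz).2.1, (i2 z hz).2.2.1, (i2 z hz).2.2.2.le⟩) hab hbe ha he
      (Or.inl hb) ⟨⟨-M, p.im⟩, Or.inr ⟨rfl, le_rfl, k2⟩, Or.inl rfl⟩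
    exact ⟨z, hz1, CLG_backL h h2 hz2 (sS hz1)⟩
  · have h1 : (⟨r p.im, p.im⟩ : ℂ) ∈ T := by rw [← e1]; exact hpT
    have k1 : r p.im ≤ M := (hM _ (sT h1)).2.le
    have i1 := CLG_inR h sT hM h1
    obtain ⟨z, hz1, hz2⟩ := cross_TT (L := -M) (R := M) (c := 0) hS (CLG_extR hT h1 k1) iS
      (fun z hz => ⟨(i1 z hz).2.1, (i1 z hz).2.2.1.le, (i1 z hz).2.2.2⟩) hab hbe ha he
      (Or.inl hb) ⟨⟨M, p.im⟩, Or.inr ⟨rfl, k1, le_rfl⟩, Or.inr rfl⟩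
    exact ⟨z, hz1, CLG_backR h h1 hz2 (sS hz1)⟩

end Pool.Agent.L2K
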