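import Pool.Agent.P.MP_2f6447_an.K.Geo1

/-! The upper boundary as a concave graph. -/

open Set MeasureTheory Filter Topology Complex Metric
open scoped ContDiff ComplexConjugate

namespace Pool.Agent.L2K

variable {Ω U : Set ℂ} {lam : ℝ} {u w f g : ℂ → ℝ}

theorem Top_bdd (h : Dom Ω) (x : ℝ) : BddAbove {y : ℝ | (⟨x, y⟩ : ℂ) ∈ Ω} := by
  obtain ⟨R, hR⟩ := h.bdd.exists_norm_le
  refine ⟨R, fun y hy => ?_⟩
  have h1 := hR _ hy
  have h2 := Complex.abs_im_le_norm (⟨x, y⟩ : ℂ)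
  have h3 : y ≤ |y| := le_abs_self y
  exact h3.trans (h2.trans h1)

theorem Top_comb (x y x' y' s t : ℝ) :
    s • (⟨x, y⟩ : ℂ) + t • (⟨x', y'⟩ : ℂ) = ⟨s * x + t * x', s * y + t * y'⟩ := by
  apply Complex.ext <;> simp

theorem Top_cont (x : ℝ) : Continuous fun y : ℝ => (⟨x, y⟩ : ℂ) := by
  have : (fun y : ℝ => (⟨x, y⟩ : ℂ)) = fun y : ℝ => (x : ℂ) + (y : ℂ) * I := by
    funext y; apply Complex.ext <;> simp
  rw [this]; fun_prop

theorem Top_cont' (y : ℝ) : Continuous fun x : ℝ => (⟨x, y⟩ : ℂ) := by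
  have : (fun x : ℝ => (⟨x, y⟩ : ℂ)) = fun x : ℝ => (x : ℂ) + (y : ℂ) * I := by
    funext x; apply Complex.ext <;> simp
  rw [this]; fun_prop

theorem Top_ne {x : ℝ} (hx : x ∈ proj Ω) : {y : ℝ | (⟨x, y⟩ : ℂ) ∈ Ω}.Nonempty := by
  obtain ⟨z, hz, rfl⟩ := hx
  exact ⟨z.im, hz⟩

theorem Top_mem_proj {x y : ℝ} (hz : (⟨x, y⟩ : ℂ) ∈ Ω) : x ∈ proj Ω := ⟨_, hz, rfl⟩

theorem Top_le (h : Dom Ω) {x y : ℝ} (hz : (⟨x, y⟩ : ℂ) ∈ Ω) : y ≤ top Ω x :=
  le_csSup (Top_bdd h x) hz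

theorem Top_exists (h : Dom Ω) {x y : ℝ} (hx : x ∈ proj Ω) (hy : y < top Ω x) :
    ∃ y', y < y' ∧ (⟨x, y'⟩ : ℂ) ∈ Ω := by
  obtain ⟨y', h1, h2⟩ := exists_lt_of_lt_csSup (Top_ne hx) hy
  exact ⟨y', h2, h1⟩

theorem Dom.isOpen_proj (h : Dom Ω) : IsOpen (proj Ω) := Complex.isOpenMap_re _ h.isOpen

theorem Dom.convex_proj (h : Dom Ω) : Convex ℝ (proj Ω) := by
  rintro _ ⟨z, hz, rfl⟩ _ ⟨w, hw, rfl⟩ s t hs ht hst
  refine ⟨s • z + t • w, h.convex hz hw hs ht hst, ?_⟩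
  simp

theorem Dom.concaveOn_top (h : Dom Ω) : ConcaveOn ℝ (proj Ω) (top Ω) := by
  refine ⟨h.convex_proj, fun x hx x' hx' s t hs ht hst => ?_⟩
  simp only [smul_eq_mul]
  refine le_of_forall_pos_le_add fun ε hε => ?_
  obtain ⟨y, hy1, hy⟩ := Top_exists h hx (y := top Ω x - ε) (by linarith)
  obtain ⟨y', hy1', hy'⟩ := Top_exists h hx' (y := top Ω x' - ε) (by linarith)
  have h1 := h.convex hy hy' hs ht hst
  rw [Top_comb] at h1
  have h2 := Top_le h h1
  have h3 := mul_le_mul_of_nonneg_left hy1.le hs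
  have h4 := mul_le_mul_of_nonneg_left hy1'.le ht
  have h5 : s * ε + t * ε = ε := by rw [← add_mul, hst, one_mul]
  nlinarith

theorem Dom.continuousOn_top (h : Dom Ω) : ContinuousOn (top Ω) (proj Ω) :=
  h.concaveOn_top.continuousOn h.isOpen_proj

theorem Top_lt (h : Dom Ω) {x y : ℝ} (hz : (⟨x, y⟩ : ℂ) ∈ Ω) : y < top Ω x := by
  have ho : IsOpen {y : ℝ | (⟨x, y⟩ : ℂ) ∈ Ω} := h.isOpen.preimage (Top_cont x)
  obtain ⟨ε, hε, hb⟩ := Metric.isOpen_iff.1 ho y hz
  have h1 : y + ε / 2 ∈ ball y ε := by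
    rw [mem_ball, Real.dist_eq, add_sub_cancel_left, abs_of_pos (by linarith)]; linarith
  have h2 := Top_le h (hb h1)
  linarith

theorem Dom.top_frontier (h : Dom Ω) {x : ℝ} (hx : x ∈ proj Ω) :
    (⟨x, top Ω x⟩ : ℂ) ∈ frontier Ω := by
  rw [h.isOpen.frontier_eq]
  refine ⟨?_, fun hm => lt_irrefl _ (Top_lt h hm)⟩
  have h1 := csSup_mem_closure (Top_ne hx) (Top_bdd h x)
  exact map_mem_closure (Top_cont x) h1 fun y hy => hy

theorem Dom.lt_top (h : Dom Ω) {z : ℂ} (hz : z ∈ Ω) : z.im < top Ω z.re := Top_lt h hz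

theorem Dom.mem_of_le (h : Dom Ω) {x y y' : ℝ} (hz : (⟨x, y⟩ : ℂ) ∈ Ω) (h1 : y ≤ y')
    (h2 : y' < top Ω x) : (⟨x, y'⟩ : ℂ) ∈ Ω := by
  obtain ⟨y'', h3, h4⟩ := Top_exists h (Top_mem_proj hz) h2
  have hd : 0 < y'' - y := by linarith
  have h5 := h.convex hz h4 (a := (y'' - y') / (y'' - y)) (b := (y' - y) / (y'' - y))
    (div_nonneg (by linarith) hd.le) (div_nonneg (by linarith) hd.le) (by field_simp; ring)
  rw [Top_comb] at h5
  have e1 : (y'' - y') / (y'' - y) * x + (y' - y) / (y'' - y) * x = x := by field_simp; ring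
  have e2 : (y'' - y') / (y'' - y) * y + (y' - y) / (y'' - y) * y'' = y' := by field_simp; ring
  rwa [e1, e2] at h5

theorem Dom.top_eq (h : Dom Ω) {x y y' : ℝ} (hz : (⟨x, y⟩ : ℂ) ∈ Ω) (h1 : y ≤ y')
    (h2 : (⟨x, y'⟩ : ℂ) ∈ frontier Ω) : top Ω x = y' := by
  rw [h.isOpen.frontier_eq] at h2
  rcases lt_trichotomy (top Ω x) y' with h3 | h3 | h3
  · exfalso
    have h4 := Top_lt h hz
    have hd : 0 < y' - y := by linarith
    have hi : (⟨x, y⟩ : ℂ) ∈ interior Ω := by rwa [h.isOpen.interior_eq]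
    have h5 := h.convex.combo_interior_closure_mem_interior hi h2.1
      (a := (y' - top Ω x) / (y' - y)) (b := (top Ω x - y) / (y' - y))
      (div_pos (by linarith) hd) (div_nonneg (by linarith) hd.le) (by field_simp; ring)
    rw [Top_comb, h.isOpen.interior_eq] at h5
    have e1 : (y' - top Ω x) / (y' - y) * x + (top Ω x - y) / (y' - y) * x = x := by
      field_simp; ring
    have e2 : (y' - top Ω x) / (y' - y) * y + (top Ω x - y) / (y' - y) * y' = top Ω x := by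
      field_simp; ring
    rw [e1, e2] at h5
    exact lt_irrefl _ (Top_lt h h5)
  · exact h3
  · exact absurd (h.mem_of_le hz h1 h3) h2.2

theorem Top_ramp_lo {a b t : ℝ} (hab : a < b) (ht : t ≤ a) : ramp a b t = 0 := by
  have h1 : (t - a) / (b - a) ≤ 0 := div_nonpos_of_nonpos_of_nonneg (by linarith) (by linarith)
  unfold ramp
  exact max_eq_left ((min_le_right _ _).trans h1)

theorem Top_ramp_hi {a b t : ℝ} (hab : a < b) (ht : b ≤ t) : ramp a b t = 1 := by
  have h1 : 1 ≤ (t - a) / (b - a) := by rw [le_div_iff₀ (by linarith)]; linarith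
  unfold ramp
  rw [min_eq_left h1, max_eq_right zero_le_one]

theorem Top_ramp_mid {a b t : ℝ} (hab : a < b) (h1 : a ≤ t) (h2 : t ≤ b) :
    ramp a b t = (t - a) / (b - a) := by
  have h3 : (t - a) / (b - a) ≤ 1 := by rw [div_le_iff₀ (by linarith)]; linarith
  have h4 : 0 ≤ (t - a) / (b - a) := div_nonneg (by linarith) (by linarith)
  unfold ramp
  rw [min_eq_right h3, max_eq_right h4]

theorem Top_shear_eq (v : ℝ → ℝ) (a b ε x y : ℝ) :
    (⟨x, y⟩ : ℂ) + ε * shear v a b ⟨x, y⟩ = ⟨x, y + ε * v x * ramp a b y⟩ := by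
  apply Complex.ext <;> simp [shear, mul_assoc]

theorem Top_image (h : Dom Ω) {v : ℝ → ℝ} {x₀ x₁ a b ε : ℝ} (hab : a < b)
    (h0 : ∀ x, x ∉ Icc x₀ x₁ → v x = 0)
    (hr : ∀ x ∈ Icc x₀ x₁, ∀ y ∈ Icc a b, (⟨x, y⟩ : ℂ) ∈ Ω) (hε : ∀ x, |ε * v x| < b - a) :
    (fun z => z + ε * shear v a b z) '' Ω =
      {z : ℂ | (∃ y, y ≤ z.im ∧ (⟨z.re, y⟩ : ℂ) ∈ Ω) ∧ z.im < top Ω z.re + ε * v z.re} := by
  ext z
  constructor
  · rintro ⟨⟨x, t⟩, hw, rfl⟩
    simp only [Top_shear_eq, mem_ofPred_eq]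
    have hlt := Top_lt h hw
    obtain ⟨hc1, hc2⟩ := abs_lt.1 (hε x)
    by_cases hx : x ∈ Icc x₀ x₁
    · have ha := hr x hx a ⟨le_rfl, hab.le⟩
      have hb := Top_lt h (hr x hx b ⟨hab.le, le_rfl⟩)
      set c := ε * v x
      rcases le_total t a with h1 | h1
      · rw [Top_ramp_lo hab h1]
        exact ⟨⟨t, by simp, hw⟩, by linarith⟩
      · rcases le_total b t with h2 | h2
        · rw [Top_ramp_hi hab h2]
          exact ⟨⟨a, by linarith, ha⟩, by linarith⟩
        · rw [Top_ramp_mid hab h1 h2]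
          have hd : 0 < b - a := by linarith
          set r := (t - a) / (b - a) with hr'
          have r0 : 0 ≤ r := div_nonneg (by linarith) hd.le
          have r1 : r ≤ 1 := by rw [hr', div_le_iff₀ hd]; linarith
          have e : t = a + r * (b - a) := by rw [hr']; field_simp; ring
          refine ⟨⟨a, ?_, ha⟩, ?_⟩
          · nlinarith
          · nlinarith
    · rw [h0 x hx]
      exact ⟨⟨t, by simp, hw⟩, by simpa using hlt⟩
  · obtain ⟨x, s⟩ := z
    rintro ⟨⟨y, hy1, hy⟩, hs⟩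
    simp only at hy1 hy hs
    obtain ⟨hc1, hc2⟩ := abs_lt.1 (hε x)
    by_cases hx : x ∈ Icc x₀ x₁
    · have hb' := hr x hx b ⟨hab.le, le_rfl⟩
      have hb := Top_lt h hb'
      rcases le_total s a with h1 | h1
      · refine ⟨⟨x, s⟩, h.mem_of_le hy hy1 (by linarith), ?_⟩
        simp only [Top_shear_eq, Top_ramp_lo hab h1, mul_zero, add_zero]
      · rcases le_total (b + ε * v x) s with h2 | h2
        · refine ⟨⟨x, s - ε * v x⟩, h.mem_of_le hb' (by linarith) (by linarith), ?_⟩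
          have h3 : b ≤ s - ε * v x := by linarith
          simp only [Top_shear_eq, Top_ramp_hi hab h3, mul_one, sub_add_cancel]
        · set c := ε * v x with hc
          have hd : 0 < b - a + c := by linarith
          have hd' : 0 < b - a := by linarith
          set r := (s - a) / (b - a + c) with hr'
          have r0 : 0 ≤ r := div_nonneg (by linarith) hd.le
          have r1 : r ≤ 1 := by rw [hr', div_le_iff₀ hd]; linarith
          have t1 : a ≤ a + r * (b - a) := by nlinarith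
          have t2 : a + r * (b - a) ≤ b := by nlinarith
          refine ⟨⟨x, a + r * (b - a)⟩, hr x hx _ ⟨t1, t2⟩, ?_⟩
          simp only [Top_shear_eq, Top_ramp_mid hab t1 t2]
          have e : a + r * (b - a) + ε * v x * ((a + r * (b - a) - a) / (b - a)) = s := by
            rw [← hc, add_sub_cancel_left, mul_div_assoc, div_self hd'.ne', mul_one]
            have : r * (b - a + c) = s - a := by rw [hr']; field_simp
            linarith
          rw [e]
    · rw [h0 x hx] at hs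
      refine ⟨⟨x, s⟩, h.mem_of_le hy hy1 (by simpa using hs), ?_⟩
      simp only [Top_shear_eq, h0 x hx, mul_zero, zero_mul, add_zero]

theorem Dom.shear_convex (h : Dom Ω) {v : ℝ → ℝ} {K : NNReal} (hv : LipschitzWith K v)
    {x₀ x₁ a b : ℝ} (hab : a < b) (h0 : ∀ x, x ∉ Icc x₀ x₁ → v x = 0)
    (hr : ∀ x ∈ Icc x₀ x₁, ∀ y ∈ Icc a b, (⟨x, y⟩ : ℂ) ∈ Ω) (ha : Adm Ω v) :
    ∀ᶠ ε : ℝ in 𝓝[>] 0, Convex ℝ ((fun z => z + ε * shear v a b z) '' Ω) := by
  obtain ⟨M, hM⟩ := (isCompact_Icc (a := x₀) (b := x₁)).exists_bound_of_continuousOn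
    hv.continuous.continuousOn
  have hM' : ∀ x, |v x| ≤ |M| := fun x => by
    by_cases hx : x ∈ Icc x₀ x₁
    · exact (hM x hx).trans (le_abs_self M)
    · rw [h0 x hx, abs_zero]; exact abs_nonneg M
  have hsm : ∀ᶠ ε : ℝ in 𝓝[>] 0, |ε| * |M| < b - a := by
    apply Filter.Eventually.filter_mono nhdsWithin_le_nhds
    have hc : Continuous fun ε : ℝ => |ε| * |M| := by fun_prop
    have := hc.tendsto 0
    simp only [abs_zero, zero_mul] at this
    exact this.eventually (gt_mem_nhds (by linarith))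
  filter_upwards [ha, hsm] with ε h1 h2
  have hε : ∀ x, |ε * v x| < b - a := fun x => by
    rw [abs_mul]
    exact (mul_le_mul_of_nonneg_left (hM' x) (abs_nonneg ε)).trans_lt h2
  rw [Top_image h hab h0 hr hε]
  rintro z ⟨⟨y, hy1, hy⟩, hz⟩ w ⟨⟨y', hy1', hy'⟩, hw⟩ s t hs ht hst
  have h3 := h.convex hy hy' hs ht hst
  rw [Top_comb] at h3
  have h4 := h1.2 (Top_mem_proj hy) (Top_mem_proj hy') hs ht hst
  simp only [smul_eq_mul] at h4
  have e1 : (s • z + t • w).re = s * z.re + t * w.re := by simp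
  have e2 : (s • z + t • w).im = s * z.im + t * w.im := by simp
  simp only [mem_ofPred_eq, e1, e2]
  refine ⟨⟨_, ?_, h3⟩, lt_of_lt_of_le ?_ h4⟩
  · have h5 := mul_le_mul_of_nonneg_left hy1 hs
    have h6 := mul_le_mul_of_nonneg_left hy1' ht
    linarith
  · rcases hs.eq_or_lt with h5 | h5
    · have h6 : t = 1 := by linarith
      rw [← h5, h6]; simpa using hw
    · have h6 := mul_lt_mul_of_pos_left hz h5
      have h7 := mul_le_mul_of_nonneg_left hw.le ht
      linarith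

theorem Dom.not_affOn (h : Dom Ω) {x a b : ℝ} (hab : Icc a b ⊆ proj Ω) (hx : x ∈ Ioo a b)
    (he : Ext Ω ⟨x, top Ω x⟩) : ¬ AffOn (top Ω) a b := by
  rintro ⟨α, β, hc⟩
  have hlt : a < b := hx.1.trans hx.2
  have ea := hc a ⟨le_rfl, hlt.le⟩
  have eb := hc b ⟨hlt.le, le_rfl⟩
  have key : ∀ s t : ℝ, 0 ≤ s → 0 ≤ t → s + t = 1 →
      s • (⟨a, top Ω a⟩ : ℂ) + t • (⟨b, top Ω b⟩ : ℂ) = ⟨s * a + t * b, top Ω (s * a + t * b)⟩ ∧
        s * a + t * b ∈ Icc a b := by
    intro s t hs ht hst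
    have e : s = 1 - t := by linarith
    have hm : s * a + t * b ∈ Icc a b := by
      subst e; constructor <;> nlinarith
    refine ⟨?_, hm⟩
    rw [Top_comb, hc _ hm, ea, eb]
    subst e
    apply Complex.ext
    · rfl
    · simp only; ring
  refine he.2 ⟨a, top Ω a⟩ ⟨b, top Ω b⟩ ?_ ?_ ?_
  · intro e
    exact hlt.ne (congrArg Complex.re e)
  · rintro _ ⟨s, t, hs, ht, hst, rfl⟩
    obtain ⟨e, hm⟩ := key s t hs ht hst
    rw [e]
    exact h.top_frontier (hab hm)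
  · have hd : 0 < b - a := by linarith
    have hs : 0 < (b - x) / (b - a) := div_pos (by linarith [hx.2]) hd
    have ht : 0 < (x - a) / (b - a) := div_pos (by linarith [hx.1]) hd
    have hst : (b - x) / (b - a) + (x - a) / (b - a) = 1 := by field_simp; ring
    refine ⟨_, _, hs, ht, hst, ?_⟩
    rw [(key _ _ hs.le ht.le hst).1]
    have e : (b - x) / (b - a) * a + (x - a) / (b - a) * b = x := by field_simp; ring
    rw [e]

theorem Top_loc (h : Dom Ω) {x : ℝ} (hx : x ∈ proj Ω) (he : ¬ Ext Ω ⟨x, top Ω x⟩) :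
    ∃ α β : ℝ, top Ω =ᶠ[𝓝 x] fun t => α + β * t := by
  have hf := h.top_frontier hx
  have h1 : ∃ A B : ℂ, A ≠ B ∧ segment ℝ A B ⊆ frontier Ω ∧
      (⟨x, top Ω x⟩ : ℂ) ∈ openSegment ℝ A B := by
    by_contra hn
    exact he ⟨hf, fun A B h1 h2 h3 => hn ⟨A, B, h1, h2, h3⟩⟩
  obtain ⟨⟨a, p⟩, ⟨b, q⟩, hAB, hseg, s, t, hs, ht, hst, e⟩ := h1
  rw [Top_comb] at e
  have e1 : s * a + t * b = x := congrArg Complex.re e
  have e2 : s * p + t * q = top Ω x := congrArg Complex.im e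
  obtain ⟨y₀, hy₀⟩ := Top_ne hx
  have hy₀' : (⟨x, y₀⟩ : ℂ) ∈ Ω := hy₀
  have hlt := Top_lt h hy₀'
  -- points of the line through the segment, parametrised near the graph point
  have hpt : ∀ᶠ η : ℝ in 𝓝 0, (⟨x + η * (b - a), top Ω x + η * (q - p)⟩ : ℂ) ∈ frontier Ω := by
    filter_upwards [Ioo_mem_nhds (show -t < 0 by linarith) hs] with η hη
    apply hseg
    refine ⟨s - η, t + η, by linarith [hη.2], by linarith [hη.1], by linarith, ?_⟩
    rw [Top_comb]
    apply Complex.ext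
    · simp only; rw [← e1]; ring
    · simp only; rw [← e2]; ring
  have hin : ∀ᶠ η : ℝ in 𝓝 0, (⟨x + η * (b - a), y₀⟩ : ℂ) ∈ Ω := by
    have hc : Continuous fun η : ℝ => (⟨x + η * (b - a), y₀⟩ : ℂ) :=
      (Top_cont' y₀).comp (by fun_prop)
    apply hc.continuousAt.eventually_mem
    simpa using h.isOpen.mem_nhds hy₀'
  have hle : ∀ᶠ η : ℝ in 𝓝 0, y₀ < top Ω x + η * (q - p) := by
    have hc : Continuous fun η : ℝ => top Ω x + η * (q - p) := by fun_prop
    have := hc.tendsto 0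
    simp only [zero_mul, add_zero] at this
    exact this.eventually (lt_mem_nhds hlt)
  have hall : ∀ᶠ η : ℝ in 𝓝 0, top Ω (x + η * (b - a)) = top Ω x + η * (q - p) := by
    filter_upwards [hpt, hin, hle] with η k1 k2 k3
    exact h.top_eq k2 k3.le k1
  have hne : b - a ≠ 0 := by
    intro h0
    have hq : q - p ≠ 0 := by
      intro h1
      apply hAB
      apply Complex.ext
      · simp only; linarith
      · simp only; linarith
    obtain ⟨η, k1, k2⟩ := ((hall.filter_mono (nhdsWithin_le_nhds (s := Ioi 0))).and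
      self_mem_nhdsWithin).exists
    rw [h0, mul_zero, add_zero] at k1
    have k3 : η * (q - p) = 0 := by linarith
    rcases mul_eq_zero.1 k3 with k4 | k4
    · exact (ne_of_gt k2) k4
    · exact hq k4
  refine ⟨top Ω x - x * ((q - p) / (b - a)), (q - p) / (b - a), ?_⟩
  have hc : Tendsto (fun t : ℝ => (t - x) / (b - a)) (𝓝 x) (𝓝 0) := by
    have hc' : Continuous fun t : ℝ => (t - x) / (b - a) := by fun_prop
    have := hc'.tendsto x
    simpa using this
  filter_upwards [hc.eventually hall] with r hr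
  have e3 : x + (r - x) / (b - a) * (b - a) = r := by field_simp; ring
  rw [e3] at hr
  rw [hr]; field_simp; ring

theorem Dom.top_affine (h : Dom Ω) {a b : ℝ} (hab : Icc a b ⊆ proj Ω)
    (he : ∀ x ∈ Ioo a b, ¬ Ext Ω ⟨x, top Ω x⟩) : AffOn (top Ω) a b := by
  rcases le_or_gt b a with h1 | h1
  · refine ⟨top Ω a, 0, fun x hx => ?_⟩
    have : x = a := le_antisymm (hx.2.trans h1) hx.1
    rw [this]; simp
  have hloc : ∀ x ∈ Ioo a b, ∃ α β : ℝ, top Ω =ᶠ[𝓝 x] fun t => α + β * t := fun x hx =>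
    Top_loc h (hab (Ioo_subset_Icc_self hx)) (he x hx)
  have han : AnalyticOnNhd ℝ (top Ω) (Ioo a b) := fun x hx => by
    obtain ⟨α, β, e⟩ := hloc x hx
    have : AnalyticAt ℝ (fun t : ℝ => α + β * t) x := by fun_prop
    exact this.congr e.symm
  have hm : (a + b) / 2 ∈ Ioo a b := ⟨by linarith, by linarith⟩
  obtain ⟨α, β, e⟩ := hloc _ hm
  have han' : AnalyticOnNhd ℝ (fun t : ℝ => α + β * t) (Ioo a b) := fun x _ => by fun_prop
  have heq := han.eqOn_of_preconnected_of_eventuallyEq han' isPreconnected_Ioo hm e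
  refine ⟨α, β, heq.of_subset_closure (h.continuousOn_top.mono hab) (by fun_prop)
    Ioo_subset_Icc_self ?_⟩
  rw [closure_Ioo h1.ne]

end Pool.Agent.L2K
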