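import Pool.Agent.P.MP_2f6447_an.K.Seg
import Pool.Agent.P.MP_2f6447_an.K.Top

/-! The identity on every vertical chord. -/

open Set MeasureTheory Filter Topology Complex Metric
open scoped ContDiff ComplexConjugate

namespace Pool.Agent.L2K

variable {Ω U : Set ℂ} {lam : ℝ} {u w f g : ℂ → ℝ}
variable {l r : ℝ → ℝ} {nT nB n φ : ℝ}

theorem ChordV_between (h : Dom Ω) {x y₀ y₁ y₂ : ℝ} (h0 : (⟨x, y₀⟩ : ℂ) ∈ Ω)
    (h2 : (⟨x, y₂⟩ : ℂ) ∈ closure Ω) (hy : y₀ < y₁ ∧ y₁ < y₂ ∨ y₂ < y₁ ∧ y₁ < y₀) :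
    (⟨x, y₁⟩ : ℂ) ∈ Ω := by
  have hne : y₂ - y₀ ≠ 0 := by
    rcases hy with hy | hy
    · linarith [hy.1, hy.2, (sub_pos.2 (hy.1.trans hy.2)).ne']
    · exact (sub_neg.2 (hy.1.trans hy.2)).ne
  have ht : 0 ≤ (y₁ - y₀) / (y₂ - y₀) ∧ (y₁ - y₀) / (y₂ - y₀) < 1 := by
    rcases hy with hy | hy
    · have hp : 0 < y₂ - y₀ := by linarith [hy.1, hy.2]
      exact ⟨div_nonneg (by linarith [hy.1]) hp.le, (div_lt_one hp).2 (by linarith [hy.2])⟩
    · have hp : y₂ - y₀ < 0 := by linarith [hy.1, hy.2]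
      exact ⟨div_nonneg_of_nonpos (by linarith [hy.2]) hp.le,
        (div_lt_one_of_neg hp).2 (by linarith [hy.1])⟩
  have h3 := h.combo_mem h0 h2 ht.1 ht.2
  have e : (⟨x, y₁⟩ : ℂ) = ⟨x, y₀⟩ + (((y₁ - y₀) / (y₂ - y₀) : ℝ) : ℂ) * (⟨x, y₂⟩ - ⟨x, y₀⟩) := by
    apply Complex.ext
    · simp only [add_re, re_ofReal_mul, sub_re, sub_self, mul_zero, add_zero]
    · simp only [add_im, im_ofReal_mul, sub_im]
      rw [div_mul_cancel₀ _ hne]
      ring
  rw [e]
  exact h3

theorem ChordV_null (h : Dom Ω) {x : ℝ} (hx : x ∈ proj Ω) :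
    ∀ᵐ y : ℝ, (⟨x, y⟩ : ℂ) ∉ frontier Ω := by
  obtain ⟨y₀, h0⟩ := Top_ne hx
  have hA : Set.Subsingleton {y : ℝ | (⟨x, y⟩ : ℂ) ∈ frontier Ω ∧ y₀ < y} := by
    intro a ha b hb
    by_contra hab
    rcases lt_or_gt_of_ne hab with hl | hl
    · exact h.notMem_of_frontier ha.1
        (ChordV_between h h0 (frontier_subset_closure hb.1) (Or.inl ⟨ha.2, hl⟩))
    · exact h.notMem_of_frontier hb.1
        (ChordV_between h h0 (frontier_subset_closure ha.1) (Or.inl ⟨hb.2, hl⟩))
  have hB : Set.Subsingleton {y : ℝ | (⟨x, y⟩ : ℂ) ∈ frontier Ω ∧ y < y₀} := by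
    intro a ha b hb
    by_contra hab
    rcases lt_or_gt_of_ne hab with hl | hl
    · exact h.notMem_of_frontier hb.1
        (ChordV_between h h0 (frontier_subset_closure ha.1) (Or.inr ⟨hl, hb.2⟩))
    · exact h.notMem_of_frontier ha.1
        (ChordV_between h h0 (frontier_subset_closure hb.1) (Or.inr ⟨hl, ha.2⟩))
  filter_upwards [hA.countable.ae_notMem volume, hB.countable.ae_notMem volume] with y h1 h2 hy
  rcases lt_trichotomy y₀ y with hl | hl | hl
  · exact h1 ⟨hy, hl⟩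
  · exact h.notMem_of_frontier hy (hl ▸ h0)
  · exact h2 ⟨hy, hl⟩

theorem ChordV_cont (h : Dom Ω) {Φ : ℂ → ℝ} (hm : Measurable Φ) {M : ℝ} (hM : ∀ z, |Φ z| ≤ M)
    (hc : ContinuousOn Φ Ω) {x : ℝ} (hx : x ∈ proj Ω) :
    ContinuousAt (fun x : ℝ => ∫ y : ℝ, Ω.indicator Φ ⟨x, y⟩) x := by
  obtain ⟨R, hR⟩ := h.bdd.exists_norm_le
  have hF : Measurable (Ω.indicator Φ) := hm.indicator h.isOpen.measurableSet
  refine continuousAt_of_dominated (bound := (Icc (-R) R).indicator fun _ => M) ?_ ?_ ?_ ?_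
  · exact Eventually.of_forall fun x => (hF.comp (Top_cont x).measurable).aestronglyMeasurable
  · refine Eventually.of_forall fun x => Eventually.of_forall fun y => ?_
    by_cases hz : (⟨x, y⟩ : ℂ) ∈ Ω
    · have h1 : y ∈ Icc (-R) R := abs_le.1 ((Complex.abs_im_le_norm ⟨x, y⟩).trans (hR _ hz))
      rw [indicator_of_mem hz, indicator_of_mem h1]
      exact hM _
    · rw [indicator_of_notMem hz, norm_zero]
      exact indicator_nonneg (fun _ _ => (abs_nonneg _).trans (hM 0)) _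
  · exact (integrable_indicator_iff measurableSet_Icc).2 (integrableOn_const measure_Icc_lt_top.ne)
  · filter_upwards [ChordV_null h hx] with y hy
    refine ContinuousAt.comp (g := Ω.indicator Φ) (f := fun x : ℝ => (⟨x, y⟩ : ℂ)) ?_
      (Top_cont' y).continuousAt
    by_cases hz : (⟨x, y⟩ : ℂ) ∈ Ω
    · refine (hc.continuousAt (h.isOpen.mem_nhds hz)).congr ?_
      filter_upwards [h.isOpen.mem_nhds hz] with z hz'
      rw [indicator_of_mem hz']
    · have h1 : (⟨x, y⟩ : ℂ) ∉ closure Ω := fun h1 => hy ⟨h1, fun h2 => hz (interior_subset h2)⟩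
      refine (continuousAt_const (y := (0 : ℝ))).congr ?_
      filter_upwards [isClosed_closure.isOpen_compl.mem_nhds h1] with z hz'
      rw [indicator_of_notMem fun h2 => hz' (subset_closure h2)]

theorem ChordV_deriv {a b : ℝ} (hab : a < b) :
    ∀ᵐ t : ℝ, deriv (fun t => max a (min b t)) t = (Ioc a b).indicator (fun _ => (1 : ℝ)) t := by
  filter_upwards [(countable_singleton a).ae_notMem volume,
    (countable_singleton b).ae_notMem volume] with t ha hb
  rcases lt_or_gt_of_ne (show t ≠ a from ha) with h1 | h1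
  · rw [indicator_of_notMem fun h2 => absurd h2.1 (not_lt.2 h1.le)]
    refine ((hasDerivAt_const t a).congr_of_eventuallyEq ?_).deriv
    filter_upwards [Iio_mem_nhds h1] with s hs
    exact max_eq_left ((min_le_right _ _).trans (le_of_lt hs))
  rcases lt_or_gt_of_ne (show t ≠ b from hb) with h2 | h2
  · rw [indicator_of_mem (show t ∈ Ioc a b from ⟨h1, h2.le⟩)]
    refine ((hasDerivAt_id t).congr_of_eventuallyEq ?_).deriv
    filter_upwards [Ioo_mem_nhds h1 h2] with s hs
    rw [min_eq_right hs.2.le, max_eq_right hs.1.le, id]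
  · rw [indicator_of_notMem fun h3 => absurd h3.2 (not_le.2 h2)]
    refine ((hasDerivAt_const t b).congr_of_eventuallyEq ?_).deriv
    filter_upwards [Ioi_mem_nhds h2] with s hs
    rw [min_eq_left (le_of_lt hs), max_eq_right hab.le]

theorem ChordV_zero (h : Dom Ω) {Φ : ℂ → ℝ} (hm : Measurable Φ) {M : ℝ} (hM : ∀ z, |Φ z| ≤ M)
    (hc : ContinuousOn Φ Ω) (hz : ∀ (χ : ℝ → ℝ) (K : NNReal), LipschitzWith K χ →
      ∫ z in Ω, deriv χ z.re * Φ z = 0) (x : ℝ) : ∫ y : ℝ, Ω.indicator Φ ⟨x, y⟩ = 0 := by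
  by_cases hx : x ∈ proj Ω
  swap
  · have e : ∀ y : ℝ, Ω.indicator Φ ⟨x, y⟩ = 0 := fun y =>
      indicator_of_notMem (fun h1 => hx (Top_mem_proj h1)) _
    simp only [e, integral_zero]
  have hΩ := h.isOpen.measurableSet
  have hi : Integrable (Ω.indicator Φ) :=
    (Measure.integrableOn_of_bounded h.volume_ne_top hm.aestronglyMeasurable
      (Eventually.of_forall hM)).integrable_indicator hΩ
  have hS : Integrable fun x : ℝ => ∫ y : ℝ, Ω.indicator Φ ⟨x, y⟩ :=
    (Basic_prod hi).2.integral_prod_left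
  have key : ∀ a b : ℝ, a < b → ∫ x in a..b, ∫ y : ℝ, Ω.indicator Φ ⟨x, y⟩ = 0 := by
    intro a b hab
    have hL : LipschitzWith 1 fun t : ℝ => max a (min b t) :=
      (LipschitzWith.id.const_min b).const_max a
    have h1 := hz _ _ hL
    have hi2 : Integrable fun z : ℂ =>
        deriv (fun t : ℝ => max a (min b t)) z.re * Ω.indicator Φ z :=
      hi.bdd_mul (c := ((1 : NNReal) : ℝ))
        ((measurable_deriv _).comp Complex.measurable_re).aestronglyMeasurable
        (Eventually.of_forall fun z => norm_deriv_le_of_lipschitz hL)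
    rw [← integral_indicator hΩ] at h1
    have h2 : (Ω.indicator fun z : ℂ => deriv (fun t : ℝ => max a (min b t)) z.re * Φ z) =
        fun z : ℂ => deriv (fun t : ℝ => max a (min b t)) z.re * Ω.indicator Φ z := by
      funext z
      exact indicator_mul_right _ _ _
    rw [h2, integral_eq_re_im hi2] at h1
    rw [intervalIntegral.integral_of_le hab.le, ← integral_indicator measurableSet_Ioc, ← h1]
    refine integral_congr_ae ?_
    filter_upwards [ChordV_deriv hab] with t ht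
    simp only [integral_const_mul, ht]
    by_cases h3 : t ∈ Ioc a b
    · rw [indicator_of_mem h3, indicator_of_mem h3, one_mul]
    · rw [indicator_of_notMem h3, indicator_of_notMem h3, zero_mul]
  have h1 := intervalIntegral.integral_hasDerivAt_right (hS.intervalIntegrable (a := x - 1))
    hS.aestronglyMeasurable.stronglyMeasurableAtFilter (ChordV_cont h hm hM hc hx)
  have h2 := (hasDerivAt_const x (0 : ℝ)).congr_of_eventuallyEq
    (Filter.eventuallyEq_of_mem (Ioi_mem_nhds (sub_one_lt x)) fun b hb => key (x - 1) b hb)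
  exact h1.unique h2

theorem Str.chord_all (h : Str Ω lam u l r) (x : ℝ) : ∫ y in {y : ℝ | (⟨x, y⟩ : ℂ) ∈ Ω},
    ((grad u ⟨x, y⟩).re ^ 2 - (grad u ⟨x, y⟩).im ^ 2 + lam * u ⟨x, y⟩ ^ 2 - 1) = 0 := by
  have hD : Dom Ω := h.toGeo.dom
  obtain ⟨K, hK⟩ := h.toMn.lip.lip
  obtain ⟨M, hM⟩ := h.toMn.lip.exists_bound hD.bdd
  have hg := measurable_grad u
  have hu := h.toMn.lip.continuous
  have hc := h.toMn.helm.continuousOn_grad
  have h1 := ChordV_zero hD
    (Φ := fun z => (grad u z).re ^ 2 - (grad u z).im ^ 2 + lam * u z ^ 2 - 1)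
    (((((Complex.measurable_re.comp hg).pow_const 2).sub
      ((Complex.measurable_im.comp hg).pow_const 2)).add
        ((hu.measurable.pow_const 2).const_mul lam)).sub_const 1)
    (M := K ^ 2 + K ^ 2 + |lam| * M ^ 2 + 1) (fun z => ?_)
    (((((Complex.continuous_re.comp_continuousOn hc).pow 2).sub
      ((Complex.continuous_im.comp_continuousOn hc).pow 2)).add
        (continuousOn_const.mul (hu.continuousOn.pow 2))).sub continuousOn_const)
    (fun χ K hχ => h.chordV hχ) x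
  · have hm : MeasurableSet {y : ℝ | (⟨x, y⟩ : ℂ) ∈ Ω} :=
      (Top_cont x).measurable hD.isOpen.measurableSet
    rw [← integral_indicator hm, ← h1]
    rfl
  · have a1 : (grad u z).re ^ 2 ≤ K ^ 2 := by
      rw [← sq_abs]
      exact pow_le_pow_left₀ (abs_nonneg _)
        ((Complex.abs_re_le_norm _).trans (norm_grad_le hK z)) 2
    have a2 : (grad u z).im ^ 2 ≤ K ^ 2 := by
      rw [← sq_abs]
      exact pow_le_pow_left₀ (abs_nonneg _)
        ((Complex.abs_im_le_norm _).trans (norm_grad_le hK z)) 2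
    have a3 : |lam * u z ^ 2| ≤ |lam| * M ^ 2 := by
      rw [abs_mul, abs_pow]
      exact mul_le_mul_of_nonneg_left (pow_le_pow_left₀ (abs_nonneg _) (hM z) 2) (abs_nonneg _)
    have a4 := abs_le.1 a3
    have a5 := sq_nonneg (grad u z).re
    have a6 := sq_nonneg (grad u z).im
    exact abs_le.2 ⟨by linarith [a4.1], by linarith [a4.2]⟩


end Pool.Agent.L2K
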