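import Pool.Agent.P.MP_2f6447_an.K.Basic

/-! Hopf lemma and maximum principles with barriers. -/

open Set MeasureTheory Filter Topology Complex Metric
open scoped ContDiff ComplexConjugate

namespace Pool.Agent.L2K

variable {Ω U : Set ℂ} {lam : ℝ} {u w f g : ℂ → ℝ}

theorem Hopf_max {K : Set ℂ} (hK : IsCompact K) {F : ℂ → ℝ} (hF : ContinuousOn F K)
    (h : ∀ z ∈ K, 0 < F z → K ∈ 𝓝 z ∧ ContDiffAt ℝ 2 F z ∧ 0 < lap F z) : ∀ z ∈ K, F z ≤ 0 := by
  intro z hz
  by_contra hpos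
  push Not at hpos
  obtain ⟨p, hp, hmax⟩ := hK.exists_isMaxOn ⟨z, hz⟩ hF
  have hp0 : 0 < F p := lt_of_lt_of_le hpos (hmax hz)
  obtain ⟨h1, h2, h3⟩ := h p hp hp0
  have := lap_nonpos_of_isLocalMax h2 (hmax.isLocalMax h1)
  linarith

theorem Hopf_D_comp {β β' : ℝ → ℝ} (hβ : ∀ t, HasDerivAt β (β' t) t) {q : ℂ → ℝ}
    (hq : Differentiable ℝ q) (v z : ℂ) : D v (fun x => β (q x)) z = β' (q z) * D v q z := by
  have h := (hβ (q z)).comp_hasFDerivAt z (hq z).hasFDerivAt
  have e : fderiv ℝ (fun x => β (q x)) z = β' (q z) • fderiv ℝ q z := h.fderiv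
  simp only [D, e, smul_apply, smul_eq_mul]

theorem Hopf_D_mul {a b : ℂ → ℝ} {z : ℂ} (ha : DifferentiableAt ℝ a z) (hb : DifferentiableAt ℝ b z)
    (v : ℂ) : D v (fun x => a x * b x) z = a z * D v b z + b z * D v a z := by
  have e := fderiv_fun_mul ha hb
  simp only [D, e, add_apply, smul_apply, smul_eq_mul]

theorem Hopf_lap_comp {β β' β'' : ℝ → ℝ} (hβ : ∀ t, HasDerivAt β (β' t) t)
    (hβ' : ∀ t, HasDerivAt β' (β'' t) t) {q : ℂ → ℝ} (hq : Differentiable ℝ q)
    (hq' : ∀ v, Differentiable ℝ (D v q)) (z : ℂ) :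
    lap (fun x => β (q x)) z =
      β'' (q z) * ((D 1 q z) ^ 2 + (D I q z) ^ 2) + β' (q z) * lap q z := by
  have key : ∀ v, D v (D v (fun x => β (q x))) z =
      β'' (q z) * (D v q z) ^ 2 + β' (q z) * D v (D v q) z := by
    intro v
    have e : D v (fun x => β (q x)) = fun x => β' (q x) * D v q x :=
      funext fun x => Hopf_D_comp hβ hq v x
    have hd : DifferentiableAt ℝ (fun x => β' (q x)) z :=
      ((hβ' (q z)).comp_hasFDerivAt z (hq z).hasFDerivAt).differentiableAt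
    rw [e, Hopf_D_mul hd (hq' v z), Hopf_D_comp hβ' hq]
    ring
  simp only [lap, key]
  ring

theorem Hopf_hasFDerivAt_dot (n z : ℂ) :
    HasFDerivAt (fun x => dot x n) (n.re • reCLM + n.im • imCLM : ℂ →L[ℝ] ℝ) z := by
  have h := (n.re • reCLM + n.im • imCLM : ℂ →L[ℝ] ℝ).hasFDerivAt (x := z)
  have e : (fun x => dot x n) = ⇑(n.re • reCLM + n.im • imCLM : ℂ →L[ℝ] ℝ) := by
    funext x
    simp [dot, mul_comm]
  rw [e]
  exact h

theorem Hopf_D_dot (n v : ℂ) : D v (fun x => dot x n) = fun _ => dot v n := by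
  funext z
  simp only [D, (Hopf_hasFDerivAt_dot n z).fderiv]
  simp [dot, mul_comm]

theorem Hopf_contDiff_dot (n : ℂ) : ContDiff ℝ 2 (fun x => dot x n) := by
  unfold dot
  exact (reCLM.contDiff.mul contDiff_const).add (imCLM.contDiff.mul contDiff_const)

theorem Hopf_lap_dot {β β' β'' : ℝ → ℝ} (hβ : ∀ t, HasDerivAt β (β' t) t)
    (hβ' : ∀ t, HasDerivAt β' (β'' t) t) (n z : ℂ) :
    lap (fun x => β (dot x n)) z = β'' (dot z n) * (n.re ^ 2 + n.im ^ 2) := by
  have h := Hopf_lap_comp hβ hβ' (q := fun x => dot x n)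
    (fun x => (Hopf_hasFDerivAt_dot n x).differentiableAt)
    (fun v => by rw [Hopf_D_dot]; exact differentiable_const _) z
  have h0 : lap (fun x => dot x n) z = 0 := by
    simp [lap, Hopf_D_dot, D]
  rw [h, h0, Hopf_D_dot, Hopf_D_dot]
  simp [dot]

theorem Hopf_lap_sub {a b : ℂ → ℝ} {z : ℂ} (ha : ContDiffAt ℝ 2 a z) (hb : ContDiffAt ℝ 2 b z) :
    lap (fun x => a x - b x) z = lap a z - lap b z := by
  have hb' : ContDiffAt ℝ 2 (fun x => (-1 : ℝ) * b x) z := contDiffAt_const.mul hb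
  have e : (fun x => a x - b x) = fun x => a x + (-1 : ℝ) * b x := by
    funext x
    ring
  rw [e, lap_add ha hb', lap_const_mul]
  ring

theorem Hopf_two (h : Helm lam U w) {z : ℂ} (hz : z ∈ U) : ContDiffAt ℝ 2 w z :=
  (h.contDiffAt hz).of_le (by norm_cast)

/-- squared distance -/
def Hopf_q (c z : ℂ) : ℝ := (z.re - c.re) ^ 2 + (z.im - c.im) ^ 2

theorem Hopf_q_eq (c z : ℂ) : Hopf_q c z = ‖z - c‖ ^ 2 := by
  rw [Complex.sq_norm, normSq_apply, Hopf_q]
  simp only [sub_re, sub_im]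
  ring

theorem Hopf_q_contDiff (c : ℂ) : ContDiff ℝ 2 (Hopf_q c) := by
  unfold Hopf_q
  exact ((reCLM.contDiff.sub contDiff_const).pow 2).add ((imCLM.contDiff.sub contDiff_const).pow 2)

theorem Hopf_D_q (c v : ℂ) : D v (Hopf_q c) = fun z => dot z (2 * v) - dot c (2 * v) := by
  funext z
  have h1 : HasFDerivAt (fun x : ℂ => x.re - c.re) reCLM z := reCLM.hasFDerivAt.sub_const _
  have h2 : HasFDerivAt (fun x : ℂ => x.im - c.im) imCLM z := imCLM.hasFDerivAt.sub_const _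
  have h := (h1.pow 2).add (h2.pow 2)
  have e : fderiv ℝ (Hopf_q c) z = _ := h.fderiv
  simp only [D, e]
  simp [dot]
  ring

theorem Hopf_DD_q (c v : ℂ) (z : ℂ) : D v (D v (Hopf_q c)) z = dot v (2 * v) := by
  rw [Hopf_D_q]
  have h := (Hopf_hasFDerivAt_dot (2 * v) z).sub_const (dot c (2 * v))
  simp only [D, h.fderiv]
  simp [dot, mul_comm]

theorem Hopf_lap_gauss (c z : ℂ) (A B : ℝ) :
    lap (fun x => Real.exp (-A * Hopf_q c x) - B) z =
      4 * A * Real.exp (-A * Hopf_q c z) * (A * Hopf_q c z - 1) := by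
  have hβ : ∀ t : ℝ, HasDerivAt (fun s => Real.exp (-A * s) - B) (-A * Real.exp (-A * t)) t := by
    intro t
    have := (((hasDerivAt_id t).const_mul (-A)).exp).sub_const B
    simpa [mul_comm] using this
  have hβ' : ∀ t : ℝ, HasDerivAt (fun s => -A * Real.exp (-A * s))
      (A ^ 2 * Real.exp (-A * t)) t := by
    intro t
    have := (((hasDerivAt_id t).const_mul (-A)).exp).const_mul (-A)
    refine this.congr_deriv ?_
    simp only [id]
    ring
  have h := Hopf_lap_comp hβ hβ' (q := Hopf_q c)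
    ((Hopf_q_contDiff c).differentiable (by norm_num))
    (fun v => by
      rw [Hopf_D_q]
      exact fun x => ((Hopf_hasFDerivAt_dot (2 * v) x).sub_const _).differentiableAt) z
  rw [h, lap, Hopf_DD_q, Hopf_DD_q, Hopf_D_q, Hopf_D_q]
  simp only [dot, Hopf_q]
  simp
  ring

theorem Hopf_annulus {c : ℂ} {ρ ρ' m : ℝ} (h : Helm lam (ball c ρ) w) (hl : 0 ≤ lam) (hρ : 0 < ρ)
    (h0 : ∀ z ∈ ball c ρ, 0 < w z) (hm : 0 < m) (hm' : ∀ z, ‖z - c‖ ≤ ρ / 2 → m ≤ w z)
    (hρ' : ρ' < ρ) {z : ℂ} (hz : ρ / 2 ≤ ‖z - c‖) (hz' : ‖z - c‖ ≤ ρ') :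
    m * (Real.exp (-(8 / ρ ^ 2) * ‖z - c‖ ^ 2) - Real.exp (-(8 / ρ ^ 2) * ρ' ^ 2)) ≤ w z := by
  set A : ℝ := 8 / ρ ^ 2 with hA
  have hApos : 0 < A := by positivity
  set K : Set ℂ := closedBall c ρ' \ ball c (ρ / 2) with hK
  have hKc : IsCompact K := (isCompact_closedBall c ρ').diff isOpen_ball
  have hKs : K ⊆ ball c ρ := fun x hx => closedBall_subset_ball hρ' hx.1
  have hG : ContDiff ℝ 2 fun x => Real.exp (-A * Hopf_q c x) - Real.exp (-A * ρ' ^ 2) :=
    ((contDiff_const.mul (Hopf_q_contDiff c)).exp).sub contDiff_const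
  have hG' : ContDiff ℝ 2 fun x => m * (Real.exp (-A * Hopf_q c x) - Real.exp (-A * ρ' ^ 2)) :=
    contDiff_const.mul hG
  have key := Hopf_max hKc
    (F := fun x => m * (Real.exp (-A * Hopf_q c x) - Real.exp (-A * ρ' ^ 2)) - w x)
    (hG'.continuous.continuousOn.sub (h.continuousOn.mono hKs)) ?_ z
    ⟨mem_closedBall_iff_norm.2 hz', fun hh => absurd (mem_ball_iff_norm.1 hh) (not_lt.2 hz)⟩
  · rw [Hopf_q_eq] at key
    linarith
  · intro x hx hpos
    have hx1 : ‖x - c‖ ≤ ρ' := mem_closedBall_iff_norm.1 hx.1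
    have hx2 : ρ / 2 ≤ ‖x - c‖ := not_lt.1 fun hh => hx.2 (mem_ball_iff_norm.2 hh)
    have hwx := h0 x (hKs hx)
    have hx1' : ‖x - c‖ < ρ' := by
      refine lt_of_le_of_ne hx1 fun e => ?_
      simp only [Hopf_q_eq, e, sub_self, mul_zero] at hpos
      linarith
    have hx2' : ρ / 2 < ‖x - c‖ := by
      refine lt_of_le_of_ne hx2 fun e => ?_
      have h1 := hm' x e.ge
      have h2 : Real.exp (-A * Hopf_q c x) ≤ 1 := by
        apply Real.exp_le_one_iff.2
        rw [Hopf_q_eq]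
        nlinarith [sq_nonneg ‖x - c‖]
      have h3 := Real.exp_pos (-A * ρ' ^ 2)
      nlinarith
    refine ⟨?_, hG'.contDiffAt.sub (Hopf_two h (hKs hx)), ?_⟩
    · have h1 : ball c ρ' ∩ (closedBall c (ρ / 2))ᶜ ∈ 𝓝 x :=
        (isOpen_ball.inter isClosed_closedBall.isOpen_compl).mem_nhds
          ⟨mem_ball_iff_norm.2 hx1', fun hh => absurd (mem_closedBall_iff_norm.1 hh) (not_le.2 hx2')⟩
      exact mem_of_superset h1 fun y hy =>
        ⟨ball_subset_closedBall hy.1, fun hh => hy.2 (ball_subset_closedBall hh)⟩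
    · rw [Hopf_lap_sub hG'.contDiffAt (Hopf_two h (hKs hx)), lap_const_mul, Hopf_lap_gauss]
      have h1 := h.eq x (hKs hx)
      have h2 : 0 ≤ lam * w x := mul_nonneg hl hwx.le
      have h3 : 0 < A * Hopf_q c x - 1 := by
        rw [Hopf_q_eq]
        have h4 : (ρ / 2) ^ 2 ≤ ‖x - c‖ ^ 2 := by gcongr
        have h5 : A * (ρ / 2) ^ 2 = 2 := by
          rw [hA]
          field_simp
          norm_num
        nlinarith
      have h6 := Real.exp_pos (-A * Hopf_q c x)
      have h7 : 0 < m * (4 * A * Real.exp (-A * Hopf_q c x) * (A * Hopf_q c x - 1)) := by positivity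
      linarith

theorem hopf {c : ℂ} {ρ : ℝ} (h : Helm lam (ball c ρ) w) (hl : 0 ≤ lam) (hρ : 0 < ρ)
    (h0 : ∀ z ∈ ball c ρ, 0 < w z) : ∃ a, 0 < a ∧ ∀ z ∈ ball c ρ, a * (ρ - ‖z - c‖) ≤ w z := by
  have hs : closedBall c (ρ / 2) ⊆ ball c ρ := closedBall_subset_ball (by linarith)
  obtain ⟨p, hp, hmin⟩ := (isCompact_closedBall c (ρ / 2)).exists_isMinOn
    ⟨c, mem_closedBall_self (by linarith)⟩ (h.continuousOn.mono hs)
  have hm : 0 < w p := h0 p (hs hp)
  have hm' : ∀ z, ‖z - c‖ ≤ ρ / 2 → w p ≤ w z := fun z hz => hmin (mem_closedBall_iff_norm.2 hz)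
  have he := Real.exp_pos (-8)
  have he1 : Real.exp (-8) ≤ 1 := Real.exp_le_one_iff.2 (by norm_num)
  refine ⟨w p * Real.exp (-8) / ρ, by positivity, fun z hz => ?_⟩
  have hz1 : ‖z - c‖ < ρ := mem_ball_iff_norm.1 hz
  have hz0 := norm_nonneg (z - c)
  set r := ‖z - c‖ with hr
  rcases le_total r (ρ / 2) with hc | hc
  · refine le_trans ?_ (hm' z hc)
    rw [div_mul_eq_mul_div, div_le_iff₀ hρ]
    have h1 : Real.exp (-8) * (ρ - r) ≤ ρ := by nlinarith
    nlinarith
  · have key := Hopf_annulus h hl hρ h0 hm hm' (ρ' := (r + ρ) / 2) (by linarith) hc (by linarith)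
    rw [← hr] at key
    refine le_trans ?_ key
    set A : ℝ := 8 / ρ ^ 2 with hA
    have hApos : 0 < A := by positivity
    set s := (r + ρ) / 2 with hs'
    have hA8 : A * ρ ^ 2 = 8 := by
      rw [hA]
      field_simp
    have h1 : Real.exp (-8) ≤ Real.exp (-A * s ^ 2) := by
      apply Real.exp_le_exp.2
      have : s ^ 2 ≤ ρ ^ 2 := by
        have : s ≤ ρ := by linarith
        have : 0 ≤ s := by linarith
        gcongr
      nlinarith
    have h2 : Real.exp (-A * r ^ 2) = Real.exp (-A * s ^ 2) * Real.exp (A * (s ^ 2 - r ^ 2)) := by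
      rw [← Real.exp_add]
      congr 1
      ring
    have h3 := Real.add_one_le_exp (A * (s ^ 2 - r ^ 2))
    have h4 : (ρ - r) / ρ ≤ A * (s ^ 2 - r ^ 2) := by
      rw [div_le_iff₀ hρ]
      have h5 : ρ * ((ρ - r) / 2) ≤ s ^ 2 - r ^ 2 := by
        have e : s ^ 2 - r ^ 2 = (s + r) * ((ρ - r) / 2) := by
          rw [hs']
          ring
        rw [e]
        have : ρ ≤ s + r := by linarith
        have : 0 ≤ (ρ - r) / 2 := by linarith
        gcongr
      have h6 : A * (ρ * ((ρ - r) / 2)) * ρ ≤ A * (s ^ 2 - r ^ 2) * ρ := by gcongr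
      have h7 : A * (ρ * ((ρ - r) / 2)) * ρ = 4 * (ρ - r) := by
        have : A * (ρ * ((ρ - r) / 2)) * ρ = A * ρ ^ 2 * ((ρ - r) / 2) := by ring
        rw [this, hA8]
        ring
      linarith
    have h8 : 0 ≤ (ρ - r) / ρ := div_nonneg (by linarith) hρ.le
    have h9 : Real.exp (-8) * ((ρ - r) / ρ) ≤ Real.exp (-A * r ^ 2) - Real.exp (-A * s ^ 2) := by
      rw [h2]
      have := Real.exp_pos (-A * s ^ 2)
      nlinarith
    have e : w p * Real.exp (-8) / ρ * (ρ - r) = w p * (Real.exp (-8) * ((ρ - r) / ρ)) := by ring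
    rw [e]
    gcongr

theorem narrow (h : Helm lam U f) (hb : Bornology.IsBounded U) (hc : ContinuousOn f (closure U))
    {n : ℂ} (hn : ‖n‖ = 1) {a b : ℝ} (hab : ∀ z ∈ U, a ≤ dot z n ∧ dot z n ≤ b)
    (hw : lam * (b - a) ^ 2 < Real.pi ^ 2) (h0 : ∀ z ∈ frontier U, f z ≤ 0) : ∀ z ∈ U, f z ≤ 0 := by
  intro z hz
  by_contra hpos
  push Not at hpos
  have hL : 0 ≤ b - a := by linarith [(hab z hz).1, (hab z hz).2]
  have hpi := Real.pi_pos
  obtain ⟨κ, hκ0, hκ1, hκ2⟩ : ∃ κ : ℝ, 0 ≤ κ ∧ lam < κ ^ 2 ∧ κ * (b - a) < Real.pi := by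
    set s := Real.sqrt (max lam 0) with hs
    have hs0 : 0 ≤ s := Real.sqrt_nonneg _
    have hs2 : s ^ 2 = max lam 0 := Real.sq_sqrt (le_max_right _ _)
    have h1 : s * (b - a) < Real.pi := by
      apply lt_of_pow_lt_pow_left₀ 2 hpi.le
      rw [mul_pow, hs2]
      rcases le_total lam 0 with h2 | h2
      · rw [max_eq_right h2, zero_mul]
        positivity
      · rw [max_eq_left h2]
        exact hw
    have hd : 0 < (Real.pi - s * (b - a)) / (b - a + 1) := div_pos (by linarith) (by linarith)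
    refine ⟨s + (Real.pi - s * (b - a)) / (b - a + 1), by linarith, ?_, ?_⟩
    · have := le_max_left lam 0
      nlinarith
    · have h2 : (Real.pi - s * (b - a)) / (b - a + 1) * (b - a + 1) = Real.pi - s * (b - a) :=
        div_mul_cancel₀ _ (by linarith)
      nlinarith
  set φ : ℂ → ℝ := fun x => Real.cos (κ * (dot x n - (a + b) / 2)) with hφ
  have hφc : ContDiff ℝ 2 φ := (contDiff_const.mul ((Hopf_contDiff_dot n).sub contDiff_const)).cos
  have hcl : ∀ x ∈ closure U, a ≤ dot x n ∧ dot x n ≤ b := by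
    have hcl : IsClosed {x : ℂ | a ≤ dot x n ∧ dot x n ≤ b} :=
      (isClosed_le continuous_const (Hopf_contDiff_dot n).continuous).inter
        (isClosed_le (Hopf_contDiff_dot n).continuous continuous_const)
    exact fun x hx => closure_minimal (fun y hy => hab y hy) hcl hx
  have hφp : ∀ x ∈ closure U, 0 < φ x := by
    intro x hx
    obtain ⟨h1, h2⟩ := hcl x hx
    apply Real.cos_pos_of_mem_Ioo
    constructor <;> nlinarith
  have hlap : ∀ x, lap φ x = -κ ^ 2 * φ x := by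
    intro x
    have hβ : ∀ t : ℝ, HasDerivAt (fun s => Real.cos (κ * (s - (a + b) / 2)))
        (-κ * Real.sin (κ * (t - (a + b) / 2))) t := by
      intro t
      have := (((hasDerivAt_id t).sub_const ((a + b) / 2)).const_mul κ).cos
      refine this.congr_deriv ?_
      simp only [id]
      ring
    have hβ' : ∀ t : ℝ, HasDerivAt (fun s => -κ * Real.sin (κ * (s - (a + b) / 2)))
        (-κ ^ 2 * Real.cos (κ * (t - (a + b) / 2))) t := by
      intro t
      have := ((((hasDerivAt_id t).sub_const ((a + b) / 2)).const_mul κ).sin).const_mul (-κ)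
      refine this.congr_deriv ?_
      simp only [id]
      ring
    have h1 := Hopf_lap_dot hβ hβ' n x
    have h2 : n.re ^ 2 + n.im ^ 2 = 1 := by
      have := Complex.sq_norm n
      rw [hn, normSq_apply] at this
      nlinarith
    rw [h2, mul_one] at h1
    exact h1
  have hK : IsCompact (closure U) := hb.isCompact_closure
  obtain ⟨p, hp, hmax⟩ := hK.exists_isMaxOn ⟨z, subset_closure hz⟩
    (hc.div hφc.continuous.continuousOn fun x hx => (hφp x hx).ne')
  have ht : 0 < f p / φ p :=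
    lt_of_lt_of_le (div_pos hpos (hφp z (subset_closure hz))) (hmax (subset_closure hz))
  have hφpp := hφp p hp
  have hfp : 0 < f p := by
    by_contra hh
    push Not at hh
    exact absurd ht (not_lt.2 (div_nonpos_of_nonpos_of_nonneg hh hφpp.le))
  have hpU : p ∈ U := by
    by_contra hh
    have : p ∈ frontier U := by
      rw [h.isOpen.frontier_eq]
      exact ⟨hp, hh⟩
    exact absurd (h0 p this) (not_le.2 hfp)
  set t := f p / φ p with htt
  have e : t * φ p = f p := div_mul_cancel₀ _ hφpp.ne'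
  have hloc : IsLocalMax (fun x => f x - t * φ x) p := by
    filter_upwards [h.isOpen.mem_nhds hpU] with x hx
    have h1 : f x / φ x ≤ t := hmax (subset_closure hx)
    rw [div_le_iff₀ (hφp x (subset_closure hx))] at h1
    linarith
  have hφt : ContDiffAt ℝ 2 (fun x => t * φ x) p := contDiffAt_const.mul hφc.contDiffAt
  have h1 := lap_nonpos_of_isLocalMax ((Hopf_two h hpU).sub hφt) hloc
  rw [Hopf_lap_sub (Hopf_two h hpU) hφt, lap_const_mul, hlap] at h1
  have h2 := h.eq p hpU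
  have h3 : t * (-κ ^ 2 * φ p) = -κ ^ 2 * f p := by
    rw [← e]
    ring
  rw [h3] at h1
  nlinarith

theorem Hopf_half (h : Helm lam U w) (hc : Continuous w) (hU : ∀ z ∈ U, z.im < 0)
    (hz : ∀ z, z ∉ U → w z = 0) {ε : ℝ} (hε : 0 < ε) (hε1 : ε ≤ 1) (hl0 : 0 ≤ lam) (hl : lam ≤ ε)
    (hb : ∀ z : ℂ, ‖z‖ ≤ 1 → |w z| ≤ |z.im| + ε) {t : ℝ} (ht : 0 ≤ t) (ht' : t ≤ 1 / 2) :
    w (-(t * I)) ≤ (1 + 6 * ε) * t := by
  set K : Set ℂ := Icc (-(1 / 2) : ℝ) (1 / 2) ×ℂ Icc (-(1 / 2) : ℝ) 0 with hK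
  have hKc : IsCompact K := isCompact_Icc.reProdIm isCompact_Icc
  set P : ℂ → ℝ := fun x => 4 * ε * dot x 1 ^ 2 with hP
  set Q : ℂ → ℝ := fun x => -(1 + 6 * ε) * dot x I - 6 * ε * dot x I ^ 2 with hQ
  have hPc : ContDiff ℝ 2 P := contDiff_const.mul ((Hopf_contDiff_dot 1).pow 2)
  have hQc : ContDiff ℝ 2 Q := (contDiff_const.mul (Hopf_contDiff_dot I)).sub
    (contDiff_const.mul ((Hopf_contDiff_dot I).pow 2))
  have hlP : ∀ x, lap P x = 8 * ε := by
    intro x
    have hβ : ∀ s : ℝ, HasDerivAt (fun s : ℝ => 4 * ε * s ^ 2) (8 * ε * s) s := by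
      intro s
      have := ((hasDerivAt_id s).pow 2).const_mul (4 * ε)
      refine this.congr_deriv ?_
      simp only [id]
      norm_num
      ring
    have hβ' : ∀ s : ℝ, HasDerivAt (fun s : ℝ => 8 * ε * s) (8 * ε) s := by
      intro s
      simpa using (hasDerivAt_id s).const_mul (8 * ε)
    have h1 := Hopf_lap_dot (β'' := fun _ => 8 * ε) hβ hβ' 1 x
    simpa using h1
  have hlQ : ∀ x, lap Q x = -(12 * ε) := by
    intro x
    have hβ : ∀ s : ℝ, HasDerivAt (fun s : ℝ => -(1 + 6 * ε) * s - 6 * ε * s ^ 2)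
        (-(1 + 6 * ε) - 12 * ε * s) s := by
      intro s
      have := ((hasDerivAt_id s).const_mul (-(1 + 6 * ε))).sub
        (((hasDerivAt_id s).pow 2).const_mul (6 * ε))
      refine this.congr_deriv ?_
      simp only [id]
      norm_num
      ring
    have hβ' : ∀ s : ℝ, HasDerivAt (fun s : ℝ => -(1 + 6 * ε) - 12 * ε * s) (-(12 * ε)) s := by
      intro s
      simpa using ((hasDerivAt_id s).const_mul (12 * ε)).const_sub (-(1 + 6 * ε))
    have h1 := Hopf_lap_dot (β'' := fun _ => -(12 * ε)) hβ hβ' I x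
    refine h1.trans ?_
    simp
  have hPv : ∀ x, P x = 4 * ε * x.re ^ 2 := by
    intro x
    simp [hP, dot]
  have hQv : ∀ x, Q x = -(1 + 6 * ε) * x.im - 6 * ε * x.im ^ 2 := by
    intro x
    simp [hQ, dot]
  have key := Hopf_max hKc (F := fun x => w x - (P x + Q x))
    (hc.sub (hPc.add hQc).continuous).continuousOn ?_ (-(t * I))
    (by
      rw [hK, mem_reProdIm]
      simp only [neg_re, mul_re, ofReal_re, I_re, mul_zero, ofReal_im, I_im, mul_one, sub_self,
        neg_zero, neg_im, mul_im, add_zero, mem_Icc]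
      refine ⟨⟨by norm_num, by norm_num⟩, by linarith, by linarith⟩)
  · rw [hPv, hQv] at key
    simp only [neg_re, mul_re, ofReal_re, I_re, mul_zero, ofReal_im, I_im, mul_one, sub_self,
      neg_zero, neg_im, mul_im, add_zero] at key
    nlinarith [mul_nonneg hε.le (sq_nonneg t)]
  · intro x hx hpos
    rw [hK, mem_reProdIm] at hx
    obtain ⟨⟨h1, h2⟩, h3, h4⟩ := hx
    have hx1 : ‖x‖ ≤ 1 := by
      have := Complex.norm_le_abs_re_add_abs_im x
      have a1 : |x.re| ≤ 1 / 2 := abs_le.2 ⟨h1, h2⟩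
      have a2 : |x.im| ≤ 1 / 2 := abs_le.2 ⟨h3, by linarith⟩
      linarith
    have hw := hb x hx1
    rw [abs_of_nonpos h4] at hw
    have hw1 := (abs_le.1 hw).2
    rw [hPv, hQv] at hpos
    have a1 : 0 ≤ ε * x.re ^ 2 := by positivity
    have a2 : 0 ≤ ε * (-x.im * (1 + x.im)) :=
      mul_nonneg hε.le (mul_nonneg (by linarith) (by linarith))
    have hxU : x ∈ U := by
      by_contra hh
      rw [hz x hh] at hpos
      nlinarith
    have b1 : -(1 / 2) < x.re := by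
      refine lt_of_le_of_ne h1 fun e => ?_
      rw [← e] at hpos
      nlinarith
    have b2 : x.re < 1 / 2 := by
      refine lt_of_le_of_ne h2 fun e => ?_
      rw [e] at hpos
      nlinarith
    have b3 : -(1 / 2) < x.im := by
      refine lt_of_le_of_ne h3 fun e => ?_
      rw [← e] at hpos hw1
      nlinarith
    have b4 := hU x hxU
    refine ⟨?_, (Hopf_two h hxU).sub (hPc.add hQc).contDiffAt, ?_⟩
    · have ho : IsOpen (Ioo (-(1 / 2) : ℝ) (1 / 2) ×ℂ Ioo (-(1 / 2) : ℝ) 0) :=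
        isOpen_Ioo.reProdIm isOpen_Ioo
      refine mem_of_superset (ho.mem_nhds ⟨⟨b1, b2⟩, b3, b4⟩) fun y hy => ?_
      exact ⟨Ioo_subset_Icc_self hy.1, Ioo_subset_Icc_self hy.2⟩
    · rw [Hopf_lap_sub (Hopf_two h hxU) (hPc.add hQc).contDiffAt,
        lap_add hPc.contDiffAt hQc.contDiffAt, hlP, hlQ]
      have c1 := h.eq x hxU
      have c2 : lam * w x ≤ lam * (3 / 2) := mul_le_mul_of_nonneg_left (by linarith) hl0
      linarith

theorem half_disc (h : Helm lam U w) (hc : Continuous w) (hU : ∀ z ∈ U, z.im < 0)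
    (hz : ∀ z, z ∉ U → w z = 0) {ε : ℝ} (hε : 0 < ε) (hε1 : ε ≤ 1) (hl0 : 0 ≤ lam) (hl : lam ≤ ε)
    (hb : ∀ z : ℂ, ‖z‖ ≤ 1 → |w z| ≤ |z.im| + ε) {t : ℝ} (ht : 0 ≤ t) (ht' : t ≤ 1 / 2) :
    |w (-(t * I))| ≤ (1 + 6 * ε) * t := by
  have h1 := Hopf_half h hc hU hz hε hε1 hl0 hl hb ht ht'
  have h2 := Hopf_half h.neg hc.neg hU (fun z hh => by rw [hz z hh, neg_zero]) hε hε1 hl0 hl
    (fun z hh => by rw [abs_neg]; exact hb z hh) ht ht'
  exact abs_le.2 ⟨by linarith, h1⟩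

end Pool.Agent.L2K
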