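import Pool.Agent.P.MP_2f6447_an.K.HelmD
import Pool.Agent.P.MP_2f6447_an.K.Hopf

/-! A Lipschitz harmonic function in a cone of opening less than `π` that vanishes outside is zero.
The barrier is the real part of `ξ log ξ + A ξ`, `ξ = a z + 1`, which grows faster than linearly in
the closed cone. -/

open Set MeasureTheory Filter Topology Complex Metric
open scoped ContDiff ComplexConjugate

namespace Pool.Agent.L2K

variable {Ω U : Set ℂ} {lam : ℝ} {u w f g : ℂ → ℝ}

theorem Cone_lower {ξ : ℂ} {M : ℝ} (hM : 0 ≤ M) (h1 : 1 ≤ ξ.re) (h2 : |ξ.im| ≤ M * ξ.re) :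
    ξ.re * Real.log ξ.re ≤ (ξ * log ξ + ((M * Real.pi : ℝ) : ℂ) * ξ).re := by
  have ha : |arg ξ| ≤ Real.pi := abs_arg_le_pi ξ
  have hl : Real.log ξ.re ≤ Real.log ‖ξ‖ :=
    Real.log_le_log (by linarith) (re_le_norm ξ)
  have h3 : ξ.im * arg ξ ≤ M * ξ.re * Real.pi := by
    calc ξ.im * arg ξ ≤ |ξ.im * arg ξ| := le_abs_self _
      _ = |ξ.im| * |arg ξ| := abs_mul _ _
      _ ≤ M * ξ.re * Real.pi :=
        mul_le_mul h2 ha (abs_nonneg _) (mul_nonneg hM (by linarith))
  have h4 : ξ.re * Real.log ξ.re ≤ ξ.re * Real.log ‖ξ‖ :=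
    mul_le_mul_of_nonneg_left hl (by linarith)
  simp only [add_re, mul_re, log_re, log_im, ofReal_re, ofReal_im, zero_mul, sub_zero]
  nlinarith

theorem Cone_core {K : NNReal} (hw : LipschitzWith K w) (h : Helm 0 U w)
    (h0 : ∀ z, z ∉ U → w z = 0) (hz0 : (0 : ℂ) ∉ U) {a : ℂ} (ha : a ≠ 0) {M : ℝ} (hM : 0 ≤ M)
    (hU : ∀ z ∈ U, 0 ≤ (a * z).re ∧ |(a * z).im| ≤ M * (a * z).re) : ∀ z ∈ U, w z ≤ 0 := by
  set C : Set ℂ := {z | 0 ≤ (a * z).re ∧ |(a * z).im| ≤ M * (a * z).re} with hC
  have hCc : IsClosed C := by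
    have c1 : IsClosed {z : ℂ | 0 ≤ (a * z).re} := isClosed_le continuous_const (by fun_prop)
    have c2 : IsClosed {z : ℂ | |(a * z).im| ≤ M * (a * z).re} :=
      isClosed_le (by fun_prop) (by fun_prop)
    exact c1.inter c2
  have hUC : closure U ⊆ C := closure_minimal hU hCc
  set V : Set ℂ := {z | 0 < (a * z + 1).re} with hV
  have hVo : IsOpen V := isOpen_lt continuous_const (by fun_prop)
  have hCV : C ⊆ V := by
    intro z hz
    have := hz.1
    simp only [hV, mem_ofPred_eq, add_re, one_re]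
    linarith
  set F : ℂ → ℂ := fun z => (a * z + 1) * log (a * z + 1) + ((M * Real.pi : ℝ) : ℂ) * (a * z + 1)
    with hF
  have hFa : AnalyticOnNhd ℂ F V := by
    intro z hz
    have e1 : AnalyticAt ℂ (fun z : ℂ => a * z + 1) z := by fun_prop
    have e2 : AnalyticAt ℂ (fun z : ℂ => log (a * z + 1)) z :=
      e1.clog (Or.inl hz)
    exact (e1.mul e2).add (analyticAt_const.mul e1)
  have hH : Helm 0 V fun z => (F z).re := helm_re_of_analytic hVo hFa
  have hlow : ∀ z ∈ C, (a * z + 1).re * Real.log (a * z + 1).re ≤ (F z).re := by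
    intro z hz
    apply Cone_lower hM
    · have := hz.1
      simp only [add_re, one_re]; linarith
    · have := hz.2
      simp only [add_re, add_im, one_re, one_im, add_zero]; nlinarith
  have hge1 : ∀ z ∈ C, 1 ≤ (a * z + 1).re := by
    intro z hz
    have := hz.1
    simp only [add_re, one_re]; linarith
  have hpos : ∀ z ∈ C, 0 ≤ (F z).re := by
    intro z hz
    have e := hge1 z hz
    exact le_trans (mul_nonneg (by linarith) (Real.log_nonneg e)) (hlow z hz)
  have hap : 0 < ‖a‖ := norm_pos_iff.mpr ha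
  set c : ℝ := ‖a‖ / (1 + M) with hc
  have hcp : 0 < c := div_pos hap (by linarith)
  have hcz : ∀ z ∈ C, c * ‖z‖ ≤ (a * z + 1).re := by
    intro z hz
    have e1 : ‖a * z‖ ≤ |(a * z).re| + |(a * z).im| := norm_le_abs_re_add_abs_im _
    rw [abs_of_nonneg hz.1, norm_mul] at e1
    have e2 := hz.2
    have e3 : c * ‖z‖ ≤ (a * z).re := by
      rw [hc, div_mul_eq_mul_div, div_le_iff₀ (by linarith)]
      nlinarith
    simp only [add_re, one_re]; linarith
  have hwb : ∀ z, w z ≤ K * ‖z‖ := by
    intro z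
    have e := hw.dist_le_mul z 0
    rw [h0 0 hz0, dist_zero_right, dist_zero_right, Real.norm_eq_abs] at e
    exact le_trans (le_abs_self _) e
  have key : ∀ ε : ℝ, 0 < ε → ∀ z ∈ U, w z ≤ ε * (F z).re := by
    intro ε hε z hz
    set R : ℝ := max (‖z‖ + 1) (Real.exp (K / (ε * c)) / c) with hR
    have hWo : IsOpen (U ∩ ball (0 : ℂ) R) := h.isOpen.inter isOpen_ball
    have hWV : U ∩ ball (0 : ℂ) R ⊆ V := fun x hx => hCV (hU x hx.1)
    have hf : Helm 0 (U ∩ ball (0 : ℂ) R) fun x => w x - ε * (F x).re :=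
      (h.mono hWo inter_subset_left).sub ((hH.mono hWo hWV).const_mul ε)
    have hcl : closure (U ∩ ball (0 : ℂ) R) ⊆ C :=
      (closure_mono inter_subset_left).trans hUC
    have hcont : ContinuousOn (fun x => w x - ε * (F x).re) (closure (U ∩ ball (0 : ℂ) R)) :=
      hw.continuous.continuousOn.sub
        (continuousOn_const.mul (hH.continuousOn.mono (hcl.trans hCV)))
    have hn := narrow hf (isBounded_ball.subset inter_subset_right) hcont (n := 1) (by simp)
      (a := -R) (b := R) (by
        intro x hx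
        have e1 : ‖x‖ < R := by simpa using hx.2
        have e2 := abs_le.mp (abs_re_le_norm x)
        simp only [dot, one_re, one_im, mul_one, mul_zero, add_zero]
        constructor <;> linarith [e2.1, e2.2])
      (by rw [zero_mul]; exact pow_pos Real.pi_pos 2) (by
        intro x hx
        have hxC : x ∈ C := hcl (frontier_subset_closure hx)
        have hxn : x ∉ U ∩ ball (0 : ℂ) R := by
          rw [hWo.frontier_eq] at hx
          exact hx.2
        by_cases hxU : x ∈ U
        · have e1 : R ≤ ‖x‖ := by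
            by_contra hlt
            push Not at hlt
            exact hxn ⟨hxU, by simpa using hlt⟩
          have e2 : Real.exp (K / (ε * c)) / c ≤ ‖x‖ := le_trans (le_max_right _ _) e1
          have e3 : Real.exp (K / (ε * c)) ≤ (a * x + 1).re := by
            refine le_trans ?_ (hcz x hxC)
            rw [div_le_iff₀ hcp] at e2
            linarith
          have e4 : K / (ε * c) ≤ Real.log (a * x + 1).re := by
            rw [Real.le_log_iff_exp_le (by linarith [hge1 x hxC])]
            exact e3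
          have e5 : (0 : ℝ) ≤ K / (ε * c) := div_nonneg K.2 (mul_pos hε hcp).le
          have e6 : c * ‖x‖ * (K / (ε * c)) ≤ (F x).re :=
            le_trans (mul_le_mul (hcz x hxC) e4 e5 (by linarith [hge1 x hxC])) (hlow x hxC)
          have e7 : ε * (c * ‖x‖ * (K / (ε * c))) = K * ‖x‖ := by field_simp
          have e8 := mul_le_mul_of_nonneg_left e6 hε.le
          have e9 := hwb x
          show w x - ε * (F x).re ≤ 0
          linarith
        · have e1 := mul_nonneg hε.le (hpos x hxC)
          show w x - ε * (F x).re ≤ 0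
          rw [h0 x hxU]
          linarith)
    have hzW : z ∈ U ∩ ball (0 : ℂ) R := by
      refine ⟨hz, ?_⟩
      have : ‖z‖ + 1 ≤ R := le_max_left _ _
      simp only [mem_ball, dist_zero_right]
      linarith
    have := hn z hzW
    linarith
  intro z hz
  by_contra hlt
  push Not at hlt
  have e0 := hpos z (hU z hz)
  have e1 := key (w z / (2 * ((F z).re + 1))) (by positivity) z hz
  have e2 : w z / (2 * ((F z).re + 1)) * (F z).re < w z := by
    rw [div_mul_eq_mul_div, div_lt_iff₀ (by positivity)]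
    nlinarith
  linarith

theorem cone_zero {K : NNReal} (hw : LipschitzWith K w) (h : Helm 0 U w)
    (h0 : ∀ z, z ∉ U → w z = 0) {ν₁ ν₂ : ℂ} (h1 : ‖ν₁‖ = 1) (h2 : ‖ν₂‖ = 1) (hne : ν₁ ≠ ν₂)
    (hU : ∀ z ∈ U, dot z ν₁ < 0 ∧ dot z ν₂ < 0) : ∀ z, w z = 0 := by
  have hz0 : (0 : ℂ) ∉ U := by
    intro hz
    have := (hU 0 hz).1
    simp [dot] at this
  have n1 : ν₁.re ^ 2 + ν₁.im ^ 2 = 1 := by
    have e := Complex.sq_norm ν₁
    rw [h1, normSq_apply] at e
    nlinarith
  have n2 : ν₂.re ^ 2 + ν₂.im ^ 2 = 1 := by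
    have e := Complex.sq_norm ν₂
    rw [h2, normSq_apply] at e
    nlinarith
  by_cases hs : ν₁ + ν₂ = 0
  · intro z
    apply h0
    intro hz
    have e1 := congrArg re hs
    have e2 := congrArg im hs
    simp only [add_re, add_im, zero_re, zero_im] at e1 e2
    have e3 := hU z hz
    simp only [dot] at e3
    have e4 : ν₂.re = -ν₁.re := by linarith
    have e5 : ν₂.im = -ν₁.im := by linarith
    rw [e4, e5] at e3
    linarith [e3.1, e3.2]
  set p := ν₁.re + ν₂.re with hp
  set q := ν₁.im + ν₂.im with hq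
  set r := ν₁.re - ν₂.re with hr
  set t := ν₁.im - ν₂.im with ht
  have hN : 0 < p ^ 2 + q ^ 2 := by
    by_contra hle
    push Not at hle
    have e1 : p = 0 := by nlinarith
    have e2 : q = 0 := by nlinarith
    exact hs (Complex.ext (by simpa using e1) (by simpa using e2))
  have hD : 0 < r ^ 2 + t ^ 2 := by
    by_contra hle
    push Not at hle
    have e1 : r = 0 := by nlinarith
    have e2 : t = 0 := by nlinarith
    exact hne (Complex.ext (by linarith) (by linarith))
  have horth : p * r + q * t = 0 := by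
    rw [hp, hq, hr, ht]; nlinarith
  set κ := t * p - r * q with hκ
  have hκ2 : κ ^ 2 = (p ^ 2 + q ^ 2) * (r ^ 2 + t ^ 2) := by
    have : κ ^ 2 + (p * r + q * t) ^ 2 = (p ^ 2 + q ^ 2) * (r ^ 2 + t ^ 2) := by rw [hκ]; ring
    rw [horth] at this
    linarith
  have hκ0 : 0 < |κ| := by
    apply abs_pos.mpr
    intro e
    rw [e] at hκ2
    nlinarith [mul_pos hN hD]
  set a : ℂ := ⟨-p, q⟩ with ha
  have ha0 : a ≠ 0 := by
    intro e
    have e1 := congrArg re e
    have e2 := congrArg im e
    simp only [ha, zero_re, zero_im] at e1 e2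
    have e3 : p = 0 := by linarith
    rw [e3, e2] at hN
    simp at hN
  have hM : 0 ≤ (p ^ 2 + q ^ 2) / |κ| := (div_pos hN hκ0).le
  have hcone : ∀ z ∈ U, 0 ≤ (a * z).re ∧ |(a * z).im| ≤ (p ^ 2 + q ^ 2) / |κ| * (a * z).re := by
    intro z hz
    obtain ⟨e1, e2⟩ := hU z hz
    simp only [dot] at e1 e2
    have r1 : (a * z).re = -(p * z.re + q * z.im) := by simp only [ha, mul_re]; ring
    have r2 : (a * z).im = q * z.re - p * z.im := by simp only [ha, mul_im]; ring
    have r3 : |r * z.re + t * z.im| ≤ -(p * z.re + q * z.im) := by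
      rw [abs_le, hp, hq, hr, ht]
      constructor <;> nlinarith
    have r4 : κ * (q * z.re - p * z.im) = -((p ^ 2 + q ^ 2) * (r * z.re + t * z.im)) := by
      have : κ * (q * z.re - p * z.im) + (p ^ 2 + q ^ 2) * (r * z.re + t * z.im) =
          (p * r + q * t) * (p * z.re + q * z.im) := by rw [hκ]; ring
      rw [horth] at this
      linarith
    rw [r1, r2]
    refine ⟨le_trans (abs_nonneg _) r3, ?_⟩
    rw [div_mul_eq_mul_div, le_div_iff₀ hκ0, mul_comm, ← abs_mul, r4, abs_neg, abs_mul,
      abs_of_pos hN]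
    exact mul_le_mul_of_nonneg_left r3 hN.le
  have k1 := Cone_core hw h h0 hz0 ha0 hM hcone
  have k2 := Cone_core (w := fun z => -w z) hw.neg h.neg
    (fun z hz => by simp [h0 z hz]) hz0 ha0 hM hcone
  intro z
  by_cases hz : z ∈ U
  · have e1 := k1 z hz
    have e2 := k2 z hz
    linarith
  · exact h0 z hz

end Pool.Agent.L2K
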