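import Pool.Agent.P.MP_2f6447_an.K.PatB

/-! Signs near the boundary and near the ends of the nodal line. -/

open Set MeasureTheory Filter Topology Complex Metric
open scoped ContDiff ComplexConjugate

namespace Pool.Agent.L2K

variable {Ω U : Set ℂ} {lam : ℝ} {u w f g : ℂ → ℝ}
variable {l r : ℝ → ℝ} {nT nB n φ : ℝ}

theorem ConeT_dv (x s t : ℝ) : dist (⟨x, s⟩ : ℂ) ⟨x, t⟩ = |s - t| :=
  Complex.dist_of_re_eq (z := ⟨x, s⟩) (w := ⟨x, t⟩) rfl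

theorem ConeT_dh (s t y : ℝ) : dist (⟨s, y⟩ : ℂ) ⟨t, y⟩ = |s - t| :=
  Complex.dist_of_im_eq (z := ⟨s, y⟩) (w := ⟨t, y⟩) rfl

theorem ConeT_dot_top (h : Str Ω lam u l r) {x : ℝ} (hx : x ∈ Icc (l Real.pi) (r Real.pi)) :
    dot (Gr Ω u ⟨x, Real.pi⟩) (nu Ω ⟨x, Real.pi⟩) = -gT Ω u x := by
  rw [h.Gr_top hx, h.toGeo.nu_top h.toMn.noCorner hx]
  simp [dot]

theorem ConeT_dot_bot (h : Str Ω lam u l r) {x : ℝ} (hx : x ∈ Icc (l 0) (r 0)) :
    dot (Gr Ω u ⟨x, 0⟩) (nu Ω ⟨x, 0⟩) = -gB Ω u x := by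
  rw [h.Gr_bot hx, h.toGeo.nu_bot h.toMn.noCorner hx]
  simp [dot]

theorem ConeT_dot_left (h : Pat Ω lam u l r nT nB) {y : ℝ} (hy : y ∈ Icc 0 Real.pi) :
    0 < dot (Gr Ω u ⟨l y, y⟩) (nu Ω ⟨l y, y⟩) := by
  have hν := (h.toStr.toGeo.dom.isN_nu (h.toStr.toGeo.left_mem hy)).1
  rw [h.sgL y hy, dot_self, hν]
  norm_num

theorem ConeT_dot_right (h : Pat Ω lam u l r nT nB) {y : ℝ} (hy : y ∈ Icc 0 Real.pi) :
    dot (Gr Ω u ⟨r y, y⟩) (nu Ω ⟨r y, y⟩) < 0 := by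
  have hν := (h.toStr.toGeo.dom.isN_nu (h.toStr.toGeo.right_mem hy)).1
  have h1 := dot_self (nu Ω ⟨r y, y⟩)
  rw [hν] at h1
  rw [h.sgR y hy]
  simp only [dot, neg_re, neg_im] at h1 ⊢
  linarith

theorem Pat.bd_cases (h : Pat Ω lam u l r nT nB) {p : ℂ} (hp : p ∈ frontier Ω) :
    p = ⟨nT, Real.pi⟩ ∨ p = ⟨nB, 0⟩ ∨
      (0 < dot (Gr Ω u p) (nu Ω p) ∧ ((p.im = Real.pi ∧ p.re < nT) ∨ (p.im = 0 ∧ p.re < nB) ∨
        (p.im ∈ Ioo 0 Real.pi ∧ p.re = l p.im))) ∨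
      (dot (Gr Ω u p) (nu Ω p) < 0 ∧ ((p.im = Real.pi ∧ nT < p.re) ∨ (p.im = 0 ∧ nB < p.re) ∨
        (p.im ∈ Ioo 0 Real.pi ∧ p.re = r p.im))) := by
  obtain ⟨x, y⟩ := p
  obtain ⟨hy, hx, hc⟩ := (h.toStr.toGeo.mem_frontier _).1 hp
  dsimp only at hy hx hc ⊢
  by_cases h1 : y = Real.pi
  · subst h1
    have hd := ConeT_dot_top h.toStr hx
    rcases lt_trichotomy x nT with h2 | h2 | h2
    · have := h.gT_neg ⟨hx.1, h2⟩
      exact Or.inr (Or.inr (Or.inl ⟨by linarith, Or.inl ⟨rfl, h2⟩⟩))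
    · exact Or.inl (by rw [h2])
    · have := h.gT_pos ⟨h2, hx.2⟩
      exact Or.inr (Or.inr (Or.inr ⟨by linarith, Or.inl ⟨rfl, h2⟩⟩))
  by_cases h0 : y = 0
  · subst h0
    have hd := ConeT_dot_bot h.toStr hx
    rcases lt_trichotomy x nB with h2 | h2 | h2
    · have := h.gB_neg ⟨hx.1, h2⟩
      exact Or.inr (Or.inr (Or.inl ⟨by linarith, Or.inr (Or.inl ⟨rfl, h2⟩)⟩))
    · exact Or.inr (Or.inl (by rw [h2]))
    · have := h.gB_pos ⟨h2, hx.2⟩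
      exact Or.inr (Or.inr (Or.inr ⟨by linarith, Or.inr (Or.inl ⟨rfl, h2⟩)⟩))
  have hy' : y ∈ Ioo 0 Real.pi := ⟨lt_of_le_of_ne hy.1 (Ne.symm h0), lt_of_le_of_ne hy.2 h1⟩
  rcases hc with hc | hc | hc | hc
  · exact absurd hc h0
  · exact absurd hc h1
  · subst hc
    exact Or.inr (Or.inr (Or.inl ⟨ConeT_dot_left h hy, Or.inr (Or.inr ⟨hy', rfl⟩)⟩))
  · subst hc
    exact Or.inr (Or.inr (Or.inr ⟨ConeT_dot_right h hy, Or.inr (Or.inr ⟨hy', rfl⟩)⟩))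

/-- an odd smooth function with zero slope has a derivative that is `o (t)` -/
theorem ConeT_odd {ψ : ℝ → ℝ} {a : ℝ} (hs : ContDiffAt ℝ ∞ ψ a) (ho : ∀ s, ψ (2 * a - s) = -ψ s)
    (h0 : deriv ψ a = 0) {ε : ℝ} (hε : 0 < ε) :
    ∀ᶠ s in 𝓝 a, |deriv ψ s| ≤ ε * |s - a| := by
  have he : ∀ s, deriv ψ (2 * a - s) = deriv ψ s := by
    intro s
    have e : (fun s => ψ (2 * a - s)) = fun s => -ψ s := funext ho
    have h1 := deriv_comp_const_sub ψ (2 * a) s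
    rw [e, deriv.fun_neg] at h1
    linarith
  have h2 : deriv (deriv ψ) a = 0 := by
    have e : (fun s => deriv ψ (2 * a - s)) = deriv ψ := funext he
    have h1 := deriv_comp_const_sub (deriv ψ) (2 * a) a
    rw [e, show 2 * a - a = a by ring] at h1
    linarith
  have h3 : DifferentiableAt ℝ (deriv ψ) a := by
    have h4 : ContDiffAt ℝ 1 (fderiv ℝ ψ) a := hs.fderiv_right (m := 1) HelmD_two
    have h5 : DifferentiableAt ℝ (fderiv ℝ ψ) a := h4.differentiableAt one_ne_zero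
    exact h5.clm_apply (differentiableAt_const (1 : ℝ))
  have h6 := h3.hasDerivAt
  rw [h2, hasDerivAt_iff_isLittleO] at h6
  filter_upwards [h6.def hε] with s hs'
  simpa [h0] using hs'

theorem ConeT_vert (h : Pat Ω lam u l r nT nB) {ε : ℝ} (hε : 0 < ε) :
    ∃ δ : ℝ, 0 < δ ∧ ∀ y, Real.pi - δ < y → y < Real.pi →
      |u ⟨nT, y⟩| ≤ ε * (Real.pi - y) ^ 2 := by
  obtain ⟨ρ, hρ, -, hH, hΩ, -, hG⟩ := h.toStr.helm_oeT h.memT
  have hb : ∀ s : ℝ, |s - Real.pi| < ρ → (⟨nT, s⟩ : ℂ) ∈ ball (⟨nT, Real.pi⟩ : ℂ) ρ := by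
    intro s hs
    rw [mem_ball, ConeT_dv]
    exact hs
  have hp := hb Real.pi (by simpa using hρ)
  have hc : ContDiff ℝ ∞ fun s : ℝ => (⟨nT, s⟩ : ℂ) := by
    have e : (fun s : ℝ => (⟨nT, s⟩ : ℂ)) = fun s : ℝ => (nT : ℂ) + Complex.ofRealCLM s * I := by
      funext s
      apply Complex.ext <;> simp
    rw [e]
    exact contDiff_const.add (Complex.ofRealCLM.contDiff.mul contDiff_const)
  have hs : ContDiffAt ℝ ∞ (fun s : ℝ => oe u ⟨nT, s⟩) Real.pi :=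
    ContDiffAt.comp Real.pi (g := oe u) (f := fun s : ℝ => (⟨nT, s⟩ : ℂ)) (hH.contDiffAt hp)
      hc.contDiffAt
  have hd : ∀ s : ℝ, |s - Real.pi| < ρ → s ≤ Real.pi →
      deriv (fun s : ℝ => oe u ⟨nT, s⟩) s = (Gr Ω u ⟨nT, s⟩).im := by
    intro s hs1 hs2
    rw [(hasDerivAt_im (hH.differentiableAt (hb s hs1))).deriv, hG _ (hb s hs1) hs2]
  have h0 : deriv (fun s : ℝ => oe u ⟨nT, s⟩) Real.pi = 0 := by
    rw [hd Real.pi (by simpa using hρ) le_rfl]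
    have := h.zT
    unfold gT at this
    linarith
  have hev := ConeT_odd hs (fun s => h.toStr.oe_odd ⟨nT, s⟩) h0 hε
  obtain ⟨δ, hδ, hδ'⟩ := Metric.eventually_nhds_iff.1 hev
  refine ⟨min δ ρ, lt_min hδ hρ, fun y hy1 hy2 => ?_⟩
  have hm1 := min_le_left δ ρ
  have hm2 := min_le_right δ ρ
  have hq : (⟨nT, y⟩ : ℂ) ∈ Ω := hΩ _ (hb y (by rw [abs_lt]; constructor <;> linarith)) hy2
  have hpf := h.toStr.toGeo.top_mem (Ioo_subset_Icc_self h.memT)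
  obtain ⟨t, ht, hm, he⟩ := h.toStr.toMn.mvt (frontier_subset_closure hpf) hq
  have e : (⟨nT, Real.pi⟩ : ℂ) + t * ((⟨nT, y⟩ : ℂ) - ⟨nT, Real.pi⟩) =
      ⟨nT, Real.pi + t * (y - Real.pi)⟩ := by
    apply Complex.ext <;> simp
  rw [e] at hm he
  have hz : u ⟨nT, Real.pi⟩ = 0 := h.toStr.zero_wall (Or.inr le_rfl)
  have ha : 0 < t * (Real.pi - y) := mul_pos ht.1 (by linarith)
  have ha' : t * (Real.pi - y) < Real.pi - y := by nlinarith [ht.2]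
  have habs : |Real.pi + t * (y - Real.pi) - Real.pi| = t * (Real.pi - y) := by
    rw [show Real.pi + t * (y - Real.pi) - Real.pi = -(t * (Real.pi - y)) by ring, abs_neg,
      abs_of_pos ha]
  have h1 := hδ' (y := Real.pi + t * (y - Real.pi)) (by rw [Real.dist_eq, habs]; linarith)
  rw [hd _ (by rw [habs]; linarith) (by linarith), h.toStr.toMn.Gr_eq hm, habs] at h1
  have h2 : u ⟨nT, y⟩ = (grad u ⟨nT, Real.pi + t * (y - Real.pi)⟩).im * (y - Real.pi) := by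
    rw [hz, sub_zero] at he
    rw [he]
    simp [dot]
  rw [h2, abs_mul, abs_sub_comm y, abs_of_pos (show 0 < Real.pi - y by linarith)]
  have h3 : ε * (t * (Real.pi - y)) ≤ ε * (Real.pi - y) := mul_le_mul_of_nonneg_left ha'.le hε.le
  calc _ ≤ ε * (Real.pi - y) * (Real.pi - y) :=
        mul_le_mul_of_nonneg_right (h1.trans h3) (by linarith)
    _ = _ := by ring

theorem Pat.coneT (h : Pat Ω lam u l r nT nB) (hd : 0 < deriv (gT Ω u) nT) {κ : ℝ} (hκ : 0 < κ) :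
    ∃ ρ : ℝ, 0 < ρ ∧ ∀ z ∈ ball (⟨nT, Real.pi⟩ : ℂ) ρ, z.im < Real.pi → z ∈ Ω ∧
      (κ * (Real.pi - z.im) ≤ z.re - nT → 0 < u z) ∧
      (z.re - nT ≤ -(κ * (Real.pi - z.im)) → u z < 0) := by
  obtain ⟨γ, hγ, hγ'⟩ : ∃ γ : ℝ, 0 < γ ∧ γ < deriv (gT Ω u) nT := exists_between hd
  obtain ⟨ρ, hρ, hx⟩ := h.toStr.ux_lower h.memT hγ'
  obtain ⟨δ, hδ, hv⟩ := ConeT_vert h (ε := γ * κ / 2) (by positivity)
  refine ⟨min ρ δ, lt_min hρ hδ, fun z hz hzi => ?_⟩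
  have hz1 : z ∈ ball (⟨nT, Real.pi⟩ : ℂ) ρ := ball_subset_ball (min_le_left _ _) hz
  have him : |z.im - Real.pi| ≤ dist z ⟨nT, Real.pi⟩ := by
    rw [Complex.dist_eq]
    exact Complex.abs_im_le_norm (z - ⟨nT, Real.pi⟩)
  have hlt : |z.im - Real.pi| < min ρ δ := him.trans_lt hz
  have hq1 : (⟨nT, z.im⟩ : ℂ) ∈ ball (⟨nT, Real.pi⟩ : ℂ) ρ := by
    rw [mem_ball, ConeT_dv]
    exact hlt.trans_le (min_le_left _ _)
  have hzΩ := (hx z hz1 hzi).1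
  have hqΩ := (hx _ hq1 hzi).1
  obtain ⟨t, ht, -, he⟩ := h.toStr.toMn.mvt (subset_closure hqΩ) hzΩ
  have hw : (⟨nT, z.im⟩ : ℂ) + t * (z - ⟨nT, z.im⟩) ∈ ball (⟨nT, Real.pi⟩ : ℂ) ρ := by
    have := (convex_ball (⟨nT, Real.pi⟩ : ℂ) ρ).add_smul_sub_mem hq1 hz1 ⟨ht.1.le, ht.2.le⟩
    rwa [Complex.real_smul] at this
  have hwi : ((⟨nT, z.im⟩ : ℂ) + t * (z - ⟨nT, z.im⟩)).im = z.im := by simp
  have h1 := (hx _ hw (by rw [hwi]; exact hzi)).2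
  rw [hwi] at h1
  have h2 : u z - u ⟨nT, z.im⟩ =
      (grad u ((⟨nT, z.im⟩ : ℂ) + t * (z - ⟨nT, z.im⟩))).re * (z.re - nT) := by
    rw [he]
    simp [dot]
  have h3 := hv z.im (by
    have := (abs_lt.1 (hlt.trans_le (min_le_right _ _))).1
    linarith) hzi
  obtain ⟨h4, h5⟩ := abs_le.1 h3
  generalize (grad u ((⟨nT, z.im⟩ : ℂ) + t * (z - ⟨nT, z.im⟩))).re = G at h1 h2
  have hη : 0 < Real.pi - z.im := by linarith
  generalize Real.pi - z.im = η at *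
  have hγη : 0 < γ * η := mul_pos hγ hη
  have hκη : 0 < κ * η := mul_pos hκ hη
  have hp : 0 < γ * η * (κ * η) := mul_pos hγη hκη
  refine ⟨hzΩ, fun hc => ?_, fun hc => ?_⟩
  · have : γ * η * (κ * η) ≤ G * (z.re - nT) := mul_le_mul h1.le hc hκη.le (by linarith)
    nlinarith
  · have : γ * η * (κ * η) ≤ G * (-(z.re - nT)) :=
      mul_le_mul h1.le (by linarith) hκη.le (by linarith)
    nlinarith

theorem Pat.coneB (h : Pat Ω lam u l r nT nB) (hd : 0 < deriv (gB Ω u) nB) {κ : ℝ} (hκ : 0 < κ) :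
    ∃ ρ : ℝ, 0 < ρ ∧ ∀ z ∈ ball (⟨nB, 0⟩ : ℂ) ρ, 0 < z.im → z ∈ Ω ∧
      (κ * z.im ≤ z.re - nB → 0 < u z) ∧ (z.re - nB ≤ -(κ * z.im) → u z < 0) := by
  have e : gT (fy ⁻¹' Ω) (fun z => u (fy z)) =ᶠ[𝓝 nB] gB Ω u := by
    filter_upwards [Ioo_mem_nhds h.memB.1 h.memB.2] with x hx
    exact h.toStr.gT_flipY (Ioo_subset_Icc_self hx)
  obtain ⟨ρ, hρ, hc⟩ := h.flipY.coneT (by rw [e.deriv_eq]; exact hd) hκ
  refine ⟨ρ, hρ, fun z hz hzi => ?_⟩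
  have hb : fy z ∈ ball (⟨nB, Real.pi⟩ : ℂ) ρ := by
    rw [mem_ball, Complex.dist_eq] at hz ⊢
    have e2 : fy z - ⟨nB, Real.pi⟩ = conj (z - ⟨nB, 0⟩) := by
      apply Complex.ext <;> simp [fy]
    rw [e2, Complex.norm_conj]
    exact hz
  have h1 := hc (fy z) hb (by simp only [fy]; linarith)
  rw [mem_preimage, fy_fy] at h1
  have e3 : Real.pi - (fy z).im = z.im := by simp [fy]
  have e4 : (fy z).re = z.re := rfl
  rw [e3, e4] at h1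
  exact h1

theorem ConeT_cover {K S : Set ℂ} (hK : IsCompact K) (hS : S ⊆ K) {a b : ℂ → ℝ}
    (ha : Continuous a) (hb : Continuous b) (h0 : ∀ z ∈ S, 0 ≤ b z) (hK0 : ∀ p ∈ K, 0 ≤ b p)
    (hl : ∀ p ∈ K, b p = 0 → 0 ≤ a p → ∀ᶠ z in 𝓝 p, z ∈ S → a z ≤ b z) :
    ∃ C : ℝ, 0 ≤ C ∧ ∀ z ∈ S, a z ≤ C * b z := by
  have key : ∃ C : ℝ, 0 ≤ C ∧ ∀ z ∈ K, z ∈ S → a z ≤ C * b z := by
    refine hK.induction_on (p := fun T => ∃ C : ℝ, 0 ≤ C ∧ ∀ z ∈ T, z ∈ S → a z ≤ C * b z)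
      ⟨0, le_rfl, fun z hz => absurd hz (notMem_empty z)⟩ ?_ ?_ ?_
    · rintro s t hst ⟨C, hC, h⟩
      exact ⟨C, hC, fun z hz => h z (hst hz)⟩
    · rintro s t ⟨C, hC, h⟩ ⟨C', hC', h'⟩
      refine ⟨max C C', le_max_of_le_left hC, fun z hz hzS => ?_⟩
      rcases hz with hz | hz
      · exact (h z hz hzS).trans (mul_le_mul_of_nonneg_right (le_max_left _ _) (h0 z hzS))
      · exact (h' z hz hzS).trans (mul_le_mul_of_nonneg_right (le_max_right _ _) (h0 z hzS))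
    · intro p hp
      have loc : ∃ C : ℝ, 0 ≤ C ∧ ∀ᶠ z in 𝓝 p, z ∈ S → a z ≤ C * b z := by
        rcases (hK0 p hp).eq_or_lt with h1 | h1
        · rcases le_or_gt 0 (a p) with h2 | h2
          · exact ⟨1, zero_le_one, (hl p hp h1.symm h2).mono fun z hz hzS => by
              rw [one_mul]; exact hz hzS⟩
          · refine ⟨0, le_rfl, ?_⟩
            filter_upwards [ha.continuousAt.eventually_lt continuousAt_const h2] with z hz _
            rw [zero_mul]; exact hz.le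
        · refine ⟨(|a p| + 1) / b p, by positivity, ?_⟩
          have h3 : a p < (|a p| + 1) / b p * b p := by
            rw [div_mul_cancel₀ _ h1.ne']
            linarith [le_abs_self (a p)]
          filter_upwards [ha.continuousAt.eventually_lt
            (continuous_const.mul hb).continuousAt h3] with z hz _
          exact hz.le
      obtain ⟨C, hC, hev⟩ := loc
      exact ⟨_, mem_nhdsWithin_of_mem_nhds hev, C, hC, fun z hz => hz⟩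
  obtain ⟨C, hC, h⟩ := key
  exact ⟨C, hC, fun z hz => h z (hS hz) hz⟩

theorem ConeT_mem (h : Str Ω lam u l r) {z : ℂ} (hz : u z ≠ 0) : z ∈ Ω := by
  by_contra hc
  exact hz (h.lip.zero z hc)

theorem Pat.neg_cone (h : Pat Ω lam u l r nT nB) (hd : 0 < deriv (gT Ω u) nT) :
    ∃ C : ℝ, 0 ≤ C ∧ ∀ z, u z < 0 → z.re - nT ≤ C * (Real.pi - z.im) := by
  have hG := h.toStr.toGeo
  have hm : ∀ z, u z < 0 → z ∈ Ω := fun z hz => ConeT_mem h.toStr hz.ne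
  refine ConeT_cover (K := closure Ω) (S := {z | u z < 0}) (a := fun z => z.re - nT)
    (b := fun z => Real.pi - z.im) hG.dom.bdd.isCompact_closure
    (fun z hz => subset_closure (hm z hz)) (by fun_prop) (by fun_prop)
    (fun z hz => sub_nonneg.2 ((hG.mem z).1 (hm z hz)).1.2.le)
    (fun p hp => sub_nonneg.2 ((hG.mem_closure p).1 hp).1.2) ?_
  rintro ⟨x, y⟩ hp h1 h2
  have hx := ((hG.mem_closure _).1 hp).2
  dsimp only at h1 h2 hx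
  obtain rfl : y = Real.pi := by linarith
  rcases (sub_nonneg.1 h2).eq_or_lt with h3 | h3
  · subst h3
    obtain ⟨ρ, hρ, hc⟩ := h.coneT hd one_pos
    filter_upwards [ball_mem_nhds _ hρ] with z hz hzS
    by_contra h4
    have h5 := (hc z hz ((hG.mem z).1 (hm z hzS)).1.2).2.1 (by linarith [not_le.1 h4])
    exact lt_asymm h5 hzS
  · have h4 := h.gT_pos ⟨h3, hx.2⟩
    obtain ⟨ρ, c, hρ, -, hc⟩ := h.toStr.toMn.pos_near (hG.top_mem hx)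
      (by rw [ConeT_dot_top h.toStr hx]; linarith)
    filter_upwards [ball_mem_nhds _ hρ] with z hz hzS
    exact absurd (hc z (hm z hzS) hz).1 (lt_asymm hzS)

theorem Pat.pos_cone (h : Pat Ω lam u l r nT nB) (hd : 0 < deriv (gB Ω u) nB) :
    ∃ C : ℝ, 0 ≤ C ∧ ∀ z, 0 < u z → nB - z.re ≤ C * z.im := by
  have hG := h.toStr.toGeo
  have hm : ∀ z, 0 < u z → z ∈ Ω := fun z hz => ConeT_mem h.toStr hz.ne'
  refine ConeT_cover (K := closure Ω) (S := {z | 0 < u z}) (a := fun z => nB - z.re)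
    (b := fun z => z.im) hG.dom.bdd.isCompact_closure
    (fun z hz => subset_closure (hm z hz)) (by fun_prop) (by fun_prop)
    (fun z hz => ((hG.mem z).1 (hm z hz)).1.1.le)
    (fun p hp => ((hG.mem_closure p).1 hp).1.1) ?_
  rintro ⟨x, y⟩ hp h1 h2
  have hx := ((hG.mem_closure _).1 hp).2
  dsimp only at h1 h2 hx
  subst h1
  rcases (sub_nonneg.1 h2).eq_or_lt with h3 | h3
  · subst h3
    obtain ⟨ρ, hρ, hc⟩ := h.coneB hd one_pos
    filter_upwards [ball_mem_nhds _ hρ] with z hz hzS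
    by_contra h4
    have h5 := (hc z hz ((hG.mem z).1 (hm z hzS)).1.1).2.2 (by linarith [not_le.1 h4])
    exact lt_asymm h5 hzS
  · have h4 := h.gB_neg ⟨hx.1, h3⟩
    obtain ⟨ρ, c, hρ, -, hc⟩ := h.toStr.toMn.neg_near (hG.bot_mem hx)
      (by rw [ConeT_dot_bot h.toStr hx]; linarith)
    filter_upwards [ball_mem_nhds _ hρ] with z hz hzS
    exact absurd (hc z (hm z hzS) hz).1 (lt_asymm hzS)

theorem ConeT_cont (h : Str Ω lam u l r) (y : ℝ) : Continuous fun s : ℝ => u ⟨s, y⟩ := by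
  have e : (fun s : ℝ => (⟨s, y⟩ : ℂ)) = fun s : ℝ => (s : ℂ) + y * I := by
    funext s
    apply Complex.ext <;> simp
  have hc : Continuous fun s : ℝ => (⟨s, y⟩ : ℂ) := by
    rw [e]; fun_prop
  exact h.lip.continuous.comp hc

theorem Pat.pos_right (h : Pat Ω lam u l r nT nB) {ξ : ℝ} (hN : ∀ z ∈ Ω, u z = 0 → z.re ≤ ξ) :
    ∀ z ∈ Ω, ξ < z.re → 0 < u z := by
  rintro ⟨x, y⟩ hz hx
  have hG := h.toStr.toGeo
  obtain ⟨hy, h1, h2⟩ := (hG.mem _).1 hz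
  dsimp only at hx hy h1 h2
  have hy' : y ∈ Icc 0 Real.pi := ⟨hy.1.le, hy.2.le⟩
  obtain ⟨ρ, c, hρ, -, hc⟩ := h.toStr.toMn.pos_near (hG.right_mem hy') (ConeT_dot_right h hy')
  have hs : ∀ s, x ≤ s → s < r y → (⟨s, y⟩ : ℂ) ∈ Ω := fun s h3 h4 =>
    (hG.mem _).2 ⟨hy, h1.trans_le h3, h4⟩
  have h3 : max x (r y - ρ / 2) < r y := max_lt h2 (by linarith)
  have h4 := le_max_right x (r y - ρ / 2)
  have h5 := (hc _ (hs _ (le_max_left _ _) h3) (by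
    rw [mem_ball, ConeT_dh, abs_lt]
    constructor <;> linarith)).1
  by_contra h6
  obtain ⟨s, hs1, hs2⟩ := intermediate_value_Icc (le_max_left x (r y - ρ / 2))
    (ConeT_cont h.toStr y).continuousOn ⟨not_lt.1 h6, h5.le⟩
  have := hN _ (hs s hs1.1 (hs1.2.trans_lt h3)) hs2
  dsimp only at this
  linarith [hs1.1]

theorem Pat.neg_left (h : Pat Ω lam u l r nT nB) {ξ : ℝ} (hN : ∀ z ∈ Ω, u z = 0 → ξ ≤ z.re) :
    ∀ z ∈ Ω, z.re < ξ → u z < 0 := by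
  rintro ⟨x, y⟩ hz hx
  have hG := h.toStr.toGeo
  obtain ⟨hy, h1, h2⟩ := (hG.mem _).1 hz
  dsimp only at hx hy h1 h2
  have hy' : y ∈ Icc 0 Real.pi := ⟨hy.1.le, hy.2.le⟩
  obtain ⟨ρ, c, hρ, -, hc⟩ := h.toStr.toMn.neg_near (hG.left_mem hy') (ConeT_dot_left h hy')
  have hs : ∀ s, s ≤ x → l y < s → (⟨s, y⟩ : ℂ) ∈ Ω := fun s h3 h4 =>
    (hG.mem _).2 ⟨hy, h4, h3.trans_lt h2⟩
  have h3 : l y < min x (l y + ρ / 2) := lt_min h1 (by linarith)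
  have h4 := min_le_right x (l y + ρ / 2)
  have h5 := (hc _ (hs _ (min_le_left _ _) h3) (by
    rw [mem_ball, ConeT_dh, abs_lt]
    constructor <;> linarith)).1
  by_contra h6
  obtain ⟨s, hs1, hs2⟩ := intermediate_value_Icc (min_le_left x (l y + ρ / 2))
    (ConeT_cont h.toStr y).continuousOn ⟨h5.le, not_lt.1 h6⟩
  have := hN _ (hs s hs1.2 (h3.trans_le hs1.1)) hs2
  dsimp only at this
  linarith [hs1.2]

theorem Pat.arc_not_N (h : Pat Ω lam u l r nT nB) {p : ℂ} (hp : p ∈ frontier Ω)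
    (h1 : p ≠ ⟨nT, Real.pi⟩) (h2 : p ≠ ⟨nB, 0⟩) : p ∉ closure {z | z ∈ Ω ∧ u z = 0} := by
  intro hc
  rcases h.bd_cases hp with h3 | h3 | h3 | h3
  · exact h1 h3
  · exact h2 h3
  · obtain ⟨ρ, c, hρ, -, hn⟩ := h.toStr.toMn.neg_near hp h3.1
    obtain ⟨z, hz, hd⟩ := Metric.mem_closure_iff.1 hc ρ hρ
    exact (hn z hz.1 (mem_ball'.2 hd)).1.ne hz.2
  · obtain ⟨ρ, c, hρ, -, hn⟩ := h.toStr.toMn.pos_near hp h3.1
    obtain ⟨z, hz, hd⟩ := Metric.mem_closure_iff.1 hc ρ hρ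
    exact (hn z hz.1 (mem_ball'.2 hd)).1.ne' hz.2

end Pool.Agent.L2K
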