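import Pool.Agent.P.MP_2f6447_an.K.Shear
import Pool.Agent.P.MP_2f6447_an.K.Limit
import Pool.Agent.P.MP_2f6447_an.K.Cone
import Pool.Agent.P.MP_2f6447_an.K.Kink

/-! A minimiser has no corner. -/

open Set MeasureTheory Filter Topology Complex Metric
open scoped ContDiff ComplexConjugate

namespace Pool.Agent.L2K

variable {Ω U : Set ℂ} {lam : ℝ} {u w f g : ℂ → ℝ}

theorem Corner_lip {K : NNReal} (hK : LipschitzWith K u) {r : ℝ} (hr : 0 < r) :
    LipschitzWith K fun z => ‖(r : ℂ)‖⁻¹ * u (sim 0 r z) := by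
  refine LipschitzWith.of_dist_le_mul fun z z' => ?_
  have h1 := hK.dist_le_mul (sim 0 r z) (sim 0 r z')
  have h2 : dist (sim 0 r z) (sim 0 r z') = r * dist z z' := by
    simp only [sim, zero_add, dist_eq_norm, ← mul_sub, norm_mul, Complex.norm_real,
      Real.norm_of_nonneg hr.le]
  rw [h2, Real.dist_eq] at h1
  rw [Real.dist_eq, ← mul_sub, abs_mul, Complex.norm_real, Real.norm_of_nonneg hr.le,
    abs_of_pos (inv_pos.mpr hr), inv_mul_le_iff₀ hr]
  linarith

theorem Corner_grad (u : ℂ → ℝ) {r : ℝ} (hr : 0 < r) (z : ℂ) :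
    grad (fun z => ‖(r : ℂ)‖⁻¹ * u (sim 0 r z)) z = grad u (sim 0 r z) := by
  have hr' : (r : ℂ) ≠ 0 := by exact_mod_cast hr.ne'
  rw [grad_const_mul, grad_sim u 0 hr', Complex.norm_real, Real.norm_of_nonneg hr.le,
    Complex.conj_ofReal, ← mul_assoc]
  push_cast
  rw [inv_mul_cancel₀ hr', one_mul]

theorem Mn.small_energy (h : Mn Ω lam u) (h0 : (0 : ℂ) ∈ frontier Ω) {ν₁ ν₂ : ℂ}
    (h1 : IsN Ω 0 ν₁) (h2 : IsN Ω 0 ν₂) (hne : ν₁ ≠ ν₂) {η : ℝ} (hη : 0 < η) :
    ∀ᶠ r : ℝ in 𝓝[>] 0, ∫ z in Ω ∩ ball 0 r, ‖grad u z‖ ^ 2 ≤ η * r ^ 2 := by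
  by_contra hc
  have hD : Dom Ω := h.toDom
  obtain ⟨r, hr0, hr⟩ := exists_seq_forall_of_frequently
    ((not_eventually.mp hc).and_eventually self_mem_nhdsWithin)
  have hrp : ∀ k, 0 < r k := fun k => (hr k).2
  have hrc : ∀ k, ((r k : ℝ) : ℂ) ≠ 0 := fun k => by exact_mod_cast (hrp k).ne'
  have hr1 : Tendsto r atTop (𝓝 0) := hr0.mono_right nhdsWithin_le_nhds
  obtain ⟨K, hK⟩ := h.lip.lip
  set F : ℕ → ℂ → ℝ := fun k z => ‖((r k : ℝ) : ℂ)‖⁻¹ * u (sim 0 (r k) z) with hF
  have hFl : ∀ k, LipschitzWith K (F k) := fun k => Corner_lip hK (hrp k)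
  have hF0 : ∀ k, F k 0 = 0 := fun k => by
    simp [hF, sim, h.lip.zero 0 (hD.notMem_of_frontier h0)]
  obtain ⟨φ, W, hφ, hW, hFW⟩ := lip_subseq hFl hF0
  have hr2 : Tendsto (fun k => r (φ k)) atTop (𝓝 0) := hr1.comp hφ.tendsto_atTop
  set C : Set ℂ := {z | ∃ t : ℝ, 0 < t ∧ sim 0 t z ∈ Ω} with hC
  have hsc : ∀ t : ℝ, Continuous (sim 0 t) := fun t => by
    unfold sim
    fun_prop
  have hCo : IsOpen C := by
    have e : C = ⋃ t : ℝ, ⋃ _ : 0 < t, sim 0 t ⁻¹' Ω := by
      ext z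
      simp [hC]
    rw [e]
    exact isOpen_iUnion fun t => isOpen_iUnion fun _ => hD.isOpen.preimage (hsc t)
  have hout : ∀ k z, z ∉ C → sim 0 (r k) z ∉ Ω := fun k z hz hm => hz ⟨r k, hrp k, hm⟩
  have hlim := helm_limit (U := C) (lam := 0) (F := fun k => F (φ k))
    (V := fun k => sim 0 (r (φ k)) ⁻¹' Ω) (μ := fun k => lam * ‖((r (φ k) : ℝ) : ℂ)‖ ^ 2) hCo
    (fun k => hFl _) (fun k => (h.of_sim 0 (hrc _)).helm)
    (fun k => mul_nonneg h.lam_pos.le (sq_nonneg _)) ?_ ?_ hFW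
  rotate_left
  · have e : Tendsto (fun k => lam * ‖((r (φ k) : ℝ) : ℂ)‖ ^ 2) atTop
        (𝓝 (lam * ‖((0 : ℝ) : ℂ)‖ ^ 2)) :=
      (((Complex.continuous_ofReal.tendsto 0).comp hr2).norm.pow 2).const_mul lam
    simpa using e
  · rintro p ⟨t, ht, hp⟩
    obtain ⟨ρ, hρ, hb⟩ := nhds_basis_closedBall.mem_iff.mp
      ((hD.isOpen.preimage (hsc t)).mem_nhds hp)
    refine ⟨ρ, hρ, ?_⟩
    filter_upwards [hr2.eventually (ge_mem_nhds ht)] with k hk z hz
    have a1 : 0 < r (φ k) / t := div_pos (hrp _) ht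
    have a2 : r (φ k) / t ≤ 1 := (div_le_one ht).mpr hk
    have a3 := hD.combo_mem (hb hz) (frontier_subset_closure h0) (t := 1 - r (φ k) / t)
      (by linarith) (by linarith)
    have ht' : (t : ℂ) ≠ 0 := by exact_mod_cast ht.ne'
    have e : sim 0 (r (φ k)) z = sim 0 t z + ((1 - r (φ k) / t : ℝ) : ℂ) * (0 - sim 0 t z) := by
      unfold sim
      push_cast
      field_simp
      ring
    rw [mem_preimage, e]
    exact a3
  have hW0 : ∀ z, W z = 0 := by
    refine cone_zero hW hlim.1 (fun z hz => ?_) h1.1 h2.1 hne ?_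
    · refine tendsto_nhds_unique (hFW z) ?_
      have e : ∀ k, F (φ k) z = 0 := fun k => by
        simp only [hF, h.lip.zero _ (hout _ z hz), mul_zero]
      simp only [e]
      exact tendsto_const_nhds
    · rintro z ⟨t, ht, hz⟩
      have e : ∀ ν, dot (sim 0 t z - 0) ν = t * dot z ν := fun ν => by
        simp [dot, sim]
        ring
      have a1 := h1.2 _ hz
      have a2 := h2.2 _ hz
      rw [e] at a1 a2
      exact ⟨neg_of_mul_neg_right a1 ht.le, neg_of_mul_neg_right a2 ht.le⟩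
  have hW1 : W = fun _ => 0 := funext hW0
  set G : ℕ → ℂ → ℝ := fun k z =>
    (Ω ∩ ball 0 (r k)).indicator (fun z => ‖grad u z‖ ^ 2) (sim 0 (r k) z) with hG
  have hm : ∀ k, MeasurableSet (Ω ∩ ball (0 : ℂ) (r k)) := fun k =>
    (hD.isOpen.inter isOpen_ball).measurableSet
  have hG0 : ∀ k z, 0 ≤ G k z := fun k z => indicator_nonneg (fun _ _ => sq_nonneg _) _
  have hdc : Tendsto (fun k => ∫ z, G (φ k) z) atTop (𝓝 (∫ _ : ℂ, (0 : ℝ))) := by
    refine tendsto_integral_of_dominated_convergence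
      ((ball (0 : ℂ) 1).indicator fun _ => (K : ℝ) ^ 2) (fun k => ?_) ?_
      (fun k => Eventually.of_forall fun z => ?_) (Eventually.of_forall fun z => ?_)
    · exact ((((measurable_grad u).norm.pow_const 2).indicator (hm _)).comp
        (hsc _).measurable).aestronglyMeasurable
    · exact (integrableOn_const measure_ball_lt_top.ne).integrable_indicator measurableSet_ball
    · rw [Real.norm_of_nonneg (hG0 _ _)]
      by_cases hz : sim 0 (r (φ k)) z ∈ Ω ∩ ball 0 (r (φ k))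
      · have hz1 : z ∈ ball (0 : ℂ) 1 := by
          have a1 := hz.2
          simp only [sim, zero_add, mem_ball_zero_iff, norm_mul, Complex.norm_real,
            Real.norm_of_nonneg (hrp _).le] at a1
          rw [mem_ball_zero_iff]
          exact lt_of_mul_lt_mul_left (by simpa using a1) (hrp (φ k)).le
        simp only [hG]
        rw [indicator_of_mem hz, indicator_of_mem hz1]
        exact pow_le_pow_left₀ (norm_nonneg _) (norm_grad_le hK _) 2
      · simp only [hG]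
        rw [indicator_of_notMem hz]
        exact indicator_nonneg (fun _ _ => sq_nonneg _) _
    · by_cases hz : z ∈ C
      · have a1 := hlim.2 (fun _ => z) z hz tendsto_const_nhds
        rw [hW1, grad_const] at a1
        have a2 : Tendsto (fun k => ‖grad (F (φ k)) z‖ ^ 2) atTop (𝓝 0) := by
          simpa using a1.norm.pow 2
        refine squeeze_zero (fun k => hG0 _ _) (fun k => ?_) a2
        simp only [hG, hF]
        rw [Corner_grad u (hrp _)]
        exact indicator_le_self' (fun _ _ => sq_nonneg _) _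
      · have e : ∀ k, G (φ k) z = 0 := fun k =>
          indicator_of_notMem (fun hm => hout _ z hz hm.1) _
        simp only [e]
        exact tendsto_const_nhds
  rw [integral_zero] at hdc
  obtain ⟨k, hk⟩ := (hdc.eventually (gt_mem_nhds hη)).exists
  apply (hr (φ k)).1
  simp only [hG] at hk
  rw [integral_comp_sim 0 (hrc _), integral_indicator (hm _), Complex.norm_real,
    Real.norm_of_nonneg (hrp _).le, inv_mul_lt_iff₀ (pow_pos (hrp _) 2)] at hk
  linarith

theorem Corner_cut (hD : Dom Ω) {s d r : ℝ} {L : NNReal} (hd : 0 < d) (hr : 0 < r)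
    (ht : ∀ x ∈ proj Ω, top Ω x ≤ s * x - d * |x|) (hp : Icc (-r) r ⊆ proj Ω)
    (hL : LipschitzOnWith L (top Ω) (Icc (-r) r)) (h0 : top Ω 0 = 0) :
    ∃ v : ℝ → ℝ, LipschitzWith (L + ‖s‖₊) v ∧ (∀ x, x ∉ Icc (-r) r → v x = 0) ∧ Adm Ω v ∧
      (∀ x, -(d * r) ≤ v x ∧ v x ≤ 0) ∧ v 0 = -(d * r) := by
  set c : ℝ → ℝ := fun x => max (-r) (min x r) with hc
  have c1 : ∀ x, c x ∈ Icc (-r) r := fun x =>
    ⟨le_max_left _ _, max_le (by linarith) (min_le_right _ _)⟩
  have c2 : ∀ x ∈ Icc (-r) r, c x = x := fun x hx => by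
    simp only [hc]
    rw [min_eq_left hx.2, max_eq_right hx.1]
  have c3 : ∀ x, x ∉ Icc (-r) r → |c x| = r ∧ r ≤ |x| := fun x hx => by
    simp only [hc]
    rcases not_and_or.mp hx with h | h
    · have h' := not_le.mp h
      rw [max_eq_left ((min_le_left _ _).trans h'.le), abs_neg, abs_of_pos hr]
      exact ⟨rfl, le_abs.mpr (Or.inr (by linarith))⟩
    · have h' := not_le.mp h
      rw [min_eq_right h'.le, max_eq_right (by linarith), abs_of_pos hr]
      exact ⟨rfl, le_abs.mpr (Or.inl h'.le)⟩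
  have c4 : ∀ x y, |c x - c y| ≤ |x - y| := fun x y => by
    simp only [hc]
    rw [max_comm (-r), max_comm (-r)]
    refine (abs_max_sub_max_le_abs _ _ _).trans ?_
    simpa using abs_min_sub_min_le_max x r y r
  have hz : ∀ x, x ∉ Icc (-r) r → -max (top Ω (c x) - (s * c x - d * r)) 0 = 0 := fun x hx => by
    have a1 := ht _ (hp (c1 x))
    rw [(c3 x hx).1] at a1
    rw [max_eq_right (by linarith), neg_zero]
  refine ⟨fun x => -max (top Ω (c x) - (s * c x - d * r)) 0, ?_, hz, ?_, fun x => ⟨?_, ?_⟩, ?_⟩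
  · refine LipschitzWith.of_dist_le_mul fun x y => ?_
    have a1 := hL.dist_le_mul _ (c1 x) _ (c1 y)
    rw [Real.dist_eq, Real.dist_eq] at a1
    rw [dist_neg_neg, Real.dist_eq, Real.dist_eq]
    refine (abs_max_sub_max_le_abs _ _ _).trans ?_
    have e : top Ω (c x) - (s * c x - d * r) - (top Ω (c y) - (s * c y - d * r)) =
        (top Ω (c x) - top Ω (c y)) - s * (c x - c y) := by ring
    rw [e]
    refine (abs_sub _ _).trans ?_
    rw [abs_mul]
    push_cast
    rw [Real.norm_eq_abs]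
    have a2 := mul_le_mul_of_nonneg_left (c4 x y) (abs_nonneg s)
    have a3 := mul_le_mul_of_nonneg_left (c4 x y) L.coe_nonneg
    linarith
  · have hl : ConcaveOn ℝ (proj Ω) fun x => s * x - d * r := by
      refine ⟨hD.convex_proj, fun x _ y _ a b _ _ hab => le_of_eq ?_⟩
      simp only [smul_eq_mul]
      linear_combination (-(d * r)) * hab
    filter_upwards [Ioo_mem_nhdsGT zero_lt_one] with ε hε
    refine ((hD.concaveOn_top.smul (sub_nonneg.mpr hε.2.le)).add
      ((hD.concaveOn_top.inf hl).smul hε.1.le)).congr fun x hx => ?_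
    simp only [Pi.add_apply, Pi.inf_apply, smul_eq_mul]
    by_cases hx' : x ∈ Icc (-r) r
    · rw [c2 x hx']
      rcases le_total (top Ω x) (s * x - d * r) with h | h
      · rw [min_eq_left h, max_eq_right (by linarith)]
        ring
      · rw [min_eq_right h, max_eq_left (by linarith)]
        ring
    · have a1 := ht x hx
      have a2 := mul_le_mul_of_nonneg_left (c3 x hx').2 hd.le
      rw [hz x hx', min_eq_left (by linarith)]
      ring
  · have a1 := ht _ (hp (c1 x))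
    have a2 := mul_nonneg hd.le (abs_nonneg (c x))
    have a3 := mul_pos hd hr
    exact neg_le_neg (max_le (by linarith) a3.le)
  · exact neg_nonpos.mpr (le_max_right _ _)
  · have a3 := mul_pos hd hr
    simp only
    rw [c2 0 ⟨by linarith, hr.le⟩, h0, max_eq_left (by linarith)]
    ring

theorem Corner_pt {v : ℝ → ℝ} {K : NNReal} (hv : LipschitzWith K v) {d r θ a A m : ℝ} {z G : ℂ}
    (hd : 0 < d) (hr : 0 < r) (h0 : ∀ x, x ∉ Icc (-r) r → v x = 0)
    (hb : ∀ x, -(d * r) ≤ v x ∧ v x ≤ 0) (hv0 : v 0 = -(d * r)) (hθ1 : θ ≤ 1 / 2)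
    (hθ : K * θ ≤ d / 2) (hz : |z.re| ≤ r → a < z.im → z ∈ ball (0 : ℂ) A)
    (hm : z ∈ ball (0 : ℂ) A → m ≤ 1 / 2) :
    (ball (⟨0, a + r / 2⟩ : ℂ) (θ * r)).indicator (fun _ => d / 8) z -
      (K + d) * (ball (0 : ℂ) A).indicator (fun _ => ‖G‖ ^ 2) z ≤
    deriv v z.re * ramp a (a + r) z.im * (G.re * G.im) +
      (Ioo a (a + r)).indicator (fun _ => (a + r - a)⁻¹) z.im * v z.re / 2 *
        (G.im ^ 2 - G.re ^ 2 + m - 1) := by
  have hG : ‖G‖ ^ 2 = G.re ^ 2 + G.im ^ 2 := by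
    rw [Complex.sq_norm, Complex.normSq_apply]
    ring
  have hK := K.coe_nonneg
  have hQ : z ∈ ball (⟨0, a + r / 2⟩ : ℂ) (θ * r) →
      |z.re| ≤ θ * r ∧ |z.re| ≤ r ∧ z.im ∈ Ioo a (a + r) := fun hq => by
    rw [mem_ball, dist_eq_norm] at hq
    have a1 := (Complex.abs_re_le_norm _).trans_lt hq
    have a2 := abs_lt.mp ((Complex.abs_im_le_norm _).trans_lt hq)
    simp only [Complex.sub_re, Complex.sub_im, sub_zero] at a1 a2
    have a3 := mul_le_mul_of_nonneg_right hθ1 hr.le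
    exact ⟨a1.le, by linarith, by linarith [a2.1], by linarith [a2.2]⟩
  by_cases hc : |z.re| ≤ r ∧ a < z.im
  · have hB := hz hc.1 hc.2
    have hm1 := hm hB
    rw [indicator_of_mem hB]
    have t1 : -(K * ‖G‖ ^ 2) ≤ deriv v z.re * ramp a (a + r) z.im * (G.re * G.im) := by
      refine neg_le_of_abs_le ?_
      have a1 : |deriv v z.re| ≤ K := norm_deriv_le_of_lipschitz hv
      have a2 : |ramp a (a + r) z.im| ≤ 1 := by
        unfold ramp
        rw [abs_of_nonneg (le_max_left _ _)]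
        exact max_le zero_le_one (min_le_left _ _)
      have a3 : |G.re * G.im| ≤ ‖G‖ ^ 2 := by
        rw [hG, abs_le]
        constructor <;> nlinarith [sq_nonneg (G.re + G.im), sq_nonneg (G.re - G.im)]
      rw [abs_mul, abs_mul]
      calc |deriv v z.re| * |ramp a (a + r) z.im| * |G.re * G.im| ≤ K * 1 * ‖G‖ ^ 2 := by gcongr
        _ = _ := by ring
    by_cases hI : z.im ∈ Ioo a (a + r)
    · rw [indicator_of_mem hI, add_sub_cancel_left]
      obtain ⟨t, ht⟩ : ∃ t, v z.re = -(t * r) := ⟨-v z.re / r, by field_simp⟩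
      have b1 := hb z.re
      rw [ht] at b1
      have t0 : 0 ≤ t := nonneg_of_mul_nonneg_left (by linarith [b1.2]) hr
      have td : t ≤ d := le_of_mul_le_mul_right (by linarith [b1.1]) hr
      have e : r⁻¹ * v z.re / 2 * (G.im ^ 2 - G.re ^ 2 + m - 1) =
          t / 2 * (1 - m) + t / 2 * (G.re ^ 2 - G.im ^ 2) := by
        rw [ht]
        field_simp
        ring
      have t2 : -(d * ‖G‖ ^ 2) ≤ t / 2 * (G.re ^ 2 - G.im ^ 2) := by
        rw [hG]
        nlinarith [mul_nonneg t0 (sq_nonneg G.re), mul_nonneg hd.le (sq_nonneg G.re),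
          mul_nonneg (sub_nonneg.mpr td) (sq_nonneg G.im), mul_nonneg hd.le (sq_nonneg G.im)]
      have t3 : (ball (⟨0, a + r / 2⟩ : ℂ) (θ * r)).indicator (fun _ => d / 8) z ≤
          t / 2 * (1 - m) := by
        by_cases hq : z ∈ ball (⟨0, a + r / 2⟩ : ℂ) (θ * r)
        · rw [indicator_of_mem hq]
          have a1 := hv.dist_le_mul z.re 0
          rw [Real.dist_eq, Real.dist_eq, sub_zero, hv0, ht] at a1
          have a2 := mul_le_mul_of_nonneg_left (hQ hq).1 hK
          have a3 := mul_le_mul_of_nonneg_right hθ hr.le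
          have a4 : d / 2 ≤ t :=
            le_of_mul_le_mul_right (by nlinarith [le_abs_self (-(t * r) - -(d * r))]) hr
          nlinarith
        · rw [indicator_of_notMem hq]
          exact mul_nonneg (by linarith) (by linarith)
      rw [e]
      linarith
    · rw [indicator_of_notMem hI, indicator_of_notMem fun hq => hI (hQ hq).2.2]
      have a1 := mul_nonneg hd.le (sq_nonneg ‖G‖)
      linarith
  · have l0 : (ball (⟨0, a + r / 2⟩ : ℂ) (θ * r)).indicator (fun _ => d / 8) z = 0 :=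
      indicator_of_notMem (fun hq => hc ⟨(hQ hq).2.1, (hQ hq).2.2.1⟩) _
    have l1 : 0 ≤ (K + d) * (ball (0 : ℂ) A).indicator (fun _ => ‖G‖ ^ 2) z :=
      mul_nonneg (by linarith) (indicator_nonneg (fun _ _ => sq_nonneg _) _)
    rw [l0]
    rcases not_and_or.mp hc with h | h
    · have hx : z.re ∉ Icc (-r) r := fun hx => h (abs_le.mpr hx)
      have e : v =ᶠ[𝓝 z.re] fun _ => 0 := by
        filter_upwards [isClosed_Icc.isOpen_compl.mem_nhds hx] with x hx' using h0 x hx'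
      rw [e.deriv_eq, h0 _ hx, deriv_const]
      linarith
    · have h' := not_lt.mp h
      have e : ramp a (a + r) z.im = 0 := by
        unfold ramp
        exact max_eq_left ((min_le_right _ _).trans
          (div_nonpos_of_nonpos_of_nonneg (by linarith) (by linarith)))
      rw [e, indicator_of_notMem (s := Ioo a (a + r)) fun hI => h hI.1]
      linarith

theorem Corner_key (h : Mn Ω lam u) (h0 : (0 : ℂ) ∈ frontier Ω) (hI : (⟨0, -1⟩ : ℂ) ∈ Ω)
    {s d : ℝ} (hd : 0 < d) (ht : ∀ x ∈ proj Ω, top Ω x ≤ s * x - d * |x|)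
    (hs : ∀ η : ℝ, 0 < η →
      ∀ᶠ r : ℝ in 𝓝[>] 0, ∫ z in Ω ∩ ball 0 r, ‖grad u z‖ ^ 2 ≤ η * r ^ 2) : False := by
  have hD : Dom Ω := h.toDom
  have hp0 : (0 : ℝ) ∈ proj Ω := ⟨_, hI, rfl⟩
  have ht0 : top Ω 0 = 0 := hD.top_eq hI (by norm_num) h0
  obtain ⟨L, T, hT, hL⟩ := hD.concaveOn_top.locallyLipschitzOn hD.isOpen_proj hp0
  rw [hD.isOpen_proj.nhdsWithin_eq hp0] at hT
  have hc : Continuous fun x : ℝ => (⟨x, -1⟩ : ℂ) := by
    have e : (fun x : ℝ => (⟨x, -1⟩ : ℂ)) = fun x : ℝ => (x : ℂ) - I := by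
      funext x
      apply Complex.ext <;> simp
    rw [e]
    fun_prop
  obtain ⟨δ, hδ, hb⟩ := nhds_basis_closedBall.mem_iff.mp
    (inter_mem hT ((hD.isOpen.preimage hc).mem_nhds hI))
  obtain ⟨K, hK⟩ := h.lip.lip
  have hL0 := L.coe_nonneg
  have hK0 := K.coe_nonneg
  have hs0 := abs_nonneg s
  have hl := h.lam_pos
  set A : ℝ := L + 4 + |s| with hA
  have hA0 : 0 < A := by positivity
  set M : ℝ := L + |s| + d with hM
  have hM0 : 0 < M := by positivity
  set θ : ℝ := d / (2 * M) with hθ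
  have hθ0 : 0 < θ := by positivity
  have hθM : M * θ = d / 2 := by
    rw [hθ]
    field_simp
  have hθ1 : θ ≤ 1 / 2 := by
    rw [hθ, div_le_div_iff₀ (by positivity) two_pos]
    linarith
  set η : ℝ := d * θ ^ 2 / (8 * M * A ^ 2) with hη
  have hη0 : 0 < η := by positivity
  have hAt : Tendsto (fun r : ℝ => A * r) (𝓝[>] 0) (𝓝[>] 0) := by
    refine tendsto_nhdsWithin_iff.mpr ⟨?_, ?_⟩
    · have e : Tendsto (fun r : ℝ => A * r) (𝓝 0) (𝓝 (A * 0)) := tendsto_id.const_mul A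
      rw [mul_zero] at e
      exact e.mono_left nhdsWithin_le_nhds
    · filter_upwards [self_mem_nhdsWithin] with r hr using mul_pos hA0 hr
  have hA1 : Tendsto (fun r : ℝ => A * r) (𝓝[>] 0) (𝓝 0) := hAt.mono_right nhdsWithin_le_nhds
  have hA2 : Tendsto (fun r : ℝ => lam * (K * (A * r)) ^ 2) (𝓝[>] 0) (𝓝 0) := by
    simpa using ((hA1.const_mul (K : ℝ)).pow 2).const_mul lam
  obtain ⟨r, ⟨⟨⟨e1, e2⟩, e3⟩, e4⟩⟩ := ((((hAt.eventually (hs η hη0)).and
    (hA1.eventually (ge_mem_nhds one_pos))).and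
      (hA2.eventually (ge_mem_nhds one_half_pos))).and (Ioc_mem_nhdsGT hδ)).exists
  have hr : 0 < r := e4.1
  have hsub : Icc (-r) r ⊆ closedBall (0 : ℝ) δ := fun x hx => by
    rw [mem_closedBall_zero_iff, Real.norm_eq_abs]
    exact (abs_le.mpr hx).trans e4.2
  have hLr : LipschitzOnWith L (top Ω) (Icc (-r) r) := hL.mono fun x hx => (hb (hsub hx)).1
  obtain ⟨v, hv, v0, va, vb, vz⟩ := Corner_cut hD hd hr ht
    (fun x hx => ⟨_, (hb (hsub hx)).2, rfl⟩) hLr ht0
  set a : ℝ := -((L + 2) * r) with ha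
  have hsr := mul_nonneg hs0 hr.le
  have hLr0 := mul_nonneg hL0 hr.le
  have hrect : ∀ x ∈ Icc (-r) r, ∀ y ∈ Icc a (a + r), (⟨x, y⟩ : ℂ) ∈ Ω := fun x hx y hy => by
    have a1 := hLr.dist_le_mul x hx 0 ⟨by linarith, hr.le⟩
    rw [Real.dist_eq, Real.dist_eq, ht0, sub_zero, sub_zero] at a1
    have a2 := mul_le_mul_of_nonneg_left (abs_le.mpr hx) hL0
    have a3 := neg_le_of_abs_le a1
    refine hD.mem_of_le (hb (hsub hx)).2 ?_ ?_
    · linarith [hy.1]
    · linarith [hy.2]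
  have hab : a < a + r := by linarith
  have hLL := h.shear_le hv hab v0 hrect va
  obtain ⟨K', hK'⟩ := lipschitz_shear hv hab v0
  have hM' : ((L + ‖s‖₊ : NNReal) : ℝ) + d = M := by
    push_cast
    rw [Real.norm_eq_abs]
  set Q := ball (⟨0, a + r / 2⟩ : ℂ) (θ * r) with hQ
  have hθr := mul_le_mul_of_nonneg_right hθ1 hr.le
  have hQΩ : Q ⊆ Ω := fun z hq => by
    rw [hQ, mem_ball, dist_eq_norm] at hq
    have a1 := abs_lt.mp ((Complex.abs_re_le_norm _).trans_lt hq)
    have a2 := abs_lt.mp ((Complex.abs_im_le_norm _).trans_lt hq)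
    simp only [Complex.sub_re, Complex.sub_im, sub_zero] at a1 a2
    exact hrect z.re ⟨by linarith [a1.1], by linarith [a1.2]⟩ z.im
      ⟨by linarith [a2.1], by linarith [a2.2]⟩
  have i1 : Integrable (Q.indicator fun _ => d / 8) :=
    (integrableOn_const measure_ball_lt_top.ne).integrable_indicator measurableSet_ball
  have i2 : Integrable ((ball (0 : ℂ) (A * r)).indicator fun z => ‖grad u z‖ ^ 2) :=
    ((h.lip.memLp_grad hD.bdd).integrable_norm_pow two_ne_zero).indicator measurableSet_ball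
  have hmono : ∫ z in Ω, (Q.indicator (fun _ => d / 8) z -
      M * (ball (0 : ℂ) (A * r)).indicator (fun z => ‖grad u z‖ ^ 2) z) ≤
      LL lam Ω u (shear v a (a + r)) := by
    refine integral_mono_ae (i1.sub (i2.const_mul M)).integrableOn (h.integrableOn_st hK') ?_
    filter_upwards [ae_restrict_of_ae (st_shear (lam := lam) (u := u) hv hab),
      ae_restrict_mem hD.isOpen.measurableSet] with z hz hzΩ
    rw [hz, ← hM']
    refine Corner_pt hv hd hr v0 vb vz hθ1 ?_ (fun b1 b2 => ?_) (fun b1 => ?_)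
    · have b1 := mul_pos hd hθ0
      rw [← hθM, ← hM']
      linarith
    · have b3 := (hD.lt_top hzΩ).trans_le (ht _ ⟨z, hzΩ, rfl⟩)
      have b4 : s * z.re ≤ |s| * r :=
        (le_abs_self _).trans ((abs_mul _ _).trans_le (mul_le_mul_of_nonneg_left b1 hs0))
      have b5 := mul_nonneg hd.le (abs_nonneg z.re)
      have b6 : |z.im| ≤ (L + 2 + |s|) * r := abs_le.mpr ⟨by linarith, by linarith⟩
      rw [mem_ball_zero_iff]
      refine (Complex.norm_le_abs_re_add_abs_im z).trans_lt ?_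
      linarith
    · have b2 := hK.dist_le_mul z 0
      rw [Real.dist_eq, h.lip.zero 0 (hD.notMem_of_frontier h0), sub_zero] at b2
      have b3 := mul_le_mul_of_nonneg_left (mem_ball.mp b1).le hK0
      have b4 : u z ^ 2 ≤ (K * (A * r)) ^ 2 := by
        rw [← sq_abs]
        exact pow_le_pow_left₀ (abs_nonneg _) (b2.trans b3) 2
      exact (mul_le_mul_of_nonneg_left b4 hl.le).trans e3
  rw [integral_sub i1.integrableOn (i2.const_mul M).integrableOn, integral_const_mul,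
    setIntegral_indicator measurableSet_ball, setIntegral_indicator measurableSet_ball,
    inter_eq_right.mpr hQΩ, setIntegral_const, smul_eq_mul] at hmono
  have hvol : volume.real Q = (θ * r) ^ 2 * Real.pi := by
    rw [hQ, Measure.real, Complex.volume_ball, ENNReal.toReal_mul, ENNReal.toReal_pow,
      ENNReal.toReal_ofReal (by positivity)]
    simp
  rw [hvol] at hmono
  have f1 := mul_le_mul_of_nonneg_left e1 hM0.le
  have f2 : M * (η * (A * r) ^ 2) = (θ * r) ^ 2 * (d / 8) := by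
    rw [hη]
    field_simp
  have f3 : 0 < (θ * r) ^ 2 * (d / 8) := by positivity
  nlinarith [Real.pi_gt_three]

theorem Corner_slope (h : Mn Ω lam u) (h0 : (0 : ℂ) ∈ frontier Ω) (hI : (⟨0, -1⟩ : ℂ) ∈ Ω)
    {ν₁ ν₂ : ℂ} (h1 : IsN Ω 0 ν₁) (h2 : IsN Ω 0 ν₂) : ν₁ = ν₂ := by
  have hD : Dom Ω := h.toDom
  by_contra hne
  have hpos : ∀ ν, IsN Ω 0 ν → 0 < ν.im := fun ν hν => by
    have a := hν.2 _ hI
    simpa [dot] using a
  have htop : ∀ ν, IsN Ω 0 ν → ∀ x ∈ proj Ω, top Ω x ≤ -ν.re / ν.im * x := fun ν hν x hx => by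
    have a := hν.le_of_closure (frontier_subset_closure (hD.top_frontier hx))
    simp only [dot, sub_zero] at a
    rw [div_mul_eq_mul_div, le_div_iff₀ (hpos ν hν)]
    linarith
  have hsl : -ν₁.re / ν₁.im ≠ -ν₂.re / ν₂.im := fun e => by
    have p1 := hpos _ h1
    have p2 := hpos _ h2
    rw [div_eq_div_iff p1.ne' p2.ne'] at e
    have n1 : ν₁.re ^ 2 + ν₁.im ^ 2 = 1 := by
      have a := Complex.sq_norm ν₁
      rw [h1.1, Complex.normSq_apply] at a
      linarith
    have n2 : ν₂.re ^ 2 + ν₂.im ^ 2 = 1 := by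
      have a := Complex.sq_norm ν₂
      rw [h2.1, Complex.normSq_apply] at a
      linarith
    have e1 : ν₁.im = ν₂.im := by
      refine (pow_left_inj₀ p1.le p2.le two_ne_zero).mp ?_
      linear_combination (-ν₁.im ^ 2) * n2 + ν₂.im ^ 2 * n1 +
        (ν₁.re * ν₂.im + ν₂.re * ν₁.im) * e
    rw [e1] at e
    exact hne (Complex.ext (neg_injective (mul_right_cancel₀ p2.ne' e)) e1)
  set s₁ := -ν₁.re / ν₁.im
  set s₂ := -ν₂.re / ν₂.im
  refine Corner_key h h0 hI (s := (s₁ + s₂) / 2) (d := |s₁ - s₂| / 2)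
    (half_pos (abs_pos.mpr (sub_ne_zero.mpr hsl))) (fun x hx => ?_)
    fun η hη => h.small_energy h0 h1 h2 hne hη
  have a1 := htop _ h1 x hx
  have a2 := htop _ h2 x hx
  rw [div_mul_eq_mul_div _ _ |x|, ← abs_mul]
  rcases abs_cases ((s₁ - s₂) * x) with e | e <;> rw [e.1] <;> linarith

theorem Mn.noCorner (h : Mn Ω lam u) : NoCorner Ω := by
  intro p hp ν ν' h1 h2
  have hD : Dom Ω := h.toDom
  obtain ⟨q, hq⟩ := hD.ne
  have hqp : q - p ≠ 0 := sub_ne_zero.mpr fun e => hD.notMem_of_frontier hp (e ▸ hq)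
  have ha : (q - p) * I ≠ 0 := mul_ne_zero hqp I_ne_zero
  set a := (q - p) * I with ha'
  have hn : a / ‖a‖ ≠ 0 := div_ne_zero ha (by exact_mod_cast norm_ne_zero_iff.mpr ha)
  have s0 : sim p a 0 = p := by simp [sim]
  have hN : ∀ n, IsN Ω p n → IsN (sim p a ⁻¹' Ω) 0 ((a / ‖a‖)⁻¹ * n) := fun n hn' => by
    rw [isN_sim p ha, s0, mul_inv_cancel_left₀ hn]
    exact hn'
  have e := Corner_slope (h.of_sim p ha) (by rw [frontier_sim p ha, mem_preimage, s0]; exact hp)
    ?_ (hN _ h1) (hN _ h2)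
  · exact mul_left_cancel₀ (inv_ne_zero hn) e
  · have e1 : (⟨0, -1⟩ : ℂ) = -I := by apply Complex.ext <;> simp
    have e2 : sim p a (-I) = q := by
      unfold sim
      rw [ha']
      linear_combination (p - q) * I_mul_I
    rw [mem_preimage, e1, e2]
    exact hq

end Pool.Agent.L2K
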