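import Mathlib

/-! Definitions for the symmetry theorem on convex minimisers of the second Dirichlet eigenvalue.
The plane is `ℂ`. -/

open Set MeasureTheory Filter Topology Complex
open scoped ContDiff

namespace Pool.Agent.L2K

/-- Euclidean inner product -/
def dot (a b : ℂ) : ℝ := a.re * b.re + a.im * b.im

/-- directional derivative -/
noncomputable def D (v : ℂ) (u : ℂ → ℝ) (z : ℂ) : ℝ := fderiv ℝ u z v

/-- gradient (zero at points of non-differentiability) -/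
noncomputable def grad (u : ℂ → ℝ) (z : ℂ) : ℂ := ⟨D 1 u z, D I u z⟩

/-- Laplacian -/
noncomputable def lap (u : ℂ → ℝ) (z : ℂ) : ℝ := D 1 (D 1 u) z + D I (D I u) z

/-- `w` is a smooth solution of `Δ w + lam w = 0` on the open set `U` -/
structure Helm (lam : ℝ) (U : Set ℂ) (w : ℂ → ℝ) : Prop where
  isOpen : IsOpen U
  smooth : ContDiffOn ℝ ∞ w U
  eq : ∀ z ∈ U, lap w z + lam * w z = 0

/-- the Killing field: translation `b` plus `c` times the rotation about the origin -/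
noncomputable def kill (b : ℂ) (c : ℝ) (z : ℂ) : ℂ := b + c * I * z

/-- the radial solution `r ^ k (1 + …)` of `r² f'' + r f' + (lam r² - k²) f = 0` -/
noncomputable def J (k : ℕ) (lam r : ℝ) : ℝ :=
  r ^ k * ∑' m : ℕ, (-(lam * r ^ 2) / 4) ^ m * k.factorial / (m.factorial * (m + k).factorial)

/-- Fourier coefficient of `w` on the circle of radius `r` about `p` -/
noncomputable def cf (w : ℂ → ℝ) (p : ℂ) (k : ℕ) (α r : ℝ) : ℝ :=
  ∫ θ in (0 : ℝ)..2 * Real.pi, w (p + r * exp (θ * I)) * Real.cos (k * θ + α)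

/-- odd extension of a function given below the real axis -/
noncomputable def oddE (w : ℂ → ℝ) (z : ℂ) : ℝ :=
  if z.im ≤ 0 then w z else -w ((starRingEnd ℂ) z)

/-- `C¹` test function with compact support in `Ω` -/
structure Test (Ω : Set ℂ) (φ : ℂ → ℝ) : Prop where
  smooth : ContDiff ℝ 1 φ
  cpt : HasCompactSupport φ
  supp : tsupport φ ⊆ Ω

/-- the set in the min-max formula -/
def RSc (Ω : Set ℂ) : Set ℝ :=
  {r : ℝ | ∃ f g : ℂ → ℝ, Test Ω f ∧ Test Ω g ∧ LinearIndependent ℝ ![f, g] ∧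
    ∀ a b : ℝ, (∫ x, ‖fderiv ℝ (fun y => a * f y + b * g y) x‖ ^ 2) ≤
      r * ∫ x, (a * f x + b * g x) ^ 2}

/-- second Dirichlet eigenvalue -/
noncomputable def lam2c (Ω : Set ℂ) : ℝ := sInf (RSc Ω)

/-- area -/
noncomputable def area (Ω : Set ℂ) : ℝ := (volume Ω).toReal

/-- convex domain -/
structure Dom (Ω : Set ℂ) : Prop where
  isOpen : IsOpen Ω
  convex : Convex ℝ Ω
  bdd : Bornology.IsBounded Ω
  ne : Ω.Nonempty

/-- minimiser, scale invariant form -/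
structure IsMin (Ω : Set ℂ) : Prop extends Dom Ω where
  opt : ∀ Ω', Dom Ω' → lam2c Ω * area Ω ≤ lam2c Ω' * area Ω'

/-- Lipschitz on the plane and zero off `Ω` -/
structure Lip0 (Ω : Set ℂ) (f : ℂ → ℝ) : Prop where
  lip : ∃ K, LipschitzWith K f
  zero : ∀ z, z ∉ Ω → f z = 0

/-- `f ∈ H¹₀(Ω)` with weak gradient `G` -/
structure H10 (Ω : Set ℂ) (f : ℂ → ℝ) (G : ℂ → ℂ) : Prop where
  memf : MemLp f 2 volume
  memG : MemLp G 2 volume
  approx : ∃ φ : ℕ → ℂ → ℝ, (∀ n, Test Ω (φ n)) ∧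
    Tendsto (fun n => ∫ z, (φ n z - f z) ^ 2) atTop (𝓝 0) ∧
    Tendsto (fun n => ∫ z, ‖grad (φ n) z - G z‖ ^ 2) atTop (𝓝 0)

/-- weak form of the eigenvalue equation -/
def Weak (lam : ℝ) (Ω : Set ℂ) (f : ℂ → ℝ) (G : ℂ → ℂ) : Prop :=
  ∀ φ, Test Ω φ → ∫ z, dot (G z) (grad φ z) = lam * ∫ z, f z * φ z

/-- very weak form of the equation -/
def VWeak (lam : ℝ) (U : Set ℂ) (f : ℂ → ℝ) : Prop :=
  ∀ φ : ℂ → ℝ, ContDiff ℝ ∞ φ → HasCompactSupport φ → tsupport φ ⊆ U →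
    ∫ z, f z * (lap φ z + lam * φ z) = 0

/-- weak first eigenfunction and the two Rayleigh inequalities -/
structure WFirst (Ω : Set ℂ) (lam1 : ℝ) (f : ℂ → ℝ) (G : ℂ → ℂ) : Prop where
  h10 : H10 Ω f G
  weak : Weak lam1 Ω f G
  one : ∫ z, f z ^ 2 = 1
  pos : 0 < lam1
  ray1 : ∀ g H, H10 Ω g H → lam1 * ∫ z, g z ^ 2 ≤ ∫ z, ‖H z‖ ^ 2
  ray2 : ∀ g H, H10 Ω g H → ∫ z, g z * f z = 0 → lam2c Ω * ∫ z, g z ^ 2 ≤ ∫ z, ‖H z‖ ^ 2

/-- first eigenfunction -/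
structure First (Ω : Set ℂ) (lam1 : ℝ) (u1 : ℂ → ℝ) : Prop where
  lip : Lip0 Ω u1
  helm : Helm lam1 Ω u1
  wf : WFirst Ω lam1 u1 (grad u1)
  lt : lam1 < lam2c Ω

/-- a minimiser together with a normalised second eigenfunction -/
structure Mn (Ω : Set ℂ) (lam : ℝ) (u : ℂ → ℝ) : Prop extends IsMin Ω where
  lam_eq : lam = lam2c Ω
  lip : Lip0 Ω u
  helm : Helm lam Ω u
  nrm : lam * ∫ z, u z ^ 2 = area Ω

/-- divergence of a vector field -/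
noncomputable def dv (X : ℂ → ℂ) (z : ℂ) : ℝ := (fderiv ℝ X z 1).re + (fderiv ℝ X z I).im

/-- the stress tensor contracted with `DX` -/
noncomputable def st (lam : ℝ) (u : ℂ → ℝ) (X : ℂ → ℂ) (z : ℂ) : ℝ :=
  dot (grad u z) (fderiv ℝ X z (grad u z)) - (‖grad u z‖ ^ 2 - lam * u z ^ 2 + 1) / 2 * dv X z

/-- minus the first variation of the shape functional -/
noncomputable def LL (lam : ℝ) (Ω : Set ℂ) (u : ℂ → ℝ) (X : ℂ → ℂ) : ℝ := ∫ z in Ω, st lam u X z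

/-- unit outer normal at `p` -/
def IsN (Ω : Set ℂ) (p ν : ℂ) : Prop := ‖ν‖ = 1 ∧ ∀ z ∈ Ω, dot (z - p) ν < 0

/-- a choice of the outer normal -/
noncomputable def nu (Ω : Set ℂ) (p : ℂ) : ℂ := Classical.epsilon (IsN Ω p)

/-- the normal is unique at every boundary point -/
def NoCorner (Ω : Set ℂ) : Prop := ∀ p ∈ frontier Ω, ∀ ν ν', IsN Ω p ν → IsN Ω p ν' → ν = ν'

/-- boundary point that is not inside a boundary segment -/
def Ext (Ω : Set ℂ) (p : ℂ) : Prop :=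
  p ∈ frontier Ω ∧ ∀ a b, a ≠ b → segment ℝ a b ⊆ frontier Ω → p ∉ openSegment ℝ a b

/-- projection to the real axis -/
def proj (Ω : Set ℂ) : Set ℝ := re '' Ω

/-- upper boundary as a graph over the real axis -/
noncomputable def top (Ω : Set ℂ) (x : ℝ) : ℝ := sSup {y : ℝ | (⟨x, y⟩ : ℂ) ∈ Ω}

/-- `c` is affine on `[a, b]` -/
def AffOn (c : ℝ → ℝ) (a b : ℝ) : Prop := ∃ α β : ℝ, ∀ x ∈ Icc a b, c x = α + β * x

/-- admissible vertical displacement of the upper boundary -/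
def Adm (Ω : Set ℂ) (v : ℝ → ℝ) : Prop :=
  ∀ᶠ ε in 𝓝[>] (0 : ℝ), ConcaveOn ℝ (proj Ω) fun x => top Ω x + ε * v x

/-- the ramp: `0` below `a`, `1` above `b`, affine between -/
noncomputable def ramp (a b t : ℝ) : ℝ := max 0 (min 1 ((t - a) / (b - a)))

/-- vertical shear field -/
noncomputable def shear (v : ℝ → ℝ) (a b : ℝ) (z : ℂ) : ℂ := ((v z.re * ramp a b z.im : ℝ) : ℂ) * I

/-- gradient extended to the closure -/
noncomputable def Gr (Ω : Set ℂ) (u : ℂ → ℝ) : ℂ → ℂ := extendFrom Ω (grad u)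

/-- similarity `z ↦ p + a z` -/
def sim (p a z : ℂ) : ℂ := p + a * z

/-- reflection in the line through `M` with unit normal `n` -/
noncomputable def rf (M n z : ℂ) : ℂ := z - ((2 * dot (z - M) n : ℝ) : ℂ) * n

/-- a sequence of minimisers that converges to the lower half plane, `u` to `a * im` -/
structure BU (Ω : ℕ → Set ℂ) (lam : ℕ → ℝ) (u : ℕ → ℂ → ℝ) (a : ℝ) : Prop where
  mn : ∀ k, Mn (Ω k) (lam k) (u k)
  lip : ∃ K, ∀ k, LipschitzWith K (u k)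
  lam0 : Tendsto lam atTop (𝓝 0)
  zero : ∀ k, (0 : ℂ) ∈ frontier (Ω k)
  below : ∀ k, ∀ z ∈ Ω k, z.im < 0
  fill : ∀ R δ : ℝ, 0 < δ → ∀ᶠ k in atTop, ∀ z : ℂ, ‖z‖ ≤ R → z.im ≤ -δ → z ∈ Ω k
  conv : ∀ z : ℂ, Tendsto (fun k => u k z) atTop (𝓝 (a * min z.im 0))
  convG : ∀ (z : ℕ → ℂ) (w : ℂ), w.im < 0 → Tendsto z atTop (𝓝 w) →
    Tendsto (fun k => grad (u k) (z k)) atTop (𝓝 (a * I))

/-- strip geometry -/
structure Geo (Ω : Set ℂ) (l r : ℝ → ℝ) : Prop where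
  mem : ∀ z : ℂ, z ∈ Ω ↔ (0 < z.im ∧ z.im < Real.pi) ∧ l z.im < z.re ∧ z.re < r z.im
  contl : ContinuousOn l (Icc 0 Real.pi)
  contr : ContinuousOn r (Icc 0 Real.pi)
  convl : StrictConvexOn ℝ (Icc 0 Real.pi) l
  concr : StrictConcaveOn ℝ (Icc 0 Real.pi) r
  hbot : l 0 < r 0
  htop : l Real.pi < r Real.pi

/-- a minimiser in strip position -/
structure Str (Ω : Set ℂ) (lam : ℝ) (u : ℂ → ℝ) (l r : ℝ → ℝ) : Prop
    extends Mn Ω lam u, Geo Ω l r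

/-- inward slope on the top segment -/
noncomputable def gT (Ω : Set ℂ) (u : ℂ → ℝ) (x : ℝ) : ℝ := -(Gr Ω u ⟨x, Real.pi⟩).im

/-- inward slope on the bottom segment -/
noncomputable def gB (Ω : Set ℂ) (u : ℂ → ℝ) (x : ℝ) : ℝ := (Gr Ω u ⟨x, 0⟩).im

/-- strip position, `u < 0` near the left arc, `u > 0` near the right arc, zeros of the slopes -/
structure Pat (Ω : Set ℂ) (lam : ℝ) (u : ℂ → ℝ) (l r : ℝ → ℝ) (nT nB : ℝ) : Prop
    extends Str Ω lam u l r where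
  sgL : ∀ y ∈ Icc 0 Real.pi, Gr Ω u ⟨l y, y⟩ = nu Ω ⟨l y, y⟩
  sgR : ∀ y ∈ Icc 0 Real.pi, Gr Ω u ⟨r y, y⟩ = -nu Ω ⟨r y, y⟩
  memT : nT ∈ Ioo (l Real.pi) (r Real.pi)
  memB : nB ∈ Ioo (l 0) (r 0)
  zT : gT Ω u nT = 0
  zB : gB Ω u nB = 0

/-- the midpoint of the two ends of the nodal line -/
noncomputable def mid (nT nB : ℝ) : ℂ := ⟨(nT + nB) / 2, Real.pi / 2⟩

/-- the localisation delivered by the quantitative part -/
structure Loc (Ω : Set ℂ) (u : ℂ → ℝ) (nT nB : ℝ) : Prop where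
  win : ∃ ξ₀ ξ₁ : ℝ, 0 ≤ ξ₀ ∧ ξ₀ < ξ₁ ∧ ξ₀ < 3 / 2 ∧
    (∀ z ∈ Ω, u z = 0 → |z.re - (nT + nB) / 2| ≤ ξ₀) ∧
    ∀ z : ℂ, 0 < z.im → z.im < Real.pi → |z.re - (nT + nB) / 2| ≤ ξ₁ → z ∈ Ω
  slope : ∀ z ∈ Ω, u z = 0 → grad u z ≠ 0 →
    |dot (z - mid nT nB) (grad u z)| < Real.pi / 2 * ‖grad u z‖
  disc : ∀ z : ℂ, 0 < z.im → z.im < Real.pi →
    ‖z - mid nT nB‖ ≤ ‖(⟨nT, Real.pi⟩ : ℂ) - mid nT nB‖ → z ∈ Ω
  dT : 0 < deriv (gT Ω u) nT
  dB : 0 < deriv (gB Ω u) nB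

end Pool.Agent.L2K
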