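import Pool.Agent.P.MP_2f6447_an.K.Trans

/-! Auxiliary lemmas for the first variation: bounded measurable functions, pointwise expansion of
the transported energy density. -/

open Set MeasureTheory Filter Topology Complex Metric
open scoped ContDiff ComplexConjugate

namespace Pool.Agent.L2K

variable {Ω U : Set ℂ} {lam : ℝ} {u w f g : ℂ → ℝ}

/-- bounded measurable function -/
structure FV_BM (F : ℂ → ℝ) : Prop where
  meas : Measurable F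
  bd : ∃ C, ∀ z, |F z| ≤ C

theorem FV_BM.const (c : ℝ) : FV_BM fun _ => c := ⟨measurable_const, |c|, fun _ => le_rfl⟩

theorem FV_BM.add {F G : ℂ → ℝ} (hF : FV_BM F) (hG : FV_BM G) : FV_BM fun z => F z + G z := by
  obtain ⟨C, hC⟩ := hF.bd
  obtain ⟨D, hD⟩ := hG.bd
  exact ⟨hF.meas.add hG.meas, C + D, fun z => (abs_add_le _ _).trans (add_le_add (hC z) (hD z))⟩

theorem FV_BM.mul {F G : ℂ → ℝ} (hF : FV_BM F) (hG : FV_BM G) : FV_BM fun z => F z * G z := by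
  obtain ⟨C, hC⟩ := hF.bd
  obtain ⟨D, hD⟩ := hG.bd
  refine ⟨hF.meas.mul hG.meas, C * D, fun z => ?_⟩
  rw [abs_mul]
  exact mul_le_mul (hC z) (hD z) (abs_nonneg _) ((abs_nonneg _).trans (hC z))

theorem FV_BM.of_eq {F G : ℂ → ℝ} (hF : FV_BM F) (e : ∀ z, G z = F z) : FV_BM G := by
  have : G = F := funext e
  rw [this]
  exact hF

theorem FV_BM.cmul {F : ℂ → ℝ} (hF : FV_BM F) (c : ℝ) : FV_BM fun z => c * F z :=
  (FV_BM.const c).mul hF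

theorem FV_BM.sub {F G : ℂ → ℝ} (hF : FV_BM F) (hG : FV_BM G) : FV_BM fun z => F z - G z :=
  (hF.add (hG.cmul (-1))).of_eq fun z => by ring

theorem FV_BM.sq {F : ℂ → ℝ} (hF : FV_BM F) : FV_BM fun z => F z ^ 2 :=
  (hF.mul hF).of_eq fun z => by ring

theorem FV_BM.integrableOn {F : ℂ → ℝ} (hF : FV_BM F) (hΩ : Dom Ω) : IntegrableOn F Ω := by
  obtain ⟨C, hC⟩ := hF.bd
  exact Measure.integrableOn_of_bounded (M := C) hΩ.volume_ne_top hF.meas.aestronglyMeasurable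
    (Eventually.of_forall fun z => by simpa [Real.norm_eq_abs] using hC z)

/-- bounded measurable vector field -/
structure FV_BV (G : ℂ → ℂ) : Prop where
  re : FV_BM fun z => (G z).re
  im : FV_BM fun z => (G z).im

theorem FV_BV.of_bound {G : ℂ → ℂ} (hm : Measurable G) {C : ℝ} (hb : ∀ z, ‖G z‖ ≤ C) : FV_BV G :=
  ⟨⟨Complex.measurable_re.comp hm, C, fun z => (abs_re_le_norm _).trans (hb z)⟩,
    ⟨Complex.measurable_im.comp hm, C, fun z => (abs_im_le_norm _).trans (hb z)⟩⟩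

theorem FV_BV.dot {G H : ℂ → ℂ} (hG : FV_BV G) (hH : FV_BV H) : FV_BM fun z => dot (G z) (H z) :=
  ((hG.re.mul hH.re).add (hG.im.mul hH.im)).of_eq fun _ => rfl

theorem FV_BV.normsq {G : ℂ → ℂ} (hG : FV_BV G) : FV_BM fun z => ‖G z‖ ^ 2 :=
  (hG.dot hG).of_eq fun _ => (dot_self _).symm

theorem FV_lip_BM (h : Lip0 Ω f) (hΩ : Dom Ω) : FV_BM f :=
  ⟨h.continuous.measurable, h.exists_bound hΩ.bdd⟩

theorem FV_grad_BV (h : Lip0 Ω f) : FV_BV (grad f) := by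
  obtain ⟨K, hK⟩ := h.lip
  exact FV_BV.of_bound (measurable_grad f) (norm_grad_le hK)

theorem FV_apply_le {X : ℂ → ℂ} {K : NNReal} (hX : LipschitzWith K X) (z v : ℂ) :
    ‖fderiv ℝ X z v‖ ≤ K * ‖v‖ :=
  ((fderiv ℝ X z).le_opNorm v).trans
    (mul_le_mul_of_nonneg_right (norm_fderiv_le_of_lipschitz ℝ hX) (norm_nonneg _))

theorem FV_fd_BV {X : ℂ → ℂ} {K : NNReal} (hX : LipschitzWith K X) (v : ℂ) :
    FV_BV fun z => fderiv ℝ X z v :=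
  FV_BV.of_bound (measurable_fderiv_apply_const ℝ X v) fun z => FV_apply_le hX z v

theorem FV_clm_apply (A : ℂ →L[ℝ] ℂ) (v : ℂ) : A v = v.re * A 1 + v.im * A I := by
  have h : v = v.re • (1 : ℂ) + v.im • I := by
    apply Complex.ext <;> simp
  conv_lhs => rw [h]
  rw [map_add, map_smul, map_smul]
  simp

theorem FV_app_BV {X G : ℂ → ℂ} {K : NNReal} (hX : LipschitzWith K X) (hG : FV_BV G) :
    FV_BV fun z => fderiv ℝ X z (G z) := by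
  have h1 := FV_fd_BV hX 1
  have hI := FV_fd_BV hX I
  refine ⟨((hG.re.mul h1.re).add (hG.im.mul hI.re)).of_eq fun z => ?_,
    ((hG.re.mul h1.im).add (hG.im.mul hI.im)).of_eq fun z => ?_⟩
  · rw [FV_clm_apply]
    simp
  · rw [FV_clm_apply]
    simp

theorem FV_dv_BM {X : ℂ → ℂ} {K : NNReal} (hX : LipschitzWith K X) : FV_BM (dv X) :=
  ((FV_fd_BV hX 1).re.add (FV_fd_BV hX I).im).of_eq fun _ => rfl

/-- the determinant of the derivative -/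
noncomputable def FV_det (X : ℂ → ℂ) (z : ℂ) : ℝ :=
  (fderiv ℝ X z 1).re * (fderiv ℝ X z I).im - (fderiv ℝ X z I).re * (fderiv ℝ X z 1).im

theorem FV_jac_eq (X : ℂ → ℂ) (ε : ℝ) (z : ℂ) :
    jac X ε z = 1 + ε * dv X z + ε ^ 2 * FV_det X z := rfl

theorem FV_det_BM {X : ℂ → ℂ} {K : NNReal} (hX : LipschitzWith K X) : FV_BM (FV_det X) :=
  (((FV_fd_BV hX 1).re.mul (FV_fd_BV hX I).im).sub
    ((FV_fd_BV hX I).re.mul (FV_fd_BV hX 1).im)).of_eq fun _ => rfl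

theorem FV_jac_BM {X : ℂ → ℂ} {K : NNReal} (hX : LipschitzWith K X) (ε : ℝ) : FV_BM (jac X ε) :=
  (((FV_BM.const 1).add ((FV_dv_BM hX).cmul ε)).add ((FV_det_BM hX).cmul (ε ^ 2))).of_eq
    fun z => FV_jac_eq X ε z

theorem FV_dv_le {X : ℂ → ℂ} {K : NNReal} (hX : LipschitzWith K X) (z : ℂ) :
    |dv X z| ≤ 2 * K := by
  have h1 := (abs_re_le_norm _).trans (FV_apply_le hX z 1)
  have h2 := (abs_im_le_norm _).trans (FV_apply_le hX z I)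
  rw [norm_one, mul_one] at h1
  rw [norm_I, mul_one] at h2
  unfold dv
  have := abs_add_le (fderiv ℝ X z 1).re (fderiv ℝ X z I).im
  linarith

theorem FV_det_le {X : ℂ → ℂ} {K : NNReal} (hX : LipschitzWith K X) (z : ℂ) :
    |FV_det X z| ≤ 2 * K ^ 2 := by
  have h1 := (abs_re_le_norm _).trans (FV_apply_le hX z 1)
  have h2 := (abs_im_le_norm _).trans (FV_apply_le hX z I)
  have h3 := (abs_re_le_norm _).trans (FV_apply_le hX z I)
  have h4 := (abs_im_le_norm _).trans (FV_apply_le hX z 1)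
  rw [norm_one, mul_one] at h1 h4
  rw [norm_I, mul_one] at h2 h3
  unfold FV_det
  have h5 := abs_sub ((fderiv ℝ X z 1).re * (fderiv ℝ X z I).im)
    ((fderiv ℝ X z I).re * (fderiv ℝ X z 1).im)
  rw [abs_mul, abs_mul] at h5
  have h6 := mul_le_mul h1 h2 (abs_nonneg _) K.coe_nonneg
  have h7 := mul_le_mul h3 h4 (abs_nonneg _) K.coe_nonneg
  nlinarith

theorem FV_jac_ge {X : ℂ → ℂ} {K : NNReal} (hX : LipschitzWith K X) {ε : ℝ} (h0 : 0 ≤ ε)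
    (hε : ε * K ≤ 1 / 4) (z : ℂ) : 3 / 8 ≤ jac X ε z := by
  rw [FV_jac_eq]
  have h1 := (abs_le.1 (FV_dv_le hX z)).1
  have h2 := (abs_le.1 (FV_det_le hX z)).1
  have h3 : ε * (-(2 * K)) ≤ ε * dv X z := mul_le_mul_of_nonneg_left h1 h0
  have h4 : ε ^ 2 * (-(2 * K ^ 2)) ≤ ε ^ 2 * FV_det X z :=
    mul_le_mul_of_nonneg_left h2 (sq_nonneg _)
  have h5 : 0 ≤ ε * K := mul_nonneg h0 K.coe_nonneg
  have h6 : (ε * K) ^ 2 ≤ (1 / 4) ^ 2 := pow_le_pow_left₀ h5 hε 2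
  nlinarith

theorem FV_dot_add_right (a b c : ℂ) : dot a (b + c) = dot a b + dot a c := by
  simp only [dot, add_re, add_im]
  ring

theorem FV_dot_add_left (a b c : ℂ) : dot (a + b) c = dot a c + dot b c := by
  simp only [dot, add_re, add_im]
  ring

theorem FV_dot_mul_right (a b : ℂ) (t : ℝ) : dot a (t * b) = t * dot a b := by
  simp only [dot, re_ofReal_mul, im_ofReal_mul]
  ring

theorem FV_dot_mul_left (a b : ℂ) (t : ℝ) : dot (t * a) b = t * dot a b := by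
  simp only [dot, re_ofReal_mul, im_ofReal_mul]
  ring

theorem FV_abs_dot_le {A : ℂ →L[ℝ] ℂ} {K : ℝ} (hA : ∀ v, ‖A v‖ ≤ K * ‖v‖) (a b : ℂ) :
    |dot a (A b)| ≤ K * (‖a‖ * ‖b‖) := by
  have h1 := abs_dot_le a (A b)
  have h2 := mul_le_mul_of_nonneg_left (hA b) (norm_nonneg a)
  linarith

/-- pointwise expansion of the squared norm of the transported gradient -/
theorem FV_point1 {A : ℂ →L[ℝ] ℂ} {K ε : ℝ} (hK : 0 ≤ K) (hA : ∀ v, ‖A v‖ ≤ K * ‖v‖) (h0 : 0 ≤ ε)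
    (hε : ε * K ≤ 1 / 2) {g H : ℂ} (h : ∀ v, dot g v = dot H (v + ε * A v)) :
    ‖H‖ ≤ 2 * ‖g‖ ∧ |‖H‖ ^ 2 - ‖g‖ ^ 2 + 2 * ε * dot g (A g)| ≤ 8 * (ε * K) ^ 2 * ‖g‖ ^ 2 := by
  have h' : ∀ v, dot g v = dot H v + ε * dot H (A v) := fun v => by
    rw [h v, FV_dot_add_right, FV_dot_mul_right]
  have hk : 0 ≤ ε * K := mul_nonneg h0 hK
  have hb : ∀ a b : ℂ, |ε * dot a (A b)| ≤ ε * K * (‖a‖ * ‖b‖) := fun a b => by
    rw [abs_mul, abs_of_nonneg h0, mul_assoc]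
    exact mul_le_mul_of_nonneg_left (FV_abs_dot_le hA a b) h0
  have hg := norm_nonneg g
  have hH := norm_nonneg H
  have e1 : ‖H‖ ≤ 2 * ‖g‖ := by
    have a1 := h' H
    rw [dot_self] at a1
    have a2 := (abs_le.1 (abs_dot_le g H)).2
    have a3 := (abs_le.1 (hb H H)).1
    have a4 : ε * K * (‖H‖ * ‖H‖) ≤ 1 / 2 * (‖H‖ * ‖H‖) :=
      mul_le_mul_of_nonneg_right hε (mul_nonneg hH hH)
    by_contra hc
    have a5 : 2 * ‖g‖ < ‖H‖ := lt_of_not_ge hc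
    have a6 : 0 < ‖H‖ := by linarith
    nlinarith
  obtain ⟨d, rfl⟩ : ∃ d, H = g + d := ⟨H - g, by ring⟩
  have hd := norm_nonneg d
  have e2 : ‖d‖ ≤ 2 * (ε * K) * ‖g‖ := by
    have a1 := h' d
    rw [FV_dot_add_left, dot_self] at a1
    have a3 := (abs_le.1 (hb (g + d) d)).1
    have a4 : ε * K * (‖g + d‖ * ‖d‖) ≤ ε * K * (2 * ‖g‖ * ‖d‖) :=
      mul_le_mul_of_nonneg_left (mul_le_mul_of_nonneg_right e1 hd) hk
    by_contra hc
    have a5 : 2 * (ε * K) * ‖g‖ < ‖d‖ := lt_of_not_ge hc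
    have a6 : 0 < ‖d‖ := lt_of_le_of_lt (by positivity) a5
    nlinarith
  refine ⟨e1, ?_⟩
  have a1 := h' g
  have a2 := h' (g + d)
  rw [dot_self (g + d)] at a2
  rw [dot_self g, dot_comm (g + d) g] at a1
  rw [map_add, FV_dot_add_right (g + d) (A g), FV_dot_add_left g d (A g)] at a2
  rw [FV_dot_add_left g d (A g)] at a1
  have e3 : ‖g + d‖ ^ 2 - ‖g‖ ^ 2 + 2 * ε * dot g (A g) =
      -(2 * (ε * dot d (A g))) - ε * dot (g + d) (A d) := by linarith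
  rw [e3]
  have b1 := abs_le.1 (hb d g)
  have b2 := abs_le.1 (hb (g + d) d)
  have b3 : ε * K * (‖d‖ * ‖g‖) ≤ ε * K * (2 * (ε * K) * ‖g‖ * ‖g‖) :=
    mul_le_mul_of_nonneg_left (mul_le_mul_of_nonneg_right e2 hg) hk
  have b4 : ε * K * (‖g + d‖ * ‖d‖) ≤ ε * K * (2 * ‖g‖ * (2 * (ε * K) * ‖g‖)) :=
    mul_le_mul_of_nonneg_left (mul_le_mul e1 e2 hd (by positivity)) hk
  rw [abs_le]
  constructor <;> nlinarith

/-- pointwise expansion of the transported energy density -/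
theorem FV_point {A : ℂ →L[ℝ] ℂ} {K ε t δ : ℝ} (hK : 0 ≤ K) (hA : ∀ v, ‖A v‖ ≤ K * ‖v‖)
    (h0 : 0 ≤ ε) (hε : ε * K ≤ 1 / 2) (ht : |t| ≤ 2 * K) (hδ : |δ| ≤ 2 * K ^ 2) {g H : ℂ}
    (h : ∀ v, dot g v = dot H (v + ε * A v)) :
    (1 + ε * t + ε ^ 2 * δ) * ‖H‖ ^ 2 ≤
      (1 + 28 * (ε * K) ^ 2) * ‖g‖ ^ 2 + ε * (‖g‖ ^ 2 * t - 2 * dot g (A g)) := by
  obtain ⟨e1, e2⟩ := FV_point1 hK hA h0 hε h
  have hk : 0 ≤ ε * K := mul_nonneg h0 hK
  have hg := norm_nonneg g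
  have hg2 := sq_nonneg ‖g‖
  have a1 : ‖H‖ ^ 2 ≤ 4 * ‖g‖ ^ 2 := by nlinarith [norm_nonneg H]
  have a2 : |ε * dot g (A g)| ≤ ε * K * ‖g‖ ^ 2 := by
    rw [abs_mul, abs_of_nonneg h0, mul_assoc, sq]
    exact mul_le_mul_of_nonneg_left (FV_abs_dot_le hA g g) h0
  have a3 : (ε * K) ^ 2 * ‖g‖ ^ 2 ≤ 1 / 2 * (ε * K) * ‖g‖ ^ 2 :=
    mul_le_mul_of_nonneg_right (by nlinarith) hg2
  have a4 : |‖H‖ ^ 2 - ‖g‖ ^ 2| ≤ 6 * (ε * K) * ‖g‖ ^ 2 := by
    have := abs_le.1 e2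
    have := abs_le.1 a2
    rw [abs_le]
    constructor <;> linarith
  have a5 : |ε * t| ≤ 2 * (ε * K) := by
    rw [abs_mul, abs_of_nonneg h0]
    nlinarith
  have a6 : ε * t * (‖H‖ ^ 2 - ‖g‖ ^ 2) ≤ 2 * (ε * K) * (6 * (ε * K) * ‖g‖ ^ 2) := by
    refine (le_abs_self _).trans ?_
    rw [abs_mul]
    exact mul_le_mul a5 a4 (abs_nonneg _) (by positivity)
  have a7 : ε ^ 2 * δ ≤ 2 * (ε * K) ^ 2 := by
    have := mul_le_mul_of_nonneg_left (abs_le.1 hδ).2 (sq_nonneg ε)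
    linarith [mul_pow ε K 2]
  have a8 : ε ^ 2 * δ * ‖H‖ ^ 2 ≤ 2 * (ε * K) ^ 2 * (4 * ‖g‖ ^ 2) :=
    (mul_le_mul_of_nonneg_right a7 (sq_nonneg _)).trans
      (mul_le_mul_of_nonneg_left a1 (by positivity))
  have a9 := (abs_le.1 e2).2
  nlinarith

/-- a quadratic form with a degenerating corner is nonpositive for small `ε` -/
theorem FV_quad {α β γ : ℝ → ℝ} (hα : Continuous α) (hβ : Continuous β) (hγ : Continuous γ)
    (h1 : α 0 < 0) (h2 : β 0 < 0) : ∀ᶠ ε in 𝓝[>] (0 : ℝ), ∀ a b : ℝ,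
      a ^ 2 * α ε + 2 * a * b * (ε * γ ε) + b ^ 2 * (ε * β ε) ≤ 0 := by
  have e1 : ∀ᶠ ε in 𝓝 (0 : ℝ), α ε < 0 := hα.continuousAt.eventually_lt continuousAt_const h1
  have hc : Continuous fun ε => α ε * β ε - ε * γ ε ^ 2 := by fun_prop
  have e2 : ∀ᶠ ε in 𝓝 (0 : ℝ), 0 < α ε * β ε - ε * γ ε ^ 2 :=
    continuousAt_const.eventually_lt hc.continuousAt (by
      have := mul_pos_of_neg_of_neg h1 h2
      simpa using this)
  filter_upwards [mem_nhdsWithin_of_mem_nhds e1, mem_nhdsWithin_of_mem_nhds e2,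
    self_mem_nhdsWithin] with ε a1 a2 a3 a b
  have a4 : (0 : ℝ) < ε := a3
  have a5 : 0 ≤ b ^ 2 * (ε * (α ε * β ε - ε * γ ε ^ 2)) := by positivity
  have a6 : 0 ≤ (a * α ε + b * (ε * γ ε)) ^ 2 := sq_nonneg _
  by_contra hc'
  have a7 := mul_neg_of_neg_of_pos a1 (lt_of_not_ge hc')
  nlinarith

end Pool.Agent.L2K
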