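import Pool.Agent.P.MP_2f6447_an.K.H10

/-! Lipschitz functions that vanish off a convex domain lie in `H10`; the min-max bound. -/

open Set MeasureTheory Filter Topology Complex Metric
open scoped ContDiff ComplexConjugate

namespace Pool.Agent.L2K

variable {Ω U : Set ℂ} {lam : ℝ} {u w f g : ℂ → ℝ}

theorem LipH_dct {E : Type} [NormedAddCommGroup E] {X : ℕ → ℂ → E} {S : Set ℂ} {C : ℝ}
    (hS : IsCompact S) (hm : ∀ n, AEStronglyMeasurable (X n) volume)
    (hb : ∀ n z, ‖X n z‖ ≤ C) (h0 : ∀ n z, z ∉ S → X n z = 0)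
    (hl : ∀ᵐ z, Tendsto (fun n => X n z) atTop (𝓝 0)) :
    Tendsto (fun n => ∫ z, ‖X n z‖ ^ 2) atTop (𝓝 0) := by
  have key := tendsto_integral_of_dominated_convergence (μ := (volume : Measure ℂ))
    (F := fun n z => ‖X n z‖ ^ 2) (f := fun _ => (0 : ℝ)) (S.indicator fun _ => C ^ 2)
    (fun n => (hm n).norm.pow 2)
    ((integrable_indicator_iff hS.measurableSet).2 (integrableOn_const hS.measure_lt_top.ne))
    (fun n => Eventually.of_forall fun z => by
      by_cases hz : z ∈ S
      · rw [indicator_of_mem hz, Real.norm_eq_abs, abs_of_nonneg (sq_nonneg _)]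
        exact pow_le_pow_left₀ (norm_nonneg _) (hb n z) 2
      · simp [indicator_of_notMem hz, h0 n z hz])
    (hl.mono fun z hz => by simpa using hz.norm.pow 2)
  simpa using key

theorem LipH_grad_sub (u v : ℂ → ℝ) (z : ℂ) :
    ‖grad u z - grad v z‖ ≤ 2 * ‖fderiv ℝ u z - fderiv ℝ v z‖ := by
  have a1 := (fderiv ℝ u z - fderiv ℝ v z).le_opNorm 1
  have a2 := (fderiv ℝ u z - fderiv ℝ v z).le_opNorm I
  rw [norm_one, mul_one, Real.norm_eq_abs] at a1
  rw [norm_I, mul_one, Real.norm_eq_abs] at a2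
  refine (norm_le_abs_re_add_abs_im _).trans ?_
  have e1 : (grad u z - grad v z).re = (fderiv ℝ u z - fderiv ℝ v z) 1 := rfl
  have e2 : (grad u z - grad v z).im = (fderiv ℝ u z - fderiv ℝ v z) I := rfl
  rw [e1, e2]; linarith

theorem LipH_grad_off {S : Set ℂ} (hS : IsClosed S) (h : ∀ z, z ∉ S → u z = 0) {z : ℂ}
    (hz : z ∉ S) : grad u z = 0 := by
  rw [← grad_const 0 z]
  exact grad_congr ((hS.isOpen_compl.eventually_mem hz).mono fun x hx => h x hx)

open scoped Convolution in
theorem LipH_conv {K : NNReal} (hf : LipschitzWith K f) (b : ContDiffBump (0 : ℂ)) (z : ℂ) :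
    fderiv ℝ (b.normed volume ⋆[ContinuousLinearMap.lsmul ℝ ℝ, volume] f) z =
      (b.normed volume ⋆[ContinuousLinearMap.lsmul ℝ ℝ, volume] fderiv ℝ f) z := by
  have hbc : Continuous (b.normed volume) := b.continuous_normed
  have hcont : ∀ x : ℂ, Continuous fun t : ℂ => b.normed volume t • f (x - t) := fun x =>
    hbc.smul (hf.continuous.comp (continuous_const.sub continuous_id))
  have key := hasFDerivAt_integral_of_dominated_loc_of_lip (μ := (volume : Measure ℂ)) (𝕜 := ℝ)
    (F := fun x t : ℂ => b.normed volume t • f (x - t)) (x₀ := z) (s := univ)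
    (bound := fun t => b.normed volume t * K)
    (F' := fun t => b.normed volume t • fderiv ℝ f (z - t)) univ_mem
    (Eventually.of_forall fun x => (hcont x).aestronglyMeasurable)
    ((hcont z).integrable_of_hasCompactSupport b.hasCompactSupport_normed.smul_right)
    (hbc.aestronglyMeasurable.smul
      ((measurable_fderiv ℝ f).comp (measurable_const.sub measurable_id)).aestronglyMeasurable)
    (Eventually.of_forall fun t => by
      refine LipschitzOnWith.of_dist_le_mul fun x _ y _ => ?_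
      have a := hf.dist_le_mul (x - t) (y - t)
      rw [dist_sub_right] at a
      rw [dist_smul₀, Real.coe_nnabs, abs_mul, Real.norm_eq_abs, NNReal.abs_eq, mul_assoc]
      exact mul_le_mul_of_nonneg_left a (abs_nonneg _))
    (b.integrable_normed.mul_const _)
    (((quasiMeasurePreserving_sub_left_of_right_invariant volume z).ae
      (hf.ae_differentiableAt (μ := volume))).mono fun t ht => by
        have a : HasFDerivAt (fun x : ℂ => f (x - t)) (fderiv ℝ f (z - t)) z := by
          have a := ht.hasFDerivAt.comp z ((hasFDerivAt_id z).sub_const t)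
          rw [ContinuousLinearMap.comp_id] at a
          exact a
        exact a.const_smul (b.normed volume t))
  exact key.2.fderiv

open scoped Convolution in
theorem LipH_cpt {K : NNReal} (hf : LipschitzWith K f) (hΩ : IsOpen Ω) (hc : HasCompactSupport f)
    (hs : tsupport f ⊆ Ω) : ∃ φ : ℕ → ℂ → ℝ, (∀ n, Test Ω (φ n)) ∧
    Tendsto (fun n => ∫ z, (φ n z - f z) ^ 2) atTop (𝓝 0) ∧
    Tendsto (fun n => ∫ z, ‖grad (φ n) z - grad f z‖ ^ 2) atTop (𝓝 0) := by
  obtain ⟨δ, hδ, hT⟩ := hc.isCompact.exists_cthickening_subset_open hΩ hs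
  have hS : IsCompact (cthickening δ (tsupport f)) := hc.isCompact.cthickening
  have hp : ∀ n : ℕ, 0 < δ * (1 / ((n : ℝ) + 1)) := fun n => by positivity
  let b : ℕ → ContDiffBump (0 : ℂ) := fun n =>
    ⟨δ * (1 / ((n : ℝ) + 1)) / 2, δ * (1 / ((n : ℝ) + 1)), half_pos (hp n), half_lt_self (hp n)⟩
  have hb0 : Tendsto (fun n => (b n).rOut) atTop (𝓝 0) := by
    have a := (tendsto_one_div_add_atTop_nhds_zero_nat (𝕜 := ℝ)).const_mul δ
    rw [mul_zero] at a
    exact a
  have hbδ : ∀ n, (b n).rOut ≤ δ := fun n => by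
    refine mul_le_of_le_one_right hδ.le ?_
    rw [div_le_one (by positivity)]
    linarith [(Nat.cast_nonneg n : (0 : ℝ) ≤ n)]
  let φ : ℕ → ℂ → ℝ := fun n => (b n).normed volume ⋆[ContinuousLinearMap.lsmul ℝ ℝ, volume] f
  have hsm : ∀ n, ContDiff ℝ 1 (φ n) := fun n =>
    (b n).hasCompactSupport_normed.contDiff_convolution_left _ (b n).contDiff_normed
      hf.continuous.locallyIntegrable
  have hoff : ∀ n z, z ∉ cthickening δ (tsupport f) → φ n z = 0 := fun n z hz => by
    by_contra h0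
    obtain ⟨x, hx, y, hy, rfl⟩ := support_convolution_subset _ h0
    rw [(b n).support_normed_eq, mem_ball_zero_iff] at hx
    refine hz (mem_cthickening_of_dist_le _ y δ _ (subset_tsupport f hy) ?_)
    simpa [dist_eq_norm] using hx.le.trans (hbδ n)
  have hfoff : ∀ z, z ∉ cthickening δ (tsupport f) → f z = 0 := fun z hz =>
    image_eq_zero_of_notMem_tsupport fun h => hz (self_subset_cthickening _ h)
  have hts : ∀ n, tsupport (φ n) ⊆ cthickening δ (tsupport f) := fun n =>
    closure_minimal (fun z hz => by_contra fun h => hz (hoff n z h)) isClosed_cthickening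
  refine ⟨φ, fun n => ⟨hsm n, hS.of_isClosed_subset (isClosed_tsupport _) (hts n),
    (hts n).trans hT⟩, ?_, ?_⟩
  · have key := LipH_dct (X := fun n z => φ n z - f z) (C := K * δ) hS
      (fun n => ((hsm n).continuous.sub hf.continuous).aestronglyMeasurable)
      (fun n z => by
        rw [← dist_eq_norm]
        refine (b n).dist_normed_convolution_le hf.continuous.aestronglyMeasurable fun x hx => ?_
        exact (hf.dist_le_mul x z).trans
          (mul_le_mul_of_nonneg_left ((mem_ball.1 hx).le.trans (hbδ n)) K.coe_nonneg))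
      (fun n z hz => by simp [hoff n z hz, hfoff z hz])
      (Eventually.of_forall fun z => tendsto_sub_nhds_zero_iff.2
        (ContDiffBump.convolution_tendsto_right_of_continuous hb0 hf.continuous z))
    simpa using key
  · have hm : AEStronglyMeasurable (fderiv ℝ f) volume :=
      (measurable_fderiv ℝ f).aestronglyMeasurable
    have hbd : ∀ z, ‖fderiv ℝ f z‖ ≤ K := fun z => norm_fderiv_le_of_lipschitz ℝ hf
    have hli : LocallyIntegrable (fderiv ℝ f) volume :=
      (locallyIntegrable_const (K : ℝ)).mono hm (Eventually.of_forall fun z => by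
        simpa using hbd z)
    refine LipH_dct (X := fun n z => grad (φ n) z - grad f z) (C := 2 * (K + K)) hS
      (fun n => ((measurable_grad _).sub (measurable_grad _)).aestronglyMeasurable)
      (fun n z => ?_)
      (fun n z hz => by
        simp [LipH_grad_off isClosed_cthickening (hoff n) hz,
          LipH_grad_off isClosed_cthickening hfoff hz]) ?_
    · refine (LipH_grad_sub _ _ z).trans (mul_le_mul_of_nonneg_left ?_ zero_le_two)
      rw [LipH_conv hf, ← dist_eq_norm]
      refine (b n).dist_normed_convolution_le hm fun x _ => ?_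
      rw [dist_eq_norm]
      exact (norm_sub_le _ _).trans (add_le_add (hbd x) (hbd z))
    · filter_upwards [ContDiffBump.ae_convolution_tendsto_right_of_locallyIntegrable (K := 2) hb0
        (Eventually.of_forall fun n => le_of_eq (by simp only [b]; ring)) hli] with z hz
      refine squeeze_zero_norm (fun n => LipH_grad_sub (φ n) f z) ?_
      simp only [φ, LipH_conv hf]
      simpa using (tendsto_iff_norm_sub_tendsto_zero.1 hz).const_mul 2

theorem LipH_zero (hf : Continuous f) : ∀ᵐ z, f z = 0 → grad f z = 0 := by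
  have hs : MeasurableSet ({z | f z = 0} ∩ {z | DifferentiableAt ℝ f z}) :=
    (isClosed_eq hf continuous_const).measurableSet.inter (measurableSet_of_differentiableAt ℝ f)
  have key := ApproximatesLinearOn.norm_fderiv_sub_le (volume : Measure ℂ)
    (f := fun z => (f z : ℂ)) (A := 0) (δ := 0)
    (s := {z | f z = 0} ∩ {z | DifferentiableAt ℝ f z})
    (fun x hx y hy => by simp [show f x = 0 from hx.1, show f y = 0 from hy.1]) hs
    (fun z => ofRealCLM.comp (fderiv ℝ f z))
    (fun z hz => (ofRealCLM.hasFDerivAt.comp z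
      (DifferentiableAt.hasFDerivAt hz.2)).hasFDerivWithinAt)
  filter_upwards [(ae_restrict_iff' hs).1 key] with z hz h0
  rw [← norm_eq_zero, norm_grad, norm_eq_zero]
  by_cases hd : DifferentiableAt ℝ f z
  · have a := hz ⟨h0, hd⟩
    rw [sub_zero, nonpos_iff_eq_zero, nnnorm_eq_zero] at a
    ext v
    simpa using congrArg (fun L : ℂ →L[ℝ] ℂ => L v) a
  · exact fderiv_zero_of_not_differentiableAt hd

theorem Lip0.h10 (h : Lip0 Ω f) (hΩ : Dom Ω) : H10 Ω f (grad f) := by
  obtain ⟨K, hK⟩ := h.lip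
  have hp : ∀ n : ℕ, (0 : ℝ) < 1 / ((n : ℝ) + 1) := fun n => by positivity
  have hlim := tendsto_one_div_add_atTop_nhds_zero_nat (𝕜 := ℝ)
  let c : ℕ → ℂ → ℝ := fun n z => max (-(1 / ((n : ℝ) + 1))) (min (1 / ((n : ℝ) + 1)) (f z))
  let F : ℕ → ℂ → ℝ := fun n z => f z - c n z
  have hcl : ∀ n, LipschitzWith K (c n) := fun n => (hK.const_min _).const_max _
  have hFl : ∀ n, LipschitzWith (K + K) (F n) := fun n => hK.sub (hcl n)
  have hsm : ∀ (n : ℕ) z, |f z| ≤ 1 / ((n : ℝ) + 1) → F n z = 0 := fun n z hz => by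
    simp only [F, c]
    rw [min_eq_right (abs_le.1 hz).2, max_eq_right (abs_le.1 hz).1, sub_self]
  have hF0 : ∀ n z, z ∉ Ω → F n z = 0 := fun n z hz =>
    hsm n z (by rw [h.zero z hz, abs_zero]; exact (hp n).le)
  have hL : ∀ n, Lip0 Ω (F n) := fun n => ⟨⟨_, hFl n⟩, hF0 n⟩
  have hS : IsCompact (closure Ω) := hΩ.bdd.isCompact_closure
  have hts : ∀ n, tsupport (F n) ⊆ Ω := fun n => by
    have a : tsupport (F n) ⊆ {z | 1 / ((n : ℝ) + 1) ≤ |f z|} :=
      closure_minimal (fun z hz => by_contra fun h' => hz (hsm n z (not_le.1 h').le))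
        (isClosed_le continuous_const hK.continuous.abs)
    intro z hz
    by_contra h'
    have b : 1 / ((n : ℝ) + 1) ≤ |f z| := a hz
    rw [h.zero z h', abs_zero] at b
    exact absurd (hp n) (not_lt.2 b)
  refine H10.limit (F := F) (H := fun n => grad (F n))
    (fun n => ⟨(hL n).memLp hΩ.bdd, (hL n).memLp_grad hΩ.bdd,
      LipH_cpt (hFl n) hΩ.isOpen ((hL n).hasCompactSupport hΩ.bdd) (hts n)⟩)
    (h.memLp hΩ.bdd) (h.memLp_grad hΩ.bdd) ?_ ?_
  · have hb : ∀ (n : ℕ) z, ‖F n z - f z‖ ≤ 1 / ((n : ℝ) + 1) := fun n z => by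
      simp only [F, c, sub_sub_cancel_left, norm_neg, Real.norm_eq_abs]
      exact abs_le.2 ⟨le_max_left _ _, max_le (by linarith [hp n]) (min_le_left _ _)⟩
    have key := LipH_dct (X := fun n z => F n z - f z) (C := 1) hS
      (fun n => ((hFl n).continuous.sub hK.continuous).aestronglyMeasurable)
      (fun n z => (hb n z).trans (by
        rw [div_le_one (by positivity)]
        linarith [(Nat.cast_nonneg n : (0 : ℝ) ≤ n)]))
      (fun n z hz => by
        have a : z ∉ Ω := fun h' => hz (subset_closure h')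
        simp [hF0 n z a, h.zero z a])
      (Eventually.of_forall fun z => squeeze_zero_norm (fun n => hb n z) hlim)
    simpa using key
  · refine LipH_dct (X := fun n z => grad (F n) z - grad f z) (C := (K + K : NNReal) + K) hS
      (fun n => ((measurable_grad _).sub (measurable_grad _)).aestronglyMeasurable)
      (fun n z => (norm_sub_le _ _).trans
        (add_le_add (norm_grad_le (hFl n) z) (norm_grad_le hK z)))
      (fun n z hz => by simp [(hL n).grad_zero hz, h.grad_zero hz]) ?_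
    filter_upwards [LipH_zero hK.continuous] with z hz
    refine tendsto_const_nhds.congr' ?_
    have hc := hK.continuous.continuousAt (x := z)
    have sub : ∀ a : ℝ, grad (fun x => f x - a) z = grad f z := fun a => by
      simp only [grad, D, fderiv_sub_const]
    rcases lt_trichotomy (f z) 0 with h0 | h0 | h0
    · filter_upwards [hlim.eventually (gt_mem_nhds (neg_pos.2 h0))] with n hn
      rw [eq_comm, sub_eq_zero, ← sub (-(1 / ((n : ℝ) + 1)))]
      refine grad_congr ?_
      filter_upwards [hc.eventually (gt_mem_nhds (lt_neg.1 hn))] with x hx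
      simp only [F, c]
      rw [min_eq_right (by linarith [hp n]), max_eq_left hx.le]
    · refine Eventually.of_forall fun n => ?_
      show 0 = grad (F n) z - grad f z
      rw [hz h0, sub_zero, ← grad_const 0 z]
      refine grad_congr ?_
      have a : |f z| < 1 / ((n : ℝ) + 1) := by rw [h0, abs_zero]; exact hp n
      filter_upwards [hc.abs.eventually (gt_mem_nhds a)] with x hx
      exact (hsm n x hx.le).symm
    · filter_upwards [hlim.eventually (gt_mem_nhds h0)] with n hn
      rw [eq_comm, sub_eq_zero, ← sub (1 / ((n : ℝ) + 1))]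
      refine grad_congr ?_
      filter_upwards [hc.eventually (lt_mem_nhds hn)] with x hx
      simp only [F, c]
      rw [min_eq_left hx.le, max_eq_right (by linarith [hp n])]

theorem LipH_key {E : Type} [NormedAddCommGroup E] [NormedSpace ℝ E] {X Y X' Y' : ℂ → E}
    (hX : MemLp X 2 volume) (hY : MemLp Y 2 volume) (hX' : MemLp X' 2 volume)
    (hY' : MemLp Y' 2 volume) (a b : ℝ) {ε η : ℝ} (hε : 0 < ε)
    (h1 : ∫ z, ‖X z - X' z‖ ^ 2 ≤ η) (h2 : ∫ z, ‖Y z - Y' z‖ ^ 2 ≤ η) :
    ∫ z, ‖a • X z + b • Y z‖ ^ 2 ≤ (1 + ε) * (∫ z, ‖a • X' z + b • Y' z‖ ^ 2) +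
      2 * (1 + 1 / ε) * η * (a ^ 2 + b ^ 2) := by
  have I0 : ∀ {Z : ℂ → E}, MemLp Z 2 volume → Integrable fun z => ‖Z z‖ ^ 2 := fun hZ =>
    hZ.norm.integrable_sq
  have i1 : Integrable fun z => ‖a • X z + b • Y z‖ ^ 2 :=
    I0 ((hX.const_smul a).add (hY.const_smul b))
  have i2 : Integrable fun z => ‖a • X' z + b • Y' z‖ ^ 2 :=
    I0 ((hX'.const_smul a).add (hY'.const_smul b))
  have i3 : Integrable fun z => ‖X z - X' z‖ ^ 2 := I0 (hX.sub hX')
  have i4 : Integrable fun z => ‖Y z - Y' z‖ ^ 2 := I0 (hY.sub hY')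
  have j2 := i2.const_mul (1 + ε)
  have j3 := i3.const_mul (2 * (1 + 1 / ε) * a ^ 2)
  have j4 := i4.const_mul (2 * (1 + 1 / ε) * b ^ 2)
  have j5 : Integrable fun z => 2 * (1 + 1 / ε) * a ^ 2 * ‖X z - X' z‖ ^ 2 +
      2 * (1 + 1 / ε) * b ^ 2 * ‖Y z - Y' z‖ ^ 2 := j3.add j4
  have key : ∫ z, ‖a • X z + b • Y z‖ ^ 2 ≤ ∫ z, ((1 + ε) * ‖a • X' z + b • Y' z‖ ^ 2 +
      (2 * (1 + 1 / ε) * a ^ 2 * ‖X z - X' z‖ ^ 2 +
        2 * (1 + 1 / ε) * b ^ 2 * ‖Y z - Y' z‖ ^ 2)) := by
    refine integral_mono i1 (j2.add j5) fun z => ?_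
    have e : a • X z + b • Y z =
        (a • X' z + b • Y' z) + (a • (X z - X' z) + b • (Y z - Y' z)) := by
      simp only [smul_sub]; abel
    have t : ‖a • X z + b • Y z‖ ≤
        ‖a • X' z + b • Y' z‖ + (|a| * ‖X z - X' z‖ + |b| * ‖Y z - Y' z‖) := by
      rw [e]
      refine (norm_add_le _ _).trans (add_le_add le_rfl ((norm_add_le _ _).trans ?_))
      simp only [norm_smul, Real.norm_eq_abs, le_refl]
    refine (pow_le_pow_left₀ (norm_nonneg _) t 2).trans ?_
    rw [← sq_abs a, ← sq_abs b]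
    generalize ‖a • X' z + b • Y' z‖ = p
    generalize |a| = a'
    generalize |b| = b'
    generalize ‖X z - X' z‖ = v
    generalize ‖Y z - Y' z‖ = v'
    have s1 : (p + (a' * v + b' * v')) ^ 2 ≤
        (1 + ε) * p ^ 2 + (1 + 1 / ε) * (a' * v + b' * v') ^ 2 := by
      have : (1 + ε) * p ^ 2 + (1 + 1 / ε) * (a' * v + b' * v') ^ 2 -
          (p + (a' * v + b' * v')) ^ 2 = (ε * p - (a' * v + b' * v')) ^ 2 / ε := by
        field_simp; ring
      have := div_nonneg (sq_nonneg (ε * p - (a' * v + b' * v'))) hε.le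
      linarith
    have s2 : (a' * v + b' * v') ^ 2 ≤ 2 * ((a' * v) ^ 2 + (b' * v') ^ 2) := by
      nlinarith [sq_nonneg (a' * v - b' * v')]
    have s3 := mul_le_mul_of_nonneg_left s2 (by positivity : 0 ≤ 1 + 1 / ε)
    show _ ≤ (1 + ε) * p ^ 2 + (2 * (1 + 1 / ε) * a' ^ 2 * v ^ 2 + 2 * (1 + 1 / ε) * b' ^ 2 * v' ^ 2)
    linarith
  rw [integral_add j2 j5, integral_add j3 j4, integral_const_mul, integral_const_mul,
    integral_const_mul] at key
  have k1 := mul_le_mul_of_nonneg_left h1 (by positivity : 0 ≤ 2 * (1 + 1 / ε) * a ^ 2)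
  have k2 := mul_le_mul_of_nonneg_left h2 (by positivity : 0 ≤ 2 * (1 + 1 / ε) * b ^ 2)
  linarith

theorem LipH_pos (hf : MemLp f 2 volume) (hg : MemLp g 2 volume)
    (hi : ∀ a b : ℝ, ∫ z, (a * f z + b * g z) ^ 2 = 0 → a = 0 ∧ b = 0) :
    ∃ c : ℝ, 0 < c ∧ ∀ a b : ℝ, c * (a ^ 2 + b ^ 2) ≤ ∫ z, (a * f z + b * g z) ^ 2 := by
  have ex : ∀ a b : ℝ, ∫ z, (a * f z + b * g z) ^ 2 =
      a ^ 2 * (∫ z, f z ^ 2) + (2 * a * b * (∫ z, f z * g z) + b ^ 2 * ∫ z, g z ^ 2) := by
    intro a b
    have j1 := hf.integrable_sq.const_mul (a ^ 2)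
    have j2 : Integrable fun z => 2 * a * b * (f z * g z) := (hf.integrable_mul hg).const_mul _
    have j3 := hg.integrable_sq.const_mul (b ^ 2)
    have j4 : Integrable fun z => 2 * a * b * (f z * g z) + b ^ 2 * g z ^ 2 := j2.add j3
    rw [← integral_const_mul, ← integral_const_mul, ← integral_const_mul, ← integral_add j2 j3,
      ← integral_add j1 j4]
    exact integral_congr_ae (Eventually.of_forall fun z => by ring)
  have po : ∀ a b : ℝ, ¬(a = 0 ∧ b = 0) → 0 < ∫ z, (a * f z + b * g z) ^ 2 := fun a b h =>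
    lt_of_le_of_ne (integral_nonneg fun z => sq_nonneg _) fun e => h (hi a b e.symm)
  simp only [ex] at po ⊢
  generalize ∫ z, f z ^ 2 = p at po ⊢
  generalize ∫ z, f z * g z = q at po ⊢
  generalize ∫ z, g z ^ 2 = s at po ⊢
  have hp : 0 < p := by simpa using po 1 0 (by simp)
  have hs : 0 < s := by simpa using po 0 1 (by simp)
  have hd : 0 < p * s - q ^ 2 := by
    have a := po (-q) p fun h => hp.ne' h.2
    have e : (-q) ^ 2 * p + (2 * -q * p * q + p ^ 2 * s) = p * (p * s - q ^ 2) := by ring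
    rw [e] at a
    exact (mul_pos_iff_of_pos_left hp).1 a
  refine ⟨(p * s - q ^ 2) / (p + s), by positivity, fun a b => ?_⟩
  rw [div_mul_eq_mul_div, div_le_iff₀ (by positivity)]
  nlinarith [sq_nonneg (a * p + b * q), sq_nonneg (a * q + b * s)]

theorem lam2c_le {G H : ℂ → ℂ} (hf : H10 Ω f G) (hg : H10 Ω g H) {r : ℝ}
    (hi : ∀ a b : ℝ, ∫ z, (a * f z + b * g z) ^ 2 = 0 → a = 0 ∧ b = 0)
    (hr : ∀ a b : ℝ, ∫ z, ‖(a : ℂ) * G z + b * H z‖ ^ 2 ≤ r * ∫ z, (a * f z + b * g z) ^ 2) :
    lam2c Ω ≤ r := by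
  obtain ⟨c, hc, hcM⟩ := LipH_pos hf.memf hg.memf hi
  have hr0 : 0 ≤ r := by
    have a1 := hr 1 0
    have a2 := hcM 1 0
    have a3 : 0 ≤ ∫ z, ‖((1 : ℝ) : ℂ) * G z + ((0 : ℝ) : ℂ) * H z‖ ^ 2 :=
      integral_nonneg fun z => sq_nonneg _
    by_contra hn
    have := mul_neg_of_neg_of_pos (not_le.1 hn) (lt_of_lt_of_le (by simpa using hc) a2)
    linarith
  by_cases hb : BddBelow (RSc Ω)
  swap
  · rw [lam2c, Real.sInf_of_not_bddBelow hb]; exact hr0
  obtain ⟨φ, hφ, p1, p2⟩ := hf.approx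
  obtain ⟨ψ, hψ, q1, q2⟩ := hg.approx
  have main : ∀ ε ∈ Ioo (0 : ℝ) 1, lam2c Ω ≤ ((1 + ε) * r + ε) * (1 + ε) / (1 - ε) := by
    rintro ε ⟨hε, hε1⟩
    have hη : 0 < ε * c / (2 * (1 + 1 / ε)) := by positivity
    obtain ⟨n, ⟨n1, n2⟩, n3, n4⟩ := (((p1.eventually (gt_mem_nhds hη)).and
      (p2.eventually (gt_mem_nhds hη))).and ((q1.eventually (gt_mem_nhds hη)).and
      (q2.eventually (gt_mem_nhds hη)))).exists
    have e0 : 2 * (1 + 1 / ε) * (ε * c / (2 * (1 + 1 / ε))) = ε * c := by field_simp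
    have hA : ∀ a b : ℝ, ∫ z, ‖(a : ℂ) * grad (φ n) z + b * grad (ψ n) z‖ ^ 2 ≤
        ((1 + ε) * r + ε) * ∫ z, (a * f z + b * g z) ^ 2 := fun a b => by
      have k := LipH_key (hφ n).h10.memG (hψ n).h10.memG hf.memG hg.memG a b hε n2.le n4.le
      simp only [real_smul, e0] at k
      have k1 := mul_le_mul_of_nonneg_left (hr a b) (by positivity : 0 ≤ 1 + ε)
      have k2 := mul_le_mul_of_nonneg_left (hcM a b) hε.le
      linarith
    have hM : ∀ a b : ℝ, (1 - ε) * ∫ z, (a * f z + b * g z) ^ 2 ≤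
        (1 + ε) * ∫ z, (a * φ n z + b * ψ n z) ^ 2 := fun a b => by
      have k := LipH_key hf.memf hg.memf (hφ n).h10.memf (hψ n).h10.memf a b hε
        (η := ε * c / (2 * (1 + 1 / ε)))
        (by simpa only [Real.norm_eq_abs, sq_abs, sub_sq_comm (f _)] using n1.le)
        (by simpa only [Real.norm_eq_abs, sq_abs, sub_sq_comm (g _)] using n3.le)
      simp only [smul_eq_mul, e0, Real.norm_eq_abs, sq_abs] at k
      have k2 := mul_le_mul_of_nonneg_left (hcM a b) hε.le
      linarith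
    refine csInf_le hb ⟨φ n, ψ n, hφ n, hψ n, LinearIndependent.pair_iff.2 fun a b hab => ?_,
      fun a b => ?_⟩
    · have k := hM a b
      have e : ∀ z, a * φ n z + b * ψ n z = 0 := fun z => congrFun hab z
      simp only [e, ne_eq, OfNat.ofNat_ne_zero, not_false_eq_true, zero_pow, integral_zero,
        mul_zero] at k
      refine hi a b (le_antisymm ?_ (integral_nonneg fun z => sq_nonneg _))
      exact nonpos_of_mul_nonpos_right k (sub_pos.2 hε1)
    · have d1 := (hφ n).smooth.differentiable one_ne_zero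
      have d2 := (hψ n).smooth.differentiable one_ne_zero
      have e : ∀ x, ‖fderiv ℝ (fun y => a * φ n y + b * ψ n y) x‖ =
          ‖(a : ℂ) * grad (φ n) x + b * grad (ψ n) x‖ := fun x => by
        rw [← norm_grad, grad_add ((d1 x).const_mul a) ((d2 x).const_mul b), grad_const_mul,
          grad_const_mul]
      simp only [e]
      refine (hA a b).trans ?_
      rw [div_mul_eq_mul_div, le_div_iff₀ (sub_pos.2 hε1)]
      have k := mul_le_mul_of_nonneg_left (hM a b) (by positivity : 0 ≤ (1 + ε) * r + ε)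
      linarith
  have ct : ContinuousAt (fun ε : ℝ => ((1 + ε) * r + ε) * (1 + ε) / (1 - ε)) 0 := by
    fun_prop (disch := simp)
  have lim : Tendsto (fun ε : ℝ => ((1 + ε) * r + ε) * (1 + ε) / (1 - ε)) (𝓝[>] 0) (𝓝 r) := by
    simpa using ct.tendsto.mono_left nhdsWithin_le_nhds
  exact ge_of_tendsto lim (mem_of_superset (Ioo_mem_nhdsGT one_pos) main)

end Pool.Agent.L2K
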