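import Pool.Agent.P.MP_2f6447_an.K.Rellich
import Pool.Agent.P.MP_2f6447_an.K.LipH

/-! Weak first and second eigenfunctions. -/

open Set MeasureTheory Filter Topology Complex Metric
open scoped ContDiff ComplexConjugate

namespace Pool.Agent.L2K

variable {Ω U : Set ℂ} {lam : ℝ} {u w f g : ℂ → ℝ}

section Hilbert
variable {E : Type} [NormedAddCommGroup E] [InnerProductSpace ℝ E]

theorem WEig_inner {F G : ℂ → E} (hF : MemLp F 2 volume) (hG : MemLp G 2 volume) :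
    inner ℝ (hF.toLp F) (hG.toLp G) = ∫ z, inner ℝ (F z) (G z) := by
  rw [L2.inner_def]
  refine integral_congr_ae ?_
  filter_upwards [hF.coeFn_toLp, hG.coeFn_toLp] with z h1 h2
  rw [h1, h2]

theorem WEig_norm {F : ℂ → E} (hF : MemLp F 2 volume) :
    ‖hF.toLp F‖ ^ 2 = ∫ z, ‖F z‖ ^ 2 := by
  rw [← real_inner_self_eq_norm_sq, WEig_inner]
  simp only [real_inner_self_eq_norm_sq]

theorem WEig_tend {F : ℕ → ℂ → E} {G : ℂ → E} (hF : ∀ n, MemLp (F n) 2 volume)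
    (hG : MemLp G 2 volume) (h : Tendsto (fun n => ∫ z, ‖F n z - G z‖ ^ 2) atTop (𝓝 0)) :
    Tendsto (fun n => (hF n).toLp (F n)) atTop (𝓝 (hG.toLp G)) := by
  rw [tendsto_iff_norm_sub_tendsto_zero]
  have e : ∀ n, ‖(hF n).toLp (F n) - hG.toLp G‖ = Real.sqrt (∫ z, ‖F n z - G z‖ ^ 2) := by
    intro n
    rw [← MemLp.toLp_sub (hF n) hG]
    have := WEig_norm ((hF n).sub hG)
    simp only [Pi.sub_apply] at this
    rw [← this, Real.sqrt_sq (norm_nonneg _)]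
  simp only [e]
  have := (Real.continuous_sqrt.tendsto 0).comp h
  rwa [Real.sqrt_zero] at this

theorem WEig_tend_inner {F : ℕ → ℂ → E} {G H : ℂ → E} (hF : ∀ n, MemLp (F n) 2 volume)
    (hG : MemLp G 2 volume) (hH : MemLp H 2 volume)
    (h : Tendsto (fun n => ∫ z, ‖F n z - G z‖ ^ 2) atTop (𝓝 0)) :
    Tendsto (fun n => ∫ z, inner ℝ (F n z) (H z)) atTop (𝓝 (∫ z, inner ℝ (G z) (H z))) := by
  have := (WEig_tend hF hG h).inner (𝕜 := ℝ) (tendsto_const_nhds (x := hH.toLp H))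
  simpa only [WEig_inner] using this

theorem WEig_tend_norm {F : ℕ → ℂ → E} {G : ℂ → E} (hF : ∀ n, MemLp (F n) 2 volume)
    (hG : MemLp G 2 volume) (h : Tendsto (fun n => ∫ z, ‖F n z - G z‖ ^ 2) atTop (𝓝 0)) :
    Tendsto (fun n => ∫ z, ‖F n z‖ ^ 2) atTop (𝓝 (∫ z, ‖G z‖ ^ 2)) := by
  have := (WEig_tend hF hG h).norm.pow 2
  simpa only [WEig_norm] using this

theorem WEig_quad {F G : ℂ → E} (hF : MemLp F 2 volume) (hG : MemLp G 2 volume) (a b : ℝ) :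
    ∫ z, ‖a • F z + b • G z‖ ^ 2 = a ^ 2 * (∫ z, ‖F z‖ ^ 2) +
      2 * a * b * (∫ z, inner ℝ (F z) (G z)) + b ^ 2 * ∫ z, ‖G z‖ ^ 2 := by
  have h := WEig_norm ((hF.const_smul a).add (hG.const_smul b))
  simp only [Pi.add_apply, Pi.smul_apply] at h
  rw [← h, MemLp.toLp_add (hF.const_smul a) (hG.const_smul b), MemLp.toLp_const_smul a hF,
    MemLp.toLp_const_smul b hG, ← WEig_norm hF, ← WEig_norm hG, ← WEig_inner hF hG,
    norm_add_sq_real, norm_smul, norm_smul, real_inner_smul_left, real_inner_smul_right,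
    mul_pow, mul_pow, Real.norm_eq_abs, Real.norm_eq_abs, sq_abs, sq_abs]
  ring

end Hilbert

theorem WEig_rinner (a b : ℝ) : inner ℝ a b = a * b := by
  simp [mul_comm]

theorem WEig_tend_mul {F : ℕ → ℂ → ℝ} {G H : ℂ → ℝ} (hF : ∀ n, MemLp (F n) 2 volume)
    (hG : MemLp G 2 volume) (hH : MemLp H 2 volume)
    (h : Tendsto (fun n => ∫ z, (F n z - G z) ^ 2) atTop (𝓝 0)) :
    Tendsto (fun n => ∫ z, F n z * H z) atTop (𝓝 (∫ z, G z * H z)) := by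
  have := WEig_tend_inner hF hG hH (by simpa only [Real.norm_eq_abs, sq_abs] using h)
  simpa only [WEig_rinner] using this

theorem WEig_tend_sq {F : ℕ → ℂ → ℝ} {G : ℂ → ℝ} (hF : ∀ n, MemLp (F n) 2 volume)
    (hG : MemLp G 2 volume) (h : Tendsto (fun n => ∫ z, (F n z - G z) ^ 2) atTop (𝓝 0)) :
    Tendsto (fun n => ∫ z, F n z ^ 2) atTop (𝓝 (∫ z, G z ^ 2)) := by
  have := WEig_tend_norm hF hG (by simpa only [Real.norm_eq_abs, sq_abs] using h)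
  simpa only [Real.norm_eq_abs, sq_abs] using this

theorem WEig_quadR {F G : ℂ → ℝ} (hF : MemLp F 2 volume) (hG : MemLp G 2 volume) (a b : ℝ) :
    ∫ z, (a * F z + b * G z) ^ 2 = a ^ 2 * (∫ z, F z ^ 2) +
      2 * a * b * (∫ z, F z * G z) + b ^ 2 * ∫ z, G z ^ 2 := by
  have := WEig_quad hF hG a b
  simpa only [Real.norm_eq_abs, sq_abs, WEig_rinner, smul_eq_mul] using this

theorem WEig_quadC {F G : ℂ → ℂ} (hF : MemLp F 2 volume) (hG : MemLp G 2 volume) (a b : ℝ) :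
    ∫ z, ‖(a : ℂ) * F z + b * G z‖ ^ 2 = a ^ 2 * (∫ z, ‖F z‖ ^ 2) +
      2 * a * b * (∫ z, dot (F z) (G z)) + b ^ 2 * ∫ z, ‖G z‖ ^ 2 := by
  have := WEig_quad hF hG a b
  simpa only [dot_eq_inner, Complex.real_smul] using this

theorem WEig_comb {φ ψ : ℂ → ℝ} (hφ : Test Ω φ) (hψ : Test Ω ψ) (a b : ℝ) :
    Test Ω fun z => a * φ z + b * ψ z := by
  have hs : tsupport (fun z => a * φ z + b * ψ z) ⊆ tsupport φ ∪ tsupport ψ := by
    refine closure_minimal ?_ ((isClosed_tsupport φ).union (isClosed_tsupport ψ))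
    intro z hz
    by_contra hn
    rw [mem_union, not_or] at hn
    apply hz
    simp only [image_eq_zero_of_notMem_tsupport hn.1, image_eq_zero_of_notMem_tsupport hn.2,
      mul_zero, add_zero]
  refine ⟨(contDiff_const.mul hφ.smooth).add (contDiff_const.mul hψ.smooth), ?_,
    hs.trans (union_subset hφ.supp hψ.supp)⟩
  exact (hφ.cpt.isCompact.union hψ.cpt.isCompact).of_isClosed_subset (isClosed_tsupport _) hs

theorem WEig_grad_comb {φ ψ : ℂ → ℝ} (hφ : Test Ω φ) (hψ : Test Ω ψ) (a b : ℝ) (z : ℂ) :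
    grad (fun z => a * φ z + b * ψ z) z = a * grad φ z + b * grad ψ z := by
  have h1 : DifferentiableAt ℝ φ z := hφ.smooth.differentiable one_ne_zero z
  have h2 : DifferentiableAt ℝ ψ z := hψ.smooth.differentiable one_ne_zero z
  rw [grad_add (f := fun z => a * φ z) (g := fun z => b * ψ z) (h1.const_mul a) (h2.const_mul b),
    grad_const_mul, grad_const_mul]

theorem WEig_int_comb {F G H : ℂ → ℝ} (hF : MemLp F 2 volume) (hG : MemLp G 2 volume)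
    (hH : MemLp H 2 volume) (a b : ℝ) :
    ∫ z, (a * F z + b * G z) * H z = a * (∫ z, F z * H z) + b * ∫ z, G z * H z := by
  have i1 : Integrable (fun z => F z * H z) := hF.integrable_mul hH
  have i2 : Integrable (fun z => G z * H z) := hG.integrable_mul hH
  rw [← integral_const_mul, ← integral_const_mul, ← integral_add (i1.const_mul a) (i2.const_mul b)]
  refine integral_congr_ae (Eventually.of_forall fun z => ?_)
  ring

/-- test functions orthogonal to `f` -/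
def WEig_V (Ω : Set ℂ) {f : ℂ → ℝ} (hf : MemLp f 2 volume) : Submodule ℝ (ℂ → ℝ) where
  carrier := {φ | Test Ω φ ∧ ∫ z, φ z * f z = 0}
  add_mem' := by
    intro φ ψ hφ hψ
    have e : φ + ψ = fun z => 1 * φ z + 1 * ψ z := by funext z; simp
    rw [e]
    refine ⟨WEig_comb hφ.1 hψ.1 1 1, ?_⟩
    rw [WEig_int_comb hφ.1.h10.memf hψ.1.h10.memf hf, hφ.2, hψ.2]
    ring
  zero_mem' := by
    refine ⟨⟨contDiff_const, HasCompactSupport.zero, ?_⟩, by simp⟩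
    rw [tsupport_zero]
    exact empty_subset _
  smul_mem' := by
    intro c φ hφ
    have e : c • φ = fun z => c * φ z + 0 * φ z := by funext z; simp
    rw [e]
    refine ⟨WEig_comb hφ.1 hφ.1 c 0, ?_⟩
    rw [WEig_int_comb hφ.1.h10.memf hφ.1.h10.memf hf, hφ.2]
    ring

theorem WEig_pos {φ : ℂ → ℝ} (hφ : Test Ω φ) (h0 : φ ≠ 0) : 0 < ∫ z, φ z ^ 2 := by
  obtain ⟨z, hz⟩ := Function.ne_iff.1 h0
  have hc : HasCompactSupport fun z => φ z ^ 2 :=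
    hφ.cpt.comp_left (g := fun t : ℝ => t ^ 2) (by simp)
  exact Continuous.integral_pos_of_hasCompactSupport_nonneg_nonzero (x := z)
    (hφ.smooth.continuous.pow 2) hc (fun z => sq_nonneg _) (pow_ne_zero 2 hz)

theorem WEig_plane {φ ψ : ℂ → ℝ} (hφ : Test Ω φ) (hψ : Test Ω ψ)
    (hl : LinearIndependent ℝ ![φ, ψ]) (hf : MemLp f 2 volume) :
    ∃ a b : ℝ, (fun z => a * φ z + b * ψ z) ∈ WEig_V Ω hf ∧ (fun z => a * φ z + b * ψ z) ≠ 0 := by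
  rw [LinearIndependent.pair_iff] at hl
  have key : ∀ a b : ℝ, (fun z => a * φ z + b * ψ z) = 0 → a = 0 ∧ b = 0 := fun a b h =>
    hl a b (by funext z; exact congrFun h z)
  by_cases h0 : ∫ z, φ z * f z = 0
  · refine ⟨1, 0, ⟨WEig_comb hφ hψ 1 0, ?_⟩, fun h => one_ne_zero (key _ _ h).1⟩
    rw [WEig_int_comb hφ.h10.memf hψ.h10.memf hf, h0]
    ring
  · refine ⟨-∫ z, ψ z * f z, ∫ z, φ z * f z, ⟨WEig_comb hφ hψ _ _, ?_⟩,
      fun h => h0 (key _ _ h).2⟩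
    rw [WEig_int_comb hφ.h10.memf hψ.h10.memf hf]
    ring

theorem WEig_bump {p : ℂ} {r : ℝ} (hr : 0 < r) (hs : closedBall p r ⊆ Ω) :
    ∃ φ : ℂ → ℝ, Test Ω φ ∧ φ p = 1 ∧ ∀ z, r ≤ dist z p → φ z = 0 := by
  let b : ContDiffBump p := ⟨r / 2, r, by positivity, by linarith⟩
  refine ⟨b, ⟨b.contDiff, b.hasCompactSupport, ?_⟩, ?_, fun z hz => b.zero_of_le_dist hz⟩
  · rw [b.tsupport_eq]
    exact hs
  · exact b.one_of_mem_closedBall (mem_closedBall_self (by positivity : (0 : ℝ) ≤ r / 2))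

theorem WEig_two (h : Dom Ω) : ∃ φ ψ : ℂ → ℝ, Test Ω φ ∧ Test Ω ψ ∧
    LinearIndependent ℝ ![φ, ψ] ∧ φ ≠ 0 ∧ ψ ≠ 0 ∧ ∀ z, φ z * ψ z = 0 := by
  obtain ⟨p, hp⟩ := h.ne
  obtain ⟨r, hr, hb⟩ := Metric.isOpen_iff.1 h.isOpen p hp
  have hd : dist (p + ((r / 2 : ℝ) : ℂ)) p = r / 2 := by
    rw [dist_eq_norm, add_sub_cancel_left, Complex.norm_real, Real.norm_eq_abs,
      abs_of_pos (by positivity)]
  obtain ⟨φ, hφ, hφ1, hφ0⟩ := WEig_bump (Ω := Ω) (p := p) (r := r / 4) (by positivity)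
    ((closedBall_subset_ball (by linarith)).trans hb)
  obtain ⟨ψ, hψ, hψ1, hψ0⟩ := WEig_bump (Ω := Ω) (p := p + ((r / 2 : ℝ) : ℂ)) (r := r / 4)
    (by positivity) (by
      intro z hz
      apply hb
      rw [mem_closedBall] at hz
      rw [mem_ball]
      have := dist_triangle z (p + ((r / 2 : ℝ) : ℂ)) p
      linarith)
  have a1 : φ (p + ((r / 2 : ℝ) : ℂ)) = 0 := hφ0 _ (by rw [hd]; linarith)
  have a2 : ψ p = 0 := hψ0 _ (by rw [dist_comm, hd]; linarith)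
  refine ⟨φ, ψ, hφ, hψ, ?_, ?_, ?_, fun z => ?_⟩
  · rw [LinearIndependent.pair_iff]
    intro a b hab
    have e1 := congrFun hab p
    have e2 := congrFun hab (p + ((r / 2 : ℝ) : ℂ))
    simp only [Pi.add_apply, Pi.smul_apply, smul_eq_mul, Pi.zero_apply, hφ1, hψ1, a1, a2] at e1 e2
    constructor <;> linarith
  · intro e
    rw [e] at hφ1
    exact zero_ne_one hφ1
  · intro e
    rw [e] at hψ1
    exact zero_ne_one hψ1
  · by_cases hz : r / 4 ≤ dist z p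
    · rw [hφ0 z hz, zero_mul]
    · have := dist_triangle_left (p + ((r / 2 : ℝ) : ℂ)) p z
      rw [hψ0 z (by linarith), mul_zero]

theorem WEig_ne (h : Dom Ω) : (RSc Ω).Nonempty := by
  obtain ⟨φ, ψ, hφ, hψ, hl, h1, h2, h3⟩ := WEig_two h
  have hA := WEig_pos hφ h1
  have hB := WEig_pos hψ h2
  set A := ∫ z, φ z ^ 2
  set B := ∫ z, ψ z ^ 2
  set P := ∫ z, ‖grad φ z‖ ^ 2 with hP
  set Q := ∫ z, ‖grad ψ z‖ ^ 2 with hQ
  set R := ∫ z, dot (grad φ z) (grad ψ z) with hR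
  have hP0 : 0 ≤ P := integral_nonneg fun z => sq_nonneg _
  have hQ0 : 0 ≤ Q := integral_nonneg fun z => sq_nonneg _
  have hm : 0 < min A B := lt_min hA hB
  refine ⟨(P + Q + |R|) / min A B, φ, ψ, hφ, hψ, hl, fun a b => ?_⟩
  simp only [← norm_grad, WEig_grad_comb hφ hψ]
  rw [WEig_quadC hφ.h10.memG hψ.h10.memG, WEig_quadR hφ.h10.memf hψ.h10.memf]
  simp only [h3, integral_zero, mul_zero, add_zero]
  rw [div_mul_eq_mul_div, le_div_iff₀ hm]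
  have c1 : 2 * a * b * R ≤ (a ^ 2 + b ^ 2) * |R| := by
    have : |2 * a * b| ≤ a ^ 2 + b ^ 2 := abs_le.2 ⟨by nlinarith [sq_nonneg (a + b)],
      by nlinarith [sq_nonneg (a - b)]⟩
    calc 2 * a * b * R ≤ |2 * a * b * R| := le_abs_self _
      _ = |2 * a * b| * |R| := abs_mul _ _
      _ ≤ _ := mul_le_mul_of_nonneg_right this (abs_nonneg _)
  have c2 : a ^ 2 * P + 2 * a * b * R + b ^ 2 * Q ≤ (P + Q + |R|) * (a ^ 2 + b ^ 2) := by
    nlinarith [mul_nonneg (sq_nonneg a) hQ0, mul_nonneg (sq_nonneg b) hP0]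
  have c3 : (a ^ 2 + b ^ 2) * min A B ≤ a ^ 2 * A + b ^ 2 * B := by
    nlinarith [mul_le_mul_of_nonneg_left (min_le_left A B) (sq_nonneg a),
      mul_le_mul_of_nonneg_left (min_le_right A B) (sq_nonneg b)]
  calc _ ≤ (P + Q + |R|) * (a ^ 2 + b ^ 2) * min A B := mul_le_mul_of_nonneg_right c2 hm.le
    _ = (P + Q + |R|) * ((a ^ 2 + b ^ 2) * min A B) := by ring
    _ ≤ _ := mul_le_mul_of_nonneg_left c3 (by positivity)

theorem WEig_ray {μ : ℝ} (h : ∀ ψ, Test Ω ψ → μ * ∫ z, ψ z ^ 2 ≤ ∫ z, ‖grad ψ z‖ ^ 2)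
    (g : ℂ → ℝ) (H : ℂ → ℂ) (hg : H10 Ω g H) : μ * ∫ z, g z ^ 2 ≤ ∫ z, ‖H z‖ ^ 2 := by
  obtain ⟨φ, hφ, t1, t2⟩ := hg.approx
  exact le_of_tendsto_of_tendsto'
    ((WEig_tend_sq (fun n => (hφ n).h10.memf) hg.memf t1).const_mul μ)
    (WEig_tend_norm (fun n => (hφ n).h10.memG) hg.memG t2) fun n => h _ (hφ n)

theorem WEig_ray_orth {μ : ℝ} {G : ℂ → ℂ} (hf : H10 Ω f G) (h1 : ∫ z, f z ^ 2 = 1)
    (h : ∀ ψ ∈ WEig_V Ω hf.memf, μ * ∫ z, ψ z ^ 2 ≤ ∫ z, ‖grad ψ z‖ ^ 2)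
    (g : ℂ → ℝ) (H : ℂ → ℂ) (hg : H10 Ω g H) (ho : ∫ z, g z * f z = 0) :
    μ * ∫ z, g z ^ 2 ≤ ∫ z, ‖H z‖ ^ 2 := by
  obtain ⟨ψ, hψ, hψ0⟩ : ∃ ψ, Test Ω ψ ∧ ∫ z, ψ z * f z ≠ 0 := by
    obtain ⟨φ, hφ, t1, -⟩ := hf.approx
    have t := WEig_tend_mul (fun n => (hφ n).h10.memf) hf.memf hf.memf t1
    have e : ∫ z, f z * f z = 1 := by simpa only [sq] using h1
    rw [e] at t
    obtain ⟨n, hn⟩ := (t.eventually_ne one_ne_zero).exists
    exact ⟨φ n, hφ n, hn⟩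
  obtain ⟨φ, hφ, t1, t2⟩ := hg.approx
  have mf := fun n => (hφ n).h10.memf
  have mG := fun n => (hφ n).h10.memG
  let c : ℕ → ℝ := fun n => -(∫ z, φ n z * f z) / ∫ z, ψ z * f z
  have tc : Tendsto c atTop (𝓝 0) := by
    have t := (WEig_tend_mul mf hg.memf hf.memf t1).neg.div_const (∫ z, ψ z * f z)
    rwa [ho, neg_zero, zero_div] at t
  have hn : ∀ n, μ * (1 ^ 2 * (∫ z, φ n z ^ 2) + 2 * 1 * c n * (∫ z, φ n z * ψ z) +
      c n ^ 2 * ∫ z, ψ z ^ 2) ≤ 1 ^ 2 * (∫ z, ‖grad (φ n) z‖ ^ 2) +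
      2 * 1 * c n * (∫ z, inner ℝ (grad (φ n) z) (grad ψ z)) +
      c n ^ 2 * ∫ z, ‖grad ψ z‖ ^ 2 := by
    intro n
    have hm : (fun z => 1 * φ n z + c n * ψ z) ∈ WEig_V Ω hf.memf := by
      refine ⟨WEig_comb (hφ n) hψ _ _, ?_⟩
      rw [WEig_int_comb (mf n) hψ.h10.memf hf.memf, div_mul_cancel₀ _ hψ0]
      ring
    have := h _ hm
    simp only [WEig_grad_comb (hφ n) hψ] at this
    rw [WEig_quadC (mG n) hψ.h10.memG, WEig_quadR (mf n) hψ.h10.memf] at this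
    simpa only [dot_eq_inner] using this
  have l1 := ((((WEig_tend_sq mf hg.memf t1).const_mul (1 ^ 2)).add
    ((tc.const_mul (2 * 1)).mul (WEig_tend_mul mf hg.memf hψ.h10.memf t1))).add
    ((tc.pow 2).mul_const (∫ z, ψ z ^ 2))).const_mul μ
  have l2 := (((WEig_tend_norm mG hg.memG t2).const_mul (1 ^ 2)).add
    ((tc.const_mul (2 * 1)).mul (WEig_tend_inner mG hg.memG hψ.h10.memG t2))).add
    ((tc.pow 2).mul_const (∫ z, ‖grad ψ z‖ ^ 2))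
  have := le_of_tendsto_of_tendsto' l1 l2 hn
  simpa using this

theorem exists_weak (h : Dom Ω) : ∃ (lam1 : ℝ) (f1 f2 : ℂ → ℝ) (G1 G2 : ℂ → ℂ),
    WFirst Ω lam1 f1 G1 ∧ lam1 ≤ lam2c Ω ∧ H10 Ω f2 G2 ∧ Weak (lam2c Ω) Ω f2 G2 ∧
      ∫ z, f2 z ^ 2 = 1 ∧ ∫ z, f2 z * f1 z = 0 := by
  obtain ⟨φ0, ψ0, hφ0, hψ0, hl0, -, -, -⟩ := WEig_two h
  have hne : ∀ {f : ℂ → ℝ} (hf : MemLp f 2 volume), WEig_V Ω hf ≠ ⊥ := by
    intro f hf
    obtain ⟨a, b, h1, h2⟩ := WEig_plane hφ0 hψ0 hl0 hf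
    exact (Submodule.ne_bot_iff _).2 ⟨_, h1, h2⟩
  have z0 : MemLp (fun _ : ℂ => (0 : ℝ)) 2 volume := MemLp.zero'
  obtain ⟨μ1, f1, G1, φ1, r1, m1, mf1, mG1, ta1, tb1, n1, e1⟩ :=
    exists_min h.bdd (WEig_V Ω z0) (fun φ hφ => hφ.1) (hne z0)
  have hf1 : H10 Ω f1 G1 := ⟨mf1, mG1, φ1, fun n => (m1 n).1, ta1, tb1⟩
  have ray1 := WEig_ray (Ω := Ω) (μ := μ1) fun ψ hψ => r1 ψ ⟨hψ, by simp⟩
  have w1 : Weak μ1 Ω f1 G1 := weak_of_min hf1 ray1 (by rw [n1, e1, mul_one])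
  have pos1 : 0 < μ1 := by
    obtain ⟨c, hc, hp⟩ := poincare h.bdd
    have := WEig_ray hp f1 G1 hf1
    rw [n1, e1, mul_one] at this
    exact hc.trans_le this
  obtain ⟨μ2, f2, G2, φ2, r2, m2, mf2, mG2, ta2, tb2, n2, e2⟩ :=
    exists_min h.bdd (WEig_V Ω hf1.memf) (fun φ hφ => hφ.1) (hne hf1.memf)
  have hf2 : H10 Ω f2 G2 := ⟨mf2, mG2, φ2, fun n => (m2 n).1, ta2, tb2⟩
  have ho : ∫ z, f2 z * f1 z = 0 := by
    have t := WEig_tend_mul (fun n => (m2 n).1.h10.memf) mf2 mf1 ta2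
    have e : (fun n => ∫ z, φ2 n z * f1 z) = fun _ => 0 := funext fun n => (m2 n).2
    rw [e] at t
    exact tendsto_nhds_unique t tendsto_const_nhds
  have ho' : ∫ z, f1 z * f2 z = 0 := by simpa only [mul_comm] using ho
  have h12 : μ1 ≤ μ2 := by
    have := ray1 f2 G2 hf2
    rwa [n2, e2, mul_one] at this
  have le1 : μ2 ≤ lam2c Ω := by
    refine le_csInf (WEig_ne h) ?_
    rintro r ⟨φ, ψ, hφ, hψ, hl, hr⟩
    obtain ⟨a, b, h1, h2⟩ := WEig_plane hφ hψ hl hf1.memf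
    have k1 := r2 _ h1
    have k2 := hr a b
    simp only [← norm_grad] at k2
    exact le_of_mul_le_mul_right (k1.trans k2) (WEig_pos h1.1 h2)
  have le2 : lam2c Ω ≤ μ2 := by
    refine lam2c_le hf1 hf2 (fun a b hab => ?_) fun a b => ?_
    · rw [WEig_quadR mf1 mf2, n1, n2, ho'] at hab
      constructor <;> nlinarith [sq_nonneg a, sq_nonneg b]
    · rw [WEig_quadR mf1 mf2, WEig_quadC mG1 mG2, w1.h10 mf1 mG1 hf2, n1, n2, ho', e1, e2]
      nlinarith [mul_le_mul_of_nonneg_left h12 (sq_nonneg a)]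
  have e : μ2 = lam2c Ω := le_antisymm le1 le2
  subst e
  have wf : WFirst Ω μ1 f1 G1 := ⟨hf1, w1, n1, pos1, ray1, WEig_ray_orth hf1 n1 r2⟩
  exact ⟨μ1, f1, f2, G1, G2, wf, h12, hf2, wf.weak_of_orth hf2 ho (by rw [n2, e2, mul_one]), n2, ho⟩

end Pool.Agent.L2K
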