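import Pool.Agent.P.MP_2f6447_an.K.Reg0
import Pool.Agent.P.MP_2f6447_an.K.WEig
import Pool.Agent.P.MP_2f6447_an.K.Lead

/-! The first eigenvalue is simple; existence of `First` and `Mn`. -/

open Set MeasureTheory Filter Topology Complex Metric
open scoped ContDiff ComplexConjugate

namespace Pool.Agent.L2K

variable {Ω U : Set ℂ} {lam : ℝ} {u w f g : ℂ → ℝ}

theorem First_ev {φ : ℂ → ℝ} (hφ : Test Ω φ) {z : ℂ} (hz : z ∉ Ω) : φ =ᶠ[𝓝 z] fun _ => 0 :=
  notMem_tsupport_iff_eventuallyEq.1 fun h => hz (hφ.supp h)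

theorem First_cd {φ : ℂ → ℝ} (hΩ : IsOpen Ω) (hg : ContDiffOn ℝ ∞ g Ω) (hφ : Test Ω φ) :
    ContDiff ℝ 1 fun z => g z * φ z := by
  rw [contDiff_iff_contDiffAt]
  intro z
  by_cases hz : z ∈ Ω
  · exact ((hg.contDiffAt (hΩ.mem_nhds hz)).of_le (by exact_mod_cast le_top)).mul
      hφ.smooth.contDiffAt
  · refine (contDiffAt_const (c := (0 : ℝ))).congr_of_eventuallyEq ?_
    filter_upwards [First_ev hφ hz] with x hx
    simp [hx]

theorem First_intD {F : ℂ → ℝ} (hF : ContDiff ℝ 1 F) (hc : HasCompactSupport F) (v : ℂ) :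
    Integrable fun z => fderiv ℝ F z v :=
  ((hF.continuous_fderiv one_ne_zero).clm_apply continuous_const).integrable_of_hasCompactSupport
    (hc.fderiv_apply ℝ v)

theorem First_int0 {F : ℂ → ℝ} (hF : ContDiff ℝ 1 F) (hc : HasCompactSupport F) (v : ℂ) :
    ∫ z, fderiv ℝ F z v = 0 := by
  have h := integral_mul_fderiv_eq_neg_fderiv_mul_of_integrable (μ := (volume : Measure ℂ))
    (f := fun _ : ℂ => (1 : ℝ)) (g := F) (v := v) (by simp) (by simpa using First_intD hF hc v)
    (by simpa using hF.continuous.integrable_of_hasCompactSupport hc)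
    (fun _ _ => differentiableAt_const _) (fun x _ => hF.differentiable one_ne_zero x)
  simpa using h

theorem First_prod {φ : ℂ → ℝ} (h : Helm lam Ω u) (hφ : Test Ω φ) (v z : ℂ) :
    fderiv ℝ (fun x => D v u x * φ x) z v = D v (D v u) z * φ z + D v u z * D v φ z := by
  by_cases hz : z ∈ Ω
  · rw [fderiv_fun_mul ((h.of_D v).differentiableAt hz) (hφ.smooth.differentiable one_ne_zero z)]
    simp only [D, add_apply, smul_apply, smul_eq_mul]
    ring
  · have e := First_ev hφ hz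
    have e2 : (fun x => D v u x * φ x) =ᶠ[𝓝 z] fun _ => 0 := by
      filter_upwards [e] with x hx
      simp [hx]
    have e3 : D v φ z = 0 := by
      rw [D, e.fderiv_eq]
      simp
    rw [e2.fderiv_eq, e3, e.eq_of_nhds]
    simp

theorem Helm.weak (h : Helm lam Ω u) : Weak lam Ω u (grad u) := by
  intro φ hφ
  have c1 := First_cd h.isOpen (h.of_D 1).smooth hφ
  have c2 := First_cd h.isOpen (h.of_D I).smooth hφ
  have c3 := First_cd h.isOpen h.smooth hφ
  have s1 : HasCompactSupport fun z => D 1 u z * φ z := hφ.cpt.mul_left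
  have s2 : HasCompactSupport fun z => D I u z * φ z := hφ.cpt.mul_left
  have s3 : HasCompactSupport fun z => u z * φ z := hφ.cpt.mul_left
  have e : ∀ z, dot (grad u z) (grad φ z) =
      (fderiv ℝ (fun x => D 1 u x * φ x) z 1 + fderiv ℝ (fun x => D I u x * φ x) z I) +
        lam * (u z * φ z) := by
    intro z
    rw [First_prod h hφ, First_prod h hφ]
    have e0 : (lap u z + lam * u z) * φ z = 0 := by
      by_cases hz : z ∈ Ω
      · rw [h.eq z hz, zero_mul]
      · rw [(First_ev hφ hz).eq_of_nhds, mul_zero]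
    simp only [dot, grad, lap] at e0 ⊢
    linarith
  simp_rw [e]
  have i1 := First_intD c1 s1 1
  have i2 := First_intD c2 s2 I
  have i3 : Integrable fun z => lam * (u z * φ z) :=
    (c3.continuous.integrable_of_hasCompactSupport s3).const_mul lam
  have i4 : Integrable fun z => fderiv ℝ (fun x => D 1 u x * φ x) z 1 +
      fderiv ℝ (fun x => D I u x * φ x) z I := i1.add i2
  rw [integral_add i4 i3, integral_add i1 i2, First_int0 c1 s1, First_int0 c2 s2,
    integral_const_mul]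
  simp

theorem First_energy (hΩ : Dom Ω) (hl : Lip0 Ω u) (h : Helm lam Ω u) :
    ∫ z, ‖grad u z‖ ^ 2 = lam * ∫ z, u z ^ 2 := by
  have e := h.weak.h10 (hl.memLp hΩ.bdd) (hl.memLp_grad hΩ.bdd) (hl.h10 hΩ)
  simpa only [dot_self, ← sq] using e

theorem First_smul (h : Lip0 Ω f) (a : ℝ) : Lip0 Ω fun z => a * f z := by
  obtain ⟨K, hK⟩ := h.lip
  exact ⟨⟨_, (lipschitzWith_smul a).comp hK⟩, fun z hz => by rw [h.zero z hz, mul_zero]⟩

theorem First_add (hf : Lip0 Ω f) (hg : Lip0 Ω g) : Lip0 Ω fun z => f z + g z := by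
  obtain ⟨K, hK⟩ := hf.lip
  obtain ⟨L, hL⟩ := hg.lip
  exact ⟨⟨_, hK.add hL⟩, fun z hz => by rw [hf.zero z hz, hg.zero z hz, add_zero]⟩

theorem First_abs (h : Lip0 Ω f) : Lip0 Ω fun z => |f z| := by
  obtain ⟨K, hK⟩ := h.lip
  exact ⟨⟨_, (lipschitzWith_one_norm (E := ℝ)).comp hK⟩,
    fun z hz => by rw [h.zero z hz, abs_zero]⟩

theorem First_grad_abs (hc : Continuous f) (z : ℂ) : ‖grad (fun x => |f x|) z‖ ≤ ‖grad f z‖ := by
  rcases lt_trichotomy (f z) 0 with h | h | h
  · have e : (fun x => |f x|) =ᶠ[𝓝 z] fun x => -f x := by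
      filter_upwards [hc.continuousAt.eventually_lt continuousAt_const h] with x hx
      exact abs_of_neg hx
    rw [grad_congr e, grad_neg, norm_neg]
  · have e : IsLocalMin (fun x => |f x|) z :=
      Eventually.of_forall fun x => by simp [h]
    rw [grad_eq_zero_of_isLocalMin e, norm_zero]
    exact norm_nonneg _
  · have e : (fun x => |f x|) =ᶠ[𝓝 z] f := by
      filter_upwards [continuousAt_const.eventually_lt hc.continuousAt h] with x hx
      exact abs_of_pos hx
    rw [grad_congr e]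

theorem First_zero (hΩ : Dom Ω) (hl : 0 ≤ lam)
    (hq : ∀ g H, H10 Ω g H → lam * ∫ z, g z ^ 2 ≤ ∫ z, ‖H z‖ ^ 2)
    (hw : Lip0 Ω w) (h : Helm lam Ω w) {p : ℂ} (hp : p ∈ Ω) (h0 : w p = 0) (z : ℂ) : w z = 0 := by
  have ha := First_abs hw
  have i1 : Integrable fun z => ‖grad w z‖ ^ 2 :=
    (memLp_two_iff_integrable_sq_norm (hw.memLp_grad hΩ.bdd).1).1 (hw.memLp_grad hΩ.bdd)
  have le : ∫ z, ‖grad (fun x => |w x|) z‖ ^ 2 ≤ lam * ∫ z, |w z| ^ 2 := by
    simp only [sq_abs]
    rw [← First_energy hΩ hw h]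
    exact integral_mono_of_nonneg (Eventually.of_forall fun z => sq_nonneg _) i1
      (Eventually.of_forall fun z =>
        pow_le_pow_left₀ (norm_nonneg _) (First_grad_abs hw.continuous z) 2)
  have hk := weak_of_min (ha.h10 hΩ) hq le
  have hh := weyl_cont hΩ.isOpen hl ha.continuous.continuousOn ((ha.h10 hΩ).vweak hk)
  by_cases hz : z ∈ Ω
  · rcases strong_max hh hl hΩ.convex.isPreconnected fun z _ => abs_nonneg _ with h1 | h1
    · have := h1 p hp
      simp [h0] at this
    · exact abs_eq_zero.1 (h1 z hz)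
  · exact hw.zero z hz

theorem First_intmul (hΩ : Dom Ω) (hf : Lip0 Ω f) (hg : Lip0 Ω g) :
    Integrable fun z => f z * g z :=
  (hf.continuous.mul hg.continuous).integrable_of_hasCompactSupport
    (hf.hasCompactSupport hΩ.bdd).mul_right

theorem exists_first (h : Dom Ω) : ∃ lam1 u1, First Ω lam1 u1 := by
  obtain ⟨lam1, f1, f2, G1, G2, hf, hle, h2, w2, n2, o2⟩ := exists_weak h
  obtain ⟨u1, l1, e1, a1, -⟩ := exists_lip h hf.h10 hf.weak hf.pos.le
  have n1 : ∫ z, u1 z ^ 2 = 1 := by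
    rw [← hf.one]
    exact integral_congr_ae (a1.mono fun z hz => by simp only [hz])
  refine ⟨lam1, u1, l1, e1, ⟨l1.h10 h, e1.weak, n1, hf.pos, hf.ray1, fun g H hg ho => ?_⟩, ?_⟩
  · refine hf.ray2 g H hg ?_
    rw [← ho]
    exact integral_congr_ae (a1.mono fun z hz => by simp only [hz])
  refine lt_of_le_of_ne hle fun he => ?_
  rw [← he] at w2
  obtain ⟨u2, l2, e2, a2, -⟩ := exists_lip h h2 w2 hf.pos.le
  have m2 : ∫ z, u2 z * u2 z = 1 := by
    rw [← n2]
    exact integral_congr_ae (a2.mono fun z hz => by simp only [hz, sq])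
  have m1 : ∫ z, u1 z * u1 z = 1 := by simpa only [sq] using n1
  have o : ∫ z, u2 z * u1 z = 0 := by
    rw [← o2]
    refine integral_congr_ae ?_
    filter_upwards [a1, a2] with z h1 h2
    rw [h1, h2]
  have o' : ∫ z, u1 z * u2 z = 0 := by simpa only [mul_comm] using o
  obtain ⟨p, hp⟩ := h.ne
  have key : ∀ a b : ℝ, a * u1 p + b * u2 p = 0 → a = 0 ∧ b = 0 := by
    intro a b hab
    have hz := First_zero h hf.pos.le hf.ray1 (First_add (First_smul l1 a) (First_smul l2 b))
      ((e1.const_mul a).add (e2.const_mul b)) hp hab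
    have lin : ∀ v, Lip0 Ω v → a * (∫ z, u1 z * v z) + b * ∫ z, u2 z * v z = 0 := by
      intro v hv
      rw [← integral_const_mul, ← integral_const_mul,
        ← integral_add ((First_intmul h l1 hv).const_mul a) ((First_intmul h l2 hv).const_mul b)]
      have : ∀ z, a * (u1 z * v z) + b * (u2 z * v z) = 0 := fun z => by
        have := hz z
        linear_combination v z * this
      simp [this]
    have k1 := lin u1 l1
    have k2 := lin u2 l2
    rw [m1, o] at k1
    rw [o', m2] at k2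
    constructor <;> linarith
  have k := key (u2 p) (-u1 p) (by ring)
  have k' := key 1 0 (by linarith [k.2])
  exact one_ne_zero k'.1

theorem exists_mn (h : IsMin Ω) : ∃ u, Mn Ω (lam2c Ω) u := by
  obtain ⟨lam1, f1, f2, G1, G2, hf, hle, h2, w2, n2, -⟩ := exists_weak h.toDom
  have hl : 0 < lam2c Ω := hf.pos.trans_le hle
  obtain ⟨u2, l2, e2, a2, -⟩ := exists_lip h.toDom h2 w2 hl.le
  have m2 : ∫ z, u2 z ^ 2 = 1 := by
    rw [← n2]
    exact integral_congr_ae (a2.mono fun z hz => by simp only [hz])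
  refine ⟨fun z => √(area Ω / lam2c Ω) * u2 z, h, rfl, First_smul l2 _, e2.const_mul _, ?_⟩
  simp_rw [mul_pow]
  rw [integral_const_mul, m2, Real.sq_sqrt (div_pos h.toDom.area_pos hl).le]
  field_simp

theorem Mn.energy (h : Mn Ω lam u) : ∫ z, ‖grad u z‖ ^ 2 = area Ω := by
  rw [First_energy h.toDom h.lip h.helm, h.nrm]

theorem First.orth {lam1 : ℝ} {u1 : ℂ → ℝ} (h1 : First Ω lam1 u1) (h : Mn Ω lam u) :
    ∫ z, u z * u1 z = 0 ∧ ∫ z, dot (grad u z) (grad u1 z) = 0 := by
  have a := h.helm.weak.h10 (h.lip.memLp h.bdd) (h.lip.memLp_grad h.bdd) h1.wf.h10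
  have b := h1.wf.weak.h10 h1.wf.h10.memf h1.wf.h10.memG (h.lip.h10 h.toDom)
  simp_rw [dot_comm (grad u1 _), mul_comm (u1 _)] at b
  have lt : lam1 < lam := h.lam_eq ▸ h1.lt
  have z : ∫ z, u z * u1 z = 0 := by
    have : (lam - lam1) * ∫ z, u z * u1 z = 0 := by linarith
    exact (mul_eq_zero.1 this).resolve_left (sub_pos.2 lt).ne'
  exact ⟨z, by rw [a, z, mul_zero]⟩

end Pool.Agent.L2K
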