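import Pool.Agent.P.MP_2f6447_an.K.Trans
import Pool.Agent.P.MP_2f6447_an.K.First
import Pool.Agent.P.MP_2f6447_an.K.FVA

/-! First variation inequality. -/

open Set MeasureTheory Filter Topology Complex Metric
open scoped ContDiff ComplexConjugate

namespace Pool.Agent.L2K

variable {Ω U : Set ℂ} {lam : ℝ} {u w f g : ℂ → ℝ}

theorem FV_image_eq {X Ψ : ℂ → ℂ} {ε : ℝ} (h1 : ∀ z, Ψ (z + ε * X z) = z)
    (h2 : ∀ z, Ψ z + ε * X (Ψ z) = z) (S : Set ℂ) : (fun z => z + ε * X z) '' S = Ψ ⁻¹' S := by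
  ext z
  constructor
  · rintro ⟨x, hx, rfl⟩
    show Ψ (x + ε * X x) ∈ S
    rw [h1]
    exact hx
  · intro hz
    exact ⟨Ψ z, hz, h2 z⟩

theorem FV_dom (hΩ : Dom Ω) {X : ℂ → ℂ} {K : NNReal} (hX : LipschitzWith K X) {ε : ℝ}
    (hε : |ε| * K ≤ 1 / 2) (hc : Convex ℝ ((fun z => z + ε * X z) '' Ω)) :
    Dom ((fun z => z + ε * X z) '' Ω) := by
  obtain ⟨Ψ, hΨ, h1, h2⟩ := exists_inverse hX hε
  refine ⟨?_, hc, ?_, hΩ.ne.image _⟩
  · rw [FV_image_eq h1 h2]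
    exact hΩ.isOpen.preimage hΨ.continuous
  · have hcont : Continuous fun z => z + ε * X z :=
      continuous_id.add (continuous_const.mul hX.continuous)
    exact (hΩ.bdd.isCompact_closure.image hcont).isBounded.subset (image_mono subset_closure)

theorem FV_lip0 {Ψ : ℂ → ℂ} (hΨ : LipschitzWith 2 Ψ) (hf : Lip0 Ω f) :
    Lip0 (Ψ ⁻¹' Ω) fun z => f (Ψ z) := by
  obtain ⟨L, hL⟩ := hf.lip
  exact ⟨⟨L * 2, hL.comp hΨ⟩, fun z hz => hf.zero _ hz⟩

theorem FV_mass (hΩ : Dom Ω) {X Ψ : ℂ → ℂ} {K : NNReal} (hX : LipschitzWith K X) {ε : ℝ}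
    (hε : |ε| * K ≤ 1 / 2) (h1 : ∀ z, Ψ (z + ε * X z) = z) (h2 : ∀ z, Ψ z + ε * X (Ψ z) = z)
    {F : ℂ → ℝ} (hF : ∀ z, z ∉ Ω → F z = 0) :
    ∫ z, F (Ψ z) = ∫ z in Ω, jac X ε z * F z := by
  have h3 := integral_transport hX hε hΩ.isOpen.measurableSet fun z => F (Ψ z)
  simp only [h1] at h3
  rw [← h3, FV_image_eq h1 h2]
  exact (setIntegral_eq_integral_of_forall_compl_eq_zero (f := fun z => F (Ψ z))
    (s := Ψ ⁻¹' Ω) fun z hz => hF _ hz).symm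

theorem FV_grad_rel {X Ψ : ℂ → ℂ} {K : NNReal} (hX : LipschitzWith K X) {ε : ℝ}
    (hε : |ε| * K ≤ 1 / 2) (hΨ : LipschitzWith 2 Ψ) (h1 : ∀ z, Ψ (z + ε * X z) = z)
    (hf : Lip0 Ω f) : ∀ᵐ z, ∀ v, dot (grad f z) v =
      dot (grad (fun x => f (Ψ x)) (z + ε * X z)) (v + ε * fderiv ℝ X z v) := by
  obtain ⟨L, hL⟩ := (FV_lip0 hΨ hf).lip
  have h3 := grad_transport hX hε hL
  simp only [h1] at h3
  exact h3

/-- polarised first order term of the transported energy density -/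
noncomputable def FV_B (X G H : ℂ → ℂ) (z : ℂ) : ℝ :=
  dot (G z) (H z) * dv X z - dot (G z) (fderiv ℝ X z (H z)) - dot (H z) (fderiv ℝ X z (G z))

theorem FV_B_BM {X G H : ℂ → ℂ} {K : NNReal} (hX : LipschitzWith K X) (hG : FV_BV G)
    (hH : FV_BV H) : FV_BM (FV_B X G H) :=
  ((((hG.dot hH).mul (FV_dv_BM hX)).sub (hG.dot (FV_app_BV hX hH))).sub
    (hH.dot (FV_app_BV hX hG))).of_eq fun _ => rfl

theorem FV_clm_mul (A : ℂ →L[ℝ] ℂ) (a : ℝ) (v : ℂ) : A (a * v) = a * A v := by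
  rw [← Complex.real_smul, map_smul, Complex.real_smul]

theorem FV_expand (X G H : ℂ → ℂ) (z : ℂ) (a b c ε : ℝ) :
    c * ‖a * G z + b * H z‖ ^ 2 + ε * (‖a * G z + b * H z‖ ^ 2 * dv X z -
      2 * dot (a * G z + b * H z) (fderiv ℝ X z (a * G z + b * H z))) =
    c * a ^ 2 * ‖G z‖ ^ 2 + c * (2 * a * b) * dot (G z) (H z) + c * b ^ 2 * ‖H z‖ ^ 2 +
      ε * a ^ 2 * FV_B X G G z + ε * (2 * a * b) * FV_B X G H z + ε * b ^ 2 * FV_B X H H z := by
  simp only [← dot_self, FV_B, map_add, FV_clm_mul, FV_dot_add_left, FV_dot_add_right,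
    FV_dot_mul_left, FV_dot_mul_right, dot_comm (H z) (G z)]
  ring

theorem FV_int6 (hΩ : Dom Ω) {F1 F2 F3 F4 F5 F6 : ℂ → ℝ} (h1 : FV_BM F1) (h2 : FV_BM F2)
    (h3 : FV_BM F3) (h4 : FV_BM F4) (h5 : FV_BM F5) (h6 : FV_BM F6) (c1 c2 c3 c4 c5 c6 : ℝ) :
    ∫ z in Ω, (c1 * F1 z + c2 * F2 z + c3 * F3 z + c4 * F4 z + c5 * F5 z + c6 * F6 z) =
      c1 * (∫ z in Ω, F1 z) + c2 * (∫ z in Ω, F2 z) + c3 * (∫ z in Ω, F3 z) +
        c4 * (∫ z in Ω, F4 z) + c5 * (∫ z in Ω, F5 z) + c6 * ∫ z in Ω, F6 z := by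
  have a1 := h1.cmul c1
  have a2 := a1.add (h2.cmul c2)
  have a3 := a2.add (h3.cmul c3)
  have a4 := a3.add (h4.cmul c4)
  have a5 := a4.add (h5.cmul c5)
  rw [integral_add (a5.integrableOn hΩ) ((h6.cmul c6).integrableOn hΩ),
    integral_add (a4.integrableOn hΩ) ((h5.cmul c5).integrableOn hΩ),
    integral_add (a3.integrableOn hΩ) ((h4.cmul c4).integrableOn hΩ),
    integral_add (a2.integrableOn hΩ) ((h3.cmul c3).integrableOn hΩ),
    integral_add (a1.integrableOn hΩ) ((h2.cmul c2).integrableOn hΩ)]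
  simp only [integral_const_mul]

theorem FV_energy (hΩ : Dom Ω) {X Ψ : ℂ → ℂ} {K : NNReal} (hX : LipschitzWith K X) {ε : ℝ}
    (h0 : 0 ≤ ε) (hε : ε * K ≤ 1 / 4) (hΨ : LipschitzWith 2 Ψ) (h1 : ∀ z, Ψ (z + ε * X z) = z)
    (h2 : ∀ z, Ψ z + ε * X (Ψ z) = z) (hD : Dom (Ψ ⁻¹' Ω)) (hf : Lip0 Ω f) (hg : Lip0 Ω g)
    (a b : ℝ) :
    ∫ z, ‖(a : ℂ) * grad (fun x => f (Ψ x)) z + b * grad (fun x => g (Ψ x)) z‖ ^ 2 ≤
      (1 + 28 * (ε * K) ^ 2) * a ^ 2 * (∫ z in Ω, ‖grad f z‖ ^ 2) +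
      (1 + 28 * (ε * K) ^ 2) * (2 * a * b) * (∫ z in Ω, dot (grad f z) (grad g z)) +
      (1 + 28 * (ε * K) ^ 2) * b ^ 2 * (∫ z in Ω, ‖grad g z‖ ^ 2) +
      ε * a ^ 2 * (∫ z in Ω, FV_B X (grad f) (grad f) z) +
      ε * (2 * a * b) * (∫ z in Ω, FV_B X (grad f) (grad g) z) +
      ε * b ^ 2 * ∫ z in Ω, FV_B X (grad g) (grad g) z := by
  have hε' : |ε| * K ≤ 1 / 2 := by
    rw [abs_of_nonneg h0]
    linarith
  have bf := FV_grad_BV hf
  have bg := FV_grad_BV hg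
  rw [← FV_int6 hΩ bf.normsq (bf.dot bg) bg.normsq (FV_B_BM hX bf bf) (FV_B_BM hX bf bg)
    (FV_B_BM hX bg bg)]
  have z1 := ((FV_lip0 hΨ hf).h10 hD).ae_zero hD.isOpen.measurableSet
  have z2 := ((FV_lip0 hΨ hg).h10 hD).ae_zero hD.isOpen.measurableSet
  have e1 : ∫ z, ‖(a : ℂ) * grad (fun x => f (Ψ x)) z + b * grad (fun x => g (Ψ x)) z‖ ^ 2 =
      ∫ z in Ψ ⁻¹' Ω,
        ‖(a : ℂ) * grad (fun x => f (Ψ x)) z + b * grad (fun x => g (Ψ x)) z‖ ^ 2 := by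
    refine (setIntegral_eq_integral_of_ae_compl_eq_zero ?_).symm
    filter_upwards [z1, z2] with z y1 y2 hz
    rw [(y1 hz).2, (y2 hz).2]
    simp
  rw [e1, ← FV_image_eq h1 h2, integral_transport hX hε' hΩ.isOpen.measurableSet]
  refine integral_mono_of_nonneg (Eventually.of_forall fun z => ?_) ?_ ?_
  · exact mul_nonneg (le_trans (by norm_num) (FV_jac_ge hX h0 hε z)) (sq_nonneg _)
  · exact (((((((bf.normsq.cmul _).add ((bf.dot bg).cmul _)).add (bg.normsq.cmul _)).add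
      ((FV_B_BM hX bf bf).cmul _)).add ((FV_B_BM hX bf bg).cmul _)).add
      ((FV_B_BM hX bg bg).cmul _))).integrableOn hΩ
  · refine ae_restrict_of_ae ?_
    filter_upwards [FV_grad_rel hX hε' hΨ h1 hf, FV_grad_rel hX hε' hΨ h1 hg] with z y1 y2
    rw [← FV_expand, FV_jac_eq]
    refine FV_point K.coe_nonneg (FV_apply_le hX z) h0 (by linarith) (FV_dv_le hX z)
      (FV_det_le hX z) fun v => ?_
    rw [FV_dot_add_left, FV_dot_add_left, FV_dot_mul_left, FV_dot_mul_left, FV_dot_mul_left,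
      FV_dot_mul_left, y1 v, y2 v]

theorem FV_mass_ge (hΩ : Dom Ω) {X Ψ : ℂ → ℂ} {K : NNReal} (hX : LipschitzWith K X) {ε : ℝ}
    (h0 : 0 ≤ ε) (hε : ε * K ≤ 1 / 4) (h1 : ∀ z, Ψ (z + ε * X z) = z)
    (h2 : ∀ z, Ψ z + ε * X (Ψ z) = z) (hf : Lip0 Ω f) (hg : Lip0 Ω g) (a b : ℝ) :
    (1 - 2 * (ε * K) ^ 2) * a ^ 2 * (∫ z in Ω, f z ^ 2) +
      (1 - 2 * (ε * K) ^ 2) * (2 * a * b) * (∫ z in Ω, f z * g z) +
      (1 - 2 * (ε * K) ^ 2) * b ^ 2 * (∫ z in Ω, g z ^ 2) +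
      ε * a ^ 2 * (∫ z in Ω, f z ^ 2 * dv X z) +
      ε * (2 * a * b) * (∫ z in Ω, f z * g z * dv X z) +
      ε * b ^ 2 * (∫ z in Ω, g z ^ 2 * dv X z) ≤ ∫ z, (a * f (Ψ z) + b * g (Ψ z)) ^ 2 ∧
    3 / 8 * a ^ 2 * (∫ z in Ω, f z ^ 2) + 3 / 8 * (2 * a * b) * (∫ z in Ω, f z * g z) +
      3 / 8 * b ^ 2 * (∫ z in Ω, g z ^ 2) ≤ ∫ z, (a * f (Ψ z) + b * g (Ψ z)) ^ 2 := by
  have hε' : |ε| * K ≤ 1 / 2 := by
    rw [abs_of_nonneg h0]
    linarith
  have bf := FV_lip_BM hf hΩ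
  have bg := FV_lip_BM hg hΩ
  have bd := FV_dv_BM hX
  have e1 := FV_mass hΩ hX hε' h1 h2 (F := fun z => (a * f z + b * g z) ^ 2) fun z hz => by
    rw [hf.zero z hz, hg.zero z hz]
    simp
  have i1 : IntegrableOn (fun z => jac X ε z * (a * f z + b * g z) ^ 2) Ω :=
    ((FV_jac_BM hX ε).mul ((bf.cmul a).add (bg.cmul b)).sq).integrableOn hΩ
  rw [e1]
  constructor
  · rw [← FV_int6 hΩ bf.sq (bf.mul bg) bg.sq (bf.sq.mul bd) ((bf.mul bg).mul bd) (bg.sq.mul bd)]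
    refine integral_mono (((((((bf.sq.cmul _).add ((bf.mul bg).cmul _)).add (bg.sq.cmul _)).add
      ((bf.sq.mul bd).cmul _)).add (((bf.mul bg).mul bd).cmul _)).add
      ((bg.sq.mul bd).cmul _)).integrableOn hΩ) i1 fun z => ?_
    have y1 := mul_le_mul_of_nonneg_left (abs_le.1 (FV_det_le hX z)).1 (sq_nonneg ε)
    have y2 := mul_le_mul_of_nonneg_right y1 (sq_nonneg (a * f z + b * g z))
    simp only [FV_jac_eq]
    nlinarith
  · have y0 := FV_int6 hΩ bf.sq (bf.mul bg) bg.sq bf bf bf (3 / 8 * a ^ 2) (3 / 8 * (2 * a * b))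
      (3 / 8 * b ^ 2) 0 0 0
    simp only [zero_mul, add_zero] at y0
    rw [← y0]
    refine integral_mono ((((bf.sq.cmul _).add ((bf.mul bg).cmul _)).add
      (bg.sq.cmul _)).integrableOn hΩ) i1 fun z => ?_
    have y2 := mul_le_mul_of_nonneg_right (FV_jac_ge hX h0 hε z) (sq_nonneg (a * f z + b * g z))
    nlinarith

theorem FV_area (hΩ : Dom Ω) {X : ℂ → ℂ} {K : NNReal} (hX : LipschitzWith K X) {ε : ℝ}
    (hε : |ε| * K ≤ 1 / 2) : area ((fun z => z + ε * X z) '' Ω) ≤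
      area Ω + ε * (∫ z in Ω, dv X z) + 2 * (ε * K) ^ 2 * area Ω := by
  have h3 := integral_transport hX hε hΩ.isOpen.measurableSet fun _ => (1 : ℝ)
  have ar : ∀ S : Set ℂ, ∫ _ in S, (1 : ℝ) = area S := fun S => by
    simp [area, Measure.real]
  rw [ar] at h3
  have bd := FV_dv_BM hX
  have b1 := FV_BM.const 1
  have y0 := FV_int6 hΩ b1 bd b1 b1 b1 b1 1 ε (2 * (ε * K) ^ 2) 0 0 0
  simp only [zero_mul, add_zero, ar, one_mul] at y0
  rw [h3, ← y0]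
  refine integral_mono (((FV_jac_BM hX ε).mul b1).integrableOn hΩ)
    (((b1.add (bd.cmul ε)).add (b1.cmul _)).integrableOn hΩ) fun z => ?_
  have y1 := mul_le_mul_of_nonneg_left (abs_le.1 (FV_det_le hX z)).2 (sq_nonneg ε)
  simp only [FV_jac_eq]
  nlinarith

theorem FV_small (K : NNReal) : ∀ᶠ ε : ℝ in 𝓝[>] 0, 0 < ε ∧ ε * K ≤ 1 / 4 := by
  have hc : Continuous fun ε : ℝ => ε * K := by fun_prop
  have e1 : ∀ᶠ ε : ℝ in 𝓝 0, ε * K < 1 / 4 :=
    hc.continuousAt.eventually_lt continuousAt_const (by norm_num)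
  filter_upwards [mem_nhdsWithin_of_mem_nhds e1, self_mem_nhdsWithin] with ε a1 a2
  exact ⟨a2, le_of_lt a1⟩

theorem FV_set (hΩ : Dom Ω) (hf : Lip0 Ω f) {F : ℂ → ℝ} (hF : ∀ z, grad f z = 0 → F z = 0) :
    ∫ z in Ω, F z = ∫ z, F z := by
  refine setIntegral_eq_integral_of_ae_compl_eq_zero ?_
  filter_upwards [(hf.h10 hΩ).ae_zero hΩ.isOpen.measurableSet] with z y hz
  exact hF z (y hz).2

theorem FV_lam_le (h : Mn Ω lam u) {X : ℂ → ℂ} {K : NNReal} (hX : LipschitzWith K X) {s : ℝ}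
    (hs : (∫ z in Ω, FV_B X (grad u) (grad u) z) - lam * (∫ z in Ω, u z ^ 2 * dv X z) <
      s * ∫ z, u z ^ 2) :
    ∀ᶠ ε : ℝ in 𝓝[>] 0, Convex ℝ ((fun z => z + ε * X z) '' Ω) →
      lam2c ((fun z => z + ε * X z) '' Ω) ≤ lam + ε * s := by
  have hΩ : Dom Ω := h.toDom
  obtain ⟨lam1, u1, h1⟩ := exists_first hΩ
  have hlt : lam1 < lam := by
    rw [h.lam_eq]
    exact h1.lt
  have hl := h.lam_pos
  have m11 : ∫ z in Ω, u1 z ^ 2 = 1 := by
    rw [setIntegral_eq_integral_of_forall_compl_eq_zero fun z hz => by simp [h1.lip.zero z hz]]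
    exact h1.wf.one
  have m12 : ∫ z in Ω, u1 z * u z = 0 := by
    rw [setIntegral_eq_integral_of_forall_compl_eq_zero fun z hz => by simp [h1.lip.zero z hz]]
    simp only [mul_comm (u1 _)]
    exact (h1.orth h).1
  have m22 : ∫ z in Ω, u z ^ 2 = ∫ z, u z ^ 2 :=
    setIntegral_eq_integral_of_forall_compl_eq_zero fun z hz => by simp [h.lip.zero z hz]
  have e11 : ∫ z in Ω, ‖grad u1 z‖ ^ 2 = lam1 := by
    rw [FV_set hΩ h1.lip fun z hz => by simp [hz]]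
    have y := h1.wf.weak.h10 h1.wf.h10.memf h1.wf.h10.memG h1.wf.h10
    simp only [dot_self, ← sq] at y
    rw [y, h1.wf.one, mul_one]
  have e12 : ∫ z in Ω, dot (grad u1 z) (grad u z) = 0 := by
    rw [FV_set hΩ h1.lip fun z hz => by simp [hz, dot]]
    simp only [dot_comm (grad u1 _)]
    exact (h1.orth h).2
  have e22 : ∫ z in Ω, ‖grad u z‖ ^ 2 = lam * ∫ z, u z ^ 2 := by
    rw [FV_set hΩ h.lip fun z hz => by simp [hz], h.energy, h.nrm]
  have hm : 0 < ∫ z, u z ^ 2 := by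
    have y := hΩ.area_pos
    rw [← h.nrm] at y
    exact (mul_pos_iff_of_pos_left hl).1 y
  generalize hmm : ∫ z, u z ^ 2 = m at hs m22 e22 hm
  generalize hq11 : ∫ z in Ω, FV_B X (grad u1) (grad u1) z = q11
  generalize hq12 : ∫ z in Ω, FV_B X (grad u1) (grad u) z = q12
  generalize hq22 : ∫ z in Ω, FV_B X (grad u) (grad u) z = q22 at hs
  generalize hp11 : ∫ z in Ω, u1 z ^ 2 * dv X z = p11
  generalize hp12 : ∫ z in Ω, u1 z * u z * dv X z = p12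
  generalize hp22 : ∫ z in Ω, u z ^ 2 * dv X z = p22 at hs
  have hq := FV_quad
    (α := fun ε => (1 + 28 * (ε * K) ^ 2) * lam1 + ε * q11 -
      (lam + ε * s) * (1 - 2 * (ε * K) ^ 2 + ε * p11))
    (β := fun ε => 28 * ε * K ^ 2 * lam * m + q22 - s * m +
      (lam + ε * s) * (2 * ε * K ^ 2 * m - p22))
    (γ := fun ε => q12 - (lam + ε * s) * p12) (by fun_prop) (by fun_prop) (by fun_prop)
    (by simp only [zero_mul]; linarith) (by simp only [zero_mul, mul_zero]; linarith)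
  have hc : Continuous fun ε : ℝ => lam + ε * s := by fun_prop
  have hr : ∀ᶠ ε in 𝓝 (0 : ℝ), 0 < lam + ε * s :=
    continuousAt_const.eventually_lt hc.continuousAt (by simpa using hl)
  filter_upwards [hq, mem_nhdsWithin_of_mem_nhds hr, FV_small K] with ε y1 y2 y3 hcv
  have hε' : |ε| * K ≤ 1 / 2 := by
    rw [abs_of_pos y3.1]
    linarith [y3.2]
  have hD := FV_dom hΩ hX hε' hcv
  obtain ⟨Ψ, hΨ, i1, i2⟩ := exists_inverse hX hε'
  rw [FV_image_eq i1 i2] at hD ⊢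
  refine lam2c_le ((FV_lip0 hΨ h1.lip).h10 hD) ((FV_lip0 hΨ h.lip).h10 hD) (fun a b h0 => ?_)
    fun a b => ?_
  · have y4 := (FV_mass_ge hΩ hX y3.1.le y3.2 i1 i2 h1.lip h.lip a b).2
    rw [m11, m12, m22, h0] at y4
    have y5 : 0 ≤ b ^ 2 * m := by positivity
    have y6 := sq_nonneg a
    have y7 : a ^ 2 = 0 := by nlinarith
    have y8 : b ^ 2 * m = 0 := by nlinarith
    exact ⟨pow_eq_zero_iff two_ne_zero |>.1 y7,
      pow_eq_zero_iff two_ne_zero |>.1 ((mul_eq_zero.1 y8).resolve_right hm.ne')⟩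
  · have y4 := (FV_mass_ge hΩ hX y3.1.le y3.2 i1 i2 h1.lip h.lip a b).1
    have y5 := FV_energy hΩ hX y3.1.le y3.2 hΨ i1 i2 hD h1.lip h.lip a b
    rw [m11, m12, m22, hp11, hp12, hp22] at y4
    rw [e11, e12, e22, hq11, hq12, hq22] at y5
    have y6 := mul_le_mul_of_nonneg_left y4 (le_of_lt y2)
    have y7 := y1 a b
    refine y5.trans (le_trans ?_ y6)
    linarith

theorem FV_st_eq (lam : ℝ) (u : ℂ → ℝ) (X : ℂ → ℂ) (z : ℂ) :
    st lam u X z = -(1 / 2) * FV_B X (grad u) (grad u) z + lam / 2 * (u z ^ 2 * dv X z) +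
      -(1 / 2) * dv X z := by
  simp only [st, FV_B, dot_self]
  ring

theorem Mn.fv (h : Mn Ω lam u) {X : ℂ → ℂ} {K : NNReal} (hX : LipschitzWith K X)
    (hc : ∀ᶠ ε : ℝ in 𝓝[>] 0, Convex ℝ ((fun z => z + ε * X z) '' Ω)) : LL lam Ω u X ≤ 0 := by
  have hΩ : Dom Ω := h.toDom
  have bu := FV_lip_BM h.lip hΩ
  have bg := FV_grad_BV h.lip
  have bd := FV_dv_BM hX
  have y0 := FV_int6 hΩ (FV_B_BM hX bg bg) (bu.sq.mul bd) bd bd bd bd (-(1 / 2)) (lam / 2)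
    (-(1 / 2)) 0 0 0
  simp only [zero_mul, add_zero, ← FV_st_eq] at y0
  have hl := h.lam_pos
  have hA := hΩ.area_pos
  have hn := h.nrm
  have key : ∀ s : ℝ,
      (∫ z in Ω, FV_B X (grad u) (grad u) z) - lam * (∫ z in Ω, u z ^ 2 * dv X z) <
        s * ∫ z, u z ^ 2 → 0 ≤ s * area Ω + lam * ∫ z in Ω, dv X z := fun s hs => by
    have hcont : Continuous fun ε : ℝ => s * area Ω + lam * (∫ z in Ω, dv X z) +
        ε * (s * (∫ z in Ω, dv X z) + (lam + ε * s) * (2 * K ^ 2 * area Ω)) := by fun_prop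
    have ht := (hcont.tendsto 0).mono_left (nhdsWithin_le_nhds (s := Ioi (0 : ℝ)))
    simp only [zero_mul, add_zero] at ht
    refine ge_of_tendsto ht ?_
    filter_upwards [FV_lam_le h hX hs, hc, FV_small K] with ε y1 y2 y3
    have hε' : |ε| * K ≤ 1 / 2 := by
      rw [abs_of_pos y3.1]
      linarith [y3.2]
    have y4 := h.opt _ (FV_dom hΩ hX hε' y2)
    have y5 := FV_area hΩ hX hε'
    have y6 := y1 y2
    have y7 := mul_le_mul y6 y5 (FV_dom hΩ hX hε' y2).area_pos.le ((lam2c_nonneg _).trans y6)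
    rw [← h.lam_eq] at y4
    have y8 := y4.trans y7
    refine nonneg_of_mul_nonneg_right (a := ε) ?_ y3.1
    linarith
  unfold LL
  rw [y0]
  generalize ∫ z in Ω, FV_B X (grad u) (grad u) z = q at key
  generalize ∫ z in Ω, u z ^ 2 * dv X z = p at key
  generalize ∫ z in Ω, dv X z = T at key
  generalize ∫ z, u z ^ 2 = m at key hn
  have hm : 0 < m := by
    rw [← hn] at hA
    exact (mul_pos_iff_of_pos_left hl).1 hA
  by_contra hcon
  have hneg : q - lam * p + T < 0 := by linarith [lt_of_not_ge hcon]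
  have y1 := key ((q - lam * p - T) / 2 / m) (by
    rw [div_mul_cancel₀ _ hm.ne']
    linarith)
  rw [← hn, ← mul_assoc, mul_right_comm, div_mul_cancel₀ _ hm.ne'] at y1
  nlinarith
theorem LL_neg (lam : ℝ) (Ω : Set ℂ) (u : ℂ → ℝ) (X : ℂ → ℂ) :
    LL lam Ω u (fun z => -X z) = -LL lam Ω u X := by
  unfold LL
  rw [← integral_neg]
  refine integral_congr_ae (Eventually.of_forall fun z => ?_)
  simp only [st, dv, fderiv_fun_neg, _root_.neg_apply, dot, neg_re, neg_im]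
  ring
theorem Mn.integrableOn_st (h : Mn Ω lam u) {X : ℂ → ℂ} {K : NNReal} (hX : LipschitzWith K X) :
    IntegrableOn (st lam u X) Ω := by
  have hΩ : Dom Ω := h.toDom
  have bu := FV_lip_BM h.lip hΩ
  have bg := FV_grad_BV h.lip
  have bd := FV_dv_BM hX
  exact (((((FV_B_BM hX bg bg).cmul _).add ((bu.sq.mul bd).cmul _)).add (bd.cmul _)).of_eq
    (FV_st_eq lam u X)).integrableOn hΩ
theorem Mn.LL_add (h : Mn Ω lam u) {X Y : ℂ → ℂ} {K K' : NNReal} (hX : LipschitzWith K X)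
    (hY : LipschitzWith K' Y) : LL lam Ω u (fun z => X z + Y z) = LL lam Ω u X + LL lam Ω u Y := by
  unfold LL
  rw [← integral_add (h.integrableOn_st hX) (h.integrableOn_st hY)]
  refine integral_congr_ae (ae_restrict_of_ae ?_)
  filter_upwards [hX.ae_differentiableAt (μ := volume), hY.ae_differentiableAt (μ := volume)]
    with z y1 y2
  simp only [st, dv, fderiv_fun_add y1 y2, _root_.add_apply, dot, add_re, add_im]
  ring
theorem FV_le_zero (h : Mn Ω lam u) {X : ℂ → ℂ} {K : NNReal} (hX : LipschitzWith K X)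
    (h0 : ∀ z, z ∉ Ω → X z = 0) : LL lam Ω u X ≤ 0 := by
  refine h.fv hX ?_
  filter_upwards [FV_small K] with ε y3
  have hε' : |ε| * K ≤ 1 / 2 := by
    rw [abs_of_pos y3.1]
    linarith [y3.2]
  obtain ⟨Ψ, -, i1, i2⟩ := exists_inverse hX hε'
  have e : Ψ ⁻¹' Ω = Ω := by
    ext z
    constructor
    · intro hz
      by_contra hn
      have y := i1 z
      rw [h0 z hn, mul_zero, add_zero] at y
      rw [mem_preimage, y] at hz
      exact hn hz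
    · intro hz
      by_contra hn
      have y := i2 z
      rw [h0 _ hn, mul_zero, add_zero] at y
      rw [mem_preimage, y] at hn
      exact hn hz
  rw [FV_image_eq i1 i2, e]
  exact h.convex
theorem Mn.LL_zero (h : Mn Ω lam u) {X : ℂ → ℂ} {K : NNReal} (hX : LipschitzWith K X)
    (h0 : ∀ z, z ∉ Ω → X z = 0) : LL lam Ω u X = 0 := by
  have y1 := FV_le_zero h hX h0
  have y2 := FV_le_zero h (X := fun z => -X z) hX.neg fun z hz => by simp [h0 z hz]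
  rw [LL_neg] at y2
  linarith

end Pool.Agent.L2K
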