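import Pool.Agent.P.MP_2f6447_an.K.LR1

/-! The topological step. -/

open Set MeasureTheory Filter Topology Complex Metric
open scoped ContDiff ComplexConjugate

namespace Pool.Agent.L2K

variable {Ω U : Set ℂ} {lam : ℝ} {u w f g : ℂ → ℝ}
variable {l r : ℝ → ℝ} {nT nB n φ : ℝ}

/-- folding of the plane onto the upper right quadrant at `⟨n, π / 2⟩` -/
noncomputable def LR3_fold (n : ℝ) (z : ℂ) : ℂ :=
  ⟨n + |z.re - n|, Real.pi / 2 + |z.im - Real.pi / 2|⟩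

theorem LR3_cont (n : ℝ) : Continuous (LR3_fold n) := by
  have e : LR3_fold n = fun z : ℂ => ((n + |z.re - n| : ℝ) : ℂ) +
      ((Real.pi / 2 + |z.im - Real.pi / 2| : ℝ) : ℂ) * I := by
    funext z
    apply Complex.ext
    · simp only [LR3_fold, add_re, ofReal_re, mul_re, I_re, ofReal_im, I_im, mul_zero, mul_one,
        sub_zero, add_zero]
    · simp only [LR3_fold, add_im, ofReal_re, mul_im, I_re, ofReal_im, I_im, mul_zero, mul_one,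
        zero_add, add_zero]
  rw [e]
  fun_prop

theorem LR3_right {z : ℂ} (hz : n ≤ z.re) : LR3_fold n z = z ∨ LR3_fold n z = fy z := by
  have e : n + |z.re - n| = z.re := by rw [abs_of_nonneg (sub_nonneg.2 hz)]; ring
  rcases le_total (Real.pi / 2) z.im with h | h
  · refine Or.inl (Complex.ext e ?_)
    show Real.pi / 2 + |z.im - Real.pi / 2| = z.im
    rw [abs_of_nonneg (sub_nonneg.2 h)]; ring
  · refine Or.inr (Complex.ext e ?_)
    show Real.pi / 2 + |z.im - Real.pi / 2| = Real.pi - z.im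
    rw [abs_of_nonpos (sub_nonpos.2 h)]; ring

theorem LR3_fx (n : ℝ) (z : ℂ) : LR3_fold n (fx n z) = LR3_fold n z := by
  refine Complex.ext ?_ rfl
  show n + |2 * n - z.re - n| = n + |z.re - n|
  rw [abs_sub_comm z.re n, show 2 * n - z.re - n = n - z.re by ring]

theorem LR3_ev (h : Sy Ω lam u l r n) (z : ℂ) : ev u n (LR3_fold n z) = ev u n z := by
  have key : ∀ z : ℂ, n ≤ z.re → ev u n (LR3_fold n z) = ev u n z := fun z hz => by
    rcases LR3_right hz with e | e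
    · rw [e]
    · rw [e, h.ev_fy]
  rcases le_total n z.re with hz | hz
  · exact key z hz
  · rw [← LR3_fx, key (fx n z) (by show n ≤ 2 * n - z.re; linarith), Sy.ev_fx]

theorem LR3_top {x : ℝ} (hx : n ≤ x) : LR3_fold n ⟨x, Real.pi⟩ = ⟨x, Real.pi⟩ := by
  have := Real.pi_pos
  refine Complex.ext ?_ ?_
  · show n + |x - n| = x
    rw [abs_of_nonneg (sub_nonneg.2 hx)]; ring
  · show Real.pi / 2 + |Real.pi - Real.pi / 2| = Real.pi
    rw [abs_of_nonneg (by linarith)]; ring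

theorem LR3_mem (h : Sy Ω lam u l r n) {z : ℂ} (hz : ev u n z ≠ 0) : z ∈ Ω ∨ fx n z ∈ Ω := by
  by_contra hc
  rw [not_or] at hc
  refine hz ?_
  unfold ev
  rw [h.lip.zero _ hc.1, h.lip.zero _ hc.2, add_zero]

theorem LR3_im (h : Sy Ω lam u l r n) {z : ℂ} (hz : ev u n z ≠ 0) : 0 < z.im ∧ z.im < Real.pi := by
  rcases LR3_mem h hz with k | k
  · exact ((h.mem _).1 k).1
  · exact ((h.mem _).1 k).1

theorem LR3_ev_top (h : Sy Ω lam u l r n) (x : ℝ) : ev u n ⟨x, Real.pi⟩ = 0 := by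
  by_contra hc
  exact (LR3_im h hc).2.false

theorem LR3_bound (h : Sy Ω lam u l r n) : ∃ M : ℝ, ∀ z, ev u n z ≠ 0 → |z.re - n| ≤ M := by
  obtain ⟨C, hC⟩ := h.toGeo.dom.bdd.exists_norm_le
  refine ⟨C + |n|, fun z hz => ?_⟩
  have k : ∀ z ∈ Ω, |z.re - n| ≤ C + |n| := fun z hz =>
    (abs_sub _ _).trans (add_le_add ((abs_re_le_norm z).trans (hC z hz)) le_rfl)
  rcases LR3_mem h hz with k1 | k1
  · exact k z k1
  · have : |2 * n - z.re - n| ≤ C + |n| := k _ k1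
    rwa [show 2 * n - z.re - n = n - z.re by ring, abs_sub_comm] at this

theorem LR3_box (n : ℝ) {z : ℂ} (h0 : 0 ≤ z.im) (h1 : z.im ≤ Real.pi) :
    Real.pi / 2 ≤ (LR3_fold n z).im ∧ (LR3_fold n z).im ≤ Real.pi ∧ n ≤ (LR3_fold n z).re := by
  have k : |z.im - Real.pi / 2| ≤ Real.pi / 2 := abs_le.2 ⟨by linarith, by linarith⟩
  refine ⟨le_add_of_nonneg_right (abs_nonneg _), ?_, le_add_of_nonneg_right (abs_nonneg _)⟩
  show Real.pi / 2 + |z.im - Real.pi / 2| ≤ Real.pi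
  linarith

theorem LR3_attach {O : Set ℂ} (hO : IsOpen O) {p e : ℂ} {δ : ℝ} (hδ : 0 < δ)
    (hp : ∀ t ∈ Ioo 0 δ, p + (t : ℝ) * e ∈ O) :
    IsPathConnected (insert p (connectedComponentIn O (p + (δ / 2 : ℝ) * e))) := by
  have hc : Continuous fun t : ℝ => p + (t : ℂ) * e := by fun_prop
  have hm : δ / 2 ∈ Ioo 0 δ := ⟨half_pos hδ, half_lt_self hδ⟩
  have hA : (fun t : ℝ => p + (t : ℂ) * e) '' Ioo 0 δ ⊆
      connectedComponentIn O (p + (δ / 2 : ℝ) * e) :=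
    (isPreconnected_Ioo.image _ hc.continuousOn).subset_connectedComponentIn ⟨_, hm, rfl⟩
      (by rintro _ ⟨t, ht, rfl⟩; exact hp t ht)
  have hB : IsPathConnected ((fun t : ℝ => p + (t : ℂ) * e) '' Icc 0 (δ / 2)) :=
    ((convex_Icc 0 (δ / 2)).isPathConnected ⟨0, le_rfl, hm.1.le⟩).image hc
  have e1 : insert p (connectedComponentIn O (p + (δ / 2 : ℝ) * e)) =
      connectedComponentIn O (p + (δ / 2 : ℝ) * e) ∪
        (fun t : ℝ => p + (t : ℂ) * e) '' Icc 0 (δ / 2) := by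
    apply Subset.antisymm
    · rintro z (rfl | hz)
      · exact Or.inr ⟨0, ⟨le_rfl, hm.1.le⟩, by simp⟩
      · exact Or.inl hz
    · rintro z (hz | ⟨t, ht, rfl⟩)
      · exact Or.inr hz
      · rcases ht.1.eq_or_lt with e0 | e0
        · left
          rw [← e0]
          simp
        · exact Or.inr (hA ⟨t, ⟨e0, ht.2.trans_lt hm.2⟩, rfl⟩)
  rw [e1]
  exact (cmp_path hO (hp _ hm)).2.union hB
    ⟨_, mem_connectedComponentIn (hp _ hm), δ / 2, ⟨hm.1.le, le_rfl⟩, rfl⟩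

theorem LR3_down (x t : ℝ) : (⟨x, Real.pi⟩ : ℂ) + t * (-I) = ⟨x, Real.pi - t⟩ := by
  apply Complex.ext
  · simp
  · simp [sub_eq_add_neg]

theorem LR3_ball (x : ℝ) {t ρ : ℝ} (ht : t ∈ Ioo 0 ρ) :
    (⟨x, Real.pi - t⟩ : ℂ) ∈ ball (⟨x, Real.pi⟩ : ℂ) ρ := by
  rw [mem_ball, Complex.dist_of_re_eq (by rfl), Real.dist_eq]
  show |Real.pi - t - Real.pi| < ρ
  rw [show Real.pi - t - Real.pi = -t by ring, abs_neg, abs_of_pos ht.1]
  exact ht.2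

theorem Sy.path_mid (h : Sy Ω lam u l r n) {x δ : ℝ} {e : ℂ} (hx : n ≤ x) (hδ : 0 < δ)
    (hp : ∀ t ∈ Ioo 0 δ, 0 < ev u n (⟨x, Real.pi⟩ + t * e)) : ∃ (S : Set ℂ) (R : ℝ),
      IsPathConnected S ∧ (⟨x, Real.pi⟩ : ℂ) ∈ S ∧ (∃ z ∈ S, z.im = Real.pi / 2) ∧
      (∀ z ∈ S, z = ⟨x, Real.pi⟩ ∨ 0 < ev u n z) ∧
      ∀ z ∈ S, Real.pi / 2 ≤ z.im ∧ z.im ≤ Real.pi ∧ n ≤ z.re ∧ z.re ≤ R := by
  have hO : IsOpen {z | 0 < ev u n z} := isOpen_lt continuous_const h.continuous_ev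
  have hP := LR3_attach hO hδ hp
  obtain ⟨m, hm, hm'⟩ := h.meets_mid (hp (δ / 2) ⟨half_pos hδ, half_lt_self hδ⟩)
  have hsub := connectedComponentIn_subset {z | 0 < ev u n z}
    ((⟨x, Real.pi⟩ : ℂ) + (δ / 2 : ℝ) * e)
  generalize connectedComponentIn {z | 0 < ev u n z}
    ((⟨x, Real.pi⟩ : ℂ) + (δ / 2 : ℝ) * e) = C at hP hm hsub
  obtain ⟨M, hM⟩ := LR3_bound h
  refine ⟨LR3_fold n '' insert ⟨x, Real.pi⟩ C, max x (n + M), hP.image (LR3_cont n),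
    ⟨_, Or.inl rfl, LR3_top hx⟩, ⟨_, ⟨m, Or.inr hm, rfl⟩, ?_⟩, ?_, ?_⟩
  · show Real.pi / 2 + |m.im - Real.pi / 2| = Real.pi / 2
    rw [hm', sub_self, abs_zero, add_zero]
  · rintro _ ⟨z, rfl | hz, rfl⟩
    · exact Or.inl (LR3_top hx)
    · right
      rw [LR3_ev h]
      exact hsub hz
  · rintro _ ⟨z, rfl | hz, rfl⟩
    · rw [LR3_top hx]
      exact ⟨(half_lt_self Real.pi_pos).le, le_rfl, hx, le_max_left _ _⟩
    · have k : ev u n z ≠ 0 := ne_of_gt (hsub hz)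
      obtain ⟨k1, k2, k3⟩ := LR3_box n (LR3_im h k).1.le (LR3_im h k).2.le
      refine ⟨k1, k2, k3, le_trans ?_ (le_max_right _ _)⟩
      show n + |z.re - n| ≤ n + M
      linarith [hM z k]

theorem LR3_start (h : Sy Ω lam u l r n) {δ x₂ : ℝ} (hδ : 0 < δ)
    (hG : ∀ x ∈ Ioo n (n + δ), gT Ω u x + gT Ω u (2 * n - x) < 0) (hx : n < x₂) :
    ∃ x₁ ρ : ℝ, n < x₁ ∧ x₁ < x₂ ∧ 0 < ρ ∧
      ∀ t ∈ Ioo 0 ρ, ev u n (⟨x₁, Real.pi⟩ + (t : ℝ) * (-I)) < 0 := by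
  obtain ⟨n1, n2⟩ := h.memT
  obtain ⟨x₁, a0, a1⟩ := exists_between (lt_min (lt_min (lt_add_of_pos_right n hδ) hx)
    (lt_min n2 (show n < 2 * n - l Real.pi by linarith)))
  simp only [lt_min_iff] at a1
  obtain ⟨⟨a1, a2⟩, a3, a4⟩ := a1
  have hg := hG x₁ ⟨a0, a1⟩
  obtain ⟨ρ₁, r1, b1⟩ := h.toStr.slope_upper (x := x₁)
    (γ := (gT Ω u x₁ - gT Ω u (2 * n - x₁)) / 2) ⟨by linarith, a3⟩ (by linarith)
  obtain ⟨ρ₂, r2, b2⟩ := h.toStr.slope_upper (x := 2 * n - x₁)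
    (γ := (gT Ω u (2 * n - x₁) - gT Ω u x₁) / 2) ⟨by linarith, by linarith⟩ (by linarith)
  refine ⟨x₁, min ρ₁ ρ₂, a0, a2, lt_min r1 r2, fun t ht => ?_⟩
  rw [LR3_down]
  have c1 := (b1 _ (LR3_ball x₁ ⟨ht.1, ht.2.trans_le (min_le_left _ _)⟩)
    (sub_lt_self _ ht.1)).2
  have c2 := (b2 _ (LR3_ball (2 * n - x₁) ⟨ht.1, ht.2.trans_le (min_le_right _ _)⟩)
    (sub_lt_self _ ht.1)).2
  show u ⟨x₁, Real.pi - t⟩ + u ⟨2 * n - x₁, Real.pi - t⟩ < 0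
  dsimp only at c1 c2
  linarith

theorem LR3_ray (h : Sy Ω lam u l r n) {q z : ℂ} (hq : q ∉ Ω) (h0 : 0 < q.im) (h1 : q.im < Real.pi)
    (h2 : n ≤ q.re) (e : z.im = q.im) (h3 : q.re ≤ z.re) : ev u n z ≤ 0 := by
  obtain ⟨ξ₀, ξ₁, x0, x1, -, w2, w3⟩ := h.toPat.win h.loc
  obtain ⟨w4, w5⟩ := w3 q.im ⟨h0, h1⟩
  have k : r q.im ≤ q.re := not_lt.1 fun k => hq ((h.mem q).2 ⟨⟨h0, h1⟩, by linarith, k⟩)
  have k1 : z ∉ Ω := fun hz => by
    have := ((h.mem z).1 hz).2.2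
    rw [e] at this
    linarith
  unfold ev
  rw [h.lip.zero _ k1, zero_add]
  by_cases k2 : fx n z ∈ Ω
  · refine (w2 _ k2 ?_).le
    show 2 * n - z.re < (n + n) / 2 - ξ₀
    linarith
  · exact (h.lip.zero _ k2).le

theorem LR3_two (h : Sy Ω lam u l r n) {E : Set ℂ} (hE : IsOpen E) (hne : E.Nonempty)
    (neg : ∀ z ∈ E, ev u n z < 0) (fr : ∀ z ∈ frontier E, ev u n z = 0) (hr : ∀ z ∈ E, n < z.re)
    (hs : E ⊆ Ω ∩ fx n ⁻¹' Ω) {p : ℂ} (hp : p ∈ Ω ∩ fx n ⁻¹' Ω) (pos : 0 < ev u n p) : False := by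
  have hV : IsPreconnected (Ω ∩ fx n ⁻¹' Ω) :=
    (h.toGeo.dom.convex.inter (h.toGeo.flipX n).dom.convex).isPreconnected
  have hH := h.helm_ev
  rw [h.lam_eq] at hH
  have ten : ∀ (A : Set ℂ) (p : ℂ), ev u n p = 0 → Tendsto (ev u n) (𝓝[A] p) (𝓝 0) :=
    fun A p hp => hp ▸ (h.continuous_ev.tendsto p).mono_left nhdsWithin_le_nhds
  obtain ⟨F, c, hc, -, -, k1, k2⟩ := two_domains (E₁ := E) (E₂ := fx n ⁻¹' E) h.toGeo.dom hV
    inter_subset_left hH hE (hE.preimage (continuous_fx n)) hne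
    (by obtain ⟨q, hq⟩ := hne; exact ⟨fx n q, by rw [mem_preimage, fx_fx]; exact hq⟩) hs
    (fun z hz => ⟨by have := (hs hz).2; rwa [mem_preimage, fx_fx] at this, (hs hz).1⟩)
    (disjoint_left.2 fun z h1 h2 => by
      have a1 := hr z h1
      have a2 : n < 2 * n - z.re := hr _ h2
      linarith)
    (fun z hz => (neg z hz).ne)
    (fun z hz => by rw [← Sy.ev_fx n z]; exact (neg _ hz).ne)
    (fun z hz => ten _ z (fr z hz))
    (fun z hz => ten _ z (by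
      rw [← Sy.ev_fx n z]
      exact fr _ ((continuous_fx n).frontier_preimage_subset E hz)))
  have e1 := k1 p hp
  rw [k2 p (fun k => (neg p k).not_gt pos) fun k => (neg _ k).not_gt (by rwa [Sy.ev_fx])] at e1
  exact mul_ne_zero hc pos.ne' e1.symm

theorem LR3_pt (h : Sy Ω lam u l r n) {δ : ℝ} {e : ℂ} (hδ : 0 < δ) (he : e.im < 0) :
    ∃ t ∈ Ioo 0 δ, (⟨n, Real.pi⟩ : ℂ) + (t : ℝ) * e ∈ Ω ∩ fx n ⁻¹' Ω := by
  obtain ⟨ρ, hρ, -, hb, -⟩ := h.toGeo.ball_top h.memT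
  have hc : Continuous fun t : ℝ => (⟨n, Real.pi⟩ : ℂ) + (t : ℂ) * e := by fun_prop
  have t1 := hc.tendsto' 0 ⟨n, Real.pi⟩ (by simp)
  have t2 := ((continuous_fx n).comp hc).tendsto' 0 ⟨n, Real.pi⟩ (by
    apply Complex.ext
    · simp [fx]
      ring
    · simp [fx])
  have e1 := (t1.eventually (ball_mem_nhds _ hρ)).filter_mono (nhdsWithin_le_nhds (s := Ioi 0))
  have e2 := (t2.eventually (ball_mem_nhds _ hρ)).filter_mono (nhdsWithin_le_nhds (s := Ioi 0))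
  have e3 : ∀ᶠ t in 𝓝[>] (0 : ℝ), t ∈ Ioo 0 δ := Ioo_mem_nhdsGT hδ
  obtain ⟨t, k1, k2, k3⟩ := (e1.and (e2.and e3)).exists
  have k4 : ((⟨n, Real.pi⟩ : ℂ) + (t : ℂ) * e).im < Real.pi := by
    have := mul_neg_of_pos_of_neg k3.1 he
    simp only [add_im, mul_im, ofReal_re, ofReal_im, zero_mul, add_zero]
    linarith
  exact ⟨t, k3, hb _ k1 k4, hb _ k2 k4⟩

theorem Sy.no_x2 (h : Sy Ω lam u l r n) {δ δ' x₂ : ℝ} {e : ℂ} (hδ : 0 < δ) (he : e.im < 0)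
    (hG : ∀ x ∈ Ioo n (n + δ), gT Ω u x + gT Ω u (2 * n - x) < 0)
    (hr : ∀ t ∈ Ioo 0 δ, 0 < ev u n (⟨n, Real.pi⟩ + t * e)) (hx : n < x₂) (hδ' : 0 < δ')
    (h2 : ∀ t ∈ Ioo 0 δ', 0 < ev u n ⟨x₂, Real.pi - t⟩) : False := by
  obtain ⟨x₁, ρ, a0, a1, hρ, hn⟩ := LR3_start h hδ hG hx
  have hO : IsOpen {z | ev u n z < 0} := isOpen_lt h.continuous_ev continuous_const
  have hP := (LR3_attach hO hρ hn).image (LR3_cont n)
  have hq := hn (ρ / 2) ⟨half_pos hρ, half_lt_self hρ⟩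
  obtain ⟨oE, pE⟩ := cmp_path hO hq
  have hqE := mem_connectedComponentIn (F := {z | ev u n z < 0}) hq
  have neg := connectedComponentIn_subset {z | ev u n z < 0}
    ((⟨x₁, Real.pi⟩ : ℂ) + (ρ / 2 : ℝ) * (-I))
  have fr : ∀ z ∈ frontier (connectedComponentIn {z | ev u n z < 0}
      ((⟨x₁, Real.pi⟩ : ℂ) + (ρ / 2 : ℝ) * (-I))), ev u n z = 0 := fun z hz => by
    obtain ⟨k1, k2⟩ := cmp_frontier hO hz
    exact le_antisymm (closure_minimal (fun _ hy => le_of_lt hy)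
      (isClosed_le h.continuous_ev continuous_const) k2) (not_lt.1 k1)
  generalize connectedComponentIn {z | ev u n z < 0}
    ((⟨x₁, Real.pi⟩ : ℂ) + (ρ / 2 : ℝ) * (-I)) = E at hP oE pE hqE neg fr
  rw [LR3_down] at hqE
  have mT : (⟨x₁, Real.pi⟩ : ℂ) ∈ LR3_fold n '' insert ⟨x₁, Real.pi⟩ E :=
    ⟨_, Or.inl rfl, LR3_top a0.le⟩
  have sT : ∀ z ∈ LR3_fold n '' insert ⟨x₁, Real.pi⟩ E, z = ⟨x₁, Real.pi⟩ ∨ ev u n z < 0 := by
    rintro _ ⟨z, rfl | hz, rfl⟩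
    · exact Or.inl (LR3_top a0.le)
    · right
      rw [LR3_ev h]
      exact neg hz
  have bT : ∀ z ∈ LR3_fold n '' insert ⟨x₁, Real.pi⟩ E, Real.pi / 2 ≤ z.im ∧ z.im ≤ Real.pi := by
    rintro _ ⟨z, rfl | hz, rfl⟩
    · rw [LR3_top a0.le]
      exact ⟨(half_lt_self Real.pi_pos).le, le_rfl⟩
    · have k : ev u n z ≠ 0 := ne_of_lt (neg hz)
      obtain ⟨k1, k2, -⟩ := LR3_box n (LR3_im h k).1.le (LR3_im h k).2.le
      exact ⟨k1, k2⟩
  have clash : ∀ (x : ℝ) (z : ℂ), x ≠ x₁ → z ∈ LR3_fold n '' insert ⟨x₁, Real.pi⟩ E →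
      (z = ⟨x, Real.pi⟩ ∨ 0 < ev u n z) → False := by
    intro x z hxx k1 k2
    rcases sT z k1 with e1 | e1 <;> rcases k2 with e2 | e2
    · exact hxx (congrArg Complex.re (e2.symm.trans e1))
    · rw [e1, LR3_ev_top h] at e2
      exact e2.false
    · rw [e2, LR3_ev_top h] at e1
      exact e1.false
    · exact e1.not_gt e2
  have right : ∀ z ∈ E, n < z.re := by
    intro z hz
    by_contra hc
    obtain ⟨m, hm, hm'⟩ := pE.isConnected.isPreconnected.intermediate_value hz hqE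
      continuous_re.continuousOn (show n ∈ Icc z.re x₁ from ⟨not_lt.1 hc, a0.le⟩)
    obtain ⟨S, R, s1, s2, ⟨y, s3, s3'⟩, s4, s5⟩ := h.path_mid le_rfl hδ hr
    obtain ⟨p, p1, p2⟩ := cross_BL (L := n) (R := R) (c := Real.pi / 2) s1 hP
      (fun z hz => (s5 z hz).2) bT a0 s2 mT ⟨y, s3, s3'.le⟩
      ⟨_, ⟨m, Or.inr hm, rfl⟩, by
        show n + |m.re - n| ≤ n
        rw [hm', sub_self, abs_zero, add_zero]⟩
    exact clash n p a0.ne p2 (s4 p p1)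
  have inside : E ⊆ Ω ∩ fx n ⁻¹' Ω := by
    intro q hq
    have k : ev u n q < 0 := neg hq
    have k0 := right q hq
    have hqΩ : q ∈ Ω := by
      by_contra hc
      have c1 : LR3_fold n q ∉ Ω := by
        rcases LR3_right k0.le with e1 | e1 <;> rw [e1]
        · exact hc
        · exact fun k => hc (fy_fy q ▸ h.symΩ _ k)
      have c2 : LR3_fold n q ∈ LR3_fold n '' insert ⟨x₁, Real.pi⟩ E := ⟨q, Or.inr hq, rfl⟩
      have c3 := LR3_im h (z := LR3_fold n q) (by rw [LR3_ev h]; exact k.ne)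
      have c4 := (LR3_box n (LR3_im h k.ne).1.le (LR3_im h k.ne).2.le).2.2
      generalize LR3_fold n q = q' at c1 c2 c3 c4
      obtain ⟨S, R, s1, s2, ⟨y, s3, s3'⟩, s4, s5⟩ := h.path_mid (e := -I) hx.le hδ'
        fun t ht => by rw [LR3_down]; exact h2 t ht
      have hP' := CL_add hP (convex_Ici q'.re) (convex_Icc q'.im q'.im) c2 (mem_Ici.2 le_rfl)
        ⟨le_rfl, le_rfl⟩
      obtain ⟨p, p1, p2⟩ := cross_RB (L := n) (R := R) (c := Real.pi / 2) hP' s1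
        (by
          rintro z (hz | ⟨-, hz⟩)
          · exact bT z hz
          · exact ⟨(bT _ c2).1.trans hz.1, hz.2.trans c3.2.le⟩)
        (fun z hz => (s5 z hz).2) a1 (Or.inl mT) s2
        ⟨⟨max R q'.re, q'.im⟩, Or.inr ⟨mem_Ici.2 (le_max_right _ _), le_rfl, le_rfl⟩,
          le_max_left _ _⟩ ⟨y, s3, s3'.le⟩
      rcases p1 with p1 | ⟨p1, p3⟩
      · exact clash x₂ p a1.ne' p1 (s4 p p2)
      · have e1 : p.im = q'.im := le_antisymm p3.2 p3.1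
        rcases s4 p p2 with e2 | e2
        · rw [e2] at e1
          exact c3.2.ne' e1
        · exact (LR3_ray h c1 c3.1 c3.2 c4 e1 p1).not_gt e2
    refine ⟨hqΩ, ?_⟩
    by_contra hc
    have c1 : u q < 0 := by
      unfold ev at k
      rwa [h.lip.zero _ hc, add_zero] at k
    have c2 := h.lens_left hqΩ hc c1
    obtain ⟨ξ₀, ξ₁, x0, x1, -, -, w3⟩ := h.toPat.win h.loc
    have := (w3 q.im ((h.mem q).1 hqΩ).1).2
    linarith
  obtain ⟨t, t1, t2⟩ := LR3_pt h hδ he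
  exact LR3_two h oE ⟨_, hqE⟩ (fun z hz => neg hz) fr right inside t2 (hr t t1)

theorem Sy.order (h : Sy Ω lam u l r n) {δ : ℝ} {e : ℂ} (hδ : 0 < δ) (he : e.im < 0)
    (hG : ∀ x ∈ Ioo n (n + δ), gT Ω u x + gT Ω u (2 * n - x) < 0)
    (hr : ∀ t ∈ Ioo 0 δ, 0 < ev u n (⟨n, Real.pi⟩ + t * e)) :
    r Real.pi ≤ 2 * n - l Real.pi ∧
      ∀ x ∈ Ioo n (r Real.pi), gT Ω u x + gT Ω u (2 * n - x) ≤ 0 := by
  obtain ⟨n1, n2⟩ := h.memT
  have first : r Real.pi ≤ 2 * n - l Real.pi := by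
    by_contra hc
    obtain ⟨x₂, a1, a2⟩ := exists_between (not_le.1 hc)
    obtain ⟨ρ, hρ, -, hb, -⟩ := h.toGeo.ball_top (x := x₂) ⟨by linarith, a2⟩
    have t1 : Tendsto (fun t : ℝ => Real.pi - t) (𝓝[>] 0) (𝓝[Icc 0 Real.pi] Real.pi) := by
      refine tendsto_nhdsWithin_of_tendsto_nhds_of_eventually_within _ ?_ ?_
      · have hc : Continuous fun t : ℝ => Real.pi - t := by fun_prop
        exact (hc.tendsto' 0 _ (sub_zero _)).mono_left nhdsWithin_le_nhds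
      · filter_upwards [Ioo_mem_nhdsGT Real.pi_pos] with t ht
        exact ⟨by linarith [ht.2], by linarith [ht.1]⟩
    have t2 := ((h.contl _ ⟨Real.pi_pos.le, le_rfl⟩).tendsto.comp t1).eventually
      (lt_mem_nhds (show 2 * n - x₂ < l Real.pi by linarith))
    obtain ⟨δ', d1, d2⟩ := (mem_nhdsGT_iff_exists_Ioo_subset).1 (t2.and (Ioo_mem_nhdsGT hρ))
    refine h.no_x2 (x₂ := x₂) hδ he hG hr (by linarith) d1 fun t ht => ?_
    obtain ⟨k1, k2⟩ := d2 ht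
    have k3 : 2 * n - x₂ < l (Real.pi - t) := k1
    obtain ⟨-, k4, k5⟩ := h.lens_pos (hb _ (LR3_ball x₂ k2) (sub_lt_self _ ht.1))
      (by show 2 * n - l (Real.pi - t) ≤ x₂; linarith)
    rwa [k5]
  refine ⟨first, fun x hx => ?_⟩
  by_contra hc
  have hg := not_le.1 hc
  obtain ⟨ρ₁, r1, b1⟩ := h.toStr.slope_lower (x := x)
    (γ := (gT Ω u x - gT Ω u (2 * n - x)) / 2) ⟨by linarith [hx.1], hx.2⟩ (by linarith)
  obtain ⟨ρ₂, r2, b2⟩ := h.toStr.slope_lower (x := 2 * n - x)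
    (γ := (gT Ω u (2 * n - x) - gT Ω u x) / 2) ⟨by linarith [hx.2], by linarith [hx.1]⟩
    (by linarith)
  refine h.no_x2 hδ he hG hr hx.1 (lt_min r1 r2) fun t ht => ?_
  have c1 := (b1 _ (LR3_ball x ⟨ht.1, ht.2.trans_le (min_le_left _ _)⟩)
    (sub_lt_self _ ht.1)).2
  have c2 := (b2 _ (LR3_ball (2 * n - x) ⟨ht.1, ht.2.trans_le (min_le_right _ _)⟩)
    (sub_lt_self _ ht.1)).2
  show 0 < u ⟨x, Real.pi - t⟩ + u ⟨2 * n - x, Real.pi - t⟩
  dsimp only at c1 c2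
  linarith

end Pool.Agent.L2K
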