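import Pool.Agent.P.MP_2f6447_an.K.LR2
import Pool.Agent.P.MP_2f6447_an.K.LR3

/-! Left-right symmetry. -/

open Set MeasureTheory Filter Topology Complex Metric
open scoped ContDiff ComplexConjugate

namespace Pool.Agent.L2K

variable {Ω U : Set ℂ} {lam : ℝ} {u w f g : ℂ → ℝ}
variable {l r : ℝ → ℝ} {nT nB n φ : ℝ}

theorem LR4_real {g : ℝ → ℝ} {L R n δ : ℝ} (hL : L < n) (hR : n < R) (hδ : 0 < δ)
    (hc : ContinuousOn g (Icc L R)) (hpos : ∀ x ∈ Ioc n R, 0 < g x)
    (hmom : ∫ x in L..R, (g x ^ 2 - 1) * (-n + 1 * x) = 0)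
    (htail : 0 ≤ ∫ x in R..2 * n - L, (g (2 * n - x) ^ 2 - 1) * (x - n))
    (hG : ∀ x ∈ Ioo n (n + δ), g x + g (2 * n - x) < 0) (h1 : R ≤ 2 * n - L)
    (h2 : ∀ x ∈ Ioo n R, g x + g (2 * n - x) ≤ 0) : False := by
  set F : ℝ → ℝ := fun x => (g x ^ 2 - 1) * (x - n) with hF
  set F' : ℝ → ℝ := fun x => (g (2 * n - x) ^ 2 - 1) * (x - n) with hF'
  have cF : ContinuousOn F (Icc L R) :=
    ((hc.pow 2).sub continuousOn_const).mul (continuousOn_id.sub continuousOn_const)
  have cg' : ContinuousOn (fun x => g (2 * n - x)) (Icc n (2 * n - L)) :=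
    hc.comp (continuousOn_const.sub continuousOn_id) fun x hx =>
      ⟨by linarith [hx.2], by linarith [hx.1]⟩
  have cF' : ContinuousOn F' (Icc n (2 * n - L)) :=
    ((cg'.pow 2).sub continuousOn_const).mul (continuousOn_id.sub continuousOn_const)
  have iF : ∀ a b, L ≤ a → a ≤ b → b ≤ R → IntervalIntegrable F volume a b := fun a b ha hab hb =>
    (cF.mono (Icc_subset_Icc ha hb)).intervalIntegrable_of_Icc hab
  have iF' : ∀ a b, n ≤ a → a ≤ b → b ≤ 2 * n - L → IntervalIntegrable F' volume a b :=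
    fun a b ha hab hb => (cF'.mono (Icc_subset_Icc ha hb)).intervalIntegrable_of_Icc hab
  have e0 : ∫ x in L..R, F x = 0 := by
    rw [← hmom]
    refine intervalIntegral.integral_congr fun x _ => ?_
    simp only [hF]
    ring
  have e1 : (∫ x in L..n, F x) + ∫ x in n..R, F x = 0 := by
    rw [intervalIntegral.integral_add_adjacent_intervals (iF L n le_rfl hL.le hR.le)
      (iF n R hL.le hR.le le_rfl), e0]
  have e2 : ∫ x in n..2 * n - L, F (2 * n - x) = ∫ x in L..n, F x := by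
    rw [intervalIntegral.integral_comp_sub_left F (2 * n)]
    have a1 : 2 * n - (2 * n - L) = L := by ring
    have a2 : 2 * n - n = n := by ring
    rw [a1, a2]
  have e3 : ∫ x in n..2 * n - L, F (2 * n - x) = -∫ x in n..2 * n - L, F' x := by
    rw [← intervalIntegral.integral_neg]
    refine intervalIntegral.integral_congr fun x _ => ?_
    simp only [hF, hF']
    ring
  have e4 : (∫ x in n..R, F' x) + ∫ x in R..2 * n - L, F' x = ∫ x in n..2 * n - L, F' x :=
    intervalIntegral.integral_add_adjacent_intervals (iF' n R le_rfl hR.le h1)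
      (iF' R _ hR.le h1 le_rfl)
  have e5 : (∫ x in n..R, F' x) - ∫ x in n..R, F x ≤ 0 := by linarith
  set m := min (n + δ) R with hm
  have hm1 : n < m := lt_min (by linarith) hR
  have hm2 : m ≤ R := min_le_right _ _
  have hm3 : m ≤ n + δ := min_le_left _ _
  have iD : ∀ a b, n ≤ a → a ≤ b → b ≤ R → IntervalIntegrable (fun x => F' x - F x) volume a b :=
    fun a b ha hab hb => (iF' a b ha hab (hb.trans h1)).sub (iF a b (hL.le.trans ha) hab hb)
  have eD : ∀ x, F' x - F x = (-(g x + g (2 * n - x))) * (g x - g (2 * n - x)) * (x - n) := by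
    intro x
    simp only [hF, hF']
    ring
  have p1 : 0 < ∫ x in n..m, (F' x - F x) := by
    refine intervalIntegral.intervalIntegral_pos_of_pos_on (iD n m le_rfl hm1.le hm2)
      (fun x hx => ?_) hm1
    have a1 := hG x ⟨hx.1, hx.2.trans_le hm3⟩
    have a2 := hpos x ⟨hx.1, hx.2.le.trans hm2⟩
    rw [eD]
    exact mul_pos (mul_pos (by linarith) (by linarith)) (by linarith [hx.1])
  have p2 : 0 ≤ ∫ x in m..R, (F' x - F x) := by
    rw [intervalIntegral.integral_of_le hm2, integral_Ioc_eq_integral_Ioo]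
    refine setIntegral_nonneg measurableSet_Ioo fun x hx => ?_
    have a1 := h2 x ⟨hm1.trans hx.1, hx.2⟩
    have a2 := hpos x ⟨hm1.trans hx.1, hx.2.le⟩
    rw [eD]
    exact mul_nonneg (mul_nonneg (by linarith) (by linarith)) (by linarith [hx.1])
  have p3 := intervalIntegral.integral_add_adjacent_intervals (iD n m le_rfl hm1.le hm2)
    (iD m R hm1.le hm2 le_rfl)
  have p4 := intervalIntegral.integral_sub (iF' n R le_rfl hR.le h1) (iF n R hL.le hR.le le_rfl)
  linarith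

theorem LR4_limit {φ : ℂ → ℝ} (hφ : Continuous φ) {a s y c : ℝ} (hc : 0 < c)
    (h0 : ∀ t ∈ Ioo 0 c, φ ⟨a + s * t, y⟩ = 0) : φ ⟨a, y⟩ = 0 := by
  have e : (fun t : ℝ => (⟨a + s * t, y⟩ : ℂ)) = fun t : ℝ => ((a + s * t : ℝ) : ℂ) + y * I := by
    funext t
    apply Complex.ext <;> simp
  have hk : Continuous fun t : ℝ => (⟨a + s * t, y⟩ : ℂ) := by
    rw [e]
    fun_prop
  have h1 : EqOn (fun t : ℝ => φ ⟨a + s * t, y⟩) (fun _ => 0) (Ioo 0 c) := h0
  have h2 := h1.closure (hφ.comp hk) continuous_const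
  rw [closure_Ioo hc.ne] at h2
  have h3 := h2 (left_mem_Icc.2 hc.le)
  simpa using h3

theorem Sy.not_order (h : Sy Ω lam u l r n) {δ : ℝ} (hδ : 0 < δ)
    (hG : ∀ x ∈ Ioo n (n + δ), gT Ω u x + gT Ω u (2 * n - x) < 0)
    (h1 : r Real.pi ≤ 2 * n - l Real.pi)
    (h2 : ∀ x ∈ Ioo n (r Real.pi), gT Ω u x + gT Ω u (2 * n - x) ≤ 0) : False := by
  have hL := h.memT.1
  have hR := h.memT.2
  refine LR4_real hL hR hδ h.toStr.continuousOn_gT (fun x hx => h.toPat.gT_pos hx)
    (h.toStr.momT (-n) 1) ?_ hG h1 h2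
  have ht := h.flipX.toPat.tailT (c := r Real.pi) ⟨hR.le, h1⟩
  refine ht.trans (le_of_eq (intervalIntegral.integral_congr fun x hx => ?_))
  rw [uIcc_of_le h1] at hx
  have hx1 : r Real.pi ≤ x := hx.1
  have hx2 : x ≤ 2 * n - l Real.pi := hx.2
  show (gT (fx n ⁻¹' Ω) (fun z => -u (fx n z)) x ^ 2 - 1) * (x - n) = _
  rw [h.toStr.gT_flipX n ⟨by linarith, by linarith⟩, neg_sq]

theorem Sy.ev_zero (h : Sy Ω lam u l r n) {z : ℂ} (hz : z ∈ Ω) (hz' : fx n z ∈ Ω) :
    ev u n z = 0 := by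
  by_contra hne
  obtain ⟨σ, δ, e, hσ, hδ, -, he, hG, hr⟩ := h.local_exp ⟨z, hz, hz', hne⟩
  rcases hσ with rfl | rfl
  · have hL := h.memT.1
    have hR := h.memT.2
    set δ' := min δ (min (r Real.pi - n) (n - l Real.pi)) with hδ'
    have d0 : 0 < δ' := lt_min hδ (lt_min (by linarith) (by linarith))
    have d1 : δ' ≤ δ := min_le_left _ _
    have d2 : δ' ≤ r Real.pi - n := (min_le_right _ _).trans (min_le_left _ _)
    have d3 : δ' ≤ n - l Real.pi := (min_le_right _ _).trans (min_le_right _ _)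
    have hG' : ∀ x ∈ Ioo n (n + δ'), gT (fx n ⁻¹' Ω) (fun z => -u (fx n z)) x +
        gT (fx n ⁻¹' Ω) (fun z => -u (fx n z)) (2 * n - x) < 0 := by
      intro x hx
      have a1 := hx.1
      have a2 := hx.2
      have a3 := hG x ⟨a1, by linarith⟩
      have e1 : 2 * n - (2 * n - x) = x := by ring
      rw [h.toStr.gT_flipX n (x := x) ⟨by linarith, by linarith⟩,
        h.toStr.gT_flipX n (x := 2 * n - x) ⟨by linarith, by linarith⟩, e1]
      linarith
    have hr' : ∀ t ∈ Ioo 0 δ', 0 < ev (fun z => -u (fx n z)) n (⟨n, Real.pi⟩ + t * e) := by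
      intro t ht
      have a3 := hr t ⟨ht.1, ht.2.trans_le d1⟩
      rw [Sy.ev_flip]
      linarith
    obtain ⟨o1, o2⟩ := h.flipX.order d0 he hG' hr'
    exact h.flipX.not_order d0 hG' o1 o2
  · have hG' : ∀ x ∈ Ioo n (n + δ), gT Ω u x + gT Ω u (2 * n - x) < 0 := fun x hx => by
      linarith [hG x hx]
    have hr' : ∀ t ∈ Ioo 0 δ, 0 < ev u n (⟨n, Real.pi⟩ + t * e) := fun t ht => by
      linarith [hr t ht]
    obtain ⟨o1, o2⟩ := h.order hδ he hG' hr'
    exact h.not_order hδ hG' o1 o2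

theorem Sy.symm (h : Sy Ω lam u l r n) {z : ℂ} (hz : z ∈ Ω) : fx n z ∈ Ω := by
  by_contra hne
  obtain ⟨⟨y0, y1⟩, x0, x1⟩ := (h.mem z).1 hz
  obtain ⟨ξ₀, ξ₁, k0, k1, -, -, hw⟩ := h.loc.win
  have hn : (⟨n, z.im⟩ : ℂ) ∈ Ω := hw _ y0 y1 (by
    have : n - (n + n) / 2 = 0 := by ring
    show |n - (n + n) / 2| ≤ ξ₁
    rw [this, abs_zero]
    linarith)
  obtain ⟨-, n0, n1⟩ := (h.mem _).1 hn
  have n0' : l z.im < n := n0
  have n1' : n < r z.im := n1
  have mk : ∀ x : ℝ, l z.im < x → x < r z.im → (⟨x, z.im⟩ : ℂ) ∈ Ω := fun x a b =>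
    (h.mem _).2 ⟨⟨y0, y1⟩, a, b⟩
  by_cases c1 : 2 * n - l z.im ≤ z.re
  · have hp : (⟨2 * n - l z.im, z.im⟩ : ℂ) ∈ Ω := mk _ (by linarith) (by linarith)
    obtain ⟨-, b1, b2⟩ := h.lens_pos hp le_rfl
    have b3 : ev u n ⟨2 * n - l z.im, z.im⟩ = 0 := by
      refine LR4_limit h.continuous_ev (s := -1) (c := n - l z.im) (by linarith) fun t ht => ?_
      have t0 := ht.1
      have t1 := ht.2
      exact h.ev_zero (mk _ (by linarith) (by linarith))
        (mk (2 * n - (2 * n - l z.im + -1 * t)) (by linarith) (by linarith))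
    linarith
  · by_cases c2 : z.re ≤ 2 * n - r z.im
    · have hp : (⟨2 * n - r z.im, z.im⟩ : ℂ) ∈ Ω := mk _ (by linarith) (by linarith)
      obtain ⟨-, b1, b2⟩ := h.lens_neg hp le_rfl
      have b3 : ev u n ⟨2 * n - r z.im, z.im⟩ = 0 := by
        refine LR4_limit h.continuous_ev (s := 1) (c := r z.im - n) (by linarith) fun t ht => ?_
        have t0 := ht.1
        have t1 := ht.2
        exact h.ev_zero (mk _ (by linarith) (by linarith))
          (mk (2 * n - (2 * n - r z.im + 1 * t)) (by linarith) (by linarith))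
      linarith
    · exact hne (mk (2 * n - z.re) (by linarith) (by linarith))

end Pool.Agent.L2K
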