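import Pool.Agent.P.MP_2f6447_an.K.GeoS

/-! Normalisation to strip position. -/

open Set MeasureTheory Filter Topology Complex Metric
open scoped ContDiff ComplexConjugate

namespace Pool.Agent.L2K

variable {Ω U : Set ℂ} {lam : ℝ} {u w f g : ℂ → ℝ}
variable {l r : ℝ → ℝ} {nT nB n φ : ℝ}

theorem Norm_chord (hl : ConvexOn ℝ (Icc 0 Real.pi) l) {y₀ e y : ℝ} (h0 : y₀ ∈ Icc 0 Real.pi)
    (he : e ∈ Icc 0 Real.pi) {d D : ℝ} (hd : 0 ≤ d) (hD : 0 < D) (hdD : d ≤ D)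
    (hy : y = (1 - d / D) * y₀ + d / D * e) : l y ≤ l y₀ + |l e - l y₀| / D * d := by
  have t0 : 0 ≤ d / D := div_nonneg hd hD.le
  have t1 : d / D ≤ 1 := (div_le_one hD).2 hdD
  have H : l ((1 - d / D) * y₀ + d / D * e) ≤ (1 - d / D) * l y₀ + d / D * l e :=
    hl.2 h0 he (by linarith) t0 (by ring)
  have e1 : |l e - l y₀| / D * d = d / D * |l e - l y₀| := by ring
  rw [hy, e1]
  have := mul_le_mul_of_nonneg_left (le_abs_self (l e - l y₀)) t0
  linarith

theorem Norm_usc (hl : ConvexOn ℝ (Icc 0 Real.pi) l) {y₀ : ℝ} (h0 : y₀ ∈ Icc 0 Real.pi) :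
    ∃ M : ℝ, ∀ y ∈ Icc 0 Real.pi, l y ≤ l y₀ + M * |y - y₀| := by
  have hA : 0 ≤ |l Real.pi - l y₀| / (Real.pi - y₀) :=
    div_nonneg (abs_nonneg _) (sub_nonneg.2 h0.2)
  have hB : 0 ≤ |l 0 - l y₀| / y₀ := div_nonneg (abs_nonneg _) h0.1
  refine ⟨|l Real.pi - l y₀| / (Real.pi - y₀) + |l 0 - l y₀| / y₀, fun y hy => ?_⟩
  rcases lt_trichotomy y y₀ with k | k | k
  · have y0 : 0 < y₀ := lt_of_le_of_lt hy.1 k
    have H := Norm_chord (y := y) hl h0 GeoS_zero (d := y₀ - y) (D := y₀) (by linarith) y0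
      (by linarith [hy.1]) (by field_simp; ring)
    rw [abs_sub_comm y y₀, abs_of_pos (sub_pos.2 k), add_mul]
    have := mul_nonneg hA (sub_pos.2 k).le
    linarith
  · rw [k, sub_self, abs_zero, mul_zero, add_zero]
  · have y0 : 0 < Real.pi - y₀ := by linarith [hy.2]
    have H := Norm_chord (y := y) hl h0 GeoS_pi (d := y - y₀) (D := Real.pi - y₀) (by linarith) y0
      (by linarith [hy.2]) (by field_simp; ring)
    rw [abs_of_pos (sub_pos.2 k), add_mul]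
    have := mul_nonneg hB (sub_pos.2 k).le
    linarith

theorem Norm_side {K : Set ℂ} (hK : IsCompact K) (hc : Convex ℝ K)
    (hne : ∀ y ∈ Icc 0 Real.pi, ∃ x : ℝ, (⟨x, y⟩ : ℂ) ∈ K) :
    ∃ l : ℝ → ℝ, (∀ y ∈ Icc 0 Real.pi, (⟨l y, y⟩ : ℂ) ∈ K) ∧
      (∀ z ∈ K, z.im ∈ Icc 0 Real.pi → l z.im ≤ z.re) ∧ ContinuousOn l (Icc 0 Real.pi) := by
  have hex : ∀ y : ℝ, ∃ x : ℝ, y ∈ Icc 0 Real.pi →
      (⟨x, y⟩ : ℂ) ∈ K ∧ ∀ z ∈ K, z.im = y → x ≤ z.re := by
    intro y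
    by_cases hy : y ∈ Icc 0 Real.pi
    · obtain ⟨x, hx⟩ := hne y hy
      have hs : IsCompact (K ∩ {z : ℂ | z.im = y}) :=
        hK.inter_right (isClosed_eq continuous_im continuous_const)
      obtain ⟨p, hp, hm⟩ := hs.exists_isMinOn ⟨⟨x, y⟩, hx, rfl⟩ continuous_re.continuousOn
      refine ⟨p.re, fun _ => ⟨?_, fun z hz e => hm ⟨hz, e⟩⟩⟩
      have e : p.im = y := hp.2
      rw [← e]
      exact hp.1
    · exact ⟨0, fun k => absurd k hy⟩
  choose l hl using hex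
  have h1 : ∀ y ∈ Icc 0 Real.pi, (⟨l y, y⟩ : ℂ) ∈ K := fun y hy => (hl y hy).1
  have h2 : ∀ z ∈ K, z.im ∈ Icc 0 Real.pi → l z.im ≤ z.re := fun z hz hy =>
    (hl _ hy).2 z hz rfl
  have hcv : ConvexOn ℝ (Icc 0 Real.pi) l := by
    refine ⟨convex_Icc _ _, fun x hx y hy a b ha hb hab => ?_⟩
    have k := (hl _ (convex_Icc _ _ hx hy ha hb hab)).2 _ (hc (h1 x hx) (h1 y hy) ha hb hab)
      (by simp only [add_im, smul_im])
    simpa only [add_re, smul_re] using k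
  refine ⟨l, h1, h2, fun y₀ h0 => ?_⟩
  refine tendsto_order.2 ⟨fun c hlt => ?_, fun c hlt => ?_⟩
  · have hs : IsCompact (Complex.im '' (K ∩ {z : ℂ | z.re ≤ c})) :=
      (hK.inter_right (isClosed_le continuous_re continuous_const)).image continuous_im
    have hn : y₀ ∈ (Complex.im '' (K ∩ {z : ℂ | z.re ≤ c}))ᶜ := by
      rintro ⟨z, ⟨hz, hz'⟩, e⟩
      have k1 := (hl _ h0).2 z hz e
      have k2 : z.re ≤ c := hz'
      linarith
    refine eventually_nhdsWithin_iff.2 ?_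
    filter_upwards [hs.isClosed.isOpen_compl.mem_nhds hn] with y hy hy'
    by_contra hcon
    exact hy ⟨⟨l y, y⟩, ⟨h1 y hy', not_lt.1 hcon⟩, rfl⟩
  · obtain ⟨M, hM⟩ := Norm_usc hcv h0
    have hc' : Continuous fun y : ℝ => l y₀ + M * |y - y₀| := by fun_prop
    have ht := hc'.tendsto y₀
    rw [sub_self, abs_zero, mul_zero, add_zero] at ht
    refine eventually_nhdsWithin_iff.2 ?_
    filter_upwards [ht.eventually (gt_mem_nhds hlt)] with y hy hy'
    exact lt_of_le_of_lt (hM y hy') hy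

theorem Norm_side' {K : Set ℂ} (hK : IsCompact K) (hc : Convex ℝ K)
    (hne : ∀ y ∈ Icc 0 Real.pi, ∃ x : ℝ, (⟨x, y⟩ : ℂ) ∈ K) :
    ∃ r : ℝ → ℝ, (∀ y ∈ Icc 0 Real.pi, (⟨r y, y⟩ : ℂ) ∈ K) ∧
      (∀ z ∈ K, z.im ∈ Icc 0 Real.pi → z.re ≤ r z.im) ∧ ContinuousOn r (Icc 0 Real.pi) := by
  have hK' : IsCompact ((fun z : ℂ => -conj z) '' K) := hK.image (by fun_prop)
  have hc' : Convex ℝ ((fun z : ℂ => -conj z) '' K) := by
    rintro _ ⟨p, hp, rfl⟩ _ ⟨q, hq, rfl⟩ a b ha hb hab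
    refine ⟨a • p + b • q, hc hp hq ha hb hab, ?_⟩
    apply Complex.ext <;> simp <;> ring
  obtain ⟨l, h1, h2, h3⟩ := Norm_side hK' hc' fun y hy => by
    obtain ⟨x, hx⟩ := hne y hy
    exact ⟨-x, ⟨x, y⟩, hx, by apply Complex.ext <;> simp⟩
  refine ⟨fun y => -l y, fun y hy => ?_, fun z hz hy => ?_, h3.neg⟩
  · obtain ⟨p, hp, e⟩ := h1 y hy
    have e1 : -p.re = l y := by simpa using congrArg Complex.re e
    have e2 : p.im = y := by simpa using congrArg Complex.im e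
    have e3 : (⟨-l y, y⟩ : ℂ) = p := Complex.ext (by simp only; linarith) e2.symm
    simp only
    rw [e3]
    exact hp
  · have e1 : (-conj z).im = z.im := by simp
    have e2 : (-conj z).re = -z.re := by simp
    have k := h2 _ ⟨z, hz, rfl⟩ (by simp only; rw [e1]; exact hy)
    simp only at k ⊢
    rw [e1, e2] at k
    linarith

theorem Norm_perp {p q ν : ℂ} {a b : ℝ} (hp : p ∈ closure Ω) (hq : q ∈ closure Ω) (ha : 0 < a)
    (hb : 0 < b) (hab : a + b = 1) (hN : IsN Ω (a • p + b • q) ν) :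
    dot (p - (a • p + b • q)) ν = 0 ∧ dot (q - (a • p + b • q)) ν = 0 := by
  have k1 := hN.le_of_closure hp
  have k2 := hN.le_of_closure hq
  have e : b = 1 - a := by linarith
  have k3 : a * dot (p - (a • p + b • q)) ν + b * dot (q - (a • p + b • q)) ν = 0 := by
    simp only [dot, sub_re, sub_im, add_re, add_im, smul_re, smul_im, smul_eq_mul]
    rw [e]
    ring
  have k4 := mul_nonpos_of_nonneg_of_nonpos ha.le k1
  have k5 := mul_nonpos_of_nonneg_of_nonpos hb.le k2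
  exact ⟨(mul_eq_zero.1 (by linarith)).resolve_left ha.ne',
    (mul_eq_zero.1 (by linarith)).resolve_left hb.ne'⟩

theorem Norm_seg (h : Dom Ω) {p q : ℂ} {a b : ℝ} (hp : p ∈ closure Ω) (hq : q ∈ closure Ω)
    (ha : 0 < a) (hb : 0 < b) (hab : a + b = 1) (hm : a • p + b • q ∉ Ω) :
    segment ℝ p q ⊆ frontier Ω := by
  obtain ⟨ν, hN⟩ := h.exists_sep hm
  obtain ⟨k1, k2⟩ := Norm_perp hp hq ha hb hab hN
  rintro _ ⟨s, t, hs, ht, hst, rfl⟩
  refine h.mem_frontier_of_isN hN (h.convex.closure hp hq hs ht hst) ?_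
  generalize a • p + b • q = m at k1 k2
  have e : t = 1 - s := by linarith
  have k3 : dot (s • p + t • q - m) ν = s * dot (p - m) ν + t * dot (q - m) ν := by
    simp only [dot, sub_re, sub_im, add_re, add_im, smul_re, smul_im, smul_eq_mul]
    rw [e]
    ring
  rw [k3, k1, k2, mul_zero, mul_zero, add_zero]

theorem exists_geo (h : Dom Ω) (hs : ∀ z ∈ Ω, 0 < z.im ∧ z.im < Real.pi)
    (hT : ∃ a b : ℝ, a < b ∧ (⟨a, Real.pi⟩ : ℂ) ∈ closure Ω ∧ (⟨b, Real.pi⟩ : ℂ) ∈ closure Ω)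
    (hB : ∃ a b : ℝ, a < b ∧ (⟨a, 0⟩ : ℂ) ∈ closure Ω ∧ (⟨b, 0⟩ : ℂ) ∈ closure Ω)
    (hseg : ∀ p q : ℂ, segment ℝ p q ⊆ frontier Ω → p.im = q.im) : ∃ l r, Geo Ω l r := by
  obtain ⟨a₁, b₁, t0, t1, t2⟩ := hT
  obtain ⟨a₀, b₀, s0, s1, s2⟩ := hB
  have hpi := Real.pi_pos
  have hne : ∀ y ∈ Icc 0 Real.pi, ∃ x : ℝ, (⟨x, y⟩ : ℂ) ∈ closure Ω := by
    intro y hy
    have u0 : 0 ≤ y / Real.pi := div_nonneg hy.1 hpi.le
    have u1 : y / Real.pi ≤ 1 := (div_le_one hpi).2 hy.2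
    have k := h.convex.closure s1 t1 (a := 1 - y / Real.pi) (b := y / Real.pi) (by linarith) u0
      (by ring)
    refine ⟨(1 - y / Real.pi) * a₀ + y / Real.pi * a₁, ?_⟩
    have e : (⟨(1 - y / Real.pi) * a₀ + y / Real.pi * a₁, y⟩ : ℂ) =
        (1 - y / Real.pi) • (⟨a₀, 0⟩ : ℂ) + (y / Real.pi) • (⟨a₁, Real.pi⟩ : ℂ) := by
      apply Complex.ext
      · simp only [add_re, smul_re, smul_eq_mul]
      · simp only [add_im, smul_im, smul_eq_mul]
        field_simp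
        ring
    rw [e]
    exact k
  obtain ⟨l, l1, l2, l3⟩ := Norm_side h.bdd.isCompact_closure h.convex.closure hne
  obtain ⟨r, r1, r2, r3⟩ := Norm_side' h.bdd.isCompact_closure h.convex.closure hne
  have hmem : ∀ z : ℂ, z ∈ Ω ↔ (0 < z.im ∧ z.im < Real.pi) ∧ l z.im < z.re ∧ z.re < r z.im := by
    intro z
    constructor
    · intro hz
      obtain ⟨q1, q2⟩ := hs z hz
      obtain ⟨ε, hε, hb⟩ := Metric.isOpen_iff.1 h.isOpen z hz
      have m1 : z - ((ε / 2 : ℝ) : ℂ) ∈ Ω := hb (by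
        rw [mem_ball, dist_eq_norm, sub_sub_cancel_left, norm_neg, norm_real, Real.norm_eq_abs,
          abs_of_pos (half_pos hε)]
        exact half_lt_self hε)
      have m2 : z + ((ε / 2 : ℝ) : ℂ) ∈ Ω := hb (by
        rw [mem_ball, dist_eq_norm, add_sub_cancel_left, norm_real, Real.norm_eq_abs,
          abs_of_pos (half_pos hε)]
        exact half_lt_self hε)
      have k1 := l2 _ (subset_closure m1)
      have k2 := r2 _ (subset_closure m2)
      rw [sub_im, sub_re, ofReal_im, ofReal_re, sub_zero] at k1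
      rw [add_im, add_re, ofReal_im, ofReal_re, add_zero] at k2
      have k3 := k1 ⟨q1.le, q2.le⟩
      have k4 := k2 ⟨q1.le, q2.le⟩
      exact ⟨⟨q1, q2⟩, by linarith, by linarith⟩
    · rintro ⟨⟨q1, q2⟩, q3, q4⟩
      by_contra hz
      obtain ⟨ν, hN⟩ := h.exists_sep hz
      have k1 := hN.le_of_closure (l1 _ ⟨q1.le, q2.le⟩)
      have k2 := hN.le_of_closure (r1 _ ⟨q1.le, q2.le⟩)
      have k3 := hN.le_of_closure t1
      have k4 := hN.le_of_closure s1
      simp only [dot, sub_re, sub_im, sub_self, zero_mul, add_zero] at k1 k2 k3 k4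
      have n1 : ν.re = 0 := by
        apply le_antisymm
        · by_contra hc
          exact absurd k2 (not_le.2 (mul_pos (sub_pos.2 q4) (not_le.1 hc)))
        · by_contra hc
          exact absurd k1 (not_le.2 (mul_pos_of_neg_of_neg (sub_neg.2 q3) (not_le.1 hc)))
      rw [n1, mul_zero, zero_add] at k3 k4
      have n2 : ν.im = 0 := by
        apply le_antisymm
        · by_contra hc
          exact absurd k3 (not_le.2 (mul_pos (sub_pos.2 q2) (not_le.1 hc)))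
        · by_contra hc
          exact absurd k4 (not_le.2 (mul_pos_of_neg_of_neg (sub_neg.2 q1) (not_le.1 hc)))
      have n3 := Geo1_sq hN.1
      rw [n1, n2] at n3
      norm_num at n3
  have hin : ∀ {p q : ℂ} {a b : ℝ}, p ∈ closure Ω → q ∈ closure Ω → p.im ≠ q.im → 0 < a → 0 < b →
      a + b = 1 → a • p + b • q ∈ Ω := by
    intro p q a b hp hq hi ha hb hab
    by_contra hm
    exact hi (hseg p q (Norm_seg h hp hq ha hb hab hm))
  refine ⟨l, r, hmem, l3, r3, ⟨convex_Icc _ _, fun x hx y hy hxy a b ha hb hab => ?_⟩,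
    ⟨convex_Icc _ _, fun x hx y hy hxy a b ha hb hab => ?_⟩, ?_, ?_⟩
  · have k := ((hmem _).1 (hin (l1 x hx) (l1 y hy) hxy ha hb hab)).2.1
    simpa only [add_re, add_im, smul_re, smul_im] using k
  · have k := ((hmem _).1 (hin (r1 x hx) (r1 y hy) hxy ha hb hab)).2.2
    simpa only [add_re, add_im, smul_re, smul_im] using k
  · have k1 : l 0 ≤ a₀ := l2 _ s1 GeoS_zero
    have k2 : b₀ ≤ r 0 := r2 _ s2 GeoS_zero
    linarith
  · have k1 : l Real.pi ≤ a₁ := l2 _ t1 GeoS_pi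
    have k2 : b₁ ≤ r Real.pi := r2 _ t2 GeoS_pi
    linarith

theorem Norm_two {S : Set ℂ} {p q : ℂ} {y : ℝ} (hp : p ∈ S) (hq : q ∈ S) (hpq : p ≠ q)
    (h1 : p.im = y) (h2 : q.im = y) :
    ∃ a b : ℝ, a < b ∧ (⟨a, y⟩ : ℂ) ∈ S ∧ (⟨b, y⟩ : ℂ) ∈ S := by
  have e1 : (⟨p.re, y⟩ : ℂ) = p := Complex.ext rfl h1.symm
  have e2 : (⟨q.re, y⟩ : ℂ) = q := Complex.ext rfl h2.symm
  have hre : p.re ≠ q.re := fun e => hpq (Complex.ext e (h1.trans h2.symm))
  rcases lt_or_gt_of_ne hre with k | k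
  · exact ⟨p.re, q.re, k, e1.symm ▸ hp, e2.symm ▸ hq⟩
  · exact ⟨q.re, p.re, k, e2.symm ▸ hq, e1.symm ▸ hp⟩

theorem Norm_end (h : Dom Ω) {a b : ℂ} (hs : segment ℝ a b ⊆ frontier Ω) :
    ∃ ν, IsN Ω a ν ∧ dot (b - a) ν = 0 := by
  have ha := frontier_subset_closure (hs (left_mem_segment ℝ a b))
  have hb := frontier_subset_closure (hs (right_mem_segment ℝ a b))
  have h2 : (0 : ℝ) < 1 / 2 := by norm_num
  have hm : (1 / 2 : ℝ) • a + (1 / 2 : ℝ) • b ∈ frontier Ω :=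
    hs ⟨1 / 2, 1 / 2, h2.le, h2.le, by norm_num, rfl⟩
  have hN := h.isN_nu hm
  obtain ⟨k1, k2⟩ := Norm_perp ha hb h2 h2 (by norm_num) hN
  generalize (1 / 2 : ℝ) • a + (1 / 2 : ℝ) • b = m at hN k1 k2
  generalize nu Ω m = ν at hN k1 k2
  refine ⟨ν, ⟨hN.1, fun z hz => ?_⟩, ?_⟩
  · have k3 := hN.2 z hz
    simp only [dot, sub_re, sub_im] at k1 k3 ⊢
    linarith
  · simp only [dot, sub_re, sub_im] at k1 k2 ⊢
    linarith

theorem Norm_par {v x ν : ℂ} (hν : ‖ν‖ = 1) (hv : v ≠ 0) (h1 : dot v ν = 0) (h2 : dot x ν = 0) :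
    ∃ t : ℝ, x = t * v := by
  have e1 := ExtG_perp hν h1
  have e2 := ExtG_perp hν h2
  generalize dot v (I * ν) = s at e1
  generalize dot x (I * ν) = t at e2
  have hs : s ≠ 0 := fun e => hv (by rw [e1, e, zero_smul])
  have hs' : (s : ℂ) ≠ 0 := by exact_mod_cast hs
  refine ⟨t / s, ?_⟩
  rw [e1, e2, real_smul, real_smul, ofReal_div]
  field_simp

theorem TwoSeg.normalise (h : Dom Ω) (hS : TwoSeg Ω) :
    ∃ p a : ℂ, a ≠ 0 ∧ ∃ l r, Geo (sim p a ⁻¹' Ω) l r := by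
  obtain ⟨a, b, c, d, hab, hcd, s1, s2, hne, hall⟩ := hS
  obtain ⟨ν, hN, v1⟩ := Norm_end h s1
  obtain ⟨μ, hM, v2⟩ := Norm_end h s2
  have hv : b - a ≠ 0 := sub_ne_zero.2 hab.symm
  have ca := frontier_subset_closure (s1 (left_mem_segment ℝ a b))
  have cb := frontier_subset_closure (s1 (right_mem_segment ℝ a b))
  have cc := frontier_subset_closure (s2 (left_mem_segment ℝ c d))
  have cd := frontier_subset_closure (s2 (right_mem_segment ℝ c d))
  have hpar : ∀ p q : ℂ, segment ℝ p q ⊆ frontier Ω → dot (q - p) ν = 0 := by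
    intro p q hpq
    obtain ⟨t, ht⟩ := hall p q hpq
    rw [ht]
    generalize b - a = v at v1
    simp only [dot, mul_re, mul_im, ofReal_re, ofReal_im] at v1 ⊢
    linear_combination t * v1
  have v3 : dot (d - c) ν = 0 := hpar c d s2
  have hH : dot (c - a) ν < 0 := lt_of_le_of_ne (hN.le_of_closure cc) fun e => by
    obtain ⟨t, ht⟩ := Norm_par hN.1 hv v1 e
    exact hne t ht
  obtain ⟨s, hs⟩ : ∃ s : ℝ, ∀ x : ℂ, dot x μ = s * dot x ν := by
    have n1 := Geo1_sq hN.1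
    obtain ⟨t, ht⟩ := Norm_par (x := I * ν) hN.1 (sub_ne_zero.2 hcd.symm) v3 (by
      simp only [dot, mul_re, mul_im, I_re, I_im]
      ring)
    have t1 := congrArg Complex.re ht
    have t2 := congrArg Complex.im ht
    generalize d - c = v at v2 t1 t2
    simp only [dot, mul_re, mul_im, I_re, I_im, ofReal_re, ofReal_im] at v2 t1 t2
    have hdet : ν.re * μ.im - ν.im * μ.re = 0 := by
      linear_combination μ.re * t1 + μ.im * t2 + t * v2
    refine ⟨dot μ ν, fun x => ?_⟩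
    simp only [dot]
    linear_combination (-(x.re * μ.re + x.im * μ.im)) * n1 + (x.im * ν.re - x.re * ν.im) * hdet
  have hlow : ∀ z ∈ Ω, dot (c - a) ν < dot (z - a) ν := by
    intro z hz
    have k1 := hM.le_of_closure ca
    have k2 := hM.2 z hz
    rw [hs] at k1 k2
    have e1 : dot (a - c) ν = -dot (c - a) ν := by
      simp only [dot, sub_re, sub_im]
      ring
    have e2 : dot (z - c) ν = dot (z - a) ν - dot (c - a) ν := by
      simp only [dot, sub_re, sub_im]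
      ring
    rw [e1] at k1
    rw [e2] at k2
    have s0 : s ≤ 0 := by
      by_contra hc
      exact absurd k1 (not_le.2 (mul_pos (not_le.1 hc) (neg_pos.2 hH)))
    by_contra hc
    exact absurd k2 (not_lt.2 (mul_nonneg_of_nonpos_of_nonpos s0 (sub_nonpos.2 (not_lt.1 hc))))
  have hpi := Real.pi_pos
  obtain ⟨k, k0, hk⟩ : ∃ k : ℝ, 0 < k ∧ dot (c - a) ν = -k * Real.pi :=
    ⟨-dot (c - a) ν / Real.pi, div_pos (neg_pos.2 hH) hpi, by field_simp⟩
  have hν : ν ≠ 0 := fun e => by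
    have := hN.1
    rw [e, norm_zero] at this
    exact zero_ne_one this
  have hA : (k : ℂ) * (I * ν) ≠ 0 :=
    mul_ne_zero (by exact_mod_cast k0.ne') (mul_ne_zero I_ne_zero hν)
  have hsim : ∀ p q : ℂ, dot (sim a (k * (I * ν)) q - sim a (k * (I * ν)) p) ν =
      -k * (q.im - p.im) := by
    intro p q
    have n1 := Geo1_sq hN.1
    simp only [dot, sim, sub_re, sub_im, add_re, add_im, mul_re, mul_im, I_re, I_im, ofReal_re,
      ofReal_im]
    linear_combination (-k * (q.im - p.im)) * n1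
  have hsim0 : ∀ q : ℂ, dot (sim a (k * (I * ν)) q - a) ν = -k * q.im := by
    intro q
    have := hsim 0 q
    rwa [sim, sim, mul_zero, add_zero, zero_im, sub_zero] at this
  have hcl : closure (sim a (k * (I * ν)) ⁻¹' Ω) = sim a (k * (I * ν)) ⁻¹' closure Ω :=
    ((Inv_simH a hA).preimage_closure Ω).symm
  have hsur : ∀ x : ℂ, ∃ z, sim a (k * (I * ν)) z = x := (Inv_simH a hA).surjective
  refine ⟨a, k * (I * ν), hA, exists_geo (h.of_sim a hA) (fun z hz => ?_) ?_ ?_ fun p q hpq => ?_⟩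
  · have k1 := hN.2 _ hz
    have k2 := hlow _ hz
    rw [hsim0] at k1 k2
    rw [hk] at k2
    constructor
    · by_contra hc
      nlinarith [mul_nonneg k0.le (neg_nonneg.2 (not_lt.1 hc))]
    · by_contra hc
      nlinarith [mul_nonneg k0.le (sub_nonneg.2 (not_lt.1 hc))]
  · obtain ⟨p, hp⟩ := hsur c
    obtain ⟨q, hq⟩ := hsur d
    have k1 := hsim0 p
    have k2 := hsim p q
    rw [hp, hk] at k1
    rw [hp, hq, v3] at k2
    have e1 : p.im = Real.pi := (mul_left_cancel₀ (neg_ne_zero.2 k0.ne') k1).symm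
    have e2 : q.im - p.im = 0 := (mul_eq_zero.1 k2.symm).resolve_left (neg_ne_zero.2 k0.ne')
    refine Norm_two (p := p) (q := q) ?_ ?_ (fun e => hcd (by rw [← hp, ← hq, e])) e1 (by linarith)
    · rw [hcl, mem_preimage, hp]
      exact cc
    · rw [hcl, mem_preimage, hq]
      exact cd
  · obtain ⟨q, hq⟩ := hsur b
    have hp : sim a (k * (I * ν)) 0 = a := by rw [sim, mul_zero, add_zero]
    have k2 := hsim0 q
    rw [hq, v1] at k2
    have e2 : q.im = 0 := (mul_eq_zero.1 k2.symm).resolve_left (neg_ne_zero.2 k0.ne')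
    refine Norm_two (p := 0) (q := q) ?_ ?_ (fun e => hab (by rw [← hq, ← e, hp])) rfl e2
    · rw [hcl, mem_preimage, hp]
      exact ca
    · rw [hcl, mem_preimage, hq]
      exact cb
  · rw [frontier_sim a hA] at hpq
    have k1 := hpar (sim a (k * (I * ν)) p) (sim a (k * (I * ν)) q) (by
      rintro _ ⟨s, t, hs, ht, hst, rfl⟩
      rw [← Inv_aff_sim _ _ s t _ _ hst]
      exact hpq ⟨s, t, hs, ht, hst, rfl⟩)
    rw [hsim] at k1
    have e2 : q.im - p.im = 0 := (mul_eq_zero.1 k1).resolve_left (neg_ne_zero.2 k0.ne')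
    linarith

end Pool.Agent.L2K
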