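import Pool.Agent.P.MP_2f6447_an.K.FV
import Pool.Agent.P.MP_2f6447_an.K.Top

/-! The stress functional of a shear field. -/

open Set MeasureTheory Filter Topology Complex Metric
open scoped ContDiff ComplexConjugate

namespace Pool.Agent.L2K

variable {Ω U : Set ℂ} {lam : ℝ} {u w f g : ℂ → ℝ}

theorem Shear_ramp_nonneg (a b t : ℝ) : 0 ≤ ramp a b t := le_max_left _ _

theorem Shear_ramp_le_one (a b t : ℝ) : ramp a b t ≤ 1 :=
  max_le zero_le_one (min_le_left _ _)

theorem Shear_ramp_lip {a b : ℝ} (hab : a < b) (s t : ℝ) :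
    |ramp a b s - ramp a b t| ≤ (b - a)⁻¹ * |s - t| := by
  have hp : 0 < b - a := sub_pos.2 hab
  have h1 : |ramp a b s - ramp a b t| ≤ |min 1 ((s - a) / (b - a)) - min 1 ((t - a) / (b - a))| := by
    unfold ramp
    rw [max_comm 0 (min 1 ((s - a) / (b - a))), max_comm 0 (min 1 ((t - a) / (b - a)))]
    exact abs_max_sub_max_le_abs _ _ _
  have h2 : |min 1 ((s - a) / (b - a)) - min 1 ((t - a) / (b - a))| ≤
      |(s - a) / (b - a) - (t - a) / (b - a)| := by
    refine (abs_min_sub_min_le_max _ _ _ _).trans ?_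
    simp
  have h3 : (s - a) / (b - a) - (t - a) / (b - a) = (b - a)⁻¹ * (s - t) := by
    field_simp
    ring
  rw [h3, abs_mul, abs_of_pos (inv_pos.2 hp)] at h2
  exact h1.trans h2

theorem Shear_bdd {v : ℝ → ℝ} {K : NNReal} (hv : LipschitzWith K v) {x₀ x₁ : ℝ}
    (h0 : ∀ x, x ∉ Icc x₀ x₁ → v x = 0) : ∃ M : ℝ, 0 ≤ M ∧ ∀ x, |v x| ≤ M := by
  obtain ⟨C, hC⟩ := (isCompact_Icc (a := x₀) (b := x₁)).exists_bound_of_continuousOn
    hv.continuous.continuousOn
  refine ⟨max C 0, le_max_right _ _, fun x => ?_⟩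
  by_cases hx : x ∈ Icc x₀ x₁
  · exact (hC x hx).trans (le_max_left _ _)
  · rw [h0 x hx, abs_zero]
    exact le_max_right _ _

theorem Shear_ramp_hasDerivAt {a b t : ℝ} (hab : a < b) (ha : t ≠ a) (hb : t ≠ b) :
    HasDerivAt (ramp a b) ((Ioo a b).indicator (fun _ => (b - a)⁻¹) t) t := by
  have hp : 0 < b - a := sub_pos.2 hab
  rcases lt_or_gt_of_ne ha with h1 | h1
  · have hn : t ∉ Ioo a b := fun h => absurd h.1 (not_lt.2 h1.le)
    rw [indicator_of_notMem hn]
    refine (hasDerivAt_const t (0 : ℝ)).congr_of_eventuallyEq ?_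
    filter_upwards [Iio_mem_nhds h1] with s hs
    have : (s - a) / (b - a) ≤ 0 := div_nonpos_of_nonpos_of_nonneg (sub_nonpos.2 (le_of_lt hs)) hp.le
    exact max_eq_left ((min_le_right _ _).trans this)
  rcases lt_or_gt_of_ne hb with h2 | h2
  · have hm : t ∈ Ioo a b := ⟨h1, h2⟩
    rw [indicator_of_mem hm]
    have hd : HasDerivAt (fun s : ℝ => (s - a) / (b - a)) (b - a)⁻¹ t := by
      have := ((hasDerivAt_id t).sub_const a).div_const (b - a)
      simpa [one_div] using this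
    refine hd.congr_of_eventuallyEq ?_
    filter_upwards [Ioo_mem_nhds h1 h2] with s hs
    have e1 : (s - a) / (b - a) ≤ 1 := (div_le_one hp).2 (by linarith [hs.2])
    have e2 : 0 ≤ (s - a) / (b - a) := div_nonneg (by linarith [hs.1]) hp.le
    unfold ramp
    rw [min_eq_right e1, max_eq_right e2]
  · have hn : t ∉ Ioo a b := fun h => absurd h.2 (not_lt.2 h2.le)
    rw [indicator_of_notMem hn]
    refine (hasDerivAt_const t (1 : ℝ)).congr_of_eventuallyEq ?_
    filter_upwards [Ioi_mem_nhds h2] with s hs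
    have e1 : 1 ≤ (s - a) / (b - a) := (one_le_div hp).2 (by linarith [mem_Ioi.1 hs])
    unfold ramp
    rw [min_eq_left e1, max_eq_right zero_le_one]

theorem Shear_fderiv {v : ℝ → ℝ} {a b : ℝ} {z : ℂ} {v' θ' : ℝ} (h1 : HasDerivAt v v' z.re)
    (h2 : HasDerivAt (ramp a b) θ' z.im) (w : ℂ) :
    fderiv ℝ (shear v a b) z w = ((v' * ramp a b z.im * w.re + v z.re * θ' * w.im : ℝ) : ℂ) * I := by
  have e1 : HasFDerivAt (fun z : ℂ => v z.re) (v' • reCLM) z :=
    h1.comp_hasFDerivAt z reCLM.hasFDerivAt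
  have e2 : HasFDerivAt (fun z : ℂ => ramp a b z.im) (θ' • imCLM) z :=
    h2.comp_hasFDerivAt z imCLM.hasFDerivAt
  have e3 := (ofRealCLM.hasFDerivAt.comp z (e1.mul e2)).mul_const I
  have e4 : fderiv ℝ (shear v a b) z = _ := e3.fderiv
  rw [e4]
  apply Complex.ext <;> simp <;> ring

theorem Shear_qmp_re : Measure.QuasiMeasurePreserving (fun z : ℂ => z.re) volume volume :=
  Measure.quasiMeasurePreserving_fst.comp
    Complex.volume_preserving_equiv_real_prod.quasiMeasurePreserving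

theorem Shear_qmp_im : Measure.QuasiMeasurePreserving (fun z : ℂ => z.im) volume volume :=
  Measure.quasiMeasurePreserving_snd.comp
    Complex.volume_preserving_equiv_real_prod.quasiMeasurePreserving

theorem lipschitz_shear {v : ℝ → ℝ} {K : NNReal} (hv : LipschitzWith K v) {x₀ x₁ a b : ℝ}
    (hab : a < b) (h0 : ∀ x, x ∉ Icc x₀ x₁ → v x = 0) : ∃ K', LipschitzWith K' (shear v a b) := by
  obtain ⟨M, hM0, hM⟩ := Shear_bdd hv h0
  have hp : 0 < (b - a)⁻¹ := inv_pos.2 (sub_pos.2 hab)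
  refine ⟨Real.toNNReal (K + M * (b - a)⁻¹), LipschitzWith.of_dist_le' fun z w => ?_⟩
  have e : shear v a b z - shear v a b w =
      ((v z.re * ramp a b z.im - v w.re * ramp a b w.im : ℝ) : ℂ) * I := by
    unfold shear
    push_cast
    ring
  rw [dist_eq_norm, dist_eq_norm, e, norm_mul, Complex.norm_I, mul_one, Complex.norm_real,
    Real.norm_eq_abs]
  have h1 : |v z.re - v w.re| ≤ K * ‖z - w‖ := by
    have := hv.dist_le_mul z.re w.re
    rw [Real.dist_eq, Real.dist_eq] at this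
    refine this.trans (mul_le_mul_of_nonneg_left ?_ K.coe_nonneg)
    simpa using abs_re_le_norm (z - w)
  have h2 : |ramp a b z.im - ramp a b w.im| ≤ (b - a)⁻¹ * ‖z - w‖ := by
    refine (Shear_ramp_lip hab _ _).trans (mul_le_mul_of_nonneg_left ?_ hp.le)
    simpa using abs_im_le_norm (z - w)
  have e2 : v z.re * ramp a b z.im - v w.re * ramp a b w.im =
      (v z.re - v w.re) * ramp a b z.im + v w.re * (ramp a b z.im - ramp a b w.im) := by ring
  rw [e2]
  refine (abs_add_le _ _).trans ?_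
  rw [abs_mul, abs_mul, abs_of_nonneg (Shear_ramp_nonneg a b z.im)]
  have h3 : |v z.re - v w.re| * ramp a b z.im ≤ K * ‖z - w‖ :=
    (mul_le_of_le_one_right (abs_nonneg _) (Shear_ramp_le_one a b z.im)).trans h1
  have h4 : |v w.re| * |ramp a b z.im - ramp a b w.im| ≤ M * ((b - a)⁻¹ * ‖z - w‖) :=
    mul_le_mul (hM _) h2 (abs_nonneg _) hM0
  calc _ ≤ K * ‖z - w‖ + M * ((b - a)⁻¹ * ‖z - w‖) := add_le_add h3 h4
    _ = _ := by ring

theorem st_shear {v : ℝ → ℝ} {K : NNReal} (hv : LipschitzWith K v) {a b : ℝ} (hab : a < b) :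
    ∀ᵐ z : ℂ, st lam u (shear v a b) z =
      deriv v z.re * ramp a b z.im * ((grad u z).re * (grad u z).im) +
        (Ioo a b).indicator (fun _ => (b - a)⁻¹) z.im * v z.re / 2 *
          ((grad u z).im ^ 2 - (grad u z).re ^ 2 + lam * u z ^ 2 - 1) := by
  have h1 : ∀ᵐ z : ℂ, DifferentiableAt ℝ v z.re := Shear_qmp_re.ae hv.ae_differentiableAt_real
  have h2 : ∀ᵐ z : ℂ, z.im ≠ a := Shear_qmp_im.ae (Measure.ae_ne volume a)
  have h3 : ∀ᵐ z : ℂ, z.im ≠ b := Shear_qmp_im.ae (Measure.ae_ne volume b)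
  filter_upwards [h1, h2, h3] with z z1 z2 z3
  have hd := Shear_fderiv z1.hasDerivAt (Shear_ramp_hasDerivAt hab z2 z3)
  unfold st dv dot
  rw [hd, hd, hd, Complex.sq_norm, Complex.normSq_apply]
  simp only [mul_re, mul_im, ofReal_re, ofReal_im, I_re, I_im, one_re, one_im]
  ring

theorem Mn.shear_le (h : Mn Ω lam u) {v : ℝ → ℝ} {K : NNReal} (hv : LipschitzWith K v)
    {x₀ x₁ a b : ℝ} (hab : a < b) (h0 : ∀ x, x ∉ Icc x₀ x₁ → v x = 0)
    (hr : ∀ x ∈ Icc x₀ x₁, ∀ y ∈ Icc a b, (⟨x, y⟩ : ℂ) ∈ Ω) (ha : Adm Ω v) :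
    LL lam Ω u (shear v a b) ≤ 0 := by
  obtain ⟨K', hK⟩ := lipschitz_shear hv hab h0
  exact h.fv hK (h.toIsMin.toDom.shear_convex hv hab h0 hr ha)

end Pool.Agent.L2K
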