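import Pool.Agent.P.MP_2f6447_an.K.Seg
import Pool.Agent.P.MP_2f6447_an.K.Shear
import Pool.Agent.P.MP_2f6447_an.K.Kink
import Pool.Agent.P.MP_2f6447_an.K.Flip

/-! Moments on the segments, and the horizontal chord identity. -/

open Set MeasureTheory Filter Topology Complex Metric
open scoped ContDiff ComplexConjugate

namespace Pool.Agent.L2K

variable {Ω U : Set ℂ} {lam : ℝ} {u w f g : ℂ → ℝ}
variable {l r : ℝ → ℝ} {nT nB n φ : ℝ}

theorem Mom_pair (h : Dom Ω) {p q : ℝ} (hpq : p < q) (hs : Icc p q ⊆ proj Ω)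
    (he : ∀ x ∈ Ioo p q, Ext Ω ⟨x, top Ω x⟩) (α β : ℝ) : ∃ (v : ℝ → ℝ) (K : NNReal),
      LipschitzWith K v ∧ Adm Ω v ∧ (∀ x, x ≤ p → v x = -(α + β * x)) ∧
        ∀ x, q ≤ x → v x = α + β * x := by
  have s1 : Icc p ((2 * p + q) / 3) ⊆ proj Ω := (Icc_subset_Icc le_rfl (by linarith)).trans hs
  have s2 : Icc ((p + 2 * q) / 3) q ⊆ proj Ω := (Icc_subset_Icc (by linarith) le_rfl).trans hs
  obtain ⟨b1, hb1, H1⟩ := exists_signed h.isOpen_proj h.concaveOn_top (by linarith) s1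
    (h.not_affOn s1 (x := (5 * p + q) / 6) ⟨by linarith, by linarith⟩
      (he _ ⟨by linarith, by linarith⟩))
  obtain ⟨b2, hb2, H2⟩ := exists_signed h.isOpen_proj h.concaveOn_top (by linarith) s2
    (h.not_affOn s2 (x := (p + 5 * q) / 6) ⟨by linarith, by linarith⟩
      (he _ ⟨by linarith, by linarith⟩))
  have hb : 0 < b2 - b1 := by linarith [hb1.2, hb2.1]
  obtain ⟨v1, l1, a1, e1⟩ := H1 ((α + β * b2) / (b2 - b1))
  obtain ⟨v2, l2, a2, e2⟩ := H2 (β - (α + β * b2) / (b2 - b1))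
  have key : ∀ x, (α + β * b2) / (b2 - b1) * (x - b1) +
      (β - (α + β * b2) / (b2 - b1)) * (x - b2) = α + β * x := by
    intro x
    field_simp
    ring
  refine ⟨fun x => v1 x + v2 x, _, l1.add l2, a1.add a2, fun x hx => ?_, fun x hx => ?_⟩
  · have n1 : x ∉ Ioo p ((2 * p + q) / 3) := fun h => absurd h.1 (not_lt.2 hx)
    have n2 : x ∉ Ioo ((p + 2 * q) / 3) q := fun h => by linarith [h.1]
    show v1 x + v2 x = _
    rw [e1 x n1, e2 x n2, abs_of_nonpos (by linarith [hb1.1]),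
      abs_of_nonpos (by linarith [hb2.1]), ← key x]
    ring
  · have n1 : x ∉ Ioo p ((2 * p + q) / 3) := fun h => by linarith [h.2]
    have n2 : x ∉ Ioo ((p + 2 * q) / 3) q := fun h => absurd h.2 (not_lt.2 hx)
    show v1 x + v2 x = _
    rw [e1 x n1, e2 x n2, abs_of_nonneg (by linarith [hb1.2]),
      abs_of_nonneg (by linarith [hb2.2]), ← key x]

theorem Mom_shear_im (v : ℝ → ℝ) (a b x y : ℝ) :
    (shear v a b ⟨x, y⟩).im = v x * ramp a b y := by
  simp [shear]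

theorem Str.shear_T (h : Str Ω lam u l r) {v : ℝ → ℝ} {K : NNReal} (hv : LipschitzWith K v)
    {x₀ x₁ a b : ℝ} (hab : a < b) (h0 : ∀ x, x ∉ Icc x₀ x₁ → v x = 0)
    (hr : ∀ x ∈ Icc x₀ x₁, ∀ y ∈ Icc a b, (⟨x, y⟩ : ℂ) ∈ Ω) (ha : Adm Ω v) :
    ∫ x in l Real.pi..r Real.pi, (gT Ω u x ^ 2 - 1) * v x ≤ 0 := by
  rcases lt_or_ge x₁ x₀ with hx | hx
  · have hz : ∀ x, v x = 0 := fun x => h0 x fun hh => absurd (hh.1.trans hh.2) (not_le.2 hx)
    simp [hz]
  · have h1 : 0 < a := ((h.mem _).1 (hr x₀ ⟨le_rfl, hx⟩ a ⟨le_rfl, hab.le⟩)).1.1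
    have h2 : b < Real.pi := ((h.mem _).1 (hr x₀ ⟨le_rfl, hx⟩ b ⟨hab.le, le_rfl⟩)).1.2
    have h3 := h.toMn.shear_le hv hab h0 hr ha
    obtain ⟨K', hK⟩ := lipschitz_shear hv hab h0
    rw [h.LL_seg hK.locallyLipschitz] at h3
    simp only [Mom_shear_im, Top_ramp_lo hab h1.le, Top_ramp_hi hab h2.le, mul_zero, mul_one,
      intervalIntegral.integral_zero] at h3
    linarith

theorem Mom_key (h : Str Ω lam u l r) (α β : ℝ) {s c : ℝ} (hs : 0 ≤ s)
    (hc : c ∈ Icc (l Real.pi) (r Real.pi)) :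
    ∫ x in l Real.pi..r Real.pi, (gT Ω u x ^ 2 - 1) * (α + β * x - s * max (x - c) 0) ≤ 0 := by
  have hD : Dom Ω := h.toGeo.dom
  obtain ⟨a, b, δ, ha, hab, hb, hδ, H⟩ := h.toGeo.over_top h.toMn.noCorner
  have hLR : l Real.pi < r Real.pi := h.htop
  have hr : ∀ x ∈ Icc (l Real.pi - δ) (r Real.pi + δ), ∀ y ∈ Icc a b, (⟨x, y⟩ : ℂ) ∈ Ω := by
    intro x hx y hy
    have := H y hy
    exact (h.mem _).2 ⟨⟨lt_of_lt_of_le ha hy.1, lt_of_le_of_lt hy.2 hb⟩,
      lt_of_lt_of_le this.1 hx.1, lt_of_le_of_lt hx.2 this.2⟩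
  have hp : Icc (l Real.pi - δ) (r Real.pi + δ) ⊆ proj Ω := fun x hx =>
    Top_mem_proj (hr x hx a ⟨le_rfl, hab.le⟩)
  have he : ∀ x ∈ Icc (l Real.pi - δ) (r Real.pi + δ), x ∉ Icc (l Real.pi) (r Real.pi) →
      Ext Ω ⟨x, top Ω x⟩ := by
    intro x hx hn
    have h1 := (h.toGeo.mem_frontier _).1 (hD.top_frontier (hp hx))
    have h2 : a < top Ω x := Top_lt hD (hr x hx a ⟨le_rfl, hab.le⟩)
    refine (h.toGeo.ext_iff _).2 ⟨h1.1, ?_⟩
    rcases h1.2.2 with h3 | h3 | h3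
    · have h4 : top Ω x = 0 := h3
      linarith
    · have h4 : top Ω x = Real.pi := h3
      have h5 : x ∈ Icc (l (top Ω x)) (r (top Ω x)) := h1.2.1
      rw [h4] at h5
      exact absurd h5 hn
    · exact h3
  obtain ⟨v1, K1, l1, a1, e1, e1'⟩ := Mom_pair hD (p := l Real.pi - δ) (q := l Real.pi)
    (by linarith) ((Icc_subset_Icc le_rfl (by linarith)).trans hp)
    (fun x hx => he x ⟨hx.1.le, by linarith [hx.2]⟩ fun h => absurd hx.2 (not_lt.2 h.1))
    (α / 2) (β / 2)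
  obtain ⟨v2, K2, l2, a2, e2, e2'⟩ := Mom_pair hD (p := r Real.pi) (q := r Real.pi + δ)
    (by linarith) ((Icc_subset_Icc (by linarith) le_rfl).trans hp)
    (fun x hx => he x ⟨by linarith [hx.1], hx.2.le⟩ fun h => absurd hx.1 (not_lt.2 h.2))
    (-(s / 2 * c) - α / 2) (s / 2 - β / 2)
  have hs2 : 0 ≤ s / 2 := by linarith
  have c3 : ConcaveOn ℝ univ fun x : ℝ => -(s / 2 * dist x c) :=
    ((convexOn_univ_dist c).smul hs2).neg
  have l3 : LipschitzWith ‖s / 2‖₊ fun x : ℝ => -(s / 2 * dist x c) := by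
    refine LipschitzWith.of_dist_le_mul fun x y => ?_
    rw [dist_neg_neg, Real.dist_eq, ← mul_sub, abs_mul, coe_nnnorm, Real.norm_eq_abs]
    exact mul_le_mul_of_nonneg_left (abs_dist_sub_le x y c) (abs_nonneg _)
  have h0 : ∀ x, x ∉ Icc (l Real.pi - δ) (r Real.pi + δ) →
      v1 x + v2 x + -(s / 2 * dist x c) = 0 := by
    intro x hx
    rcases lt_or_ge x (l Real.pi - δ) with h1 | h1
    · rw [e1 x h1.le, e2 x (by linarith), Real.dist_eq, abs_of_nonpos (by linarith [hc.1])]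
      ring
    · have h2 : r Real.pi + δ < x := by
        by_contra h3
        exact hx ⟨h1, not_lt.1 h3⟩
      rw [e1' x (by linarith), e2' x h2.le, Real.dist_eq, abs_of_nonneg (by linarith [hc.2])]
      ring
  have main := h.shear_T (v := fun x => v1 x + v2 x + -(s / 2 * dist x c)) ((l1.add l2).add l3)
    hab h0 hr ((a1.add a2).add (adm_of_concave hD.concaveOn_top c3))
  refine le_of_eq_of_le (intervalIntegral.integral_congr fun x hx => ?_) main
  rw [uIcc_of_le hLR.le] at hx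
  show _ = (gT Ω u x ^ 2 - 1) * (v1 x + v2 x + -(s / 2 * dist x c))
  rw [e1' x hx.1, e2 x hx.2, Real.dist_eq]
  rcases le_total x c with h1 | h1
  · rw [abs_of_nonpos (by linarith), max_eq_right (by linarith)]
    ring
  · rw [abs_of_nonneg (by linarith), max_eq_left (by linarith)]
    ring

theorem Str.momT (h : Str Ω lam u l r) (α β : ℝ) :
    ∫ x in l Real.pi..r Real.pi, (gT Ω u x ^ 2 - 1) * (α + β * x) = 0 := by
  have hc : l Real.pi ∈ Icc (l Real.pi) (r Real.pi) := ⟨le_rfl, h.htop.le⟩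
  have h1 := Mom_key h α β le_rfl hc
  have h2 := Mom_key h (-α) (-β) le_rfl hc
  have e : ∀ x, (gT Ω u x ^ 2 - 1) * (-α + -β * x - 0 * max (x - l Real.pi) 0) =
      -((gT Ω u x ^ 2 - 1) * (α + β * x)) := fun x => by ring
  simp only [e, intervalIntegral.integral_neg] at h2
  simp only [zero_mul, sub_zero] at h1
  linarith

theorem Str.wT (h : Str Ω lam u l r) {c : ℝ} (hc : c ∈ Icc (l Real.pi) (r Real.pi)) :
    0 ≤ ∫ x in c..r Real.pi, (gT Ω u x ^ 2 - 1) * (x - c) := by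
  have h1 := Mom_key h 0 0 zero_le_one hc
  have hF : ContinuousOn (fun x => (gT Ω u x ^ 2 - 1) * (0 + 0 * x - 1 * max (x - c) 0))
      (Icc (l Real.pi) (r Real.pi)) :=
    ((h.continuousOn_gT.pow 2).sub continuousOn_const).mul (by fun_prop)
  have i1 := (hF.mono (t := uIcc (l Real.pi) c) (by
    rw [uIcc_of_le hc.1]
    exact Icc_subset_Icc le_rfl hc.2)).intervalIntegrable (μ := volume)
  have i2 := (hF.mono (t := uIcc c (r Real.pi)) (by
    rw [uIcc_of_le hc.2]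
    exact Icc_subset_Icc hc.1 le_rfl)).intervalIntegrable (μ := volume)
  rw [← intervalIntegral.integral_add_adjacent_intervals i1 i2] at h1
  have e1 : ∫ x in l Real.pi..c, (gT Ω u x ^ 2 - 1) * (0 + 0 * x - 1 * max (x - c) 0) =
      ∫ _ in l Real.pi..c, (0 : ℝ) := by
    refine intervalIntegral.integral_congr fun x hx => ?_
    rw [uIcc_of_le hc.1] at hx
    show (gT Ω u x ^ 2 - 1) * (0 + 0 * x - 1 * max (x - c) 0) = 0
    rw [max_eq_right (by linarith [hx.2])]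
    ring
  have e2 : ∫ x in c..r Real.pi, (gT Ω u x ^ 2 - 1) * (0 + 0 * x - 1 * max (x - c) 0) =
      ∫ x in c..r Real.pi, -((gT Ω u x ^ 2 - 1) * (x - c)) := by
    refine intervalIntegral.integral_congr fun x hx => ?_
    rw [uIcc_of_le hc.2] at hx
    show (gT Ω u x ^ 2 - 1) * (0 + 0 * x - 1 * max (x - c) 0) = -((gT Ω u x ^ 2 - 1) * (x - c))
    rw [max_eq_left (by linarith [hx.1])]
    ring
  rw [e1, e2, intervalIntegral.integral_zero, intervalIntegral.integral_neg] at h1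
  linarith

theorem Str.momB (h : Str Ω lam u l r) (α β : ℝ) :
    ∫ x in l 0..r 0, (gB Ω u x ^ 2 - 1) * (α + β * x) = 0 := by
  have h1 := h.flipY.momT α β
  simp only [sub_self] at h1
  refine Eq.trans (intervalIntegral.integral_congr fun x hx => ?_) h1
  rw [uIcc_of_le h.hbot.le] at hx
  simp only [h.gT_flipY hx]

theorem Str.wB (h : Str Ω lam u l r) {c : ℝ} (hc : c ∈ Icc (l 0) (r 0)) :
    0 ≤ ∫ x in c..r 0, (gB Ω u x ^ 2 - 1) * (x - c) := by
  have h1 := h.flipY.wT (c := c) (by simpa only [sub_self] using hc)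
  simp only [sub_self] at h1
  refine le_of_le_of_eq h1 (intervalIntegral.integral_congr fun x hx => ?_)
  rw [uIcc_of_le hc.2] at hx
  simp only [h.gT_flipY ⟨hc.1.trans hx.1, hx.2⟩]

theorem Mom_cont (h : Str Ω lam u l r) : ContinuousOn
    (fun z => (Gr Ω u z).im ^ 2 - (Gr Ω u z).re ^ 2 + lam * u z ^ 2 - 1) (closure Ω) := by
  have h1 := h.toMn.continuousOn_Gr
  have h2 : ContinuousOn u (closure Ω) := h.toMn.lip.continuous.continuousOn
  exact ((((Complex.continuous_im.comp_continuousOn h1).pow 2).sub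
    ((Complex.continuous_re.comp_continuousOn h1).pow 2)).add
      (continuousOn_const.mul (h2.pow 2))).sub continuousOn_const

theorem Mom_band (h : Str Ω lam u l r) {a b : ℝ} (ha : 0 ≤ a) (hab : a < b) (hb : b ≤ Real.pi) :
    ∫ y in a..b, ∫ x in l y..r y, ((Gr Ω u ⟨x, y⟩).im ^ 2 - (Gr Ω u ⟨x, y⟩).re ^ 2 +
      lam * u ⟨x, y⟩ ^ 2 - 1) = 0 := by
  have hD : Dom Ω := h.toGeo.dom
  have hi : IntegrableOn
      (fun z => (Gr Ω u z).im ^ 2 - (Gr Ω u z).re ^ 2 + lam * u z ^ 2 - 1) Ω :=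
    ((Mom_cont h).integrableOn_compact hD.bdd.isCompact_closure).mono_set subset_closure
  rw [← h.toGeo.integral_band hi ha hab.le hb]
  have hba : 0 < (b - a)⁻¹ := inv_pos.2 (sub_pos.2 hab)
  have hL : LipschitzWith ‖(b - a)⁻¹‖₊ (shear (fun _ => 1) a b) := by
    refine LipschitzWith.of_dist_le_mul fun z w => ?_
    rw [dist_eq_norm, dist_eq_norm, shear, shear, ← sub_mul, norm_mul, Complex.norm_I, mul_one,
      ← Complex.ofReal_sub, Complex.norm_real, Real.norm_eq_abs, one_mul, one_mul, coe_nnnorm,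
      Real.norm_eq_abs, abs_of_pos hba]
    refine (Shear_ramp_lip hab _ _).trans (mul_le_mul_of_nonneg_left ?_ hba.le)
    rw [← Complex.sub_im]
    exact Complex.abs_im_le_norm _
  have h1 := h.LL_seg hL.locallyLipschitz
  have h2 := h.momT 1 0
  simp only [Mom_shear_im, Top_ramp_lo hab ha, Top_ramp_hi hab hb, mul_zero,
    intervalIntegral.integral_zero] at h1
  simp only [zero_mul, add_zero] at h2
  simp only [mul_one] at h1 h2
  rw [h2] at h1
  have hm : MeasurableSet {z : ℂ | a < z.im ∧ z.im < b} :=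
    Complex.measurable_im measurableSet_Ioo
  have h3 : LL lam Ω u (shear (fun _ => 1) a b) = (b - a)⁻¹ / 2 *
      ∫ z in Ω ∩ {z : ℂ | a < z.im ∧ z.im < b},
        ((Gr Ω u z).im ^ 2 - (Gr Ω u z).re ^ 2 + lam * u z ^ 2 - 1) := by
    rw [← integral_const_mul, ← setIntegral_indicator hm, LL]
    refine setIntegral_congr_ae hD.isOpen.measurableSet ?_
    filter_upwards [st_shear (lam := lam) (u := u) (LipschitzWith.const' (K := 0) (1 : ℝ)) hab]
      with z hz hzΩ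
    rw [hz, deriv_const]
    by_cases hh : a < z.im ∧ z.im < b
    · rw [indicator_of_mem (show z.im ∈ Ioo a b from hh),
        indicator_of_mem (show z ∈ {z : ℂ | a < z.im ∧ z.im < b} from hh), h.toMn.Gr_eq hzΩ]
      ring
    · rw [indicator_of_notMem (show z.im ∉ Ioo a b from hh),
        indicator_of_notMem (show z ∉ {z : ℂ | a < z.im ∧ z.im < b} from hh)]
      ring
  rw [h3] at h1
  have h4 : (b - a)⁻¹ / 2 ≠ 0 := by positivity
  have h5 : (0 : ℝ) / 2 - 0 / 2 = 0 := by norm_num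
  rw [h5] at h1
  exact (mul_eq_zero.1 h1).resolve_left h4

theorem Mom_slice (h : Str Ω lam u l r) {y : ℝ} (hy : y ∈ Ioo 0 Real.pi) :
    ∫ x in l y..r y, ((Gr Ω u ⟨x, y⟩).im ^ 2 - (Gr Ω u ⟨x, y⟩).re ^ 2 +
      lam * u ⟨x, y⟩ ^ 2 - 1) = 0 := by
  have hS := h.toGeo.continuousOn_slice (Mom_cont h)
  have hS' := hS.mono Ioo_subset_Icc_self
  have hi := (hS.mono (t := uIcc 0 y) (by
    rw [uIcc_of_le hy.1.le]
    exact Icc_subset_Icc le_rfl hy.2.le)).intervalIntegrable (μ := volume)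
  have h1 := intervalIntegral.integral_hasDerivAt_right hi
    (hS'.stronglyMeasurableAtFilter isOpen_Ioo y hy) (hS'.continuousAt (isOpen_Ioo.mem_nhds hy))
  have h2 := (hasDerivAt_const y (0 : ℝ)).congr_of_eventuallyEq
    (Filter.eventuallyEq_of_mem (isOpen_Ioo.mem_nhds hy)
      fun b hb => Mom_band h le_rfl hb.1 hb.2.le)
  exact h1.unique h2

theorem Str.chordH (h : Str Ω lam u l r) {y : ℝ} (hy : y ∈ Ioo 0 Real.pi) :
    ∫ x in l y..r y, ((grad u ⟨x, y⟩).im ^ 2 - (grad u ⟨x, y⟩).re ^ 2 + lam * u ⟨x, y⟩ ^ 2) =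
      r y - l y := by
  have hlr : l y < r y := h.toGeo.lt ⟨hy.1.le, hy.2.le⟩
  have h1 := Mom_slice h hy
  have hc : ContinuousOn (fun x : ℝ => (Gr Ω u ⟨x, y⟩).im ^ 2 - (Gr Ω u ⟨x, y⟩).re ^ 2 +
      lam * u ⟨x, y⟩ ^ 2 - 1) (uIcc (l y) (r y)) := by
    refine (Mom_cont h).comp (Top_cont' y).continuousOn fun x hx => ?_
    rw [uIcc_of_le hlr.le] at hx
    exact (h.toGeo.mem_closure _).2 ⟨⟨hy.1.le, hy.2.le⟩, hx⟩
  have h2 := intervalIntegral.integral_add (hc.intervalIntegrable (μ := volume))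
    (intervalIntegrable_const (c := (1 : ℝ)))
  rw [h1, intervalIntegral.integral_const, smul_eq_mul, mul_one, zero_add] at h2
  refine Eq.trans (intervalIntegral.integral_congr_Ioo_of_le hlr.le fun x hx => ?_) h2
  have hz : (⟨x, y⟩ : ℂ) ∈ Ω := (h.mem _).2 ⟨hy, hx⟩
  simp only [h.toMn.Gr_eq hz]
  ring

end Pool.Agent.L2K
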