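import Pool.Agent.P.MP_2f6447_an.K.Zero
import Pool.Agent.P.MP_2f6447_an.K.Mom

/-! The two arcs have opposite signs. -/

open Set MeasureTheory Filter Topology Complex Metric
open scoped ContDiff ComplexConjugate

namespace Pool.Agent.L2K

variable {Ω U : Set ℂ} {lam : ℝ} {u w f g : ℂ → ℝ}
variable {l r : ℝ → ℝ} {nT nB n φ : ℝ}

theorem dip {G : ℝ → ℝ} {a b : ℝ} (hab : a < b) (hc : ContinuousOn G (Icc a b))
    (hd : DifferentiableOn ℝ G (Ioo a b)) (ha : G a = 1) (hb : G b = 1)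
    (hi : ∫ x in a..b, (G x ^ 2 - 1) = 0) (hn : ∃ x ∈ Ioo a b, deriv G x ≠ 0) :
    ∃ s t, s < t ∧ s ∈ Ioo a b ∧ t ∈ Ioo a b ∧ deriv G s < 0 ∧ 0 < deriv G t := by
  by_cases h1 : ∃ c ∈ Ioo a b, G c < 1
  · obtain ⟨c, hcm, hc1⟩ := h1
    obtain ⟨s, hs, hs'⟩ := exists_deriv_eq_slope G hcm.1
      (hc.mono (Icc_subset_Icc_right hcm.2.le)) (hd.mono (Ioo_subset_Ioo_right hcm.2.le))
    obtain ⟨t, ht, ht'⟩ := exists_deriv_eq_slope G hcm.2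
      (hc.mono (Icc_subset_Icc_left hcm.1.le)) (hd.mono (Ioo_subset_Ioo_left hcm.1.le))
    refine ⟨s, t, hs.2.trans ht.1, ⟨hs.1, hs.2.trans hcm.2⟩, ⟨hcm.1.trans ht.1, ht.2⟩, ?_, ?_⟩
    · rw [hs', ha]
      exact div_neg_of_neg_of_pos (by linarith) (by linarith [hcm.1])
    · rw [ht', hb]
      exact div_pos (by linarith) (by linarith [hcm.2])
  · exfalso
    have h2 : ∀ c ∈ Ioo a b, 1 ≤ G c := fun c hcm => not_lt.1 fun hlt => h1 ⟨c, hcm, hlt⟩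
    have h3 : ∀ c ∈ Ioc a b, 1 ≤ G c := by
      intro c hcm
      rcases eq_or_lt_of_le hcm.2 with e | e
      · rw [e, hb]
      · exact h2 c ⟨hcm.1, e⟩
    have h4 : ∀ c ∈ Ioo a b, G c = 1 := by
      intro c hcm
      by_contra hne
      have hgt : 1 < G c := lt_of_le_of_ne (h2 c hcm) (Ne.symm hne)
      have hpos : 0 < ∫ x in a..b, (G x ^ 2 - 1) :=
        intervalIntegral.integral_pos hab ((hc.pow 2).sub continuousOn_const)
          (fun x hx => by have := h3 x hx; nlinarith) ⟨c, Ioo_subset_Icc_self hcm, by nlinarith⟩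
      exact hpos.ne' hi
    obtain ⟨x, hx, hx0⟩ := hn
    have h5 : G =ᶠ[𝓝 x] fun _ => (1 : ℝ) := by
      filter_upwards [isOpen_Ioo.mem_nhds hx] with y hy using h4 y hy
    exact hx0 (by rw [h5.deriv_eq]; exact deriv_const x 1)

theorem PatA_sub (σ : ℝ) (z : ℂ) : cx Ω u σ z ⊆ ux Ω u σ := connectedComponentIn_subset _ _

theorem PatA_disj0 (z x : ℂ) : Disjoint (cx Ω u (-1) z) (cx Ω u 1 x) := by
  rw [Set.disjoint_left]
  intro p h1 h2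
  have a1 := (PatA_sub _ _ h1).2
  have a2 := (PatA_sub _ _ h2).2
  linarith

theorem PatA_disj {z x p q p' q' : ℂ} (hp : p ∉ Ω) (hq : q ∉ Ω) (hp' : p' ∉ Ω) (hq' : q' ∉ Ω)
    (h1 : p ≠ p') (h2 : p ≠ q') (h3 : q ≠ p') (h4 : q ≠ q') :
    ¬ (insert p (insert q (cx Ω u (-1) z)) ∩ insert p' (insert q' (cx Ω u 1 x))).Nonempty := by
  rintro ⟨t, ht, ht'⟩
  simp only [mem_insert_iff] at ht ht'
  rcases ht with e | e | e
  · subst e
    rcases ht' with e' | e' | e'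
    · exact h1 e'
    · exact h2 e'
    · exact hp (PatA_sub _ _ e').1
  · subst e
    rcases ht' with e' | e' | e'
    · exact h3 e'
    · exact h4 e'
    · exact hq (PatA_sub _ _ e').1
  · rcases ht' with e' | e' | e'
    · exact hp' (e' ▸ (PatA_sub _ _ e).1)
    · exact hq' (e' ▸ (PatA_sub _ _ e).1)
    · exact Set.disjoint_left.1 (PatA_disj0 z x) e e'

theorem PatA_eq {σ : ℝ} {z x : ℂ} (h : ¬ Disjoint (cx Ω u σ z) (cx Ω u σ x)) :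
    cx Ω u σ z = cx Ω u σ x := by
  rw [Set.not_disjoint_iff] at h
  obtain ⟨p, h1, h2⟩ := h
  exact (connectedComponentIn_eq h1).trans (connectedComponentIn_eq h2).symm

theorem PatA_ne_re {a b c d : ℝ} (h : a ≠ c) : (⟨a, b⟩ : ℂ) ≠ ⟨c, d⟩ :=
  fun e => h (congrArg Complex.re e)

theorem PatA_ne_im {a b c d : ℝ} (h : b ≠ d) : (⟨a, b⟩ : ℂ) ≠ ⟨c, d⟩ :=
  fun e => h (congrArg Complex.im e)

theorem PatA_ne_arc (h : Geo Ω l r) {y y' : ℝ} (hy : y ∈ Ioo 0 Real.pi) :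
    (⟨r y, y⟩ : ℂ) ≠ ⟨l y', y'⟩ := by
  intro e
  have e1 : r y = l y' := congrArg Complex.re e
  have e2 : y = y' := congrArg Complex.im e
  subst e2
  exact (h.lt (Ioo_subset_Icc_self hy)).ne' e1

theorem PatA_right (h : Str Ω lam u l r)
    (hL : ∀ y ∈ Icc 0 Real.pi, Gr Ω u ⟨l y, y⟩ = -nu Ω ⟨l y, y⟩) {z : ℂ}
    (hz : z ∈ ux Ω u (-1)) (hn : ¬ ZD Ω u (-1) z) : ∃ y ∈ Ioo 0 Real.pi,
      ∃ ρ : ℝ, 0 < ρ ∧ Ω ∩ ball (⟨r y, y⟩ : ℂ) ρ ⊆ cx Ω u (-1) z := by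
  rcases h.cx_alt hz with h1 | ⟨p, ⟨hp1, hp2⟩, hs, hρ⟩
  · exact absurd h1 hn
  · rcases hp2 with e | e
    · exfalso
      have e1 : p = ⟨l p.im, p.im⟩ := Complex.ext e rfl
      have e2 := hL p.im (Ioo_subset_Icc_self hp1)
      have e3 := h.toGeo.nu_left hp1
      rw [← e1] at e2 e3
      rw [e2, Complex.neg_re] at hs
      linarith
    · have e1 : p = ⟨r p.im, p.im⟩ := Complex.ext e rfl
      refine ⟨p.im, hp1, ?_⟩
      rw [← e1]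
      exact hρ

theorem PatA_left (h : Str Ω lam u l r)
    (hR : ∀ y ∈ Icc 0 Real.pi, Gr Ω u ⟨r y, y⟩ = -nu Ω ⟨r y, y⟩) {z : ℂ}
    (hz : z ∈ ux Ω u 1) (hn : ¬ ZD Ω u 1 z) : ∃ y ∈ Ioo 0 Real.pi,
      ∃ ρ : ℝ, 0 < ρ ∧ Ω ∩ ball (⟨l y, y⟩ : ℂ) ρ ⊆ cx Ω u 1 z := by
  rcases h.cx_alt hz with h1 | ⟨p, ⟨hp1, hp2⟩, hs, hρ⟩
  · exact absurd h1 hn
  · rcases hp2 with e | e
    · have e1 : p = ⟨l p.im, p.im⟩ := Complex.ext e rfl
      refine ⟨p.im, hp1, ?_⟩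
      rw [← e1]
      exact hρ
    · exfalso
      have e1 : p = ⟨r p.im, p.im⟩ := Complex.ext e rfl
      have e2 := hR p.im (Ioo_subset_Icc_self hp1)
      have e3 := h.toGeo.nu_right hp1
      rw [← e1] at e2 e3
      rw [e2, Complex.neg_re] at hs
      linarith

theorem Str.not_same (h : Str Ω lam u l r)
    (hL : ∀ y ∈ Icc 0 Real.pi, Gr Ω u ⟨l y, y⟩ = -nu Ω ⟨l y, y⟩)
    (hR : ∀ y ∈ Icc 0 Real.pi, Gr Ω u ⟨r y, y⟩ = -nu Ω ⟨r y, y⟩) : False := by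
  have hG : Geo Ω l r := h.toGeo
  have hD : Dom Ω := hG.dom
  have hc : NoCorner Ω := h.toMn.noCorner
  have hpi : Real.pi ∈ Icc 0 Real.pi := ⟨Real.pi_pos.le, le_rfl⟩
  have h0 : (0 : ℝ) ∈ Icc 0 Real.pi := ⟨le_rfl, Real.pi_pos.le⟩
  have t1 : gT Ω u (l Real.pi) = 1 := by
    rw [gT, hL _ hpi, hG.nu_top hc ⟨le_rfl, hG.htop.le⟩]; simp
  have t2 : gT Ω u (r Real.pi) = 1 := by
    rw [gT, hR _ hpi, hG.nu_top hc ⟨hG.htop.le, le_rfl⟩]; simp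
  have b1 : gB Ω u (l 0) = 1 := by
    rw [gB, hL _ h0, hG.nu_bot hc ⟨le_rfl, hG.hbot.le⟩]; simp
  have b2 : gB Ω u (r 0) = 1 := by
    rw [gB, hR _ h0, hG.nu_bot hc ⟨hG.hbot.le, le_rfl⟩]; simp
  have mT : ∫ x in l Real.pi..r Real.pi, (gT Ω u x ^ 2 - 1) = 0 := by
    have := h.momT 1 0
    simpa only [zero_mul, add_zero, mul_one] using this
  have mB : ∫ x in l 0..r 0, (gB Ω u x ^ 2 - 1) = 0 := by
    have := h.momB 1 0
    simpa only [zero_mul, add_zero, mul_one] using this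
  obtain ⟨a, b, hab, ha, hb, da, db⟩ := dip hG.htop h.continuousOn_gT
    (h.contDiffOn_gT.differentiableOn (by simp)) t1 t2 mT (h.gT_not_const hG.htop le_rfl le_rfl)
  obtain ⟨a', b', hab', ha', hb', da', db'⟩ := dip hG.hbot h.continuousOn_gB
    (h.contDiffOn_gB.differentiableOn (by simp)) b1 b2 mB (h.gB_not_const hG.hbot le_rfl le_rfl)
  obtain ⟨z2, hz2, k2⟩ := h.cx_top (σ := -1) ha (by linarith)
  obtain ⟨z3, hz3, k3⟩ := h.cx_top (σ := 1) hb (by linarith)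
  obtain ⟨x2, hx2, j2⟩ := h.cx_bot (σ := -1) ha' (by linarith)
  obtain ⟨x3, hx3, j3⟩ := h.cx_bot (σ := 1) hb' (by linarith)
  have fa := hG.top_mem (Ioo_subset_Icc_self ha)
  have fb := hG.top_mem (Ioo_subset_Icc_self hb)
  have fa' := hG.bot_mem (Ioo_subset_Icc_self ha')
  have fb' := hG.bot_mem (Ioo_subset_Icc_self hb')
  have cl : ∀ {p : ℂ}, p ∈ frontier Ω → p ∈ closure Ω := fun hp => frontier_subset_closure hp
  have no : ∀ {p : ℂ}, p ∈ frontier Ω → p ∉ Ω := fun hp => hD.notMem_of_frontier hp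
  have mix : ∀ {z x : ℂ}, z ∈ ux Ω u (-1) → x ∈ ux Ω u 1 → ZD Ω u (-1) z → ¬ ZD Ω u 1 x :=
    fun hz hx h1 h2 => h.zd_unique hz hx h1 h2 (PatA_disj0 _ _)
  have top : ZD Ω u (-1) z2 ∨ ZD Ω u 1 z3 := by
    by_contra hcon
    rw [not_or] at hcon
    obtain ⟨y, hy, ky⟩ := PatA_right h hL hz2 hcon.1
    obtain ⟨y', hy', ky'⟩ := PatA_left h hR hz3 hcon.2
    have fy := hG.right_mem (Ioo_subset_Icc_self hy)
    have fy' := hG.left_mem (Ioo_subset_Icc_self hy')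
    obtain ⟨pS, sS⟩ := h.cx_path hz2 (cl fa) (cl fy) k2 ky
    obtain ⟨pT, sT⟩ := h.cx_path hz3 (cl fb) (cl fy') k3 ky'
    exact PatA_disj (no fa) (no fy) (no fb) (no fy') (PatA_ne_re hab.ne) (PatA_ne_im hy'.2.ne')
      (PatA_ne_im hy.2.ne) (PatA_ne_arc hG hy)
      (hG.cl_RL pS pT sS sT hab (mem_insert _ _) (mem_insert _ _) hy hy'
        (mem_insert_of_mem _ (mem_insert _ _)) (mem_insert_of_mem _ (mem_insert _ _)))
  have bot : ZD Ω u (-1) x2 ∨ ZD Ω u 1 x3 := by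
    by_contra hcon
    rw [not_or] at hcon
    obtain ⟨y, hy, ky⟩ := PatA_right h hL hx2 hcon.1
    obtain ⟨y', hy', ky'⟩ := PatA_left h hR hx3 hcon.2
    have fy := hG.right_mem (Ioo_subset_Icc_self hy)
    have fy' := hG.left_mem (Ioo_subset_Icc_self hy')
    obtain ⟨pS, sS⟩ := h.cx_path hx2 (cl fa') (cl fy) j2 ky
    obtain ⟨pT, sT⟩ := h.cx_path hx3 (cl fb') (cl fy') j3 ky'
    exact PatA_disj (no fa') (no fy) (no fb') (no fy') (PatA_ne_re hab'.ne) (PatA_ne_im hy'.1.ne)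
      (PatA_ne_im hy.1.ne') (PatA_ne_arc hG hy)
      (hG.cl_RL' pS pT sS sT hab' (mem_insert _ _) (mem_insert _ _) hy hy'
        (mem_insert_of_mem _ (mem_insert _ _)) (mem_insert_of_mem _ (mem_insert _ _)))
  rcases top with zt | zt
  · have n3 : ¬ ZD Ω u 1 z3 := mix hz2 hz3 zt
    have zb : ZD Ω u (-1) x2 := bot.resolve_right (mix hz2 hx3 zt)
    have e : cx Ω u (-1) z2 = cx Ω u (-1) x2 := PatA_eq (h.zd_unique hz2 hx2 zt zb)
    rw [← e] at j2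
    obtain ⟨y, hy, ky⟩ := PatA_left h hR hz3 n3
    have fy := hG.left_mem (Ioo_subset_Icc_self hy)
    obtain ⟨pS, sS⟩ := h.cx_path hz2 (cl fa) (cl fa') k2 j2
    obtain ⟨pT, sT⟩ := h.cx_path hz3 (cl fb) (cl fy) k3 ky
    exact PatA_disj (no fa) (no fa') (no fb) (no fy) (PatA_ne_re hab.ne) (PatA_ne_im hy.2.ne')
      (PatA_ne_im Real.pi_pos.ne) (PatA_ne_im hy.1.ne)
      (hG.cl_BL pS pT sS sT hab (mem_insert _ _) (mem_insert _ _) hy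
        (mem_insert_of_mem _ (mem_insert _ _)) (mem_insert_of_mem _ (mem_insert _ _)))
  · have n2 : ¬ ZD Ω u (-1) z2 := fun h1 => mix hz2 hz3 h1 zt
    have zb : ZD Ω u 1 x3 := bot.resolve_left fun h1 => mix hx2 hz3 h1 zt
    have e : cx Ω u 1 z3 = cx Ω u 1 x3 := PatA_eq (h.zd_unique hz3 hx3 zt zb)
    rw [← e] at j3
    obtain ⟨y, hy, ky⟩ := PatA_right h hL hz2 n2
    have fy := hG.right_mem (Ioo_subset_Icc_self hy)
    obtain ⟨pS, sS⟩ := h.cx_path hz2 (cl fa) (cl fy) k2 ky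
    obtain ⟨pT, sT⟩ := h.cx_path hz3 (cl fb) (cl fb') k3 j3
    exact PatA_disj (no fa) (no fy) (no fb) (no fb') (PatA_ne_re hab.ne)
      (PatA_ne_im Real.pi_pos.ne') (PatA_ne_im hy.2.ne) (PatA_ne_im hy.1.ne')
      (hG.cl_RB pS pT sS sT hab (mem_insert _ _) (mem_insert _ _) hy
        (mem_insert_of_mem _ (mem_insert _ _)) (mem_insert_of_mem _ (mem_insert _ _)))

theorem PatA_pat (h : Str Ω lam u l r)
    (hL : ∀ y ∈ Icc 0 Real.pi, Gr Ω u ⟨l y, y⟩ = nu Ω ⟨l y, y⟩)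
    (hR : ∀ y ∈ Icc 0 Real.pi, Gr Ω u ⟨r y, y⟩ = -nu Ω ⟨r y, y⟩) :
    ∃ nT nB, Pat Ω lam u l r nT nB := by
  have hG : Geo Ω l r := h.toGeo
  have hc : NoCorner Ω := h.toMn.noCorner
  have hpi : Real.pi ∈ Icc 0 Real.pi := ⟨Real.pi_pos.le, le_rfl⟩
  have h0 : (0 : ℝ) ∈ Icc 0 Real.pi := ⟨le_rfl, Real.pi_pos.le⟩
  have t1 : gT Ω u (l Real.pi) = -1 := by
    rw [gT, hL _ hpi, hG.nu_top hc ⟨le_rfl, hG.htop.le⟩]; simp
  have t2 : gT Ω u (r Real.pi) = 1 := by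
    rw [gT, hR _ hpi, hG.nu_top hc ⟨hG.htop.le, le_rfl⟩]; simp
  have b1 : gB Ω u (l 0) = -1 := by
    rw [gB, hL _ h0, hG.nu_bot hc ⟨le_rfl, hG.hbot.le⟩]; simp
  have b2 : gB Ω u (r 0) = 1 := by
    rw [gB, hR _ h0, hG.nu_bot hc ⟨hG.hbot.le, le_rfl⟩]; simp
  obtain ⟨nT, hT, eT⟩ := intermediate_value_Ioo hG.htop.le h.continuousOn_gT
    (show (0 : ℝ) ∈ Ioo _ _ by rw [t1, t2]; constructor <;> norm_num)
  obtain ⟨nB, hB, eB⟩ := intermediate_value_Ioo hG.hbot.le h.continuousOn_gB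
    (show (0 : ℝ) ∈ Ioo _ _ by rw [b1, b2]; constructor <;> norm_num)
  exact ⟨nT, nB, { toStr := h, sgL := hL, sgR := hR, memT := hT, memB := hB, zT := eT, zB := eB }⟩

theorem Str.exists_pat (h : Str Ω lam u l r) : ∃ nT nB,
    Pat Ω lam u l r nT nB ∨ Pat Ω lam (fun z => -u z) l r nT nB := by
  have hG : Geo Ω l r := h.toGeo
  have nl : ∀ y ∈ Icc 0 Real.pi, Gr Ω (fun z => -u z) ⟨l y, y⟩ = -Gr Ω u ⟨l y, y⟩ :=
    fun y hy => h.toMn.Gr_neg (frontier_subset_closure (hG.left_mem hy))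
  have nr : ∀ y ∈ Icc 0 Real.pi, Gr Ω (fun z => -u z) ⟨r y, y⟩ = -Gr Ω u ⟨r y, y⟩ :=
    fun y hy => h.toMn.Gr_neg (frontier_subset_closure (hG.right_mem hy))
  rcases h.arcL with hL | hL <;> rcases h.arcR with hR | hR
  · exact (h.neg'.not_same (fun y hy => by rw [nl y hy, hL y hy])
      (fun y hy => by rw [nr y hy, hR y hy])).elim
  · obtain ⟨nT, nB, hp⟩ := PatA_pat h hL hR
    exact ⟨nT, nB, Or.inl hp⟩
  · obtain ⟨nT, nB, hp⟩ := PatA_pat h.neg' (fun y hy => by rw [nl y hy, hL y hy, neg_neg])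
      (fun y hy => by rw [nr y hy, hR y hy])
    exact ⟨nT, nB, Or.inr hp⟩
  · exact (h.not_same hL hR).elim

end Pool.Agent.L2K
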