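import Pool.Agent.P.MP_2f6447_an.K.Inv
import Pool.Agent.P.MP_2f6447_an.K.Defs2
import Pool.Agent.P.MP_2f6447_an.Frame

/-! Transfer between `ℂ` and the Euclidean plane. -/

open Set MeasureTheory Filter Topology Complex Metric
open scoped ContDiff ComplexConjugate

namespace Pool.Agent.L2K

variable {Ω U : Set ℂ} {lam : ℝ} {u w f g : ℂ → ℝ}

open Pool.Agent.P.MP_2f6447_an in
/-- the standard isometry from `ℂ` to the Euclidean plane -/
noncomputable def toE : ℂ ≃ₗᵢ[ℝ] E2 := Complex.orthonormalBasisOneI.repr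

open Pool.Agent.P.MP_2f6447_an

section General

variable {E F : Type*} [NormedAddCommGroup E] [InnerProductSpace ℝ E] [FiniteDimensional ℝ E]
  [MeasurableSpace E] [BorelSpace E] [NormedAddCommGroup F] [InnerProductSpace ℝ F]
  [FiniteDimensional ℝ F] [MeasurableSpace F] [BorelSpace F]

theorem Tr_integral (e : E ≃ₗᵢ[ℝ] F) (G : F → ℝ) : ∫ x, G (e x) = ∫ y, G y :=
  e.measurePreserving.integral_comp e.toHomeomorph.measurableEmbedding G

omit [FiniteDimensional ℝ E] [MeasurableSpace E] [BorelSpace E] [FiniteDimensional ℝ F]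
  [MeasurableSpace F] [BorelSpace F] in
theorem Tr_norm_fderiv (e : E ≃ₗᵢ[ℝ] F) (G : F → ℝ) (x : E) :
    ‖fderiv ℝ (fun y => G (e y)) x‖ = ‖fderiv ℝ G (e x)‖ := by
  have h1 := e.toContinuousLinearEquiv.comp_right_fderiv (f := G) (x := x)
  have h2 : (fun y => G (e y)) = G ∘ e.toContinuousLinearEquiv := rfl
  rw [h2, h1]
  exact ContinuousLinearMap.opNorm_comp_linearIsometryEquiv _ e

omit [FiniteDimensional ℝ E] [MeasurableSpace E] [BorelSpace E] [FiniteDimensional ℝ F]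
  [MeasurableSpace F] [BorelSpace F] in
theorem Tr_test (e : E ≃ₗᵢ[ℝ] F) {S : Set F} {G : F → ℝ} (h1 : ContDiff ℝ 1 G)
    (h2 : HasCompactSupport G) (h3 : tsupport G ⊆ S) :
    ContDiff ℝ 1 (fun y => G (e y)) ∧ HasCompactSupport (fun y => G (e y)) ∧
      tsupport (fun y => G (e y)) ⊆ e ⁻¹' S := by
  refine ⟨h1.comp e.toContinuousLinearEquiv.contDiff, h2.comp_homeomorph e.toHomeomorph, ?_⟩
  have h4 : tsupport (fun y => G (e y)) ⊆ e ⁻¹' tsupport G :=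
    closure_minimal (fun y hy => subset_tsupport G hy)
      ((isClosed_tsupport G).preimage e.continuous)
  exact h4.trans (preimage_mono h3)

omit [FiniteDimensional ℝ E] [MeasurableSpace E] [BorelSpace E] [FiniteDimensional ℝ F]
  [MeasurableSpace F] [BorelSpace F] in
theorem Tr_li (e : E ≃ₗᵢ[ℝ] F) {G H : F → ℝ} (h : LinearIndependent ℝ ![G, H]) :
    LinearIndependent ℝ ![fun y => G (e y), fun y => H (e y)] := by
  rw [LinearIndependent.pair_iff] at h ⊢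
  intro s t h0
  refine h s t (funext fun y => ?_)
  have h1 := congrFun h0 (e.symm y)
  simpa using h1

theorem Tr_ray (e : E ≃ₗᵢ[ℝ] F) {G H : F → ℝ} {r : ℝ}
    (h : ∀ a b : ℝ, (∫ x, ‖fderiv ℝ (fun y => a * G y + b * H y) x‖ ^ 2) ≤
      r * ∫ x, (a * G x + b * H x) ^ 2) (a b : ℝ) :
    (∫ x, ‖fderiv ℝ (fun y => a * G (e y) + b * H (e y)) x‖ ^ 2) ≤
      r * ∫ x, (a * G (e x) + b * H (e x)) ^ 2 := by
  have h1 : ∀ x, ‖fderiv ℝ (fun y => a * G (e y) + b * H (e y)) x‖ =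
      ‖fderiv ℝ (fun y => a * G y + b * H y) (e x)‖ :=
    fun x => Tr_norm_fderiv e (fun y => a * G y + b * H y) x
  simp_rw [h1]
  rw [Tr_integral e fun x => ‖fderiv ℝ (fun y => a * G y + b * H y) x‖ ^ 2,
    Tr_integral e fun x => (a * G x + b * H x) ^ 2]
  exact h a b

end General

theorem Tr_pre (S : Set ℂ) : toE ⁻¹' (toE.symm ⁻¹' S) = S := by
  ext z
  simp

theorem Tr_pre' (S : Set E2) : toE.symm ⁻¹' (toE ⁻¹' S) = S := by
  ext z
  simp

theorem RSc_toE (Ω₀ : Set E2) : RSc (toE ⁻¹' Ω₀) = RS Ω₀ := by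
  ext r
  constructor
  · rintro ⟨f, g, hf, hg, li, ray⟩
    obtain ⟨a1, a2, a3⟩ := Tr_test toE.symm hf.smooth hf.cpt hf.supp
    obtain ⟨b1, b2, b3⟩ := Tr_test toE.symm hg.smooth hg.cpt hg.supp
    rw [Tr_pre'] at a3 b3
    exact ⟨_, _, a1, b1, a2, b2, a3, b3, Tr_li toE.symm li, Tr_ray toE.symm ray⟩
  · rintro ⟨f, g, a1, b1, a2, b2, a3, b3, li, ray⟩
    obtain ⟨c1, c2, c3⟩ := Tr_test toE a1 a2 a3
    obtain ⟨d1, d2, d3⟩ := Tr_test toE b1 b2 b3
    exact ⟨_, _, ⟨c1, c2, c3⟩, ⟨d1, d2, d3⟩, Tr_li toE li, Tr_ray toE ray⟩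

theorem volume_toE (Ω₀ : Set E2) : volume (toE ⁻¹' Ω₀) = volume Ω₀ :=
  toE.measurePreserving.measure_preimage_emb toE.toHomeomorph.measurableEmbedding Ω₀

theorem Tr_rect (L ρ : ℝ) :
    volume {z : ℂ | z.re ∈ Ioo 0 L ∧ z.im ∈ Ioo (-ρ) ρ} =
      ENNReal.ofReal L * ENNReal.ofReal (2 * ρ) := by
  have h1 : {z : ℂ | z.re ∈ Ioo 0 L ∧ z.im ∈ Ioo (-ρ) ρ} =
      Complex.measurableEquivRealProd ⁻¹' (Ioo 0 L ×ˢ Ioo (-ρ) ρ) := by
    ext z
    simp
  rw [h1, Complex.volume_preserving_equiv_real_prod.measure_preimage_equiv, Measure.volume_eq_prod,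
    Measure.prod_prod, Real.volume_Ioo, Real.volume_Ioo, sub_zero]
  congr 2
  ring

theorem bounded_of_volume (ho : IsOpen Ω) (hc : Convex ℝ Ω) (hv : volume Ω ≠ ⊤) :
    Bornology.IsBounded Ω := by
  rcases Ω.eq_empty_or_nonempty with h | ⟨p, hp⟩
  · rw [h]; exact Bornology.isBounded_empty
  obtain ⟨ρ, hρ, hb⟩ := Metric.isOpen_iff.1 ho p hp
  have hA : 0 < area Ω := ENNReal.toReal_pos (ho.measure_pos volume ⟨p, hp⟩).ne' hv
  refine (Metric.isBounded_closedBall (x := p) (r := 2 * area Ω / ρ)).subset fun q hq => ?_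
  rw [mem_closedBall, dist_eq_norm]
  rcases eq_or_ne q p with h | h
  · rw [h, sub_self, norm_zero]; positivity
  have hL : 0 < ‖q - p‖ := norm_pos_iff.2 (sub_ne_zero.2 h)
  set L := ‖q - p‖ with hLd
  have hLc : (L : ℂ) ≠ 0 := by exact_mod_cast hL.ne'
  set a : ℂ := (q - p) / L with ha
  have na : ‖a‖ = 1 := by
    rw [ha, norm_div, Complex.norm_real, Real.norm_of_nonneg hL.le, div_self hL.ne']
  have a0 : a ≠ 0 := by rw [← norm_ne_zero_iff, na]; exact one_ne_zero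
  have h1 : area (sim p a ⁻¹' Ω) = area Ω := by
    rw [area_sim p a0 ho.measurableSet, na]; simp
  have h2 : volume (sim p a ⁻¹' Ω) ≠ ⊤ := by
    intro h3
    rw [area, h3, ENNReal.toReal_top] at h1
    exact hA.ne h1
  have h3 : {z : ℂ | z.re ∈ Ioo 0 (L / 2) ∧ z.im ∈ Ioo (-(ρ / 2)) (ρ / 2)} ⊆ sim p a ⁻¹' Ω := by
    rintro z ⟨⟨x0, x1⟩, y0, y1⟩
    set s := z.re / L with hs
    have s0 : 0 < s := div_pos x0 hL
    have s1 : s < 1 / 2 := by rw [hs, div_lt_iff₀ hL]; linarith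
    have s2 : (1 - s : ℝ) ≠ 0 := by linarith
    have s3 : (1 - (s : ℂ)) ≠ 0 := by exact_mod_cast s2
    have m1 : p + a * I * ((z.im / (1 - s) : ℝ) : ℂ) ∈ Ω := by
      refine hb ?_
      rw [mem_ball, dist_eq_norm, add_sub_cancel_left, norm_mul, norm_mul, na, norm_I,
        Complex.norm_real, one_mul, one_mul, Real.norm_eq_abs, abs_div,
        abs_of_pos (by linarith : (0 : ℝ) < 1 - s), div_lt_iff₀ (by linarith)]
      have : |z.im| < ρ / 2 := abs_lt.2 ⟨y0, y1⟩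
      nlinarith
    have m2 := hc m1 hq (by linarith : (0 : ℝ) ≤ 1 - s) s0.le (by ring)
    have e1 : sim p a z = (1 - s) • (p + a * I * ((z.im / (1 - s) : ℝ) : ℂ)) + s • q := by
      have e2 : q = p + a * L := by rw [ha]; field_simp; ring
      have e3 : z = (s : ℂ) * L + z.im * I := by
        have e4 : (s : ℂ) * L = z.re := by
          rw [hs]; push_cast; field_simp
        rw [e4, re_add_im]
      simp only [sim, real_smul]
      push_cast
      conv_lhs => rw [e3]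
      rw [e2]
      field_simp
      ring
    rw [mem_preimage, e1]
    exact m2
  have h4 := ENNReal.toReal_mono h2 (measure_mono h3)
  rw [Tr_rect, ENNReal.toReal_mul, ENNReal.toReal_ofReal (by positivity),
    ENNReal.toReal_ofReal (by positivity)] at h4
  have h5 : L / 2 * (2 * (ρ / 2)) ≤ area Ω := h1 ▸ h4
  rw [le_div_iff₀ hρ]
  linarith

theorem Tr_area_pos (h : Dom Ω) : 0 < area Ω :=
  ENNReal.toReal_pos (h.isOpen.measure_pos volume h.ne).ne' h.bdd.measure_lt_top.ne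

theorem isMin_toE {Ω₀ : Set E2} (ho : IsOpen Ω₀) (hc : Convex ℝ Ω₀) (hn : Ω₀.Nonempty)
    (hb : Bornology.IsBounded Ω₀)
    (hm : ∀ W : Set E2, IsOpen W → Convex ℝ W → volume W = volume Ω₀ → sInf (RS Ω₀) ≤ sInf (RS W)) :
    IsMin (toE ⁻¹' Ω₀) := by
  have hd : Dom (toE ⁻¹' Ω₀) :=
    ⟨ho.preimage toE.continuous, hc.linear_preimage toE.toLinearEquiv.toLinearMap,
      toE.isometry.antilipschitz.isBounded_preimage hb, hn.preimage toE.surjective⟩
  refine ⟨hd, fun Ω' k => ?_⟩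
  have p0 := Tr_area_pos hd
  have p1 := Tr_area_pos k
  set A0 := area (toE ⁻¹' Ω₀) with hA0
  set a : ℝ := Real.sqrt (area Ω' / A0) with ha
  have a0 : 0 < a := Real.sqrt_pos.2 (div_pos p1 p0)
  have a1 : (a : ℂ) ≠ 0 := by exact_mod_cast a0.ne'
  have a2 : ‖(a : ℂ)‖ ^ 2 = area Ω' / A0 := by
    rw [Complex.norm_real, Real.norm_of_nonneg a0.le, ha, Real.sq_sqrt (div_pos p1 p0).le]
  have k' := k.of_sim 0 a1
  have h1 : area (sim 0 a ⁻¹' Ω') = A0 := by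
    rw [area_sim 0 a1 k.isOpen.measurableSet, a2]
    field_simp
  have h2 : volume (toE.symm ⁻¹' (sim 0 a ⁻¹' Ω')) = volume Ω₀ := by
    rw [← volume_toE, ← volume_toE Ω₀, Tr_pre]
    exact (ENNReal.toReal_eq_toReal_iff' k'.bdd.measure_lt_top.ne hd.bdd.measure_lt_top.ne).1 h1
  have h3 := hm _ (k'.isOpen.preimage toE.symm.continuous)
    (k'.convex.linear_preimage toE.symm.toLinearEquiv.toLinearMap) h2
  rw [← RSc_toE, ← RSc_toE, Tr_pre] at h3
  have h4 : lam2c (toE ⁻¹' Ω₀) ≤ lam2c Ω' * (area Ω' / A0) := by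
    rw [← a2, ← lam2c_sim 0 a1]
    exact h3
  have h5 := mul_le_mul_of_nonneg_right h4 p0.le
  rwa [mul_assoc, div_mul_cancel₀ _ p0.ne'] at h5

theorem Tr_seg (p q : ℂ) (S : Set E2) :
    segment ℝ p q ⊆ toE ⁻¹' S ↔ segment ℝ (toE p) (toE q) ⊆ S := by
  constructor
  · rintro h _ ⟨s, t, hs, ht, e, rfl⟩
    have h1 := h ⟨s, t, hs, ht, e, rfl⟩
    rwa [mem_preimage, map_add, map_smul, map_smul] at h1
  · rintro h _ ⟨s, t, hs, ht, e, rfl⟩
    rw [mem_preimage, map_add, map_smul, map_smul]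
    exact h ⟨s, t, hs, ht, e, rfl⟩

theorem twoSeg_toE {Ω₀ : Set E2} (h : ∃ a b c d : E2, a ≠ b ∧ c ≠ d ∧
    segment ℝ a b ⊆ frontier Ω₀ ∧ segment ℝ c d ⊆ frontier Ω₀ ∧ (∀ t : ℝ, c - a ≠ t • (b - a)) ∧
    ∀ p q : E2, segment ℝ p q ⊆ frontier Ω₀ → ∃ t : ℝ, q - p = t • (b - a)) :
    TwoSeg (toE ⁻¹' Ω₀) := by
  obtain ⟨a, b, c, d, h1, h2, h3, h4, h5, h6⟩ := h
  obtain ⟨a, rfl⟩ := toE.surjective a
  obtain ⟨b, rfl⟩ := toE.surjective b
  obtain ⟨c, rfl⟩ := toE.surjective c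
  obtain ⟨d, rfl⟩ := toE.surjective d
  have hf : frontier (toE ⁻¹' Ω₀) = toE ⁻¹' frontier Ω₀ :=
    (toE.toHomeomorph.preimage_frontier Ω₀).symm
  refine ⟨a, b, c, d, fun e => h1 (congrArg _ e), fun e => h2 (congrArg _ e), ?_, ?_,
    fun t e => h5 t ?_, fun p q hpq => ?_⟩
  · rw [hf, Tr_seg]; exact h3
  · rw [hf, Tr_seg]; exact h4
  · rw [← map_sub, ← map_sub, ← map_smul, e, real_smul]
  · rw [hf, Tr_seg] at hpq
    obtain ⟨t, ht⟩ := h6 _ _ hpq
    refine ⟨t, toE.injective ?_⟩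
    rw [← real_smul, map_smul, map_sub, map_sub, ht]

theorem Tr_inner (a b : ℂ) : inner ℝ (toE a) (toE b) = dot a b := by
  rw [toE.inner_map_map, Complex.inner, dot]
  simp [mul_comm]

theorem axes_toE {Ω₀ : Set E2} (h : ∃ M m : ℂ, ‖m‖ = 1 ∧ ∀ z ∈ toE ⁻¹' Ω₀,
    rf M m z ∈ toE ⁻¹' Ω₀ ∧ rf M (I * m) z ∈ toE ⁻¹' Ω₀) :
    ∃ c e₁ e₂ : E2, ‖e₁‖ = 1 ∧ ‖e₂‖ = 1 ∧ inner ℝ e₁ e₂ = 0 ∧
      ∀ x ∈ Ω₀, c + ((2 * inner ℝ (x - c) e₁) • e₁ - (x - c)) ∈ Ω₀ ∧
        c + ((2 * inner ℝ (x - c) e₂) • e₂ - (x - c)) ∈ Ω₀ := by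
  obtain ⟨M, m, hm, h⟩ := h
  have m2 : m.re ^ 2 + m.im ^ 2 = 1 := by
    have h1 := Complex.sq_norm m
    rw [hm, normSq_apply] at h1
    linarith
  refine ⟨toE M, toE (I * m), toE m, by rw [toE.norm_map, norm_mul, norm_I, hm, one_mul],
    by rw [toE.norm_map, hm], by rw [Tr_inner]; simp [dot, mul_comm], fun x hx => ?_⟩
  obtain ⟨z, rfl⟩ := toE.surjective x
  obtain ⟨h1, h2⟩ := h z hx
  rw [← map_sub, Tr_inner, Tr_inner, ← map_smul, ← map_smul, ← map_sub, ← map_sub, ← map_add,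
    ← map_add]
  have e1 : M + ((2 * dot (z - M) (I * m)) • (I * m) - (z - M)) = rf M m z := by
    apply Complex.ext
    · simp [rf, dot]
      linear_combination (2 * (z.re - M.re)) * m2
    · simp [rf, dot]
      linear_combination (2 * (z.im - M.im)) * m2
  have e2 : M + ((2 * dot (z - M) m) • m - (z - M)) = rf M (I * m) z := by
    apply Complex.ext
    · simp [rf, dot]
      linear_combination (2 * (z.re - M.re)) * m2
    · simp [rf, dot]
      linear_combination (2 * (z.im - M.im)) * m2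
  rw [e1, e2]
  exact ⟨h1, h2⟩

end Pool.Agent.L2K
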