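import Pool.Agent.P.MP_2f6447_an.K.UD7
import Pool.Agent.P.MP_2f6447_an.K.LR4
import Pool.Agent.P.MP_2f6447_an.K.PatA
import Pool.Agent.P.MP_2f6447_an.K.Norm
import Pool.Agent.P.MP_2f6447_an.K.Tr

/-! Assembly. -/

open Set MeasureTheory Filter Topology Complex Metric
open scoped ContDiff ComplexConjugate

namespace Pool.Agent.L2K

variable {Ω U : Set ℂ} {lam : ℝ} {u w f g : ℂ → ℝ}
variable {l r : ℝ → ℝ} {nT nB n φ : ℝ}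

theorem sim_rf (p : ℂ) {a : ℂ} (ha : a ≠ 0) (M m z : ℂ) :
    sim p a (rf M m z) = rf (sim p a M) (a / ‖a‖ * m) (sim p a z) := by
  have h0 : ‖a‖ ≠ 0 := norm_ne_zero_iff.2 ha
  have h0' : ((‖a‖ : ℝ) : ℂ) ≠ 0 := ofReal_ne_zero.2 h0
  have hd : dot (sim p a z - sim p a M) (a / ‖a‖ * m) = ‖a‖ * dot (z - M) m := by
    rw [dot_eq_re, dot_eq_re, ← re_ofReal_mul]
    congr 1
    have e : conj a * a = ((‖a‖ : ℝ) : ℂ) ^ 2 := by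
      rw [Complex.conj_mul']
    have e2 : sim p a z - sim p a M = a * (z - M) := by
      simp only [sim]
      ring
    rw [e2, map_mul]
    field_simp
    linear_combination (conj (z - M) * m) * e
  rw [rf, rf, hd]
  simp only [sim]
  push_cast
  field_simp
  ring

theorem Fin_axes (hH : HLoc) (h : Pat Ω lam u l r nT nB) (hle : nT ≤ nB) :
    ∃ n : ℝ, ∀ z ∈ Ω, fx n z ∈ Ω ∧ fy z ∈ Ω := by
  have hL := hH _ _ _ _ _ _ _ h hle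
  obtain rfl := h.ends_eq hL hle
  have hs := h.sy hL
  exact ⟨nT, fun z hz => ⟨hs.symm hz, hs.symΩ z hz⟩⟩

theorem Pat.axes (hH : HLoc) (h : Pat Ω lam u l r nT nB) :
    ∃ n : ℝ, ∀ z ∈ Ω, fx n z ∈ Ω ∧ fy z ∈ Ω := by
  rcases le_total nT nB with hle | hle
  · exact Fin_axes hH h hle
  · obtain ⟨n, hn⟩ := Fin_axes hH h.flipY hle
    refine ⟨n, fun z hz => ?_⟩
    have hz' : fy z ∈ fy ⁻¹' Ω := by
      rw [mem_preimage, fy_fy]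
      exact hz
    obtain ⟨h1, h2⟩ := hn _ hz'
    rw [mem_preimage, fx_fy, fy_fy] at h1
    rw [mem_preimage, fy_fy] at h2
    exact ⟨h1, h2⟩

theorem strip_c (hH : HLoc) (h : IsMin Ω) (hS : TwoSeg Ω) :
    ∃ M m : ℂ, ‖m‖ = 1 ∧ ∀ z ∈ Ω, rf M m z ∈ Ω ∧ rf M (I * m) z ∈ Ω := by
  obtain ⟨p, a, ha, l, r, hG⟩ := hS.normalise h.toDom
  obtain ⟨u, hu⟩ := exists_mn (h.of_sim p ha)
  have hs : Str (sim p a ⁻¹' Ω) (lam2c (sim p a ⁻¹' Ω)) u l r := ⟨hu, hG⟩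
  obtain ⟨nT, nB, hp⟩ := hs.exists_pat
  obtain ⟨n, hn⟩ : ∃ n : ℝ, ∀ z ∈ sim p a ⁻¹' Ω, fx n z ∈ sim p a ⁻¹' Ω ∧ fy z ∈ sim p a ⁻¹' Ω := by
    rcases hp with hp | hp
    · exact hp.axes hH
    · exact hp.axes hH
  have h0 : ‖a‖ ≠ 0 := norm_ne_zero_iff.2 ha
  refine ⟨sim p a ⟨n, Real.pi / 2⟩, a / ‖a‖ * 1, ?_, fun z hz => ?_⟩
  · rw [mul_one, norm_div, Complex.norm_real, norm_norm, div_self h0]
  · have e : sim p a ((z - p) / a) = z := by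
      simp only [sim]
      field_simp
      ring
    obtain ⟨h1, h2⟩ := hn ((z - p) / a) (by rw [mem_preimage, e]; exact hz)
    rw [mem_preimage, fx_eq n (Real.pi / 2), sim_rf p ha, e] at h1
    rw [mem_preimage, fy_eq n, sim_rf p ha, e] at h2
    refine ⟨h1, ?_⟩
    have e2 : I * (a / ‖a‖ * 1) = a / ‖a‖ * I := by ring
    rw [e2]
    exact h2


open Pool.Agent.P.MP_2f6447_an in
theorem strip_E2 (hH : HLoc) {Ω₀ : Set E2} (ho : IsOpen Ω₀) (hc : Convex ℝ Ω₀) (hn : Ω₀.Nonempty)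
    (hb : Bornology.IsBounded Ω₀)
    (hm : ∀ W : Set E2, IsOpen W → Convex ℝ W → volume W = volume Ω₀ → sInf (RS Ω₀) ≤ sInf (RS W))
    (hS : TwoSeg (toE ⁻¹' Ω₀)) :
    ∃ c e₁ e₂ : E2, ‖e₁‖ = 1 ∧ ‖e₂‖ = 1 ∧ inner ℝ e₁ e₂ = 0 ∧
      ∀ x ∈ Ω₀, c + ((2 * inner ℝ (x - c) e₁) • e₁ - (x - c)) ∈ Ω₀ ∧
        c + ((2 * inner ℝ (x - c) e₂) • e₂ - (x - c)) ∈ Ω₀ := by
  exact axes_toE (strip_c hH (isMin_toE ho hc hn hb hm) hS)


end Pool.Agent.L2K
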