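import Pool.Agent.P.MP_2f6447_an.K.Inv

/-! Normals of a convex domain. -/

open Set MeasureTheory Filter Topology Complex Metric
open scoped ContDiff ComplexConjugate

namespace Pool.Agent.L2K

variable {Ω U : Set ℂ} {lam : ℝ} {u w f g : ℂ → ℝ}

theorem Geo1_sq {ν : ℂ} (h : ‖ν‖ = 1) : ν.re * ν.re + ν.im * ν.im = 1 := by
  rw [← Complex.normSq_apply, Complex.normSq_eq_norm_sq, h]; norm_num

theorem Geo1_step (z p : ℂ) {ν : ℂ} (h : ‖ν‖ = 1) (t : ℝ) :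
    dot (z + t * ν - p) ν = dot (z - p) ν + t := by
  have := Geo1_sq h
  simp only [dot, add_re, sub_re, mul_re, ofReal_re, ofReal_im, add_im, sub_im, mul_im]
  linear_combination t * this

theorem Geo1_cont : Continuous fun x : ℂ × ℂ => dot x.1 x.2 := by
  unfold dot; fun_prop

theorem Geo1_ball {z ν : ℂ} (h : ‖ν‖ = 1) {r : ℝ} (hr : 0 < r) :
    z + ((r / 2 : ℝ) : ℂ) * ν ∈ ball z r := by
  rw [mem_ball, dist_eq_norm, add_sub_cancel_left, norm_mul, h, mul_one, Complex.norm_real,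
    Real.norm_of_nonneg (by positivity)]
  linarith

theorem Dom.isN_iff (h : Dom Ω) {p ν : ℂ} : IsN Ω p ν ↔ ‖ν‖ = 1 ∧ ∀ z ∈ Ω, dot (z - p) ν ≤ 0 := by
  refine ⟨fun hN => ⟨hN.1, fun z hz => (hN.2 z hz).le⟩, fun hN => ⟨hN.1, fun z hz => ?_⟩⟩
  obtain ⟨r, hr, hb⟩ := Metric.isOpen_iff.1 h.isOpen z hz
  have := hN.2 _ (hb (Geo1_ball hN.1 hr))
  rw [Geo1_step z p hN.1] at this
  linarith

theorem Dom.exists_sep (h : Dom Ω) {p : ℂ} (hp : p ∉ Ω) : ∃ ν, IsN Ω p ν := by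
  obtain ⟨L, hL⟩ := geometric_hahn_banach_open_point h.convex h.isOpen hp
  have hG : ∀ v : ℂ, L v = dot v ⟨L 1, L I⟩ := by
    intro v
    have e : v = v.re • (1 : ℂ) + v.im • I := by
      apply Complex.ext <;> simp
    conv_lhs => rw [e]
    rw [map_add, map_smul, map_smul]
    simp [dot]
  obtain ⟨G, hGd⟩ : ∃ G : ℂ, G = ⟨L 1, L I⟩ := ⟨_, rfl⟩
  rw [← hGd] at hG
  have hG0 : G ≠ 0 := by
    rintro rfl
    obtain ⟨a, ha⟩ := h.ne
    have := hL a ha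
    rw [hG, hG] at this
    simp [dot] at this
  have hn : 0 < ‖G‖ := norm_pos_iff.2 hG0
  refine ⟨((‖G‖⁻¹ : ℝ) : ℂ) * G, ?_, fun z hz => ?_⟩
  · rw [norm_mul, Complex.norm_real, Real.norm_of_nonneg (by positivity), inv_mul_cancel₀ hn.ne']
  · have h1 : dot (z - p) G < 0 := by
      rw [← hG, map_sub]
      linarith [hL z hz]
    have h2 : dot (z - p) (((‖G‖⁻¹ : ℝ) : ℂ) * G) = ‖G‖⁻¹ * dot (z - p) G := by
      simp only [dot, mul_re, mul_im, ofReal_re, ofReal_im]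
      ring
    rw [h2]
    exact mul_neg_of_pos_of_neg (by positivity) h1

theorem Dom.isN_nu (h : Dom Ω) {p : ℂ} (hp : p ∈ frontier Ω) : IsN Ω p (nu Ω p) := by
  exact Classical.epsilon_spec (h.exists_sep (h.notMem_of_frontier hp))

theorem IsN.le_of_closure {p ν : ℂ} (h : IsN Ω p ν) {z : ℂ} (hz : z ∈ closure Ω) : dot (z - p) ν ≤ 0 := by
  have hc : IsClosed {z : ℂ | dot (z - p) ν ≤ 0} :=
    isClosed_le (by unfold dot; fun_prop) continuous_const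
  exact closure_minimal (fun z hz => (h.2 z hz).le) hc hz

theorem Dom.mem_frontier_of_isN (h : Dom Ω) {p ν z : ℂ} (hN : IsN Ω p ν) (hz : z ∈ closure Ω)
    (h0 : dot (z - p) ν = 0) : z ∈ frontier Ω := by
  refine ⟨hz, fun hi => ?_⟩
  exact (hN.2 z (interior_subset hi)).ne h0

theorem Geo1_limit (h : Dom Ω) {q m : ℕ → ℂ} {p ν : ℂ} (hq : Tendsto q atTop (𝓝 p))
    (hm : Tendsto m atTop (𝓝 ν)) (hN : ∀ᶠ k in atTop, IsN Ω (q k) (m k)) : IsN Ω p ν := by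
  rw [h.isN_iff]
  refine ⟨?_, fun z hz => ?_⟩
  · refine tendsto_nhds_unique hm.norm (tendsto_const_nhds.congr' ?_)
    exact hN.mono fun k hk => hk.1.symm
  · have := (Geo1_cont.tendsto (z - p, ν)).comp ((tendsto_const_nhds.sub hq).prodMk_nhds hm)
    exact le_of_tendsto this (hN.mono fun k hk => (hk.2 z hz).le)

theorem Geo1_compact (h : Dom Ω) : IsCompact (frontier Ω) :=
  h.bdd.isCompact_closure.of_isClosed_subset isClosed_frontier frontier_subset_closure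

theorem Dom.continuousOn_nu (h : Dom Ω) (hc : NoCorner Ω) : ContinuousOn (nu Ω) (frontier Ω) := by
  intro p hp
  refine tendsto_of_subseq_tendsto fun ns hns => ?_
  rw [tendsto_nhdsWithin_iff] at hns
  have hfr : ∃ᶠ k in atTop, nu Ω (ns k) ∈ sphere (0 : ℂ) 1 :=
    (hns.2.mono fun k hk => by simpa using (h.isN_nu hk).1).frequently
  obtain ⟨ν, -, φ, hφ, hν⟩ := (isCompact_sphere (0 : ℂ) 1).tendsto_subseq' hfr
  have hN : IsN Ω p ν := Geo1_limit h (hns.1.comp hφ.tendsto_atTop) hν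
    ((hφ.tendsto_atTop.eventually hns.2).mono fun k hk => h.isN_nu hk)
  refine ⟨φ, ?_⟩
  rw [hc p hp _ _ (h.isN_nu hp) hN]
  exact hν

theorem Dom.inner_cone (h : Dom Ω) (hc : NoCorner Ω) {δ : ℝ} (hδ : 0 < δ) : ∃ ρ, 0 < ρ ∧
    ∀ p ∈ frontier Ω, ∀ v : ℂ, v ≠ 0 → ‖v‖ ≤ ρ → dot v (nu Ω p) ≤ -δ * ‖v‖ → p + v ∈ Ω := by
  by_contra hcon
  push Not at hcon
  have H : ∀ k : ℕ, ∃ p v m : ℂ, p ∈ frontier Ω ∧ ‖v‖ ≤ 1 / ((k : ℝ) + 1) ∧ IsN Ω (p + v) m ∧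
      δ ≤ ‖m - nu Ω p‖ := by
    intro k
    obtain ⟨p, hp, v, hv0, hv1, hv2, hv3⟩ := hcon (1 / ((k : ℝ) + 1)) (by positivity)
    obtain ⟨m, hm⟩ := h.exists_sep hv3
    refine ⟨p, v, m, hp, hv1, hm, ?_⟩
    have h1 := hm.le_of_closure (frontier_subset_closure hp)
    have h2 : dot v (m - nu Ω p) = -dot (p - (p + v)) m - dot v (nu Ω p) := by
      simp only [dot, sub_re, sub_im, add_re, add_im]
      ring
    have h3 := (le_abs_self _).trans (abs_dot_le v (m - nu Ω p))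
    have h4 : 0 < ‖v‖ := norm_pos_iff.2 hv0
    have h5 : ‖v‖ * δ ≤ ‖v‖ * ‖m - nu Ω p‖ := by linarith
    exact le_of_mul_le_mul_left h5 h4
  choose p v m hp hv hm hd using H
  have hK := (Geo1_compact h).prod (isCompact_sphere (0 : ℂ) 1)
  obtain ⟨⟨p₀, ν⟩, hx, φ, hφ, hlim⟩ := hK.tendsto_subseq (x := fun k => (p k, m k))
    fun k => ⟨hp k, by simpa using (hm k).1⟩
  have hp₀ : Tendsto (fun k => p (φ k)) atTop (𝓝 p₀) := (continuous_fst.tendsto _).comp hlim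
  have hν : Tendsto (fun k => m (φ k)) atTop (𝓝 ν) := (continuous_snd.tendsto _).comp hlim
  have hv0 : Tendsto v atTop (𝓝 0) :=
    squeeze_zero_norm hv tendsto_one_div_add_atTop_nhds_zero_nat
  have hq : Tendsto (fun k => p (φ k) + v (φ k)) atTop (𝓝 p₀) := by
    simpa using hp₀.add (hv0.comp hφ.tendsto_atTop)
  have hN : IsN Ω p₀ ν := Geo1_limit h hq hν (Eventually.of_forall fun k => hm (φ k))
  have hnu : Tendsto (fun k => nu Ω (p (φ k))) atTop (𝓝 (nu Ω p₀)) :=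
    (h.continuousOn_nu hc p₀ hx.1).tendsto.comp
      (tendsto_nhdsWithin_iff.2 ⟨hp₀, Eventually.of_forall fun k => hp (φ k)⟩)
  have hle := ge_of_tendsto' (hν.sub hnu).norm fun k => hd (φ k)
  rw [hc p₀ hx.1 _ _ hN (h.isN_nu hx.1), sub_self, norm_zero] at hle
  linarith

theorem Dom.nu_depth (h : Dom Ω) {q : ℂ} (hq : q ∈ Ω) : ∃ c, 0 < c ∧
    ∀ p ∈ frontier Ω, ∀ ν, IsN Ω p ν → c ≤ dot (p - q) ν := by
  obtain ⟨r, hr, hb⟩ := Metric.isOpen_iff.1 h.isOpen q hq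
  refine ⟨r / 2, by positivity, fun p _ ν hN => ?_⟩
  have := hN.2 _ (hb (Geo1_ball hN.1 hr))
  rw [Geo1_step q p hN.1] at this
  have e : dot (p - q) ν = -dot (q - p) ν := by
    simp only [dot, sub_re, sub_im]
    ring
  linarith

theorem Dom.nearest (h : Dom Ω) {z : ℂ} (hz : z ∈ Ω) : ∃ p ∈ frontier Ω, ball z ‖p - z‖ ⊆ Ω ∧
    IsN Ω p ((p - z) / ‖p - z‖) := by
  have hne : (Ωᶜ).Nonempty := by
    rw [nonempty_compl]
    rintro rfl
    exact NormedSpace.unbounded_univ ℝ ℂ h.bdd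
  obtain ⟨p, hp, hd⟩ := h.isOpen.isClosed_compl.exists_infDist_eq_dist hne z
  have hpz : p - z ≠ 0 := by
    rw [sub_ne_zero]
    rintro rfl
    exact hp hz
  have hr : 0 < ‖p - z‖ := norm_pos_iff.2 hpz
  have hb : ball z ‖p - z‖ ⊆ Ω := by
    rw [← dist_eq_norm, dist_comm, ← hd]
    exact ball_infDist_compl_subset
  have hcb : closedBall z ‖p - z‖ ⊆ closure Ω := by
    rw [← closure_ball z hr.ne']
    exact closure_mono hb
  refine ⟨p, ⟨hcb (by rw [mem_closedBall, dist_eq_norm]), fun hi => hp (interior_subset hi)⟩,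
    hb, ?_⟩
  obtain ⟨ν, hN⟩ := h.exists_sep hp
  have h1 : z + ((‖p - z‖ : ℝ) : ℂ) * ν ∈ closedBall z ‖p - z‖ := by
    rw [mem_closedBall, dist_eq_norm, add_sub_cancel_left, norm_mul, hN.1, mul_one,
      Complex.norm_real, norm_norm]
  have h2 := hN.le_of_closure (hcb h1)
  rw [Geo1_step z p hN.1] at h2
  have h3 := Geo1_sq hN.1
  have h4 : (p - z).re * (p - z).re + (p - z).im * (p - z).im = ‖p - z‖ ^ 2 := by
    rw [← Complex.normSq_apply, Complex.normSq_eq_norm_sq]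
  have h5 : p - z = ((‖p - z‖ : ℝ) : ℂ) * ν := by
    obtain ⟨r, hrd⟩ : ∃ r, r = ‖p - z‖ := ⟨_, rfl⟩
    rw [← hrd] at h2 h4 hr ⊢
    simp only [dot, sub_re, sub_im] at h2 h4
    have h6 : (p.re - z.re - r * ν.re) ^ 2 + (p.im - z.im - r * ν.im) ^ 2 ≤ 0 := by
      nlinarith [mul_le_mul_of_nonneg_left h2 hr.le]
    have h7 := sq_nonneg (p.re - z.re - r * ν.re)
    have h8 := sq_nonneg (p.im - z.im - r * ν.im)
    have h9 : p.re - z.re - r * ν.re = 0 := pow_eq_zero_iff two_ne_zero |>.1 (by linarith)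
    have h10 : p.im - z.im - r * ν.im = 0 := pow_eq_zero_iff two_ne_zero |>.1 (by linarith)
    apply Complex.ext
    · simp only [sub_re, mul_re, ofReal_re, ofReal_im]; linarith
    · simp only [sub_im, mul_im, ofReal_re, ofReal_im]; linarith
  have h6 : (p - z) / ‖p - z‖ = ν := by
    have : ((‖p - z‖ : ℝ) : ℂ) ≠ 0 := by exact_mod_cast hr.ne'
    rw [div_eq_iff this, mul_comm]
    exact h5
  rwa [h6]

theorem NoCorner.of_sim (hc : NoCorner Ω) (p : ℂ) {a : ℂ} (ha : a ≠ 0) : NoCorner (sim p a ⁻¹' Ω) := by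
  intro z hz ν ν' h1 h2
  rw [frontier_sim p ha] at hz
  rw [isN_sim p ha] at h1 h2
  have h0 : a / ‖a‖ ≠ 0 := div_ne_zero ha (by exact_mod_cast (norm_pos_iff.2 ha).ne')
  exact mul_left_cancel₀ h0 (hc _ hz _ _ h1 h2)

theorem nu_sim (h : Dom Ω) (hc : NoCorner Ω) (p : ℂ) {a : ℂ} (ha : a ≠ 0) {z : ℂ}
    (hz : sim p a z ∈ frontier Ω) : nu Ω (sim p a z) = a / ‖a‖ * nu (sim p a ⁻¹' Ω) z := by
  have hz' : z ∈ frontier (sim p a ⁻¹' Ω) := by rw [frontier_sim p ha]; exact hz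
  exact hc _ hz _ _ (h.isN_nu hz) ((isN_sim p ha _ _).1 ((h.of_sim p ha).isN_nu hz'))

theorem nu_rf (h : Dom Ω) (hc : NoCorner Ω) (M : ℂ) {n : ℂ} (hn : ‖n‖ = 1) {z : ℂ}
    (hz : rf M n z ∈ frontier Ω) : nu (rf M n ⁻¹' Ω) z = rf 0 n (nu Ω (rf M n z)) := by
  have hz' : z ∈ frontier (rf M n ⁻¹' Ω) := by rw [frontier_rf M hn]; exact hz
  rw [hc _ hz _ _ (h.isN_nu hz) ((isN_rf M hn _ _).1 ((h.of_rf M hn).isN_nu hz')), rf_rf 0 hn]

end Pool.Agent.L2K
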