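import Pool.Agent.P.MP_2f6447_an.K.Basic

/-! Calculus in `H10`. -/

open Set MeasureTheory Filter Topology Complex Metric
open scoped ContDiff ComplexConjugate

namespace Pool.Agent.L2K

variable {Ω U : Set ℂ} {lam : ℝ} {u w f g : ℂ → ℝ}

section general

variable {E E' E'' : Type} [NormedAddCommGroup E] [NormedAddCommGroup E'] [NormedAddCommGroup E'']

theorem H10_sq {A : ℂ → E} (h : MemLp A 2 volume) : Integrable fun z => ‖A z‖ ^ 2 :=
  (memLp_two_iff_integrable_sq_norm h.1).1 h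

theorem H10_le {A : ℂ → E} {B : ℂ → E'} {C : ℂ → E''} (hB : MemLp B 2 volume)
    (hC : MemLp C 2 volume) {c d : ℝ} (h : ∀ z, ‖A z‖ ≤ c * ‖B z‖ + d * ‖C z‖) :
    ∫ z, ‖A z‖ ^ 2 ≤ 2 * c ^ 2 * (∫ z, ‖B z‖ ^ 2) + 2 * d ^ 2 * ∫ z, ‖C z‖ ^ 2 := by
  have h1 := (H10_sq hB).const_mul (2 * c ^ 2)
  have h2 := (H10_sq hC).const_mul (2 * d ^ 2)
  rw [← integral_const_mul, ← integral_const_mul, ← integral_add h1 h2]
  refine integral_mono_of_nonneg (Eventually.of_forall fun z => sq_nonneg _) (h1.add h2)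
    (Eventually.of_forall fun z => ?_)
  have h3 : ‖A z‖ ^ 2 ≤ (c * ‖B z‖ + d * ‖C z‖) ^ 2 := pow_le_pow_left₀ (norm_nonneg _) (h z) 2
  show ‖A z‖ ^ 2 ≤ 2 * c ^ 2 * ‖B z‖ ^ 2 + 2 * d ^ 2 * ‖C z‖ ^ 2
  nlinarith [sq_nonneg (c * ‖B z‖ - d * ‖C z‖)]

theorem H10_squeeze {A : ℕ → ℂ → E} {B : ℕ → ℂ → E'} {C : ℕ → ℂ → E''}
    (hB : ∀ n, MemLp (B n) 2 volume) (hC : ∀ n, MemLp (C n) 2 volume) {c d : ℝ}
    (h : ∀ n z, ‖A n z‖ ≤ c * ‖B n z‖ + d * ‖C n z‖)
    (h1 : Tendsto (fun n => ∫ z, ‖B n z‖ ^ 2) atTop (𝓝 0))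
    (h2 : Tendsto (fun n => ∫ z, ‖C n z‖ ^ 2) atTop (𝓝 0)) :
    Tendsto (fun n => ∫ z, ‖A n z‖ ^ 2) atTop (𝓝 0) := by
  refine squeeze_zero (fun n => integral_nonneg fun z => sq_nonneg _)
    (fun n => H10_le (hB n) (hC n) (h n)) ?_
  simpa using (h1.const_mul (2 * c ^ 2)).add (h2.const_mul (2 * d ^ 2))

theorem H10_zero {A : ℕ → ℂ → E} {a : ℂ → E} (hA : ∀ n, MemLp (A n) 2 volume)
    (ha : MemLp a 2 volume) (hΩ : MeasurableSet Ω) (h0 : ∀ n z, z ∉ Ω → A n z = 0)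
    (h1 : Tendsto (fun n => ∫ z, ‖A n z - a z‖ ^ 2) atTop (𝓝 0)) : ∀ᵐ z, z ∉ Ω → a z = 0 := by
  have hi : Integrable (Ωᶜ.indicator fun z => ‖a z‖ ^ 2) := (H10_sq ha).indicator hΩ.compl
  have hn : 0 ≤ Ωᶜ.indicator fun z => ‖a z‖ ^ 2 := fun z =>
    indicator_nonneg (fun y _ => sq_nonneg _) z
  have h2 : ∫ z, Ωᶜ.indicator (fun z => ‖a z‖ ^ 2) z ≤ 0 := by
    refine ge_of_tendsto' h1 fun n => integral_mono hi (H10_sq ((hA n).sub ha)) fun z => ?_
    by_cases hz : z ∈ Ω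
    · rw [indicator_of_notMem (by simpa using hz)]
      exact sq_nonneg _
    · rw [indicator_of_mem (by simpa using hz)]
      simp [h0 n z hz]
  have h3 := (integral_eq_zero_iff_of_nonneg hn hi).1 (le_antisymm h2 (integral_nonneg hn))
  filter_upwards [h3] with z hz hzΩ
  rw [indicator_of_mem (by simpa using hzΩ)] at hz
  simpa using hz

variable [InnerProductSpace ℝ E]

theorem H10_inner {A B : ℂ → E} (hA : MemLp A 2 volume) (hB : MemLp B 2 volume) :
    (Integrable fun z => inner ℝ (A z) (B z)) ∧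
      ∫ z, inner ℝ (A z) (B z) = inner ℝ (hA.toLp A) (hB.toLp B) := by
  have e : (fun z => inner ℝ (hA.toLp A z) (hB.toLp B z)) =ᵐ[volume]
      fun z => inner ℝ (A z) (B z) := by
    filter_upwards [hA.coeFn_toLp, hB.coeFn_toLp] with z h1 h2
    rw [h1, h2]
  exact ⟨(L2.integrable_inner _ _).congr e, by rw [L2.inner_def, integral_congr_ae e]⟩

theorem H10_tend {A : ℕ → ℂ → E} {a : ℂ → E} (hA : ∀ n, MemLp (A n) 2 volume)
    (ha : MemLp a 2 volume) (h : Tendsto (fun n => ∫ z, ‖A n z - a z‖ ^ 2) atTop (𝓝 0)) :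
    Tendsto (fun n => (hA n).toLp (A n)) atTop (𝓝 (ha.toLp a)) := by
  rw [tendsto_iff_norm_sub_tendsto_zero]
  have e : ∀ n, ‖(hA n).toLp (A n) - ha.toLp a‖ = Real.sqrt (∫ z, ‖A n z - a z‖ ^ 2) := fun n => by
    have h1 := (H10_inner ((hA n).sub ha) ((hA n).sub ha)).2
    simp only [real_inner_self_eq_norm_sq, Pi.sub_apply] at h1
    rw [h1, Real.sqrt_sq (norm_nonneg _), MemLp.toLp_sub]
  simp only [e]
  simpa using h.sqrt

theorem H10_lim {A : ℕ → ℂ → E} {a b : ℂ → E} (hA : ∀ n, MemLp (A n) 2 volume)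
    (ha : MemLp a 2 volume) (hb : MemLp b 2 volume)
    (h : Tendsto (fun n => ∫ z, ‖A n z - a z‖ ^ 2) atTop (𝓝 0)) :
    Tendsto (fun n => ∫ z, inner ℝ (b z) (A n z)) atTop (𝓝 (∫ z, inner ℝ (b z) (a z))) := by
  simp only [fun n => (H10_inner hb (hA n)).2, (H10_inner hb ha).2]
  exact tendsto_const_nhds.inner (H10_tend hA ha h)

theorem H10_quad {A B : ℂ → E} (hA : MemLp A 2 volume) (hB : MemLp B 2 volume) (t : ℝ) :
    ∫ z, ‖A z + t • B z‖ ^ 2 =
      (∫ z, ‖A z‖ ^ 2) + 2 * t * (∫ z, inner ℝ (A z) (B z)) + t ^ 2 * ∫ z, ‖B z‖ ^ 2 := by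
  have h1 := (H10_inner hA hB).1.const_mul (2 * t)
  have h2 := (H10_sq hB).const_mul (t ^ 2)
  have h3 : Integrable fun z => ‖A z‖ ^ 2 + 2 * t * inner ℝ (A z) (B z) := (H10_sq hA).add h1
  rw [← integral_const_mul, ← integral_const_mul, ← integral_add (H10_sq hA) h1,
    ← integral_add h3 h2]
  refine integral_congr_ae (Eventually.of_forall fun z => ?_)
  show ‖A z + t • B z‖ ^ 2 = ‖A z‖ ^ 2 + 2 * t * inner ℝ (A z) (B z) + t ^ 2 * ‖B z‖ ^ 2
  rw [norm_add_sq_real, inner_smul_right, norm_smul, mul_pow, Real.norm_eq_abs, sq_abs]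
  ring

end general

theorem H10_rsq (a : ℝ) : a ^ 2 = ‖a‖ ^ 2 := by rw [Real.norm_eq_abs, sq_abs]

theorem H10_rinner (a b : ℝ) : a * b = inner ℝ a b := by simp [mul_comm]

theorem H10_grad0 {φ : ℂ → ℝ} {z : ℂ} (hz : z ∉ tsupport φ) : grad φ z = 0 := by
  rw [grad_congr (notMem_tsupport_iff_eventuallyEq.1 hz)]
  exact grad_const 0 z

theorem H10_mem {φ : ℂ → ℝ} (h : ContDiff ℝ 1 φ) (hc : HasCompactSupport φ) :
    MemLp φ 2 volume ∧ MemLp (grad φ) 2 volume :=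
  ⟨h.continuous.memLp_of_hasCompactSupport hc, (continuous_grad h).memLp_of_hasCompactSupport
    (HasCompactSupport.intro hc fun _ hz => H10_grad0 hz)⟩

theorem H10_memf {φ : ℂ → ℝ} (h : Test Ω φ) : MemLp φ 2 volume := (H10_mem h.smooth h.cpt).1

theorem H10_memG {φ : ℂ → ℝ} (h : Test Ω φ) : MemLp (grad φ) 2 volume := (H10_mem h.smooth h.cpt).2

theorem H10_approx {G : ℂ → ℂ} (h : H10 Ω f G) : ∃ φ : ℕ → ℂ → ℝ, (∀ n, Test Ω (φ n)) ∧
    Tendsto (fun n => ∫ z, ‖φ n z - f z‖ ^ 2) atTop (𝓝 0) ∧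
    Tendsto (fun n => ∫ z, ‖grad (φ n) z - G z‖ ^ 2) atTop (𝓝 0) := by
  simpa only [← H10_rsq] using h.approx

theorem H10_mk {G : ℂ → ℂ} (hf : MemLp f 2 volume) (hG : MemLp G 2 volume) {φ : ℕ → ℂ → ℝ}
    (h : ∀ n, Test Ω (φ n)) (h1 : Tendsto (fun n => ∫ z, ‖φ n z - f z‖ ^ 2) atTop (𝓝 0))
    (h2 : Tendsto (fun n => ∫ z, ‖grad (φ n) z - G z‖ ^ 2) atTop (𝓝 0)) : H10 Ω f G :=
  ⟨hf, hG, φ, h, by simpa only [← H10_rsq] using h1, h2⟩

theorem H10_limf {φ : ℕ → ℂ → ℝ} (hφ : ∀ n, Test Ω (φ n)) (hf : MemLp f 2 volume)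
    (hg : MemLp g 2 volume) (h : Tendsto (fun n => ∫ z, ‖φ n z - f z‖ ^ 2) atTop (𝓝 0)) :
    Tendsto (fun n => ∫ z, g z * φ n z) atTop (𝓝 (∫ z, g z * f z)) := by
  simpa only [← H10_rinner] using H10_lim (fun n => H10_memf (hφ n)) hf hg h

theorem H10_limG {φ : ℕ → ℂ → ℝ} {G H : ℂ → ℂ} (hφ : ∀ n, Test Ω (φ n)) (hG : MemLp G 2 volume)
    (hH : MemLp H 2 volume) (h : Tendsto (fun n => ∫ z, ‖grad (φ n) z - G z‖ ^ 2) atTop (𝓝 0)) :
    Tendsto (fun n => ∫ z, dot (H z) (grad (φ n) z)) atTop (𝓝 (∫ z, dot (H z) (G z))) := by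
  simpa only [← dot_eq_inner] using H10_lim (fun n => H10_memG (hφ n)) hG hH h

theorem H10_intf (hf : MemLp f 2 volume) (hg : MemLp g 2 volume) : Integrable fun z => f z * g z := by
  simpa only [← H10_rinner] using (H10_inner hf hg).1

theorem H10_intG {G H : ℂ → ℂ} (hG : MemLp G 2 volume) (hH : MemLp H 2 volume) :
    Integrable fun z => dot (G z) (H z) := by
  simpa only [← dot_eq_inner] using (H10_inner hG hH).1

theorem Test.h10 {φ : ℂ → ℝ} (h : Test Ω φ) : H10 Ω φ (grad φ) :=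
  ⟨H10_memf h, H10_memG h, fun _ => φ, fun _ => h, by simp, by simp⟩

theorem H10_test_comb {φ ψ : ℂ → ℝ} (hφ : Test Ω φ) (hψ : Test Ω ψ) (a b : ℝ) :
    Test Ω fun z => a * φ z + b * ψ z := by
  have hs : tsupport (fun z => a * φ z + b * ψ z) ⊆ tsupport φ ∪ tsupport ψ := by
    refine closure_minimal (fun z hz => ?_) ((isClosed_tsupport _).union (isClosed_tsupport _))
    by_contra hn
    rw [mem_union, not_or] at hn
    exact hz (by simp [image_eq_zero_of_notMem_tsupport hn.1, image_eq_zero_of_notMem_tsupport hn.2])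
  exact ⟨(contDiff_const.mul hφ.smooth).add (contDiff_const.mul hψ.smooth),
    (IsCompact.union hφ.cpt hψ.cpt).of_isClosed_subset (isClosed_tsupport _) hs,
    hs.trans (union_subset hφ.supp hψ.supp)⟩

theorem H10.comb {G H : ℂ → ℂ} (hf : H10 Ω f G) (hg : H10 Ω g H) (a b : ℝ) :
    H10 Ω (fun z => a * f z + b * g z) fun z => a * G z + b * H z := by
  obtain ⟨φ, hφ, h1, h2⟩ := H10_approx hf
  obtain ⟨ψ, hψ, h3, h4⟩ := H10_approx hg
  refine H10_mk ((hf.memf.const_mul a).add (hg.memf.const_mul b))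
    ((hf.memG.const_mul (a : ℂ)).add (hg.memG.const_mul (b : ℂ)))
    (fun n => H10_test_comb (hφ n) (hψ n) a b) ?_ ?_
  · refine H10_squeeze (c := ‖a‖) (d := ‖b‖) (fun n => (H10_memf (hφ n)).sub hf.memf)
      (fun n => (H10_memf (hψ n)).sub hg.memf) (fun n z => ?_) h1 h3
    rw [← norm_mul, ← norm_mul]
    refine le_trans (le_of_eq ?_) (norm_add_le _ _)
    congr 1
    simp only [Pi.sub_apply]
    ring
  · refine H10_squeeze (c := ‖(a : ℂ)‖) (d := ‖(b : ℂ)‖) (fun n => (H10_memG (hφ n)).sub hf.memG)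
      (fun n => (H10_memG (hψ n)).sub hg.memG) (fun n z => ?_) h2 h4
    rw [← norm_mul, ← norm_mul, grad_add
      (((hφ n).smooth.differentiable one_ne_zero z).const_mul a)
      (((hψ n).smooth.differentiable one_ne_zero z).const_mul b), grad_const_mul, grad_const_mul]
    refine le_trans (le_of_eq ?_) (norm_add_le _ _)
    congr 1
    simp only [Pi.sub_apply]
    ring

theorem H10.congr {G H : ℂ → ℂ} (hf : H10 Ω f G) (e1 : g =ᵐ[volume] f) (e2 : H =ᵐ[volume] G) :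
    H10 Ω g H := by
  obtain ⟨φ, hφ, h1, h2⟩ := hf.approx
  refine ⟨hf.memf.ae_eq e1.symm, hf.memG.ae_eq e2.symm, φ, hφ, h1.congr fun n => ?_,
    h2.congr fun n => ?_⟩
  · refine integral_congr_ae ?_
    filter_upwards [e1] with z hz
    rw [hz]
  · refine integral_congr_ae ?_
    filter_upwards [e2] with z hz
    rw [hz]

theorem H10.limit {G : ℂ → ℂ} {F : ℕ → ℂ → ℝ} {H : ℕ → ℂ → ℂ} (h : ∀ n, H10 Ω (F n) (H n))
    (hf : MemLp f 2 volume) (hG : MemLp G 2 volume)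
    (h1 : Tendsto (fun n => ∫ z, (F n z - f z) ^ 2) atTop (𝓝 0))
    (h2 : Tendsto (fun n => ∫ z, ‖H n z - G z‖ ^ 2) atTop (𝓝 0)) : H10 Ω f G := by
  have hex : ∀ n : ℕ, ∃ φ : ℂ → ℝ, Test Ω φ ∧ ∫ z, ‖φ z - F n z‖ ^ 2 ≤ 1 / ((n : ℝ) + 1) ∧
      ∫ z, ‖grad φ z - H n z‖ ^ 2 ≤ 1 / ((n : ℝ) + 1) := fun n => by
    obtain ⟨φ, hφ, h3, h4⟩ := H10_approx (h n)
    have hp : (0 : ℝ) < 1 / ((n : ℝ) + 1) := by positivity
    obtain ⟨m, h5, h6⟩ := ((h3.eventually (ge_mem_nhds hp)).and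
      (h4.eventually (ge_mem_nhds hp))).exists
    exact ⟨φ m, hφ m, h5, h6⟩
  choose φ hφ h3 h4 using hex
  have h5 := squeeze_zero (fun n => integral_nonneg fun z => sq_nonneg _) h3
    tendsto_one_div_add_atTop_nhds_zero_nat
  have h6 := squeeze_zero (fun n => integral_nonneg fun z => sq_nonneg _) h4
    tendsto_one_div_add_atTop_nhds_zero_nat
  simp only [fun n z => H10_rsq (F n z - f z)] at h1
  refine H10_mk hf hG hφ ?_ ?_
  · refine H10_squeeze (c := 1) (d := 1) (fun n => (H10_memf (hφ n)).sub (h n).memf)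
      (fun n => (h n).memf.sub hf) (fun n z => ?_) h5 h1
    simpa only [one_mul, Pi.sub_apply] using norm_sub_le_norm_sub_add_norm_sub _ _ _
  · refine H10_squeeze (c := 1) (d := 1) (fun n => (H10_memG (hφ n)).sub (h n).memG)
      (fun n => (h n).memG.sub hG) (fun n z => ?_) h6 h2
    simpa only [one_mul, Pi.sub_apply] using norm_sub_le_norm_sub_add_norm_sub _ _ _

theorem H10.ae_zero {G : ℂ → ℂ} (h : H10 Ω f G) (hΩ : MeasurableSet Ω) :
    ∀ᵐ z, z ∉ Ω → f z = 0 ∧ G z = 0 := by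
  obtain ⟨φ, hφ, h1, h2⟩ := H10_approx h
  filter_upwards [H10_zero (fun n => H10_memf (hφ n)) h.memf hΩ
    (fun n z hz => image_eq_zero_of_notMem_tsupport fun hs => hz ((hφ n).supp hs)) h1,
    H10_zero (fun n => H10_memG (hφ n)) h.memG hΩ
    (fun n z hz => H10_grad0 fun hs => hz ((hφ n).supp hs)) h2] with z h3 h4 hz
  exact ⟨h3 hz, h4 hz⟩

theorem Weak.h10 {G H : ℂ → ℂ} (h : Weak lam Ω f G) (hf : MemLp f 2 volume)
    (hG : MemLp G 2 volume) (hg : H10 Ω g H) : ∫ z, dot (G z) (H z) = lam * ∫ z, f z * g z := by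
  obtain ⟨φ, hφ, h1, h2⟩ := H10_approx hg
  exact tendsto_nhds_unique ((H10_limG hφ hg.memG hG h2).congr fun n => h _ (hφ n))
    ((H10_limf hφ hg.memf hf h1).const_mul lam)

theorem H10_memD {χ : ℂ → ℝ} (hχ : ContDiff ℝ 1 χ) (hc : HasCompactSupport χ) (v : ℂ) :
    MemLp (D v χ) 2 volume := by
  have h1 : Continuous (D v χ) := (hχ.continuous_fderiv one_ne_zero).clm_apply continuous_const
  exact h1.memLp_of_hasCompactSupport (hc.fderiv_apply ℝ v)

theorem H10_dot_smul (a : ℝ) (v G : ℂ) : dot (a * v) G = dot G v * a := by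
  simp [dot]
  ring

theorem H10_ibp1 {G : ℂ → ℂ} (h : H10 Ω f G) {χ : ℂ → ℝ} (hχ : ContDiff ℝ 1 χ)
    (hc : HasCompactSupport χ) (v : ℂ) : ∫ z, dot (G z) v * χ z = -∫ z, f z * D v χ z := by
  obtain ⟨φ, hφ, h1, h2⟩ := H10_approx h
  have hm := (H10_mem hχ hc).1
  have hD := H10_memD hχ hc v
  have hv : MemLp (fun z => (χ z : ℂ) * v) 2 volume := hm.ofReal.mul_const v
  have h3 := H10_limG hφ h.memG hv h2
  have h4 := (H10_limf hφ h.memf hD h1).neg
  simp only [H10_dot_smul] at h3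
  simp only [mul_comm (D v χ _)] at h4
  refine tendsto_nhds_unique h3 (h4.congr fun n => ?_)
  have h5 := integral_mul_fderiv_eq_neg_fderiv_mul_of_integrable (μ := volume) (f := φ n) (g := χ)
    (v := v) (H10_intf (H10_memD (hφ n).smooth (hφ n).cpt v) hm) (H10_intf (H10_memf (hφ n)) hD)
    (H10_intf (H10_memf (hφ n)) hm) (fun x _ => (hφ n).smooth.differentiable one_ne_zero x)
    (fun x _ => hχ.differentiable one_ne_zero x)
  simp only [← fderiv_eq_dot]
  rw [← neg_neg (∫ z, fderiv ℝ (φ n) z v * χ z), ← h5]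
  rfl

theorem H10_D_smooth {ψ : ℂ → ℝ} (hψ : ContDiff ℝ ∞ ψ) (v : ℂ) : ContDiff ℝ 1 (D v ψ) :=
  (hψ.fderiv_right (m := 1) (WithTop.coe_le_coe.2 (le_top : (2 : ℕ∞) ≤ ⊤))).clm_apply
    contDiff_const

theorem H10_memlap {ψ : ℂ → ℝ} (hψ : ContDiff ℝ ∞ ψ) (hc : HasCompactSupport ψ) (v : ℂ) :
    MemLp (D v (D v ψ)) 2 volume := H10_memD (H10_D_smooth hψ v) (hc.fderiv_apply ℝ v) v

theorem H10_memdot {G : ℂ → ℂ} (hG : MemLp G 2 volume) (v : ℂ) :
    MemLp (fun z => dot (G z) v) 2 volume := by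
  have hc : Continuous fun a : ℂ => dot a v := by unfold dot; fun_prop
  refine hG.of_le_mul (c := ‖v‖) (hc.comp_aestronglyMeasurable hG.1)
    (Eventually.of_forall fun z => ?_)
  rw [mul_comm]
  exact abs_dot_le _ _

theorem H10.ibp {G : ℂ → ℂ} (h : H10 Ω f G) {ψ : ℂ → ℝ} (hψ : ContDiff ℝ ∞ ψ)
    (hc : HasCompactSupport ψ) : ∫ z, dot (G z) (grad ψ z) = -∫ z, f z * lap ψ z := by
  have h0 : ContDiff ℝ 1 ψ := hψ.of_le (by exact_mod_cast le_top)
  have h1 := H10_ibp1 h (H10_D_smooth hψ 1) (hc.fderiv_apply ℝ 1) 1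
  have h2 := H10_ibp1 h (H10_D_smooth hψ I) (hc.fderiv_apply ℝ I) I
  have e1 : ∀ z, dot (G z) (grad ψ z) = dot (G z) 1 * D 1 ψ z + dot (G z) I * D I ψ z := fun z => by
    simp [dot, grad]
  have e2 : ∀ z, f z * lap ψ z = f z * D 1 (D 1 ψ) z + f z * D I (D I ψ) z := fun z => by
    rw [lap, mul_add]
  simp only [e1, e2]
  rw [integral_add (H10_intf (H10_memdot h.memG 1) (H10_memD h0 hc 1))
    (H10_intf (H10_memdot h.memG I) (H10_memD h0 hc I)),
    integral_add (H10_intf h.memf (H10_memlap hψ hc 1)) (H10_intf h.memf (H10_memlap hψ hc I)),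
    h1, h2, neg_add]

theorem H10.vweak {G : ℂ → ℂ} (h : H10 Ω f G) (hw : Weak lam Ω f G) : VWeak lam Ω f := by
  intro φ hφ hc hs
  have h0 : Test Ω φ := ⟨hφ.of_le (by exact_mod_cast le_top), hc, hs⟩
  have h1 := hw φ h0
  rw [h.ibp hφ hc] at h1
  have h2 : Integrable fun z => f z * lap φ z :=
    H10_intf h.memf ((H10_memlap hφ hc 1).add (H10_memlap hφ hc I))
  have e : ∀ z, f z * (lap φ z + lam * φ z) = f z * lap φ z + lam * (f z * φ z) := fun z => by ring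
  simp only [e]
  rw [integral_add h2 ((H10_intf h.memf (H10_memf h0)).const_mul lam), integral_const_mul]
  linarith

theorem H10_dir_ae {G : ℂ → ℂ} (h : H10 Ω f G) (hU : IsOpen U) (hs : ContDiffOn ℝ 1 f U) (v : ℂ) :
    ∀ᵐ z, z ∈ U → dot (G z) v - D v f z = 0 := by
  have hD : ContinuousOn (D v f) U :=
    (hs.continuousOn_fderiv_of_isOpen hU le_rfl).clm_apply continuousOn_const
  refine hU.ae_eq_zero_of_integral_contDiff_smul_eq_zero
    ((((H10_memdot h.memG v).locallyIntegrable (by norm_num)).locallyIntegrableOn U).sub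
      (hD.locallyIntegrableOn hU.measurableSet)) fun χ hχ hc hχU => ?_
  have h0 : ContDiff ℝ 1 χ := hχ.of_le (by exact_mod_cast le_top)
  have hm := (H10_mem h0 hc).1
  have h1 := H10_ibp1 h h0 hc v
  have hi : Integrable fun z => D v f z * χ z := by
    have h2 : Continuous fun z => D v f z * χ z :=
      ((hD.mul h0.continuous.continuousOn).continuous_of_tsupport_subset hU
        (tsupport_mul_subset_right.trans hχU))
    exact h2.integrable_of_hasCompactSupport hc.mul_left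
  have h5 := integral_mul_fderiv_eq_neg_fderiv_mul_of_integrable (μ := volume) (f := χ) (g := f)
    (v := v) (H10_intf (H10_memD h0 hc v) h.memf) (by simpa only [mul_comm (χ _), D] using hi)
    (H10_intf hm h.memf) (fun x _ => h0.differentiable one_ne_zero x)
    (fun x hx => (hs.contDiffAt (hU.mem_nhds (hχU hx))).differentiableAt one_ne_zero)
  have e : ∀ z, χ z • (dot (G z) v - D v f z) = dot (G z) v * χ z - D v f z * χ z := fun z => by
    rw [smul_eq_mul]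
    ring
  simp only [e]
  rw [integral_sub (H10_intf (H10_memdot h.memG v) hm) hi, h1]
  simp only [mul_comm (χ _), mul_comm _ (f _)] at h5
  exact sub_eq_zero.2 h5.symm

theorem H10.grad_ae {G : ℂ → ℂ} (h : H10 Ω f G) (hU : IsOpen U) (hs : ContDiffOn ℝ 1 f U) :
    ∀ᵐ z, z ∈ U → G z = grad f z := by
  filter_upwards [H10_dir_ae h hU hs 1, H10_dir_ae h hU hs I] with z h1 h2 hz
  apply Complex.ext
  · simpa [dot, grad, sub_eq_zero] using h1 hz
  · simpa [dot, grad, sub_eq_zero] using h2 hz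

theorem H10_subseq {φ : ℕ → ℂ → ℝ} (hφ : ∀ n, MemLp (φ n) 2 volume) (hf : MemLp f 2 volume)
    (h : Tendsto (fun n => ∫ z, ‖φ n z - f z‖ ^ 2) atTop (𝓝 0)) :
    ∃ ns : ℕ → ℕ, StrictMono ns ∧ ∀ᵐ z, Tendsto (fun i => φ (ns i) z) atTop (𝓝 (f z)) := by
  obtain ⟨ns, h1, h2⟩ := (tendstoInMeasure_of_tendsto_Lp (H10_tend hφ hf h)).exists_seq_tendsto_ae
  refine ⟨ns, h1, ?_⟩
  filter_upwards [h2, ae_all_iff.2 fun n => (hφ n).coeFn_toLp, hf.coeFn_toLp] with z h3 h4 h5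
  simpa only [h4, h5] using h3

theorem H10.comp_mul {G : ℂ → ℂ} (h : H10 Ω f G) {β : ℝ → ℝ} {ψ : ℂ → ℝ}
    (hβ : ContDiff ℝ 1 β) (h0 : β 0 = 0)
    {L : ℝ} (hL : ∀ t : ℝ, |deriv β t| ≤ L) (hψ : ContDiff ℝ 1 ψ) (hc : HasCompactSupport ψ) :
    H10 Ω (fun z => β (f z) * ψ z)
      fun z => ((deriv β (f z) * ψ z : ℝ) : ℂ) * G z + (β (f z) : ℝ) * grad ψ z := by
  obtain ⟨φ0, hφ0, h1, h2⟩ := H10_approx h
  obtain ⟨ns, hns, h3⟩ := H10_subseq (fun n => H10_memf (hφ0 n)) h.memf h1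
  replace h1 := h1.comp hns.tendsto_atTop
  replace h2 := h2.comp hns.tendsto_atTop
  have hφ : ∀ n, Test Ω (φ0 (ns n)) := fun n => hφ0 _
  simp only [Function.comp_def] at h1 h2
  generalize hq : (fun n => φ0 (ns n)) = φ
  simp only [fun n => congrFun hq n] at h1 h2 h3 hφ
  have hβd : Differentiable ℝ β := hβ.differentiable one_ne_zero
  have hβ' : Continuous (deriv β) := hβ.continuous_deriv le_rfl
  have hL0 : 0 ≤ L := (abs_nonneg _).trans (hL 0)
  have hlip : ∀ s t : ℝ, ‖β s - β t‖ ≤ L * ‖s - t‖ := fun s t =>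
    convex_univ.norm_image_sub_le_of_norm_deriv_le (fun x _ => hβd x) (fun x _ => hL x)
      (mem_univ t) (mem_univ s)
  have hlip0 : ∀ s : ℝ, ‖β s‖ ≤ L * ‖s‖ := fun s => by simpa [h0] using hlip s 0
  obtain ⟨M, hM⟩ := hc.exists_bound_of_continuous hψ.continuous
  obtain ⟨N, hN⟩ := (HasCompactSupport.intro hc fun _ hz => H10_grad0 hz).exists_bound_of_continuous
    (continuous_grad hψ)
  have hM0 : 0 ≤ M := (norm_nonneg _).trans (hM 0)
  have mf := h.memf.1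
  have mG := h.memG.1
  have mψ := hψ.continuous.aestronglyMeasurable (μ := volume)
  have mβ := hβ.continuous.comp_aestronglyMeasurable mf
  have hT : ∀ n, Test Ω fun z => β (φ n z) * ψ z := fun n =>
    ⟨(hβ.comp (hφ n).smooth).mul hψ, hc.mul_left, (closure_mono (Function.support_subset_iff'.2
      fun z hz => by simp [Function.notMem_support.1 hz, h0])).trans (hφ n).supp⟩
  have hR : ∀ n, MemLp (fun z => ((deriv β (φ n z) - deriv β (f z) : ℝ) : ℂ) * G z) 2 volume :=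
    fun n => h.memG.of_le_mul (c := 2 * L) ((continuous_ofReal.comp_aestronglyMeasurable
      ((hβ'.comp_aestronglyMeasurable (H10_memf (hφ n)).1).sub
        (hβ'.comp_aestronglyMeasurable mf))).mul mG) (Eventually.of_forall fun z => by
      rw [norm_mul, norm_real]
      refine mul_le_mul_of_nonneg_right ((norm_sub_le _ _).trans ?_) (norm_nonneg _)
      linarith [hL (φ n z), hL (f z), Real.norm_eq_abs (deriv β (φ n z)),
        Real.norm_eq_abs (deriv β (f z))])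
  have hR0 : Tendsto (fun n => ∫ z, ‖((deriv β (φ n z) - deriv β (f z) : ℝ) : ℂ) * G z‖ ^ 2)
      atTop (𝓝 0) := by
    have h4 := tendsto_integral_of_dominated_convergence (μ := volume)
      (F := fun n z => ‖((deriv β (φ n z) - deriv β (f z) : ℝ) : ℂ) * G z‖ ^ 2) (f := fun _ => 0)
      (fun z => (2 * L) ^ 2 * ‖G z‖ ^ 2) (fun n => (H10_sq (hR n)).1)
      ((H10_sq h.memG).const_mul _) (fun n => Eventually.of_forall fun z => ?_) ?_
    · simpa using h4
    · rw [Real.norm_of_nonneg (sq_nonneg _), ← mul_pow, norm_mul, norm_real]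
      refine pow_le_pow_left₀ (by positivity)
        (mul_le_mul_of_nonneg_right ((norm_sub_le _ _).trans ?_) (norm_nonneg _)) 2
      linarith [hL (φ n z), hL (f z), Real.norm_eq_abs (deriv β (φ n z)),
        Real.norm_eq_abs (deriv β (f z))]
    · filter_upwards [h3] with z hz
      have h5 : Continuous fun t : ℝ => ‖((deriv β t - deriv β (f z) : ℝ) : ℂ) * G z‖ ^ 2 := by
        fun_prop
      simpa [Function.comp_def] using (h5.tendsto (f z)).comp hz
  refine H10_mk ?_ (MemLp.add ?_ ?_) hT ?_ ?_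
  · refine h.memf.of_le_mul (c := L * M) (mβ.mul mψ) (Eventually.of_forall fun z => ?_)
    rw [norm_mul, mul_right_comm]
    exact mul_le_mul (hlip0 _) (hM z) (norm_nonneg _) (by positivity)
  · refine h.memG.of_le_mul (c := L * M) ((continuous_ofReal.comp_aestronglyMeasurable
      ((hβ'.comp_aestronglyMeasurable mf).mul mψ)).mul mG) (Eventually.of_forall fun z => ?_)
    rw [norm_mul, norm_real, norm_mul]
    exact mul_le_mul_of_nonneg_right (mul_le_mul (hL _) (hM z) (norm_nonneg _) hL0) (norm_nonneg _)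
  · refine h.memf.of_le_mul (c := L * N) ((continuous_ofReal.comp_aestronglyMeasurable mβ).mul
      (continuous_grad hψ).aestronglyMeasurable) (Eventually.of_forall fun z => ?_)
    rw [norm_mul, norm_real, mul_right_comm]
    exact mul_le_mul (hlip0 _) (hN z) (norm_nonneg _) (by positivity)
  · refine H10_squeeze (c := L * M) (d := 0) (fun n => (H10_memf (hφ n)).sub h.memf)
      (fun n => (H10_memf (hφ n)).sub h.memf) (fun n z => ?_) h1 h1
    rw [zero_mul, add_zero, ← sub_mul, norm_mul, mul_right_comm]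
    exact mul_le_mul (hlip _ _) (hM z) (norm_nonneg _) (by positivity)
  · have hA : ∀ n, MemLp (fun z => L * N * ‖φ n z - f z‖ + L * M * ‖grad (φ n) z - G z‖) 2 volume :=
      fun n => (((H10_memf (hφ n)).sub h.memf).norm.const_mul _).add
        (((H10_memG (hφ n)).sub h.memG).norm.const_mul _)
    have hN0 : 0 ≤ N := (norm_nonneg _).trans (hN 0)
    have hA0 := H10_squeeze (A := fun n z => L * N * ‖φ n z - f z‖ + L * M * ‖grad (φ n) z - G z‖)
      (c := L * N) (d := L * M) (fun n => (H10_memf (hφ n)).sub h.memf)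
      (fun n => (H10_memG (hφ n)).sub h.memG)
      (fun n z => le_of_eq (Real.norm_of_nonneg (by positivity))) h1 h2
    refine H10_squeeze (c := 1) (d := M) hA hR (fun n z => ?_) hA0 hR0
    have hd := (hφ n).smooth.differentiable one_ne_zero z
    rw [grad_mul (f := fun z => β (φ n z)) ((hβd _).comp z hd) (hψ.differentiable one_ne_zero z),
      grad_comp (hβd _).hasDerivAt hd, one_mul, Real.norm_of_nonneg (by positivity)]
    have e : (β (φ n z) : ℂ) * grad ψ z + ψ z * ((deriv β (φ n z) : ℝ) * grad (φ n) z) -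
        (((deriv β (f z) * ψ z : ℝ) : ℂ) * G z + (β (f z) : ℝ) * grad ψ z) =
        ((β (φ n z) - β (f z) : ℝ) : ℂ) * grad ψ z +
        ((deriv β (φ n z) * ψ z : ℝ) : ℂ) * (grad (φ n) z - G z) +
        ψ z * (((deriv β (φ n z) - deriv β (f z) : ℝ) : ℂ) * G z) := by
      push_cast
      ring
    rw [e]
    refine norm_add₃_le.trans (add_le_add (add_le_add ?_ ?_) ?_)
    · rw [norm_mul, norm_real, mul_right_comm]
      exact mul_le_mul (hlip _ _) (hN z) (norm_nonneg _) (by positivity)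
    · rw [norm_mul, norm_real, norm_mul]
      exact mul_le_mul_of_nonneg_right (mul_le_mul (hL _) (hM z) (norm_nonneg _) hL0)
        (norm_nonneg _)
    · rw [norm_mul (ψ z : ℂ), norm_real]
      exact mul_le_mul_of_nonneg_right (hM z) (norm_nonneg _)

theorem H10_var {G H : ℂ → ℂ} (hf : H10 Ω f G) (hg : H10 Ω g H)
    (hq : ∀ t : ℝ, lam * ∫ z, (1 * f z + t * g z) ^ 2 ≤ ∫ z, ‖(1 : ℝ) * G z + t * H z‖ ^ 2)
    (h0 : ∫ z, ‖G z‖ ^ 2 ≤ lam * ∫ z, f z ^ 2) :
    ∫ z, dot (G z) (H z) = lam * ∫ z, f z * g z := by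
  have h1 : ∀ t : ℝ, 0 ≤ 2 * t * ((∫ z, dot (G z) (H z)) - lam * ∫ z, f z * g z) +
      t ^ 2 * ((∫ z, ‖H z‖ ^ 2) - lam * ∫ z, g z ^ 2) := fun t => by
    have h2 := hq t
    have h3 := H10_quad hf.memf hg.memf t
    have h4 := H10_quad hf.memG hg.memG t
    simp only [← H10_rsq, ← H10_rinner, smul_eq_mul] at h3
    simp only [← dot_eq_inner, real_smul] at h4
    simp only [one_mul, ofReal_one] at h2
    rw [h3, h4] at h2
    linarith
  generalize (∫ z, ‖H z‖ ^ 2) - lam * ∫ z, g z ^ 2 = C at h1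
  rw [← sub_eq_zero]
  generalize (∫ z, dot (G z) (H z)) - lam * ∫ z, f z * g z = B at h1
  have hC : 0 < |C| + 1 := by positivity
  have h2 := h1 (-B / (|C| + 1))
  have h3 : 2 * (-B / (|C| + 1)) * B + (-B / (|C| + 1)) ^ 2 * C =
      (B / (|C| + 1)) ^ 2 * (C - 2 * (|C| + 1)) := by
    field_simp
    ring
  rw [h3] at h2
  have h4 : C - 2 * (|C| + 1) < 0 := by linarith [le_abs_self C, abs_nonneg C]
  have h5 : (B / (|C| + 1)) ^ 2 = 0 := le_antisymm (by nlinarith) (sq_nonneg _)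
  simpa [hC.ne'] using h5

theorem weak_of_min {G : ℂ → ℂ} (hf : H10 Ω f G)
    (hq : ∀ g H, H10 Ω g H → lam * ∫ z, g z ^ 2 ≤ ∫ z, ‖H z‖ ^ 2)
    (h0 : ∫ z, ‖G z‖ ^ 2 ≤ lam * ∫ z, f z ^ 2) : Weak lam Ω f G := fun _ hφ =>
  H10_var hf hφ.h10 (fun t => hq _ _ (hf.comb hφ.h10 1 t)) h0

theorem H10_int_comb (hf : MemLp f 2 volume) (hg : MemLp g 2 volume) (hu : MemLp u 2 volume)
    (a b : ℝ) : ∫ z, (a * f z + b * g z) * u z = a * (∫ z, f z * u z) + b * ∫ z, g z * u z := by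
  simp only [add_mul, mul_assoc]
  rw [integral_add ((H10_intf hf hu).const_mul a) ((H10_intf hg hu).const_mul b),
    integral_const_mul, integral_const_mul]

theorem WFirst.weak_of_orth {lam1 : ℝ} {f1 : ℂ → ℝ} {G1 G : ℂ → ℂ} (h : WFirst Ω lam1 f1 G1)
    (hf : H10 Ω f G) (ho : ∫ z, f z * f1 z = 0)
    (h0 : ∫ z, ‖G z‖ ^ 2 ≤ lam2c Ω * ∫ z, f z ^ 2) : Weak (lam2c Ω) Ω f G := by
  intro φ hφ
  have hg := hφ.h10.comb h.h10 1 (-∫ z, φ z * f1 z)
  have h1 : ∫ z, f1 z * f1 z = 1 := by simpa only [sq] using h.one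
  have h2 := H10_int_comb (H10_memf hφ) h.h10.memf h.h10.memf 1 (-∫ z, φ z * f1 z)
  rw [h1, one_mul, mul_one, add_neg_cancel] at h2
  have h3 := H10_var hf hg (fun t => h.ray2 _ _ (hf.comb hg 1 t) (by
    rw [H10_int_comb hf.memf hg.memf h.h10.memf, ho, h2]
    simp)) h0
  have h4 := H10_int_comb (H10_memf hφ) h.h10.memf hf.memf 1 (-∫ z, φ z * f1 z)
  have h5 := h.weak.h10 h.h10.memf h.h10.memG hf
  simp only [mul_comm _ (f _)] at h4 h5
  rw [ho] at h4 h5
  generalize (-∫ z, φ z * f1 z) = c at h3 h4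
  have e : ∀ z, dot (G z) (((1 : ℝ) : ℂ) * grad φ z + c * G1 z) =
      dot (G z) (grad φ z) + c * dot (G1 z) (G z) := fun z => by
    simp [dot]
    ring
  simp only [e] at h3
  rw [integral_add (H10_intG hf.memG (H10_memG hφ)) ((H10_intG h.h10.memG hf.memG).const_mul c),
    integral_const_mul, h5, h4] at h3
  simpa using h3

end Pool.Agent.L2K
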