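import Pool.Agent.P.MP_2f6447_an.K.Basic

/-! Derivatives, Killing derivatives and similarities of Helmholtz solutions. -/

open Set MeasureTheory Filter Topology Complex Metric
open scoped ContDiff ComplexConjugate

namespace Pool.Agent.L2K

variable {Ω U : Set ℂ} {lam : ℝ} {u w f g : ℂ → ℝ}

theorem HelmD_two : (2 : WithTop ℕ∞) ≤ ∞ := by
  have h : ((2 : ℕ∞) : WithTop ℕ∞) ≤ ((⊤ : ℕ∞) : WithTop ℕ∞) := WithTop.coe_le_coe.2 le_top
  exact h

theorem HelmD_cd {z : ℂ} (h : ContDiffAt ℝ ∞ w z) (v : ℂ) : ContDiffAt ℝ ∞ (D v w) z := by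
  have h1 : ContDiffAt ℝ ∞ (fderiv ℝ w) z := h.fderiv_right (m := ∞) (by simp)
  exact h1.clm_apply contDiffAt_const

theorem HelmD_diff {z : ℂ} (h : ContDiffAt ℝ ∞ w z) : DifferentiableAt ℝ w z :=
  h.differentiableAt (by simp)

theorem HelmD_DD {z : ℂ} (h : ContDiffAt ℝ ∞ w z) (a b : ℂ) :
    D a (D b w) z = fderiv ℝ (fderiv ℝ w) z a b := by
  have h1 : ContDiffAt ℝ ∞ (fderiv ℝ w) z := h.fderiv_right (m := ∞) (by simp)
  have h2 : DifferentiableAt ℝ (fderiv ℝ w) z := h1.differentiableAt (by simp)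
  show fderiv ℝ (fun y => fderiv ℝ w y b) z a = _
  rw [fderiv_clm_apply h2 (differentiableAt_const b)]
  simp

theorem HelmD_comm {z : ℂ} (h : ContDiffAt ℝ ∞ w z) (a b : ℂ) :
    D a (D b w) z = D b (D a w) z := by
  rw [HelmD_DD h, HelmD_DD h]
  have h2 : ContDiffAt ℝ 2 w z := h.of_le HelmD_two
  exact (h2.isSymmSndFDerivAt (by simp)).eq a b

theorem HelmD_congr {z : ℂ} (h : f =ᶠ[𝓝 z] g) (v : ℂ) : D v f z = D v g z := by
  unfold D
  rw [h.fderiv_eq]

theorem HelmD_add {z : ℂ} (hf : DifferentiableAt ℝ f z) (hg : DifferentiableAt ℝ g z) (v : ℂ) :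
    D v (fun x => f x + g x) z = D v f z + D v g z := by
  unfold D
  rw [fderiv_fun_add hf hg]
  rfl

theorem HelmD_cmul {z : ℂ} (hf : DifferentiableAt ℝ f z) (c : ℝ) (v : ℂ) :
    D v (fun x => c * f x) z = c * D v f z := by
  unfold D
  rw [fderiv_const_mul hf]
  rfl

theorem HelmD_lin {z : ℂ} (hf : DifferentiableAt ℝ f z) (l : ℂ →L[ℝ] ℝ) (v : ℂ) :
    D v (fun x => l x * f x) z = l v * f z + l z * D v f z := by
  unfold D
  rw [fderiv_fun_mul l.differentiableAt hf, l.fderiv]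
  simp only [add_apply, smul_apply, smul_eq_mul]
  ring

theorem Helm.D_comm (h : Helm lam U w) (a b : ℂ) {z : ℂ} (hz : z ∈ U) :
    D a (D b w) z = D b (D a w) z := HelmD_comm (h.contDiffAt hz) a b

theorem Helm.of_D (h : Helm lam U w) (v : ℂ) : Helm lam U (D v w) := by
  refine ⟨h.isOpen, fun z hz => (HelmD_cd (h.contDiffAt hz) v).contDiffWithinAt, fun z hz => ?_⟩
  have hU : U ∈ 𝓝 z := h.isOpen.mem_nhds hz
  have hw := h.contDiffAt hz
  have key : ∀ a : ℂ, D a (D a (D v w)) z = D v (D a (D a w)) z := by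
    intro a
    have e : D a (D v w) =ᶠ[𝓝 z] D v (D a w) := by
      filter_upwards [hU] with y hy using h.D_comm a v hy
    rw [HelmD_congr e a, HelmD_comm (HelmD_cd hw a)]
  have e2 : (fun x => D 1 (D 1 w) x + D I (D I w) x) =ᶠ[𝓝 z] fun x => -lam * w x := by
    filter_upwards [hU] with y hy
    have := h.eq y hy
    unfold lap at this
    linarith
  have e3 := HelmD_congr e2 v
  rw [HelmD_add (HelmD_diff (HelmD_cd (HelmD_cd hw 1) 1)) (HelmD_diff (HelmD_cd (HelmD_cd hw I) I)),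
    HelmD_cmul (HelmD_diff hw)] at e3
  unfold lap
  rw [key, key, e3]
  ring

theorem HelmD_lap_lin (h : Helm lam U f) (l : ℂ →L[ℝ] ℝ) {z : ℂ} (hz : z ∈ U) :
    lap (fun x => l x * f x) z = -lam * (l z * f z) + 2 * (l 1 * D 1 f z + l I * D I f z) := by
  have hU : U ∈ 𝓝 z := h.isOpen.mem_nhds hz
  have hw := h.contDiffAt hz
  have key : ∀ a : ℂ, D a (D a fun x => l x * f x) z =
      2 * (l a * D a f z) + l z * D a (D a f) z := by
    intro a
    have e : (D a fun x => l x * f x) =ᶠ[𝓝 z] fun x => l a * f x + l x * D a f x := by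
      filter_upwards [hU] with y hy using HelmD_lin (h.differentiableAt hy) l a
    have d1 := HelmD_diff hw
    have d2 := HelmD_diff (HelmD_cd hw a)
    rw [HelmD_congr e a, HelmD_add (d1.const_mul _) (l.differentiableAt.fun_mul d2), HelmD_cmul d1,
      HelmD_lin d2]
    ring
  have e := h.eq z hz
  unfold lap at e ⊢
  rw [key, key]
  linear_combination l z * e

theorem Helm.of_kill (h : Helm lam U w) (b : ℂ) (c : ℝ) :
    Helm lam U fun z => dot (grad w z) (kill b c z) := by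
  have h1 := h.of_D 1
  have hI := h.of_D I
  have hR : Helm lam U fun z => reCLM z * D I w z + (-imCLM) z * D 1 w z := by
    have c1 : ∀ z ∈ U, ContDiffAt ℝ ∞ (fun z => reCLM z * D I w z) z := fun z hz =>
      reCLM.contDiff.contDiffAt.mul (hI.contDiffAt hz)
    have c2 : ∀ z ∈ U, ContDiffAt ℝ ∞ (fun z => (-imCLM) z * D 1 w z) z := fun z hz =>
      (-imCLM).contDiff.contDiffAt.mul (h1.contDiffAt hz)
    refine ⟨h.isOpen, fun z hz => ((c1 z hz).add (c2 z hz)).contDiffWithinAt, fun z hz => ?_⟩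
    rw [lap_add ((c1 z hz).of_le HelmD_two)
      ((c2 z hz).of_le HelmD_two), HelmD_lap_lin hI _ hz, HelmD_lap_lin h1 _ hz,
      h.D_comm 1 I hz]
    simp
    ring
  refine ((h.of_D b).add (hR.const_mul c)).congr fun z _ => ?_
  show dot (grad w z) (kill b c z) = D b w z + c * (reCLM z * D I w z + (-imCLM) z * D 1 w z)
  rw [D_eq_dot b]
  simp [dot, kill, grad]
  ring

theorem HelmD_comp (u : ℂ → ℝ) (p : ℂ) (L : ℂ ≃L[ℝ] ℂ) (v z : ℂ) :
    D v (fun x => u (p + L x)) z = D (L v) u (p + L z) := by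
  unfold D
  have h1 : fderiv ℝ ((fun y => u (p + y)) ∘ L) z =
      (fderiv ℝ (fun y => u (p + y)) (L z)).comp (L : ℂ →L[ℝ] ℂ) := L.comp_right_fderiv
  have h2 : fderiv ℝ (fun y => u (p + y)) (L z) = fderiv ℝ u (p + L z) := fderiv_comp_add_left p
  rw [h2] at h1
  exact congrArg (fun T : ℂ →L[ℝ] ℝ => T v) h1

theorem HelmD_lap_comp (u : ℂ → ℝ) (p : ℂ) (L : ℂ ≃L[ℝ] ℂ) (z : ℂ) :
    lap (fun x => u (p + L x)) z =
      D (L 1) (D (L 1) u) (p + L z) + D (L I) (D (L I) u) (p + L z) := by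
  have key : ∀ a : ℂ, D a (D a fun x => u (p + L x)) z = D (L a) (D (L a) u) (p + L z) := by
    intro a
    have e : (D a fun x => u (p + L x)) = fun x => D (L a) u (p + L x) :=
      funext fun x => HelmD_comp u p L a x
    rw [e, HelmD_comp]
  unfold lap
  rw [key, key]

/-- multiplication by a non-zero number -/
noncomputable def HelmD_mul {a : ℂ} (ha : a ≠ 0) : ℂ ≃L[ℝ] ℂ :=
  ContinuousLinearEquiv.equivOfInverse (ContinuousLinearMap.mul ℝ ℂ a)
    (ContinuousLinearMap.mul ℝ ℂ a⁻¹)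
    (fun x => by simp [← mul_assoc, inv_mul_cancel₀ ha])
    (fun x => by simp [← mul_assoc, mul_inv_cancel₀ ha])

theorem HelmD_mul_apply {a : ℂ} (ha : a ≠ 0) (x : ℂ) : HelmD_mul ha x = a * x := rfl

theorem grad_sim (u : ℂ → ℝ) (p : ℂ) {a : ℂ} (ha : a ≠ 0) (z : ℂ) :
    grad (fun x => u (sim p a x)) z = conj a * grad u (sim p a z) := by
  have e : ∀ v, D v (fun x => u (sim p a x)) z = dot (grad u (sim p a z)) (a * v) := by
    intro v
    rw [← D_eq_dot]
    exact HelmD_comp u p (HelmD_mul ha) v z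
  have e0 : grad (fun x => u (sim p a x)) z =
      ⟨D 1 (fun x => u (sim p a x)) z, D I (fun x => u (sim p a x)) z⟩ := rfl
  rw [e0, e, e]
  generalize grad u (sim p a z) = G
  apply Complex.ext <;> simp [dot] <;> ring

theorem HelmD_conj (u : ℂ → ℝ) (v z : ℂ) :
    D v (fun x => u (conj x)) z = D (conj v) u (conj z) := by
  have h := HelmD_comp u 0 conjCLE v z
  simpa only [zero_add, conjCLE_apply] using h

theorem grad_conj (u : ℂ → ℝ) (z : ℂ) :
    grad (fun x => u (conj x)) z = conj (grad u (conj z)) := by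
  have e0 : grad (fun x => u (conj x)) z =
      ⟨D 1 (fun x => u (conj x)) z, D I (fun x => u (conj x)) z⟩ := rfl
  rw [e0, HelmD_conj, HelmD_conj, D_eq_dot, D_eq_dot]
  generalize grad u (conj z) = G
  apply Complex.ext <;> simp [dot]

theorem Helm.of_sim (h : Helm lam U w) (p : ℂ) {a : ℂ} (ha : a ≠ 0) :
    Helm (lam * ‖a‖ ^ 2) (sim p a ⁻¹' U) fun z => w (sim p a z) := by
  have hs : ContDiff ℝ ∞ (sim p a) := contDiff_const.add (contDiff_const.mul contDiff_id)
  refine ⟨h.isOpen.preimage hs.continuous,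
    fun z hz => ((h.contDiffAt hz).comp z hs.contDiffAt).contDiffWithinAt, fun z hz => ?_⟩
  have hw := h.contDiffAt hz
  have e1 : lap (fun x => w (sim p a x)) z =
      D (a * 1) (D (a * 1) w) (sim p a z) + D (a * I) (D (a * I) w) (sim p a z) :=
    HelmD_lap_comp w p (HelmD_mul ha) z
  have e2 := h.eq _ hz
  unfold lap at e2
  rw [HelmD_DD hw, HelmD_DD hw] at e1 e2
  rw [e1]
  generalize fderiv ℝ (fderiv ℝ w) (sim p a z) = B at e2 ⊢
  have a1 : a * 1 = a.re • (1 : ℂ) + a.im • I := by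
    apply Complex.ext <;> simp
  have a2 : a * I = (-a.im) • (1 : ℂ) + a.re • I := by
    apply Complex.ext <;> simp
  have a3 : ‖a‖ ^ 2 = a.re * a.re + a.im * a.im := by
    rw [Complex.sq_norm, normSq_apply]
  rw [a1, a2, a3]
  simp only [map_add, map_smul, add_apply, smul_apply,
    smul_eq_mul]
  linear_combination (a.re * a.re + a.im * a.im) * e2

theorem Helm.of_conj (h : Helm lam U w) : Helm lam ((fun z => conj z) ⁻¹' U) fun z => w (conj z) := by
  have hs : ContDiff ℝ ∞ (fun z : ℂ => conj z) := conjCLE.contDiff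
  refine ⟨h.isOpen.preimage hs.continuous,
    fun z hz => ((h.contDiffAt hz).comp z hs.contDiffAt).contDiffWithinAt, fun z hz => ?_⟩
  have hw := h.contDiffAt hz
  have e1 := HelmD_lap_comp w 0 conjCLE z
  simp only [zero_add, conjCLE_apply, map_one, conj_I] at e1
  have e2 := h.eq _ hz
  unfold lap at e2
  rw [HelmD_DD hw, HelmD_DD hw] at e1 e2
  rw [e1]
  simp only [map_neg, neg_apply, neg_neg]
  exact e2

theorem HelmD_unit {n : ℂ} (hn : ‖n‖ = 1) : n.re * n.re + n.im * n.im = 1 := by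
  rw [← normSq_apply, ← Complex.sq_norm, hn, one_pow]

theorem rf_eq (M : ℂ) {n : ℂ} (hn : ‖n‖ = 1) (z : ℂ) :
    rf M n z = sim (M + n ^ 2 * conj M) (-n ^ 2) (conj z) := by
  have h := HelmD_unit hn
  apply Complex.ext
  · simp [rf, sim, dot, pow_two]
    linear_combination (M.re - z.re) * h
  · simp [rf, sim, dot, pow_two]
    linear_combination (M.im - z.im) * h

theorem rf_rf (M : ℂ) {n : ℂ} (hn : ‖n‖ = 1) (z : ℂ) : rf M n (rf M n z) = z := by
  have h := HelmD_unit hn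
  apply Complex.ext
  · simp [rf, dot]
    linear_combination (4 * ((z.re - M.re) * n.re + (z.im - M.im) * n.im) * n.re) * h
  · simp [rf, dot]
    linear_combination (4 * ((z.re - M.re) * n.re + (z.im - M.im) * n.im) * n.im) * h

theorem rf_sub (M n z z' : ℂ) : rf M n z - rf M n z' = rf 0 n (z - z') := by
  apply Complex.ext
  · simp [rf, dot]
    ring
  · simp [rf, dot]
    ring

theorem dot_rf_rf {n : ℂ} (hn : ‖n‖ = 1) (a b : ℂ) : dot (rf 0 n a) (rf 0 n b) = dot a b := by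
  have h := HelmD_unit hn
  simp [rf, dot]
  linear_combination (4 * (a.re * n.re + a.im * n.im) * (b.re * n.re + b.im * n.im)) * h

theorem dot_rf_n (M : ℂ) {n : ℂ} (hn : ‖n‖ = 1) (z : ℂ) :
    dot (rf M n z - M) n = -dot (z - M) n := by
  have h := HelmD_unit hn
  simp [rf, dot]
  linear_combination (-2 * ((z.re - M.re) * n.re + (z.im - M.im) * n.im)) * h

theorem isometry_rf (M : ℂ) {n : ℂ} (hn : ‖n‖ = 1) : Isometry (rf M n) := by
  refine Isometry.of_dist_eq fun x y => ?_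
  rw [dist_eq_norm, dist_eq_norm, rf_sub]
  have h := dot_rf_rf hn (x - y) (x - y)
  rw [dot_self, dot_self] at h
  exact (pow_left_inj₀ (norm_nonneg _) (norm_nonneg _) two_ne_zero).1 h

theorem measurePreserving_rf (M : ℂ) {n : ℂ} (hn : ‖n‖ = 1) :
    MeasurePreserving (rf M n) volume volume := by
  have hc : -n ^ 2 ∈ Submonoid.unitSphere ℂ := by
    simp [Submonoid.unitSphere, hn]
  have h1 : MeasurePreserving (conjLIE : ℂ → ℂ) volume volume := conjLIE.measurePreserving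
  have h2 : MeasurePreserving (rotation ⟨-n ^ 2, hc⟩ : ℂ → ℂ) volume volume :=
    (rotation ⟨-n ^ 2, hc⟩).measurePreserving
  have h3 : MeasurePreserving (fun z : ℂ => (M + n ^ 2 * conj M) + z) volume volume :=
    measurePreserving_add_left _ _
  have e : rf M n = (fun z : ℂ => (M + n ^ 2 * conj M) + z) ∘
      ((rotation ⟨-n ^ 2, hc⟩ : ℂ → ℂ) ∘ (conjLIE : ℂ → ℂ)) := by
    funext z
    rw [rf_eq M hn]
    rfl
  rw [e]
  exact h3.comp (h2.comp h1)

theorem integral_comp_rf (M : ℂ) {n : ℂ} (hn : ‖n‖ = 1) (F : ℂ → ℝ) :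
    ∫ z, F (rf M n z) = ∫ z, F z :=
  (measurePreserving_rf M hn).integral_comp
    (isometry_rf M hn).isClosedEmbedding.measurableEmbedding F

theorem HelmD_ne {n : ℂ} (hn : ‖n‖ = 1) : -n ^ 2 ≠ 0 := by
  have : n ≠ 0 := by
    intro h; rw [h, norm_zero] at hn; exact zero_ne_one hn
  exact neg_ne_zero.2 (pow_ne_zero _ this)

theorem grad_rf (u : ℂ → ℝ) (M : ℂ) {n : ℂ} (hn : ‖n‖ = 1) (z : ℂ) :
    grad (fun x => u (rf M n x)) z = rf 0 n (grad u (rf M n z)) := by
  have e : (fun x => u (rf M n x)) =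
      fun x => (fun y => u (sim (M + n ^ 2 * conj M) (-n ^ 2) y)) (conj x) :=
    funext fun x => by rw [rf_eq M hn]
  rw [e, grad_conj (fun y => u (sim (M + n ^ 2 * conj M) (-n ^ 2) y)), grad_sim u _ (HelmD_ne hn),
    ← rf_eq M hn, rf_eq 0 hn]
  simp [sim]

theorem Helm.of_rf (h : Helm lam U w) (M : ℂ) {n : ℂ} (hn : ‖n‖ = 1) :
    Helm lam (rf M n ⁻¹' U) fun z => w (rf M n z) := by
  have h1 := (h.of_sim (M + n ^ 2 * conj M) (HelmD_ne hn)).of_conj
  have e : rf M n = fun z => sim (M + n ^ 2 * conj M) (-n ^ 2) (conj z) := funext (rf_eq M hn)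
  have e2 : lam * ‖-n ^ 2‖ ^ 2 = lam := by simp [hn]
  rw [e2] at h1
  rw [e]
  exact h1

end Pool.Agent.L2K
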