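import Pool.Agent.P.MP_2f6447_an.K.HelmD

/-! Invariance of the variational notions under similarities and reflections. -/

open Set MeasureTheory Filter Topology Complex Metric
open scoped ContDiff ComplexConjugate

namespace Pool.Agent.L2K

variable {Ω U : Set ℂ} {lam : ℝ} {u w f g : ℂ → ℝ}

/-- the similarity as a homeomorphism -/
noncomputable def Inv_simH (p : ℂ) {a : ℂ} (ha : a ≠ 0) : ℂ ≃ₜ ℂ :=
  (Homeomorph.mulLeft₀ a ha).trans (Homeomorph.addLeft p)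

theorem Inv_simH_coe (p : ℂ) {a : ℂ} (ha : a ≠ 0) : ⇑(Inv_simH p ha) = sim p a := rfl

/-- the reflection as a homeomorphism -/
noncomputable def Inv_rfH (M : ℂ) {n : ℂ} (hn : ‖n‖ = 1) : ℂ ≃ₜ ℂ where
  toFun := rf M n
  invFun := rf M n
  left_inv := rf_rf M hn
  right_inv := rf_rf M hn
  continuous_toFun := (isometry_rf M hn).continuous
  continuous_invFun := (isometry_rf M hn).continuous

theorem Inv_rfH_coe (M : ℂ) {n : ℂ} (hn : ‖n‖ = 1) : ⇑(Inv_rfH M hn) = rf M n := rfl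

theorem Inv_conjH_coe : ⇑conjCLE.toHomeomorph = fun z : ℂ => conj z := rfl

/-- the map respects affine combinations -/
def Inv_Aff (T : ℂ → ℂ) : Prop :=
  ∀ (s t : ℝ) (x y : ℂ), s + t = 1 → T (s • x + t • y) = s • T x + t • T y

theorem Inv_aff_sim (p a : ℂ) : Inv_Aff (sim p a) := by
  intro s t x y h
  have h1 : (s : ℂ) + t = 1 := by exact_mod_cast h
  simp only [sim, real_smul]
  linear_combination (-p) * h1

theorem Inv_aff_conj : Inv_Aff fun z => conj z := by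
  intro s t x y _
  simp

theorem Inv_rf_eq (M : ℂ) {n : ℂ} (hn : ‖n‖ = 1) :
    rf M n = sim (M + n ^ 2 * conj M) (-n ^ 2) ∘ fun z => conj z := funext (rf_eq M hn)

theorem Inv_aff_rf (M : ℂ) {n : ℂ} (hn : ‖n‖ = 1) : Inv_Aff (rf M n) := by
  intro s t x y h
  rw [rf_eq M hn, rf_eq M hn, rf_eq M hn, ← Inv_aff_sim _ _ s t _ _ h]
  exact congrArg _ (Inv_aff_conj s t x y h)

theorem Inv_norm_sq {n : ℂ} (hn : ‖n‖ = 1) : ‖-n ^ 2‖ = 1 := by simp [hn]

theorem Inv_ne {n : ℂ} (hn : ‖n‖ = 1) : -n ^ 2 ≠ 0 := by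
  rw [← norm_ne_zero_iff, Inv_norm_sq hn]
  exact one_ne_zero

theorem Inv_sim_sim (p : ℂ) {a : ℂ} (ha : a ≠ 0) (z : ℂ) :
    sim p a (sim (-(a⁻¹ * p)) a⁻¹ z) = z := by
  simp only [sim]
  field_simp
  ring

theorem Inv_lip_sim (p a : ℂ) : LipschitzWith ‖a‖₊ (sim p a) :=
  LipschitzWith.of_dist_le_mul fun x y => by
    simp only [sim, dist_eq_norm, coe_nnnorm]
    rw [← norm_mul]
    exact le_of_eq (congrArg _ (by ring))

theorem Inv_area {T : ℂ → ℂ} {c : ℝ} (hT : Continuous T)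
    (hi : ∀ F : ℂ → ℝ, ∫ z, F (T z) = c * ∫ z, F z) (hΩ : MeasurableSet Ω) :
    area (T ⁻¹' Ω) = c * area Ω := by
  have h1 := integral_indicator_one (μ := volume) hΩ
  have h2 := integral_indicator_one (μ := volume) (hT.measurable hΩ)
  unfold area
  rw [Measure.real] at h1 h2
  rw [← h1, ← h2, ← hi]
  rfl

theorem Inv_rsc (T : ℂ ≃ₜ ℂ) {c d : ℝ} (hs : ContDiff ℝ 1 T) (hd : 0 ≤ d)
    (hi : ∀ F : ℂ → ℝ, ∫ z, F (T z) = d * ∫ z, F z)
    (hg : ∀ (u : ℂ → ℝ) (z : ℂ), ‖grad (fun x => u (T x)) z‖ = c * ‖grad u (T z)‖)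
    {r : ℝ} (h : r ∈ RSc Ω) : r * c ^ 2 ∈ RSc (T ⁻¹' Ω) := by
  obtain ⟨f, g, hf, hg', li, ray⟩ := h
  have test : ∀ {φ : ℂ → ℝ}, Test Ω φ → Test (T ⁻¹' Ω) fun x => φ (T x) := fun {φ} k =>
    ⟨k.smooth.comp hs, k.cpt.comp_homeomorph T,
      fun x hx => k.supp (tsupport_comp_subset_preimage φ T.continuous hx)⟩
  refine ⟨_, _, test hf, test hg', ?_, fun a b => ?_⟩
  · rw [LinearIndependent.pair_iff] at li ⊢
    intro a b hab
    refine li a b (funext fun x => ?_)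
    simpa using congrFun hab (T.symm x)
  have e1 : ∀ x : ℂ, ‖fderiv ℝ (fun y => a * f (T y) + b * g (T y)) x‖ ^ 2 =
      c ^ 2 * ‖fderiv ℝ (fun y => a * f y + b * g y) (T x)‖ ^ 2 := by
    intro x
    rw [← norm_grad, ← norm_grad, hg (fun y => a * f y + b * g y), mul_pow]
  simp only [e1]
  rw [integral_const_mul, hi fun x => ‖fderiv ℝ (fun y => a * f y + b * g y) x‖ ^ 2,
    hi fun x => (a * f x + b * g x) ^ 2]
  have h1 := mul_le_mul_of_nonneg_left (mul_le_mul_of_nonneg_left (ray a b) hd) (sq_nonneg c)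
  linarith

theorem Inv_dom (T : ℂ ≃ₜ ℂ) (ha : Inv_Aff T) {K : NNReal} (hK : LipschitzWith K T.symm)
    (h : Dom Ω) : Dom (T ⁻¹' Ω) := by
  refine ⟨h.isOpen.preimage T.continuous, fun x hx y hy s t hs ht e => ?_, ?_,
    h.ne.preimage T.surjective⟩
  · rw [mem_preimage, ha s t x y e]
    exact h.convex hx hy hs ht e
  · rw [← T.image_symm]
    exact hK.isBounded_image h.bdd

theorem Inv_ext {T : ℂ → ℂ} (hb : Function.Bijective T) (ha : Inv_Aff T)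
    (hf : frontier (T ⁻¹' Ω) = T ⁻¹' frontier Ω) (z : ℂ) : Ext (T ⁻¹' Ω) z ↔ Ext Ω (T z) := by
  have h1 : ∀ a b x, x ∈ segment ℝ a b ↔ T x ∈ segment ℝ (T a) (T b) := fun a b x =>
    exists_congr fun s => exists_congr fun t => and_congr_right fun _ => and_congr_right fun _ =>
      and_congr_right fun e => by rw [← ha s t a b e, hb.1.eq_iff]
  have h2 : ∀ a b x, x ∈ openSegment ℝ a b ↔ T x ∈ openSegment ℝ (T a) (T b) := fun a b x =>
    exists_congr fun s => exists_congr fun t => and_congr_right fun _ => and_congr_right fun _ =>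
      and_congr_right fun e => by rw [← ha s t a b e, hb.1.eq_iff]
  unfold Ext
  rw [hf]
  refine and_congr Iff.rfl (Iff.trans (forall₂_congr fun a b => ?_) hb.2.forall₂.symm)
  rw [hb.1.ne_iff, ← h2, subset_def, subset_def, hb.2.forall (p := fun x => x ∈ segment ℝ (T a) _ → _)]
  simp only [← h1, mem_preimage]

theorem integral_comp_sim (p : ℂ) {a : ℂ} (ha : a ≠ 0) (F : ℂ → ℝ) :
    ∫ z, F (sim p a z) = (‖a‖ ^ 2)⁻¹ * ∫ z, F z := by
  have h0 : (0 : ℝ) < ‖a‖ := norm_pos_iff.2 ha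
  have h1 : (‖a‖ : ℂ) ≠ 0 := by exact_mod_cast h0.ne'
  let ϖ : Circle := ⟨a / ‖a‖, by simp [Submonoid.unitSphere, h0.ne']⟩
  have h2 := (rotation ϖ).measurePreserving.integral_comp (rotation ϖ).toHomeomorph.measurableEmbedding
    fun z => F (p + ‖a‖ • z)
  have h3 : ∀ z, p + ‖a‖ • rotation ϖ z = sim p a z := by
    intro z
    rw [rotation_apply, sim, real_smul]
    change p + ‖a‖ * (a / ‖a‖ * z) = _
    field_simp
  simp only [h3] at h2
  rw [h2, Measure.integral_comp_smul volume (fun z => F (p + z)) ‖a‖, finrank_real_complex,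
    integral_add_left_eq_self, abs_of_pos (by positivity), smul_eq_mul]

theorem integral_comp_conj (F : ℂ → ℝ) : ∫ z, F (conj z) = ∫ z, F z := by
  exact conjLIE.measurePreserving.integral_comp conjLIE.toHomeomorph.measurableEmbedding F

theorem area_sim (p : ℂ) {a : ℂ} (ha : a ≠ 0) (hΩ : MeasurableSet Ω) :
    area (sim p a ⁻¹' Ω) = (‖a‖ ^ 2)⁻¹ * area Ω := by
  exact Inv_area (Inv_simH p ha).continuous (integral_comp_sim p ha) hΩ

theorem area_conj (hΩ : MeasurableSet Ω) : area ((fun z => conj z) ⁻¹' Ω) = area Ω := by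
  rw [Inv_area (c := 1) continuous_conj (fun F => by rw [one_mul]; exact integral_comp_conj F) hΩ,
    one_mul]

theorem Inv_rsc_sim (p : ℂ) {a : ℂ} (ha : a ≠ 0) {r : ℝ} (h : r ∈ RSc Ω) :
    r * ‖a‖ ^ 2 ∈ RSc (sim p a ⁻¹' Ω) :=
  Inv_rsc (Inv_simH p ha) (by rw [Inv_simH_coe]; unfold sim; fun_prop) (by positivity)
    (integral_comp_sim p ha) (fun u z => by
      rw [Inv_simH_coe, grad_sim u p ha, norm_mul, norm_conj]) h

theorem Inv_rsc_conj {r : ℝ} (h : r ∈ RSc Ω) : r ∈ RSc ((fun z => conj z) ⁻¹' Ω) := by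
  have h1 := Inv_rsc (c := 1) (d := 1) conjCLE.toHomeomorph conjCLE.contDiff zero_le_one
    (fun F => by rw [one_mul]; exact integral_comp_conj F) (fun u z => by
      rw [Inv_conjH_coe, grad_conj, norm_conj, one_mul]) h
  rwa [one_pow, mul_one] at h1

open Pointwise in
theorem lam2c_sim (p : ℂ) {a : ℂ} (ha : a ≠ 0) (Ω : Set ℂ) :
    lam2c (sim p a ⁻¹' Ω) = lam2c Ω * ‖a‖ ^ 2 := by
  have h0 : (0 : ℝ) < ‖a‖ := norm_pos_iff.2 ha
  have h1 : RSc (sim p a ⁻¹' Ω) = (‖a‖ ^ 2) • RSc Ω := by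
    ext r
    refine ⟨fun h => ?_, ?_⟩
    · have h2 := Inv_rsc_sim (-(a⁻¹ * p)) (inv_ne_zero ha) h
      have h3 : sim (-(a⁻¹ * p)) a⁻¹ ⁻¹' (sim p a ⁻¹' Ω) = Ω := by
        ext z
        rw [mem_preimage, mem_preimage, Inv_sim_sim p ha]
      rw [h3] at h2
      refine ⟨_, h2, ?_⟩
      simp only [smul_eq_mul, norm_inv]
      field_simp
    · rintro ⟨r, h, rfl⟩
      simpa only [smul_eq_mul, mul_comm] using Inv_rsc_sim p ha h
  unfold lam2c
  rw [h1, Real.sInf_smul_of_nonneg (by positivity), smul_eq_mul, mul_comm]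

theorem lam2c_conj (Ω : Set ℂ) : lam2c ((fun z => conj z) ⁻¹' Ω) = lam2c Ω := by
  refine congrArg sInf (Subset.antisymm (fun r h => ?_) fun r h => Inv_rsc_conj h)
  have h1 := Inv_rsc_conj h
  have h2 : (fun z => conj z) ⁻¹' ((fun z : ℂ => conj z) ⁻¹' Ω) = Ω := by
    ext z
    simp
  rwa [h2] at h1

theorem Dom.of_sim (h : Dom Ω) (p : ℂ) {a : ℂ} (ha : a ≠ 0) : Dom (sim p a ⁻¹' Ω) := by
  have h1 : ⇑(Inv_simH p ha).symm = sim (-(a⁻¹ * p)) a⁻¹ := funext fun z =>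
    (Inv_simH p ha).injective (by
      rw [Homeomorph.apply_symm_apply, Inv_simH_coe, Inv_sim_sim p ha])
  exact Inv_dom (Inv_simH p ha) (Inv_aff_sim p a) (h1 ▸ Inv_lip_sim _ _) h

theorem Dom.of_conj (h : Dom Ω) : Dom ((fun z => conj z) ⁻¹' Ω) := by
  exact Inv_dom conjLIE.toHomeomorph Inv_aff_conj conjLIE.symm.lipschitz h

theorem Dom.of_rf (h : Dom Ω) (M : ℂ) {n : ℂ} (hn : ‖n‖ = 1) : Dom (rf M n ⁻¹' Ω) := by
  exact Inv_dom (Inv_rfH M hn) (Inv_aff_rf M hn) (isometry_rf M hn).lipschitz h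

theorem IsMin.of_sim (h : IsMin Ω) (p : ℂ) {a : ℂ} (ha : a ≠ 0) : IsMin (sim p a ⁻¹' Ω) := by
  have h0 : (0 : ℝ) < ‖a‖ := norm_pos_iff.2 ha
  refine ⟨h.toDom.of_sim p ha, fun Ω' k => le_of_eq_of_le ?_ (h.opt Ω' k)⟩
  rw [lam2c_sim p ha, area_sim p ha h.isOpen.measurableSet]
  field_simp

theorem IsMin.of_conj (h : IsMin Ω) : IsMin ((fun z => conj z) ⁻¹' Ω) := by
  refine ⟨h.toDom.of_conj, fun Ω' k => le_of_eq_of_le ?_ (h.opt Ω' k)⟩
  rw [lam2c_conj, area_conj h.isOpen.measurableSet]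

theorem Mn.of_sim (h : Mn Ω lam u) (p : ℂ) {a : ℂ} (ha : a ≠ 0) :
    Mn (sim p a ⁻¹' Ω) (lam * ‖a‖ ^ 2) fun z => ‖a‖⁻¹ * u (sim p a z) := by
  have h0 : (0 : ℝ) < ‖a‖ := norm_pos_iff.2 ha
  obtain ⟨K, hK⟩ := h.lip.lip
  refine ⟨h.toIsMin.of_sim p ha, by rw [lam2c_sim p ha, ← h.lam_eq], ⟨⟨K, ?_⟩, fun z hz => ?_⟩,
    (h.helm.of_sim p ha).const_mul _, ?_⟩
  · refine LipschitzWith.of_dist_le_mul fun x y => ?_
    have h1 := (hK.comp (Inv_lip_sim p a)).dist_le_mul x y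
    simp only [Function.comp, NNReal.coe_mul, coe_nnnorm] at h1
    rw [Real.dist_eq, ← mul_sub, abs_mul, abs_of_pos (inv_pos.2 h0), ← Real.dist_eq,
      inv_mul_le_iff₀ h0]
    linarith
  · rw [h.lip.zero _ hz, mul_zero]
  · simp only [mul_pow]
    rw [integral_const_mul, integral_comp_sim p ha fun z => u z ^ 2,
      area_sim p ha h.isOpen.measurableSet, ← h.nrm]
    field_simp

theorem Mn.of_conj (h : Mn Ω lam u) : Mn ((fun z => conj z) ⁻¹' Ω) lam fun z => u (conj z) := by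
  obtain ⟨K, hK⟩ := h.lip.lip
  refine ⟨h.toIsMin.of_conj, by rw [lam2c_conj, ← h.lam_eq],
    ⟨⟨_, hK.comp isometry_conj.lipschitz⟩, fun z hz => h.lip.zero _ hz⟩, h.helm.of_conj, ?_⟩
  rw [integral_comp_conj fun z => u z ^ 2, area_conj h.isOpen.measurableSet, h.nrm]

theorem Mn.of_rf (h : Mn Ω lam u) (M : ℂ) {n : ℂ} (hn : ‖n‖ = 1) :
    Mn (rf M n ⁻¹' Ω) lam fun z => u (rf M n z) := by
  have h1 := (h.of_sim (M + n ^ 2 * conj M) (Inv_ne hn)).of_conj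
  simp only [Inv_norm_sq hn, one_pow, mul_one, inv_one, one_mul] at h1
  rw [Inv_rf_eq M hn]
  exact h1

theorem frontier_sim (p : ℂ) {a : ℂ} (ha : a ≠ 0) (Ω : Set ℂ) :
    frontier (sim p a ⁻¹' Ω) = sim p a ⁻¹' frontier Ω := by
  exact ((Inv_simH p ha).preimage_frontier Ω).symm

theorem frontier_rf (M : ℂ) {n : ℂ} (hn : ‖n‖ = 1) (Ω : Set ℂ) :
    frontier (rf M n ⁻¹' Ω) = rf M n ⁻¹' frontier Ω := by
  exact ((Inv_rfH M hn).preimage_frontier Ω).symm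

theorem closure_rf (M : ℂ) {n : ℂ} (hn : ‖n‖ = 1) (Ω : Set ℂ) :
    closure (rf M n ⁻¹' Ω) = rf M n ⁻¹' closure Ω := by
  exact ((Inv_rfH M hn).preimage_closure Ω).symm

theorem isN_sim (p : ℂ) {a : ℂ} (ha : a ≠ 0) (z ν : ℂ) :
    IsN (sim p a ⁻¹' Ω) z ν ↔ IsN Ω (sim p a z) (a / ‖a‖ * ν) := by
  have h0 : (0 : ℝ) < ‖a‖ := norm_pos_iff.2 ha
  have h1 : ∀ x, dot (sim p a x - sim p a z) (a / ‖a‖ * ν) = ‖a‖ * dot (x - z) ν := by
    intro x
    have h2 : (‖a‖ : ℂ) ≠ 0 := by exact_mod_cast h0.ne'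
    have h3 : conj (sim p a x - sim p a z) * (a / ‖a‖ * ν) = ‖a‖ * (conj (x - z) * ν) := by
      have h4 := conj_mul' a
      simp only [sim, add_sub_add_left_eq_sub, ← mul_sub, map_mul]
      field_simp
      linear_combination (conj (x - z) * ν) * h4
    rw [dot_eq_re, dot_eq_re, h3, re_ofReal_mul]
  unfold IsN
  refine and_congr ?_ ?_
  · rw [norm_mul, norm_div, norm_real, norm_norm, div_self h0.ne', one_mul]
  · rw [(Inv_simH p ha).surjective.forall (p := fun w => w ∈ Ω → _)]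
    simp only [Inv_simH_coe, h1, mem_preimage, mul_neg_iff, h0, true_and, h0.le.not_gt, false_and,
      or_false]

theorem isN_rf (M : ℂ) {n : ℂ} (hn : ‖n‖ = 1) (z ν : ℂ) :
    IsN (rf M n ⁻¹' Ω) z ν ↔ IsN Ω (rf M n z) (rf 0 n ν) := by
  unfold IsN
  refine and_congr ?_ ?_
  · have h1 := dot_rf_rf hn ν ν
    rw [dot_self, dot_self, sq_eq_sq₀ (norm_nonneg _) (norm_nonneg _)] at h1
    rw [h1]
  · rw [(Inv_rfH M hn).surjective.forall (p := fun w => w ∈ Ω → _)]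
    simp only [Inv_rfH_coe, rf_sub, dot_rf_rf hn, mem_preimage]

theorem ext_sim (p : ℂ) {a : ℂ} (ha : a ≠ 0) (z : ℂ) :
    Ext (sim p a ⁻¹' Ω) z ↔ Ext Ω (sim p a z) := by
  exact Inv_ext (Inv_simH p ha).bijective (Inv_aff_sim p a) (frontier_sim p ha Ω) z

theorem ext_rf (M : ℂ) {n : ℂ} (hn : ‖n‖ = 1) (z : ℂ) :
    Ext (rf M n ⁻¹' Ω) z ↔ Ext Ω (rf M n z) := by
  exact Inv_ext (Inv_rfH M hn).bijective (Inv_aff_rf M hn) (frontier_rf M hn Ω) z

end Pool.Agent.L2K
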