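import Pool.Agent.P.MP_2f6447_an.K.H10

/-! Kato inequality and its mollified form. -/

open Set MeasureTheory Filter Topology Complex Metric
open scoped ContDiff ComplexConjugate

namespace Pool.Agent.L2K

variable {Ω U : Set ℂ} {lam : ℝ} {u w f g : ℂ → ℝ}

theorem Kato_D_smooth {ψ : ℂ → ℝ} (hψ : ContDiff ℝ ∞ ψ) (v : ℂ) : ContDiff ℝ ∞ (D v ψ) :=
  (hψ.fderiv_right (m := ∞) (by norm_cast)).clm_apply contDiff_const

theorem Kato_D_cpt {ψ : ℂ → ℝ} (hc : HasCompactSupport ψ) (v : ℂ) : HasCompactSupport (D v ψ) :=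
  hc.fderiv_apply ℝ v

theorem Kato_lap_cont {ψ : ℂ → ℝ} (hψ : ContDiff ℝ ∞ ψ) : Continuous (lap ψ) :=
  (Kato_D_smooth (Kato_D_smooth hψ 1) 1).continuous.add
    (Kato_D_smooth (Kato_D_smooth hψ I) I).continuous

theorem Kato_lap_cpt {ψ : ℂ → ℝ} (hc : HasCompactSupport ψ) : HasCompactSupport (lap ψ) :=
  (Kato_D_cpt (Kato_D_cpt hc 1) 1).add (Kato_D_cpt (Kato_D_cpt hc I) I)

theorem Kato_off {ψ : ℂ → ℝ} {z : ℂ} (hz : z ∉ tsupport ψ) : grad ψ z = 0 ∧ lap ψ z = 0 := by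
  have e : ψ =ᶠ[𝓝 z] fun _ => 0 := notMem_tsupport_iff_eventuallyEq.1 hz
  refine ⟨(grad_congr e).trans (grad_const 0 z), (lap_congr e).trans ?_⟩
  have e1 : ∀ v, D v (fun _ : ℂ => (0 : ℝ)) = fun _ => 0 := fun v => by
    funext x
    simp [D]
  simp [lap, e1]

theorem Kato_grad_memLp {ψ : ℂ → ℝ} (hψ : ContDiff ℝ ∞ ψ) (hc : HasCompactSupport ψ) :
    MemLp (grad ψ) 2 volume :=
  (continuous_grad (hψ.of_le (by norm_cast))).memLp_of_hasCompactSupport
    (HasCompactSupport.intro hc fun _ hz => (Kato_off hz).1)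

theorem Kato_int_dot {G H : ℂ → ℂ} (hG : MemLp G 2 volume) (hH : MemLp H 2 volume) :
    Integrable fun z => dot (G z) (H z) := by
  refine (hG.norm.integrable_mul hH.norm).mono' ?_
    (Eventually.of_forall fun z => abs_dot_le _ _)
  simp only [dot_eq_inner]
  exact hG.1.inner hH.1

theorem Kato_cutoff {ψ : ℂ → ℝ} (hc : HasCompactSupport ψ) :
    ∃ χ : ℂ → ℝ, ContDiff ℝ 1 χ ∧ HasCompactSupport χ ∧
      ∀ z ∈ tsupport ψ, χ z = 1 ∧ grad χ z = 0 := by
  obtain ⟨R, hR0, hR⟩ := hc.isCompact.isBounded.subset_ball_lt 0 (0 : ℂ)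
  let b : ContDiffBump (0 : ℂ) := ⟨R, R + 1, hR0, by linarith⟩
  refine ⟨b, b.contDiff, b.hasCompactSupport, fun z hz => ?_⟩
  have e : (b : ℂ → ℝ) =ᶠ[𝓝 z] fun _ => 1 := b.eventuallyEq_one_of_mem_ball (hR hz)
  exact ⟨e.self_of_nhds, (grad_congr e).trans (grad_const 1 z)⟩

theorem Kato_core {G : ℂ → ℂ} (h : H10 Ω f G) (hw : Weak lam Ω f G) (hl : 0 ≤ lam) {ψ : ℂ → ℝ}
    (hψ : ContDiff ℝ ∞ ψ) (hc : HasCompactSupport ψ) (h0 : ∀ z, 0 ≤ ψ z) {β γ : ℝ → ℝ} {L ε : ℝ}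
    (hβ : ContDiff ℝ 1 β) (hγ : ContDiff ℝ 1 γ) (hd : deriv β = γ) (β0 : β 0 = 0) (γ0 : γ 0 = 0)
    (h1 : ∀ t, |γ t| ≤ 1) (h2 : ∀ t, 0 ≤ deriv γ t) (h3 : ∀ t, |deriv γ t| ≤ L)
    (h4 : ∀ t, |β t - (|t|)| ≤ ε) :
    0 ≤ (∫ z, |f z| * (lap ψ z + lam * ψ z)) + ε * ∫ z, |lap ψ z| := by
  obtain ⟨χ, hχ, hχc, hχ1⟩ := Kato_cutoff hc
  have hψ1 : ContDiff ℝ 1 ψ := hψ.of_le (by norm_cast)
  have A := h.comp_mul hγ γ0 h3 hψ1 hc
  have B := h.comp_mul hβ β0 (L := 1) (by rw [hd]; exact h1) hχ hχc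
  have a1 := hw.h10 h.memf h.memG A
  have b1 := B.ibp hψ hc
  have mlap : MemLp (lap ψ) 2 volume :=
    (Kato_lap_cont hψ).memLp_of_hasCompactSupport (Kato_lap_cpt hc)
  have mψ : MemLp ψ 2 volume := hψ.continuous.memLp_of_hasCompactSupport hc
  have i1 := Kato_int_dot h.memG A.memG
  have i2 := Kato_int_dot B.memG (Kato_grad_memLp hψ hc)
  have c1 := integral_mono i2 i1 fun z => by
    by_cases hz : z ∈ tsupport ψ
    · have k := mul_nonneg (mul_nonneg (h2 (f z)) (h0 z))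
        (add_nonneg (mul_self_nonneg (G z).re) (mul_self_nonneg (G z).im))
      simp only [hd, (hχ1 z hz).1, (hχ1 z hz).2, dot, add_re, add_im, mul_re, mul_im, ofReal_re,
        ofReal_im, zero_re, zero_im]
      nlinarith
    · simp [(Kato_off hz).1, image_eq_zero_of_notMem_tsupport hz, dot]
  rw [a1, b1] at c1
  have i3 : Integrable fun z => β (f z) * χ z * lap ψ z := B.memf.integrable_mul mlap
  have i4 : Integrable fun z => f z * (γ (f z) * ψ z) := h.memf.integrable_mul A.memf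
  have i5 : Integrable fun z => |f z| * (lap ψ z + lam * ψ z) :=
    h.memf.norm.integrable_mul (mlap.add (mψ.const_mul lam))
  have i6 : Integrable fun z => |lap ψ z| :=
    ((Kato_lap_cont hψ).integrable_of_hasCompactSupport (Kato_lap_cpt hc)).abs
  have c2 := integral_mono (i3.add (i4.const_mul lam)) (i5.add (i6.const_mul ε)) fun z => by
    simp only [Pi.add_apply]
    by_cases hz : z ∈ tsupport ψ
    · have k1 : (β (f z) - |f z|) * lap ψ z ≤ ε * |lap ψ z| :=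
        (le_abs_self _).trans (by
          rw [abs_mul]
          exact mul_le_mul_of_nonneg_right (h4 _) (abs_nonneg _))
      have k2 : f z * γ (f z) ≤ |f z| :=
        (le_abs_self _).trans (by
          rw [abs_mul]
          exact mul_le_of_le_one_right (abs_nonneg _) (h1 _))
      have k3 := mul_le_mul_of_nonneg_right k2 (mul_nonneg hl (h0 z))
      rw [(hχ1 z hz).1]
      nlinarith
    · simp [(Kato_off hz).2, image_eq_zero_of_notMem_tsupport hz]
  rw [integral_add' i3 (i4.const_mul lam), integral_add' i5 (i6.const_mul ε), integral_const_mul,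
    integral_const_mul] at c2
  linarith

theorem Kato_eps {ε : ℝ} (hε : 0 < ε) : ∃ (β γ : ℝ → ℝ) (L : ℝ), ContDiff ℝ 1 β ∧ ContDiff ℝ 1 γ ∧
    deriv β = γ ∧ β 0 = 0 ∧ γ 0 = 0 ∧ (∀ t, |γ t| ≤ 1) ∧ (∀ t, 0 ≤ deriv γ t) ∧
    (∀ t, |deriv γ t| ≤ L) ∧ ∀ t, |β t - (|t|)| ≤ ε := by
  have p : ∀ t : ℝ, 0 < t ^ 2 + ε ^ 2 := fun t => by positivity
  have q : ∀ t : ℝ, 0 < √(t ^ 2 + ε ^ 2) := fun t => Real.sqrt_pos.2 (p t)
  have s1 : ContDiff ℝ 1 fun t : ℝ => √(t ^ 2 + ε ^ 2) :=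
    ContDiff.sqrt (by fun_prop) fun t => (p t).ne'
  have d1 : ∀ t : ℝ, HasDerivAt (fun t : ℝ => √(t ^ 2 + ε ^ 2)) (t / √(t ^ 2 + ε ^ 2)) t := fun t => by
    have := (((hasDerivAt_pow 2 t).add_const (ε ^ 2)).sqrt (p t).ne')
    refine this.congr_deriv ?_
    have := (q t).ne'
    push_cast
    field_simp
  have sq : ∀ t : ℝ, √(t ^ 2 + ε ^ 2) ^ 2 = t ^ 2 + ε ^ 2 := fun t => Real.sq_sqrt (p t).le
  have d2 : ∀ t : ℝ, deriv (fun t : ℝ => t / √(t ^ 2 + ε ^ 2)) t = ε ^ 2 / √(t ^ 2 + ε ^ 2) ^ 3 :=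
    fun t => by
      have k := ((hasDerivAt_id' t).div (d1 t) (q t).ne').deriv
      refine Eq.trans k ?_
      have k1 := (q t).ne'
      have k2 := sq t
      generalize √(t ^ 2 + ε ^ 2) = r at k1 k2
      field_simp
      linarith
  have l1 : ∀ t : ℝ, |t| ≤ √(t ^ 2 + ε ^ 2) := fun t =>
    Real.abs_le_sqrt (le_add_of_nonneg_right (sq_nonneg _))
  have l2 : ∀ t : ℝ, ε ≤ √(t ^ 2 + ε ^ 2) := fun t =>
    Real.le_sqrt_of_sq_le (le_add_of_nonneg_left (sq_nonneg _))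
  have l3 : ∀ t : ℝ, √(t ^ 2 + ε ^ 2) ≤ |t| + ε := fun t =>
    Real.sqrt_le_iff.2 ⟨by positivity, by nlinarith [abs_nonneg t, sq_abs t]⟩
  refine ⟨fun t => √(t ^ 2 + ε ^ 2) - ε, fun t => t / √(t ^ 2 + ε ^ 2), ε ^ 2 / ε ^ 3,
    s1.sub contDiff_const, contDiff_id.div s1 fun t => (q t).ne',
    funext fun t => ((d1 t).sub_const ε).deriv, by simp [hε.le], by simp, fun t => ?_, fun t => ?_,
    fun t => ?_, fun t => ?_⟩
  · rw [abs_div, abs_of_pos (q t)]
    exact (div_le_one (q t)).2 (l1 t)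
  · rw [d2]
    have := q t
    positivity
  · have := q t
    rw [d2, abs_of_nonneg (by positivity)]
    exact div_le_div_of_nonneg_left (sq_nonneg _) (by positivity)
      (pow_le_pow_left₀ hε.le (l2 t) 3)
  · exact abs_le.2 ⟨by linarith [l1 t], by linarith [l3 t]⟩

theorem Kato_D_conv {g ρ : ℂ → ℝ} (hg : LocallyIntegrable g volume) (hρ : ContDiff ℝ ∞ ρ)
    (hc : HasCompactSupport ρ) (v : ℂ) :
    D v (fun z => ∫ t, g t * ρ (z - t)) = fun z => ∫ t, g t * D v ρ (z - t) := by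
  funext z
  have h1 : ContDiff ℝ 1 ρ := hρ.of_le (by norm_cast)
  have k := (hc.hasFDerivAt_convolution_right (ContinuousLinearMap.mul ℝ ℝ) hg h1 z).fderiv
  have k2 := convolution_precompR_apply (ContinuousLinearMap.mul ℝ ℝ) hg (hc.fderiv ℝ)
    (h1.continuous_fderiv one_ne_zero) z v
  rw [← k] at k2
  exact k2

theorem Kato_D_flip {ρ : ℂ → ℝ} (hρ : ContDiff ℝ ∞ ρ) (c : ℝ) (z v : ℂ) :
    D v (fun t => c * ρ (z - t)) = fun t => -c * D v ρ (z - t) := by
  funext t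
  have k := (((hρ.differentiable (by simp)) (z - t)).hasFDerivAt.comp t
    ((hasFDerivAt_id t).const_sub z)).const_mul c
  have k2 : fderiv ℝ (fun t => c * ρ (z - t)) t = _ := k.fderiv
  simp [D, k2]

theorem Kato_lap_flip {ρ : ℂ → ℝ} (hρ : ContDiff ℝ ∞ ρ) (z t : ℂ) :
    lap (fun t => ρ (z - t)) t = lap ρ (z - t) := by
  have e : (fun t => ρ (z - t)) = fun t => 1 * ρ (z - t) := by simp
  rw [e]
  simp only [lap, Kato_D_flip hρ, Kato_D_flip (Kato_D_smooth hρ _)]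
  ring

theorem Kato_int_conv {g ρ : ℂ → ℝ} (hg : LocallyIntegrable g volume) (hρ : Continuous ρ)
    (hc : HasCompactSupport ρ) (z : ℂ) : Integrable fun t => g t * ρ (z - t) :=
  hc.convolutionExists_right (ContinuousLinearMap.mul ℝ ℝ) hg hρ z

theorem kato {G : ℂ → ℂ} (h : H10 Ω f G) (hw : Weak lam Ω f G) (hl : 0 ≤ lam) {ψ : ℂ → ℝ}
    (hψ : ContDiff ℝ ∞ ψ) (hc : HasCompactSupport ψ) (h0 : ∀ z, 0 ≤ ψ z) :
    0 ≤ ∫ z, |f z| * (lap ψ z + lam * ψ z) := by
  refine le_of_forall_pos_le_add fun δ hδ => ?_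
  have hC : 0 ≤ ∫ z, |lap ψ z| := integral_nonneg fun z => abs_nonneg _
  obtain ⟨β, γ, L, k1, k2, k3, k4, k5, k6, k7, k8, k9⟩ :=
    Kato_eps (show 0 < δ / ((∫ z, |lap ψ z|) + 1) by positivity)
  refine (Kato_core h hw hl hψ hc h0 k1 k2 k3 k4 k5 k6 k7 k8 k9).trans (add_le_add le_rfl ?_)
  rw [div_mul_eq_mul_div, div_le_iff₀ (by positivity)]
  nlinarith

theorem kato_smooth {G : ℂ → ℂ} (h : H10 Ω f G) (hw : Weak lam Ω f G) (hl : 0 ≤ lam)
    (hΩ : MeasurableSet Ω) (hb : Bornology.IsBounded Ω) :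
    ∃ v : ℕ → ℂ → ℝ, (∀ n, ContDiff ℝ ∞ (v n)) ∧ (∀ n z, 0 ≤ v n z) ∧
      (∀ n z, 0 ≤ lap (v n) z + lam * v n z) ∧
      (∀ n z, v n z ≠ 0 → ∃ p ∈ Ω, ‖z - p‖ ≤ 1 / ((n : ℝ) + 1)) ∧
      (∀ n, ∫ z, v n z = ∫ z, |f z|) ∧ (∀ n, HasCompactSupport (v n)) ∧
      ∀ᵐ z, Tendsto (fun n => v n z) atTop (𝓝 |f z|) := by
  have hz := h.ae_zero hΩ
  have hi : Integrable f := by
    have : IsFiniteMeasure (volume.restrict Ω) :=
      isFiniteMeasure_restrict.2 hb.measure_lt_top.ne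
    exact IntegrableOn.integrable_of_ae_notMem_eq_zero
      ((h.memf.restrict Ω).integrable one_le_two) (hz.mono fun z k k' => (k k').1)
  have hg : LocallyIntegrable (fun z => |f z|) volume := hi.abs.locallyIntegrable
  let φ : ℕ → ContDiffBump (0 : ℂ) := fun n =>
    ⟨1 / ((n : ℝ) + 1) / 2, 1 / ((n : ℝ) + 1), by positivity, half_lt_self (by positivity)⟩
  have s1 : ∀ n, ContDiff ℝ ∞ ((φ n).normed volume) := fun n => (φ n).contDiff_normed
  have s2 : ∀ n, HasCompactSupport ((φ n).normed volume) := fun n => (φ n).hasCompactSupport_normed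
  have supp : ∀ n z, (∫ t, |f t| * (φ n).normed volume (z - t)) ≠ 0 →
      ∃ p ∈ Ω, ‖z - p‖ ≤ 1 / ((n : ℝ) + 1) := fun n z hne => by
    by_contra k
    push Not at k
    refine hne (integral_eq_zero_of_ae (hz.mono fun t ht => ?_))
    by_cases k1 : t ∈ Ω
    · have k2 : z - t ∉ Function.support ((φ n).normed volume) := by
        rw [(φ n).support_normed_eq, mem_ball_zero_iff]
        exact (k t k1).le.not_gt
      simp [Function.notMem_support.1 k2]
    · simp [(ht k1).1]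
  refine ⟨fun n z => ∫ t, |f t| * (φ n).normed volume (z - t), fun n =>
    (s2 n).contDiff_convolution_right (ContinuousLinearMap.mul ℝ ℝ) hg (s1 n),
    fun n z => integral_nonneg fun t => mul_nonneg (abs_nonneg _) ((φ n).nonneg_normed _),
    fun n z => ?_, supp, fun n => ?_, fun n => ?_, ?_⟩
  · have k := kato h hw hl (ψ := fun t => (φ n).normed volume (z - t))
      ((s1 n).comp (contDiff_const.sub contDiff_id))
      ((s2 n).comp_homeomorph (Homeomorph.subLeft z)) fun t => (φ n).nonneg_normed _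
    refine k.trans_eq ?_
    have d : ∀ v, Integrable fun t => |f t| * D v (D v ((φ n).normed volume)) (z - t) := fun v =>
      Kato_int_conv hg (Kato_D_smooth (Kato_D_smooth (s1 n) v) v).continuous
        (Kato_D_cpt (Kato_D_cpt (s2 n) v) v) z
    simp only [Kato_lap_flip (s1 n)]
    simp only [lap, Kato_D_conv hg (s1 n) (s2 n),
      Kato_D_conv hg (Kato_D_smooth (s1 n) _) (Kato_D_cpt (s2 n) _)]
    rw [← integral_add (d 1) (d I), ← integral_const_mul]
    refine Eq.trans ?_ (integral_add ((d 1).add (d I))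
      ((Kato_int_conv hg (s1 n).continuous (s2 n) z).const_mul lam))
    refine integral_congr_ae (Eventually.of_forall fun t => ?_)
    simp only [Pi.add_apply]
    ring
  · have k := integral_convolution (ContinuousLinearMap.mul ℝ ℝ) hi.abs
      ((s1 n).continuous.integrable_of_hasCompactSupport (μ := volume) (s2 n))
    rw [(φ n).integral_normed] at k
    exact k.trans (by simp)
  · obtain ⟨R, hR⟩ := hb.subset_closedBall (0 : ℂ)
    refine HasCompactSupport.intro (isCompact_closedBall (0 : ℂ) (1 / ((n : ℝ) + 1) + R))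
      fun z k => by_contra fun k1 => k ?_
    obtain ⟨p, k2, k3⟩ := supp n z k1
    have k4 := mem_closedBall_zero_iff.1 (hR k2)
    rw [mem_closedBall_zero_iff]
    linarith [norm_le_norm_sub_add z p]
  · refine (ContDiffBump.ae_convolution_tendsto_right_of_locallyIntegrable (φ := φ) (K := 2)
      tendsto_one_div_add_atTop_nhds_zero_nat
      (Eventually.of_forall fun n => le_of_eq (by simp only [φ]; ring)) hg).mono fun z k => ?_
    refine k.congr fun n => ?_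
    rw [convolution_lsmul_swap]
    simp only [smul_eq_mul, mul_comm]

end Pool.Agent.L2K
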