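import Pool.Agent.P.MP_2f6447_an.K.Null

/-! The Killing identity. -/

open Set MeasureTheory Filter Topology Complex Metric
open scoped ContDiff ComplexConjugate

namespace Pool.Agent.L2K

variable {Ω U : Set ℂ} {lam : ℝ} {u w f g : ℂ → ℝ}
variable {Ω' E : Set ℂ} {u' : ℂ → ℝ} {l r : ℝ → ℝ} {nT nB n φ : ℝ}

theorem Kill1_front (hE : IsOpen E) {a b : ℂ} (ha : a ∈ E) (hb : b ∉ E) :
    ∃ p ∈ segment ℝ a b, p ∈ frontier E := by
  by_contra hn
  have hs : segment ℝ a b ⊆ E ∪ (closure E)ᶜ := by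
    intro p hp
    by_cases h1 : p ∈ E
    · exact Or.inl h1
    · refine Or.inr fun h2 => hn ⟨p, hp, ?_⟩
      rw [hE.frontier_eq]
      exact ⟨h2, h1⟩
  have hd : Disjoint E (closure E)ᶜ := disjoint_compl_right.mono_left subset_closure
  exact hb ((convex_segment a b).isPreconnected.subset_left_of_subset_union hE
    isClosed_closure.isOpen_compl hd hs ⟨a, left_mem_segment ℝ a b, ha⟩ (right_mem_segment ℝ a b))

theorem KE.lip (hu : Lip0 Ω u) (hu' : Lip0 Ω' u') (hE : KE Ω Ω' u u' E) :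
    ∃ K, LipschitzWith K (E.indicator fun z => u z - u' z) := by
  obtain ⟨K, hK⟩ := hu.lip
  obtain ⟨K', hK'⟩ := hu'.lip
  have hv : LipschitzWith (K + K') fun z => u z - u' z := hK.sub hK'
  have key : ∀ a ∈ E, ∀ b, b ∉ E → dist (u a - u' a) 0 ≤ ((K + K' : NNReal) : ℝ) * dist a b := by
    intro a ha b hb
    obtain ⟨p, hp, hf⟩ := Kill1_front hE.isOpen ha hb
    have e0 : u p - u' p = 0 := sub_eq_zero.2 (hE.fr p hf)
    have e1 := hv.dist_le_mul a p
    have e2 := dist_add_dist_of_mem_segment hp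
    have e3 : dist a p ≤ dist a b := by linarith [dist_nonneg (x := p) (y := b)]
    rw [e0] at e1
    exact e1.trans (mul_le_mul_of_nonneg_left e3 (NNReal.coe_nonneg _))
  refine ⟨K + K', LipschitzWith.of_dist_le_mul fun a b => ?_⟩
  by_cases ha : a ∈ E <;> by_cases hb : b ∈ E
  · rw [indicator_of_mem ha, indicator_of_mem hb]
    exact hv.dist_le_mul a b
  · rw [indicator_of_mem ha, indicator_of_notMem hb]
    exact key a ha b hb
  · rw [indicator_of_notMem ha, indicator_of_mem hb, dist_comm, dist_comm a b]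
    exact key b hb a ha
  · rw [indicator_of_notMem ha, indicator_of_notMem hb, dist_self]
    positivity

theorem KE.subset (hu : Lip0 Ω u) (hu' : Lip0 Ω' u') (hE : KE Ω Ω' u u' E) : E ⊆ Ω ∪ Ω' := by
  intro z hz
  by_contra hn
  have h := hE.pos z hz
  rw [hu.zero z fun h1 => hn (Or.inl h1), hu'.zero z fun h1 => hn (Or.inr h1)] at h
  exact lt_irrefl _ h

theorem Kill1_tx_zero (z a : ℂ) : tx lam u z a 0 = 0 := by
  simp [tx, dot]

theorem Mn.kill_one (h : Mn Ω lam u) {K : NNReal} (hw : LipschitzWith K w) (h0 : ∀ z, 0 ≤ w z)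
    (he : ∀ p ∈ frontier Ω, Ext Ω p ∨ w p = 0) (b : ℂ) (c : ℝ) {d : ℝ} (hd : 0 < d) :
    ∫ z in Ω ∩ {z | 0 < w z ∧ w z < d}, tx lam u z (kill b c z) (grad w z) = 0 := by
  have hη : LocallyLipschitz fun z => min (d⁻¹ * w z) 1 :=
    (locLip_mul (LocallyLipschitz.const d⁻¹) hw.locallyLipschitz).min_const 1
  have hz := h.LL_null' (locLip_smul hη (locLip_kill b c)) fun p hp => by
    rcases he p hp with h1 | h1
    · exact Or.inl h1
    · right
      simp [h1]
  have hc := hw.continuous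
  have hS : MeasurableSet {z | 0 < w z ∧ w z < d} :=
    ((isOpen_lt continuous_const hc).inter (isOpen_lt hc continuous_const)).measurableSet
  have e : LL lam Ω u (fun z => ((min (d⁻¹ * w z) 1 : ℝ) : ℂ) * kill b c z) =
      ∫ z in Ω, {z | 0 < w z ∧ w z < d}.indicator
        (fun z => d⁻¹ * tx lam u z (kill b c z) (grad w z)) z := by
    refine integral_congr_ae (ae_restrict_of_ae ?_)
    filter_upwards [locLip_ae hη, locLip_ae' (locLip_kill b c)] with z y1 y2
    rw [st_smul y1 y2, st_kill, mul_zero, zero_add]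
    by_cases h1 : w z < d
    · have e1 : (fun z => min (d⁻¹ * w z) 1) =ᶠ[𝓝 z] fun z => d⁻¹ * w z := by
        filter_upwards [(isOpen_lt hc continuous_const).mem_nhds h1] with x hx
        exact min_eq_left ((inv_mul_le_iff₀ hd).2 (by rw [mul_one]; exact le_of_lt hx))
      rw [grad_congr e1, grad_const_mul, tx_smul]
      by_cases h2 : 0 < w z
      · rw [indicator_of_mem (show z ∈ {z | 0 < w z ∧ w z < d} from ⟨h2, h1⟩)]
      · have h3 : w z = 0 := le_antisymm (not_lt.1 h2) (h0 z)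
        have h4 : IsLocalMin w z := Eventually.of_forall fun x => by rw [h3]; exact h0 x
        rw [indicator_of_notMem (fun hh => h2 hh.1), grad_eq_zero_of_isLocalMin h4, Kill1_tx_zero,
          mul_zero]
    · have h3 : min (d⁻¹ * w z) 1 = 1 :=
        min_eq_right ((le_inv_mul_iff₀ hd).2 (by rw [mul_one]; exact not_lt.1 h1))
      have h4 : IsLocalMax (fun z => min (d⁻¹ * w z) 1) z :=
        Eventually.of_forall fun x => by
          show min (d⁻¹ * w x) 1 ≤ min (d⁻¹ * w z) 1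
          rw [h3]
          exact min_le_right _ _
      rw [indicator_of_notMem (fun hh => h1 hh.2), grad_eq_zero_of_isLocalMax h4, Kill1_tx_zero]
  rw [e, setIntegral_indicator hS, integral_const_mul] at hz
  exact (mul_eq_zero.1 hz).resolve_left (inv_ne_zero hd.ne')

theorem tx_sub (u u' : ℂ → ℝ) (z a : ℂ) :
    tx lam u z a (grad u z - grad u' z) - tx lam u' z a (grad u z - grad u' z) =
      dot (grad u z + grad u' z) a / 2 * ‖grad u z - grad u' z‖ ^ 2 +
        lam / 2 * (u z ^ 2 - u' z ^ 2) * dot a (grad u z - grad u' z) := by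
  unfold tx
  rw [← dot_self (grad u z), ← dot_self (grad u' z), ← dot_self (grad u z - grad u' z)]
  simp only [dot, add_re, add_im, sub_re, sub_im]
  ring

theorem Kill1_dot {A B : ℂ → ℂ} (hA : Measurable A) (hB : Measurable B) :
    Measurable fun z => dot (A z) (B z) :=
  ((measurable_re.comp hA).mul (measurable_re.comp hB)).add
    ((measurable_im.comp hA).mul (measurable_im.comp hB))

theorem Kill1_mk (b : ℂ) (c : ℝ) : Measurable (kill b c) :=
  (locLip_kill b c).continuous.measurable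

theorem Kill1_mtx (hu : Continuous u) {A B : ℂ → ℂ} (hA : Measurable A) (hB : Measurable B) :
    Measurable fun z => tx lam u z (A z) (B z) :=
  ((Kill1_dot (measurable_grad u) hA).mul (Kill1_dot (measurable_grad u) hB)).sub
    ((((((measurable_grad u).norm.pow_const 2).sub
      ((hu.measurable.pow_const 2).const_mul lam)).add_const 1).div_const 2).mul (Kill1_dot hA hB))

theorem Kill1_bd (hb : Bornology.IsBounded Ω) (b : ℂ) (c : ℝ) :
    ∃ C : ℝ, 0 ≤ C ∧ ∀ z ∈ Ω, ‖kill b c z‖ ≤ C := by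
  obtain ⟨R, hR⟩ := hb.exists_norm_le
  refine ⟨‖b‖ + |c| * |R|, by positivity, fun z hz => ?_⟩
  have h1 : ‖z‖ ≤ |R| := (hR z hz).trans (le_abs_self _)
  unfold kill
  refine (norm_add_le _ _).trans ?_
  rw [norm_mul, norm_mul, Complex.norm_real, Complex.norm_I, mul_one, Real.norm_eq_abs]
  gcongr

theorem measurable_k1 (u u' : ℂ → ℝ) (b : ℂ) (c : ℝ) : Measurable (k1 u u' (kill b c)) :=
  ((Kill1_dot ((measurable_grad u).add (measurable_grad u')) (Kill1_mk b c)).div_const 2).mul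
    (((measurable_grad u).sub (measurable_grad u')).norm.pow_const 2)

theorem measurable_k2 (hu : Continuous u) (b : ℂ) (c : ℝ) : Measurable (k2 lam u (kill b c)) := by
  have e : k2 lam u (kill b c) = fun z => tx lam u z (kill b c z) (grad u z) :=
    funext fun z => (tx_grad _ z).symm
  rw [e]
  exact Kill1_mtx hu (Kill1_mk b c) (measurable_grad u)

theorem Kill1_gbd (hu : Lip0 Ω u) (hu' : Lip0 Ω' u') : ∃ L : ℝ, 0 ≤ L ∧ ∀ z,
    ‖grad u z + grad u' z‖ ≤ L ∧ ‖grad u z - grad u' z‖ ≤ L := by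
  obtain ⟨K, hK⟩ := hu.lip
  obtain ⟨K', hK'⟩ := hu'.lip
  refine ⟨K + K', by positivity, fun z => ?_⟩
  have h1 := add_le_add (norm_grad_le hK z) (norm_grad_le hK' z)
  exact ⟨(norm_add_le _ _).trans h1, (norm_sub_le _ _).trans h1⟩

theorem k1_bound (hu : Lip0 Ω u) (hu' : Lip0 Ω' u') (hb : Bornology.IsBounded Ω) (b : ℂ) (c : ℝ) :
    ∃ C : ℝ, ∀ z ∈ Ω, |k1 u u' (kill b c) z| ≤ C := by
  obtain ⟨L, hL0, hL⟩ := Kill1_gbd hu hu'
  obtain ⟨C, hC0, hC⟩ := Kill1_bd hb b c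
  refine ⟨L * C / 2 * L ^ 2, fun z hz => ?_⟩
  have h1 := (hL z).1
  have h2 := (hL z).2
  have h3 := hC z hz
  have h4 : |dot (grad u z + grad u' z) (kill b c z)| ≤ L * C :=
    (abs_dot_le _ _).trans (by gcongr)
  unfold k1
  rw [abs_mul, abs_div, abs_two, abs_of_nonneg (sq_nonneg ‖grad u z - grad u' z‖)]
  gcongr

theorem Mn.k2_bound (h : Mn Ω lam u) (b : ℂ) (c : ℝ) :
    ∃ C : ℝ, 0 ≤ C ∧ ∀ z ∈ Ω, |k2 lam u (kill b c) z| ≤ C := by
  obtain ⟨A, hA0, hA⟩ := h.tx_bound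
  obtain ⟨C, hC0, hC⟩ := Kill1_bd h.bdd b c
  obtain ⟨K, hK⟩ := h.lip.lip
  refine ⟨A * C * K, by positivity, fun z hz => ?_⟩
  have h1 := hC z hz
  have h2 := norm_grad_le hK z
  rw [← tx_grad]
  refine (hA _ _ _).trans ?_
  gcongr

theorem Kill1_int (hΩ : Dom Ω) {F : ℂ → ℝ} (hF : Measurable F) {C : ℝ} (hC : ∀ z ∈ Ω, |F z| ≤ C)
    {S : Set ℂ} (hS : S ⊆ Ω) : IntegrableOn F S := by
  refine IntegrableOn.mono_set ?_ hS
  refine Measure.integrableOn_of_bounded (M := C) hΩ.volume_ne_top hF.aestronglyMeasurable ?_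
  rw [ae_restrict_iff' hΩ.isOpen.measurableSet]
  exact Eventually.of_forall hC

theorem Kill1_one {Ω₀ : Set ℂ} (h : Mn Ω₀ lam f) (hu : Lip0 Ω u) (hu' : Lip0 Ω' u')
    (hE : KE Ω Ω' u u' E) (he : ∀ p ∈ frontier Ω₀, p ∈ E → Ext Ω₀ p) (b : ℂ) (c : ℝ) {d : ℝ}
    (hd : 0 < d) {A : Set ℂ} (hA : MeasurableSet A) :
    (∫ z in Ω₀ ∩ (E ∩ {z | u z - u' z < d}) ∩ A,
        tx lam f z (kill b c z) (grad u z - grad u' z)) +
      ∫ z in (Ω₀ ∩ (E ∩ {z | u z - u' z < d})) \ A,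
        tx lam f z (kill b c z) (grad u z - grad u' z) = 0 := by
  obtain ⟨K, hK⟩ := hE.lip hu hu'
  have h0 : ∀ z, 0 ≤ E.indicator (fun z => u z - u' z) z := fun z =>
    indicator_nonneg (fun x hx => (sub_pos.2 (hE.pos x hx)).le) z
  have h1 := h.kill_one hK h0 (fun p hp => by
    by_cases hpE : p ∈ E
    · exact Or.inl (he p hp hpE)
    · exact Or.inr (indicator_of_notMem hpE _)) b c hd
  have e1 : {z | 0 < E.indicator (fun z => u z - u' z) z ∧
      E.indicator (fun z => u z - u' z) z < d} = E ∩ {z | u z - u' z < d} := by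
    ext z
    by_cases hz : z ∈ E
    · simp only [mem_ofPred_eq, mem_inter_iff, indicator_of_mem hz, hz, true_and,
        sub_pos.2 (hE.pos z hz)]
    · simp only [mem_ofPred_eq, mem_inter_iff, indicator_of_notMem hz, hz, false_and, lt_irrefl]
  have hm : MeasurableSet (Ω₀ ∩ (E ∩ {z | u z - u' z < d})) :=
    (h.isOpen.inter (hE.isOpen.inter
      (isOpen_lt (hu.continuous.sub hu'.continuous) continuous_const))).measurableSet
  obtain ⟨L, hL0, hL⟩ := Kill1_gbd hu hu'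
  obtain ⟨C, hC0, hC⟩ := Kill1_bd h.bdd b c
  obtain ⟨B, hB0, hB⟩ := h.tx_bound
  have hi : IntegrableOn (fun z => tx lam f z (kill b c z) (grad u z - grad u' z))
      (Ω₀ ∩ (E ∩ {z | u z - u' z < d})) := by
    have mδ : Measurable fun z => grad u z - grad u' z :=
      (measurable_grad u).sub (measurable_grad u')
    refine Kill1_int h.toIsMin.toDom (C := B * C * L)
      (Kill1_mtx h.lip.continuous (Kill1_mk b c) mδ) (fun z hz => ?_) inter_subset_left
    have a1 := hC z hz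
    have a2 := (hL z).2
    refine (hB _ _ _).trans ?_
    gcongr
  rw [integral_inter_add_sdiff hA hi, ← h1, e1]
  obtain ⟨K1, hK1⟩ := hu.lip
  obtain ⟨K2, hK2⟩ := hu'.lip
  refine setIntegral_congr_ae hm ?_
  filter_upwards [hK1.ae_differentiableAt (μ := volume), hK2.ae_differentiableAt (μ := volume)]
    with z y1 y2 hz
  have e2 : E.indicator (fun z => u z - u' z) =ᶠ[𝓝 z] fun z => u z - u' z := by
    filter_upwards [hE.isOpen.mem_nhds hz.2.1] with x hx
    exact indicator_of_mem hx _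
  rw [grad_congr e2, grad_sub y1 y2]

theorem Kill1_main (h : Mn Ω lam u) (h' : Mn Ω' lam u') (hE : KE Ω Ω' u u' E) (b : ℂ) (c : ℝ)
    {d : ℝ} (hd : 0 < d) :
    (∫ z in E ∩ Ω ∩ Ω' ∩ {z | u z - u' z < d}, tx lam u z (kill b c z) (grad u z - grad u' z)) -
      (∫ z in E ∩ Ω ∩ Ω' ∩ {z | u z - u' z < d},
        tx lam u' z (kill b c z) (grad u z - grad u' z)) +
      (∫ z in E ∩ (Ω \ Ω') ∩ {z | |u z| < d}, k2 lam u (kill b c) z) +
      ∫ z in E ∩ (Ω' \ Ω) ∩ {z | |u' z| < d}, k2 lam u' (kill b c) z = 0 := by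
  have hΩ := h.isOpen.measurableSet
  have hΩ' := h'.isOpen.measurableSet
  have a1 := Kill1_one h h.lip h'.lip hE hE.ext b c hd hΩ'
  have a2 := Kill1_one h' h.lip h'.lip hE hE.ext' b c hd hΩ
  have s1 : Ω ∩ (E ∩ {z | u z - u' z < d}) ∩ Ω' = E ∩ Ω ∩ Ω' ∩ {z | u z - u' z < d} :=
    Set.ext fun z => ⟨fun x => ⟨⟨⟨x.1.2.1, x.1.1⟩, x.2⟩, x.1.2.2⟩,
      fun x => ⟨⟨x.1.1.2, x.1.1.1, x.2⟩, x.1.2⟩⟩
  have s2 : Ω' ∩ (E ∩ {z | u z - u' z < d}) ∩ Ω = E ∩ Ω ∩ Ω' ∩ {z | u z - u' z < d} :=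
    Set.ext fun z => ⟨fun x => ⟨⟨⟨x.1.2.1, x.2⟩, x.1.1⟩, x.1.2.2⟩,
      fun x => ⟨⟨x.1.2, x.1.1.1, x.2⟩, x.1.1.2⟩⟩
  have t3 : ∀ z ∈ E, z ∉ Ω' → u z - u' z = |u z| := by
    intro z hz hn
    have p := hE.pos z hz
    rw [h'.lip.zero z hn] at p ⊢
    rw [sub_zero, abs_of_pos p]
  have t4 : ∀ z ∈ E, z ∉ Ω → u z - u' z = |u' z| := by
    intro z hz hn
    have p := hE.pos z hz
    rw [h.lip.zero z hn] at p ⊢
    rw [zero_sub, abs_of_neg p]
  have s3 : (Ω ∩ (E ∩ {z | u z - u' z < d})) \ Ω' = E ∩ (Ω \ Ω') ∩ {z | |u z| < d} :=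
    Set.ext fun z => ⟨fun x => ⟨⟨x.1.2.1, x.1.1, x.2⟩, (t3 z x.1.2.1 x.2).symm.trans_lt x.1.2.2⟩,
      fun x => ⟨⟨x.1.2.1, x.1.1, (t3 z x.1.1 x.1.2.2).trans_lt x.2⟩, x.1.2.2⟩⟩
  have s4 : (Ω' ∩ (E ∩ {z | u z - u' z < d})) \ Ω = E ∩ (Ω' \ Ω) ∩ {z | |u' z| < d} :=
    Set.ext fun z => ⟨fun x => ⟨⟨x.1.2.1, x.1.1, x.2⟩, (t4 z x.1.2.1 x.2).symm.trans_lt x.1.2.2⟩,
      fun x => ⟨⟨x.1.2.1, x.1.1, (t4 z x.1.1 x.1.2.2).trans_lt x.2⟩, x.1.2.2⟩⟩
  have m3 : MeasurableSet (E ∩ (Ω \ Ω') ∩ {z | |u z| < d}) :=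
    (hE.isOpen.measurableSet.inter (hΩ.diff hΩ')).inter
      (isOpen_lt h.lip.continuous.abs continuous_const).measurableSet
  have m4 : MeasurableSet (E ∩ (Ω' \ Ω) ∩ {z | |u' z| < d}) :=
    (hE.isOpen.measurableSet.inter (hΩ'.diff hΩ)).inter
      (isOpen_lt h'.lip.continuous.abs continuous_const).measurableSet
  have i3 : ∫ z in E ∩ (Ω \ Ω') ∩ {z | |u z| < d},
      tx lam u z (kill b c z) (grad u z - grad u' z) =
      ∫ z in E ∩ (Ω \ Ω') ∩ {z | |u z| < d}, k2 lam u (kill b c) z := by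
    refine setIntegral_congr_ae m3 ?_
    filter_upwards [LipH_zero h'.lip.continuous] with z y hz
    rw [y (h'.lip.zero z hz.1.2.2), sub_zero, tx_grad]
  have i4 : ∫ z in E ∩ (Ω' \ Ω) ∩ {z | |u' z| < d},
      tx lam u' z (kill b c z) (grad u z - grad u' z) =
      -∫ z in E ∩ (Ω' \ Ω) ∩ {z | |u' z| < d}, k2 lam u' (kill b c) z := by
    rw [← integral_neg]
    refine setIntegral_congr_ae m4 ?_
    filter_upwards [LipH_zero h.lip.continuous] with z y hz
    have e : (0 : ℂ) - grad u' z = ((-1 : ℝ) : ℂ) * grad u' z := by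
      push_cast
      ring
    rw [y (h.lip.zero z hz.1.2.2), e, tx_smul, tx_grad, neg_one_mul]
  rw [s1, s3, i3] at a1
  rw [s2, s4, i4] at a2
  linarith

theorem kill_id (h : Mn Ω lam u) (h' : Mn Ω' lam u') (hE : KE Ω Ω' u u' E) (b : ℂ) (c : ℝ) :
    Tendsto (fun d : ℝ => d⁻¹ *
      ((∫ z in E ∩ Ω ∩ Ω' ∩ {z | u z - u' z < d}, k1 u u' (kill b c) z) +
        (∫ z in E ∩ (Ω \ Ω') ∩ {z | |u z| < d}, k2 lam u (kill b c) z) +
        ∫ z in E ∩ (Ω' \ Ω) ∩ {z | |u' z| < d}, k2 lam u' (kill b c) z)) (𝓝[>] 0) (𝓝 0) := by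
  have hD : Dom Ω := h.toIsMin.toDom
  have hl := h.lam_pos
  have cu := h.lip.continuous
  have cu' := h'.lip.continuous
  have mδ : Measurable fun z => grad u z - grad u' z := (measurable_grad u).sub (measurable_grad u')
  obtain ⟨L, hL0, hL⟩ := Kill1_gbd h.lip h'.lip
  obtain ⟨C, hC0, hC⟩ := Kill1_bd h.bdd b c
  obtain ⟨B, hB0, hB⟩ := h.tx_bound
  obtain ⟨B', hB0', hB'⟩ := h'.tx_bound
  obtain ⟨C1, hC1⟩ := k1_bound h.lip h'.lip h.bdd b c
  obtain ⟨M, hM⟩ := h.lip.exists_bound h.bdd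
  obtain ⟨M', hM'⟩ := h'.lip.exists_bound h'.bdd
  have hM0 : 0 ≤ M + M' := add_nonneg ((abs_nonneg _).trans (hM 0)) ((abs_nonneg _).trans (hM' 0))
  obtain ⟨G, hG⟩ : ∃ G : ℂ → ℝ, G = fun z =>
      -(lam / 2 * (u z + u' z) * dot (kill b c z) (grad u z - grad u' z)) := ⟨_, rfl⟩
  have mG : Measurable G := by
    rw [hG]
    exact (((cu.add cu').measurable.const_mul _).mul (Kill1_dot (Kill1_mk b c) mδ)).neg
  have bG : ∀ z ∈ Ω, |G z| ≤ lam / 2 * (M + M') * (C * L) := by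
    intro z hz
    have a1 := hC z hz
    have a2 := (hL z).2
    have a3 : |u z + u' z| ≤ M + M' := (abs_add_le _ _).trans (add_le_add (hM z) (hM' z))
    have a4 : |dot (kill b c z) (grad u z - grad u' z)| ≤ C * L :=
      (abs_dot_le _ _).trans (by gcongr)
    rw [hG]
    simp only [abs_neg]
    rw [abs_mul, abs_mul, abs_of_pos (half_pos hl)]
    gcongr
  have mT : ∀ d : ℝ, MeasurableSet (E ∩ Ω ∩ Ω' ∩ {z | u z - u' z < d}) := fun d =>
    (((hE.isOpen.inter h.isOpen).inter h'.isOpen).inter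
      (isOpen_lt (cu.sub cu') continuous_const)).measurableSet
  have sT : ∀ d : ℝ, E ∩ Ω ∩ Ω' ∩ {z | u z - u' z < d} ⊆ Ω := fun d z hz => hz.1.1.2
  have lim : Tendsto (fun d : ℝ => ∫ z, (E ∩ Ω ∩ Ω' ∩ {z | u z - u' z < d}).indicator
      (fun z => d⁻¹ * ((u z - u' z) * G z)) z) (𝓝[>] 0) (𝓝 (∫ _ : ℂ, (0 : ℝ))) := by
    refine tendsto_integral_filter_of_dominated_convergence
      (Ω.indicator fun _ => lam / 2 * (M + M') * (C * L)) (Eventually.of_forall fun d => ?_) ?_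
      ((integrable_indicator_iff hD.isOpen.measurableSet).2 ((FV_BM.const _).integrableOn hD))
      (Eventually.of_forall fun z => ?_)
    · exact (((((cu.sub cu').measurable.mul mG).const_mul _).indicator
        (mT d))).aestronglyMeasurable
    · filter_upwards [self_mem_nhdsWithin] with d hd
      have hd : 0 < d := hd
      refine Eventually.of_forall fun z => ?_
      by_cases hz : z ∈ E ∩ Ω ∩ Ω' ∩ {z | u z - u' z < d}
      · rw [indicator_of_mem hz, indicator_of_mem (sT d hz), Real.norm_eq_abs, ← mul_assoc,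
          abs_mul]
        have a1 : 0 < u z - u' z := sub_pos.2 (hE.pos z hz.1.1.1)
        have a2 : d⁻¹ * (u z - u' z) ≤ 1 :=
          (inv_mul_le_iff₀ hd).2 (by rw [mul_one]; exact le_of_lt hz.2)
        rw [abs_of_pos (mul_pos (inv_pos.2 hd) a1)]
        exact (mul_le_mul a2 (bG z (sT d hz)) (abs_nonneg _) zero_le_one).trans (one_mul _).le
      · rw [indicator_of_notMem hz, norm_zero]
        exact indicator_nonneg (fun _ _ => by positivity) z
    · refine tendsto_const_nhds.congr' ?_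
      by_cases hz : z ∈ E
      · filter_upwards [Ioo_mem_nhdsGT (sub_pos.2 (hE.pos z hz))] with d hd
        exact (indicator_of_notMem (fun hh => lt_asymm hd.2 hh.2) _).symm
      · exact Eventually.of_forall fun d => (indicator_of_notMem (fun hh => hz hh.1.1.1) _).symm
  rw [integral_zero] at lim
  refine lim.congr' ?_
  filter_upwards [self_mem_nhdsWithin] with d hd
  have hd : 0 < d := hd
  have key := Kill1_main h h' hE b c hd
  have j1 : IntegrableOn (fun z => tx lam u z (kill b c z) (grad u z - grad u' z))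
      (E ∩ Ω ∩ Ω' ∩ {z | u z - u' z < d}) := by
    refine Kill1_int hD (C := B * C * L) (Kill1_mtx cu (Kill1_mk b c) mδ) (fun z hz => ?_) (sT d)
    have a1 := hC z hz
    have a2 := (hL z).2
    refine (hB _ _ _).trans ?_
    gcongr
  have j2 : IntegrableOn (fun z => tx lam u' z (kill b c z) (grad u z - grad u' z))
      (E ∩ Ω ∩ Ω' ∩ {z | u z - u' z < d}) := by
    refine Kill1_int hD (C := B' * C * L) (Kill1_mtx cu' (Kill1_mk b c) mδ) (fun z hz => ?_) (sT d)
    have a1 := hC z hz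
    have a2 := (hL z).2
    refine (hB' _ _ _).trans ?_
    gcongr
  have j3 : IntegrableOn (k1 u u' (kill b c)) (E ∩ Ω ∩ Ω' ∩ {z | u z - u' z < d}) :=
    Kill1_int hD (measurable_k1 u u' b c) hC1 (sT d)
  have e : ∫ z in E ∩ Ω ∩ Ω' ∩ {z | u z - u' z < d}, (u z - u' z) * G z =
      ∫ z in E ∩ Ω ∩ Ω' ∩ {z | u z - u' z < d}, (k1 u u' (kill b c) z -
        (tx lam u z (kill b c z) (grad u z - grad u' z) -
          tx lam u' z (kill b c z) (grad u z - grad u' z))) := by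
    refine integral_congr_ae (Eventually.of_forall fun z => ?_)
    show (u z - u' z) * G z = k1 u u' (kill b c) z -
      (tx lam u z (kill b c z) (grad u z - grad u' z) -
        tx lam u' z (kill b c z) (grad u z - grad u' z))
    rw [tx_sub, hG]
    unfold k1
    ring
  have j4 : IntegrableOn (fun z => tx lam u z (kill b c z) (grad u z - grad u' z) -
      tx lam u' z (kill b c z) (grad u z - grad u' z)) (E ∩ Ω ∩ Ω' ∩ {z | u z - u' z < d}) :=
    j1.sub j2
  rw [integral_sub j3 j4, integral_sub j1 j2] at e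
  rw [integral_indicator (mT d), integral_const_mul, e]
  refine congrArg (fun t => d⁻¹ * t) ?_
  linarith

end Pool.Agent.L2K
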