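import Pool.Agent.P.MP_2f6447_an.K.Inv

/-! Area of a thin layer above a regular level set (inverse function theorem and the area
inequality for the map `z ↦ re (a z) + f z * I`). -/

open Set MeasureTheory Filter Topology Complex Metric
open scoped ContDiff ComplexConjugate

namespace Pool.Agent.L2K

variable {Ω U : Set ℂ} {lam : ℝ} {u w f g : ℂ → ℝ}

lemma Thin_vol (a b d : ℝ) :
    volume (Ioo a b ×ℂ Ioo (0 : ℝ) d) = ENNReal.ofReal (b - a) * ENNReal.ofReal d := by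
  have h : (Ioo a b ×ℂ Ioo (0 : ℝ) d) = measurableEquivRealProd ⁻¹' (Ioo a b ×ˢ Ioo (0 : ℝ) d) := by
    ext z
    simp [mem_reProdIm]
  rw [h, volume_preserving_equiv_real_prod.measure_preimage
    (measurableSet_Ioo.prod measurableSet_Ioo).nullMeasurableSet, Measure.volume_eq_prod,
    Measure.prod_prod, Real.volume_Ioo, Real.volume_Ioo, sub_zero]

lemma Thin_fderiv (f : ℂ → ℝ) (p v : ℂ) :
    fderiv ℝ f p v = (grad f p).re * v.re + (grad f p).im * v.im := by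
  have h : v = v.re • (1 : ℂ) + v.im • I := by
    apply Complex.ext <;> simp
  have h2 : fderiv ℝ f p v = fderiv ℝ f p (v.re • (1 : ℂ) + v.im • I) := by rw [← h]
  rw [h2, map_add, map_smul, map_smul]
  simp only [grad, D, smul_eq_mul]
  ring

lemma Thin_convex (a b c d : ℝ) : Convex ℝ (Ioo a b ×ℂ Ioo c d) :=
  ((convex_Ioo a b).linear_preimage reLm).inter ((convex_Ioo c d).linear_preimage imLm)

lemma Thin_chart {f : ℂ → ℝ} {p : ℂ} (hf : ContDiffAt ℝ 1 f p) (hg : grad f p ≠ 0) :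
    ∃ e : OpenPartialHomeomorph ℂ ℂ, p ∈ e.source ∧ ContDiffAt ℝ 1 e p ∧ ∀ z, (e z).im = f z := by
  set a : ℂ := I * conj (grad f p) with ha
  have ha0 : a ≠ 0 := mul_ne_zero I_ne_zero (by simpa using hg)
  let L : ℂ ≃L[ℝ] ℂ := ContinuousLinearEquiv.equivOfInverse (ContinuousLinearMap.mul ℝ ℂ a)
    (ContinuousLinearMap.mul ℝ ℂ a⁻¹)
    (fun z => by simp [← mul_assoc, inv_mul_cancel₀ ha0])
    (fun z => by simp [← mul_assoc, mul_inv_cancel₀ ha0])
  let A : ℂ →L[ℝ] ℂ := ofRealCLM.comp (reCLM.comp (ContinuousLinearMap.mul ℝ ℂ a))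
  let B : ℝ →L[ℝ] ℂ := (ContinuousLinearMap.mul ℝ ℂ I).comp ofRealCLM
  let Φ : ℂ → ℂ := fun z => A z + B (f z)
  have hΦ : ContDiffAt ℝ 1 Φ p := A.contDiff.contDiffAt.add (B.contDiff.contDiffAt.comp p hf)
  have hd : HasFDerivAt Φ (A + B.comp (fderiv ℝ f p)) p :=
    A.hasFDerivAt.add (B.hasFDerivAt.comp p (hf.differentiableAt one_ne_zero).hasFDerivAt)
  have hL : (L : ℂ →L[ℝ] ℂ) = A + B.comp (fderiv ℝ f p) := by
    ext1 v
    have h1 : (L : ℂ →L[ℝ] ℂ) v = a * v := rfl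
    have h2 : (A + B.comp (fderiv ℝ f p)) v
        = ((a * v).re : ℂ) + I * ((fderiv ℝ f p v : ℝ) : ℂ) := rfl
    rw [h1, h2, Thin_fderiv, ha]
    apply Complex.ext
    · simp
    · simp
      ring
  have hd' : HasFDerivAt Φ (L : ℂ →L[ℝ] ℂ) p := by rw [hL]; exact hd
  refine ⟨hΦ.toOpenPartialHomeomorph Φ hd' one_ne_zero,
    hΦ.mem_toOpenPartialHomeomorph_source hd' one_ne_zero, hΦ, fun z => ?_⟩
  have h3 : (hΦ.toOpenPartialHomeomorph Φ hd' one_ne_zero) z
      = ((a * z).re : ℂ) + I * ((f z : ℝ) : ℂ) := rfl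
  rw [h3]
  simp

theorem thin_area {p : ℂ} (hf : ContDiffAt ℝ 1 f p) (h0 : f p = 0) (hg : grad f p ≠ 0) {ρ : ℝ}
    (hρ : 0 < ρ) : ∃ (c : ℝ) (S : Set ℂ), 0 < c ∧ IsOpen S ∧ IsPreconnected S ∧ S ⊆ ball p ρ ∧
      ContinuousOn f S ∧ (∀ z ∈ S, 0 < f z) ∧ (∀ᶠ z in 𝓝 p, 0 < f z → z ∈ S) ∧
      ∀ᶠ d in 𝓝[>] (0 : ℝ), c * d ≤ area (S ∩ {z | f z < d}) := by
  obtain ⟨e, hp, he, him⟩ := Thin_chart hf hg
  set C : ℝ := |(fderiv ℝ e p).det| + 1 with hC
  have hC0 : 0 < C := by positivity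
  have hdet : ∀ᶠ z in 𝓝 p, |(fderiv ℝ e z).det| < C := by
    have h1 : ContinuousAt (fun z => |(fderiv ℝ e z).det|) p :=
      (ContinuousLinearMap.continuous_det.continuousAt.comp
        (he.continuousAt_fderiv one_ne_zero)).abs
    exact h1.eventually (gt_mem_nhds (by simp [hC]))
  have hev : ∀ᶠ z in 𝓝 p, (z ∈ ball p ρ ∧ z ∈ e.source) ∧
      ContDiffAt ℝ 1 e z ∧ |(fderiv ℝ e z).det| < C :=
    ((Filter.Eventually.and (ball_mem_nhds p hρ) (e.open_source.mem_nhds hp))).and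
      ((he.eventually (by simp)).and hdet)
  obtain ⟨N, hN, hNo, hpN⟩ := _root_.mem_nhds_iff.1 hev
  have hNs : N ⊆ e.source := fun z hz => (hN hz).1.2
  have hNc : ContinuousOn e N := e.continuousOn.mono hNs
  have himg : IsOpen (e '' N) := e.isOpen_image_of_subset_source hNo hNs
  obtain ⟨r, hr, hrb⟩ := Metric.isOpen_iff.1 himg (e p) ⟨p, hpN, rfl⟩
  set δ : ℝ := r / 2 with hδ
  have hδ0 : 0 < δ := by positivity
  set x : ℝ := (e p).re with hx
  have hq : (e p).im = 0 := by rw [him, h0]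
  have hbox : ∀ d, d ≤ δ → (Ioo (x - δ) (x + δ) ×ℂ Ioo (0 : ℝ) d) ⊆ e '' N := by
    intro d hd z hz
    apply hrb
    rw [mem_reProdIm] at hz
    rw [mem_ball, dist_eq_norm]
    refine (norm_le_abs_re_add_abs_im _).trans_lt ?_
    have h1 : |(z - e p).re| < δ := by
      rw [sub_re, abs_lt]
      constructor <;> linarith [hz.1.1, hz.1.2]
    have h2 : |(z - e p).im| < δ := by
      rw [sub_im, hq, abs_lt]
      constructor <;> linarith [hz.2.1, hz.2.2]
    linarith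
  set S : Set ℂ := N ∩ e ⁻¹' (Ioo (x - δ) (x + δ) ×ℂ Ioo (0 : ℝ) δ) with hS
  have hSo : IsOpen S := hNc.isOpen_inter_preimage hNo (isOpen_Ioo.reProdIm isOpen_Ioo)
  have hfc : ContinuousOn f N := by
    have h1 : f = fun z => (e z).im := funext fun z => (him z).symm
    rw [h1]
    exact continuous_im.comp_continuousOn hNc
  refine ⟨2 * δ / C, S, by positivity, hSo, ?_, fun z hz => (hN hz.1).1.1,
    hfc.mono inter_subset_left, ?_, ?_, ?_⟩
  · have h1 : S = e.symm '' (Ioo (x - δ) (x + δ) ×ℂ Ioo (0 : ℝ) δ) := by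
      ext z
      constructor
      · intro hz
        exact ⟨e z, hz.2, e.left_inv (hNs hz.1)⟩
      · rintro ⟨y, hy, rfl⟩
        obtain ⟨z, hz, rfl⟩ := hbox δ le_rfl hy
        rw [e.left_inv (hNs hz)]
        exact ⟨hz, hy⟩
    rw [h1]
    refine (Thin_convex _ _ _ _).isPreconnected.image _ (e.continuousOn_symm.mono ?_)
    intro y hy
    obtain ⟨z, hz, rfl⟩ := hbox δ le_rfl hy
    exact e.map_source (hNs hz)
  · intro z hz
    have h1 := (mem_reProdIm.1 hz.2).2.1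
    rwa [him] at h1
  · have h1 : ∀ᶠ z in 𝓝 p, e z ∈ (Ioo (x - δ) (x + δ) ×ℂ Ioo (-δ) δ) := by
      apply he.continuousAt.eventually
      apply (isOpen_Ioo.reProdIm isOpen_Ioo).mem_nhds
      rw [mem_reProdIm, hq]
      exact ⟨⟨by linarith, by linarith⟩, by linarith, hδ0⟩
    filter_upwards [h1, hNo.mem_nhds hpN] with z hz hzN hpos
    rw [mem_reProdIm] at hz
    refine ⟨hzN, ?_⟩
    rw [mem_preimage, mem_reProdIm]
    exact ⟨hz.1, by rwa [him], hz.2.2⟩
  · filter_upwards [Ioo_mem_nhdsGT hδ0] with d hd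
    set A : Set ℂ := S ∩ {z | f z < d} with hA
    have hAo : IsOpen A :=
      (hfc.mono inter_subset_left).isOpen_inter_preimage hSo (isOpen_Iio (a := d))
    have hAN : A ⊆ N := fun z hz => hz.1.1
    have hfin : volume A ≠ ⊤ :=
      ((measure_mono fun z hz => (hN (hAN hz)).1.1).trans_lt measure_ball_lt_top).ne
    have hsub : (Ioo (x - δ) (x + δ) ×ℂ Ioo (0 : ℝ) d) ⊆ e '' A := by
      intro y hy
      obtain ⟨z, hz, rfl⟩ := hbox d hd.2.le hy
      rw [mem_reProdIm] at hy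
      refine ⟨z, ⟨⟨hz, ?_⟩, ?_⟩, rfl⟩
      · rw [mem_preimage, mem_reProdIm]
        exact ⟨hy.1, hy.2.1, hy.2.2.trans hd.2⟩
      · have h1 := hy.2.2
        rwa [him] at h1
    have h1 : volume (e '' A) ≤ ∫⁻ z in A, ENNReal.ofReal |(fderiv ℝ e z).det| :=
      addHaar_image_le_lintegral_abs_det_fderiv volume hAo.measurableSet fun z hz =>
        ((hN (hAN hz)).2.1.differentiableAt one_ne_zero).hasFDerivAt.hasFDerivWithinAt
    have h2 : ∫⁻ z in A, ENNReal.ofReal |(fderiv ℝ e z).det| ≤ ENNReal.ofReal C * volume A := by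
      rw [← setLIntegral_const]
      exact setLIntegral_mono' hAo.measurableSet fun z hz =>
        ENNReal.ofReal_le_ofReal (hN (hAN hz)).2.2.le
    have h3 := ((measure_mono hsub).trans h1).trans h2
    rw [Thin_vol] at h3
    have h4 := ENNReal.toReal_mono (ENNReal.mul_ne_top ENNReal.ofReal_ne_top hfin) h3
    rw [ENNReal.toReal_mul, ENNReal.toReal_mul, ENNReal.toReal_ofReal (by linarith),
      ENNReal.toReal_ofReal hd.1.le, ENNReal.toReal_ofReal hC0.le] at h4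
    rw [div_mul_eq_mul_div, div_le_iff₀ hC0]
    unfold area
    linarith

end Pool.Agent.L2K
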