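import Pool.Agent.P.MP_2f6447_an.K.Kill1
import Pool.Agent.P.MP_2f6447_an.K.Thin
import Pool.Agent.P.MP_2f6447_an.K.Hopf

/-! Lower bound for the main term, and the contradiction. -/

open Set MeasureTheory Filter Topology Complex Metric
open scoped ContDiff ComplexConjugate

namespace Pool.Agent.L2K

variable {Ω U : Set ℂ} {lam : ℝ} {u w f g : ℂ → ℝ}
variable {Ω' E : Set ℂ} {u' : ℂ → ℝ} {l r : ℝ → ℝ} {nT nB n φ : ℝ}

theorem Kill2_grad_ne {q p : ℂ} {ρ : ℝ} (h : Helm lam (ball q ρ) f) (hl : 0 ≤ lam) (hρ : 0 < ρ)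
    (h0 : ∀ z ∈ ball q ρ, 0 < f z) (hp : ‖p - q‖ = ρ) (hz : f p = 0)
    (hd : DifferentiableAt ℝ f p) : grad f p ≠ 0 := by
  intro hg
  obtain ⟨a, ha, hb⟩ := hopf h hl hρ h0
  have e0 : p + ((0 : ℝ) : ℂ) * (q - p) = p := by simp
  have hd' : DifferentiableAt ℝ f (p + ((0 : ℝ) : ℂ) * (q - p)) := by rw [e0]; exact hd
  have h1 := hasDerivAt_line hd'
  rw [e0, hg] at h1
  have e1 : dot 0 (q - p) = 0 := by simp [dot]
  rw [e1] at h1
  have h2 := h1.tendsto_slope_zero_right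
  have h3 : a * ρ ≤ 0 := by
    refine ge_of_tendsto h2 ?_
    filter_upwards [Ioo_mem_nhdsGT (show (0 : ℝ) < 1 by norm_num)] with s hs
    have e2 : p + (s : ℂ) * (q - p) - q = ((1 - s : ℝ) : ℂ) * (p - q) := by
      push_cast
      ring
    have e3 : ‖p + (s : ℂ) * (q - p) - q‖ = (1 - s) * ρ := by
      rw [e2, norm_mul, Complex.norm_real, Real.norm_eq_abs, abs_of_pos (by linarith [hs.2]), hp]
    have h4 := hb (p + (s : ℂ) * (q - p)) (by
      rw [mem_ball_iff_norm, e3]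
      nlinarith [hs.1])
    rw [e3] at h4
    rw [zero_add, e0, hz, sub_zero, smul_eq_mul, ← div_eq_inv_mul, le_div_iff₀ hs.1]
    nlinarith
  nlinarith [mul_pos ha hρ]

theorem Kill2_point (hE : IsOpen E) {p : ℂ} (hp : p ∈ frontier E) {ρ : ℝ} (hρ : 0 < ρ) :
    ∃ (q p' : ℂ) (s : ℝ), 0 < s ∧ ball q s ⊆ E ∧ ball q s ⊆ ball p ρ ∧ ‖p' - q‖ = s ∧
      p' ∈ frontier E ∧ p' ∈ ball p ρ := by
  have hpE : p ∉ E := by
    rw [hE.frontier_eq] at hp
    exact hp.2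
  obtain ⟨q, hq, hqd⟩ := Metric.mem_closure_iff.1 (frontier_subset_closure hp) (ρ / 4) (by linarith)
  have hc : IsClosed Eᶜ := hE.isClosed_compl
  have hne : Eᶜ.Nonempty := ⟨p, hpE⟩
  obtain ⟨p', hp', hd⟩ := hc.exists_infDist_eq_dist hne q
  have hs : 0 < infDist q Eᶜ := (hc.notMem_iff_infDist_pos hne).1 fun hh => hh hq
  have hle : infDist q Eᶜ ≤ dist q p := infDist_le_dist_of_mem hpE
  rw [dist_comm] at hqd
  have hb : ball q (infDist q Eᶜ) ⊆ E := ball_infDist_compl_subset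
  refine ⟨q, p', infDist q Eᶜ, hs, hb, fun z hz => ?_, ?_, ?_, ?_⟩
  · rw [mem_ball] at hz ⊢
    linarith [dist_triangle z q p]
  · rw [hd, dist_comm, dist_eq_norm]
  · rw [hE.frontier_eq]
    refine ⟨closure_mono hb ?_, hp'⟩
    rw [closure_ball q hs.ne', mem_closedBall, hd, dist_comm]
  · rw [mem_ball]
    have h1 := dist_triangle p' q p
    rw [dist_comm p' q, ← hd] at h1
    linarith

theorem kill_lower (h : Mn Ω lam u) (h' : Mn Ω' lam u') (hE : KE Ω Ω' u u' E) (b : ℂ) (c : ℝ)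
    (hV : ∀ z ∈ E, z ∈ Ω → z ∈ Ω' → 0 ≤ dot (grad u z + grad u' z) (kill b c z)) {p : ℂ}
    (hp : p ∈ frontier E) (hpΩ : p ∈ Ω) (hpΩ' : p ∈ Ω')
    (hpos : 0 < dot (grad u p + grad u' p) (kill b c p)) : ∃ a : ℝ, 0 < a ∧
      ∀ᶠ d in 𝓝[>] (0 : ℝ),
        a * d ≤ ∫ z in E ∩ Ω ∩ Ω' ∩ {z | u z - u' z < d}, k1 u u' (kill b c) z := by
  have hW : IsOpen (Ω ∩ Ω') := h.helm.isOpen.inter h'.helm.isOpen
  have hu : Helm lam (Ω ∩ Ω') u := h.helm.mono hW inter_subset_left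
  have hu' : Helm lam (Ω ∩ Ω') u' := h'.helm.mono hW inter_subset_right
  have hf : Helm lam (Ω ∩ Ω') fun z => u z - u' z := hu.sub hu'
  have hpW : Ω ∩ Ω' ∈ 𝓝 p := hW.mem_nhds ⟨hpΩ, hpΩ'⟩
  have hgc : ContinuousAt (fun z => dot (grad u z + grad u' z) (kill b c z)) p := by
    have a1 : ContinuousAt (grad u) p := hu.continuousOn_grad.continuousAt hpW
    have a2 : ContinuousAt (grad u') p := hu'.continuousOn_grad.continuousAt hpW
    have a3 : ContinuousAt (fun z => grad u z + grad u' z) p := a1.add a2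
    have a4 : ContinuousAt (kill b c) p := by
      unfold kill
      fun_prop
    exact ((continuous_re.continuousAt.comp a3).mul (continuous_re.continuousAt.comp a4)).add
      ((continuous_im.continuousAt.comp a3).mul (continuous_im.continuousAt.comp a4))
  obtain ⟨a₀, ha₀, ha₁⟩ := exists_between hpos
  have hev : ∀ᶠ z in 𝓝 p, z ∈ Ω ∩ Ω' ∧ a₀ < dot (grad u z + grad u' z) (kill b c z) :=
    (show ∀ᶠ z in 𝓝 p, z ∈ Ω ∩ Ω' from hpW).and (hgc.eventually (lt_mem_nhds ha₁))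
  obtain ⟨ρ, hρ, hball⟩ := Metric.eventually_nhds_iff_ball.1 hev
  obtain ⟨q, p', s, hs, hqE, hqb, hn, hp', hp'b⟩ := Kill2_point hE.isOpen hp hρ
  have hp'W : p' ∈ Ω ∩ Ω' := (hball p' hp'b).1
  have hz : u p' - u' p' = 0 := sub_eq_zero.2 (hE.fr p' hp')
  have hgne : grad (fun z => u z - u' z) p' ≠ 0 :=
    Kill2_grad_ne (hf.mono isOpen_ball fun z hz => (hball z (hqb hz)).1) h.lam_pos.le hs
      (fun z hz => sub_pos.2 (hE.pos z (hqE hz))) hn hz (hf.differentiableAt hp'W)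
  obtain ⟨κ, hκ, hκ'⟩ := exists_between (norm_pos_iff.2 hgne)
  have hgc' : ContinuousAt (fun z => ‖grad (fun z => u z - u' z) z‖) p' :=
    (hf.continuousOn_grad.continuousAt (hW.mem_nhds hp'W)).norm
  have hev' : ∀ᶠ z in 𝓝 p', z ∈ ball p ρ ∧ κ < ‖grad (fun z => u z - u' z) z‖ :=
    (show ∀ᶠ z in 𝓝 p', z ∈ ball p ρ from isOpen_ball.mem_nhds hp'b).and
      (hgc'.eventually (lt_mem_nhds hκ'))
  obtain ⟨ρ', hρ', hball'⟩ := Metric.eventually_nhds_iff_ball.1 hev'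
  obtain ⟨c', S, hc', hSo, hSc, hSb, -, hSp, hSe, hSa⟩ :=
    thin_area ((hf.contDiffAt hp'W).of_le (by exact_mod_cast le_top)) hz hgne hρ'
  have hSE : S ⊆ E := by
    refine hSc.subset_of_closure_inter_subset hE.isOpen ?_ ?_
    · obtain ⟨z, hz1, hz2⟩ :=
        ((mem_closure_iff_frequently.1 (frontier_subset_closure hp')).and_eventually hSe).exists
      exact ⟨z, hz2 (sub_pos.2 (hE.pos z hz1)), hz1⟩
    · intro z hz
      by_contra hzE
      have hfr : z ∈ frontier E := by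
        rw [hE.isOpen.frontier_eq]
        exact ⟨hz.1, hzE⟩
      have h1 := hSp z hz.2
      rw [hE.fr z hfr, sub_self] at h1
      exact lt_irrefl _ h1
  have hSW : ∀ z ∈ S, z ∈ Ω ∩ Ω' := fun z hz => (hball z (hball' z (hSb hz)).1).1
  obtain ⟨C, hC⟩ := k1_bound h.lip h'.lip h.bdd b c
  have hint : IntegrableOn (k1 u u' (kill b c)) Ω :=
    Measure.integrableOn_of_bounded h.toDom.volume_ne_top
      (measurable_k1 u u' b c).aestronglyMeasurable
      (ae_restrict_of_forall_mem h.isOpen.measurableSet hC)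
  have hcont : Continuous fun z => u z - u' z := h.lip.continuous.sub h'.lip.continuous
  refine ⟨a₀ / 2 * κ ^ 2 * c', by positivity, ?_⟩
  filter_upwards [hSa] with d hd
  have hD : IsOpen {z | u z - u' z < d} := isOpen_lt hcont continuous_const
  have hT : MeasurableSet (E ∩ Ω ∩ Ω' ∩ {z | u z - u' z < d}) :=
    (((hE.isOpen.inter h.isOpen).inter h'.isOpen).inter hD).measurableSet
  have hsub : S ∩ {z | u z - u' z < d} ⊆ E ∩ Ω ∩ Ω' ∩ {z | u z - u' z < d} :=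
    fun z hz => ⟨⟨⟨hSE hz.1, (hSW z hz.1).1⟩, (hSW z hz.1).2⟩, hz.2⟩
  have hTΩ : E ∩ Ω ∩ Ω' ∩ {z | u z - u' z < d} ⊆ Ω := fun z hz => hz.1.1.2
  have h1 : ∫ z in S ∩ {z | u z - u' z < d}, k1 u u' (kill b c) z ≤
      ∫ z in E ∩ Ω ∩ Ω' ∩ {z | u z - u' z < d}, k1 u u' (kill b c) z := by
    refine setIntegral_mono_set (hint.mono_set hTΩ) ?_ hsub.eventuallyLE
    refine ae_restrict_of_forall_mem hT fun z hz => ?_
    have h2 := hV z hz.1.1.1 hz.1.1.2 hz.1.2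
    show 0 ≤ k1 u u' (kill b c) z
    unfold k1
    positivity
  have h2 : a₀ / 2 * κ ^ 2 * volume.real (S ∩ {z | u z - u' z < d}) ≤
      ∫ z in S ∩ {z | u z - u' z < d}, k1 u u' (kill b c) z := by
    refine setIntegral_ge_of_const_le_real (hSo.inter hD).measurableSet
      (ne_top_of_le_ne_top h.toDom.volume_ne_top (measure_mono (hsub.trans hTΩ))) ?_
      (hint.mono_set (hsub.trans hTΩ))
    intro z hz
    have h3 := hball' z (hSb hz.1)
    have h4 := (hball z h3.1).2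
    have h5 := h3.2
    rw [grad_sub (hu.differentiableAt (hSW z hz.1)) (hu'.differentiableAt (hSW z hz.1))] at h5
    unfold k1
    exact mul_le_mul (by linarith) (pow_le_pow_left₀ hκ.le h5.le 2) (by positivity) (by linarith)
  have h3 : a₀ / 2 * κ ^ 2 * (c' * d) ≤
      a₀ / 2 * κ ^ 2 * volume.real (S ∩ {z | u z - u' z < d}) :=
    mul_le_mul_of_nonneg_left hd (by positivity)
  calc a₀ / 2 * κ ^ 2 * c' * d = a₀ / 2 * κ ^ 2 * (c' * d) := by ring
    _ ≤ _ := h3.trans (h2.trans h1)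

theorem kill_main (h : Mn Ω lam u) (h' : Mn Ω' lam u') (hE : KE Ω Ω' u u' E) (b : ℂ) (c : ℝ)
    (hV : ∀ z ∈ E, z ∈ Ω → z ∈ Ω' → 0 ≤ dot (grad u z + grad u' z) (kill b c z)) {p : ℂ}
    (hp : p ∈ frontier E) (hpΩ : p ∈ Ω) (hpΩ' : p ∈ Ω')
    (hpos : 0 < dot (grad u p + grad u' p) (kill b c p))
    (h1 : ∀ ε : ℝ, 0 < ε → ∀ᶠ d in 𝓝[>] (0 : ℝ),
      -(ε * d) ≤ ∫ z in E ∩ (Ω \ Ω') ∩ {z | |u z| < d}, k2 lam u (kill b c) z)
    (h2 : ∀ ε : ℝ, 0 < ε → ∀ᶠ d in 𝓝[>] (0 : ℝ),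
      -(ε * d) ≤ ∫ z in E ∩ (Ω' \ Ω) ∩ {z | |u' z| < d}, k2 lam u' (kill b c) z) : False := by
  obtain ⟨a, ha, hl⟩ := kill_lower h h' hE b c hV hp hpΩ hpΩ' hpos
  have h3 : a / 2 ≤ 0 := by
    refine ge_of_tendsto (kill_id h h' hE b c) ?_
    filter_upwards [hl, h1 (a / 4) (by linarith), h2 (a / 4) (by linarith), self_mem_nhdsWithin]
      with d d0 d1 d2 hd
    have hd' : 0 < d := hd
    rw [← div_eq_inv_mul, le_div_iff₀ hd']
    linarith
  linarith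

end Pool.Agent.L2K
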