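import Pool.Agent.P.MP_2f6447_an.K.Sign
import Pool.Agent.P.MP_2f6447_an.K.GeoS

/-! Boundary values in strip position. -/

open Set MeasureTheory Filter Topology Complex Metric
open scoped ContDiff ComplexConjugate

namespace Pool.Agent.L2K

variable {Ω U : Set ℂ} {lam : ℝ} {u w f g : ℂ → ℝ}
variable {l r : ℝ → ℝ} {nT nB n φ : ℝ}

theorem Wall0_cont_mk {a b : ℝ → ℝ} {S : Set ℝ} (ha : ContinuousOn a S) (hb : ContinuousOn b S) :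
    ContinuousOn (fun y => (⟨a y, b y⟩ : ℂ)) S := by
  have e : (fun y => (⟨a y, b y⟩ : ℂ)) = fun y => (a y : ℂ) + (b y : ℂ) * I := by
    funext y; exact Complex.mk_eq_add_mul_I _ _
  rw [e]
  exact (continuous_ofReal.comp_continuousOn ha).add
    ((continuous_ofReal.comp_continuousOn hb).mul continuousOn_const)

theorem Wall0_arc (h : Mn Ω lam u) {γ : ℝ → ℂ} {a b : ℝ} (hγ : ContinuousOn γ (Icc a b))
    (he : ∀ y ∈ Icc a b, Ext Ω (γ y)) :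
    (∀ y ∈ Icc a b, Gr Ω u (γ y) = nu Ω (γ y)) ∨ ∀ y ∈ Icc a b, Gr Ω u (γ y) = -nu Ω (γ y) := by
  have hD : Dom Ω := h.toIsMin.toDom
  have hG : ContinuousOn (fun y => Gr Ω u (γ y)) (Icc a b) :=
    h.continuousOn_Gr.comp hγ fun y hy => frontier_subset_closure (he y hy).1
  have hN : ContinuousOn (fun y => nu Ω (γ y)) (Icc a b) :=
    (hD.continuousOn_nu h.noCorner).comp hγ fun y hy => (he y hy).1
  have hF : ContinuousOn (fun y => dot (Gr Ω u (γ y)) (nu Ω (γ y))) (Icc a b) := by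
    unfold dot
    exact ((continuous_re.comp_continuousOn hG).mul (continuous_re.comp_continuousOn hN)).add
      ((continuous_im.comp_continuousOn hG).mul (continuous_im.comp_continuousOn hN))
  have h1 : ∀ y ∈ Icc a b, Gr Ω u (γ y) = nu Ω (γ y) → dot (Gr Ω u (γ y)) (nu Ω (γ y)) = 1 := by
    intro y hy e
    rw [e, dot_self, (hD.isN_nu (he y hy).1).1]; norm_num
  have h2 : ∀ y ∈ Icc a b, Gr Ω u (γ y) = -nu Ω (γ y) →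
      dot (Gr Ω u (γ y)) (nu Ω (γ y)) = -1 := by
    intro y hy e
    have e2 : dot (-nu Ω (γ y)) (nu Ω (γ y)) = -dot (nu Ω (γ y)) (nu Ω (γ y)) := by
      unfold dot; simp only [neg_re, neg_im]; ring
    rw [e, e2, dot_self, (hD.isN_nu (he y hy).1).1]; norm_num
  by_contra hcon
  rw [not_or] at hcon
  obtain ⟨hc1, hc2⟩ := hcon
  simp only [not_forall] at hc1 hc2
  obtain ⟨y1, hy1, hn1⟩ := hc1
  obtain ⟨y2, hy2, hn2⟩ := hc2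
  have e1 := h2 y1 hy1 ((h.Gr_ext (he y1 hy1)).resolve_left hn1)
  have e2 := h1 y2 hy2 ((h.Gr_ext (he y2 hy2)).resolve_right hn2)
  have hiv := isPreconnected_Icc.intermediate_value hy1 hy2 hF
  have h0 : (0 : ℝ) ∈ Icc (dot (Gr Ω u (γ y1)) (nu Ω (γ y1))) (dot (Gr Ω u (γ y2)) (nu Ω (γ y2))) := by
    rw [e1, e2]; constructor <;> norm_num
  obtain ⟨y, hy, hy0⟩ := hiv h0
  rcases h.Gr_ext (he y hy) with e | e
  · have := h1 y hy e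
    simp only at hy0
    linarith
  · have := h2 y hy e
    simp only at hy0
    linarith

theorem Wall0_mvt (h : Mn Ω lam u) {c : ℂ} (hc : c ∈ closure Ω) {P : ℂ → Prop}
    (hP : ∀ᶠ G in 𝓝 (Gr Ω u c), P G) : ∃ ρ : ℝ, 0 < ρ ∧ ∀ z ∈ Ω, z ∈ ball c ρ →
      ∀ p ∈ frontier Ω, p ∈ ball c ρ → ∃ G, P G ∧ u z = dot G (z - p) := by
  have hD : Dom Ω := h.toIsMin.toDom
  have h1 : ∀ᶠ z in 𝓝[Ω] c, P (grad u z) := (h.tendsto_Gr hc).eventually hP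
  rw [eventually_nhdsWithin_iff, Metric.eventually_nhds_iff_ball] at h1
  obtain ⟨ρ, hρ, h1⟩ := h1
  refine ⟨ρ, hρ, fun z hz hzb p hp hpb => ?_⟩
  obtain ⟨t, ht, hw, e⟩ := h.mvt (frontier_subset_closure hp) hz
  refine ⟨_, h1 _ ?_ hw, ?_⟩
  · have := (convex_ball c ρ).add_smul_sub_mem hpb hzb ⟨ht.1.le, ht.2.le⟩
    rwa [Complex.real_smul] at this
  · rw [← e, h.lip.zero p (hD.notMem_of_frontier hp), sub_zero]

theorem Wall0_proj {x c ρ : ℝ} {z : ℂ} (hz : z ∈ ball (⟨x, c⟩ : ℂ) ρ) :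
    (⟨z.re, c⟩ : ℂ) ∈ ball (⟨x, c⟩ : ℂ) ρ := by
  rw [mem_ball, dist_eq_norm] at hz ⊢
  refine lt_of_le_of_lt ?_ hz
  have e : (⟨z.re, c⟩ : ℂ) - ⟨x, c⟩ = (((z - ⟨x, c⟩).re : ℝ) : ℂ) := by
    apply Complex.ext <;> simp
  rw [e, Complex.norm_real, Real.norm_eq_abs]
  exact Complex.abs_re_le_norm _

theorem Wall0_top (h : Str Ω lam u l r) {x : ℝ} (hx : x ∈ Ioo (l Real.pi) (r Real.pi))
    {P : ℝ → Prop} (hP : ∀ᶠ s in 𝓝 (gT Ω u x), P s) : ∃ ρ : ℝ, 0 < ρ ∧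
      ∀ z ∈ ball (⟨x, Real.pi⟩ : ℂ) ρ, z.im < Real.pi →
        z ∈ Ω ∧ ∃ s, P s ∧ u z = s * (Real.pi - z.im) := by
  have hc : (⟨x, Real.pi⟩ : ℂ) ∈ closure Ω :=
    frontier_subset_closure (h.toGeo.top_mem (Ioo_subset_Icc_self hx))
  have hP' : ∀ᶠ G in 𝓝 (Gr Ω u ⟨x, Real.pi⟩), P (-G.im) :=
    (continuous_im.neg.tendsto _).eventually hP
  obtain ⟨ρ₁, hρ₁, h1⟩ := Wall0_mvt h.toMn hc hP'
  obtain ⟨ρ₂, hρ₂, -, h2, h3⟩ := h.toGeo.ball_top hx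
  refine ⟨min ρ₁ ρ₂, lt_min hρ₁ hρ₂, fun z hz hzi => ?_⟩
  have hz1 := ball_subset_ball (min_le_left _ _) hz
  have hz2 := ball_subset_ball (min_le_right _ _) hz
  refine ⟨h2 z hz2 hzi, ?_⟩
  obtain ⟨G, hG, e⟩ := h1 z (h2 z hz2 hzi) hz1 _
    (h.toGeo.top_mem (Ioo_subset_Icc_self (h3 z hz2))) (Wall0_proj hz1)
  refine ⟨_, hG, ?_⟩
  rw [e]; unfold dot; simp only [sub_re, sub_im]; ring

theorem Wall0_bot (h : Str Ω lam u l r) {x : ℝ} (hx : x ∈ Ioo (l 0) (r 0))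
    {P : ℝ → Prop} (hP : ∀ᶠ s in 𝓝 (gB Ω u x), P s) : ∃ ρ : ℝ, 0 < ρ ∧
      ∀ z ∈ ball (⟨x, 0⟩ : ℂ) ρ, 0 < z.im → z ∈ Ω ∧ ∃ s, P s ∧ u z = s * z.im := by
  have hc : (⟨x, 0⟩ : ℂ) ∈ closure Ω :=
    frontier_subset_closure (h.toGeo.bot_mem (Ioo_subset_Icc_self hx))
  have hP' : ∀ᶠ G in 𝓝 (Gr Ω u ⟨x, 0⟩), P G.im :=
    (continuous_im.tendsto _).eventually hP
  obtain ⟨ρ₁, hρ₁, h1⟩ := Wall0_mvt h.toMn hc hP'
  obtain ⟨ρ₂, hρ₂, -, h2, h3⟩ := h.toGeo.ball_bot hx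
  refine ⟨min ρ₁ ρ₂, lt_min hρ₁ hρ₂, fun z hz hzi => ?_⟩
  have hz1 := ball_subset_ball (min_le_left _ _) hz
  have hz2 := ball_subset_ball (min_le_right _ _) hz
  refine ⟨h2 z hz2 hzi, ?_⟩
  obtain ⟨G, hG, e⟩ := h1 z (h2 z hz2 hzi) hz1 _
    (h.toGeo.bot_mem (Ioo_subset_Icc_self (h3 z hz2))) (Wall0_proj hz1)
  refine ⟨_, hG, ?_⟩
  rw [e]; unfold dot; simp only [sub_re, sub_im]; ring

theorem Str.Gr_top (h : Str Ω lam u l r) {x : ℝ} (hx : x ∈ Icc (l Real.pi) (r Real.pi)) :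
    Gr Ω u ⟨x, Real.pi⟩ = -(gT Ω u x : ℂ) * I := by
  have e := h.toMn.Gr_par (h.toGeo.top_mem hx)
  rw [h.toGeo.nu_top h.toMn.noCorner hx] at e
  have e2 : (Gr Ω u ⟨x, Real.pi⟩).re = 0 := by rw [e]; simp
  apply Complex.ext
  · rw [e2]; simp
  · simp [gT]
theorem Str.Gr_bot (h : Str Ω lam u l r) {x : ℝ} (hx : x ∈ Icc (l 0) (r 0)) :
    Gr Ω u ⟨x, 0⟩ = (gB Ω u x : ℂ) * I := by
  have e := h.toMn.Gr_par (h.toGeo.bot_mem hx)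
  rw [h.toGeo.nu_bot h.toMn.noCorner hx] at e
  have e2 : (Gr Ω u ⟨x, 0⟩).re = 0 := by rw [e]; simp
  apply Complex.ext
  · rw [e2]; simp
  · simp [gB]
theorem Str.continuousOn_gT (h : Str Ω lam u l r) :
    ContinuousOn (gT Ω u) (Icc (l Real.pi) (r Real.pi)) := by
  have hG : ContinuousOn (fun x : ℝ => Gr Ω u ⟨x, Real.pi⟩) (Icc (l Real.pi) (r Real.pi)) :=
    h.toMn.continuousOn_Gr.comp (Wall0_cont_mk continuousOn_id continuousOn_const)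
      fun x hx => frontier_subset_closure (h.toGeo.top_mem hx)
  exact (continuous_im.comp_continuousOn hG).neg
theorem Str.continuousOn_gB (h : Str Ω lam u l r) : ContinuousOn (gB Ω u) (Icc (l 0) (r 0)) := by
  have hG : ContinuousOn (fun x : ℝ => Gr Ω u ⟨x, 0⟩) (Icc (l 0) (r 0)) :=
    h.toMn.continuousOn_Gr.comp (Wall0_cont_mk continuousOn_id continuousOn_const)
      fun x hx => frontier_subset_closure (h.toGeo.bot_mem hx)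
  exact continuous_im.comp_continuousOn hG
theorem Str.arcL (h : Str Ω lam u l r) :
    (∀ y ∈ Icc 0 Real.pi, Gr Ω u ⟨l y, y⟩ = nu Ω ⟨l y, y⟩) ∨
      ∀ y ∈ Icc 0 Real.pi, Gr Ω u ⟨l y, y⟩ = -nu Ω ⟨l y, y⟩ :=
  Wall0_arc h.toMn (γ := fun y => ⟨l y, y⟩) (Wall0_cont_mk h.contl continuousOn_id)
    fun _ hy => (h.toGeo.ext_iff _).mpr ⟨hy, Or.inl rfl⟩
theorem Str.arcR (h : Str Ω lam u l r) :
    (∀ y ∈ Icc 0 Real.pi, Gr Ω u ⟨r y, y⟩ = nu Ω ⟨r y, y⟩) ∨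
      ∀ y ∈ Icc 0 Real.pi, Gr Ω u ⟨r y, y⟩ = -nu Ω ⟨r y, y⟩ :=
  Wall0_arc h.toMn (γ := fun y => ⟨r y, y⟩) (Wall0_cont_mk h.contr continuousOn_id)
    fun _ hy => (h.toGeo.ext_iff _).mpr ⟨hy, Or.inr rfl⟩
theorem Str.arc_re_ne (h : Str Ω lam u l r) {p : ℂ} (hp : Arc l r p) : (Gr Ω u p).re ≠ 0 := by
  have he : Ext Ω p := (h.toGeo.ext_iff p).mpr ⟨Ioo_subset_Icc_self hp.1, hp.2⟩
  have hn : (nu Ω p).re ≠ 0 := by
    rcases hp.2 with e | e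
    · have e' : p = ⟨l p.im, p.im⟩ := Complex.ext e rfl
      rw [e']; exact (h.toGeo.nu_left hp.1).ne
    · have e' : p = ⟨r p.im, p.im⟩ := Complex.ext e rfl
      rw [e']; exact (h.toGeo.nu_right hp.1).ne'
  rcases h.toMn.Gr_ext he with e | e
  · rw [e]; exact hn
  · rw [e, neg_re]; exact neg_ne_zero.mpr hn
theorem Str.arc_of_re_ne (h : Str Ω lam u l r) {p : ℂ} (hp : p ∈ frontier Ω)
    (h0 : (Gr Ω u p).re ≠ 0) : Arc l r p := by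
  obtain ⟨h1, h2, h3⟩ := (h.toGeo.mem_frontier p).mp hp
  have hb : p.im ≠ 0 := by
    intro e
    rw [e] at h2
    have e' : p = ⟨p.re, 0⟩ := Complex.ext rfl e
    apply h0
    rw [e', h.Gr_bot h2]; simp
  have ht : p.im ≠ Real.pi := by
    intro e
    rw [e] at h2
    have e' : p = ⟨p.re, Real.pi⟩ := Complex.ext rfl e
    apply h0
    rw [e', h.Gr_top h2]; simp
  exact ⟨⟨lt_of_le_of_ne h1.1 hb.symm, lt_of_le_of_ne h1.2 ht⟩,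
    (h3.resolve_left hb).resolve_left ht⟩
theorem Str.zero_wall (h : Str Ω lam u l r) {z : ℂ} (hz : z.im ≤ 0 ∨ Real.pi ≤ z.im) : u z = 0 := by
  refine h.toMn.lip.zero z fun hzΩ => ?_
  have h1 := ((h.toGeo.mem z).mp hzΩ).1
  rcases hz with e | e
  · exact absurd h1.1 (not_lt.mpr e)
  · exact absurd h1.2 (not_lt.mpr e)
theorem Pat.arc_re_neg (h : Pat Ω lam u l r nT nB) {p : ℂ} (hp : Arc l r p) :
    (Gr Ω u p).re < 0 := by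
  rcases hp.2 with e | e
  · have e' : p = ⟨l p.im, p.im⟩ := Complex.ext e rfl
    rw [e', h.sgL _ (Ioo_subset_Icc_self hp.1)]
    exact h.toGeo.nu_left hp.1
  · have e' : p = ⟨r p.im, p.im⟩ := Complex.ext e rfl
    rw [e', h.sgR _ (Ioo_subset_Icc_self hp.1), neg_re]
    exact neg_neg_of_pos (h.toGeo.nu_right hp.1)
theorem Pat.gT_left (h : Pat Ω lam u l r nT nB) : gT Ω u (l Real.pi) = -1 := by
  unfold gT
  rw [h.sgL _ (right_mem_Icc.mpr Real.pi_pos.le),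
    h.toGeo.nu_top h.toMn.noCorner (left_mem_Icc.mpr h.htop.le)]
  simp
theorem Pat.gT_right (h : Pat Ω lam u l r nT nB) : gT Ω u (r Real.pi) = 1 := by
  unfold gT
  rw [h.sgR _ (right_mem_Icc.mpr Real.pi_pos.le),
    h.toGeo.nu_top h.toMn.noCorner (right_mem_Icc.mpr h.htop.le)]
  simp
theorem Pat.gB_left (h : Pat Ω lam u l r nT nB) : gB Ω u (l 0) = -1 := by
  unfold gB
  rw [h.sgL _ (left_mem_Icc.mpr Real.pi_pos.le),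
    h.toGeo.nu_bot h.toMn.noCorner (left_mem_Icc.mpr h.hbot.le)]
  simp
theorem Pat.gB_right (h : Pat Ω lam u l r nT nB) : gB Ω u (r 0) = 1 := by
  unfold gB
  rw [h.sgR _ (left_mem_Icc.mpr Real.pi_pos.le),
    h.toGeo.nu_bot h.toMn.noCorner (right_mem_Icc.mpr h.hbot.le)]
  simp
theorem Str.slope_lower (h : Str Ω lam u l r) {x γ : ℝ} (hx : x ∈ Ioo (l Real.pi) (r Real.pi))
    (hγ : γ < gT Ω u x) : ∃ ρ : ℝ, 0 < ρ ∧ ∀ z ∈ ball (⟨x, Real.pi⟩ : ℂ) ρ, z.im < Real.pi →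
      z ∈ Ω ∧ γ * (Real.pi - z.im) < u z := by
  obtain ⟨ρ, hρ, h1⟩ := Wall0_top h hx (lt_mem_nhds hγ)
  refine ⟨ρ, hρ, fun z hz hzi => ?_⟩
  obtain ⟨h2, s, hs, e⟩ := h1 z hz hzi
  exact ⟨h2, e ▸ mul_lt_mul_of_pos_right hs (sub_pos.mpr hzi)⟩
theorem Str.slope_upper (h : Str Ω lam u l r) {x γ : ℝ} (hx : x ∈ Ioo (l Real.pi) (r Real.pi))
    (hγ : gT Ω u x < γ) : ∃ ρ : ℝ, 0 < ρ ∧ ∀ z ∈ ball (⟨x, Real.pi⟩ : ℂ) ρ, z.im < Real.pi →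
      z ∈ Ω ∧ u z < γ * (Real.pi - z.im) := by
  obtain ⟨ρ, hρ, h1⟩ := Wall0_top h hx (gt_mem_nhds hγ)
  refine ⟨ρ, hρ, fun z hz hzi => ?_⟩
  obtain ⟨h2, s, hs, e⟩ := h1 z hz hzi
  exact ⟨h2, e ▸ mul_lt_mul_of_pos_right hs (sub_pos.mpr hzi)⟩
theorem Str.slopeB_lower (h : Str Ω lam u l r) {x γ : ℝ} (hx : x ∈ Ioo (l 0) (r 0))
    (hγ : γ < gB Ω u x) : ∃ ρ : ℝ, 0 < ρ ∧ ∀ z ∈ ball (⟨x, 0⟩ : ℂ) ρ, 0 < z.im →
      z ∈ Ω ∧ γ * z.im < u z := by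
  obtain ⟨ρ, hρ, h1⟩ := Wall0_bot h hx (lt_mem_nhds hγ)
  refine ⟨ρ, hρ, fun z hz hzi => ?_⟩
  obtain ⟨h2, s, hs, e⟩ := h1 z hz hzi
  exact ⟨h2, e ▸ mul_lt_mul_of_pos_right hs hzi⟩
theorem Str.slopeB_upper (h : Str Ω lam u l r) {x γ : ℝ} (hx : x ∈ Ioo (l 0) (r 0))
    (hγ : gB Ω u x < γ) : ∃ ρ : ℝ, 0 < ρ ∧ ∀ z ∈ ball (⟨x, 0⟩ : ℂ) ρ, 0 < z.im →
      z ∈ Ω ∧ u z < γ * z.im := by
  obtain ⟨ρ, hρ, h1⟩ := Wall0_bot h hx (gt_mem_nhds hγ)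
  refine ⟨ρ, hρ, fun z hz hzi => ?_⟩
  obtain ⟨h2, s, hs, e⟩ := h1 z hz hzi
  exact ⟨h2, e ▸ mul_lt_mul_of_pos_right hs hzi⟩

end Pool.Agent.L2K
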