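import Pool.Agent.P.MP_2f6447_an.K.Null
import Pool.Agent.P.MP_2f6447_an.K.Avg
import Pool.Agent.P.MP_2f6447_an.K.Wall0

/-! The stress identity in strip position. -/

open Set MeasureTheory Filter Topology Complex Metric
open scoped ContDiff ComplexConjugate

namespace Pool.Agent.L2K

variable {Ω U : Set ℂ} {lam : ℝ} {u w f g : ℂ → ℝ}
variable {l r : ℝ → ℝ} {nT nB n φ : ℝ}

/-- profile of the cutoff that vanishes near the two walls -/
noncomputable def Seg_eta (ε t : ℝ) : ℝ :=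
  ramp ε (2 * ε) t - ramp (Real.pi - 2 * ε) (Real.pi - ε) t

/-- the normal stress across horizontal lines, continuous up to the boundary -/
noncomputable def Seg_Phi (Ω : Set ℂ) (lam : ℝ) (u : ℂ → ℝ) (X : ℂ → ℂ) (z : ℂ) : ℝ :=
  dot (Gr Ω u z) (X z) * dot (Gr Ω u z) I - (‖Gr Ω u z‖ ^ 2 - lam * u z ^ 2 + 1) / 2 * dot (X z) I

theorem Seg_ramp_zero {a b t : ℝ} (hab : a < b) (ht : t ≤ a) : ramp a b t = 0 := by
  have : (t - a) / (b - a) ≤ 0 :=
    div_nonpos_of_nonpos_of_nonneg (sub_nonpos.2 ht) (sub_pos.2 hab).le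
  exact max_eq_left ((min_le_right _ _).trans this)

theorem Seg_ramp_one {a b t : ℝ} (hab : a < b) (ht : b ≤ t) : ramp a b t = 1 := by
  have e1 : 1 ≤ (t - a) / (b - a) := (one_le_div (sub_pos.2 hab)).2 (by linarith)
  unfold ramp
  rw [min_eq_left e1, max_eq_right zero_le_one]

theorem Seg_eta_abs (ε t : ℝ) : |Seg_eta ε t| ≤ 1 := by
  unfold Seg_eta
  rw [abs_le]
  constructor <;> linarith [Shear_ramp_nonneg ε (2 * ε) t, Shear_ramp_le_one ε (2 * ε) t,
    Shear_ramp_nonneg (Real.pi - 2 * ε) (Real.pi - ε) t,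
    Shear_ramp_le_one (Real.pi - 2 * ε) (Real.pi - ε) t]

theorem Seg_eta_lip {ε : ℝ} (hε : 0 < ε) : LocallyLipschitz fun z : ℂ => Seg_eta ε z.im := by
  refine (LipschitzWith.of_dist_le' (K := 2 * ε⁻¹) fun z w => ?_).locallyLipschitz
  have h1 := Shear_ramp_lip (a := ε) (b := 2 * ε) (by linarith) z.im w.im
  have h2 := Shear_ramp_lip (a := Real.pi - 2 * ε) (b := Real.pi - ε) (by linarith) z.im w.im
  have e1 : 2 * ε - ε = ε := by ring
  have e2 : Real.pi - ε - (Real.pi - 2 * ε) = ε := by ring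
  rw [e1] at h1
  rw [e2] at h2
  have h3 : |z.im - w.im| ≤ ‖z - w‖ := by simpa using abs_im_le_norm (z - w)
  have h4 := mul_le_mul_of_nonneg_left h3 (inv_pos.2 hε).le
  rw [Real.dist_eq, dist_eq_norm]
  unfold Seg_eta
  rw [abs_le] at h1 h2 ⊢
  constructor <;> linarith [h1.1, h1.2, h2.1, h2.2]

theorem Seg_grad_im (z : ℂ) : grad (fun y : ℂ => y.im) z = I := by
  refine grad_eq_of_hasFDerivAt (L := Complex.imCLM) Complex.imCLM.hasFDerivAt ?_
  intro v
  simp [dot]

theorem Seg_st {ε : ℝ} (hε : 0 < ε) {X : ℂ → ℂ} (hX : LocallyLipschitz X) :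
    ∀ᵐ z : ℂ, st lam u (fun x => (Seg_eta ε x.im : ℂ) * X x) z =
      Seg_eta ε z.im * st lam u X z +
        (ε⁻¹ * {z : ℂ | ε < z.im ∧ z.im < 2 * ε}.indicator (fun z => tx lam u z (X z) I) z -
          ε⁻¹ * {z : ℂ | Real.pi - 2 * ε < z.im ∧ z.im < Real.pi - ε}.indicator
            (fun z => tx lam u z (X z) I) z) := by
  have h1 : ∀ᵐ z : ℂ, z.im ≠ ε := Shear_qmp_im.ae (Measure.ae_ne volume _)
  have h2 : ∀ᵐ z : ℂ, z.im ≠ 2 * ε := Shear_qmp_im.ae (Measure.ae_ne volume _)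
  have h3 : ∀ᵐ z : ℂ, z.im ≠ Real.pi - 2 * ε := Shear_qmp_im.ae (Measure.ae_ne volume _)
  have h4 : ∀ᵐ z : ℂ, z.im ≠ Real.pi - ε := Shear_qmp_im.ae (Measure.ae_ne volume _)
  filter_upwards [h1, h2, h3, h4, locLip_ae' hX] with z z1 z2 z3 z4 z5
  have d1 := Shear_ramp_hasDerivAt (a := ε) (b := 2 * ε) (by linarith) z1 z2
  have d2 := Shear_ramp_hasDerivAt (a := Real.pi - 2 * ε) (b := Real.pi - ε) (by linarith) z3 z4
  have e1 : 2 * ε - ε = ε := by ring
  have e2 : Real.pi - ε - (Real.pi - 2 * ε) = ε := by ring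
  rw [e1] at d1
  rw [e2] at d2
  have d3 : HasDerivAt (Seg_eta ε) _ z.im := d1.sub d2
  have di : DifferentiableAt ℝ (fun y : ℂ => y.im) z := Complex.imCLM.differentiableAt
  have d4 : DifferentiableAt ℝ (fun y : ℂ => Seg_eta ε y.im) z :=
    d3.differentiableAt.comp z di
  rw [st_smul d4 z5, grad_comp (f := fun y : ℂ => y.im) d3 di, Seg_grad_im, tx_smul]
  have i1 : (Ioo ε (2 * ε)).indicator (fun _ => ε⁻¹) z.im * tx lam u z (X z) I =
      ε⁻¹ * {z : ℂ | ε < z.im ∧ z.im < 2 * ε}.indicator (fun z => tx lam u z (X z) I) z := by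
    by_cases hz : z.im ∈ Ioo ε (2 * ε)
    · rw [indicator_of_mem hz, indicator_of_mem (show z ∈ {z : ℂ | ε < z.im ∧ z.im < 2 * ε} from hz)]
    · rw [indicator_of_notMem hz,
        indicator_of_notMem (show z ∉ {z : ℂ | ε < z.im ∧ z.im < 2 * ε} from hz)]
      ring
  have i2 : (Ioo (Real.pi - 2 * ε) (Real.pi - ε)).indicator (fun _ => ε⁻¹) z.im *
      tx lam u z (X z) I = ε⁻¹ * {z : ℂ | Real.pi - 2 * ε < z.im ∧ z.im < Real.pi - ε}.indicator
        (fun z => tx lam u z (X z) I) z := by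
    by_cases hz : z.im ∈ Ioo (Real.pi - 2 * ε) (Real.pi - ε)
    · rw [indicator_of_mem hz, indicator_of_mem
        (show z ∈ {z : ℂ | Real.pi - 2 * ε < z.im ∧ z.im < Real.pi - ε} from hz)]
    · rw [indicator_of_notMem hz, indicator_of_notMem
        (show z ∉ {z : ℂ | Real.pi - 2 * ε < z.im ∧ z.im < Real.pi - ε} from hz)]
      ring
  rw [sub_mul, i1, i2]

theorem Seg_band (a b : ℝ) : MeasurableSet {z : ℂ | a < z.im ∧ z.im < b} :=
  ((isOpen_lt continuous_const Complex.continuous_im).inter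
    (isOpen_lt Complex.continuous_im continuous_const)).measurableSet

theorem Seg_dot_cont {S : Set ℂ} {A B : ℂ → ℂ} (hA : ContinuousOn A S) (hB : ContinuousOn B S) :
    ContinuousOn (fun z => dot (A z) (B z)) S :=
  ((Complex.continuous_re.comp_continuousOn hA).mul (Complex.continuous_re.comp_continuousOn hB)).add
    ((Complex.continuous_im.comp_continuousOn hA).mul (Complex.continuous_im.comp_continuousOn hB))

theorem Seg_Phi_cont (h : Mn Ω lam u) {X : ℂ → ℂ} (hX : LocallyLipschitz X) :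
    ContinuousOn (Seg_Phi Ω lam u X) (closure Ω) := by
  have hG := h.continuousOn_Gr
  have hc : ContinuousOn X (closure Ω) := hX.continuous.continuousOn
  have hu : ContinuousOn u (closure Ω) := h.lip.continuous.continuousOn
  exact ((Seg_dot_cont hG hc).mul (Seg_dot_cont hG continuousOn_const)).sub
    (((((hG.norm.pow 2).sub (continuousOn_const.mul (hu.pow 2))).add
      continuousOn_const).div_const 2).mul (Seg_dot_cont hc continuousOn_const))

theorem Seg_Phi_eq (h : Mn Ω lam u) (X : ℂ → ℂ) {z : ℂ} (hz : z ∈ Ω) :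
    tx lam u z (X z) I = Seg_Phi Ω lam u X z := by
  unfold tx Seg_Phi
  rw [h.Gr_eq hz]

theorem Seg_key (h : Str Ω lam u l r) {X : ℂ → ℂ} (hX : LocallyLipschitz X) {ε : ℝ} (hε : 0 < ε)
    (hε1 : ε ≤ 1) : ∫ z in Ω, Seg_eta ε z.im * st lam u X z =
      ε⁻¹ * (∫ z in Ω ∩ {z | Real.pi - 2 * ε < z.im ∧ z.im < Real.pi - ε}, Seg_Phi Ω lam u X z) -
        ε⁻¹ * ∫ z in Ω ∩ {z | ε < z.im ∧ z.im < 2 * ε}, Seg_Phi Ω lam u X z := by
  have hM : Mn Ω lam u := h.toMn
  have hG : Geo Ω l r := h.toGeo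
  have hD : Dom Ω := hM.toIsMin.toDom
  have hΩ : MeasurableSet Ω := hD.isOpen.measurableSet
  have hpi := Real.pi_gt_three
  have h0 : LL lam Ω u (fun x => (Seg_eta ε x.im : ℂ) * X x) = 0 := by
    refine hM.LL_null' (locLip_smul (Seg_eta_lip hε) hX) fun p hp => ?_
    obtain ⟨p1, -, p3⟩ := (hG.mem_frontier p).1 hp
    rcases p3 with p3 | p3 | p3 | p3
    · right
      have : Seg_eta ε p.im = 0 := by
        unfold Seg_eta
        rw [Seg_ramp_zero (by linarith) (by linarith), Seg_ramp_zero (by linarith) (by linarith),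
          sub_zero]
      simp [this]
    · right
      have : Seg_eta ε p.im = 0 := by
        unfold Seg_eta
        rw [Seg_ramp_one (by linarith) (by linarith), Seg_ramp_one (by linarith) (by linarith),
          sub_self]
      simp [this]
    · exact Or.inl ((hG.ext_iff p).2 ⟨p1, Or.inl p3⟩)
    · exact Or.inl ((hG.ext_iff p).2 ⟨p1, Or.inr p3⟩)
  have iΦ : IntegrableOn (Seg_Phi Ω lam u X) Ω :=
    ((Seg_Phi_cont hM hX).integrableOn_compact hD.bdd.isCompact_closure).mono_set subset_closure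
  have i1 : IntegrableOn (fun z : ℂ => Seg_eta ε z.im * st lam u X z) Ω := by
    refine Integrable.bdd_mul (c := 1) (hM.integrableOn_st' hX)
      (Seg_eta_lip hε).continuous.aestronglyMeasurable ?_
    exact Eventually.of_forall fun z => Seg_eta_abs ε z.im
  have i2 : ∀ a b : ℝ, IntegrableOn
      (fun z => ε⁻¹ * {z : ℂ | a < z.im ∧ z.im < b}.indicator (Seg_Phi Ω lam u X) z) Ω :=
    fun a b => Integrable.const_mul (Integrable.indicator iΦ (Seg_band a b)) _
  have e : LL lam Ω u (fun x => (Seg_eta ε x.im : ℂ) * X x) =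
      ∫ z in Ω, (Seg_eta ε z.im * st lam u X z +
        (ε⁻¹ * {z : ℂ | ε < z.im ∧ z.im < 2 * ε}.indicator (Seg_Phi Ω lam u X) z -
          ε⁻¹ * {z : ℂ | Real.pi - 2 * ε < z.im ∧ z.im < Real.pi - ε}.indicator
            (Seg_Phi Ω lam u X) z)) := by
    refine setIntegral_congr_ae hΩ ?_
    filter_upwards [Seg_st (lam := lam) (u := u) hε hX] with z hz hzΩ
    rw [hz]
    simp only [indicator_apply, Seg_Phi_eq hM X hzΩ]
  have i3 : IntegrableOn (fun z =>
      ε⁻¹ * {z : ℂ | ε < z.im ∧ z.im < 2 * ε}.indicator (Seg_Phi Ω lam u X) z -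
        ε⁻¹ * {z : ℂ | Real.pi - 2 * ε < z.im ∧ z.im < Real.pi - ε}.indicator
          (Seg_Phi Ω lam u X) z) Ω := (i2 _ _).sub (i2 _ _)
  rw [h0, integral_add i1 i3, integral_sub (i2 _ _) (i2 _ _),
    integral_const_mul, integral_const_mul, setIntegral_indicator (Seg_band _ _),
    setIntegral_indicator (Seg_band _ _)] at e
  linarith

theorem Seg_lim (h : Str Ω lam u l r) {X : ℂ → ℂ} (hX : LocallyLipschitz X) :
    Tendsto (fun ε : ℝ => ∫ z in Ω, Seg_eta ε z.im * st lam u X z) (𝓝[>] 0)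
      (𝓝 (LL lam Ω u X)) := by
  have hM : Mn Ω lam u := h.toMn
  have hΩ : MeasurableSet Ω := hM.toIsMin.toDom.isOpen.measurableSet
  have hi := hM.integrableOn_st' hX
  refine tendsto_integral_filter_of_dominated_convergence (fun z => ‖st lam u X z‖) ?_ ?_
    hi.norm ?_
  · filter_upwards [self_mem_nhdsWithin] with ε hε
    exact (Seg_eta_lip hε).continuous.aestronglyMeasurable.mul hi.1
  · refine Eventually.of_forall fun ε => Eventually.of_forall fun z => ?_
    rw [norm_mul]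
    exact mul_le_of_le_one_left (norm_nonneg _) (Seg_eta_abs ε z.im)
  · filter_upwards [ae_restrict_mem hΩ] with z hz
    obtain ⟨⟨z1, z2⟩, -⟩ := (h.toGeo.mem z).1 hz
    refine tendsto_const_nhds.congr' ?_
    have hp : 0 < min (z.im / 2) ((Real.pi - z.im) / 2) := lt_min (by linarith) (by linarith)
    filter_upwards [Ioo_mem_nhdsGT hp] with ε hε
    have a1 := hε.1
    have a2 := (lt_min_iff.1 hε.2).1
    have a3 := (lt_min_iff.1 hε.2).2
    unfold Seg_eta
    rw [Seg_ramp_one (by linarith) (by linarith), Seg_ramp_zero (by linarith) (by linarith),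
      sub_zero, one_mul]

theorem Seg_normsq (a : ℂ) : ‖a‖ ^ 2 = a.re ^ 2 + a.im ^ 2 := by
  rw [← dot_self]
  unfold dot
  ring

theorem Str.LL_seg (h : Str Ω lam u l r) {X : ℂ → ℂ} (hX : LocallyLipschitz X) :
    LL lam Ω u X =
      (∫ x in l Real.pi..r Real.pi, (gT Ω u x ^ 2 - 1) * (X ⟨x, Real.pi⟩).im) / 2 -
        (∫ x in l 0..r 0, (gB Ω u x ^ 2 - 1) * (X ⟨x, 0⟩).im) / 2 := by
  have hc := Seg_Phi_cont h.toMn hX
  have h1 := (h.toGeo.avg_top hc).sub (h.toGeo.avg_bot hc)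
  have h2 := h1.congr' (f₂ := fun ε : ℝ => ∫ z in Ω, Seg_eta ε z.im * st lam u X z) (by
    filter_upwards [Ioc_mem_nhdsGT (zero_lt_one (α := ℝ))] with ε hε
    exact (Seg_key h hX hε.1 hε.2).symm)
  rw [tendsto_nhds_unique (Seg_lim h hX) h2, ← intervalIntegral.integral_div,
    ← intervalIntegral.integral_div]
  have eT : ∫ x in l Real.pi..r Real.pi, Seg_Phi Ω lam u X ⟨x, Real.pi⟩ =
      ∫ x in l Real.pi..r Real.pi, (gT Ω u x ^ 2 - 1) * (X ⟨x, Real.pi⟩).im / 2 := by
    refine intervalIntegral.integral_congr fun x hx => ?_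
    rw [uIcc_of_le h.htop.le] at hx
    simp only [Seg_Phi]
    rw [h.Gr_top hx, h.zero_wall (Or.inr le_rfl), Seg_normsq]
    simp [dot]
    ring
  have eB : ∫ x in l 0..r 0, Seg_Phi Ω lam u X ⟨x, 0⟩ =
      ∫ x in l 0..r 0, (gB Ω u x ^ 2 - 1) * (X ⟨x, 0⟩).im / 2 := by
    refine intervalIntegral.integral_congr fun x hx => ?_
    rw [uIcc_of_le h.hbot.le] at hx
    simp only [Seg_Phi]
    rw [h.Gr_bot hx, h.zero_wall (Or.inl le_rfl), Seg_normsq]
    simp [dot]
    ring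
  rw [eT, eB]

theorem Seg_chord (h : Str Ω lam u l r) {χ : ℝ → ℝ} {K : NNReal} (hχ : LipschitzWith K χ) :
    ∫ z in Ω, deriv χ z.re * ((grad u z).re ^ 2 - (grad u z).im ^ 2 + lam * u z ^ 2 - 1) = 0 := by
  have hX : LocallyLipschitz fun z : ℂ => (χ z.re : ℂ) :=
    (Complex.isometry_ofReal.lipschitz.comp (hχ.comp Complex.reCLM.lipschitz)).locallyLipschitz
  have h0 := h.LL_seg hX
  simp only [ofReal_im, mul_zero, intervalIntegral.integral_zero, zero_div, sub_zero] at h0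
  have e : LL lam Ω u (fun z : ℂ => (χ z.re : ℂ)) = ∫ z in Ω, (1 / 2) *
      (deriv χ z.re * ((grad u z).re ^ 2 - (grad u z).im ^ 2 + lam * u z ^ 2 - 1)) := by
    refine integral_congr_ae (ae_restrict_of_ae ?_)
    have h1 : ∀ᵐ z : ℂ, DifferentiableAt ℝ χ z.re := Shear_qmp_re.ae hχ.ae_differentiableAt_real
    filter_upwards [h1] with z hz
    have e1 : HasFDerivAt (fun z : ℂ => χ z.re) (deriv χ z.re • reCLM) z :=
      hz.hasDerivAt.comp_hasFDerivAt z reCLM.hasFDerivAt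
    have e2 : fderiv ℝ (fun z : ℂ => (χ z.re : ℂ)) z = _ := (ofRealCLM.hasFDerivAt.comp z e1).fderiv
    simp only [st, dv, e2, Seg_normsq]
    simp [dot]
    ring
  rw [h0, integral_const_mul] at e
  linarith

theorem Str.iso (h : Str Ω lam u l r) : ∫ z in Ω, (grad u z).re ^ 2 = area Ω / 2 ∧
    ∫ z in Ω, (grad u z).im ^ 2 = area Ω / 2 := by
  have hM : Mn Ω lam u := h.toMn
  have hD : Dom Ω := hM.toIsMin.toDom
  have hG := FV_grad_BV hM.lip
  have hone : FV_BV fun _ : ℂ => (1 : ℂ) := FV_BV.of_bound measurable_const (C := 1) fun _ => by simp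
  have hI : FV_BV fun _ : ℂ => I := FV_BV.of_bound measurable_const (C := 1) fun _ => by simp
  have i1 : IntegrableOn (fun z => (grad u z).re ^ 2) Ω :=
    ((hG.dot hone).sq.of_eq fun z => by simp [dot]).integrableOn hD
  have i2 : IntegrableOn (fun z => (grad u z).im ^ 2) Ω :=
    ((hG.dot hI).sq.of_eq fun z => by simp [dot]).integrableOn hD
  have i3 : IntegrableOn (fun z => lam * u z ^ 2) Ω :=
    ((FV_lip_BM hM.lip hD).sq.cmul lam).integrableOn hD
  have i4 : IntegrableOn (fun _ : ℂ => (1 : ℝ)) Ω := (FV_BM.const 1).integrableOn hD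
  have h1 := Seg_chord h LipschitzWith.id
  simp only [deriv_id, one_mul] at h1
  have i5 : IntegrableOn (fun z => (grad u z).re ^ 2 - (grad u z).im ^ 2) Ω := i1.sub i2
  have i6 : IntegrableOn (fun z => (grad u z).re ^ 2 - (grad u z).im ^ 2 + lam * u z ^ 2) Ω :=
    i5.add i3
  rw [integral_sub i6 i4, integral_add i5 i3, integral_sub i1 i2, integral_const_mul] at h1
  have e3 : ∫ z in Ω, u z ^ 2 = ∫ z, u z ^ 2 :=
    setIntegral_eq_integral_of_forall_compl_eq_zero fun z hz => by simp [hM.lip.zero z hz]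
  have e4 : ∫ _ in Ω, (1 : ℝ) = area Ω := by simp [area, Measure.real]
  have e5 : ∫ z in Ω, ‖grad u z‖ ^ 2 = area Ω := by
    rw [FV_set hD hM.lip fun z hz => by simp [hz]]
    exact hM.energy
  simp only [Seg_normsq] at e5
  rw [integral_add i1 i2] at e5
  rw [e3, hM.nrm, e4] at h1
  constructor <;> linarith

theorem Str.chordV (h : Str Ω lam u l r) {χ : ℝ → ℝ} {K : NNReal} (hχ : LipschitzWith K χ) :
    ∫ z in Ω, deriv χ z.re * ((grad u z).re ^ 2 - (grad u z).im ^ 2 + lam * u z ^ 2 - 1) = 0 :=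
  Seg_chord h hχ

end Pool.Agent.L2K
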