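import Pool.Agent.P.MP_2f6447_an.K.Two

/-! Two zero-data domains are impossible. -/

open Set MeasureTheory Filter Topology Complex Metric
open scoped ContDiff ComplexConjugate

namespace Pool.Agent.L2K

variable {Ω U : Set ℂ} {lam : ℝ} {u w f g : ℂ → ℝ}

theorem Two2_loc {V E : Set ℂ} (h : Helm lam V w) (o : IsOpen E) (s : E ⊆ V)
    (z0 : ∀ z ∈ E, w z ≠ 0) {p : ℂ} (hp : p ∈ E) :
    ∃ σ : ℝ, σ ≠ 0 ∧ ∀ᶠ z in 𝓝 p, z ∈ E ∧ E.indicator (fun z => |w z|) z = σ * w z := by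
  have hc : ContinuousAt w p := h.continuousOn.continuousAt (h.isOpen.mem_nhds (s hp))
  have hE : ∀ᶠ z in 𝓝 p, z ∈ E := o.mem_nhds hp
  rcases lt_or_gt_of_ne (z0 p hp) with hn | hn
  · refine ⟨-1, by norm_num, ?_⟩
    filter_upwards [hE, hc.eventually (gt_mem_nhds hn)] with z hz hw
    refine ⟨hz, ?_⟩
    rw [indicator_of_mem hz, abs_of_neg hw]; ring
  · refine ⟨1, by norm_num, ?_⟩
    filter_upwards [hE, hc.eventually (lt_mem_nhds hn)] with z hz hw
    refine ⟨hz, ?_⟩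
    rw [indicator_of_mem hz, abs_of_pos hw]; ring

theorem Two2_cont {V E : Set ℂ} (h : Helm lam V w) (o : IsOpen E) (s : E ⊆ V)
    (f1 : ∀ p ∈ frontier E, Tendsto w (𝓝[E] p) (𝓝 0)) :
    Continuous (E.indicator fun z => |w z|) := by
  rw [continuous_iff_continuousAt]
  intro p
  by_cases hp : p ∈ E
  · have hc : ContinuousAt w p := h.continuousOn.continuousAt (h.isOpen.mem_nhds (s hp))
    refine hc.abs.congr ?_
    filter_upwards [o.mem_nhds hp] with z hz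
    rw [indicator_of_mem hz]
  · unfold ContinuousAt
    rw [indicator_of_notMem hp, ← nhdsWithin_univ, ← union_compl_self E, nhdsWithin_union,
      tendsto_sup]
    constructor
    · by_cases hcl : p ∈ closure E
      · have hf : p ∈ frontier E := ⟨hcl, by rwa [o.interior_eq]⟩
        have h1 := (f1 p hf).abs
        rw [abs_zero] at h1
        refine h1.congr' ?_
        filter_upwards [self_mem_nhdsWithin] with z hz
        rw [indicator_of_mem hz]
      · rw [mem_closure_iff_nhdsWithin_neBot, not_neBot] at hcl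
        rw [hcl]
        exact tendsto_bot
    · refine tendsto_const_nhds.congr' ?_
      filter_upwards [self_mem_nhdsWithin] with z hz
      rw [indicator_of_notMem hz]

theorem Two2_pos {E : Set ℂ} (z0 : ∀ z ∈ E, w z ≠ 0) :
    {z | 0 < E.indicator (fun z => |w z|) z} = E := by
  ext z
  by_cases hz : z ∈ E
  · simp only [mem_ofPred_eq, indicator_of_mem hz, abs_pos, hz, iff_true]
    exact z0 z hz
  · simp only [mem_ofPred_eq, indicator_of_notMem hz, lt_self_iff_false, hz]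

theorem Two2_helm {V E : Set ℂ} (h : Helm lam V w) (o : IsOpen E) (s : E ⊆ V)
    (z0 : ∀ z ∈ E, w z ≠ 0) : Helm lam E (E.indicator fun z => |w z|) := by
  refine helm_of_locally o fun p hp => ?_
  obtain ⟨σ, -, hσ⟩ := Two2_loc h o s z0 hp
  obtain ⟨W, hW, oW, pW⟩ := _root_.eventually_nhds_iff.1 hσ
  refine ⟨W, pW, ?_⟩
  exact ((h.mono oW fun z hz => s (hW z hz).1).const_mul σ).congr fun z hz => (hW z hz).2

theorem Two2_ext {V E : Set ℂ} {F : ℂ → ℝ} {a : ℝ} (hl : 0 ≤ lam) (hV : IsPreconnected V)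
    (h : Helm lam V w) (hF : Helm lam V F) (o : IsOpen E) (n : E.Nonempty) (s : E ⊆ V)
    (z0 : ∀ z ∈ E, w z ≠ 0) (ha : a ≠ 0)
    (e : ∀ z ∈ E, F z = a * E.indicator (fun z => |w z|) z) :
    ∃ c : ℝ, c ≠ 0 ∧ ∀ z ∈ V, F z = c * w z := by
  obtain ⟨p, hp⟩ := n
  obtain ⟨σ, h0, hσ⟩ := Two2_loc h o s z0 hp
  refine ⟨a * σ, mul_ne_zero ha h0, fun z hz => ?_⟩
  have h1 := uc (hF.sub (h.const_mul (a * σ))) hl hV (s hp) (by
    filter_upwards [hσ] with y hy
    rw [e y hy.1, hy.2]; ring) z hz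
  exact sub_eq_zero.1 h1

theorem two_domains (hΩ : Dom Ω) {V E₁ E₂ : Set ℂ} (hV : IsPreconnected V) (hVΩ : V ⊆ Ω)
    (h : Helm (lam2c Ω) V w) (o1 : IsOpen E₁) (o2 : IsOpen E₂) (n1 : E₁.Nonempty)
    (n2 : E₂.Nonempty) (s1 : E₁ ⊆ V) (s2 : E₂ ⊆ V) (hd : Disjoint E₁ E₂)
    (z1 : ∀ z ∈ E₁, w z ≠ 0) (z2 : ∀ z ∈ E₂, w z ≠ 0)
    (f1 : ∀ p ∈ frontier E₁, Tendsto w (𝓝[E₁] p) (𝓝 0))
    (f2 : ∀ p ∈ frontier E₂, Tendsto w (𝓝[E₂] p) (𝓝 0)) :
    ∃ (F : ℂ → ℝ) (c : ℝ), c ≠ 0 ∧ Continuous F ∧ Helm (lam2c Ω) Ω F ∧ (∀ z ∈ V, F z = c * w z) ∧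
      ∀ z, z ∉ E₁ → z ∉ E₂ → F z = 0 := by
  have c1 := Two2_cont h o1 s1 f1
  have c2 := Two2_cont h o2 s2 f2
  have e1 := Two2_pos z1
  have e2 := Two2_pos z2
  have d1 : ∀ z ∈ E₁, z ∉ E₂ := fun z hz => disjoint_left.1 hd hz
  have d2 : ∀ z ∈ E₂, z ∉ E₁ := fun z hz => disjoint_right.1 hd hz
  obtain ⟨c₁, c₂, hc, hF⟩ := two_pieces hΩ c1 c2
    (fun z => indicator_nonneg (fun y _ => abs_nonneg _) z)
    (fun z => indicator_nonneg (fun y _ => abs_nonneg _) z)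
    (fun z => by
      by_cases hz : z ∈ E₁
      · exact Or.inr (indicator_of_notMem (d1 z hz) _)
      · exact Or.inl (indicator_of_notMem hz _))
    (fun z hz => hVΩ (s1 (e1.subset hz))) (fun z hz => hVΩ (s2 (e2.subset hz)))
    (by rw [e1]; exact Two2_helm h o1 s1 z1) (by rw [e2]; exact Two2_helm h o2 s2 z2)
  have hFV := hF.mono h.isOpen hVΩ
  have key : ∃ c : ℝ, c ≠ 0 ∧ ∀ z ∈ V, c₁ * E₁.indicator (fun z => |w z|) z +
      c₂ * E₂.indicator (fun z => |w z|) z = c * w z := by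
    rcases hc with hc | hc
    · refine Two2_ext (lam2c_nonneg Ω) hV h hFV o1 n1 s1 z1 hc fun z hz => ?_
      rw [indicator_of_notMem (d1 z hz), mul_zero, add_zero]
    · refine Two2_ext (lam2c_nonneg Ω) hV h hFV o2 n2 s2 z2 hc fun z hz => ?_
      rw [indicator_of_notMem (d2 z hz), mul_zero, zero_add]
  obtain ⟨c, hc0, hcV⟩ := key
  refine ⟨_, c, hc0, (continuous_const.mul c1).add (continuous_const.mul c2), hF, hcV,
    fun z h1 h2 => ?_⟩
  simp only [Pi.add_apply, Pi.mul_apply, indicator_of_notMem h1, indicator_of_notMem h2, mul_zero,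
    add_zero]

end Pool.Agent.L2K
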