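import Pool.Agent.P.MP_2f6447_an.K.Reg
import Pool.Agent.P.MP_2f6447_an.K.Two2
import Pool.Agent.P.MP_2f6447_an.K.Defs2

/-! Sign of `u` near the boundary, monotonicity along a direction, contact lemma, nodal domains. -/

open Set MeasureTheory Filter Topology Complex Metric
open scoped ContDiff ComplexConjugate

namespace Pool.Agent.L2K

variable {Ω U : Set ℂ} {lam : ℝ} {u w f g : ℂ → ℝ}

theorem Sign_smul (G v : ℂ) (s : ℝ) : dot G (s * v) = s * dot G v := by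
  simp only [dot, mul_re, mul_im, ofReal_re, ofReal_im]
  ring

theorem Sign_smul' (G v : ℂ) (s : ℝ) : dot (s * v) G = s * dot v G := by
  simp only [dot, mul_re, mul_im, ofReal_re, ofReal_im]
  ring

theorem Sign_exit (ho : IsOpen Ω) {z y : ℂ} (hz : z ∈ Ω) (hy : y ∉ Ω) :
    ∃ t ∈ Ioc (0 : ℝ) 1, z + t * (y - z) ∈ frontier Ω := by
  have hc : Continuous fun t : ℝ => z + t * (y - z) := by fun_prop
  have hK : IsCompact (Icc (0 : ℝ) 1 ∩ (fun t : ℝ => z + t * (y - z)) ⁻¹' Ωᶜ) :=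
    isCompact_Icc.inter_right (ho.isClosed_compl.preimage hc)
  have hne : (Icc (0 : ℝ) 1 ∩ (fun t : ℝ => z + t * (y - z)) ⁻¹' Ωᶜ).Nonempty := by
    refine ⟨1, ⟨zero_le_one, le_rfl⟩, ?_⟩
    have e : z + ((1 : ℝ) : ℂ) * (y - z) = y := by push_cast; ring
    show z + ((1 : ℝ) : ℂ) * (y - z) ∉ Ω
    rw [e]
    exact hy
  obtain ⟨t, ⟨ht, ht'⟩, hl⟩ := hK.exists_isLeast hne
  have ht0 : 0 < t := by
    rcases ht.1.lt_or_eq with h | h
    · exact h
    · exfalso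
      apply ht'
      rw [← h]
      simpa using hz
  refine ⟨t, ⟨ht0, ht.2⟩, ?_⟩
  rw [ho.frontier_eq]
  refine ⟨?_, ht'⟩
  have h1 : Tendsto (fun s : ℝ => z + s * (y - z)) (𝓝[<] t) (𝓝 (z + t * (y - z))) :=
    (hc.tendsto t).mono_left nhdsWithin_le_nhds
  refine mem_closure_of_tendsto h1 ?_
  filter_upwards [Ioo_mem_nhdsLT ht0] with s hs
  by_contra hn
  have := hl ⟨⟨hs.1.le, hs.2.le.trans ht.2⟩, hn⟩
  linarith [hs.2]

theorem Mn.pos_near (h : Mn Ω lam u) {p : ℂ} (hp : p ∈ frontier Ω)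
    (hg : dot (Gr Ω u p) (nu Ω p) < 0) : ∃ ρ c : ℝ, 0 < ρ ∧ 0 < c ∧
      ∀ z ∈ Ω, z ∈ ball p ρ → 0 < u z ∧ c * infDist z Ωᶜ ≤ u z := by
  have hD := h.toIsMin.toDom
  have hN := hD.isN_nu hp
  obtain ⟨ν, hν⟩ : ∃ ν, ν = nu Ω p := ⟨_, rfl⟩
  rw [← hν] at hg hN
  obtain ⟨c, hc⟩ : ∃ c, c = -dot (Gr Ω u p) ν / 2 := ⟨_, rfl⟩
  have hc0 : 0 < c := by linarith
  have h1 : Tendsto (fun y => dot (grad u y) ν) (𝓝[Ω] p) (𝓝 (dot (Gr Ω u p) ν)) :=
    ((Reg_cont_dot ν).tendsto _).comp (h.tendsto_Gr (frontier_subset_closure hp))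
  have h2 : ∀ᶠ y in 𝓝[Ω] p, dot (grad u y) ν < -c := h1.eventually (gt_mem_nhds (by linarith))
  obtain ⟨ρ, hρ, h3⟩ := Metric.mem_nhdsWithin_iff.1 h2
  refine ⟨ρ / 2, c, by linarith, hc0, fun z hz hzb => ?_⟩
  have hzp : z ≠ p := fun e => hD.notMem_of_frontier hp (e ▸ hz)
  obtain ⟨s, hs⟩ : ∃ s, s = ‖z - p‖ := ⟨_, rfl⟩
  have hs0 : 0 < s := by
    rw [hs]
    exact norm_pos_iff.2 (sub_ne_zero.2 hzp)
  have hs1 : s < ρ / 2 := by
    rw [hs]
    exact mem_ball_iff_norm.1 hzb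
  have hy : z + s * ν ∉ Ω := by
    intro hy
    have a1 := hN.2 _ hy
    rw [Geo1_step z p hN.1] at a1
    have a2 := abs_dot_le (z - p) ν
    rw [hN.1, mul_one, ← hs] at a2
    linarith [(abs_le.1 a2).1]
  obtain ⟨t, ht, hq⟩ := Sign_exit hD.isOpen hz hy
  have e1 : z + t * (z + s * ν - z) = z + ((t * s : ℝ) : ℂ) * ν := by push_cast; ring
  rw [e1] at hq
  have hts : 0 < t * s := mul_pos ht.1 hs0
  have hts' : t * s ≤ s := by nlinarith [ht.2]
  obtain ⟨τ, hτ, hx, he⟩ := h.mvt (frontier_subset_closure hq) hz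
  have hq' := hD.notMem_of_frontier hq
  rw [h.lip.zero _ hq', sub_zero] at he
  have e2 : z - (z + ((t * s : ℝ) : ℂ) * ν) = ((-(t * s) : ℝ) : ℂ) * ν := by push_cast; ring
  rw [e2] at he hx
  rw [Sign_smul] at he
  have hxb : z + ((t * s : ℝ) : ℂ) * ν + τ * (((-(t * s) : ℝ) : ℂ) * ν) ∈ ball p ρ := by
    rw [mem_ball_iff_norm]
    have e3 : z + ((t * s : ℝ) : ℂ) * ν + τ * (((-(t * s) : ℝ) : ℂ) * ν) - p =
        (z - p) + (((1 - τ) * (t * s) : ℝ) : ℂ) * ν := by push_cast; ring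
    rw [e3]
    have a1 := norm_add_le (z - p) ((((1 - τ) * (t * s) : ℝ) : ℂ) * ν)
    have a2 : 0 ≤ (1 - τ) * (t * s) := mul_nonneg (by linarith [hτ.2]) hts.le
    rw [norm_mul, hN.1, mul_one, norm_real, Real.norm_of_nonneg a2, ← hs] at a1
    nlinarith [hτ.1]
  have h4 : dot (grad u (z + ((t * s : ℝ) : ℂ) * ν + τ * (((-(t * s) : ℝ) : ℂ) * ν))) ν < -c :=
    h3 ⟨hxb, hx⟩
  have h5 : c * (t * s) ≤ u z := by
    rw [he]
    nlinarith
  have h6 : infDist z Ωᶜ ≤ t * s := by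
    refine (infDist_le_dist_of_mem (show _ ∈ Ωᶜ from hq')).trans ?_
    rw [dist_eq_norm, e2, norm_mul, hN.1, mul_one, norm_real, norm_neg,
      Real.norm_of_nonneg hts.le]
  exact ⟨lt_of_lt_of_le (mul_pos hc0 hts) h5,
    (mul_le_mul_of_nonneg_left h6 hc0.le).trans h5⟩

theorem Mn.neg_near (h : Mn Ω lam u) {p : ℂ} (hp : p ∈ frontier Ω)
    (hg : 0 < dot (Gr Ω u p) (nu Ω p)) : ∃ ρ c : ℝ, 0 < ρ ∧ 0 < c ∧
      ∀ z ∈ Ω, z ∈ ball p ρ → u z < 0 ∧ c * infDist z Ωᶜ ≤ -u z := by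
  have h1 : dot (Gr Ω (fun z => -u z) p) (nu Ω p) < 0 := by
    rw [h.Gr_neg (frontier_subset_closure hp)]
    have e : dot (-Gr Ω u p) (nu Ω p) = -dot (Gr Ω u p) (nu Ω p) := by
      simp only [dot, neg_re, neg_im]
      ring
    rw [e]
    linarith
  obtain ⟨ρ, c, hρ, hc, h2⟩ := h.neg.pos_near hp h1
  refine ⟨ρ, c, hρ, hc, fun z hz hb => ?_⟩
  have h3 := h2 z hz hb
  exact ⟨by linarith [h3.1], h3.2⟩

theorem Mn.lower (h : Mn Ω lam u) {K : Set ℂ} (hK : IsCompact K) (hKΩ : K ⊆ closure Ω)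
    (h0 : ∀ z ∈ K, u z = 0 → z ∈ frontier Ω ∧ Gr Ω u z ≠ 0) :
    ∃ c : ℝ, 0 < c ∧ ∀ z ∈ K, c * infDist z Ωᶜ ≤ |u z| := by
  have _hK := hKΩ
  refine hK.induction_on (p := fun S => ∃ c : ℝ, 0 < c ∧ ∀ z ∈ S, c * infDist z Ωᶜ ≤ |u z|)
    ⟨1, one_pos, fun z hz => hz.elim⟩ ?_ ?_ ?_
  · rintro S T hST ⟨c, hc, h1⟩
    exact ⟨c, hc, fun z hz => h1 z (hST hz)⟩
  · rintro S T ⟨c, hc, h1⟩ ⟨d, hd, h2⟩
    refine ⟨min c d, lt_min hc hd, fun z hz => ?_⟩
    rcases hz with hz | hz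
    · exact (mul_le_mul_of_nonneg_right (min_le_left c d) infDist_nonneg).trans (h1 z hz)
    · exact (mul_le_mul_of_nonneg_right (min_le_right c d) infDist_nonneg).trans (h2 z hz)
  · intro x hx
    have out : ∀ (c : ℝ) (z : ℂ), z ∉ Ω → c * infDist z Ωᶜ ≤ |u z| := by
      intro c z hz
      rw [infDist_zero_of_mem (show z ∈ Ωᶜ from hz), mul_zero]
      exact abs_nonneg _
    by_cases hu : u x = 0
    · obtain ⟨hf, hG⟩ := h0 x hx hu
      have hne : dot (Gr Ω u x) (nu Ω x) ≠ 0 := by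
        intro e
        apply hG
        rw [h.Gr_par hf, e]
        simp
      rcases hne.lt_or_gt with hl | hl
      · obtain ⟨ρ, c, hρ, hc, h1⟩ := h.pos_near hf hl
        refine ⟨ball x ρ, mem_nhdsWithin_of_mem_nhds (ball_mem_nhds x hρ), c, hc, fun z hz => ?_⟩
        by_cases hzΩ : z ∈ Ω
        · exact (h1 z hzΩ hz).2.trans (le_abs_self _)
        · exact out c z hzΩ
      · obtain ⟨ρ, c, hρ, hc, h1⟩ := h.neg_near hf hl
        refine ⟨ball x ρ, mem_nhdsWithin_of_mem_nhds (ball_mem_nhds x hρ), c, hc, fun z hz => ?_⟩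
        by_cases hzΩ : z ∈ Ω
        · exact (h1 z hzΩ hz).2.trans (neg_le_abs _)
        · exact out c z hzΩ
    · have hu' : 0 < |u x| := abs_pos.2 hu
      have hd : 0 ≤ infDist x Ωᶜ := infDist_nonneg
      obtain ⟨c, hc⟩ : ∃ c, c = |u x| / (infDist x Ωᶜ + 1) := ⟨_, rfl⟩
      have hc0 : 0 < c := by
        rw [hc]
        positivity
      have hc1 : c * (infDist x Ωᶜ + 1) = |u x| := by
        rw [hc]
        field_simp
      have hlt : c * infDist x Ωᶜ < |u x| := by nlinarith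
      have c1 : Continuous fun z => c * infDist z Ωᶜ :=
        continuous_const.mul (continuous_infDist_pt _)
      have c2 : Continuous fun z => |u z| := h.lip.continuous.abs
      refine ⟨{z | c * infDist z Ωᶜ < |u z|},
        mem_nhdsWithin_of_mem_nhds ((isOpen_lt c1 c2).mem_nhds hlt), c, hc0, fun z hz => ?_⟩
      exact le_of_lt hz

theorem Sign_seg (h : Mn Ω lam u) {x m a b : ℂ} {ρ s : ℝ}
    (hd : ∀ z ∈ Ω, z ∈ ball x ρ → 0 ≤ dot (grad u z) m) (ha : a ∈ closure Ω) (hb : b ∈ Ω)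
    (ha' : a ∈ ball x ρ) (hb' : b ∈ ball x ρ) (e : b - a = s * m) :
    ∃ d : ℝ, 0 ≤ d ∧ u b - u a = s * d := by
  obtain ⟨τ, hτ, hx, he⟩ := h.mvt ha hb
  have hm : a + τ * (b - a) ∈ ball x ρ := by
    have := (convex_ball x ρ).add_smul_sub_mem ha' hb' (Ioo_subset_Icc_self hτ)
    simpa using this
  refine ⟨_, hd _ hx hm, ?_⟩
  rw [he]
  nth_rewrite 2 [e]
  rw [Sign_smul]

theorem Mn.mono_dir (h : Mn Ω lam u) {x m p : ℂ} {ρ t : ℝ}
    (hd : ∀ z ∈ Ω, z ∈ ball x ρ → 0 ≤ dot (grad u z) m) (ht : 0 ≤ t) (hp : p ∈ ball x ρ)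
    (hq : p + t * m ∈ ball x ρ) : u p ≤ u (p + t * m) := by
  have hD := h.toIsMin.toDom
  have hm : ∀ {a b : ℂ} {τ : ℝ}, a ∈ ball x ρ → b ∈ ball x ρ → τ ∈ Ioc (0 : ℝ) 1 →
      a + τ * (b - a) ∈ ball x ρ := by
    intro a b τ ha hb hτ
    have := (convex_ball x ρ).add_smul_sub_mem ha hb (Ioc_subset_Icc_self hτ)
    simpa using this
  by_cases h1 : p ∈ Ω <;> by_cases h2 : p + t * m ∈ Ω
  · obtain ⟨d, hd0, e⟩ := Sign_seg h (s := t) hd (subset_closure h1) h2 hp hq (by ring)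
    nlinarith [mul_nonneg ht hd0]
  · obtain ⟨τ, hτ, hf⟩ := Sign_exit hD.isOpen h1 h2
    obtain ⟨d, hd0, e⟩ := Sign_seg h (s := -(τ * t)) hd (frontier_subset_closure hf) h1
      (hm hp hq hτ) hp (by push_cast; ring)
    rw [h.lip.zero _ (hD.notMem_of_frontier hf)] at e
    rw [h.lip.zero _ h2]
    nlinarith [mul_nonneg (mul_nonneg hτ.1.le ht) hd0]
  · obtain ⟨τ, hτ, hf⟩ := Sign_exit hD.isOpen h2 h1
    obtain ⟨d, hd0, e⟩ := Sign_seg h (s := τ * t) hd (frontier_subset_closure hf) h2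
      (hm hq hp hτ) hq (by push_cast; ring)
    rw [h.lip.zero _ (hD.notMem_of_frontier hf)] at e
    rw [h.lip.zero _ h1]
    nlinarith [mul_nonneg (mul_nonneg hτ.1.le ht) hd0]
  · rw [h.lip.zero _ h1, h.lip.zero _ h2]

theorem Sign_right {φ : ℝ → ℝ} {d a : ℝ} (hφ : HasDerivAt φ d 0) (h0 : φ 0 = 0)
    (h : ∀ᶠ t in 𝓝[>] (0 : ℝ), a * t ≤ φ t) : a ≤ d := by
  have h1 := hφ.tendsto_slope_zero_right
  refine ge_of_tendsto h1 ?_
  filter_upwards [h, self_mem_nhdsWithin] with t ht ht0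
  have ht0' : 0 < t := ht0
  rw [zero_add, h0, sub_zero, smul_eq_mul, ← div_eq_inv_mul, le_div_iff₀ ht0']
  exact ht

theorem Sign_line {x v : ℂ} {a : ℝ} (hw : DifferentiableAt ℝ w x) (h0 : w x = 0)
    (h : ∀ᶠ t : ℝ in 𝓝[>] (0 : ℝ), a * t ≤ w (x + t * v)) : a ≤ dot (grad w x) v := by
  have e : x + ((0 : ℝ) : ℂ) * v = x := by simp
  have h1 := hasDerivAt_line (u := w) (p := x) (v := v) (t := 0) (by rw [e]; exact hw)
  rw [e] at h1
  refine Sign_right h1 ?_ h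
  simpa using h0

theorem contact (h : Helm lam U w) (hl : 0 ≤ lam) (hc : IsPreconnected U) {x q ν : ℂ} (hx : x ∈ U)
    (hq : q ∈ U) (hq0 : w q ≠ 0) (h0 : w x = 0) (hν : ‖ν‖ = 1)
    (hs : ∀ᶠ z in 𝓝 x, 0 < dot (z - x) ν → 0 ≤ w z) : ∃ a : ℝ, 0 < a ∧ grad w x = a * ν := by
  obtain ⟨ε, hε, h1⟩ := Metric.mem_nhds_iff.1 (hs.and (h.isOpen.mem_nhds hx))
  obtain ⟨ρ, hρ⟩ : ∃ ρ, ρ = ε / 2 := ⟨_, rfl⟩
  have hρ0 : 0 < ρ := by linarith
  have hνν : dot ν ν = 1 := by rw [dot_self, hν, one_pow]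
  have hb : ∀ z ∈ ball (x + ρ * ν) ρ, z ∈ U ∧ 0 ≤ w z := by
    intro z hz
    have a0 := mem_ball_iff_norm.1 hz
    have a1 : z ∈ ball x ε := by
      rw [mem_ball_iff_norm]
      have e : z - x = (z - (x + ρ * ν)) + ρ * ν := by ring
      have a2 := norm_add_le (z - (x + ρ * ν)) (ρ * ν)
      rw [← e, norm_mul, hν, mul_one, norm_real, Real.norm_of_nonneg hρ0.le] at a2
      linarith
    have a3 := abs_dot_le (z - (x + ρ * ν)) ν
    rw [hν, mul_one, Reg0_dot_shift z x ν hν] at a3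
    exact ⟨(h1 a1).2, (h1 a1).1 (by linarith [(abs_le.1 a3).1])⟩
  have hB : Helm lam (ball (x + ρ * ν) ρ) w := h.mono isOpen_ball fun z hz => (hb z hz).1
  have hpos : ∀ z ∈ ball (x + ρ * ν) ρ, 0 < w z := by
    rcases strong_max hB hl (convex_ball _ _).isPreconnected (fun z hz => (hb z hz).2) with a | a
    · exact a
    · exfalso
      have hm : x + ρ * ν ∈ ball (x + ρ * ν) ρ := mem_ball_self hρ0
      exact hq0 (uc h hl hc (hb _ hm).1
        (Filter.Eventually.mono (isOpen_ball.mem_nhds hm) fun z hz => a z hz) q hq)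
  obtain ⟨a, ha, h2⟩ := hopf hB hl hρ0 hpos
  have hw := h.differentiableAt hx
  have h3 : a ≤ dot (grad w x) ν := by
    refine Sign_line hw h0 ?_
    filter_upwards [Ioo_mem_nhdsGT hρ0] with t ht
    have e : x + t * ν - (x + ρ * ν) = -(((ρ - t : ℝ) : ℂ) * ν) := by push_cast; ring
    have n1 : ‖x + t * ν - (x + ρ * ν)‖ = ρ - t := by
      rw [e, norm_neg, norm_mul, hν, mul_one, norm_real, Real.norm_of_nonneg (by linarith [ht.2])]
    have := h2 (x + t * ν) (mem_ball_iff_norm.2 (by rw [n1]; linarith [ht.1]))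
    rw [n1] at this
    have e2 : ρ - (ρ - t) = t := by ring
    rw [e2] at this
    exact this
  have h4 : ∀ v, 0 < dot v ν → 0 ≤ dot (grad w x) v := by
    intro v hv
    refine Sign_line hw h0 ?_
    have c1 : Tendsto (fun t : ℝ => x + t * v) (𝓝[>] 0) (𝓝 x) := by
      have c2 : Continuous fun t : ℝ => x + t * v := by fun_prop
      have := (c2.tendsto 0).mono_left (nhdsWithin_le_nhds (s := Ioi 0))
      simpa using this
    filter_upwards [c1.eventually hs, self_mem_nhdsWithin] with t ht ht0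
    have ht0' : 0 < t := ht0
    rw [zero_mul]
    apply ht
    rw [add_sub_cancel_left, Sign_smul']
    exact mul_pos ht0' hv
  obtain ⟨G, hG⟩ : ∃ G, G = grad w x := ⟨_, rfl⟩
  rw [← hG] at h3 h4 ⊢
  have hA : 0 < dot G ν := lt_of_lt_of_le ha h3
  have h5 : ∀ σ δ : ℝ, 0 < δ → 0 ≤ σ * dot G (I * ν) + δ * dot G ν := by
    intro σ δ hδ
    have e1 : dot (σ * (I * ν) + δ * ν) ν = δ * dot ν ν := by
      simp only [dot, add_re, add_im, mul_re, mul_im, ofReal_re, ofReal_im, I_re, I_im]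
      ring
    have e2 : dot G (σ * (I * ν) + δ * ν) = σ * dot G (I * ν) + δ * dot G ν := by
      simp only [dot, add_re, add_im, mul_re, mul_im, ofReal_re, ofReal_im, I_re, I_im]
      ring
    rw [← e2]
    apply h4
    rw [e1, hνν, mul_one]
    exact hδ
  have h6 : dot G (I * ν) = 0 := by
    by_contra hne
    have hsq : 0 < dot G (I * ν) ^ 2 := by positivity
    have := h5 (-dot G (I * ν)) (dot G (I * ν) ^ 2 / (2 * dot G ν)) (by positivity)
    have e : dot G (I * ν) ^ 2 / (2 * dot G ν) * dot G ν = dot G (I * ν) ^ 2 / 2 := by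
      field_simp
    rw [e] at this
    nlinarith
  refine ⟨dot G ν, hA, ?_⟩
  have hsq := Geo1_sq hν
  simp only [dot, mul_re, mul_im, I_re, I_im] at h6
  apply Complex.ext
  · simp only [dot, mul_re, ofReal_re, ofReal_im]
    linear_combination (-G.re) * hsq - ν.im * h6
  · simp only [dot, mul_im, ofReal_re, ofReal_im]
    linear_combination (-G.im) * hsq + ν.re * h6

theorem Dom.isN_of_local (h : Dom Ω) {p ν : ℂ} {ρ : ℝ} (hρ : 0 < ρ) (hν : ‖ν‖ = 1)
    (hp : p ∈ closure Ω) (hl : ∀ z ∈ Ω, z ∈ ball p ρ → dot (z - p) ν ≤ 0) : IsN Ω p ν := by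
  refine h.isN_iff.2 ⟨hν, fun z hz => ?_⟩
  have c1 : Tendsto (fun t : ℝ => p + t * (z - p)) (𝓝[>] 0) (𝓝 p) := by
    have c2 : Continuous fun t : ℝ => p + t * (z - p) := by fun_prop
    have := (c2.tendsto 0).mono_left (nhdsWithin_le_nhds (s := Ioi 0))
    simpa using this
  obtain ⟨t, ht, ht'⟩ :=
    ((c1.eventually (ball_mem_nhds p hρ)).and (Ioo_mem_nhdsGT zero_lt_one)).exists
  have hm := h.combo_mem hz hp (t := 1 - t) (by linarith [ht'.2]) (by linarith [ht'.1])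
  have e : z + ((1 - t : ℝ) : ℂ) * (p - z) = p + t * (z - p) := by push_cast; ring
  rw [e] at hm
  have h1 := hl _ hm ht
  rw [add_sub_cancel_left, Sign_smul'] at h1
  by_contra hn
  have := mul_pos ht'.1 (not_le.1 hn)
  linarith

theorem Sign_front (hu : Continuous u) (x : ℂ) {p : ℂ}
    (hp : p ∈ frontier (connectedComponentIn {z | 0 < u z} x)) :
    Tendsto u (𝓝[connectedComponentIn {z | 0 < u z} x] p) (𝓝 0) := by
  have hS : IsOpen {z | 0 < u z} := isOpen_lt continuous_const hu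
  have ho : ∀ y, IsOpen (connectedComponentIn {z | 0 < u z} y) := fun y => hS.connectedComponentIn
  rw [(ho x).frontier_eq] at hp
  have h1 : 0 ≤ u p := by
    have : closure (connectedComponentIn {z | 0 < u z} x) ⊆ {z | 0 ≤ u z} :=
      closure_minimal (fun z hz => le_of_lt (a := 0) (b := u z)
        (connectedComponentIn_subset {z | 0 < u z} x hz)) (isClosed_le continuous_const hu)
    exact this hp.1
  have h2 : u p = 0 := by
    rcases h1.lt_or_eq with a | a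
    · exfalso
      have hm : p ∈ connectedComponentIn {z | 0 < u z} p := mem_connectedComponentIn a
      obtain ⟨y, hy1, hy2⟩ := mem_closure_iff.1 hp.1 _ (ho p) hm
      apply hp.2
      rw [connectedComponentIn_eq hy2, ← connectedComponentIn_eq hy1]
      exact hm
    · exact a.symm
  rw [← h2]
  exact (hu.tendsto p).mono_left nhdsWithin_le_nhds

theorem Mn.preconn_pos (h : Mn Ω lam u) (hn : ∃ z, u z < 0) : IsPreconnected {z | 0 < u z} := by
  have hD := h.toIsMin.toDom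
  have hu := h.lip.continuous
  have hS : IsOpen {z | 0 < u z} := isOpen_lt continuous_const hu
  have hin : ∀ z, u z ≠ 0 → z ∈ Ω := fun z hz => by
    by_contra a
    exact hz (h.lip.zero z a)
  have hsub : ∀ y, ∀ z ∈ connectedComponentIn {z | 0 < u z} y, 0 < u z := fun y z hz =>
    connectedComponentIn_subset {z | 0 < u z} y hz
  refine isPreconnected_of_forall_pair fun x hx y hy => ?_
  refine ⟨connectedComponentIn {z | 0 < u z} x, connectedComponentIn_subset _ _,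
    mem_connectedComponentIn hx, ?_, isPreconnected_connectedComponentIn⟩
  by_contra hne
  have hd : Disjoint (connectedComponentIn {z | 0 < u z} x)
      (connectedComponentIn {z | 0 < u z} y) := by
    refine Set.disjoint_left.2 fun z h1 h2 => hne ?_
    rw [connectedComponentIn_eq h1, ← connectedComponentIn_eq h2]
    exact mem_connectedComponentIn hy
  have hH : Helm (lam2c Ω) Ω u := h.lam_eq ▸ h.helm
  obtain ⟨F, c, hc, -, -, h1, h2⟩ := two_domains hD hD.convex.isPreconnected subset_rfl hH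
    hS.connectedComponentIn hS.connectedComponentIn ⟨x, mem_connectedComponentIn hx⟩
    ⟨y, mem_connectedComponentIn hy⟩ (fun z hz => hin z (hsub x z hz).ne')
    (fun z hz => hin z (hsub y z hz).ne') hd (fun z hz => (hsub x z hz).ne')
    (fun z hz => (hsub y z hz).ne') (fun p hp => Sign_front hu x hp)
    (fun p hp => Sign_front hu y hp)
  obtain ⟨z, hz⟩ := hn
  have h3 := h2 z (fun a => by linarith [hsub x z a]) (fun a => by linarith [hsub y z a])
  rw [h1 z (hin z hz.ne)] at h3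
  exact mul_ne_zero hc hz.ne h3

theorem Mn.preconn_neg (h : Mn Ω lam u) (hn : ∃ z, 0 < u z) : IsPreconnected {z | u z < 0} := by
  obtain ⟨z, hz⟩ := hn
  have h1 := h.neg.preconn_pos ⟨z, by linarith⟩
  have e : {z | u z < 0} = {z | 0 < -u z} := by
    ext y
    simp
  rw [e]
  exact h1

end Pool.Agent.L2K
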