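import Pool.Agent.P.MP_2f6447_an.K.Kill1
import Pool.Agent.P.MP_2f6447_an.K.Sign
import Pool.Agent.P.MP_2f6447_an.K.Seg

/-! The lens terms. -/

open Set MeasureTheory Filter Topology Complex Metric
open scoped ContDiff ComplexConjugate

namespace Pool.Agent.L2K

variable {Ω U : Set ℂ} {lam : ℝ} {u w f g : ℂ → ℝ}
variable {Ω' E : Set ℂ} {u' : ℂ → ℝ} {l r : ℝ → ℝ} {nT nB n φ : ℝ}

theorem Kill3_norm (h : Mn Ω lam u) {p : ℂ} (he : Ext Ω p) : ‖Gr Ω u p‖ = 1 := by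
  have h1 : ‖nu Ω p‖ = 1 := (h.toIsMin.toDom.isN_nu he.1).1
  rcases h.Gr_ext he with e | e
  · rw [e, h1]
  · rw [e, norm_neg, h1]

theorem Kill3_kill (hb : Bornology.IsBounded Ω) (b : ℂ) (c : ℝ) :
    ∃ M : ℝ, 0 ≤ M ∧ ∀ z ∈ Ω, ‖kill b c z‖ ≤ M := by
  obtain ⟨M, hM⟩ := hb.isCompact_closure.exists_bound_of_continuousOn
    (locLip_kill b c).continuous.continuousOn
  exact ⟨max M 0, le_max_right _ _, fun z hz => (hM z (subset_closure hz)).trans (le_max_left _ _)⟩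

theorem Kill3_psi (h : Mn Ω lam u) {K : Set ℂ} (hK : IsCompact K) (hKΩ : K ⊆ closure Ω)
    (h0 : ∀ z ∈ K, u z = 0 → Ext Ω z) {η : ℝ} (hη : 0 < η) : ∃ d₀ : ℝ, 0 < d₀ ∧
      ∀ z ∈ K, |u z| < d₀ → |‖Gr Ω u z‖ ^ 2 + lam * u z ^ 2 - 1| ≤ η := by
  have hu := h.lip.continuous
  have hc : ContinuousOn (fun z => |‖Gr Ω u z‖ ^ 2 + lam * u z ^ 2 - 1|) K :=
    ((((h.continuousOn_Gr.mono hKΩ).norm.pow 2).add
      (continuous_const.mul (hu.pow 2)).continuousOn).sub continuousOn_const).abs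
  have hcl : IsClosed (K ∩ (fun z => |‖Gr Ω u z‖ ^ 2 + lam * u z ^ 2 - 1|) ⁻¹' Ici η) :=
    hc.preimage_isClosed_of_isClosed hK.isClosed isClosed_Ici
  have hK' := hK.of_isClosed_subset hcl inter_subset_left
  obtain ⟨d₀, hd, hd'⟩ := hK'.exists_forall_le' (f := fun z => |u z|) hu.abs.continuousOn (a := 0)
    (by
      intro z hz
      refine abs_pos.2 fun e => ?_
      have h2 : η ≤ |‖Gr Ω u z‖ ^ 2 + lam * u z ^ 2 - 1| := hz.2
      rw [Kill3_norm h (h0 z hz.1 e), e] at h2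
      norm_num at h2
      linarith)
  refine ⟨d₀, hd, fun z hz hlt => ?_⟩
  by_contra hn
  exact absurd (hd' z ⟨hz, (not_le.1 hn).le⟩) (not_le.2 hlt)

theorem Mn.lens_small (h : Mn Ω lam u) {K : Set ℂ} (hK : IsCompact K) (hKΩ : K ⊆ closure Ω)
    (h0 : ∀ z ∈ K, u z = 0 → Ext Ω z) (b : ℂ) (c : ℝ) {ε : ℝ} (hε : 0 < ε) :
    ∀ᶠ d in 𝓝[>] (0 : ℝ), ∀ S : Set ℂ, S ⊆ K ∩ Ω →
      ∫ z in S ∩ {z | |u z| < d}, |k2 lam u (kill b c) z| ≤ ε * d := by
  have hD : Dom Ω := h.toIsMin.toDom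
  obtain ⟨a, ha, hlow⟩ := h.lower hK hKΩ fun z hz e => ⟨(h0 z hz e).1, fun e' => by
    have h1 := Kill3_norm h (h0 z hz e)
    rw [e', norm_zero] at h1
    exact zero_ne_one h1⟩
  obtain ⟨C, hC, hA⟩ := hD.layer_area
  obtain ⟨M, hM, hV⟩ := Kill3_kill hD.bdd b c
  obtain ⟨L, hL⟩ := h.lip.lip
  have hL0 : (0 : ℝ) ≤ L := L.2
  have hQ : 0 < L * M * (C / a) + 1 := by positivity
  obtain ⟨d₀, hd₀, hψ⟩ := Kill3_psi h hK hKΩ h0 (div_pos hε hQ)
  filter_upwards [Ioo_mem_nhdsGT hd₀] with d hd S hS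
  have hsub : S ∩ {z | |u z| < d} ⊆ {z | z ∈ Ω ∧ infDist z Ωᶜ ≤ d / a} := by
    intro z hz
    refine ⟨(hS hz.1).2, ?_⟩
    rw [le_div_iff₀ ha, mul_comm]
    exact (hlow z (hS hz.1).1).trans (le_of_lt hz.2)
  have hfin : volume {z | z ∈ Ω ∧ infDist z Ωᶜ ≤ d / a} ≠ ⊤ :=
    ne_top_of_le_ne_top hD.volume_ne_top (measure_mono fun z hz => hz.1)
  have harea : volume.real (S ∩ {z | |u z| < d}) ≤ C * (d / a) :=
    (measureReal_mono hsub hfin).trans (hA _ (div_pos hd.1 ha))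
  have hpt : ∀ z ∈ S ∩ {z | |u z| < d},
      ‖|k2 lam u (kill b c) z|‖ ≤ ε / (L * M * (C / a) + 1) * (L * M) := by
    intro z hz
    have hzK := (hS hz.1).1
    have hzΩ := (hS hz.1).2
    have h1 := hψ z hzK (lt_trans hz.2 hd.2)
    rw [h.Gr_eq hzΩ] at h1
    have h2 : |dot (grad u z) (kill b c z)| ≤ L * M :=
      (abs_dot_le _ _).trans (mul_le_mul (norm_grad_le hL z) (hV z hzΩ) (norm_nonneg _) hL0)
    rw [Real.norm_eq_abs, abs_abs, k2, abs_mul, abs_div, abs_two]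
    refine mul_le_mul ?_ h2 (abs_nonneg _) (div_pos hε hQ).le
    have h3 := abs_nonneg (‖grad u z‖ ^ 2 + lam * u z ^ 2 - 1)
    linarith
  have hint := norm_setIntegral_le_of_norm_le_const
    (lt_top_iff_ne_top.2 (ne_top_of_le_ne_top hfin (measure_mono hsub))) hpt
  have hq : 0 ≤ ε / (L * M * (C / a) + 1) * (L * M) := by positivity
  refine (le_abs_self _).trans (hint.trans ((mul_le_mul_of_nonneg_left harea hq).trans ?_))
  have e1 : ε / (L * M * (C / a) + 1) * (L * M) * (C * (d / a)) =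
      ε * d * (L * M * (C / a) / (L * M * (C / a) + 1)) := by
    field_simp
  rw [e1]
  refine mul_le_of_le_one_right (mul_pos hε hd.1).le ?_
  rw [div_le_one hQ]
  linarith

theorem Mn.lens_ge (h : Mn Ω lam u) {K S : Set ℂ} (hK : IsCompact K) (hKΩ : K ⊆ closure Ω)
    (h0 : ∀ z ∈ K, u z = 0 → Ext Ω z) (hS : S ⊆ K ∩ Ω) (b : ℂ) (c : ℝ) {ε : ℝ} (hε : 0 < ε) :
    ∀ᶠ d in 𝓝[>] (0 : ℝ), -(ε * d) ≤ ∫ z in S ∩ {z | |u z| < d}, k2 lam u (kill b c) z := by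
  filter_upwards [h.lens_small hK hKΩ h0 b c hε] with d hd
  have h1 := (abs_integral_le_integral_abs (μ := volume.restrict (S ∩ {z | |u z| < d}))
    (f := k2 lam u (kill b c))).trans (hd S hS)
  exact (abs_le.1 h1).1

/-- the cutoff of the boundary layer -/
noncomputable def Kill3_ze (u : ℂ → ℝ) (d : ℝ) (z : ℂ) : ℝ := max 0 (1 - d⁻¹ * u z)

theorem Kill3_ze_lip (hu : Lip0 Ω u) (d : ℝ) : LocallyLipschitz (Kill3_ze u d) := by
  obtain ⟨L, hL⟩ := hu.lip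
  have h1 : ContDiff ℝ 1 fun t : ℝ => 1 - d⁻¹ * t := contDiff_const.sub (contDiff_const.mul contDiff_id)
  exact (LocallyLipschitz.const (0 : ℝ)).max (h1.locallyLipschitz.comp hL.locallyLipschitz)

theorem Kill3_ze_nonneg (u : ℂ → ℝ) (d : ℝ) (z : ℂ) : 0 ≤ Kill3_ze u d z := le_max_left _ _

theorem Kill3_ze_zero {d : ℝ} (hd : 0 < d) {z : ℂ} (hz : d ≤ u z) : Kill3_ze u d z = 0 := by
  refine max_eq_left ?_
  rw [sub_nonpos, ← div_eq_inv_mul, one_le_div hd]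
  exact hz

theorem Kill3_ze_le {d : ℝ} (hd : 0 < d) {z : ℂ} (hz : 0 ≤ u z) : Kill3_ze u d z ≤ 1 := by
  refine max_le zero_le_one ?_
  have := mul_nonneg (inv_pos.2 hd).le hz
  linarith

theorem Kill3_ze_one (d : ℝ) {z : ℂ} (hz : u z = 0) : Kill3_ze u d z = 1 := by
  rw [Kill3_ze, hz]
  simp

theorem Kill3_tx_zero (z a : ℂ) : tx lam u z a 0 = 0 := by
  simp [tx, dot]

theorem Kill3_grad_hi {d : ℝ} (hd : 0 < d) {z : ℂ} (hz : d ≤ u z) :
    grad (Kill3_ze u d) z = 0 := by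
  refine grad_eq_zero_of_isLocalMin (Eventually.of_forall fun y => ?_)
  rw [Kill3_ze_zero hd hz]
  exact Kill3_ze_nonneg u d y

theorem Kill3_grad_lo (hu : Continuous u) {d : ℝ} (hd : 0 < d) {z : ℂ}
    (hD : DifferentiableAt ℝ u z) (hz : u z < d) :
    grad (Kill3_ze u d) z = ((-d⁻¹ : ℝ) : ℂ) * grad u z := by
  have e : Kill3_ze u d =ᶠ[𝓝 z] fun y => 1 - d⁻¹ * u y := by
    filter_upwards [(isOpen_lt hu continuous_const).mem_nhds hz] with y hy
    refine max_eq_right ?_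
    rw [sub_nonneg, ← div_eq_inv_mul, div_le_one hd]
    exact le_of_lt hy
  rw [grad_congr e, grad_sub (differentiableAt_const _) (hD.const_mul _), grad_const,
    grad_const_mul]
  push_cast
  ring

theorem Kill3_theta {θ : ℂ → ℝ} (h0 : ∀ z, 0 ≤ θ z) {z : ℂ} (hz : θ z = 0) : grad θ z = 0 := by
  refine grad_eq_zero_of_isLocalMin (Eventually.of_forall fun y => ?_)
  rw [hz]
  exact h0 y

theorem Kill3_st (h : Mn Ω lam u) {θ : ℂ → ℝ} (hθ : LocallyLipschitz θ)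
    (hs : ∀ z ∈ Ω, θ z ≠ 0 → 0 < u z) (b : ℂ) (c : ℝ) {d : ℝ} (hd : 0 < d) :
    ∀ᵐ z : ℂ, z ∈ Ω →
      d⁻¹ * {z | |u z| < d}.indicator (fun z => θ z * k2 lam u (kill b c) z) z =
        Kill3_ze u d z * tx lam u z (kill b c z) (grad θ z) -
          st lam u (fun x => ((θ x * Kill3_ze u d x : ℝ) : ℂ) * kill b c x) z := by
  filter_upwards [locLip_ae hθ, locLip_ae (Kill3_ze_lip h.lip d), locLip_ae' (locLip_kill b c)]
    with z h1 h2 h3 hz
  rw [st_smul (χ := fun x => θ x * Kill3_ze u d x) (h1.mul h2) h3, st_kill, grad_mul h1 h2, tx_add,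
    tx_smul, tx_smul]
  by_cases e : θ z = 0
  · by_cases hm : z ∈ {z | |u z| < d}
    · rw [indicator_of_mem hm, e]
      ring
    · rw [indicator_of_notMem hm, e]
      ring
  · have hp := hs z hz e
    by_cases hm : z ∈ {z | |u z| < d}
    · rw [indicator_of_mem hm, Kill3_grad_lo h.lip.continuous hd (h.helm.differentiableAt hz)
        (lt_of_abs_lt hm), tx_smul, tx_grad]
      ring
    · have hge : d ≤ u z := by
        by_contra hn
        exact hm (show |u z| < d by rw [abs_of_pos hp]; exact not_le.1 hn)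
      rw [indicator_of_notMem hm, Kill3_grad_hi hd hge, Kill3_tx_zero]
      ring

theorem Kill3_meas_dot {A B : ℂ → ℂ} (hA : Measurable A) (hB : Measurable B) :
    Measurable fun z => dot (A z) (B z) := Geo1_cont.measurable.comp (hA.prodMk hB)

theorem Kill3_meas_tx (hu : Continuous u) {A B : ℂ → ℂ} (hA : Measurable A) (hB : Measurable B) :
    Measurable fun z => tx lam u z (A z) (B z) := by
  have hg := measurable_grad u
  exact ((Kill3_meas_dot hg hA).mul (Kill3_meas_dot hg hB)).sub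
    ((((((hg.norm.pow_const 2).sub ((hu.measurable.pow_const 2).const_mul lam)).add_const 1).div_const
      2)).mul (Kill3_meas_dot hA hB))

theorem Kill3_err_meas (h : Mn Ω lam u) (θ : ℂ → ℝ) (b : ℂ) (c d : ℝ) :
    Measurable fun z => Kill3_ze u d z * tx lam u z (kill b c z) (grad θ z) :=
  (Kill3_ze_lip h.lip d).continuous.measurable.mul
    (Kill3_meas_tx h.lip.continuous (locLip_kill b c).continuous.measurable (measurable_grad θ))

theorem Kill3_err_bd (h : Mn Ω lam u) {θ : ℂ → ℝ} (hθ : LocallyLipschitz θ) (h0 : ∀ z, 0 ≤ θ z)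
    (hs : ∀ z ∈ Ω, θ z ≠ 0 → 0 < u z) (b : ℂ) (c : ℝ) : ∃ B : ℝ, ∀ d : ℝ, 0 < d → ∀ z ∈ Ω,
      ‖Kill3_ze u d z * tx lam u z (kill b c z) (grad θ z)‖ ≤ B := by
  have hD : Dom Ω := h.toIsMin.toDom
  obtain ⟨M, hM, hV⟩ := Kill3_kill hD.bdd b c
  obtain ⟨C, hC, hT⟩ := h.tx_bound
  obtain ⟨R, hR⟩ := hD.bdd.subset_ball (0 : ℂ)
  obtain ⟨Y, K, hY, e⟩ := Layer_ext hθ R
  have hK0 : (0 : ℝ) ≤ K := K.2
  refine ⟨C * M * K, fun d hd z hz => ?_⟩
  by_cases e0 : θ z = 0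
  · rw [Kill3_theta h0 e0, Kill3_tx_zero, mul_zero, norm_zero]
    positivity
  · have hg : ‖grad θ z‖ ≤ K := by
      rw [← grad_congr (e z (hR hz))]
      exact norm_grad_le hY z
    have h1 : |tx lam u z (kill b c z) (grad θ z)| ≤ C * M * K :=
      (hT _ _ _).trans (mul_le_mul (mul_le_mul_of_nonneg_left (hV z hz) hC) hg (norm_nonneg _)
        (mul_nonneg hC hM))
    rw [Real.norm_eq_abs, abs_mul, abs_of_nonneg (Kill3_ze_nonneg u d z)]
    exact (mul_le_of_le_one_left (abs_nonneg _) (Kill3_ze_le hd (hs z hz e0).le)).trans h1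

theorem Kill3_err_lim (h : Mn Ω lam u) {θ : ℂ → ℝ} (hθ : LocallyLipschitz θ) (h0 : ∀ z, 0 ≤ θ z)
    (hs : ∀ z ∈ Ω, θ z ≠ 0 → 0 < u z) (b : ℂ) (c : ℝ) :
    Tendsto (fun d : ℝ => ∫ z in Ω, Kill3_ze u d z * tx lam u z (kill b c z) (grad θ z)) (𝓝[>] 0)
      (𝓝 0) := by
  have hD : Dom Ω := h.toIsMin.toDom
  have hm := hD.isOpen.measurableSet
  obtain ⟨B, hB⟩ := Kill3_err_bd h hθ h0 hs b c
  have key := tendsto_integral_filter_of_dominated_convergence (μ := volume.restrict Ω)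
    (l := 𝓝[>] (0 : ℝ)) (f := fun _ => (0 : ℝ))
    (F := fun d z => Kill3_ze u d z * tx lam u z (kill b c z) (grad θ z)) (fun _ => B)
    (Eventually.of_forall fun d => (Kill3_err_meas h θ b c d).aestronglyMeasurable)
    (by
      filter_upwards [self_mem_nhdsWithin] with d hd
      exact ae_restrict_of_forall_mem hm (hB d hd))
    (integrableOn_const hD.volume_ne_top)
    (by
      refine ae_restrict_of_forall_mem hm fun z hz => ?_
      refine tendsto_const_nhds.congr' ?_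
      by_cases e0 : θ z = 0
      · refine Eventually.of_forall fun d => ?_
        simp only [Kill3_theta h0 e0, Kill3_tx_zero, mul_zero]
      · filter_upwards [Ioo_mem_nhdsGT (hs z hz e0)] with d hd
        rw [Kill3_ze_zero hd.1 hd.2.le, zero_mul])
  simpa using key

theorem Str.layer_lim (h : Str Ω lam u l r) {θ : ℂ → ℝ} (hθ : LocallyLipschitz θ)
    (h0 : ∀ z, 0 ≤ θ z) (hs : ∀ z ∈ Ω, θ z ≠ 0 → 0 < u z) (b : ℂ) (c : ℝ) :
    Tendsto (fun d : ℝ => d⁻¹ * ∫ z in Ω ∩ {z | |u z| < d}, θ z * k2 lam u (kill b c) z) (𝓝[>] 0)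
      (𝓝 ((∫ x in l 0..r 0, (gB Ω u x ^ 2 - 1) * (θ ⟨x, 0⟩ * (kill b c ⟨x, 0⟩).im)) / 2 -
        (∫ x in l Real.pi..r Real.pi,
          (gT Ω u x ^ 2 - 1) * (θ ⟨x, Real.pi⟩ * (kill b c ⟨x, Real.pi⟩).im)) / 2)) := by
  have hM : Mn Ω lam u := h.toMn
  have hD : Dom Ω := hM.toIsMin.toDom
  have hm := hD.isOpen.measurableSet
  obtain ⟨B, hB⟩ := Kill3_err_bd hM hθ h0 hs b c
  have key := (Kill3_err_lim hM hθ h0 hs b c).add_const
    ((∫ x in l 0..r 0, (gB Ω u x ^ 2 - 1) * (θ ⟨x, 0⟩ * (kill b c ⟨x, 0⟩).im)) / 2 -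
        (∫ x in l Real.pi..r Real.pi,
          (gT Ω u x ^ 2 - 1) * (θ ⟨x, Real.pi⟩ * (kill b c ⟨x, Real.pi⟩).im)) / 2)
  rw [zero_add] at key
  refine key.congr' ?_
  filter_upwards [self_mem_nhdsWithin] with d hd
  have hd0 : 0 < d := hd
  have hY : LocallyLipschitz fun x => ((θ x * Kill3_ze u d x : ℝ) : ℂ) * kill b c x :=
    locLip_smul (locLip_mul hθ (Kill3_ze_lip hM.lip d)) (locLip_kill b c)
  have hI : IntegrableOn (fun z => Kill3_ze u d z * tx lam u z (kill b c z) (grad θ z)) Ω :=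
    Measure.integrableOn_of_bounded hD.volume_ne_top
      (Kill3_err_meas hM θ b c d).aestronglyMeasurable (ae_restrict_of_forall_mem hm (hB d hd0))
  have hset : MeasurableSet {z | |u z| < d} :=
    (isOpen_lt hM.lip.continuous.abs continuous_const).measurableSet
  have e1 := h.LL_seg hY
  have eT : ∀ x : ℝ, Kill3_ze u d ⟨x, Real.pi⟩ = 1 := fun x =>
    Kill3_ze_one d (h.zero_wall (Or.inr le_rfl))
  have eB : ∀ x : ℝ, Kill3_ze u d ⟨x, 0⟩ = 1 := fun x =>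
    Kill3_ze_one d (h.zero_wall (Or.inl le_rfl))
  simp only [eT, eB, mul_one, im_ofReal_mul] at e1
  rw [← setIntegral_indicator hset, ← integral_const_mul,
    setIntegral_congr_ae hm (Kill3_st hM hθ hs b c hd0), integral_sub hI (hM.integrableOn_st' hY)]
  rw [LL] at e1
  rw [e1]
  ring

end Pool.Agent.L2K
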