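import Pool.Agent.P.MP_2f6447_an.K.LensB
import Pool.Agent.P.MP_2f6447_an.K.Kill2

/-! Every component of `{ev > 0}` meets the midline. -/

open Set MeasureTheory Filter Topology Complex Metric
open scoped ContDiff ComplexConjugate

namespace Pool.Agent.L2K

variable {Ω U : Set ℂ} {lam : ℝ} {u w f g : ℂ → ℝ}
variable {l r : ℝ → ℝ} {nT nB n φ : ℝ}

theorem Sy.ev_fx (n : ℝ) (z : ℂ) : ev u n (fx n z) = ev u n z := by
  unfold ev
  rw [fx_fx, add_comm]
theorem Sy.ev_fy (h : Sy Ω lam u l r n) (z : ℂ) : ev u n (fy z) = ev u n z := by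
  unfold ev
  rw [fx_fy, h.symu, h.symu]
theorem Sy.continuous_ev (h : Sy Ω lam u l r n) : Continuous (ev u n) :=
  h.lip.continuous.add (h.lip.continuous.comp (continuous_fx n))
theorem Sy.helm_ev (h : Sy Ω lam u l r n) : Helm lam (Ω ∩ fx n ⁻¹' Ω) (ev u n) := by
  have h1 : Helm lam (fx n ⁻¹' Ω) fun z => u (fx n z) := by
    rw [fx_eq n 0]
    exact h.helm.of_rf _ norm_one
  have ho : IsOpen (Ω ∩ fx n ⁻¹' Ω) := h.helm.isOpen.inter h1.isOpen
  exact (h.helm.mono ho inter_subset_left).add (h1.mono ho inter_subset_right)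
theorem Sy.ev_flip (n : ℝ) (z : ℂ) : ev (fun x => -u (fx n x)) n z = -ev u n z := by
  unfold ev
  simp only [fx_fx]
  ring

theorem LR1_ev_eq (h : Sy Ω lam u l r n) {z : ℂ} (hz : fx n z ∉ Ω) : ev u n z = u z := by
  unfold ev
  rw [h.lip.zero _ hz, add_zero]

theorem Sy.lens (h : Sy Ω lam u l r n) {E : Set ℂ} (hE : IsOpen E) (pos : ∀ z ∈ E, 0 < ev u n z)
    (fr : ∀ z ∈ frontier E, ev u n z = 0) (up : ∀ z ∈ E, Real.pi / 2 < z.im) {ε : ℝ} (hε : 0 < ε) :
    ∀ᶠ d in 𝓝[>] (0 : ℝ), -(ε * d) ≤ ∫ z in E ∩ (Ω \ fx n ⁻¹' Ω) ∩ {z | |u z| < d},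
      k2 lam u (kill (I * mid n n) (-1)) z := by
  have hsub : ∀ z ∈ E ∩ (Ω \ fx n ⁻¹' Ω),
      z ∈ Ω ∧ Real.pi / 2 ≤ z.im ∧ 2 * n - l z.im ≤ z.re := by
    rintro z ⟨h1, h2, h3⟩
    refine ⟨h2, (up z h1).le, h.lens_right h2 h3 ?_⟩
    rw [← LR1_ev_eq h h3]
    exact pos z h1
  have low : ∀ b : ℝ, (b < Real.pi ∨ r Real.pi ≤ 2 * n - l Real.pi) →
      (∀ z ∈ E ∩ (Ω \ fx n ⁻¹' Ω), z.im ≤ b) →
      ∀ᶠ d in 𝓝[>] (0 : ℝ), -(ε * d) ≤ ∫ z in E ∩ (Ω \ fx n ⁻¹' Ω) ∩ {z | |u z| < d},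
        k2 lam u (kill (I * mid n n) (-1)) z := by
    intro b hb hle
    filter_upwards [h.lens_low hb (I * mid n n) (-1) hε] with d hd
    have h1 := hd _ fun z hz => ⟨(hsub z hz).1, (hsub z hz).2.1, hle z hz, (hsub z hz).2.2⟩
    exact neg_le_of_abs_le (abs_integral_le_integral_abs.trans h1)
  rcases le_or_gt (r Real.pi) (2 * n - l Real.pi) with hc | hc
  · exact low Real.pi (Or.inr hc) fun z hz => ((h.mem z).mp hz.2.1).1.2.le
  · obtain ⟨δ, hδ, h1 | h1⟩ := h.lens_alt hc hE fr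
    · refine h.lens_top hc ?_ hsub hδ (fun z hz h2 h3 => ⟨h1 z hz h2 h3, hz, ?_⟩) hε
      · exact hE.measurableSet.inter (h.helm.isOpen.measurableSet.diff
          (h.helm.isOpen.preimage (continuous_fx n)).measurableSet)
      · exact (h.lens_pos hz h3).1
    · refine low (Real.pi - δ) (Or.inl (by linarith)) fun z hz => ?_
      by_contra h2
      exact h1 z hz.2.1 (lt_of_not_ge h2) (hsub z hz).2.2 hz.1

theorem LR1_frontier (n : ℝ) (E : Set ℂ) : frontier (fx n ⁻¹' E) = fx n ⁻¹' frontier E := by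
  rw [fx_eq n 0]
  exact frontier_rf _ norm_one E

theorem LR1_k2 (u : ℂ → ℝ) (lam n : ℝ) (z : ℂ) :
    k2 lam (fun x => -u (fx n x)) (kill (I * mid n n) (-1)) z =
      k2 lam u (kill (I * mid n n) (-1)) (fx n z) := by
  have e2 : kill (I * mid n n) (-1) (fx n z) = conj (kill (I * mid n n) (-1) z) := by
    apply Complex.ext
    · simp [kill, fx, mid]
    · simp [kill, fx, mid]
      ring
  unfold k2
  rw [Flip_grad, Flip_dot, ← e2, Complex.norm_conj, neg_sq]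

theorem Sy.lens' (h : Sy Ω lam u l r n) {E : Set ℂ} (hE : IsOpen E) (pos : ∀ z ∈ E, 0 < ev u n z)
    (fr : ∀ z ∈ frontier E, ev u n z = 0) (up : ∀ z ∈ E, Real.pi / 2 < z.im) {ε : ℝ} (hε : 0 < ε) :
    ∀ᶠ d in 𝓝[>] (0 : ℝ), -(ε * d) ≤ ∫ z in E ∩ (fx n ⁻¹' Ω \ Ω) ∩ {z | |-u (fx n z)| < d},
      k2 lam (fun x => -u (fx n x)) (kill (I * mid n n) (-1)) z := by
  have h1 := h.lens (E := fx n ⁻¹' E) (hE.preimage (continuous_fx n))
    (fun z hz => by rw [← Sy.ev_fx]; exact pos _ hz)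
    (fun z hz => by rw [LR1_frontier] at hz; rw [← Sy.ev_fx]; exact fr _ hz)
    (fun z hz => up (fx n z) hz) hε
  filter_upwards [h1] with d hd
  have hm : MeasurePreserving (fx n) volume volume := by
    rw [fx_eq n 0]; exact measurePreserving_rf _ norm_one
  have he : MeasurableEmbedding (fx n) := by
    rw [fx_eq n 0]; exact (isometry_rf _ norm_one).isClosedEmbedding.measurableEmbedding
  rw [← hm.setIntegral_preimage_emb he] at hd
  have e : fx n ⁻¹' (fx n ⁻¹' E ∩ (Ω \ fx n ⁻¹' Ω) ∩ {z | |u z| < d}) =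
      E ∩ (fx n ⁻¹' Ω \ Ω) ∩ {z | |-u (fx n z)| < d} := by
    ext z
    simp only [mem_preimage, mem_inter_iff, Set.mem_sdiff, mem_ofPred_eq, fx_fx, abs_neg]
  rw [e] at hd
  simpa only [LR1_k2] using hd

theorem LR1_absorb {C T : Set ℂ} (hC : IsOpen C) (hT : IsPreconnected T)
    (hf : ∀ z ∈ T, z ∉ frontier C) (hn : (T ∩ C).Nonempty) : T ⊆ C := by
  refine hT.subset_of_closure_inter_subset hC hn fun z hz => ?_
  by_contra h1
  exact hf z hz.2 (by rw [hC.frontier_eq]; exact ⟨hz.1, h1⟩)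

theorem LR1_im (h : Sy Ω lam u l r n) {z : ℂ} (hz : ev u n z ≠ 0) :
    z.im ≠ 0 ∧ z.im ≠ Real.pi := by
  have key : z.im ≤ 0 ∨ Real.pi ≤ z.im → False := by
    intro h1
    apply hz
    unfold ev
    rw [h.toStr.zero_wall h1, h.toStr.zero_wall (z := fx n z) h1, add_zero]
  exact ⟨fun e => key (Or.inl e.le), fun e => key (Or.inr e.ge)⟩

theorem LR1_ext {l r : ℝ → ℝ} (h : Geo Ω l r) {p : ℂ} (hp : p ∈ frontier Ω)
    (h1 : p.im ≠ 0 ∧ p.im ≠ Real.pi) : Ext Ω p := by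
  obtain ⟨h2, -, h3⟩ := (h.mem_frontier p).mp hp
  exact (h.ext_iff p).mpr ⟨h2, (h3.resolve_left h1.1).resolve_left h1.2⟩

theorem LR1_reach (h : Sy Ω lam u l r n) {C : Set ℂ} (hC : IsOpen C)
    (fr : ∀ z ∈ frontier C, ev u n z = 0) {z : ℂ} (hz : z ∈ C) (h1 : z ∈ Ω) (h2 : fx n z ∉ Ω)
    (h3 : 0 < ev u n z) : ∃ x ∈ C, x ∈ Ω ∧ fx n x ∈ Ω := by
  rw [LR1_ev_eq h h2] at h3
  have h4 := h.lens_right h1 h2 h3
  obtain ⟨hy, hl, hr⟩ := (h.mem z).mp h1
  obtain ⟨ξ₀, ξ₁, g0, g1, -, -, g2⟩ := h.toPat.win h.loc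
  obtain ⟨g3, g4⟩ := g2 z.im hy
  have hcont : Continuous fun x : ℝ => (⟨x, z.im⟩ : ℂ) :=
    continuousOn_univ.mp (Wall0_cont_mk continuousOn_id continuousOn_const)
  have hT : (fun x : ℝ => (⟨x, z.im⟩ : ℂ)) '' Icc (2 * n - l z.im) z.re ⊆ C := by
    refine LR1_absorb hC (isPreconnected_Icc.image _ hcont.continuousOn) ?_
      ⟨z, ⟨z.re, right_mem_Icc.mpr h4, rfl⟩, hz⟩
    rintro _ ⟨x, hx, rfl⟩ hf
    have hm : (⟨x, z.im⟩ : ℂ) ∈ Ω :=
      (h.mem _).mpr ⟨hy, by show l z.im < x; linarith [hx.1], by show x < r z.im; linarith [hx.2]⟩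
    obtain ⟨-, k1, k2⟩ := h.lens_pos hm hx.1
    have := fr _ hf
    simp only at this
    linarith
  have hc : (⟨2 * n - l z.im, z.im⟩ : ℂ) ∈ C := hT ⟨_, left_mem_Icc.mpr h4, rfl⟩
  have e1 : ∀ᶠ x : ℝ in 𝓝 (2 * n - l z.im), (⟨x, z.im⟩ : ℂ) ∈ C :=
    (hcont.tendsto _).eventually (hC.mem_nhds hc)
  have e2 : ∀ᶠ x : ℝ in 𝓝 (2 * n - l z.im), n < x := lt_mem_nhds (by linarith)
  obtain ⟨x, hx, k1, k2⟩ := (e1.and e2).exists_lt
  refine ⟨_, k1, (h.mem _).mpr ⟨hy, ?_, ?_⟩, (h.mem _).mpr ⟨hy, ?_, ?_⟩⟩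
  · show l z.im < x; linarith
  · show x < r z.im; linarith
  · show l z.im < 2 * n - x; linarith
  · show 2 * n - x < r z.im; linarith

theorem LR1_core (h : Sy Ω lam u l r n) {C : Set ℂ} (hC : IsOpen C)
    (pos : ∀ z ∈ C, 0 < ev u n z) (fr : ∀ z ∈ frontier C, ev u n z = 0)
    (up : ∀ z ∈ C, Real.pi / 2 < z.im) {q : ℂ} (hq : q ∈ C) : False := by
  have h' := h.flipX
  have hD : Convex ℝ (Ω ∩ fx n ⁻¹' Ω) := h.convex.inter h'.convex
  have hKE : KE Ω (fx n ⁻¹' Ω) u (fun z => -u (fx n z)) C := by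
    refine ⟨hC, fun z hz => ?_, fun z hz => ?_,
      fun p hp hpC => LR1_ext h.toGeo hp (LR1_im h (pos p hpC).ne'),
      fun p hp hpC => LR1_ext h'.toGeo hp (LR1_im h (pos p hpC).ne')⟩
    · have := pos z hz
      unfold ev at this
      linarith
    · have := fr z hz
      unfold ev at this
      linarith
  have hrot : ∀ z, z ∈ Ω → z ∈ fx n ⁻¹' Ω → Real.pi / 2 < z.im →
      0 < dot (grad u z + grad (fun z => -u (fx n z)) z) (kill (I * mid n n) (-1) z) := by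
    intro z h1 h2 h3
    have a1 := h.rot z h1 h3
    have a2 := h'.rot z h2 h3
    unfold dot at a1 a2 ⊢
    simp only [add_re, add_im]
    linarith
  by_cases hA : ∃ p ∈ frontier C, p ∈ Ω ∧ p ∈ fx n ⁻¹' Ω ∧ Real.pi / 2 < p.im
  · obtain ⟨p, hp, h1, h2, h3⟩ := hA
    exact kill_main h.toMn h'.toMn hKE (I * mid n n) (-1)
      (fun z hz k1 k2 => (hrot z k1 k2 (up z hz)).le) hp h1 h2 (hrot p h1 h2 h3)
      (fun ε hε => h.lens hC pos fr up hε) fun ε hε => h.lens' hC pos fr up hε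
  have hx : ∃ x ∈ C, x ∈ Ω ∧ fx n x ∈ Ω := by
    by_cases h1 : q ∈ Ω
    · by_cases h2 : fx n q ∈ Ω
      · exact ⟨q, hq, h1, h2⟩
      · exact LR1_reach h hC fr hq h1 h2 (pos q hq)
    · have h2 : fx n q ∈ Ω := by
        by_contra h2
        have := pos q hq
        rw [LR1_ev_eq h h2, h.lip.zero q h1] at this
        exact lt_irrefl _ this
      obtain ⟨x, k1, k2, k3⟩ := LR1_reach h (C := fx n ⁻¹' C) (hC.preimage (continuous_fx n))
        (fun z hz => by rw [LR1_frontier] at hz; rw [← Sy.ev_fx]; exact fr _ hz)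
        (z := fx n q) (by rw [mem_preimage, fx_fx]; exact hq) h2 (by rw [fx_fx]; exact h1)
        (by rw [Sy.ev_fx]; exact pos q hq)
      exact ⟨fx n x, k1, k3, by rw [fx_fx]; exact k2⟩
  obtain ⟨x, hxC, hx1, hx2⟩ := hx
  have hW : Ω ∩ fx n ⁻¹' Ω ∩ {z : ℂ | Real.pi / 2 < z.im} ⊆ C :=
    LR1_absorb hC (hD.inter (convex_halfSpace_im_gt _)).isPreconnected
      (fun z hz hf => hA ⟨z, hf, hz.1.1, hz.1.2, hz.2⟩) ⟨x, ⟨⟨hx1, hx2⟩, up x hxC⟩, hxC⟩
  have hge : ∀ z ∈ Ω ∩ fx n ⁻¹' Ω, 0 ≤ ev u n z := by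
    intro z hz
    rcases lt_trichotomy z.im (Real.pi / 2) with h1 | h1 | h1
    · rw [← h.ev_fy]
      refine (pos _ (hW ⟨⟨h.symΩ z hz.1, ?_⟩, ?_⟩)).le
      · rw [mem_preimage, fx_fy]
        exact h.symΩ _ hz.2
      · show Real.pi / 2 < Real.pi - z.im
        linarith
    · have hc : Continuous fun t : ℝ => z + (t : ℂ) * I := by fun_prop
      have ht : Tendsto (fun t : ℝ => z + (t : ℂ) * I) (𝓝[>] 0) (𝓝 z) := by
        have := hc.tendsto 0
        simp only [ofReal_zero, zero_mul, add_zero] at this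
        exact this.mono_left nhdsWithin_le_nhds
      refine ge_of_tendsto ((h.continuous_ev.tendsto z).comp ht) ?_
      filter_upwards [ht.eventually (h.helm_ev.isOpen.mem_nhds hz), self_mem_nhdsWithin]
        with t k1 k2
      refine (pos _ (hW ⟨k1, ?_⟩)).le
      have k3 : (0 : ℝ) < t := k2
      show Real.pi / 2 < (z + (t : ℂ) * I).im
      simp only [add_im, mul_im, ofReal_re, I_im, ofReal_im, I_re]
      linarith
    · exact (pos _ (hW ⟨hz, h1⟩)).le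
  rcases strong_max h.helm_ev h.toMn.lam_pos.le hD.isPreconnected hge with h1 | h1
  · have h2 : Ω ∩ fx n ⁻¹' Ω ⊆ C := LR1_absorb hC hD.isPreconnected
      (fun z hz hf => (h1 z hz).ne' (fr z hf)) ⟨x, ⟨hx1, hx2⟩, hxC⟩
    exact lt_irrefl _ (up _ (h2 ⟨h.loc.mid_mem, h'.loc.mid_mem⟩))
  · exact (pos x hxC).ne' (h1 x ⟨hx1, hx2⟩)

theorem LR1_fr {F : ℂ → ℝ} (hF : Continuous F) (q : ℂ) :
    ∀ z ∈ frontier (connectedComponentIn {z | 0 < F z} q), F z = 0 := by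
  have ho : IsOpen {z | 0 < F z} := isOpen_lt continuous_const hF
  intro z hz
  rw [(ho.connectedComponentIn (x := q)).frontier_eq] at hz
  have h1 : 0 ≤ F z :=
    closure_minimal (t := {z | 0 ≤ F z})
      (fun x hx => le_of_lt (α := ℝ) (connectedComponentIn_subset {z | 0 < F z} q hx))
      (isClosed_le continuous_const hF) hz.1
  refine (h1.lt_or_eq.resolve_left fun h2 => hz.2 ?_).symm
  have h3 : z ∈ connectedComponentIn {z | 0 < F z} z := mem_connectedComponentIn h2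
  obtain ⟨x, k1, k2⟩ := mem_closure_iff.mp hz.1 _ (ho.connectedComponentIn (x := z)) h3
  rw [connectedComponentIn_eq k2, ← connectedComponentIn_eq k1]
  exact h3

theorem Sy.meets_mid (h : Sy Ω lam u l r n) {q : ℂ} (hq : 0 < ev u n q) :
    ∃ z ∈ connectedComponentIn {z | 0 < ev u n z} q, z.im = Real.pi / 2 := by
  have ho : IsOpen {z | 0 < ev u n z} := isOpen_lt continuous_const h.continuous_ev
  have hC := ho.connectedComponentIn (x := q)
  have hqC : q ∈ connectedComponentIn {z | 0 < ev u n z} q := mem_connectedComponentIn hq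
  have pos : ∀ z ∈ connectedComponentIn {z | 0 < ev u n z} q, 0 < ev u n z :=
    fun z hz => connectedComponentIn_subset {z | 0 < ev u n z} q hz
  have fr := LR1_fr h.continuous_ev q
  have hp : IsPreconnected (connectedComponentIn {z | 0 < ev u n z} q) :=
    isPreconnected_connectedComponentIn
  by_contra hcon
  have hne : ∀ z ∈ connectedComponentIn {z | 0 < ev u n z} q, z.im ≠ Real.pi / 2 :=
    fun z hz e => hcon ⟨z, hz, e⟩
  rcases lt_or_gt_of_ne (hne q hqC) with h1 | h1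
  · have lo : ∀ z ∈ connectedComponentIn {z | 0 < ev u n z} q, z.im < Real.pi / 2 := by
      intro z hz
      by_contra h2
      obtain ⟨x, k1, k2⟩ := hp.intermediate_value hqC hz continuous_im.continuousOn
        ⟨h1.le, le_of_not_gt h2⟩
      exact hne x k1 k2
    refine LR1_core h (C := fy ⁻¹' connectedComponentIn {z | 0 < ev u n z} q)
      (hC.preimage continuous_fy) (fun z hz => by rw [← h.ev_fy]; exact pos _ hz)
      (fun z hz => ?_) (fun z hz => ?_) (q := fy q) (by rw [mem_preimage, fy_fy]; exact hqC)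
    · rw [fy_eq 0, frontier_rf _ norm_I, ← fy_eq 0] at hz
      rw [← h.ev_fy]
      exact fr _ hz
    · have : Real.pi - z.im < Real.pi / 2 := lo _ hz
      linarith
  · refine LR1_core h hC pos fr (fun z hz => ?_) hqC
    by_contra h2
    obtain ⟨x, k1, k2⟩ := hp.intermediate_value hz hqC continuous_im.continuousOn
      ⟨le_of_not_gt h2, h1.le⟩
    exact hne x k1 k2

end Pool.Agent.L2K
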