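import Pool.Agent.P.MP_2f6447_an.K.Win

/-! Expansion of the even part at the end of the nodal line. -/

open Set MeasureTheory Filter Topology Complex Metric
open scoped ContDiff ComplexConjugate

namespace Pool.Agent.L2K

variable {Ω U : Set ℂ} {lam : ℝ} {u w f g : ℂ → ℝ}
variable {l r : ℝ → ℝ} {nT nB n φ : ℝ}

theorem LR2_ray {Y : ℂ → ℝ} {k : ℕ} {c : ℂ} {C ρ : ℝ} (hρ : 0 < ρ)
    (h : ∀ ζ ∈ ball (0 : ℂ) ρ, |Y ζ - (c * ζ ^ k).re| ≤ C * ‖ζ‖ ^ (k + 1)) {e e' : ℂ}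
    (he : ‖e‖ = 1) (he' : ‖e'‖ = 1) (hY : ∀ t : ℝ, 0 < t → t < ρ → Y (t * e) = Y (t * e')) :
    (c * e ^ k).re = (c * e' ^ k).re := by
  have key : ∀ t : ℝ, 0 < t → t < ρ → |(c * e ^ k).re - (c * e' ^ k).re| ≤ 2 * C * t := by
    intro t h0 h1
    have nn : ∀ v : ℂ, ‖v‖ = 1 → ‖(t : ℂ) * v‖ = t := fun v hv => by
      rw [norm_mul, hv, mul_one, Complex.norm_real, Real.norm_eq_abs, abs_of_pos h0]
    have ee : ∀ v : ℂ, (c * ((t : ℂ) * v) ^ k).re = t ^ k * (c * v ^ k).re := fun v => by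
      have : c * ((t : ℂ) * v) ^ k = ((t ^ k : ℝ) : ℂ) * (c * v ^ k) := by
        push_cast
        ring
      rw [this, re_ofReal_mul]
    have a1 := h (t * e) (by rw [mem_ball_zero_iff, nn e he]; exact h1)
    have a2 := h (t * e') (by rw [mem_ball_zero_iff, nn e' he']; exact h1)
    rw [nn e he, ee, hY t h0 h1] at a1
    rw [nn e' he', ee] at a2
    have tk : 0 < t ^ k := pow_pos h0 k
    refine le_of_mul_le_mul_left ?_ tk
    rw [← abs_of_pos tk, ← abs_mul, abs_of_pos tk]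
    have b1 := abs_le.1 a1
    have b2 := abs_le.1 a2
    rw [pow_succ] at b1 b2
    rw [abs_le]
    constructor <;> linarith [b1.1, b1.2, b2.1, b2.2]
  by_contra hne
  have hp : 0 < |(c * e ^ k).re - (c * e' ^ k).re| := abs_pos.2 (sub_ne_zero.2 hne)
  generalize |(c * e ^ k).re - (c * e' ^ k).re| = d at hp key
  have hB : 0 < 2 * |C| + 1 := by positivity
  have t0 : 0 < min (ρ / 2) (d / (2 * |C| + 1)) := lt_min (by linarith) (div_pos hp hB)
  have t1 : min (ρ / 2) (d / (2 * |C| + 1)) ≤ ρ / 2 := min_le_left _ _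
  have t2 : min (ρ / 2) (d / (2 * |C| + 1)) ≤ d / (2 * |C| + 1) := min_le_right _ _
  generalize min (ρ / 2) (d / (2 * |C| + 1)) = t at t0 t1 t2
  have k1 := key t t0 (by linarith)
  rw [le_div_iff₀ hB] at t2
  have k2 : C * t ≤ |C| * t := mul_le_mul_of_nonneg_right (le_abs_self C) t0.le
  linarith

theorem lead_sym {Y : ℂ → ℝ} {k : ℕ} {c : ℂ} {C ρ : ℝ} (hc : c ≠ 0) (hk : k ≠ 0) (hρ : 0 < ρ)
    (h : ∀ ζ ∈ ball (0 : ℂ) ρ, |Y ζ - (c * ζ ^ k).re| ≤ C * ‖ζ‖ ^ (k + 1))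
    (h1 : ∀ ζ ∈ ball (0 : ℂ) ρ, Y (conj ζ) = Y ζ) (h2 : ∀ ζ ∈ ball (0 : ℂ) ρ, Y (-conj ζ) = Y ζ) :
    c.im = 0 ∧ Even k := by
  have nn : ∀ (t : ℝ) (v : ℂ), 0 < t → t < ρ → ‖v‖ = 1 → (t : ℂ) * v ∈ ball (0 : ℂ) ρ := by
    intro t v h0 ht hv
    rw [mem_ball_zero_iff, norm_mul, hv, mul_one, Complex.norm_real, Real.norm_eq_abs,
      abs_of_pos h0]
    exact ht
  have him : c.im = 0 := by
    set e : ℂ := exp (((Real.pi / (2 * k) : ℝ) : ℂ) * I) with he
    have n1 : ‖e‖ = 1 := Complex.norm_exp_ofReal_mul_I _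
    have hk' : (k : ℂ) ≠ 0 := Nat.cast_ne_zero.2 hk
    have p1 : e ^ k = I := by
      rw [he, ← Complex.exp_nat_mul, ← Complex.exp_pi_div_two_mul_I]
      congr 1
      rw [Complex.exp_pi_div_two_mul_I]
      push_cast
      field_simp
    have key := LR2_ray hρ h (e := e) (e' := conj e) n1 (by rw [Complex.norm_conj, n1])
      fun t h0 ht => by
        rw [← h1 _ (nn t e h0 ht n1), map_mul, Complex.conj_ofReal]
    rw [← map_pow, p1] at key
    simp at key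
    linarith
  refine ⟨him, ?_⟩
  by_contra hodd
  have key := LR2_ray hρ h (e := 1) (e' := -1) (by simp) (by simp) fun t h0 ht => by
    rw [← h2 _ (nn t 1 h0 ht (by simp))]
    simp
  rw [(Nat.not_even_iff_odd.1 hodd).neg_one_pow] at key
  simp at key
  exact hc (Complex.ext (by simp; linarith) (by simpa using him))

theorem LR2_vert {W : ℂ → ℝ} {ρ a C : ℝ} {k : ℕ} (hd : ∀ z ∈ ball (0 : ℂ) ρ, DifferentiableAt ℝ W z)
    (h0 : ∀ x : ℝ, W x = 0) (hC : 0 ≤ C)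
    (h : ∀ ζ ∈ ball (0 : ℂ) ρ, |-(grad W ζ).im - ((a : ℂ) * ζ ^ k).re| ≤ C * ‖ζ‖ ^ (k + 1))
    {ζ : ℂ} (hζ : ζ ∈ ball (0 : ℂ) ρ) (him : ζ.im ≤ 0) :
    |W ζ + a * (ζ ^ (k + 1)).im / (k + 1)| ≤ C * ‖ζ‖ ^ (k + 2) := by
  have hn : ∀ s ∈ Icc (0 : ℝ) (-ζ.im), ‖(ζ.re : ℂ) + s * -I‖ ≤ ‖ζ‖ := by
    intro s hs
    apply le_of_sq_le_sq _ (norm_nonneg _)
    rw [Complex.sq_norm, Complex.sq_norm, normSq_apply, normSq_apply]
    simp only [add_re, ofReal_re, mul_re, neg_re, I_re, neg_zero, mul_zero, ofReal_im, neg_im, I_im,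
      sub_zero, add_zero, add_im, mul_im, mul_neg, mul_one, zero_add]
    nlinarith [hs.1, hs.2]
  have hm : ∀ s ∈ Icc (0 : ℝ) (-ζ.im), (ζ.re : ℂ) + s * -I ∈ ball (0 : ℂ) ρ := fun s hs =>
    mem_ball_zero_iff.2 ((hn s hs).trans_lt (mem_ball_zero_iff.1 hζ))
  have hk : ((k : ℝ) + 1) ≠ 0 := by positivity
  have hder : ∀ s ∈ Icc (0 : ℝ) (-ζ.im), HasDerivAt
      (fun s : ℝ => W (ζ.re + s * -I) + a * (((ζ.re : ℂ) + s * -I) ^ (k + 1)).im / (k + 1))
      (-(grad W (ζ.re + s * -I)).im - ((a : ℂ) * ((ζ.re : ℂ) + s * -I) ^ k).re) s := by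
    intro s hs
    have d1 := hasDerivAt_line (u := W) (p := ζ.re) (v := -I) (t := s) (hd _ (hm s hs))
    have d2 : HasDerivAt (fun z : ℂ => ((ζ.re : ℂ) + z * -I) ^ (k + 1))
        (((k + 1 : ℕ) : ℂ) * ((ζ.re : ℂ) + s * -I) ^ k * -I) (s : ℂ) := by
      have := (((hasDerivAt_id (s : ℂ)).mul_const (-I)).const_add (ζ.re : ℂ)).pow (k + 1)
      refine this.congr_deriv ?_
      simp
    have d3 := d2.comp_ofReal
    have d4 := imCLM.hasFDerivAt.comp_hasDerivAt s d3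
    have d5 := d1.add ((d4.const_mul a).div_const ((k : ℝ) + 1))
    refine d5.congr_deriv ?_
    generalize ((ζ.re : ℂ) + s * -I) ^ k = q
    simp only [dot, imCLM_apply, neg_re, neg_im, I_re, I_im, mul_re, mul_im, ofReal_re, ofReal_im,
      natCast_re, natCast_im]
    push_cast
    field_simp
    ring
  have key := norm_image_sub_le_of_norm_deriv_le_segment' (a := 0) (b := -ζ.im)
    (C := C * ‖ζ‖ ^ (k + 1)) (fun s hs => (hder s hs).hasDerivWithinAt) (fun s hs => by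
      have hs' := Ico_subset_Icc_self hs
      rw [Real.norm_eq_abs]
      refine (h _ (hm s hs')).trans ?_
      have := hn s hs'
      gcongr) (-ζ.im) ⟨by linarith, le_rfl⟩
  have e1 : (ζ.re : ℂ) + ((-ζ.im : ℝ) : ℂ) * -I = ζ := by
    apply Complex.ext <;> simp
  have e2 : (ζ.re : ℂ) + ((0 : ℝ) : ℂ) * -I = ζ.re := by simp
  rw [e1, e2, h0, ← Complex.ofReal_pow, ofReal_im, Real.norm_eq_abs] at key
  simp only [mul_zero, zero_div, add_zero, sub_zero] at key
  refine key.trans ?_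
  have a1 : -ζ.im ≤ ‖ζ‖ := (neg_le_abs _).trans (abs_im_le_norm ζ)
  rw [pow_succ ‖ζ‖ (k + 1), ← mul_assoc]
  gcongr

theorem LR2_dir {k : ℕ} (hk : 2 ≤ k) :
    ∃ e : ℂ, ‖e‖ = 1 ∧ 0 ≤ e.re ∧ e.im < 0 ∧ (e ^ (k + 1)).im = 1 := by
  have hpi := Real.pi_pos
  have hk' : (2 : ℝ) ≤ k := by exact_mod_cast hk
  set θ : ℝ := 3 * Real.pi / (2 * (k + 1)) with hθ
  have h0 : 0 < θ := by positivity
  have h1 : θ ≤ Real.pi / 2 := by
    rw [hθ, div_le_div_iff₀ (by positivity) (by norm_num)]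
    nlinarith
  refine ⟨exp (((-θ : ℝ) : ℂ) * I), Complex.norm_exp_ofReal_mul_I _, ?_, ?_, ?_⟩
  · rw [Complex.exp_ofReal_mul_I_re, Real.cos_neg]
    exact Real.cos_nonneg_of_mem_Icc ⟨by linarith, h1⟩
  · rw [Complex.exp_ofReal_mul_I_im, Real.sin_neg, neg_lt_zero]
    exact Real.sin_pos_of_pos_of_lt_pi h0 (by linarith)
  · have e : ((k + 1 : ℕ) : ℂ) * (((-θ : ℝ) : ℂ) * I) =
        ((Real.pi / 2 - 2 * Real.pi : ℝ) : ℂ) * I := by
      rw [← mul_assoc]
      congr 1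
      have : ((k + 1 : ℕ) : ℝ) * -θ = Real.pi / 2 - 2 * Real.pi := by
        rw [hθ]
        push_cast
        field_simp
        ring
      exact_mod_cast this
    rw [← Complex.exp_nat_mul, e, Complex.exp_ofReal_mul_I_im, Real.sin_sub_two_pi,
      Real.sin_pi_div_two]

theorem LR2_fx0 (z : ℂ) : fx 0 z = -conj z := by
  apply Complex.ext <;> simp [fx]

theorem LR2_core {W : ℂ → ℝ} {ρ : ℝ} (hρ : 0 < ρ) (h : Helm lam (ball 0 ρ) W) (hl : 0 ≤ lam)
    (ho : ∀ ζ, W (conj ζ) = -W ζ) (he : ∀ ζ, W (fx 0 ζ) = W ζ) (h0 : (grad W 0).im = 0)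
    (hne : ¬ ∀ᶠ z in 𝓝 (0 : ℂ), W z = 0) :
    ∃ (σ δ : ℝ) (e : ℂ), (σ = 1 ∨ σ = -1) ∧ 0 < δ ∧ δ ≤ ρ ∧ ‖e‖ = 1 ∧ 0 ≤ e.re ∧ e.im < 0 ∧
      (∀ x ∈ Ioo 0 δ, 0 < σ * -(grad W (x : ℝ)).im) ∧ ∀ t ∈ Ioo 0 δ, σ * W (t * e) < 0 := by
  have hY : Helm lam (ball 0 ρ) fun z => -(grad W z).im := (h.of_D I).neg
  have s1 : ∀ z, (grad W (conj z)).im = (grad W z).im := by
    intro z
    have a1 := grad_conj W z
    simp only [ho, grad_neg] at a1
    have a2 := congrArg Complex.im a1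
    simp only [neg_im, conj_im] at a2
    linarith
  have s2 : ∀ z, (grad W (-conj z)).im = (grad W z).im := by
    intro z
    have a1 := grad_fx W 0 z
    simp only [he] at a1
    have a2 := congrArg Complex.im a1
    simp only [neg_im, conj_im, neg_neg, LR2_fx0] at a2
    exact a2.symm
  have hz : ∀ z : ℂ, z.im = 0 → W z = 0 := by
    intro z hz
    have := ho z
    rw [Complex.conj_eq_iff_im.2 hz] at this
    linarith
  have hl1 : 0 < lam + 1 := by linarith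
  have R0 : 0 < min (ρ / 2) (1 / (lam + 1)) := lt_min (by linarith) (by positivity)
  have R1 : min (ρ / 2) (1 / (lam + 1)) ≤ ρ / 2 := min_le_left _ _
  have R2 : min (ρ / 2) (1 / (lam + 1)) ≤ 1 / (lam + 1) := min_le_right _ _
  generalize min (ρ / 2) (1 / (lam + 1)) = R at R0 R1 R2
  rw [le_div_iff₀ hl1] at R2
  have R3 : lam * R ^ 2 ≤ 1 := by
    have a1 : R ≤ 1 := by nlinarith
    have a2 : lam * R ≤ 1 := by nlinarith
    nlinarith
  rcases leading hY hl R0 (closedBall_subset_ball (by linarith)) R3 with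
    hh | ⟨k, c, C, ρ1, hc, hk0, hρ1, hb⟩
  · exfalso
    refine hne ?_
    have a1 := cauchy_zero (h.mono isOpen_ball (ball_subset_ball (by linarith : R ≤ ρ))) hl
      fun z hz1 hz2 => ⟨hz z hz2, neg_eq_zero.1 (hh z hz1)⟩
    filter_upwards [ball_mem_nhds (0 : ℂ) R0] with z hz1 using a1 z hz1
  simp only [sub_zero] at hb
  have hk : k ≠ 0 := by
    intro e
    have a1 := hb 0 (mem_ball_self hρ1)
    rw [h0, e] at a1
    simp at a1
    exact hc (Complex.ext a1 (hk0 e))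
  obtain ⟨him, hev⟩ := lead_sym (Y := fun z => -(grad W z).im) hc hk hρ1 hb
    (fun z _ => by simp only [s1]) fun z _ => by simp only [s2]
  have hk2 : 2 ≤ k := by
    obtain ⟨m, hm⟩ := hev
    omega
  obtain ⟨a, rfl⟩ : ∃ a : ℝ, c = a := ⟨c.re, Complex.ext (by simp) (by simpa using him)⟩
  have ha : a ≠ 0 := fun e => hc (by simp [e])
  have ha' : 0 < |a| := abs_pos.2 ha
  obtain ⟨σ, hσ, hσa⟩ : ∃ σ : ℝ, (σ = 1 ∨ σ = -1) ∧ σ * a = |a| := by
    rcases le_total 0 a with h1 | h1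
    · exact ⟨1, Or.inl rfl, by rw [abs_of_nonneg h1, one_mul]⟩
    · exact ⟨-1, Or.inr rfl, by rw [abs_of_nonpos h1, neg_one_mul]⟩
  have hσb : ∀ x b : ℝ, |x| ≤ b → -b ≤ σ * x ∧ σ * x ≤ b := by
    intro x b hx
    have := abs_le.1 hx
    rcases hσ with e | e <;> rw [e] <;> constructor <;> linarith [this.1, this.2]
  obtain ⟨e, e1, e2, e3, e4⟩ := LR2_dir hk2
  have hB : 0 < (|C| + 1) * ((k : ℝ) + 1) := by positivity
  have hb' : ∀ ζ ∈ ball (0 : ℂ) (min ρ ρ1),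
      |-(grad W ζ).im - ((a : ℂ) * ζ ^ k).re| ≤ |C| * ‖ζ‖ ^ (k + 1) := fun ζ hζ =>
    (hb ζ (ball_subset_ball (min_le_right _ _) hζ)).trans
      (mul_le_mul_of_nonneg_right (le_abs_self C) (by positivity))
  have small : ∀ t ∈ Ioo 0 (min (min ρ ρ1) (|a| / ((|C| + 1) * ((k : ℝ) + 1)))),
      t < min ρ ρ1 ∧ |C| * t * ((k : ℝ) + 1) < |a| := by
    intro t ht
    refine ⟨ht.2.trans_le (min_le_left _ _), ?_⟩
    have a1 := ht.2.trans_le (min_le_right _ _)
    rw [lt_div_iff₀ hB] at a1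
    have a2 : 0 < t * ((k : ℝ) + 1) := mul_pos ht.1 (by positivity)
    linarith
  refine ⟨σ, min (min ρ ρ1) (|a| / ((|C| + 1) * ((k : ℝ) + 1))), e, hσ,
    lt_min (lt_min hρ hρ1) (div_pos ha' hB), (min_le_left _ _).trans (min_le_left _ _), e1, e2, e3,
    fun x hx => ?_, fun t ht => ?_⟩
  · obtain ⟨a1, a2⟩ := small x hx
    have n1 : ‖(x : ℂ)‖ = x := by rw [Complex.norm_real, Real.norm_eq_abs, abs_of_pos hx.1]
    have b1 := hb' x (by rw [mem_ball_zero_iff, n1]; exact a1)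
    rw [n1, ← Complex.ofReal_pow, ← Complex.ofReal_mul, ofReal_re] at b1
    have b2 := (hσb _ _ b1).1
    have xk : 0 < x ^ k := pow_pos hx.1 k
    have b3 : |C| * x < |a| := by
      have : 0 ≤ |C| * x * k := by have := hx.1; positivity
      linarith
    have b4 : |C| * x * x ^ k < |a| * x ^ k := by gcongr
    rw [pow_succ] at b2
    rw [← hσa] at b4
    linarith
  · obtain ⟨a1, a2⟩ := small t ht
    have n1 : ‖(t : ℂ) * e‖ = t := by
      rw [norm_mul, e1, mul_one, Complex.norm_real, Real.norm_eq_abs, abs_of_pos ht.1]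
    have b1 := LR2_vert (ρ := min ρ ρ1)
      (fun z hz => h.differentiableAt (ball_subset_ball (min_le_left _ _) hz))
      (fun x => hz x (ofReal_im x)) (abs_nonneg C) hb' (ζ := t * e)
      (by rw [mem_ball_zero_iff, n1]; exact a1)
      (by rw [im_ofReal_mul]; exact (mul_neg_of_pos_of_neg ht.1 e3).le)
    rw [n1, mul_pow, ← Complex.ofReal_pow, im_ofReal_mul, e4, mul_one] at b1
    have b2 := (hσb _ _ b1).2
    have tk : 0 < t ^ (k + 1) := pow_pos ht.1 _
    have hk1 : (0 : ℝ) < k + 1 := by positivity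
    have b3 : |C| * t < |a| / (k + 1) := by rwa [lt_div_iff₀ hk1]
    have b4 : |C| * t * t ^ (k + 1) < |a| / (k + 1) * t ^ (k + 1) := by gcongr
    rw [pow_succ t (k + 1)] at b2
    rw [← hσa] at b4
    have b5 : σ * (W (t * e) + a * t ^ (k + 1) / (k + 1)) =
        σ * W (t * e) + σ * a / (k + 1) * t ^ (k + 1) := by ring
    linarith

theorem Sy.local_exp (h : Sy Ω lam u l r n) (hne : ∃ z ∈ Ω, fx n z ∈ Ω ∧ ev u n z ≠ 0) :
    ∃ (σ δ : ℝ) (e : ℂ), (σ = 1 ∨ σ = -1) ∧ 0 < δ ∧ 0 ≤ e.re ∧ e.im < 0 ∧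
      (∀ x ∈ Ioo n (n + δ), 0 < σ * (gT Ω u x + gT Ω u (2 * n - x))) ∧
      ∀ t ∈ Ioo 0 δ, σ * ev u n (⟨n, Real.pi⟩ + t * e) < 0 := by
  have hS : Str Ω lam u l r := h.toStr
  have hM : Mn Ω lam u := hS.toMn
  have hD : Dom Ω := hM.toDom
  have hl := hM.lam_pos.le
  obtain ⟨ρ, hρ, -, hH, hin, -, hG⟩ := hS.helm_oeT h.memT
  set P : ℂ := ⟨n, Real.pi⟩ with hP
  have fxb : ∀ z ∈ ball P ρ, fx n z ∈ ball P ρ := by
    intro z hz
    have e : fx n z - P = -conj (z - P) := by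
      apply Complex.ext
      · simp only [fx, hP, sub_re, neg_re, conj_re]
        ring
      · simp only [fx, hP, sub_im, neg_im, conj_im]
        ring
    rw [mem_ball_iff_norm] at hz ⊢
    rw [e, norm_neg, Complex.norm_conj]
    exact hz
  have hfx : ∀ {V : Set ℂ} {v : ℂ → ℝ}, Helm lam V v →
      Helm lam (fx n ⁻¹' V) fun z => v (fx n z) := by
    intro V v hv
    rw [fx_eq n 0]
    exact hv.of_rf _ norm_one
  have hH' : Helm lam (ball P ρ) fun z => oe u (fx n z) := (hfx hH).mono isOpen_ball fxb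
  have hZ : Helm lam (ball P ρ) (ev (oe u) n) := hH.add hH'
  have gZ : ∀ z ∈ ball P ρ, z.im = Real.pi →
      -(grad (ev (oe u) n) z).im = gT Ω u z.re + gT Ω u (2 * n - z.re) := by
    intro z hz hi
    have a1 : grad (ev (oe u) n) z = _ :=
      grad_add (hH.differentiableAt hz) (hH'.differentiableAt hz)
    rw [a1, grad_fx, ← hG z hz hi.le, ← hG _ (fxb z hz) hi.le]
    have e1 : z = ⟨z.re, Real.pi⟩ := Complex.ext rfl hi
    have e2 : fx n z = ⟨2 * n - z.re, Real.pi⟩ := Complex.ext rfl hi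
    unfold gT
    rw [← e1, ← e2]
    simp only [add_im, neg_im, conj_im]
    ring
  have evZ : ∀ z : ℂ, z.im ≤ Real.pi → ev (oe u) n z = ev u n z := by
    intro z hz
    have hz' : (fx n z).im ≤ Real.pi := hz
    simp only [ev, oe, if_pos hz, if_pos hz']
  have simP : ∀ z, sim P 1 z = P + z := fun z => by rw [sim, one_mul]
  have memb : ∀ z ∈ ball (0 : ℂ) ρ, P + z ∈ ball P ρ := fun z hz => by
    rw [mem_ball_iff_norm, add_sub_cancel_left]
    exact mem_ball_zero_iff.1 hz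
  have hW : Helm lam (ball 0 ρ) fun z => ev (oe u) n (P + z) := by
    have a1 := hZ.of_sim P one_ne_zero
    simp only [norm_one, one_pow, mul_one, simP] at a1
    exact a1.mono isOpen_ball fun z hz => by
      rw [mem_preimage, simP]
      exact memb z hz
  have gW : ∀ z, grad (fun z => ev (oe u) n (P + z)) z = grad (ev (oe u) n) (P + z) := by
    intro z
    have a1 := grad_sim (ev (oe u) n) P one_ne_zero z
    simp only [simP, map_one, one_mul] at a1
    exact a1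
  have key := LR2_core hρ hW hl ?_ ?_ ?_ ?_
  · obtain ⟨σ, δ, e, h1, h2, h3, h4, h5, h6, h7, h8⟩ := key
    refine ⟨σ, δ, e, h1, h2, h5, h6, fun x hx => ?_, fun t ht => ?_⟩
    · have hx' : x - n ∈ Ioo 0 δ := ⟨by linarith [hx.1], by linarith [hx.2]⟩
      have a1 := h7 _ hx'
      rw [gW, gZ _ (memb _ (by
        rw [mem_ball_zero_iff, Complex.norm_real, Real.norm_eq_abs, abs_of_pos hx'.1]
        exact hx'.2.trans_le h3)) (by simp [hP])] at a1
      have e1 : (P + ((x - n : ℝ) : ℂ)).re = x := by simp [hP]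
      rw [e1] at a1
      exact a1
    · have a1 := h8 t ht
      rw [evZ] at a1
      · exact a1
      · rw [add_im, im_ofReal_mul]
        have := mul_neg_of_pos_of_neg ht.1 h6
        simp only [hP]
        linarith
  · intro ζ
    have a1 := hS.oe_odd (P + ζ)
    have a2 := hS.oe_odd (fx n (P + ζ))
    have e1 : P + conj ζ = ⟨(P + ζ).re, 2 * Real.pi - (P + ζ).im⟩ := by
      apply Complex.ext
      · simp
      · simp only [hP, add_im, conj_im]
        ring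
    have e2 : fx n (P + conj ζ) = ⟨(fx n (P + ζ)).re, 2 * Real.pi - (fx n (P + ζ)).im⟩ := by
      apply Complex.ext
      · simp [fx]
      · simp only [fx, hP, add_im, conj_im]
        ring
    simp only [ev]
    rw [e2, e1, a1, a2]
    ring
  · intro ζ
    have e1 : P + fx 0 ζ = fx n (P + ζ) := by
      apply Complex.ext
      · simp only [fx, hP, add_re]
        ring
      · simp [fx]
    simp only [ev]
    rw [e1, fx_fx, add_comm]
  · have a1 := gZ P (mem_ball_self hρ) rfl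
    have e1 : 2 * n - P.re = n := by
      simp only [hP]
      ring
    have e2 : P.re = n := rfl
    rw [e1, e2, h.zT] at a1
    rw [gW, add_zero]
    linarith
  · intro hz
    obtain ⟨ε, hε, hb⟩ := Metric.eventually_nhds_iff_ball.1 hz
    have hD' : Dom (fx n ⁻¹' Ω) := by
      rw [fx_eq n 0]
      exact hD.of_rf _ norm_one
    have hE : Helm lam (Ω ∩ fx n ⁻¹' Ω) (ev u n) :=
      (hM.helm.mono (hD.isOpen.inter hD'.isOpen) inter_subset_left).add
        ((hfx hM.helm).mono (hD.isOpen.inter hD'.isOpen) inter_subset_right)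
    have m0 : 0 < min ε ρ := lt_min hε hρ
    have hq : P + ((-(min ε ρ / 2) : ℝ) : ℂ) * I ∈ ball P (min ε ρ) ∩ {z | z.im < Real.pi} := by
      constructor
      · rw [mem_ball_iff_norm, add_sub_cancel_left, norm_mul, norm_I, mul_one, Complex.norm_real,
          Real.norm_eq_abs, abs_neg, abs_of_pos (by linarith)]
        linarith
      · simp only [mem_ofPred_eq, add_im, im_ofReal_mul, I_im, hP]
        linarith
    generalize P + ((-(min ε ρ / 2) : ℝ) : ℂ) * I = q at hq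
    have hqρ : q ∈ ball P ρ := ball_subset_ball (min_le_right _ _) hq.1
    have ho : IsOpen (ball P (min ε ρ) ∩ {z : ℂ | z.im < Real.pi}) :=
      isOpen_ball.inter (isOpen_lt continuous_im continuous_const)
    obtain ⟨z, hz1, hz2, hz3⟩ := hne
    refine hz3 (uc hE hl (hD.convex.inter hD'.convex).isPreconnected (p := q)
      ⟨hin q hqρ hq.2, hin _ (fxb q hqρ) hq.2⟩ ?_ z ⟨hz1, hz2⟩)
    filter_upwards [ho.mem_nhds hq] with x hx
    have a1 := hb (x - P) (by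
      rw [mem_ball_zero_iff, ← mem_ball_iff_norm]
      exact ball_subset_ball (min_le_left _ _) hx.1)
    rw [add_sub_cancel, evZ x (le_of_lt hx.2)] at a1
    exact a1

end Pool.Agent.L2K
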