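import Pool.Agent.P.MP_2f6447_an.K.Geo1
import Pool.Agent.P.MP_2f6447_an.K.Defs2

/-! Boundary layer and cutoff. -/

open Set MeasureTheory Filter Topology Complex Metric
open scoped ContDiff ComplexConjugate

namespace Pool.Agent.L2K

variable {Ω U : Set ℂ} {lam : ℝ} {u w f g : ℂ → ℝ}

theorem Layer_ne (h : Dom Ω) : (Ωᶜ).Nonempty := by
  rw [nonempty_compl]
  rintro rfl
  exact NormedSpace.unbounded_univ ℝ ℂ h.bdd

theorem Layer_le (h : Dom Ω) {y : ℂ} {r : ℝ} (hb : ball y r ⊆ Ω) : r ≤ infDist y Ωᶜ := by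
  rw [le_infDist (Layer_ne h)]
  intro w hw
  by_contra hc
  exact hw (hb (by rw [mem_ball, dist_comm]; exact not_le.1 hc))

theorem Layer_ball (h : Dom Ω) {q x : ℂ} {ρ t : ℝ} (hb : ball q ρ ⊆ Ω) (hx : x ∈ Ω) (h0 : 0 < t)
    (h1 : t ≤ 1) : ball (AffineMap.homothety q (1 - t) x) (t * ρ) ⊆ Ω := by
  intro w hw
  rw [mem_ball, dist_eq_norm] at hw
  set y := AffineMap.homothety q (1 - t) x with hy
  have hy' : y = (1 - t) • (x - q) + q := by
    rw [hy, AffineMap.homothety_apply]; rfl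
  have hm : q + t⁻¹ • (w - y) ∈ Ω := by
    apply hb
    rw [mem_ball, dist_eq_norm, add_sub_cancel_left, norm_smul, Real.norm_of_nonneg (by positivity),
      inv_mul_lt_iff₀ h0]
    exact hw
  have := h.convex hx hm (a := 1 - t) (b := t) (by linarith) h0.le (by ring)
  have e : (1 - t) • x + t • (q + t⁻¹ • (w - y)) = w := by
    rw [smul_add, smul_smul, mul_inv_cancel₀ h0.ne', one_smul, hy']
    module
  rwa [e] at this

theorem Layer_ext {E : Type} [NormedAddCommGroup E] [NormedSpace ℝ E] [FiniteDimensional ℝ E]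
    {X : ℂ → E} (hX : LocallyLipschitz X) (R : ℝ) :
    ∃ (Y : ℂ → E) (K : NNReal), LipschitzWith K Y ∧ ∀ z ∈ ball (0 : ℂ) R, Y =ᶠ[𝓝 z] X := by
  obtain ⟨K, hK⟩ := LocallyLipschitzOn.exists_lipschitzOnWith_of_compact
    (isCompact_closedBall (0 : ℂ) R) hX.locallyLipschitzOn
  obtain ⟨Y, hY, e⟩ := hK.extend_finite_dimension
  refine ⟨Y, _, hY, fun z hz => ?_⟩
  filter_upwards [isOpen_ball.mem_nhds hz] with y hy
  exact (e (ball_subset_closedBall hy)).symm

theorem Layer_ae {E : Type} [NormedAddCommGroup E] [NormedSpace ℝ E] [FiniteDimensional ℝ E]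
    {X : ℂ → E} (hX : LocallyLipschitz X) : ∀ᵐ z, DifferentiableAt ℝ X z := by
  have H : ∀ n : ℕ, ∀ᵐ z, z ∈ ball (0 : ℂ) n → DifferentiableAt ℝ X z := by
    intro n
    obtain ⟨Y, K, hY, e⟩ := Layer_ext hX n
    filter_upwards [hY.ae_differentiableAt (μ := volume)] with z hz hb
    exact (e z hb).differentiableAt_iff.1 hz
  filter_upwards [ae_all_iff.2 H] with z hz
  obtain ⟨n, hn⟩ := exists_nat_gt ‖z‖
  exact hz n (mem_ball_zero_iff.2 hn)

theorem Dom.layer_area (h : Dom Ω) : ∃ C : ℝ, 0 ≤ C ∧ ∀ ε : ℝ, 0 < ε →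
    area {z | z ∈ Ω ∧ infDist z Ωᶜ ≤ ε} ≤ C * ε := by
  obtain ⟨q, hq⟩ := h.ne
  obtain ⟨ρ, hρ, hb⟩ := Metric.isOpen_iff.1 h.isOpen q hq
  have hA := h.area_pos
  refine ⟨4 * area Ω / ρ, by positivity, fun ε hε => ?_⟩
  set L := {z | z ∈ Ω ∧ infDist z Ωᶜ ≤ ε} with hL
  have hLΩ : L ⊆ Ω := fun z hz => hz.1
  have hfin : volume L ≠ ⊤ := ne_top_of_le_ne_top h.volume_ne_top (measure_mono hLΩ)
  set t := 2 * ε / ρ with ht
  have h0 : 0 < t := by positivity
  have htρ : t * ρ = 2 * ε := by rw [ht]; field_simp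
  have e : 4 * area Ω / ρ * ε = 2 * t * area Ω := by rw [ht]; field_simp; ring
  rw [e]
  rcases le_or_gt t 1 with h1 | h1
  · set H := AffineMap.homothety q (1 - t) '' Ω with hH
    have hm : MeasurableSet L :=
      h.isOpen.measurableSet.inter (isClosed_le (continuous_infDist_pt _) continuous_const).measurableSet
    have hd : Disjoint H L := by
      rw [disjoint_left]
      rintro _ ⟨x, hx, rfl⟩ hy
      have := (Layer_le h (Layer_ball h hb hx h0 h1)).trans hy.2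
      linarith
    have hHΩ : H ⊆ Ω := by
      rintro _ ⟨x, hx, rfl⟩
      exact Layer_ball h hb hx h0 h1 (mem_ball_self (by positivity))
    have h2 : volume H + volume L ≤ volume Ω := by
      rw [← measure_union hd hm]
      exact measure_mono (union_subset hHΩ hLΩ)
    have hHf : volume H ≠ ⊤ := ne_top_of_le_ne_top h.volume_ne_top (measure_mono hHΩ)
    have h3 : area H + area L ≤ area Ω := by
      unfold area
      rw [← ENNReal.toReal_add hHf hfin]
      exact ENNReal.toReal_mono h.volume_ne_top h2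
    have h4 : area H = (1 - t) ^ 2 * area Ω := by
      unfold area
      rw [hH, Measure.addHaar_image_homothety, Complex.finrank_real_complex, ENNReal.toReal_mul,
        ENNReal.toReal_ofReal (abs_nonneg _), abs_of_nonneg (sq_nonneg _)]
    nlinarith [mul_nonneg (sq_nonneg t) hA.le]
  · have h3 : area L ≤ area Ω := ENNReal.toReal_mono h.volume_ne_top (measure_mono hLΩ)
    nlinarith

theorem Dom.grad_infDist (h : Dom Ω) (hc : NoCorner Ω) {z : ℂ} (hz : z ∈ Ω) :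
    ∃ p ∈ frontier Ω, ‖p - z‖ = infDist z Ωᶜ ∧ (grad (fun x => infDist x Ωᶜ) z = 0 ∨
      grad (fun x => infDist x Ωᶜ) z = -nu Ω p) := by
  obtain ⟨p, hp, hb, hN⟩ := h.nearest hz
  have hpΩ : p ∈ Ωᶜ := h.notMem_of_frontier hp
  have hr : 0 < ‖p - z‖ := norm_pos_iff.2 (sub_ne_zero.2 fun e => hpΩ (e ▸ hz))
  have hd : ‖p - z‖ = infDist z Ωᶜ := by
    refine le_antisymm (Layer_le h hb) ?_
    rw [← dist_eq_norm, dist_comm]
    exact infDist_le_dist_of_mem hpΩ
  refine ⟨p, hp, hd, ?_⟩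
  by_cases hdf : DifferentiableAt ℝ (fun x => infDist x Ωᶜ) z
  · right
    rw [hc p hp _ _ (h.isN_nu hp) hN]
    set m : ℂ := (p - z) / ‖p - z‖ with hm
    set G := grad (fun x => infDist x Ωᶜ) z with hG
    have h1 : ‖G‖ ≤ 1 := by
      simpa using norm_grad_le (lipschitz_infDist_pt Ωᶜ) z
    have h2 : HasDerivAt (fun s : ℝ => infDist (z + s * m) Ωᶜ) (dot G m) 0 := by
      have := hasDerivAt_line (u := fun x => infDist x Ωᶜ) (p := z) (v := m) (t := 0)
        (by simpa using hdf)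
      simpa using this
    have h3 : dot G m ≤ -1 := by
      refine le_of_tendsto h2.tendsto_slope_zero_right ?_
      filter_upwards [Ioo_mem_nhdsGT hr] with s hs
      have h4 : infDist (z + s * m) Ωᶜ ≤ ‖p - z‖ - s := by
        refine (infDist_le_dist_of_mem hpΩ).trans (le_of_eq ?_)
        have hr' : ((‖p - z‖ : ℝ) : ℂ) ≠ 0 := by exact_mod_cast hr.ne'
        have e : p - (z + s * m) = ((‖p - z‖ - s : ℝ) : ℂ) * m := by
          rw [hm]; push_cast; field_simp; ring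
        rw [dist_comm, dist_eq_norm, e, norm_mul, hN.1, mul_one, Complex.norm_real,
          Real.norm_of_nonneg (by linarith [hs.2])]
      simp only [zero_add, ofReal_zero, zero_mul, add_zero, smul_eq_mul]
      rw [← hd, inv_mul_le_iff₀ hs.1]
      linarith
    have h5 : ‖G + m‖ ^ 2 = ‖G‖ ^ 2 + 2 * dot G m + ‖m‖ ^ 2 := by
      rw [← dot_self, ← dot_self, ← dot_self]
      simp only [dot, add_re, add_im]
      ring
    have h6 : ‖G + m‖ ^ 2 ≤ 0 := by
      rw [h5, hN.1]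
      nlinarith [norm_nonneg G]
    have h7 : G + m = 0 := by
      rw [← norm_eq_zero]
      exact pow_eq_zero_iff (two_ne_zero) |>.1 (le_antisymm h6 (sq_nonneg _))
    exact eq_neg_of_add_eq_zero_left h7
  · left
    apply Complex.ext <;> simp [grad, D, fderiv_zero_of_not_differentiableAt hdf]

theorem Dom.exists_cutoff (h : Dom Ω) (hc : NoCorner Ω) {ε : ℝ} (hε : 0 < ε) :
    ∃ (χ : ℂ → ℝ) (K : NNReal), LipschitzWith K χ ∧ (∀ z, 0 ≤ χ z ∧ χ z ≤ 1) ∧
      (∀ z, z ∉ Ω → χ z = 0) ∧ (∀ z, ε ≤ infDist z Ωᶜ → χ z = 1 ∧ grad χ z = 0) ∧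
      ∀ z ∈ Ω, ∃ p ∈ frontier Ω, ∃ t : ℝ, ‖p - z‖ = infDist z Ωᶜ ∧ |t| ≤ ε⁻¹ ∧
        grad χ z = t * nu Ω p := by
  have hi : 0 < ε⁻¹ := inv_pos.2 hε
  have hL : LipschitzWith (Real.toNNReal ε⁻¹) fun z : ℂ => ε⁻¹ * infDist z Ωᶜ := by
    refine LipschitzWith.of_dist_le' fun x y => ?_
    rw [Real.dist_eq, ← mul_sub, abs_mul, abs_of_pos hi, ← Real.dist_eq]
    have := (lipschitz_infDist_pt Ωᶜ).dist_le_mul x y
    rw [NNReal.coe_one, one_mul] at this
    exact mul_le_mul_of_nonneg_left this hi.le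
  have hone : ∀ z : ℂ, ε ≤ infDist z Ωᶜ → min 1 (ε⁻¹ * infDist z Ωᶜ) = 1 ∧
      grad (fun x : ℂ => min 1 (ε⁻¹ * infDist x Ωᶜ)) z = 0 := by
    intro z hz
    have e : min 1 (ε⁻¹ * infDist z Ωᶜ) = 1 :=
      min_eq_left (by rw [le_inv_mul_iff₀ hε, mul_one]; exact hz)
    refine ⟨e, grad_eq_zero_of_isLocalMax (Eventually.of_forall fun y => ?_)⟩
    show min 1 (ε⁻¹ * infDist y Ωᶜ) ≤ min 1 (ε⁻¹ * infDist z Ωᶜ)
    rw [e]
    exact min_le_left _ _
  refine ⟨fun z => min 1 (ε⁻¹ * infDist z Ωᶜ), _, hL.const_min 1, fun z => ⟨?_, min_le_left _ _⟩,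
    fun z hz => ?_, hone, fun z hz => ?_⟩
  · exact le_min zero_le_one (mul_nonneg hi.le infDist_nonneg)
  · show min 1 (ε⁻¹ * infDist z Ωᶜ) = 0
    rw [infDist_zero_of_mem (show z ∈ Ωᶜ from hz), mul_zero]
    exact min_eq_right zero_le_one
  · obtain ⟨p, hp, hd, hg⟩ := h.grad_infDist hc hz
    rcases le_or_gt ε (infDist z Ωᶜ) with h1 | h1
    · exact ⟨p, hp, 0, hd, by simpa using hε.le, by rw [(hone z h1).2]; simp⟩
    · have e : (fun x : ℂ => min 1 (ε⁻¹ * infDist x Ωᶜ)) =ᶠ[𝓝 z] fun x => ε⁻¹ * infDist x Ωᶜ := by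
        filter_upwards [(continuous_infDist_pt Ωᶜ).continuousAt.eventually_lt continuousAt_const h1]
          with y hy
        exact min_eq_right (by rw [inv_mul_le_iff₀ hε, mul_one]; exact hy.le)
      rw [grad_congr e, grad_const_mul]
      rcases hg with hg | hg
      · exact ⟨p, hp, 0, hd, by simpa using hε.le, by rw [hg]; simp⟩
      · exact ⟨p, hp, -ε⁻¹, hd, by rw [abs_neg, abs_of_pos hi], by rw [hg]; simp⟩

theorem exists_lip_ext (hb : Bornology.IsBounded Ω) {X : ℂ → ℂ} (hX : LocallyLipschitz X) :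
    ∃ (Y : ℂ → ℂ) (K : NNReal), LipschitzWith K Y ∧ ∀ z ∈ closure Ω, Y =ᶠ[𝓝 z] X := by
  obtain ⟨R, hR⟩ := hb.closure.subset_ball (0 : ℂ)
  obtain ⟨Y, K, hY, e⟩ := Layer_ext hX R
  exact ⟨Y, K, hY, fun z hz => e z (hR hz)⟩

theorem locLip_smul {χ : ℂ → ℝ} {X : ℂ → ℂ} (hχ : LocallyLipschitz χ) (hX : LocallyLipschitz X) :
    LocallyLipschitz fun z => (χ z : ℂ) * X z := by
  have hm : ContDiff ℝ 1 fun p : ℝ × ℂ => (p.1 : ℂ) * p.2 :=
    (Complex.ofRealCLM.contDiff.comp contDiff_fst).mul contDiff_snd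
  exact hm.locallyLipschitz.comp (hχ.prodMk hX)

theorem locLip_mul {χ θ : ℂ → ℝ} (hχ : LocallyLipschitz χ) (hθ : LocallyLipschitz θ) :
    LocallyLipschitz fun z => χ z * θ z := by
  have hm : ContDiff ℝ 1 fun p : ℝ × ℝ => p.1 * p.2 := contDiff_fst.mul contDiff_snd
  exact hm.locallyLipschitz.comp (hχ.prodMk hθ)

theorem locLip_kill (b : ℂ) (c : ℝ) : LocallyLipschitz (kill b c) := by
  have hm : ContDiff ℝ 1 (kill b c) := contDiff_const.add (contDiff_const.mul contDiff_id)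
  exact hm.locallyLipschitz

theorem locLip_ae {χ : ℂ → ℝ} (hχ : LocallyLipschitz χ) : ∀ᵐ z, DifferentiableAt ℝ χ z :=
  Layer_ae hχ

theorem locLip_ae' {X : ℂ → ℂ} (hX : LocallyLipschitz X) : ∀ᵐ z, DifferentiableAt ℝ X z :=
  Layer_ae hX

end Pool.Agent.L2K
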