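import Pool.Agent.P.MP_2f6447_an.K.Win
import Pool.Agent.P.MP_2f6447_an.K.Kill3

/-! The lens between the domain and its mirror image. The mirror image `fx n ⁻¹' Ω` has right boundary
`2 n - l y`. -/

open Set MeasureTheory Filter Topology Complex Metric
open scoped ContDiff ComplexConjugate

namespace Pool.Agent.L2K

variable {Ω U : Set ℂ} {lam : ℝ} {u w f g : ℂ → ℝ}
variable {l r : ℝ → ℝ} {nT nB n φ : ℝ}

theorem LensA_win (h : Sy Ω lam u l r n) : ∃ ξ : ℝ, 0 ≤ ξ ∧ (∀ z ∈ Ω, n + ξ < z.re → 0 < u z) ∧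
    (∀ z ∈ Ω, z.re < n - ξ → u z < 0) ∧ ∀ y ∈ Ioo 0 Real.pi, l y < n - ξ ∧ n + ξ < r y := by
  obtain ⟨a, b, h0, h1, h2, h3, h4⟩ := h.toPat.win h.loc
  refine ⟨a, h0, fun z hz hh => h2 z hz (by linarith), fun z hz hh => h3 z hz (by linarith),
    fun y hy => ⟨by linarith [(h4 y hy).1], by linarith [(h4 y hy).2]⟩⟩

theorem LensA_mem (h : Sy Ω lam u l r n) (z : ℂ) :
    z ∈ Ω ↔ (0 < z.im ∧ z.im < Real.pi) ∧ l z.im < z.re ∧ z.re < r z.im := h.toPat.toStr.toGeo.mem z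

theorem LensA_out (h : Sy Ω lam u l r n) {z : ℂ} (hz : z ∈ Ω) (hz' : fx n z ∉ Ω) :
    2 * n - l z.im ≤ z.re ∨ z.re ≤ 2 * n - r z.im := by
  by_contra hc
  push Not at hc
  refine hz' ((LensA_mem h _).2 ⟨((LensA_mem h z).1 hz).1, ?_, ?_⟩)
  · simp only [fx]
    linarith [hc.1]
  · simp only [fx]
    linarith [hc.2]

theorem Sy.lens_pos (h : Sy Ω lam u l r n) {z : ℂ} (hz : z ∈ Ω) (hr : 2 * n - l z.im ≤ z.re) :
    fx n z ∉ Ω ∧ 0 < u z ∧ ev u n z = u z := by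
  obtain ⟨ξ, -, h1, -, h3⟩ := LensA_win h
  have h4 := (h3 z.im ((LensA_mem h z).1 hz).1).1
  have h5 : fx n z ∉ Ω := fun hh => by
    have := ((LensA_mem h _).1 hh).2.1
    simp only [fx] at this
    linarith
  refine ⟨h5, h1 z hz (by linarith), ?_⟩
  rw [ev, h.lip.zero _ h5, add_zero]

theorem Sy.lens_neg (h : Sy Ω lam u l r n) {z : ℂ} (hz : z ∈ Ω) (hr : z.re ≤ 2 * n - r z.im) :
    fx n z ∉ Ω ∧ u z < 0 ∧ ev u n z = u z := by
  obtain ⟨ξ, -, -, h2, h3⟩ := LensA_win h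
  have h4 := (h3 z.im ((LensA_mem h z).1 hz).1).2
  have h5 : fx n z ∉ Ω := fun hh => by
    have := ((LensA_mem h _).1 hh).2.2
    simp only [fx] at this
    linarith
  refine ⟨h5, h2 z hz (by linarith), ?_⟩
  rw [ev, h.lip.zero _ h5, add_zero]

theorem Sy.lens_right (h : Sy Ω lam u l r n) {z : ℂ} (hz : z ∈ Ω) (hz' : fx n z ∉ Ω)
    (hp : 0 < u z) : 2 * n - l z.im ≤ z.re := by
  rcases LensA_out h hz hz' with h1 | h1
  · exact h1
  · exact absurd (h.lens_neg hz h1).2.1 (not_lt.2 hp.le)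

theorem Sy.lens_left (h : Sy Ω lam u l r n) {z : ℂ} (hz : z ∈ Ω) (hz' : fx n z ∉ Ω)
    (hp : u z < 0) : z.re ≤ 2 * n - r z.im := by
  rcases LensA_out h hz hz' with h1 | h1
  · exact absurd (h.lens_pos hz h1).2.1 (not_lt.2 hp.le)
  · exact h1

theorem Sy.lens_low (h : Sy Ω lam u l r n) {b : ℝ}
    (hb : b < Real.pi ∨ r Real.pi ≤ 2 * n - l Real.pi) (c : ℂ) (e : ℝ) {ε : ℝ} (hε : 0 < ε) :
    ∀ᶠ d in 𝓝[>] (0 : ℝ), ∀ S : Set ℂ,
      (∀ z ∈ S, z ∈ Ω ∧ Real.pi / 2 ≤ z.im ∧ z.im ≤ b ∧ 2 * n - l z.im ≤ z.re) →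
        ∫ z in S ∩ {z | |u z| < d}, |k2 lam u (kill c e) z| ≤ ε * d := by
  have hG : Geo Ω l r := h.toPat.toStr.toGeo
  have hM : Mn Ω lam u := h.toPat.toStr.toMn
  have hpi := Real.pi_pos
  set K : Set ℂ := (closure Ω ∩ (fun z : ℂ => z.re + l z.im) ⁻¹' Ici (2 * n)) ∩
    im ⁻¹' Icc (Real.pi / 2) b with hK
  have hc : ContinuousOn (fun z : ℂ => z.re + l z.im) (closure Ω) :=
    continuous_re.continuousOn.add
      (hG.contl.comp continuous_im.continuousOn fun z hz => ((hG.mem_closure z).1 hz).1)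
  have hcl : IsClosed K :=
    (hc.preimage_isClosed_of_isClosed isClosed_closure isClosed_Ici).inter
      (isClosed_Icc.preimage continuous_im)
  have hKΩ : K ⊆ closure Ω := fun z hz => hz.1.1
  have hKc : IsCompact K := hM.bdd.isCompact_closure.of_isClosed_subset hcl hKΩ
  have h0 : ∀ z ∈ K, u z = 0 → Ext Ω z := by
    intro z hz hu
    have h1 : 2 * n ≤ z.re + l z.im := hz.1.2
    have h2 : Real.pi / 2 ≤ z.im := hz.2.1
    have h3 : z.im ≤ b := hz.2.2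
    have h4 : z ∉ Ω := fun hh => (h.lens_pos hh (by linarith)).2.1.ne' hu
    have h5 : z ∈ frontier Ω := by
      rw [hM.isOpen.frontier_eq]
      exact ⟨hz.1.1, h4⟩
    obtain ⟨h6, h7, h8⟩ := (hG.mem_frontier z).1 h5
    refine (hG.ext_iff z).2 ⟨h6, ?_⟩
    rcases h8 with h8 | h8 | h8
    · linarith
    · right
      rcases hb with hb | hb
      · linarith
      · rw [h8] at h1 h7 ⊢
        linarith [h7.2]
    · exact h8
  filter_upwards [hM.lens_small hKc hKΩ h0 c e hε] with d hd S hS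
  refine hd S fun z hz => ?_
  obtain ⟨h1, h2, h3, h4⟩ := hS z hz
  refine ⟨⟨⟨subset_closure h1, ?_⟩, h2, h3⟩, h1⟩
  show 2 * n ≤ z.re + l z.im
  linarith

theorem Sy.lens_alt (h : Sy Ω lam u l r n) (hc : 2 * n - l Real.pi < r Real.pi) {E : Set ℂ}
    (hE : IsOpen E) (fr : ∀ z ∈ frontier E, ev u n z = 0) : ∃ δ₀ : ℝ, 0 < δ₀ ∧
      ((∀ z ∈ Ω, Real.pi - δ₀ < z.im → 2 * n - l z.im ≤ z.re → z ∈ E) ∨
        ∀ z ∈ Ω, Real.pi - δ₀ < z.im → 2 * n - l z.im ≤ z.re → z ∉ E) := by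
  have hG : Geo Ω l r := h.toPat.toStr.toGeo
  have hpi := Real.pi_pos
  obtain ⟨c, hc1, hc2⟩ := exists_between hc
  obtain ⟨ξ, hξ, -, -, hw⟩ := LensA_win h
  have hm : Real.pi ∈ Icc 0 Real.pi := ⟨hpi.le, le_rfl⟩
  have e1 : ∀ᶠ y in 𝓝[Icc 0 Real.pi] Real.pi, 2 * n - c < l y :=
    (hG.contl _ hm).eventually (lt_mem_nhds (by linarith))
  have e2 : ∀ᶠ y in 𝓝[Icc 0 Real.pi] Real.pi, c < r y :=
    (hG.contr _ hm).eventually (lt_mem_nhds hc2)
  obtain ⟨δ, hδ, hd⟩ := Metric.mem_nhdsWithin_iff.1 (e1.and e2)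
  set δ₀ := min δ Real.pi with hδ₀
  have hδ0 : 0 < δ₀ := lt_min hδ hpi
  have hd' : ∀ y, Real.pi - δ₀ < y → y < Real.pi → 0 < y ∧ 2 * n - c < l y ∧ c < r y := by
    intro y h1 h2
    have h3 : δ₀ ≤ δ := min_le_left _ _
    have h4 : δ₀ ≤ Real.pi := min_le_right _ _
    refine ⟨by linarith, hd ⟨?_, by linarith, h2.le⟩⟩
    rw [mem_ball, Real.dist_eq, abs_lt]
    constructor <;> linarith
  set T : Set ℂ := {z | z ∈ Ω ∧ Real.pi - δ₀ < z.im ∧ 2 * n - l z.im ≤ z.re} with hT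
  set V : Set ℂ := re ⁻¹' {c} ∩ im ⁻¹' Ioo (Real.pi - δ₀) Real.pi with hV
  have hVc : Convex ℝ V :=
    ((convex_singleton c).linear_preimage reLm).inter ((convex_Ioo _ _).linear_preimage imLm)
  have hVT : V ⊆ T := by
    intro z hz
    have h1 : z.re = c := hz.1
    obtain ⟨h2, h3, h4⟩ := hd' z.im hz.2.1 hz.2.2
    have h5 := (hw z.im ⟨h2, hz.2.2⟩).1
    exact ⟨(hG.mem z).2 ⟨⟨h2, hz.2.2⟩, by linarith, by linarith⟩, hz.2.1, by linarith⟩
  have hTc : IsPreconnected T := by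
    refine isPreconnected_of_forall (⟨c, Real.pi - δ₀ / 2⟩ : ℂ) fun z hz => ?_
    have hz' := (hG.mem z).1 hz.1
    set H : Set ℂ := (im ⁻¹' {z.im} ∩ re ⁻¹' Ici (2 * n - l z.im)) ∩ Ω with hH
    have hHc : Convex ℝ H :=
      (((convex_singleton _).linear_preimage imLm).inter
        ((convex_Ici _).linear_preimage reLm)).inter hG.dom.convex
    have hq : (⟨c, z.im⟩ : ℂ) ∈ V := ⟨rfl, hz.2.1, hz'.1.2⟩
    refine ⟨H ∪ V, union_subset (fun x hx => ?_) hVT, Or.inr ⟨rfl, ?_, ?_⟩,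
      Or.inl ⟨⟨rfl, hz.2.2⟩, hz.1⟩,
      hHc.isPreconnected.union ⟨c, z.im⟩ ⟨⟨rfl, (hVT hq).2.2⟩, (hVT hq).1⟩ hq hVc.isPreconnected⟩
    · have h1 : x.im = z.im := hx.1.1
      refine ⟨hx.2, ?_, ?_⟩
      · rw [h1]
        exact hz.2.1
      · rw [h1]
        exact hx.1.2
    · show Real.pi - δ₀ < Real.pi - δ₀ / 2
      linarith
    · show Real.pi - δ₀ / 2 < Real.pi
      linarith
  have hsub : T ⊆ E ∪ (closure E)ᶜ := by
    intro z hz
    by_contra hh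
    rw [mem_union, not_or, mem_compl_iff, not_not] at hh
    have h1 : z ∈ frontier E := by
      rw [hE.frontier_eq]
      exact ⟨hh.2, hh.1⟩
    obtain ⟨-, h2, h3⟩ := h.lens_pos hz.1 hz.2.2
    have h4 := fr z h1
    linarith
  refine ⟨δ₀, hδ0, ?_⟩
  rcases hTc.subset_or_subset hE isClosed_closure.isOpen_compl
    (disjoint_compl_right.mono_left subset_closure) hsub with h1 | h1
  · exact Or.inl fun z a b c => h1 ⟨a, b, c⟩
  · exact Or.inr fun z a b c hz => h1 ⟨a, b, c⟩ (subset_closure hz)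

end Pool.Agent.L2K
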