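import Pool.Agent.P.MP_2f6447_an.K.LensA

/-! The lens term at the top segment. -/

open Set MeasureTheory Filter Topology Complex Metric
open scoped ContDiff ComplexConjugate

namespace Pool.Agent.L2K

variable {Ω U : Set ℂ} {lam : ℝ} {u w f g : ℂ → ℝ}
variable {l r : ℝ → ℝ} {nT nB n φ : ℝ}

theorem LensB_box_meas (a b c d : ℝ) :
    MeasurableSet {z : ℂ | z.re ∈ Icc a b ∧ z.im ∈ Icc c d} :=
  (measurable_re measurableSet_Icc).inter (measurable_im measurableSet_Icc)

theorem LensB_box (a b c d : ℝ) :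
    volume {z : ℂ | z.re ∈ Icc a b ∧ z.im ∈ Icc c d} =
      ENNReal.ofReal (b - a) * ENNReal.ofReal (d - c) := by
  have e : {z : ℂ | z.re ∈ Icc a b ∧ z.im ∈ Icc c d} =
      Complex.measurableEquivRealProd ⁻¹' (Icc a b ×ˢ Icc c d) := by
    ext z
    simp only [mem_ofPred_eq, mem_preimage, Complex.measurableEquivRealProd_apply, mem_prod]
  rw [e, Complex.volume_preserving_equiv_real_prod.measure_preimage
    (measurableSet_Icc.prod measurableSet_Icc).nullMeasurableSet, Measure.volume_eq_prod,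
    Measure.prod_prod, Real.volume_Icc, Real.volume_Icc]

theorem LensB_int {T : Set ℂ} (hT : MeasurableSet T) (hv : volume T ≠ ⊤) {F : ℂ → ℝ}
    (hF : Measurable F) {C : ℝ} (hC : ∀ z ∈ T, |F z| ≤ C) : IntegrableOn F T :=
  Measure.integrableOn_of_bounded hv hF.aestronglyMeasurable
    ((ae_restrict_iff' hT).2 (Eventually.of_forall hC))

theorem LensB_cmp {S S₁ B A : Set ℂ} (hΩ : MeasurableSet Ω) (hS : MeasurableSet S)
    (hS₁ : MeasurableSet S₁) (hB : MeasurableSet B) (hA : MeasurableSet A) {k θ : ℂ → ℝ}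
    (hk : Measurable k) (hθ : Measurable θ) {C : ℝ} (hC0 : 0 ≤ C) (hC : ∀ z ∈ Ω, |k z| ≤ C)
    (hθ0 : ∀ z, 0 ≤ θ z) (hθ1 : ∀ z, θ z ≤ 1) (hv : volume Ω ≠ ⊤) (hvB : volume B ≠ ⊤)
    (s : S ⊆ Ω) (s₁ : S₁ ⊆ Ω)
    (hpt : ∀ z ∈ Ω, z ∈ A → (z ∈ S ∧ θ z = 1) ∨ (z ∉ S ∧ θ z = 0) ∨ z ∈ S₁ ∨ z ∈ B) :
    (∫ z in Ω ∩ A, θ z * k z) - (∫ z in S₁ ∩ A, |k z|) - C * (volume B).toReal ≤
      ∫ z in S ∩ A, k z := by
  have hT : MeasurableSet (Ω ∩ A) := hΩ.inter hA
  have hvT : volume (Ω ∩ A) ≠ ⊤ := ((measure_mono inter_subset_left).trans_lt hv.lt_top).ne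
  have e1 : ∫ z in S ∩ A, k z = ∫ z in Ω ∩ A, S.indicator k z := by
    rw [setIntegral_indicator hS]
    have : Ω ∩ A ∩ S = S ∩ A := by
      ext z
      exact ⟨fun hz => ⟨hz.2, hz.1.2⟩, fun hz => ⟨⟨s hz.1, hz.2⟩, hz.1⟩⟩
    rw [this]
  have e2 : ∫ z in S₁ ∩ A, |k z| = ∫ z in Ω ∩ A, S₁.indicator (fun z => |k z|) z := by
    rw [setIntegral_indicator hS₁]
    have : Ω ∩ A ∩ S₁ = S₁ ∩ A := by
      ext z
      exact ⟨fun hz => ⟨hz.2, hz.1.2⟩, fun hz => ⟨⟨s₁ hz.1, hz.2⟩, hz.1⟩⟩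
    rw [this]
  have e3 : ∫ z in Ω ∩ A, B.indicator (fun _ => C) z ≤ C * (volume B).toReal := by
    rw [setIntegral_indicator hB, setIntegral_const, smul_eq_mul, mul_comm]
    exact mul_le_mul_of_nonneg_left
      (ENNReal.toReal_mono hvB (measure_mono inter_subset_right)) hC0
  have ik : IntegrableOn k (Ω ∩ A) := LensB_int hT hvT hk fun z hz => hC z hz.1
  have i1 : IntegrableOn (S.indicator k) (Ω ∩ A) := ik.indicator hS
  have i2 : IntegrableOn (S₁.indicator fun z => |k z|) (Ω ∩ A) :=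
    IntegrableOn.indicator (Integrable.abs ik) hS₁
  have i3 : IntegrableOn (B.indicator fun _ => C) (Ω ∩ A) :=
    IntegrableOn.indicator (LensB_int hT hvT measurable_const fun _ _ => le_rfl) hB
  have i4 : IntegrableOn (fun z => θ z * k z) (Ω ∩ A) :=
    LensB_int hT hvT (hθ.mul hk) (C := C) fun z hz => by
      rw [abs_mul, abs_of_nonneg (hθ0 z)]
      exact (mul_le_of_le_one_left (abs_nonneg _) (hθ1 z)).trans (hC z hz.1)
  have key : ∫ z in Ω ∩ A, θ z * k z ≤ ∫ z in Ω ∩ A, (S.indicator k z +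
      S₁.indicator (fun z => |k z|) z + B.indicator (fun _ => C) z) := by
    refine setIntegral_mono_on i4 ((i1.add i2).add i3) hT fun z hz => ?_
    have p2 : 0 ≤ S₁.indicator (fun z => |k z|) z :=
      indicator_nonneg (fun z _ => abs_nonneg (k z)) z
    have p3 : 0 ≤ B.indicator (fun _ => C) z := indicator_nonneg (fun _ _ => hC0) z
    have q : θ z * k z - S.indicator k z ≤ |k z| := by
      have a0 := hθ0 z
      have a1 := hθ1 z
      have b1 := le_abs_self (k z)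
      have b2 := neg_abs_le (k z)
      by_cases hzS : z ∈ S
      · rw [indicator_of_mem hzS]
        nlinarith
      · rw [indicator_of_notMem hzS]
        nlinarith
    rcases hpt z hz.1 hz.2 with ⟨h1, h2⟩ | ⟨h1, h2⟩ | h1 | h1
    · rw [indicator_of_mem h1, h2]
      linarith
    · rw [indicator_of_notMem h1, h2]
      linarith
    · rw [indicator_of_mem h1]
      linarith
    · rw [indicator_of_mem h1]
      have := hC z hz.1
      linarith
  have i5 : IntegrableOn (fun z => S.indicator k z + S₁.indicator (fun z => |k z|) z) (Ω ∩ A) :=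
    i1.add i2
  rw [integral_add i5 i3, integral_add i1 i2] at key
  rw [e1, e2]
  linarith

theorem LensB_ramp_lip {a b : ℝ} (hab : a < b) : LocallyLipschitz (ramp a b) := by
  have hp : 0 ≤ (b - a)⁻¹ := inv_nonneg.2 (sub_pos.2 hab).le
  have : LipschitzWith ⟨(b - a)⁻¹, hp⟩ (ramp a b) :=
    LipschitzWith.of_dist_le_mul fun s t => Shear_ramp_lip hab s t
  exact this.locallyLipschitz

theorem LensB_tail {F : ℝ → ℝ} {a b c δ M : ℝ} (hF : ContinuousOn F (Icc a b)) (hac : a ≤ c)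
    (hδ : 0 < δ) (hcb : c + δ ≤ b) (hM : ∀ x ∈ Icc a b, ‖F x‖ ≤ M)
    (ht : 0 ≤ ∫ x in c + δ..b, F x) : -(M * δ) ≤ ∫ x in a..b, F x * ramp c (c + δ) x := by
  have hc : c < c + δ := by linarith
  have hG : ContinuousOn (fun x => F x * ramp c (c + δ) x) (Icc a b) :=
    hF.mul (LensB_ramp_lip hc).continuous.continuousOn
  have i1 : IntervalIntegrable (fun x => F x * ramp c (c + δ) x) volume a c :=
    (hG.mono (Icc_subset_Icc le_rfl (by linarith))).intervalIntegrable_of_Icc hac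
  have i2 : IntervalIntegrable (fun x => F x * ramp c (c + δ) x) volume c (c + δ) :=
    (hG.mono (Icc_subset_Icc hac hcb)).intervalIntegrable_of_Icc hc.le
  have i3 : IntervalIntegrable (fun x => F x * ramp c (c + δ) x) volume (c + δ) b :=
    (hG.mono (Icc_subset_Icc (by linarith) le_rfl)).intervalIntegrable_of_Icc hcb
  have e1 : ∫ x in a..c, F x * ramp c (c + δ) x = 0 := by
    rw [intervalIntegral.integral_congr (g := fun _ => (0 : ℝ)), intervalIntegral.integral_zero]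
    intro x hx
    rw [uIcc_of_le hac] at hx
    simp only [Seg_ramp_zero hc hx.2, mul_zero]
  have e3 : ∫ x in c + δ..b, F x * ramp c (c + δ) x = ∫ x in c + δ..b, F x := by
    refine intervalIntegral.integral_congr fun x hx => ?_
    rw [uIcc_of_le hcb] at hx
    simp only [Seg_ramp_one hc hx.1, mul_one]
  have e2 : ‖∫ x in c..c + δ, F x * ramp c (c + δ) x‖ ≤ M * |c + δ - c| := by
    refine intervalIntegral.norm_integral_le_of_norm_le_const fun x hx => ?_
    rw [uIoc_of_le hc.le] at hx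
    rw [norm_mul, Real.norm_of_nonneg (Shear_ramp_nonneg _ _ _)]
    exact (mul_le_of_le_one_right (norm_nonneg _) (Shear_ramp_le_one _ _ _)).trans
      (hM x ⟨hac.trans hx.1.le, hx.2.trans hcb⟩)
  rw [add_sub_cancel_left, abs_of_pos hδ, Real.norm_eq_abs, abs_le] at e2
  rw [← intervalIntegral.integral_add_adjacent_intervals (i1.trans i2) i3,
    ← intervalIntegral.integral_add_adjacent_intervals i1 i2, e1, e3]
  linarith [e2.1]

theorem LensB_kill_im (n x y : ℝ) : (kill (I * mid n n) (-1) ⟨x, y⟩).im = -(x - n) := by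
  simp [kill, mid]
  ring

theorem LensB_ball {c ρ : ℝ} {z : ℂ} (h1 : |z.re - c| < ρ / 2) (h2 : |z.im - Real.pi| < ρ / 2) :
    z ∈ ball (⟨c, Real.pi⟩ : ℂ) ρ := by
  rw [mem_ball, dist_eq_norm]
  refine (Complex.norm_le_abs_re_add_abs_im _).trans_lt ?_
  simp only [sub_re, sub_im]
  linarith

theorem Sy.lens_top (h : Sy Ω lam u l r n) (hc : 2 * n - l Real.pi < r Real.pi) {S : Set ℂ}
    (hS : MeasurableSet S) (hsub : ∀ z ∈ S, z ∈ Ω ∧ Real.pi / 2 ≤ z.im ∧ 2 * n - l z.im ≤ z.re)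
    {δ₀ : ℝ} (hδ : 0 < δ₀)
    (hall : ∀ z ∈ Ω, Real.pi - δ₀ < z.im → 2 * n - l z.im ≤ z.re → z ∈ S) {ε : ℝ} (hε : 0 < ε) :
    ∀ᶠ d in 𝓝[>] (0 : ℝ),
      -(ε * d) ≤ ∫ z in S ∩ {z | |u z| < d}, k2 lam u (kill (I * mid n n) (-1)) z := by
  have hP : Pat Ω lam u l r n n := h.toPat
  have hStr : Str Ω lam u l r := hP.toStr
  have hM : Mn Ω lam u := hStr.toMn
  have hG : Geo Ω l r := hStr.toGeo
  have hD : Dom Ω := hG.dom
  have hu : Continuous u := hM.lip.continuous
  have hπ := Real.pi_pos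
  obtain ⟨c, hc0⟩ : ∃ c, c = 2 * n - l Real.pi := ⟨_, rfl⟩
  have hn := hP.memT
  have hnc : n < c := by
    have := hn.1
    linarith
  have hcr : c < r Real.pi := by linarith
  have hg : 0 < gT Ω u c := hP.gT_pos ⟨hnc, hcr.le⟩
  obtain ⟨γ, hγ0, hγ⟩ : ∃ γ : ℝ, 0 < γ ∧ γ < gT Ω u c := ⟨gT Ω u c / 2, by linarith, by linarith⟩
  obtain ⟨ρ, hρ, hball⟩ := hStr.slope_lower ⟨hn.1.trans hnc, hcr⟩ hγ
  obtain ⟨C, hC0, hC⟩ := hM.k2_bound (I * mid n n) (-1)
  have hF : ContinuousOn (fun x => (gT Ω u x ^ 2 - 1) * (x - n)) (Icc (l Real.pi) (r Real.pi)) :=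
    ((hStr.continuousOn_gT.pow 2).sub continuousOn_const).mul
      (continuousOn_id.sub continuousOn_const)
  obtain ⟨M, hMb⟩ := isCompact_Icc.exists_bound_of_continuousOn hF
  have hM0 : 0 ≤ M := (norm_nonneg _).trans (hMb n ⟨hn.1.le, hn.2.le⟩)
  obtain ⟨δ, hδ0, hδ1, hδ2, hδ3⟩ : ∃ δ : ℝ, 0 < δ ∧ δ ≤ ρ / 2 ∧ c + δ ≤ r Real.pi ∧
      δ * (M / 2 + 2 * C / γ + 1) ≤ ε / 3 := by
    have hq : 0 < M / 2 + 2 * C / γ + 1 := by positivity
    refine ⟨min (ρ / 2) (min (r Real.pi - c) (ε / 3 / (M / 2 + 2 * C / γ + 1))), ?_,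
      min_le_left _ _, ?_, ?_⟩
    · exact lt_min (by linarith) (lt_min (by linarith) (by positivity))
    · have := (min_le_right (ρ / 2) _).trans
        (min_le_left (r Real.pi - c) (ε / 3 / (M / 2 + 2 * C / γ + 1)))
      linarith
    · exact (le_div_iff₀ hq).1 ((min_le_right _ _).trans (min_le_right _ _))
  obtain ⟨η, hη0, hη1, hη2, hη3, hη4⟩ : ∃ η : ℝ, 0 < η ∧ η ≤ δ₀ ∧ η ≤ ρ / 2 ∧ η ≤ Real.pi ∧
      ∀ y, Real.pi - η < y → y < Real.pi → |l y - l Real.pi| < δ := by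
    obtain ⟨t, ht, h1⟩ := Metric.continuousWithinAt_iff.1 (hG.contl Real.pi GeoS_pi) δ hδ0
    refine ⟨min (min δ₀ (ρ / 2)) (min Real.pi t), ?_, (min_le_left _ _).trans (min_le_left _ _),
      (min_le_left _ _).trans (min_le_right _ _), (min_le_right _ _).trans (min_le_left _ _),
      fun y y1 y2 => ?_⟩
    · exact lt_min (lt_min hδ (by linarith)) (lt_min hπ ht)
    · have a1 := (min_le_right (min δ₀ (ρ / 2)) _).trans (min_le_left Real.pi t)
      have a2 := (min_le_right (min δ₀ (ρ / 2)) _).trans (min_le_right Real.pi t)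
      refine h1 (x := y) ⟨by linarith, y2.le⟩ ?_
      rw [Real.dist_eq, abs_lt]
      constructor <;> linarith
  have hcc : c < c + δ := by linarith
  have hyy : Real.pi - η < Real.pi - η / 2 := by linarith
  obtain ⟨θ, hθ⟩ : ∃ θ : ℂ → ℝ,
      θ = fun z => ramp c (c + δ) z.re * ramp (Real.pi - η) (Real.pi - η / 2) z.im := ⟨_, rfl⟩
  have hθL : LocallyLipschitz θ := by
    rw [hθ]
    exact locLip_mul ((LensB_ramp_lip hcc).comp Complex.reCLM.lipschitz.locallyLipschitz)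
      ((LensB_ramp_lip hyy).comp Complex.imCLM.lipschitz.locallyLipschitz)
  have hθ0 : ∀ z, 0 ≤ θ z := fun z => by
    rw [hθ]
    exact mul_nonneg (Shear_ramp_nonneg _ _ _) (Shear_ramp_nonneg _ _ _)
  have hθ1 : ∀ z, θ z ≤ 1 := fun z => by
    rw [hθ]
    exact mul_le_one₀ (Shear_ramp_le_one _ _ _) (Shear_ramp_nonneg _ _ _)
      (Shear_ramp_le_one _ _ _)
  have hθne : ∀ z, θ z ≠ 0 → c < z.re ∧ Real.pi - η < z.im := fun z hz => by
    rw [hθ] at hz
    constructor
    · by_contra hh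
      exact hz (by simp only [Seg_ramp_zero hcc (not_lt.1 hh), zero_mul])
    · by_contra hh
      exact hz (by simp only [Seg_ramp_zero hyy (not_lt.1 hh), mul_zero])
  have hbox : ∀ z ∈ Ω, |z.re - c| < δ → Real.pi - η < z.im → γ * (Real.pi - z.im) < u z := by
    intro z hz h1 h2
    have h3 := ((hG.mem z).1 hz).1.2
    refine (hball z (LensB_ball (h1.trans_le hδ1) ?_) h3).2
    rw [abs_lt]
    constructor <;> linarith
  have hout : ∀ z ∈ Ω, θ z ≠ 0 → ¬ 2 * n - l z.im ≤ z.re → |z.re - c| < δ := by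
    intro z hz h1 h2
    obtain ⟨a1, a2⟩ := hθne z h1
    have a3 := abs_lt.1 (hη4 z.im a2 ((hG.mem z).1 hz).1.2)
    rw [abs_lt]
    constructor <;> linarith [not_le.1 h2, a3.1, a3.2]
  have hs : ∀ z ∈ Ω, θ z ≠ 0 → 0 < u z := by
    intro z hz h1
    by_cases h2 : 2 * n - l z.im ≤ z.re
    · exact (h.lens_pos hz h2).2.1
    · have h3 := ((hG.mem z).1 hz).1.2
      exact (mul_pos hγ0 (sub_pos.2 h3)).trans (hbox z hz (hout z hz h1 h2) (hθne z h1).2)
  have hlim := hStr.layer_lim hθL hθ0 hs (I * mid n n) (-1)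
  have eB : ∫ x in l 0..r 0, (gB Ω u x ^ 2 - 1) *
      (θ ⟨x, 0⟩ * (kill (I * mid n n) (-1) ⟨x, 0⟩).im) = 0 := by
    rw [intervalIntegral.integral_congr (g := fun _ => (0 : ℝ)), intervalIntegral.integral_zero]
    intro x _
    have : θ ⟨x, 0⟩ = 0 := by
      by_contra hh
      have := (hθne _ hh).2
      simp only at this
      linarith
    simp only [this, zero_mul, mul_zero]
  have eT : ∫ x in l Real.pi..r Real.pi, (gT Ω u x ^ 2 - 1) *
      (θ ⟨x, Real.pi⟩ * (kill (I * mid n n) (-1) ⟨x, Real.pi⟩).im) =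
      -∫ x in l Real.pi..r Real.pi, (gT Ω u x ^ 2 - 1) * (x - n) * ramp c (c + δ) x := by
    rw [← intervalIntegral.integral_neg]
    refine intervalIntegral.integral_congr fun x _ => ?_
    have e : θ ⟨x, Real.pi⟩ = ramp c (c + δ) x := by
      rw [hθ]
      simp only [Seg_ramp_one hyy (show Real.pi - η / 2 ≤ Real.pi by linarith), mul_one]
    simp only [e, LensB_kill_im]
    ring
  have ht := LensB_tail hF (hn.1.trans hnc).le hδ0 hδ2 hMb (hP.tailT ⟨by linarith, hδ2⟩)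
  rw [eB, eT] at hlim
  have hev := hlim.eventually (lt_mem_nhds (show -(M * δ / 2) - ε / 3 < _ by linarith))
  have hlow := h.lens_low (b := Real.pi - η / 2) (Or.inl (by linarith)) (I * mid n n) (-1)
    (show 0 < ε / 3 by linarith)
  filter_upwards [hev, hlow, self_mem_nhdsWithin] with d h1 h2 hd
  have hd0 : 0 < d := hd
  have h3 := h2 (S ∩ im ⁻¹' Iic (Real.pi - η / 2)) fun z hz =>
    ⟨(hsub z hz.1).1, (hsub z hz.1).2.1, hz.2, (hsub z hz.1).2.2⟩
  have hA : MeasurableSet {z | |u z| < d} := (isOpen_lt hu.abs continuous_const).measurableSet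
  have hvB := LensB_box (c - δ) (c + δ) (Real.pi - d / γ) Real.pi
  have hin : ∀ z ∈ Ω, |u z| < d → |z.re - c| < δ → Real.pi - η < z.im →
      z ∈ {z : ℂ | z.re ∈ Icc (c - δ) (c + δ) ∧ z.im ∈ Icc (Real.pi - d / γ) Real.pi} := by
    intro z hz a1 a2 a3
    have a4 := hbox z hz a2 a3
    have a5 := abs_lt.1 a2
    have a6 : Real.pi - z.im < d / γ := by
      rw [lt_div_iff₀ hγ0, mul_comm]
      exact a4.trans ((le_abs_self _).trans_lt a1)
    exact ⟨⟨by linarith [a5.1], by linarith [a5.2]⟩, by linarith, ((hG.mem z).1 hz).1.2.le⟩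
  have h4 := LensB_cmp hD.isOpen.measurableSet hS
    (hS.inter (measurable_im (measurableSet_Iic (a := Real.pi - η / 2))))
    (LensB_box_meas (c - δ) (c + δ) (Real.pi - d / γ) Real.pi) hA
    (measurable_k2 hu (I * mid n n) (-1)) hθL.continuous.measurable hC0 hC hθ0 hθ1
    hD.volume_ne_top (hvB.trans_ne (ENNReal.mul_ne_top ENNReal.ofReal_ne_top
      ENNReal.ofReal_ne_top)) (fun z hz => (hsub z hz).1) (fun z hz => (hsub z hz.1).1) (by
      intro z hz hzA
      by_cases hzS : z ∈ S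
      · by_cases a1 : z.im ≤ Real.pi - η / 2
        · exact Or.inr (Or.inr (Or.inl ⟨hzS, a1⟩))
        · by_cases a2 : c + δ ≤ z.re
          · refine Or.inl ⟨hzS, ?_⟩
            rw [hθ]
            simp only [Seg_ramp_one hcc a2, Seg_ramp_one hyy (not_le.1 a1).le, mul_one]
          · have a3 : Real.pi - η < z.im := hyy.trans (not_le.1 a1)
            refine Or.inr (Or.inr (Or.inr (hin z hz hzA ?_ a3)))
            have a4 := abs_lt.1 (hη4 z.im a3 ((hG.mem z).1 hz).1.2)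
            have a5 := (hsub z hzS).2.2
            rw [abs_lt]
            constructor <;> linarith [not_le.1 a2, a4.1, a4.2]
      · by_cases a1 : θ z = 0
        · exact Or.inr (Or.inl ⟨hzS, a1⟩)
        · have a2 := (hθne z a1).2
          exact Or.inr (Or.inr (Or.inr (hin z hz hzA
            (hout z hz a1 fun a3 => hzS (hall z hz (by linarith) a3)) a2))))
  have hdγ : 0 ≤ d / γ := by positivity
  rw [hvB, ENNReal.toReal_mul, ENNReal.toReal_ofReal (by linarith),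
    ENNReal.toReal_ofReal (by linarith)] at h4
  rw [inv_mul_eq_div, lt_div_iff₀ hd0] at h1
  have e5 : C * ((c + δ - (c - δ)) * (Real.pi - (Real.pi - d / γ))) = δ * (2 * C / γ) * d := by
    ring
  have e6 := mul_le_mul_of_nonneg_right hδ3 hd0.le
  have e7 : 0 ≤ δ * d := by positivity
  rw [e5] at h4
  linarith

end Pool.Agent.L2K
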