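import Pool.Agent.P.MP_2f6447_an.K.Polar
import Pool.Agent.P.MP_2f6447_an.K.Bessel

/-! Mean value property, gradient estimate, strong maximum principle. -/

open Set MeasureTheory Filter Topology Complex Metric
open scoped ContDiff ComplexConjugate

namespace Pool.Agent.L2K

variable {Ω U : Set ℂ} {lam : ℝ} {u w f g : ℂ → ℝ}

theorem Mean_norm {r : ℝ} (hr : 0 ≤ r) (θ : ℝ) : ‖(r : ℂ) * exp (θ * I)‖ = r := by
  rw [norm_mul, norm_exp_ofReal_mul_I, mul_one, Complex.norm_real, Real.norm_of_nonneg hr]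

theorem Mean_mem (p : ℂ) {r R : ℝ} (hr : r ∈ Icc 0 R) (θ : ℝ) :
    p + r * exp (θ * I) ∈ closedBall p R := by
  rw [mem_closedBall, dist_eq_norm, add_sub_cancel_left, Mean_norm hr.1]
  exact hr.2

theorem Mean_cont {p : ℂ} {R r : ℝ} (hw : ContinuousOn w (closedBall p R)) (hr : r ∈ Icc 0 R) :
    Continuous fun θ : ℝ => w (p + r * exp (θ * I)) :=
  hw.comp_continuous (by fun_prop) fun θ => Mean_mem p hr θ

theorem Mean_per (F : ℂ → ℝ) (p : ℂ) (r : ℝ) :
    ∫ θ in (-Real.pi)..Real.pi, F (p + r * exp (θ * I)) =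
      ∫ θ in (0 : ℝ)..2 * Real.pi, F (p + r * exp (θ * I)) := by
  have hp : Function.Periodic (fun θ : ℝ => F (p + r * exp (θ * I))) (2 * Real.pi) := by
    intro θ
    have : exp (((θ + 2 * Real.pi : ℝ) : ℂ) * I) = exp (θ * I) := by
      push_cast
      rw [add_mul, exp_add, exp_two_pi_mul_I, mul_one]
    simp only [this]
  have := hp.intervalIntegral_add_eq (-Real.pi) 0
  rw [zero_add, show -Real.pi + 2 * Real.pi = Real.pi by ring] at this
  exact this

theorem Mean_small {R A ε : ℝ} (hR : 0 < R) (hε : 0 < ε) {P : ℂ → Prop}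
    (hP : ∀ᶠ z in 𝓝 (0 : ℂ), P z) :
    ∃ r ∈ Ioc 0 R, A * r ^ 2 ≤ ε ∧ ∀ θ : ℝ, P (r * exp (θ * I)) := by
  obtain ⟨δ, hδ, hP⟩ := Metric.eventually_nhds_iff.1 hP
  have h1 : ∀ᶠ r : ℝ in 𝓝 0, A * r ^ 2 < ε := by
    have hc : Continuous fun r : ℝ => A * r ^ 2 := by fun_prop
    exact hc.continuousAt.eventually_lt continuousAt_const (by simpa using hε)
  have h2 : ∀ᶠ r : ℝ in 𝓝 0, r < R := eventually_lt_nhds hR
  have h3 : ∀ᶠ r : ℝ in 𝓝 0, r < δ := eventually_lt_nhds hδ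
  have h4 : ∀ᶠ r : ℝ in 𝓝[>] 0, 0 < r := self_mem_nhdsWithin
  obtain ⟨r, ⟨⟨a1, a2⟩, a3⟩, a4⟩ :=
    ((((h1.and h2).and h3).filter_mono nhdsWithin_le_nhds).and h4).exists
  refine ⟨r, ⟨a4, a2.le⟩, a1.le, fun θ => hP ?_⟩
  rw [dist_zero_right, Mean_norm a4.le]
  exact a3

theorem Mean_eq {c d K : ℝ} (h : ∀ ε, 0 < ε → |c - d| ≤ ε * K) : c = d := by
  have h0 : |c - d| ≤ 0 := by
    have hc : Continuous fun ε : ℝ => ε * K := by fun_prop
    have ht : Tendsto (fun ε : ℝ => ε * K) (𝓝[>] 0) (𝓝 0) := by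
      have := (hc.tendsto 0).mono_left (nhdsWithin_le_nhds (s := Ioi 0))
      simpa using this
    exact ge_of_tendsto ht (eventually_nhdsWithin_of_forall fun ε hε => h ε hε)
  exact sub_eq_zero.1 (abs_nonpos_iff.1 h0)

theorem Mean_le {R r : ℝ} (hl : 0 ≤ lam) (hlR : lam * R ^ 2 ≤ 1) (hr : r ∈ Icc 0 R) :
    lam * r ^ 2 ≤ 1 :=
  (mul_le_mul_of_nonneg_left (pow_le_pow_left₀ hr.1 hr.2 2) hl).trans hlR

theorem cf_eq (h : Helm lam U w) (hl : 0 ≤ lam) {p : ℂ} {R : ℝ} (hR : closedBall p R ⊆ U)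
    (hlR : lam * R ^ 2 ≤ 1) (k : ℕ) (α : ℝ) : ∃ c, ∀ r ∈ Ioc 0 R, cf w p k α r = c * J k lam r := by
  obtain ⟨f1, f2, hf, hb⟩ := cf_ode h hR k α
  exact J_unique k hl hlR hf hb

theorem circle_mean (h : Helm lam U w) (hl : 0 ≤ lam) {p : ℂ} {R : ℝ} (hR : closedBall p R ⊆ U)
    (hlR : lam * R ^ 2 ≤ 1) {r : ℝ} (hr : r ∈ Icc 0 R) :
    ∫ θ in (0 : ℝ)..2 * Real.pi, w (p + r * exp (θ * I)) = 2 * Real.pi * J 0 lam r * w p := by
  rcases hr.1.eq_or_lt with h0 | h0
  · subst h0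
    have hJ : J 0 lam 0 = 1 := by
      have := J_bound (lam := lam) 0 hl (le_refl (0 : ℝ)) (by simp)
      simpa [sub_eq_zero] using this
    simp [hJ]
  have hR0 : 0 < R := h0.trans_le hr.2
  have hp : p ∈ U := hR (mem_closedBall_self hR0.le)
  have hwc : ContinuousOn w (closedBall p R) := h.continuousOn.mono hR
  obtain ⟨c, hc⟩ := cf_eq h hl hR hlR 0 0
  have hc' : ∀ s ∈ Ioc 0 R,
      ∫ θ in (0 : ℝ)..2 * Real.pi, w (p + s * exp (θ * I)) = c * J 0 lam s := by
    intro s hs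
    rw [← hc s hs]
    simp [cf]
  have hcd : c = 2 * Real.pi * w p := by
    refine Mean_eq (K := 2 * Real.pi + 1) fun ε hε => ?_
    have hca : ContinuousAt (fun z : ℂ => w (p + z)) 0 := by
      refine ContinuousAt.comp (f := fun z : ℂ => p + z) ?_ (by fun_prop)
      simpa using (h.differentiableAt hp).continuousAt
    have hev : ∀ᶠ z in 𝓝 (0 : ℂ), |w (p + z) - w p| ≤ ε := by
      have := Metric.tendsto_nhds.1 hca ε hε
      filter_upwards [this] with z hz
      rw [Real.dist_eq, add_zero] at hz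
      exact hz.le
    obtain ⟨s, hs, h1, h2⟩ := Mean_small (A := |c| * lam / 2) hR0 hε hev
    have hs' : s ∈ Icc 0 R := ⟨hs.1.le, hs.2⟩
    have hJ := J_bound (lam := lam) 0 hl hs.1.le (Mean_le hl hlR hs')
    rw [pow_zero, mul_one] at hJ
    have hI : ‖∫ θ in (0 : ℝ)..2 * Real.pi, (w (p + s * exp (θ * I)) - w p)‖ ≤
        ε * |2 * Real.pi - 0| :=
      intervalIntegral.norm_integral_le_of_norm_le_const fun θ _ => h2 θ
    rw [intervalIntegral.integral_sub ((Mean_cont hwc hs').intervalIntegrable _ _)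
      intervalIntegrable_const, hc' s hs, intervalIntegral.integral_const, sub_zero,
      abs_of_pos Real.two_pi_pos, smul_eq_mul, Real.norm_eq_abs] at hI
    have e : c - 2 * Real.pi * w p =
        (c * J 0 lam s - 2 * Real.pi * w p) - c * (J 0 lam s - 1) := by ring
    have h3 : |c * (J 0 lam s - 1)| ≤ ε := by
      rw [abs_mul]
      refine (mul_le_mul_of_nonneg_left hJ (abs_nonneg c)).trans (le_trans (le_of_eq ?_) h1)
      ring
    rw [e]
    refine (abs_sub _ _).trans ?_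
    linarith
  rw [hc' r ⟨h0, hr.2⟩, hcd]
  ring

theorem Mean_polar {F : ℂ → ℝ} {R : ℝ} (hc : ContinuousOn F (closedBall 0 R))
    (hz : ∀ z, R ≤ ‖z‖ → F z = 0) :
    ∫ z, F z = ∫ r in Ioi (0 : ℝ), r * ∫ θ in (0 : ℝ)..2 * Real.pi, F (r * exp (θ * I)) := by
  have e : ∀ q : ℝ × ℝ, Complex.polarCoord.symm q = q.1 * exp (q.2 * I) := by
    intro q
    rw [Complex.polarCoord_symm_apply, exp_mul_I, ofReal_cos, ofReal_sin]
  have hK : IsCompact (Icc (0 : ℝ) R ×ˢ Icc (-Real.pi) Real.pi) := isCompact_Icc.prod isCompact_Icc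
  have hG : ContinuousOn (fun q : ℝ × ℝ => q.1 * F (q.1 * exp (q.2 * I)))
      (Icc (0 : ℝ) R ×ˢ Icc (-Real.pi) Real.pi) := by
    refine continuous_fst.continuousOn.mul (hc.comp (by fun_prop) fun q hq => ?_)
    simpa using Mean_mem 0 hq.1 q.2
  have hI : IntegrableOn (fun q : ℝ × ℝ => q.1 * F (q.1 * exp (q.2 * I)))
      (Ioi (0 : ℝ) ×ˢ Ioo (-Real.pi) Real.pi) (volume.prod volume) := by
    refine (hG.integrableOn_compact hK).of_forall_sdiff_eq_zero
      (measurableSet_Ioi.prod measurableSet_Ioo) fun q hq => ?_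
    have h0 : 0 < q.1 := hq.1.1
    have : R ≤ q.1 := by
      by_contra hlt
      exact hq.2 ⟨⟨h0.le, (not_le.1 hlt).le⟩, Ioo_subset_Icc_self hq.1.2⟩
    rw [hz _ (by rwa [Mean_norm h0.le]), mul_zero]
  rw [← Complex.integral_comp_polarCoord_symm, polarCoord_target]
  simp only [e, smul_eq_mul]
  rw [Measure.volume_eq_prod, setIntegral_prod _ hI]
  refine setIntegral_congr_fun measurableSet_Ioi fun r _ => ?_
  have := Mean_per F 0 r
  simp only [zero_add] at this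
  simp only
  rw [integral_const_mul, ← this, intervalIntegral.integral_of_le (by linarith [Real.pi_pos]),
    integral_Ioc_eq_integral_Ioo]

theorem disc_mean (h : Helm lam U w) (hl : 0 ≤ lam) {p : ℂ} {R : ℝ} (hR : closedBall p R ⊆ U)
    (hlR : lam * R ^ 2 ≤ 1) {ρ : ℝ → ℝ} (hρ : Continuous ρ) (hz : ∀ r, R ≤ r → ρ r = 0) :
    ∫ z, w (p + z) * ρ ‖z‖ = w p * ∫ z : ℂ, J 0 lam ‖z‖ * ρ ‖z‖ := by
  have hρ' : Continuous fun z : ℂ => ρ ‖z‖ := hρ.comp continuous_norm
  have h1 : ContinuousOn (fun z : ℂ => w (p + z) * ρ ‖z‖) (closedBall 0 R) := by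
    refine (h.continuousOn.comp (by fun_prop) fun z hz' => hR ?_).mul hρ'.continuousOn
    simpa using hz'
  have h2 : ContinuousOn (fun z : ℂ => J 0 lam ‖z‖ * ρ ‖z‖) (closedBall 0 R) :=
    (((continuous_J 0 lam).comp continuous_norm).mul hρ').continuousOn
  rw [Mean_polar h1 fun z hz' => by simp [hz _ hz'], Mean_polar h2 fun z hz' => by simp [hz _ hz'],
    ← integral_const_mul]
  refine setIntegral_congr_fun measurableSet_Ioi fun r hr => ?_
  have h0 : 0 < r := hr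
  simp only [Mean_norm h0.le]
  rcases le_total R r with hh | hh
  · simp [hz r hh]
  · rw [intervalIntegral.integral_mul_const, circle_mean h hl hR hlR ⟨h0.le, hh⟩,
      intervalIntegral.integral_const, sub_zero, smul_eq_mul]
    ring

theorem Mean_cos (α : ℝ) : ∫ θ in (0 : ℝ)..2 * Real.pi, Real.cos (θ + α) = 0 := by
  rw [intervalIntegral.integral_comp_add_right (fun x => Real.cos x), integral_cos,
    add_comm (2 * Real.pi), Real.sin_add_two_pi, zero_add, sub_self]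

theorem Mean_cos_sq (α : ℝ) :
    ∫ θ in (0 : ℝ)..2 * Real.pi, Real.cos (θ + α) ^ 2 = Real.pi := by
  rw [intervalIntegral.integral_comp_add_right (fun x => Real.cos x ^ 2), integral_cos_sq,
    add_comm (2 * Real.pi), Real.sin_add_two_pi, Real.cos_add_two_pi, zero_add]
  ring

theorem Mean_dot (G : ℂ) (r θ : ℝ) :
    dot G (r * exp (θ * I)) = r * ‖G‖ * Real.cos (θ + -arg G) := by
  have h1 : G.re = ‖G‖ * Real.cos (arg G) := (norm_mul_cos_arg G).symm
  have h2 : G.im = ‖G‖ * Real.sin (arg G) := (norm_mul_sin_arg G).symm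
  rw [dot, re_ofReal_mul, im_ofReal_mul, exp_ofReal_mul_I_re, exp_ofReal_mul_I_im,
    ← sub_eq_add_neg, Real.cos_sub]
  linear_combination (r * Real.cos θ) * h1 + (r * Real.sin θ) * h2

theorem grad_est (h : Helm lam U w) (hl : 0 ≤ lam) {p : ℂ} {R M : ℝ} (hR0 : 0 < R)
    (hR : closedBall p R ⊆ U) (hlR : lam * R ^ 2 ≤ 1) (hM : ∀ z ∈ closedBall p R, |w z| ≤ M) :
    ‖grad w p‖ ≤ 4 * M / R := by
  have hp : p ∈ U := hR (mem_closedBall_self hR0.le)
  have hwc : ContinuousOn w (closedBall p R) := h.continuousOn.mono hR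
  obtain ⟨α, hα⟩ : ∃ α, α = -arg (grad w p) := ⟨_, rfl⟩
  obtain ⟨c, hc⟩ := cf_eq h hl hR hlR 1 α
  have hc' : ∀ s ∈ Ioc 0 R, ∫ θ in (0 : ℝ)..2 * Real.pi,
      w (p + s * exp (θ * I)) * Real.cos (θ + α) = c * J 1 lam s := by
    intro s hs
    rw [← hc s hs]
    simp [cf]
  have hcd : c = Real.pi * ‖grad w p‖ := by
    refine Mean_eq (K := 2 * Real.pi + 1) fun ε hε => ?_
    have hev := Asymptotics.isLittleO_iff.1
      (hasFDerivAt_iff_isLittleO_nhds_zero.1 (h.differentiableAt hp).hasFDerivAt) hε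
    obtain ⟨s, hs, h1, h2⟩ := Mean_small (A := |c| * lam / 2) hR0 hε hev
    have hs' : s ∈ Icc 0 R := ⟨hs.1.le, hs.2⟩
    have hJ := J_bound (lam := lam) 1 hl hs.1.le (Mean_le hl hlR hs')
    rw [pow_one] at hJ
    have hI : ‖∫ θ in (0 : ℝ)..2 * Real.pi, (w (p + s * exp (θ * I)) * Real.cos (θ + α) -
        (w p * Real.cos (θ + α) + s * ‖grad w p‖ * Real.cos (θ + α) ^ 2))‖ ≤
        ε * s * |2 * Real.pi - 0| := by
      refine intervalIntegral.norm_integral_le_of_norm_le_const fun θ _ => ?_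
      have h3 := h2 θ
      rw [fderiv_eq_dot, Mean_dot, ← hα, Mean_norm hs.1.le, Real.norm_eq_abs] at h3
      have e : w (p + s * exp (θ * I)) * Real.cos (θ + α) -
          (w p * Real.cos (θ + α) + s * ‖grad w p‖ * Real.cos (θ + α) ^ 2) =
          (w (p + s * exp (θ * I)) - w p - s * ‖grad w p‖ * Real.cos (θ + α)) *
            Real.cos (θ + α) := by ring
      rw [e, Real.norm_eq_abs, abs_mul]
      exact (mul_le_of_le_one_right (abs_nonneg _) (Real.abs_cos_le_one _)).trans h3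
    have c1 : Continuous fun θ : ℝ => Real.cos (θ + α) := by fun_prop
    have c2 : Continuous fun θ : ℝ => w (p + s * exp (θ * I)) * Real.cos (θ + α) :=
      (Mean_cont hwc hs').mul c1
    have c3 : Continuous fun θ : ℝ => w p * Real.cos (θ + α) := by fun_prop
    have c4 : Continuous fun θ : ℝ => s * ‖grad w p‖ * Real.cos (θ + α) ^ 2 := by fun_prop
    have c5 : Continuous fun θ : ℝ =>
        w p * Real.cos (θ + α) + s * ‖grad w p‖ * Real.cos (θ + α) ^ 2 := c3.add c4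
    rw [intervalIntegral.integral_sub (c2.intervalIntegrable _ _) (c5.intervalIntegrable _ _),
      hc' s hs, intervalIntegral.integral_add (c3.intervalIntegrable _ _)
        (c4.intervalIntegrable _ _),
      intervalIntegral.integral_const_mul, intervalIntegral.integral_const_mul, Mean_cos,
      Mean_cos_sq, sub_zero, abs_of_pos Real.two_pi_pos, Real.norm_eq_abs] at hI
    have e : (c - Real.pi * ‖grad w p‖) * s =
        (c * J 1 lam s - (w p * 0 + s * ‖grad w p‖ * Real.pi)) - c * (J 1 lam s - s) := by ring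
    have h3 : |c * (J 1 lam s - s)| ≤ ε * s := by
      rw [abs_mul]
      refine (mul_le_mul_of_nonneg_left hJ (abs_nonneg c)).trans
        (le_trans (le_of_eq ?_) (mul_le_mul_of_nonneg_right h1 hs.1.le))
      ring
    refine le_of_mul_le_mul_right ?_ hs.1
    have h4 : |c - Real.pi * ‖grad w p‖| * s = |(c - Real.pi * ‖grad w p‖) * s| := by
      rw [abs_mul, abs_of_pos hs.1]
    rw [h4, e]
    refine (abs_sub _ _).trans ?_
    linarith
  have hI : ‖∫ θ in (0 : ℝ)..2 * Real.pi, w (p + R * exp (θ * I)) * Real.cos (θ + α)‖ ≤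
      M * |2 * Real.pi - 0| := by
    refine intervalIntegral.norm_integral_le_of_norm_le_const fun θ _ => ?_
    rw [Real.norm_eq_abs, abs_mul]
    exact (mul_le_of_le_one_right (abs_nonneg _) (Real.abs_cos_le_one _)).trans
      (hM _ (Mean_mem p ⟨hR0.le, le_rfl⟩ θ))
  rw [hc' R ⟨hR0, le_rfl⟩, hcd, sub_zero, abs_of_pos Real.two_pi_pos, Real.norm_eq_abs] at hI
  have hJ := J_bound (lam := lam) 1 hl hR0.le hlR
  rw [pow_one] at hJ
  have hJ' : R / 2 ≤ J 1 lam R := by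
    have h1 := (abs_le.1 hJ).1
    have h2 : lam * R ^ 2 / 2 * R ≤ 1 / 2 * R :=
      mul_le_mul_of_nonneg_right (by linarith) hR0.le
    linarith
  have h5 : Real.pi * ‖grad w p‖ * (R / 2) ≤ M * (2 * Real.pi) :=
    (mul_le_mul_of_nonneg_left hJ' (by positivity)).trans ((le_abs_self _).trans hI)
  rw [le_div_iff₀ hR0]
  refine le_of_mul_le_mul_left ?_ Real.pi_pos
  linarith

theorem strong_max (h : Helm lam U w) (hl : 0 ≤ lam) (hc : IsPreconnected U)
    (h0 : ∀ z ∈ U, 0 ≤ w z) : (∀ z ∈ U, 0 < w z) ∨ ∀ z ∈ U, w z = 0 := by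
  have ho1 : IsOpen (U ∩ w ⁻¹' Ioi 0) := h.continuousOn.isOpen_inter_preimage h.isOpen isOpen_Ioi
  have ho2 : IsOpen (U ∩ w ⁻¹' {0}) := by
    rw [Metric.isOpen_iff]
    rintro p ⟨hp, hp0⟩
    have hp0' : w p = 0 := hp0
    obtain ⟨R0, hR0, hb⟩ := Metric.nhds_basis_closedBall.mem_iff.1 (h.isOpen.mem_nhds hp)
    obtain ⟨R, hR, hlR, -⟩ := Mean_small (A := lam) (P := fun _ => True) hR0 one_pos (by simp)
    have hb' : closedBall p R ⊆ U := (closedBall_subset_closedBall hR.2).trans hb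
    refine ⟨R, hR.1, fun z hz => ⟨hb' (ball_subset_closedBall hz), ?_⟩⟩
    have hr : ‖z - p‖ ∈ Icc 0 R := ⟨norm_nonneg _, (mem_ball_iff_norm.1 hz).le⟩
    have hm := circle_mean h hl hb' hlR hr
    rw [hp0', mul_zero, ← Mean_per w p] at hm
    by_contra hne
    have hpos : 0 < w z := lt_of_le_of_ne (h0 z (hb' (ball_subset_closedBall hz))) (Ne.symm hne)
    refine absurd hm (intervalIntegral.integral_pos (by linarith [Real.pi_pos])
      (Mean_cont (h.continuousOn.mono hb') hr).continuousOn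
      (fun θ _ => h0 _ (hb' (Mean_mem p hr θ)))
      ⟨arg (z - p), ⟨(neg_pi_lt_arg _).le, arg_le_pi _⟩, ?_⟩).ne'
    rw [norm_mul_exp_arg_mul_I, add_sub_cancel]
    exact hpos
  have hd : Disjoint (U ∩ w ⁻¹' Ioi 0) (U ∩ w ⁻¹' {0}) :=
    Set.disjoint_left.2 fun z a b => (ne_of_gt (show 0 < w z from a.2)) b.2
  have hs : U ⊆ (U ∩ w ⁻¹' Ioi 0) ∪ (U ∩ w ⁻¹' {0}) := fun z hz =>
    (h0 z hz).lt_or_eq.elim (fun a => Or.inl ⟨hz, a⟩) fun a => Or.inr ⟨hz, a.symm⟩
  rcases hc.subset_or_subset ho1 ho2 hd hs with a | a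
  · exact Or.inl fun z hz => (a hz).2
  · exact Or.inr fun z hz => (a hz).2

end Pool.Agent.L2K
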