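import Pool.Agent.P.MP_2f6447_an.K.Slope1
import Pool.Agent.P.MP_2f6447_an.K.BUflat

/-! `u` is `C¹` up to the boundary. -/

open Set MeasureTheory Filter Topology Complex Metric
open scoped ContDiff ComplexConjugate

namespace Pool.Agent.L2K

variable {Ω U : Set ℂ} {lam : ℝ} {u w f g : ℂ → ℝ}

theorem Reg_mul_conj {ν : ℂ} (hν : ‖ν‖ = 1) : ν * conj ν = 1 := by
  rw [Complex.mul_conj, Complex.normSq_eq_norm_sq, hν]; simp

theorem Reg_sq {ν : ℂ} (hν : ‖ν‖ = 1) : ν.re * ν.re + ν.im * ν.im = 1 := by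
  have := Complex.normSq_eq_norm_sq ν
  rw [hν, Complex.normSq_apply] at this
  linarith

theorem Reg_dot_bl {ν : ℂ} (hν : ‖ν‖ = 1) (r : ℝ) (z : ℂ) :
    dot (-I * ν * r * z) ν = r * z.im := by
  have h := Reg_sq hν
  simp only [dot, mul_re, mul_im, neg_re, neg_im, I_re, I_im, ofReal_re, ofReal_im]
  linear_combination (r * z.im) * h

theorem Reg_norm_bl {ν : ℂ} (hν : ‖ν‖ = 1) {r : ℝ} (hr : 0 < r) : ‖-I * ν * r‖ = r := by
  simp [hν, abs_of_pos hr]

theorem Reg_ne_bl {ν : ℂ} (hν : ‖ν‖ = 1) {r : ℝ} (hr : 0 < r) : -I * ν * r ≠ 0 := by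
  intro h0
  have := Reg_norm_bl hν hr
  rw [h0, norm_zero] at this
  exact hr.ne this

theorem Reg_grad_bl (u : ℂ → ℝ) (p : ℂ) {ν : ℂ} (hν : ‖ν‖ = 1) {r : ℝ} (hr : 0 < r) (z : ℂ) :
    grad u (sim p (-I * ν * r) z) =
      -I * ν * grad (fun x => r⁻¹ * u (sim p (-I * ν * r) x)) z := by
  rw [grad_const_mul, grad_sim u p (Reg_ne_bl hν hr)]
  have h1 := Reg_mul_conj hν
  have h2 : (r : ℂ) ≠ 0 := by exact_mod_cast hr.ne'
  have h3 : conj (-I * ν * r) = I * conj ν * r := by simp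
  have h4 : ((r⁻¹ : ℝ) : ℂ) * r = 1 := by push_cast; exact inv_mul_cancel₀ h2
  rw [h3]
  linear_combination
    (grad u (sim p (-I * ν * r) z) * (ν * conj ν) * (((r⁻¹ : ℝ) : ℂ) * r)) * I_mul_I -
      (grad u (sim p (-I * ν * r) z) * (((r⁻¹ : ℝ) : ℂ) * r)) * h1 -
      grad u (sim p (-I * ν * r) z) * h4

theorem Reg_sim_div (p : ℂ) {a : ℂ} (ha : a ≠ 0) (x : ℂ) : sim p a ((x - p) / a) = x := by
  unfold sim; field_simp; ring

theorem Mn.lim_flat (h : Mn Ω lam u) {p : ℂ} (hp : p ∈ frontier Ω) (he : ¬ Ext Ω p) :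
    ∃ γ : ℝ, Tendsto (grad u) (𝓝[Ω] p) (𝓝 (γ * nu Ω p)) := by
  have hD : Dom Ω := h.toIsMin.toDom
  obtain ⟨ρ, hρ, hf⟩ := hD.flat hp he
  have hN := hD.isN_nu hp
  set ν := nu Ω p with hνdef
  have hν : ‖ν‖ = 1 := hN.1
  have h1 : (0 : ℝ) < 1 := one_pos
  set a : ℂ := -I * ν * ((1 : ℝ) : ℂ) with hadef
  have ha : a ≠ 0 := Reg_ne_bl hν h1
  have hna : ‖a‖ = 1 := Reg_norm_bl hν h1
  have h' := h.of_sim p ha
  rw [hna] at h'
  set W : ℂ → ℝ := fun z => (1 : ℝ)⁻¹ * u (sim p a z) with hW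
  obtain ⟨K, hK⟩ := h'.lip.lip
  have hd : ∀ z : ℂ, dot (sim p a z - p) ν = z.im := by
    intro z
    have : sim p a z - p = -I * ν * ((1 : ℝ) : ℂ) * z := by simp [sim, hadef]
    rw [this, Reg_dot_bl hν, one_mul]
  have hb : ∀ z ∈ ball (0 : ℂ) ρ, sim p a z ∈ ball p ρ := by
    intro z hz
    rw [mem_ball_iff_norm] at hz ⊢
    have : sim p a z - p = a * z := by simp [sim]
    rw [this, norm_mul, hna, one_mul]
    simpa using hz
  have h0 : ∀ z ∈ ball (0 : ℂ) ρ, z.im = 0 → W z = 0 := by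
    intro z hz hz0
    apply h'.lip.zero
    intro hm
    have := ((hf _ (hb z hz)).1).1 hm
    rw [hd, hz0] at this
    exact lt_irrefl _ this
  have hH : Helm (lam * 1 ^ 2) (ball 0 ρ) (oddE W) := by
    refine helm_oddE isOpen_ball ?_ h'.lam_pos.le hK ?_ h0
    · intro z hz
      rw [mem_ball_iff_norm] at hz ⊢
      simpa using hz
    · refine h'.helm.mono (isOpen_ball.inter (isOpen_lt continuous_im continuous_const)) ?_
      intro z hz
      refine ((hf _ (hb z hz.1)).1).2 ?_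
      rw [hd]
      exact hz.2
  have hz0 : (0 : ℂ) ∈ ball (0 : ℂ) ρ := mem_ball_self hρ
  have hc : ContinuousAt (grad (oddE W)) 0 :=
    hH.continuousOn_grad.continuousAt (isOpen_ball.mem_nhds hz0)
  have hre : (grad (oddE W) 0).re = 0 := by
    have e0 : (⟨0, 0⟩ : ℂ) = 0 := rfl
    have hdf : DifferentiableAt ℝ (oddE W) ⟨0, 0⟩ := by rw [e0]; exact hH.differentiableAt hz0
    have h2 := hasDerivAt_re hdf
    rw [e0] at h2
    have h3 : (fun s : ℝ => oddE W ⟨s, 0⟩) =ᶠ[𝓝 0] fun _ => (0 : ℝ) := by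
      filter_upwards [isOpen_ball.mem_nhds (mem_ball_self (x := (0 : ℝ)) hρ)] with s hs
      have hs' : (⟨s, 0⟩ : ℂ) ∈ ball (0 : ℂ) ρ := by
        have e : (⟨s, 0⟩ : ℂ) = (s : ℂ) := rfl
        rw [mem_ball_iff_norm] at hs ⊢
        rw [e]
        simpa using hs
      unfold oddE
      rw [if_pos (le_refl _)]
      exact h0 _ hs' rfl
    exact h2.unique ((hasDerivAt_const (0 : ℝ) (0 : ℝ)).congr_of_eventuallyEq h3)
  refine ⟨(grad (oddE W) 0).im, ?_⟩
  have hT : Tendsto (fun x : ℂ => (x - p) / a) (𝓝[Ω] p) (𝓝 0) := by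
    have hc2 : Continuous fun x : ℂ => (x - p) / a := by fun_prop
    have := (hc2.tendsto p).mono_left (nhdsWithin_le_nhds (s := Ω))
    simpa using this
  have hT2 := (hc.tendsto.comp hT).const_mul (-I * ν)
  have hv : -I * ν * grad (oddE W) 0 = ((grad (oddE W) 0).im : ℝ) * ν := by
    have e := re_add_im (grad (oddE W) 0)
    rw [hre] at e
    linear_combination (I * ν) * e - ((grad (oddE W) 0).im * ν) * I_mul_I -
      (I * ν) * ofReal_zero
  rw [hv] at hT2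
  refine hT2.congr' ?_
  filter_upwards [self_mem_nhdsWithin] with x hx
  have hx1 : ((x - p) / a).im < 0 := by
    rw [← hd, Reg_sim_div p ha]
    exact hN.2 x hx
  have hx2 : oddE W =ᶠ[𝓝 ((x - p) / a)] W := by
    filter_upwards [(isOpen_lt continuous_im continuous_const).mem_nhds hx1] with z hz
    unfold oddE
    rw [if_pos (le_of_lt hz)]
  have h4 := Reg_grad_bl u p hν h1 ((x - p) / a)
  rw [← hadef, Reg_sim_div p ha] at h4
  simp only [Function.comp]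
  rw [grad_congr hx2, h4]

theorem Reg_seq (h : Mn Ω lam u) {p : ℂ} (he : Ext Ω p) {x : ℕ → ℂ} (hx : ∀ k, x k ∈ Ω)
    (hxp : Tendsto x atTop (𝓝 p)) : ∃ φ : ℕ → ℕ, StrictMono φ ∧
      (Tendsto (fun k => grad u (x (φ k))) atTop (𝓝 (nu Ω p)) ∨
        Tendsto (fun k => grad u (x (φ k))) atTop (𝓝 (-nu Ω p))) := by
  have hD : Dom Ω := h.toIsMin.toDom
  have hne : ({p | Ext Ω p} : Set ℂ).Nonempty := ⟨p, he⟩
  choose e heE hed using fun k => hD.isClosed_ext.exists_infDist_eq_dist hne (x k)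
  have heE' : ∀ k, Ext Ω (e k) := heE
  have hmin : ∀ k q, Ext Ω q → dist (x k) (e k) ≤ dist (x k) q := by
    intro k q hq
    rw [← hed]
    exact infDist_le_dist_of_mem hq
  set r : ℕ → ℝ := fun k => dist (x k) (e k) with hrdef
  have hr : ∀ k, 0 < r k := by
    intro k
    refine dist_pos.2 fun h0 => ?_
    exact hD.notMem_of_frontier (heE' k).1 (h0 ▸ hx k)
  have hxd : Tendsto (fun k => dist (x k) p) atTop (𝓝 0) := tendsto_iff_dist_tendsto_zero.1 hxp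
  have hr0 : Tendsto r atTop (𝓝 0) :=
    squeeze_zero (fun k => (hr k).le) (fun k => hmin k p he) hxd
  have hep : Tendsto e atTop (𝓝 p) := by
    refine tendsto_iff_dist_tendsto_zero.2 (squeeze_zero (fun k => dist_nonneg)
      (fun k => dist_triangle_left (e k) p (x k)) ?_)
    simpa using hr0.add hxd
  have hν : ∀ k, ‖nu Ω (e k)‖ = 1 := fun k => (hD.isN_nu (heE' k).1).1
  have hνp : Tendsto (fun k => nu Ω (e k)) atTop (𝓝 (nu Ω p)) := by
    refine ((hD.continuousOn_nu h.noCorner) p he.1).tendsto.comp ?_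
    exact tendsto_nhdsWithin_iff.2 ⟨hep, Eventually.of_forall fun k => (heE' k).1⟩
  obtain ⟨φ, a, hφ, hb⟩ := h.blowup (fun k => (heE' k).1) hr hr0
  have ha : a ^ 2 = 1 := h.slope_one (p := fun k => e (φ k)) (r := fun k => r (φ k))
    (fun k => heE' _) (fun k => hr _) (hr0.comp hφ.tendsto_atTop) hb
  set z : ℕ → ℂ := fun k => (x k - e k) / (-I * nu Ω (e k) * r k) with hzdef
  have hSz : ∀ k, blS Ω (e k) (r k) (z k) = x k := fun k =>
    Reg_sim_div _ (Reg_ne_bl (hν k) (hr k)) _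
  have hz1 : ∀ k, z k ∈ closedBall (0 : ℂ) 1 := by
    intro k
    rw [mem_closedBall_zero_iff, hzdef]
    simp only
    rw [norm_div, Reg_norm_bl (hν k) (hr k), ← dist_eq_norm]
    exact (div_self (hr k).ne').le
  obtain ⟨w, -, ψ, hψ, hw⟩ := (isCompact_closedBall (0 : ℂ) 1).tendsto_subseq
    (x := fun k => z (φ k)) fun k => hz1 _
  have hb2 := hb.subseq hψ
  have hG := hb2.convG_flat (z := fun k => z (φ (ψ k))) (w := w)
    (fun k => by rw [mem_preimage, hSz]; exact hx _) hw (fun k q hq hE => by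
      set j := φ (ψ k)
      have hE' : Ext Ω (blS Ω (e j) (r j) q) := (ext_sim _ (Reg_ne_bl (hν j) (hr j)) q).1 hE
      have h1 := hmin j _ hE'
      have h2 : dist (x j) (blS Ω (e j) (r j) q) = r j * dist q (z j) := by
        rw [← hSz j, dist_comm, dist_eq_norm, dist_eq_norm]
        have : blS Ω (e j) (r j) q - blS Ω (e j) (r j) (z j) =
            -I * nu Ω (e j) * r j * (q - z j) := by
          simp only [blS, sim]; ring
        rw [this, norm_mul, Reg_norm_bl (hν j) (hr j)]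
      have h3 : dist q (z j) < 1 := hq
      have h4 : r j ≤ r j * dist q (z j) := h2 ▸ h1
      nlinarith [hr j])
  have hφψ : StrictMono fun k => φ (ψ k) := hφ.comp hψ
  have hL := ((hνp.comp hφψ.tendsto_atTop).const_mul (-I)).mul hG
  have hL2 : Tendsto (fun k => grad u (x (φ (ψ k)))) atTop (𝓝 (a * nu Ω p)) := by
    have hv : -I * nu Ω p * (a * I) = a * nu Ω p := by
      linear_combination (-(a * nu Ω p)) * I_mul_I
    rw [hv] at hL
    refine hL.congr fun k => ?_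
    rw [← hSz]
    exact (Reg_grad_bl u _ (hν _) (hr _) _).symm
  refine ⟨_, hφψ, ?_⟩
  rcases (sq_eq_one_iff.1 ha : a = 1 ∨ a = -1) with h1 | h1
  · left; simpa [h1] using hL2
  · right; simpa [h1] using hL2

theorem Reg_seq' (h : Mn Ω lam u) {p : ℂ} (he : Ext Ω p) {x : ℕ → ℂ}
    (hxp : Tendsto x atTop (𝓝[Ω] p)) : ∃ φ : ℕ → ℕ, Tendsto φ atTop atTop ∧
      (Tendsto (fun k => grad u (x (φ k))) atTop (𝓝 (nu Ω p)) ∨
        Tendsto (fun k => grad u (x (φ k))) atTop (𝓝 (-nu Ω p))) := by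
  obtain ⟨h1, h2⟩ := tendsto_nhdsWithin_iff.1 hxp
  obtain ⟨N, hN⟩ := eventually_atTop.1 h2
  obtain ⟨φ, hφ, h3⟩ := Reg_seq h he (x := fun k => x (k + N)) (fun k => hN _ (Nat.le_add_left _ _))
    (h1.comp (tendsto_add_atTop_nat N))
  exact ⟨fun k => φ k + N, (tendsto_add_atTop_nat N).comp hφ.tendsto_atTop, h3⟩

theorem Reg_cont_dot (ν : ℂ) : Continuous fun z => dot z ν := by
  unfold dot; fun_prop

theorem Mn.lim_ext (h : Mn Ω lam u) {p : ℂ} (he : Ext Ω p) :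
    Tendsto (grad u) (𝓝[Ω] p) (𝓝 (nu Ω p)) ∨ Tendsto (grad u) (𝓝[Ω] p) (𝓝 (-nu Ω p)) := by
  have hD : Dom Ω := h.toIsMin.toDom
  set ν := nu Ω p with hνdef
  have hν : ‖ν‖ = 1 := (hD.isN_nu he.1).1
  have d1 : dot ν ν = 1 := by rw [dot_self, hν]; norm_num
  have d2 : dot (-ν) ν = -1 := by
    rw [← d1]; simp only [dot, neg_re, neg_im]; ring
  have hseq : ∀ x : ℕ → ℂ, Tendsto x atTop (𝓝[Ω] p) → ∃ φ : ℕ → ℕ, Tendsto φ atTop atTop ∧
      ((Tendsto (fun k => grad u (x (φ k))) atTop (𝓝 ν) ∧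
        Tendsto (fun k => dot (grad u (x (φ k))) ν) atTop (𝓝 1)) ∨
      (Tendsto (fun k => grad u (x (φ k))) atTop (𝓝 (-ν)) ∧
        Tendsto (fun k => dot (grad u (x (φ k))) ν) atTop (𝓝 (-1)))) := by
    intro x hx
    obtain ⟨φ, hφ, h1 | h1⟩ := Reg_seq' h he hx
    · exact ⟨φ, hφ, Or.inl ⟨h1, d1 ▸ ((Reg_cont_dot ν).tendsto _).comp h1⟩⟩
    · exact ⟨φ, hφ, Or.inr ⟨h1, d2 ▸ ((Reg_cont_dot ν).tendsto _).comp h1⟩⟩
  have hne : ∀ᶠ x in 𝓝[Ω] p, dot (grad u x) ν ≠ 0 := by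
    by_contra hc
    have hc' : ∃ᶠ x in 𝓝[Ω] p, dot (grad u x) ν = 0 := by
      simpa only [Filter.Frequently, not_not] using hc
    obtain ⟨x, hx, hx0⟩ := exists_seq_forall_of_frequently hc'
    obtain ⟨φ, -, ⟨-, h1⟩ | ⟨-, h1⟩⟩ := hseq x hx
    · simp only [hx0] at h1
      have := tendsto_nhds_unique h1 tendsto_const_nhds
      norm_num at this
    · simp only [hx0] at h1
      have := tendsto_nhds_unique h1 tendsto_const_nhds
      norm_num at this
  obtain ⟨δ, hδ, hS⟩ := mem_nhdsWithin_iff.1 hne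
  have hpc : IsPreconnected (ball p δ ∩ Ω) := ((convex_ball p δ).inter hD.convex).isPreconnected
  have hcF : ContinuousOn (fun x => dot (grad u x) ν) (ball p δ ∩ Ω) :=
    (Reg_cont_dot ν).comp_continuousOn (h.helm.continuousOn_grad.mono inter_subset_right)
  have hmem : ball p δ ∩ Ω ∈ 𝓝[Ω] p :=
    inter_mem (mem_nhdsWithin_of_mem_nhds (ball_mem_nhds p hδ)) self_mem_nhdsWithin
  by_cases hpos : ∀ x ∈ ball p δ ∩ Ω, 0 ≤ dot (grad u x) ν
  · left
    refine tendsto_of_subseq_tendsto fun x hx => ?_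
    obtain ⟨φ, hφ, ⟨h1, -⟩ | ⟨-, h1⟩⟩ := hseq x hx
    · exact ⟨φ, h1⟩
    · have := ge_of_tendsto h1 (((hx.comp hφ).eventually hmem).mono fun k hk => hpos _ hk)
      norm_num at this
  · right
    push Not at hpos
    obtain ⟨y, hy, hy0⟩ := hpos
    have hneg : ∀ x ∈ ball p δ ∩ Ω, dot (grad u x) ν ≤ 0 := by
      intro x hx
      by_contra hc
      obtain ⟨t, ht, ht0⟩ := hpc.intermediate_value hy hx hcF ⟨hy0.le, (not_le.1 hc).le⟩
      exact hS ht ht0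
    refine tendsto_of_subseq_tendsto fun x hx => ?_
    obtain ⟨φ, hφ, ⟨-, h1⟩ | ⟨h1, -⟩⟩ := hseq x hx
    · have := le_of_tendsto h1 (((hx.comp hφ).eventually hmem).mono fun k hk => hneg _ hk)
      norm_num at this
    · exact ⟨φ, h1⟩

theorem Reg_exists (h : Mn Ω lam u) {p : ℂ} (hp : p ∈ closure Ω) :
    ∃ y, Tendsto (grad u) (𝓝[Ω] p) (𝓝 y) := by
  rw [closure_eq_self_union_frontier] at hp
  rcases hp with hp | hp
  · exact ⟨_, h.helm.continuousOn_grad p hp⟩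
  · by_cases he : Ext Ω p
    · rcases h.lim_ext he with h1 | h1 <;> exact ⟨_, h1⟩
    · obtain ⟨γ, h1⟩ := h.lim_flat hp he
      exact ⟨_, h1⟩

theorem Mn.tendsto_Gr (h : Mn Ω lam u) {p : ℂ} (hp : p ∈ closure Ω) :
    Tendsto (grad u) (𝓝[Ω] p) (𝓝 (Gr Ω u p)) := tendsto_extendFrom (Reg_exists h hp)

theorem Mn.continuousOn_Gr (h : Mn Ω lam u) : ContinuousOn (Gr Ω u) (closure Ω) :=
  continuousOn_extendFrom subset_rfl fun _ hp => Reg_exists h hp

theorem Mn.Gr_eq (h : Mn Ω lam u) {z : ℂ} (hz : z ∈ Ω) : Gr Ω u z = grad u z :=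
  extendFrom_extends h.helm.continuousOn_grad z hz

theorem Mn.Gr_ext (h : Mn Ω lam u) {p : ℂ} (he : Ext Ω p) :
    Gr Ω u p = nu Ω p ∨ Gr Ω u p = -nu Ω p := by
  have hp := frontier_subset_closure he.1
  rcases h.lim_ext he with h1 | h1
  · exact Or.inl (extendFrom_eq hp h1)
  · exact Or.inr (extendFrom_eq hp h1)

theorem Mn.Gr_par (h : Mn Ω lam u) {p : ℂ} (hp : p ∈ frontier Ω) :
    Gr Ω u p = (dot (Gr Ω u p) (nu Ω p) : ℝ) * nu Ω p := by
  have hν : ‖nu Ω p‖ = 1 := (h.toIsMin.toDom.isN_nu hp).1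
  have key : ∃ γ : ℝ, Gr Ω u p = γ * nu Ω p := by
    by_cases he : Ext Ω p
    · rcases h.Gr_ext he with h1 | h1
      · exact ⟨1, by simp [h1]⟩
      · exact ⟨-1, by simp [h1]⟩
    · obtain ⟨γ, h1⟩ := h.lim_flat hp he
      exact ⟨γ, extendFrom_eq (frontier_subset_closure hp) h1⟩
  obtain ⟨γ, hγ⟩ := key
  have h2 : dot (γ * nu Ω p) (nu Ω p) = γ := by
    have := Reg_sq hν
    simp only [dot, mul_re, mul_im, ofReal_re, ofReal_im]
    linear_combination γ * this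
  rw [hγ, h2]

theorem Mn.Gr_neg (h : Mn Ω lam u) {p : ℂ} (hp : p ∈ closure Ω) :
    Gr Ω (fun z => -u z) p = -Gr Ω u p :=
  extendFrom_eq hp ((h.tendsto_Gr hp).neg.congr fun x => (grad_neg u x).symm)

theorem Mn.Gr_rf (h : Mn Ω lam u) (M : ℂ) {n : ℂ} (hn : ‖n‖ = 1) {z : ℂ}
    (hz : rf M n z ∈ closure Ω) :
    Gr (rf M n ⁻¹' Ω) (fun x => u (rf M n x)) z = rf 0 n (Gr Ω u (rf M n z)) := by
  have h1 : z ∈ closure (rf M n ⁻¹' Ω) := by rw [closure_rf M hn]; exact hz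
  refine extendFrom_eq h1 ?_
  have h2 : Tendsto (rf M n) (𝓝[rf M n ⁻¹' Ω] z) (𝓝[Ω] (rf M n z)) :=
    (isometry_rf M hn).continuous.continuousWithinAt.tendsto_nhdsWithin (mapsTo_preimage _ _)
  have h3 := ((isometry_rf 0 hn).continuous.tendsto _).comp ((h.tendsto_Gr hz).comp h2)
  exact h3.congr fun x => (grad_rf u M hn x).symm

theorem Mn.Gr_sim (h : Mn Ω lam u) (p : ℂ) {a : ℂ} (ha : a ≠ 0) {z : ℂ}
    (hz : sim p a z ∈ closure Ω) : Gr (sim p a ⁻¹' Ω) (fun x => ‖a‖⁻¹ * u (sim p a x)) z =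
      conj a / ‖a‖ * Gr Ω u (sim p a z) := by
  have h1 : z ∈ closure (sim p a ⁻¹' Ω) := by
    rw [closure_eq_self_union_frontier] at hz ⊢
    rw [frontier_sim p ha]
    exact hz
  refine extendFrom_eq h1 ?_
  have hc : Continuous (sim p a) := by unfold sim; fun_prop
  have h2 : Tendsto (sim p a) (𝓝[sim p a ⁻¹' Ω] z) (𝓝[Ω] (sim p a z)) :=
    hc.continuousWithinAt.tendsto_nhdsWithin (mapsTo_preimage _ _)
  have h3 := ((h.tendsto_Gr hz).comp h2).const_mul (conj a / ‖a‖)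
  refine h3.congr fun x => ?_
  rw [grad_const_mul, grad_sim u p ha]
  simp only [Function.comp]
  push_cast
  ring

theorem Mn.mvt (h : Mn Ω lam u) {p q : ℂ} (hp : p ∈ closure Ω) (hq : q ∈ Ω) :
    ∃ t ∈ Ioo (0 : ℝ) 1, p + t * (q - p) ∈ Ω ∧
      u q - u p = dot (grad u (p + t * (q - p))) (q - p) := by
  have hm : ∀ t ∈ Ioo (0 : ℝ) 1, p + t * (q - p) ∈ Ω := by
    intro t ht
    have := h.toIsMin.toDom.combo_mem hq hp (t := 1 - t) (by linarith [ht.2]) (by linarith [ht.1])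
    have e : p + t * (q - p) = q + ((1 - t : ℝ) : ℂ) * (p - q) := by push_cast; ring
    rw [e]
    exact this
  have hc : Continuous fun s : ℝ => u (p + s * (q - p)) := h.lip.continuous.comp (by fun_prop)
  obtain ⟨t, ht, h1⟩ := exists_hasDerivAt_eq_slope (fun s : ℝ => u (p + s * (q - p)))
    (fun s : ℝ => dot (grad u (p + s * (q - p))) (q - p)) zero_lt_one hc.continuousOn
    fun s hs => hasDerivAt_line (h.helm.differentiableAt (hm s hs))
  refine ⟨t, ht, hm t ht, ?_⟩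
  rw [h1]
  simp

end Pool.Agent.L2K
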