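import Pool.Agent.P.MP_2f6447_an.K.Layer
import Pool.Agent.P.MP_2f6447_an.K.FV
import Pool.Agent.P.MP_2f6447_an.K.Reg

/-! The stress functional vanishes for fields without boundary contribution. -/

open Set MeasureTheory Filter Topology Complex Metric
open scoped ContDiff ComplexConjugate

namespace Pool.Agent.L2K

variable {Ω U : Set ℂ} {lam : ℝ} {u w f g : ℂ → ℝ}

theorem Null_fderiv_smul {χ : ℂ → ℝ} {X : ℂ → ℂ} {z : ℂ} (hχ : DifferentiableAt ℝ χ z)
    (hX : DifferentiableAt ℝ X z) (v : ℂ) : fderiv ℝ (fun x => (χ x : ℂ) * X x) z v =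
      χ z * fderiv ℝ X z v + (dot (grad χ z) v : ℝ) * X z := by
  have e : (fun x => (χ x : ℂ) * X x) = fun x => χ x • X x := by
    funext x
    rw [Complex.real_smul]
  rw [e, fderiv_fun_smul hχ hX, ← fderiv_eq_dot]
  simp [Complex.real_smul]

theorem st_smul {χ : ℂ → ℝ} {X : ℂ → ℂ} {z : ℂ} (hχ : DifferentiableAt ℝ χ z)
    (hX : DifferentiableAt ℝ X z) : st lam u (fun x => (χ x : ℂ) * X x) z =
      χ z * st lam u X z + tx lam u z (X z) (grad χ z) := by
  simp only [st, dv, tx, Null_fderiv_smul hχ hX, dot, add_re, add_im, mul_re, mul_im, ofReal_re,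
    ofReal_im, one_re, one_im, I_re, I_im]
  ring

theorem st_kill (b : ℂ) (c : ℝ) (z : ℂ) : st lam u (kill b c) z = 0 := by
  have h : HasFDerivAt (kill b c) ((c * I : ℂ) • ContinuousLinearMap.id ℝ ℂ) z := by
    have := ((hasFDerivAt_id (𝕜 := ℝ) z).const_mul (c * I : ℂ)).const_add b
    exact this
  simp only [st, dv, h.fderiv, dot]
  simp
  ring

theorem tx_smul (z a b : ℂ) (t : ℝ) : tx lam u z a (t * b) = t * tx lam u z a b := by
  simp only [tx, dot, mul_re, mul_im, ofReal_re, ofReal_im]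
  ring

theorem tx_add (z a b c : ℂ) : tx lam u z a (b + c) = tx lam u z a b + tx lam u z a c := by
  simp only [tx, dot, add_re, add_im]
  ring

theorem tx_grad (V : ℂ → ℂ) (z : ℂ) : tx lam u z (V z) (grad u z) = k2 lam u V z := by
  simp only [tx, k2, dot_self, dot_comm (V z) (grad u z)]
  ring

theorem Mn.tx_bound (h : Mn Ω lam u) : ∃ C : ℝ, 0 ≤ C ∧ ∀ z a b : ℂ,
    |tx lam u z a b| ≤ C * ‖a‖ * ‖b‖ := by
  obtain ⟨K, hK⟩ := h.lip.lip
  obtain ⟨M, hM⟩ := h.lip.exists_bound h.bdd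
  have hl := h.lam_pos
  have hK0 : (0 : ℝ) ≤ K := K.2
  refine ⟨K ^ 2 + (K ^ 2 + lam * M ^ 2 + 1) / 2, by positivity, fun z a b => ?_⟩
  have g1 := norm_grad_le hK z
  have g0 := norm_nonneg (grad u z)
  have g2 : ‖grad u z‖ ^ 2 ≤ K ^ 2 := by gcongr
  have u2 : u z ^ 2 ≤ M ^ 2 := by
    rw [← sq_abs (u z)]
    gcongr
    exact hM z
  have a1 : |dot (grad u z) a| ≤ K * ‖a‖ := (abs_dot_le _ _).trans (by gcongr)
  have a2 : |dot (grad u z) b| ≤ K * ‖b‖ := (abs_dot_le _ _).trans (by gcongr)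
  have a3 : |(‖grad u z‖ ^ 2 - lam * u z ^ 2 + 1) / 2| ≤ (K ^ 2 + lam * M ^ 2 + 1) / 2 := by
    have b1 : lam * u z ^ 2 ≤ lam * M ^ 2 := by gcongr
    have b2 : 0 ≤ lam * u z ^ 2 := by positivity
    have b3 : 0 ≤ ‖grad u z‖ ^ 2 := by positivity
    rw [abs_le]
    constructor <;> linarith
  have a4 := abs_dot_le a b
  have c1 : |dot (grad u z) a * dot (grad u z) b| ≤ K * ‖a‖ * (K * ‖b‖) := by
    rw [abs_mul]
    gcongr
  have c2 : |(‖grad u z‖ ^ 2 - lam * u z ^ 2 + 1) / 2 * dot a b| ≤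
      (K ^ 2 + lam * M ^ 2 + 1) / 2 * (‖a‖ * ‖b‖) := by
    rw [abs_mul]
    gcongr
  unfold tx
  refine (abs_sub _ _).trans ((add_le_add c1 c2).trans (le_of_eq ?_))
  ring

theorem Null_st_congr {X Y : ℂ → ℂ} {z : ℂ} (e : X =ᶠ[𝓝 z] Y) : st lam u X z = st lam u Y z := by
  simp only [st, dv, e.fderiv_eq]

theorem LL_congr (hΩ : IsOpen Ω) {X Y : ℂ → ℂ} (e : EqOn X Y Ω) :
    LL lam Ω u X = LL lam Ω u Y :=
  setIntegral_congr_fun hΩ.measurableSet fun _ hz =>
    Null_st_congr (e.eventuallyEq_of_mem (hΩ.mem_nhds hz))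

theorem Mn.integrableOn_st' (h : Mn Ω lam u) {X : ℂ → ℂ} (hX : LocallyLipschitz X) :
    IntegrableOn (st lam u X) Ω := by
  obtain ⟨Y, K, hY, e⟩ := exists_lip_ext h.bdd hX
  exact (h.integrableOn_st hY).congr_fun (fun z hz => Null_st_congr (e z (subset_closure hz)))
    h.isOpen.measurableSet

theorem Mn.st_bound (h : Mn Ω lam u) {X : ℂ → ℂ} (hX : LocallyLipschitz X) :
    ∃ C : ℝ, ∀ z ∈ Ω, |st lam u X z| ≤ C := by
  obtain ⟨Y, K, hY, e⟩ := exists_lip_ext h.bdd hX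
  have hΩ : Dom Ω := h.toDom
  have bu := FV_lip_BM h.lip hΩ
  have bg := FV_grad_BV h.lip
  have bd := FV_dv_BM hY
  obtain ⟨C, hC⟩ := (((((FV_B_BM hY bg bg).cmul _).add ((bu.sq.mul bd).cmul _)).add
    (bd.cmul _)).of_eq (FV_st_eq lam u Y)).bd
  exact ⟨C, fun z hz => by rw [← Null_st_congr (e z (subset_closure hz))]; exact hC z⟩

theorem Mn.LL_add' (h : Mn Ω lam u) {X Y : ℂ → ℂ} (hX : LocallyLipschitz X)
    (hY : LocallyLipschitz Y) : LL lam Ω u (fun z => X z + Y z) = LL lam Ω u X + LL lam Ω u Y := by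
  unfold LL
  rw [← integral_add (h.integrableOn_st' hX) (h.integrableOn_st' hY)]
  refine integral_congr_ae (ae_restrict_of_ae ?_)
  filter_upwards [locLip_ae' hX, locLip_ae' hY] with z y1 y2
  simp only [st, dv, fderiv_fun_add y1 y2, _root_.add_apply, dot, add_re, add_im]
  ring

theorem Null_lip_smul (hb : Bornology.IsBounded Ω) {χ : ℂ → ℝ} {X : ℂ → ℂ} {K K' : NNReal}
    (hχ : LipschitzWith K χ) (h1 : ∀ z, 0 ≤ χ z ∧ χ z ≤ 1) (h0 : ∀ z, z ∉ Ω → χ z = 0)
    (hX : LipschitzWith K' X) : ∃ L, LipschitzWith L fun z => (χ z : ℂ) * X z := by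
  obtain ⟨M, hM⟩ := (hX.isBounded_image hb).exists_norm_le
  have key : ∀ x ∈ Ω, ∀ y, dist ((χ x : ℂ) * X x) (χ y * X y) ≤ (K * |M| + K') * dist x y := by
    intro x hx y
    have a1 : ‖X x‖ ≤ |M| := (hM _ ⟨x, hx, rfl⟩).trans (le_abs_self _)
    have a2 := hχ.dist_le_mul x y
    have a3 := hX.dist_le_mul x y
    rw [dist_eq_norm] at a2 a3 ⊢
    have e : (χ x : ℂ) * X x - χ y * X y = ((χ x - χ y : ℝ) : ℂ) * X x + χ y * (X x - X y) := by
      push_cast
      ring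
    have a4 : ‖(χ y : ℂ)‖ ≤ 1 := by
      rw [Complex.norm_real, Real.norm_eq_abs, abs_of_nonneg (h1 y).1]
      exact (h1 y).2
    rw [e]
    refine (norm_add_le _ _).trans ?_
    rw [norm_mul, norm_mul, Complex.norm_real]
    have b1 : ‖χ x - χ y‖ * ‖X x‖ ≤ K * dist x y * |M| := by gcongr
    have b2 : ‖(χ y : ℂ)‖ * ‖X x - X y‖ ≤ 1 * (K' * dist x y) := by gcongr
    linarith
  refine ⟨⟨K * |M| + K', by positivity⟩, LipschitzWith.of_dist_le_mul fun x y => ?_⟩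
  change _ ≤ (K * |M| + K' : ℝ) * dist x y
  by_cases hx : x ∈ Ω
  · exact key x hx y
  by_cases hy : y ∈ Ω
  · rw [dist_comm, dist_comm x y]
    exact key y hy x
  · rw [h0 x hx, h0 y hy]
    simp only [ofReal_zero, zero_mul, dist_self]
    positivity

theorem Null_small (h : Mn Ω lam u) {X : ℂ → ℂ} (hX : Continuous X)
    (h0 : ∀ p ∈ frontier Ω, (‖Gr Ω u p‖ ^ 2 - 1) * dot (X p) (nu Ω p) = 0) {η : ℝ} (hη : 0 < η) :
    ∃ δ, 0 < δ ∧ ∀ z ∈ Ω, ∀ p ∈ frontier Ω, ‖p - z‖ < δ → |tx lam u z (X z) (nu Ω p)| ≤ η := by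
  have hD : Dom Ω := h.toDom
  have hK : IsCompact (closure Ω) := hD.bdd.isCompact_closure
  have hF : IsCompact (frontier Ω) := hK.of_isClosed_subset isClosed_frontier frontier_subset_closure
  set Φ : ℂ × ℂ → ℝ := fun q => dot (Gr Ω u q.1) (X q.1) * dot (Gr Ω u q.1) (nu Ω q.2) -
    (‖Gr Ω u q.1‖ ^ 2 - lam * u q.1 ^ 2 + 1) / 2 * dot (X q.1) (nu Ω q.2) with hΦ
  have c1 : ContinuousOn (fun q : ℂ × ℂ => Gr Ω u q.1) (closure Ω ×ˢ frontier Ω) :=
    h.continuousOn_Gr.comp continuousOn_fst fun q hq => hq.1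
  have c2 : ContinuousOn (fun q : ℂ × ℂ => nu Ω q.2) (closure Ω ×ˢ frontier Ω) :=
    (hD.continuousOn_nu h.noCorner).comp continuousOn_snd fun q hq => hq.2
  have c3 : ContinuousOn (fun q : ℂ × ℂ => X q.1) (closure Ω ×ˢ frontier Ω) :=
    (hX.comp continuous_fst).continuousOn
  have c4 : ContinuousOn (fun q : ℂ × ℂ => u q.1) (closure Ω ×ˢ frontier Ω) :=
    (h.lip.continuous.comp continuous_fst).continuousOn
  have cd : ∀ {A B : ℂ × ℂ → ℂ}, ContinuousOn A (closure Ω ×ˢ frontier Ω) →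
      ContinuousOn B (closure Ω ×ˢ frontier Ω) →
      ContinuousOn (fun q => dot (A q) (B q)) (closure Ω ×ˢ frontier Ω) := by
    intro A B hA hB
    exact ((continuous_re.comp_continuousOn hA).mul (continuous_re.comp_continuousOn hB)).add
      ((continuous_im.comp_continuousOn hA).mul (continuous_im.comp_continuousOn hB))
  have hc : ContinuousOn Φ (closure Ω ×ˢ frontier Ω) :=
    ((cd c1 c3).mul (cd c1 c2)).sub
      (((((c1.norm.pow 2).sub (continuousOn_const.mul (c4.pow 2))).add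
        continuousOn_const).div_const 2).mul (cd c3 c2))
  obtain ⟨δ, hδ, hu⟩ := Metric.uniformContinuousOn_iff.1
    ((hK.prod hF).uniformContinuousOn_of_continuous hc) η hη
  refine ⟨δ, hδ, fun z hz p hp hd => ?_⟩
  have h1 := hu (z, p) ⟨subset_closure hz, hp⟩ (p, p) ⟨frontier_subset_closure hp, hp⟩ (by
    rw [Prod.dist_eq, dist_self, dist_comm, dist_eq_norm]
    exact max_lt hd hδ)
  have h2 : Φ (p, p) = 0 := by
    have hν : ‖nu Ω p‖ = 1 := (hD.isN_nu hp).1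
    have e1 := h.Gr_par hp
    have e2 := h0 p hp
    have e3 : u p = 0 := h.lip.zero p (hD.notMem_of_frontier hp)
    have e4 := Reg_sq hν
    simp only [hΦ, e3]
    generalize dot (Gr Ω u p) (nu Ω p) = γ at e1
    have e5 : ‖Gr Ω u p‖ ^ 2 = γ ^ 2 := by
      rw [e1, norm_mul, hν, mul_one, Complex.norm_real, Real.norm_eq_abs, sq_abs]
    have e6 : dot (Gr Ω u p) (X p) = γ * dot (X p) (nu Ω p) := by
      rw [e1]
      simp only [dot, mul_re, mul_im, ofReal_re, ofReal_im]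
      ring
    rw [e5] at e2 ⊢
    rw [e6]
    linear_combination e2 / 2
  have h3 : Φ (z, p) = tx lam u z (X z) (nu Ω p) := by
    simp only [hΦ, tx, h.Gr_eq hz]
  rw [h2, h3, Real.dist_eq, sub_zero] at h1
  exact h1.le

theorem Null_est (h : Mn Ω lam u) {X : ℂ → ℂ} {K : NNReal} (hX : LipschitzWith K X) {C η ε : ℝ}
    (hC : ∀ z ∈ Ω, |st lam u X z| ≤ C) (hε : 0 < ε)
    (hs : ∀ z ∈ Ω, ∀ p ∈ frontier Ω, ‖p - z‖ ≤ ε → |tx lam u z (X z) (nu Ω p)| ≤ η) :
    |LL lam Ω u X| ≤ (C + ε⁻¹ * η) * area {z | z ∈ Ω ∧ infDist z Ωᶜ ≤ ε} := by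
  have hD : Dom Ω := h.toDom
  obtain ⟨χ, K', hχ, h1, h2, h3, h4⟩ := hD.exists_cutoff h.noCorner hε
  obtain ⟨L, hL⟩ := Null_lip_smul hD.bdd hχ h1 h2 hX
  have hz := h.LL_zero hL fun z hz => by rw [h2 z hz]; simp
  set S : Set ℂ := {z | z ∈ Ω ∧ infDist z Ωᶜ ≤ ε} with hS
  have hSm : MeasurableSet S := hD.isOpen.measurableSet.inter
    (isClosed_le (continuous_infDist_pt _) continuous_const).measurableSet
  have hSs : S ⊆ Ω := fun z hz => hz.1
  have e : LL lam Ω u X = ∫ z in Ω, (st lam u X z - st lam u (fun z => (χ z : ℂ) * X z) z) := by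
    rw [integral_sub (h.integrableOn_st hX) (h.integrableOn_st hL)]
    unfold LL at hz
    rw [hz, sub_zero]
    rfl
  have hI : Integrable (S.indicator fun _ => C + ε⁻¹ * η) (volume.restrict Ω) :=
    ((FV_BM.const (C + ε⁻¹ * η)).integrableOn hD).indicator hSm
  have hb : ∀ᵐ z ∂(volume.restrict Ω),
      ‖st lam u X z - st lam u (fun z => (χ z : ℂ) * X z) z‖ ≤
        S.indicator (fun _ => C + ε⁻¹ * η) z := by
    rw [ae_restrict_iff' hD.isOpen.measurableSet]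
    filter_upwards [hχ.ae_differentiableAt (μ := volume), hX.ae_differentiableAt (μ := volume)]
      with z y1 y2 hzΩ
    rw [st_smul y1 y2, Real.norm_eq_abs]
    by_cases hzS : z ∈ S
    · rw [indicator_of_mem hzS]
      obtain ⟨p, hp, t, e1, e2, e3⟩ := h4 z hzΩ
      have a1 := hs z hzΩ p hp (e1.trans_le hzS.2)
      have a2 := hC z hzΩ
      rw [e3, tx_smul]
      have a3 : |(1 - χ z) * st lam u X z| ≤ 1 * C := by
        rw [abs_mul, abs_of_nonneg (sub_nonneg.2 (h1 z).2)]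
        exact mul_le_mul (by linarith [(h1 z).1]) a2 (abs_nonneg _) zero_le_one
      have a4 : |t * tx lam u z (X z) (nu Ω p)| ≤ ε⁻¹ * η := by
        rw [abs_mul]
        exact mul_le_mul e2 a1 (abs_nonneg _) (inv_pos.2 hε).le
      have e4 : st lam u X z - (χ z * st lam u X z + t * tx lam u z (X z) (nu Ω p)) =
          (1 - χ z) * st lam u X z - t * tx lam u z (X z) (nu Ω p) := by ring
      rw [e4]
      refine (abs_sub _ _).trans ?_
      linarith
    · rw [indicator_of_notMem hzS]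
      have a1 : ε ≤ infDist z Ωᶜ := le_of_lt (not_le.1 fun hh => hzS ⟨hzΩ, hh⟩)
      obtain ⟨e1, e2⟩ := h3 z a1
      rw [e1, e2]
      simp [tx, dot]
  have key := norm_integral_le_of_norm_le hI hb
  rw [← e, Real.norm_eq_abs, integral_indicator hSm, Measure.restrict_restrict hSm,
    inter_eq_left.2 hSs, setIntegral_const, smul_eq_mul, mul_comm] at key
  exact key

theorem Mn.LL_null (h : Mn Ω lam u) {X : ℂ → ℂ} (hX : LocallyLipschitz X)
    (h0 : ∀ p ∈ frontier Ω, (‖Gr Ω u p‖ ^ 2 - 1) * dot (X p) (nu Ω p) = 0) :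
    LL lam Ω u X = 0 := by
  have hD : Dom Ω := h.toDom
  obtain ⟨Y, K, hY, e⟩ := exists_lip_ext h.bdd hX
  have e1 : LL lam Ω u X = LL lam Ω u Y :=
    LL_congr hD.isOpen fun z hz => (e z (subset_closure hz)).eq_of_nhds.symm
  rw [e1]
  obtain ⟨C, hC⟩ := h.st_bound hY.locallyLipschitz
  obtain ⟨A, hA0, hA⟩ := hD.layer_area
  have hC0 : 0 ≤ C := by
    obtain ⟨z, hz⟩ := hD.ne
    exact (abs_nonneg _).trans (hC z hz)
  have key : ∀ η : ℝ, 0 < η → |LL lam Ω u Y| ≤ (C + 1) * A * η := by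
    intro η hη
    obtain ⟨δ, hδ, hs⟩ := Null_small h hY.continuous (fun p hp => by
      rw [(e p (frontier_subset_closure hp)).eq_of_nhds]
      exact h0 p hp) hη
    have hε : 0 < min η (δ / 2) := lt_min hη (by linarith)
    have a1 : min η (δ / 2) ≤ η := min_le_left _ _
    have a2 : min η (δ / 2) ≤ δ / 2 := min_le_right _ _
    generalize min η (δ / 2) = ε at hε a1 a2
    have b1 := Null_est h hY hC hε fun z hz p hp hd => hs z hz p hp (by linarith)
    have b2 : (C + ε⁻¹ * η) * area {z | z ∈ Ω ∧ infDist z Ωᶜ ≤ ε} ≤ (C + ε⁻¹ * η) * (A * ε) :=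
      mul_le_mul_of_nonneg_left (hA ε hε) (by positivity)
    have b3 : (C + ε⁻¹ * η) * (A * ε) = C * A * ε + A * η := by
      field_simp
    have b4 : C * A * ε ≤ C * A * η := by gcongr
    linarith
  by_contra hne
  have hp : 0 < |LL lam Ω u Y| := abs_pos.2 hne
  have hB : 0 < (C + 1) * A + 1 := by positivity
  have k1 := key (|LL lam Ω u Y| / ((C + 1) * A + 1)) (div_pos hp hB)
  rw [← mul_div_assoc, le_div_iff₀ hB] at k1
  nlinarith

theorem Mn.LL_null' (h : Mn Ω lam u) {X : ℂ → ℂ} (hX : LocallyLipschitz X)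
    (h0 : ∀ p ∈ frontier Ω, Ext Ω p ∨ X p = 0) : LL lam Ω u X = 0 := by
  refine h.LL_null hX fun p hp => ?_
  have hν : ‖nu Ω p‖ = 1 := (h.toIsMin.toDom.isN_nu hp).1
  rcases h0 p hp with h1 | h1
  · rcases h.Gr_ext h1 with h2 | h2
    · rw [h2, hν]
      simp
    · rw [h2, norm_neg, hν]
      simp
  · rw [h1]
    simp [dot]

end Pool.Agent.L2K
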