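import Pool.Agent.P.MP_2f6447_an.K.Tr
import Pool.Agent.P.MP_2f6447_an.K.ConeT
import Pool.Agent.P.MP_2f6447_an.H.Main
import Pool.Agent.P.MP_2f6447_an.H.Comp

/-! Numerical bounds: `lam * area ≤ 38.34` and `2 ≤ lam < 4` in strip position. -/

open Set MeasureTheory Filter Topology Complex Metric
open scoped ContDiff ComplexConjugate

namespace Pool.Agent.L2K

variable {Ω U : Set ℂ} {lam : ℝ} {u w f g : ℂ → ℝ}
variable {l r : ℝ → ℝ} {nT nB n φ : ℝ}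

theorem Num_bdd (Ω : Set ℂ) : BddBelow (RSc Ω) := by
  refine ⟨0, ?_⟩
  rintro r ⟨f, g, hf, hg, hl, hr⟩
  have h1 := hr 1 0
  have hf0 : f ≠ 0 := by simpa using hl.ne_zero 0
  have hc : Continuous f := hf.smooth.continuous
  have h2 : 0 < ∫ x, (1 * f x + 0 * g x) ^ 2 := by
    simp only [one_mul, zero_mul, add_zero]
    obtain ⟨z, hz⟩ := Function.ne_iff.1 hf0
    have hcs : HasCompactSupport fun x => f x ^ 2 :=
      hf.cpt.comp_left (g := fun t : ℝ => t ^ 2) (by simp)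
    exact (hc.pow 2).integral_pos_of_hasCompactSupport_nonneg_nonzero hcs
      (fun x => sq_nonneg _) (x := z) (pow_ne_zero 2 hz)
  have h3 : 0 ≤ ∫ x, ‖fderiv ℝ (fun y => 1 * f y + 0 * g y) x‖ ^ 2 :=
    integral_nonneg fun x => sq_nonneg _
  exact nonneg_of_mul_nonneg_left (h3.trans h1) h2

theorem Mn.lam_area_le (h : Mn Ω lam u) : lam * area Ω ≤ 38.34 := by
  obtain ⟨W, ho, hc, hv, ρ, hρ, hle⟩ := Pool.Agent.L2H.competitor (A := 1) one_pos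
  have hv' : volume (toE ⁻¹' W) = ENNReal.ofReal 1 := by rw [volume_toE, hv]
  have ho' : IsOpen (toE ⁻¹' W) := ho.preimage toE.continuous
  have hc' : Convex ℝ (toE ⁻¹' W) := hc.linear_preimage toE.toLinearEquiv.toLinearMap
  have hD : Dom (toE ⁻¹' W) :=
    ⟨ho', hc', bounded_of_volume ho' hc' (by rw [hv']; exact ENNReal.ofReal_ne_top),
      nonempty_of_measure_ne_zero (μ := volume) (by rw [hv']; simp)⟩
  have ha : area (toE ⁻¹' W) = 1 := by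
    unfold area
    rw [hv']
    simp
  have h1 := h.opt _ hD
  have h2 : lam2c (toE ⁻¹' W) ≤ ρ := csInf_le (Num_bdd _) (by rw [RSc_toE]; exact hρ)
  rw [ha, ← h.lam_eq] at h1
  linarith

theorem Num_wirt {G G' : ℝ → ℝ} {a b M κ : ℝ} (hab : a ≤ b) (hl : b - a ≤ Real.pi)
    (hc : ContinuousOn G (Icc a b)) (hd : ∀ x ∈ Ioo a b, HasDerivAt G (G' x) x)
    (hm : Measurable G') (hM : ∀ x, |G' x| ≤ M) (ha : G a = 0) (hb : G b = 0) (h0 : 0 < κ)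
    (h1 : κ < 1) : κ ^ 2 * ∫ x in a..b, G x ^ 2 ≤ ∫ x in a..b, G' x ^ 2 := by
  have hp := Real.pi_pos
  have hcos : ∀ x ∈ Icc a b, Real.cos (κ * (x - (a + b) / 2)) ≠ 0 := by
    intro x hx
    refine (Real.cos_pos_of_mem_Ioo ⟨?_, ?_⟩).ne' <;> nlinarith [hx.1, hx.2]
  set v : ℝ → ℝ := fun x => κ * Real.tan (κ * (x - (a + b) / 2)) with hv
  have hvd : ∀ x ∈ Icc a b, HasDerivAt v (κ ^ 2 + v x ^ 2) x := by
    intro x hx
    have e1 := ((hasDerivAt_id' x).sub_const ((a + b) / 2)).const_mul κ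
    have e2 := ((Real.hasDerivAt_tan (hcos x hx)).comp x e1).const_mul κ
    refine e2.congr_deriv ?_
    have c := hcos x hx
    simp only [hv]
    generalize κ * (x - (a + b) / 2) = θ at c ⊢
    have e : 1 / Real.cos θ ^ 2 = 1 + Real.tan θ ^ 2 := by
      rw [Real.tan_eq_sin_div_cos]
      field_simp
      nlinarith [Real.sin_sq_add_cos_sq θ]
    rw [e]
    ring
  have i1 : IntegrableOn (fun x => G' x ^ 2) (Icc a b) := by
    refine Measure.integrableOn_of_bounded (M := M ^ 2) measure_Icc_lt_top.ne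
      (hm.pow_const 2).aestronglyMeasurable (Eventually.of_forall fun x => ?_)
    rw [Real.norm_eq_abs, abs_pow]
    exact pow_le_pow_left₀ (abs_nonneg _) (hM x) 2
  have i2 : IntegrableOn (fun x => G x ^ 2) (Icc a b) := (hc.pow 2).integrableOn_Icc
  have i3 : IntegrableOn (fun x => G' x ^ 2 - κ ^ 2 * G x ^ 2) (Icc a b) :=
    i1.sub (i2.const_mul _)
  have hmain := intervalIntegral.sub_le_integral_of_hasDeriv_right_of_le hab
    (g := fun x => -(v x * G x ^ 2))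
    (g' := fun x => -((κ ^ 2 + v x ^ 2) * G x ^ 2 + v x * (2 * G x * G' x)))
    (ContinuousOn.neg (ContinuousOn.mul
      (fun x hx => (hvd x hx).continuousAt.continuousWithinAt) (hc.pow 2)))
    (fun x hx => by
      have h2 : HasDerivAt (fun t => G t ^ 2) (2 * G x * G' x) x := by
        simpa using (hd x hx).fun_pow 2
      exact ((hvd x (Ioo_subset_Icc_self hx)).fun_mul h2).fun_neg.hasDerivWithinAt)
    i3 (fun x _ => by nlinarith [sq_nonneg (G' x + v x * G x)])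
  have j1 : IntervalIntegrable (fun x => G' x ^ 2) volume a b :=
    (intervalIntegrable_iff_integrableOn_Icc_of_le hab).mpr i1
  have j2 : IntervalIntegrable (fun x => G x ^ 2) volume a b :=
    (intervalIntegrable_iff_integrableOn_Icc_of_le hab).mpr i2
  rw [intervalIntegral.integral_sub j1 (j2.const_mul _), intervalIntegral.integral_const_mul,
    ha, hb] at hmain
  linarith

theorem wirt {G G' : ℝ → ℝ} {a b M : ℝ} (hab : a ≤ b) (hl : b - a ≤ Real.pi)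
    (hc : ContinuousOn G (Icc a b)) (hd : ∀ x ∈ Ioo a b, HasDerivAt G (G' x) x)
    (hm : Measurable G') (hM : ∀ x, |G' x| ≤ M) (ha : G a = 0) (hb : G b = 0) :
    ∫ x in a..b, G x ^ 2 ≤ ∫ x in a..b, G' x ^ 2 := by
  have ht : Tendsto (fun κ : ℝ => κ ^ 2 * ∫ x in a..b, G x ^ 2) (𝓝[<] 1)
      (𝓝 (1 ^ 2 * ∫ x in a..b, G x ^ 2)) :=
    (Continuous.tendsto (by fun_prop) 1).mono_left nhdsWithin_le_nhds
  rw [one_pow, one_mul] at ht
  refine le_of_tendsto ht ?_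
  filter_upwards [Ioo_mem_nhdsLT (zero_lt_one' ℝ)] with κ hκ
  exact Num_wirt hab hl hc hd hm hM ha hb hκ.1 hκ.2

theorem Num_chord {S : Set ℝ} {G G' : ℝ → ℝ} {M : ℝ} (ho : IsOpen S) (hc : Convex ℝ S)
    (hs : S ⊆ Ioo 0 Real.pi) (hG : Continuous G) (hz : ∀ x, x ∉ S → G x = 0)
    (hd : ∀ x ∈ S, HasDerivAt G (G' x) x) (hm : Measurable G') (hM : ∀ x, |G' x| ≤ M) :
    ∫ x, G x ^ 2 ≤ ∫ x in S, G' x ^ 2 := by
  rw [← setIntegral_eq_integral_of_forall_compl_eq_zero (s := S) (f := fun x => G x ^ 2)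
    fun x hx => by simp [hz x hx]]
  rcases S.eq_empty_or_nonempty with h0 | hne
  · simp [h0]
  have b1 : BddBelow S := ⟨0, fun x hx => (hs hx).1.le⟩
  have b2 : BddAbove S := ⟨Real.pi, fun x hx => (hs hx).2.le⟩
  have n1 : sInf S ∉ S := fun hx => by
    obtain ⟨y, hy, hyS⟩ := ((frequently_lt_nhds (sInf S)).and_eventually (ho.mem_nhds hx)).exists
    exact absurd (csInf_le b1 hyS) (not_le.mpr hy)
  have n2 : sSup S ∉ S := fun hx => by
    obtain ⟨y, hy, hyS⟩ := ((frequently_gt_nhds (sSup S)).and_eventually (ho.mem_nhds hx)).exists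
    exact absurd (le_csSup b2 hyS) (not_le.mpr hy)
  have e : S = Ioo (sInf S) (sSup S) := by
    refine Subset.antisymm (fun x hx => ⟨?_, ?_⟩)
      ((hc.isConnected hne).Ioo_csInf_csSup_subset b1 b2)
    · exact lt_of_le_of_ne (csInf_le b1 hx) fun k => n1 (k ▸ hx)
    · exact lt_of_le_of_ne (le_csSup b2 hx) fun k => n2 (k ▸ hx)
  have hab : sInf S ≤ sSup S := csInf_le_csSup hne b1 b2
  have l1 : 0 ≤ sInf S := le_csInf hne fun x hx => (hs hx).1.le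
  have l2 : sSup S ≤ Real.pi := csSup_le hne fun x hx => (hs hx).2.le
  have k := wirt hab (by linarith) hG.continuousOn (fun x hx => hd x (e ▸ hx)) hm hM
    (hz _ n1) (hz _ n2)
  rw [intervalIntegral.integral_of_le hab, intervalIntegral.integral_of_le hab,
    integral_Ioc_eq_integral_Ioo, integral_Ioc_eq_integral_Ioo, ← e] at k
  exact k

theorem Str.two_le_lam (h : Str Ω lam u l r) : 2 ≤ lam := by
  have hD : Dom Ω := h.toDom
  have hΩ : MeasurableSet Ω := hD.isOpen.measurableSet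
  obtain ⟨K, hK⟩ := h.lip.lip
  have hb : ∀ z, |(grad u z).im| ≤ K := fun z => (abs_im_le_norm _).trans (norm_grad_le hK z)
  have hme : Measurable fun z => (grad u z).im := measurable_im.comp (measurable_grad u)
  have i1 : Integrable fun z => u z ^ 2 := (h.lip.memLp hD.bdd).integrable_sq
  have i2 : Integrable (Ω.indicator fun z => (grad u z).im ^ 2) := by
    refine (integrable_indicator_iff hΩ).mpr ?_
    refine Measure.integrableOn_of_bounded (M := (K : ℝ) ^ 2) hD.volume_ne_top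
      (hme.pow_const 2).aestronglyMeasurable (Eventually.of_forall fun x => ?_)
    rw [Real.norm_eq_abs, abs_pow]
    exact pow_le_pow_left₀ (abs_nonneg _) (hb x) 2
  have key : ∫ z, u z ^ 2 ≤ ∫ z in Ω, (grad u z).im ^ 2 := by
    rw [← integral_indicator hΩ, integral_eq_re_im i1, integral_eq_re_im i2]
    refine integral_mono (Basic_prod i1).2.integral_prod_left
      (Basic_prod i2).2.integral_prod_left fun x => ?_
    have hc := Top_cont x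
    have ho : IsOpen {y : ℝ | (⟨x, y⟩ : ℂ) ∈ Ω} := hD.isOpen.preimage hc
    have hv : Convex ℝ {y : ℝ | (⟨x, y⟩ : ℂ) ∈ Ω} := by
      intro y hy y' hy' s t hs ht hst
      have k := hD.convex hy hy' hs ht hst
      rw [Top_comb, ← add_mul, hst, one_mul] at k
      exact k
    have k := Num_chord (G := fun y => u ⟨x, y⟩) (G' := fun y => (grad u ⟨x, y⟩).im) ho hv
      (fun y hy => ((h.mem _).mp hy).1) (hK.continuous.comp hc) (fun y hy => h.lip.zero _ hy)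
      (fun y hy => hasDerivAt_im (h.helm.differentiableAt hy)) (hme.comp hc.measurable)
      fun y => hb _
    rw [← integral_indicator ho.measurableSet] at k
    exact k
  have h1 := h.iso.2
  have h2 := h.nrm
  have h3 := hD.area_pos
  have h4 := h.toMn.lam_pos
  rw [h1] at key
  by_contra hlt
  rw [not_le] at hlt
  nlinarith [mul_le_mul_of_nonneg_left key h4.le]

theorem Num_one {G : ℝ → ℝ} {c b : ℝ} (hcb : c < b) (hc : ContinuousOn G (Icc c b))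
    (hp : ∀ x ∈ Ioo c b, 0 < G x) (hw : 0 ≤ ∫ x in c..b, (G x ^ 2 - 1) * (x - c)) :
    ∃ x ∈ Ioo c b, 1 ≤ G x := by
  by_contra hn
  simp only [not_exists, not_and, not_le] at hn
  have hi : IntervalIntegrable (fun x => -((G x ^ 2 - 1) * (x - c))) volume c b := by
    refine ContinuousOn.intervalIntegrable ?_
    rw [uIcc_of_le hcb.le]
    exact (((hc.pow 2).sub continuousOn_const).mul (by fun_prop)).neg
  have k := intervalIntegral.intervalIntegral_pos_of_pos_on hi (fun x hx => by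
    have e1 := hp x hx
    have e2 := hn x hx
    have e3 : 0 < (1 - G x ^ 2) * (x - c) := mul_pos (by nlinarith) (sub_pos.mpr hx.1)
    linarith) hcb
  rw [intervalIntegral.integral_neg] at k
  linarith

theorem Num_oneT (h : Pat Ω lam u l r nT nB) : ∃ x ∈ Ioo nT (r Real.pi), 1 ≤ gT Ω u x :=
  Num_one h.memT.2 (h.toStr.continuousOn_gT.mono (Icc_subset_Icc_left h.memT.1.le))
    (fun _ hx => h.gT_pos (Ioo_subset_Ioc_self hx)) (h.toStr.wT (Ioo_subset_Icc_self h.memT))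

theorem Num_oneB (h : Pat Ω lam u l r nT nB) : ∃ x ∈ Ioo nB (r 0), 1 ≤ gB Ω u x :=
  Num_one h.memB.2 (h.toStr.continuousOn_gB.mono (Icc_subset_Icc_left h.memB.1.le))
    (fun _ hx => h.gB_pos (Ioo_subset_Ioc_self hx)) (h.toStr.wB (Ioo_subset_Icc_self h.memB))

theorem Pat.oneT (h : Pat Ω lam u l r nT nB) :
    (∃ x ∈ Ioo nT (r Real.pi), 1 ≤ gT Ω u x) ∧ ∃ x ∈ Ioo (l Real.pi) nT, gT Ω u x ≤ -1 := by
  refine ⟨Num_oneT h, ?_⟩
  obtain ⟨x, hx, h1⟩ := Num_oneT (h.flipX 0)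
  have k1 := hx.1
  have k2 := hx.2
  have k3 := h.memT.2
  rw [h.toStr.gT_flipX 0 ⟨by linarith, by linarith⟩] at h1
  exact ⟨2 * 0 - x, ⟨by linarith, by linarith⟩, by linarith⟩

theorem Pat.oneB (h : Pat Ω lam u l r nT nB) :
    (∃ x ∈ Ioo nB (r 0), 1 ≤ gB Ω u x) ∧ ∃ x ∈ Ioo (l 0) nB, gB Ω u x ≤ -1 := by
  refine ⟨Num_oneB h, ?_⟩
  obtain ⟨x, hx, h1⟩ := Num_oneB (h.flipX 0)
  have k1 := hx.1
  have k2 := hx.2
  have k3 := h.memB.2
  rw [h.toStr.gB_flipX 0 ⟨by linarith, by linarith⟩] at h1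
  exact ⟨2 * 0 - x, ⟨by linarith, by linarith⟩, by linarith⟩

theorem Num_dx (w : ℂ → ℝ) :
    L2H.dx (fun p : ℝ × ℝ => w ⟨p.1, p.2⟩) = fun p : ℝ × ℝ => D 1 w ⟨p.1, p.2⟩ := by
  funext p
  have h1 : fderiv ℝ (w ∘ equivRealProdCLM.symm) p =
      (fderiv ℝ w (equivRealProdCLM.symm p)).comp (equivRealProdCLM.symm : ℝ × ℝ →L[ℝ] ℂ) :=
    equivRealProdCLM.symm.comp_right_fderiv
  exact congrArg (fun T : ℝ × ℝ →L[ℝ] ℝ => T (1, 0)) h1

theorem Num_dy (w : ℂ → ℝ) :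
    L2H.dy (fun p : ℝ × ℝ => w ⟨p.1, p.2⟩) = fun p : ℝ × ℝ => D I w ⟨p.1, p.2⟩ := by
  funext p
  have h1 : fderiv ℝ (w ∘ equivRealProdCLM.symm) p =
      (fderiv ℝ w (equivRealProdCLM.symm p)).comp (equivRealProdCLM.symm : ℝ × ℝ →L[ℝ] ℂ) :=
    equivRealProdCLM.symm.comp_right_fderiv
  exact congrArg (fun T : ℝ × ℝ →L[ℝ] ℝ => T (0, 1)) h1

theorem Num_sol (h : Mn U 1 w) :
    L2H.Sol {p : ℝ × ℝ | (⟨p.1, p.2⟩ : ℂ) ∈ U} fun p : ℝ × ℝ => w ⟨p.1, p.2⟩ := by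
  obtain ⟨K, hK⟩ := h.lip.lip
  refine ⟨h.isOpen.preimage equivRealProdCLM.symm.continuous,
    equivRealProdCLM.symm.antilipschitz.isBounded_preimage h.bdd,
    ⟨_, hK.comp equivRealProdCLM.symm.lipschitz⟩, fun p hp => h.lip.zero _ hp,
    (h.helm.smooth.of_le HelmD_two).comp equivRealProdCLM.symm.contDiff.contDiffOn
      fun _ hp => hp, fun p hp => ?_⟩
  have k := h.helm.eq _ hp
  rw [Num_dx, Num_dy, Num_dx, Num_dy]
  rw [one_mul] at k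
  exact k

theorem Num_int (U : Set ℂ) (F : ℂ → ℝ) :
    ∫ p in {p : ℝ × ℝ | (⟨p.1, p.2⟩ : ℂ) ∈ U}, F ⟨p.1, p.2⟩ = ∫ z in U, F z :=
  Complex.volume_preserving_equiv_real_prod.symm.setIntegral_preimage_emb
    (MeasurableEquiv.measurableEmbedding _) F U

theorem Num_vol (U : Set ℂ) : volume {p : ℝ × ℝ | (⟨p.1, p.2⟩ : ℂ) ∈ U} = volume U :=
  Complex.volume_preserving_equiv_real_prod.symm.measure_preimage_equiv U

theorem Num_sim (s x y : ℝ) : sim 0 ((s⁻¹ : ℝ) : ℂ) ⟨x, y⟩ = ⟨s⁻¹ * x, s⁻¹ * y⟩ := by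
  apply Complex.ext <;> simp only [sim, zero_add, re_ofReal_mul, im_ofReal_mul]

theorem Num_grad (u : ℂ → ℝ) {s : ℝ} (hs : 0 < s) (z : ℂ) :
    grad (fun x => s * u (sim 0 ((s⁻¹ : ℝ) : ℂ) x)) z = grad u (sim 0 ((s⁻¹ : ℝ) : ℂ) z) := by
  rw [grad_const_mul, grad_sim u 0 (ofReal_ne_zero.mpr (inv_ne_zero hs.ne')), conj_ofReal,
    ← mul_assoc, ← ofReal_mul, mul_inv_cancel₀ hs.ne', ofReal_one, one_mul]

theorem Num_arc (h : Mn Ω lam u) {s a b y : ℝ} (hs : 0 < s) (hab : a ≠ b)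
    (hin : ∀ x ∈ uIoo a b, (⟨x, s⁻¹ * y⟩ : ℂ) ∈ Ω ∧ 0 < u ⟨x, s⁻¹ * y⟩)
    (hb : (⟨b, s⁻¹ * y⟩ : ℂ) ∈ frontier Ω) (hG : ‖Gr Ω u ⟨b, s⁻¹ * y⟩‖ = 1) :
    L2H.ArcAt (fun p : ℝ × ℝ => s * u (sim 0 ((s⁻¹ : ℝ) : ℂ) ⟨p.1, p.2⟩)) y := by
  have hm : ∀ x ∈ uIoo (s * a) (s * b), s⁻¹ * x ∈ uIoo a b := by
    intro x hx
    obtain ⟨t, rfl⟩ : ∃ t, x = s * t := ⟨s⁻¹ * x, by field_simp⟩
    rw [inv_mul_cancel_left₀ hs.ne']
    rcases lt_or_gt_of_ne hab with k | k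
    · rw [uIoo_of_lt (mul_lt_mul_of_pos_left k hs)] at hx
      rw [uIoo_of_lt k]
      exact ⟨lt_of_mul_lt_mul_left hx.1 hs.le, lt_of_mul_lt_mul_left hx.2 hs.le⟩
    · rw [uIoo_of_gt (mul_lt_mul_of_pos_left k hs)] at hx
      rw [uIoo_of_gt k]
      exact ⟨lt_of_mul_lt_mul_left hx.1 hs.le, lt_of_mul_lt_mul_left hx.2 hs.le⟩
  refine ⟨s * a, s * b, fun k => hab (mul_left_cancel₀ hs.ne' k), fun x hx => ?_, ?_, ?_⟩
  · simp only [Num_sim]
    exact mul_pos hs (hin _ (hm x hx)).2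
  · simp only [Num_sim]
    rw [inv_mul_cancel_left₀ hs.ne', h.lip.zero _ (h.toDom.notMem_of_frontier hb), mul_zero]
  · have hc : Continuous fun x : ℝ => (⟨s⁻¹ * x, s⁻¹ * y⟩ : ℂ) :=
      (Top_cont' _).comp (by fun_prop)
    have t1 : Tendsto (fun x : ℝ => (⟨s⁻¹ * x, s⁻¹ * y⟩ : ℂ)) (𝓝[uIoo (s * a) (s * b)] (s * b))
        (𝓝[Ω] ⟨b, s⁻¹ * y⟩) := by
      refine tendsto_nhdsWithin_iff.mpr ⟨?_, ?_⟩
      · have k := (hc.tendsto (s * b)).mono_left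
          (nhdsWithin_le_nhds (s := uIoo (s * a) (s * b)))
        rwa [inv_mul_cancel_left₀ hs.ne'] at k
      · filter_upwards [self_mem_nhdsWithin] with x hx using (hin _ (hm x hx)).1
    have t2 := ((h.tendsto_Gr (frontier_subset_closure hb)).comp t1).norm.pow 2
    rw [hG, one_pow] at t2
    refine t2.congr fun x => ?_
    rw [Num_dx fun z => s * u (sim 0 ((s⁻¹ : ℝ) : ℂ) z),
      Num_dy fun z => s * u (sim 0 ((s⁻¹ : ℝ) : ℂ) z), Function.comp_apply, ← Num_sim,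
      ← Num_grad u hs, Seg_normsq]
    rfl

theorem Num_slope {V : ℝ × ℝ → ℝ} {ψ : ℝ → ℝ} {s : ℝ} (hs : 0 < s) (x₀ : ℝ)
    (hV : ∀ t, V (x₀, t) = s * ψ (s⁻¹ * t))
    (h : ∀ γ : ℝ, γ < 1 → ∃ ρ : ℝ, 0 < ρ ∧ ∀ t, 0 < t → t < ρ → γ * t < ψ t) : L2H.Slope V := by
  refine ⟨x₀, fun ε hε => ?_⟩
  obtain ⟨ρ, hρ, k⟩ := h (1 - ε) (by linarith)
  filter_upwards [Ioo_mem_nhdsGT (mul_pos hs hρ)] with t ht
  obtain ⟨τ, rfl⟩ : ∃ τ, t = s * τ := ⟨s⁻¹ * t, by field_simp⟩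
  rw [hV, inv_mul_cancel_left₀ hs.ne']
  have k1 := k τ ((mul_pos_iff_of_pos_left hs).mp ht.1) (lt_of_mul_lt_mul_left ht.2 hs.le)
  nlinarith

theorem Num_ball {x c t ρ : ℝ} (h : |t - c| < ρ) : (⟨x, t⟩ : ℂ) ∈ ball (⟨x, c⟩ : ℂ) ρ := by
  rw [mem_ball, ConeT_dv]
  exact h

theorem Num_arcR (h : Pat Ω lam u l r nT nB) {y : ℝ} (hy : y ∈ Ioo 0 Real.pi) :
    ∃ a, a ≠ r y ∧ ∀ x ∈ uIoo a (r y), (⟨x, y⟩ : ℂ) ∈ Ω ∧ 0 < u ⟨x, y⟩ := by
  have hy' := Ioo_subset_Icc_self hy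
  obtain ⟨ρ, c, hρ, -, k⟩ := h.toMn.pos_near (h.toGeo.right_mem hy') (ConeT_dot_right h hy')
  have hlt : max (l y) (r y - ρ) < r y := max_lt (h.toGeo.lt hy') (by linarith)
  refine ⟨_, hlt.ne, fun x hx => ?_⟩
  rw [uIoo_of_lt hlt, mem_Ioo, max_lt_iff] at hx
  have hm : (⟨x, y⟩ : ℂ) ∈ Ω := (h.mem _).mpr ⟨hy, hx.1.1, hx.2⟩
  refine ⟨hm, (k _ hm ?_).1⟩
  rw [mem_ball, ConeT_dh, abs_lt]
  constructor <;> linarith [hx.1.2, hx.2]

theorem Num_arcL (h : Pat Ω lam u l r nT nB) {y : ℝ} (hy : y ∈ Ioo 0 Real.pi) :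
    ∃ a, a ≠ l y ∧ ∀ x ∈ uIoo a (l y), (⟨x, y⟩ : ℂ) ∈ Ω ∧ 0 < -u ⟨x, y⟩ := by
  have hy' := Ioo_subset_Icc_self hy
  obtain ⟨ρ, c, hρ, -, k⟩ := h.toMn.neg_near (h.toGeo.left_mem hy') (ConeT_dot_left h hy')
  have hlt : l y < min (r y) (l y + ρ) := lt_min (h.toGeo.lt hy') (by linarith)
  refine ⟨_, hlt.ne', fun x hx => ?_⟩
  rw [uIoo_of_gt hlt, mem_Ioo, lt_min_iff] at hx
  have hm : (⟨x, y⟩ : ℂ) ∈ Ω := (h.mem _).mpr ⟨hy, hx.1, hx.2.1⟩
  refine ⟨hm, neg_pos.mpr (k _ hm ?_).1⟩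
  rw [mem_ball, ConeT_dh, abs_lt]
  constructor <;> linarith [hx.1, hx.2.2]

theorem Pat.lam_lt_four (h : Pat Ω lam u l r nT nB) : lam < 4 := by
  by_contra h4
  rw [not_lt] at h4
  obtain ⟨s, hs, hs2⟩ : ∃ s : ℝ, 0 < s ∧ s ^ 2 = lam :=
    ⟨√lam, Real.sqrt_pos.mpr (by linarith), Real.sq_sqrt (by linarith)⟩
  have hs3 : 2 ≤ s := by nlinarith
  have hp := Real.pi_pos
  have hD : Dom Ω := h.toDom
  have hΩ : MeasurableSet Ω := hD.isOpen.measurableSet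
  have ha : ((s⁻¹ : ℝ) : ℂ) ≠ 0 := ofReal_ne_zero.mpr (inv_ne_zero hs.ne')
  have hn : ‖((s⁻¹ : ℝ) : ℂ)‖ = s⁻¹ := by
    rw [norm_real, Real.norm_of_nonneg (inv_pos.mpr hs).le]
  have hl : (‖((s⁻¹ : ℝ) : ℂ)‖ ^ 2)⁻¹ = lam := by rw [hn, inv_pow, inv_inv, hs2]
  have hM := h.toMn.of_sim 0 ha
  rw [hn, inv_inv, show lam * s⁻¹ ^ 2 = 1 by rw [← hs2]; field_simp] at hM
  have hA : area (sim 0 ((s⁻¹ : ℝ) : ℂ) ⁻¹' Ω) = lam * area Ω := by rw [area_sim 0 ha hΩ, hl]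
  have hI : ∀ F : ℂ → ℝ, ∫ z in sim 0 ((s⁻¹ : ℝ) : ℂ) ⁻¹' Ω, F (sim 0 ((s⁻¹ : ℝ) : ℂ) z) =
      lam * ∫ z in Ω, F z := fun F => by
    rw [← integral_indicator hM.isOpen.measurableSet, ← integral_indicator hΩ, ← hl,
      ← integral_comp_sim 0 ha]
    rfl
  have hy : ∀ y ∈ Ioo 0 (s * Real.pi), s⁻¹ * y ∈ Ioo 0 Real.pi := fun y hy =>
    ⟨mul_pos (inv_pos.mpr hs) hy.1, (inv_mul_lt_iff₀ hs).mpr hy.2⟩
  have hx : ∀ x, s⁻¹ * (s * x) = x := fun x => inv_mul_cancel_left₀ hs.ne' x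
  have ht : ∀ t, s⁻¹ * (s * Real.pi - t) = Real.pi - s⁻¹ * t := fun t => by rw [mul_sub, hx]
  obtain ⟨⟨x1, m1, g1⟩, x2, m2, g2⟩ := h.oneB
  obtain ⟨⟨x3, m3, g3⟩, x4, m4, g4⟩ := h.oneT
  have key := L2H.height_bound (Num_sol hM) (h := s * Real.pi) (A := lam * area Ω)
    (by nlinarith) (fun p hp => ?_) (fun y k => ?_) (fun y k => ?_) ?_ ?_ ?_ ?_ ?_ ?_ ?_ ?_
  · linarith [h.toMn.lam_area_le]
  · have k : sim 0 ((s⁻¹ : ℝ) : ℂ) ⟨p.1, p.2⟩ ∈ Ω := hp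
    rw [Num_sim, h.mem] at k
    exact ⟨(mul_pos_iff_of_pos_left (inv_pos.mpr hs)).mp k.1.1,
      (inv_mul_lt_iff₀ hs).mp k.1.2⟩
  · obtain ⟨a, k1, k2⟩ := Num_arcR h (hy y k)
    have k3 := h.toGeo.right_mem (Ioo_subset_Icc_self (hy y k))
    refine Num_arc h.toMn hs k1 k2 k3 ?_
    rw [h.sgR _ (Ioo_subset_Icc_self (hy y k)), norm_neg, Slope1_norm_nu hD k3]
  · obtain ⟨a, k1, k2⟩ := Num_arcL h (hy y k)
    have k3 := h.toGeo.left_mem (Ioo_subset_Icc_self (hy y k))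
    have k4 := Num_arc h.toMn.neg hs k1 k2 k3 (by
      rw [h.toMn.Gr_neg (frontier_subset_closure k3), norm_neg,
        h.sgL _ (Ioo_subset_Icc_self (hy y k)), Slope1_norm_nu hD k3])
    simpa only [mul_neg] using k4
  · refine Num_slope (ψ := fun t => u ⟨x1, t⟩) hs (s * x1) (fun t => by simp only [Num_sim, hx])
      fun γ hγ => ?_
    obtain ⟨ρ, hρ, k⟩ := h.toStr.slopeB_lower (x := x1) (γ := γ)
      ⟨h.memB.1.trans m1.1, m1.2⟩ (by linarith)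
    exact ⟨ρ, hρ, fun t t0 t1 => (k _ (Num_ball (by rwa [sub_zero, abs_of_pos t0])) t0).2⟩
  · refine Num_slope (ψ := fun t => -u ⟨x2, t⟩) hs (s * x2)
      (fun t => by simp only [Num_sim, hx, mul_neg]) fun γ hγ => ?_
    obtain ⟨ρ, hρ, k⟩ := h.toStr.slopeB_upper (x := x2) (γ := -γ)
      ⟨m2.1, m2.2.trans h.memB.2⟩ (by linarith)
    refine ⟨ρ, hρ, fun t t0 t1 => ?_⟩
    have k1 := (k ⟨x2, t⟩ (Num_ball (by rwa [sub_zero, abs_of_pos t0])) t0).2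
    simp only at k1 ⊢
    linarith
  · refine Num_slope (ψ := fun t => u ⟨x3, Real.pi - t⟩) hs (s * x3)
      (fun t => by simp only [Num_sim, hx, ht]) fun γ hγ => ?_
    obtain ⟨ρ, hρ, k⟩ := h.toStr.slope_lower (x := x3) (γ := γ)
      ⟨h.memT.1.trans m3.1, m3.2⟩ (by linarith)
    refine ⟨ρ, hρ, fun t t0 t1 => ?_⟩
    have k1 := (k ⟨x3, Real.pi - t⟩ (Num_ball (by
      rwa [sub_sub_cancel_left, abs_neg, abs_of_pos t0])) (sub_lt_self _ t0)).2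
    simp only [sub_sub_cancel] at k1 ⊢
    exact k1
  · refine Num_slope (ψ := fun t => -u ⟨x4, Real.pi - t⟩) hs (s * x4)
      (fun t => by simp only [Num_sim, hx, ht, mul_neg]) fun γ hγ => ?_
    obtain ⟨ρ, hρ, k⟩ := h.toStr.slope_upper (x := x4) (γ := -γ)
      ⟨m4.1, m4.2.trans h.memT.2⟩ (by linarith)
    refine ⟨ρ, hρ, fun t t0 t1 => ?_⟩
    have k1 := (k ⟨x4, Real.pi - t⟩ (Num_ball (by
      rwa [sub_sub_cancel_left, abs_neg, abs_of_pos t0])) (sub_lt_self _ t0)).2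
    simp only [sub_sub_cancel] at k1 ⊢
    linarith
  · rw [Num_vol, ← hA]
    rfl
  · rw [Num_int _ fun z => (s * u (sim 0 ((s⁻¹ : ℝ) : ℂ) z)) ^ 2,
      setIntegral_eq_integral_of_forall_compl_eq_zero fun z hz => by
        rw [hM.lip.zero z hz]; simp, ← hA, ← hM.nrm, one_mul]
  · rw [Num_dx fun z => s * u (sim 0 ((s⁻¹ : ℝ) : ℂ) z),
      Num_int _ fun z => D 1 (fun z => s * u (sim 0 ((s⁻¹ : ℝ) : ℂ) z)) z ^ 2, mul_div_assoc,
      ← h.toStr.iso.1, ← hI]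
    simp only [← Num_grad u hs]
    rfl
  · rw [Num_dy fun z => s * u (sim 0 ((s⁻¹ : ℝ) : ℂ) z),
      Num_int _ fun z => D I (fun z => s * u (sim 0 ((s⁻¹ : ℝ) : ℂ) z)) z ^ 2, mul_div_assoc,
      ← h.toStr.iso.2, ← hI]
    simp only [← Num_grad u hs]
    rfl

end Pool.Agent.L2K
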