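import Pool.Agent.P.MP_2f6447_an.K.Zero
import Pool.Agent.P.MP_2f6447_an.K.Mom

/-! The shape of the slope on the segments. -/

open Set MeasureTheory Filter Topology Complex Metric
open scoped ContDiff ComplexConjugate

namespace Pool.Agent.L2K

variable {Ω U : Set ℂ} {lam : ℝ} {u w f g : ℂ → ℝ}
variable {l r : ℝ → ℝ} {nT nB n φ : ℝ}

theorem PatB_zd (h : Pat Ω lam u l r nT nB) {z : ℂ} (hz : z ∈ ux Ω u 1) : ZD Ω u 1 z := by
  rcases h.toStr.cx_alt hz with h1 | ⟨p, hp, h1, -⟩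
  · exact h1
  · have := h.arc_re_neg hp
    linarith

theorem PatB_cx_eq (h : Pat Ω lam u l r nT nB) {z x : ℂ} (hz : z ∈ ux Ω u 1)
    (hx : x ∈ ux Ω u 1) : cx Ω u 1 z = cx Ω u 1 x := by
  obtain ⟨y, h1, h2⟩ := not_disjoint_iff.1 (h.toStr.zd_unique hz hx (PatB_zd h hz) (PatB_zd h hx))
  exact (connectedComponentIn_eq h1).trans (connectedComponentIn_eq h2).symm

theorem PatB_sub (σ : ℝ) (z : ℂ) : cx Ω u σ z ⊆ ux Ω u σ := connectedComponentIn_subset _ _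

theorem PatB_disj {z x y : ℂ} (h1 : y ∈ cx Ω u 1 z) (h2 : y ∈ cx Ω u (-1) x) : False := by
  have e1 := (PatB_sub 1 z h1).2
  have e2 := (PatB_sub (-1) x h2).2
  linarith

theorem PatB_arc_closure (h : Geo Ω l r) {p : ℂ} (hp : Arc l r p) : p ∈ closure Ω := by
  have hy : p.im ∈ Icc 0 Real.pi := Ioo_subset_Icc_self hp.1
  have hlt := h.lt hy
  rw [h.mem_closure]
  refine ⟨hy, ?_⟩
  rcases hp.2 with e | e <;> rw [e] <;> constructor <;> linarith

theorem PatB_arc_not (h : Geo Ω l r) {p : ℂ} (hp : Arc l r p) : p ∉ Ω := by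
  intro hm
  obtain ⟨-, h1, h2⟩ := (h.mem p).1 hm
  rcases hp.2 with e | e <;> linarith

theorem PatB_top_not (h : Geo Ω l r) (x : ℝ) : (⟨x, Real.pi⟩ : ℂ) ∉ Ω := by
  intro hm
  exact lt_irrefl _ ((h.mem _).1 hm).1.2

theorem Pat.no_pmp (h : Pat Ω lam u l r nT nB) {a b c : ℝ} (ha : l Real.pi < a) (hab : a < b)
    (hbc : b < c) (hc : c < r Real.pi) (h1 : 0 < deriv (gT Ω u) a) (h2 : deriv (gT Ω u) b < 0)
    (h3 : 0 < deriv (gT Ω u) c) : False := by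
  have hG : Geo Ω l r := h.toStr.toGeo
  have cl : ∀ x ∈ Ioo (l Real.pi) (r Real.pi), (⟨x, Real.pi⟩ : ℂ) ∈ closure Ω := fun x hx =>
    frontier_subset_closure (hG.top_mem (Ioo_subset_Icc_self hx))
  have ma : a ∈ Ioo (l Real.pi) (r Real.pi) := ⟨ha, by linarith⟩
  have mb : b ∈ Ioo (l Real.pi) (r Real.pi) := ⟨by linarith, by linarith⟩
  have mc : c ∈ Ioo (l Real.pi) (r Real.pi) := ⟨by linarith, hc⟩
  obtain ⟨z1, hz1, k1⟩ := h.toStr.cx_top (σ := 1) ma (by linarith)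
  obtain ⟨z2, hz2, k2⟩ := h.toStr.cx_top (σ := -1) mb (by linarith)
  obtain ⟨z3, hz3, k3⟩ := h.toStr.cx_top (σ := 1) mc (by linarith)
  rw [PatB_cx_eq h hz3 hz1] at k3
  rcases h.toStr.cx_alt hz2 with hZ | ⟨p, hp, -, kp⟩
  · obtain ⟨y, e1, e2⟩ := not_disjoint_iff.1 (h.toStr.zd_unique hz1 hz2 (PatB_zd h hz1) hZ)
    exact PatB_disj e1 e2
  · obtain ⟨pS, sS⟩ := h.toStr.cx_path hz1 (cl a ma) (cl c mc) k1 k3
    obtain ⟨pT, sT⟩ := h.toStr.cx_path hz2 (cl b mb) (PatB_arc_closure hG hp) k2 kp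
    obtain ⟨y, e1, e2⟩ := hG.cl_TT pS pT sS sT hab hbc (mem_insert _ _)
      (mem_insert_of_mem _ (mem_insert _ _)) (mem_insert _ _) hp
      (mem_insert_of_mem _ (mem_insert _ _))
    have top : ∀ x : ℝ, x ≠ b → y ≠ ⟨x, Real.pi⟩ := by
      intro x hx e
      rcases e2 with e2 | e2 | e2
      · have := congrArg Complex.re (e.symm.trans e2)
        exact hx this
      · have := congrArg Complex.im (e.symm.trans e2)
        exact absurd hp.1.2 (by rw [← this]; exact lt_irrefl _)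
      · exact PatB_top_not hG x (e ▸ (PatB_sub (-1) z2 e2).1)
    rcases e1 with e1 | e1 | e1
    · exact top a hab.ne e1
    · exact top c hbc.ne' e1
    · have hy : y ∈ Ω := (PatB_sub 1 z1 e1).1
      rcases e2 with e2 | e2 | e2
      · exact PatB_top_not hG b (e2 ▸ hy)
      · exact PatB_arc_not hG hp (e2 ▸ hy)
      · exact PatB_disj e1 e2

theorem shape {G : ℝ → ℝ} {a b n : ℝ} (hc : ContinuousOn G (Icc a b))
    (hd : DifferentiableOn ℝ G (Ioo a b)) (ha : G a = -1) (hb : G b = 1) (hn : n ∈ Ioo a b)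
    (h0 : G n = 0) (hp : ∀ s t e, a < s → s < t → t < e → e < b → 0 < deriv G s → deriv G t < 0 →
      0 < deriv G e → False) (hk : ∀ s t, a ≤ s → s < t → t ≤ b → ∃ x ∈ Ioo s t, deriv G x ≠ 0) :
    ∃ α β, a ≤ α ∧ α < n ∧ n < β ∧ β ≤ b ∧ AntitoneOn G (Icc a α) ∧ StrictMonoOn G (Icc α β) ∧
      AntitoneOn G (Icc β b) := by
  obtain ⟨han, hnb⟩ := hn
  set P : Set ℝ := {x | x ∈ Ioo a b ∧ 0 < deriv G x} with hP
  obtain ⟨s0, hs0, es⟩ := exists_deriv_eq_slope G han (hc.mono (Icc_subset_Icc_right hnb.le))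
    (hd.mono (Ioo_subset_Ioo_right hnb.le))
  obtain ⟨e0, he0, ee⟩ := exists_deriv_eq_slope G hnb (hc.mono (Icc_subset_Icc_left han.le))
    (hd.mono (Ioo_subset_Ioo_left han.le))
  have ms : s0 ∈ P := by
    refine ⟨⟨hs0.1, hs0.2.trans hnb⟩, ?_⟩
    rw [es, h0, ha]
    exact div_pos (by norm_num) (by linarith)
  have me : e0 ∈ P := by
    refine ⟨⟨han.trans he0.1, he0.2⟩, ?_⟩
    rw [ee, h0, hb]
    exact div_pos (by norm_num) (by linarith)
  have bb : BddBelow P := ⟨a, fun x hx => hx.1.1.le⟩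
  have ba : BddAbove P := ⟨b, fun x hx => hx.1.2.le⟩
  have h1 : a ≤ sInf P := le_csInf ⟨s0, ms⟩ fun x hx => hx.1.1.le
  have h2 : sInf P < n := (csInf_le bb ms).trans_lt hs0.2
  have h3 : n < sSup P := he0.1.trans_le (le_csSup ba me)
  have h4 : sSup P ≤ b := csSup_le ⟨s0, ms⟩ fun x hx => hx.1.2.le
  refine ⟨sInf P, sSup P, h1, h2, h3, h4, ?_, ?_, ?_⟩
  · refine antitoneOn_of_deriv_nonpos (convex_Icc _ _)
      (hc.mono (Icc_subset_Icc_right (by linarith))) ?_ ?_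
    · rw [interior_Icc]
      exact hd.mono (Ioo_subset_Ioo_right (by linarith))
    · rw [interior_Icc]
      intro x hx
      by_contra hx0
      have : x ∈ P := ⟨⟨hx.1, by linarith [hx.2]⟩, not_le.1 hx0⟩
      exact absurd (csInf_le bb this) (not_le.2 hx.2)
  · have hm : MonotoneOn G (Icc (sInf P) (sSup P)) := by
      refine monotoneOn_of_deriv_nonneg (convex_Icc _ _) (hc.mono (Icc_subset_Icc h1 h4)) ?_ ?_
      · rw [interior_Icc]
        exact hd.mono (Ioo_subset_Ioo h1 h4)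
      · rw [interior_Icc]
        intro x hx
        by_contra hx0
        obtain ⟨s, hs, hsx⟩ := exists_lt_of_csInf_lt ⟨s0, ms⟩ hx.1
        obtain ⟨e, he, hxe⟩ := exists_lt_of_lt_csSup ⟨s0, ms⟩ hx.2
        exact hp s x e hs.1.1 hsx hxe he.1.2 hs.2 (not_le.1 hx0) he.2
    intro x hx y hy hxy
    refine lt_of_le_of_ne (hm hx hy hxy.le) fun e => ?_
    obtain ⟨z, hz, hz0⟩ := hk x y (h1.trans hx.1) hxy (hy.2.trans h4)
    apply hz0
    have : G =ᶠ[𝓝 z] fun _ => G x := by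
      filter_upwards [Ioo_mem_nhds hz.1 hz.2] with t ht
      have mt : t ∈ Icc (sInf P) (sSup P) := ⟨hx.1.trans ht.1.le, ht.2.le.trans hy.2⟩
      have := hm hx mt ht.1.le
      have := hm mt hy ht.2.le
      linarith
    rw [this.deriv_eq]
    exact deriv_const _ _
  · refine antitoneOn_of_deriv_nonpos (convex_Icc _ _)
      (hc.mono (Icc_subset_Icc_left (by linarith))) ?_ ?_
    · rw [interior_Icc]
      exact hd.mono (Ioo_subset_Ioo_left (by linarith))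
    · rw [interior_Icc]
      intro x hx
      by_contra hx0
      have : x ∈ P := ⟨⟨by linarith [hx.1], hx.2⟩, not_le.1 hx0⟩
      exact absurd (le_csSup ba this) (not_le.2 hx.1)

theorem tail {G : ℝ → ℝ} {n β b c : ℝ} (hc : ContinuousOn G (Icc n b)) (h0 : G n = 0) (hb : G b = 1)
    (h1 : n < β) (h2 : β ≤ b) (hm : StrictMonoOn G (Icc n β)) (ha : AntitoneOn G (Icc β b))
    (hw : 0 ≤ ∫ x in n..b, (G x ^ 2 - 1) * (x - n)) (hcc : c ∈ Icc n b) :
    0 ≤ ∫ x in c..b, (G x ^ 2 - 1) * (x - n) := by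
  have up : ∀ x ∈ Icc β b, 1 ≤ G x := fun x hx => hb ▸ ha hx ⟨h2, le_rfl⟩ hx.2
  have hβ : 1 ≤ G β := up β ⟨le_rfl, h2⟩
  obtain ⟨d, hd, ed⟩ : (1 : ℝ) ∈ G '' Icc n β :=
    intermediate_value_Icc h1.le (hc.mono (Icc_subset_Icc_right h2)) ⟨by rw [h0]; norm_num, hβ⟩
  have hF : ContinuousOn (fun x => (G x ^ 2 - 1) * (x - n)) (Icc n b) :=
    ((hc.pow 2).sub continuousOn_const).mul (continuousOn_id.sub continuousOn_const)
  rcases le_total d c with hdc | hdc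
  · refine intervalIntegral.integral_nonneg hcc.2 fun x hx => ?_
    have hx1 : 1 ≤ G x := by
      rcases le_total x β with k | k
      · exact ed ▸ hm.monotoneOn hd ⟨hcc.1.trans hx.1, k⟩ (hdc.trans hx.1)
      · exact up x ⟨k, hx.2⟩
    exact mul_nonneg (by nlinarith) (by linarith [hcc.1, hx.1])
  · have i1 : IntervalIntegrable (fun x => (G x ^ 2 - 1) * (x - n)) volume n c :=
      (hF.mono (Icc_subset_Icc_right hcc.2)).intervalIntegrable_of_Icc hcc.1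
    have i2 : IntervalIntegrable (fun x => (G x ^ 2 - 1) * (x - n)) volume c b :=
      (hF.mono (Icc_subset_Icc_left hcc.1)).intervalIntegrable_of_Icc hcc.2
    have e := intervalIntegral.integral_add_adjacent_intervals i1 i2
    have k : 0 ≤ ∫ x in n..c, -((G x ^ 2 - 1) * (x - n)) := by
      refine intervalIntegral.integral_nonneg hcc.1 fun x hx => ?_
      have mx : x ∈ Icc n β := ⟨hx.1, (hx.2.trans hdc).trans hd.2⟩
      have k1 : G x ≤ 1 := ed ▸ hm.monotoneOn mx hd (hx.2.trans hdc)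
      have k2 : 0 ≤ G x := h0 ▸ hm.monotoneOn ⟨le_rfl, h1.le⟩ mx hx.1
      have k3 : 0 ≤ (1 - G x ^ 2) * (x - n) := mul_nonneg (by nlinarith) (by linarith [hx.1])
      linarith
    rw [intervalIntegral.integral_neg] at k
    linarith

theorem Pat.shapeT (h : Pat Ω lam u l r nT nB) : ∃ α β, l Real.pi ≤ α ∧ α < nT ∧ nT < β ∧
    β ≤ r Real.pi ∧ AntitoneOn (gT Ω u) (Icc (l Real.pi) α) ∧ StrictMonoOn (gT Ω u) (Icc α β) ∧
      AntitoneOn (gT Ω u) (Icc β (r Real.pi)) :=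
  shape h.toStr.continuousOn_gT (h.toStr.contDiffOn_gT.differentiableOn (by simp)) h.gT_left
    h.gT_right h.memT h.zT (fun _ _ _ k1 k2 k3 k4 k5 k6 k7 => h.no_pmp k1 k2 k3 k4 k5 k6 k7)
    fun _ _ k1 k2 k3 => h.toStr.gT_not_const k2 k1 k3

theorem Pat.shapeB (h : Pat Ω lam u l r nT nB) : ∃ α β, l 0 ≤ α ∧ α < nB ∧ nB < β ∧
    β ≤ r 0 ∧ AntitoneOn (gB Ω u) (Icc (l 0) α) ∧ StrictMonoOn (gB Ω u) (Icc α β) ∧
      AntitoneOn (gB Ω u) (Icc β (r 0)) := by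
  obtain ⟨α, β, h1, h2, h3, h4, h5, h6, h7⟩ := h.flipY.shapeT
  simp only [sub_self] at h1 h4 h5 h7
  have e : EqOn (gT (fy ⁻¹' Ω) fun z => u (fy z)) (gB Ω u) (Icc (l 0) (r 0)) := fun x hx =>
    h.toStr.gT_flipY hx
  exact ⟨α, β, h1, h2, h3, h4, h5.congr (e.mono (Icc_subset_Icc_right (by linarith))),
    h6.congr (e.mono (Icc_subset_Icc h1 h4)),
    h7.congr (e.mono (Icc_subset_Icc_left (by linarith)))⟩

theorem PatB_neg {G : ℝ → ℝ} {a n α β x : ℝ} (ha : G a = -1) (h0 : G n = 0) (h1 : a ≤ α)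
    (h3 : n < β) (h5 : AntitoneOn G (Icc a α)) (h6 : StrictMonoOn G (Icc α β))
    (hx : x ∈ Ico a n) : G x < 0 := by
  rcases le_total x α with k | k
  · have := h5 ⟨le_rfl, h1⟩ ⟨hx.1, k⟩ hx.1
    linarith
  · exact h0 ▸ h6 ⟨k, hx.2.le.trans h3.le⟩ ⟨k.trans hx.2.le, h3.le⟩ hx.2

theorem PatB_pos {G : ℝ → ℝ} {b n α β x : ℝ} (hb : G b = 1) (h0 : G n = 0) (h2 : α < n)
    (h4 : β ≤ b) (h6 : StrictMonoOn G (Icc α β)) (h7 : AntitoneOn G (Icc β b))
    (hx : x ∈ Ioc n b) : 0 < G x := by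
  rcases le_total x β with k | k
  · exact h0 ▸ h6 ⟨h2.le, hx.1.le.trans k⟩ ⟨h2.le.trans hx.1.le, k⟩ hx.1
  · have := h7 ⟨k, hx.2⟩ ⟨h4, le_rfl⟩ hx.2
    linarith

theorem Pat.gT_neg (h : Pat Ω lam u l r nT nB) {x : ℝ} (hx : x ∈ Ico (l Real.pi) nT) :
    gT Ω u x < 0 := by
  obtain ⟨α, β, h1, -, h3, -, h5, h6, -⟩ := h.shapeT
  exact PatB_neg h.gT_left h.zT h1 h3 h5 h6 hx

theorem Pat.gT_pos (h : Pat Ω lam u l r nT nB) {x : ℝ} (hx : x ∈ Ioc nT (r Real.pi)) :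
    0 < gT Ω u x := by
  obtain ⟨α, β, -, h2, -, h4, -, h6, h7⟩ := h.shapeT
  exact PatB_pos h.gT_right h.zT h2 h4 h6 h7 hx

theorem Pat.gB_neg (h : Pat Ω lam u l r nT nB) {x : ℝ} (hx : x ∈ Ico (l 0) nB) :
    gB Ω u x < 0 := by
  obtain ⟨α, β, h1, -, h3, -, h5, h6, -⟩ := h.shapeB
  exact PatB_neg h.gB_left h.zB h1 h3 h5 h6 hx

theorem Pat.gB_pos (h : Pat Ω lam u l r nT nB) {x : ℝ} (hx : x ∈ Ioc nB (r 0)) :
    0 < gB Ω u x := by
  obtain ⟨α, β, -, h2, -, h4, -, h6, h7⟩ := h.shapeB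
  exact PatB_pos h.gB_right h.zB h2 h4 h6 h7 hx

theorem Pat.tailT (h : Pat Ω lam u l r nT nB) {c : ℝ} (hc : c ∈ Icc nT (r Real.pi)) :
    0 ≤ ∫ x in c..r Real.pi, (gT Ω u x ^ 2 - 1) * (x - nT) := by
  obtain ⟨α, β, -, h2, h3, h4, -, h6, h7⟩ := h.shapeT
  exact tail (h.toStr.continuousOn_gT.mono (Icc_subset_Icc_left h.memT.1.le)) h.zT h.gT_right h3 h4
    (h6.mono (Icc_subset_Icc_left h2.le)) h7 (h.toStr.wT (Ioo_subset_Icc_self h.memT)) hc

theorem Pat.preconn_ux (h : Pat Ω lam u l r nT nB) : IsPreconnected (ux Ω u 1) := by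
  rcases (ux Ω u 1).eq_empty_or_nonempty with e | ⟨z, hz⟩
  · rw [e]
    exact isPreconnected_empty
  · have e : ux Ω u 1 = cx Ω u 1 z := by
      refine Subset.antisymm (fun x hx => ?_) (PatB_sub 1 z)
      rw [PatB_cx_eq h hz hx]
      exact mem_connectedComponentIn hx
    rw [e]
    exact isPreconnected_connectedComponentIn

end Pool.Agent.L2K
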