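import Pool.Agent.P.MP_2f6447_an.K.HelmD

/-! The Fourier coefficients on circles solve the Bessel equation. -/

open Set MeasureTheory Filter Topology Complex Metric
open scoped ContDiff ComplexConjugate

namespace Pool.Agent.L2K

variable {Ω U : Set ℂ} {lam : ℝ} {u w f g : ℂ → ℝ}

theorem Polar_slice {F : ℝ → ℝ → ℝ} {S : ℝ}
    (hF : ContinuousOn (fun q : ℝ × ℝ => F q.1 q.2) (Icc (-S) S ×ˢ univ)) {r : ℝ}
    (hr : r ∈ Icc (-S) S) : Continuous (F r) := by
  rw [← continuousOn_univ]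
  exact hF.comp (f := fun θ : ℝ => (r, θ)) (by fun_prop) fun θ _ => ⟨hr, mem_univ _⟩

theorem Polar_bound {F : ℝ → ℝ → ℝ} {S : ℝ}
    (hF : ContinuousOn (fun q : ℝ × ℝ => F q.1 q.2) (Icc (-S) S ×ˢ univ)) :
    ∃ C, ∀ r ∈ Icc (-S) S, ∀ θ ∈ uIoc 0 (2 * Real.pi), ‖F r θ‖ ≤ C := by
  have hK : IsCompact (Icc (-S) S ×ˢ uIcc 0 (2 * Real.pi)) := isCompact_Icc.prod isCompact_uIcc
  obtain ⟨C, hC⟩ := hK.exists_bound_of_continuousOn
    (hF.mono (prod_mono subset_rfl (subset_univ _)))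
  exact ⟨C, fun r hr θ hθ => hC (r, θ) ⟨hr, uIoc_subset_uIcc hθ⟩⟩

theorem Polar_ibound {F : ℝ → ℝ → ℝ} {S : ℝ}
    (hF : ContinuousOn (fun q : ℝ × ℝ => F q.1 q.2) (Icc (-S) S ×ˢ univ)) :
    ∃ C, ∀ r ∈ Icc (-S) S, |∫ θ in (0 : ℝ)..2 * Real.pi, F r θ| ≤ C := by
  obtain ⟨C, hC⟩ := Polar_bound hF
  refine ⟨C * |2 * Real.pi - 0|, fun r hr => ?_⟩
  rw [← Real.norm_eq_abs]
  exact intervalIntegral.norm_integral_le_of_norm_le_const (hC r hr)

theorem Polar_param {F F' : ℝ → ℝ → ℝ} {S : ℝ}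
    (hF : ContinuousOn (fun q : ℝ × ℝ => F q.1 q.2) (Icc (-S) S ×ˢ univ))
    (hF' : ContinuousOn (fun q : ℝ × ℝ => F' q.1 q.2) (Icc (-S) S ×ˢ univ))
    (hd : ∀ r ∈ Icc (-S) S, ∀ θ, HasDerivAt (fun x => F x θ) (F' r θ) r) {r : ℝ}
    (hr : r ∈ Ioo (-S) S) :
    HasDerivAt (fun x => ∫ θ in (0 : ℝ)..2 * Real.pi, F x θ)
      (∫ θ in (0 : ℝ)..2 * Real.pi, F' r θ) r := by
  obtain ⟨C, hC⟩ := Polar_bound hF'
  have hs : Icc (-S) S ∈ 𝓝 r := Icc_mem_nhds hr.1 hr.2
  have hr' : r ∈ Icc (-S) S := Ioo_subset_Icc_self hr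
  refine (intervalIntegral.hasDerivAt_integral_of_dominated_loc_of_deriv_le
    (bound := fun _ => C) hs ?_ ((Polar_slice hF hr').intervalIntegrable _ _)
    (Polar_slice hF' hr').aestronglyMeasurable ?_ intervalIntegrable_const ?_).2
  · filter_upwards [hs] with x hx using (Polar_slice hF hx).aestronglyMeasurable
  · exact Eventually.of_forall fun θ hθ x hx => hC x hx θ hθ
  · exact Eventually.of_forall fun θ _ x hx => hd x hx θ

theorem Polar_fd (g : ℂ → ℝ) (z v : ℂ) :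
    fderiv ℝ g z v = v.re * D 1 g z + v.im * D I g z := by
  have e : v = v.re • (1 : ℂ) + v.im • I := by
    apply Complex.ext <;> simp
  conv_lhs => rw [e]
  rw [map_add, map_smul, map_smul]
  rfl

theorem Polar_dr {p : ℂ} {r θ : ℝ} (h : DifferentiableAt ℝ g (p + r * exp (θ * I))) :
    HasDerivAt (fun x : ℝ => g (p + x * exp (θ * I)))
      (Real.cos θ * D 1 g (p + r * exp (θ * I)) + Real.sin θ * D I g (p + r * exp (θ * I))) r := by
  have h1 : HasDerivAt (fun x : ℝ => p + x * exp (θ * I)) (exp (θ * I)) r := by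
    simpa using ((ofRealCLM.hasDerivAt (x := r)).mul_const (exp (θ * I))).const_add p
  have h2 := h.hasFDerivAt.comp_hasDerivAt r h1
  rw [Polar_fd, exp_ofReal_mul_I_re, exp_ofReal_mul_I_im] at h2
  exact h2

theorem Polar_dt {p : ℂ} {r θ : ℝ} (h : DifferentiableAt ℝ g (p + r * exp (θ * I))) :
    HasDerivAt (fun t : ℝ => g (p + r * exp (t * I)))
      (r * (-Real.sin θ * D 1 g (p + r * exp (θ * I)) +
        Real.cos θ * D I g (p + r * exp (θ * I)))) θ := by
  have h0 : HasDerivAt (fun t : ℝ => (t : ℂ) * I) I θ := by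
    simpa using (ofRealCLM.hasDerivAt (x := θ)).mul_const I
  have h1 : HasDerivAt (fun t : ℝ => p + r * exp (t * I)) (r * (exp (θ * I) * I)) θ :=
    (h0.cexp.const_mul (r : ℂ)).const_add p
  have h2 := h.hasFDerivAt.comp_hasDerivAt θ h1
  rw [Polar_fd] at h2
  have e1 : ((r : ℂ) * (exp (θ * I) * I)).re = r * -Real.sin θ := by
    simp [exp_ofReal_mul_I_im]
  have e2 : ((r : ℂ) * (exp (θ * I) * I)).im = r * Real.cos θ := by
    simp [exp_ofReal_mul_I_re]
  rw [e1, e2] at h2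
  refine h2.congr_deriv ?_
  ring

theorem Polar_mem {p : ℂ} {S r : ℝ} (hS : closedBall p S ⊆ U) (hr : r ∈ Icc (-S) S) (θ : ℝ) :
    p + r * exp (θ * I) ∈ U := by
  apply hS
  rw [mem_closedBall, dist_eq_norm, add_sub_cancel_left, norm_mul, norm_exp_ofReal_mul_I, mul_one,
    norm_real, Real.norm_eq_abs]
  exact abs_le.2 hr

theorem Polar_cont (h : Helm lam U g) {p : ℂ} {S : ℝ} (hS : closedBall p S ⊆ U) :
    ContinuousOn (fun q : ℝ × ℝ => g (p + q.1 * exp (q.2 * I))) (Icc (-S) S ×ˢ univ) :=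
  h.continuousOn.comp (f := fun q : ℝ × ℝ => p + q.1 * exp (q.2 * I)) (by fun_prop)
    fun q hq => Polar_mem hS hq.1 q.2

theorem cf_ode (h : Helm lam U w) {p : ℂ} {R : ℝ} (hR : closedBall p R ⊆ U) (k : ℕ) (α : ℝ) :
    ∃ f1 f2 : ℝ → ℝ, (∀ r ∈ Ioc 0 R, HasDerivAt (cf w p k α) (f1 r) r ∧ HasDerivAt f1 (f2 r) r ∧
      r ^ 2 * f2 r + r * f1 r + (lam * r ^ 2 - k ^ 2) * cf w p k α r = 0) ∧
      ∃ C, ∀ r ∈ Ioc 0 R, |cf w p k α r| ≤ C ∧ |f1 r| ≤ C := by
  rcases le_or_gt R 0 with hR0 | hR0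
  · refine ⟨0, 0, fun r hr => ?_, 0, fun r hr => ?_⟩ <;> exact absurd (hr.1.trans_le hr.2) hR0.not_gt
  obtain ⟨δ, hδ, hδU⟩ := (isCompact_closedBall p R).exists_cthickening_subset_open h.isOpen hR
  rw [cthickening_closedBall hδ.le hR0.le] at hδU
  set S := δ + R with hSdef
  have hI : ∀ r ∈ Ioc 0 R, r ∈ Ioo (-S) S := fun r hr =>
    ⟨by linarith [hr.1], by linarith [hr.2]⟩
  have h1 := h.of_D 1
  have h2 := h.of_D I
  have h11 := h1.of_D 1
  have h21 := h1.of_D I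
  have h12 := h2.of_D 1
  have h22 := h2.of_D I
  have c0 := Polar_cont h hδU
  have c1 := Polar_cont h1 hδU
  have c2 := Polar_cont h2 hδU
  have c11 := Polar_cont h11 hδU
  have c21 := Polar_cont h21 hδU
  have c12 := Polar_cont h12 hδU
  have c22 := Polar_cont h22 hδU
  have cφ : ContinuousOn (fun q : ℝ × ℝ => Real.cos (k * q.2 + α)) (Icc (-S) S ×ˢ univ) := by
    fun_prop
  have cc : ContinuousOn (fun q : ℝ × ℝ => Real.cos q.2) (Icc (-S) S ×ˢ univ) := by fun_prop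
  have cs : ContinuousOn (fun q : ℝ × ℝ => Real.sin q.2) (Icc (-S) S ×ˢ univ) := by fun_prop
  let F0 : ℝ → ℝ → ℝ := fun r θ => w (p + r * exp (θ * I)) * Real.cos (k * θ + α)
  let F1 : ℝ → ℝ → ℝ := fun r θ => (Real.cos θ * D 1 w (p + r * exp (θ * I)) +
    Real.sin θ * D I w (p + r * exp (θ * I))) * Real.cos (k * θ + α)
  let F2 : ℝ → ℝ → ℝ := fun r θ => (Real.cos θ * (Real.cos θ * D 1 (D 1 w) (p + r * exp (θ * I)) +
      Real.sin θ * D I (D 1 w) (p + r * exp (θ * I))) +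
    Real.sin θ * (Real.cos θ * D 1 (D I w) (p + r * exp (θ * I)) +
      Real.sin θ * D I (D I w) (p + r * exp (θ * I)))) * Real.cos (k * θ + α)
  have C0 : ContinuousOn (fun q : ℝ × ℝ => F0 q.1 q.2) (Icc (-S) S ×ˢ univ) := c0.mul cφ
  have C1 : ContinuousOn (fun q : ℝ × ℝ => F1 q.1 q.2) (Icc (-S) S ×ˢ univ) :=
    ((cc.mul c1).add (cs.mul c2)).mul cφ
  have C2 : ContinuousOn (fun q : ℝ × ℝ => F2 q.1 q.2) (Icc (-S) S ×ˢ univ) :=
    ((cc.mul ((cc.mul c11).add (cs.mul c21))).add (cs.mul ((cc.mul c12).add (cs.mul c22)))).mul cφ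
  have d0 : ∀ r ∈ Icc (-S) S, ∀ θ, HasDerivAt (fun x => F0 x θ) (F1 r θ) r := fun r hr θ =>
    (Polar_dr (h.differentiableAt (Polar_mem hδU hr θ))).mul_const _
  have d1 : ∀ r ∈ Icc (-S) S, ∀ θ, HasDerivAt (fun x => F1 x θ) (F2 r θ) r := fun r hr θ =>
    (((Polar_dr (h1.differentiableAt (Polar_mem hδU hr θ))).const_mul _).add
      ((Polar_dr (h2.differentiableAt (Polar_mem hδU hr θ))).const_mul _)).mul_const _
  refine ⟨fun r => ∫ θ in (0 : ℝ)..2 * Real.pi, F1 r θ,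
    fun r => ∫ θ in (0 : ℝ)..2 * Real.pi, F2 r θ, fun r hr => ⟨Polar_param C0 C1 d0 (hI r hr),
      Polar_param C1 C2 d1 (hI r hr), ?_⟩, ?_⟩
  · have hr' : r ∈ Icc (-S) S := Ioo_subset_Icc_self (hI r hr)
    have i0 := (Polar_slice C0 hr').intervalIntegrable (μ := volume) 0 (2 * Real.pi)
    have i1 := (Polar_slice C1 hr').intervalIntegrable (μ := volume) 0 (2 * Real.pi)
    have i2 := (Polar_slice C2 hr').intervalIntegrable (μ := volume) 0 (2 * Real.pi)
    let G : ℝ → ℝ := fun θ => -(r * (-Real.sin θ * D 1 w (p + r * exp (θ * I)) +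
        Real.cos θ * D I w (p + r * exp (θ * I))) * Real.cos (k * θ + α) +
      w (p + r * exp (θ * I)) * (k * Real.sin (k * θ + α)))
    have hG : ∀ θ ∈ uIcc 0 (2 * Real.pi), HasDerivAt G
        (r ^ 2 * F2 r θ + r * F1 r θ + (lam * r ^ 2 - k ^ 2) * F0 r θ) θ := by
      intro θ _
      have hz := Polar_mem hδU hr' θ
      have a0 := Polar_dt (h.differentiableAt hz)
      have a1 := Polar_dt (h1.differentiableAt hz)
      have a2 := Polar_dt (h2.differentiableAt hz)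
      have l0 : HasDerivAt (fun t : ℝ => (k : ℝ) * t + α) k θ := by
        simpa using ((hasDerivAt_id θ).const_mul (k : ℝ)).add_const α
      have b := ((((((Real.hasDerivAt_sin θ).neg.mul a1).add
        ((Real.hasDerivAt_cos θ).mul a2)).const_mul r).mul l0.cos).add
        (a0.mul (l0.sin.const_mul (k : ℝ)))).neg
      refine b.congr_deriv ?_
      have he := h.eq _ hz
      unfold lap at he
      have hsc := Real.sin_sq_add_cos_sq θ
      simp only [F0, F1, F2, Pi.neg_apply, Pi.mul_apply, Pi.add_apply]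
      linear_combination (-(r ^ 2 * Real.cos (k * θ + α))) * he -
        r ^ 2 * Real.cos (k * θ + α) * (D 1 (D 1 w) (p + r * exp (θ * I)) +
          D I (D I w) (p + r * exp (θ * I))) * hsc
    have hint := intervalIntegral.integral_eq_sub_of_hasDerivAt hG
      (((i2.const_mul _).add (i1.const_mul _)).add (i0.const_mul _))
    rw [intervalIntegral.integral_add ((i2.const_mul _).add (i1.const_mul _)) (i0.const_mul _),
      intervalIntegral.integral_add (i2.const_mul _) (i1.const_mul _),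
      intervalIntegral.integral_const_mul, intervalIntegral.integral_const_mul,
      intervalIntegral.integral_const_mul] at hint
    have hper : G (2 * Real.pi) = G 0 := by
      have e1 : exp (((2 * Real.pi : ℝ) : ℂ) * I) = exp (((0 : ℝ) : ℂ) * I) := by
        push_cast
        rw [exp_two_pi_mul_I]
        simp
      have e2 : Real.cos (k * (2 * Real.pi) + α) = Real.cos (k * 0 + α) := by
        rw [mul_zero, zero_add, add_comm, Real.cos_add_nat_mul_two_pi]
      have e3 : Real.sin (k * (2 * Real.pi) + α) = Real.sin (k * 0 + α) := by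
        rw [mul_zero, zero_add, add_comm, Real.sin_add_nat_mul_two_pi]
      simp only [G, e1, e2, e3, Real.sin_two_pi, Real.cos_two_pi, Real.sin_zero, Real.cos_zero]
    rw [hper, sub_self] at hint
    exact hint
  · obtain ⟨A, hA⟩ := Polar_ibound C0
    obtain ⟨B, hB⟩ := Polar_ibound C1
    refine ⟨max A B, fun r hr => ?_⟩
    have hr' : r ∈ Icc (-S) S := Ioo_subset_Icc_self (hI r hr)
    exact ⟨(hA r hr').trans (le_max_left _ _), (hB r hr').trans (le_max_right _ _)⟩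

end Pool.Agent.L2K
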