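import Pool.Agent.P.MP_2f6447_an.K.Polar
import Pool.Agent.P.MP_2f6447_an.K.Bessel
import Pool.Agent.P.MP_2f6447_an.K.Hopf

/-! Bounds for smooth nonnegative subsolutions. -/

open Set MeasureTheory Filter Topology Complex Metric
open scoped ContDiff ComplexConjugate

namespace Pool.Agent.L2K

variable {Ω U : Set ℂ} {lam : ℝ} {u w f g : ℂ → ℝ}

theorem SubBd_two : (2 : WithTop ℕ∞) ≤ ∞ := WithTop.coe_le_coe.2 (le_top : (2 : ℕ∞) ≤ ⊤)

/-- differentiation under an interval integral, jointly continuous data -/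
theorem SubBd_par {F F' : ℝ → ℝ → ℝ} (hF : Continuous F.uncurry) (hF' : Continuous F'.uncurry)
    (hd : ∀ r θ, HasDerivAt (fun s => F s θ) (F' r θ) r) (a b r : ℝ) :
    HasDerivAt (fun s => ∫ θ in a..b, F s θ) (∫ θ in a..b, F' r θ) r := by
  obtain ⟨C, hC⟩ := ((isCompact_closedBall r 1).prod (isCompact_uIcc (a := a) (b := b))).exists_bound_of_continuousOn
    hF'.continuousOn
  have c1 : ∀ x, Continuous (F x) := fun x => hF.comp (Continuous.prodMk_right x)
  have c2 : ∀ x, Continuous (F' x) := fun x => hF'.comp (Continuous.prodMk_right x)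
  refine (intervalIntegral.hasDerivAt_integral_of_dominated_loc_of_deriv_le (μ := volume)
    (bound := fun _ => C) (ball_mem_nhds r one_pos)
    (Eventually.of_forall fun x => (c1 x).aestronglyMeasurable) ((c1 r).intervalIntegrable _ _)
    (c2 r).aestronglyMeasurable ?_ intervalIntegrable_const
    (Eventually.of_forall fun t _ x _ => hd x t)).2
  exact Eventually.of_forall fun t ht x hx =>
    hC (x, t) ⟨ball_subset_closedBall hx, uIoc_subset_uIcc ht⟩

theorem SubBd_lap {v : ℂ → ℝ} (hv : ContDiff ℝ ∞ v) (z : ℂ) :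
    lap v z = fderiv ℝ (fderiv ℝ v) z 1 1 + fderiv ℝ (fderiv ℝ v) z I I := by
  have h1 : ContDiff ℝ 1 (fderiv ℝ v) := hv.fderiv_right (by rw [one_add_one_eq_two]; exact SubBd_two)
  have hd := (h1.differentiable one_ne_zero z).hasFDerivAt
  have key : ∀ a : ℂ, D a (D a v) z = fderiv ℝ (fderiv ℝ v) z a a := by
    intro a
    have := (hd.clm_apply (hasFDerivAt_const a z)).fderiv
    show fderiv ℝ (fun x => fderiv ℝ v x a) z a = _
    rw [this]
    simp
  rw [lap, key, key]

theorem SubBd_bil (B : ℂ →L[ℝ] ℂ →L[ℝ] ℝ) (θ : ℝ) :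
    B (exp (θ * I)) (exp (θ * I)) + B (exp (θ * I) * I) (exp (θ * I) * I) = B 1 1 + B I I := by
  have h1 : exp (θ * I) = Real.cos θ • (1 : ℂ) + Real.sin θ • I := by
    rw [exp_mul_I]; simp
  have h2 : exp (θ * I) * I = (-Real.sin θ) • (1 : ℂ) + Real.cos θ • I := by
    rw [exp_mul_I, add_mul, mul_assoc, I_mul_I]; simp; ring
  rw [h2, h1]
  simp only [map_add, map_smul, add_apply, smul_apply,
    smul_eq_mul]
  have := Real.sin_sq_add_cos_sq θ
  linear_combination (B 1 1 + B I I) * this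

/-- the circle mean of a nonnegative subsolution does not drop much -/
theorem SubBd_mean {v : ℂ → ℝ} (hv : ContDiff ℝ ∞ v) (h0 : ∀ z, 0 ≤ v z)
    (hs : ∀ z, 0 ≤ lap v z + lam * v z) (hl : 0 ≤ lam) (p : ℂ) {R : ℝ} (hR : lam * R ^ 2 ≤ 1)
    {r : ℝ} (hr : r ∈ Icc 0 R) :
    3 / 2 * Real.pi * v p ≤ ∫ θ in (-Real.pi)..Real.pi, v (p + r * exp (θ * I)) := by
  have h1 : ContDiff ℝ 1 (fderiv ℝ v) := hv.fderiv_right (by rw [one_add_one_eq_two]; exact SubBd_two)
  have cv : Continuous v := hv.continuous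
  have c1 : Continuous (fderiv ℝ v) := h1.continuous
  have c2 : Continuous (fderiv ℝ (fderiv ℝ v)) := h1.continuous_fderiv one_ne_zero
  have dv : ∀ z, HasFDerivAt v (fderiv ℝ v z) z := fun z =>
    (hv.differentiable (by simp) z).hasFDerivAt
  have d1 : ∀ z, HasFDerivAt (fderiv ℝ v) (fderiv ℝ (fderiv ℝ v) z) z := fun z =>
    (h1.differentiable one_ne_zero z).hasFDerivAt
  have pi0 : -Real.pi ≤ Real.pi := by linarith [Real.pi_pos]
  have lr : ∀ (s θ : ℝ), HasDerivAt (fun s : ℝ => p + s * exp (θ * I)) (exp (θ * I)) s := by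
    intro s θ
    simpa using ((hasDerivAt_id s).ofReal_comp.mul_const (exp (θ * I))).const_add p
  have lθ : ∀ θ : ℝ, HasDerivAt (fun θ : ℝ => exp (θ * I)) (exp (θ * I) * I) θ := by
    intro θ
    simpa using ((hasDerivAt_id θ).ofReal_comp.mul_const I).cexp
  obtain ⟨m, hm⟩ : ∃ m : ℝ → ℝ, m = fun s : ℝ => ∫ θ in (-Real.pi)..Real.pi,
    v (p + s * exp (θ * I)) := ⟨_, rfl⟩
  obtain ⟨m1, hm1⟩ : ∃ m : ℝ → ℝ, m = fun s : ℝ => ∫ θ in (-Real.pi)..Real.pi,
    fderiv ℝ v (p + s * exp (θ * I)) (exp (θ * I)) := ⟨_, rfl⟩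
  obtain ⟨m2, hm2⟩ : ∃ m : ℝ → ℝ, m = fun s : ℝ => ∫ θ in (-Real.pi)..Real.pi,
    fderiv ℝ (fderiv ℝ v) (p + s * exp (θ * I)) (exp (θ * I)) (exp (θ * I)) := ⟨_, rfl⟩
  have e1 : ∀ s, HasDerivAt m (m1 s) s := by
    intro s
    rw [hm, hm1]
    refine SubBd_par (F := fun s θ : ℝ => v (p + s * exp (θ * I)))
      (F' := fun s θ : ℝ => fderiv ℝ v (p + s * exp (θ * I)) (exp (θ * I))) ?_ ?_ ?_ _ _ s
    · unfold Function.uncurry; fun_prop
    · unfold Function.uncurry; fun_prop
    · intro s θ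
      exact (dv _).comp_hasDerivAt s (lr s θ)
  have e2 : ∀ s, HasDerivAt m1 (m2 s) s := by
    intro s
    rw [hm1, hm2]
    refine SubBd_par (F := fun s θ : ℝ => fderiv ℝ v (p + s * exp (θ * I)) (exp (θ * I)))
      (F' := fun s θ : ℝ => fderiv ℝ (fderiv ℝ v) (p + s * exp (θ * I)) (exp (θ * I))
        (exp (θ * I))) ?_ ?_ ?_ _ _ s
    · unfold Function.uncurry; fun_prop
    · unfold Function.uncurry; fun_prop
    · intro s θ
      have := ((d1 _).comp_hasDerivAt s (lr s θ)).clm_apply (hasDerivAt_const s (exp (θ * I)))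
      simpa using this
  have mnn : ∀ s, 0 ≤ m s := by
    intro s
    rw [hm]
    exact intervalIntegral.integral_nonneg pi0 fun θ _ => h0 _
  have e3 : ∀ s, 0 ≤ s → 0 ≤ s * m2 s + m1 s + lam * s * m s := by
    intro s hs0
    have hθ : ∀ θ : ℝ, HasDerivAt
        (fun θ : ℝ => fderiv ℝ v (p + s * exp (θ * I)) (exp (θ * I) * I))
        (s * fderiv ℝ (fderiv ℝ v) (p + s * exp (θ * I)) (exp (θ * I) * I) (exp (θ * I) * I) -
          fderiv ℝ v (p + s * exp (θ * I)) (exp (θ * I))) θ := by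
      intro θ
      have a1 : HasDerivAt (fun θ : ℝ => p + s * exp (θ * I)) (s • (exp (θ * I) * I)) θ := by
        simpa using ((lθ θ).const_mul (s : ℂ)).const_add p
      have a2 : HasDerivAt (fun θ : ℝ => exp (θ * I) * I) (-exp (θ * I)) θ := by
        have := (lθ θ).mul_const I
        rwa [mul_assoc, I_mul_I, mul_neg_one] at this
      have := ((d1 _).comp_hasDerivAt θ a1).clm_apply a2
      simpa only [map_smul, smul_apply, smul_eq_mul, map_neg,
        Function.comp_apply, ← sub_eq_add_neg] using this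
    have i1 : IntervalIntegrable (fun θ : ℝ => fderiv ℝ v (p + s * exp (θ * I)) (exp (θ * I)))
      volume (-Real.pi) Real.pi := Continuous.intervalIntegrable (by fun_prop) _ _
    have i2 : IntervalIntegrable (fun θ : ℝ => s * fderiv ℝ (fderiv ℝ v) (p + s * exp (θ * I))
      (exp (θ * I)) (exp (θ * I))) volume (-Real.pi) Real.pi :=
      Continuous.intervalIntegrable (by fun_prop) _ _
    have i3 : IntervalIntegrable (fun θ : ℝ => s * fderiv ℝ (fderiv ℝ v) (p + s * exp (θ * I))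
      (exp (θ * I) * I) (exp (θ * I) * I)) volume (-Real.pi) Real.pi :=
      Continuous.intervalIntegrable (by fun_prop) _ _
    have i0 : IntervalIntegrable (fun θ : ℝ => lam * s * v (p + s * exp (θ * I)))
      volume (-Real.pi) Real.pi := Continuous.intervalIntegrable (by fun_prop) _ _
    have z1 := intervalIntegral.integral_eq_sub_of_hasDerivAt (a := -Real.pi) (b := Real.pi)
      (fun θ _ => hθ θ) (i3.sub i1)
    have ex : exp (((-Real.pi : ℝ) : ℂ) * I) = exp ((Real.pi : ℂ) * I) := by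
      rw [ofReal_neg, neg_mul, exp_neg, exp_pi_mul_I]; norm_num
    rw [ex, sub_self, intervalIntegral.integral_sub i3 i1, sub_eq_zero] at z1
    have z2 : s * m2 s + m1 s + lam * s * m s = ∫ θ in (-Real.pi)..Real.pi,
        s * (lap v (p + s * exp (θ * I)) + lam * v (p + s * exp (θ * I))) := by
      rw [hm, hm1, hm2]
      simp only
      rw [← z1, ← intervalIntegral.integral_const_mul, ← intervalIntegral.integral_const_mul,
        ← intervalIntegral.integral_add i2 i3, ← intervalIntegral.integral_add (i2.add i3) i0]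
      refine intervalIntegral.integral_congr fun θ _ => ?_
      rw [SubBd_lap hv, ← SubBd_bil _ θ]
      ring
    rw [z2]
    exact intervalIntegral.integral_nonneg pi0 fun θ _ => mul_nonneg hs0 (hs _)
  have hφ : ∀ s ∈ Icc 0 R, 3 / 4 ≤ 1 - lam * s ^ 2 / 4 := by
    intro s hs
    have : s ^ 2 ≤ R ^ 2 := pow_le_pow_left₀ hs.1 hs.2 2
    nlinarith
  have dφ : ∀ s : ℝ, HasDerivAt (fun s : ℝ => 1 - lam * s ^ 2 / 4) (-(lam * s / 2)) s := by
    intro s
    have := (((hasDerivAt_pow 2 s).const_mul lam).div_const 4).const_sub 1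
    refine this.congr_deriv ?_
    norm_num; ring
  have dW : ∀ s : ℝ, HasDerivAt
      (fun s : ℝ => s * m1 s * (1 - lam * s ^ 2 / 4) + lam * s ^ 2 / 2 * m s)
      ((s * m2 s + m1 s) * (1 - lam * s ^ 2 / 4) + lam * s * m s) s := by
    intro s
    have := (((hasDerivAt_id s).mul (e2 s)).mul (dφ s)).add
      ((((hasDerivAt_pow 2 s).const_mul lam).div_const 2).mul (e1 s))
    refine this.congr_deriv ?_
    simp only [id, Pi.mul_apply]
    norm_num; ring
  have mW : MonotoneOn (fun s : ℝ => s * m1 s * (1 - lam * s ^ 2 / 4) + lam * s ^ 2 / 2 * m s)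
      (Icc 0 R) := by
    refine monotoneOn_of_deriv_nonneg (convex_Icc _ _)
      (fun s _ => (dW s).continuousAt.continuousWithinAt)
      (fun s _ => (dW s).differentiableAt.differentiableWithinAt) fun s hs => ?_
    have hs := interior_subset hs
    rw [(dW s).deriv]
    have a1 := e3 s hs.1
    have a2 := hφ s hs
    have a3 : 0 ≤ lam * s * m s := mul_nonneg (mul_nonneg hl hs.1) (mnn s)
    have a4 : 0 ≤ lam * s ^ 2 / 4 := by positivity
    nlinarith [mul_nonneg a1 (show 0 ≤ 1 - lam * s ^ 2 / 4 by linarith), mul_nonneg a3 a4]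
  have dq : ∀ s ∈ Icc 0 R, HasDerivAt (fun s : ℝ => m s / (1 - lam * s ^ 2 / 4))
      ((m1 s * (1 - lam * s ^ 2 / 4) - m s * -(lam * s / 2)) / (1 - lam * s ^ 2 / 4) ^ 2) s :=
    fun s hs => (e1 s).div (dφ s) (by linarith [hφ s hs])
  have mq : MonotoneOn (fun s : ℝ => m s / (1 - lam * s ^ 2 / 4)) (Icc 0 R) := by
    refine monotoneOn_of_deriv_nonneg (convex_Icc _ _)
      (fun s hs => (dq s hs).continuousAt.continuousWithinAt)
      (fun s hs => (dq s (interior_subset hs)).differentiableAt.differentiableWithinAt)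
      fun s hs => ?_
    rw [(dq s (interior_subset hs)).deriv]
    rw [interior_Icc] at hs
    refine div_nonneg ?_ (sq_nonneg _)
    have a1 := mW (left_mem_Icc.2 (hs.1.trans hs.2).le) ⟨hs.1.le, hs.2.le⟩ hs.1.le
    simp only at a1
    refine le_of_mul_le_mul_left (a := s) ?_ hs.1
    nlinarith
  have a1 := mq (left_mem_Icc.2 (hr.1.trans hr.2)) hr hr.1
  have a2 := hφ r hr
  have m0 : m 0 = 2 * Real.pi * v p := by
    rw [hm]; simp; exact Or.inl (by ring)
  simp only at a1
  rw [m0, le_div_iff₀ (by linarith)] at a1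
  have a3 : m r = ∫ θ in (-Real.pi)..Real.pi, v (p + r * exp (θ * I)) := by rw [hm]
  rw [← a3]
  have a4 : 0 ≤ Real.pi * v p := mul_nonneg Real.pi_pos.le (h0 p)
  norm_num at a1
  nlinarith

theorem sub_sup (hl : 0 ≤ lam) : ∃ C : ℝ, ∀ v : ℂ → ℝ, ContDiff ℝ ∞ v → (∀ z, 0 ≤ v z) →
    (∀ z, 0 ≤ lap v z + lam * v z) → Integrable v → ∀ z, v z ≤ C * ∫ x, v x := by
  obtain ⟨R, hR0, hR⟩ : ∃ R : ℝ, 0 < R ∧ lam * R ^ 2 ≤ 1 := by
    refine ⟨1 / (lam + 1), by positivity, ?_⟩
    rw [div_pow, one_pow, mul_one_div, div_le_one (by positivity)]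
    nlinarith
  refine ⟨4 / (3 * Real.pi * R ^ 2), fun v hv h0 hs hi p => ?_⟩
  have cv : Continuous v := hv.continuous
  have pi0 : -Real.pi ≤ Real.pi := by linarith [Real.pi_pos]
  have s1 : ∫ z, (ball (0 : ℂ) R).indicator (fun z => v (p + z)) z ≤ ∫ x, v x := by
    rw [integral_indicator measurableSet_ball, ← integral_add_left_eq_self v p]
    exact setIntegral_le_integral (hi.comp_add_left p) (Eventually.of_forall fun z => h0 _)
  have s2 : ∫ z, (ball (0 : ℂ) R).indicator (fun z => v (p + z)) z =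
      ∫ q in Ioo (0 : ℝ) R ×ˢ Ioo (-Real.pi) Real.pi, q.1 * v (p + q.1 * exp (q.2 * I)) := by
    rw [← Complex.integral_comp_polarCoord_symm, polarCoord_target]
    have e : Ioo (0 : ℝ) R ×ˢ Ioo (-Real.pi) Real.pi =
        (Ioi (0 : ℝ) ×ˢ Ioo (-Real.pi) Real.pi) ∩ (Iio R ×ˢ univ) := by
      ext q; simp only [mem_prod, mem_Ioo, mem_inter_iff, mem_Ioi, mem_Iio, mem_univ]; tauto
    rw [e, ← setIntegral_indicator (measurableSet_Iio.prod MeasurableSet.univ)]
    refine setIntegral_congr_fun (measurableSet_Ioi.prod measurableSet_Ioo) fun q hq => ?_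
    have hq1 : 0 < q.1 := hq.1
    have hn : ‖Complex.polarCoord.symm q‖ = q.1 := by rw [norm_polarCoord_symm, abs_of_pos hq1]
    by_cases h : q.1 < R
    · have b1 : Complex.polarCoord.symm q ∈ ball (0 : ℂ) R := by rwa [mem_ball_zero_iff, hn]
      have b2 : q ∈ Iio R ×ˢ (univ : Set ℝ) := ⟨h, mem_univ _⟩
      simp only [indicator_of_mem b1, indicator_of_mem b2, smul_eq_mul]
      rw [Complex.polarCoord_symm_apply, exp_mul_I, ofReal_cos, ofReal_sin]
    · have b1 : Complex.polarCoord.symm q ∉ ball (0 : ℂ) R := by rwa [mem_ball_zero_iff, hn]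
      have b2 : q ∉ Iio R ×ˢ (univ : Set ℝ) := fun hh => h hh.1
      simp only [indicator_of_notMem b1, indicator_of_notMem b2, smul_zero]
  have cG : Continuous fun q : ℝ × ℝ => q.1 * v (p + q.1 * exp (q.2 * I)) := by fun_prop
  have iG : IntegrableOn (fun q : ℝ × ℝ => q.1 * v (p + q.1 * exp (q.2 * I)))
      (Ioo (0 : ℝ) R ×ˢ Ioo (-Real.pi) Real.pi) (volume.prod volume) :=
    (cG.continuousOn.integrableOn_compact (isCompact_Icc.prod isCompact_Icc)).mono_set
      (prod_mono Ioo_subset_Icc_self Ioo_subset_Icc_self)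
  have cm : Continuous fun r : ℝ => ∫ θ in (-Real.pi)..Real.pi, r * v (p + r * exp (θ * I)) :=
    intervalIntegral.continuous_parametric_intervalIntegral_of_continuous'
      (f := fun r θ : ℝ => r * v (p + r * exp (θ * I))) cG _ _
  have s3 : ∫ q in Ioo (0 : ℝ) R ×ˢ Ioo (-Real.pi) Real.pi, q.1 * v (p + q.1 * exp (q.2 * I)) =
      ∫ r in (0 : ℝ)..R, ∫ θ in (-Real.pi)..Real.pi, r * v (p + r * exp (θ * I)) := by
    rw [Measure.volume_eq_prod, setIntegral_prod _ iG, intervalIntegral.integral_of_le hR0.le,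
      integral_Ioc_eq_integral_Ioo]
    refine setIntegral_congr_fun measurableSet_Ioo fun r _ => ?_
    simp only
    rw [intervalIntegral.integral_of_le pi0, integral_Ioc_eq_integral_Ioo]
  have s4 : ∫ r in (0 : ℝ)..R, 3 / 2 * Real.pi * v p * r ≤
      ∫ r in (0 : ℝ)..R, ∫ θ in (-Real.pi)..Real.pi, r * v (p + r * exp (θ * I)) := by
    refine intervalIntegral.integral_mono_on hR0.le (Continuous.intervalIntegrable (by fun_prop) _ _)
      (cm.intervalIntegrable _ _) fun r hr => ?_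
    rw [intervalIntegral.integral_const_mul, mul_comm]
    exact mul_le_mul_of_nonneg_left (SubBd_mean hv h0 hs hl p hR hr) hr.1
  rw [intervalIntegral.integral_const_mul, integral_id] at s4
  rw [div_mul_eq_mul_div, le_div_iff₀ (by have := Real.pi_pos; positivity)]
  nlinarith

/-- the barrier -/
theorem SubBd_bar (p n : ℂ) (hn : ‖n‖ = 1) (ε L : ℝ) :
    ContDiff ℝ ∞ (fun z => (ε - dot (z - p) n) * (2 * L - (ε - dot (z - p) n))) ∧
    ∀ z, lap (fun z => (ε - dot (z - p) n) * (2 * L - (ε - dot (z - p) n))) z = -2 := by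
  obtain ⟨A, hA⟩ : ∃ A : ℂ →L[ℝ] ℝ, ∀ a, A a = dot a n :=
    ⟨n.re • reCLM + n.im • imCLM, fun a => by simp [dot, mul_comm]⟩
  have e : ∀ z, dot (z - p) n = A z - A p := fun z => by rw [← hA, map_sub]
  simp only [e]
  refine ⟨by fun_prop, fun z => ?_⟩
  have d0 : ∀ z, HasFDerivAt (fun z => ε - (A z - A p)) (-A) z := fun z =>
    (A.hasFDerivAt.sub_const _).const_sub ε
  have d1 : ∀ a, D a (fun z => (ε - (A z - A p)) * (2 * L - (ε - (A z - A p)))) =
      fun z => (2 * (ε - (A z - A p)) - 2 * L) * A a := by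
    intro a
    funext z
    have := ((d0 z).mul ((d0 z).const_sub (2 * L))).fderiv
    unfold D
    erw [this]
    simp
    ring
  have d2 : ∀ a, D a (fun z => (2 * (ε - (A z - A p)) - 2 * L) * A a) z = -2 * A a ^ 2 := by
    intro a
    have := ((((d0 z).const_mul 2).sub_const (2 * L)).mul_const (A a)).fderiv
    unfold D
    rw [this]
    simp
    ring
  rw [lap, d1, d1, d2, d2, hA, hA]
  have : n.re ^ 2 + n.im ^ 2 = 1 := by
    have := Complex.sq_norm n
    rw [hn, normSq_apply] at this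
    linarith
  simp [dot]
  linarith

theorem sub_strip (hl : 0 ≤ lam) : ∃ C : ℝ, ∀ (v : ℂ → ℝ) (M : ℝ) (p n : ℂ), ContDiff ℝ ∞ v →
    HasCompactSupport v → (∀ z, 0 ≤ v z) → (∀ z, v z ≤ M) → (∀ z, 0 ≤ lap v z + lam * v z) →
    ‖n‖ = 1 → (∀ z, 0 ≤ dot (z - p) n → v z = 0) → ∀ z, v z ≤ C * M * |dot (z - p) n| := by
  obtain ⟨L, hL0, hL⟩ : ∃ R : ℝ, 0 < R ∧ lam * R ^ 2 ≤ 1 := by
    refine ⟨1 / (lam + 1), by positivity, ?_⟩
    rw [div_pow, one_pow, mul_one_div, div_le_one (by positivity)]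
    nlinarith
  refine ⟨8 / (3 * L), fun v M p n hv hc h0 hM hs hn hz z => ?_⟩
  have M0 : 0 ≤ M := (h0 0).trans (hM 0)
  have cd : Continuous fun z => dot (z - p) n := by unfold dot; fun_prop
  have key : ∀ ε : ℝ, 0 < ε → ε ≤ L / 2 → ∀ z, -L ≤ dot (z - p) n → dot (z - p) n ≤ 0 →
      v z ≤ 8 / (3 * L) * M * (ε - dot (z - p) n) := by
    intro ε hε hεL z hz1 hz2
    obtain ⟨hφ, lφ⟩ := SubBd_bar p n hn ε L
    obtain ⟨φ, eφ⟩ : ∃ φ : ℂ → ℝ,
      φ = fun z => (ε - dot (z - p) n) * (2 * L - (ε - dot (z - p) n)) := ⟨_, rfl⟩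
    rw [← eφ] at hφ lφ
    obtain ⟨S, hS⟩ : ∃ S : Set ℂ, S = (fun z => dot (z - p) n) ⁻¹' Icc (-L) 0 := ⟨_, rfl⟩
    have mS : ∀ x, x ∈ S ↔ -L ≤ dot (x - p) n ∧ dot (x - p) n ≤ 0 := fun x => by rw [hS]; rfl
    have cS : IsClosed S := by rw [hS]; exact isClosed_Icc.preimage cd
    have pφ : ∀ x ∈ S, 0 < φ x := by
      intro x hx
      rw [mS] at hx
      rw [eφ]
      exact mul_pos (by linarith [hx.2]) (by linarith [hx.1])
    have rhs : 0 ≤ 8 / (3 * L) * M * (ε - dot (z - p) n) :=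
      mul_nonneg (by positivity) (by linarith)
    by_cases hz0 : v z = 0
    · rwa [hz0]
    have vz : 0 < v z := lt_of_le_of_ne (h0 z) (Ne.symm hz0)
    have zS : z ∈ S := (mS z).2 ⟨hz1, hz2⟩
    have cK : IsCompact (tsupport v ∩ S) := hc.isCompact.inter_right cS
    obtain ⟨y, hy, hmax⟩ := cK.exists_isMaxOn ⟨z, subset_tsupport v hz0, zS⟩
      (f := fun x => v x / φ x) (hv.continuous.continuousOn.div hφ.continuous.continuousOn
        fun x hx => (pφ x hx.2).ne')
    obtain ⟨t, ht⟩ : ∃ t, t = v y / φ y := ⟨_, rfl⟩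
    have t0 : 0 < t := by
      rw [ht]
      exact (div_pos vz (pφ z zS)).trans_le (hmax ⟨subset_tsupport v hz0, zS⟩)
    have hle : ∀ x ∈ S, v x ≤ t * φ x := by
      intro x hx
      by_cases hx0 : v x = 0
      · rw [hx0]; exact (mul_pos t0 (pφ x hx)).le
      · rw [← div_le_iff₀ (pφ x hx), ht]
        exact hmax ⟨subset_tsupport v hx0, hx⟩
    have ey : v y = t * φ y := by rw [ht, div_mul_cancel₀ _ (pφ y hy.2).ne']
    have vy : 0 < v y := by rw [ey]; exact mul_pos t0 (pφ y hy.2)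
    have hy2 := (mS y).1 hy.2
    have y1 : dot (y - p) n < 0 := by
      by_contra hh
      exact vy.ne' (hz y (not_lt.1 hh))
    have y2 : dot (y - p) n = -L := by
      by_contra hh
      have y3 : -L < dot (y - p) n := lt_of_le_of_ne hy2.1 (Ne.symm hh)
      have nh : S ∈ 𝓝 y := by
        rw [hS]
        exact cd.continuousAt.preimage_mem_nhds (Icc_mem_nhds y3 y1)
      have lm : IsLocalMax (fun x => v x + -t * φ x) y := by
        filter_upwards [nh] with x hx
        have := hle x hx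
        linarith
      have c1 : ContDiffAt ℝ 2 v y := hv.contDiffAt.of_le SubBd_two
      have c2 : ContDiffAt ℝ 2 (fun x => -t * φ x) y :=
        contDiffAt_const.mul (hφ.contDiffAt.of_le SubBd_two)
      have l1 := lap_nonpos_of_isLocalMax (c1.add c2) lm
      rw [lap_add c1 c2, lap_const_mul, lφ] at l1
      have l2 := hs y
      have l3 : φ y ≤ L ^ 2 := by
        rw [eφ]
        nlinarith [sq_nonneg (L - (ε - dot (y - p) n))]
      have l4 : lam * φ y ≤ 1 := (mul_le_mul_of_nonneg_left l3 hl).trans hL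
      rw [ey] at l2
      nlinarith
    have φy : 3 / 4 * L ^ 2 ≤ φ y := by
      rw [eφ]
      simp only
      rw [y2]
      nlinarith
    have tM : t * (3 / 4 * L ^ 2) ≤ M :=
      (mul_le_mul_of_nonneg_left φy t0.le).trans (ey ▸ hM y)
    have φz : φ z ≤ 2 * L * (ε - dot (z - p) n) := by
      rw [eφ]
      nlinarith [sq_nonneg (ε - dot (z - p) n)]
    have tM' : t * (2 * L) ≤ 8 / (3 * L) * M := by
      rw [div_mul_eq_mul_div, le_div_iff₀ (by positivity)]
      nlinarith
    calc v z ≤ t * φ z := hle z zS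
      _ ≤ t * (2 * L * (ε - dot (z - p) n)) := mul_le_mul_of_nonneg_left φz t0.le
      _ = t * (2 * L) * (ε - dot (z - p) n) := by ring
      _ ≤ _ := mul_le_mul_of_nonneg_right tM' (by linarith)
  have CM : 0 ≤ 8 / (3 * L) * M := by positivity
  rcases le_total 0 (dot (z - p) n) with h1 | h1
  · rw [hz z h1]; positivity
  rw [abs_of_nonpos h1]
  rcases le_total (-L) (dot (z - p) n) with h2 | h2
  · have lim : Tendsto (fun ε : ℝ => 8 / (3 * L) * M * (ε - dot (z - p) n)) (𝓝[>] 0)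
        (𝓝 (8 / (3 * L) * M * (0 - dot (z - p) n))) :=
      (Continuous.tendsto (by fun_prop) 0).mono_left nhdsWithin_le_nhds
    rw [zero_sub] at lim
    refine ge_of_tendsto lim ?_
    filter_upwards [Ioc_mem_nhdsGT (half_pos hL0)] with ε hε
    exact key ε hε.1 hε.2 z h2 h1
  · have : M ≤ 8 / (3 * L) * M * L := by
      have : 8 / (3 * L) * M * L = 8 / 3 * M := by field_simp
      linarith
    exact (hM z).trans (this.trans (mul_le_mul_of_nonneg_left (by linarith) CM))

end Pool.Agent.L2K
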