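import Pool.Agent.P.MP_2f6447_an.K.Mean

/-! Weyl lemma. -/

open Set MeasureTheory Filter Topology Complex Metric
open scoped ContDiff ComplexConjugate

namespace Pool.Agent.L2K

variable {Ω U : Set ℂ} {lam : ℝ} {u w f g : ℂ → ℝ}

theorem Weyl_D_smooth {φ : ℂ → ℝ} (h : ContDiff ℝ ∞ φ) (v : ℂ) : ContDiff ℝ ∞ (D v φ) := by
  have h1 : ContDiff ℝ ∞ (fderiv ℝ φ) := (contDiff_infty_iff_fderiv.1 h).2
  exact h1.clm_apply contDiff_const

theorem Weyl_D_smoothOn {a : ℂ → ℝ} (hU : IsOpen U) (h : ContDiffOn ℝ ∞ a U) (v : ℂ) :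
    ContDiffOn ℝ ∞ (D v a) U := by
  have h1 : ContDiffOn ℝ ∞ (fderiv ℝ a) U := h.fderiv_of_isOpen hU (by simp)
  exact h1.clm_apply contDiffOn_const

theorem Weyl_D_tsupp (φ : ℂ → ℝ) (v : ℂ) : tsupport (D v φ) ⊆ tsupport φ := by
  refine Subset.trans (closure_mono ?_) (tsupport_fderiv_subset ℝ (f := φ))
  intro z hz h0
  apply hz
  simp only [D, h0, zero_apply]

theorem Weyl_D_cpt {φ : ℂ → ℝ} (h : HasCompactSupport φ) (v : ℂ) : HasCompactSupport (D v φ) :=
  IsCompact.of_isClosed_subset h (isClosed_tsupport _) (Weyl_D_tsupp φ v)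

theorem Weyl_integrable {a b : ℂ → ℝ} (ha : ContinuousOn a U) (hb : Continuous b)
    (hc : HasCompactSupport b) (hs : tsupport b ⊆ U) : Integrable (fun z => a z * b z) := by
  have h1 : IntegrableOn (fun z => a z * b z) (tsupport b) :=
    ((ha.mono hs).mul hb.continuousOn).integrableOn_compact hc
  refine (integrableOn_iff_integrable_of_support_subset ?_).1 h1
  intro z hz
  apply subset_tsupport
  intro h0
  apply hz
  simp only [h0, mul_zero]

theorem Weyl_ibp {a b : ℂ → ℝ} (hU : IsOpen U) (ha : ContDiffOn ℝ ∞ a U) (hb : ContDiff ℝ ∞ b)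
    (hc : HasCompactSupport b) (hs : tsupport b ⊆ U) (v : ℂ) :
    ∫ z, a z * D v b z = -∫ z, D v a z * b z := by
  apply integral_mul_fderiv_eq_neg_fderiv_mul_of_integrable
  · exact Weyl_integrable (Weyl_D_smoothOn hU ha v).continuousOn hb.continuous hc hs
  · exact Weyl_integrable ha.continuousOn (Weyl_D_smooth hb v).continuous (Weyl_D_cpt hc v)
      ((Weyl_D_tsupp b v).trans hs)
  · exact Weyl_integrable ha.continuousOn hb.continuous hc hs
  · intro x hx
    exact (ha.contDiffAt (hU.mem_nhds (hs hx))).differentiableAt (by simp)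
  · intro x _
    exact hb.contDiffAt.differentiableAt (by simp)

theorem Weyl_ibp2 {a b : ℂ → ℝ} (hU : IsOpen U) (ha : ContDiffOn ℝ ∞ a U) (hb : ContDiff ℝ ∞ b)
    (hc : HasCompactSupport b) (hs : tsupport b ⊆ U) (v : ℂ) :
    ∫ z, a z * D v (D v b) z = ∫ z, D v (D v a) z * b z := by
  rw [Weyl_ibp hU ha (Weyl_D_smooth hb v) (Weyl_D_cpt hc v) ((Weyl_D_tsupp b v).trans hs) v,
    Weyl_ibp hU (Weyl_D_smoothOn hU ha v) hb hc hs v, neg_neg]

theorem Helm.vweak (h : Helm lam U w) : VWeak lam U w := by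
  intro φ hφ hc hs
  have hU := h.isOpen
  have hw := h.smooth
  have i1 : ∀ v, Integrable (fun z => w z * D v (D v φ) z) := fun v =>
    Weyl_integrable hw.continuousOn (Weyl_D_smooth (Weyl_D_smooth hφ v) v).continuous
      (Weyl_D_cpt (Weyl_D_cpt hc v) v) ((Weyl_D_tsupp _ v).trans ((Weyl_D_tsupp φ v).trans hs))
  have i2 : ∀ v, Integrable (fun z => D v (D v w) z * φ z) := fun v =>
    Weyl_integrable (Weyl_D_smoothOn hU (Weyl_D_smoothOn hU hw v) v).continuousOn hφ.continuous
      hc hs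
  have i3 : Integrable (fun z => lam * (w z * φ z)) :=
    (Weyl_integrable hw.continuousOn hφ.continuous hc hs).const_mul lam
  have e1 : ∀ z, w z * (lap φ z + lam * φ z) =
      w z * D 1 (D 1 φ) z + w z * D I (D I φ) z + lam * (w z * φ z) := by
    intro z; simp only [lap]; ring
  have e2 : ∀ z, D 1 (D 1 w) z * φ z + D I (D I w) z * φ z + lam * (w z * φ z) = 0 := by
    intro z
    by_cases hz : z ∈ U
    · have := h.eq z hz
      simp only [lap] at this
      linear_combination φ z * this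
    · have h0 : φ z = 0 := image_eq_zero_of_notMem_tsupport fun hh => hz (hs hh)
      simp only [h0, mul_zero, add_zero]
  have j1 : Integrable (fun z => w z * D 1 (D 1 φ) z + w z * D I (D I φ) z) := (i1 1).add (i1 I)
  have j2 : Integrable (fun z => D 1 (D 1 w) z * φ z + D I (D I w) z * φ z) := (i2 1).add (i2 I)
  simp_rw [e1]
  rw [integral_add j1 i3, integral_add (i1 1) (i1 I), Weyl_ibp2 hU hw hφ hc hs 1,
    Weyl_ibp2 hU hw hφ hc hs I, ← integral_add (i2 1) (i2 I), ← integral_add j2 i3]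
  simp only [e2, integral_zero]

/-- convolution of `g` with `φ` -/
noncomputable def Weyl_cv (g φ : ℂ → ℝ) (x : ℂ) : ℝ := ∫ t, g t * φ (x - t)

theorem Weyl_cv_eq (g φ : ℂ → ℝ) :
    Weyl_cv g φ = convolution g φ (ContinuousLinearMap.mul ℝ ℝ) volume := by
  funext x
  simp only [Weyl_cv, convolution_def, ContinuousLinearMap.mul_apply']

theorem Weyl_cv_smooth {φ : ℂ → ℝ} (hg : Integrable g) (hφ : ContDiff ℝ ∞ φ)
    (hc : HasCompactSupport φ) : ContDiff ℝ ∞ (Weyl_cv g φ) := by
  rw [Weyl_cv_eq]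
  exact hc.contDiff_convolution_right (n := ⊤) _ hg.locallyIntegrable hφ

theorem Weyl_cv_D {φ : ℂ → ℝ} (hg : Integrable g) (hφ : ContDiff ℝ ∞ φ)
    (hc : HasCompactSupport φ) (v : ℂ) : D v (Weyl_cv g φ) = Weyl_cv g (D v φ) := by
  funext x
  have h1 : ContDiff ℝ 1 φ := hφ.of_le (by simp)
  have h2 := (hc.hasFDerivAt_convolution_right (ContinuousLinearMap.mul ℝ ℝ)
    hg.locallyIntegrable h1 x).fderiv
  rw [Weyl_cv_eq, Weyl_cv_eq]
  unfold D
  rw [h2, convolution_precompR_apply _ hg.locallyIntegrable (hc.fderiv ℝ)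
    (h1.continuous_fderiv one_ne_zero)]

theorem Weyl_D_refl {φ : ℂ → ℝ} (hφ : ContDiff ℝ ∞ φ) (x v : ℂ) :
    D v (fun t => φ (x - t)) = fun t => -D v φ (x - t) := by
  funext t
  have h1 : HasFDerivAt φ (fderiv ℝ φ (x - t)) (x - t) :=
    (hφ.contDiffAt.differentiableAt (by simp)).hasFDerivAt
  have h2 : HasFDerivAt (fun t : ℂ => x - t) (-ContinuousLinearMap.id ℝ ℂ) t :=
    (hasFDerivAt_id t).const_sub x
  have h3 := (h1.comp t h2).fderiv
  unfold D
  have e : (fun t => φ (x - t)) = φ ∘ fun t : ℂ => x - t := rfl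
  rw [e, h3]
  simp

theorem Weyl_DD_refl {φ : ℂ → ℝ} (hφ : ContDiff ℝ ∞ φ) (x v t : ℂ) :
    D v (D v fun t => φ (x - t)) t = D v (D v φ) (x - t) := by
  rw [Weyl_D_refl hφ]
  have h1 := congrFun (Weyl_D_refl (Weyl_D_smooth hφ v) x v) t
  have h2 : D v (fun t => -D v φ (x - t)) t = -D v (fun t => D v φ (x - t)) t := by
    unfold D
    rw [fderiv_fun_neg]
    rfl
  rw [h2, h1, neg_neg]

theorem Weyl_int_bdd {k : ℂ → ℝ} (hg : Integrable g) (hk : Continuous k)
    (hc : HasCompactSupport k) (x : ℂ) : Integrable fun t => g t * k (x - t) := by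
  obtain ⟨C, hC⟩ := hk.bounded_above_of_compact_support hc
  exact hg.mul_bdd (c := C) (hk.comp (continuous_const.sub continuous_id)).aestronglyMeasurable
    (Eventually.of_forall fun t => hC _)

theorem Weyl_refl_tsupp {φ : ℂ → ℝ} {R : ℝ} (hs : tsupport φ ⊆ closedBall 0 R) (x : ℂ) :
    tsupport (fun t => φ (x - t)) ⊆ closedBall x R := by
  apply closure_minimal _ isClosed_closedBall
  intro t ht
  have := hs (subset_tsupport φ ht)
  rw [mem_closedBall_zero_iff] at this
  rw [mem_closedBall, dist_comm, dist_eq_norm]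
  exact this

/-- the convolution of the cut off weak solution with a test function solves the equation -/
theorem Weyl_cv_helm {φ : ℂ → ℝ} {p : ℂ} {R : ℝ} (h : VWeak lam U f)
    (hK : closedBall p (3 * R) ⊆ U) (hi : IntegrableOn f (closedBall p (3 * R)))
    (hφ : ContDiff ℝ ∞ φ) (hs : tsupport φ ⊆ closedBall 0 R) :
    Helm lam (ball p (2 * R)) (Weyl_cv ((closedBall p (3 * R)).indicator f) φ) := by
  have hc : HasCompactSupport φ :=
    IsCompact.of_isClosed_subset (isCompact_closedBall 0 R) (isClosed_tsupport _) hs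
  have hg : Integrable ((closedBall p (3 * R)).indicator f) :=
    (integrable_indicator_iff measurableSet_closedBall).2 hi
  set g := (closedBall p (3 * R)).indicator f with hgdef
  refine ⟨isOpen_ball, (Weyl_cv_smooth hg hφ hc).contDiffOn, fun x hx => ?_⟩
  have hD : ∀ v, D v (D v (Weyl_cv g φ)) x = ∫ t, g t * D v (D v φ) (x - t) := by
    intro v
    rw [Weyl_cv_D hg hφ hc, Weyl_cv_D hg (Weyl_D_smooth hφ v) (Weyl_D_cpt hc v)]
    rfl
  have i1 : ∀ v, Integrable fun t => g t * D v (D v φ) (x - t) := fun v =>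
    Weyl_int_bdd hg (Weyl_D_smooth (Weyl_D_smooth hφ v) v).continuous
      (Weyl_D_cpt (Weyl_D_cpt hc v) v) x
  have i2 : Integrable fun t => lam * (g t * φ (x - t)) :=
    (Weyl_int_bdd hg hφ.continuous hc x).const_mul lam
  have hΦs := Weyl_refl_tsupp hs x
  have hsub : closedBall x R ⊆ closedBall p (3 * R) := by
    intro t ht
    rw [mem_closedBall] at ht ⊢
    rw [mem_ball] at hx
    linarith [dist_triangle t x p]
  have hΦ : ContDiff ℝ ∞ fun t => φ (x - t) := hφ.comp (contDiff_const.sub contDiff_id)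
  have key := h (fun t => φ (x - t)) hΦ
    (IsCompact.of_isClosed_subset (isCompact_closedBall x R) (isClosed_tsupport _) hΦs)
    (hΦs.trans (hsub.trans hK))
  have e : ∀ t, g t * D 1 (D 1 φ) (x - t) + g t * D I (D I φ) (x - t) + lam * (g t * φ (x - t)) =
      f t * (lap (fun t => φ (x - t)) t + lam * φ (x - t)) := by
    intro t
    simp only [lap, Weyl_DD_refl hφ]
    by_cases ht : t ∈ closedBall p (3 * R)
    · rw [hgdef, indicator_of_mem ht]; ring
    · have hn : x - t ∉ tsupport φ := by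
        intro hh
        have := hs hh
        rw [mem_closedBall_zero_iff] at this
        apply ht
        apply hsub
        rw [mem_closedBall, dist_comm, dist_eq_norm]
        exact this
      have z0 : φ (x - t) = 0 := image_eq_zero_of_notMem_tsupport hn
      have z1 : ∀ v, D v (D v φ) (x - t) = 0 := fun v => image_eq_zero_of_notMem_tsupport
        fun hh => hn (Weyl_D_tsupp φ v (Weyl_D_tsupp _ v hh))
      simp only [z0, z1, mul_zero, add_zero]
  have j1 : Integrable fun t => g t * D 1 (D 1 φ) (x - t) + g t * D I (D I φ) (x - t) :=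
    (i1 1).add (i1 I)
  unfold lap
  rw [hD, hD]
  unfold Weyl_cv
  rw [← integral_const_mul, ← integral_add (i1 1) (i1 I), ← integral_add j1 i2, ← key]
  exact integral_congr_ae (Eventually.of_forall e)

theorem Weyl_swap {a b : ℂ → ℝ} {k : ℂ → ℂ → ℝ} {C : ℝ} (ha : Integrable a) (hb : Integrable b)
    (hk : Continuous fun q : ℂ × ℂ => k q.1 q.2) (hC : ∀ x t, ‖k x t‖ ≤ C) :
    ∫ x, a x * ∫ t, b t * k x t = ∫ t, b t * ∫ x, a x * k x t := by
  have h1 : Integrable (fun q : ℂ × ℂ => a q.1 * b q.2 * k q.1 q.2) (volume.prod volume) :=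
    (ha.mul_prod hb).mul_bdd (c := C) hk.aestronglyMeasurable
      (Eventually.of_forall fun q => hC _ _)
  have h2 := integral_integral_swap (f := fun x t => a x * b t * k x t) h1
  simp_rw [← integral_const_mul]
  have e1 : ∀ x t, a x * (b t * k x t) = a x * b t * k x t := fun x t => by ring
  have e2 : ∀ t x, b t * (a x * k x t) = a x * b t * k x t := fun t x => by ring
  simp_rw [e1, e2]
  exact h2

theorem Weyl_local (hU : IsOpen U) (hl : 0 ≤ lam) (hf : LocallyIntegrableOn f U)
    (h : VWeak lam U f) {p : ℂ} (hp : p ∈ U) :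
    ∃ R, 0 < R ∧ ∃ w, Helm lam (ball p R) w ∧ ∀ᵐ z, z ∈ ball p R → w z = f z := by
  obtain ⟨r, hr0, hr⟩ := Metric.isOpen_iff.1 hU p hp
  obtain ⟨R, hR0, hRr, hlR⟩ : ∃ R, 0 < R ∧ 3 * R < r ∧ lam * R ^ 2 ≤ 1 := by
    refine ⟨min (r / 4) (1 / (lam + 1)), lt_min (by linarith) (by positivity), ?_, ?_⟩
    · linarith [min_le_left (r / 4) (1 / (lam + 1))]
    · have h1 : min (r / 4) (1 / (lam + 1)) ≤ 1 / (lam + 1) := min_le_right _ _
      have h0 : 0 ≤ min (r / 4) (1 / (lam + 1)) := le_min (by linarith) (by positivity)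
      have h2 : min (r / 4) (1 / (lam + 1)) ^ 2 ≤ (1 / (lam + 1)) ^ 2 := by gcongr
      have h3 : lam * (1 / (lam + 1)) ^ 2 ≤ 1 := by
        rw [div_pow, one_pow, mul_one_div, div_le_one (by positivity)]
        nlinarith
      nlinarith
  have hK : closedBall p (3 * R) ⊆ U := (closedBall_subset_ball hRr).trans hr
  have hi : IntegrableOn f (closedBall p (3 * R)) :=
    hf.integrableOn_compact_subset hK (isCompact_closedBall _ _)
  have hg : Integrable ((closedBall p (3 * R)).indicator f) :=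
    (integrable_indicator_iff measurableSet_closedBall).2 hi
  set ρ : ℝ → ℝ := fun s => expNegInvGlue (R ^ 2 - s ^ 2) with hρdef
  have hρc : Continuous ρ := (expNegInvGlue.contDiff (n := 0)).continuous.comp (by fun_prop)
  have hρz : ∀ s, R ≤ s → ρ s = 0 := fun s hs =>
    expNegInvGlue.zero_of_nonpos (by nlinarith)
  set ψ : ℂ → ℝ := fun z => ρ ‖z‖ with hψdef
  have hψ : ContDiff ℝ ∞ ψ :=
    (expNegInvGlue.contDiff (n := ⊤)).comp (contDiff_const.sub (contDiff_norm_sq ℝ))
  have hψs : tsupport ψ ⊆ closedBall 0 R := by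
    apply closure_minimal _ isClosed_closedBall
    intro z hz
    rw [mem_closedBall_zero_iff]
    by_contra hh
    exact hz (hρz _ (not_le.1 hh).le)
  have hψc : HasCompactSupport ψ :=
    IsCompact.of_isClosed_subset (isCompact_closedBall 0 R) (isClosed_tsupport _) hψs
  set c : ℝ := ∫ z : ℂ, J 0 lam ‖z‖ * ρ ‖z‖ with hcdef
  have hJ : ∀ s, 0 ≤ s → s ≤ R → 0 < J 0 lam s := by
    intro s h0 h1
    have h2 : lam * s ^ 2 ≤ 1 := le_trans (by gcongr) hlR
    have h3 := abs_le.1 (J_bound 0 hl h0 h2)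
    simp only [pow_zero, mul_one] at h3
    linarith [h3.1]
  have hc0 : 0 < c := by
    have hcont : Continuous fun z : ℂ => J 0 lam ‖z‖ * ρ ‖z‖ :=
      ((continuous_J 0 lam).comp continuous_norm).mul (hρc.comp continuous_norm)
    refine hcont.integral_pos_of_hasCompactSupport_nonneg_nonzero (x := 0) hψc.mul_left ?_ ?_
    · intro z
      by_cases hz : ‖z‖ ≤ R
      · exact mul_nonneg (hJ _ (norm_nonneg _) hz).le (expNegInvGlue.nonneg _)
      · simp only [hρz _ (not_le.1 hz).le, mul_zero, Pi.zero_apply, le_refl]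
    · refine (mul_pos (hJ _ (norm_nonneg _) (by simpa using hR0.le)) ?_).ne'
      exact expNegInvGlue.pos_of_pos (by simpa using pow_pos hR0 2)
  set g := (closedBall p (3 * R)).indicator f with hgdef
  have hW := Weyl_cv_helm h hK hi hψ hψs
  have hWc : Continuous (Weyl_cv g ψ) := (Weyl_cv_smooth hg hψ hψc).continuous
  refine ⟨R, hR0, fun z => c⁻¹ * Weyl_cv g ψ z,
    (hW.const_mul c⁻¹).mono isOpen_ball (ball_subset_ball (by linarith)), ?_⟩
  have hloc : LocallyIntegrableOn (fun z => c⁻¹ * Weyl_cv g ψ z - g z) (ball p R) :=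
    ((continuous_const.mul hWc).locallyIntegrable.sub hg.locallyIntegrable).locallyIntegrableOn _
  have main := isOpen_ball.ae_eq_zero_of_integral_contDiff_smul_eq_zero hloc ?_
  · filter_upwards [main] with z hz hzb
    have h1 := hz hzb
    have h2 : z ∈ closedBall p (3 * R) :=
      ball_subset_closedBall (ball_subset_ball (by linarith) hzb)
    rw [hgdef, indicator_of_mem h2] at h1
    exact sub_eq_zero.1 h1
  intro φ hφ hφc hφs
  have hφ' : ContDiff ℝ ∞ fun s => φ (p - s) := hφ.comp (contDiff_const.sub contDiff_id)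
  have hφ's : tsupport (fun s => φ (p - s)) ⊆ closedBall 0 R := by
    apply closure_minimal _ isClosed_closedBall
    intro s hs
    have := hφs (subset_tsupport φ hs)
    rw [mem_ball, dist_eq_norm, sub_sub_cancel_left, norm_neg] at this
    rw [mem_closedBall_zero_iff]
    exact this.le
  have hF := Weyl_cv_helm h hK hi hφ' hφ's
  have hm := disc_mean hF hl (p := p) (R := R) (closedBall_subset_ball (by linarith)) hlR hρc hρz
  obtain ⟨C1, hC1⟩ := hφ.continuous.bounded_above_of_compact_support hφc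
  obtain ⟨C2, hC2⟩ := hψ.continuous.bounded_above_of_compact_support hψc
  have iφ : Integrable φ := hφ.continuous.integrable_of_hasCompactSupport hφc
  have iψ : Integrable ψ := hψ.continuous.integrable_of_hasCompactSupport hψc
  have s1 := Weyl_swap (k := fun z t => φ (t - z)) (C := C1) iψ hg
    (hφ.continuous.comp (by fun_prop)) (fun _ _ => hC1 _)
  have s2 := Weyl_swap (k := fun x t => ψ (x - t)) (C := C2) iφ hg
    (hψ.continuous.comp (by fun_prop)) (fun _ _ => hC2 _)
  have e1 : ∀ t, ∫ x, φ x * ψ (x - t) = ∫ z, ψ z * φ (t - z) := by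
    intro t
    rw [← integral_sub_left_eq_self (fun x => φ x * ψ (x - t)) volume t]
    refine integral_congr_ae (Eventually.of_forall fun z => ?_)
    simp only [hψdef, sub_sub_cancel_left, norm_neg]
    ring
  have e2 : ∫ z, Weyl_cv g (fun s => φ (p - s)) (p + z) * ρ ‖z‖ =
      ∫ z, ψ z * ∫ t, g t * φ (t - z) := by
    refine integral_congr_ae (Eventually.of_forall fun z => ?_)
    have e : ∀ t, p - (p + z - t) = t - z := fun t => by ring
    simp only [Weyl_cv, e, hψdef]
    ring
  have e3 : Weyl_cv g (fun s => φ (p - s)) p = ∫ t, φ t * g t := by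
    simp only [Weyl_cv, sub_sub_cancel]
    exact integral_congr_ae (Eventually.of_forall fun t => mul_comm _ _)
  have e4 : ∫ x, φ x * Weyl_cv g ψ x = (∫ t, φ t * g t) * c := by
    rw [← e3, ← hm, e2, s1]
    simp only [Weyl_cv]
    rw [s2]
    simp only [e1]
  have j1 : Integrable fun x => c⁻¹ * (φ x * Weyl_cv g ψ x) :=
    ((hφ.continuous.mul hWc).integrable_of_hasCompactSupport hφc.mul_right).const_mul _
  have j2 : Integrable fun x => φ x * g x :=
    hg.bdd_mul (c := C1) hφ.continuous.aestronglyMeasurable (Eventually.of_forall hC1)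
  have e5 : ∀ x, φ x • (c⁻¹ * Weyl_cv g ψ x - g x) =
      c⁻¹ * (φ x * Weyl_cv g ψ x) - φ x * g x := fun x => by
    rw [smul_eq_mul]; ring
  simp_rw [e5]
  rw [integral_sub j1 j2, integral_const_mul, e4]
  field_simp
  ring

theorem weyl (hU : IsOpen U) (hl : 0 ≤ lam) (hf : LocallyIntegrableOn f U) (h : VWeak lam U f) :
    ∃ w, Helm lam U w ∧ ∀ᵐ z, z ∈ U → w z = f z := by
  have hloc : ∀ p, p ∈ U →
      ∃ R, 0 < R ∧ ∃ w, Helm lam (ball p R) w ∧ ∀ᵐ z, z ∈ ball p R → w z = f z :=
    fun p hp => Weyl_local hU hl hf h hp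
  choose! R hR W hW hae using hloc
  have hagree : ∀ p ∈ U, ∀ z ∈ U, z ∈ ball p (R p) → W z z = W p z := by
    intro p hp z hz hzp
    have ho : IsOpen (ball z (R z) ∩ ball p (R p)) := isOpen_ball.inter isOpen_ball
    refine Measure.eqOn_open_of_ae_eq (μ := volume) ?_ ho
      ((hW z hz).continuousOn.mono inter_subset_left)
      ((hW p hp).continuousOn.mono inter_subset_right) ⟨mem_ball_self (hR z hz), hzp⟩
    rw [EventuallyEq, ae_restrict_iff' ho.measurableSet]
    filter_upwards [hae z hz, hae p hp] with y h1 h2 hy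
    rw [h1 hy.1, h2 hy.2]
  refine ⟨fun z => W z z, helm_of_locally hU fun p hp => ⟨U ∩ ball p (R p),
    ⟨hp, mem_ball_self (hR p hp)⟩, ?_⟩, ?_⟩
  · exact ((hW p hp).mono (hU.inter isOpen_ball) inter_subset_right).congr
      fun z hz => hagree p hp z hz.1 hz.2
  · rw [ae_iff]
    apply measure_null_of_locally_null
    intro p hp
    have hpU : p ∈ U := (Classical.not_imp.1 hp).1
    refine ⟨_, inter_mem_nhdsWithin _ (ball_mem_nhds p (hR p hpU)), ?_⟩
    refine measure_mono_null ?_ (ae_iff.1 (hae p hpU))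
    intro z hz hh
    have h1 := Classical.not_imp.1 hz.1
    exact h1.2 ((hagree p hpU z h1.1 hz.2).trans (hh hz.2))

theorem weyl_cont (hU : IsOpen U) (hl : 0 ≤ lam) (hf : ContinuousOn f U) (h : VWeak lam U f) :
    Helm lam U f := by
  obtain ⟨w, hw, hae⟩ := weyl hU hl (hf.locallyIntegrableOn hU.measurableSet) h
  refine hw.congr (Measure.eqOn_open_of_ae_eq (μ := volume) ?_ hU hf hw.continuousOn)
  rw [EventuallyEq, ae_restrict_iff' hU.measurableSet]
  filter_upwards [hae] with z hz hzU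
  exact (hz hzU).symm

end Pool.Agent.L2K
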