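import Pool.Agent.P.MP_2f6447_an.K.Kato
import Pool.Agent.P.MP_2f6447_an.K.SubBd
import Pool.Agent.P.MP_2f6447_an.K.Weyl
import Pool.Agent.P.MP_2f6447_an.K.Geo1
import Pool.Agent.P.MP_2f6447_an.K.LipH

/-! Weak eigenfunctions are Lipschitz up to the boundary. -/

open Set MeasureTheory Filter Topology Complex Metric
open scoped ContDiff ComplexConjugate

namespace Pool.Agent.L2K

variable {Ω U : Set ℂ} {lam : ℝ} {u w f g : ℂ → ℝ}

theorem Reg0_le_of_ae (hU : IsOpen U) (hf : ContinuousOn f U) (hg : ContinuousOn g U)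
    (h : ∀ᵐ z, z ∈ U → f z ≤ g z) : ∀ z ∈ U, f z ≤ g z := by
  intro z hz
  by_contra hc
  have hc' : g z < f z := not_le.mp hc
  have hU' := hU.mem_nhds hz
  have h1 : ∀ᶠ x in 𝓝 z, g x < f x :=
    (hg.continuousAt hU').eventually_lt (hf.continuousAt hU') hc'
  have h2 : {x | x ∈ U ∧ g x < f x} ∈ 𝓝 z := Filter.inter_mem hU' h1
  have h3 : 0 < volume {x | x ∈ U ∧ g x < f x} := Measure.measure_pos_of_mem_nhds volume h2
  have h4 : volume {x | x ∈ U ∧ g x < f x} = 0 := by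
    refine measure_mono_null ?_ (ae_iff.mp h)
    intro x hx hx'
    exact absurd (hx' hx.1) (not_le.mpr hx.2)
  exact h3.ne' h4

theorem Reg0_dot_shift (z p ν : ℂ) (hν : ‖ν‖ = 1) (t : ℝ) :
    dot (z - (p + t * ν)) ν = dot (z - p) ν - t := by
  have h1 := dot_self ν
  rw [hν] at h1
  simp only [dot, sub_re, add_re, mul_re, ofReal_re, ofReal_im, sub_im, add_im, mul_im] at h1 ⊢
  linear_combination (-t) * h1

theorem Reg0_dot_split (z q p ν : ℂ) : dot (z - p) ν = dot (z - q) ν + dot (q - p) ν := by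
  simp only [dot, sub_re, sub_im]
  ring

theorem Reg0_strip {G : ℂ → ℂ} (hΩ : Dom Ω) (h : H10 Ω f G) (hw : Weak lam Ω f G) (hl : 0 ≤ lam) :
    ∃ C : ℝ, 0 ≤ C ∧ ∀ p ν, IsN Ω p ν → ∀ᵐ z, |f z| ≤ C * |dot (z - p) ν| := by
  obtain ⟨v, hv1, hv2, hv3, hv4, hv5, hv6, hv7⟩ :=
    kato_smooth h hw hl hΩ.isOpen.measurableSet hΩ.bdd
  obtain ⟨C1, hC1⟩ := sub_sup (lam := lam) hl
  obtain ⟨C2, hC2⟩ := sub_strip (lam := lam) hl
  set M : ℝ := C1 * ∫ z, |f z| with hM
  have hb : ∀ n z, v n z ≤ M := by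
    intro n z
    have := hC1 (v n) (hv1 n) (hv2 n) (hv3 n)
      ((hv1 n).continuous.integrable_of_hasCompactSupport (hv6 n)) z
    rwa [hv5 n] at this
  refine ⟨|C2 * M|, abs_nonneg _, fun p ν hN => ?_⟩
  have key : ∀ (n : ℕ) z, v n z ≤ C2 * M * |dot (z - p) ν - 1 / ((n : ℝ) + 1)| := by
    intro n z
    have := hC2 (v n) M (p + ((1 / ((n : ℝ) + 1) : ℝ) : ℂ) * ν) ν (hv1 n) (hv6 n) (hv2 n) (hb n)
      (hv3 n) hN.1 ?_ z
    · rwa [Reg0_dot_shift _ _ _ hN.1] at this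
    · intro x hx
      by_contra hne
      obtain ⟨q, hq, hxq⟩ := hv4 n x hne
      rw [Reg0_dot_shift _ _ _ hN.1, Reg0_dot_split x q p ν] at hx
      have h1 := hN.2 q hq
      have h2 := abs_dot_le (x - q) ν
      rw [hN.1, mul_one] at h2
      have h3 := le_abs_self (dot (x - q) ν)
      linarith
  filter_upwards [hv7] with z hz
  have ht : Tendsto (fun n : ℕ => C2 * M * |dot (z - p) ν - 1 / ((n : ℝ) + 1)|) atTop
      (𝓝 (C2 * M * |dot (z - p) ν - 0|)) :=
    ((tendsto_const_nhds.sub tendsto_one_div_add_atTop_nhds_zero_nat).abs).const_mul _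
  have h1 := le_of_tendsto_of_tendsto' hz ht fun n => key n z
  rw [sub_zero] at h1
  exact h1.trans (mul_le_mul_of_nonneg_right (le_abs_self _) (abs_nonneg _))

theorem Reg0_grad (hΩ : Dom Ω) (hH : Helm lam Ω w) (hl : 0 ≤ lam) {C : ℝ} (hC : 0 ≤ C)
    (hd : ∀ z ∈ Ω, ∀ p, p ∉ Ω → |w z| ≤ C * ‖z - p‖) : ∃ K : ℝ, ∀ z ∈ Ω, ‖grad w z‖ ≤ K := by
  obtain ⟨B, hB0, hB⟩ := hΩ.bdd.closure.exists_pos_norm_le
  set t : ℝ := 1 / (2 * (1 + B) * (1 + lam)) with ht
  have hden : 0 < 2 * (1 + B) * (1 + lam) := by positivity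
  have ht0 : 0 < t := by positivity
  have ht1 : t * (2 * (1 + B) * (1 + lam)) = 1 := by rw [ht]; field_simp
  have ht2 : t ≤ 1 / 2 := by
    rw [ht]
    apply one_div_le_one_div_of_le (by norm_num)
    nlinarith [mul_nonneg hB0.le hl]
  refine ⟨8 * C / t, fun z hz => ?_⟩
  obtain ⟨p, hp, hball, -⟩ := hΩ.nearest hz
  have hp' := hΩ.notMem_of_frontier hp
  set d := ‖p - z‖ with hdd
  have hd0 : 0 < d := by
    rw [hdd, norm_pos_iff, sub_ne_zero]
    rintro rfl
    exact hp' hz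
  have hdB : d ≤ 2 * B := by
    have h1 := hB p (frontier_subset_closure hp)
    have h2 := hB z (subset_closure hz)
    have h3 := norm_sub_le p z
    linarith
  have hR0 : 0 < t * d := mul_pos ht0 hd0
  have hRd : t * d ≤ d / 2 := by nlinarith
  have hsub : closedBall z (t * d) ⊆ Ω :=
    (closedBall_subset_ball (by linarith)).trans hball
  have hR1 : t * d * (1 + lam) ≤ 1 := by
    have h1 : t * d * (1 + lam) ≤ t * (2 * (1 + B)) * (1 + lam) := by
      apply mul_le_mul_of_nonneg_right _ (by linarith)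
      apply mul_le_mul_of_nonneg_left _ ht0.le
      linarith
    linarith
  have hlR : lam * (t * d) ^ 2 ≤ 1 := by
    have h1 : t * d ≤ 1 := by nlinarith
    have h2 : lam * (t * d) ≤ 1 := by nlinarith
    have h3 : 0 ≤ lam * (t * d) := mul_nonneg hl hR0.le
    nlinarith
  have hM : ∀ y ∈ closedBall z (t * d), |w y| ≤ C * (2 * d) := by
    intro y hy
    refine (hd y (hsub hy) p hp').trans (mul_le_mul_of_nonneg_left ?_ hC)
    rw [mem_closedBall, dist_eq_norm] at hy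
    have h1 : ‖y - p‖ ≤ ‖y - z‖ + ‖z - p‖ := norm_sub_le_norm_sub_add_norm_sub y z p
    rw [norm_sub_rev z p] at h1
    linarith
  have h1 := grad_est hH hl hR0 hsub hlR hM
  refine h1.trans (le_of_eq ?_)
  field_simp
  ring

theorem exists_lip {G : ℂ → ℂ} (hΩ : Dom Ω) (h : H10 Ω f G) (hw : Weak lam Ω f G) (hl : 0 ≤ lam) :
    ∃ u, Lip0 Ω u ∧ Helm lam Ω u ∧ u =ᵐ[volume] f ∧ grad u =ᵐ[volume] G := by
  have hm := hΩ.isOpen.measurableSet
  have hloc : LocallyIntegrableOn f Ω :=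
    (h.memf.locallyIntegrable (by norm_num)).locallyIntegrableOn Ω
  obtain ⟨w, hH, hwf⟩ := weyl hΩ.isOpen hl hloc (h.vweak hw)
  obtain ⟨C, hC, hs⟩ := Reg0_strip hΩ h hw hl
  have hd : ∀ z ∈ Ω, ∀ p, p ∉ Ω → |w z| ≤ C * ‖z - p‖ := by
    intro z hz p hp
    obtain ⟨ν, hN⟩ := hΩ.exists_sep hp
    have hc : Continuous fun x : ℂ => C * |dot (x - p) ν| := by
      unfold dot
      fun_prop
    have h1 := Reg0_le_of_ae (f := fun x => |w x|) (g := fun x => C * |dot (x - p) ν|) hΩ.isOpen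
      hH.continuousOn.abs hc.continuousOn (by
        filter_upwards [hwf, hs p ν hN] with x h1 h2 hx
        rw [h1 hx]
        exact h2) z hz
    refine h1.trans (mul_le_mul_of_nonneg_left ?_ hC)
    have h2 := abs_dot_le (z - p) ν
    rwa [hN.1, mul_one] at h2
  obtain ⟨K, hK⟩ := Reg0_grad hΩ hH hl hC hd
  have hin : ∀ x ∈ Ω, ∀ y ∈ Ω, |w x - w y| ≤ K * ‖x - y‖ := by
    intro x hx y hy
    have := hΩ.convex.norm_image_sub_le_of_norm_fderiv_le (𝕜 := ℝ) (f := w) (C := K)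
      (fun z hz => hH.differentiableAt hz) (fun z hz => by rw [← norm_grad]; exact hK z hz) hy hx
    rwa [Real.norm_eq_abs] at this
  have he : EqOn (Ω.indicator w) w Ω := fun z hz => indicator_of_mem hz w
  have hz0 : ∀ z, z ∉ Ω → Ω.indicator w z = 0 := fun z hz => indicator_of_notMem hz w
  have hL : Lip0 Ω (Ω.indicator w) := by
    refine ⟨⟨Real.toNNReal (max C K), LipschitzWith.of_dist_le' fun x y => ?_⟩, hz0⟩
    rw [Real.dist_eq, dist_eq_norm]
    have hn := norm_nonneg (x - y)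
    have a1 : C * ‖x - y‖ ≤ max C K * ‖x - y‖ := mul_le_mul_of_nonneg_right (le_max_left _ _) hn
    have a2 : K * ‖x - y‖ ≤ max C K * ‖x - y‖ := mul_le_mul_of_nonneg_right (le_max_right _ _) hn
    by_cases hx : x ∈ Ω <;> by_cases hy : y ∈ Ω
    · rw [he hx, he hy]
      exact (hin x hx y hy).trans a2
    · rw [he hx, hz0 y hy, sub_zero]
      exact (hd x hx y hy).trans a1
    · rw [hz0 x hx, he hy, zero_sub, abs_neg]
      have := hd y hy x hx
      rw [norm_sub_rev] at this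
      exact this.trans a1
    · rw [hz0 x hx, hz0 y hy, sub_zero, abs_zero]
      exact (mul_nonneg hC hn).trans a1
  have hH' : Helm lam Ω (Ω.indicator w) := hH.congr he
  have h0 := h.ae_zero hm
  have e1 : Ω.indicator w =ᵐ[volume] f := by
    filter_upwards [hwf, h0] with z h1 h2
    by_cases hz : z ∈ Ω
    · rw [he hz, h1 hz]
    · rw [hz0 z hz, (h2 hz).1]
  refine ⟨Ω.indicator w, hL, hH', e1, ?_⟩
  have h' : H10 Ω (Ω.indicator w) G := h.congr e1 (EventuallyEq.refl _ _)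
  have e2 := h'.grad_ae hΩ.isOpen (hH'.smooth.of_le (by exact_mod_cast le_top))
  have e3 : ∀ᵐ z, z ∉ frontier Ω := measure_eq_zero_iff_ae_notMem.mp hΩ.frontier_null
  filter_upwards [e2, e3, h0] with z h1 h2 h3
  by_cases hz : z ∈ Ω
  · exact (h1 hz).symm
  · rw [(h3 hz).2]
    apply hL.grad_zero
    intro hc
    apply h2
    rw [hΩ.isOpen.frontier_eq]
    exact ⟨hc, hz⟩

end Pool.Agent.L2K
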