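import Pool.Agent.P.MP_2f6447_an.K.RellichA

/-! Compactness and Poincaré. -/

open Set MeasureTheory Filter Topology Complex Metric
open scoped ContDiff ComplexConjugate

namespace Pool.Agent.L2K

variable {Ω U : Set ℂ} {lam : ℝ} {u w f g : ℂ → ℝ}

theorem poincare (hb : Bornology.IsBounded Ω) :
    ∃ c, 0 < c ∧ ∀ φ, Test Ω φ → c * ∫ z, φ z ^ 2 ≤ ∫ z, ‖grad φ z‖ ^ 2 := by
  obtain ⟨M, hM0, hM⟩ := hb.exists_pos_norm_le
  refine ⟨1 / (3 * M) ^ 2, by positivity, fun φ hφ => ?_⟩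
  have hz : ‖((3 * M : ℝ) : ℂ)‖ = 3 * M := by
    rw [norm_real, Real.norm_of_nonneg (by positivity)]
  have h1 := Rellich_transl hφ.smooth hφ.cpt le_rfl ((3 * M : ℝ) : ℂ)
  rw [hz] at h1
  have h2 : ∫⁻ y, ENNReal.ofReal (‖φ y‖ ^ 2) ≤
      ∫⁻ y, ENNReal.ofReal (‖φ (y + ((3 * M : ℝ) : ℂ)) - φ y‖ ^ 2) := by
    refine lintegral_mono fun y => ENNReal.ofReal_le_ofReal ?_
    by_cases hy : y ∈ tsupport φ
    · have h3 : y + ((3 * M : ℝ) : ℂ) ∉ tsupport φ := fun h4 => by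
        have h5 := hM _ (hφ.supp hy)
        have h6 := hM _ (hφ.supp h4)
        have h7 := norm_sub_le (y + ((3 * M : ℝ) : ℂ)) y
        rw [add_sub_cancel_left, hz] at h7
        linarith
      rw [image_eq_zero_of_notMem_tsupport h3, zero_sub, norm_neg]
    · rw [image_eq_zero_of_notMem_tsupport hy, norm_zero, zero_pow two_ne_zero]
      exact sq_nonneg _
  have h3 := h2.trans h1
  rw [Rellich_lint_eq hφ.smooth.continuous hφ.cpt, ENNReal.ofReal_le_ofReal_iff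
    (mul_nonneg (integral_nonneg fun y => sq_nonneg _) (sq_nonneg _))] at h3
  simp only [← H10_rsq] at h3
  rw [one_div, inv_mul_le_iff₀ (by positivity), mul_comm]
  exact h3

theorem Rellich_norm {E : Type} [NormedAddCommGroup E] [InnerProductSpace ℝ E] {A : ℂ → E}
    (hA : MemLp A 2 volume) : ∫ z, ‖A z‖ ^ 2 = ‖hA.toLp A‖ ^ 2 := by
  have h1 := (H10_inner hA hA).2
  simpa only [real_inner_self_eq_norm_sq] using h1

theorem Rellich_dist {E : Type} [NormedAddCommGroup E] [InnerProductSpace ℝ E] {A B : ℂ → E}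
    (hA : MemLp A 2 volume) (hB : MemLp B 2 volume) :
    ∫ z, ‖A z - B z‖ ^ 2 = ‖hA.toLp A - hB.toLp B‖ ^ 2 := by
  have h1 := Rellich_norm (hA.sub hB)
  rw [MemLp.toLp_sub hA hB] at h1
  exact h1

theorem Rellich_tend {E : Type} [NormedAddCommGroup E] [InnerProductSpace ℝ E] {A : ℕ → ℂ → E}
    (hA : ∀ n, MemLp (A n) 2 volume) {a : Lp E 2 (volume : Measure ℂ)}
    (h : Tendsto (fun n => (hA n).toLp (A n)) atTop (𝓝 a)) :
    Tendsto (fun n => ∫ z, ‖A n z - a z‖ ^ 2) atTop (𝓝 0) := by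
  simp only [fun n => Rellich_dist (hA n) (Lp.memLp a), Lp.toLp_coeFn]
  simpa using (tendsto_iff_norm_sub_tendsto_zero.1 h).pow 2

theorem rellich (hb : Bornology.IsBounded Ω) {φ : ℕ → ℂ → ℝ} (hφ : ∀ n, Test Ω (φ n)) {R : ℝ}
    (h1 : ∀ n, ∫ z, φ n z ^ 2 ≤ R) (h2 : ∀ n, ∫ z, ‖grad (φ n) z‖ ^ 2 ≤ R) :
    ∃ (s : ℕ → ℕ) (f : ℂ → ℝ), StrictMono s ∧ MemLp f 2 volume ∧
      Tendsto (fun n => ∫ z, (φ (s n) z - f z) ^ 2) atTop (𝓝 0) := by
  have hK : IsCompact (closure Ω) := hb.isCompact_closure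
  have hm : ∀ n, MemLp (φ n) 2 volume := fun n => H10_memf (hφ n)
  have ht : TotallyBounded (range fun n => (hm n).toLp (φ n)) := by
    refine Metric.totallyBounded_iff.2 fun ε hε => ?_
    obtain ⟨t', -, ht', ht3⟩ := exists_subset_image_finite_and.1
      (Rellich_net hK R (δ := (ε / 2) ^ 2) (by positivity) (φ '' univ) (by
        rintro _ ⟨n, -, rfl⟩
        refine ⟨(hφ n).smooth, fun y hy => image_eq_zero_of_notMem_tsupport fun h =>
          hy (subset_closure ((hφ n).supp h)), ?_, h2 n⟩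
        simpa only [← H10_rsq] using h1 n))
    refine ⟨(fun n => (hm n).toLp (φ n)) '' t', ht'.image _, ?_⟩
    rintro _ ⟨n, rfl⟩
    obtain ⟨_, ⟨m, hmt, rfl⟩, hd⟩ := ht3 _ ⟨n, mem_univ n, rfl⟩
    refine mem_iUnion₂.2 ⟨_, mem_image_of_mem _ hmt, ?_⟩
    rw [Rellich_dist (hm n) (hm m)] at hd
    rw [mem_ball, dist_eq_norm]
    have := abs_le_of_sq_le_sq' hd (by positivity)
    linarith [this.2]
  have hc : IsCompact (closure (range fun n => (hm n).toLp (φ n))) :=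
    ht.closure.isCompact_of_isClosed isClosed_closure
  obtain ⟨a, -, s, hs, ha⟩ := hc.tendsto_subseq (x := fun n => (hm n).toLp (φ n))
    fun n => subset_closure ⟨n, rfl⟩
  refine ⟨s, a, hs, Lp.memLp a, ?_⟩
  simpa only [← H10_rsq] using Rellich_tend (A := fun n => φ (s n)) (fun n => hm (s n)) ha

theorem Rellich_add {E : Type} [NormedAddCommGroup E] [InnerProductSpace ℝ E] {A B : ℂ → E}
    (hA : MemLp A 2 volume) (hB : MemLp B 2 volume) :
    ∫ z, ‖A z + B z‖ ^ 2 = ‖hA.toLp A + hB.toLp B‖ ^ 2 := by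
  have h1 := Rellich_norm (hA.add hB)
  rw [MemLp.toLp_add hA hB] at h1
  exact h1

theorem Rellich_scale {ψ : ℂ → ℝ} (h : 0 < ∫ z, ψ z ^ 2) : ∃ c : ℝ,
    ∫ z, (c • ψ) z ^ 2 = 1 ∧
      (∫ z, ‖grad (c • ψ) z‖ ^ 2) * ∫ z, ψ z ^ 2 = ∫ z, ‖grad ψ z‖ ^ 2 := by
  have h1 : (√(∫ z, ψ z ^ 2))⁻¹ ^ 2 * ∫ z, ψ z ^ 2 = 1 := by
    rw [inv_pow, Real.sq_sqrt h.le, inv_mul_cancel₀ h.ne']
  generalize (√(∫ z, ψ z ^ 2))⁻¹ = c at h1
  refine ⟨c, ?_, ?_⟩
  · simp only [Pi.smul_apply, smul_eq_mul, mul_pow]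
    rw [integral_const_mul, h1]
  · have e : ∀ z, ‖grad (c • ψ) z‖ ^ 2 = c ^ 2 * ‖grad ψ z‖ ^ 2 := fun z => by
      have h2 : grad (c • ψ) z = c * grad ψ z := grad_const_mul c ψ z
      rw [h2, norm_mul, norm_real, mul_pow, ← H10_rsq]
    simp only [e]
    rw [integral_const_mul, mul_right_comm, h1, one_mul]

theorem exists_min (hb : Bornology.IsBounded Ω) (V : Submodule ℝ (ℂ → ℝ))
    (hV : ∀ φ ∈ V, Test Ω φ) (hne : V ≠ ⊥) : ∃ (μ : ℝ) (f : ℂ → ℝ) (G : ℂ → ℂ) (φ : ℕ → ℂ → ℝ),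
      (∀ ψ ∈ V, μ * ∫ z, ψ z ^ 2 ≤ ∫ z, ‖grad ψ z‖ ^ 2) ∧ (∀ n, φ n ∈ V) ∧
      MemLp f 2 volume ∧ MemLp G 2 volume ∧
      Tendsto (fun n => ∫ z, (φ n z - f z) ^ 2) atTop (𝓝 0) ∧
      Tendsto (fun n => ∫ z, ‖grad (φ n) z - G z‖ ^ 2) atTop (𝓝 0) ∧
      ∫ z, f z ^ 2 = 1 ∧ ∫ z, ‖G z‖ ^ 2 = μ := by
  set S : Set ℝ := {r | ∃ ψ ∈ V, ∫ z, ψ z ^ 2 = 1 ∧ ∫ z, ‖grad ψ z‖ ^ 2 = r} with hS
  have hbd : BddBelow S := ⟨0, by
    rintro _ ⟨ψ, -, -, rfl⟩
    exact integral_nonneg fun z => sq_nonneg _⟩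
  have hSne : S.Nonempty := by
    obtain ⟨ψ, hψ, h0⟩ := (Submodule.ne_bot_iff V).1 hne
    obtain ⟨z, hz⟩ := Function.ne_iff.1 h0
    have hc : Continuous fun z => ψ z ^ 2 := (hV ψ hψ).smooth.continuous.pow 2
    have hi : Integrable fun z => ψ z ^ 2 := by
      simpa only [← H10_rsq] using H10_sq (H10_memf (hV ψ hψ))
    have hpos : 0 < ∫ z, ψ z ^ 2 :=
      integral_pos_of_integrable_nonneg_nonzero (x := z) hc hi (fun z => sq_nonneg _)
        (pow_ne_zero 2 hz)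
    obtain ⟨c, h1, -⟩ := Rellich_scale hpos
    exact ⟨_, c • ψ, V.smul_mem c hψ, h1, rfl⟩
  have hray : ∀ ψ ∈ V, sInf S * ∫ z, ψ z ^ 2 ≤ ∫ z, ‖grad ψ z‖ ^ 2 := fun ψ hψ => by
    rcases (integral_nonneg (μ := volume) (f := fun z => ψ z ^ 2) fun z => sq_nonneg _).eq_or_lt
      with h | h
    · rw [← h]
      simpa using integral_nonneg (μ := volume) (f := fun z => ‖grad ψ z‖ ^ 2) fun z => sq_nonneg _
    · obtain ⟨c, h1, h2⟩ := Rellich_scale h
      rw [← h2]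
      exact mul_le_mul_of_nonneg_right (csInf_le hbd ⟨c • ψ, V.smul_mem c hψ, h1, rfl⟩) (le_of_lt h)
  obtain ⟨r, hr1, hr2, hr3⟩ := exists_seq_tendsto_sInf hSne hbd
  generalize sInf S = μ at hray hr2
  choose φ0 hφV hφ1 hφ2 using hr3
  obtain ⟨s, f, hs, hf, hlim⟩ := rellich hb (fun n => hV _ (hφV n)) (R := max 1 (r 0))
    (fun n => (hφ1 n).le.trans (le_max_left _ _))
    (fun n => (hφ2 n).le.trans ((hr1 (Nat.zero_le n)).trans (le_max_right _ _)))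
  replace hr2 : Tendsto (fun n => r (s n)) atTop (𝓝 μ) := hr2.comp hs.tendsto_atTop
  have hT : ∀ n, Test Ω (φ0 (s n)) := fun n => hV _ (hφV _)
  have hx : Tendsto (fun n => (H10_memf (hT n)).toLp _) atTop (𝓝 (hf.toLp f)) :=
    H10_tend (A := fun n => φ0 (s n)) (fun n => H10_memf (hT n)) hf
      (by simpa only [← H10_rsq] using hlim)
  have hx1 : ∀ n, ‖(H10_memf (hT n)).toLp _‖ ^ 2 = 1 := fun n => by
    rw [← Rellich_norm, ← hφ1 (s n)]
    simp only [← H10_rsq]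
  have hy1 : ∀ n, ‖(H10_memG (hT n)).toLp _‖ ^ 2 = r (s n) := fun n => by
    rw [← Rellich_norm, hφ2]
  have hxy : ∀ n m, μ * ‖(H10_memf (hT n)).toLp _ + (H10_memf (hT m)).toLp _‖ ^ 2 ≤
      ‖(H10_memG (hT n)).toLp _ + (H10_memG (hT m)).toLp _‖ ^ 2 := fun n m => by
    have h1 := hray _ (V.add_mem (hφV (s n)) (hφV (s m)))
    have e : ∀ z, grad (φ0 (s n) + φ0 (s m)) z = grad (φ0 (s n)) z + grad (φ0 (s m)) z := fun z =>
      grad_add ((hT n).smooth.differentiable one_ne_zero z)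
        ((hT m).smooth.differentiable one_ne_zero z)
    simp only [e, Pi.add_apply] at h1
    rw [← Rellich_add, ← Rellich_add]
    simpa only [← H10_rsq] using h1
  have hcs : CauchySeq fun n => (H10_memG (hT n)).toLp (grad (φ0 (s n))) := by
    have hx' := cauchySeq_iff_tendsto_dist_atTop_0.1 hx.cauchySeq
    generalize hX : (fun n => (H10_memf (hT n)).toLp (φ0 (s n))) = X
    generalize hY : (fun n => (H10_memG (hT n)).toLp (grad (φ0 (s n)))) = Y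
    simp only [fun n => congrFun hX n, fun n => congrFun hY n] at hx' hx1 hy1 hxy
    have t1 : Tendsto (fun p : ℕ × ℕ => r (s p.1)) atTop (𝓝 μ) := by
      rw [← prod_atTop_atTop_eq]
      exact hr2.comp tendsto_fst
    have t2 : Tendsto (fun p : ℕ × ℕ => r (s p.2)) atTop (𝓝 μ) := by
      rw [← prod_atTop_atTop_eq]
      exact hr2.comp tendsto_snd
    have t3 := (((t1.const_mul 2).add (t2.const_mul 2)).add
      (((hx'.pow 2).sub_const 4).const_mul μ)).sqrt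
    rw [show 2 * μ + 2 * μ + μ * (0 ^ 2 - 4) = 0 by ring, Real.sqrt_zero] at t3
    refine cauchySeq_iff_tendsto_dist_atTop_0.2
      (squeeze_zero (fun p => dist_nonneg) (fun p => Real.le_sqrt_of_sq_le ?_) t3)
    have p1 := parallelogram_law_with_norm ℝ (X p.1) (X p.2)
    have p2 := parallelogram_law_with_norm ℝ (Y p.1) (Y p.2)
    have h3 := hxy p.1 p.2
    simp only [hx1, hy1] at p1 p2
    simp only [dist_eq_norm]
    have p3 : ‖X p.1 + X p.2‖ ^ 2 = 4 - ‖X p.1 - X p.2‖ ^ 2 := by linarith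
    rw [p3] at h3
    linarith
  obtain ⟨G, hG⟩ := cauchySeq_tendsto_of_complete hcs
  refine ⟨μ, f, G, fun n => φ0 (s n), hray, fun n => hφV _, hf, Lp.memLp G, hlim,
    Rellich_tend (A := fun n => grad (φ0 (s n))) (fun n => H10_memG (hT n)) hG, ?_, ?_⟩
  · have h1 := hx.norm.pow 2
    simp only [hx1] at h1
    have h2 := Rellich_norm hf
    simp only [← H10_rsq] at h2
    rw [h2]
    exact (tendsto_nhds_unique h1 tendsto_const_nhds)
  · have h1 := hG.norm.pow 2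
    simp only [hy1] at h1
    rw [Rellich_norm (Lp.memLp G), Lp.toLp_coeFn]
    exact tendsto_nhds_unique h1 hr2

end Pool.Agent.L2K
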