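import Pool.Agent.P.MP_2f6447_an.K.H10

/-! Bounded families of `C¹` functions supported in a fixed compact set have finite nets in `L²`. -/

open Set MeasureTheory Filter Topology

namespace Pool.Agent.L2K

theorem Rellich_enorm_rpow_two (v : ℝ) : ‖v‖ₑ ^ (2 : ℝ) = ENNReal.ofReal (‖v‖ ^ 2) := by
  rw [← ofReal_norm, ENNReal.ofReal_rpow_of_nonneg (norm_nonneg v) (by norm_num)]
  norm_num

/-- Jensen's inequality for the square of the norm. -/
theorem Rellich_jensen {α : Type} [MeasurableSpace α] (μ : Measure α) [IsProbabilityMeasure μ]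
    {f : α → ℝ} (hf : AEStronglyMeasurable f μ) :
    ENNReal.ofReal (‖∫ a, f a ∂μ‖ ^ 2) ≤ ∫⁻ a, ENNReal.ofReal (‖f a‖ ^ 2) ∂μ := by
  have h1 := ENNReal.lintegral_mul_le_Lp_mul_Lq μ Real.HolderConjugate.two_two
    (f := fun a => ‖f a‖ₑ) (g := fun _ => 1) hf.enorm aemeasurable_const
  simp only [Pi.mul_apply, mul_one, ENNReal.one_rpow, lintegral_const, measure_univ] at h1
  have h2 := (enorm_integral_le_lintegral_enorm (μ := μ) f).trans h1
  have h3 := ENNReal.rpow_le_rpow h2 (show (0 : ℝ) ≤ 2 by norm_num)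
  rw [← ENNReal.rpow_mul] at h3
  simp only [Rellich_enorm_rpow_two] at h3
  simpa using h3

theorem Rellich_meas_sq {α : Type} [TopologicalSpace α] [MeasurableSpace α] [OpensMeasurableSpace α]
    {f : α → ℝ} (hf : Continuous f) : Measurable fun a => ENNReal.ofReal (‖f a‖ ^ 2) :=
  (ENNReal.continuous_ofReal.comp (hf.norm.pow 2)).measurable

theorem Rellich_integrable_sq {f : ℂ → ℝ} (hf : Continuous f) (hc : HasCompactSupport f) :
    Integrable fun y => ‖f y‖ ^ 2 := by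
  have h1 : Continuous fun y => ‖f y‖ ^ 2 := by fun_prop
  refine h1.integrable_of_hasCompactSupport (HasCompactSupport.intro hc fun y hy => ?_)
  simp [image_eq_zero_of_notMem_tsupport hy]

theorem Rellich_lint_eq {f : ℂ → ℝ} (hf : Continuous f) (hc : HasCompactSupport f) :
    ∫⁻ y, ENNReal.ofReal (‖f y‖ ^ 2) = ENNReal.ofReal (∫ y, ‖f y‖ ^ 2) :=
  (ofReal_integral_eq_lintegral_ofReal (Rellich_integrable_sq hf hc)
    (Eventually.of_forall fun y => by positivity)).symm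

theorem Rellich_dir_bound {w : ℂ → ℝ} (hw : ContDiff ℝ 1 w) (hc : HasCompactSupport w) {R : ℝ}
    (hR : ∫ y, ‖grad w y‖ ^ 2 ≤ R) (z : ℂ) :
    ∫⁻ y, ENNReal.ofReal (‖fderiv ℝ w y z‖ ^ 2) ≤ ENNReal.ofReal (R * ‖z‖ ^ 2) := by
  have hd : Continuous (fderiv ℝ w) := hw.continuous_fderiv one_ne_zero
  have hcont : Continuous fun y => fderiv ℝ w y z := hd.clm_apply continuous_const
  have hcs : HasCompactSupport fun y => fderiv ℝ w y z := hc.fderiv_apply ℝ z
  rw [Rellich_lint_eq hcont hcs]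
  refine ENNReal.ofReal_le_ofReal ?_
  calc ∫ y, ‖fderiv ℝ w y z‖ ^ 2
      ≤ ∫ y, ‖grad w y‖ ^ 2 * ‖z‖ ^ 2 := by
        refine integral_mono (Rellich_integrable_sq hcont hcs) ((H10_sq (H10_mem hw hc).2).mul_const _)
          fun y => ?_
        show ‖fderiv ℝ w y z‖ ^ 2 ≤ ‖grad w y‖ ^ 2 * ‖z‖ ^ 2
        rw [← mul_pow, norm_grad]
        exact pow_le_pow_left₀ (norm_nonneg _) ((fderiv ℝ w y).le_opNorm z) 2
    _ = (∫ y, ‖grad w y‖ ^ 2) * ‖z‖ ^ 2 := integral_mul_const _ _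
    _ ≤ R * ‖z‖ ^ 2 := mul_le_mul_of_nonneg_right hR (sq_nonneg _)

/-- The translation estimate. -/
theorem Rellich_transl {w : ℂ → ℝ} (hw : ContDiff ℝ 1 w) (hc : HasCompactSupport w) {R : ℝ}
    (hR : ∫ y, ‖grad w y‖ ^ 2 ≤ R) (z : ℂ) :
    ∫⁻ y, ENNReal.ofReal (‖w (y + z) - w y‖ ^ 2) ≤ ENNReal.ofReal (R * ‖z‖ ^ 2) := by
  have hd : Continuous (fderiv ℝ w) := hw.continuous_fderiv one_ne_zero
  have hdiff : Differentiable ℝ w := hw.differentiable one_ne_zero
  have hG : Continuous fun p : ℂ × ℝ => fderiv ℝ w (p.1 + p.2 • z) z :=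
    (hd.comp (by fun_prop)).clm_apply continuous_const
  have : IsProbabilityMeasure (volume.restrict (Ioc (0 : ℝ) 1)) := ⟨by simp⟩
  have h1 : ∀ y, w (y + z) - w y = ∫ t in Ioc (0 : ℝ) 1, fderiv ℝ w (y + t • z) z := by
    intro y
    have hder : ∀ t : ℝ, HasDerivAt (fun t : ℝ => w (y + t • z)) (fderiv ℝ w (y + t • z) z) t := by
      intro t
      have h2 : HasDerivAt (fun t : ℝ => y + t • z) z t := by
        simpa using ((hasDerivAt_id t).smul_const z).const_add y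
      exact (hdiff _).hasFDerivAt.comp_hasDerivAt t h2
    have hcont : Continuous fun t : ℝ => fderiv ℝ w (y + t • z) z :=
      hG.comp (f := fun t : ℝ => (y, t)) (by fun_prop)
    have := intervalIntegral.integral_eq_sub_of_hasDerivAt (a := 0) (b := 1)
      (fun t _ => hder t) (hcont.intervalIntegrable 0 1)
    rw [intervalIntegral.integral_of_le zero_le_one] at this
    rw [this]
    simp
  calc ∫⁻ y, ENNReal.ofReal (‖w (y + z) - w y‖ ^ 2)
      ≤ ∫⁻ y, ∫⁻ t in Ioc (0 : ℝ) 1, ENNReal.ofReal (‖fderiv ℝ w (y + t • z) z‖ ^ 2) := by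
        refine lintegral_mono fun y => ?_
        rw [h1]
        exact Rellich_jensen _ (hG.comp (f := fun t : ℝ => (y, t)) (by fun_prop)).aestronglyMeasurable
    _ = ∫⁻ t in Ioc (0 : ℝ) 1, ∫⁻ y, ENNReal.ofReal (‖fderiv ℝ w (y + t • z) z‖ ^ 2) :=
        lintegral_lintegral_swap (Rellich_meas_sq hG).aemeasurable
    _ ≤ ∫⁻ _t in Ioc (0 : ℝ) 1, ENNReal.ofReal (R * ‖z‖ ^ 2) := by
        refine lintegral_mono fun t => ?_
        rw [lintegral_add_right_eq_self
          (fun y => ENNReal.ofReal (‖fderiv ℝ w y z‖ ^ 2)) (t • z)]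
        exact Rellich_dir_bound hw hc hR z
    _ = _ := by simp

/-- A probability measure with bounded density carried by a small ball. -/
theorem Rellich_exists_kernel {h : ℝ} (hh : 0 < h) :
    ∃ (ν : Measure ℂ) (c : ℝ), IsProbabilityMeasure ν ∧ 0 ≤ c ∧
      ν ≤ ENNReal.ofReal c • (volume : Measure ℂ) ∧ ∀ᵐ z ∂ν, ‖z‖ ≤ h := by
  have h0 : volume (Metric.closedBall (0 : ℂ) h) ≠ 0 :=
    (Metric.measure_closedBall_pos volume _ hh).ne'
  have h1 : volume (Metric.closedBall (0 : ℂ) h) ≠ ⊤ := measure_closedBall_lt_top.ne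
  refine ⟨ProbabilityTheory.cond volume (Metric.closedBall 0 h),
    ((volume (Metric.closedBall (0 : ℂ) h))⁻¹).toReal,
    ProbabilityTheory.cond_isProbabilityMeasure_of_finite h0 h1, ENNReal.toReal_nonneg, ?_, ?_⟩
  · rw [ENNReal.ofReal_toReal (ENNReal.inv_ne_top.2 h0)]
    unfold ProbabilityTheory.cond
    intro s
    simp only [Measure.smul_apply, smul_eq_mul]
    exact mul_le_mul_right (Measure.restrict_le_self s) _
  · filter_upwards [ProbabilityTheory.ae_cond_mem (μ := volume)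
      (Metric.isClosed_closedBall (x := (0 : ℂ)) (ε := h)).measurableSet] with z hz
    simpa using hz

/-- The average of the translates. -/
noncomputable def Rellich_av (ν : Measure ℂ) (w : ℂ → ℝ) (x : ℂ) : ℝ := ∫ z, w (x + z) ∂ν

theorem Rellich_integrable_transl (ν : Measure ℂ) [IsProbabilityMeasure ν]
    {w : ℂ → ℝ} (hw : Continuous w) (hc : HasCompactSupport w) (x : ℂ) :
    Integrable (fun z => w (x + z)) ν := by
  obtain ⟨C, hC⟩ := hw.bounded_above_of_compact_support hc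
  exact Integrable.of_bound (hw.comp (by fun_prop)).aestronglyMeasurable C
    (Eventually.of_forall fun z => hC _)

theorem Rellich_sq_int_le (ν : Measure ℂ) [IsProbabilityMeasure ν] {c : ℝ} (hc : 0 ≤ c)
    (hν : ν ≤ ENNReal.ofReal c • (volume : Measure ℂ)) {f : ℂ → ℝ}
    (hf : Continuous f) {b : ℝ} (hb : 0 ≤ b)
    (h : ∫⁻ y, ENNReal.ofReal (‖f y‖ ^ 2) ≤ ENNReal.ofReal b) :
    ‖∫ z, f z ∂ν‖ ^ 2 ≤ c * b := by
  have h1 := (Rellich_jensen ν hf.aestronglyMeasurable).trans (lintegral_mono' hν le_rfl)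
  rw [lintegral_smul_measure, smul_eq_mul] at h1
  have h2 := h1.trans (mul_le_mul_right h _)
  rw [← ENNReal.ofReal_mul hc] at h2
  exact (ENNReal.ofReal_le_ofReal_iff (mul_nonneg hc hb)).1 h2

theorem Rellich_av_bound (ν : Measure ℂ) [IsProbabilityMeasure ν] {c : ℝ} (hc : 0 ≤ c)
    (hν : ν ≤ ENNReal.ofReal c • (volume : Measure ℂ)) {w : ℂ → ℝ}
    (hw : Continuous w) (hs : HasCompactSupport w) {R : ℝ} (hR0 : 0 ≤ R)
    (hR : ∫ y, ‖w y‖ ^ 2 ≤ R) (x : ℂ) : ‖Rellich_av ν w x‖ ^ 2 ≤ c * R := by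
  refine Rellich_sq_int_le ν hc hν (f := fun z => w (x + z)) (by fun_prop) hR0 ?_
  rw [lintegral_add_left_eq_self (fun y => ENNReal.ofReal (‖w y‖ ^ 2)) x, Rellich_lint_eq hw hs]
  exact ENNReal.ofReal_le_ofReal hR

theorem Rellich_av_lip (ν : Measure ℂ) [IsProbabilityMeasure ν] {c : ℝ} (hc : 0 ≤ c)
    (hν : ν ≤ ENNReal.ofReal c • (volume : Measure ℂ)) {w : ℂ → ℝ}
    (hw : ContDiff ℝ 1 w) (hs : HasCompactSupport w) {R : ℝ} (hR0 : 0 ≤ R)
    (hR : ∫ y, ‖grad w y‖ ^ 2 ≤ R) (x x' : ℂ) :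
    ‖Rellich_av ν w x - Rellich_av ν w x'‖ ^ 2 ≤ c * (R * ‖x - x'‖ ^ 2) := by
  have hw0 := hw.continuous
  unfold Rellich_av
  rw [← integral_sub (Rellich_integrable_transl ν hw0 hs x) (Rellich_integrable_transl ν hw0 hs x')]
  refine Rellich_sq_int_le ν hc hν (by fun_prop) (by positivity) ?_
  have h1 : ∀ z, w (x + z) - w (x' + z) = w (x' + z + (x - x')) - w (x' + z) := by
    intro z
    congr 2
    abel
  simp only [h1]
  rw [lintegral_add_left_eq_self (fun y => ENNReal.ofReal (‖w (y + (x - x')) - w y‖ ^ 2)) x']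
  exact Rellich_transl hw hs hR _

/-- Pointwise bound for the difference of `w` and its average. -/
theorem Rellich_sub_av (ν : Measure ℂ) [IsProbabilityMeasure ν] {w : ℂ → ℝ}
    (hw : Continuous w) (hs : HasCompactSupport w) (x : ℂ) :
    ENNReal.ofReal (‖Rellich_av ν w x - w x‖ ^ 2) ≤ ∫⁻ z, ENNReal.ofReal (‖w (x + z) - w x‖ ^ 2) ∂ν := by
  have h1 : Rellich_av ν w x - w x = ∫ z, (w (x + z) - w x) ∂ν := by
    unfold Rellich_av
    rw [integral_sub (Rellich_integrable_transl ν hw hs x) (integrable_const _)]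
    simp
  rw [h1]
  exact Rellich_jensen ν (by fun_prop : Continuous fun z => w (x + z) - w x).aestronglyMeasurable

theorem Rellich_int_sub_av (ν : Measure ℂ) [IsProbabilityMeasure ν] {h : ℝ}
    (hν : ∀ᵐ z ∂ν, ‖z‖ ≤ h) {w : ℂ → ℝ}
    (hw : ContDiff ℝ 1 w) (hs : HasCompactSupport w) {R : ℝ} (hR0 : 0 ≤ R)
    (hR : ∫ y, ‖grad w y‖ ^ 2 ≤ R) :
    ∫⁻ x, ∫⁻ z, ENNReal.ofReal (‖w (x + z) - w x‖ ^ 2) ∂ν ≤
      ENNReal.ofReal (R * h ^ 2) := by
  have hw0 := hw.continuous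
  have hG : Continuous fun p : ℂ × ℂ => w (p.1 + p.2) - w p.1 := by fun_prop
  rw [lintegral_lintegral_swap (Rellich_meas_sq hG).aemeasurable]
  calc _ ≤ ∫⁻ _z, ENNReal.ofReal (R * h ^ 2) ∂ν := by
        refine lintegral_mono_ae ?_
        filter_upwards [hν] with z hz
        refine (Rellich_transl hw hs hR z).trans (ENNReal.ofReal_le_ofReal ?_)
        gcongr
    _ = _ := by simp

theorem Rellich_exists_small {C δ : ℝ} (hC : 0 ≤ C) (hδ : 0 < δ) : ∃ h > 0, C * h ^ 2 ≤ δ := by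
  refine ⟨min 1 (δ / (C + 1)), by positivity, ?_⟩
  set h := min 1 (δ / (C + 1)) with hh
  have h0 : 0 < h := by positivity
  have h1 : h ≤ 1 := min_le_left _ _
  have h2 : h * (C + 1) ≤ δ := (le_div_iff₀ (by positivity)).1 (min_le_right _ _)
  nlinarith [mul_nonneg hC h0.le]

theorem Rellich_three_sq (a b : ℝ) {u : ℝ} {e : ℝ} (h : ‖u‖ ≤ ‖a‖ + ‖b‖ + e) :
    ‖u‖ ^ 2 ≤ 3 * ‖a‖ ^ 2 + 3 * ‖b‖ ^ 2 + 3 * e ^ 2 := by
  have h1 : ‖u‖ ^ 2 ≤ (‖a‖ + ‖b‖ + e) ^ 2 := by gcongr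
  nlinarith [sq_nonneg (‖a‖ - ‖b‖), sq_nonneg (‖a‖ - e), sq_nonneg (‖b‖ - e)]

theorem Rellich_net {K : Set ℂ} (hK : IsCompact K) (R : ℝ) {δ : ℝ} (hδ : 0 < δ)
    (S : Set (ℂ → ℝ))
    (hS : ∀ w ∈ S, ContDiff ℝ 1 w ∧ (∀ y ∉ K, w y = 0) ∧ ∫ y, ‖w y‖ ^ 2 ≤ R ∧
      ∫ y, ‖grad w y‖ ^ 2 ≤ R) :
    ∃ t ⊆ S, t.Finite ∧ ∀ w ∈ S, ∃ w' ∈ t, ∫ y, ‖w y - w' y‖ ^ 2 ≤ δ := by
  classical
  rcases S.eq_empty_or_nonempty with rfl | ⟨w₀, hw₀⟩
  · exact ⟨∅, subset_rfl, finite_empty, by simp⟩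
  have hR0 : 0 ≤ R := (integral_nonneg fun y => by positivity).trans (hS w₀ hw₀).2.2.1
  have hcs : ∀ w ∈ S, HasCompactSupport w := fun w hw => HasCompactSupport.intro hK (hS w hw).2.1
  obtain ⟨h, hh, hh'⟩ := Rellich_exists_small (C := 6 * R) (δ := δ / 2) (by positivity)
    (by positivity)
  obtain ⟨ν, c, hν, hc, hνc, hνh⟩ := Rellich_exists_kernel hh
  obtain ⟨ε, hε, hε'⟩ := Rellich_exists_small (C := 27 * (volume K).toReal) (δ := δ / 2) (by positivity)
    (by positivity)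
  obtain ⟨η, hη, hη'⟩ := Rellich_exists_small (C := c * R) (δ := ε ^ 2) (by positivity)
    (by positivity)
  obtain ⟨N, -, hNf, hN⟩ := Metric.finite_approx_of_totallyBounded hK.totallyBounded η hη
  have : Fintype N := hNf.fintype
  let Φ : (ℂ → ℝ) → (N → ℝ) := fun w i => Rellich_av ν w i
  have hΦ : TotallyBounded (Φ '' S) := by
    refine (isCompact_closedBall (0 : N → ℝ) √(c * R)).totallyBounded.subset ?_
    rintro _ ⟨w, hw, rfl⟩
    rw [mem_closedBall_zero_iff, pi_norm_le_iff_of_nonneg (Real.sqrt_nonneg _)]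
    intro i
    exact Real.le_sqrt_of_sq_le
      (Rellich_av_bound ν hc hνc (hS w hw).1.continuous (hcs w hw) hR0 (hS w hw).2.2.1 i)
  obtain ⟨t, htS, htf, ht⟩ := exists_subset_image_finite_and.1
    (Metric.finite_approx_of_totallyBounded hΦ ε hε)
  refine ⟨t, htS, htf, fun w hw => ?_⟩
  have hmem := ht (mem_image_of_mem Φ hw)
  simp only [mem_iUnion, exists_prop] at hmem
  obtain ⟨_, ⟨w', hw't, rfl⟩, hd⟩ := hmem
  refine ⟨w', hw't, ?_⟩
  have hw' := htS hw't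
  have hlip : ∀ v ∈ S, ∀ x x' : ℂ, ‖x - x'‖ ≤ η → ‖Rellich_av ν v x - Rellich_av ν v x'‖ ≤ ε := by
    intro v hv x x' hx
    refine abs_le_of_sq_le_sq' (le_trans ?_ hη') hε.le |>.2
    refine (Rellich_av_lip ν hc hνc (hS v hv).1 (hcs v hv) hR0 (hS v hv).2.2.2 x x').trans ?_
    rw [mul_assoc c]
    gcongr
  have hclose : ∀ x ∈ K, ‖Rellich_av ν w x - Rellich_av ν w' x‖ ≤ 3 * ε := by
    intro x hx
    have hx' := hN hx
    simp only [mem_iUnion, exists_prop] at hx'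
    obtain ⟨y, hyN, hy⟩ := hx'
    have hxy : ‖x - y‖ ≤ η := by
      rw [← dist_eq_norm]
      exact (Metric.mem_ball.1 hy).le
    have h1 := hlip w hw x y hxy
    have h2 := hlip w' hw' x y hxy
    have h3 : ‖Rellich_av ν w y - Rellich_av ν w' y‖ ≤ ε := by
      have := (dist_le_pi_dist (Φ w) (Φ w') ⟨y, hyN⟩).trans (Metric.mem_ball.1 hd).le
      rwa [dist_eq_norm] at this
    calc ‖Rellich_av ν w x - Rellich_av ν w' x‖
        = ‖(Rellich_av ν w x - Rellich_av ν w y) - (Rellich_av ν w' x - Rellich_av ν w' y) + (Rellich_av ν w y - Rellich_av ν w' y)‖ := by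
          congr 1; abel
      _ ≤ ‖Rellich_av ν w x - Rellich_av ν w y‖ + ‖Rellich_av ν w' x - Rellich_av ν w' y‖ + ‖Rellich_av ν w y - Rellich_av ν w' y‖ :=
          (norm_add_le _ _).trans (by gcongr; exact norm_sub_le _ _)
      _ ≤ 3 * ε := by linarith
  have hw0 := (hS w hw).1.continuous
  have hw0' := (hS w' hw').1.continuous
  set G : (ℂ → ℝ) → ℂ → ENNReal :=
    fun v x => ∫⁻ z, ENNReal.ofReal (‖v (x + z) - v x‖ ^ 2) ∂ν with hG
  have hGm : ∀ v, Continuous v → Measurable (G v) := by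
    intro v hv
    have h1 : Continuous fun p : ℂ × ℂ => v (p.1 + p.2) - v p.1 := by fun_prop
    exact (Rellich_meas_sq h1).lintegral_prod_right'
  have hpt : ∀ x, ENNReal.ofReal (‖w x - w' x‖ ^ 2) ≤
      3 * G w x + 3 * G w' x + K.indicator (fun _ => ENNReal.ofReal (27 * ε ^ 2)) x := by
    intro x
    by_cases hx : x ∈ K
    · rw [indicator_of_mem hx]
      have h1 : ‖w x - w' x‖ ≤ ‖Rellich_av ν w x - w x‖ + ‖Rellich_av ν w' x - w' x‖ + 3 * ε := by
        calc ‖w x - w' x‖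
            = ‖(Rellich_av ν w' x - w' x) - (Rellich_av ν w x - w x) + (Rellich_av ν w x - Rellich_av ν w' x)‖ := by
              congr 1; abel
          _ ≤ ‖Rellich_av ν w' x - w' x‖ + ‖Rellich_av ν w x - w x‖ + ‖Rellich_av ν w x - Rellich_av ν w' x‖ :=
              (norm_add_le _ _).trans (by gcongr; exact norm_sub_le _ _)
          _ ≤ _ := by linarith [hclose x hx]
      refine (ENNReal.ofReal_le_ofReal (Rellich_three_sq _ _ h1)).trans ?_
      rw [ENNReal.ofReal_add (by positivity) (by positivity),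
        ENNReal.ofReal_add (by positivity) (by positivity), ENNReal.ofReal_mul (by norm_num),
        ENNReal.ofReal_mul (by norm_num : (0 : ℝ) ≤ 3) (q := ‖Rellich_av ν w' x - w' x‖ ^ 2),
        show (3 : ℝ) * (3 * ε) ^ 2 = 27 * ε ^ 2 by ring, ENNReal.ofReal_ofNat]
      gcongr
      · exact Rellich_sub_av ν hw0 (hcs w hw) x
      · exact Rellich_sub_av ν hw0' (hcs w' hw') x
    · simp [(hS w hw).2.1 x hx, (hS w' hw').2.1 x hx]
  have hKfin : volume K ≠ ⊤ := hK.measure_lt_top.ne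
  have hmain : ∫⁻ x, ENNReal.ofReal (‖w x - w' x‖ ^ 2) ≤ ENNReal.ofReal δ := by
    refine (lintegral_mono hpt).trans ?_
    have hm : Measurable fun x => 3 * G w x + 3 * G w' x :=
      ((hGm w hw0).const_mul 3).add ((hGm w' hw0').const_mul 3)
    rw [lintegral_add_left hm,
      lintegral_add_left ((hGm w hw0).const_mul 3), lintegral_const_mul _ (hGm w hw0),
      lintegral_const_mul _ (hGm w' hw0'), lintegral_indicator_const hK.measurableSet]
    have e1 := Rellich_int_sub_av ν hνh (hS w hw).1 (hcs w hw) hR0 (hS w hw).2.2.2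
    have e2 := Rellich_int_sub_av ν hνh (hS w' hw').1 (hcs w' hw') hR0 (hS w' hw').2.2.2
    calc _ ≤ 3 * ENNReal.ofReal (R * h ^ 2) + 3 * ENNReal.ofReal (R * h ^ 2) +
          ENNReal.ofReal (27 * ε ^ 2) * ENNReal.ofReal (volume K).toReal := by
          rw [ENNReal.ofReal_toReal hKfin]
          gcongr
      _ = ENNReal.ofReal (3 * (R * h ^ 2) + 3 * (R * h ^ 2) +
          27 * ε ^ 2 * (volume K).toReal) := by
          rw [ENNReal.ofReal_add (by positivity) (by positivity),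
            ENNReal.ofReal_add (by positivity) (by positivity),
            ENNReal.ofReal_mul (by norm_num : (0 : ℝ) ≤ 3), ENNReal.ofReal_ofNat,
            ENNReal.ofReal_mul (by positivity : (0 : ℝ) ≤ 27 * ε ^ 2)]
      _ ≤ ENNReal.ofReal δ := ENNReal.ofReal_le_ofReal (by linarith)
  rw [Rellich_lint_eq (f := fun x => w x - w' x) (hw0.sub hw0') (HasCompactSupport.intro hK fun x hx => by
    simp [(hS w hw).2.1 x hx, (hS w' hw').2.1 x hx])] at hmain
  exact (ENNReal.ofReal_le_ofReal_iff hδ.le).1 hmain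

end Pool.Agent.L2K
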