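import Pool.Agent.P.MP_2f6447_an.K.Blow
import Pool.Agent.P.MP_2f6447_an.K.BUvar
import Pool.Agent.P.MP_2f6447_an.K.ExtG

/-! At extreme points every blow-up limit has slope one. -/

open Set MeasureTheory Filter Topology Complex Metric
open scoped ContDiff ComplexConjugate

namespace Pool.Agent.L2K

variable {Ω U : Set ℂ} {lam : ℝ} {u w f g : ℂ → ℝ}

theorem Slope1_norm_nu (h : Dom Ω) {p : ℂ} (hp : p ∈ frontier Ω) : ‖nu Ω p‖ = 1 :=
  (h.isN_nu hp).1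

theorem Slope1_norm_coef (h : Dom Ω) {p : ℂ} (hp : p ∈ frontier Ω) {r : ℝ} (hr : 0 < r) :
    ‖-I * nu Ω p * (r : ℂ)‖ = r := by
  rw [norm_mul, norm_mul, norm_neg, norm_I, Slope1_norm_nu h hp, Complex.norm_real,
    Real.norm_eq_abs, abs_of_pos hr]
  ring

theorem Slope1_coef_ne (h : Dom Ω) {p : ℂ} (hp : p ∈ frontier Ω) {r : ℝ} (hr : 0 < r) :
    -I * nu Ω p * (r : ℂ) ≠ 0 := by
  intro h0
  have := Slope1_norm_coef h hp hr
  rw [h0, norm_zero] at this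
  exact hr.ne this

theorem Slope1_ext_zero (h : Dom Ω) {p : ℂ} (hp : Ext Ω p) {r : ℝ} (hr : 0 < r) :
    Ext (blS Ω p r ⁻¹' Ω) 0 := by
  unfold blS
  rw [ext_sim p (Slope1_coef_ne h hp.1 hr)]
  simpa [sim] using hp

theorem Slope1_blS_down (Ω : Set ℂ) (p : ℂ) (r s : ℝ) :
    blS Ω p r (-((s : ℂ) * I)) = p - ((r * s : ℝ) : ℂ) * nu Ω p := by
  unfold blS sim
  push_cast
  linear_combination (nu Ω p * r * s) * I_mul_I

theorem Slope1_compact (h : Dom Ω) : IsCompact {p | Ext Ω p} := by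
  refine (h.bdd.isCompact_closure).of_isClosed_subset h.isClosed_ext ?_
  intro p hp
  exact frontier_subset_closure hp.1

theorem Slope1_pick (h : Mn Ω lam u) {δ : ℝ}
    (H : ∀ ρ, 0 < ρ → ∃ e, Ext Ω e ∧ ∃ t : ℝ, 0 ≤ t ∧ t ≤ ρ ∧
      (1 + δ) * t < |u (e - t * nu Ω e)|) (m : ℕ) :
    ∃ (e q : ℂ) (t : ℝ), Ext Ω e ∧ Ext Ω q ∧ 0 ≤ t ∧ 0 < ‖q - e‖ ∧
      ‖q - e‖ ≤ 2 * (1 / ((m : ℝ) + 1)) ∧ t ≤ ‖q - e‖ / 2 ∧
      (1 + δ) * t < |u (e - t * nu Ω e)| := by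
  have hD : Dom Ω := h.toIsMin.toDom
  choose e he t ht0 ht1 hlt using fun k : ℕ => H (1 / ((k : ℝ) + 1)) Nat.one_div_pos_of_nat
  obtain ⟨p, hp, φ, hφ, hlim⟩ := (Slope1_compact hD).tendsto_subseq (x := e) he
  obtain ⟨q, hq, hqp, hq1⟩ := hD.ext_accum h.noCorner hp
    (ρ := 1 / ((m : ℝ) + 1)) Nat.one_div_pos_of_nat
  have hd : 0 < ‖q - p‖ := norm_pos_iff.mpr (sub_ne_zero.mpr hqp)
  have hd4 : 0 < ‖q - p‖ / 4 := by positivity
  have h1 : ∀ᶠ k in atTop, dist ((e ∘ φ) k) p < ‖q - p‖ / 4 :=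
    (Metric.tendsto_nhds.mp hlim) _ hd4
  have h2 : ∀ᶠ k : ℕ in atTop, 1 / ((φ k : ℝ) + 1) < ‖q - p‖ / 4 :=
    ((tendsto_one_div_add_atTop_nhds_zero_nat (𝕜 := ℝ)).comp hφ.tendsto_atTop).eventually
      (gt_mem_nhds hd4)
  obtain ⟨k, hk1, hk2⟩ := (h1.and h2).exists
  rw [Function.comp_apply, dist_eq_norm] at hk1
  have hA : ‖q - p‖ ≤ ‖q - e (φ k)‖ + ‖e (φ k) - p‖ := by
    have := norm_add_le (q - e (φ k)) (e (φ k) - p)
    rwa [sub_add_sub_cancel] at this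
  have hB : ‖q - e (φ k)‖ ≤ ‖q - p‖ + ‖e (φ k) - p‖ := by
    have := norm_sub_le (q - p) (e (φ k) - p)
    rwa [sub_sub_sub_cancel_right] at this
  have ht := ht1 (φ k)
  refine ⟨e (φ k), q, t (φ k), he _, hq, ht0 _, by linarith, by linarith, by linarith, hlt _⟩

theorem Mn.upper (h : Mn Ω lam u) {δ : ℝ} (hδ : 0 < δ) : ∃ ρ, 0 < ρ ∧ ∀ e, Ext Ω e →
    ∀ t : ℝ, 0 ≤ t → t ≤ ρ → |u (e - t * nu Ω e)| ≤ (1 + δ) * t := by
  have hD : Dom Ω := h.toIsMin.toDom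
  by_contra hcon
  have H : ∀ ρ, 0 < ρ → ∃ e, Ext Ω e ∧ ∃ t : ℝ, 0 ≤ t ∧ t ≤ ρ ∧
      (1 + δ) * t < |u (e - t * nu Ω e)| := by
    intro ρ hρ
    by_contra hn
    refine hcon ⟨ρ, hρ, fun e he t h0 h1 => ?_⟩
    by_contra hlt
    exact hn ⟨e, he, t, h0, h1, lt_of_not_ge hlt⟩
  choose e q t he hq ht0 hR hR1 htR hlt using Slope1_pick h H
  have hR0 : Tendsto (fun m => ‖q m - e m‖) atTop (𝓝 0) := by
    have h2 : Tendsto (fun m : ℕ => 2 * (1 / ((m : ℝ) + 1))) atTop (𝓝 0) := by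
      simpa using (tendsto_one_div_add_atTop_nhds_zero_nat (𝕜 := ℝ)).const_mul 2
    exact squeeze_zero (fun m => norm_nonneg _) hR1 h2
  obtain ⟨φ, a, -, hb⟩ := h.blowup (p := e) (r := fun m => ‖q m - e m‖) (fun k => (he k).1) hR hR0
  have ha : a ^ 2 ≤ 1 := by
    refine hb.le_one (fun k => Slope1_ext_zero hD (he _) (hR _))
      (q := fun k => (q (φ k) - e (φ k)) /
        (-I * nu Ω (e (φ k)) * ((‖q (φ k) - e (φ k)‖ : ℝ) : ℂ))) (fun k => ?_) (fun k => ?_)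
    · have hne := Slope1_coef_ne hD (he (φ k)).1 (hR (φ k))
      unfold blS
      rw [ext_sim _ hne]
      unfold sim
      rw [mul_div_cancel₀ _ hne, add_sub_cancel]
      exact hq _
    · rw [norm_div, Slope1_norm_coef hD (he (φ k)).1 (hR (φ k))]
      exact div_self (hR _).ne'
  have ha' : |a| ≤ 1 := by
    rw [← sq_le_one_iff_abs_le_one]; exact ha
  set ε : ℝ := min 1 (δ / 6) with hεdef
  have hε : 0 < ε := lt_min one_pos (by positivity)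
  have hε1 : ε ≤ 1 := min_le_left _ _
  have hε2 : ε ≤ δ / 6 := min_le_right _ _
  obtain ⟨K, hK⟩ := hb.lip
  have e1 := lip_tendsto_unif hK hb.conv 1 hε
  have e2 := hb.lam0.eventually (gt_mem_nhds hε)
  obtain ⟨k, hk1, hk2⟩ := (e1.and e2).exists
  have hRk := hR (φ k)
  have hmn := hb.mn k
  have hs0 : 0 ≤ t (φ k) / ‖q (φ k) - e (φ k)‖ := div_nonneg (ht0 _) hRk.le
  have hs1 : t (φ k) / ‖q (φ k) - e (φ k)‖ ≤ 1 / 2 := by
    rw [div_le_iff₀ hRk]; linarith [htR (φ k)]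
  have key := half_disc hmn.helm hmn.lip.continuous (hb.below k) hmn.lip.zero hε hε1
    hmn.lam_pos.le hk2.le (fun z hz => by
      have h1 := hk1 z hz
      have h2 : |a * min z.im 0| ≤ |z.im| := by
        rw [abs_mul]
        have h3 : |min z.im 0| ≤ |z.im| := by
          rcases le_total z.im 0 with h4 | h4
          · rw [min_eq_left h4]
          · rw [min_eq_right h4, abs_zero]; exact abs_nonneg _
        calc |a| * |min z.im 0| ≤ 1 * |z.im| :=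
              mul_le_mul ha' h3 (abs_nonneg _) zero_le_one
          _ = |z.im| := one_mul _
      have h5 := abs_sub_abs_le_abs_sub
        ((‖q (φ k) - e (φ k)‖)⁻¹ * u (blS Ω (e (φ k)) ‖q (φ k) - e (φ k)‖ z)) (a * min z.im 0)
      linarith) hs0 hs1
  simp only [Slope1_blS_down] at key
  rw [mul_div_cancel₀ _ hRk.ne', abs_mul, abs_of_pos (inv_pos.mpr hRk), ← mul_div_assoc,
    inv_mul_eq_div, div_le_div_iff_of_pos_right hRk] at key
  have h6 : (1 + 6 * ε) * t (φ k) ≤ (1 + δ) * t (φ k) :=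
    mul_le_mul_of_nonneg_right (by linarith) (ht0 _)
  linarith [hlt (φ k)]

theorem Mn.slope_one (h : Mn Ω lam u) {p : ℕ → ℂ} {r : ℕ → ℝ} (hp : ∀ k, Ext Ω (p k))
    (hr : ∀ k, 0 < r k) (hr0 : Tendsto r atTop (𝓝 0)) {a : ℝ}
    (hb : BU (fun k => blS Ω (p k) (r k) ⁻¹' Ω) (fun k => lam * r k ^ 2)
      (fun k z => (r k)⁻¹ * u (blS Ω (p k) (r k) z)) a) : a ^ 2 = 1 := by
  have hD : Dom Ω := h.toIsMin.toDom
  refine le_antisymm ?_ (hb.one_le fun k => Slope1_ext_zero hD (hp k) (hr k))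
  rw [sq_le_one_iff_abs_le_one]
  refine le_of_forall_pos_le_add fun δ hδ => ?_
  obtain ⟨ρ, hρ, hup⟩ := h.upper hδ
  have h1 := (hb.conv (-(((1 : ℝ) : ℂ) * I))).abs
  have h2 : |a * min (-(((1 : ℝ) : ℂ) * I)).im 0| = |a| := by simp
  rw [h2] at h1
  refine le_of_tendsto h1 ?_
  filter_upwards [hr0.eventually (gt_mem_nhds hρ)] with k hk
  rw [Slope1_blS_down, mul_one, abs_mul, abs_of_pos (inv_pos.mpr (hr k)), inv_mul_eq_div,
    div_le_iff₀ (hr k)]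
  exact hup _ (hp k) _ (hr k).le hk.le

end Pool.Agent.L2K
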