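import Pool.Agent.P.MP_2f6447_an.K.LipH

/-! Transport by `Φ = id + ε X`, `X` Lipschitz with constant `K`, `|ε| K ≤ 1 / 2`. -/

open Set MeasureTheory Filter Topology Complex Metric
open scoped ContDiff ComplexConjugate

namespace Pool.Agent.L2K

variable {Ω U : Set ℂ} {lam : ℝ} {u w f g : ℂ → ℝ}

/-- Jacobian determinant of `id + ε X` -/
noncomputable def jac (X : ℂ → ℂ) (ε : ℝ) (z : ℂ) : ℝ :=
  1 + ε * dv X z + ε ^ 2 * ((fderiv ℝ X z 1).re * (fderiv ℝ X z I).im -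
    (fderiv ℝ X z I).re * (fderiv ℝ X z 1).im)

theorem Trans_small {X : ℂ → ℂ} {K : NNReal} (hX : LipschitzWith K X) {ε : ℝ}
    (hε : |ε| * K ≤ 1 / 2) (a b : ℂ) : ‖(ε : ℂ) * X a - ε * X b‖ ≤ 1 / 2 * ‖a - b‖ := by
  have h := hX.dist_le_mul a b
  rw [dist_eq_norm, dist_eq_norm] at h
  rw [← mul_sub, norm_mul, Complex.norm_real, Real.norm_eq_abs]
  calc |ε| * ‖X a - X b‖ ≤ |ε| * (K * ‖a - b‖) := mul_le_mul_of_nonneg_left h (abs_nonneg _)
    _ = (|ε| * K) * ‖a - b‖ := by ring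
    _ ≤ 1 / 2 * ‖a - b‖ := mul_le_mul_of_nonneg_right hε (norm_nonneg _)

theorem Trans_anti {X : ℂ → ℂ} {K : NNReal} (hX : LipschitzWith K X) {ε : ℝ}
    (hε : |ε| * K ≤ 1 / 2) (a b : ℂ) :
    ‖a - b‖ ≤ 2 * ‖(a + ε * X a) - (b + ε * X b)‖ := by
  have h := Trans_small hX hε a b
  have e : a - b = ((a + ε * X a) - (b + ε * X b)) - (ε * X a - ε * X b) := by ring
  have h2 : ‖a - b‖ ≤ ‖(a + ε * X a) - (b + ε * X b)‖ + ‖(ε : ℂ) * X a - ε * X b‖ := by
    conv_lhs => rw [e]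
    exact norm_sub_le _ _
  linarith

theorem Trans_lip {X : ℂ → ℂ} {K : NNReal} (hX : LipschitzWith K X) {ε : ℝ}
    (hε : |ε| * K ≤ 1 / 2) : LipschitzWith 2 fun z => z + ε * X z := by
  refine LipschitzWith.of_dist_le_mul fun a b => ?_
  rw [dist_eq_norm, dist_eq_norm]
  have h := Trans_small hX hε a b
  have e : (a + ε * X a) - (b + ε * X b) = (a - b) + (ε * X a - ε * X b) := by ring
  have h2 : ‖(a + ε * X a) - (b + ε * X b)‖ ≤ ‖a - b‖ + ‖(ε : ℂ) * X a - ε * X b‖ := by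
    rw [e]
    exact norm_add_le _ _
  have h3 := norm_nonneg (a - b)
  have h4 : ((2 : NNReal) : ℝ) = 2 := by norm_num
  rw [h4]
  linarith

theorem Trans_null {Φ : ℂ → ℂ} {K : NNReal} (h : LipschitzWith K Φ) {N : Set ℂ}
    (hN : volume N = 0) : volume (Φ '' N) = 0 := by
  have a1 : (volume : Measure ℂ) ≪ μH[Module.finrank ℝ ℂ] :=
    Measure.absolutelyContinuous_isAddHaarMeasure _ _
  have a2 : (μH[Module.finrank ℝ ℂ] : Measure ℂ) ≪ volume :=
    Measure.absolutelyContinuous_isAddHaarMeasure _ _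
  apply a1
  have h1 := h.hausdorffMeasure_image_le (d := (Module.finrank ℝ ℂ : ℝ)) (Nat.cast_nonneg _) N
  rw [a2 hN, mul_zero] at h1
  exact nonpos_iff_eq_zero.1 h1

theorem Trans_hasFDerivAt {X : ℂ → ℂ} (ε : ℝ) {z : ℂ} (h : DifferentiableAt ℝ X z) :
    HasFDerivAt (fun z => z + ε * X z)
      (ContinuousLinearMap.id ℝ ℂ + ε • fderiv ℝ X z) z := by
  have h1 := (hasFDerivAt_id (𝕜 := ℝ) z).add (h.hasFDerivAt.const_smul ε)
  have e : (fun z => z + ε * X z) = (id + ε • X) := by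
    funext x
    simp [Complex.real_smul]
  rw [e]
  exact h1

theorem Trans_det (A : ℂ →L[ℝ] ℂ) :
    A.det = (A 1).re * (A I).im - (A I).re * (A 1).im := by
  rw [ContinuousLinearMap.det, ← LinearMap.det_toMatrix Complex.basisOneI, Matrix.det_fin_two]
  simp [LinearMap.toMatrix_apply]

theorem Trans_det_eq (X : ℂ → ℂ) (ε : ℝ) (z : ℂ) :
    (ContinuousLinearMap.id ℝ ℂ + ε • fderiv ℝ X z).det = jac X ε z := by
  rw [Trans_det, jac, dv]
  simp
  ring

theorem Trans_jac_nonneg {X : ℂ → ℂ} {K : NNReal} (hX : LipschitzWith K X) {ε : ℝ}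
    (hε : |ε| * K ≤ 1 / 2) (z : ℂ) : 0 ≤ jac X ε z := by
  have hA : ‖fderiv ℝ X z‖ ≤ K := norm_fderiv_le_of_lipschitz ℝ hX
  have hv : ∀ v : ℂ, ‖v‖ = 1 → |ε| * ‖fderiv ℝ X z v‖ ≤ 1 / 2 := by
    intro v hv
    have h1 := (fderiv ℝ X z).le_opNorm v
    rw [hv, mul_one] at h1
    exact (mul_le_mul_of_nonneg_left (h1.trans hA) (abs_nonneg _)).trans hε
  have hre : ∀ v : ℂ, ‖v‖ = 1 → |ε * (fderiv ℝ X z v).re| ≤ 1 / 2 := by
    intro v h
    rw [abs_mul]
    exact (mul_le_mul_of_nonneg_left (Complex.abs_re_le_norm _) (abs_nonneg _)).trans (hv v h)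
  have him : ∀ v : ℂ, ‖v‖ = 1 → |ε * (fderiv ℝ X z v).im| ≤ 1 / 2 := by
    intro v h
    rw [abs_mul]
    exact (mul_le_mul_of_nonneg_left (Complex.abs_im_le_norm _) (abs_nonneg _)).trans (hv v h)
  have h1 := abs_le.1 (hre 1 norm_one)
  have h2 := abs_le.1 (him 1 norm_one)
  have h3 := abs_le.1 (hre I Complex.norm_I)
  have h4 := abs_le.1 (him I Complex.norm_I)
  have e : jac X ε z = (1 + ε * (fderiv ℝ X z 1).re) * (1 + ε * (fderiv ℝ X z I).im) -
      (ε * (fderiv ℝ X z I).re) * (ε * (fderiv ℝ X z 1).im) := by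
    rw [jac, dv]
    ring
  rw [e]
  generalize ε * (fderiv ℝ X z 1).re = a at *
  generalize ε * (fderiv ℝ X z I).im = d at *
  generalize ε * (fderiv ℝ X z I).re = b at *
  generalize ε * (fderiv ℝ X z 1).im = c at *
  have p1 : 0 ≤ (a + 1 / 2) * (d + 1 / 2) := mul_nonneg (by linarith [h1.1]) (by linarith [h4.1])
  have p2 : 0 ≤ (1 / 2 - b) * (1 / 2 + c) := mul_nonneg (by linarith [h3.2]) (by linarith [h2.1])
  have p3 : 0 ≤ (1 / 2 + b) * (1 / 2 - c) := mul_nonneg (by linarith [h3.1]) (by linarith [h2.2])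
  nlinarith [h1.1, h4.1]

theorem exists_inverse {X : ℂ → ℂ} {K : NNReal} (hX : LipschitzWith K X) {ε : ℝ}
    (hε : |ε| * K ≤ 1 / 2) : ∃ Ψ : ℂ → ℂ, LipschitzWith 2 Ψ ∧ (∀ z, Ψ (z + ε * X z) = z) ∧
      ∀ z, Ψ z + ε * X (Ψ z) = z := by
  have hsurj : ∀ w : ℂ, ∃ z, z + ε * X z = w := by
    intro w
    have hc : ContractingWith (1 / 2) fun z => w - ε * X z := by
      refine ⟨by norm_num, LipschitzWith.of_dist_le_mul fun a b => ?_⟩
      rw [dist_eq_norm, dist_eq_norm]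
      have e : (w - ε * X a) - (w - ε * X b) = -(ε * X a - ε * X b) := by ring
      have h4 : ((1 / 2 : NNReal) : ℝ) = 1 / 2 := by norm_num
      rw [e, norm_neg, h4]
      exact Trans_small hX hε a b
    refine ⟨ContractingWith.fixedPoint _ hc, ?_⟩
    have h := hc.fixedPoint_isFixedPt
    exact (eq_sub_iff_add_eq.1 h.eq.symm)
  choose Ψ hΨ using hsurj
  refine ⟨Ψ, LipschitzWith.of_dist_le_mul fun a b => ?_, fun z => ?_, hΨ⟩
  · rw [dist_eq_norm, dist_eq_norm]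
    have h := Trans_anti hX hε (Ψ a) (Ψ b)
    rw [hΨ, hΨ] at h
    have h4 : ((2 : NNReal) : ℝ) = 2 := by norm_num
    rw [h4]
    exact h
  · have h := Trans_anti hX hε (Ψ (z + ε * X z)) z
    rw [hΨ, sub_self, norm_zero, mul_zero] at h
    exact sub_eq_zero.1 (norm_le_zero_iff.1 h)

theorem integral_transport {X : ℂ → ℂ} {K : NNReal} (hX : LipschitzWith K X) {ε : ℝ}
    (hε : |ε| * K ≤ 1 / 2) {S : Set ℂ} (hS : MeasurableSet S) (F : ℂ → ℝ) :
    ∫ z in (fun z => z + ε * X z) '' S, F z = ∫ z in S, jac X ε z * F (z + ε * X z) := by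
  have hD : ∀ᵐ z, DifferentiableAt ℝ X z := hX.ae_differentiableAt
  have hDm : MeasurableSet {z | DifferentiableAt ℝ X z} := measurableSet_of_differentiableAt ℝ X
  have hN : volume (S \ {z | DifferentiableAt ℝ X z}) = 0 :=
    measure_mono_null (fun z hz => hz.2) (ae_iff.1 hD)
  have hinj : Function.Injective fun z => z + ε * X z := by
    intro a b hab
    have h := Trans_anti hX hε a b
    have e : a + ε * X a = b + ε * X b := hab
    rw [e, sub_self, norm_zero, mul_zero] at h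
    exact sub_eq_zero.1 (norm_le_zero_iff.1 h)
  have e1 : (S ∩ {z | DifferentiableAt ℝ X z} : Set ℂ) =ᵐ[volume] S := by
    refine ae_eq_set.2 ⟨?_, ?_⟩
    · rw [sdiff_eq_empty.2 inter_subset_left, measure_empty]
    · refine measure_mono_null ?_ hN
      rintro z ⟨hz, hy⟩
      exact ⟨hz, fun h => hy ⟨hz, h⟩⟩
  have e2 : ((fun z => z + ε * X z) '' (S ∩ {z | DifferentiableAt ℝ X z}) : Set ℂ) =ᵐ[volume]
      ((fun z => z + ε * X z) '' S : Set ℂ) := by
    refine ae_eq_set.2 ⟨?_, ?_⟩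
    · rw [sdiff_eq_empty.2 (image_mono inter_subset_left), measure_empty]
    · refine measure_mono_null ?_ (Trans_null (Trans_lip hX hε) hN)
      rintro y ⟨⟨z, hz, rfl⟩, hy⟩
      exact ⟨z, ⟨hz, fun h => hy ⟨z, ⟨hz, h⟩, rfl⟩⟩, rfl⟩
  rw [← setIntegral_congr_set e2, ← setIntegral_congr_set e1,
    integral_image_eq_integral_abs_det_fderiv_smul volume (hS.inter hDm)
      (f' := fun z => ContinuousLinearMap.id ℝ ℂ + ε • fderiv ℝ X z)
      (fun z hz => (Trans_hasFDerivAt ε hz.2).hasFDerivWithinAt) hinj.injOn F]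
  refine setIntegral_congr_fun (hS.inter hDm) fun z _ => ?_
  simp only [Trans_det_eq, abs_of_nonneg (Trans_jac_nonneg hX hε z), smul_eq_mul]

theorem grad_transport {X : ℂ → ℂ} {K : NNReal} (hX : LipschitzWith K X) {ε : ℝ}
    (hε : |ε| * K ≤ 1 / 2) {K' : NNReal} (hg : LipschitzWith K' g) :
    ∀ᵐ z, ∀ v, dot (grad (fun x => g (x + ε * X x)) z) v =
      dot (grad g (z + ε * X z)) (v + ε * fderiv ℝ X z v) := by
  obtain ⟨Ψ, hΨ, hl, -⟩ := exists_inverse hX hε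
  have hD : ∀ᵐ z, DifferentiableAt ℝ X z := hX.ae_differentiableAt
  have hG : ∀ᵐ z, DifferentiableAt ℝ g z := hg.ae_differentiableAt
  have hG' : ∀ᵐ z, DifferentiableAt ℝ g (z + ε * X z) := by
    rw [ae_iff]
    refine measure_mono_null ?_ (Trans_null hΨ (ae_iff.1 hG))
    intro z hz
    exact ⟨z + ε * X z, hz, hl z⟩
  filter_upwards [hD, hG'] with z h1 h2 v
  have h3 := (h2.hasFDerivAt.comp z (Trans_hasFDerivAt ε h1)).fderiv
  rw [← fderiv_eq_dot, ← fderiv_eq_dot]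
  have e : (fun x => g (x + ε * X x)) = g ∘ fun x => x + ε * X x := rfl
  rw [e, h3, ← Complex.real_smul]
  rfl

end Pool.Agent.L2K
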