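import Pool.Agent.P.MP_2f6447_an.K.First

/-! Two pieces. -/

open Set MeasureTheory Filter Topology Complex Metric
open scoped ContDiff ComplexConjugate

namespace Pool.Agent.L2K

variable {Ω U : Set ℂ} {lam : ℝ} {u w f g : ℂ → ℝ}

/-- the slope of the cutoff -/
noncomputable def Two_r (n : ℕ) (s : ℝ) : ℝ := max 0 (min 1 ((n + 1) * s - 1))

/-- the cutoff -/
noncomputable def Two_b (n : ℕ) (t : ℝ) : ℝ := ∫ s in (0 : ℝ)..t, Two_r n s

theorem Two_r_cont (n : ℕ) : Continuous (Two_r n) := by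
  unfold Two_r
  fun_prop

theorem Two_r_nonneg (n : ℕ) (s : ℝ) : 0 ≤ Two_r n s := le_max_left _ _

theorem Two_r_le (n : ℕ) (s : ℝ) : Two_r n s ≤ 1 := max_le zero_le_one (min_le_left _ _)

theorem Two_r_zero (n : ℕ) {s : ℝ} (hs : (n + 1) * s ≤ 1) : Two_r n s = 0 :=
  max_eq_left ((min_le_right _ _).trans (by linarith))

theorem Two_r_one (n : ℕ) {s : ℝ} (hs : 2 ≤ (n + 1) * s) : Two_r n s = 1 := by
  unfold Two_r
  rw [min_eq_left (by linarith), max_eq_right zero_le_one]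

theorem Two_r_lim {s : ℝ} (hs : 0 < s) : Tendsto (fun n => Two_r n s) atTop (𝓝 1) := by
  refine tendsto_const_nhds.congr' ?_
  obtain ⟨N, hN⟩ := exists_nat_ge (2 / s)
  filter_upwards [eventually_ge_atTop N] with n hn
  have h1 : (N : ℝ) ≤ n := by exact_mod_cast hn
  rw [div_le_iff₀ hs] at hN
  exact (Two_r_one n (by nlinarith)).symm

theorem Two_b_deriv (n : ℕ) (t : ℝ) : HasDerivAt (Two_b n) (Two_r n t) t :=
  ((Two_r_cont n).integral_hasStrictDerivAt 0 t).hasDerivAt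

theorem Two_b_smooth (n : ℕ) : ContDiff ℝ 1 (Two_b n) := by
  rw [contDiff_one_iff_deriv]
  refine ⟨fun t => (Two_b_deriv n t).differentiableAt, ?_⟩
  have : deriv (Two_b n) = Two_r n := funext fun t => (Two_b_deriv n t).deriv
  rw [this]
  exact Two_r_cont n

theorem Two_b_zero (n : ℕ) {t : ℝ} (h0 : 0 ≤ t) (ht : (n + 1) * t ≤ 1) : Two_b n t = 0 := by
  unfold Two_b
  rw [intervalIntegral.integral_congr (g := fun _ => (0 : ℝ)), intervalIntegral.integral_zero]
  intro s hs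
  rw [uIcc_of_le h0] at hs
  have : (0 : ℝ) ≤ n + 1 := by positivity
  exact Two_r_zero n ((mul_le_mul_of_nonneg_left hs.2 this).trans ht)

theorem Two_b_nonneg (n : ℕ) {t : ℝ} (h0 : 0 ≤ t) : 0 ≤ Two_b n t :=
  intervalIntegral.integral_nonneg h0 fun s _ => Two_r_nonneg n s

theorem Two_b_le (n : ℕ) {t : ℝ} (h0 : 0 ≤ t) : Two_b n t ≤ t := by
  have := intervalIntegral.integral_mono_on (μ := volume) h0
    ((Two_r_cont n).intervalIntegrable 0 t) (intervalIntegrable_const (c := (1 : ℝ)))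
    fun s _ => Two_r_le n s
  simpa [Two_b] using this

theorem Two_b_ge (n : ℕ) {t : ℝ} (h0 : 0 ≤ t) : t - 2 / (n + 1) ≤ Two_b n t := by
  have hn : (0 : ℝ) < n + 1 := by positivity
  have hd : (0 : ℝ) ≤ 2 / (n + 1) := by positivity
  by_cases ht : t ≤ 2 / (n + 1)
  · linarith [Two_b_nonneg n h0]
  · have ht' := (not_le.1 ht).le
    have e1 : Two_b n t = Two_b n (2 / (n + 1)) + ∫ s in (2 / (n + 1) : ℝ)..t, Two_r n s :=
      (intervalIntegral.integral_add_adjacent_intervals ((Two_r_cont n).intervalIntegrable _ _)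
        ((Two_r_cont n).intervalIntegrable _ _)).symm
    have e2 : ∫ s in (2 / (n + 1) : ℝ)..t, Two_r n s = t - 2 / (n + 1) := by
      rw [intervalIntegral.integral_congr (g := fun _ => (1 : ℝ))]
      · simp
      · intro s hs
        rw [uIcc_of_le ht'] at hs
        have := (div_le_iff₀ hn).1 hs.1
        exact Two_r_one n (by linarith)
    linarith [Two_b_nonneg n hd]

theorem Two_b_lim {t : ℝ} (h0 : 0 ≤ t) : Tendsto (fun n => Two_b n t) atTop (𝓝 t) := by
  have h1 : Tendsto (fun n : ℕ => t - 2 / ((n : ℝ) + 1)) atTop (𝓝 (t - 0)) :=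
    tendsto_const_nhds.sub (tendsto_const_nhds.div_atTop
      (tendsto_natCast_atTop_atTop.atTop_add tendsto_const_nhds))
  rw [sub_zero] at h1
  exact tendsto_of_tendsto_of_tendsto_of_le_of_le h1 tendsto_const_nhds
    (fun n => Two_b_ge n h0) fun n => Two_b_le n h0

theorem Two_cpt (hb : Bornology.IsBounded Ω) (hc : Continuous w)
    (hs : ∀ z, 0 < w z → z ∈ Ω) (n : ℕ) : IsCompact {z | 1 ≤ ((n : ℝ) + 1) * w z} := by
  refine isCompact_of_isClosed_isBounded
    (isClosed_le continuous_const (continuous_const.mul hc)) (hb.subset fun z hz => hs z ?_)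
  have h1 : 1 ≤ ((n : ℝ) + 1) * w z := hz
  have h2 : (0 : ℝ) < n + 1 := by positivity
  exact (mul_pos_iff_of_pos_left h2).1 (lt_of_lt_of_le one_pos h1)

theorem Two_loc (hc : Continuous w) (h0 : ∀ z, 0 ≤ w z) (n : ℕ) {z : ℂ} (hz : ¬ 0 < w z) :
    (fun x => Two_b n (w x)) =ᶠ[𝓝 z] fun _ => 0 := by
  have e : w z = 0 := le_antisymm (not_lt.1 hz) (h0 z)
  have h1 : ∀ᶠ x in 𝓝 z, ((n : ℝ) + 1) * w x < 1 :=
    (continuous_const.mul hc).continuousAt.eventually_lt continuousAt_const (by simp [e])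
  filter_upwards [h1] with x hx
  exact Two_b_zero n (h0 x) hx.le

theorem Two_test (hb : Bornology.IsBounded Ω) (hc : Continuous w) (h0 : ∀ z, 0 ≤ w z)
    (hs : ∀ z, 0 < w z → z ∈ Ω) (h : Helm lam {z | 0 < w z} w) (n : ℕ) :
    Test {z | 0 < w z} fun x => Two_b n (w x) := by
  have hK := Two_cpt hb hc hs n
  have hz : ∀ z, z ∉ {z | 1 ≤ ((n : ℝ) + 1) * w z} → Two_b n (w z) = 0 := fun z hz =>
    Two_b_zero n (h0 z) (not_le.1 hz).le
  refine ⟨contDiff_iff_contDiffAt.2 fun z => ?_, HasCompactSupport.intro hK hz, ?_⟩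
  · by_cases hw : 0 < w z
    · exact (Two_b_smooth n).contDiffAt.comp z ((h.contDiffAt hw).of_le (by simp))
    · exact contDiffAt_const.congr_of_eventuallyEq (Two_loc hc h0 n hw)
  · have hsub : Function.support (fun x => Two_b n (w x)) ⊆ {z | 1 ≤ ((n : ℝ) + 1) * w z} :=
      fun z hz' => by_contra fun h' => hz' (hz z h')
    refine (closure_minimal hsub hK.isClosed).trans fun z hz' => ?_
    have h1 : 1 ≤ ((n : ℝ) + 1) * w z := hz'
    have h2 : (0 : ℝ) < n + 1 := by positivity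
    exact (mul_pos_iff_of_pos_left h2).1 (lt_of_lt_of_le one_pos h1)

theorem Two_grad (hc : Continuous w) (h0 : ∀ z, 0 ≤ w z) (h : Helm lam {z | 0 < w z} w) (n : ℕ)
    (z : ℂ) : grad (fun x => Two_b n (w x)) z =
      Two_r n (w z) * {z | 0 < w z}.indicator (grad w) z := by
  by_cases hw : 0 < w z
  · rw [indicator_of_mem (s := {z | 0 < w z}) hw]
    exact grad_comp (Two_b_deriv n _) (h.differentiableAt hw)
  · rw [indicator_of_notMem (s := {z | 0 < w z}) hw, mul_zero, grad_congr (Two_loc hc h0 n hw),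
      grad_const]

theorem Two_supp (hb : Bornology.IsBounded Ω) (h0 : ∀ z, 0 ≤ w z)
    (hs : ∀ z, 0 < w z → z ∈ Ω) : HasCompactSupport w :=
  HasCompactSupport.intro hb.isCompact_closure fun z hz =>
    le_antisymm (not_lt.1 fun h => hz (subset_closure (hs z h))) (h0 z)

theorem piece_h10 (hb : Bornology.IsBounded Ω) (hc : Continuous w) (h0 : ∀ z, 0 ≤ w z)
    (hs : ∀ z, 0 < w z → z ∈ Ω) (hΩ : IsOpen Ω) (h : Helm lam {z | 0 < w z} w) :
    H10 Ω w ({z | 0 < w z}.indicator (grad w)) ∧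
      ∫ z, ‖{z | 0 < w z}.indicator (grad w) z‖ ^ 2 = lam * ∫ z, w z ^ 2 := by
  obtain ⟨G, hG⟩ : ∃ G : ℂ → ℂ, G = {z | 0 < w z}.indicator (grad w) := ⟨_, rfl⟩
  have hgr : ∀ n z, grad (fun x => Two_b n (w x)) z = Two_r n (w z) * G z := by
    intro n z
    rw [hG]
    exact Two_grad hc h0 h n z
  have hG0 : ∀ z, ¬ 0 < w z → G z = 0 := fun z hz => by
    rw [hG, indicator_of_notMem (s := {z | 0 < w z}) hz]
  have hG1 : ∀ z, 0 < w z → G z = grad w z := fun z hz => by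
    rw [hG, indicator_of_mem (s := {z | 0 < w z}) hz]
  have mG : Measurable G := by
    rw [hG]
    exact (measurable_grad w).indicator h.isOpen.measurableSet
  rw [← hG]
  have hT := Two_test hb hc h0 hs h
  have mw : MemLp w 2 volume := hc.memLp_of_hasCompactSupport (Two_supp hb h0 hs)
  have iw : Integrable fun z => w z ^ 2 := mw.integrable_sq
  have cb : ∀ n, Continuous fun z => Two_b n (w z) := fun n => (hT n).smooth.continuous
  have cr : ∀ n, Continuous fun z => Two_r n (w z) := fun n => (Two_r_cont n).comp hc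
  have mG2 : Measurable fun z => ‖G z‖ ^ 2 := mG.norm.pow_const 2
  have ma : ∀ n, Measurable fun z => Two_r n (w z) * ‖G z‖ ^ 2 := fun n =>
    (cr n).measurable.mul mG2
  have a0 : ∀ n z, 0 ≤ Two_r n (w z) * ‖G z‖ ^ 2 := fun n z =>
    mul_nonneg (Two_r_nonneg _ _) (sq_nonneg _)
  have ia : ∀ n, Integrable fun z => Two_r n (w z) * ‖G z‖ ^ 2 := by
    intro n
    have hK := Two_cpt hb hc hs n
    have hKU : ∀ z ∈ {z | 1 ≤ ((n : ℝ) + 1) * w z}, 0 < w z := fun z hz => by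
      have h1 : 1 ≤ ((n : ℝ) + 1) * w z := hz
      have h2 : (0 : ℝ) < n + 1 := by positivity
      exact (mul_pos_iff_of_pos_left h2).1 (lt_of_lt_of_le one_pos h1)
    have h1 : ContinuousOn (fun z => Two_r n (w z) * ‖G z‖ ^ 2)
        {z | 1 ≤ ((n : ℝ) + 1) * w z} := by
      refine (cr n).continuousOn.mul (ContinuousOn.pow (ContinuousOn.norm ?_) 2)
      exact (h.continuousOn_grad.mono hKU).congr fun z hz => hG1 z (hKU z hz)
    refine (h1.integrableOn_compact hK).integrable_of_forall_notMem_eq_zero fun z hz => ?_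
    rw [Two_r_zero n (not_le.1 hz).le, zero_mul]
  have key : ∀ n, ∫ z, Two_r n (w z) * ‖G z‖ ^ 2 = lam * ∫ z, w z * Two_b n (w z) := by
    intro n
    rw [← h.weak _ (hT n)]
    refine integral_congr_ae (ae_of_all _ fun z => ?_)
    show Two_r n (w z) * ‖G z‖ ^ 2 = dot (grad w z) (grad (fun x => Two_b n (w x)) z)
    rw [hgr]
    by_cases hw : 0 < w z
    · rw [← hG1 z hw, ← dot_self]
      simp only [dot, mul_re, mul_im, ofReal_re, ofReal_im]
      ring
    · rw [hG0 z hw]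
      simp [dot]
  have lim1 : Tendsto (fun n => ∫ z, w z * Two_b n (w z)) atTop (𝓝 (∫ z, w z ^ 2)) := by
    refine tendsto_integral_of_dominated_convergence (fun z => w z ^ 2)
      (fun n => (hc.mul (cb n)).aestronglyMeasurable) iw (fun n => ae_of_all _ fun z => ?_)
      (ae_of_all _ fun z => ?_)
    · rw [Real.norm_of_nonneg (mul_nonneg (h0 z) (Two_b_nonneg n (h0 z))), sq]
      exact mul_le_mul_of_nonneg_left (Two_b_le n (h0 z)) (h0 z)
    · rw [sq]
      exact (Two_b_lim (h0 z)).const_mul _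
  have lim2 : Tendsto (fun n => ∫ z, Two_r n (w z) * ‖G z‖ ^ 2) atTop
      (𝓝 (lam * ∫ z, w z ^ 2)) := by
    simp only [key]
    exact lim1.const_mul _
  have pt : ∀ z, Tendsto (fun n => Two_r n (w z) * ‖G z‖ ^ 2) atTop (𝓝 (‖G z‖ ^ 2)) := by
    intro z
    by_cases hw : 0 < w z
    · simpa using (Two_r_lim hw).mul_const (‖G z‖ ^ 2)
    · simp [hG0 z hw]
  have iG : Integrable fun z => ‖G z‖ ^ 2 := by
    refine ⟨mG2.aestronglyMeasurable, ?_⟩
    rw [hasFiniteIntegral_iff_ofReal (ae_of_all _ fun z => sq_nonneg _)]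
    have h1 := lintegral_liminf_le (μ := volume) (u := atTop)
      (f := fun (n : ℕ) z => ENNReal.ofReal (Two_r n (w z) * ‖G z‖ ^ 2))
      fun n => (ma n).ennreal_ofReal
    have h2 : ∀ z, liminf (fun n : ℕ => ENNReal.ofReal (Two_r n (w z) * ‖G z‖ ^ 2)) atTop =
        ENNReal.ofReal (‖G z‖ ^ 2) := fun z => (ENNReal.tendsto_ofReal (pt z)).liminf_eq
    have h3 : ∀ n : ℕ, ∫⁻ z, ENNReal.ofReal (Two_r n (w z) * ‖G z‖ ^ 2) =
        ENNReal.ofReal (∫ z, Two_r n (w z) * ‖G z‖ ^ 2) := fun n =>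
      (ofReal_integral_eq_lintegral_ofReal (ia n) (ae_of_all _ (a0 n))).symm
    simp only [h2, h3] at h1
    rw [(ENNReal.tendsto_ofReal lim2).liminf_eq] at h1
    exact h1.trans_lt ENNReal.ofReal_lt_top
  have lim3 : Tendsto (fun n => ∫ z, Two_r n (w z) * ‖G z‖ ^ 2) atTop (𝓝 (∫ z, ‖G z‖ ^ 2)) := by
    refine tendsto_integral_of_dominated_convergence (fun z => ‖G z‖ ^ 2)
      (fun n => (ma n).aestronglyMeasurable) iG (fun n => ae_of_all _ fun z => ?_)
      (ae_of_all _ pt)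
    rw [Real.norm_of_nonneg (a0 n z)]
    exact mul_le_of_le_one_left (sq_nonneg _) (Two_r_le _ _)
  refine ⟨⟨mw, (memLp_two_iff_integrable_sq_norm mG.aestronglyMeasurable).2 iG,
    fun n x => Two_b n (w x), fun n => ⟨(hT n).smooth, (hT n).cpt, (hT n).supp.trans hs⟩, ?_, ?_⟩,
    tendsto_nhds_unique lim3 lim2⟩
  · have := tendsto_integral_of_dominated_convergence (μ := volume)
      (F := fun n z => (Two_b n (w z) - w z) ^ 2) (f := fun _ => (0 : ℝ)) (fun z => w z ^ 2)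
      (fun n => (((cb n).sub hc).pow 2).aestronglyMeasurable) iw
      (fun n => ae_of_all _ fun z => by
        rw [Real.norm_of_nonneg (sq_nonneg _)]
        nlinarith [Two_b_nonneg n (h0 z), Two_b_le n (h0 z), h0 z])
      (ae_of_all _ fun z => by
        simpa using ((Two_b_lim (h0 z)).sub_const (w z)).pow 2)
    simpa using this
  · have e : ∀ n z, ‖grad (fun x => Two_b n (w x)) z - G z‖ ^ 2 =
        (Two_r n (w z) - 1) ^ 2 * ‖G z‖ ^ 2 := by
      intro n z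
      rw [hgr, show (Two_r n (w z) : ℂ) * G z - G z = ((Two_r n (w z) - 1 : ℝ) : ℂ) * G z by
        push_cast; ring, norm_mul, mul_pow, norm_real, Real.norm_eq_abs, sq_abs]
    simp only [e]
    have := tendsto_integral_of_dominated_convergence (μ := volume)
      (F := fun n z => (Two_r n (w z) - 1) ^ 2 * ‖G z‖ ^ 2) (f := fun _ => (0 : ℝ))
      (fun z => ‖G z‖ ^ 2)
      (fun n => ((((cr n).sub continuous_const).pow 2).measurable.mul mG2).aestronglyMeasurable) iG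
      (fun n => ae_of_all _ fun z => by
        rw [Real.norm_of_nonneg (mul_nonneg (sq_nonneg _) (sq_nonneg _))]
        refine mul_le_of_le_one_left (sq_nonneg _) ?_
        nlinarith [Two_r_nonneg n (w z), Two_r_le n (w z)])
      (ae_of_all _ fun z => by
        by_cases hw : 0 < w z
        · simpa using (((Two_r_lim hw).sub_const 1).pow 2).mul_const (‖G z‖ ^ 2)
        · simp [hG0 z hw])
    simpa using this

theorem two_pieces (hΩ : Dom Ω) {w₁ w₂ : ℂ → ℝ} (c1 : Continuous w₁) (c2 : Continuous w₂)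
    (p1 : ∀ z, 0 ≤ w₁ z) (p2 : ∀ z, 0 ≤ w₂ z) (hd : ∀ z, w₁ z = 0 ∨ w₂ z = 0)
    (s1 : ∀ z, 0 < w₁ z → z ∈ Ω) (s2 : ∀ z, 0 < w₂ z → z ∈ Ω)
    (h1 : Helm (lam2c Ω) {z | 0 < w₁ z} w₁) (h2 : Helm (lam2c Ω) {z | 0 < w₂ z} w₂) :
    ∃ c₁ c₂ : ℝ, (c₁ ≠ 0 ∨ c₂ ≠ 0) ∧ Helm (lam2c Ω) Ω fun z => c₁ * w₁ z + c₂ * w₂ z := by
  obtain ⟨lam1, u1, hF⟩ := exists_first hΩ
  obtain ⟨H1, E1⟩ := piece_h10 hΩ.bdd c1 p1 s1 hΩ.isOpen h1
  obtain ⟨H2, E2⟩ := piece_h10 hΩ.bdd c2 p2 s2 hΩ.isOpen h2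
  obtain ⟨G₁, hG₁⟩ : ∃ G : ℂ → ℂ, G = {z | 0 < w₁ z}.indicator (grad w₁) := ⟨_, rfl⟩
  obtain ⟨G₂, hG₂⟩ : ∃ G : ℂ → ℂ, G = {z | 0 < w₂ z}.indicator (grad w₂) := ⟨_, rfl⟩
  have hGd : ∀ z, G₁ z = 0 ∨ G₂ z = 0 := by
    intro z
    rcases hd z with h | h
    · left
      rw [hG₁, indicator_of_notMem (s := {z | 0 < w₁ z}) (by simp [h])]
    · right
      rw [hG₂, indicator_of_notMem (s := {z | 0 < w₂ z}) (by simp [h])]
  rw [← hG₁] at H1 E1
  rw [← hG₂] at H2 E2
  have i1 : Integrable fun z => w₁ z * u1 z := H1.memf.integrable_mul hF.wf.h10.memf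
  have i2 : Integrable fun z => w₂ z * u1 z := H2.memf.integrable_mul hF.wf.h10.memf
  obtain ⟨a, b, hab, ho⟩ : ∃ a b : ℝ, (a ≠ 0 ∨ b ≠ 0) ∧
      a * (∫ z, w₁ z * u1 z) + b * ∫ z, w₂ z * u1 z = 0 := by
    by_cases hI : ∫ z, w₁ z * u1 z = 0
    · exact ⟨1, 0, Or.inl one_ne_zero, by rw [hI]; ring⟩
    · exact ⟨-∫ z, w₂ z * u1 z, ∫ z, w₁ z * u1 z, Or.inr hI, by ring⟩
  refine ⟨a, b, hab, ?_⟩
  have H := H1.comb H2 a b
  have ho' : ∫ z, (a * w₁ z + b * w₂ z) * u1 z = 0 := by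
    rw [← ho, ← integral_const_mul, ← integral_const_mul,
      ← integral_add (i1.const_mul a) (i2.const_mul b)]
    refine integral_congr_ae (ae_of_all _ fun z => ?_)
    ring
  have j1 := (memLp_two_iff_integrable_sq_norm H1.memG.aestronglyMeasurable).1 H1.memG
  have j2 := (memLp_two_iff_integrable_sq_norm H2.memG.aestronglyMeasurable).1 H2.memG
  have e1 : ∫ z, ‖(a : ℂ) * G₁ z + b * G₂ z‖ ^ 2 =
      a ^ 2 * (∫ z, ‖G₁ z‖ ^ 2) + b ^ 2 * ∫ z, ‖G₂ z‖ ^ 2 := by
    rw [← integral_const_mul, ← integral_const_mul,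
      ← integral_add (j1.const_mul _) (j2.const_mul _)]
    refine integral_congr_ae (ae_of_all _ fun z => ?_)
    rcases hGd z with h | h <;> simp [h, mul_pow]
  have e2 : ∫ z, (a * w₁ z + b * w₂ z) ^ 2 =
      a ^ 2 * (∫ z, w₁ z ^ 2) + b ^ 2 * ∫ z, w₂ z ^ 2 := by
    rw [← integral_const_mul, ← integral_const_mul,
      ← integral_add (H1.memf.integrable_sq.const_mul _) (H2.memf.integrable_sq.const_mul _)]
    refine integral_congr_ae (ae_of_all _ fun z => ?_)
    rcases hd z with h | h <;> simp [h, mul_pow]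
  have hw := hF.wf.weak_of_orth H ho' (by rw [e1, e2, E1, E2]; exact le_of_eq (by ring))
  exact weyl_cont hΩ.isOpen (lam2c_nonneg Ω)
    ((continuous_const.mul c1).add (continuous_const.mul c2)).continuousOn (H.vweak hw)

end Pool.Agent.L2K
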