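import Pool.Agent.P.MP_2f6447_an.K.Win

/-! Start of the rotation. -/

open Set MeasureTheory Filter Topology Complex Metric
open scoped ContDiff ComplexConjugate

namespace Pool.Agent.L2K

variable {Ω U : Set ℂ} {lam : ℝ} {u w f g : ℂ → ℝ}
variable {l r : ℝ → ℝ} {nT nB n φ : ℝ}

theorem Str.not_symm (h : Str Ω lam u l r) (M : ℂ) (hφ : φ ∈ Ioo 0 (Real.pi / 2)) :
    ¬ ∀ z ∈ Ω, rf M (nphi φ) z ∈ Ω := by
  intro H
  have hm := norm_nphi φ
  have hG := h.toGeo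
  have e : rf M (nphi φ) ⁻¹' Ω = Ω := by
    refine Subset.antisymm (fun z hz => ?_) H
    have h1 := H _ hz
    rwa [rf_rf M hm] at h1
  have key : ∀ x ∈ Ioo (l Real.pi) (r Real.pi),
      (rf M (nphi φ) ⟨x, Real.pi⟩).im = 0 ∨ (rf M (nphi φ) ⟨x, Real.pi⟩).im = Real.pi := by
    intro x hx
    have h1 := hG.top_mem (Ioo_subset_Icc_self hx)
    have h2 : ¬ Ext Ω ⟨x, Real.pi⟩ := fun k =>
      ((hG.ext_iff _).1 k).2.elim hx.1.ne' hx.2.ne
    rw [← e, ext_rf M hm] at h2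
    rw [← e, frontier_rf M hm] at h1
    obtain ⟨k1, -, k2 | k2 | k2⟩ := (hG.mem_frontier _).1 h1
    exacts [Or.inl k2, Or.inr k2, (h2 ((hG.ext_iff _).2 ⟨k1, k2⟩)).elim]
  have hs : 0 < Real.sin (2 * φ) :=
    Real.sin_pos_of_pos_of_lt_pi (by linarith [hφ.1]) (by linarith [hφ.2])
  obtain ⟨b, b1, b2⟩ := exists_between hG.htop
  obtain ⟨a, a1, a2⟩ := exists_between b1
  obtain ⟨c, c1, c2⟩ := exists_between b2
  have k1 := key a ⟨a1, a2.trans b2⟩
  have k2 := key b ⟨b1, b2⟩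
  have k3 := key c ⟨b1.trans c1, c2⟩
  simp only [rf_nphi_im] at k1 k2 k3
  have k4 := mul_pos (sub_pos.2 a2) hs
  have k5 := mul_pos (sub_pos.2 c1) hs
  rcases k1 with k1 | k1 <;> rcases k2 with k2 | k2 <;> rcases k3 with k3 | k3 <;> linarith

theorem Str.good_of (h : Str Ω lam u l r) {M : ℂ} (hφ : φ ∈ Ioo 0 (Real.pi / 2))
    (h1 : ∀ z, u z < 0 → 0 < dot (z - M) (nphi φ) → rf M (nphi φ) z ∈ Ω)
    (h2 : ∀ z, 0 < u z → dot (z - M) (nphi φ) < 0 → rf M (nphi φ) z ∈ Ω) :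
    Good u M (nphi φ) := by
  have hm := norm_nphi φ
  have hD := h.toGeo.dom
  have hD' := hD.of_rf M hm
  have hu := h.lip.continuous
  have hR := (isometry_rf M hm).continuous
  rw [good_iff]
  intro hne
  have s1 : Bad u M (nphi φ) ⊆ Ω ∩ rf M (nphi φ) ⁻¹' Ω := by
    rintro z ⟨k1, k2⟩
    rcases lt_or_ge (u z) 0 with k | k
    · exact ⟨ConeT_mem h k.ne, h1 z k k1⟩
    · have k3 := k.trans_lt k2
      have k4 := h2 _ k3 (by rw [dot_rf_n M hm]; linarith)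
      rw [rf_rf M hm] at k4
      exact ⟨k4, ConeT_mem h k3.ne'⟩
  have s2 : rf M (nphi φ) ⁻¹' Bad u M (nphi φ) ⊆ Ω ∩ rf M (nphi φ) ⁻¹' Ω := by
    intro z hz
    have k := s1 hz
    rw [mem_inter_iff, mem_preimage, rf_rf M hm] at k
    exact ⟨k.2, k.1⟩
  have hV := hD.isOpen.inter hD'.isOpen
  have hw : Helm (lam2c Ω) (Ω ∩ rf M (nphi φ) ⁻¹' Ω) fun z => u z - u (rf M (nphi φ) z) := by
    rw [← h.lam_eq]
    exact (h.helm.mono hV inter_subset_left).sub ((h.helm.of_rf M hm).mono hV inter_subset_right)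
  have hc : Continuous fun z => u z - u (rf M (nphi φ) z) := hu.sub (hu.comp hR)
  have ht : ∀ (E : Set ℂ) (p : ℂ), u (rf M (nphi φ) p) = u p →
      Tendsto (fun z => u z - u (rf M (nphi φ) z)) (𝓝[E] p) (𝓝 0) := by
    intro E p e
    have k := (hc.tendsto p).mono_left (nhdsWithin_le_nhds (s := E))
    rwa [e, sub_self] at k
  have z1 : ∀ z ∈ Bad u M (nphi φ), u z - u (rf M (nphi φ) z) ≠ 0 := fun z hz =>
    (sub_neg.2 hz.2).ne
  obtain ⟨F, c, c0, -, hF, k1, k2⟩ := two_domains hD (hD.convex.inter hD'.convex).isPreconnected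
    inter_subset_left hw (isOpen_bad hu M hm) ((isOpen_bad hu M hm).preimage hR) hne
    (hne.preimage fun z => ⟨_, rf_rf M hm z⟩) s1 s2
    (disjoint_left.2 fun z k k' => by
      have k1 := k'.1
      rw [dot_rf_n M hm] at k1
      linarith [k.1]) z1
    (fun z hz => by
      have k1 := hz.2
      rw [rf_rf M hm] at k1
      exact (sub_pos.2 k1).ne')
    (fun p hp => ht _ p (bad_frontier hu M hm hp))
    (fun p hp => by
      rw [frontier_rf M hm] at hp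
      have k1 := bad_frontier hu M hm hp
      rw [rf_rf M hm] at k1
      exact ht _ p k1.symm)
  by_cases hs : Ω ⊆ closure (rf M (nphi φ) ⁻¹' Ω)
  · have k3 := interior_maximal hs hD.isOpen
    rw [hD'.interior_closure] at k3
    exact h.not_symm M hφ k3
  · obtain ⟨p, p1, p2⟩ := not_subset.1 hs
    have k3 := uc hF (lam2c_nonneg Ω) hD.convex.isPreconnected p1 (by
      filter_upwards [isClosed_closure.isOpen_compl.mem_nhds p2] with z hz
      exact k2 z (fun k => hz (subset_closure (s1 k).2)) fun k => hz (subset_closure (s2 k).2))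
    obtain ⟨z, hz⟩ := hne
    exact mul_ne_zero c0 (z1 z hz) ((k1 z (s1 hz)).symm.trans (k3 z (s1 hz).1))

theorem UD1_arith {x y s c C ξ₀ ξ₁ d : ℝ} (hs : 0 < s) (hc : 0 < c) (e : s ^ 2 + c ^ 2 = 1)
    (y1 : -(Real.pi / 2) < y) (y2 : y < Real.pi / 2) (x1 : x ≤ ξ₀) (h0 : 0 ≤ ξ₀) (hC : 0 ≤ C)
    (x2 : x ≤ C * (Real.pi / 2 - y)) (s1 : 2 * (C + 1) * s < 1) (s2 : 4 * s < ξ₁ - ξ₀)
    (hd : d = x * c - y * s) (d0 : 0 < d) :
    -ξ₁ < x - 2 * d * c ∧ x - 2 * d * c < ξ₁ ∧ -(Real.pi / 2) < y + 2 * d * s ∧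
      y + 2 * d * s < Real.pi / 2 := by
  have hp := Real.pi_pos
  have hp4 := Real.pi_lt_four
  have s3 : s < 1 / 2 := by nlinarith
  have c1 : c ≤ 1 := by nlinarith
  have c2 : 0 ≤ 2 * c ^ 2 - 1 := by nlinarith
  have c3 : 2 * c ^ 2 - 1 ≤ 1 := by nlinarith
  have hdc := mul_pos d0 hc
  have hds := mul_pos d0 hs
  have hsc := mul_pos hs hc
  refine ⟨?_, by linarith, by linarith, ?_⟩
  · have k1 : x * (2 * c ^ 2 - 1) ≤ ξ₀ :=
      (mul_le_mul_of_nonneg_right x1 c2).trans (mul_le_of_le_one_right h0 c3)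
    have k2 : -2 * (s * c) ≤ y * (s * c) := mul_le_mul_of_nonneg_right (by linarith) hsc.le
    have k3 : s * c ≤ s := mul_le_of_le_one_right hs.le c1
    rw [hd]
    linarith
  · have t0 : 0 < Real.pi / 2 - y := sub_pos.2 y2
    have k1 : x * c ≤ C * (Real.pi / 2 - y) :=
      (mul_le_mul_of_nonneg_right x2 hc.le).trans (mul_le_of_le_one_right (by positivity) c1)
    have k2 : -y * s ≤ Real.pi / 2 - y :=
      (mul_le_mul_of_nonneg_right (by linarith) hs.le).trans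
        (mul_le_of_le_one_right t0.le (by linarith))
    have k3 : d * s ≤ (C + 1) * (Real.pi / 2 - y) * s :=
      mul_le_mul_of_nonneg_right (by linarith) hs.le
    have k4 := mul_lt_mul_of_pos_right s1 t0
    linarith

theorem Pat.good_small (h : Pat Ω lam u l r nT nB) (hL : Loc Ω u nT nB) (hle : nT ≤ nB) :
    ∀ᶠ φ in 𝓝[>] (0 : ℝ), Good u (mid nT nB) (nphi φ) := by
  obtain ⟨ξ₀, ξ₁, h0, h1, w1, w2, w3⟩ := h.win hL
  obtain ⟨C, hC, kC⟩ := h.neg_cone hL.dT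
  obtain ⟨C', hC', kC'⟩ := h.pos_cone hL.dB
  have hG := h.toStr.toGeo
  have small : ∀ a b : ℝ, 0 < b → ∀ᶠ φ in 𝓝[>] (0 : ℝ), a * Real.sin φ < b := by
    intro a b hb
    have k : Tendsto (fun φ => a * Real.sin φ) (𝓝 0) (𝓝 (a * Real.sin 0)) :=
      (by fun_prop : Continuous fun φ => a * Real.sin φ).tendsto 0
    rw [Real.sin_zero, mul_zero] at k
    exact (k.eventually_lt_const hb).filter_mono nhdsWithin_le_nhds
  filter_upwards [Ioo_mem_nhdsGT Real.pi_div_two_pos, small (2 * (C + 1)) 1 one_pos,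
    small (2 * (C' + 1)) 1 one_pos, small 4 _ (sub_pos.2 h1)] with φ hφ e1 e2 e3
  have hs : 0 < Real.sin φ := Real.sin_pos_of_pos_of_lt_pi hφ.1 (by linarith [hφ.2, Real.pi_pos])
  have hc : 0 < Real.cos φ := Real.cos_pos_of_mem_Ioo ⟨by linarith [hφ.1, Real.pi_pos], hφ.2⟩
  have hd : ∀ z : ℂ, dot (z - mid nT nB) (nphi φ) =
      (z.re - (nT + nB) / 2) * Real.cos φ - (z.im - Real.pi / 2) * Real.sin φ := by
    intro z
    simp only [dot, nphi, mid, sub_re, sub_im]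
    ring
  have hre : ∀ z : ℂ, (rf (mid nT nB) (nphi φ) z).re =
      z.re - 2 * dot (z - mid nT nB) (nphi φ) * Real.cos φ := by
    intro z
    rw [rf, sub_re, re_ofReal_mul]
    rfl
  have him : ∀ z : ℂ, (rf (mid nT nB) (nphi φ) z).im =
      z.im + 2 * dot (z - mid nT nB) (nphi φ) * Real.sin φ := by
    intro z
    rw [rf, sub_im, im_ofReal_mul]
    change _ - _ * -Real.sin φ = _
    ring
  have mem : ∀ z : ℂ, 0 < z.im → z.im < Real.pi → (nT + nB) / 2 - ξ₁ < z.re →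
      z.re < (nT + nB) / 2 + ξ₁ → z ∈ Ω := fun z k1 k2 k3 k4 =>
    (hG.mem z).2 ⟨⟨k1, k2⟩, (w3 _ ⟨k1, k2⟩).1.trans k3, k4.trans (w3 _ ⟨k1, k2⟩).2⟩
  refine h.toStr.good_of hφ (fun z hz d0 => ?_) fun z hz d0 => ?_
  · have hzΩ := ConeT_mem h.toStr hz.ne
    obtain ⟨⟨y1, y2⟩, -⟩ := (hG.mem z).1 hzΩ
    have x1 : z.re ≤ (nT + nB) / 2 + ξ₀ := not_lt.1 fun k => (w1 z hzΩ k).not_gt hz
    have x2 := kC z hz
    obtain ⟨k1, k2, k3, k4⟩ := UD1_arith (x := z.re - (nT + nB) / 2) (y := z.im - Real.pi / 2)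
      hs hc (Real.sin_sq_add_cos_sq φ) (by linarith) (by linarith) (by linarith) h0 hC
      (by linarith) e1 e3 (hd z) d0
    refine mem _ ?_ ?_ ?_ ?_ <;> simp only [hre, him] <;> linarith
  · have hzΩ := ConeT_mem h.toStr hz.ne'
    obtain ⟨⟨y1, y2⟩, -⟩ := (hG.mem z).1 hzΩ
    have x1 : (nT + nB) / 2 - ξ₀ ≤ z.re := not_lt.1 fun k => (w2 z hzΩ k).not_gt hz
    have x2 := kC' z hz
    obtain ⟨k1, k2, k3, k4⟩ := UD1_arith (x := (nT + nB) / 2 - z.re) (y := Real.pi / 2 - z.im)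
      (d := -dot (z - mid nT nB) (nphi φ)) hs hc (Real.sin_sq_add_cos_sq φ) (by linarith)
      (by linarith) (by linarith) h0 hC' (by linarith) e2 e3 (by rw [hd]; ring) (by linarith)
    refine mem _ ?_ ?_ ?_ ?_ <;> simp only [hre, him] <;> linarith

end Pool.Agent.L2K
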