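import Pool.Agent.P.MP_2f6447_an.K.Win

/-! A good angle before the last one: interior facts. -/

open Set MeasureTheory Filter Topology Complex Metric
open scoped ContDiff ComplexConjugate

namespace Pool.Agent.L2K

variable {Ω U : Set ℂ} {lam : ℝ} {u w f g : ℂ → ℝ}
variable {l r : ℝ → ℝ} {nT nB n φ : ℝ}

theorem UDs.phi_mem (h : UDs Ω lam u l r nT nB φ) : φ ∈ Ioo 0 (Real.pi / 2) :=
  ⟨h.lo, h.hi.trans_le (phis_mem h.le).2⟩

theorem UD2_sin (h : UDs Ω lam u l r nT nB φ) : 0 < Real.sin φ :=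
  Real.sin_pos_of_pos_of_lt_pi h.lo (by linarith [h.phi_mem.2, Real.pi_pos])

theorem UD2_cos (h : UDs Ω lam u l r nT nB φ) : 0 < Real.cos φ :=
  Real.cos_pos_of_mem_Ioo ⟨by linarith [h.lo, Real.pi_pos], h.phi_mem.2⟩

theorem UD2_ineq (h : UDs Ω lam u l r nT nB φ) :
    (nB - nT) / 2 * Real.sin (2 * φ) - Real.pi / 2 * Real.cos (2 * φ) < Real.pi / 2 ∧
      -(Real.pi / 2) < (nB - nT) / 2 * Real.sin (2 * φ) - Real.pi / 2 * Real.cos (2 * φ) := by
  have hs := UD2_sin h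
  have hc := UD2_cos h
  have h1 := phis_lt h.le h.lo h.hi
  have h2 : 0 ≤ nB - nT := sub_nonneg.2 h.le
  have hp := Real.pi_pos
  have e := Real.sin_sq_add_cos_sq φ
  rw [Real.sin_two_mul, Real.cos_two_mul]
  constructor
  · nlinarith [mul_lt_mul_of_pos_right h1 hc]
  · have h3 : 0 ≤ (nB - nT) * (Real.sin φ * Real.cos φ) := mul_nonneg h2 (mul_pos hs hc).le
    have h4 : 0 < Real.pi * Real.sin φ ^ 2 := mul_pos hp (pow_pos hs 2)
    have h5 : Real.pi * Real.cos φ ^ 2 = Real.pi - Real.pi * Real.sin φ ^ 2 := by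
      linear_combination Real.pi * e
    nlinarith

theorem UDs.rf_nT (h : UDs Ω lam u l r nT nB φ) :
    rf (mid nT nB) (nphi φ) ⟨nT, Real.pi⟩ ∈ Ω := by
  obtain ⟨h1, h2⟩ := UD2_ineq h
  have e : (rf (mid nT nB) (nphi φ) ⟨nT, Real.pi⟩).im = Real.pi / 2 -
      ((nB - nT) / 2 * Real.sin (2 * φ) - Real.pi / 2 * Real.cos (2 * φ)) := by
    rw [rf_nphi_im]; simp only [mid]; ring
  exact h.loc.disc _ (by rw [e]; linarith) (by rw [e]; linarith)
    (norm_rf_sub _ (norm_nphi φ) _).le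

theorem UDs.rf_nB (h : UDs Ω lam u l r nT nB φ) : rf (mid nT nB) (nphi φ) ⟨nB, 0⟩ ∈ Ω := by
  obtain ⟨h1, h2⟩ := UD2_ineq h
  have e : (rf (mid nT nB) (nphi φ) ⟨nB, 0⟩).im = Real.pi / 2 +
      ((nB - nT) / 2 * Real.sin (2 * φ) - Real.pi / 2 * Real.cos (2 * φ)) := by
    rw [rf_nphi_im]; simp only [mid]; ring
  have e2 : (⟨nB, 0⟩ : ℂ) - mid nT nB = -((⟨nT, Real.pi⟩ : ℂ) - mid nT nB) := by
    apply Complex.ext <;> simp [mid] <;> ring
  refine h.loc.disc _ (by rw [e]; linarith) (by rw [e]; linarith) ?_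
  rw [norm_rf_sub _ (norm_nphi φ), e2, norm_neg]

theorem UDs.dot_nT (h : UDs Ω lam u l r nT nB φ) :
    dot ((⟨nT, Real.pi⟩ : ℂ) - mid nT nB) (nphi φ) < 0 := by
  have h1 := mul_nonneg (sub_nonneg.2 h.le) (UD2_cos h).le
  have h2 := mul_pos Real.pi_pos (UD2_sin h)
  simp only [dot, mid, nphi, Complex.sub_re, Complex.sub_im]
  nlinarith

theorem UDs.dot_nB (h : UDs Ω lam u l r nT nB φ) :
    0 < dot ((⟨nB, 0⟩ : ℂ) - mid nT nB) (nphi φ) := by
  have h1 := mul_nonneg (sub_nonneg.2 h.le) (UD2_cos h).le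
  have h2 := mul_pos Real.pi_pos (UD2_sin h)
  simp only [dot, mid, nphi, Complex.sub_re, Complex.sub_im]
  nlinarith

theorem UD2_rf_self (M m : ℂ) : rf M m M = M := rf_of_dot M m M (by simp [dot])

theorem UDs.v_ne (h : UDs Ω lam u l r nT nB φ) :
    ∃ z ∈ Ω, rf (mid nT nB) (nphi φ) z ∈ Ω ∧ u z ≠ u (rf (mid nT nB) (nphi φ) z) := by
  by_contra hcon
  have hm := norm_nphi φ
  have hMn : Mn Ω lam u := h.toPat.toStr.toMn
  generalize hM : mid nT nB = M at *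
  generalize hmm : nphi φ = m at *
  have heq : ∀ z ∈ Ω, rf M m z ∈ Ω → u z = u (rf M m z) := by
    intro z hz hs
    by_contra hne
    exact hcon ⟨z, hz, hs, hne⟩
  have hcs : Continuous (rf M m) := (isometry_rf M hm).continuous
  have hc1 : Continuous fun x : ℝ => rf M m (⟨x, Real.pi⟩ : ℂ) := by
    have : Continuous fun x : ℝ => (⟨x, Real.pi⟩ : ℂ) := by
      have e : (fun x : ℝ => (⟨x, Real.pi⟩ : ℂ)) = fun x : ℝ => (x : ℂ) + (Real.pi : ℂ) * I := by
        funext x; apply Complex.ext <;> simp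
      rw [e]; fun_prop
    exact hcs.comp this
  have hnT : rf M m (⟨nT, Real.pi⟩ : ℂ) ∈ Ω := by rw [← hM, ← hmm]; exact h.rf_nT
  have ev1 : ∀ᶠ x in 𝓝[>] nT, rf M m (⟨x, Real.pi⟩ : ℂ) ∈ Ω :=
    mem_nhdsWithin_of_mem_nhds (hc1.continuousAt.preimage_mem_nhds (hMn.isOpen.mem_nhds hnT))
  have ev2 : ∀ᶠ x in 𝓝[>] nT, x ∈ Ioo nT (r Real.pi) := Ioo_mem_nhdsGT h.memT.2
  obtain ⟨x, hp, hx⟩ := (ev1.and ev2).exists
  have hxI : x ∈ Icc (l Real.pi) (r Real.pi) := ⟨(h.memT.1.trans hx.1).le, hx.2.le⟩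
  have hq : (⟨x, Real.pi⟩ : ℂ) ∈ frontier Ω := h.toPat.toStr.toGeo.top_mem hxI
  have hg : 0 < gT Ω u x := h.toPat.gT_pos ⟨hx.1, hx.2.le⟩
  have hG := h.toPat.toStr.Gr_top hxI
  generalize hqq : (⟨x, Real.pi⟩ : ℂ) = q at *
  have hqim : (q - M).im = Real.pi / 2 := by rw [← hqq, ← hM]; simp [mid]; ring
  have hsp : rf M m (rf M m q) = q := rf_rf M hm q
  have hcl : rf M m (rf M m q) ∈ closure Ω := by rw [hsp]; exact frontier_subset_closure hq
  have hcl' : rf M m q ∈ closure (rf M m ⁻¹' Ω) := by rw [closure_rf M hm]; exact hcl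
  have : (𝓝[rf M m ⁻¹' Ω] (rf M m q)).NeBot := mem_closure_iff_nhdsWithin_neBot.1 hcl'
  have hV : IsOpen (Ω ∩ rf M m ⁻¹' Ω) := hMn.isOpen.inter (hMn.isOpen.preimage hcs)
  have evV : ∀ᶠ z in 𝓝[rf M m ⁻¹' Ω] (rf M m q), z ∈ Ω ∩ rf M m ⁻¹' Ω :=
    inter_mem (mem_nhdsWithin_of_mem_nhds (hMn.isOpen.mem_nhds hp)) self_mem_nhdsWithin
  have hu := hMn.lip.continuous
  have hu0 : u (rf M m q) = 0 := by
    have t1 : Tendsto u (𝓝[rf M m ⁻¹' Ω] (rf M m q)) (𝓝 (u (rf M m q))) :=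
      hu.continuousAt.continuousWithinAt
    have t2 : Tendsto (fun z => u (rf M m z)) (𝓝[rf M m ⁻¹' Ω] (rf M m q))
        (𝓝 (u (rf M m (rf M m q)))) := (hu.comp hcs).continuousAt.continuousWithinAt
    rw [tendsto_nhds_unique_of_eventuallyEq t1 t2 (evV.mono fun z hz => heq z hz.1 hz.2), hsp]
    exact hMn.lip.zero q (hMn.toIsMin.toDom.notMem_of_frontier hq)
  have hgr : grad u (rf M m q) = rf 0 m (-(gT Ω u x : ℂ) * I) := by
    have t1 : Tendsto (grad u) (𝓝[rf M m ⁻¹' Ω] (rf M m q)) (𝓝 (grad u (rf M m q))) :=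
      (hMn.helm.continuousOn_grad.continuousAt (hMn.isOpen.mem_nhds hp)).continuousWithinAt
    have t2 := (hMn.of_rf M hm).tendsto_Gr hcl'
    rw [hMn.Gr_rf M hm hcl, hsp, hG] at t2
    refine tendsto_nhds_unique_of_eventuallyEq t1 t2 (evV.mono fun z hz => grad_congr ?_)
    exact Filter.mem_of_superset (hV.mem_nhds hz) fun y hy => heq y hy.1 hy.2
  have hn : ‖grad u (rf M m q)‖ = gT Ω u x := by
    have := norm_rf_sub 0 hm (-(gT Ω u x : ℂ) * I)
    rw [sub_zero, sub_zero] at this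
    rw [hgr, this]
    simp [abs_of_pos hg]
  have hne : grad u (rf M m q) ≠ 0 := by
    intro h0
    rw [h0, norm_zero] at hn
    exact hg.ne hn
  have hsl := h.loc.slope _ hp hu0 hne
  have e1 : rf M m q - M = rf 0 m (q - M) := by
    conv_lhs => rw [← UD2_rf_self M m]
    rw [UD2_rf_self M m, ← rf_sub M, UD2_rf_self]
  rw [hM, hn, hgr, e1, dot_rf_rf hm] at hsl
  have e2 : dot (q - M) (-(gT Ω u x : ℂ) * I) = -(Real.pi / 2 * gT Ω u x) := by
    unfold dot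
    rw [hqim]
    simp
  rw [e2, abs_neg, abs_of_pos (mul_pos (by linarith [Real.pi_pos]) hg)] at hsl
  exact lt_irrefl _ hsl

theorem UD2_helm (h : Mn Ω lam u) (M : ℂ) {m : ℂ} (hm : ‖m‖ = 1) :
    Helm lam (Ω ∩ rf M m ⁻¹' Ω) fun z => u z - u (rf M m z) := by
  have hV : IsOpen (Ω ∩ rf M m ⁻¹' Ω) := h.isOpen.inter (h.toIsMin.toDom.of_rf M hm).isOpen
  exact (h.helm.mono hV inter_subset_left).sub ((h.helm.of_rf M hm).mono hV inter_subset_right)

theorem UD2_conv (h : Mn Ω lam u) (M : ℂ) {m : ℂ} (hm : ‖m‖ = 1) :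
    Convex ℝ (Ω ∩ rf M m ⁻¹' Ω) := h.convex.inter (h.toIsMin.toDom.of_rf M hm).convex

theorem UD2_cont (M m : ℂ) : Continuous fun z : ℂ => dot (z - M) m := by
  unfold dot; fun_prop

theorem UD2_half (M m : ℂ) : Convex ℝ {z : ℂ | 0 < dot (z - M) m} := by
  intro a ha b hb s t hs ht hst
  have e : dot (s • a + t • b - M) m = s * dot (a - M) m + t * dot (b - M) m := by
    simp [dot]
    linear_combination (M.re * m.re + M.im * m.im) * hst
  have ha' : 0 < dot (a - M) m := ha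
  have hb' : 0 < dot (b - M) m := hb
  change 0 < dot (s • a + t • b - M) m
  rw [e]
  rcases hs.eq_or_lt with h0 | h0
  · have : t = 1 := by linarith
    rw [← h0, this]; simpa using hb'
  · exact add_pos_of_pos_of_nonneg (mul_pos h0 ha') (mul_nonneg ht hb'.le)

theorem UDs.v_pos (h : UDs Ω lam u l r nT nB φ) {z : ℂ} (hz : z ∈ Ω)
    (hs : rf (mid nT nB) (nphi φ) z ∈ Ω) (hH : 0 < dot (z - mid nT nB) (nphi φ)) :
    u (rf (mid nT nB) (nphi φ) z) < u z := by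
  have hm := norm_nphi φ
  have hMn : Mn Ω lam u := h.toPat.toStr.toMn
  have hv := UD2_helm hMn (mid nT nB) hm
  have hc := UD2_conv hMn (mid nT nB) hm
  have hW : IsOpen ((Ω ∩ rf (mid nT nB) (nphi φ) ⁻¹' Ω) ∩
      {y : ℂ | 0 < dot (y - mid nT nB) (nphi φ)}) :=
    hv.isOpen.inter (isOpen_lt continuous_const (UD2_cont _ _))
  rcases strong_max (hv.mono hW inter_subset_left) hMn.lam_pos.le
    (hc.inter (UD2_half _ _)).isPreconnected (fun y hy => sub_nonneg.2 (h.good y hy.2)) with h1 | h1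
  · exact sub_pos.1 (h1 z ⟨⟨hz, hs⟩, hH⟩)
  · obtain ⟨q, hq, hq', hne⟩ := h.v_ne
    exact absurd (sub_eq_zero.1 (uc hv hMn.lam_pos.le hc.isPreconnected (p := z) ⟨hz, hs⟩
      (Filter.mem_of_superset (hW.mem_nhds ⟨⟨hz, hs⟩, hH⟩) h1) q ⟨hq, hq'⟩)) hne

theorem UDs.on_line (h : UDs Ω lam u l r nT nB φ) {z : ℂ} (hz : z ∈ Ω)
    (h0 : dot (z - mid nT nB) (nphi φ) = 0) : 0 < dot (grad u z) (nphi φ) := by
  have hm := norm_nphi φ
  have hMn : Mn Ω lam u := h.toPat.toStr.toMn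
  have hv := UD2_helm hMn (mid nT nB) hm
  have hc := UD2_conv hMn (mid nT nB) hm
  have hsz := rf_of_dot _ _ _ h0
  have hs : rf (mid nT nB) (nphi φ) z ∈ Ω := by rw [hsz]; exact hz
  obtain ⟨q, hq, hq', hne⟩ := h.v_ne
  obtain ⟨a, ha, e⟩ := contact hv hMn.lam_pos.le hc.isPreconnected (x := z) (q := q) ⟨hz, hs⟩
    ⟨hq, hq'⟩ (sub_ne_zero.2 hne) (by rw [hsz, sub_self]) hm
    (Eventually.of_forall fun y hy => sub_nonneg.2 (h.good y (by
      have : dot (y - mid nT nB) (nphi φ) =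
          dot (y - z) (nphi φ) + dot (z - mid nT nB) (nphi φ) := by
        simp only [dot, Complex.sub_re, Complex.sub_im]; ring
      rw [this, h0, add_zero]; exact hy)))
  rw [grad_sub (hMn.helm.differentiableAt hz)
    ((hMn.helm.of_rf (mid nT nB) hm).differentiableAt hs), grad_rf u _ hm, hsz] at e
  have e1 := congrArg (fun c => dot c (nphi φ)) e
  have e2 := dot_rf_n 0 hm (grad u z)
  have e3 : dot (nphi φ) (nphi φ) = 1 := by rw [dot_self, hm, one_pow]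
  rw [sub_zero, sub_zero] at e2
  generalize nphi φ = m at *
  generalize rf 0 m (grad u z) = G' at *
  generalize grad u z = G at *
  simp only [dot, Complex.sub_re, Complex.sub_im, Complex.mul_re, Complex.mul_im,
    Complex.ofReal_re, Complex.ofReal_im] at *
  have : 2 * (G.re * m.re + G.im * m.im) = a := by linear_combination e1 + e2 + a * e3
  linarith

theorem UD2_touch (h : UDs Ω lam u l r nT nB φ) {x : ℂ} (hx : x ∈ Ω)
    (hs : rf (mid nT nB) (nphi φ) x ∉ Ω) (h0 : u x = 0) {σ : ℝ} (hσ : σ = 1 ∨ σ = -1)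
    (hev : ∀ᶠ z in 𝓝 x, rf (mid nT nB) (nphi φ) z ∉ Ω → 0 ≤ σ * u z) : False := by
  have hm := norm_nphi φ
  have hMn : Mn Ω lam u := h.toPat.toStr.toMn
  have hσ2 : σ * σ = 1 := by rcases hσ with rfl | rfl <;> norm_num
  have hσ0 : σ ≠ 0 := by rcases hσ with rfl | rfl <;> norm_num
  have hσa : |σ| = 1 := by rcases hσ with rfl | rfl <;> norm_num
  obtain ⟨ν, hν, hN⟩ := (hMn.toIsMin.toDom.of_rf (mid nT nB) hm).exists_sep (p := x) hs
  obtain ⟨q, hq, hq0⟩ := hMn.exists_ne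
  obtain ⟨a, ha, e⟩ := contact (hMn.helm.const_mul σ) hMn.lam_pos.le hMn.convex.isPreconnected hx hq
    (mul_ne_zero hσ0 hq0) (by rw [h0, mul_zero]) hν
    (hev.mono fun y hy hd => hy fun hin => absurd (hN y hin) (not_lt.2 hd.le))
  rw [grad_const_mul] at e
  have eg : grad u x = ((σ * a : ℝ) : ℂ) * ν := by
    have : ((σ * σ : ℝ) : ℂ) = 1 := by rw [hσ2]; simp
    push_cast at this ⊢
    linear_combination (σ : ℂ) * e - grad u x * this
  have hn : ‖grad u x‖ = a := by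
    rw [eg, norm_mul, hν, mul_one, Complex.norm_real, Real.norm_eq_abs, abs_mul, hσa, one_mul,
      abs_of_pos ha]
  have hne : grad u x ≠ 0 := by
    intro h1
    rw [h1, norm_zero] at hn
    exact ha.ne hn
  have hsl := h.loc.slope x hx h0 hne
  have e1 : dot (x - mid nT nB) (grad u x) = σ * (a * dot (x - mid nT nB) ν) := by
    rw [eg]; simp [dot]; ring
  rw [hn, e1, abs_mul, hσa, one_mul, abs_mul, abs_of_pos ha, mul_comm] at hsl
  have h1 : dot (x - mid nT nB) ν < Real.pi / 2 :=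
    (le_abs_self _).trans_lt (lt_of_mul_lt_mul_right hsl ha.le)
  obtain ⟨t, ht1, ht2⟩ := exists_between (max_lt h1 (by linarith [Real.pi_pos] : 0 < Real.pi / 2))
  have ht0 : 0 < t := (le_max_right _ _).trans_lt ht1
  have hin : rf (mid nT nB) (nphi φ) (mid nT nB + t * ν) ∈ Ω := by
    refine h.loc.ball_sub ?_
    rw [mem_ball, dist_eq_norm, norm_rf_sub _ hm, add_sub_cancel_left, norm_mul, hν, mul_one,
      Complex.norm_real, Real.norm_eq_abs, abs_of_pos ht0]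
    exact ht2
  have h2 := hN _ hin
  have e3 : dot ν ν = 1 := by rw [dot_self, hν, one_pow]
  have e4 : dot (mid nT nB + t * ν - x) ν = t * dot ν ν - dot (x - mid nT nB) ν := by
    simp [dot]; ring
  rw [e4, e3] at h2
  linarith [(le_max_left _ _).trans_lt ht1]

theorem UDs.no_touch (h : UDs Ω lam u l r nT nB φ) {x : ℂ} (hx : x ∈ Ω)
    (hH : 0 < dot (x - mid nT nB) (nphi φ)) (hs : rf (mid nT nB) (nphi φ) x ∉ Ω) : 0 < u x := by
  have hz := h.toPat.toStr.toMn.lip.zero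
  have h1 := h.good x hH
  rw [hz _ hs] at h1
  refine h1.lt_of_ne fun h0 => UD2_touch h hx hs h0.symm (σ := 1) (Or.inl rfl) ?_
  refine ((isOpen_lt continuous_const (UD2_cont _ _)).eventually_mem hH).mono fun y hy hy' => ?_
  have h2 := h.good y hy
  rwa [hz _ hy', ← one_mul (u y)] at h2

theorem UDs.no_touch' (h : UDs Ω lam u l r nT nB φ) {x : ℂ} (hx : x ∈ Ω)
    (hH : dot (x - mid nT nB) (nphi φ) < 0) (hs : rf (mid nT nB) (nphi φ) x ∉ Ω) : u x < 0 := by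
  have hz := h.toPat.toStr.toMn.lip.zero
  have hm := norm_nphi φ
  have key : ∀ y, dot (y - mid nT nB) (nphi φ) < 0 → rf (mid nT nB) (nphi φ) y ∉ Ω → u y ≤ 0 := by
    intro y hy hy'
    have h1 := h.good (rf (mid nT nB) (nphi φ) y) (by rw [dot_rf_n _ hm]; linarith)
    rwa [rf_rf _ hm, hz _ hy'] at h1
  refine (key x hH hs).lt_of_ne fun h0 => UD2_touch h hx hs h0 (σ := -1) (Or.inr rfl) ?_
  refine ((isOpen_lt (UD2_cont _ _) continuous_const).eventually_mem hH).mono fun y hy hy' => ?_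
  linarith [key y hy hy']

end Pool.Agent.L2K
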