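import Pool.Agent.P.MP_2f6447_an.K.UD2

/-! A boundary point whose mirror image is a boundary point of the same sign. -/

open Set MeasureTheory Filter Topology Complex Metric
open scoped ContDiff ComplexConjugate

namespace Pool.Agent.L2K

variable {Ω U : Set ℂ} {lam : ℝ} {u w f g : ℂ → ℝ}
variable {l r : ℝ → ℝ} {nT nB n φ : ℝ}

theorem UD3_isN (h : Mn Ω lam u) {M m x : ℂ} (hm : ‖m‖ = 1) (hs : rf M m x ∈ frontier Ω) :
    IsN (rf M m ⁻¹' Ω) x (rf 0 m (nu Ω (rf M m x))) := by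
  rw [isN_rf M hm, rf_rf 0 hm]
  exact h.toIsMin.toDom.isN_nu hs

theorem UD3_nu (h : Mn Ω lam u) {M m x : ℂ} (hm : ‖m‖ = 1) {ρ : ℝ} (hρ : 0 < ρ)
    (hx : x ∈ frontier Ω) (hs : rf M m x ∈ frontier Ω)
    (hsub : ∀ z ∈ Ω, z ∈ ball x ρ → rf M m z ∈ Ω) : nu Ω x = rf 0 m (nu Ω (rf M m x)) := by
  have hD := h.toIsMin.toDom
  have h1 := UD3_isN h hm hs
  exact h.noCorner x hx _ _ (hD.isN_nu hx)
    (hD.isN_of_local hρ h1.1 (frontier_subset_closure hx) fun z hz hb => (h1.2 z (hsub z hz hb)).le)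

theorem UD3_seg {x z : ℂ} {δ : ℝ} :
    z ∈ segment ℝ x (x + δ) ↔ ∃ t : ℝ, t ∈ Icc (0 : ℝ) 1 ∧ z = x + ((t * δ : ℝ) : ℂ) := by
  rw [segment_eq_image']
  constructor
  · rintro ⟨t, ht, rfl⟩
    exact ⟨t, ht, by simp [real_smul]⟩
  · rintro ⟨t, ht, rfl⟩
    exact ⟨t, ht, by simp [real_smul]⟩

theorem UD3_flat (h : Mn Ω lam u) {x : ℂ} {δ : ℝ} (hδ : δ ≠ 0)
    (hseg : segment ℝ x (x + δ) ⊆ frontier Ω) : (nu Ω x).re = 0 := by
  have hD := h.toIsMin.toDom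
  have hx : x ∈ frontier Ω := hseg (left_mem_segment ℝ _ _)
  have hy : x + δ ∈ frontier Ω := hseg (right_mem_segment ℝ _ _)
  have hq : x + ((1 / 2 * δ : ℝ) : ℂ) ∈ frontier Ω :=
    hseg (UD3_seg.2 ⟨1 / 2, ⟨by norm_num, by norm_num⟩, rfl⟩)
  have hN := hD.isN_nu hq
  generalize nu Ω (x + ((1 / 2 * δ : ℝ) : ℂ)) = ν at hN
  have h1 := hN.le_of_closure (frontier_subset_closure hx)
  have h2 := hN.le_of_closure (frontier_subset_closure hy)
  simp only [dot, sub_re, sub_im, add_re, add_im, ofReal_re, ofReal_im] at h1 h2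
  have h3 : δ * ν.re = 0 := by linarith
  have h4 : ν.re = 0 := (mul_eq_zero.1 h3).resolve_left hδ
  have h5 : IsN Ω x ν := by
    refine ⟨hN.1, fun z hz => ?_⟩
    have := hN.2 z hz
    simp only [dot, sub_re, sub_im, add_re, add_im, ofReal_re, ofReal_im, h4] at this ⊢
    linarith
  rw [h.noCorner x hx _ _ (hD.isN_nu hx) h5, h4]

theorem UD3_arc (h : Geo Ω l r) {p : ℂ} (ha : Arc l r p) : p ∈ frontier Ω := by
  obtain ⟨a, b⟩ := p
  obtain ⟨h1, h2 | h2⟩ := ha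
  · dsimp only at h1 h2
    rw [h2]
    exact h.left_mem (Ioo_subset_Icc_self h1)
  · dsimp only at h1 h2
    rw [h2]
    exact h.right_mem (Ioo_subset_Icc_self h1)

theorem UD3_cont (M m : ℂ) : Continuous (rf M m) := by
  unfold rf dot
  fun_prop

theorem Str.no_piece (h : Str Ω lam u l r) {M m x : ℂ} (hm : ‖m‖ = 1) {ρ δ : ℝ} (hρ : 0 < ρ)
    (hδ : δ ≠ 0) (hseg : segment ℝ x (x + δ) ⊆ frontier Ω)
    (hsub : ∀ z ∈ Ω, z ∈ ball x ρ → rf M m z ∈ Ω) (ha : Arc l r (rf M m x)) : False := by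
  have hD := h.toMn.toIsMin.toDom
  have hx : x ∈ frontier Ω := hseg (left_mem_segment ℝ _ _)
  have hs := UD3_arc h.toGeo ha
  have hN := UD3_isN h.toMn hm hs
  rw [← UD3_nu h.toMn hm hρ hx hs hsub] at hN
  have hre := UD3_flat h.toMn hδ hseg
  have hev : ∀ᶠ y in 𝓝 x, rf M m y ∈ frontier Ω → Ext Ω (rf M m y) :=
    (UD3_cont M m).continuousAt.eventually (h.toGeo.ext_near ha)
  obtain ⟨σ, hσ, hb⟩ := Metric.eventually_nhds_iff_ball.1 (hev.and (ball_mem_nhds x hρ))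
  have hpos : 0 < |δ| := abs_pos.2 hδ
  obtain ⟨t₀, h0, h1, h2⟩ : ∃ t₀ : ℝ, 0 < t₀ ∧ t₀ ≤ 1 ∧ t₀ * |δ| < σ := by
    refine ⟨min 1 (σ / (2 * |δ|)), lt_min one_pos (by positivity), min_le_left _ _, ?_⟩
    have e1 : min 1 (σ / (2 * |δ|)) * |δ| ≤ σ / (2 * |δ|) * |δ| :=
      mul_le_mul_of_nonneg_right (min_le_right _ _) hpos.le
    have e2 : σ / (2 * |δ|) * |δ| = σ / 2 := by field_simp
    linarith
  have hin : ∀ t ∈ Icc (0 : ℝ) 1, x + ((t * (t₀ * δ) : ℝ) : ℂ) ∈ ball x σ := by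
    intro t ht
    rw [mem_ball, dist_eq_norm, add_sub_cancel_left, norm_real, Real.norm_eq_abs, abs_mul, abs_mul,
      abs_of_nonneg ht.1, abs_of_pos h0]
    have : t * (t₀ * |δ|) ≤ 1 * (t₀ * |δ|) := mul_le_mul_of_nonneg_right ht.2 (by positivity)
    linarith
  have hfr : segment ℝ x (x + ((t₀ * δ : ℝ) : ℂ)) ⊆ frontier (rf M m ⁻¹' Ω) := by
    intro z hz
    obtain ⟨t, ht, rfl⟩ := UD3_seg.1 hz
    have e1 : x + ((t * (t₀ * δ) : ℝ) : ℂ) ∈ frontier Ω :=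
      hseg (UD3_seg.2 ⟨t * t₀, ⟨mul_nonneg ht.1 h0.le, mul_le_one₀ ht.2 h0.le h1⟩, by
        rw [mul_assoc]⟩)
    have e2 := isOpen_ball.inter_closure ⟨(hb _ (hin t ht)).2, frontier_subset_closure e1⟩
    refine (hD.of_rf M hm).mem_frontier_of_isN hN
      (closure_mono (fun y hy => hsub y hy.2 hy.1) e2) ?_
    simp [dot, hre]
  have hc : x + ((1 / 2 * (t₀ * δ) : ℝ) : ℂ) ∈ frontier (rf M m ⁻¹' Ω) :=
    hfr (UD3_seg.2 ⟨1 / 2, ⟨by norm_num, by norm_num⟩, rfl⟩)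
  have he : Ext (rf M m ⁻¹' Ω) (x + ((1 / 2 * (t₀ * δ) : ℝ) : ℂ)) := by
    rw [ext_rf M hm]
    rw [frontier_rf M hm] at hc
    exact (hb _ (hin (1 / 2) ⟨by norm_num, by norm_num⟩)).1 hc
  refine he.2 x _ ?_ hfr ⟨1 / 2, 1 / 2, by norm_num, by norm_num, by norm_num, ?_⟩
  · intro e
    have e1 := congrArg re e
    simp only [add_re, ofReal_re] at e1
    exact mul_ne_zero h0.ne' hδ (by linarith)
  · simp only [real_smul]
    push_cast
    ring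

theorem UD3_side (hD : Dom Ω) {M m x : ℂ} (hH : 0 < dot (x - M) m) (hx : x ∈ frontier Ω)
    (hs : rf M m x ∈ frontier Ω) : 0 ≤ dot (nu Ω x) m := by
  have h1 := (hD.isN_nu hx).le_of_closure (frontier_subset_closure hs)
  have h2 : dot (rf M m x - x) (nu Ω x) = -(2 * dot (x - M) m) * dot (nu Ω x) m := by
    generalize nu Ω x = ν
    simp only [rf, dot, sub_re, sub_im, mul_re, mul_im, ofReal_re, ofReal_im]
    ring
  rw [h2] at h1
  by_contra hc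
  nlinarith [not_le.1 hc]

theorem UD3_dot0 {m : ℂ} (hm : ‖m‖ = 1) (ν : ℂ) : dot (rf 0 m ν) m = -dot ν m := by
  have := dot_rf_n 0 hm ν
  rwa [sub_zero, sub_zero] at this

theorem UD3_neg (m ν : ℂ) : rf 0 m (-ν) = -rf 0 m ν := by
  apply Complex.ext <;> simp [rf, dot] <;> ring

theorem UD3_dotI (φ : ℝ) : dot I (nphi φ) = -Real.sin φ := by simp [dot, nphi]

theorem UD3_dotI' (φ : ℝ) : dot (-I) (nphi φ) = Real.sin φ := by simp [dot, nphi]

theorem UD3_reI (φ : ℝ) : (rf 0 (nphi φ) I).re = 2 * (Real.sin φ * Real.cos φ) := by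
  unfold rf
  rw [sub_zero, UD3_dotI]
  simp only [nphi, sub_re, I_re, mul_re, ofReal_re, ofReal_im]
  ring

theorem UD3_top (h : Str Ω lam u l r) {p : ℂ} (hp : p ∈ frontier Ω) (h1 : p.im = Real.pi) :
    p.re ∈ Icc (l Real.pi) (r Real.pi) ∧ nu Ω p = I := by
  obtain ⟨a, b⟩ := p
  have h2 := ((h.toGeo.mem_frontier _).1 hp).2.1
  dsimp only at h1 h2 ⊢
  subst h1
  exact ⟨h2, h.toGeo.nu_top h.toMn.noCorner h2⟩

theorem UD3_bot (h : Str Ω lam u l r) {p : ℂ} (hp : p ∈ frontier Ω) (h1 : p.im = 0) :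
    p.re ∈ Icc (l 0) (r 0) ∧ nu Ω p = -I := by
  obtain ⟨a, b⟩ := p
  have h2 := ((h.toGeo.mem_frontier _).1 hp).2.1
  dsimp only at h1 h2 ⊢
  subst h1
  exact ⟨h2, h.toGeo.nu_bot h.toMn.noCorner h2⟩

theorem UD3_left (h : Pat Ω lam u l r nT nB) {p : ℂ} (h1 : p.im ∈ Ioo 0 Real.pi)
    (h2 : p.re = l p.im) : (nu Ω p).re < 0 ∧ Gr Ω u p = nu Ω p := by
  obtain ⟨a, b⟩ := p
  dsimp only at h1 h2
  subst h2
  exact ⟨h.toStr.toGeo.nu_left h1, h.sgL b (Ioo_subset_Icc_self h1)⟩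

theorem UD3_right (h : Pat Ω lam u l r nT nB) {p : ℂ} (h1 : p.im ∈ Ioo 0 Real.pi)
    (h2 : p.re = r p.im) : 0 < (nu Ω p).re ∧ Gr Ω u p = -nu Ω p := by
  obtain ⟨a, b⟩ := p
  dsimp only at h1 h2
  subst h2
  exact ⟨h.toStr.toGeo.nu_right h1, h.sgR b (Ioo_subset_Icc_self h1)⟩

theorem UD3_ne (h : Pat Ω lam u l r nT nB) {p : ℂ} (h0 : dot (Gr Ω u p) (nu Ω p) ≠ 0) :
    p ≠ ⟨nT, Real.pi⟩ ∧ p ≠ ⟨nB, 0⟩ := by
  constructor
  · rintro rfl
    rw [ConeT_dot_top h.toStr (Ioo_subset_Icc_self h.memT), h.zT] at h0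
    exact h0 neg_zero
  · rintro rfl
    rw [ConeT_dot_bot h.toStr (Ioo_subset_Icc_self h.memB), h.zB] at h0
    exact h0 neg_zero

theorem UD3_casesN (h : Pat Ω lam u l r nT nB) {p : ℂ} (hp : p ∈ frontier Ω)
    (h0 : 0 < dot (Gr Ω u p) (nu Ω p)) : (p.im = Real.pi ∧ p.re < nT) ∨ (p.im = 0 ∧ p.re < nB) ∨
      (p.im ∈ Ioo 0 Real.pi ∧ p.re = l p.im) := by
  rcases h.bd_cases hp with e | e | e | e
  · exact absurd e (UD3_ne h h0.ne').1
  · exact absurd e (UD3_ne h h0.ne').2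
  · exact e.2
  · exact absurd e.1 h0.le.not_gt

theorem UD3_casesP (h : Pat Ω lam u l r nT nB) {p : ℂ} (hp : p ∈ frontier Ω)
    (h0 : dot (Gr Ω u p) (nu Ω p) < 0) : (p.im = Real.pi ∧ nT < p.re) ∨ (p.im = 0 ∧ nB < p.re) ∨
      (p.im ∈ Ioo 0 Real.pi ∧ p.re = r p.im) := by
  rcases h.bd_cases hp with e | e | e | e
  · exact absurd e (UD3_ne h h0.ne).1
  · exact absurd e (UD3_ne h h0.ne).2
  · exact absurd e.1 h0.le.not_gt
  · exact e.2

theorem UD3_trig (h : UDs Ω lam u l r nT nB φ) : 0 < Real.sin φ ∧ 0 < Real.cos φ := by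
  have h1 := h.phi_mem
  have := Real.pi_pos
  exact ⟨Real.sin_pos_of_pos_of_lt_pi h1.1 (by linarith [h1.2]),
    Real.cos_pos_of_mem_Ioo ⟨by linarith [h1.1], h1.2⟩⟩

theorem UD3_ball {M m x : ℂ} (hH : 0 < dot (x - M) m) {ρ : ℝ} (hρ : 0 < ρ) :
    ∃ σ, 0 < σ ∧ ∀ z ∈ ball x σ, 0 < dot (z - M) m ∧ z ∈ ball x ρ := by
  have hc : Continuous fun z : ℂ => dot (z - M) m := by
    unfold dot
    fun_prop
  exact Metric.eventually_nhds_iff_ball.1
    ((hc.continuousAt.eventually (lt_mem_nhds hH)).and (ball_mem_nhds x hρ))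

theorem UDs.both_neg (h : UDs Ω lam u l r nT nB φ) {x : ℂ}
    (hH : 0 < dot (x - mid nT nB) (nphi φ)) (hx : x ∈ frontier Ω)
    (hs : rf (mid nT nB) (nphi φ) x ∈ frontier Ω) (h1 : 0 < dot (Gr Ω u x) (nu Ω x))
    (h2 : 0 < dot (Gr Ω u (rf (mid nT nB) (nphi φ) x)) (nu Ω (rf (mid nT nB) (nphi φ) x))) :
    Arc l r x ∧ Arc l r (rf (mid nT nB) (nphi φ) x) ∧
      rf 0 (nphi φ) (Gr Ω u (rf (mid nT nB) (nphi φ) x)) = Gr Ω u x := by
  have hP := h.toPat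
  have hS := hP.toStr
  have hm := norm_nphi φ
  obtain ⟨hsin, hcos⟩ := UD3_trig h
  obtain ⟨ρ, c, hρ, -, hn⟩ := hS.toMn.neg_near hx h1
  obtain ⟨σ, hσ, hb⟩ := UD3_ball hH hρ
  have hsub : ∀ z ∈ Ω, z ∈ ball x σ → rf (mid nT nB) (nphi φ) z ∈ Ω := fun z hz hz' =>
    ConeT_mem hS ((h.good z (hb z hz').1).trans_lt (hn z hz (hb z hz').2).1).ne
  have hν := UD3_nu hS.toMn hm hσ hx hs hsub
  have d1 := UD3_side hS.toMn.toIsMin.toDom hH hx hs
  have d2 := d1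
  rw [hν, UD3_dot0 hm] at d2
  have cx := UD3_casesN hP hx h1
  have hre : (nu Ω x).re ≤ 0 := by
    rcases cx with e | e | e
    · rw [(UD3_top hS hx e.1).2]
      simp
    · rw [(UD3_bot hS hx e.1).2]
      simp
    · exact (UD3_left hP e.1 e.2).1.le
  rcases UD3_casesN hP hs h2 with e | e | e
  · rw [hν, (UD3_top hS hs e.1).2, UD3_reI] at hre
    nlinarith [mul_pos hsin hcos]
  · rw [(UD3_bot hS hs e.1).2, UD3_dotI'] at d2
    linarith
  · have ha : Arc l r (rf (mid nT nB) (nphi φ) x) := ⟨e.1, Or.inl e.2⟩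
    rcases cx with k | k | k
    · rw [(UD3_top hS hx k.1).2, UD3_dotI] at d1
      linarith
    · refine (hS.no_piece hm hσ (δ := nB - x.re) (by linarith [k.2]) (fun z hz => ?_) hsub ha).elim
      obtain ⟨t, ht, rfl⟩ := UD3_seg.1 hz
      have k1 := (UD3_bot hS hx k.1).1
      have k2 := hP.memB
      have k3 : x + ((t * (nB - x.re) : ℝ) : ℂ) = ⟨x.re + t * (nB - x.re), 0⟩ := by
        apply Complex.ext
        · simp only [add_re, ofReal_re]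
        · simp only [add_im, ofReal_im, k.1, add_zero]
      rw [k3]
      refine hS.toGeo.bot_mem ⟨?_, ?_⟩
      · nlinarith [k1.1, k.2, ht.1]
      · nlinarith [k2.2, k.2, ht.2]
    · exact ⟨⟨k.1, Or.inl k.2⟩, ha, by
        rw [(UD3_left hP e.1 e.2).2, (UD3_left hP k.1 k.2).2, hν]⟩

theorem UDs.both_pos (h : UDs Ω lam u l r nT nB φ) {x : ℂ}
    (hH : 0 < dot (x - mid nT nB) (nphi φ)) (hx : x ∈ frontier Ω)
    (hs : rf (mid nT nB) (nphi φ) x ∈ frontier Ω) (h1 : dot (Gr Ω u x) (nu Ω x) < 0)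
    (h2 : dot (Gr Ω u (rf (mid nT nB) (nphi φ) x)) (nu Ω (rf (mid nT nB) (nphi φ) x)) < 0) :
    Arc l r x ∧ Arc l r (rf (mid nT nB) (nphi φ) x) ∧
      rf 0 (nphi φ) (Gr Ω u (rf (mid nT nB) (nphi φ) x)) = Gr Ω u x := by
  have hP := h.toPat
  have hS := hP.toStr
  have hm := norm_nphi φ
  obtain ⟨hsin, hcos⟩ := UD3_trig h
  have hxx := rf_rf (mid nT nB) hm x
  obtain ⟨ρ, c, hρ, -, hn⟩ := hS.toMn.pos_near hs h2
  have hH' : 0 < dot (rf (mid nT nB) (nphi φ) x - mid nT nB) (-nphi φ) := by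
    have e1 := dot_rf_n (mid nT nB) hm x
    simp only [dot, neg_re, neg_im] at e1 hH ⊢
    linarith
  obtain ⟨σ, hσ, hb⟩ := UD3_ball hH' hρ
  have hsub : ∀ z ∈ Ω, z ∈ ball (rf (mid nT nB) (nphi φ) x) σ →
      rf (mid nT nB) (nphi φ) z ∈ Ω := by
    intro z hz hz'
    have e1 : 0 < dot (rf (mid nT nB) (nphi φ) z - mid nT nB) (nphi φ) := by
      have e2 := (hb z hz').1
      rw [dot_rf_n _ hm]
      simp only [dot, neg_re, neg_im] at e2 ⊢
      linarith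
    have e3 := h.good _ e1
    rw [rf_rf _ hm] at e3
    exact ConeT_mem hS ((hn z hz (hb z hz').2).1.trans_le e3).ne'
  have hν := UD3_nu hS.toMn hm hσ hs (by rw [hxx]; exact hx) hsub
  rw [hxx] at hν
  have d1 := UD3_side hS.toMn.toIsMin.toDom hH hx hs
  have d2 := UD3_dot0 hm (nu Ω x)
  rw [← hν] at d2
  have cx := UD3_casesP hP hs h2
  have hre : 0 ≤ (nu Ω (rf (mid nT nB) (nphi φ) x)).re := by
    rcases cx with e | e | e
    · rw [(UD3_top hS hs e.1).2]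
      simp
    · rw [(UD3_bot hS hs e.1).2]
      simp
    · exact (UD3_right hP e.1 e.2).1.le
  rcases UD3_casesP hP hx h1 with e | e | e
  · rw [(UD3_top hS hx e.1).2, UD3_dotI] at d1
    linarith
  · rw [hν, (UD3_bot hS hx e.1).2, UD3_neg, neg_re, UD3_reI] at hre
    nlinarith [mul_pos hsin hcos]
  · have ha : Arc l r x := ⟨e.1, Or.inr e.2⟩
    rcases cx with k | k | k
    · generalize hy : rf (mid nT nB) (nphi φ) x = y at *
      refine (hS.no_piece hm hσ (δ := nT - y.re) (by linarith [k.2]) (fun z hz => ?_) hsub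
        (by rw [hxx]; exact ha)).elim
      obtain ⟨t, ht, rfl⟩ := UD3_seg.1 hz
      have k1 := (UD3_top hS hs k.1).1
      have k2 := hP.memT
      have k3 : y + ((t * (nT - y.re) : ℝ) : ℂ) = ⟨y.re + t * (nT - y.re), Real.pi⟩ := by
        apply Complex.ext
        · simp only [add_re, ofReal_re]
        · simp only [add_im, ofReal_im, k.1, add_zero]
      rw [k3]
      refine hS.toGeo.top_mem ⟨?_, ?_⟩
      · nlinarith [k2.1, k.2, ht.2]
      · nlinarith [k1.2, k.2, ht.1]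
    · rw [(UD3_bot hS hs k.1).2, UD3_dotI'] at d2
      linarith
    · exact ⟨ha, ⟨k.1, Or.inr k.2⟩, by
        rw [(UD3_right hP e.1 e.2).2, (UD3_right hP k.1 k.2).2, hν, UD3_neg, rf_rf 0 hm]⟩

end Pool.Agent.L2K
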