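import Pool.Agent.P.MP_2f6447_an.K.UD3

/-! Limit points of the bad sets. -/

open Set MeasureTheory Filter Topology Complex Metric
open scoped ContDiff ComplexConjugate

namespace Pool.Agent.L2K

variable {Ω U : Set ℂ} {lam : ℝ} {u w f g : ℂ → ℝ}
variable {l r : ℝ → ℝ} {nT nB n φ : ℝ}

theorem UD4_cont (h : Mn Ω lam u) : Continuous u := by
  obtain ⟨K, hK⟩ := h.lip.lip
  exact hK.continuous

theorem UD4_rf (M : ℂ) {ψ : ℕ → ℝ} {x : ℕ → ℂ} {p : ℂ} (hψ : Tendsto ψ atTop (𝓝 φ))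
    (hx : Tendsto x atTop (𝓝 p)) :
    Tendsto (fun k => rf M (nphi (ψ k)) (x k)) atTop (𝓝 (rf M (nphi φ) p)) :=
  ((continuous_rf_nphi M).tendsto (p, φ)).comp (hx.prodMk_nhds hψ)

theorem UD4_dot {ι : Type} {F : Filter ι} {a b : ι → ℂ} {A B : ℂ} (ha : Tendsto a F (𝓝 A))
    (hb : Tendsto b F (𝓝 B)) : Tendsto (fun k => dot (a k) (b k)) F (𝓝 (dot A B)) :=
  (Geo1_cont.tendsto (A, B)).comp (ha.prodMk_nhds hb)

theorem UD4_out {x : ℕ → ℂ} {p : ℂ} (hx : Tendsto x atTop (𝓝 p)) (hp : p ∉ closure Ω) :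
    ∀ᶠ k in atTop, x k ∉ Ω := by
  have h1 : (closure Ω)ᶜ ∈ 𝓝 p := isClosed_closure.isOpen_compl.mem_nhds hp
  filter_upwards [hx.eventually h1] with k hk h
  exact hk (subset_closure h)

theorem UD4_front (ho : IsOpen Ω) {p : ℂ} (h1 : p ∈ closure Ω) (h2 : p ∉ Ω) :
    p ∈ frontier Ω := by
  rw [ho.frontier_eq]
  exact ⟨h1, h2⟩

theorem UD4_nonneg (h : Mn Ω lam u) {p : ℂ} (hp : p ∈ frontier Ω)
    (hg : dot (Gr Ω u p) (nu Ω p) < 0) : ∀ᶠ z in 𝓝 p, 0 ≤ u z := by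
  obtain ⟨ρ, c, hρ, -, hz⟩ := h.pos_near hp hg
  filter_upwards [ball_mem_nhds p hρ] with z hb
  by_cases hm : z ∈ Ω
  · exact (hz z hm hb).1.le
  · exact (h.lip.zero z hm).ge

theorem UD4_nonpos (h : Mn Ω lam u) {p : ℂ} (hp : p ∈ frontier Ω)
    (hg : 0 < dot (Gr Ω u p) (nu Ω p)) : ∀ᶠ z in 𝓝 p, u z ≤ 0 := by
  obtain ⟨ρ, c, hρ, -, hz⟩ := h.neg_near hp hg
  filter_upwards [ball_mem_nhds p hρ] with z hb
  by_cases hm : z ∈ Ω
  · exact (hz z hm hb).1.le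
  · exact (h.lip.zero z hm).le

theorem UD4_sign (h : Pat Ω lam u l r nT nB) {p : ℂ} (hp : p ∈ frontier Ω)
    (h1 : p ≠ ⟨nT, Real.pi⟩) (h2 : p ≠ ⟨nB, 0⟩) :
    0 < dot (Gr Ω u p) (nu Ω p) ∨ dot (Gr Ω u p) (nu Ω p) < 0 := by
  rcases h.bd_cases hp with e | e | e | e
  · exact absurd e h1
  · exact absurd e h2
  · exact Or.inl e.1
  · exact Or.inr e.1

theorem UD4_ge (h : UDs Ω lam u l r nT nB φ) {p : ℂ} (hp : p ∈ closure Ω)
    (h0 : dot (p - mid nT nB) (nphi φ) = 0) : 0 ≤ dot (Gr Ω u p) (nphi φ) := by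
  have hM : mid nT nB ∈ Ω := h.loc.mid_mem
  have hmem : ∀ t : ℝ, t ∈ Ioo (0 : ℝ) 1 → p + t • (mid nT nB - p) ∈ Ω := by
    intro t ht
    have hi : mid nT nB ∈ interior Ω := by rwa [h.isOpen.interior_eq]
    have := h.convex.add_smul_sub_mem_interior' hp hi ⟨ht.1, ht.2.le⟩
    rwa [h.isOpen.interior_eq] at this
  have hc : Continuous fun t : ℝ => p + t • (mid nT nB - p) := by fun_prop
  have h1 : Tendsto (fun t : ℝ => p + t • (mid nT nB - p)) (𝓝[>] 0) (𝓝[Ω] p) := by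
    rw [tendsto_nhdsWithin_iff]
    constructor
    · have := (hc.tendsto 0).mono_left (nhdsWithin_le_nhds (s := Ioi 0))
      simpa using this
    · filter_upwards [Ioo_mem_nhdsGT (zero_lt_one' ℝ)] with t ht
      exact hmem t ht
  have h2 := UD4_dot ((h.toMn.tendsto_Gr hp).comp h1)
    (tendsto_const_nhds (x := nphi φ) (f := 𝓝[>] (0 : ℝ)))
  refine ge_of_tendsto h2 ?_
  filter_upwards [Ioo_mem_nhdsGT (zero_lt_one' ℝ)] with t ht
  refine (h.on_line (hmem t ht) ?_).le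
  have e : dot (p + t • (mid nT nB - p) - mid nT nB) (nphi φ)
      = (1 - t) * dot (p - mid nT nB) (nphi φ) := by
    simp only [dot, sub_re, sub_im, add_re, add_im, smul_re, smul_im, smul_eq_mul]
    ring
  rw [e, h0, mul_zero]

theorem UDs.limit_line (h : UDs Ω lam u l r nT nB φ) {ψ : ℕ → ℝ} {x : ℕ → ℂ} {p : ℂ}
    (hψ : Tendsto ψ atTop (𝓝 φ)) (hx : Tendsto x atTop (𝓝 p))
    (hb : ∀ k, x k ∈ Bad u (mid nT nB) (nphi (ψ k))) (h0 : dot (p - mid nT nB) (nphi φ) = 0) :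
    Arc l r p ∧ dot (Gr Ω u p) (nphi φ) = 0 := by
  have hy := UD4_rf (mid nT nB) hψ hx
  rw [rf_of_dot _ _ _ h0] at hy
  have hcl : p ∈ closure Ω := by
    by_contra hn
    obtain ⟨k, h1, h2⟩ := ((UD4_out hx hn).and (UD4_out hy hn)).exists
    have := (hb k).2
    rw [h.lip.zero _ h1, h.lip.zero _ h2] at this
    exact lt_irrefl _ this
  have hge := UD4_ge h hcl h0
  have hle : dot (Gr Ω u p) (nphi φ) ≤ 0 := by
    by_contra hn
    push Not at hn
    have hm : Tendsto (fun k => nphi (ψ k)) atTop (𝓝 (nphi φ)) :=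
      (continuous_nphi.tendsto φ).comp hψ
    have h1 : Tendsto (fun q : ℂ × ℕ => dot (grad u q.1) (nphi (ψ q.2)))
        (𝓝[Ω] p ×ˢ atTop) (𝓝 (dot (Gr Ω u p) (nphi φ))) :=
      UD4_dot ((h.toMn.tendsto_Gr hcl).comp tendsto_fst) (hm.comp tendsto_snd)
    obtain ⟨pa, ha, pb, hb', hab⟩ := eventually_prod_iff.1 (h1.eventually (lt_mem_nhds hn))
    rw [eventually_nhdsWithin_iff, Metric.eventually_nhds_iff_ball] at ha
    obtain ⟨ρ, hρ, ha⟩ := ha
    obtain ⟨k, ⟨h2, h3⟩, h4⟩ := (((hx.eventually (ball_mem_nhds p hρ)).and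
      (hy.eventually (ball_mem_nhds p hρ))).and hb').exists
    have e := rf_add (mid nT nB) (nphi (ψ k)) (x k)
    have h5 := h.toMn.mono_dir (x := p) (m := nphi (ψ k)) (ρ := ρ)
      (p := rf (mid nT nB) (nphi (ψ k)) (x k)) (t := 2 * dot (x k - mid nT nB) (nphi (ψ k)))
      (fun z hz hz' => (hab (ha z hz' hz) h4).le) (by have := (hb k).1; linarith) h3
      (by rw [← e]; exact h2)
    rw [← e] at h5
    exact absurd (hb k).2 (not_lt.2 h5)
  have hz : dot (Gr Ω u p) (nphi φ) = 0 := le_antisymm hle hge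
  refine ⟨?_, hz⟩
  have hnot : p ∉ Ω := by
    intro hp
    have := h.on_line hp h0
    rw [← h.toMn.Gr_eq hp, hz] at this
    exact lt_irrefl _ this
  have hfr := UD4_front h.isOpen hcl hnot
  have h1 : p ≠ ⟨nT, Real.pi⟩ := by
    intro e
    have := h.dot_nT
    rw [← e, h0] at this
    exact lt_irrefl _ this
  have h2 : p ≠ ⟨nB, 0⟩ := by
    intro e
    have := h.dot_nB
    rw [← e, h0] at this
    exact lt_irrefl _ this
  refine h.toStr.arc_of_re_ne hfr ?_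
  intro hre
  have hs : 0 < Real.sin φ :=
    Real.sin_pos_of_pos_of_lt_pi h.phi_mem.1 (by have := h.phi_mem.2; linarith [Real.pi_pos])
  have him : (Gr Ω u p).im = 0 := by
    have e : (Gr Ω u p).im * Real.sin φ = 0 := by
      simp only [dot, nphi, hre, zero_mul, zero_add] at hz
      linarith
    exact (mul_eq_zero.1 e).resolve_right hs.ne'
  have e : dot (Gr Ω u p) (nu Ω p) = 0 := by
    simp only [dot, hre, him, zero_mul, add_zero]
  rcases UD4_sign h.toPat hfr h1 h2 with h3 | h3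
  · exact absurd e h3.ne'
  · exact absurd e h3.ne

theorem UDs.limit_in (h : UDs Ω lam u l r nT nB φ) {ψ : ℕ → ℝ} {x : ℕ → ℂ} {p : ℂ}
    (hψ : Tendsto ψ atTop (𝓝 φ)) (hx : Tendsto x atTop (𝓝 p))
    (hb : ∀ k, x k ∈ Bad u (mid nT nB) (nphi (ψ k))) (h0 : 0 < dot (p - mid nT nB) (nphi φ)) :
    Arc l r p ∧ Arc l r (rf (mid nT nB) (nphi φ) p) ∧
      rf 0 (nphi φ) (Gr Ω u (rf (mid nT nB) (nphi φ) p)) = Gr Ω u p := by
  have hu := UD4_cont h.toMn
  have hn := norm_nphi φ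
  have hy := UD4_rf (mid nT nB) hψ hx
  have hs : Continuous (rf (mid nT nB) (nphi φ)) := (isometry_rf _ hn).continuous
  have hss := rf_rf (mid nT nB) hn p
  have hpos : ∀ᶠ z in 𝓝 p, 0 < dot (z - mid nT nB) (nphi φ) :=
    ((ExtG_cont (mid nT nB) (nphi φ)).tendsto p).eventually (lt_mem_nhds h0)
  have hle : u p ≤ u (rf (mid nT nB) (nphi φ) p) :=
    le_of_tendsto_of_tendsto' ((hu.tendsto _).comp hx) ((hu.tendsto _).comp hy)
      fun k => (hb k).2.le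
  have hge := h.good p h0
  have hp1 : p ∉ Ω := by
    intro hp
    by_cases hq : rf (mid nT nB) (nphi φ) p ∈ Ω
    · exact absurd (h.v_pos hp hq h0) (not_lt.2 hle)
    · have := h.no_touch hp h0 hq
      rw [h.lip.zero _ hq] at hle
      linarith
  have hq1 : rf (mid nT nB) (nphi φ) p ∉ Ω := by
    intro hq
    have := h.no_touch' hq (by rw [dot_rf_n _ hn]; linarith) (by rw [hss]; exact hp1)
    rw [h.lip.zero _ hp1] at hle
    linarith
  have hq2 : rf (mid nT nB) (nphi φ) p ∈ closure Ω := by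
    by_contra hc
    obtain ⟨k, ⟨h1, h2⟩, h3⟩ := (((UD4_out hy hc).and
      (UD4_out ((hs.tendsto p).comp hx) hc)).and (hx.eventually hpos)).exists
    have h4 := h.good _ h3
    have h5 := (hb k).2
    rw [h.lip.zero _ h1] at h5
    rw [h.lip.zero (rf (mid nT nB) (nphi φ) (x k)) h2] at h4
    linarith
  have hp2 : p ∈ closure Ω := by
    by_contra hc
    have hw := (hs.tendsto _).comp hy
    rw [hss] at hw
    obtain ⟨k, ⟨h1, h2⟩, h3⟩ := (((UD4_out hx hc).and (UD4_out hw hc)).and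
      (hw.eventually hpos)).exists
    have h4 := h.good _ h3
    have h5 := (hb k).2
    rw [h.lip.zero _ h1] at h5
    rw [h.lip.zero _ h2] at h4
    simp only [Function.comp_apply] at h4
    rw [rf_rf _ hn] at h4
    linarith
  have hpf := UD4_front h.isOpen hp2 hp1
  have hqf := UD4_front h.isOpen hq2 hq1
  have a1 : p ≠ ⟨nT, Real.pi⟩ := fun e => hq1 (e ▸ h.rf_nT)
  have a2 : p ≠ ⟨nB, 0⟩ := fun e => hq1 (e ▸ h.rf_nB)
  have b1 : rf (mid nT nB) (nphi φ) p ≠ ⟨nT, Real.pi⟩ := by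
    intro e
    have := h.rf_nT
    rw [← e, hss] at this
    exact hp1 this
  have b2 : rf (mid nT nB) (nphi φ) p ≠ ⟨nB, 0⟩ := by
    intro e
    have := h.rf_nB
    rw [← e, hss] at this
    exact hp1 this
  rcases UD4_sign h.toPat hpf a1 a2 with c1 | c1 <;>
    rcases UD4_sign h.toPat hqf b1 b2 with c2 | c2
  · exact h.both_neg h0 hpf hqf c1 c2
  · exfalso
    obtain ⟨ρ, c, hρ, -, hz⟩ := h.toMn.neg_near hpf c1
    have h1 := (hs.tendsto p).eventually (UD4_nonneg h.toMn hqf c2)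
    have h2 : ∀ᶠ z in 𝓝 p, z ∈ ball p ρ := ball_mem_nhds p hρ
    obtain ⟨z, hz1, ⟨hz2, hz3⟩, hz4⟩ :=
      ((mem_closure_iff_frequently.1 hp2).and_eventually ((h1.and h2).and hpos)).exists
    have h3 := (hz z hz1 hz3).1
    have h4 := h.good z hz4
    linarith
  · exfalso
    obtain ⟨k, h1, h2⟩ := ((hx.eventually (UD4_nonneg h.toMn hpf c1)).and
      (hy.eventually (UD4_nonpos h.toMn hqf c2))).exists
    have h3 := (hb k).2
    linarith
  · exact h.both_pos h0 hpf hqf c1 c2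

theorem UDs.limit_pt (h : UDs Ω lam u l r nT nB φ) {ψ : ℕ → ℝ} {x : ℕ → ℂ} {p : ℂ}
    (hψ : Tendsto ψ atTop (𝓝 φ)) (hx : Tendsto x atTop (𝓝 p))
    (hb : ∀ k, x k ∈ Bad u (mid nT nB) (nphi (ψ k))) :
    Arc l r p ∧ Arc l r (rf (mid nT nB) (nphi φ) p) ∧
      rf 0 (nphi φ) (Gr Ω u (rf (mid nT nB) (nphi φ) p)) = Gr Ω u p := by
  have hm : Tendsto (fun k => nphi (ψ k)) atTop (𝓝 (nphi φ)) :=
    (continuous_nphi.tendsto φ).comp hψ
  have hge : 0 ≤ dot (p - mid nT nB) (nphi φ) :=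
    ge_of_tendsto' (UD4_dot (hx.sub_const (mid nT nB)) hm) fun k => (hb k).1.le
  rcases hge.eq_or_lt with h0 | h0
  · obtain ⟨h1, h2⟩ := h.limit_line hψ hx hb h0.symm
    rw [rf_of_dot _ _ _ h0.symm]
    exact ⟨h1, h1, rf_of_dot _ _ _ (by rw [sub_zero]; exact h2)⟩
  · exact h.limit_in hψ hx hb h0

end Pool.Agent.L2K
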