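import Pool.Agent.P.MP_2f6447_an.K.Win
import Pool.Agent.P.MP_2f6447_an.K.Kill2
import Pool.Agent.P.MP_2f6447_an.K.Kill3

/-! The Killing identity excludes a bad set near the arcs. -/

open Set MeasureTheory Filter Topology Complex Metric
open scoped ContDiff ComplexConjugate

namespace Pool.Agent.L2K

variable {Ω U : Set ℂ} {lam : ℝ} {u w f g : ℂ → ℝ}
variable {l r : ℝ → ℝ} {nT nB n φ : ℝ}

/-- a frontier point strictly between the two walls is extreme -/
theorem UD5_ext (h : Geo Ω l r) {z : ℂ} (hz : z ∈ frontier Ω) (hi : z.im ∈ Ioo 0 Real.pi) :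
    Ext Ω z := by
  obtain ⟨a1, -, a3⟩ := (h.mem_frontier z).1 hz
  refine (h.ext_iff z).2 ⟨a1, ?_⟩
  rcases a3 with a | a | a | a
  · exact absurd a hi.1.ne'
  · exact absurd a hi.2.ne
  · exact Or.inl a
  · exact Or.inr a

/-- a segment that leaves an open set meets its frontier -/
theorem UD5_seg {E : Set ℂ} (hE : IsOpen E) {z M : ℂ} (hz : z ∈ E) (hM : M ∉ E) :
    ∃ p ∈ segment ℝ z M, p ∈ frontier E := by
  by_contra hc
  push Not at hc
  have hs : segment ℝ z M ⊆ E := by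
    refine (convex_segment z M).isPreconnected.subset_of_closure_inter_subset hE
      ⟨z, left_mem_segment ℝ z M, hz⟩ ?_
    rintro p ⟨hp1, hp2⟩
    by_contra hp
    exact hc p hp2 (by rw [hE.frontier_eq]; exact ⟨hp1, hp⟩)
  exact hM (hs (right_mem_segment ℝ z M))

theorem UD5_dot (a z : ℂ) : dot a (kill (-1) 0 z) = -a.re := by
  simp [dot, kill]

theorem Pat.kill_ud (h : Pat Ω lam u l r nT nB) {M m : ℂ} (hm : ‖m‖ = 1) (hM : M ∈ Ω)
    (hne : (Bad u M m).Nonempty)
    (h1 : ∀ z ∈ closure (Bad u M m), z.im ∈ Ioo 0 Real.pi ∧ (rf M m z).im ∈ Ioo 0 Real.pi ∧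
      (z ∈ Ω → u z ≠ 0 ∧ (grad u z).re < 0) ∧
      (rf M m z ∈ Ω → u (rf M m z) ≠ 0 ∧ (rf 0 m (grad u (rf M m z))).re < 0)) : False := by
  have hmn : Mn Ω lam u := h.toMn
  have hg : Geo Ω l r := h.toGeo
  have hmn' : Mn (rf M m ⁻¹' Ω) lam fun z => u (rf M m z) := hmn.of_rf M hm
  have hu : Continuous u := hmn.lip.continuous
  have hEo : IsOpen (Bad u M m) := isOpen_bad hu M hm
  have e1 : ∀ z ∈ closure (Bad u M m), z ∈ frontier Ω → Ext Ω z := fun z hz hf =>
    UD5_ext hg hf (h1 z hz).1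
  have e2 : ∀ z ∈ closure (Bad u M m), z ∈ frontier (rf M m ⁻¹' Ω) → Ext (rf M m ⁻¹' Ω) z := by
    intro z hz hf
    rw [frontier_rf M hm] at hf
    exact (ext_rf M hm z).2 (UD5_ext hg hf (h1 z hz).2.1)
  have hE : KE (rf M m ⁻¹' Ω) Ω (fun z => u (rf M m z)) u (Bad u M m) :=
    ⟨hEo, fun z hz => hz.2, fun z hz => bad_frontier hu M hm hz,
      fun p hp hpE => e2 p (subset_closure hpE) hp, fun p hp hpE => e1 p (subset_closure hpE) hp⟩
  have hMM : rf M m M = M := rf_of_dot M m M (by simp [dot])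
  have hM' : M ∈ rf M m ⁻¹' Ω := by rw [mem_preimage, hMM]; exact hM
  have hME : M ∉ Bad u M m := fun hc => by
    have := hc.1
    simp [dot] at this
  obtain ⟨z, hz⟩ := hne
  obtain ⟨p, hps, hp⟩ := UD5_seg hEo hz hME
  have hpc : p ∈ closure (Bad u M m) := frontier_subset_closure hp
  have hpe : u (rf M m p) = u p := bad_frontier hu M hm hp
  have hboth : p ∈ rf M m ⁻¹' Ω ∧ p ∈ Ω := by
    rcases KE.subset hmn'.lip hmn.lip hE hz with hz' | hz'
    · have a : p ∈ rf M m ⁻¹' Ω := hmn'.convex.segment_subset hz' hM' hps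
      refine ⟨a, ?_⟩
      by_contra hc
      exact ((h1 p hpc).2.2.2 a).1 (hpe.trans (hmn.lip.zero p hc))
    · have a : p ∈ Ω := hmn.convex.segment_subset hz' hM hps
      refine ⟨?_, a⟩
      by_contra hc
      exact ((h1 p hpc).2.2.1 a).1 (hpe.symm.trans (hmn.lip.zero _ hc))
  have hd : ∀ z ∈ closure (Bad u M m), z ∈ rf M m ⁻¹' Ω → z ∈ Ω →
      0 < dot (grad (fun z => u (rf M m z)) z + grad u z) (kill (-1) 0 z) := by
    intro z hz a b
    rw [UD5_dot, grad_rf u M hm, add_re]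
    have c1 := ((h1 z hz).2.2.1 b).2
    have c2 := ((h1 z hz).2.2.2 a).2
    linarith
  refine kill_main hmn' hmn hE (-1) 0 (fun z hz a b => (hd z (subset_closure hz) a b).le) hp
    hboth.1 hboth.2 (hd p hpc hboth.1 hboth.2) (fun ε hε => ?_) (fun ε hε => ?_)
  · refine hmn'.lens_ge (K := closure (Bad u M m) ∩ closure (rf M m ⁻¹' Ω))
      (hmn'.bdd.isCompact_closure.inter_left isClosed_closure) inter_subset_right ?_ ?_ (-1) 0 hε
    · rintro z ⟨a, b⟩ c
      refine e2 z a ?_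
      rw [hmn'.isOpen.frontier_eq]
      exact ⟨b, fun d => ((h1 z a).2.2.2 d).1 c⟩
    · rintro z ⟨a, b, -⟩
      exact ⟨⟨subset_closure a, subset_closure b⟩, b⟩
  · refine hmn.lens_ge (K := closure (Bad u M m) ∩ closure Ω)
      (hmn.bdd.isCompact_closure.inter_left isClosed_closure) inter_subset_right ?_ ?_ (-1) 0 hε
    · rintro z ⟨a, b⟩ c
      refine e1 z a ?_
      rw [hmn.isOpen.frontier_eq]
      exact ⟨b, fun d => ((h1 z a).2.2.1 d).1 c⟩
    · rintro z ⟨a, b, -⟩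
      exact ⟨⟨subset_closure a, subset_closure b⟩, b⟩

end Pool.Agent.L2K
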