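import Pool.Agent.P.MP_2f6447_an.K.UD4
import Pool.Agent.P.MP_2f6447_an.K.UD5

/-! The good angles form an open set. -/

open Set MeasureTheory Filter Topology Complex Metric
open scoped ContDiff ComplexConjugate

namespace Pool.Agent.L2K

variable {Ω U : Set ℂ} {lam : ℝ} {u w f g : ℂ → ℝ}
variable {l r : ℝ → ℝ} {nT nB n φ : ℝ}

theorem UD6_bdd (h : Mn Ω lam u) (M : ℂ) :
    ∃ R : ℝ, ∀ m : ℂ, ‖m‖ = 1 → Bad u M m ⊆ closedBall M R := by
  obtain ⟨R, hR⟩ := h.bdd.subset_closedBall M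
  refine ⟨R, fun m hm x hx => ?_⟩
  by_cases h1 : x ∈ Ω
  · exact hR h1
  · have h2 : rf M m x ∈ Ω := by
      by_contra h2
      have := hx.2
      rw [h.lip.zero _ h1, h.lip.zero _ h2] at this
      exact lt_irrefl _ this
    have h3 := hR h2
    rw [mem_closedBall, dist_eq_norm] at h3 ⊢
    rwa [norm_rf_sub M hm] at h3

theorem UDs.uniform (h : UDs Ω lam u l r nT nB φ) {P : ℂ × ℝ → Prop}
    (hP : ∀ p, Arc l r p → Arc l r (rf (mid nT nB) (nphi φ) p) →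
      rf 0 (nphi φ) (Gr Ω u (rf (mid nT nB) (nphi φ) p)) = Gr Ω u p → ∀ᶠ q in 𝓝 (p, φ), P q) :
    ∀ᶠ ψ in 𝓝 φ, ∀ z ∈ closure (Bad u (mid nT nB) (nphi ψ)), P (z, ψ) := by
  by_contra hc
  rw [Filter.not_eventually] at hc
  obtain ⟨ψ, hψ, hb⟩ := Filter.exists_seq_forall_of_frequently hc
  have hb' : ∀ k, ∃ z, z ∈ closure (Bad u (mid nT nB) (nphi (ψ k))) ∧ ¬ P (z, ψ k) := by
    intro k
    by_contra hn
    exact hb k fun z hz => by
      by_contra hq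
      exact hn ⟨z, hz, hq⟩
  choose z hz hzP using hb'
  have hx : ∀ k : ℕ, ∃ x ∈ Bad u (mid nT nB) (nphi (ψ k)), dist (z k) x < 1 / ((k : ℝ) + 1) :=
    fun k => Metric.mem_closure_iff.1 (hz k) _ (by positivity)
  choose x hxb hxd using hx
  obtain ⟨R, hR⟩ := UD6_bdd h.toMn (mid nT nB)
  obtain ⟨p, -, s, hs, hp⟩ := (isCompact_closedBall (mid nT nB) R).tendsto_subseq
    (x := x) fun k => hR _ (norm_nphi _) (hxb k)
  have hψs : Tendsto (fun k => ψ (s k)) atTop (𝓝 φ) := hψ.comp hs.tendsto_atTop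
  obtain ⟨a1, a2, a3⟩ := h.limit_pt (ψ := fun k => ψ (s k)) (x := x ∘ s) hψs hp fun k => hxb (s k)
  have hd : Tendsto (fun k => dist ((x ∘ s) k) (z (s k))) atTop (𝓝 0) := by
    have h0 : Tendsto (fun k => 1 / (((s k : ℕ) : ℝ) + 1)) atTop (𝓝 0) :=
      (tendsto_one_div_add_atTop_nhds_zero_nat (𝕜 := ℝ)).comp hs.tendsto_atTop
    refine squeeze_zero (fun k => dist_nonneg) (fun k => ?_) h0
    rw [dist_comm]
    exact (hxd (s k)).le
  have hzs : Tendsto (fun k => z (s k)) atTop (𝓝 p) := hp.congr_dist hd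
  obtain ⟨k, hk⟩ := ((hzs.prodMk_nhds hψs).eventually (hP p a1 a2 a3)).exists
  exact hzP (s k) hk

theorem UD6_ne (h : Pat Ω lam u l r nT nB) {p : ℂ} (hp : Arc l r p) :
    ∀ᶠ z in 𝓝 p, z ∈ Ω → u z ≠ 0 := by
  have hf : p ∈ frontier Ω := ((h.toGeo.ext_iff p).mpr ⟨Ioo_subset_Icc_self hp.1, hp.2⟩).1
  have h1 : p ≠ ⟨nT, Real.pi⟩ := by
    intro e
    have := hp.1.2
    rw [e] at this
    exact lt_irrefl _ this
  have h2 : p ≠ ⟨nB, 0⟩ := by
    intro e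
    have := hp.1.1
    rw [e] at this
    exact lt_irrefl _ this
  have h3 := h.arc_not_N hf h1 h2
  filter_upwards [isClosed_closure.isOpen_compl.mem_nhds h3] with z hz hzΩ h0
  exact hz (subset_closure ⟨hzΩ, h0⟩)

theorem UD6_gr (h : Pat Ω lam u l r nT nB) {p : ℂ} (hp : Arc l r p) {Q : ℂ → Prop}
    (hQ : ∀ᶠ G in 𝓝 (Gr Ω u p), Q G) : ∀ᶠ z in 𝓝 p, z ∈ Ω → Q (grad u z) := by
  have hf : p ∈ frontier Ω := ((h.toGeo.ext_iff p).mpr ⟨Ioo_subset_Icc_self hp.1, hp.2⟩).1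
  exact eventually_nhdsWithin_iff.1
    ((h.toMn.tendsto_Gr (frontier_subset_closure hf)).eventually hQ)

theorem UDs.open_good (h : UDs Ω lam u l r nT nB φ) :
    ∀ᶠ ψ in 𝓝 φ, Good u (mid nT nB) (nphi ψ) := by
  have key := h.uniform (P := fun q => q.1.im ∈ Ioo 0 Real.pi ∧
      (rf (mid nT nB) (nphi q.2) q.1).im ∈ Ioo 0 Real.pi ∧
      (q.1 ∈ Ω → u q.1 ≠ 0 ∧ (grad u q.1).re < 0) ∧
      (rf (mid nT nB) (nphi q.2) q.1 ∈ Ω → u (rf (mid nT nB) (nphi q.2) q.1) ≠ 0 ∧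
        (rf 0 (nphi q.2) (grad u (rf (mid nT nB) (nphi q.2) q.1))).re < 0)) ?_
  · filter_upwards [key] with ψ hψ
    rw [good_iff]
    intro hne
    exact h.toPat.kill_ud (norm_nphi ψ) h.loc.mid_mem hne hψ
  · intro p a1 a2 a3
    have t1 : Tendsto (fun q : ℂ × ℝ => q.1) (𝓝 (p, φ)) (𝓝 p) := continuous_fst.tendsto _
    have t2 : Tendsto (fun q : ℂ × ℝ => q.2) (𝓝 (p, φ)) (𝓝 φ) := continuous_snd.tendsto _
    have t3 : Tendsto (fun q : ℂ × ℝ => rf (mid nT nB) (nphi q.2) q.1) (𝓝 (p, φ))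
        (𝓝 (rf (mid nT nB) (nphi φ) p)) := (continuous_rf_nphi (mid nT nB)).tendsto (p, φ)
    have hi : ∀ a : ℂ, Arc l r a → ∀ᶠ z in 𝓝 a, z.im ∈ Ioo 0 Real.pi := fun a ha =>
      (continuous_im.tendsto a).eventually (isOpen_Ioo.mem_nhds ha.1)
    have hneg := h.toPat.arc_re_neg a1
    have g1 : ∀ᶠ G : ℂ in 𝓝 (Gr Ω u p), G.re < 0 :=
      (continuous_re.tendsto _).eventually (isOpen_Iio.mem_nhds hneg)
    have g2 : ∀ᶠ q : ℂ × ℝ in 𝓝 (Gr Ω u (rf (mid nT nB) (nphi φ) p), φ),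
        (rf 0 (nphi q.2) q.1).re < 0 := by
      refine ((continuous_re.comp (continuous_rf_nphi 0)).tendsto _).eventually
        (isOpen_Iio.mem_nhds ?_)
      show (rf 0 (nphi φ) (Gr Ω u (rf (mid nT nB) (nphi φ) p))).re < 0
      rw [a3]
      exact hneg
    rw [nhds_prod_eq, eventually_prod_iff] at g2
    obtain ⟨pa, hpa, pb, hpb, hab⟩ := g2
    filter_upwards [t1.eventually (hi p a1), t3.eventually (hi _ a2),
      t1.eventually (UD6_ne h.toPat a1), t1.eventually (UD6_gr h.toPat a1 g1),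
      t3.eventually (UD6_ne h.toPat a2), t3.eventually (UD6_gr h.toPat a2 hpa),
      t2.eventually hpb] with q q1 q2 q3 q4 q5 q6 q7
    exact ⟨q1, q2, fun hq => ⟨q3 hq, q4 hq⟩, fun hq => ⟨q5 hq, hab (q6 hq) q7⟩⟩

end Pool.Agent.L2K
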