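import Pool.Agent.P.MP_2f6447_an.K.UD1
import Pool.Agent.P.MP_2f6447_an.K.UD6

/-! End of the rotation: all angles are good, the two ends of the nodal line lie over each other,
the domain and `u` are symmetric in the midline, and the angular derivative has a sign. -/

open Set MeasureTheory Filter Topology Complex Metric
open scoped ContDiff ComplexConjugate

namespace Pool.Agent.L2K

variable {Ω U : Set ℂ} {lam : ℝ} {u w f g : ℂ → ℝ}
variable {l r : ℝ → ℝ} {nT nB n φ : ℝ}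

theorem Pat.good_all (h : Pat Ω lam u l r nT nB) (hL : Loc Ω u nT nB) (hle : nT ≤ nB)
    (hφ : φ ∈ Ioc 0 (phis nT nB)) : Good u (mid nT nB) (nphi φ) := by
  have hs := h.good_small hL hle
  have hs2 : ∀ᶠ ψ in 𝓝[>] (0 : ℝ), ψ ∈ Ioo 0 φ := Ioo_mem_nhdsGT hφ.1
  obtain ⟨a, ha, ha'⟩ := (hs.and hs2).exists
  have hc := isClosed_good h.lip.continuous (mid nT nB)
  have key : Icc a φ ⊆ {ψ : ℝ | Good u (mid nT nB) (nphi ψ)} := by
    refine IsClosed.Icc_subset_of_forall_mem_nhdsWithin (hc.inter isClosed_Icc) ha ?_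
    intro x hx
    have hU : UDs Ω lam u l r nT nB x :=
      ⟨h, hL, hle, ha'.1.trans_le hx.2.1, hx.2.2.trans_le hφ.2, hx.1⟩
    exact mem_nhdsWithin_of_mem_nhds hU.open_good
  exact key ⟨ha'.2.le, le_rfl⟩

theorem UD7_norm (a b : ℝ) (t φ : ℝ) (ht : 0 ≤ t) (σ : ℝ) (hσ : σ ^ 2 = 1) :
    dist (⟨a + σ * (t * Real.cos φ), b - σ * (t * Real.sin φ)⟩ : ℂ) ⟨a, b⟩ = t := by
  rw [Complex.dist_eq_re_im]
  have e : (a + σ * (t * Real.cos φ) - a) ^ 2 + (b - σ * (t * Real.sin φ) - b) ^ 2 = t ^ 2 := by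
    have := Real.sin_sq_add_cos_sq φ
    linear_combination (t ^ 2 * (Real.sin φ ^ 2 + Real.cos φ ^ 2)) * hσ + t ^ 2 * this
  simp only [e, Real.sqrt_sq ht]

theorem Pat.ends_eq (h : Pat Ω lam u l r nT nB) (hL : Loc Ω u nT nB) (hle : nT ≤ nB) :
    nT = nB := by
  by_contra hne
  have hlt : nT < nB := lt_of_le_of_ne hle hne
  have h0 := (phis_mem hle).1
  have h1 := phis_lt_half hlt
  have hg := h.good_all hL hle ⟨h0, le_rfl⟩
  have hr := rf_phis nT nB
  generalize phis nT nB = φ at h0 h1 hg hr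
  have hs : 0 < Real.sin φ := Real.sin_pos_of_pos_of_lt_pi h0 (by linarith [Real.pi_pos])
  have hc : 0 < Real.cos φ := Real.cos_pos_of_mem_Ioo ⟨by linarith [Real.pi_pos], h1⟩
  obtain ⟨ρ₁, hρ₁, c1⟩ := h.coneT hL.dT (div_pos hc hs)
  obtain ⟨ρ₂, hρ₂, c2⟩ := h.coneB hL.dB (div_pos hc hs)
  obtain ⟨t, ht0, ht1, ht2, ht3⟩ : ∃ t : ℝ, 0 < t ∧ t < ρ₁ ∧ t < ρ₂ ∧ t < Real.sin φ := by
    refine ⟨min (min ρ₁ ρ₂) (Real.sin φ) / 2, by positivity, ?_, ?_, ?_⟩
    · linarith [min_le_left (min ρ₁ ρ₂) (Real.sin φ), min_le_left ρ₁ ρ₂]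
    · linarith [min_le_left (min ρ₁ ρ₂) (Real.sin φ), min_le_right ρ₁ ρ₂]
    · linarith [min_le_right (min ρ₁ ρ₂) (Real.sin φ)]
  have hsc := Real.sin_sq_add_cos_sq φ
  have hts : 0 < t * Real.sin φ := mul_pos ht0 hs
  have hk : Real.cos φ / Real.sin φ * (t * Real.sin φ) = t * Real.cos φ := by field_simp
  set z : ℂ := ⟨nB + (-1) * (t * Real.cos φ), 0 - (-1) * (t * Real.sin φ)⟩ with hz
  set z' : ℂ := ⟨nT + 1 * (t * Real.cos φ), Real.pi - 1 * (t * Real.sin φ)⟩ with hz'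
  have e : rf (mid nT nB) (nphi φ) z = z' := by
    have e1 := rf_sub (mid nT nB) (nphi φ) z ⟨nB, 0⟩
    rw [hr, sub_eq_iff_eq_add] at e1
    rw [e1]
    apply Complex.ext
    · simp only [rf, dot, nphi, hz, hz', add_re, sub_re, sub_im, re_ofReal_mul, zero_re, zero_im]
      linear_combination (2 * t * Real.cos φ) * hsc
    · simp only [rf, dot, nphi, hz, hz', add_im, sub_re, sub_im, im_ofReal_mul, zero_re, zero_im]
      linear_combination (-2 * t * Real.sin φ) * hsc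
  have b1 : z' ∈ ball (⟨nT, Real.pi⟩ : ℂ) ρ₁ := by
    rw [mem_ball, hz', UD7_norm _ _ _ _ ht0.le 1 (by norm_num)]
    exact ht1
  have b2 : z ∈ ball (⟨nB, 0⟩ : ℂ) ρ₂ := by
    rw [mem_ball, hz, UD7_norm _ _ _ _ ht0.le (-1) (by norm_num)]
    exact ht2
  have p1 : 0 < u z' := by
    refine (c1 z' b1 (by simp only [hz']; linarith)).2.1 (le_of_eq ?_)
    simp only [hz']
    linear_combination hk
  have p2 : u z < 0 := by
    refine (c2 z b2 (by simp only [hz]; linarith)).2.2 (le_of_eq ?_)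
    simp only [hz]
    linear_combination hk
  have hd : 0 < dot (z - mid nT nB) (nphi φ) := by
    have e2 : dot (z - mid nT nB) (nphi φ) =
        (nB - nT) / 2 * Real.cos φ + Real.pi / 2 * Real.sin φ - t := by
      simp [dot, nphi, mid, hz]
      linear_combination (-t) * hsc
    rw [e2]
    have a1 : 0 < (nB - nT) / 2 * Real.cos φ := mul_pos (by linarith) hc
    have a2 : 1 * Real.sin φ ≤ Real.pi / 2 * Real.sin φ :=
      mul_le_mul_of_nonneg_right (by linarith [Real.two_le_pi]) hs.le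
    linarith
  have := hg z hd
  rw [e] at this
  linarith

theorem UD7_low (h : Pat Ω lam u l r n n) (hL : Loc Ω u n n) {z : ℂ} (hz : z.im < Real.pi / 2) :
    u (fy z) ≤ u z := by
  have hg : Good u (mid n n) (nphi (Real.pi / 2)) :=
    h.good_all hL le_rfl ⟨by positivity, (phis_self n).ge⟩
  have := hg z (by
    simp [dot, nphi, mid]
    linarith)
  rwa [rf_half] at this

theorem UD7_zero (h : Pat Ω lam u l r n n) (hL : Loc Ω u n n) {z : ℂ} (hz : z ∈ Ω)
    (hz' : fy z ∈ Ω) (hy : z.im < Real.pi / 2) : u (fy z) = u z := by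
  have hf := h.toStr.flipY
  have hpi := Real.pi_pos
  have hH : Convex ℝ {z : ℂ | z.im < Real.pi / 2} := convex_halfSpace_im_lt _
  have hHo : IsOpen {z : ℂ | z.im < Real.pi / 2} := isOpen_lt continuous_im continuous_const
  have hWo : IsOpen (Ω ∩ fy ⁻¹' Ω ∩ {z : ℂ | z.im < Real.pi / 2}) :=
    (h.isOpen.inter hf.isOpen).inter hHo
  have hWc : Convex ℝ (Ω ∩ fy ⁻¹' Ω ∩ {z : ℂ | z.im < Real.pi / 2}) :=
    (h.convex.inter hf.convex).inter hH
  have hv : Helm lam (Ω ∩ fy ⁻¹' Ω ∩ {z : ℂ | z.im < Real.pi / 2}) fun z => u z - u (fy z) :=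
    (h.helm.mono hWo fun _ hx => hx.1.1).sub (hf.helm.mono hWo fun _ hx => hx.1.2)
  have hl := h.toMn.lam_pos.le
  rcases strong_max hv hl hWc.isPreconnected
    (fun x hx => sub_nonneg.2 (UD7_low h hL hx.2)) with hp | hp
  · exfalso
    have hM : dist (⟨n, Real.pi / 4⟩ : ℂ) (mid n n) = Real.pi / 4 := by
      have e : mid n n = ⟨n, Real.pi / 2⟩ := by simp [mid]
      rw [e, ConeT_dv, abs_of_neg (by linarith)]
      ring
    have hsub : ball (⟨n, Real.pi / 4⟩ : ℂ) (Real.pi / 4) ⊆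
        Ω ∩ fy ⁻¹' Ω ∩ {z : ℂ | z.im < Real.pi / 2} := by
      intro x hx
      rw [mem_ball] at hx
      have d1 : dist x (mid n n) < Real.pi / 2 := by
        linarith [dist_triangle x (⟨n, Real.pi / 4⟩ : ℂ) (mid n n)]
      refine ⟨⟨hL.ball_sub d1, hL.ball_sub ?_⟩, ?_⟩
      · rw [mem_ball, dist_eq_norm, ← rf_half n, norm_rf_sub _ (norm_nphi _), ← dist_eq_norm]
        exact d1
      · have d2 := abs_im_le_norm (x - ⟨n, Real.pi / 4⟩)
        rw [← dist_eq_norm, abs_le] at d2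
        have d3 := d2.2
        simp only [sub_im] at d3
        show x.im < Real.pi / 2
        linarith
    obtain ⟨a, ha, hh⟩ := hopf (hv.mono isOpen_ball hsub) hl (by positivity)
      fun x hx => hp x (hsub hx)
    obtain ⟨ρ₁, hρ₁, c1⟩ := h.toStr.slope_lower (γ := -(a / 2)) h.memT (by rw [h.zT]; linarith)
    obtain ⟨ρ₂, hρ₂, c2⟩ := h.toStr.slopeB_upper (γ := a / 2) h.memB (by rw [h.zB]; linarith)
    obtain ⟨t, ht0, ht1, ht2, ht3⟩ : ∃ t : ℝ, 0 < t ∧ t < ρ₁ ∧ t < ρ₂ ∧ t < Real.pi / 4 := by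
      refine ⟨min (min ρ₁ ρ₂) (Real.pi / 4) / 2, by positivity, ?_, ?_, ?_⟩
      · linarith [min_le_left (min ρ₁ ρ₂) (Real.pi / 4), min_le_left ρ₁ ρ₂]
      · linarith [min_le_left (min ρ₁ ρ₂) (Real.pi / 4), min_le_right ρ₁ ρ₂]
      · linarith [min_le_right (min ρ₁ ρ₂) (Real.pi / 4)]
    have d0 : dist (⟨n, t⟩ : ℂ) ⟨n, Real.pi / 4⟩ = Real.pi / 4 - t := by
      rw [ConeT_dv, abs_of_neg (by linarith)]
      ring
    have k0 := hh ⟨n, t⟩ (by rw [mem_ball, d0]; linarith)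
    rw [← dist_eq_norm, d0] at k0
    have k1 := (c1 ⟨n, Real.pi - t⟩ (by
      rw [mem_ball, ConeT_dv, abs_of_neg (by linarith)]
      linarith) (by show Real.pi - t < Real.pi; linarith)).2
    have k2 := (c2 ⟨n, t⟩ (by
      rw [mem_ball, ConeT_dv, abs_of_pos (by linarith)]
      linarith) ht0).2
    simp only [fy] at k0 k1 k2
    linarith
  · exact (sub_eq_zero.1 (hp z ⟨⟨hz, hz'⟩, hy⟩)).symm

theorem UD7_both (h : Pat Ω lam u l r n n) (hL : Loc Ω u n n) {z : ℂ} (hz : z ∈ Ω)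
    (hz' : fy z ∈ Ω) : u (fy z) = u z := by
  rcases lt_trichotomy z.im (Real.pi / 2) with hy | hy | hy
  · exact UD7_zero h hL hz hz' hy
  · have e : fy z = z := by
      apply Complex.ext
      · rfl
      · show Real.pi - z.im = z.im
        linarith
    rw [e]
  · have := UD7_zero h hL hz' (by rwa [fy_fy]) (by show Real.pi - z.im < _; linarith)
    rw [fy_fy] at this
    exact this.symm

theorem UD7_end (h : Pat Ω lam u l r n n) (hL : Loc Ω u n n) {a b y : ℝ} (hab : a < b)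
    (hy : ∀ s ∈ Ioo a b, (⟨s, y⟩ : ℂ) ∈ Ω ∧ (⟨s, Real.pi - y⟩ : ℂ) ∈ Ω) {s : ℝ}
    (hs : s ∈ Icc a b) : u ⟨s, Real.pi - y⟩ = u ⟨s, y⟩ := by
  have hc : IsClosed {s : ℝ | u ⟨s, Real.pi - y⟩ = u ⟨s, y⟩} :=
    isClosed_eq (ConeT_cont h.toStr _) (ConeT_cont h.toStr _)
  have hsub : Ioo a b ⊆ {s : ℝ | u ⟨s, Real.pi - y⟩ = u ⟨s, y⟩} :=
    fun s hs => UD7_both h hL (hy s hs).1 (hy s hs).2
  have := hc.closure_subset_iff.2 hsub
  rw [closure_Ioo hab.ne] at this
  exact this hs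

theorem Pat.sym_u (h : Pat Ω lam u l r n n) (hL : Loc Ω u n n) :
    (∀ z ∈ Ω, fy z ∈ Ω) ∧ ∀ z, u (fy z) = u z := by
  have hΩ : ∀ z ∈ Ω, fy z ∈ Ω := by
    intro z hz
    obtain ⟨ξ₀, ξ₁, x0, x1, w1, w2, w3⟩ := h.win hL
    obtain ⟨hy, z1, z2⟩ := (h.mem z).1 hz
    have hy' : Real.pi - z.im ∈ Ioo 0 Real.pi := ⟨by linarith [hy.2], by linarith [hy.1]⟩
    obtain ⟨a1, a2⟩ := w3 z.im hy
    obtain ⟨a3, a4⟩ := w3 _ hy'
    refine (h.mem _).2 ⟨hy', ?_, ?_⟩
    · show l (Real.pi - z.im) < z.re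
      by_contra hc
      have hc' := not_lt.1 hc
      have k := UD7_end h hL (a := l (Real.pi - z.im)) (b := n) (y := z.im) (by linarith)
        (fun s hs => ⟨(h.mem _).2 ⟨hy, by show l z.im < s; linarith [hs.1],
            by show s < r z.im; linarith [hs.2]⟩,
          (h.mem _).2 ⟨hy', hs.1, by show s < r (Real.pi - z.im); linarith [hs.2]⟩⟩)
        ⟨le_rfl, by linarith⟩
      rw [h.lip.zero _ fun hm => lt_irrefl _ ((h.mem _).1 hm).2.1] at k
      have k2 := w2 ⟨l (Real.pi - z.im), z.im⟩ ((h.mem _).2 ⟨hy,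
        by show l z.im < l (Real.pi - z.im); linarith,
        by show l (Real.pi - z.im) < r z.im; linarith⟩)
        (by show l (Real.pi - z.im) < _; linarith)
      linarith
    · show z.re < r (Real.pi - z.im)
      by_contra hc
      have hc' := not_lt.1 hc
      have k := UD7_end h hL (a := n) (b := r (Real.pi - z.im)) (y := z.im) (by linarith)
        (fun s hs => ⟨(h.mem _).2 ⟨hy, by show l z.im < s; linarith [hs.1],
            by show s < r z.im; linarith [hs.2]⟩,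
          (h.mem _).2 ⟨hy', by show l (Real.pi - z.im) < s; linarith [hs.1], hs.2⟩⟩)
        ⟨by linarith, le_rfl⟩
      rw [h.lip.zero _ fun hm => lt_irrefl _ ((h.mem _).1 hm).2.2] at k
      have k2 := w1 ⟨r (Real.pi - z.im), z.im⟩ ((h.mem _).2 ⟨hy,
        by show l z.im < r (Real.pi - z.im); linarith,
        by show r (Real.pi - z.im) < r z.im; linarith⟩)
        (by show _ < r (Real.pi - z.im); linarith)
      linarith
  refine ⟨hΩ, fun z => ?_⟩
  by_cases hz : z ∈ Ω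
  · exact UD7_both h hL hz (hΩ z hz)
  · rw [h.lip.zero z hz, h.lip.zero (fy z) fun hm => hz (by simpa only [fy_fy] using hΩ _ hm)]

theorem UD7_ray (h : Pat Ω lam u l r n n) (hL : Loc Ω u n n) {a b : ℝ} (ha : 0 < a) (hb : 0 < b)
    {q : ℂ} (hq : q ∈ Ω) (he : (q.re - n) * b = (q.im - Real.pi / 2) * a) :
    0 < (grad u q).re * b - (grad u q).im * a := by
  have h0 : 0 < Real.arctan (a / b) := Real.arctan_pos.2 (div_pos ha hb)
  have h1 := Real.arctan_lt_pi_div_two (a / b)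
  have hc := Real.cos_arctan_pos (a / b)
  have ht := Real.tan_arctan (a / b)
  generalize Real.arctan (a / b) = φ at h0 h1 hc ht
  rw [Real.tan_eq_sin_div_cos, div_eq_div_iff hc.ne' hb.ne'] at ht
  have hφ : φ < phis n n := by rwa [phis_self]
  have hU : UDs Ω lam u l r n n φ :=
    ⟨h, hL, le_rfl, h0, hφ, h.good_all hL le_rfl ⟨h0, hφ.le⟩⟩
  have e0 : dot (q - mid n n) (nphi φ) = 0 := by
    refine mul_left_cancel₀ hb.ne' ?_
    simp only [dot, nphi, mid, sub_re, sub_im]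
    linear_combination Real.cos φ * he - (q.im - Real.pi / 2) * ht
  have k := hU.on_line hq e0
  have k2 : b * dot (grad u q) (nphi φ) = Real.cos φ * ((grad u q).re * b - (grad u q).im * a) := by
    simp only [dot, nphi]
    linear_combination (-(grad u q).im) * ht
  have k3 := mul_pos hb k
  rw [k2] at k3
  exact (mul_pos_iff_of_pos_left hc).1 k3

theorem UD7_kill (G z : ℂ) (n : ℝ) :
    dot G (kill (I * mid n n) (-1) z) = G.re * (z.im - Real.pi / 2) - G.im * (z.re - n) := by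
  simp [dot, kill, mid]
  ring

theorem UD7_off (h : Pat Ω lam u l r n n) (hL : Loc Ω u n n) {z : ℂ} (hz : z ∈ Ω)
    (hy : Real.pi / 2 < z.im) (hx : z.re ≠ n) :
    0 < dot (grad u z) (kill (I * mid n n) (-1) z) := by
  rw [UD7_kill]
  rcases lt_or_gt_of_ne hx with hx | hx
  · obtain ⟨s1, s2⟩ := h.sym_u hL
    have k := UD7_ray h hL (sub_pos.2 hx) (sub_pos.2 hy) (s1 z hz) (by
      simp only [fy]
      ring)
    have e := grad_fy u z
    simp only [s2] at e
    rw [e]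
    simp only [conj_re, conj_im]
    linarith
  · exact UD7_ray h hL (sub_pos.2 hx) (sub_pos.2 hy) hz (mul_comm _ _)

theorem Pat.rot_pos (h : Pat Ω lam u l r n n) (hL : Loc Ω u n n) {z : ℂ} (hz : z ∈ Ω)
    (hy : Real.pi / 2 < z.im) : 0 < dot (grad u z) (kill (I * mid n n) (-1) z) := by
  have hHo : IsOpen {z : ℂ | Real.pi / 2 < z.im} := isOpen_lt continuous_const continuous_im
  have hWo := h.isOpen.inter hHo
  have hWc := h.convex.inter (convex_halfSpace_im_gt (Real.pi / 2))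
  have hF := (h.helm.mono hWo inter_subset_left).of_kill (I * mid n n) (-1)
  have near : ∀ x ∈ Ω, Real.pi / 2 < x.im → x.re = n →
      Tendsto (fun s : ℝ => x + s) (𝓝[>] 0) (𝓝 x) ∧ ∀ᶠ s : ℝ in 𝓝[>] 0, x + s ∈ Ω ∧
        0 < dot (grad u (x + s)) (kill (I * mid n n) (-1) (x + s)) := by
    intro x hx hxy hxn
    have hT : Tendsto (fun s : ℝ => x + s) (𝓝[>] 0) (𝓝 x) := by
      have hc : Continuous fun s : ℝ => x + s := continuous_const.add continuous_ofReal
      have := hc.tendsto 0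
      simp only [ofReal_zero, add_zero] at this
      exact this.mono_left nhdsWithin_le_nhds
    refine ⟨hT, ?_⟩
    filter_upwards [hT.eventually (h.isOpen.mem_nhds hx), self_mem_nhdsWithin] with s h1 h2
    refine ⟨h1, UD7_off h hL h1 (by simpa using hxy) ?_⟩
    have h3 : 0 < s := h2
    simp only [add_re, ofReal_re]
    linarith
  by_cases hn : z.re = n
  · have h0 : ∀ x ∈ Ω ∩ {z : ℂ | Real.pi / 2 < z.im},
        0 ≤ dot (grad u x) (kill (I * mid n n) (-1) x) := by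
      intro x hx
      by_cases hxn : x.re = n
      · obtain ⟨hT, hE⟩ := near x hx.1 hx.2 hxn
        have hc := (hF.continuousOn.continuousAt (hWo.mem_nhds hx)).tendsto.comp hT
        exact ge_of_tendsto hc (hE.mono fun s hs => hs.2.le)
      · exact (UD7_off h hL hx.1 hx.2 hxn).le
    rcases strong_max hF h.toMn.lam_pos.le hWc.isPreconnected h0 with hp | hp
    · exact hp z ⟨hz, hy⟩
    · obtain ⟨s, h1, h2⟩ := (near z hz hy hn).2.exists
      exact absurd (hp _ ⟨h1, by simpa using hy⟩) h2.ne'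
  · exact UD7_off h hL hz hy hn

theorem Pat.sy (h : Pat Ω lam u l r n n) (hL : Loc Ω u n n) : Sy Ω lam u l r n :=
  ⟨h, hL, (h.sym_u hL).1, (h.sym_u hL).2, fun _ hz hy => h.rot_pos hL hz hy⟩

end Pool.Agent.L2K
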