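import Pool.Agent.P.MP_2f6447_an.K.Wall0
import Pool.Agent.P.MP_2f6447_an.K.Flip
import Pool.Agent.P.MP_2f6447_an.K.Refl

/-! Odd reflection through the top wall. -/

open Set MeasureTheory Filter Topology Complex Metric
open scoped ContDiff ComplexConjugate

namespace Pool.Agent.L2K

variable {Ω U : Set ℂ} {lam : ℝ} {u w f g : ℂ → ℝ}
variable {l r : ℝ → ℝ} {nT nB n φ : ℝ}

theorem Str.oe_odd (h : Str Ω lam u l r) (z : ℂ) :
    oe u ⟨z.re, 2 * Real.pi - z.im⟩ = -oe u z := by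
  unfold oe
  rcases lt_trichotomy z.im Real.pi with hz | hz | hz
  · have h1 : ¬ (2 * Real.pi - z.im ≤ Real.pi) := by linarith
    have e : (⟨z.re, 2 * Real.pi - (2 * Real.pi - z.im)⟩ : ℂ) = z := by
      apply Complex.ext <;> simp
    simp only [h1, hz.le, if_true, if_false, e]
  · have h1 : 2 * Real.pi - z.im ≤ Real.pi := by linarith
    have h2 : u z = 0 := h.zero_wall (Or.inr hz.ge)
    have h3 : u ⟨z.re, 2 * Real.pi - z.im⟩ = 0 := h.zero_wall (Or.inr (by simp only; linarith))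
    simp only [h1, hz.le, if_true, h2, h3, neg_zero]
  · have h1 : 2 * Real.pi - z.im ≤ Real.pi := by linarith
    simp only [h1, not_le.2 hz, if_true, if_false, neg_neg]

theorem Wall_ev (u : ℂ → ℝ) {z : ℂ} (hz : z.im < Real.pi) : u =ᶠ[𝓝 z] oe u := by
  filter_upwards [(isOpen_lt continuous_im continuous_const).mem_nhds hz] with y hy
  have hy' : y.im ≤ Real.pi := le_of_lt hy
  simp only [oe, hy', if_true]

theorem Wall_grad (u : ℂ → ℝ) {z : ℂ} (hz : z.im < Real.pi) : grad u z = grad (oe u) z :=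
  grad_congr (Wall_ev u hz)

theorem Wall_helm (h : Str Ω lam u l r) {x ρ : ℝ}
    (hb : ∀ z ∈ ball (⟨x, Real.pi⟩ : ℂ) ρ, z.im < Real.pi → z ∈ Ω) :
    Helm lam (ball (⟨x, Real.pi⟩ : ℂ) ρ) (oe u) := by
  set p : ℂ := ⟨0, Real.pi⟩ with hp
  have hl : 0 ≤ lam := h.toMn.lam_pos.le
  obtain ⟨K, hK⟩ := h.lip.lip
  have hs : ∀ z : ℂ, sim p 1 z = ⟨z.re, z.im + Real.pi⟩ := fun z => by
    apply Complex.ext <;> simp [sim, hp, add_comm]
  have hs' : ∀ z : ℂ, sim (-p) 1 z = ⟨z.re, z.im - Real.pi⟩ := fun z => by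
    apply Complex.ext <;> simp [sim, hp]
    ring
  have hiso : Isometry (sim p 1) := by
    refine Isometry.of_dist_eq fun a b => ?_
    simp [sim]
  have hw : LipschitzWith K fun z => u (sim p 1 z) := by
    have := hK.comp hiso.lipschitz
    rwa [mul_one] at this
  have h1 := h.helm.of_sim p one_ne_zero
  rw [norm_one, one_pow, mul_one] at h1
  have hx : sim p 1 (x : ℂ) = ⟨x, Real.pi⟩ := by
    rw [hs]
    apply Complex.ext <;> simp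
  have h2 : Helm lam (ball (x : ℂ) ρ) (oddE fun z => u (sim p 1 z)) := by
    refine helm_oddE isOpen_ball (fun z hz => ?_) hl hw
      (h1.mono (isOpen_ball.inter (isOpen_lt continuous_im continuous_const)) fun z hz => ?_)
      fun z _ hz => ?_
    · rw [mem_ball] at hz ⊢
      rwa [← Complex.conj_ofReal x, Complex.dist_conj_conj]
    · refine hb _ ?_ ?_
      · rw [mem_ball, ← hx, hiso.dist_eq]
        exact hz.1
      · have : z.im < 0 := hz.2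
        rw [hs]
        simp only
        linarith
    · refine h.zero_wall (Or.inr ?_)
      rw [hs]
      simp only
      linarith
  have h3 := h2.of_sim (-p) one_ne_zero
  rw [norm_one, one_pow, mul_one] at h3
  have hinv : ∀ z : ℂ, sim p 1 (sim (-p) 1 z) = z := fun z => by simp [sim]
  refine (h3.mono isOpen_ball fun z hz => ?_).congr fun z _ => ?_
  · rw [mem_preimage, mem_ball, ← hiso.dist_eq, hinv, hx]
    exact hz
  · show oe u z = oddE (fun z => u (sim p 1 z)) (sim (-p) 1 z)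
    unfold oe oddE
    have e1 : (sim (-p) 1 z).im ≤ 0 ↔ z.im ≤ Real.pi := by
      rw [hs']
      simp
    have e2 : sim p 1 (conj (sim (-p) 1 z)) = ⟨z.re, 2 * Real.pi - z.im⟩ := by
      rw [hs', hs]
      apply Complex.ext <;> simp
      ring
    simp only [e1, hinv, e2]

theorem Wall_cl (h : Str Ω lam u l r) {z : ℂ} (hz : z.im = Real.pi)
    (hx : z.re ∈ Ioo (l Real.pi) (r Real.pi)) : z ∈ closure Ω := by
  have h1 := frontier_subset_closure (h.toGeo.top_mem (Ioo_subset_Icc_self hx))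
  have e : (⟨z.re, Real.pi⟩ : ℂ) = z := by
    apply Complex.ext <;> simp [hz]
  rwa [e] at h1

theorem Str.helm_oeT (h : Str Ω lam u l r) {x : ℝ} (hx : x ∈ Ioo (l Real.pi) (r Real.pi)) :
    ∃ ρ : ℝ, 0 < ρ ∧ ρ ≤ 1 ∧ Helm lam (ball (⟨x, Real.pi⟩ : ℂ) ρ) (oe u) ∧
      (∀ z ∈ ball (⟨x, Real.pi⟩ : ℂ) ρ, z.im < Real.pi → z ∈ Ω) ∧
      (∀ z ∈ ball (⟨x, Real.pi⟩ : ℂ) ρ, z.re ∈ Ioo (l Real.pi) (r Real.pi)) ∧
      ∀ z ∈ ball (⟨x, Real.pi⟩ : ℂ) ρ, z.im ≤ Real.pi → Gr Ω u z = grad (oe u) z := by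
  obtain ⟨ρ, h0, h1, h2, h3⟩ := h.toGeo.ball_top hx
  have hH := Wall_helm h h2
  refine ⟨ρ, h0, h1, hH, h2, h3, fun z hz hz' => ?_⟩
  rcases hz'.lt_or_eq with hlt | heq
  · rw [h.toMn.Gr_eq (h2 z hz hlt), Wall_grad u hlt]
  · have hc := Wall_cl h heq (h3 z hz)
    have := mem_closure_iff_nhdsWithin_neBot.1 hc
    have t1 := h.toMn.tendsto_Gr hc
    have t2 : Tendsto (grad (oe u)) (𝓝[Ω] z) (𝓝 (grad (oe u) z)) :=
      (hH.continuousOn_grad.continuousAt (isOpen_ball.mem_nhds hz)).tendsto.mono_left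
        nhdsWithin_le_nhds
    refine tendsto_nhds_unique t1 (t2.congr' ?_)
    filter_upwards [self_mem_nhdsWithin] with y hy
    exact (Wall_grad u ((h.toGeo.mem y).1 hy).1.2).symm

theorem Wall_contDiff_line (c : ℝ) : ContDiff ℝ ∞ fun s : ℝ => (⟨s, c⟩ : ℂ) := by
  have e : (fun s : ℝ => (⟨s, c⟩ : ℂ)) = fun s : ℝ => ofRealCLM s + (⟨0, c⟩ : ℂ) := by
    funext s
    apply Complex.ext <;> simp
  rw [e]
  exact ofRealCLM.contDiff.add contDiff_const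

theorem Wall_gT_ev (h : Str Ω lam u l r) {x : ℝ} (hx : x ∈ Ioo (l Real.pi) (r Real.pi)) :
    gT Ω u =ᶠ[𝓝 x] fun s => -D I (oe u) ⟨s, Real.pi⟩ := by
  obtain ⟨ρ, h0, -, -, -, -, h5⟩ := h.helm_oeT hx
  have := (Wall_contDiff_line Real.pi).continuous.continuousAt (x := x)
    (ball_mem_nhds (⟨x, Real.pi⟩ : ℂ) h0)
  filter_upwards [this] with s hs
  simp only [gT]
  rw [h5 _ hs le_rfl]
  rfl

theorem Str.contDiffOn_gT (h : Str Ω lam u l r) :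
    ContDiffOn ℝ ∞ (gT Ω u) (Ioo (l Real.pi) (r Real.pi)) := by
  intro x hx
  obtain ⟨ρ, h0, -, hH, -, -, -⟩ := h.helm_oeT hx
  have h1 := ((hH.of_D I).contDiffAt (mem_ball_self h0)).comp x
    (Wall_contDiff_line Real.pi).contDiffAt
  exact (h1.neg.congr_of_eventuallyEq (Wall_gT_ev h hx)).contDiffWithinAt

theorem Wall_flip_mem {x : ℝ} (hx : x ∈ Ioo (l 0) (r 0)) :
    x ∈ Ioo ((fun y => l (Real.pi - y)) Real.pi) ((fun y => r (Real.pi - y)) Real.pi) := by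
  simpa using hx

theorem Wall_gB_ev (h : Str Ω lam u l r) {x : ℝ} (hx : x ∈ Ioo (l 0) (r 0)) :
    gB Ω u =ᶠ[𝓝 x] gT (fy ⁻¹' Ω) fun z => u (fy z) := by
  filter_upwards [isOpen_Ioo.mem_nhds hx] with s hs
  exact (h.gT_flipY (Ioo_subset_Icc_self hs)).symm

theorem Str.contDiffOn_gB (h : Str Ω lam u l r) : ContDiffOn ℝ ∞ (gB Ω u) (Ioo (l 0) (r 0)) := by
  intro x hx
  have h1 := (h.flipY.contDiffOn_gT x (Wall_flip_mem hx)).contDiffAt
    (isOpen_Ioo.mem_nhds (Wall_flip_mem hx))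
  exact (h1.congr_of_eventuallyEq (Wall_gB_ev h hx)).contDiffWithinAt

theorem Wall_deriv (h : Str Ω lam u l r) {x : ℝ} (hx : x ∈ Ioo (l Real.pi) (r Real.pi)) :
    deriv (gT Ω u) x = -D I (D 1 (oe u)) ⟨x, Real.pi⟩ := by
  obtain ⟨ρ, h0, -, hH, -, -, -⟩ := h.helm_oeT hx
  have h1 := (hasDerivAt_re ((hH.of_D I).differentiableAt (mem_ball_self h0))).neg
  rw [(Wall_gT_ev h hx).deriv_eq, hH.D_comm I 1 (mem_ball_self h0)]
  exact h1.deriv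

theorem Wall_D1 (h : Str Ω lam u l r) {x : ℝ} (hx : x ∈ Ioo (l Real.pi) (r Real.pi)) :
    D 1 (oe u) ⟨x, Real.pi⟩ = 0 := by
  obtain ⟨ρ, h0, -, hH, -, -, -⟩ := h.helm_oeT hx
  have h1 := hasDerivAt_re (hH.differentiableAt (mem_ball_self h0))
  have e : (fun s : ℝ => oe u ⟨s, Real.pi⟩) = fun _ => (0 : ℝ) := by
    funext s
    simp only [oe, le_refl, if_true]
    exact h.zero_wall (Or.inr le_rfl)
  rw [e] at h1
  exact h1.unique (hasDerivAt_const x 0)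

theorem Wall_vert {x ρ s : ℝ} {z : ℂ} (hz : z ∈ ball (⟨x, Real.pi⟩ : ℂ) ρ)
    (hs : s ∈ Icc z.im Real.pi) : (⟨z.re, s⟩ : ℂ) ∈ ball (⟨x, Real.pi⟩ : ℂ) ρ := by
  rw [mem_ball, Complex.dist_eq_re_im] at hz ⊢
  refine lt_of_le_of_lt (Real.sqrt_le_sqrt ?_) hz
  simp only
  nlinarith [hs.1, hs.2]

theorem Wall_key (h : Str Ω lam u l r) {x : ℝ} (hx : x ∈ Ioo (l Real.pi) (r Real.pi))
    {S : Set ℝ} (hS : S ∈ 𝓝 (deriv (gT Ω u) x)) :
    ∃ ρ : ℝ, 0 < ρ ∧ ∀ z ∈ ball (⟨x, Real.pi⟩ : ℂ) ρ, z.im < Real.pi →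
      z ∈ Ω ∧ ∃ c ∈ S, (grad u z).re = c * (Real.pi - z.im) := by
  obtain ⟨ρ, h0, -, hH, h2, h3, -⟩ := h.helm_oeT hx
  have hF := hH.of_D 1
  have hc : ContinuousAt (fun z => -D I (D 1 (oe u)) z) ⟨x, Real.pi⟩ :=
    ((hF.of_D I).continuousOn.continuousAt (ball_mem_nhds _ h0)).neg
  rw [Wall_deriv h hx] at hS
  obtain ⟨ρ', h0', hb⟩ := Metric.mem_nhds_iff.1 (inter_mem (hc hS) (ball_mem_nhds _ h0))
  refine ⟨ρ', h0', fun z hz hlt => ⟨h2 z (hb hz).2 hlt, ?_⟩⟩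
  have hd : ∀ s ∈ Icc z.im Real.pi, HasDerivAt (fun t : ℝ => D 1 (oe u) ⟨z.re, t⟩)
      (D I (D 1 (oe u)) ⟨z.re, s⟩) s := fun s hs =>
    hasDerivAt_im (hF.differentiableAt (hb (Wall_vert hz hs)).2)
  obtain ⟨s, hs, e⟩ := exists_hasDerivAt_eq_slope (fun t : ℝ => D 1 (oe u) ⟨z.re, t⟩)
    (fun s => D I (D 1 (oe u)) ⟨z.re, s⟩) hlt
    (fun s hs => (hd s hs).continuousAt.continuousWithinAt)
    (fun s hs => hd s (Ioo_subset_Icc_self hs))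
  refine ⟨_, (hb (Wall_vert hz (Ioo_subset_Icc_self hs))).1, ?_⟩
  have hne : Real.pi - z.im ≠ 0 := by linarith
  rw [Wall_D1 h (h3 z (hb hz).2)] at e
  rw [Wall_grad u hlt]
  show D 1 (oe u) z = -D I (D 1 (oe u)) ⟨z.re, s⟩ * (Real.pi - z.im)
  rw [e]
  field_simp
  simp

theorem Str.ux_lower (h : Str Ω lam u l r) {x γ : ℝ} (hx : x ∈ Ioo (l Real.pi) (r Real.pi))
    (hγ : γ < deriv (gT Ω u) x) : ∃ ρ : ℝ, 0 < ρ ∧ ∀ z ∈ ball (⟨x, Real.pi⟩ : ℂ) ρ,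
      z.im < Real.pi → z ∈ Ω ∧ γ * (Real.pi - z.im) < (grad u z).re := by
  obtain ⟨ρ, h0, h1⟩ := Wall_key h hx (Ioi_mem_nhds hγ)
  refine ⟨ρ, h0, fun z hz hlt => ?_⟩
  obtain ⟨h2, c, hc, e⟩ := h1 z hz hlt
  refine ⟨h2, ?_⟩
  rw [e]
  exact mul_lt_mul_of_pos_right hc (by linarith)

theorem Str.ux_upper (h : Str Ω lam u l r) {x γ : ℝ} (hx : x ∈ Ioo (l Real.pi) (r Real.pi))
    (hγ : deriv (gT Ω u) x < γ) : ∃ ρ : ℝ, 0 < ρ ∧ ∀ z ∈ ball (⟨x, Real.pi⟩ : ℂ) ρ,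
      z.im < Real.pi → z ∈ Ω ∧ (grad u z).re < γ * (Real.pi - z.im) := by
  obtain ⟨ρ, h0, h1⟩ := Wall_key h hx (Iio_mem_nhds hγ)
  refine ⟨ρ, h0, fun z hz hlt => ?_⟩
  obtain ⟨h2, c, hc, e⟩ := h1 z hz hlt
  refine ⟨h2, ?_⟩
  rw [e]
  exact mul_lt_mul_of_pos_right hc (by linarith)

theorem Wall_keyB (h : Str Ω lam u l r) {x : ℝ} (hx : x ∈ Ioo (l 0) (r 0))
    {S : Set ℝ} (hS : S ∈ 𝓝 (deriv (gB Ω u) x)) :
    ∃ ρ : ℝ, 0 < ρ ∧ ∀ z ∈ ball (⟨x, 0⟩ : ℂ) ρ, 0 < z.im →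
      z ∈ Ω ∧ ∃ c ∈ S, (grad u z).re = c * z.im := by
  rw [(Wall_gB_ev h hx).deriv_eq] at hS
  obtain ⟨ρ, h0, h1⟩ := Wall_key h.flipY (Wall_flip_mem hx) hS
  refine ⟨ρ, h0, fun z hz hlt => ?_⟩
  have hm : fy z ∈ ball (⟨x, Real.pi⟩ : ℂ) ρ := by
    rw [mem_ball, Complex.dist_eq_re_im] at hz ⊢
    refine lt_of_le_of_lt (Real.sqrt_le_sqrt (le_of_eq ?_)) hz
    simp only [fy]
    ring
  obtain ⟨h2, c, hc, e⟩ := h1 (fy z) hm (by simp only [fy]; linarith)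
  rw [mem_preimage, fy_fy] at h2
  rw [grad_fy, fy_fy, conj_re] at e
  refine ⟨h2, c, hc, ?_⟩
  rw [e]
  simp [fy]

theorem Str.uxB_lower (h : Str Ω lam u l r) {x γ : ℝ} (hx : x ∈ Ioo (l 0) (r 0))
    (hγ : γ < deriv (gB Ω u) x) : ∃ ρ : ℝ, 0 < ρ ∧ ∀ z ∈ ball (⟨x, 0⟩ : ℂ) ρ,
      0 < z.im → z ∈ Ω ∧ γ * z.im < (grad u z).re := by
  obtain ⟨ρ, h0, h1⟩ := Wall_keyB h hx (Ioi_mem_nhds hγ)
  refine ⟨ρ, h0, fun z hz hlt => ?_⟩
  obtain ⟨h2, c, hc, e⟩ := h1 z hz hlt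
  refine ⟨h2, ?_⟩
  rw [e]
  exact mul_lt_mul_of_pos_right hc hlt

theorem Str.uxB_upper (h : Str Ω lam u l r) {x γ : ℝ} (hx : x ∈ Ioo (l 0) (r 0))
    (hγ : deriv (gB Ω u) x < γ) : ∃ ρ : ℝ, 0 < ρ ∧ ∀ z ∈ ball (⟨x, 0⟩ : ℂ) ρ,
      0 < z.im → z ∈ Ω ∧ (grad u z).re < γ * z.im := by
  obtain ⟨ρ, h0, h1⟩ := Wall_keyB h hx (Iio_mem_nhds hγ)
  refine ⟨ρ, h0, fun z hz hlt => ?_⟩
  obtain ⟨h2, c, hc, e⟩ := h1 z hz hlt
  refine ⟨h2, ?_⟩
  rw [e]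
  exact mul_lt_mul_of_pos_right hc hlt

theorem Str.gT_not_const (h : Str Ω lam u l r) {a b : ℝ} (hab : a < b) (ha : l Real.pi ≤ a)
    (hb : b ≤ r Real.pi) : ∃ x ∈ Ioo a b, deriv (gT Ω u) x ≠ 0 := by
  by_contra hcon
  push Not at hcon
  have hl : 0 ≤ lam := h.toMn.lam_pos.le
  have hpi := Real.pi_pos
  have hx : (a + b) / 2 ∈ Ioo (l Real.pi) (r Real.pi) := ⟨by linarith, by linarith⟩
  obtain ⟨ρ, h0, -, hH, h2, h3, -⟩ := h.helm_oeT hx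
  set ρ' := min ρ ((b - a) / 2) with hρ'
  have h0' : 0 < ρ' := lt_min h0 (by linarith)
  have hsub : ball (⟨(a + b) / 2, Real.pi⟩ : ℂ) ρ' ⊆ ball (⟨(a + b) / 2, Real.pi⟩ : ℂ) ρ :=
    ball_subset_ball (min_le_left _ _)
  have hz := cauchy_zero ((hH.of_D 1).mono isOpen_ball hsub) hl fun z hz hz' => by
    have e : (⟨z.re, Real.pi⟩ : ℂ) = z := by
      apply Complex.ext
      · rfl
      · exact hz'.symm
    have h4 := h3 z (hsub hz)
    have h5 : |z.re - (a + b) / 2| < (b - a) / 2 := by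
      have h6 := Complex.abs_re_le_norm (z - ⟨(a + b) / 2, Real.pi⟩)
      have h7 := mem_ball_iff_norm.1 hz
      have h8 : ρ' ≤ (b - a) / 2 := min_le_right _ _
      simp only [sub_re] at h6
      linarith
    have h6 := abs_lt.1 h5
    have h7 := hcon z.re ⟨by linarith [h6.1], by linarith [h6.2]⟩
    rw [Wall_deriv h h4, e, neg_eq_zero] at h7
    have h8 := Wall_D1 h h4
    rw [e] at h8
    exact ⟨h8, h7⟩
  set q : ℂ := ⟨(a + b) / 2, Real.pi - ρ' / 2⟩ with hq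
  have hq1 : q ∈ ball (⟨(a + b) / 2, Real.pi⟩ : ℂ) ρ' := by
    rw [mem_ball, Complex.dist_eq_re_im, Real.sqrt_lt' h0']
    simp only [hq]
    nlinarith
  have hq2 : q.im < Real.pi := by
    simp only [hq]
    linarith
  have hu := uc (h.helm.of_D 1) hl h.convex.isPreconnected (h2 q (hsub hq1) hq2) (by
    filter_upwards [isOpen_ball.mem_nhds hq1,
      (isOpen_lt continuous_im continuous_const).mem_nhds hq2] with y hy hy'
    have e : D 1 u y = D 1 (oe u) y := congrArg Complex.re (Wall_grad u hy')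
    rw [e]
    exact hz y hy)
  have hm : Real.pi / 2 ∈ Ioo 0 Real.pi := ⟨by linarith, by linarith⟩
  have hp : Arc l r ⟨l (Real.pi / 2), Real.pi / 2⟩ := ⟨hm, Or.inl rfl⟩
  have hc := frontier_subset_closure (h.toGeo.left_mem (Ioo_subset_Icc_self hm))
  have := mem_closure_iff_nhdsWithin_neBot.1 hc
  have t1 := (continuous_re.tendsto _).comp (h.toMn.tendsto_Gr hc)
  refine h.arc_re_ne hp (tendsto_nhds_unique t1 (tendsto_const_nhds.congr' ?_))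
  filter_upwards [self_mem_nhdsWithin] with y hy
  exact (hu y hy).symm

theorem Str.gB_not_const (h : Str Ω lam u l r) {a b : ℝ} (hab : a < b) (ha : l 0 ≤ a)
    (hb : b ≤ r 0) : ∃ x ∈ Ioo a b, deriv (gB Ω u) x ≠ 0 := by
  obtain ⟨x, hx, h1⟩ := h.flipY.gT_not_const hab (by simpa using ha) (by simpa using hb)
  refine ⟨x, hx, ?_⟩
  rwa [(Wall_gB_ev h ⟨lt_of_le_of_lt ha hx.1, lt_of_lt_of_le hx.2 hb⟩).deriv_eq]

end Pool.Agent.L2K
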