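import Pool.Agent.P.MP_2f6447_an.K.ConeT

/-! The window, formulas for the rotating reflection. -/

open Set MeasureTheory Filter Topology Complex Metric
open scoped ContDiff ComplexConjugate

namespace Pool.Agent.L2K

variable {Ω U : Set ℂ} {lam : ℝ} {u w f g : ℂ → ℝ}
variable {l r : ℝ → ℝ} {nT nB n φ : ℝ}

theorem Pat.win (h : Pat Ω lam u l r nT nB) (hL : Loc Ω u nT nB) : ∃ ξ₀ ξ₁ : ℝ, 0 ≤ ξ₀ ∧ ξ₀ < ξ₁ ∧
    (∀ z ∈ Ω, (nT + nB) / 2 + ξ₀ < z.re → 0 < u z) ∧
    (∀ z ∈ Ω, z.re < (nT + nB) / 2 - ξ₀ → u z < 0) ∧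
    ∀ y ∈ Ioo 0 Real.pi, l y < (nT + nB) / 2 - ξ₁ ∧ (nT + nB) / 2 + ξ₁ < r y := by
  obtain ⟨a, b, h0, h1, -, h3, h4⟩ := hL.win
  have hG := h.toStr.toGeo
  refine ⟨a, b, h0, h1, h.pos_right fun z hz hu => ?_, h.neg_left fun z hz hu => ?_,
    fun y hy => ⟨?_, ?_⟩⟩
  · linarith [(abs_le.1 (h3 z hz hu)).2]
  · linarith [(abs_le.1 (h3 z hz hu)).1]
  · have := h4 ⟨(nT + nB) / 2 - b, y⟩ hy.1 hy.2 (abs_le.2 ⟨by simp, by simp; linarith⟩)
    exact ((hG.mem _).1 this).2.1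
  · have := h4 ⟨(nT + nB) / 2 + b, y⟩ hy.1 hy.2 (abs_le.2 ⟨by simp; linarith, by simp⟩)
    exact ((hG.mem _).1 this).2.2

theorem Loc.ball_sub (hL : Loc Ω u nT nB) : ball (mid nT nB) (Real.pi / 2) ⊆ Ω := by
  intro z hz
  rw [mem_ball, dist_eq_norm] at hz
  have h1 := abs_le.1 (Complex.abs_im_le_norm (z - mid nT nB))
  have h2 := abs_le.1 (Complex.abs_im_le_norm ((⟨nT, Real.pi⟩ : ℂ) - mid nT nB))
  have e : (mid nT nB).im = Real.pi / 2 := rfl
  simp only [sub_im, e] at h1 h2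
  exact hL.disc z (by linarith [h1.1]) (by linarith [h1.2]) (by linarith [h2.2])

theorem Loc.mid_mem (hL : Loc Ω u nT nB) : mid nT nB ∈ Ω :=
  hL.ball_sub (mem_ball_self (by positivity))

theorem norm_nphi (φ : ℝ) : ‖nphi φ‖ = 1 := by
  rw [← sq_eq_sq₀ (norm_nonneg _) zero_le_one, Complex.sq_norm, Complex.normSq_apply]
  simp only [nphi]
  nlinarith [Real.sin_sq_add_cos_sq φ]

theorem continuous_nphi : Continuous nphi := by
  have e : nphi = fun φ : ℝ => ((Real.cos φ : ℝ) : ℂ) + ((-Real.sin φ : ℝ) : ℂ) * I := by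
    funext φ
    exact Complex.mk_eq_add_mul_I _ _
  rw [e]
  fun_prop

theorem rf_nphi_re (M z : ℂ) (φ : ℝ) : (rf M (nphi φ) z).re =
    M.re - (z.re - M.re) * Real.cos (2 * φ) + (z.im - M.im) * Real.sin (2 * φ) := by
  simp only [rf, dot, nphi, sub_re, sub_im, mul_re, ofReal_re, ofReal_im, Real.cos_two_mul,
    Real.sin_two_mul]
  ring

theorem rf_nphi_im (M z : ℂ) (φ : ℝ) : (rf M (nphi φ) z).im =
    M.im + (z.re - M.re) * Real.sin (2 * φ) + (z.im - M.im) * Real.cos (2 * φ) := by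
  simp only [rf, dot, nphi, sub_re, sub_im, mul_im, ofReal_re, ofReal_im, Real.cos_two_mul,
    Real.sin_two_mul]
  linear_combination (-2 * (z.im - M.im)) * Real.sin_sq_add_cos_sq φ

theorem rf_add (M m z : ℂ) : z = rf M m z + ((2 * dot (z - M) m : ℝ) : ℂ) * m := by simp only [rf, sub_add_cancel]

theorem rf_of_dot (M m z : ℂ) (h : dot (z - M) m = 0) : rf M m z = z := by simp [rf, h]

theorem norm_rf_sub (M : ℂ) {m : ℂ} (hm : ‖m‖ = 1) (z : ℂ) : ‖rf M m z - M‖ = ‖z - M‖ := by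
  have h := (isometry_rf M hm).dist_eq z M
  rwa [rf_of_dot M m M (by simp [dot]), dist_eq_norm, dist_eq_norm] at h

theorem continuous_rf_nphi (M : ℂ) : Continuous fun q : ℂ × ℝ => rf M (nphi q.2) q.1 := by
  have h : Continuous fun q : ℂ × ℝ => nphi q.2 := continuous_nphi.comp continuous_snd
  unfold rf dot
  fun_prop

theorem phis_mem (hle : nT ≤ nB) : 0 < phis nT nB ∧ phis nT nB ≤ Real.pi / 2 := by
  have h1 := Real.arctan_lt_pi_div_two ((nB - nT) / Real.pi)
  have h2 : 0 ≤ Real.arctan ((nB - nT) / Real.pi) :=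
    Real.arctan_nonneg.2 (div_nonneg (sub_nonneg.2 hle) Real.pi_pos.le)
  unfold phis
  constructor <;> linarith

theorem phis_lt_half (hlt : nT < nB) : phis nT nB < Real.pi / 2 := by
  have h2 : 0 < Real.arctan ((nB - nT) / Real.pi) :=
    Real.arctan_pos.2 (div_pos (sub_pos.2 hlt) Real.pi_pos)
  unfold phis
  linarith

theorem Win_phis_eq (nT nB : ℝ) :
    (nB - nT) * Real.sin (phis nT nB) = Real.pi * Real.cos (phis nT nB) := by
  have hp := Real.pi_pos
  have h1 := Real.tan_arctan ((nB - nT) / Real.pi)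
  have h2 := Real.cos_arctan_pos ((nB - nT) / Real.pi)
  rw [Real.tan_eq_sin_div_cos, div_eq_div_iff h2.ne' hp.ne'] at h1
  rw [phis, Real.sin_pi_div_two_sub, Real.cos_pi_div_two_sub]
  linarith

theorem phis_lt (hle : nT ≤ nB) (h0 : 0 < φ) (h1 : φ < phis nT nB) :
    (nB - nT) * Real.sin φ < Real.pi * Real.cos φ := by
  obtain ⟨a1, a2⟩ := phis_mem hle
  have hp := Real.pi_pos
  have hS : 0 < Real.sin (phis nT nB) := Real.sin_pos_of_pos_of_lt_pi a1 (by linarith)
  have h2 : 0 < Real.sin (phis nT nB - φ) :=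
    Real.sin_pos_of_pos_of_lt_pi (by linarith) (by linarith)
  rw [Real.sin_sub] at h2
  have h3 := Win_phis_eq nT nB
  have h4 : Real.sin (phis nT nB) * ((nB - nT) * Real.sin φ) <
      Real.sin (phis nT nB) * (Real.pi * Real.cos φ) := by
    have := mul_pos hp h2
    have h5 : Real.sin (phis nT nB) * ((nB - nT) * Real.sin φ) =
        Real.pi * Real.cos (phis nT nB) * Real.sin φ := by rw [← h3]; ring
    rw [h5]
    linarith
  exact lt_of_mul_lt_mul_left h4 hS.le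

theorem phis_eq (nT nB : ℝ) :
    (nB - nT) * Real.sin (phis nT nB) = Real.pi * Real.cos (phis nT nB) :=
  Win_phis_eq nT nB

theorem phis_self (n : ℝ) : phis n n = Real.pi / 2 := by simp [phis]

theorem rf_phis (nT nB : ℝ) :
    rf (mid nT nB) (nphi (phis nT nB)) ⟨nB, 0⟩ = ⟨nT, Real.pi⟩ := by
  have h := Win_phis_eq nT nB
  have h1 := Real.sin_sq_add_cos_sq (phis nT nB)
  apply Complex.ext
  · rw [rf_nphi_re, Real.cos_two_mul, Real.sin_two_mul]
    simp only [mid]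
    linear_combination Real.sin (phis nT nB) * h - (nB - nT) * h1
  · rw [rf_nphi_im, Real.cos_two_mul, Real.sin_two_mul]
    simp only [mid]
    linear_combination Real.cos (phis nT nB) * h

theorem rf_half (n : ℝ) : rf (mid n n) (nphi (Real.pi / 2)) = fy := by
  funext z
  have e : 2 * (Real.pi / 2) = Real.pi := by ring
  apply Complex.ext
  · rw [rf_nphi_re, e, Real.cos_pi, Real.sin_pi]
    simp only [fy]
    ring
  · rw [rf_nphi_im, e, Real.cos_pi, Real.sin_pi]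
    simp only [fy, mid]
    ring

theorem isClosed_good (hu : Continuous u) (M : ℂ) : IsClosed {φ : ℝ | Good u M (nphi φ)} := by
  have e : {φ : ℝ | Good u M (nphi φ)} =
      ⋂ z : ℂ, ({φ : ℝ | dot (z - M) (nphi φ) ≤ 0} ∪ {φ : ℝ | u (rf M (nphi φ) z) ≤ u z}) := by
    ext φ
    simp only [Good, mem_ofPred_eq, mem_iInter, mem_union]
    refine forall_congr' fun z => ⟨fun h => ?_, fun h h0 => h.resolve_left (not_le.2 h0)⟩
    rcases le_or_gt (dot (z - M) (nphi φ)) 0 with h0 | h0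
    · exact Or.inl h0
    · exact Or.inr (h h0)
  rw [e]
  refine isClosed_iInter fun z => IsClosed.union (isClosed_le ?_ continuous_const)
    (isClosed_le (hu.comp ?_) continuous_const)
  · have := continuous_nphi
    unfold dot
    fun_prop
  · exact (continuous_rf_nphi M).comp (Continuous.prodMk_right z)

theorem Win_cont_dot (M m : ℂ) : Continuous fun z : ℂ => dot (z - M) m := by
  unfold dot
  fun_prop

theorem isOpen_bad (hu : Continuous u) (M : ℂ) {m : ℂ} (hm : ‖m‖ = 1) : IsOpen (Bad u M m) :=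
  (isOpen_lt continuous_const (Win_cont_dot M m)).inter
    (isOpen_lt hu (hu.comp (isometry_rf M hm).continuous))

theorem bad_frontier (hu : Continuous u) (M : ℂ) {m : ℂ} (hm : ‖m‖ = 1) {z : ℂ}
    (hz : z ∈ frontier (Bad u M m)) : u (rf M m z) = u z := by
  have hc := hu.comp (isometry_rf M hm).continuous
  rw [(isOpen_bad hu M hm).frontier_eq] at hz
  have hcl : IsClosed {z : ℂ | 0 ≤ dot (z - M) m ∧ u z ≤ u (rf M m z)} :=
    (isClosed_le continuous_const (Win_cont_dot M m)).inter (isClosed_le hu hc)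
  obtain ⟨h1, h2⟩ := closure_minimal
    (show Bad u M m ⊆ {z : ℂ | 0 ≤ dot (z - M) m ∧ u z ≤ u (rf M m z)} from
      fun _ hx => ⟨hx.1.le, hx.2.le⟩) hcl hz.1
  rcases h1.eq_or_lt with h1 | h1
  · rw [rf_of_dot M m z h1.symm]
  · exact le_antisymm (not_lt.1 fun h => hz.2 ⟨h1, h⟩) h2

theorem good_iff (M m : ℂ) : Good u M m ↔ ¬ (Bad u M m).Nonempty := by
  constructor
  · rintro h ⟨z, h1, h2⟩
    exact absurd (h z h1) (not_le.2 h2)
  · intro h z h1
    exact not_lt.1 fun h2 => h ⟨z, h1, h2⟩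

end Pool.Agent.L2K
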