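import Pool.Agent.P.MP_2f6447_an.K.CLG
import Pool.Agent.P.MP_2f6447_an.K.Wall
import Pool.Agent.P.MP_2f6447_an.K.Two2

/-! Components of the set where `u_x` has a sign. -/

open Set MeasureTheory Filter Topology Complex Metric
open scoped ContDiff ComplexConjugate

namespace Pool.Agent.L2K

variable {Ω U : Set ℂ} {lam : ℝ} {u w f g : ℂ → ℝ}
variable {l r : ℝ → ℝ} {nT nB n φ : ℝ}

theorem Zero_cont (h : Str Ω lam u l r) (σ : ℝ) :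
    ContinuousOn (fun z => σ * (Gr Ω u z).re) (closure Ω) :=
  continuousOn_const.mul (Complex.continuous_re.comp_continuousOn h.toMn.continuousOn_Gr)

theorem Zero_sub (σ : ℝ) (z : ℂ) : cx Ω u σ z ⊆ ux Ω u σ := connectedComponentIn_subset _ _

theorem Zero_subΩ (σ : ℝ) (z : ℂ) : cx Ω u σ z ⊆ Ω := fun _ hy => (Zero_sub σ z hy).1

theorem Zero_D (h : Str Ω lam u l r) {z : ℂ} (hz : z ∈ Ω) : D 1 u z = (Gr Ω u z).re := by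
  rw [h.toMn.Gr_eq hz]; rfl

theorem Zero_tend (h : Str Ω lam u l r) {p : ℂ} (hp : p ∈ closure Ω) :
    Tendsto (D 1 u) (𝓝[Ω] p) (𝓝 (Gr Ω u p).re) :=
  (Complex.continuous_re.tendsto _).comp (h.toMn.tendsto_Gr hp)

theorem Str.isOpen_ux (h : Str Ω lam u l r) (σ : ℝ) : IsOpen (ux Ω u σ) := by
  have h1 : ContinuousOn (fun z => σ * (Gr Ω u z).re) Ω := (Zero_cont h σ).mono subset_closure
  exact h1.isOpen_inter_preimage h.toMn.toIsMin.toDom.isOpen isOpen_Ioi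

theorem Zero_fr (h : Str Ω lam u l r) {σ : ℝ} {z : ℂ} (h1 : ZD Ω u σ z) :
    ∀ p ∈ frontier (cx Ω u σ z), Tendsto (D 1 u) (𝓝[cx Ω u σ z] p) (𝓝 0) := by
  intro p hp
  have hc : p ∈ closure Ω := closure_mono (Zero_subΩ σ z) (frontier_subset_closure hp)
  have h2 := Zero_tend h hc
  rw [h1 p hp] at h2
  exact h2.mono_left (nhdsWithin_mono _ (Zero_subΩ σ z))

theorem Zero_ne (h : Str Ω lam u l r) (σ : ℝ) (z : ℂ) : ∀ y ∈ cx Ω u σ z, D 1 u y ≠ 0 := by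
  intro y hy h0
  have h1 := Zero_sub σ z hy
  have h2 : 0 < σ * (Gr Ω u y).re := h1.2
  rw [← Zero_D h h1.1, h0, mul_zero] at h2
  exact lt_irrefl _ h2

theorem Str.zd_unique (h : Str Ω lam u l r) {σ τ : ℝ} {z x : ℂ} (hz : z ∈ ux Ω u σ)
    (hx : x ∈ ux Ω u τ) (h1 : ZD Ω u σ z) (h2 : ZD Ω u τ x) :
    ¬ Disjoint (cx Ω u σ z) (cx Ω u τ x) := by
  intro hd
  have hΩ : Dom Ω := h.toMn.toIsMin.toDom
  have hw : Helm (lam2c Ω) Ω (D 1 u) := by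
    rw [← h.toMn.lam_eq]
    exact h.toMn.helm.of_D 1
  obtain ⟨F, c, hc, cF, -, e1, e2⟩ := two_domains hΩ hΩ.convex.isPreconnected Subset.rfl hw
    (cmp_path (h.isOpen_ux σ) hz).1 (cmp_path (h.isOpen_ux τ) hx).1
    ⟨z, mem_connectedComponentIn hz⟩ ⟨x, mem_connectedComponentIn hx⟩
    (Zero_subΩ σ z) (Zero_subΩ τ x) hd (Zero_ne h σ z) (Zero_ne h τ x) (Zero_fr h h1)
    (Zero_fr h h2)
  have hy : Real.pi / 2 ∈ Ioo 0 Real.pi := ⟨by positivity, by linarith [Real.pi_pos]⟩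
  have hp : (⟨l (Real.pi / 2), Real.pi / 2⟩ : ℂ) ∈ frontier Ω :=
    h.toGeo.left_mem (Ioo_subset_Icc_self hy)
  have ha : Arc l r ⟨l (Real.pi / 2), Real.pi / 2⟩ := ⟨hy, Or.inl rfl⟩
  generalize (⟨l (Real.pi / 2), Real.pi / 2⟩ : ℂ) = p at hp ha
  have hn : p ∉ Ω := hΩ.notMem_of_frontier hp
  have hcl : p ∈ closure Ω := frontier_subset_closure hp
  have h0 : F p = 0 := e2 p (fun hh => hn (Zero_subΩ σ z hh)) (fun hh => hn (Zero_subΩ τ x hh))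
  have t1 : Tendsto F (𝓝[Ω] p) (𝓝 0) := by
    rw [← h0]
    exact (cF.tendsto p).mono_left nhdsWithin_le_nhds
  have t2 : Tendsto F (𝓝[Ω] p) (𝓝 (c * (Gr Ω u p).re)) := by
    refine ((Zero_tend h hcl).const_mul c).congr' ?_
    filter_upwards [self_mem_nhdsWithin] with y hy
    exact (e1 y hy).symm
  have hb : (𝓝[Ω] p).NeBot := mem_closure_iff_nhdsWithin_neBot.1 hcl
  have h3 := tendsto_nhds_unique t2 t1
  exact mul_ne_zero hc (h.arc_re_ne ha) h3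

theorem Str.cx_alt (h : Str Ω lam u l r) {σ : ℝ} {z : ℂ} (hz : z ∈ ux Ω u σ) :
    ZD Ω u σ z ∨ ∃ p, Arc l r p ∧ 0 < σ * (Gr Ω u p).re ∧
      ∃ ρ : ℝ, 0 < ρ ∧ Ω ∩ ball p ρ ⊆ cx Ω u σ z := by
  have hσ : σ ≠ 0 := by
    intro h0
    have h2 : 0 < σ * (Gr Ω u z).re := hz.2
    rw [h0, zero_mul] at h2
    exact lt_irrefl _ h2
  rcases cmp_alt h.toMn.toIsMin.toDom (Zero_cont h σ) z with h1 | ⟨p, hp, h1, ρ, hρ, h2⟩
  · left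
    intro p hp
    exact (mul_eq_zero.1 (h1 p hp)).resolve_left hσ
  · right
    refine ⟨p, h.arc_of_re_ne hp fun h0 => ?_, h1, ρ, hρ, h2⟩
    have h3 : 0 < σ * (Gr Ω u p).re := h1
    rw [h0, mul_zero] at h3
    exact lt_irrefl _ h3

theorem Zero_ball (h : Str Ω lam u l r) {σ ρ : ℝ} {p : ℂ} (hp : p ∈ closure Ω) (hρ : 0 < ρ)
    (hs : ∀ z ∈ Ω ∩ ball p ρ, 0 < σ * (grad u z).re) :
    ∃ z ∈ ux Ω u σ, ∃ ρ : ℝ, 0 < ρ ∧ Ω ∩ ball p ρ ⊆ cx Ω u σ z := by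
  have hΩ : Dom Ω := h.toMn.toIsMin.toDom
  obtain ⟨z, hz1, hz2⟩ := _root_.mem_closure_iff.1 hp _ isOpen_ball (mem_ball_self hρ)
  have hsub : Ω ∩ ball p ρ ⊆ ux Ω u σ := fun y hy =>
    ⟨hy.1, by rw [h.toMn.Gr_eq hy.1]; exact hs y hy⟩
  refine ⟨z, hsub ⟨hz2, hz1⟩, ρ, hρ, ?_⟩
  exact (hΩ.convex.inter (convex_ball p ρ)).isPreconnected.subset_connectedComponentIn
    ⟨hz2, hz1⟩ hsub

theorem Str.cx_top (h : Str Ω lam u l r) {σ x : ℝ} (hx : x ∈ Ioo (l Real.pi) (r Real.pi))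
    (hσ : 0 < σ * deriv (gT Ω u) x) : ∃ z ∈ ux Ω u σ, ∃ ρ : ℝ, 0 < ρ ∧
      Ω ∩ ball (⟨x, Real.pi⟩ : ℂ) ρ ⊆ cx Ω u σ z := by
  have hp : (⟨x, Real.pi⟩ : ℂ) ∈ closure Ω :=
    frontier_subset_closure (h.toGeo.top_mem (Ioo_subset_Icc_self hx))
  rcases mul_pos_iff.1 hσ with ⟨h1, h2⟩ | ⟨h1, h2⟩
  · obtain ⟨ρ, hρ, h3⟩ := h.ux_lower hx h2
    refine Zero_ball h hp hρ fun z hz => mul_pos h1 ?_
    have h4 := (h3 z hz.2 ((h.toGeo.mem z).1 hz.1).1.2).2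
    rwa [zero_mul] at h4
  · obtain ⟨ρ, hρ, h3⟩ := h.ux_upper hx h2
    refine Zero_ball h hp hρ fun z hz => mul_pos_of_neg_of_neg h1 ?_
    have h4 := (h3 z hz.2 ((h.toGeo.mem z).1 hz.1).1.2).2
    rwa [zero_mul] at h4

theorem Str.cx_bot (h : Str Ω lam u l r) {σ x : ℝ} (hx : x ∈ Ioo (l 0) (r 0))
    (hσ : 0 < σ * deriv (gB Ω u) x) : ∃ z ∈ ux Ω u σ, ∃ ρ : ℝ, 0 < ρ ∧
      Ω ∩ ball (⟨x, 0⟩ : ℂ) ρ ⊆ cx Ω u σ z := by
  have hp : (⟨x, 0⟩ : ℂ) ∈ closure Ω :=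
    frontier_subset_closure (h.toGeo.bot_mem (Ioo_subset_Icc_self hx))
  rcases mul_pos_iff.1 hσ with ⟨h1, h2⟩ | ⟨h1, h2⟩
  · obtain ⟨ρ, hρ, h3⟩ := h.uxB_lower hx h2
    refine Zero_ball h hp hρ fun z hz => mul_pos h1 ?_
    have h4 := (h3 z hz.2 ((h.toGeo.mem z).1 hz.1).1.1).2
    rwa [zero_mul] at h4
  · obtain ⟨ρ, hρ, h3⟩ := h.uxB_upper hx h2
    refine Zero_ball h hp hρ fun z hz => mul_pos_of_neg_of_neg h1 ?_
    have h4 := (h3 z hz.2 ((h.toGeo.mem z).1 hz.1).1.1).2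
    rwa [zero_mul] at h4

theorem Str.cx_path (h : Str Ω lam u l r) {σ : ℝ} {z p q : ℂ} (hz : z ∈ ux Ω u σ)
    (hp : p ∈ closure Ω) (hq : q ∈ closure Ω) (h1 : ∃ ρ : ℝ, 0 < ρ ∧ Ω ∩ ball p ρ ⊆ cx Ω u σ z)
    (h2 : ∃ ρ : ℝ, 0 < ρ ∧ Ω ∩ ball q ρ ⊆ cx Ω u σ z) :
    IsPathConnected (insert p (insert q (cx Ω u σ z))) ∧
      insert p (insert q (cx Ω u σ z)) ⊆ closure Ω := by
  have hΩ : Dom Ω := h.toMn.toIsMin.toDom
  obtain ⟨ρ, hρ, h1⟩ := h1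
  obtain ⟨ρ', hρ', h2⟩ := h2
  have h3 : IsPathConnected (cx Ω u σ z) := (cmp_path (h.isOpen_ux σ) hz).2
  refine ⟨attach hΩ (attach hΩ h3 hq hρ' h2) hp hρ (h1.trans (subset_insert _ _)), ?_⟩
  exact insert_subset hp (insert_subset hq ((Zero_subΩ σ z).trans subset_closure))

end Pool.Agent.L2K
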